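import Pool.Agent.H92.EL.DStm

/-!
# Project T4 (MP_a3214d), assembly: definitions. The two inner statements (`InnF`, `InnU`) on the
number of homomorphisms with given outer data, for all primes `l`
-/

set_option autoImplicit false

open scoped BigOperators Pointwise Topology
open NumberField IsDedekindDomain Filter

namespace Pool.Agent.H92.EL

open Pool.Agent.H98.MF (Om Gm ord Dec top nrm fld rdN rexp rex)

/-- the subgroup generated by the elements of order `l` -/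
def Om1 (l : ℕ) (G : Type) [Group G] : Subgroup G := Subgroup.closure {g : G | g ^ l = 1}

instance Om1.normal (l : ℕ) (G : Type) [Group G] : (Om1 l G).Normal := by
  refine ⟨fun x hx g => ?_⟩
  have h1 : (Om1 l G).map (MulAut.conj g).toMonoidHom ≤ Om1 l G := by
    unfold Om1
    rw [MonoidHom.map_closure, Subgroup.closure_le]
    rintro _ ⟨y, hy, rfl⟩
    refine Subgroup.subset_closure ?_
    have hy' : y ^ l = 1 := hy
    change (MulAut.conj g y) ^ l = 1
    rw [← map_pow, hy', map_one]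
  exact h1 ⟨x, hx, rfl⟩

section

variable {k : Type} [Field k] [NumberField k] {G : Type} [Group G]

/-- conditions depending only on the restrictions to the decomposition groups at `S` -/
def HLo (S : Finset (HeightOneSpectrum (𝓞 k))) (H : (Gm k →* G) → Prop) : Prop :=
  ∀ ρ ρ' : Gm k →* G, (∀ P ∈ S, ∀ σ ∈ Dec P, ρ σ = ρ' σ) → H ρ → H ρ'

/-- congruent modulo the subgroup generated by the elements of order `l` -/
def Cg (l : ℕ) (ρ ρ' : Gm k →* G) : Prop := ∀ σ, ρ σ * (ρ' σ)⁻¹ ∈ Om1 l G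

variable (T : TM k)

/-- the product of the norms of the ramified primes outside `S` -/
noncomputable def nO (S : Finset (HeightOneSpectrum (𝓞 k))) (ρ : Gm k →* G) : ℕ :=
  ∏ᶠ P ∈ {P : HeightOneSpectrum (𝓞 k) | P ∉ S ∧ ρ (T.tau P) ≠ 1}, nrm P

/-- the homomorphisms congruent to `ρ0` with condition `H`, inertia of order dividing `l` outside
`S` and bounded ramification -/
def HI (l : ℕ) (ρ0 : Gm k →* G) (H : (Gm k →* G) → Prop)
    (S : Finset (HeightOneSpectrum (𝓞 k))) (Y : ℝ) : Set (Gm k →* G) :=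
  {ρ | ρ ∈ Hk k G ∧ Cg l ρ ρ0 ∧ H ρ ∧ (∀ P, P ∉ S → ρ (T.tau P) ^ l = 1) ∧ (nO T S ρ : ℝ) ≤ Y}

/-- the primes outside `S` with inertia not of order dividing `l` -/
def Rw (S : Finset (HeightOneSpectrum (𝓞 k))) (l : ℕ) (ρ : Gm k →* G) :
    Set (HeightOneSpectrum (𝓞 k)) := {P | P ∉ S ∧ ρ (T.tau P) ^ l ≠ 1}

/-- the homomorphisms with given `Rw` and bounded discriminant -/
def AR (G : Type) [Group G] (l : ℕ) (S R : Finset (HeightOneSpectrum (𝓞 k))) (X : ℝ) :
    Set (Gm k →* G) :=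
  {ρ | ρ ∈ Hk k G ∧ Rw T S l ρ = (R : Set (HeightOneSpectrum (𝓞 k))) ∧ (dG ρ : ℝ) ≤ X}

end

section

variable {k : Type} [Field k] [NumberField k] (T : TM k) (G : Type) [Group G]

/-- the inner statement for fixed data -/
def InnF (l b : ℕ) : Prop := ∀ ρ0 : Gm k →* G, IsLocallyConstant ρ0 →
  ∀ S : Finset (HeightOneSpectrum (𝓞 k)), Ctn S (Nat.card G) → ∀ H : (Gm k →* G) → Prop,
  HLo S H → ∃ L : ℝ, 0 ≤ L ∧ Tendsto (fun Y : ℝ => ((HI T l ρ0 H S Y).ncard : ℝ) /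
    (Y * Real.log Y ^ (b - 1))) atTop (𝓝 L) ∧ ((∃ Y, (HI T l ρ0 H S Y).Nonempty) → 0 < L)

open Classical in
/-- the uniform inner statement -/
def InnU (l b : ℕ) : Prop := ∃ S : Finset (HeightOneSpectrum (𝓞 k)), Ctn S (Nat.card G) ∧
  ∀ ε : ℝ, 0 < ε → ∃ C : ℝ, 0 ≤ C ∧ ∀ R : Finset (HeightOneSpectrum (𝓞 k)), Disjoint R S →
  ∀ ρ0 : Gm k →* G, IsLocallyConstant ρ0 → ∀ (u : HeightOneSpectrum (𝓞 k) → G) (Y : ℝ), 2 ≤ Y →
    ({ρ : Gm k →* G | ρ ∈ Hk k G ∧ Cg l ρ ρ0 ∧ (∀ P ∈ R, ρ (T.tau P) = u P) ∧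
      (∀ P, P ∉ S → P ∉ R → ρ (T.tau P) ^ l = 1) ∧ (nO T (S ∪ R) ρ : ℝ) ≤ Y}.ncard : ℝ) ≤
      C * ((∏ P ∈ R, nrm P : ℕ) : ℝ) ^ ε * (Y * Real.log Y ^ (b - 1))

end

/-- the growth of the counting function -/
noncomputable def gr (G : Type) [Group G] (l b : ℕ) (X : ℝ) : ℝ :=
  X ^ (1 / ((Nat.card G - Nat.card G / l : ℕ) : ℝ)) * Real.log X ^ (b - 1)

/-- `l` is the least prime divisor of the order of the nilpotent group `G` -/
structure Hyp (l : ℕ) (G : Type) [Group G] : Prop where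
  fin : Finite G
  nil : Group.IsNilpotent G
  prm : l.Prime
  dvd : l ∣ Nat.card G
  least : ∀ p : ℕ, p.Prime → p ∣ Nat.card G → l ≤ p

end Pool.Agent.H92.EL
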