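import Pool.Agent.H92.EL.DStm
import Pool.Agent.H98.MF.D.RdN
import Pool.Agent.H98.MF.L.Fld

/-!
# Project T4 (MP_a3214d), block D: finitely many homomorphisms unramified outside a finite set
-/

set_option autoImplicit false

open scoped BigOperators Pointwise
open NumberField IsDedekindDomain

namespace Pool.Agent.H92.EL

open Pool.Agent.H98.MF (Om Gm ord Dec top nrm fld rdN rexp rex rdN_natAbs rdN_eq nf_of_fd
  fldK_fixing fldK_finite fldK_finrank index_ne_zeroK)
open Pool.Agent.H98.ML (norb)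

/-- number of orbits of an element of a normal subgroup -/
theorem d6h_norb {G : Type} [Group G] (U : Subgroup G) [hn : U.Normal] {τ : G} (hτ : τ ∈ U) :
    norb U τ = U.index := by
  unfold norb
  symm
  refine Nat.card_congr (Equiv.ofBijective (fun x : G ⧸ U =>
    (Quotient.mk _ x : MulAction.orbitRel.Quotient (Subgroup.zpowers τ) (G ⧸ U)))
    ⟨?_, Quotient.mk_surjective⟩)
  intro x y hxy
  have h1 := Quotient.exact hxy
  obtain ⟨⟨z, hz⟩, h2⟩ := h1
  have hzU : z ∈ U := (Subgroup.zpowers_le.2 hτ) hz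
  rw [← h2]
  induction y using QuotientGroup.induction_on with
  | H g =>
    change ((z * g : G) : G ⧸ U) = (g : G ⧸ U)
    rw [QuotientGroup.eq]
    have h3 : (z * g)⁻¹ * g = g⁻¹ * z⁻¹ * g⁻¹⁻¹ := by group
    rw [h3]
    exact hn.conj_mem _ (U.inv_mem hzU) g⁻¹

section

variable {k : Type} [Field k] [NumberField k]

theorem d6h_nrm_pos (P : HeightOneSpectrum (𝓞 k)) : 0 < nrm P := by
  unfold nrm
  rw [Nat.pos_iff_ne_zero, Ne, Ideal.absNorm_eq_zero_iff]
  exact P.ne_bot

variable (k) in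
/-- finitely many fields of bounded discriminant -/
theorem d6h_fields (B : ℕ) : Set.Finite {M : IntermediateField k (Om k) |
    ∃ h : NumberField M, (@NumberField.discr M _ h).natAbs ≤ B} := by
  have h1 := NumberField.finite_of_discr_bdd (Om k) B
  refine Set.Finite.of_finite_image (f := fun M : IntermediateField k (Om k) =>
    (M.restrictScalars ℚ : IntermediateField ℚ (Om k)))
    (Set.Finite.subset (h1.image Subtype.val) ?_) ?_
  · rintro _ ⟨M, ⟨hM2, hM3⟩, rfl⟩
    have h2 : FiniteDimensional ℚ M := hM2.to_finiteDimensional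
    have h2' : FiniteDimensional ℚ (M.restrictScalars ℚ) := h2
    refine ⟨⟨M.restrictScalars ℚ, h2'⟩, ?_, rfl⟩
    have h6 : NumberField (M.restrictScalars ℚ) := @NumberField.mk _ _ inferInstance h2'
    have h3 : @NumberField.discr (M.restrictScalars ℚ) _ h6 = @NumberField.discr M _ hM2 :=
      NumberField.discr_eq_discr_of_ringEquiv (K := (M.restrictScalars ℚ)) (L := M)
        (RingEquiv.refl M)
    have h4 : |@NumberField.discr (M.restrictScalars ℚ) _ h6| ≤ (B : ℤ) := by
      rw [h3, Int.abs_eq_natAbs]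
      exact_mod_cast hM3
    exact h4
  · exact (IntermediateField.restrictScalars_injective ℚ).injOn

/-- finitely many open subgroups with fields of bounded discriminant -/
theorem d6h_groups (B : ℕ) : Set.Finite {U : Subgroup (Gm k) | IsOpen (U : Set (Gm k)) ∧
    ∃ h : NumberField (fld k U), (@NumberField.discr (fld k U) _ h).natAbs ≤ B} := by
  refine Set.Finite.of_finite_image (f := fun U : Subgroup (Gm k) => fld k U)
    ((d6h_fields k B).subset ?_) ?_
  · rintro _ ⟨U, ⟨_, hU⟩, rfl⟩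
    exact hU
  · rintro U ⟨hU, _⟩ V ⟨hV, _⟩ h
    rw [← fldK_fixing U hU, ← fldK_fixing V hV]
    exact congrArg (fun K : IntermediateField k (Om k) => K.fixingSubgroup) h

/-- finitely many homomorphisms with a given kernel -/
theorem d6h_fib (G : Type) [Group G] [Finite G] (U : Subgroup (Gm k))
    (hU : IsOpen (U : Set (Gm k))) : {ρ : Gm k →* G | ρ.ker = U}.Finite := by
  have hfin : Finite (Gm k ⧸ U) := by
    have h := index_ne_zeroK U hU
    exact Nat.finite_of_card_ne_zero h
  refine Set.Finite.of_injOn (f := fun (ρ : Gm k →* G) (q : Gm k ⧸ U) => ρ q.out)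
    (t := Set.univ) (fun _ _ => Set.mem_univ _) ?_ Set.finite_univ
  intro ρ hρ ρ' hρ' h
  have hρ1 : ρ.ker = U := hρ
  have hρ2 : ρ'.ker = U := hρ'
  ext σ
  have h1 : ((σ : Gm k ⧸ U).out)⁻¹ * σ ∈ U := by
    rw [← QuotientGroup.eq]
    exact QuotientGroup.out_eq' _
  have h2 : ∀ ψ : Gm k →* G, ψ.ker = U → ψ σ = ψ ((σ : Gm k ⧸ U).out) := by
    intro ψ hψ
    have h3 : ((σ : Gm k ⧸ U).out)⁻¹ * σ ∈ ψ.ker := by
      rw [hψ]
      exact h1
    rw [MonoidHom.mem_ker, map_mul, map_inv] at h3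
    exact (inv_mul_eq_one.1 h3).symm
  rw [h2 ρ hρ1, h2 ρ' hρ2]
  exact congrFun h (σ : Gm k ⧸ U)

end

/-- D9: finitely many homomorphisms unramified outside a finite set -/
theorem sher (hB : SBdT) : SHer := by
  intro k _ _ T G _ _ S hS
  choose C hC using fun P : HeightOneSpectrum (𝓞 k) => hB k P (Nat.card G)
  set D : ℕ := ∏ P ∈ S, nrm P ^ C P with hD
  set B : ℕ := (discr k).natAbs ^ Nat.card G * D with hBd
  have hG : 0 < Nat.card G := Nat.card_pos
  have hd1 : 1 ≤ (discr k).natAbs := Int.natAbs_pos.2 (discr_ne_zero k)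
  refine Set.Finite.subset (Set.Finite.biUnion (d6h_groups (k := k) B)
    (t := fun U => {ρ : Gm k →* G | IsOpen (U : Set (Gm k)) ∧ ρ.ker = U}) ?_) ?_
  · rintro U ⟨hU, _⟩
    exact (d6h_fib G U hU).subset fun ρ hρ => hρ.2
  · rintro ρ ⟨hlc, hun⟩
    have hUo : IsOpen (ρ.ker : Set (Gm k)) := hlc.isOpen_fiber 1
    have hdvd : ρ.ker.index ∣ Nat.card G := by
      rw [Subgroup.index_ker]
      exact Subgroup.card_subgroup_dvd_card _
    have hle : ρ.ker.index ≤ Nat.card G := Nat.le_of_dvd hG hdvd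
    have hfd : FiniteDimensional k (fld k ρ.ker) := fldK_finite _ hUo
    have hnf : NumberField (fld k ρ.ker) := nf_of_fd _
    have hout : ∀ P, P ∉ S → rexp P (fld k ρ.ker) = 0 := by
      intro P hP
      have h1 : TmU P ρ.ker :=
        ⟨inferInstance, hUo, Nat.Coprime.coprime_dvd_left hdvd (hS P hP)⟩
      have h2 := (T.tm P).disc ρ.ker h1 ρ.ker le_rfl
      rw [d6h_norb ρ.ker (MonoidHom.mem_ker.2 (hun P hP))] at h2
      omega
    have hrd : rdN (fld k ρ.ker) ≤ D := by
      rw [rdN_eq, finprod_eq_prod_of_mulSupport_subset (s := S)]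
      · refine Finset.prod_le_prod' fun P _ => ?_
        exact Nat.pow_le_pow_right (d6h_nrm_pos P) (hC P ρ.ker inferInstance hUo hle)
      · intro P hP
        rw [Finset.mem_coe]
        by_contra h
        apply hP
        show Ideal.absNorm P.asIdeal ^ rexp P (fld k ρ.ker) = 1
        rw [hout P h, pow_zero]
    have hdis : (discr (fld k ρ.ker)).natAbs ≤ B := by
      rw [(rdN_natAbs (fld k ρ.ker)).2, fldK_finrank _ hUo]
      exact Nat.mul_le_mul (Nat.pow_le_pow_right hd1 hle) hrd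
    rw [Set.mem_iUnion₂]
    exact ⟨ρ.ker, ⟨hUo, hnf, hdis⟩, hUo, rfl⟩

end Pool.Agent.H92.EL
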