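import Pool.Agent.H92.EL.ZDefs

/-!
# Project T4 (MP_a3214d), assembly: statements
-/

set_option autoImplicit false

open scoped BigOperators Pointwise Topology
open NumberField IsDedekindDomain Filter

namespace Pool.Agent.H92.EL

open Pool.Agent.H98.MF (Om Gm ord Dec top nrm fld rdN rexp rex)

/-- Z1: representatives of the classes of homomorphisms modulo `Om1` -/
def ZRep : Prop := ∀ (k : Type) [Field k] [NumberField k] (T : TM k) (G : Type) [Group G]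
  (l : ℕ), Hyp l G → ∀ S : Finset (HeightOneSpectrum (𝓞 k)), Ctn S (Nat.card G) →
  ∃ C : ℕ, 1 ≤ C ∧ ∀ R : Finset (HeightOneSpectrum (𝓞 k)), ∃ F : Finset (Gm k →* G),
    F.card ≤ C ^ (R.card + 1) ∧ (∀ ρ ∈ F, IsLocallyConstant ρ) ∧
    ∀ ρ : Gm k →* G, ρ ∈ Hk k G → Rw T S l ρ ⊆ (R : Set (HeightOneSpectrum (𝓞 k))) →
      ∃! ρ0, ρ0 ∈ F ∧ Cg l ρ ρ0

open Classical in
/-- Z2: the discriminant in terms of the ramified primes, and finiteness -/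
def ZDis : Prop := ∀ (k : Type) [Field k] [NumberField k] (T : TM k) (G : Type) [Group G]
  (l : ℕ), Hyp l G → ∀ S : Finset (HeightOneSpectrum (𝓞 k)), Ctn S (Nat.card G) →
  (∀ ρ : Gm k →* G, ρ ∈ Hk k G → 1 ≤ nO T S ρ ∧
    {P | P ∉ S ∧ ρ (T.tau P) ≠ 1}.Finite ∧ (Rw T S l ρ).Finite) ∧
  (∀ ρ : Gm k →* G, ρ ∈ Hk k G → (∀ P, P ∉ S → ρ (T.tau P) ^ l = 1) →
    dG ρ = qS S ρ * nO T S ρ ^ (Nat.card G - Nat.card G / l)) ∧
  (∃ w : ℝ, 1 < w ∧ ∀ ρ : Gm k →* G, ρ ∈ Hk k G → ∀ R : Finset (HeightOneSpectrum (𝓞 k)),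
    Rw T S l ρ = (R : Set (HeightOneSpectrum (𝓞 k))) →
    ((nO T (S ∪ R) ρ : ℝ) * ((∏ P ∈ R, nrm P : ℕ) : ℝ) ^ w) ^ (Nat.card G - Nat.card G / l) ≤
      (dG ρ : ℝ)) ∧
  ∀ X : ℝ, {ρ : Gm k →* G | ρ ∈ Hk k G ∧ (dG ρ : ℝ) ≤ X}.Finite

/-- Z3: the number of homomorphisms with given `Rw` -/
def ZFix : Prop := ∀ (k : Type) [Field k] [NumberField k] (T : TM k) (G : Type) [Group G]
  (l b : ℕ), Hyp l G → InnF T G l b → ∀ S : Finset (HeightOneSpectrum (𝓞 k)),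
  Ctn S (Nat.card G) → ∀ R : Finset (HeightOneSpectrum (𝓞 k)), ∃ L : ℝ, 0 ≤ L ∧
    Tendsto (fun X : ℝ => ((AR T G l S R X).ncard : ℝ) / gr G l b X) atTop (𝓝 L) ∧
    ((∃ ρ : Gm k →* G, ρ ∈ Hk k G ∧ Rw T S l ρ = (R : Set (HeightOneSpectrum (𝓞 k)))) → 0 < L)

/-- Z4: the uniform bound -/
def ZUni : Prop := ∀ (k : Type) [Field k] [NumberField k] (T : TM k) (G : Type) [Group G]
  (l b : ℕ), Hyp l G → InnU T G l b → ∃ S : Finset (HeightOneSpectrum (𝓞 k)),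
  Ctn S (Nat.card G) ∧ ∃ C w : ℝ, 0 ≤ C ∧ 1 < w ∧
    ∀ (R : Finset (HeightOneSpectrum (𝓞 k))) (X : ℝ), 2 ≤ X →
      ((AR T G l S R X).ncard : ℝ) ≤
        C ^ (R.card + 1) * ((∏ P ∈ R, nrm P : ℕ) : ℝ) ^ (-w) * gr G l b X

/-- Z5: the number of homomorphisms -/
def ZAsy : Prop := ∀ (k : Type) [Field k] [NumberField k] (T : TM k) (G : Type) [Group G]
  (l b : ℕ), Hyp l G → InnF T G l b → InnU T G l b → Asy k G l b

end Pool.Agent.H92.EL
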