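import Pool.Agent.H92.EL.CStm

/-!
# Project ELL (MP_a3214d), block C: sums over tuples of ideals
-/

set_option autoImplicit false

open scoped BigOperators Topology
open Filter

namespace Pool.Agent.H92.EL

open Pool.Agent.H98.MF (Pre)

namespace CDiv

/-! ### summation by parts -/

section

variable (S : Pre)

lemma idl_zero : S.idl ((0 : ℕ) : ℝ) = ∅ := by
  refine Finset.eq_empty_of_forall_notMem fun f hf => ?_
  rw [S.mem_idl] at hf
  have := S.nf_pos f
  have h1 : (1 : ℝ) ≤ S.nf f := by exact_mod_cast this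
  push_cast at hf
  linarith

lemma idl_floor {Y : ℝ} (hY : 0 ≤ Y) : S.idl Y = S.idl ((⌊Y⌋₊ : ℕ) : ℝ) := by
  ext f
  rw [S.mem_idl, S.mem_idl, Nat.cast_le, Nat.le_floor_iff hY]

lemma idl_succ (w : (S.P →₀ ℕ) → ℂ) (G : ℕ → ℂ) (M : ℕ) :
    ∑ f ∈ S.idl ((M + 1 : ℕ) : ℝ), w f * G (S.nf f) =
      ∑ f ∈ S.idl ((M : ℕ) : ℝ), w f * G (S.nf f) +
        (∑ f ∈ S.idl ((M + 1 : ℕ) : ℝ), w f - ∑ f ∈ S.idl ((M : ℕ) : ℝ), w f) * G (M + 1) := by
  classical
  have hsub : S.idl ((M : ℕ) : ℝ) ⊆ S.idl ((M + 1 : ℕ) : ℝ) := by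
    intro f hf
    rw [S.mem_idl] at hf ⊢
    push_cast
    linarith
  rw [← Finset.sum_sdiff hsub, ← Finset.sum_sdiff (f := w) hsub, add_sub_cancel_right,
    Finset.sum_mul, add_comm]
  congr 1
  refine Finset.sum_congr rfl fun f hf => ?_
  rw [Finset.mem_sdiff, S.mem_idl, S.mem_idl, Nat.cast_le, Nat.cast_le] at hf
  have : S.nf f = M + 1 := by omega
  rw [this]

lemma abel (w : (S.P →₀ ℕ) → ℂ) (G : ℕ → ℂ) (M : ℕ) :
    ∑ f ∈ S.idl ((M : ℕ) : ℝ), w f * G (S.nf f) =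
      ∑ m ∈ Finset.range M, (∑ f ∈ S.idl ((m : ℕ) : ℝ), w f) * (G m - G (m + 1)) +
        (∑ f ∈ S.idl ((M : ℕ) : ℝ), w f) * G M := by
  induction M with
  | zero => rw [idl_zero]; simp
  | succ M ih =>
    rw [idl_succ, ih, Finset.sum_range_succ]
    ring

lemma abelN (G : ℕ → ℂ) (M : ℕ) :
    ∑ m ∈ Finset.Icc 1 M, G m =
      ∑ m ∈ Finset.range M, (m : ℂ) * (G m - G (m + 1)) + (M : ℂ) * G M := by
  induction M with
  | zero => simp
  | succ M ih =>
    rw [Finset.sum_Icc_succ_top (by omega), ih, Finset.sum_range_succ]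
    push_cast
    ring

lemma abel_sub (w : (S.P →₀ ℕ) → ℂ) (a : ℂ) (G : ℕ → ℂ) (M : ℕ) :
    ∑ f ∈ S.idl ((M : ℕ) : ℝ), w f * G (S.nf f) - a * ∑ m ∈ Finset.Icc 1 M, G m =
      ∑ m ∈ Finset.range M, ((∑ f ∈ S.idl ((m : ℕ) : ℝ), w f) - a * m) * (G m - G (m + 1)) +
        ((∑ f ∈ S.idl ((M : ℕ) : ℝ), w f) - a * M) * G M := by
  rw [abel, abelN, mul_add, Finset.mul_sum]
  have : ∀ m ∈ Finset.range M, ((∑ f ∈ S.idl ((m : ℕ) : ℝ), w f) - a * m) * (G m - G (m + 1)) =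
      (∑ f ∈ S.idl ((m : ℕ) : ℝ), w f) * (G m - G (m + 1)) - a * (m * (G m - G (m + 1))) := by
    intro m _; ring
  rw [Finset.sum_congr rfl this, Finset.sum_sub_distrib]
  ring

/-- the constant of the error term -/
noncomputable def Z (δ : ℝ) : ℝ := ∑' m : ℕ, ((m : ℝ) ^ (1 + δ))⁻¹

lemma Z_nonneg (δ : ℝ) : 0 ≤ Z δ := tsum_nonneg fun _ => inv_nonneg.2 (Real.rpow_nonneg
  (Nat.cast_nonneg _) _)

/-- summation by parts with a decreasing function -/
lemma abel_bd (w : (S.P →₀ ℕ) → ℂ) (a : ℂ) (C δ : ℝ) (hδ : 0 < δ) (hC : 0 ≤ C)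
    (hw : ∀ m : ℕ, 1 ≤ m → ‖(∑ f ∈ S.idl ((m : ℕ) : ℝ), w f) - a * m‖ ≤ C * (m : ℝ) ^ (1 - δ))
    (h : ℕ → ℝ) (M : ℕ) (hM : 1 ≤ M) (h0 : ∀ m, 1 ≤ m → m ≤ M → 0 ≤ h m)
    (ha : ∀ m, 1 ≤ m → m < M → h (m + 1) ≤ h m) :
    ‖∑ f ∈ S.idl ((M : ℕ) : ℝ), w f * ((h (S.nf f) / (S.nf f : ℝ) : ℝ) : ℂ) -
      a * ((∑ m ∈ Finset.Icc 1 M, h m / (m : ℝ) : ℝ) : ℂ)‖ ≤ C * (1 + Z δ) * h 1 := by
  have hmono : ∀ m, 1 ≤ m → m ≤ M → h m ≤ h 1 := by
    intro m hm
    induction m, hm using Nat.le_induction with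
    | base => intro _; exact le_rfl
    | succ m hm ih => intro hM'; exact (ha m hm (by omega)).trans (ih (by omega))
  have hh1 : 0 ≤ h 1 := h0 1 le_rfl hM
  have key := abel_sub S w a (fun m => ((h m / (m : ℝ) : ℝ) : ℂ)) M
  push_cast at key ⊢
  rw [key]
  refine (norm_add_le _ _).trans ?_
  -- the last term
  have hlast : ‖((∑ f ∈ S.idl ((M : ℕ) : ℝ), w f) - a * M) * ((h M : ℂ) / (M : ℂ))‖ ≤
      C * h M := by
    rw [norm_mul]
    have hM0 : (0 : ℝ) < M := by exact_mod_cast hM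
    have e1 : ‖(h M : ℂ) / (M : ℂ)‖ = h M / M := by
      rw [← Complex.ofReal_natCast, ← Complex.ofReal_div, Complex.norm_real, Real.norm_eq_abs,
        abs_of_nonneg (div_nonneg (h0 M hM le_rfl) hM0.le)]
    rw [e1]
    have h1 : (M : ℝ) ^ (1 - δ) ≤ M := by
      calc (M : ℝ) ^ (1 - δ) ≤ (M : ℝ) ^ (1 : ℝ) :=
            Real.rpow_le_rpow_of_exponent_le (by exact_mod_cast hM) (by linarith)
        _ = M := Real.rpow_one _
    calc _ ≤ (C * (M : ℝ) ^ (1 - δ)) * (h M / M) :=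
          mul_le_mul_of_nonneg_right (hw M hM) (div_nonneg (h0 M hM le_rfl) hM0.le)
      _ ≤ (C * M) * (h M / M) := by
          refine mul_le_mul_of_nonneg_right (mul_le_mul_of_nonneg_left h1 hC)
            (div_nonneg (h0 M hM le_rfl) hM0.le)
      _ = C * h M := by field_simp
  -- the other terms
  have hterm : ∀ m ∈ Finset.range M, ‖((∑ f ∈ S.idl ((m : ℕ) : ℝ), w f) - a * m) *
      ((h m : ℂ) / (m : ℂ) - (h (m + 1) : ℂ) / ((m : ℂ) + 1))‖ ≤
      (if 1 ≤ m then C * (h m - h (m + 1)) else 0) + C * h 1 * ((m : ℝ) ^ (1 + δ))⁻¹ := by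
    intro m hm
    rw [Finset.mem_range] at hm
    rcases Nat.eq_zero_or_pos m with rfl | hm1
    · rw [idl_zero]
      simp only [Finset.sum_empty, Nat.cast_zero, mul_zero, sub_zero, zero_mul, norm_zero]
      rw [if_neg (by norm_num), zero_add]
      positivity
    · replace hm1 : 1 ≤ m := hm1
      rw [if_pos hm1, norm_mul]
      have hm0 : (0 : ℝ) < m := by exact_mod_cast hm1
      have e1 : (h m : ℂ) / (m : ℂ) - (h (m + 1) : ℂ) / ((m : ℂ) + 1) =
          ((h m / m - h (m + 1) / (m + 1) : ℝ) : ℂ) := by push_cast; ring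
      have e2 : h m / m - h (m + 1) / (m + 1) =
          (h m - h (m + 1)) / m + h (m + 1) / (m * (m + 1)) := by field_simp; ring
      have h5 := ha m hm1 hm
      have h6 := h0 (m + 1) (by omega) (by omega)
      have h7 := hmono (m + 1) (by omega) (by omega)
      have h8 : 0 ≤ h m / m - h (m + 1) / (m + 1) := by
        rw [e2]
        have : 0 ≤ h m - h (m + 1) := by linarith
        positivity
      rw [e1, Complex.norm_real, Real.norm_eq_abs, abs_of_nonneg h8, e2]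
      have h9 : (m : ℝ) ^ (1 - δ) * ((h m - h (m + 1)) / m) ≤ h m - h (m + 1) := by
        have h1 : (m : ℝ) ^ (1 - δ) ≤ m := by
          calc (m : ℝ) ^ (1 - δ) ≤ (m : ℝ) ^ (1 : ℝ) :=
                Real.rpow_le_rpow_of_exponent_le (by exact_mod_cast hm1) (by linarith)
            _ = m := Real.rpow_one _
        calc _ ≤ (m : ℝ) * ((h m - h (m + 1)) / m) :=
              mul_le_mul_of_nonneg_right h1 (div_nonneg (by linarith) hm0.le)
          _ = _ := by field_simp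
      have h10 : (m : ℝ) ^ (1 - δ) * (h (m + 1) / (m * (m + 1))) ≤
          h 1 * ((m : ℝ) ^ (1 + δ))⁻¹ := by
        have e3 : (m : ℝ) ^ (1 - δ) * ((m : ℝ) ^ (1 + δ)) = m * m := by
          rw [← Real.rpow_add hm0]
          have : (1 - δ) + (1 + δ) = (2 : ℕ) := by push_cast; ring
          rw [this, Real.rpow_natCast]; ring
        have e4 : 0 < (m : ℝ) ^ (1 + δ) := Real.rpow_pos_of_pos hm0 _
        rw [← div_eq_mul_inv, le_div_iff₀ e4]
        calc (m : ℝ) ^ (1 - δ) * (h (m + 1) / (m * (m + 1))) * (m : ℝ) ^ (1 + δ)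
            = ((m : ℝ) ^ (1 - δ) * ((m : ℝ) ^ (1 + δ))) * (h (m + 1) / (m * (m + 1))) := by ring
          _ = h (m + 1) * (m / (m + 1)) := by rw [e3]; field_simp
          _ ≤ h (m + 1) * 1 := by
              refine mul_le_mul_of_nonneg_left ?_ h6
              rw [div_le_one (by positivity)]; linarith
          _ ≤ h 1 := by linarith
      calc _ ≤ (C * (m : ℝ) ^ (1 - δ)) * ((h m - h (m + 1)) / m + h (m + 1) / (m * (m + 1))) :=
            mul_le_mul_of_nonneg_right (hw m hm1) (by rw [← e2]; exact h8)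
        _ = C * ((m : ℝ) ^ (1 - δ) * ((h m - h (m + 1)) / m) +
            (m : ℝ) ^ (1 - δ) * (h (m + 1) / (m * (m + 1)))) := by ring
        _ ≤ C * ((h m - h (m + 1)) + h 1 * ((m : ℝ) ^ (1 + δ))⁻¹) :=
            mul_le_mul_of_nonneg_left (add_le_add h9 h10) hC
        _ = _ := by ring
  have htel : ∑ m ∈ Finset.range M, (if 1 ≤ m then C * (h m - h (m + 1)) else 0) =
      C * (h 1 - h M) := by
    clear key hlast hterm hmono h0 ha hh1
    induction M, hM using Nat.le_induction with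
    | base => simp
    | succ M hM ih =>
      rw [Finset.sum_range_succ, ih, if_pos hM]
      ring
  have hZ : ∑ m ∈ Finset.range M, C * h 1 * ((m : ℝ) ^ (1 + δ))⁻¹ ≤ C * h 1 * Z δ := by
    rw [← Finset.mul_sum]
    refine mul_le_mul_of_nonneg_left ?_ (mul_nonneg hC hh1)
    refine Summable.sum_le_tsum _ (fun m _ => inv_nonneg.2 (Real.rpow_nonneg
      (Nat.cast_nonneg _) _)) ?_
    exact Real.summable_nat_rpow_inv.2 (by linarith)
  calc _ ≤ ∑ m ∈ Finset.range M, ((if 1 ≤ m then C * (h m - h (m + 1)) else 0) +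
        C * h 1 * ((m : ℝ) ^ (1 + δ))⁻¹) + C * h M := by
        refine add_le_add ((norm_sum_le _ _).trans (Finset.sum_le_sum hterm)) hlast
    _ ≤ C * (h 1 - h M) + C * h 1 * Z δ + C * h M := by
        rw [Finset.sum_add_distrib, htel]
        linarith
    _ = _ := by ring

/-- upper bound for sums of decreasing functions -/
lemma abel_up (C : ℝ) (hC : ∀ m : ℕ, ((S.idl ((m : ℕ) : ℝ)).card : ℝ) ≤ C * m)
    (g : ℕ → ℝ) (M : ℕ) (h0 : 0 ≤ g M)
    (ha : ∀ m, 1 ≤ m → m < M → g (m + 1) ≤ g m) :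
    ∑ f ∈ S.idl ((M : ℕ) : ℝ), g (S.nf f) ≤ C * ∑ m ∈ Finset.Icc 1 M, g m := by
  have h1 := abel S (fun _ => 1) (fun m => (g m : ℂ)) M
  have h2 := abelN (fun m => (g m : ℂ)) M
  have h1' : ∑ f ∈ S.idl ((M : ℕ) : ℝ), g (S.nf f) = ∑ m ∈ Finset.range M,
      ((S.idl ((m : ℕ) : ℝ)).card : ℝ) * (g m - g (m + 1)) + (S.idl ((M : ℕ) : ℝ)).card * g M := by
    have := h1
    simp only [one_mul, Finset.sum_const, nsmul_eq_mul, mul_one] at this
    exact_mod_cast this
  have h2' : ∑ m ∈ Finset.Icc 1 M, g m =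
      ∑ m ∈ Finset.range M, (m : ℝ) * (g m - g (m + 1)) + (M : ℝ) * g M := by
    exact_mod_cast h2
  rw [h1', h2', mul_add, Finset.mul_sum]
  refine add_le_add (Finset.sum_le_sum fun m hm => ?_) ?_
  · rw [Finset.mem_range] at hm
    rcases Nat.eq_zero_or_pos m with rfl | hm1
    · rw [idl_zero]; simp
    · have h3 := ha m hm1 hm
      calc _ ≤ (C * m) * (g m - g (m + 1)) :=
            mul_le_mul_of_nonneg_right (hC m) (by linarith)
        _ = _ := by ring
  · calc _ ≤ (C * M) * g M := mul_le_mul_of_nonneg_right (hC M) h0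
      _ = _ := by ring

end

/-! ### sums over natural numbers -/

lemma pow_two_sided {x y : ℝ} (hy : 0 ≤ y) (hxy : y ≤ x) (k : ℕ) :
    ((k : ℝ) + 1) * y ^ k * (x - y) ≤ x ^ (k + 1) - y ^ (k + 1) ∧
      x ^ (k + 1) - y ^ (k + 1) ≤ ((k : ℝ) + 1) * x ^ k * (x - y) := by
  have hx : 0 ≤ x := hy.trans hxy
  have hd : 0 ≤ x - y := by linarith
  induction k with
  | zero => simp
  | succ k ih =>
    obtain ⟨h1, h2⟩ := ih
    have e1 : x ^ (k + 1 + 1) - y ^ (k + 1 + 1) =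
        x * (x ^ (k + 1) - y ^ (k + 1)) + y ^ (k + 1) * (x - y) := by ring
    have hyk : 0 ≤ y ^ k := pow_nonneg hy k
    have hmono : y ^ (k + 1) ≤ x ^ (k + 1) := pow_le_pow_left₀ hy hxy _
    rw [e1]
    push_cast
    constructor
    · have h3 : y * (x ^ (k + 1) - y ^ (k + 1)) ≤ x * (x ^ (k + 1) - y ^ (k + 1)) :=
        mul_le_mul_of_nonneg_right hxy (by linarith)
      have h4 := mul_le_mul_of_nonneg_left h1 hy
      have e2 : y * (((k : ℝ) + 1) * y ^ k * (x - y)) = ((k : ℝ) + 1) * y ^ (k + 1) * (x - y) := by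
        ring
      rw [e2] at h4
      nlinarith
    · have h4 := mul_le_mul_of_nonneg_left h2 hx
      have e2 : x * (((k : ℝ) + 1) * x ^ k * (x - y)) = ((k : ℝ) + 1) * x ^ (k + 1) * (x - y) := by
        ring
      rw [e2] at h4
      have h5 := mul_le_mul_of_nonneg_right hmono hd
      nlinarith

lemma telescope (x : ℕ → ℝ) (M : ℕ) :
    ∑ m ∈ Finset.Icc 1 M, (x m - x (m + 1)) = x 1 - x (M + 1) := by
  induction M with
  | zero => simp
  | succ M ih => rw [Finset.sum_Icc_succ_top (by omega), ih]; ring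

/-- powers of logarithms -/
lemma log_sum (Y : ℝ) (hY : 1 ≤ Y) (k : ℕ) :
    |∑ m ∈ Finset.Icc 1 ⌊Y⌋₊, Real.log (Y / m) ^ k / (m : ℝ) -
      Real.log Y ^ (k + 1) / ((k : ℝ) + 1)| ≤ (Real.log Y) ^ k := by
  have hY0 : 0 < Y := by linarith
  set M := ⌊Y⌋₊ with hMdef
  have hM1 : 1 ≤ M := Nat.le_floor (by exact_mod_cast hY)
  set x : ℕ → ℝ := fun m => if m ≤ M then Real.log (Y / m) else 0 with hx
  have hxm : ∀ m, m ≤ M → x m = Real.log (Y / m) := fun m hm => if_pos hm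
  have hx1 : x 1 = Real.log Y := by rw [hxm 1 hM1]; simp
  have hxM : x (M + 1) = 0 := if_neg (by omega)
  have hnn : ∀ m, 1 ≤ m → 0 ≤ x m := by
    intro m hm
    by_cases h : m ≤ M
    · rw [hxm m h]
      apply Real.log_nonneg
      have hm0 : (0 : ℝ) < m := by exact_mod_cast hm
      rw [le_div_iff₀ hm0, one_mul]
      exact (Nat.le_floor_iff hY0.le).1 h
    · rw [hx]; simp only; rw [if_neg h]
  -- the differences
  have hdiff : ∀ m, 1 ≤ m → m + 1 ≤ M →
      (1 : ℝ) / (m + 1) ≤ x m - x (m + 1) ∧ x m - x (m + 1) ≤ 1 / m := by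
    intro m hm hm'
    have hm0 : (0 : ℝ) < m := by exact_mod_cast hm
    have e : x m - x (m + 1) = Real.log ((m + 1) / m) := by
      rw [hxm m (by omega), hxm (m + 1) hm', Real.log_div hY0.ne' hm0.ne',
        Real.log_div hY0.ne' (by positivity), Real.log_div (by positivity) hm0.ne']
      push_cast
      ring
    rw [e]
    constructor
    · have h1 := Real.one_sub_inv_le_log_of_pos (x := ((m : ℝ) + 1) / m) (by positivity)
      have e2 : 1 - (((m : ℝ) + 1) / m)⁻¹ = 1 / (m + 1) := by field_simp; ring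
      linarith
    · have h1 := Real.log_le_sub_one_of_pos (x := ((m : ℝ) + 1) / m) (by positivity)
      have e2 : ((m : ℝ) + 1) / m - 1 = 1 / m := by field_simp; ring
      linarith
  have hlast : x M - x (M + 1) ≤ 1 / M := by
    rw [hxM, sub_zero, hxm M le_rfl]
    have hM0 : (0 : ℝ) < M := by exact_mod_cast hM1
    have h1 := Real.log_le_sub_one_of_pos (x := Y / M) (by positivity)
    have h2 : Y < M + 1 := Nat.lt_floor_add_one Y
    have h3 : Y / M - 1 ≤ 1 / M := by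
      rw [div_sub_one hM0.ne']
      exact div_le_div_of_nonneg_right (by linarith) hM0.le
    linarith
  have hup : ∀ m, 1 ≤ m → m ≤ M → x m - x (m + 1) ≤ 1 / m := by
    intro m hm hm'
    rcases Nat.lt_or_ge m M with h | h
    · exact (hdiff m hm (by omega)).2
    · have : m = M := by omega
      rw [this]; exact hlast
  have hanti : ∀ m, 1 ≤ m → m ≤ M → x (m + 1) ≤ x m := by
    intro m hm hm'
    rcases Nat.lt_or_ge m M with h | h
    · have := (hdiff m hm (by omega)).1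
      have h2 : (0 : ℝ) ≤ 1 / (m + 1) := by positivity
      linarith
    · have : m = M := by omega
      rw [this, hxM]; exact hnn M hM1
  have hk : (0 : ℝ) < (k : ℝ) + 1 := by positivity
  have hsum : ∑ m ∈ Finset.Icc 1 M, Real.log (Y / m) ^ k / (m : ℝ) =
      ∑ m ∈ Finset.Icc 1 M, x m ^ k / (m : ℝ) :=
    Finset.sum_congr rfl fun m hm => by rw [hxm m (Finset.mem_Icc.1 hm).2]
  have htel := telescope (fun m => x m ^ (k + 1)) M
  rw [hxM, hx1, zero_pow (Nat.succ_ne_zero k), sub_zero] at htel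
  have hlow : Real.log Y ^ (k + 1) / ((k : ℝ) + 1) ≤
      ∑ m ∈ Finset.Icc 1 M, x m ^ k / (m : ℝ) := by
    rw [← htel, Finset.sum_div]
    refine Finset.sum_le_sum fun m hm => ?_
    obtain ⟨hm1, hm2⟩ := Finset.mem_Icc.1 hm
    have hm0 : (0 : ℝ) < m := by exact_mod_cast hm1
    have h1 := (pow_two_sided (hnn (m + 1) (by omega)) (hanti m hm1 hm2) k).2
    have h2 := mul_le_mul_of_nonneg_left (hup m hm1 hm2)
      (mul_nonneg hk.le (pow_nonneg (hnn m hm1) k))
    rw [div_le_iff₀ hk]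
    calc _ ≤ _ := h1
      _ ≤ _ := h2
      _ = _ := by ring
  have hhigh : ∑ m ∈ Finset.Icc 1 M, x m ^ k / (m : ℝ) ≤
      Real.log Y ^ k + Real.log Y ^ (k + 1) / ((k : ℝ) + 1) := by
    obtain ⟨M', hM'⟩ : ∃ M', M = M' + 1 := ⟨M - 1, by omega⟩
    have e1 : ∑ m ∈ Finset.Icc 1 M, x m ^ k / (m : ℝ) =
        x 1 ^ k + ∑ m ∈ Finset.Icc 1 M', x (m + 1) ^ k / ((m : ℝ) + 1) := by
      rw [hM']
      clear_value M x
      clear hM'
      induction M' with
      | zero => simp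
      | succ n ih =>
        rw [Finset.sum_Icc_succ_top (by omega), ih, Finset.sum_Icc_succ_top (by omega)]
        push_cast
        ring
    rw [e1, hx1]
    refine add_le_add le_rfl ?_
    have h3 : ∑ m ∈ Finset.Icc 1 M', x (m + 1) ^ k / ((m : ℝ) + 1) ≤
        (∑ m ∈ Finset.Icc 1 M', (x m ^ (k + 1) - x (m + 1) ^ (k + 1))) / ((k : ℝ) + 1) := by
      rw [Finset.sum_div]
      refine Finset.sum_le_sum fun m hm => ?_
      obtain ⟨hm1, hm2⟩ := Finset.mem_Icc.1 hm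
      have h1 := (pow_two_sided (hnn (m + 1) (by omega)) (hanti m hm1 (by omega)) k).1
      have h2 := mul_le_mul_of_nonneg_left (hdiff m hm1 (by omega)).1
        (mul_nonneg hk.le (pow_nonneg (hnn (m + 1) (by omega)) k))
      rw [le_div_iff₀ hk]
      calc _ = ((k : ℝ) + 1) * x (m + 1) ^ k * (1 / ((m : ℝ) + 1)) := by ring
        _ ≤ _ := h2
        _ ≤ _ := h1
    refine h3.trans (div_le_div_of_nonneg_right ?_ hk.le)
    rw [telescope (fun m => x m ^ (k + 1)) M', hx1]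
    have := pow_nonneg (hnn (M' + 1) (by omega)) (k + 1)
    linarith
  rw [hsum, abs_le]
  have hlk : 0 ≤ Real.log Y ^ k := pow_nonneg (Real.log_nonneg hY) k
  constructor
  · linarith
  · linarith

/-- powers -/
lemma rpow_sum (δ : ℝ) (h0 : 0 < δ) (h1 : δ ≤ 1) (M : ℕ) :
    ∑ m ∈ Finset.Icc 1 M, (m : ℝ) ^ (-(1 - δ)) ≤ (M : ℝ) ^ δ / δ := by
  induction M with
  | zero => simp [Real.zero_rpow h0.ne']
  | succ M ih =>
    rw [Finset.sum_Icc_succ_top (by omega)]
    refine (add_le_add_left ih _).trans ?_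
    have hM0 : (0 : ℝ) < (M : ℝ) + 1 := by positivity
    push_cast
    have h2 : ((1 : ℝ) + -(1 / ((M : ℝ) + 1))) ^ δ ≤ 1 + δ * (-(1 / ((M : ℝ) + 1))) := by
      refine rpow_one_add_le_one_add_mul_self ?_ h0.le h1
      have : 1 / ((M : ℝ) + 1) ≤ 1 := by
        rw [div_le_one hM0]
        have : (0 : ℝ) ≤ M := Nat.cast_nonneg _
        linarith
      linarith
    have e1 : (M : ℝ) = ((M : ℝ) + 1) * (1 + -(1 / ((M : ℝ) + 1))) := by field_simp; ring
    have e2 : (M : ℝ) ^ δ = ((M : ℝ) + 1) ^ δ * (1 + -(1 / ((M : ℝ) + 1))) ^ δ := by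
      conv_lhs => rw [e1]
      refine Real.mul_rpow hM0.le ?_
      have : 1 + -(1 / ((M : ℝ) + 1)) = M / (M + 1) := by field_simp; ring
      rw [this]; positivity
    have e3 : ((M : ℝ) + 1) ^ (-(1 - δ)) = ((M : ℝ) + 1) ^ δ * (1 / ((M : ℝ) + 1)) := by
      rw [neg_sub, Real.rpow_sub hM0, Real.rpow_one]; ring
    have h3 := mul_le_mul_of_nonneg_left h2 (Real.rpow_nonneg hM0.le δ)
    rw [← e2] at h3
    rw [e3, div_add' _ _ _ h0.ne']
    refine div_le_div_of_nonneg_right ?_ h0.le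
    calc _ ≤ _ := add_le_add_left h3 _
      _ = _ := by ring

/-! ### tuples -/

lemma sum_pi_succ {α : Type} (n : ℕ) [DecidableEq (Fin (n + 1))] [DecidableEq (Fin n)]
    (s : Finset α) (F : (Fin (n + 1) → α) → ℂ) :
    ∑ f ∈ Fintype.piFinset (fun _ : Fin (n + 1) => s), F f =
      ∑ a ∈ s, ∑ g ∈ Fintype.piFinset (fun _ : Fin n => s), F (Fin.cons a g) := by
  rw [← Finset.sum_product']
  refine Finset.sum_nbij' (fun f => (f 0, Fin.tail f)) (fun p => Fin.cons p.1 p.2) ?_ ?_ ?_ ?_ ?_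
  · intro f hf
    rw [Fintype.mem_piFinset] at hf
    rw [Finset.mem_product, Fintype.mem_piFinset]
    exact ⟨hf 0, fun i => hf i.succ⟩
  · rintro ⟨a, g⟩ h
    rw [Finset.mem_product, Fintype.mem_piFinset] at h
    rw [Fintype.mem_piFinset]
    intro i
    refine Fin.cases ?_ (fun j => ?_) i
    · exact h.1
    · exact h.2 j
  · intro f _
    exact Fin.cons_self_tail f
  · rintro ⟨a, g⟩ _
    simp
  · intro f _
    rw [Fin.cons_self_tail]

section

variable {l : ℕ} [Fact l.Prime] (S : SysL l)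

lemma DD_fin (n : ℕ) (c : Fin n → S.T) (Y : ℝ) : S.DD c Y =
    ∑ f ∈ Fintype.piFinset (fun _ : Fin n => S.idl Y),
      if ((∏ u, S.nf (f u) : ℕ) : ℝ) ≤ Y then ∏ u, S.cv (c u) (f u) else 0 := by
  unfold SysL.DD
  congr
  exact Subsingleton.elim _ _

lemma DD_succ (n : ℕ) (c : Fin (n + 1) → S.T) (Y : ℝ) (hY : 0 ≤ Y) :
    S.DD c Y = ∑ f ∈ S.idl Y, S.cv (c 0) f * S.DD (fun i : Fin n => c i.succ) (Y / S.nf f) := by
  rw [DD_fin, sum_pi_succ]
  refine Finset.sum_congr rfl fun f hf => ?_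
  rw [DD_fin]
  have hf0 : (0 : ℝ) < S.nf f := by exact_mod_cast S.nf_pos f
  have hsub : Fintype.piFinset (fun _ : Fin n => S.idl (Y / S.nf f)) ⊆
      Fintype.piFinset (fun _ : Fin n => S.idl Y) := by
    intro g hg
    rw [Fintype.mem_piFinset] at hg ⊢
    intro i
    have := hg i
    rw [S.mem_idl] at this ⊢
    refine this.trans (div_le_self hY ?_)
    exact_mod_cast S.nf_pos f
  rw [Finset.mul_sum]
  refine Eq.trans ?_ (Finset.sum_subset hsub ?_).symm
  · refine Finset.sum_congr rfl fun g _ => ?_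
    rw [Fin.prod_univ_succ, Fin.prod_univ_succ]
    simp only [Fin.cons_zero, Fin.cons_succ]
    have : (((S.nf f * ∏ i : Fin n, S.nf (g i) : ℕ) : ℝ) ≤ Y) ↔
        (((∏ i : Fin n, S.nf (g i) : ℕ) : ℝ) ≤ Y / S.nf f) := by
      rw [le_div_iff₀ hf0]
      push_cast
      rw [mul_comm]
    by_cases h : ((∏ i : Fin n, S.nf (g i) : ℕ) : ℝ) ≤ Y / S.nf f
    · rw [if_pos h, if_pos (this.2 h)]
    · rw [if_neg h, if_neg (fun h' => h (this.1 h')), mul_zero]
  · intro g _ hg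
    rw [if_neg, mul_zero]
    intro hle
    apply hg
    rw [Fintype.mem_piFinset]
    intro i
    rw [S.mem_idl]
    refine le_trans ?_ hle
    rw [Nat.cast_le]
    exact Finset.single_le_prod' (f := fun i => S.nf (g i)) (fun j _ => S.nf_pos (g j))
      (Finset.mem_univ i)

lemma DD_equiv {ι κ : Type} [Fintype ι] [Fintype κ] (e : ι ≃ κ) (c : ι → S.T) (Y : ℝ) :
    S.DD c Y = S.DD (fun j => c (e.symm j)) Y := by
  classical
  unfold SysL.DD
  refine Finset.sum_nbij' (fun f j => f (e.symm j)) (fun g i => g (e i)) ?_ ?_ ?_ ?_ ?_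
  · intro f hf
    rw [Fintype.mem_piFinset] at hf ⊢
    exact fun j => hf _
  · intro g hg
    rw [Fintype.mem_piFinset] at hg ⊢
    exact fun i => hg _
  · intro f _
    funext i
    simp
  · intro g _
    funext j
    simp
  · intro f _
    have h1 : ∏ j, S.nf (f (e.symm j)) = ∏ u, S.nf (f u) :=
      Equiv.prod_comp e.symm fun u => S.nf (f u)
    have h2 : ∏ j, S.cv (c (e.symm j)) (f (e.symm j)) = ∏ u, S.cv (c u) (f u) :=
      Equiv.prod_comp e.symm fun u => S.cv (c u) (f u)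
    rw [h1, h2]

/-! ### one variable -/

open Classical in
/-- the density of a character -/
noncomputable def al (c : S.T) : ℝ := if c = 0 then S.κ else 0

lemma norm_cv (c : S.T) (f : S.P →₀ ℕ) : ‖S.cv c f‖ = 1 := by
  unfold SysL.cv ec
  exact AddChar.norm_apply _ _

lemma one_var (c : S.T) (t : ℝ) (ht : 1 ≤ t) :
    ‖∑ f ∈ S.idl t, S.cv c f - ((al S c : ℝ) : ℂ) * t‖ ≤ S.C * t ^ (1 - S.δ) := by
  by_cases h : c = 0
  · subst h
    have h1 : ∀ f ∈ S.idl t, S.cv 0 f = 1 := by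
      intro f _
      unfold SysL.cv ec
      simp
    rw [Finset.sum_congr rfl h1, al, if_pos rfl]
    have h2 := S.cnt t ht
    simp only [Finset.sum_const, nsmul_eq_mul, mul_one]
    rw [← Complex.ofReal_natCast, ← Complex.ofReal_mul, ← Complex.ofReal_sub, Complex.norm_real,
      Real.norm_eq_abs]
    exact h2
  · rw [al, if_neg h]
    have h2 := S.chr 0 c (Or.inr h) t ht
    have h3 : ∀ f ∈ S.idl t, chc S.toPre (0 : S.P →₀ ZMod l).support
        (fun p => ((0 : S.P →₀ ZMod l).sum fun q t => t * S.s q p) + c ⬝ᵥ S.ty p) f =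
        S.cv c f := by
      intro f _
      unfold chc SysL.cv
      rw [if_pos (by simp)]
      simp
    rw [Finset.sum_congr rfl h3] at h2
    have h4 : S.nm (0 : S.P →₀ ZMod l).support = 1 := by
      simp [Pre.nm]
    rw [h4] at h2
    simpa using h2

lemma card_le (m : ℕ) : ((S.idl ((m : ℕ) : ℝ)).card : ℝ) ≤ (S.κ + S.C) * m := by
  rcases Nat.eq_zero_or_pos m with rfl | hm
  · rw [idl_zero]; simp
  · have hm1 : (1 : ℝ) ≤ m := by exact_mod_cast hm
    have h1 := (abs_le.1 (S.cnt m hm1)).2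
    have h2 : (m : ℝ) ^ (1 - S.δ) ≤ m := by
      calc (m : ℝ) ^ (1 - S.δ) ≤ (m : ℝ) ^ (1 : ℝ) :=
            Real.rpow_le_rpow_of_exponent_le hm1 (by linarith [S.δ_pos])
        _ = m := Real.rpow_one _
    have h3 := mul_le_mul_of_nonneg_left h2 S.C_nonneg
    nlinarith

/-- the error terms -/
noncomputable def er (δ : ℝ) (k : ℕ) (Y : ℝ) : ℝ :=
  match k with
  | 0 => Y ^ (1 - δ)
  | k + 1 => Y * (1 + Real.log Y) ^ k

lemma nf_one (f : S.P →₀ ℕ) : (1 : ℝ) ≤ S.nf f := by exact_mod_cast S.nf_pos f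

lemma inv_sum (Y : ℝ) (hY : 1 ≤ Y) :
    ∑ f ∈ S.idl Y, ((S.nf f : ℝ))⁻¹ ≤ (S.κ + S.C) * (1 + Real.log Y) := by
  have hY0 : 0 ≤ Y := by linarith
  have hM1 : 1 ≤ ⌊Y⌋₊ := Nat.le_floor (by exact_mod_cast hY)
  rw [idl_floor S.toPre hY0]
  have h1 := abel_up S.toPre (S.κ + S.C) (card_le S) (fun m => ((m : ℝ))⁻¹) ⌊Y⌋₊
    (by positivity) (fun m hm _ => by
      have hm0 : (0 : ℝ) < m := by exact_mod_cast hm
      push_cast
      exact inv_anti₀ hm0 (by linarith))
  refine h1.trans (mul_le_mul_of_nonneg_left ?_ (add_nonneg S.κ_pos.le S.C_nonneg))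
  have h2 := (abs_le.1 (log_sum Y hY 0)).2
  simp only [pow_zero, zero_add, pow_one, Nat.cast_zero, div_one, one_div] at h2
  linarith

lemma er_sum (k : ℕ) : ∃ C : ℝ, 0 ≤ C ∧ ∀ Y : ℝ, 1 ≤ Y →
    ∑ f ∈ S.idl Y, er S.δ k (Y / S.nf f) ≤ C * (Y * (1 + Real.log Y) ^ k) := by
  have hκC : 0 ≤ S.κ + S.C := add_nonneg S.κ_pos.le S.C_nonneg
  cases k with
  | zero =>
    refine ⟨(S.κ + S.C) / S.δ, div_nonneg hκC S.δ_pos.le, fun Y hY => ?_⟩
    have hY0 : 0 < Y := by linarith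
    have h1 := abel_up S.toPre (S.κ + S.C) (card_le S) (fun m => (m : ℝ) ^ (-(1 - S.δ))) ⌊Y⌋₊
      (by positivity) (fun m hm _ => by
        have hm0 : (0 : ℝ) < m := by exact_mod_cast hm
        push_cast
        exact Real.rpow_le_rpow_of_nonpos hm0 (by linarith) (by linarith [S.δ_le]))
    rw [← idl_floor S.toPre hY0.le] at h1
    have h2 := rpow_sum S.δ S.δ_pos S.δ_le ⌊Y⌋₊
    have h3 : (⌊Y⌋₊ : ℝ) ^ S.δ ≤ Y ^ S.δ :=
      Real.rpow_le_rpow (Nat.cast_nonneg _) (Nat.floor_le hY0.le) S.δ_pos.le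
    have h4 : ∀ f ∈ S.idl Y, er S.δ 0 (Y / S.nf f) =
        Y ^ (1 - S.δ) * (S.nf f : ℝ) ^ (-(1 - S.δ)) := by
      intro f _
      have := nf_one S f
      change (Y / S.nf f) ^ (1 - S.δ) = _
      rw [Real.div_rpow hY0.le (by linarith), Real.rpow_neg (by linarith), div_eq_mul_inv]
    rw [Finset.sum_congr rfl h4, ← Finset.mul_sum, pow_zero, mul_one]
    have h5 : 0 ≤ Y ^ (1 - S.δ) := Real.rpow_nonneg hY0.le _
    have h6 : Y ^ (1 - S.δ) * Y ^ S.δ = Y := by
      rw [← Real.rpow_add hY0, sub_add_cancel, Real.rpow_one]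
    calc _ ≤ Y ^ (1 - S.δ) * ((S.κ + S.C) * (Y ^ S.δ / S.δ)) := by
          refine mul_le_mul_of_nonneg_left (h1.trans (mul_le_mul_of_nonneg_left
            (h2.trans ?_) hκC)) h5
          exact div_le_div_of_nonneg_right h3 S.δ_pos.le
      _ = (S.κ + S.C) / S.δ * (Y ^ (1 - S.δ) * Y ^ S.δ) := by ring
      _ = _ := by rw [h6]
  | succ k =>
    refine ⟨S.κ + S.C, hκC, fun Y hY => ?_⟩
    have hY0 : 0 < Y := by linarith
    have hlY := Real.log_nonneg hY
    have h4 : ∀ f ∈ S.idl Y, er S.δ (k + 1) (Y / S.nf f) ≤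
        (Y * (1 + Real.log Y) ^ k) * (S.nf f : ℝ)⁻¹ := by
      intro f hf
      have h1 := nf_one S f
      have hf0 : (0 : ℝ) < S.nf f := by linarith
      rw [S.mem_idl] at hf
      change (Y / S.nf f) * (1 + Real.log (Y / S.nf f)) ^ k ≤ _
      have h2 : 0 ≤ Real.log (Y / S.nf f) :=
        Real.log_nonneg (by rw [le_div_iff₀ hf0, one_mul]; exact hf)
      have h3 : Real.log (Y / S.nf f) ≤ Real.log Y :=
        Real.log_le_log (by positivity) (div_le_self hY0.le h1)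
      calc _ ≤ (Y / S.nf f) * (1 + Real.log Y) ^ k :=
            mul_le_mul_of_nonneg_left (pow_le_pow_left₀ (by linarith) (by linarith) k)
              (by positivity)
        _ = _ := by ring
    refine (Finset.sum_le_sum h4).trans ?_
    rw [← Finset.mul_sum]
    calc _ ≤ (Y * (1 + Real.log Y) ^ k) * ((S.κ + S.C) * (1 + Real.log Y)) :=
          mul_le_mul_of_nonneg_left (inv_sum S Y hY) (by positivity)
      _ = _ := by ring

/-- the main term of one more variable -/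
lemma main_sum (k : ℕ) : ∃ C : ℝ, 0 ≤ C ∧ ∀ (c : S.T) (Y : ℝ), 1 ≤ Y →
    ‖∑ f ∈ S.idl Y, S.cv c f * ((Real.log (Y / S.nf f) ^ k / (S.nf f : ℝ) : ℝ) : ℂ) -
      ((al S c * (Real.log Y ^ (k + 1) / ((k : ℝ) + 1)) : ℝ) : ℂ)‖ ≤ C * Real.log Y ^ k := by
  refine ⟨S.C * (1 + Z S.δ) + S.κ, ?_, fun c Y hY => ?_⟩
  · have := Z_nonneg S.δ
    have := S.C_nonneg
    have := S.κ_pos
    positivity
  have hY0 : 0 < Y := by linarith
  have hM1 : 1 ≤ ⌊Y⌋₊ := Nat.le_floor (by exact_mod_cast hY)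
  have hnn : ∀ m : ℕ, 1 ≤ m → m ≤ ⌊Y⌋₊ → 0 ≤ Real.log (Y / m) := by
    intro m hm hm'
    have hm0 : (0 : ℝ) < m := by exact_mod_cast hm
    apply Real.log_nonneg
    rw [le_div_iff₀ hm0, one_mul]
    exact (Nat.le_floor_iff hY0.le).1 hm'
  have h1 := abel_bd S.toPre (S.cv c) ((al S c : ℝ) : ℂ) S.C S.δ S.δ_pos S.C_nonneg
    (fun m hm => by
      have := one_var S c m (by exact_mod_cast hm)
      simpa using this)
    (fun m => Real.log (Y / m) ^ k) ⌊Y⌋₊ hM1
    (fun m hm hm' => pow_nonneg (hnn m hm hm') k)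
    (fun m hm hm' => by
      have hm0 : (0 : ℝ) < m := by exact_mod_cast hm
      refine pow_le_pow_left₀ (hnn (m + 1) (by omega) (by omega)) ?_ k
      refine Real.log_le_log (by positivity) ?_
      refine div_le_div_of_nonneg_left hY0.le hm0 ?_
      push_cast; linarith)
  rw [← idl_floor S.toPre hY0.le] at h1
  simp only [Nat.cast_one, div_one] at h1
  have h2 := log_sum Y hY k
  have hal : 0 ≤ al S c ∧ al S c ≤ S.κ := by
    unfold al
    split_ifs
    · exact ⟨S.κ_pos.le, le_rfl⟩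
    · exact ⟨le_rfl, S.κ_pos.le⟩
  have h3 : ‖((al S c : ℝ) : ℂ) * ((∑ m ∈ Finset.Icc 1 ⌊Y⌋₊,
      Real.log (Y / m) ^ k / (m : ℝ) : ℝ) : ℂ) -
      ((al S c * (Real.log Y ^ (k + 1) / ((k : ℝ) + 1)) : ℝ) : ℂ)‖ ≤ S.κ * Real.log Y ^ k := by
    rw [← Complex.ofReal_mul, ← Complex.ofReal_sub, Complex.norm_real, Real.norm_eq_abs,
      ← mul_sub, abs_mul, abs_of_nonneg hal.1]
    exact mul_le_mul hal.2 h2 (abs_nonneg _) S.κ_pos.le
  refine (norm_sub_le_norm_sub_add_norm_sub _ (((al S c : ℝ) : ℂ) *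
    ((∑ m ∈ Finset.Icc 1 ⌊Y⌋₊, Real.log (Y / m) ^ k / (m : ℝ) : ℝ) : ℂ)) _).trans ?_
  rw [add_mul]
  exact add_le_add h1 h3

open Classical in
/-- the induction -/
lemma tuples (k : ℕ) : ∃ C : ℝ, 0 ≤ C ∧ ∀ (c : Fin (k + 1) → S.T) (Y : ℝ), 1 ≤ Y →
    ‖S.DD c Y - (if ∀ u, c u = 0 then
      ((S.κ ^ (k + 1) / (k.factorial : ℝ) * (Y * Real.log Y ^ k) : ℝ) : ℂ) else 0)‖ ≤
      C * er S.δ k Y := by
  induction k with
  | zero =>
    refine ⟨S.C, S.C_nonneg, fun c Y hY => ?_⟩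
    have h1 := one_var S (c 0) Y hY
    have h2 : S.DD c Y = ∑ f ∈ S.idl Y, S.cv (c 0) f := by
      rw [DD_succ S 0 c Y (by linarith)]
      refine Finset.sum_congr rfl fun f hf => ?_
      rw [DD_fin]
      rw [S.mem_idl] at hf
      have hf0 : (0 : ℝ) < S.nf f := by exact_mod_cast S.nf_pos f
      have h3 : (1 : ℝ) ≤ Y / S.nf f := by rw [le_div_iff₀ hf0, one_mul]; exact hf
      simp [h3]
    rw [h2]
    have h3 : (∀ u, c u = 0) ↔ c 0 = 0 :=
      ⟨fun h => h 0, fun h u => by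
        have hu : u = 0 := Fin.ext (by have := u.2; simp)
        rw [hu]; exact h⟩
    have h4 : (if ∀ u, c u = 0 then
      ((S.κ ^ (0 + 1) / ((0 : ℕ).factorial : ℝ) * (Y * Real.log Y ^ 0) : ℝ) : ℂ) else 0) =
      ((al S (c 0) : ℝ) : ℂ) * Y := by
      unfold al
      by_cases h : c 0 = 0
      · rw [if_pos (h3.2 h), if_pos h]; simp
      · rw [if_neg (fun h' => h (h3.1 h')), if_neg h]; simp
    rw [h4]
    exact h1
  | succ k ih =>
    obtain ⟨C1, hC1, ih⟩ := ih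
    obtain ⟨C2, hC2, hE⟩ := er_sum S k
    obtain ⟨C3, hC3, hM⟩ := main_sum S k
    set a : ℝ := S.κ ^ (k + 1) / (k.factorial : ℝ) with ha
    have ha0 : 0 ≤ a := div_nonneg (pow_nonneg S.κ_pos.le _) (Nat.cast_nonneg _)
    refine ⟨C1 * C2 + a * C3, by positivity, fun c Y hY => ?_⟩
    have hY0 : 0 < Y := by linarith
    have hlY := Real.log_nonneg hY
    rw [DD_succ S (k + 1) c Y hY0.le]
    set c' : Fin (k + 1) → S.T := fun i => c i.succ with hc'
    set mn : ℝ → ℂ := fun t => if ∀ u, c' u = 0 then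
      ((a * (t * Real.log t ^ k) : ℝ) : ℂ) else 0 with hmn
    have h1 : ‖∑ f ∈ S.idl Y, S.cv (c 0) f * S.DD c' (Y / S.nf f) -
        ∑ f ∈ S.idl Y, S.cv (c 0) f * mn (Y / S.nf f)‖ ≤ C1 * (C2 * (Y * (1 + Real.log Y) ^ k)) := by
      rw [← Finset.sum_sub_distrib]
      refine (norm_sum_le _ _).trans ?_
      refine (Finset.sum_le_sum (g := fun f => C1 * er S.δ k (Y / S.nf f)) fun f hf => ?_).trans ?_
      · rw [← mul_sub, norm_mul, norm_cv, one_mul]
        rw [S.mem_idl] at hf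
        have hf0 : (0 : ℝ) < S.nf f := by exact_mod_cast S.nf_pos f
        exact ih c' (Y / S.nf f) (by rw [le_div_iff₀ hf0, one_mul]; exact hf)
      · rw [← Finset.mul_sum]
        exact mul_le_mul_of_nonneg_left (hE Y hY) hC1
    have h2 : ‖∑ f ∈ S.idl Y, S.cv (c 0) f * mn (Y / S.nf f) - (if ∀ u, c u = 0 then
        ((S.κ ^ (k + 1 + 1) / ((k + 1).factorial : ℝ) * (Y * Real.log Y ^ (k + 1)) : ℝ) : ℂ)
        else 0)‖ ≤ a * C3 * (Y * (1 + Real.log Y) ^ k) := by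
      by_cases hc : ∀ u, c' u = 0
      · have e1 : ∀ f ∈ S.idl Y, S.cv (c 0) f * mn (Y / S.nf f) = ((a * Y : ℝ) : ℂ) *
            (S.cv (c 0) f * ((Real.log (Y / S.nf f) ^ k / (S.nf f : ℝ) : ℝ) : ℂ)) := by
          intro f _
          rw [hmn]
          simp only
          rw [if_pos hc]
          push_cast
          ring
        have e2 : (if ∀ u, c u = 0 then
            ((S.κ ^ (k + 1 + 1) / ((k + 1).factorial : ℝ) * (Y * Real.log Y ^ (k + 1)) : ℝ) : ℂ)
            else 0) = ((a * Y : ℝ) : ℂ) *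
              ((al S (c 0) * (Real.log Y ^ (k + 1) / ((k : ℝ) + 1)) : ℝ) : ℂ) := by
          unfold al
          by_cases h : c 0 = 0
          · rw [if_pos (fun u => by
              refine Fin.cases h (fun j => ?_) u
              exact hc j), if_pos h, ← Complex.ofReal_mul]
            congr 1
            rw [ha, Nat.factorial_succ]
            push_cast
            have : ((k : ℝ) + 1) ≠ 0 := by positivity
            have : (k.factorial : ℝ) ≠ 0 := by positivity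
            field_simp
            ring
          · rw [if_neg (fun h' => h (h' 0)), if_neg h]
            simp
        rw [Finset.sum_congr rfl e1, ← Finset.mul_sum, e2, ← mul_sub, norm_mul,
          Complex.norm_real, Real.norm_eq_abs, abs_of_nonneg (by positivity)]
        calc _ ≤ a * Y * (C3 * Real.log Y ^ k) :=
              mul_le_mul_of_nonneg_left (hM (c 0) Y hY) (by positivity)
          _ ≤ a * Y * (C3 * (1 + Real.log Y) ^ k) := by
              refine mul_le_mul_of_nonneg_left (mul_le_mul_of_nonneg_left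
                (pow_le_pow_left₀ hlY (by linarith) k) hC3) (by positivity)
          _ = _ := by ring
      · have e1 : ∀ f ∈ S.idl Y, S.cv (c 0) f * mn (Y / S.nf f) = 0 := by
          intro f _
          rw [hmn]
          simp only
          rw [if_neg hc, mul_zero]
        rw [Finset.sum_congr rfl e1, Finset.sum_const_zero,
          if_neg (fun h' => hc fun u => h' u.succ), sub_zero, norm_zero]
        positivity
    have h3 := norm_sub_le_norm_sub_add_norm_sub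
      (∑ f ∈ S.idl Y, S.cv (c 0) f * S.DD c' (Y / S.nf f))
      (∑ f ∈ S.idl Y, S.cv (c 0) f * mn (Y / S.nf f)) (if ∀ u, c u = 0 then
        ((S.κ ^ (k + 1 + 1) / ((k + 1).factorial : ℝ) * (Y * Real.log Y ^ (k + 1)) : ℝ) : ℂ)
        else 0)
    refine h3.trans ((add_le_add h1 h2).trans (le_of_eq ?_))
    change _ = _ * (Y * (1 + Real.log Y) ^ k)
    ring

/-- comparison of the error terms -/
lemma er_le (δ : ℝ) (h0 : 0 < δ) (k : ℕ) : ∃ C : ℝ, 0 ≤ C ∧ ∀ Y : ℝ, 1 ≤ Y →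
    er δ k Y ≤ C * Y * (1 + Real.log Y) ^ (((k + 1 : ℕ) : ℝ) - 3 / 2) := by
  cases k with
  | zero =>
    refine ⟨1 + 1 / δ, by positivity, fun Y hY => ?_⟩
    have hY0 : 0 < Y := by linarith
    have hlY := Real.log_nonneg hY
    have h1 : Real.log Y ≤ Y ^ δ / δ := Real.log_le_rpow_div hY0.le h0
    have h2 : 1 ≤ Y ^ δ := Real.one_le_rpow hY h0.le
    have h3 : 1 + Real.log Y ≤ (1 + 1 / δ) * Y ^ δ := by
      calc _ ≤ Y ^ δ + Y ^ δ / δ := add_le_add h2 h1
        _ = _ := by ring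
    have h4 : (1 + Real.log Y) ^ (-(1 / 2) : ℝ) * (1 + Real.log Y) ≥ 1 := by
      have h5 : (1 + Real.log Y) ^ (-(1 / 2) : ℝ) * (1 + Real.log Y) =
          (1 + Real.log Y) ^ ((1 / 2) : ℝ) := by
        nth_rewrite 2 [← Real.rpow_one (1 + Real.log Y)]
        rw [← Real.rpow_add (by linarith)]
        norm_num
      rw [h5]
      exact Real.one_le_rpow (by linarith) (by norm_num)
    have h6 : (((0 + 1 : ℕ) : ℝ) - 3 / 2) = -(1 / 2) := by norm_num
    rw [h6]
    change Y ^ (1 - δ) ≤ _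
    have h7 : Y ^ (1 - δ) * Y ^ δ = Y := by
      rw [← Real.rpow_add hY0, sub_add_cancel, Real.rpow_one]
    have h8 : 0 ≤ (1 + Real.log Y) ^ (-(1 / 2) : ℝ) := Real.rpow_nonneg (by linarith) _
    have h9 : 0 ≤ Y ^ (1 - δ) := Real.rpow_nonneg hY0.le _
    calc Y ^ (1 - δ) ≤ Y ^ (1 - δ) * ((1 + Real.log Y) ^ (-(1 / 2) : ℝ) * (1 + Real.log Y)) :=
          le_mul_of_one_le_right h9 h4
      _ ≤ Y ^ (1 - δ) * ((1 + Real.log Y) ^ (-(1 / 2) : ℝ) * ((1 + 1 / δ) * Y ^ δ)) :=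
          mul_le_mul_of_nonneg_left (mul_le_mul_of_nonneg_left h3 h8) h9
      _ = (1 + 1 / δ) * (Y ^ (1 - δ) * Y ^ δ) * (1 + Real.log Y) ^ (-(1 / 2) : ℝ) := by ring
      _ = _ := by rw [h7]
  | succ k =>
    refine ⟨1, zero_le_one, fun Y hY => ?_⟩
    have hY0 : 0 < Y := by linarith
    have hlY := Real.log_nonneg hY
    change Y * (1 + Real.log Y) ^ k ≤ _
    rw [one_mul]
    refine mul_le_mul_of_nonneg_left ?_ hY0.le
    rw [← Real.rpow_natCast]
    refine Real.rpow_le_rpow_of_exponent_le (by linarith) ?_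
    push_cast
    linarith

end

end CDiv

open Classical in
/-- sums over tuples of ideals -/
theorem sdiv : SDiv := by
  intro l _ S ι _ _
  obtain ⟨k, hk⟩ : ∃ k, Fintype.card ι = k + 1 :=
    ⟨Fintype.card ι - 1, by have := Fintype.card_pos (α := ι); omega⟩
  obtain ⟨C1, hC1, h1⟩ := CDiv.tuples S k
  obtain ⟨C2, hC2, h2⟩ := CDiv.er_le S.δ S.δ_pos k
  refine ⟨C1 * C2, by positivity, fun c Y hY => ?_⟩
  have e : ι ≃ Fin (k + 1) := Fintype.equivFinOfCardEq hk
  rw [CDiv.DD_equiv S e c Y, hk, Nat.add_sub_cancel]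
  have h3 : (∀ u, c u = 0) ↔ ∀ j, c (e.symm j) = 0 :=
    ⟨fun h j => h _, fun h u => by simpa using h (e u)⟩
  have h4 := h1 (fun j => c (e.symm j)) Y hY
  simp only [h3]
  refine h4.trans ?_
  calc C1 * CDiv.er S.δ k Y ≤ C1 * (C2 * Y * (1 + Real.log Y) ^ (((k + 1 : ℕ) : ℝ) - 3 / 2)) :=
        mul_le_mul_of_nonneg_left (h2 Y hY) hC1
    _ = _ := by ring

end Pool.Agent.H92.EL
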