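import Pool.Agent.H92.EL.CDefs

/-!
# Project ELL (MP_a3214d), block C: statements of the analytic part
-/

set_option autoImplicit false

open scoped BigOperators Topology
open Filter

namespace Pool.Agent.H92.EL

open Pool.Agent.H98.MF (Pre)

/-! ### prime sums and Euler products -/

open Classical in
/-- upper bound for the prime sums of characters -/
def SLupL : Prop := ∀ (l : ℕ) [Fact l.Prime] (S : SysL l), ∃ C : ℝ, 0 ≤ C ∧ ∀ c : S.El, c ≠ 0 →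
  ∀ s : ℝ, 1 < s → s ≤ 2 →
    ∑' p : S.P, (if p ∈ c.2.support then 0 else (ec (S.ex c p)).re) * (S.N p : ℝ) ^ (-s) ≤
      Real.log (1 + Real.log (S.nm c.2.support)) + C

open Classical in
/-- sums over good families are Euler products -/
def SGs1 : Prop := ∀ (l : ℕ) [Fact l.Prime] (S : SysL l) (ι : Type) [Fintype ι]
  (w : ι → S.P → ℂ) (a : S.P → ℝ) (M : Finset S.P), S.Stb M → (∀ u p, ‖w u p‖ ≤ a p) →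
  Summable a →
  (Summable fun x : ι → Finset S.P => if S.Gd x ∧ S.Off M x then ∏ u, ∏ p ∈ x u, ‖w u p‖ else 0) ∧
  ‖∑' x : ι → Finset S.P, (if S.Gd x ∧ S.Off M x then ∏ u, ∏ p ∈ x u, w u p else 0)‖ ≤
    Real.exp (∑' p : S.P, (if S.rg p ∧ p ∉ M then ∑ u, (w u p).re else 0) +
      ((Fintype.card ι : ℝ) * Fintype.card S.D) ^ 2 * ∑' p : S.P, a p ^ 2)

open Classical in
/-- the same with an explicit product over the orbits of primes of degree one: the value is the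
limit of finite products, and at least one for nonnegative weights -/
def SGs2 : Prop := ∀ (l : ℕ) [Fact l.Prime] (S : SysL l) (ι : Type) [Fintype ι]
  (w : ι → S.P → ℂ) (a : S.P → ℝ), (∀ u p, ‖w u p‖ ≤ a p) → Summable a →
  ∀ (O : Type) (o : S.P → O), (∀ p q, o p = o q ↔ ∃ g, S.ac g p = q) →
  ∑' x : ι → Finset S.P, (if S.Gd x then ∏ u, ∏ p ∈ x u, w u p else 0) =
    ∏' i : O, (1 + ∑' p : S.P, if o p = i ∧ S.rg p then ∑ u, w u p else 0)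

open Classical in
/-- the sums over isolated variables -/
def SInn : Prop := ∀ (l : ℕ) [Fact l.Prime] (S : SysL l) (ι : Type) [Fintype ι] (B : ℝ),
  ∃ C E : ℝ, 0 ≤ C ∧ 0 ≤ E ∧ ∀ (τ : S.P → ℝ) (c : ι → S.El) (M : Finset S.P), S.Tk B τ →
    S.Ok c M → ∀ σ : ℝ, 0 < σ → σ ≤ 1 →
    ‖∑' x : ι → Finset S.P, (if S.Gd x ∧ S.Off M x then
      ec (∑ u, ∑ p ∈ x u, S.ex (c u) p) *
        ((∏ u, ∏ p ∈ x u, (τ p * (S.N p : ℝ) ^ (-(1 + σ))) : ℝ) : ℂ) else 0)‖ ≤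
      C * (1 + Real.log (S.nm M)) ^ E * S.ls M ^ E *
        σ ^ (-((Finset.univ.filter fun u => c u = 0).card : ℝ))

/-! ### linked variables -/

namespace SysL

variable {l : ℕ} [Fact l.Prime] (S : SysL l)

/-- the coupling of two sets of primes -/
noncomputable def Tt (t : S.D → ZMod l) (x y : Finset S.P) : ZMod l :=
  ∑ p ∈ x, ∑ q ∈ y, ∑ g : S.D, t g * S.s (S.ac g p) q

/-- good pairs -/
def G2 (x y : Finset S.P) : Prop := S.Gd (fun i : Bool => if i then x else y)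

/-- the weight of a set of primes -/
noncomputable def pws (s : ℝ) (x : Finset S.P) : ℝ := ∏ p ∈ x, (S.N p : ℝ) ^ (-s)

end SysL

open Classical in
/-- the bilinear estimate for boxes -/
def SBoxL : Prop := ∀ (l : ℕ) [Fact l.Prime] (S : SysL l) (t : S.D → ZMod l), t ≠ 0 →
  ∃ C c : ℝ, 0 ≤ C ∧ 0 < c ∧ ∀ a b : Finset S.P → ℂ, (∀ x, ‖a x‖ ≤ 1) → (∀ y, ‖b y‖ ≤ 1) →
  ∀ X Y : ℝ, 1 ≤ X → 1 ≤ Y →
    ‖∑ x ∈ S.bx X, ∑ y ∈ S.bx Y, (if S.G2 x y then a x * b y * ec (S.Tt t x y) else 0)‖ ≤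
      C * (X * Y) * min X Y ^ (-c)

open Classical in
/-- two large linked variables, bounded weights -/
def SBxL0 : Prop := ∀ (l : ℕ) [Fact l.Prime] (S : SysL l) (t : S.D → ZMod l), t ≠ 0 →
  ∃ C E c : ℝ, 0 ≤ C ∧ 0 ≤ E ∧ 0 < c ∧ ∀ a b : Finset S.P → ℂ, (∀ x, ‖a x‖ ≤ 1) →
  (∀ y, ‖b y‖ ≤ 1) → ∀ (σ : ℝ) (J : ℕ), 0 < σ → σ ≤ 1 →
    ‖∑' z : Finset S.P × Finset S.P, (if S.G2 z.1 z.2 ∧ 2 ^ J < S.nm z.1 ∧ 2 ^ J < S.nm z.2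
      then a z.1 * b z.2 * ec (S.Tt t z.1 z.2) *
        ((S.pws (1 + σ) z.1 * S.pws (1 + σ) z.2 : ℝ) : ℂ) else 0)‖ ≤
      C * σ ^ (-E) * (2 : ℝ) ^ (-(c * J))

open Classical in
/-- two large linked variables, weights bounded by products of `τ` -/
def SBxL : Prop := ∀ (l : ℕ) [Fact l.Prime] (S : SysL l) (t : S.D → ZMod l) (B : ℝ), t ≠ 0 →
  ∃ C E c : ℝ, 0 ≤ C ∧ 0 ≤ E ∧ 0 < c ∧ ∀ τ : S.P → ℝ, S.Tk B τ →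
  ∀ a b : Finset S.P → ℂ, (∀ x, ‖a x‖ ≤ ∏ p ∈ x, τ p) → (∀ y, ‖b y‖ ≤ ∏ p ∈ y, τ p) →
  ∀ (σ : ℝ) (J : ℕ), 0 < σ → σ ≤ 1 →
    ‖∑' z : Finset S.P × Finset S.P, (if S.G2 z.1 z.2 ∧ 2 ^ J < S.nm z.1 ∧ 2 ^ J < S.nm z.2
      then a z.1 * b z.2 * ec (S.Tt t z.1 z.2) *
        ((S.pws (1 + σ) z.1 * S.pws (1 + σ) z.2 : ℝ) : ℂ) else 0)‖ ≤
      C * σ ^ (-E) * (2 : ℝ) ^ (-(c * J))

/-- one variable, trivial bounds -/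
def STrL : Prop := ∀ (l : ℕ) [Fact l.Prime] (S : SysL l) (B κ : ℝ) (a : ℕ), 0 ≤ κ →
  ∃ C : ℝ, 0 ≤ C ∧ ∀ τ : S.P → ℝ, S.Tk B τ → ∀ σ : ℝ, 0 < σ → σ ≤ 1 →
  (Summable fun x : Finset S.P => (∏ p ∈ x, κ * τ p) * S.ls x ^ a * S.pws (1 + σ) x) ∧
  ∑' x : Finset S.P, (∏ p ∈ x, κ * τ p) * S.ls x ^ a * S.pws (1 + σ) x ≤ C * σ ^ (-κ) ∧
  ∀ J : ℕ, ∑ x ∈ S.bx (2 ^ J), (∏ p ∈ x, κ * τ p) * S.ls x ^ a * S.pws 1 x ≤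
    C * (1 + (J : ℝ)) ^ κ

/-- all terms are summable -/
def SSmL : Prop := ∀ (l : ℕ) [Fact l.Prime] (S : SysL l) (ι : Type) [Fintype ι]
  (b : ι → ι → ZMod l) (c : ι → S.El) (M : Finset S.P) (B : ℝ) (τ : S.P → ℝ), S.Tk B τ →
  ∀ σ : ℝ, 0 < σ → Summable fun x : ι → Finset S.P => ‖S.Kt τ (1 + σ) b c M x‖

open Classical in
/-- two large linked variables in a family -/
def SFaL : Prop := ∀ (l : ℕ) [Fact l.Prime] (S : SysL l) (ι : Type) [Fintype ι]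
  (b : ι → ι → ZMod l) (B : ℝ), ∃ C E c : ℝ, 0 ≤ C ∧ 0 ≤ E ∧ 0 < c ∧
  ∀ (τ : S.P → ℝ) (d : ι → S.El) (M : Finset S.P), S.Tk B τ →
  ∀ (U W L : Finset ι) (u v : ι), u ∈ L → v ∈ L → u ∈ W → v ∈ W → u ≠ v → S.Lk b u v →
  ∀ (σ : ℝ) (J : ℕ), 0 < σ → σ ≤ 1 →
    ‖∑' x : ι → Finset S.P, (if S.pat x = U ∧ ∀ w ∈ W, (w ∈ L ↔ 2 ^ J < S.nm (x w))
      then S.Kt τ (1 + σ) b d M x else 0)‖ ≤ C * σ ^ (-E) * (2 : ℝ) ^ (-(c * J))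

open Classical in
/-- the characters of the large variables given the small ones -/
def SCh1 : Prop := ∀ (l : ℕ) [Fact l.Prime] (S : SysL l) (ι : Type) [Fintype ι]
  (b : ι → ι → ZMod l) (c : ι → S.El) (M : Finset S.P), (∀ u, b u u = 0) → S.Ok c M →
  ∀ (I : Finset ι) (y : ι → Finset S.P), (∀ u ∈ I, ∀ v ∈ I, ¬ S.Lk b u v) →
  (∀ u ∈ I, y u = ∅) → S.Gd y → S.Off M y →
  ∃ (c' : ι → S.El) (M' : Finset S.P), S.Ok c' M' ∧ M ⊆ M' ∧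
    (∀ p, p ∈ M' ↔ (p ∈ M ∨ ∃ u, ∃ q ∈ y u, ∃ g, S.ac g q = p)) ∧
    (∀ u ∈ I, (c' u = 0 ↔ (c u = 0 ∧ ∀ v, S.Lk b u v → y v = ∅))) ∧
    ∀ x : ι → Finset S.P, (∀ u, u ∉ I → x u = ∅) →
      ((S.Gd (fun u => x u ∪ y u) ∧ S.Off M (fun u => x u ∪ y u)) ↔ (S.Gd x ∧ S.Off M' x)) ∧
      (S.Gd x → S.Off M' x → S.EE b c (fun u => x u ∪ y u) =
        S.EE b c y + ∑ u, ∑ p ∈ x u, S.ex (c' u) p)

open Classical in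
/-- the pattern theorem -/
def SPat : Prop := ∀ (l : ℕ) [Fact l.Prime] (S : SysL l) (ι : Type) [Fintype ι]
  (b : ι → ι → ZMod l) (B : ℝ), (∀ u, b u u = 0) → ∃ E : ℝ, 0 ≤ E ∧ ∀ ε : ℝ, 0 < ε →
  ∃ C : ℝ, 0 ≤ C ∧ ∀ (τ : S.P → ℝ) (c : ι → S.El) (M : Finset S.P), S.Tk B τ → S.Ok c M →
  ∀ (U : Finset ι) (σ : ℝ), 0 < σ → σ ≤ 1 →
    ‖S.PS τ (1 + σ) b c M U‖ ≤ C * (S.nm M : ℝ) ^ ε *
      (if S.iso b U = U then 1 else (1 + Real.log (1 / σ)) ^ E) * σ ^ (-(S.wt b c U : ℝ))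

/-! ### combinatorics -/

open Classical in
/-- the number of isolated types with trivial character -/
def SComb : Prop := ∀ (l : ℕ) [Fact l.Prime] (S : SysL l) (d n : ℕ) (Bd : SysL.BD l d n)
  (R : Finset (SysL.VV l d)) (c : SysL.VV l d → SysL.VV l n → S.El) (Φ : Finset R → Prop),
  S.Rep R → S.Adc c → S.Gen Bd R c Φ → ∀ (η : R → S.El) (U : Finset (R × SysL.VV l n)),
  Φ (U.image Prod.fst) →
    S.wt (SysL.bz Bd R) (fun u => S.cz R c u + η u.1) U ≤ S.bV Bd R c ∧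
    (S.iso (SysL.bz Bd R) U ≠ U →
      S.wt (SysL.bz Bd R) (fun u => S.cz R c u + η u.1) U < S.bV Bd R c) ∧
    (S.wt (SysL.bz Bd R) (fun u => S.cz R c u + η u.1) U = S.bV Bd R c →
      U.image Prod.fst = Finset.univ)

open Classical in
/-- the maximal sets of unlinked types -/
def SFull : Prop := ∀ (l : ℕ) [Fact l.Prime] (S : SysL l) (d n : ℕ) (Bd : SysL.BD l d n)
  (R : Finset (SysL.VV l d)) (U : Finset (R × SysL.VV l n)), S.Rep R →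
  (U.image Prod.fst = Finset.univ → S.iso (SysL.bz Bd R) U = U →
    ∃ ψ, S.Fam Bd ψ ∧ (∀ u ∈ U, ∀ w, u.2 ⬝ᵥ Bd.B w u.1 = ψ w u.1) ∧
      ∀ ψ', S.Fam Bd ψ' → (∀ u ∈ U, ∀ w, u.2 ⬝ᵥ Bd.B w u.1 = ψ' w u.1) → ψ' = ψ) ∧
  ∀ ψ, S.Fam Bd ψ → (∀ u ∈ U, ∀ w, u.2 ⬝ᵥ Bd.B w u.1 = ψ w u.1) →
    S.iso (SysL.bz Bd R) U = U

open Classical in
/-- expansion of the sum in types -/
def SExpd : Prop := ∀ (l : ℕ) [Fact l.Prime] (S : SysL l) (d n : ℕ) (Bd : SysL.BD l d n)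
  (R : Finset (SysL.VV l d)) (c : SysL.VV l d → SysL.VV l n → S.El) (M : Finset S.P)
  (Φ : Finset R → Prop) (θ : (R → S.T) → ℝ) (B : ℝ) (τ : S.P → ℝ), S.Tk B τ → S.Adc c →
  ∃ th : (R → S.T) → ℂ, (∀ η, ‖th η‖ ≤ ∑ t : R → S.T, |θ t|) ∧
    (∀ t : R → S.T, (θ t : ℂ) = ∑ η : R → S.T, th η * ec (∑ v, η v ⬝ᵥ t v)) ∧
    ∀ σ : ℝ, 0 < σ →
    (Summable fun x : R → Finset S.P => if S.Gd x ∧ S.Off M x ∧ S.okc Bd R c x ∧ Φ (S.pat x)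
      then θ (fun v => S.tys (x v)) *
        ∏ v, ∏ p ∈ x v, ((l : ℝ) ^ n * τ p * (S.N p : ℝ) ^ (-(1 + σ))) else 0) ∧
    (S.FF Bd R c M Φ θ τ (1 + σ) : ℂ) = ∑ η : R → S.T, th η *
      ∑ U : Finset (R × SysL.VV l n), if Φ (U.image Prod.fst)
        then S.PS τ (1 + σ) (SysL.bz Bd R) (fun u => S.cz R c u + (η u.1, 0)) M U else 0

/-- the uniform bound -/
def SUni : Prop := ∀ (l : ℕ) [Fact l.Prime] (S : SysL l) (d n : ℕ) (Bd : SysL.BD l d n)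
  (R : Finset (SysL.VV l d)) (B ε : ℝ), S.Rep R → 0 < ε → ∃ C : ℝ, 0 ≤ C ∧
  ∀ (τ : S.P → ℝ) (c : SysL.VV l d → SysL.VV l n → S.El) (M : Finset S.P)
    (Φ : Finset R → Prop), S.Tk B τ → S.Adc c → S.Stb M →
    (∀ v ζ, (c v ζ).2.support ⊆ M) → S.Gen Bd R c Φ → ∀ σ : ℝ, 0 < σ → σ ≤ 1 →
    S.FF Bd R c M Φ (fun _ => 1) τ (1 + σ) ≤
      C * (S.nm M : ℝ) ^ ε * σ ^ (-(S.bV Bd R c : ℝ))

/-! ### the main term for a fixed frame -/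

/-- limits of prime sums -/
def SPl : Prop := ∀ (l : ℕ) [Fact l.Prime] (S : SysL l),
  (∃ L : ℝ, Tendsto (fun σ : ℝ => ∑' p : S.P, (S.N p : ℝ) ^ (-(1 + σ)) - Real.log (1 / σ))
    (𝓝[>] 0) (𝓝 L)) ∧
  ∀ c : S.T, c ≠ 0 → ∃ L : ℂ, Tendsto (fun σ : ℝ =>
    ∑' p : S.P, ec (c ⬝ᵥ S.ty p) * (((S.N p : ℝ) ^ (-(1 + σ)) : ℝ) : ℂ)) (𝓝[>] 0) (𝓝 L)

/-- the mean of the local factors -/
noncomputable def SysL.mu {l : ℕ} [Fact l.Prime] (S : SysL l) {ι : Type} [Fintype ι]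
    (f : ι → S.T → ℂ) : ℂ := ∑ u, (1 / (l : ℂ) ^ S.m) * ∑ t : S.T, f u t

/-- limits of Euler products -/
def SGE1 : Prop := ∀ (l : ℕ) [Fact l.Prime] (S : SysL l) (ι : Type) [Fintype ι]
  (f : ι → S.T → ℂ) (B : ℝ) (τ : S.P → ℝ) (b : ℕ), S.Tk B τ →
  ((S.mu f).re < b → Tendsto (fun σ : ℝ => ((σ ^ b : ℝ) : ℂ) *
    S.GE (fun _ => 1) f τ (1 + σ)) (𝓝[>] 0) (𝓝 0)) ∧
  (S.mu f = b → ∃ L : ℂ, Tendsto (fun σ : ℝ => ((σ ^ b : ℝ) : ℂ) *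
    S.GE (fun _ => 1) f τ (1 + σ)) (𝓝[>] 0) (𝓝 L)) ∧
  (S.mu f = b → (∀ u t, ∃ r : ℝ, 0 ≤ r ∧ f u t = r) → ∃ L : ℝ, 0 < L ∧
    Tendsto (fun σ : ℝ => ((σ ^ b : ℝ) : ℂ) * S.GE (fun _ => 1) f τ (1 + σ)) (𝓝[>] 0) (𝓝 (L : ℂ)))

open Classical in
/-- the main term: reduction to Euler products -/
def SMainA : Prop := ∀ (l : ℕ) [Fact l.Prime] (S : SysL l) (d n : ℕ) (Bd : SysL.BD l d n)
  (R : Finset (SysL.VV l d)) (c : SysL.VV l d → SysL.VV l n → S.T) (Φ : Finset R → Prop)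
  (θ : (R → S.T) → ℝ) (B : ℝ) (τ : S.P → ℝ), S.Rep R → S.Tk B τ →
  (∀ v ζ ζ', c v (ζ + ζ') = c v ζ + c v ζ') → S.Gen Bd R (S.cT c) Φ → Φ Finset.univ →
  Tendsto (fun σ : ℝ => ((σ ^ S.bV Bd R (S.cT c) : ℝ) : ℂ) *
    ((S.FF Bd R (S.cT c) ∅ Φ θ τ (1 + σ) : ℂ) - ∑ ψ ∈ S.Fams Bd,
      S.GE θ (fun v : R => S.gψ Bd c ψ v) τ (1 + σ))) (𝓝[>] 0) (𝓝 0)

open Classical in
/-- factorisation of the local factors -/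
def SGfac : Prop := ∀ (l : ℕ) [Fact l.Prime] (S : SysL l) (d n : ℕ) (Bd : SysL.BD l d n)
  (c : SysL.VV l d → SysL.VV l n → S.T), (∀ v ζ ζ', c v (ζ + ζ') = c v ζ + c v ζ') →
  ∃ (w : SysL.VV l d → S.T → ℝ) (φ : (SysL.VV l d → SysL.VV l d → ZMod l) →
      SysL.VV l d → S.T → ZMod l),
    (∀ v t, 0 ≤ w v t) ∧ (∀ v, 0 < w v 0) ∧
    (∀ v, (1 / (l : ℝ) ^ S.m) * ∑ t : S.T, w v t = S.nv Bd (S.cT c) v) ∧
    (∀ ψ, S.Fam Bd ψ → ∀ v t, S.gψ Bd c ψ v t = (w v t : ℂ) * ec (φ ψ v t)) ∧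
    (∀ ψ ψ', S.Fam Bd ψ → S.Fam Bd ψ' → ∀ v t, w v t ≠ 0 →
      φ (ψ + ψ') v t = φ ψ v t + φ ψ' v t) ∧
    (∀ ψ, S.Fam Bd ψ → ∀ v, φ ψ v 0 = 0) ∧
    ∀ v t w0, (∀ ζ : SysL.VV l n, c v ζ ⬝ᵥ t = ζ ⬝ᵥ Bd.B w0 v) →
      w v t ≠ 0 ∧ ∀ ψ, S.Fam Bd ψ → φ ψ v t = ψ w0 v

open Classical in
/-- limit and positivity of the main term -/
def SMainL : Prop := ∀ (l : ℕ) [Fact l.Prime] (S : SysL l) (d n : ℕ) (Bd : SysL.BD l d n)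
  (R : Finset (SysL.VV l d)) (c : SysL.VV l d → SysL.VV l n → S.T) (θ : (R → S.T) → ℝ)
  (B : ℝ) (τ : S.P → ℝ), S.Rep R → S.Tk B τ →
  (∀ v ζ ζ', c v (ζ + ζ') = c v ζ + c v ζ') → (∀ t, 0 ≤ θ t) → (∀ p, 0 < τ p) →
  ∃ L : ℝ, 0 ≤ L ∧ Tendsto (fun σ : ℝ => ((σ ^ S.bV Bd R (S.cT c) : ℝ) : ℂ) *
      ∑ ψ ∈ S.Fams Bd, S.GE θ (fun v : R => S.gψ Bd c ψ v) τ (1 + σ)) (𝓝[>] 0) (𝓝 (L : ℂ)) ∧
    ((∃ x : R → Finset S.P, S.Gd x ∧ S.okc Bd R (S.cT c) x ∧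
      0 < θ (fun v => S.tys (x v))) → 0 < L)

/-- the result for a fixed frame -/
def SMain : Prop := ∀ (l : ℕ) [Fact l.Prime] (S : SysL l) (d n : ℕ) (Bd : SysL.BD l d n)
  (R : Finset (SysL.VV l d)) (c : SysL.VV l d → SysL.VV l n → S.T) (Φ : Finset R → Prop)
  (θ : (R → S.T) → ℝ) (B : ℝ) (τ : S.P → ℝ), S.Rep R → S.Tk B τ →
  (∀ v ζ ζ', c v (ζ + ζ') = c v ζ + c v ζ') → S.Gen Bd R (S.cT c) Φ → Φ Finset.univ →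
  (∀ t, 0 ≤ θ t) → (∀ p, 0 < τ p) →
  ∃ L : ℝ, 0 ≤ L ∧ Tendsto (fun σ : ℝ => σ ^ S.bV Bd R (S.cT c) *
      S.FF Bd R (S.cT c) ∅ Φ θ τ (1 + σ)) (𝓝[>] 0) (𝓝 L) ∧
    ((∃ x : R → Finset S.P, S.Gd x ∧ S.okc Bd R (S.cT c) x ∧
      0 < θ (fun v => S.tys (x v))) → 0 < L)

/-! ### the central part -/

namespace SysL

variable {l : ℕ} [Fact l.Prime] (S : SysL l)

/-- the value of a type character on an ideal -/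
noncomputable def cv (c : S.T) (f : S.P →₀ ℕ) : ℂ :=
  ec (f.sum fun p k => (k : ZMod l) * (c ⬝ᵥ S.ty p))

open Classical in
/-- sums over tuples of ideals -/
noncomputable def DD {ι : Type} [Fintype ι] (c : ι → S.T) (Y : ℝ) : ℂ :=
  ∑ f ∈ Fintype.piFinset (fun _ : ι => S.idl Y),
    if ((∏ u, S.nf (f u) : ℕ) : ℝ) ≤ Y then ∏ u, S.cv (c u) (f u) else 0

open Classical in
/-- sums over good families with characters -/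
noncomputable def CCc {ι : Type} [Fintype ι] (y : Finset S.P) (c : ι → S.T) (Y : ℝ) : ℂ :=
  ∑ x ∈ Fintype.piFinset (fun _ : ι => S.bx Y),
    if S.Gd x ∧ S.Awy y x ∧ ((∏ u, S.nm (x u) : ℕ) : ℝ) ≤ Y
    then ec (∑ u, c u ⬝ᵥ S.tys (x u)) else 0

end SysL

open Classical in
/-- sums over tuples of ideals -/
def SDiv : Prop := ∀ (l : ℕ) [Fact l.Prime] (S : SysL l) (ι : Type) [Fintype ι] [Nonempty ι],
  ∃ C : ℝ, 0 ≤ C ∧ ∀ (c : ι → S.T) (Y : ℝ), 1 ≤ Y →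
    ‖S.DD c Y - (if ∀ u, c u = 0 then
      ((S.κ ^ Fintype.card ι / ((Fintype.card ι - 1).factorial : ℝ) *
        (Y * Real.log Y ^ (Fintype.card ι - 1)) : ℝ) : ℂ) else 0)‖ ≤
      C * Y * (1 + Real.log Y) ^ ((Fintype.card ι : ℝ) - 3 / 2)

open Classical in
/-- comparison of families and ideals -/
def SCmp : Prop := ∀ (l : ℕ) [Fact l.Prime] (S : SysL l) (ι : Type) [Fintype ι],
  ∃ A0 C κ0 : ℝ, 0 ≤ A0 ∧ 0 ≤ C ∧ 0 < κ0 ∧ ∀ (c : ι → S.T) (y : Finset S.P),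
    S.Gd (fun _ : Unit => y) → ∃ h : (S.P →₀ ℕ) → ℂ,
      (Summable fun f => ‖h f‖ * (S.nf f : ℝ) ^ (-(3 / 4) : ℝ)) ∧
      ∑' f, ‖h f‖ * (S.nf f : ℝ) ^ (-(3 / 4) : ℝ) ≤ C * S.lo A0 y ∧
      (∀ Y : ℝ, 1 ≤ Y → S.CCc y c Y = ∑ f ∈ S.idl Y, h f * S.DD c (Y / S.nf f)) ∧
      ((∀ u, c u = 0) → ∑' f, h f * (((S.nf f : ℝ)⁻¹ : ℝ) : ℂ) = ((κ0 * S.ty0 ι y : ℝ) : ℂ))

open Classical in
/-- the number of central families -/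
def SCcL : Prop := ∀ (l : ℕ) [Fact l.Prime] (S : SysL l) (ι : Type) [Fintype ι] [Nonempty ι],
  ∃ κ1 A0 C : ℝ, 0 < κ1 ∧ 0 ≤ A0 ∧ 0 ≤ C ∧ ∀ (y : Finset S.P), S.Gd (fun _ : Unit => y) →
  ∀ g : (ι → S.T) → ℝ, (∀ t, |g t| ≤ 1) → ∀ Y : ℝ, 1 ≤ Y →
    |S.CC y g Y - κ1 * ((1 / ((l : ℝ) ^ S.m) ^ Fintype.card ι) * ∑ t : ι → S.T, g t) *
      S.ty0 ι y * (Y * Real.log Y ^ (Fintype.card ι - 1))| ≤
      C * S.lo A0 y * Y * (1 + Real.log Y) ^ ((Fintype.card ι : ℝ) - 3 / 2)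

/-! ### Karamata's theorem -/

/-- nonnegative coefficients with a pole of order `B` -/
structure DPo {X : Type} (n : X → ℕ) (b : X → ℝ) (B : ℕ) (L : ℝ) : Prop where
  nn : ∀ x, 0 ≤ b x
  sm : ∀ σ : ℝ, 0 < σ → Summable fun x => b x * (n x : ℝ) ^ (-σ)
  lim : Tendsto (fun σ : ℝ => σ ^ B * ∑' x, b x * (n x : ℝ) ^ (-σ)) (𝓝[>] 0) (𝓝 L)

/-- Karamata's theorem -/
def SKar0 : Prop := ∀ (X : Type) (n : X → ℕ) (b : X → ℝ) (B : ℕ) (L : ℝ), (∀ x, 1 ≤ n x) →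
  ∀ hf : (∀ N : ℕ, {x | n x ≤ N}.Finite), DPo n b B L →
    Tendsto (fun Y : ℝ => (∑ x ∈ (hf ⌊Y⌋₊).toFinset, b x) / Real.log Y ^ B) atTop
      (𝓝 (L / (B.factorial : ℝ)))

/-- Karamata's theorem with inner sums -/
def SKarL : Prop := ∀ (X : Type) (n : X → ℕ) (b b' : X → ℝ) (B β : ℕ) (L L' : ℝ),
  (∀ x, 1 ≤ n x) → 1 ≤ β → ∀ hf : (∀ N : ℕ, {x | n x ≤ N}.Finite), DPo n b B L →
  DPo n b' B L' → ∀ κ C : ℝ, 0 ≤ κ → 0 ≤ C → ∀ f : X → ℝ → ℝ,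
    (∀ x t, 1 ≤ t → |f x t - κ * (b x * n x) * (t * Real.log t ^ (β - 1))| ≤
      C * (b' x * n x) * (t * (1 + Real.log t) ^ ((β : ℝ) - 3 / 2))) →
    Tendsto (fun Y : ℝ => (∑ x ∈ (hf ⌊Y⌋₊).toFinset, f x (Y / n x)) /
      (Y * Real.log Y ^ (B + β - 1))) atTop
      (𝓝 (κ * L * ((β - 1).factorial : ℝ) / ((B + β - 1).factorial : ℝ)))

end Pool.Agent.H92.EL
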