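import Pool.Agent.H92.EL.CStm

/-!
# Project ELL (MP_a3214d), block C, row C27: Karamata's theorem with inner sums
-/

set_option autoImplicit false

open scoped BigOperators Topology
open Filter

namespace Pool.Agent.H92.EL

section

variable {X : Type} {n : X → ℕ}

/-- the elements of logarithmic size at most `T` -/
noncomputable def kaF (hf : ∀ N : ℕ, {x | n x ≤ N}.Finite) (T : ℝ) : Finset X :=
  (hf ⌊Real.exp T⌋₊).toFinset

theorem ka_mem (h1 : ∀ x, 1 ≤ n x) (hf : ∀ N : ℕ, {x | n x ≤ N}.Finite) {T : ℝ} {x : X} :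
    x ∈ kaF hf T ↔ Real.log (n x) ≤ T := by
  have h2 : (0 : ℝ) < n x := by
    have := h1 x
    exact_mod_cast this
  unfold kaF
  rw [Set.Finite.mem_toFinset, Set.mem_setOf_eq, Nat.le_floor_iff (Real.exp_pos T).le,
    Real.log_le_iff_le_exp h2]

theorem ka_log0 (h1 : ∀ x, 1 ≤ n x) (x : X) : 0 ≤ Real.log (n x) :=
  Real.log_nonneg (by exact_mod_cast h1 x)

/-- the weighted sums -/
noncomputable def kaG (hf : ∀ N : ℕ, {x | n x ≤ N}.Finite) (b : X → ℝ) (m : ℕ) (T : ℝ) : ℝ :=
  ∑ x ∈ kaF hf T, b x * (T - Real.log (n x)) ^ m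

/-- truncated powers -/
noncomputable def kh (m : ℕ) (v : ℝ) : ℝ := if 0 ≤ v then v ^ m else 0

theorem kh_mono (m : ℕ) : Monotone (kh m) := by
  intro v w h
  unfold kh
  by_cases hv : 0 ≤ v
  · rw [if_pos hv, if_pos (hv.trans h)]
    exact pow_le_pow_left₀ hv h m
  · rw [if_neg hv]
    split_ifs with hw
    · exact pow_nonneg hw m
    · exact le_rfl

theorem kh_int (m : ℕ) {u T : ℝ} (hu : 0 ≤ u) (hT : u ≤ T) :
    ∫ t in (0 : ℝ)..T, kh m (t - u) = (T - u) ^ (m + 1) / ((m : ℝ) + 1) := by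
  have hi : ∀ a b : ℝ, IntervalIntegrable (kh m) MeasureTheory.volume a b := fun a b =>
    (kh_mono m).intervalIntegrable
  rw [intervalIntegral.integral_comp_sub_right (fun v => kh m v) u, zero_sub,
    ← intervalIntegral.integral_add_adjacent_intervals (hi (-u) 0) (hi 0 (T - u))]
  have h1 : ∫ v in (-u)..0, kh m v = 0 := by
    apply intervalIntegral.integral_zero_ae
    have h0 : ∀ᵐ v : ℝ, v ≠ 0 := by
      rw [MeasureTheory.ae_iff]
      simp
    filter_upwards [h0] with v hv hvI
    rw [Set.uIoc_of_le (by linarith)] at hvI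
    unfold kh
    rw [if_neg]
    intro h
    exact hv (le_antisymm hvI.2 h)
  have h2 : ∫ v in (0 : ℝ)..(T - u), kh m v = ∫ v in (0 : ℝ)..(T - u), v ^ m := by
    apply intervalIntegral.integral_congr
    intro v hv
    rw [Set.uIcc_of_le (by linarith)] at hv
    show kh m v = v ^ m
    unfold kh
    rw [if_pos hv.1]
  rw [h1, h2, integral_pow, zero_add, zero_pow (Nat.succ_ne_zero m), sub_zero]

theorem ka_sum (h1 : ∀ x, 1 ≤ n x) (hf : ∀ N : ℕ, {x | n x ≤ N}.Finite) (b : X → ℝ) (m : ℕ)
    {t T : ℝ} (h : t ≤ T) :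
    kaG hf b m t = ∑ x ∈ kaF hf T, b x * kh m (t - Real.log (n x)) := by
  unfold kaG
  have h2 : ∀ x ∈ kaF hf t, b x * (t - Real.log (n x)) ^ m =
      b x * kh m (t - Real.log (n x)) := by
    intro x hx
    rw [ka_mem h1] at hx
    unfold kh
    rw [if_pos (sub_nonneg.2 hx)]
  rw [Finset.sum_congr rfl h2]
  refine Finset.sum_subset (fun x hx => ?_) fun x _ hx => ?_
  · rw [ka_mem h1] at hx ⊢
    exact hx.trans h
  · rw [ka_mem h1] at hx
    unfold kh
    rw [if_neg (fun h3 => hx (sub_nonneg.1 h3)), mul_zero]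

theorem ka_mono (h1 : ∀ x, 1 ≤ n x) (hf : ∀ N : ℕ, {x | n x ≤ N}.Finite) {b : X → ℝ}
    (hb : ∀ x, 0 ≤ b x) (m : ℕ) : Monotone (kaG hf b m) := by
  intro t T h
  rw [ka_sum h1 hf b m h, ka_sum h1 hf b m le_rfl]
  exact Finset.sum_le_sum fun x _ => mul_le_mul_of_nonneg_left
    (kh_mono m (by linarith)) (hb x)

theorem ka_nonneg (h1 : ∀ x, 1 ≤ n x) (hf : ∀ N : ℕ, {x | n x ≤ N}.Finite) {b : X → ℝ}
    (hb : ∀ x, 0 ≤ b x) (m : ℕ) (T : ℝ) : 0 ≤ kaG hf b m T := by
  refine Finset.sum_nonneg fun x hx => mul_nonneg (hb x) (pow_nonneg ?_ m)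
  rw [ka_mem h1] at hx
  linarith

theorem ka_int (h1 : ∀ x, 1 ≤ n x) (hf : ∀ N : ℕ, {x | n x ≤ N}.Finite) (b : X → ℝ) (m : ℕ)
    {T : ℝ} (hT : 0 ≤ T) :
    kaG hf b (m + 1) T = ((m : ℝ) + 1) * ∫ t in (0 : ℝ)..T, kaG hf b m t := by
  have h2 : ∫ t in (0 : ℝ)..T, kaG hf b m t =
      ∫ t in (0 : ℝ)..T, ∑ x ∈ kaF hf T, b x * kh m (t - Real.log (n x)) := by
    apply intervalIntegral.integral_congr
    intro t ht
    rw [Set.uIcc_of_le hT] at ht
    exact ka_sum h1 hf b m ht.2
  have hi : ∀ u : ℝ, IntervalIntegrable (fun t => kh m (t - u)) MeasureTheory.volume 0 T := by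
    intro u
    refine Monotone.intervalIntegrable fun s t hst => ?_
    exact kh_mono m (by linarith)
  rw [h2, intervalIntegral.integral_finset_sum fun x _ => (hi _).const_mul _, Finset.mul_sum]
  unfold kaG
  refine Finset.sum_congr rfl fun x hx => ?_
  rw [ka_mem h1] at hx
  rw [intervalIntegral.integral_const_mul, kh_int m (ka_log0 h1 x) hx]
  have h3 : (m : ℝ) + 1 ≠ 0 := by positivity
  field_simp

/-- the asymptotics of the weighted sums -/
theorem ka_lim (h1 : ∀ x, 1 ≤ n x) (hf : ∀ N : ℕ, {x | n x ≤ N}.Finite) {b : X → ℝ}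
    (hb : ∀ x, 0 ≤ b x) (B : ℕ) (L : ℝ)
    (h0 : Tendsto (fun T : ℝ => kaG hf b 0 T / T ^ B) atTop (𝓝 (L / (B.factorial : ℝ))))
    (m : ℕ) : Tendsto (fun T : ℝ => kaG hf b m T / T ^ (B + m)) atTop
      (𝓝 (L * (m.factorial : ℝ) / ((B + m).factorial : ℝ))) := by
  induction m with
  | zero => simpa using h0
  | succ m ih =>
    set c : ℝ := L * (m.factorial : ℝ) / ((B + m).factorial : ℝ) with hc
    have h2 : Tendsto (fun T : ℝ => ∫ s in (0 : ℝ)..1, kaG hf b m (T * s) / T ^ (B + m)) atTop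
        (𝓝 (∫ s in (0 : ℝ)..1, c * s ^ (B + m))) := by
      refine intervalIntegral.tendsto_integral_filter_of_dominated_convergence
        (fun _ => c + 1) ?_ ?_ ?_ ?_
      · filter_upwards [eventually_gt_atTop (0 : ℝ)] with T hT
        have h3 : Monotone fun s => kaG hf b m (T * s) / T ^ (B + m) := by
          intro s t hst
          refine div_le_div_of_nonneg_right ?_ (by positivity)
          exact ka_mono h1 hf hb m (mul_le_mul_of_nonneg_left hst hT.le)
        exact h3.measurable.aestronglyMeasurable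
      · have h3 := ih.eventually (gt_mem_nhds (show c < c + 1 by linarith))
        filter_upwards [h3, eventually_gt_atTop (0 : ℝ)] with T h4 hT
        refine Eventually.of_forall fun s hs => ?_
        rw [Set.uIoc_of_le zero_le_one] at hs
        have h5 : 0 < T ^ (B + m) := by positivity
        rw [Real.norm_eq_abs, abs_of_nonneg (div_nonneg (ka_nonneg h1 hf hb m _) h5.le)]
        refine le_trans ?_ h4.le
        refine div_le_div_of_nonneg_right ?_ h5.le
        apply ka_mono h1 hf hb m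
        nlinarith [hs.2]
      · exact intervalIntegrable_const
      · refine Eventually.of_forall fun s hs => ?_
        rw [Set.uIoc_of_le zero_le_one] at hs
        have h3 : Tendsto (fun T : ℝ => T * s) atTop atTop := tendsto_id.atTop_mul_const hs.1
        have h4 := (ih.comp h3).mul_const (s ^ (B + m))
        refine h4.congr' ?_
        filter_upwards [eventually_gt_atTop (0 : ℝ)] with T hT
        have h5 : s ≠ 0 := hs.1.ne'
        rw [Function.comp_apply, mul_pow]
        field_simp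
    have h3 : ∫ s in (0 : ℝ)..1, c * s ^ (B + m) = c / ((B + m : ℕ) + 1 : ℝ) := by
      rw [intervalIntegral.integral_const_mul, integral_pow]
      simp only [one_pow, zero_pow (Nat.succ_ne_zero _), sub_zero]
      rw [mul_one_div]
    rw [h3] at h2
    have h4 := h2.const_mul ((m : ℝ) + 1)
    have h5 : ((m : ℝ) + 1) * (c / ((B + m : ℕ) + 1 : ℝ)) =
        L * ((m + 1).factorial : ℝ) / ((B + (m + 1)).factorial : ℝ) := by
      rw [hc, ← add_assoc, Nat.factorial_succ, Nat.factorial_succ]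
      have h6 : ((B + m).factorial : ℝ) ≠ 0 := by positivity
      push_cast
      field_simp
    rw [h5] at h4
    refine h4.congr' ?_
    filter_upwards [eventually_gt_atTop (0 : ℝ)] with T hT
    rw [ka_int h1 hf b m hT.le, intervalIntegral.integral_div,
      intervalIntegral.integral_comp_mul_left (fun t => kaG hf b m t) hT.ne', mul_zero, mul_one,
      smul_eq_mul, ← add_assoc, pow_succ]
    field_simp

/-- the error term -/
theorem ka_err (h1 : ∀ x, 1 ≤ n x) (hf : ∀ N : ℕ, {x | n x ≤ N}.Finite) {b : X → ℝ}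
    (hb : ∀ x, 0 ≤ b x) (B : ℕ) (c : ℝ)
    (h0 : Tendsto (fun T : ℝ => kaG hf b 0 T / T ^ B) atTop (𝓝 c)) :
    Tendsto (fun T : ℝ => (∑ x ∈ kaF hf T, b x * (1 + T - Real.log (n x)) ^ (-(1 / 2) : ℝ)) /
      T ^ B) atTop (𝓝 0) := by
  rw [tendsto_order]
  constructor
  · intro a ha
    filter_upwards [eventually_gt_atTop (0 : ℝ)] with T hT
    refine lt_of_lt_of_le ha (div_nonneg (Finset.sum_nonneg fun x hx => ?_) (by positivity))
    rw [ka_mem h1] at hx
    exact mul_nonneg (hb x) (Real.rpow_nonneg (by linarith) _)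
  · intro ε hε
    have h2 : Tendsto (fun R : ℝ => R ^ (-(1 / 2) : ℝ) * c) atTop (𝓝 (0 * c)) :=
      (tendsto_rpow_neg_atTop (by norm_num)).mul_const _
    rw [zero_mul] at h2
    obtain ⟨R, hR, hR1⟩ := ((h2.eventually (gt_mem_nhds hε)).and
      (eventually_ge_atTop (1 : ℝ))).exists
    have hR0 : 0 < R := by linarith
    have h3 : Tendsto (fun T : ℝ => kaG hf b 0 (T - R) / T ^ B) atTop (𝓝 c) := by
      have h4 : Tendsto (fun T : ℝ => T - R) atTop atTop :=
        tendsto_atTop_add_const_right _ (-R) tendsto_id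
      have h5 : Tendsto (fun T : ℝ => (T - R) / T) atTop (𝓝 1) := by
        have h6 : Tendsto (fun T : ℝ => 1 - R / T) atTop (𝓝 (1 - 0)) :=
          tendsto_const_nhds.sub (tendsto_id.const_div_atTop R)
        rw [sub_zero] at h6
        refine h6.congr' ?_
        filter_upwards [eventually_gt_atTop (0 : ℝ)] with T hT
        field_simp
      have h6 := (h0.comp h4).mul (h5.pow B)
      rw [one_pow, mul_one] at h6
      refine h6.congr' ?_
      filter_upwards [eventually_gt_atTop R] with T hT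
      have h7 : 0 < T - R := by linarith
      have h8 : 0 < T := by linarith
      rw [Function.comp_apply, div_pow]
      field_simp
    have h4 : Tendsto (fun T : ℝ => R ^ (-(1 / 2) : ℝ) * (kaG hf b 0 T / T ^ B) +
        (kaG hf b 0 T / T ^ B - kaG hf b 0 (T - R) / T ^ B)) atTop
        (𝓝 (R ^ (-(1 / 2) : ℝ) * c + (c - c))) := (h0.const_mul _).add (h0.sub h3)
    rw [sub_self, add_zero] at h4
    filter_upwards [h4.eventually (gt_mem_nhds hR), eventually_gt_atTop (0 : ℝ)] with T h5 hT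
    refine lt_of_le_of_lt ?_ h5
    have h6 : 0 < T ^ B := by positivity
    rw [← mul_div_assoc, ← sub_div, ← add_div]
    refine div_le_div_of_nonneg_right ?_ h6.le
    rw [ka_sum h1 hf b 0 (show T - R ≤ T by linarith)]
    unfold kaG
    rw [← Finset.sum_sub_distrib, Finset.mul_sum, ← Finset.sum_add_distrib]
    refine Finset.sum_le_sum fun x hx => ?_
    rw [ka_mem h1] at hx
    rw [pow_zero, mul_one]
    have h7 : (0 : ℝ) ≤ R ^ (-(1 / 2) : ℝ) := Real.rpow_nonneg hR0.le _
    unfold kh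
    split_ifs with h8
    · rw [pow_zero, mul_one, sub_self, add_zero, mul_comm (R ^ (-(1 / 2) : ℝ))]
      refine mul_le_mul_of_nonneg_left ?_ (hb x)
      exact Real.rpow_le_rpow_of_nonpos hR0 (by linarith) (by norm_num)
    · rw [mul_zero, sub_zero]
      have h9 : (1 + T - Real.log (n x)) ^ (-(1 / 2) : ℝ) ≤ 1 :=
        Real.rpow_le_one_of_one_le_of_nonpos (by linarith) (by norm_num)
      have h10 := mul_le_mul_of_nonneg_left h9 (hb x)
      have h11 := mul_nonneg h7 (hb x)
      linarith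

end

theorem skarL (h : SKar0) : SKarL := by
  intro X n b b' B β L L' h1 hβ hf hb hb' κ C hκ hC f hfx
  obtain ⟨m, rfl⟩ : ∃ m, β = m + 1 := ⟨β - 1, by omega⟩
  rw [Nat.add_sub_cancel, ← Nat.add_assoc, Nat.add_sub_cancel]
  have g0 : ∀ (a : X → ℝ) (M : ℝ), DPo n a B M →
      Tendsto (fun T : ℝ => kaG hf a 0 T / T ^ B) atTop (𝓝 (M / (B.factorial : ℝ))) := by
    intro a M ha
    have h2 := (h X n a B M h1 hf ha).comp Real.tendsto_exp_atTop
    refine h2.congr fun T => ?_
    rw [Function.comp_apply, Real.log_exp]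
    unfold kaG kaF
    simp only [pow_zero, mul_one]
  have hm := ka_lim h1 hf hb.nn B L (g0 b L hb) m
  have he := ka_err h1 hf hb'.nn B _ (g0 b' L' hb')
  -- the error in terms of `T`
  have he2 : Tendsto (fun T : ℝ => C * (((1 + T) / T) ^ m *
      ((∑ x ∈ kaF hf T, b' x * (1 + T - Real.log (n x)) ^ (-(1 / 2) : ℝ)) / T ^ B))) atTop
      (𝓝 0) := by
    have h5 : Tendsto (fun T : ℝ => (1 + T) / T) atTop (𝓝 1) := by
      have h6 : Tendsto (fun T : ℝ => 1 / T + 1) atTop (𝓝 (0 + 1)) :=
        (tendsto_id.const_div_atTop 1).add_const 1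
      rw [zero_add] at h6
      refine h6.congr' ?_
      filter_upwards [eventually_gt_atTop (0 : ℝ)] with T hT
      field_simp
    have h6 := (((h5.pow m).mul he).const_mul C)
    rw [mul_zero, mul_zero] at h6
    exact h6
  have hlog := Real.tendsto_log_atTop
  have hm2 := (hm.comp hlog).const_mul κ
  have he3 := he2.comp hlog
  have h4 : Tendsto (fun Y : ℝ => (∑ x ∈ (hf ⌊Y⌋₊).toFinset, f x (Y / n x)) /
      (Y * Real.log Y ^ (B + m)) - κ * (kaG hf b m (Real.log Y) / Real.log Y ^ (B + m))) atTop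
      (𝓝 0) := by
    refine squeeze_zero_norm' ?_ he3
    filter_upwards [eventually_gt_atTop (1 : ℝ)] with Y hY
    have hY0 : 0 < Y := by linarith
    have hT : 0 < Real.log Y := Real.log_pos hY
    have hF : (hf ⌊Y⌋₊).toFinset = kaF hf (Real.log Y) := by
      unfold kaF
      simp only [Real.exp_log hY0]
    have hTB : 0 < Real.log Y ^ (B + m) := by positivity
    rw [hF, Function.comp_apply]
    have e1 : (∑ x ∈ kaF hf (Real.log Y), f x (Y / n x)) / (Y * Real.log Y ^ (B + m)) -
        κ * (kaG hf b m (Real.log Y) / Real.log Y ^ (B + m)) =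
        (∑ x ∈ kaF hf (Real.log Y), (f x (Y / n x) -
          κ * (b x * n x) * (Y / n x * Real.log (Y / n x) ^ m))) / (Y * Real.log Y ^ (B + m)) := by
      rw [Finset.sum_sub_distrib, sub_div]
      congr 1
      have e2 : ∑ x ∈ kaF hf (Real.log Y), κ * (b x * n x) *
          (Y / n x * Real.log (Y / n x) ^ m) = κ * Y * kaG hf b m (Real.log Y) := by
        unfold kaG
        rw [Finset.mul_sum]
        refine Finset.sum_congr rfl fun x _ => ?_
        have hn : (n x : ℝ) ≠ 0 := by
          have := h1 x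
          positivity
        rw [Real.log_div hY0.ne' hn]
        field_simp
      rw [e2]
      field_simp
    rw [e1, Real.norm_eq_abs, abs_div, abs_of_pos (mul_pos hY0 hTB), div_le_iff₀ (mul_pos hY0 hTB)]
    refine (Finset.abs_sum_le_sum_abs _ _).trans ?_
    have e3 : C * (((1 + Real.log Y) / Real.log Y) ^ m *
        ((∑ x ∈ kaF hf (Real.log Y), b' x *
          (1 + Real.log Y - Real.log (n x)) ^ (-(1 / 2) : ℝ)) / Real.log Y ^ B)) *
        (Y * Real.log Y ^ (B + m)) = C * Y * (1 + Real.log Y) ^ m *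
        ∑ x ∈ kaF hf (Real.log Y), b' x *
          (1 + Real.log Y - Real.log (n x)) ^ (-(1 / 2) : ℝ) := by
      rw [div_pow, pow_add]
      field_simp
    rw [e3, Finset.mul_sum]
    refine Finset.sum_le_sum fun x hx => ?_
    rw [ka_mem h1] at hx
    have hn : (0 : ℝ) < n x := by
      have := h1 x
      exact_mod_cast this
    have hnY : (n x : ℝ) ≤ Y := by
      rw [← Real.exp_log hY0, ← Real.log_le_iff_le_exp hn]
      exact hx
    have h10 := hfx x (Y / n x) ((one_le_div hn).2 hnY)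
    rw [Nat.add_sub_cancel] at h10
    refine h10.trans ?_
    rw [Real.log_div hY0.ne' hn.ne']
    have h11 : 0 < 1 + (Real.log Y - Real.log (n x)) := by linarith
    have h12 : (1 + (Real.log Y - Real.log (n x))) ^ (((m + 1 : ℕ) : ℝ) - 3 / 2) =
        (1 + (Real.log Y - Real.log (n x))) ^ m *
          (1 + Real.log Y - Real.log (n x)) ^ (-(1 / 2) : ℝ) := by
      rw [← Real.rpow_natCast _ m, ← add_sub_assoc, ← Real.rpow_add (by linarith)]
      congr 1
      push_cast
      ring
    rw [h12]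
    have h13 : (1 + (Real.log Y - Real.log (n x))) ^ m ≤ (1 + Real.log Y) ^ m :=
      pow_le_pow_left₀ h11.le (by linarith [ka_log0 h1 x]) m
    have h14 : 0 ≤ (1 + Real.log Y - Real.log (n x)) ^ (-(1 / 2) : ℝ) :=
      Real.rpow_nonneg (by linarith) _
    have h15 : C * (b' x * n x) * (Y / n x * ((1 + (Real.log Y - Real.log (n x))) ^ m *
        (1 + Real.log Y - Real.log (n x)) ^ (-(1 / 2) : ℝ))) =
        C * Y * b' x * (1 + Real.log Y - Real.log (n x)) ^ (-(1 / 2) : ℝ) *
          (1 + (Real.log Y - Real.log (n x))) ^ m := by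
      field_simp
    rw [h15]
    have h16 : 0 ≤ C * Y * b' x * (1 + Real.log Y - Real.log (n x)) ^ (-(1 / 2) : ℝ) :=
      mul_nonneg (mul_nonneg (mul_nonneg hC hY0.le) (hb'.nn x)) h14
    refine (mul_le_mul_of_nonneg_left h13 h16).trans (le_of_eq ?_)
    ring
  have h5 := h4.add hm2
  rw [zero_add] at h5
  have h6 : κ * L * (m.factorial : ℝ) / ((B + m).factorial : ℝ) =
      κ * (L * (m.factorial : ℝ) / ((B + m).factorial : ℝ)) := by ring
  rw [h6]
  refine h5.congr fun Y => ?_
  rw [Function.comp_apply]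
  ring

end Pool.Agent.H92.EL
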