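import Pool.Agent.H92.EL.CStm

/-!
# Project ELL (MP_a3214d), row C26: Karamata's theorem for integer exponents (helper50)
-/

set_option autoImplicit false

open scoped BigOperators Topology
open Filter MeasureTheory

namespace Pool.Agent.H92.EL

/-! ### the functional -/

/-- the functional on polynomials -/
private noncomputable def kLam (B : ℕ) (P : Polynomial ℝ) : ℝ :=
  P.sum fun k a => a / ((k : ℝ) + 1) ^ B

private theorem kLam_add (B : ℕ) (P Q : Polynomial ℝ) :
    kLam B (P + Q) = kLam B P + kLam B Q := by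
  unfold kLam
  refine Polynomial.sum_add_index P Q _ (fun k => ?_) fun k a b => ?_
  · exact zero_div _
  · exact add_div _ _ _

private theorem kLam_mono (B k : ℕ) (a : ℝ) :
    kLam B (Polynomial.monomial k a) = a / ((k : ℝ) + 1) ^ B := by
  unfold kLam
  rw [Polynomial.sum_monomial_index]
  exact zero_div _

/-- a positive functional on functions on `[0,1]` extending `kLam` -/
private structure KFun (B : ℕ) where
  I : (ℝ → ℝ) → ℝ
  mono : ∀ f g : ℝ → ℝ, Continuous f → Continuous g → (∀ x, 0 ≤ x → x ≤ 1 → f x ≤ g x) →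
    I f ≤ I g
  add : ∀ (f : ℝ → ℝ) (c : ℝ), Continuous f → I (fun x => f x + c) = I f + c
  pol : ∀ P : Polynomial ℝ, I (fun x => P.eval x) = kLam B P
  ram : ∀ (f : ℝ → ℝ) (u v : ℝ), Continuous f → 0 < u → u < v → v ≤ 1 → (∀ x, 0 ≤ f x) →
    (∀ x, x ≤ u → f x = 0) → (∀ x, u ≤ x → f x ≤ 1 / x) → (∀ x, v ≤ x → f x = 1 / x) →
    (-Real.log v) ^ B / (B.factorial : ℝ) ≤ I f ∧ I f ≤ (-Real.log u) ^ B / (B.factorial : ℝ)

private noncomputable def kf0 : KFun 0 where
  I f := f 1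
  mono f g _ _ h := h 1 zero_le_one le_rfl
  add f c _ := rfl
  pol P := by
    unfold kLam
    simp only [pow_zero, div_one]
    rw [Polynomial.eval_eq_sum]
    simp only [one_pow, mul_one]
  ram f u v _ hu huv hv _ _ _ h4 := by
    rw [h4 1 hv]
    simp

/-- the weight -/
private noncomputable def kW (m : ℕ) (t : ℝ) : ℝ := Real.exp (-t) * t ^ m / (m.factorial : ℝ)

private theorem kW_nn (m : ℕ) {t : ℝ} (ht : 0 < t) : 0 ≤ kW m t := by
  unfold kW
  positivity

private theorem kW_int (m : ℕ) : IntegrableOn (kW m) (Set.Ioi 0) := by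
  have h := Real.GammaIntegral_convergent (s := (m : ℝ) + 1) (by positivity)
  have h2 : IntegrableOn (fun t : ℝ => Real.exp (-t) * t ^ ((m : ℝ) + 1 - 1) /
    (m.factorial : ℝ)) (Set.Ioi 0) := Integrable.div_const h _
  refine h2.congr_fun (fun t _ => ?_) measurableSet_Ioi
  have h3 : t ^ ((m : ℝ) + 1 - 1) = t ^ m := by
    rw [add_sub_cancel_right, Real.rpow_natCast]
  exact congrArg (fun z : ℝ => Real.exp (-t) * z / (m.factorial : ℝ)) h3

private theorem kW_mul_int (m : ℕ) {f : ℝ → ℝ} (hf : Continuous f) :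
    IntegrableOn (fun t => f (Real.exp (-t)) * kW m t) (Set.Ioi 0) := by
  obtain ⟨C, hC⟩ := isCompact_Icc.exists_bound_of_continuousOn
    (hf.continuousOn (s := Set.Icc (0 : ℝ) 1))
  have hc : Continuous fun t : ℝ => f (Real.exp (-t)) :=
    hf.comp (Real.continuous_exp.comp continuous_neg)
  refine Integrable.bdd_mul (c := C) (kW_int m) hc.aestronglyMeasurable ?_
  refine (ae_restrict_iff' measurableSet_Ioi).2 (Eventually.of_forall fun t ht => ?_)
  have ht0 : 0 < t := ht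
  exact hC _ ⟨(Real.exp_pos _).le, Real.exp_le_one_iff.2 (by linarith)⟩

private theorem kW_pow (m k : ℕ) :
    ∫ t in Set.Ioi (0 : ℝ), Real.exp (-t) ^ k * kW m t = 1 / ((k : ℝ) + 1) ^ (m + 1) := by
  have h := Real.integral_rpow_mul_exp_neg_mul_Ioi (a := (m : ℝ) + 1) (r := (k : ℝ) + 1)
    (by positivity) (by positivity)
  rw [Real.Gamma_nat_eq_factorial, add_sub_cancel_right] at h
  have h2 : ∫ t in Set.Ioi (0 : ℝ), Real.exp (-t) ^ k * kW m t =
      ∫ t in Set.Ioi (0 : ℝ), (t ^ (m : ℝ) * Real.exp (-(((k : ℝ) + 1) * t))) *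
        (1 / (m.factorial : ℝ)) := by
    refine setIntegral_congr_fun measurableSet_Ioi fun t _ => ?_
    have h3 : Real.exp (-(((k : ℝ) + 1) * t)) = Real.exp (-t) ^ k * Real.exp (-t) := by
      rw [← Real.exp_nat_mul, ← Real.exp_add]
      refine congrArg Real.exp ?_
      ring
    unfold kW
    rw [h3, Real.rpow_natCast]
    ring
  rw [h2, integral_mul_const, h]
  have h4 : (1 / ((k : ℝ) + 1)) ^ ((m : ℝ) + 1) = 1 / ((k : ℝ) + 1) ^ (m + 1) := by
    have h5 : ((m : ℝ) + 1) = ((m + 1 : ℕ) : ℝ) := by push_cast; ring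
    rw [h5, Real.rpow_natCast, div_pow, one_pow]
  rw [h4]
  have h6 : (m.factorial : ℝ) ≠ 0 := by positivity
  field_simp

private theorem kW_one (m : ℕ) : ∫ t in Set.Ioi (0 : ℝ), kW m t = 1 := by
  have h := kW_pow m 0
  simpa using h

private theorem kW_box (m : ℕ) {s : ℝ} (hs : 0 ≤ s) :
    ∫ t in Set.Ioi (0 : ℝ), (Set.Ioc 0 s).indicator (fun t => t ^ m / (m.factorial : ℝ)) t =
      s ^ (m + 1) / ((m + 1).factorial : ℝ) := by
  rw [setIntegral_indicator measurableSet_Ioc]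
  have h1 : Set.Ioi (0 : ℝ) ∩ Set.Ioc 0 s = Set.Ioc 0 s := by
    refine Set.inter_eq_self_of_subset_right fun x hx => ?_
    exact hx.1
  rw [h1, ← intervalIntegral.integral_of_le hs, intervalIntegral.integral_div, integral_pow,
    Nat.factorial_succ]
  push_cast
  have h6 : (m.factorial : ℝ) ≠ 0 := by positivity
  have h7 : ((m : ℝ) + 1) ≠ 0 := by positivity
  rw [zero_pow (by omega)]
  field_simp
  ring

private theorem kW_box_int (m : ℕ) (s : ℝ) :
    IntegrableOn (fun t => (Set.Ioc 0 s).indicator (fun t => t ^ m / (m.factorial : ℝ)) t)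
      (Set.Ioi 0) := by
  refine Integrable.integrableOn ?_
  rw [integrable_indicator_iff measurableSet_Ioc]
  have hc : Continuous fun t : ℝ => t ^ m / (m.factorial : ℝ) := by fun_prop
  exact (hc.integrableOn_Icc (a := 0) (b := s)).mono_set Set.Ioc_subset_Icc_self

private noncomputable def kfs (m : ℕ) : KFun (m + 1) where
  I f := ∫ t in Set.Ioi (0 : ℝ), f (Real.exp (-t)) * kW m t
  mono f g hf hg h := by
    refine setIntegral_mono_on (kW_mul_int m hf) (kW_mul_int m hg) measurableSet_Ioi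
      fun t ht => ?_
    have ht0 : 0 < t := ht
    exact mul_le_mul_of_nonneg_right
      (h _ (Real.exp_pos _).le (Real.exp_le_one_iff.2 (by linarith))) (kW_nn m ht0)
  add f c hf := by
    have h1 : ∀ t : ℝ, (f (Real.exp (-t)) + c) * kW m t =
        f (Real.exp (-t)) * kW m t + c * kW m t := fun t => by ring
    simp only [h1]
    rw [integral_add (kW_mul_int m hf) ((kW_int m).const_mul c), integral_const_mul, kW_one,
      mul_one]
  pol P := by
    unfold kLam
    simp only [Polynomial.eval_eq_sum, Polynomial.sum_def]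
    simp only [Finset.sum_mul]
    rw [integral_finsetSum]
    · refine Finset.sum_congr rfl (fun k _ => ?_)
      have h1 : ∀ t : ℝ, P.coeff k * Real.exp (-t) ^ k * kW m t =
          P.coeff k * (Real.exp (-t) ^ k * kW m t) := fun t => by ring
      simp only [h1]
      rw [integral_const_mul, kW_pow]
      ring
    · intro k _
      have h1 := kW_mul_int m (f := fun x => P.coeff k * x ^ k)
        (continuous_const.mul (continuous_pow k))
      exact h1
  ram f u v hf hu huv hv h1 h2 h3 h4 := by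
    have hv0 : 0 < v := hu.trans huv
    constructor
    · have hs : 0 ≤ -Real.log v := neg_nonneg.2 (Real.log_nonpos hv0.le hv)
      rw [← kW_box m hs]
      refine setIntegral_mono_on (kW_box_int m _) (kW_mul_int m hf) measurableSet_Ioi
        fun t ht => ?_
      have ht0 : 0 < t := ht
      by_cases hts : t ≤ -Real.log v
      · rw [Set.indicator_of_mem (show t ∈ Set.Ioc 0 (-Real.log v) from ⟨ht0, hts⟩)]
        have h5 : v ≤ Real.exp (-t) := by
          rw [← Real.log_le_iff_le_exp hv0]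
          linarith
        rw [h4 _ h5]
        unfold kW
        have h6 : Real.exp (-t) ≠ 0 := (Real.exp_pos _).ne'
        refine le_of_eq ?_
        field_simp
      · rw [Set.indicator_of_notMem (fun h => hts h.2)]
        exact mul_nonneg (h1 _) (kW_nn m ht0)
    · have hs : 0 ≤ -Real.log u := neg_nonneg.2 (Real.log_nonpos hu.le (huv.le.trans hv))
      rw [← kW_box m hs]
      refine setIntegral_mono_on (kW_mul_int m hf) (kW_box_int m _) measurableSet_Ioi
        fun t ht => ?_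
      have ht0 : 0 < t := ht
      by_cases hts : t ≤ -Real.log u
      · rw [Set.indicator_of_mem (show t ∈ Set.Ioc 0 (-Real.log u) from ⟨ht0, hts⟩)]
        have h5 : u ≤ Real.exp (-t) := by
          rw [← Real.log_le_iff_le_exp hu]
          linarith
        refine (mul_le_mul_of_nonneg_right (h3 _ h5) (kW_nn m ht0)).trans ?_
        unfold kW
        have h6 : Real.exp (-t) ≠ 0 := (Real.exp_pos _).ne'
        refine le_of_eq ?_
        field_simp
      · rw [Set.indicator_of_notMem (fun h => hts h.2)]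
        have h5 : Real.exp (-t) ≤ u := by
          rw [← Real.le_log_iff_exp_le hu]
          linarith
        rw [h2 _ h5, zero_mul]

private noncomputable def kf : (B : ℕ) → KFun B
  | 0 => kf0
  | m + 1 => kfs m

/-! ### ramps -/

/-- the function `1/x` on `[v, 1]`, zero on `[0, u]` -/
private noncomputable def krm (u v x : ℝ) : ℝ :=
  max 0 (min 1 ((x - u) / (v - u))) / max x u

private theorem krm_cont (u v : ℝ) (hu : 0 < u) : Continuous (krm u v) := by
  unfold krm
  refine Continuous.div (by fun_prop) (by fun_prop) fun x => ?_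
  exact (lt_of_lt_of_le hu (le_max_right _ _)).ne'

private theorem krm_nonneg {u : ℝ} (v : ℝ) (hu : 0 < u) (x : ℝ) : 0 ≤ krm u v x :=
  div_nonneg (le_max_left _ _) (hu.le.trans (le_max_right _ _))

private theorem krm_low {u v : ℝ} (huv : u < v) {x : ℝ} (hx : x ≤ u) : krm u v x = 0 := by
  unfold krm
  have h1 : (x - u) / (v - u) ≤ 0 := div_nonpos_of_nonpos_of_nonneg (by linarith) (by linarith)
  have h2 : min 1 ((x - u) / (v - u)) ≤ 0 := (min_le_right _ _).trans h1
  rw [max_eq_left h2, zero_div]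

private theorem krm_high {u v : ℝ} (huv : u < v) {x : ℝ} (hx : v ≤ x) :
    krm u v x = 1 / x := by
  unfold krm
  have h1 : 1 ≤ (x - u) / (v - u) := by
    rw [le_div_iff₀ (by linarith)]
    linarith
  rw [min_eq_left h1, max_eq_right zero_le_one, max_eq_left (by linarith)]

private theorem krm_le {u v : ℝ} {x : ℝ} (hu : 0 < u) (hx : u ≤ x) :
    krm u v x ≤ 1 / x := by
  unfold krm
  rw [max_eq_left hx]
  have h1 : max 0 (min 1 ((x - u) / (v - u))) ≤ 1 := max_le zero_le_one (min_le_left _ _)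
  exact div_le_div_of_nonneg_right h1 (hu.le.trans hx)

private theorem krm_int (B : ℕ) {u v : ℝ} (hu : 0 < u) (huv : u < v) (hv : v ≤ 1) :
    (-Real.log v) ^ B / (B.factorial : ℝ) ≤ (kf B).I (krm u v) ∧
      (kf B).I (krm u v) ≤ (-Real.log u) ^ B / (B.factorial : ℝ) :=
  (kf B).ram _ u v (krm_cont u v hu) hu huv hv (krm_nonneg v hu) (fun _ hx => krm_low huv hx)
    (fun _ hx => krm_le hu hx) fun _ hx => krm_high huv hx

/-- comparison of polynomials with a continuous function -/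
private theorem kcmp (B : ℕ) (P : Polynomial ℝ) {f : ℝ → ℝ} (hf : Continuous f) {α β : ℝ}
    (hP : ∀ x : ℝ, 0 ≤ x → x ≤ 1 → f x + α ≤ P.eval x ∧ P.eval x ≤ f x + β) :
    (kf B).I f + α ≤ kLam B P ∧ kLam B P ≤ (kf B).I f + β := by
  rw [← (kf B).pol P, ← (kf B).add f α hf, ← (kf B).add f β hf]
  exact ⟨(kf B).mono _ _ (hf.add continuous_const) P.continuous fun x h0 h1 => (hP x h0 h1).1,
    (kf B).mono _ _ P.continuous (hf.add continuous_const) fun x h0 h1 => (hP x h0 h1).2⟩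

/-- Karamata's function -/
private noncomputable def kg (x : ℝ) : ℝ := if Real.exp (-1) ≤ x then 1 / x else 0

/-- polynomials on both sides of Karamata's function -/
private theorem kapx (B : ℕ) {ε : ℝ} (hε : 0 < ε) :
    ∃ P1 P2 : Polynomial ℝ, (∀ x : ℝ, 0 ≤ x → x ≤ 1 → P1.eval x ≤ kg x ∧ kg x ≤ P2.eval x) ∧
      1 / (B.factorial : ℝ) - ε ≤ kLam B P1 ∧ kLam B P2 ≤ 1 / (B.factorial : ℝ) + ε := by
  have hF : (0 : ℝ) < (B.factorial : ℝ) := by positivity
  have hc1 : Tendsto (fun θ : ℝ => (1 - θ) ^ B / (B.factorial : ℝ) - 2 * θ) (𝓝[>] 0)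
      (𝓝 (1 / (B.factorial : ℝ))) := by
    have h : Continuous fun θ : ℝ => (1 - θ) ^ B / (B.factorial : ℝ) - 2 * θ := by fun_prop
    have h2 := h.tendsto 0
    simp only [sub_zero, one_pow, mul_zero] at h2
    exact h2.mono_left nhdsWithin_le_nhds
  have hc2 : Tendsto (fun θ : ℝ => (1 + θ) ^ B / (B.factorial : ℝ) + 2 * θ) (𝓝[>] 0)
      (𝓝 (1 / (B.factorial : ℝ))) := by
    have h : Continuous fun θ : ℝ => (1 + θ) ^ B / (B.factorial : ℝ) + 2 * θ := by fun_prop
    have h2 := h.tendsto 0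
    simp only [add_zero, one_pow, mul_zero] at h2
    exact h2.mono_left nhdsWithin_le_nhds
  have e1 := hc1.eventually (lt_mem_nhds (show 1 / (B.factorial : ℝ) - ε <
    1 / (B.factorial : ℝ) by linarith))
  have e2 := hc2.eventually (gt_mem_nhds (show 1 / (B.factorial : ℝ) <
    1 / (B.factorial : ℝ) + ε by linarith))
  have e3 : ∀ᶠ θ : ℝ in 𝓝[>] 0, θ < 1 :=
    nhdsWithin_le_nhds (gt_mem_nhds (show (0 : ℝ) < 1 by norm_num))
  have e4 : ∀ᶠ θ : ℝ in 𝓝[>] 0, 0 < θ := by
    filter_upwards [self_mem_nhdsWithin] with θ hθ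
    exact hθ
  obtain ⟨θ, hθε1, hθε2, hθ1, hθ0⟩ := (e1.and (e2.and (e3.and e4))).exists
  obtain ⟨a, ha⟩ : ∃ a, a = Real.exp (-1) := ⟨_, rfl⟩
  obtain ⟨c, hc⟩ : ∃ c, c = Real.exp (-(1 - θ)) := ⟨_, rfl⟩
  obtain ⟨c', hc'⟩ : ∃ c', c' = Real.exp (-(1 + θ)) := ⟨_, rfl⟩
  have ha0 : 0 < a := by rw [ha]; exact Real.exp_pos _
  have hc'0 : 0 < c' := by rw [hc']; exact Real.exp_pos _
  have hac : a < c := by rw [ha, hc]; exact Real.exp_lt_exp.2 (by linarith)
  have hc'a : c' < a := by rw [ha, hc']; exact Real.exp_lt_exp.2 (by linarith)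
  have hc1 : c ≤ 1 := by rw [hc]; exact Real.exp_le_one_iff.2 (by linarith)
  have ha1 : a ≤ 1 := hac.le.trans hc1
  have la : Real.log a = -1 := by rw [ha]; exact Real.log_exp _
  have lc : Real.log c = -(1 - θ) := by rw [hc]; exact Real.log_exp _
  have lc' : Real.log c' = -(1 + θ) := by rw [hc']; exact Real.log_exp _
  have f1 := krm_cont a c ha0
  have f2 := krm_cont c' a hc'0
  obtain ⟨P1, hP1⟩ := exists_polynomial_near_of_continuousOn 0 1 (fun x => krm a c x - θ)
    (f1.sub continuous_const).continuousOn θ hθ0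
  obtain ⟨P2, hP2⟩ := exists_polynomial_near_of_continuousOn 0 1 (fun x => krm c' a x + θ)
    (f2.add continuous_const).continuousOn θ hθ0
  have hb1 : ∀ x : ℝ, 0 ≤ x → x ≤ 1 → krm a c x + (-(2 * θ)) ≤ P1.eval x ∧
      P1.eval x ≤ krm a c x + 0 := by
    intro x h0 h1
    have h2 := abs_lt.1 (hP1 x ⟨h0, h1⟩)
    constructor <;> linarith [h2.1, h2.2]
  have hb2 : ∀ x : ℝ, 0 ≤ x → x ≤ 1 → krm c' a x + 0 ≤ P2.eval x ∧
      P2.eval x ≤ krm c' a x + 2 * θ := by
    intro x h0 h1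
    have h2 := abs_lt.1 (hP2 x ⟨h0, h1⟩)
    constructor <;> linarith [h2.1, h2.2]
  have l1 := (kcmp B P1 f1 hb1).1
  have l4 := (kcmp B P2 f2 hb2).2
  have i1 := (krm_int B ha0 hac hc1).1
  have i4 := (krm_int B hc'0 hc'a ha1).2
  rw [lc, neg_neg] at i1
  rw [lc', neg_neg] at i4
  refine ⟨P1, P2, fun x h0 h1 => ⟨?_, ?_⟩, by linarith, by linarith⟩
  · have h2 := (hb1 x h0 h1).2
    rw [add_zero] at h2
    refine h2.trans ?_
    unfold kg
    rw [← ha]
    by_cases hx : a ≤ x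
    · rw [if_pos hx]
      exact krm_le ha0 hx
    · rw [if_neg hx, krm_low hac (not_le.1 hx).le]
  · have h2 := (hb2 x h0 h1).1
    rw [add_zero] at h2
    refine le_trans ?_ h2
    unfold kg
    rw [← ha]
    by_cases hx : a ≤ x
    · rw [if_pos hx, krm_high hc'a hx]
    · rw [if_neg hx]
      exact krm_nonneg a hc'0 x

/-! ### polynomials -/

private theorem k1_term {n : ℕ} (hn : 1 ≤ n) (b a σ : ℝ) (k : ℕ) :
    b * (n : ℝ) ^ (-σ) * (Polynomial.monomial k a).eval ((n : ℝ) ^ (-σ)) =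
      a * (b * (n : ℝ) ^ (-(((k : ℝ) + 1) * σ))) := by
  rw [Polynomial.eval_monomial]
  have h0 : (0 : ℝ) < n := by exact_mod_cast hn
  have h : (n : ℝ) ^ (-(((k : ℝ) + 1) * σ)) = (n : ℝ) ^ (-σ) * ((n : ℝ) ^ (-σ)) ^ k := by
    rw [← Real.rpow_natCast, ← Real.rpow_mul h0.le, ← Real.rpow_add h0]
    refine congrArg (fun z : ℝ => (n : ℝ) ^ z) ?_
    ring
  rw [h]
  ring

private theorem k1_scale (k : ℕ) :
    Tendsto (fun σ : ℝ => ((k : ℝ) + 1) * σ) (𝓝[>] 0) (𝓝[>] 0) := by
  refine tendsto_nhdsWithin_iff.2 ⟨?_, ?_⟩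
  · have h : Tendsto (fun σ : ℝ => ((k : ℝ) + 1) * σ) (𝓝 0) (𝓝 (((k : ℝ) + 1) * 0)) :=
      (continuous_const.mul continuous_id).tendsto 0
    rw [mul_zero] at h
    exact h.mono_left nhdsWithin_le_nhds
  · filter_upwards [self_mem_nhdsWithin] with σ hσ
    have hk : (0 : ℝ) < (k : ℝ) + 1 := by positivity
    exact mul_pos hk (Set.mem_Ioi.1 hσ)

private theorem kpol {X : Type} {n : X → ℕ} {b : X → ℝ} {B : ℕ} {L : ℝ} (hn : ∀ x, 1 ≤ n x)
    (hD : DPo n b B L) (P : Polynomial ℝ) :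
    (∀ σ : ℝ, 0 < σ → Summable fun x => b x * (n x : ℝ) ^ (-σ) * P.eval ((n x : ℝ) ^ (-σ))) ∧
    Tendsto (fun σ : ℝ => σ ^ B * ∑' x, b x * (n x : ℝ) ^ (-σ) * P.eval ((n x : ℝ) ^ (-σ)))
      (𝓝[>] 0) (𝓝 (L * kLam B P)) := by
  induction P using Polynomial.induction_on' with
  | add P Q hP hQ =>
    have h1 : ∀ (σ : ℝ) (x : X), b x * (n x : ℝ) ^ (-σ) * (P + Q).eval ((n x : ℝ) ^ (-σ)) =
        b x * (n x : ℝ) ^ (-σ) * P.eval ((n x : ℝ) ^ (-σ)) +
          b x * (n x : ℝ) ^ (-σ) * Q.eval ((n x : ℝ) ^ (-σ)) := by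
      intro σ x
      rw [Polynomial.eval_add, mul_add]
    refine ⟨fun σ hσ => ?_, ?_⟩
    · simp only [h1]
      exact (hP.1 σ hσ).add (hQ.1 σ hσ)
    · rw [kLam_add, mul_add]
      refine (hP.2.add hQ.2).congr' ?_
      filter_upwards [self_mem_nhdsWithin] with σ hσ
      simp only [h1]
      rw [(hP.1 σ hσ).tsum_add (hQ.1 σ hσ), mul_add]
  | monomial k a =>
    have h1 : ∀ (σ : ℝ) (x : X), b x * (n x : ℝ) ^ (-σ) *
        (Polynomial.monomial k a).eval ((n x : ℝ) ^ (-σ)) =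
          a * (b x * (n x : ℝ) ^ (-(((k : ℝ) + 1) * σ))) :=
      fun σ x => k1_term (hn x) (b x) a σ k
    have hk : (0 : ℝ) < (k : ℝ) + 1 := by positivity
    refine ⟨fun σ hσ => ?_, ?_⟩
    · simp only [h1]
      exact (hD.sm _ (mul_pos hk hσ)).mul_left a
    · rw [kLam_mono]
      have h2 := (hD.lim.comp (k1_scale k)).const_mul (a / ((k : ℝ) + 1) ^ B)
      have h3 : a / ((k : ℝ) + 1) ^ B * L = L * (a / ((k : ℝ) + 1) ^ B) := mul_comm _ _
      rw [h3] at h2
      refine h2.congr fun σ => ?_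
      simp only [h1, Function.comp_apply]
      rw [tsum_mul_left, mul_pow]
      field_simp

/-! ### the theorem -/

private theorem k3_mem {n : ℕ} (hn : 1 ≤ n) {σ : ℝ} (hσ : 0 < σ) :
    0 ≤ (n : ℝ) ^ (-σ) ∧ (n : ℝ) ^ (-σ) ≤ 1 := by
  constructor
  · positivity
  · exact Real.rpow_le_one_of_one_le_of_nonpos (by exact_mod_cast hn) (by linarith)

private theorem k3_term {n : ℕ} (hn : 1 ≤ n) {u : ℝ} (hu : 1 < u) (b : ℝ) :
    b * (n : ℝ) ^ (-(1 / Real.log u)) * kg ((n : ℝ) ^ (-(1 / Real.log u))) =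
      if (n : ℝ) ≤ u then b else 0 := by
  have hl : 0 < Real.log u := Real.log_pos hu
  have hn0 : (0 : ℝ) < n := by
    have : (1 : ℝ) ≤ n := by exact_mod_cast hn
    linarith
  have hy : 0 < (n : ℝ) ^ (-(1 / Real.log u)) := Real.rpow_pos_of_pos hn0 _
  have hiff : Real.exp (-1) ≤ (n : ℝ) ^ (-(1 / Real.log u)) ↔ (n : ℝ) ≤ u := by
    rw [Real.rpow_def_of_pos hn0, Real.exp_le_exp, ← Real.log_le_log_iff hn0 (by linarith)]
    constructor
    · intro h
      have h2 : Real.log n * (1 / Real.log u) ≤ 1 := by linarith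
      rw [mul_one_div, div_le_one hl] at h2
      exact h2
    · intro h
      have h2 : Real.log n * (1 / Real.log u) ≤ 1 := by
        rw [mul_one_div, div_le_one hl]
        exact h
      linarith
  unfold kg
  by_cases h : (n : ℝ) ≤ u
  · rw [if_pos h, if_pos (hiff.2 h), mul_assoc, mul_one_div, div_self hy.ne', mul_one]
  · rw [if_neg h, if_neg (fun h' => h (hiff.1 h')), mul_zero]

private theorem k3_sum {X : Type} (n : X → ℕ) (b : X → ℝ) (h1 : ∀ x, 1 ≤ n x)
    (hf : ∀ N : ℕ, {x | n x ≤ N}.Finite) {u : ℝ} (hu : 1 < u) :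
    HasSum (fun x => b x * (n x : ℝ) ^ (-(1 / Real.log u)) *
      kg ((n x : ℝ) ^ (-(1 / Real.log u)))) (∑ x ∈ (hf ⌊u⌋₊).toFinset, b x) := by
  have hmem : ∀ x, x ∈ (hf ⌊u⌋₊).toFinset ↔ (n x : ℝ) ≤ u := by
    intro x
    rw [Set.Finite.mem_toFinset, ← Nat.le_floor_iff (by linarith)]
    exact Iff.rfl
  have h2 : ∑ x ∈ (hf ⌊u⌋₊).toFinset, b x =
      ∑ x ∈ (hf ⌊u⌋₊).toFinset, b x * (n x : ℝ) ^ (-(1 / Real.log u)) *
      kg ((n x : ℝ) ^ (-(1 / Real.log u))) := by
    refine Finset.sum_congr rfl fun x hx => ?_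
    rw [k3_term (h1 x) hu, if_pos ((hmem x).1 hx)]
  rw [h2]
  refine hasSum_sum_of_ne_finset_zero fun x hx => ?_
  rw [k3_term (h1 x) hu, if_neg (fun h => hx ((hmem x).2 h))]

private theorem k3_sig : Tendsto (fun u : ℝ => 1 / Real.log u) atTop (𝓝[>] 0) := by
  rw [tendsto_nhdsWithin_iff]
  constructor
  · exact tendsto_const_nhds.div_atTop Real.tendsto_log_atTop
  · filter_upwards [eventually_gt_atTop 1] with u hu
    exact Set.mem_Ioi.2 (one_div_pos.2 (Real.log_pos hu))

theorem skar0 : SKar0 := by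
  intro X n b B L hn hf hD
  have hpol := kpol hn hD
  have hL : 0 ≤ L := by
    refine ge_of_tendsto hD.lim ?_
    filter_upwards [self_mem_nhdsWithin] with σ hσ
    have hσ0 : 0 < σ := hσ
    exact mul_nonneg (pow_nonneg hσ0.le _)
      (tsum_nonneg fun x => mul_nonneg (hD.nn x) (by positivity))
  have hF : (0 : ℝ) < (B.factorial : ℝ) := by positivity
  rw [Metric.tendsto_nhds]
  intro δ hδ
  obtain ⟨P1, P2, hP, hl1, hl2⟩ := kapx B (ε := δ / (2 * (L + 1))) (by positivity)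
  have hLe : L * (δ / (2 * (L + 1))) ≤ δ / 2 := by
    have e : L * (δ / (2 * (L + 1))) = δ / 2 * (L / (L + 1)) := by
      field_simp
    rw [e]
    have : L / (L + 1) ≤ 1 := by
      rw [div_le_one (by linarith)]
      linarith
    nlinarith
  have hLF : L * (1 / (B.factorial : ℝ)) = L / (B.factorial : ℝ) := mul_one_div _ _
  have b1 : L / (B.factorial : ℝ) - δ / 2 ≤ L * kLam B P1 := by
    have h3 := mul_le_mul_of_nonneg_left hl1 hL
    rw [mul_sub, hLF] at h3
    linarith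
  have b2 : L * kLam B P2 ≤ L / (B.factorial : ℝ) + δ / 2 := by
    have h3 := mul_le_mul_of_nonneg_left hl2 hL
    rw [mul_add, hLF] at h3
    linarith
  have t1 := (hpol P1).2.comp k3_sig
  have t2 := (hpol P2).2.comp k3_sig
  have e1 := t1.eventually (lt_mem_nhds
    (show L / (B.factorial : ℝ) - δ < L * kLam B P1 by linarith))
  have e2 := t2.eventually (gt_mem_nhds
    (show L * kLam B P2 < L / (B.factorial : ℝ) + δ by linarith))
  filter_upwards [eventually_gt_atTop 1, e1, e2] with u hu h3 h4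
  have hl : 0 < Real.log u := Real.log_pos hu
  have hs : 0 < 1 / Real.log u := one_div_pos.2 hl
  have hS := k3_sum n b hn hf hu
  have c1 : ∑' x, b x * (n x : ℝ) ^ (-(1 / Real.log u)) *
      P1.eval ((n x : ℝ) ^ (-(1 / Real.log u))) ≤ ∑ x ∈ (hf ⌊u⌋₊).toFinset, b x := by
    refine hasSum_le (fun x => ?_) ((hpol P1).1 _ hs).hasSum hS
    have hy := k3_mem (hn x) hs
    exact mul_le_mul_of_nonneg_left (hP _ hy.1 hy.2).1 (mul_nonneg (hD.nn x) hy.1)
  have c2 : ∑ x ∈ (hf ⌊u⌋₊).toFinset, b x ≤ ∑' x, b x * (n x : ℝ) ^ (-(1 / Real.log u)) *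
      P2.eval ((n x : ℝ) ^ (-(1 / Real.log u))) := by
    refine hasSum_le (fun x => ?_) hS ((hpol P2).1 _ hs).hasSum
    have hy := k3_mem (hn x) hs
    exact mul_le_mul_of_nonneg_left (hP _ hy.1 hy.2).2 (mul_nonneg (hD.nn x) hy.1)
  have hq : (∑ x ∈ (hf ⌊u⌋₊).toFinset, b x) / Real.log u ^ B =
      (1 / Real.log u) ^ B * ∑ x ∈ (hf ⌊u⌋₊).toFinset, b x := by
    rw [div_pow, one_pow, one_div_mul_eq_div]
  have hp : 0 ≤ (1 / Real.log u) ^ B := pow_nonneg hs.le _
  have d1 := mul_le_mul_of_nonneg_left c1 hp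
  have d2 := mul_le_mul_of_nonneg_left c2 hp
  simp only [Function.comp_apply] at h3 h4
  rw [Real.dist_eq, hq, abs_lt]
  constructor <;> linarith

end Pool.Agent.H92.EL
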