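import Pool.Agent.H92.EL.DStm
import Pool.Agent.H98.MF.D.RdN
import Pool.Agent.H98.MF.L.Fld
import Pool.Agent.H98.ML.LhTauA
import Pool.Agent.H98.ML.NorbBurnside

/-!
# Project T4 (MP_a3214d), block D, rows D4 and D5: discriminants of tame homomorphisms
-/

set_option autoImplicit false

open scoped BigOperators Pointwise Topology
open NumberField IsDedekindDomain Filter

namespace Pool.Agent.H92.EL

open Pool.Agent.H98.MF (Om Gm ord Dec top nrm fld rdN rexp rex rdN_eq rexp_finite fldK_finite)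
open Pool.Agent.H98.ML (norb m3_norb norb_burnside)

/-- the number of orbits on the group -/
theorem dd_norb {G : Type} [Group G] [Finite G] (g : G) :
    norb (⊥ : Subgroup G) g * orderOf g = Nat.card G := by
  have hF : Fintype G := Fintype.ofFinite G
  have h := norb_burnside (⊥ : Subgroup G) g
  rw [Subgroup.card_bot, mul_one, Nat.card_zpowers] at h
  rw [h]
  have h1 : ∀ x : G, Nat.card (Subgroup.zpowers g ⊓
      (⊥ : Subgroup G).comap (MulAut.conj x).toMonoidHom : Subgroup G) = 1 := by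
    intro x
    have h2 : (⊥ : Subgroup G).comap (MulAut.conj x).toMonoidHom = ⊥ := by
      rw [MonoidHom.comap_bot]
      exact (MonoidHom.ker_eq_bot_iff _).2 (MulAut.conj x).injective
    rw [h2, inf_bot_eq, Subgroup.card_bot]
  rw [Finset.sum_congr rfl fun x _ => h1 x, Finset.sum_const, smul_eq_mul, mul_one,
    Finset.card_univ, Nat.card_eq_fintype_card]

theorem dd_norb_div {G : Type} [Group G] [Finite G] (g : G) :
    norb (⊥ : Subgroup G) g = Nat.card G / orderOf g := by
  rw [← dd_norb g, Nat.mul_div_cancel _ (orderOf_pos g)]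

/-- the exponent is not zero for nontrivial elements -/
theorem dd_xo_pos {G : Type} [Group G] [Finite G] {g : G} (hg : g ≠ 1) : 0 < xo g := by
  have h1 : 0 < Nat.card G := Nat.card_pos
  have h2 : 1 < orderOf g := by
    have h3 := orderOf_pos g
    have h4 : orderOf g ≠ 1 := fun h => hg (orderOf_eq_one_iff.1 h)
    omega
  have h5 := Nat.div_lt_self h1 h2
  unfold xo
  omega

theorem dd_xo_one {G : Type} [Group G] : xo (1 : G) = 0 := by
  unfold xo
  rw [orderOf_one, Nat.div_one, Nat.sub_self]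

/-- the kernel is open -/
theorem dd_open {k : Type} [Field k] [NumberField k] {G : Type} [Group G] {ρ : Gm k →* G}
    (h : IsLocallyConstant ρ) : IsOpen (ρ.ker : Set (Gm k)) := by
  have h2 : (ρ.ker : Set (Gm k)) = {x | ρ x = 1} := by
    ext x
    exact MonoidHom.mem_ker
  rw [h2]
  exact h.isOpen_fiber 1

/-- D4 -/
theorem sdisT : SDisT := by
  intro k _ _ T G _ _ ρ hρ P hP
  obtain ⟨hs, hl⟩ := hρ
  have hi : ρ.ker.index = Nat.card G := by
    rw [Subgroup.index_ker, MonoidHom.range_eq_top.2 hs, Subgroup.card_top]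
  have hU : TmU P ρ.ker := ⟨inferInstance, dd_open hl, by rw [hi]; exact hP⟩
  have h1 := (T.tm P).disc ρ.ker hU ρ.ker le_rfl
  have h2 : norb ρ.ker (T.tau P) = Nat.card G / orderOf (ρ (T.tau P)) := by
    rw [← dd_norb_div, ← m3_norb ρ hs, MonoidHom.comap_bot]
  rw [h2, hi] at h1
  unfold xo
  omega

/-- D5 -/
theorem sprodT (h : SDisT) : SProdT := by
  classical
  intro k _ _ T G _ _ ρ hρ S hS
  have hfin : {P : HeightOneSpectrum (𝓞 k) | P ∉ S ∧ ρ (T.tau P) ≠ 1}.Finite := by
    refine (rexp_finite (fld k ρ.ker)).subset ?_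
    rintro P ⟨h1, h2⟩
    show rexp P (fld k ρ.ker) ≠ 0
    rw [h k T G ρ hρ P (hS P h1)]
    exact (dd_xo_pos h2).ne'
  refine ⟨hfin.toFinset, fun P => by rw [Set.Finite.mem_toFinset]; rfl, ?_⟩
  have hFD : FiniteDimensional k (fld k ρ.ker) := fldK_finite ρ.ker (dd_open hρ.2)
  unfold dG qS
  rw [rdN_eq, finprod_eq_prod_of_mulSupport_subset (s := S ∪ hfin.toFinset)]
  · rw [Finset.prod_union]
    · congr 1
      refine Finset.prod_congr rfl fun P hP => ?_
      have h3 : P ∉ S ∧ ρ (T.tau P) ≠ 1 := (Set.Finite.mem_toFinset hfin).1 hP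
      rw [h k T G ρ hρ P (hS P h3.1)]
      rfl
    · rw [Finset.disjoint_left]
      intro P h1 h2
      have h3 : P ∉ S ∧ ρ (T.tau P) ≠ 1 := (Set.Finite.mem_toFinset hfin).1 h2
      exact h3.1 h1
  · intro P hP
    rw [Function.mem_mulSupport] at hP
    rw [Finset.mem_coe, Finset.mem_union]
    by_cases h1 : P ∈ S
    · exact Or.inl h1
    · refine Or.inr ((Set.Finite.mem_toFinset hfin).2 ⟨h1, fun h2 => hP ?_⟩)
      rw [h k T G ρ hρ P (hS P h1), h2, dd_xo_one, pow_zero]

end Pool.Agent.H92.EL
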