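import Pool.Agent.H92.EL.DStm
import Pool.Agent.H98.MF.D.CmpDec
import Pool.Agent.H67.MU.Exp

/-!
# Project T4 (MP_a3214d), block D: exponents are local and bounded
-/

set_option autoImplicit false

open scoped BigOperators Pointwise
open NumberField IsDedekindDomain

namespace Pool.Agent.H92.EL

open Pool.Agent.H98.MF
open Pool.Agent.H67.MU (vexp vexp_le mu3_not_mem relDisc)

theorem dloc_open {k : Type} [Field k] [NumberField k] {G : Type} [Group G] {ρ : Gm k →* G}
    (h : ρ ∈ Hk k G) : IsOpen (ρ.ker : Set (Gm k)) := by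
  have h1 : (ρ.ker : Set (Gm k)) = ρ ⁻¹' {1} := by
    ext σ
    simp [MonoidHom.mem_ker]
  rw [h1]
  exact h.2 _

theorem slocT : SLocT := by
  intro k _ _ G _ _ ρ ρ' hρ hρ' P h
  have h1 := rexp_dec P (⊥ : Subgroup G) ρ ρ' (dloc_open hρ) (dloc_open hρ') hρ.1 hρ'.1 1
    (fun σ hσ => by rw [h σ hσ, one_mul, inv_one, mul_one])
  rwa [MonoidHom.comap_bot, MonoidHom.comap_bot] at h1

theorem sbdT : SBdT := by
  intro k _ _ P n
  refine ⟨n * (n ^ Module.finrank ℚ k + 1), fun U hUn hU hi => ?_⟩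
  have hnf := fldK_nf U hU
  have hp : P.asIdeal.IsPrime := P.isPrime
  have hf := fldK_finrank U hU
  rw [rexp_eq P (fld k U)]
  have h1 := vexp_le k (fld k U) P.asIdeal P.ne_bot (n ^ Module.finrank ℚ k + 1)
    (Nat.le_add_left 1 _)
    (fun j hj1 hj2 => mu3_not_mem P.asIdeal P.ne_bot n j hj1 (by
      rw [hf] at hj2
      exact le_trans hj2 hi))
  rw [hf] at h1
  exact le_trans h1 (Nat.mul_le_mul_right _ hi)

theorem dloc_nrm {k : Type} [Field k] [NumberField k] (P : HeightOneSpectrum (𝓞 k)) :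
    1 ≤ nrm P := by
  have h0 : Ideal.absNorm P.asIdeal ≠ 0 := by
    rw [Ne, Ideal.absNorm_eq_zero_iff]
    exact P.ne_bot
  exact Nat.one_le_iff_ne_zero.2 h0

theorem svalT (h : SBdT) : SValT := by
  classical
  intro k _ _ G _ _ S
  constructor
  · choose C hC using fun P : HeightOneSpectrum (𝓞 k) => h k P (Nat.card G)
    refine Set.Finite.subset (Set.finite_Iic (∏ P ∈ S, nrm P ^ C P)) ?_
    rintro q ⟨ρ, hρ, rfl⟩
    rw [Set.mem_Iic]
    unfold qS
    refine Finset.prod_le_prod' fun P _ => Nat.pow_le_pow_right (dloc_nrm P) ?_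
    refine hC P ρ.ker inferInstance (dloc_open hρ) ?_
    rw [Subgroup.index_ker, MonoidHom.range_eq_top.2 hρ.1]
    exact le_of_eq (Nat.card_congr Subgroup.topEquiv.toEquiv)
  · intro ρ
    unfold qS
    exact Finset.one_le_prod' fun P _ => Nat.one_le_pow _ _ (dloc_nrm P)

end Pool.Agent.H92.EL
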