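import Pool.Agent.H92.EL.DStm

/-!
# Project T4 (MP_a3214d), block D, rows D11, D12: the relation in a tame quotient, exponents
-/

set_option autoImplicit false

open scoped BigOperators Pointwise Topology
open NumberField IsDedekindDomain Filter

namespace Pool.Agent.H92.EL

open Pool.Agent.H98.MF (Om Gm ord Dec top nrm fld rdN rexp rex)

private theorem drl_grp {G : Type} [Group G] {l q : ℕ} (hl : l.Prime) (hq : 1 ≤ q) {f g : G}
    (hfg : f * g * f⁻¹ = g ^ q) (hgl : g ^ l = 1) (hg1 : g ≠ 1) (hz : Zt l G) :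
    q ≡ 1 [MOD l] ∧ f * g = g * f := by
  have hord : orderOf g = l := by
    have : Fact l.Prime := ⟨hl⟩
    exact orderOf_eq_prime hgl hg1
  obtain ⟨r, rfl⟩ : ∃ r, q = r + 1 := ⟨q - 1, by omega⟩
  have h2 := hz g hgl
  rw [Subgroup.mem_upperCentralSeries_succ_iff] at h2
  have h3 := h2 f
  rw [Subgroup.upperCentralSeries_one] at h3
  -- the commutator is a power of `g`
  have h4 : g * f * g⁻¹ * f⁻¹ = (g ^ r)⁻¹ := by
    have h5 : f * g⁻¹ * f⁻¹ = (g ^ (r + 1))⁻¹ := by
      rw [← hfg]; group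
    calc g * f * g⁻¹ * f⁻¹ = g * (f * g⁻¹ * f⁻¹) := by group
      _ = g * (g ^ (r + 1))⁻¹ := by rw [h5]
      _ = (g ^ r)⁻¹ := by rw [pow_succ]; group
  rw [commutatorElement_def, h4] at h3
  have h6 : g ^ r ∈ Subgroup.center G := by
    have := (Subgroup.center G).inv_mem h3
    rwa [inv_inv] at this
  have hdvd : l ∣ r := by
    by_contra hnd
    have hco : Nat.Coprime r l := (Nat.Prime.coprime_iff_not_dvd hl).2 hnd |>.symm
    have h7 : g ∈ Subgroup.center G := by
      obtain ⟨m, hm⟩ := exists_pow_eq_self_of_coprime (n := r) (x := g) (by rwa [hord])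
      rw [← hm]
      exact (Subgroup.center G).pow_mem h6 m
    have h8 : f * g * f⁻¹ = g := by
      rw [(Subgroup.mem_center_iff.1 h7 f)]
      group
    rw [hfg, pow_succ] at h8
    have h9 : g ^ r = 1 := by
      have := mul_right_cancel (h8.trans (one_mul g).symm)
      exact this
    exact hnd (hord ▸ orderOf_dvd_of_pow_eq_one h9)
  refine ⟨?_, ?_⟩
  · rw [Nat.ModEq.comm, Nat.modEq_iff_dvd' (by omega)]
    simpa using hdvd
  · have h9 : g ^ r = 1 := by
      rw [← orderOf_dvd_iff_pow_eq_one, hord]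
      exact hdvd
    rw [pow_succ, h9, one_mul] at hfg
    calc f * g = f * g * f⁻¹ * f := by group
      _ = g * f := by rw [hfg]

/-- Row D11: the relation in a tame quotient. -/
theorem srelT : SRelT := by
  intro k _ _ T G _ _ ρ hρ P hP
  have hU : TmU P ρ.ker := by
    refine ⟨inferInstance, ?_, ?_⟩
    · have h1 : ((ρ.ker : Subgroup (Gm k)) : Set (Gm k)) = {σ | ρ σ = 1} := by
        ext σ
        simp [MonoidHom.mem_ker]
      rw [h1]
      exact hρ.isOpen_fiber 1
    · rw [Subgroup.index_ker]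
      exact Nat.Coprime.coprime_dvd_left (Subgroup.card_subgroup_dvd_card _) hP
  have h1 := (T.tm P).rel _ hU
  rw [MonoidHom.mem_ker, map_mul, map_mul, map_mul, map_inv, map_inv, map_pow,
    mul_inv_eq_one] at h1
  refine ⟨h1, fun l hl hgl hg1 hz => ?_⟩
  have hq : 1 ≤ nrm P := by
    unfold nrm
    exact Nat.one_le_iff_ne_zero.2 fun h0 => P.ne_bot (Ideal.absNorm_eq_zero_iff.1 h0)
  exact drl_grp hl hq h1 hgl hg1 hz

/-- Row D12: the exponents of elements that are not of order `l`. -/
theorem sexp : SExp := by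
  intro G _ _ l hl hmin hdvd
  have hN : 0 < Nat.card G := Nat.card_pos
  have hl2 : 2 ≤ l := hl.two_le
  refine ⟨fun g hg => by rw [xo, hg], Nat.sub_pos_of_lt (Nat.div_lt_self hN hl2),
    (l : ℝ) ^ 2 / ((l : ℝ) ^ 2 - 1), ?_, ?_⟩
  · have h1 : (2 : ℝ) ≤ l := by exact_mod_cast hl2
    rw [lt_div_iff₀ (by nlinarith)]
    linarith
  · intro g hg
    have h1 : (2 : ℝ) ≤ l := by exact_mod_cast hl2
    have he : orderOf g ∣ Nat.card G := orderOf_dvd_natCard g
    have he0 : 0 < orderOf g := orderOf_pos g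
    have he1 : orderOf g ≠ 1 := by
      intro h
      rw [orderOf_eq_one_iff] at h
      rw [h, one_pow] at hg
      exact hg rfl
    have hel : orderOf g ≠ l := by
      intro h
      apply hg
      rw [← h, pow_orderOf_eq_one]
    have hge : l ≤ orderOf g := by
      obtain ⟨p, hp, hpe⟩ := Nat.exists_prime_and_dvd he1
      exact (hmin p hp (hpe.trans he)).trans (Nat.le_of_dvd he0 hpe)
    have hge2 : l + 1 ≤ orderOf g := by omega
    have hc1 : ((Nat.card G - Nat.card G / l : ℕ) : ℝ) = (Nat.card G : ℝ) - Nat.card G / l := by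
      rw [Nat.cast_sub (Nat.div_le_self _ _), Nat.cast_div hdvd (by positivity)]
    have hc2 : (xo g : ℝ) = (Nat.card G : ℝ) - Nat.card G / orderOf g := by
      rw [xo, Nat.cast_sub (Nat.div_le_self _ _), Nat.cast_div he (by positivity)]
    rw [hc1, hc2]
    have hNr : (0 : ℝ) < Nat.card G := by exact_mod_cast hN
    have her : (0 : ℝ) < orderOf g := by exact_mod_cast he0
    have hge3 : (l : ℝ) + 1 ≤ orderOf g := by exact_mod_cast hge2
    have hw : (l : ℝ) ^ 2 / ((l : ℝ) ^ 2 - 1) * ((Nat.card G : ℝ) - Nat.card G / l) =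
        Nat.card G * (1 - 1 / ((l : ℝ) + 1)) := by
      have h5 : (l : ℝ) ^ 2 - 1 ≠ 0 := by nlinarith
      have h6 : (l : ℝ) + 1 ≠ 0 := by linarith
      have h7 : (l : ℝ) ≠ 0 := by linarith
      field_simp
      ring
    have hr : (Nat.card G : ℝ) - Nat.card G / orderOf g =
        Nat.card G * (1 - 1 / (orderOf g : ℝ)) := by
      field_simp
    rw [hw, hr]
    refine mul_le_mul_of_nonneg_left ?_ hNr.le
    have := one_div_le_one_div_of_le (by linarith : (0 : ℝ) < (l : ℝ) + 1) hge3
    linarith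

end Pool.Agent.H92.EL
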