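import Pool.Agent.H92.EL.ZStm
import Pool.Agent.H92.EL.DHer

/-!
# Project T4 (MP_a3214d), assembly, row Z2: discriminants by ramified primes, finiteness
-/

set_option autoImplicit false

open scoped BigOperators Pointwise Topology
open NumberField IsDedekindDomain Filter

namespace Pool.Agent.H92.EL

open Pool.Agent.H98.MF (Om Gm ord Dec top nrm fld rdN rexp rex rdN_natAbs rdN_eq nf_of_fd
  fldK_fixing fldK_finite fldK_finrank index_ne_zeroK)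

section

variable {k : Type} [Field k] [NumberField k] {G : Type} [Group G]

private theorem zd_nO (T : TM k) {S F : Finset (HeightOneSpectrum (𝓞 k))} {ρ : Gm k →* G}
    (hF : ∀ P, P ∈ F ↔ (P ∉ S ∧ ρ (T.tau P) ≠ 1)) : nO T S ρ = ∏ P ∈ F, nrm P := by
  have h : {P : HeightOneSpectrum (𝓞 k) | P ∉ S ∧ ρ (T.tau P) ≠ 1} =
      (F : Set (HeightOneSpectrum (𝓞 k))) := by
    ext P
    exact (hF P).symm
  unfold nO
  rw [h, finprod_mem_coe_finset]

private theorem zd_fin [Finite G] (X : ℝ) :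
    {ρ : Gm k →* G | ρ ∈ Hk k G ∧ (dG ρ : ℝ) ≤ X}.Finite := by
  set B : ℕ := (discr k).natAbs ^ Nat.card G * ⌊X⌋₊ with hBd
  have hG : 0 < Nat.card G := Nat.card_pos
  have hd1 : 1 ≤ (discr k).natAbs := Int.natAbs_pos.2 (discr_ne_zero k)
  refine Set.Finite.subset (Set.Finite.biUnion (d6h_groups (k := k) B)
    (t := fun U => {ρ : Gm k →* G | IsOpen (U : Set (Gm k)) ∧ ρ.ker = U}) ?_) ?_
  · rintro U ⟨hU, _⟩
    exact (d6h_fib G U hU).subset fun ρ hρ => hρ.2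
  · rintro ρ ⟨⟨hsur, hlc⟩, hX⟩
    have hUo : IsOpen (ρ.ker : Set (Gm k)) := hlc.isOpen_fiber 1
    have hdvd : ρ.ker.index ∣ Nat.card G := by
      rw [Subgroup.index_ker]
      exact Subgroup.card_subgroup_dvd_card _
    have hle : ρ.ker.index ≤ Nat.card G := Nat.le_of_dvd hG hdvd
    have hfd : FiniteDimensional k (fld k ρ.ker) := fldK_finite _ hUo
    have hnf : NumberField (fld k ρ.ker) := nf_of_fd _
    have hrd : rdN (fld k ρ.ker) ≤ ⌊X⌋₊ := Nat.le_floor hX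
    have hdis : (discr (fld k ρ.ker)).natAbs ≤ B := by
      rw [(rdN_natAbs (fld k ρ.ker)).2, fldK_finrank _ hUo]
      exact Nat.mul_le_mul (Nat.pow_le_pow_right hd1 hle) hrd
    rw [Set.mem_iUnion₂]
    exact ⟨ρ.ker, ⟨hUo, hnf, hdis⟩, hUo, rfl⟩

end

open Classical in
/-- Row Z2: the discriminant in terms of the ramified primes, and finiteness. -/
theorem zdis (hP : SProdT) (hE : SExp) (_hL : SDisT) : ZDis := by
  intro k _ _ T G _ l hyp S hS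
  have hfin : Finite G := hyp.fin
  have hlp : l.Prime := hyp.prm
  obtain ⟨hE1, hE2, w, hw, hE3⟩ := hE G l hyp.prm hyp.least hyp.dvd
  set m : ℕ := Nat.card G - Nat.card G / l with hm
  have hord : ∀ g : G, g ^ l = 1 → g ≠ 1 → xo g = m := by
    intro g hg hg1
    have : Fact l.Prime := ⟨hlp⟩
    exact hE1 g (orderOf_eq_prime hg hg1)
  refine ⟨?_, ?_, ⟨w, hw, ?_⟩, fun X => zd_fin X⟩
  · intro ρ hρ
    obtain ⟨F, hF, -⟩ := hP k T G ρ hρ S hS
    have hset : {P : HeightOneSpectrum (𝓞 k) | P ∉ S ∧ ρ (T.tau P) ≠ 1}.Finite := by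
      have h : {P : HeightOneSpectrum (𝓞 k) | P ∉ S ∧ ρ (T.tau P) ≠ 1} =
          (F : Set (HeightOneSpectrum (𝓞 k))) := by
        ext P
        exact (hF P).symm
      rw [h]
      exact F.finite_toSet
    refine ⟨?_, hset, hset.subset ?_⟩
    · rw [zd_nO T hF]
      exact Finset.prod_pos fun P _ => d6h_nrm_pos P
    · rintro P ⟨h1, h2⟩
      exact ⟨h1, fun h3 => h2 (by rw [h3, one_pow])⟩
  · intro ρ hρ hl
    obtain ⟨F, hF, hd⟩ := hP k T G ρ hρ S hS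
    rw [hd, zd_nO T hF, ← Finset.prod_pow]
    congr 1
    refine Finset.prod_congr rfl fun P hPF => ?_
    obtain ⟨h1, h2⟩ := (hF P).1 hPF
    rw [hord _ (hl P h1) h2]
  · intro ρ hρ R hR
    obtain ⟨F, hF, hd⟩ := hP k T G ρ hρ S hS
    have hRm : ∀ P, P ∈ R ↔ (P ∉ S ∧ ρ (T.tau P) ^ l ≠ 1) := by
      intro P
      have h : P ∈ (R : Set (HeightOneSpectrum (𝓞 k))) ↔ P ∈ Rw T S l ρ := by rw [hR]
      exact h
    have hRF : R ⊆ F := by
      intro P hPR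
      obtain ⟨h1, h2⟩ := (hRm P).1 hPR
      exact (hF P).2 ⟨h1, fun h3 => h2 (by rw [h3, one_pow])⟩
    have hF' : ∀ P, P ∈ F \ R ↔ (P ∉ S ∪ R ∧ ρ (T.tau P) ≠ 1) := by
      intro P
      rw [Finset.mem_sdiff, hF, Finset.mem_union]
      tauto
    rw [zd_nO T hF', hd]
    have hq : 1 ≤ qS S ρ := by
      unfold qS
      exact Finset.prod_pos fun P _ => pow_pos (d6h_nrm_pos P) _
    have hsplit : ∏ P ∈ F, nrm P ^ xo (ρ (T.tau P)) =
        (∏ P ∈ F \ R, nrm P ^ xo (ρ (T.tau P))) * ∏ P ∈ R, nrm P ^ xo (ρ (T.tau P)) :=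
      (Finset.prod_sdiff hRF).symm
    have h1 : ∏ P ∈ F \ R, nrm P ^ xo (ρ (T.tau P)) = (∏ P ∈ F \ R, nrm P) ^ m := by
      rw [← Finset.prod_pow]
      refine Finset.prod_congr rfl fun P hPF => ?_
      rw [Finset.mem_sdiff] at hPF
      obtain ⟨h2, h3⟩ := (hF P).1 hPF.1
      have h4 : ρ (T.tau P) ^ l = 1 := by
        by_contra h
        exact hPF.2 ((hRm P).2 ⟨h2, h⟩)
      rw [hord _ h4 h3]
    have h2 : (((∏ P ∈ R, nrm P : ℕ) : ℝ) ^ w) ^ m ≤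
        ((∏ P ∈ R, nrm P ^ xo (ρ (T.tau P)) : ℕ) : ℝ) := by
      rw [Nat.cast_prod, ← Real.finset_prod_rpow _ _ (fun P _ => Nat.cast_nonneg _),
        ← Finset.prod_pow, Nat.cast_prod]
      refine Finset.prod_le_prod (fun P _ => by positivity) fun P hPR => ?_
      obtain ⟨_, h4⟩ := (hRm P).1 hPR
      have h5 : (1 : ℝ) ≤ nrm P := by exact_mod_cast d6h_nrm_pos P
      rw [Nat.cast_pow, ← Real.rpow_natCast, ← Real.rpow_mul (by positivity),
        ← Real.rpow_natCast (nrm P : ℝ)]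
      exact Real.rpow_le_rpow_of_exponent_le h5 (hE3 _ h4)
    rw [mul_pow, hsplit, h1, Nat.cast_mul, Nat.cast_mul, Nat.cast_pow]
    have hq' : (1 : ℝ) ≤ qS S ρ := by exact_mod_cast hq
    have h6 : (0 : ℝ) ≤ ((∏ P ∈ F \ R, nrm P : ℕ) : ℝ) ^ m := by positivity
    have h7 : (0 : ℝ) ≤ ((∏ P ∈ R, nrm P ^ xo (ρ (T.tau P)) : ℕ) : ℝ) := Nat.cast_nonneg _
    calc ((∏ P ∈ F \ R, nrm P : ℕ) : ℝ) ^ m * (((∏ P ∈ R, nrm P : ℕ) : ℝ) ^ w) ^ m
        ≤ ((∏ P ∈ F \ R, nrm P : ℕ) : ℝ) ^ m *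
          ((∏ P ∈ R, nrm P ^ xo (ρ (T.tau P)) : ℕ) : ℝ) := mul_le_mul_of_nonneg_left h2 h6
      _ = 1 * (((∏ P ∈ F \ R, nrm P : ℕ) : ℝ) ^ m *
          ((∏ P ∈ R, nrm P ^ xo (ρ (T.tau P)) : ℕ) : ℝ)) := (one_mul _).symm
      _ ≤ qS S ρ * (((∏ P ∈ F \ R, nrm P : ℕ) : ℝ) ^ m *
          ((∏ P ∈ R, nrm P ^ xo (ρ (T.tau P)) : ℕ) : ℝ)) :=
          mul_le_mul_of_nonneg_right hq' (mul_nonneg h6 h7)

end Pool.Agent.H92.EL
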