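import Pool.Agent.H92.EL.BKStm
import Pool.Agent.H98.MF.C.Bas

/-!
# Project ELL (MP_a3214d), block B, row BK1: the action of the Galois group
-/

set_option autoImplicit false

open scoped BigOperators Polynomial
open NumberField IsDedekindDomain

namespace Pool.Agent.H92.EL

open Pool.Agent.H98.MF (Om Gm ord Dec US PrS mS nrm gen cj Pre preK)

section

variable {k K : Type} [Field k] [NumberField k] [Field K] [NumberField K] [Algebra k K]

theorem bk1_ord (δ : K ≃ₐ[k] K) (P : HeightOneSpectrum (𝓞 K)) (a : K) :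
    ord (dP δ P) (δ a) = ord P a := by
  unfold dP
  rw [Pool.Agent.H98.MF.ord_cj]
  congr 1
  exact δ.symm_apply_apply a

theorem bk1_mem (δ : K ≃ₐ[k] K) (P : HeightOneSpectrum (𝓞 K)) (x : 𝓞 K) :
    x ∈ (dP δ P).asIdeal ↔ Pool.Agent.H98.MF.qxR δ.symm x ∈ P.asIdeal := Iff.rfl

theorem bk1_one (P : HeightOneSpectrum (𝓞 K)) : dP (1 : K ≃ₐ[k] K) P = P := by
  apply HeightOneSpectrum.ext
  ext x
  rw [bk1_mem]
  have h : Pool.Agent.H98.MF.qxR (1 : K ≃ₐ[k] K).symm x = x := by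
    apply RingOfIntegers.ext
    rw [Pool.Agent.H98.MF.qxR_coe]
    rfl
  rw [h]

theorem bk1_mul (δ δ' : K ≃ₐ[k] K) (P : HeightOneSpectrum (𝓞 K)) :
    dP (δ * δ') P = dP δ (dP δ' P) := by
  apply HeightOneSpectrum.ext
  ext x
  rw [bk1_mem, bk1_mem, bk1_mem]
  have h : Pool.Agent.H98.MF.qxR (δ * δ').symm x =
      Pool.Agent.H98.MF.qxR δ'.symm (Pool.Agent.H98.MF.qxR δ.symm x) := by
    apply RingOfIntegers.ext
    rw [Pool.Agent.H98.MF.qxR_coe, Pool.Agent.H98.MF.qxR_coe, Pool.Agent.H98.MF.qxR_coe]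
    rfl
  rw [h]

theorem bk1_nrm (δ : K ≃ₐ[k] K) (P : HeightOneSpectrum (𝓞 K)) : nrm (dP δ P) = nrm P := by
  unfold nrm
  rw [Ideal.absNorm_apply, Ideal.absNorm_apply, Submodule.cardQuot_apply,
    Submodule.cardQuot_apply]
  refine Nat.card_congr (Ideal.quotientEquiv (dP δ P).asIdeal P.asIdeal
    (Pool.Agent.H98.MF.qxR δ.symm) ?_).toEquiv
  show P.asIdeal = Ideal.map _ (Ideal.comap (Pool.Agent.H98.MF.qxR δ.symm) P.asIdeal)
  exact (Ideal.map_comap_of_surjective _ (RingEquiv.surjective _) _).symm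

theorem bk1_lw (l : ℕ) (δ : K ≃ₐ[k] K) (P : HeightOneSpectrum (𝓞 K)) (a : Kˣ) :
    LocW l (dP δ P) ((uD δ a : Kˣ) : K) ↔ LocW l P (a : K) := by
  constructor
  · intro h n
    obtain ⟨c, hc⟩ := h n
    refine ⟨δ.symm c, ?_⟩
    have h1 : (uD δ a : K) * c ^ l = δ ((a : K) * (δ.symm c) ^ l) := by
      rw [map_mul, map_pow, AlgEquiv.apply_symm_apply, uD_val]
    rw [h1] at hc
    rcases hc with hc | hc
    · left
      apply δ.injective
      rw [hc, map_one]
    · right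
      have h2 : δ ((a : K) * (δ.symm c) ^ l) - 1 = δ ((a : K) * (δ.symm c) ^ l - 1) := by
        rw [map_sub, map_one]
      rw [h2, bk1_ord] at hc
      exact hc
  · intro h n
    obtain ⟨c, hc⟩ := h n
    refine ⟨δ c, ?_⟩
    have h1 : (uD δ a : K) * (δ c) ^ l = δ ((a : K) * c ^ l) := by
      rw [map_mul, map_pow, uD_val]
    rw [h1]
    rcases hc with hc | hc
    · left
      rw [hc, map_one]
    · right
      have h2 : δ ((a : K) * c ^ l) - 1 = δ ((a : K) * c ^ l - 1) := by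
        rw [map_sub, map_one]
      rw [h2, bk1_ord]
      exact hc

theorem bk1_ng (l : ℕ) (δ : K ≃ₐ[k] K) (a b : Kˣ) (hb : b ∈ NGL l a) :
    uD δ b ∈ NGL l (uD δ a) := by
  obtain ⟨u, rfl⟩ := hb
  have hpq : Associated
      (((Polynomial.X : K[X]) ^ l - Polynomial.C (a : K)).map (δ.toRingEquiv : K →+* K))
      ((Polynomial.X : K[X]) ^ l - Polynomial.C ((uD δ a : Kˣ) : K)) := by
    have h1 : ((Polynomial.X : K[X]) ^ l - Polynomial.C (a : K)).map (δ.toRingEquiv : K →+* K) =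
        (Polynomial.X : K[X]) ^ l - Polynomial.C ((uD δ a : Kˣ) : K) := by
      rw [Polynomial.map_sub, Polynomial.map_pow, Polynomial.map_X, Polynomial.map_C]
      rfl
    rw [h1]
  have key := Algebra.norm_eq_of_equiv_equiv δ.toRingEquiv
    (AdjoinRoot.mapRingEquiv δ.toRingEquiv _ _ hpq) (by
      ext x
      simp only [RingHom.comp_apply, AdjoinRoot.algebraMap_eq, RingHom.coe_coe,
        AdjoinRoot.coe_mapRingEquiv, AdjoinRoot.map_of])
  refine ⟨Units.map ((AdjoinRoot.mapRingEquiv δ.toRingEquiv _ _ hpq :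
    AdjoinRoot ((Polynomial.X : K[X]) ^ l - Polynomial.C (a : K)) ≃+*
      AdjoinRoot ((Polynomial.X : K[X]) ^ l - Polynomial.C ((uD δ a : Kˣ) : K))) :
    AdjoinRoot ((Polynomial.X : K[X]) ^ l - Polynomial.C (a : K)) →*
      AdjoinRoot ((Polynomial.X : K[X]) ^ l - Polynomial.C ((uD δ a : Kˣ) : K))) u, ?_⟩
  apply Units.ext
  have h2 := key (u : AdjoinRoot ((Polynomial.X : K[X]) ^ l - Polynomial.C (a : K)))
  show Algebra.norm K (AdjoinRoot.mapRingEquiv δ.toRingEquiv _ _ hpq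
    (u : AdjoinRoot ((Polynomial.X : K[X]) ^ l - Polynomial.C (a : K)))) =
    δ (Algebra.norm K (u : AdjoinRoot ((Polynomial.X : K[X]) ^ l - Polynomial.C (a : K))))
  rw [h2]
  exact (δ.toRingEquiv.apply_symm_apply _).symm

theorem bk1_us (δ : K ≃ₐ[k] K) (S : Finset (HeightOneSpectrum (𝓞 K))) (a : Kˣ) (ha : a ∈ US S)
    (S' : Finset (HeightOneSpectrum (𝓞 K))) (hS : ∀ P ∈ S, dP δ P ∈ S') : uD δ a ∈ US S' := by
  rw [Pool.Agent.H98.MF.B.mem_US] at ha ⊢
  intro Q hQ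
  have h1 : dP δ (dP δ⁻¹ Q) = Q := by
    rw [← bk1_mul, mul_inv_cancel, bk1_one]
  have h2 : dP δ⁻¹ Q ∉ S := fun h => hQ (by
    have h3 := hS _ h
    rwa [h1] at h3)
  have h3 := bk1_ord δ (dP δ⁻¹ Q) (a : K)
  rw [h1, ha _ h2] at h3
  exact h3

end

theorem sk1 : SK1 := by
  intro l _ k K _ _ _ _ _
  exact
    { one := bk1_one
      mul := bk1_mul
      ord_eq := bk1_ord
      nrm_eq := bk1_nrm
      lw := bk1_lw l
      ng := bk1_ng l
      us := bk1_us
      one' := fun a => Units.ext rfl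
      mul' := fun δ δ' a => Units.ext rfl }

end Pool.Agent.H92.EL
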