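import Pool.Agent.H92.EL.AStm
import Pool.Agent.H98.MF.L.Ord

/-!
# Project ELL (MP_a3214d), block A: the local `l`-th powers form a group
-/

set_option autoImplicit false

open scoped BigOperators Pointwise
open NumberField IsDedekindDomain

namespace Pool.Agent.H92.EL

open Pool.Agent.H98.MF (ord le_ord_iff_valuation)

section

variable {K : Type} [Field K] [NumberField K]

private theorem mem_v {P : HeightOneSpectrum (𝓞 K)} {x : K} {n : ℕ} (hn : 1 ≤ n)
    (h : P.valuation K (x - 1) ≤ WithZero.exp (-(n : ℤ))) : P.valuation K x = 1 := by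
  have h1 : P.valuation K (x - 1) < 1 := by
    refine lt_of_le_of_lt h ?_
    rw [← WithZero.exp_zero, WithZero.exp_lt_exp]
    omega
  have h2 : P.valuation K (1 + (x - 1)) = P.valuation K (1 : K) := by
    refine Valuation.map_add_eq_of_lt_left _ ?_
    rwa [map_one]
  rwa [add_sub_cancel, map_one] at h2

private theorem mem_mul {P : HeightOneSpectrum (𝓞 K)} {x y : K} {n : ℕ} (hn : 1 ≤ n)
    (hx : P.valuation K (x - 1) ≤ WithZero.exp (-(n : ℤ)))
    (hy : P.valuation K (y - 1) ≤ WithZero.exp (-(n : ℤ))) :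
    P.valuation K (x * y - 1) ≤ WithZero.exp (-(n : ℤ)) := by
  have h1 : x * y - 1 = x * (y - 1) + (x - 1) := by ring
  rw [h1]
  refine (Valuation.map_add _ _ _).trans (max_le ?_ hx)
  rw [map_mul, mem_v hn hx, one_mul]
  exact hy

private theorem mem_inv {P : HeightOneSpectrum (𝓞 K)} {x : K} {n : ℕ} (hn : 1 ≤ n)
    (hx : P.valuation K (x - 1) ≤ WithZero.exp (-(n : ℤ))) :
    P.valuation K (x⁻¹ - 1) ≤ WithZero.exp (-(n : ℤ)) := by
  have h0 := mem_v hn hx
  have hx0 : x ≠ 0 := by
    rintro rfl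
    rw [map_zero] at h0
    exact zero_ne_one h0
  have h1 : x⁻¹ - 1 = -(x - 1) * x⁻¹ := by
    field_simp
    ring
  rw [h1, map_mul, Valuation.map_neg, map_inv₀, h0, inv_one, mul_one]
  exact hx

private theorem mem_iff {l : ℕ} {P : HeightOneSpectrum (𝓞 K)} {a : K} : LocW l P a ↔
    ∀ n : ℕ, 1 ≤ n → ∃ c : K, P.valuation K (a * c ^ l - 1) ≤ WithZero.exp (-(n : ℤ)) := by
  have h1 : ∀ (n : ℕ) (c : K), (a * c ^ l = 1 ∨ (n : ℤ) ≤ ord P (a * c ^ l - 1)) ↔
      P.valuation K (a * c ^ l - 1) ≤ WithZero.exp (-(n : ℤ)) := by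
    intro n c
    rw [← le_ord_iff_valuation, sub_eq_zero]
  constructor
  · intro h n _
    obtain ⟨c, hc⟩ := h n
    exact ⟨c, (h1 n c).1 hc⟩
  · intro h n
    obtain ⟨c, hc⟩ := h (n + 1) (Nat.le_add_left 1 n)
    refine ⟨c, (h1 n c).2 (hc.trans ?_)⟩
    rw [WithZero.exp_le_exp]
    push_cast
    omega

end

/-- the local powers form a group -/
theorem smem : SMem := by
  intro l hl K _ _ P a
  constructor
  · intro h
    unfold WS at h
    induction h using Subgroup.closure_induction with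
    | mem x hx => exact hx
    | one =>
      rw [mem_iff]
      intro n _
      refine ⟨1, ?_⟩
      rw [one_pow, mul_one, Units.val_one, sub_self, map_zero]
      exact zero_le
    | mul x y _ _ hx hy =>
      rw [mem_iff] at hx hy ⊢
      intro n hn
      obtain ⟨c, hc⟩ := hx n hn
      obtain ⟨d, hd⟩ := hy n hn
      refine ⟨c * d, ?_⟩
      have h1 := mem_mul hn hc hd
      have h2 : (x : K) * c ^ l * ((y : K) * d ^ l) = ((x * y : Kˣ) : K) * (c * d) ^ l := by
        rw [Units.val_mul, mul_pow]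
        ring
      rwa [h2] at h1
    | inv x _ hx =>
      rw [mem_iff] at hx ⊢
      intro n hn
      obtain ⟨c, hc⟩ := hx n hn
      refine ⟨c⁻¹, ?_⟩
      have h1 := mem_inv hn hc
      rwa [mul_inv, ← inv_pow, ← Units.val_inv_eq_inv_val] at h1
  · intro h
    exact Subgroup.subset_closure h

end Pool.Agent.H92.EL
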