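import Pool.Agent.H92.EL.AStm
import Pool.Agent.H98.MF.L.WApx

/-!
# Project ELL (MP_a3214d), block A, row A5: elements near `1` are local powers, weak approximation
-/

set_option autoImplicit false

open scoped BigOperators Pointwise
open NumberField IsDedekindDomain

namespace Pool.Agent.H92.EL

open Pool.Agent.H98.MF (ord ord_one ord_neg ord_inv ord_mul ord_pow ord_add_eq ord_int_nonneg
  le_ord_add sqr_prod sqr_mono sqr_iff weak_apx)

section

variable {K : Type} [Field K] [NumberField K]

/-- the exponent of a natural number is not negative -/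
theorem wk_ord_nat (P : HeightOneSpectrum (𝓞 K)) (n : ℕ) : 0 ≤ ord P (n : K) := by
  have e0 : (((n : 𝓞 K)) : K) = (n : K) := map_natCast (algebraMap (𝓞 K) K) n
  have h1 := ord_int_nonneg P (n : 𝓞 K)
  rwa [e0] at h1

/-- the expansion of `(1 - x) ^ l` to first order -/
private theorem wk_exp (P : HeightOneSpectrum (𝓞 K)) {x : K} (hx : x = 0 ∨ 0 ≤ ord P x) (l : ℕ) :
    ∃ r : K, (r = 0 ∨ 0 ≤ ord P r) ∧ (1 - x) ^ l = 1 - l * x + x ^ 2 * r := by
  induction l with
  | zero =>
    refine ⟨0, Or.inl rfl, ?_⟩
    rw [pow_zero, Nat.cast_zero]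
    ring
  | succ l ih =>
    obtain ⟨r, hr, he⟩ := ih
    refine ⟨(l : K) + r * (1 + (-x)), ?_, ?_⟩
    · have h1 : (-x = 0) ∨ 0 ≤ ord P (-x) := by
        rcases hx with h | h
        · left
          rw [h, neg_zero]
        · right
          rw [ord_neg]
          exact h
      have h2 := le_ord_add P (0 : ℤ) (a := (1 : K)) (Or.inr (by rw [ord_one])) h1
      have h3 := sqr_prod P hr h2
      rw [add_zero] at h3
      exact le_ord_add P (0 : ℤ) (Or.inr (wk_ord_nat P l)) h3
    · rw [pow_succ, he]
      push_cast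
      ring

/-- elements which are local powers up to a sufficiently high precision are local powers -/
theorem locW_of_prec {l : ℕ} (hl : l ≠ 0) (P : HeightOneSpectrum (𝓞 K)) {a : K} (c : K)
    (h : a * c ^ l = 1 ∨ 2 * ord P (l : K) < ord P (a * c ^ l - 1)) : LocW l P a := by
  have hlK : (l : K) ≠ 0 := Nat.cast_ne_zero.2 hl
  have he : 0 ≤ ord P (l : K) := wk_ord_nat P l
  have key : ∀ j : ℕ, ∃ c : K, a * c ^ l - 1 = 0 ∨
      2 * ord P (l : K) + 1 + (j : ℤ) ≤ ord P (a * c ^ l - 1) := by
    intro j
    induction j with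
    | zero =>
      refine ⟨c, ?_⟩
      rcases h with h | h
      · left
        rw [h, sub_self]
      · right
        push_cast
        omega
    | succ j ih =>
      obtain ⟨d, hd⟩ := ih
      set t : K := a * d ^ l - 1 with ht
      set u : K := t * (l : K)⁻¹ with hu
      have htu : t = l * u := by
        rw [hu]
        field_simp
      have hu1 : u = 0 ∨ ord P (l : K) + 1 + (j : ℤ) ≤ ord P u := by
        have h1 := sqr_prod P hd (Or.inr (le_refl (ord P ((l : K)⁻¹))))
        rw [← hu, ord_inv] at h1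
        exact sqr_mono P (by omega) h1
      obtain ⟨r, hr, hr1⟩ := wk_exp P (sqr_mono P (m := 0) (by omega) hu1) l
      refine ⟨d * (1 - u), ?_⟩
      have e1 : a * (d * (1 - u)) ^ l - 1 =
          (u * u) * (r + (t * r + -((l : K) * (l : K)))) := by
        have e2 : a * (d * (1 - u)) ^ l = (1 + t) * (1 - u) ^ l := by
          rw [ht, mul_pow]
          ring
        rw [e2, hr1, htu]
        ring
      rw [e1]
      have h2 : (l : K) = 0 ∨ 0 ≤ ord P (l : K) := Or.inr he
      have h3 := sqr_prod P h2 h2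
      have h4 : -((l : K) * (l : K)) = 0 ∨ 0 ≤ ord P (-((l : K) * (l : K))) := by
        right
        rw [ord_neg]
        rcases h3 with h3 | h3
        · exact absurd h3 (mul_ne_zero hlK hlK)
        · exact sub_nonneg.1 (by rw [sub_zero]; exact h3)
      have h5 : t * r = 0 ∨ 0 ≤ ord P (t * r) := by
        have h6 := sqr_prod P (sqr_mono P (m := 0) (by omega) hd) hr
        rw [add_zero] at h6
        exact h6
      have h7 := le_ord_add P (0 : ℤ) hr (le_ord_add P (0 : ℤ) h5 h4)
      have h8 := sqr_prod P (sqr_prod P hu1 hu1) h7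
      exact sqr_mono P (by push_cast; omega) h8
  intro n
  obtain ⟨d, hd⟩ := key n
  refine ⟨d, ?_⟩
  rw [sqr_iff]
  exact sqr_mono P (by omega) hd

/-- elements near `1` are local powers -/
theorem locW_one_add {l : ℕ} (hl : l ≠ 0) (P : HeightOneSpectrum (𝓞 K)) {t : K}
    (ht : t = 0 ∨ 2 * ord P (l : K) < ord P t) : LocW l P (1 + t) := by
  refine locW_of_prec hl P 1 ?_
  rw [one_pow, mul_one, add_sub_cancel_left]
  rcases ht with h | h
  · left
    rw [h, add_zero]
  · exact Or.inr h

end

/-- weak approximation modulo local powers -/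
theorem swk : SWk := by
  classical
  intro l hl K _ _ T c
  set n : ℕ := ∑ P ∈ T, (|ord P (c P : K)| + 2 * |ord P (l : K)| + 1).toNat with hn
  have hn' : ∀ P ∈ T, |ord P (c P : K)| + 2 * |ord P (l : K)| + 1 ≤ n := by
    intro P hP
    have h1 : (|ord P (c P : K)| + 2 * |ord P (l : K)| + 1).toNat ≤ n :=
      Finset.single_le_sum (f := fun P => (|ord P (c P : K)| + 2 * |ord P (l : K)| + 1).toNat)
        (fun _ _ => Nat.zero_le _) hP
    exact (Int.self_le_toNat _).trans (by exact_mod_cast h1)
  obtain ⟨a, ha, -⟩ := weak_apx T (fun P => (c P : K)) n (fun _ => True)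
  have key : ∀ P ∈ T, a ≠ 0 ∧ LocW l P (a * ((c P : K))⁻¹) := by
    intro P hP
    have hx0 : (c P : K) ≠ 0 := (c P).ne_zero
    have h1 := hn' P hP
    have h2 := le_abs_self (ord P (c P : K))
    have h3 := le_abs_self (ord P (l : K))
    have h4 := abs_nonneg (ord P (l : K))
    have h5 : a - (c P : K) = 0 ∨ (n : ℤ) ≤ ord P (a - (c P : K)) := by
      rw [sub_eq_zero]
      exact ha P hP
    have h6 := ord_add_eq P (a := (c P : K)) (b := a - (c P : K)) hx0
      (by
        rcases h5 with h | h
        · exact Or.inl h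
        · exact Or.inr (by omega))
    rw [add_sub_cancel] at h6
    refine ⟨h6.1, ?_⟩
    have h7 := sqr_prod P h5 (Or.inr (le_refl (ord P (c P : K)⁻¹)))
    rw [ord_inv] at h7
    have h8 : LocW l P (1 + (a - (c P : K)) * (c P : K)⁻¹) := by
      refine locW_one_add hl.ne_zero P ?_
      rcases h7 with h | h
      · exact Or.inl h
      · exact Or.inr (by omega)
    have h9 : a * ((c P : K))⁻¹ = 1 + (a - (c P : K)) * (c P : K)⁻¹ := by
      field_simp
      ring
    rw [h9]
    exact h8
  by_cases ha0 : a = 0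
  · exact ⟨1, fun P hP => absurd ha0 (key P hP).1⟩
  · refine ⟨Units.mk0 a ha0, fun P hP => Subgroup.subset_closure ?_⟩
    show LocW l P ((Units.mk0 a ha0 / c P : Kˣ) : K)
    rw [div_eq_mul_inv, Units.val_mul, Units.val_mk0, Units.val_inv_eq_inv_val]
    exact (key P hP).2

end Pool.Agent.H92.EL
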