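import Pool.Agent.H92.EL.BKStm
import Pool.Agent.H92.EL.Mem
import Pool.Agent.H92.EL.Wk

/-!
# Project ELL (MP_a3214d), block B: dual bases
-/

set_option autoImplicit false

open scoped BigOperators
open NumberField IsDedekindDomain

namespace Pool.Agent.H92.EL

open Pool.Agent.H98.MF (Om Gm ord Dec US PrS mS nrm gen cj Pre preK)

section

variable {l : ℕ} [Fact l.Prime] {k K : Type} [Field k] [NumberField k] [Field K] [NumberField K]
  [Algebra k K] {z : K}

private theorem bk11_one (G : GSy l K z) (P : HeightOneSpectrum (𝓞 K)) (a : Kˣ) :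
    G.hs P a 1 = 0 := by
  have h := G.mulR P a 1 1
  rw [one_mul] at h
  exact left_eq_add.1 h

private theorem bk11_anti (G : GSy l K z) (P : HeightOneSpectrum (𝓞 K)) (a b : Kˣ) :
    G.hs P a b = - G.hs P b a := by
  have h := G.alt P (a * b)
  rw [G.mulL, G.mulR, G.mulR, G.alt, G.alt, zero_add, add_zero] at h
  exact eq_neg_of_add_eq_zero_left h

/-- the pairing -/
private noncomputable def bk11_b (G : GSy l K z) (S : Finset (HeightOneSpectrum (𝓞 K)))
    (a x : Kˣ) : ZMod l := ∑ P ∈ S, G.hs P a x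

private theorem bk11_anti' (G : GSy l K z) (S : Finset (HeightOneSpectrum (𝓞 K))) (a x : Kˣ) :
    bk11_b G S a x = - bk11_b G S x a := by
  unfold bk11_b
  rw [← Finset.sum_neg_distrib]
  exact Finset.sum_congr rfl fun P _ => bk11_anti G P a x

private theorem bk11_mulR (G : GSy l K z) (S : Finset (HeightOneSpectrum (𝓞 K)))
    (a x y : Kˣ) : bk11_b G S a (x * y) = bk11_b G S a x + bk11_b G S a y := by
  unfold bk11_b
  rw [← Finset.sum_add_distrib]
  exact Finset.sum_congr rfl fun P _ => G.mulR P a x y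

private theorem bk11_mulL (G : GSy l K z) (S : Finset (HeightOneSpectrum (𝓞 K)))
    (a b x : Kˣ) : bk11_b G S (a * b) x = bk11_b G S a x + bk11_b G S b x := by
  rw [bk11_anti', bk11_mulR, bk11_anti' G S a x, bk11_anti' G S b x]
  ring

private theorem bk11_oneR (G : GSy l K z) (S : Finset (HeightOneSpectrum (𝓞 K)))
    (a : Kˣ) : bk11_b G S a 1 = 0 :=
  Finset.sum_eq_zero fun P _ => bk11_one G P a

private theorem bk11_divR (G : GSy l K z) (S : Finset (HeightOneSpectrum (𝓞 K)))
    (a x y : Kˣ) : bk11_b G S a (x / y) = bk11_b G S a x - bk11_b G S a y := by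
  rw [eq_sub_iff_add_eq, ← bk11_mulR, div_mul_cancel]

private theorem bk11_pow (G : GSy l K z) (S : Finset (HeightOneSpectrum (𝓞 K))) (a b : Kˣ)
    (n : ℕ) : bk11_b G S a (b ^ n) = (n : ZMod l) * bk11_b G S a b := by
  induction n with
  | zero => rw [pow_zero, bk11_oneR, Nat.cast_zero, zero_mul]
  | succ n ih =>
    rw [pow_succ, bk11_mulR, ih]
    push_cast
    ring

private theorem bk11_prod (G : GSy l K z) (S : Finset (HeightOneSpectrum (𝓞 K))) (a : Kˣ)
    {ι : Type} (s : Finset ι) (f : ι → Kˣ) :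
    bk11_b G S a (∏ j ∈ s, f j) = ∑ j ∈ s, bk11_b G S a (f j) := by
  classical
  induction s using Finset.induction_on with
  | empty => rw [Finset.prod_empty, Finset.sum_empty, bk11_oneR]
  | insert j s hj ih => rw [Finset.prod_insert hj, Finset.sum_insert hj, bk11_mulR, ih]

private theorem bk11_pr (G : GSy l K z) (S : Finset (HeightOneSpectrum (𝓞 K))) (a : Kˣ) {m : ℕ}
    (f : Fin m → Kˣ) (c : Fin m → ZMod l) :
    bk11_b G S a (∏ j, f j ^ (c j).val) = ∑ j, c j * bk11_b G S a (f j) := by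
  have : NeZero l := ⟨(Fact.out : l.Prime).ne_zero⟩
  rw [bk11_prod]
  refine Finset.sum_congr rfl fun j _ => ?_
  rw [bk11_pow, ZMod.natCast_zmod_val]

private theorem bk11_prL (G : GSy l K z) (S : Finset (HeightOneSpectrum (𝓞 K))) (x : Kˣ) {m : ℕ}
    (f : Fin m → Kˣ) (c : Fin m → ZMod l) :
    bk11_b G S (∏ j, f j ^ (c j).val) x = ∑ j, c j * bk11_b G S (f j) x := by
  rw [bk11_anti', bk11_pr, ← Finset.sum_neg_distrib]
  refine Finset.sum_congr rfl fun j _ => ?_
  rw [bk11_anti' G S x (f j)]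
  ring

/-- powers pair to zero -/
private theorem bk11_pw (G : GSy l K z) (S : Finset (HeightOneSpectrum (𝓞 K))) {H : Subgroup Kˣ}
    {a : Kˣ} (ha : a ∈ pw l H) (x : Kˣ) : bk11_b G S a x = 0 := by
  obtain ⟨b, _, rfl⟩ := Subgroup.mem_map.1 ha
  rw [bk11_anti']
  show - bk11_b G S x (b ^ l) = 0
  rw [bk11_pow, ZMod.natCast_self, zero_mul, neg_zero]

/-- elements orthogonal to everything are local powers -/
private theorem bk11_KW (G : GSy l K z) (S : Finset (HeightOneSpectrum (𝓞 K))) {a : Kˣ}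
    (h : ∀ x, bk11_b G S a x = 0) : a ∈ KW l S := by
  classical
  have hl : l.Prime := Fact.out
  unfold KW
  rw [Subgroup.mem_iInf]
  intro P
  rw [Subgroup.mem_iInf]
  intro hP
  rw [smem l hl K P a, ← G.nd P a]
  intro b
  obtain ⟨x, hx⟩ := swk l hl K S (fun Q => if Q = P then b else 1)
  have h1 : ∀ Q ∈ S, G.hs Q a x = G.hs Q a (if Q = P then b else 1) := by
    intro Q hQ
    have h2 := hx Q hQ
    rw [smem l hl K Q, ← G.nd Q] at h2
    have h3 := h2 a
    rw [bk11_anti, neg_eq_zero] at h3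
    have h4 := G.mulR Q a (x / (if Q = P then b else 1)) (if Q = P then b else 1)
    rw [div_mul_cancel, h3, zero_add] at h4
    exact h4
  have h5 := h x
  unfold bk11_b at h5
  rw [Finset.sum_congr rfl h1, Finset.sum_eq_single P] at h5
  · rw [if_pos rfl] at h5
    exact h5
  · intro Q _ hQ
    rw [if_neg hQ, bk11_one]
  · intro h6
    exact absurd hP h6

end

/-- BK11: dual bases -/
theorem sk11 : SK11 := by
  intro l _ k K _ _ _ _ _ z hz G hG S W hS hW u hu hgen hind
  classical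
  have : NeZero l := ⟨(Fact.out : l.Prime).ne_zero⟩
  -- the image of `W`
  set V : Submodule (ZMod l) (Fin (mS S) → ZMod l) :=
    { carrier := {v | ∃ x ∈ W, v = fun j => bk11_b G S (u j) x}
      zero_mem' := ⟨1, W.one_mem, by
        funext j
        exact (bk11_oneR G S (u j)).symm⟩
      add_mem' := by
        rintro v v' ⟨x, hx, rfl⟩ ⟨y, hy, rfl⟩
        refine ⟨x * y, W.mul_mem hx hy, ?_⟩
        funext j
        exact (bk11_mulR G S (u j) x y).symm
      smul_mem' := by
        rintro c v ⟨x, hx, rfl⟩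
        refine ⟨x ^ c.val, W.pow_mem hx _, ?_⟩
        funext j
        show c * bk11_b G S (u j) x = _
        rw [bk11_pow, ZMod.natCast_zmod_val] } with hV
  have hmem : ∀ v, v ∈ V ↔ ∃ x ∈ W, v = fun j => bk11_b G S (u j) x := fun v => Iff.rfl
  have hUS : ∀ c : Fin (mS S) → ZMod l, ∏ j, u j ^ (c j).val ∈ US S := fun c =>
    Subgroup.prod_mem _ fun j _ => Subgroup.pow_mem _ (hu j) _
  have hprd : ∀ a ∈ US S, ∀ b ∈ US S, bk11_b G S a b = 0 := fun a ha b hb =>
    G.prd S hS.mem a ha b hb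
  have hsup : ∀ a : Kˣ, (∀ x ∈ US S, bk11_b G S a x = 0) → (∀ x ∈ W, bk11_b G S a x = 0) →
      ∀ x, bk11_b G S a x = 0 := by
    intro a h1 h2 x
    obtain ⟨v, hv, hxv⟩ := hW.sup x
    have h3 := bk11_divR G S a x v
    rw [h2 _ hxv, h1 v hv, sub_zero] at h3
    exact h3.symm
  have hVtop : V = ⊤ := by
    by_contra hne
    obtain ⟨f, hf, hVf⟩ := Submodule.exists_le_ker_of_lt_top V (lt_top_iff_ne_top.2 hne)
    set c : Fin (mS S) → ZMod l := fun j => f (Pi.single j 1) with hc
    have hfc : ∀ v, f v = ∑ j, c j * v j := by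
      intro v
      conv_lhs => rw [← Finset.univ_sum_single v]
      rw [map_sum]
      refine Finset.sum_congr rfl fun j _ => ?_
      have h1 : Pi.single j (v j) = v j • (Pi.single j 1 : Fin (mS S) → ZMod l) := by
        rw [← Pi.single_smul, smul_eq_mul, mul_one]
      rw [h1, map_smul, smul_eq_mul, mul_comm]
    have h0 : ∀ x ∈ W, bk11_b G S (∏ j, u j ^ (c j).val) x = 0 := by
      intro x hx
      rw [bk11_prL, ← hfc fun j => bk11_b G S (u j) x]
      exact LinearMap.mem_ker.1 (hVf ((hmem _).2 ⟨x, hx, rfl⟩))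
    have h1 := hsup _ (fun x hx => hprd _ (hUS c) x hx) h0
    have h2 := hG.inj S hS _ (hUS c) (bk11_KW G S h1)
    have h3 : ∏ j, u j ^ (c j).val ∈ pw l (⊤ : Subgroup Kˣ) :=
      Subgroup.map_mono le_top h2
    have h4 := hind c h3
    apply hf
    refine LinearMap.ext fun v => ?_
    rw [hfc, h4]
    simp
  have hex : ∀ j : Fin (mS S), ∃ x ∈ W, ∀ i, bk11_b G S (u i) x = if i = j then -1 else 0 := by
    intro j
    have h1 : (fun i => if i = j then (-1 : ZMod l) else 0) ∈ V := hVtop ▸ Submodule.mem_top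
    obtain ⟨x, hx, hx2⟩ := (hmem _).1 h1
    exact ⟨x, hx, fun i => (congrFun hx2 i).symm⟩
  choose w hw1 hw2 using hex
  refine ⟨w, hw1, fun i j => hw2 j i, fun x hx => ?_⟩
  set y : Kˣ := x / ∏ j, w j ^ (-∑ P ∈ S, G.hs P (u j) x).val with hy
  have hyW : y ∈ W := W.div_mem hx (Subgroup.prod_mem _ fun j _ => Subgroup.pow_mem _ (hw1 j) _)
  have hyu : ∀ i, bk11_b G S (u i) y = 0 := by
    intro i
    rw [hy, bk11_divR, bk11_pr G S (u i) w (fun j => -∑ P ∈ S, G.hs P (u j) x),
      Finset.sum_eq_single i]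
    · rw [hw2 i i, if_pos rfl]
      show bk11_b G S (u i) x - (-bk11_b G S (u i) x) * -1 = 0
      ring
    · intro j _ hj
      rw [hw2 j i, if_neg (Ne.symm hj), mul_zero]
    · intro h
      exact absurd (Finset.mem_univ _) h
  have hyUS : ∀ a ∈ US S, bk11_b G S a y = 0 := by
    intro a ha
    obtain ⟨c, hc⟩ := hgen a ha
    have h1 := bk11_mulL G S (a / ∏ j, u j ^ (c j).val) (∏ j, u j ^ (c j).val) y
    rw [div_mul_cancel, bk11_pw G S hc, bk11_prL, zero_add] at h1
    rw [h1]
    exact Finset.sum_eq_zero fun j _ => by rw [hyu, mul_zero]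
  have h1 : ∀ x, bk11_b G S y x = 0 := by
    refine hsup y (fun a ha => ?_) fun a ha => hW.iso y hyW a ha
    rw [bk11_anti', hyUS a ha, neg_zero]
  exact bk11_KW G S h1

end Pool.Agent.H92.EL
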