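import Pool.Agent.H92.EL.BKStm
import Pool.Agent.H92.EL.Mem
import Pool.Agent.H92.EL.Wk
import Pool.Agent.H98.MF.C.Bas

/-!
# Project ELL (MP_a3214d), block B: the algebraic part of the frame
-/

set_option autoImplicit false

open scoped BigOperators
open NumberField IsDedekindDomain

namespace Pool.Agent.H92.EL

open Pool.Agent.H98.MF (Om Gm ord Dec US PrS mS nrm gen cj Pre preK)

section

variable {l : ℕ} [Fact l.Prime] {k K : Type} [Field k] [NumberField k] [Field K] [NumberField K]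
  [Algebra k K] {z : K}

private theorem bk12_one (G : GSy l K z) (P : HeightOneSpectrum (𝓞 K)) (a : Kˣ) :
    G.hs P a 1 = 0 := by
  have h := G.mulR P a 1 1
  rw [one_mul] at h
  exact left_eq_add.1 h

private theorem bk12_pow (G : GSy l K z) (P : HeightOneSpectrum (𝓞 K)) (a b : Kˣ) (n : ℕ) :
    G.hs P a (b ^ n) = (n : ZMod l) * G.hs P a b := by
  induction n with
  | zero => rw [pow_zero, bk12_one, Nat.cast_zero, zero_mul]
  | succ n ih =>
    rw [pow_succ, G.mulR, ih]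
    push_cast
    ring

private theorem bk12_prod (G : GSy l K z) (P : HeightOneSpectrum (𝓞 K)) (a : Kˣ) {ι : Type}
    (s : Finset ι) (f : ι → Kˣ) : G.hs P a (∏ j ∈ s, f j) = ∑ j ∈ s, G.hs P a (f j) := by
  classical
  induction s using Finset.induction_on with
  | empty => rw [Finset.prod_empty, Finset.sum_empty, bk12_one]
  | insert j s hj ih => rw [Finset.prod_insert hj, Finset.sum_insert hj, G.mulR, ih]

private theorem bk12_pr (G : GSy l K z) (P : HeightOneSpectrum (𝓞 K)) (a : Kˣ) {m : ℕ}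
    (f : Fin m → Kˣ) (c : Fin m → ZMod l) :
    G.hs P a (∏ j, f j ^ (c j).val) = ∑ j, c j * G.hs P a (f j) := by
  have : NeZero l := ⟨(Fact.out : l.Prime).ne_zero⟩
  rw [bk12_prod]
  refine Finset.sum_congr rfl fun j _ => ?_
  rw [bk12_pow, ZMod.natCast_zmod_val]

private theorem bk12_anti (G : GSy l K z) (P : HeightOneSpectrum (𝓞 K)) (a b : Kˣ) :
    G.hs P a b = - G.hs P b a := by
  have h := G.alt P (a * b)
  rw [G.mulL, G.mulR, G.mulR, G.alt, G.alt, zero_add, add_zero] at h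
  exact eq_neg_of_add_eq_zero_left h

private theorem bk12_ws (G : GSy l K z) {P : HeightOneSpectrum (𝓞 K)} (a : Kˣ) {b : Kˣ}
    (hb : b ∈ WS l P) : G.hs P a b = 0 := by
  rw [bk12_anti, (G.nd P b).2 ((smem l Fact.out K P b).1 hb), neg_zero]

omit [Fact l.Prime] in
private theorem bk12_KW {S : Finset (HeightOneSpectrum (𝓞 K))} {a : Kˣ} :
    a ∈ KW l S ↔ ∀ P ∈ S, a ∈ WS l P := by
  unfold KW
  simp only [Subgroup.mem_iInf]

omit [Fact l.Prime] in
private theorem bk12_pwK (S : Finset (HeightOneSpectrum (𝓞 K))) {a : Kˣ}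
    (ha : a ∈ pw l (⊤ : Subgroup Kˣ)) : a ∈ KW l S := by
  rw [bk12_KW]
  intro P _
  obtain ⟨c, -, rfl⟩ := ha
  refine Subgroup.subset_closure ?_
  intro n
  refine ⟨((c⁻¹ : Kˣ) : K), Or.inl ?_⟩
  show ((c ^ l : Kˣ) : K) * ((c⁻¹ : Kˣ) : K) ^ l = 1
  rw [← Units.val_pow_eq_pow_val, ← Units.val_mul, inv_pow, mul_inv_cancel, Units.val_one]

omit [Fact l.Prime] [NumberField K] in
private theorem bk12_pwT {H : Subgroup Kˣ} {a : Kˣ} (ha : a ∈ pw l H) :
    a ∈ pw l (⊤ : Subgroup Kˣ) := Subgroup.map_mono le_top ha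

private theorem bk12_e {M : Type} [CommGroup M] (v A a B c : M) :
    v / A * (a / v / B) / (a / c) = c / (A * B) := by
  have e1 : v * A⁻¹ * (a * v⁻¹ * B⁻¹) * (a⁻¹ * c) =
      (v * v⁻¹) * (a * a⁻¹) * (c * (A⁻¹ * B⁻¹)) := by
    simp only [mul_comm, mul_left_comm, mul_assoc]
  rw [div_eq_mul_inv, inv_div, div_eq_mul_inv v, div_eq_mul_inv (a / v), div_eq_mul_inv a v,
    div_eq_inv_mul c a, e1, mul_inv_cancel, mul_inv_cancel, one_mul, one_mul, ← mul_inv,
    ← div_eq_mul_inv]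

private theorem bk12_stb {T : Finset (HeightOneSpectrum (𝓞 k))}
    {S : Finset (HeightOneSpectrum (𝓞 K))} (hO : OvS T S) (σ : K ≃ₐ[k] K)
    {Q : HeightOneSpectrum (𝓞 K)} (hQ : Q ∈ S) : dP σ Q ∈ S := by
  obtain ⟨P, hP, hPQ⟩ := (hO Q).1 hQ
  exact (hO _).2 ⟨P, hP, Pool.Agent.H98.MF.Over.cj hPQ σ.symm⟩

end

theorem sk12 (h1 : SK1) (h3 : SK3) (h10 : SK10) (h11 : SK11) : SK12 := by
  classical
  intro l _ k K _ _ _ _ _ z hz G hG T S W hO hA hW
  have hD := h1 l Fact.out k K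
  obtain ⟨u, hu, hug, hui⟩ := h10 l K z hz S
  obtain ⟨w, hw, huw, hwK⟩ := h11 l k K z hz G hG S W hA hW u hu hug hui
  have hex : ∀ p : (preK S).P, ∃ a : Kˣ, ord p.1 (a : K) = 1 ∧
      (∀ Q, Q ∉ S → Q ≠ p.1 → ord Q (a : K) = 0) ∧ a ∈ W := by
    intro p
    obtain ⟨a, ha, h4, h5⟩ := hA.prS p.1 p.2
    obtain ⟨v, hv, hvW⟩ := hW.sup (Units.mk0 a ha)
    have hv' := Pool.Agent.H98.MF.B.mem_US.1 hv
    refine ⟨Units.mk0 a ha / v, ?_, fun Q hQ hQp => ?_, hvW⟩
    · rw [Units.val_div_eq_div_val, Units.val_mk0, Pool.Agent.H98.MF.ord_div _ ha v.ne_zero,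
        hv' _ p.2, h4, sub_zero]
    · rw [Units.val_div_eq_div_val, Units.val_mk0, Pool.Agent.H98.MF.ord_div _ ha v.ne_zero,
        hv' _ hQ, h5 Q hQ hQp, sub_zero]
  choose π hπ1 hπ2 hπW using hex
  refine ⟨⟨u, w, π, hu, hug, hui, huw, fun i j => hW.iso _ (hw i) _ (hw j), hπ1, hπ2, ?_, ?_, ?_,
    ?_, ?_⟩⟩
  · -- the local part
    intro p
    have h4 := hwK (π p) (hπW p)
    have h5 : ∀ j, -∑ P ∈ S, G.hs P (u j) (π p) = G.cc p.1 * lgs l z p.1 (u j : K) := by
      intro j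
      have h6 := G.prd (insert p.1 S) (fun P hP => Finset.mem_insert_of_mem (hA.mem P hP)) (u j)
        (Pool.Agent.H98.MF.B.mem_US.2 fun Q hQ =>
          Pool.Agent.H98.MF.B.mem_US.1 (hu j) Q fun h => hQ (Finset.mem_insert_of_mem h))
        (π p) (Pool.Agent.H98.MF.B.mem_US.2 fun Q hQ =>
          hπ2 p Q (fun h => hQ (Finset.mem_insert_of_mem h))
            fun h => hQ (h ▸ Finset.mem_insert_self _ _))
      rw [Finset.sum_insert p.2] at h6
      have h7 : ord p.1 (l : K) = 0 := by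
        have h8 := wk_ord_nat p.1 l
        by_contra h9
        exact p.2 (hA.mem p.1 (lt_of_le_of_ne h8 (Ne.symm h9)))
      rw [G.unit p.1 (u j) (π p) h7 (Pool.Agent.H98.MF.B.mem_US.1 (hu j) _ p.2), hπ1 p,
        Int.cast_one, one_mul] at h6
      exact (eq_neg_of_add_eq_zero_left h6).symm
    rw [Finset.prod_congr rfl fun j _ => by rw [h5 j]] at h4
    exact h4
  · -- the action on the generators
    intro δ p q hq
    refine bk12_pwT (hW.inf _ (Pool.Agent.H98.MF.B.mem_US.2 fun Q hQ => ?_)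
      (W.div_mem (hW.stb δ _ (hπW p)) (hπW q)))
    rw [Units.val_div_eq_div_val, Pool.Agent.H98.MF.ord_div _ (Units.ne_zero _) (Units.ne_zero _),
      sub_eq_zero, uD_val]
    have h4 : dP δ (dP δ⁻¹ Q) = Q := by
      rw [← hD.mul, mul_inv_cancel, hD.one]
    have h5 : dP δ⁻¹ Q ∉ S := fun h => hQ (by
      have h6 := bk12_stb hO δ h
      rwa [h4] at h6)
    have h6 : ord Q (δ (π p : K)) = ord (dP δ⁻¹ Q) (π p : K) := by
      have h7 := hD.ord_eq δ (dP δ⁻¹ Q) (π p : K)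
      rwa [h4] at h7
    rw [h6]
    by_cases hQq : Q = q.1
    · have h7 : dP δ⁻¹ Q = p.1 := by
        rw [hQq, hq, ← hD.mul, inv_mul_cancel, hD.one]
      rw [h7, hπ1, hQq, hπ1]
    · have h7 : dP δ⁻¹ Q ≠ p.1 := fun h => hQq (by rw [← h4, h, hq])
      rw [hπ2 p _ h5 h7, hπ2 q Q hQ hQq]
  · -- the action on the complement
    intro δ j
    exact ⟨_, hwK _ (hW.stb δ _ (hw j))⟩
  · -- generation
    intro c
    obtain ⟨a, ha⟩ := swk l Fact.out K S c
    obtain ⟨v, hv, hvW⟩ := hW.sup a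
    obtain ⟨x, hx⟩ := hug v hv
    refine ⟨x, fun j => -∑ P ∈ S, G.hs P (u j) (a / v), fun P hP => ?_⟩
    have h4 := bk12_KW.1 (bk12_pwK S (bk12_pwT hx)) P hP
    have h5 := bk12_KW.1 (hwK _ hvW) P hP
    have h6 := (WS l P).div_mem ((WS l P).mul_mem h4 h5) (ha P hP)
    rw [bk12_e] at h6
    exact h6
  · -- independence
    intro x y hxy
    have h4 := bk12_KW.1 hxy
    have hy : y = 0 := by
      funext i
      have h5 : ∑ P ∈ S, G.hs P (u i) ((∏ j, u j ^ (x j).val) * ∏ j, w j ^ (y j).val) = 0 :=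
        Finset.sum_eq_zero fun P hP => bk12_ws G (u i) (h4 P hP)
      have h6 : ∀ P, G.hs P (u i) ((∏ j, u j ^ (x j).val) * ∏ j, w j ^ (y j).val) =
          (∑ j, x j * G.hs P (u i) (u j)) + ∑ j, y j * G.hs P (u i) (w j) := by
        intro P
        rw [G.mulR, bk12_pr, bk12_pr]
      rw [Finset.sum_congr rfl fun P _ => h6 P, Finset.sum_add_distrib,
        Finset.sum_comm, Finset.sum_comm (s := S)] at h5
      simp only [← Finset.mul_sum] at h5
      have h7 : ∀ j, ∑ P ∈ S, G.hs P (u i) (u j) = 0 := fun j =>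
        G.prd S hA.mem (u i) (hu i) (u j) (hu j)
      simp only [h7, huw, mul_zero, Finset.sum_const_zero, zero_add, mul_ite, mul_neg,
        mul_one, Finset.sum_ite_eq, Finset.mem_univ, if_true] at h5
      exact neg_eq_zero.1 h5
    refine ⟨hui x ?_, hy⟩
    have h8 : ∏ j, w j ^ (y j).val = 1 := by
      rw [hy]
      simp
    rw [h8, mul_one] at hxy
    exact bk12_pwT (hG.inj S hA _ ((US S).prod_mem fun j _ => (US S).pow_mem (hu j) _) hxy)

end Pool.Agent.H92.EL
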