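import Pool.Agent.H92.EL.BKStm

/-!
# Project ELL (MP_a3214d), block B, row BK13: the symbols are symmetric
-/

set_option autoImplicit false

open scoped BigOperators
open NumberField IsDedekindDomain

namespace Pool.Agent.H92.EL

open Pool.Agent.H98.MF (Om Gm ord Dec US PrS SUn mS nrm gen cj Pre preK)

section

variable {l : ℕ} [Fact l.Prime] {K : Type} [Field K] [NumberField K] {z : K} (G : GSy l K z)

theorem bk13_oneL (P : HeightOneSpectrum (𝓞 K)) (b : Kˣ) : G.hs P 1 b = 0 := by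
  have h := G.mulL P 1 1 b
  rw [mul_one] at h
  exact add_eq_left.mp h.symm

theorem bk13_oneR (P : HeightOneSpectrum (𝓞 K)) (a : Kˣ) : G.hs P a 1 = 0 := by
  have h := G.mulR P a 1 1
  rw [mul_one] at h
  exact add_eq_left.mp h.symm

theorem bk13_invL (P : HeightOneSpectrum (𝓞 K)) (a b : Kˣ) : G.hs P a⁻¹ b = -G.hs P a b := by
  have h := G.mulL P a a⁻¹ b
  rw [mul_inv_cancel, bk13_oneL] at h
  exact (neg_eq_of_add_eq_zero_right h.symm).symm

/-- antisymmetry -/
theorem bk13_anti (P : HeightOneSpectrum (𝓞 K)) (a b : Kˣ) : G.hs P a b = -G.hs P b a := by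
  have h := G.alt P (a * b)
  rw [G.mulL, G.mulR, G.mulR, G.alt, G.alt, zero_add, add_zero] at h
  exact eq_neg_of_add_eq_zero_left h

/-- local powers pair to zero -/
theorem bk13_ws (P : HeightOneSpectrum (𝓞 K)) {a : Kˣ} (ha : a ∈ WS l P) (b : Kˣ) :
    G.hs P a b = 0 := by
  unfold WS at ha
  induction ha using Subgroup.closure_induction with
  | mem x hx => exact (G.nd P x).2 hx b
  | one => exact bk13_oneL G P b
  | mul x y _ _ hx hy => rw [G.mulL, hx, hy, add_zero]
  | inv x _ hx => rw [bk13_invL, hx, neg_zero]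

theorem bk13_kw {S : Finset (HeightOneSpectrum (𝓞 K))} {P : HeightOneSpectrum (𝓞 K)}
    (hP : P ∈ S) {a : Kˣ} (ha : a ∈ KW l S) (b : Kˣ) : G.hs P a b = 0 := by
  refine bk13_ws G P ?_ b
  unfold KW at ha
  rw [Subgroup.mem_iInf] at ha
  have h := ha P
  rw [Subgroup.mem_iInf] at h
  exact h hP

theorem bk13_powL (P : HeightOneSpectrum (𝓞 K)) (a b : Kˣ) (n : ℕ) :
    G.hs P (a ^ n) b = n * G.hs P a b := by
  induction n with
  | zero => rw [pow_zero, bk13_oneL, Nat.cast_zero, zero_mul]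
  | succ n ih => rw [pow_succ, G.mulL, ih]; push_cast; ring

theorem bk13_prodL {ι : Type} (s : Finset ι) (P : HeightOneSpectrum (𝓞 K)) (f : ι → Kˣ)
    (b : Kˣ) : G.hs P (∏ i ∈ s, f i) b = ∑ i ∈ s, G.hs P (f i) b := by
  classical
  induction s using Finset.induction_on with
  | empty => rw [Finset.prod_empty, bk13_oneL, Finset.sum_empty]
  | insert a s ha ih => rw [Finset.prod_insert ha, Finset.sum_insert ha, G.mulL, ih]

/-- products of the `w` pair to zero at `S` -/
theorem bk13_iso {m : ℕ} (S : Finset (HeightOneSpectrum (𝓞 K))) (w : Fin m → Kˣ)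
    (ww : ∀ i j, ∑ P ∈ S, G.hs P (w i) (w j) = 0) (a b : Fin m → ZMod l) :
    ∑ P ∈ S, G.hs P (∏ j, w j ^ (a j).val) (∏ j, w j ^ (b j).val) = 0 := by
  have h1 : ∀ P, G.hs P (∏ j, w j ^ (a j).val) (∏ j, w j ^ (b j).val) =
      ∑ i, ∑ j, ((a i).val : ZMod l) * ((b j).val : ZMod l) * G.hs P (w i) (w j) := by
    intro P
    rw [bk13_prodL]
    refine Finset.sum_congr rfl fun i _ => ?_
    rw [bk13_powL, bk13_anti, bk13_prodL, ← Finset.sum_neg_distrib, Finset.mul_sum]
    refine Finset.sum_congr rfl fun j _ => ?_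
    rw [bk13_powL, bk13_anti G P (w j) (w i)]
    ring
  rw [Finset.sum_congr rfl fun P _ => h1 P, Finset.sum_comm]
  refine Finset.sum_eq_zero fun i _ => ?_
  rw [Finset.sum_comm]
  refine Finset.sum_eq_zero fun j _ => ?_
  rw [← Finset.mul_sum, ww, mul_zero]

end

/-- Row BK13: the symbols are symmetric -/
theorem sk13 : SK13 := by
  classical
  intro l _ k K _ _ _ _ _ z _ G S hS F p q
  by_cases hpq : p = q
  · rw [hpq]
  have hne : p.1 ≠ q.1 := fun h => hpq (Subtype.ext h)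
  have hl : ∀ P : HeightOneSpectrum (𝓞 K), P ∉ S → ord P (l : K) = 0 := by
    intro P hP
    have h1 : 0 ≤ ord P (l : K) := by
      have h := Pool.Agent.H98.MF.ord_int_nonneg P (l : 𝓞 K)
      have h2 : (((l : 𝓞 K) : 𝓞 K) : K) = (l : K) := by push_cast; rfl
      rwa [h2] at h
    have h2 : ¬ 0 < ord P (l : K) := fun h => hP (hS.mem P h)
    omega
  -- the symbols at the two primes
  have e1 : ∀ p q : (preK S).P, p ≠ q → G.hs q.1 (F.pi p) (F.pi q) = F.s p q := by
    intro p q hpq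
    have hne : p.1 ≠ q.1 := fun h => hpq (Subtype.ext h)
    rw [G.unit q.1 _ _ (hl _ q.2) (F.pi_other p q.1 q.2 hne.symm), F.pi_self q]
    unfold CFl.s
    rw [if_neg hpq, Int.cast_one, one_mul]
  have e2 : ∑ P ∈ S, G.hs P (F.pi p) (F.pi q) = 0 := by
    have h1 : ∀ P ∈ S, G.hs P (F.pi p) (F.pi q) =
        G.hs P (∏ j, F.w j ^ (G.cc p.1 * lgs l z p.1 (F.u j : K)).val)
          (∏ j, F.w j ^ (G.cc q.1 * lgs l z q.1 (F.u j : K)).val) := by
      intro P hP
      have h2 := bk13_kw G hP (F.loc p) (F.pi q)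
      have h3 := bk13_kw G hP (F.loc q)
        (∏ j, F.w j ^ (G.cc p.1 * lgs l z p.1 (F.u j : K)).val)
      rw [div_eq_mul_inv, G.mulL, bk13_invL, add_neg_eq_zero] at h2 h3
      rw [h2, bk13_anti, h3, ← bk13_anti]
    rw [Finset.sum_congr rfl h1]
    exact bk13_iso G S F.w F.ww _ _
  have hmem : ∀ x : (preK S).P, (x = p ∨ x = q) → F.pi x ∈ US (insert p.1 (insert q.1 S)) := by
    intro x hx
    refine Subgroup.subset_closure ?_
    refine ⟨(F.pi x).ne_zero, fun Q hQ => ?_⟩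
    rw [Finset.mem_insert, Finset.mem_insert, not_or, not_or] at hQ
    refine F.pi_other x Q hQ.2.2 ?_
    rcases hx with rfl | rfl
    · exact hQ.1
    · exact hQ.2.1
  have e3 := G.prd (insert p.1 (insert q.1 S))
    (fun P hP => Finset.mem_insert_of_mem (Finset.mem_insert_of_mem (hS.mem P hP)))
    (F.pi p) (hmem p (Or.inl rfl)) (F.pi q) (hmem q (Or.inr rfl))
  rw [Finset.sum_insert (by
      rw [Finset.mem_insert, not_or]
      exact ⟨hne, p.2⟩), Finset.sum_insert q.2, e2, add_zero, e1 p q hpq,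
    bk13_anti, e1 q p (Ne.symm hpq)] at e3
  exact (eq_of_neg_add_eq_zero e3).symm

end Pool.Agent.H92.EL
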