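import Pool.Agent.H92.EL.BKStm

/-!
# Project ELL (MP_a3214d), block B: BK14, the action on the symbols
-/

set_option autoImplicit false

open scoped BigOperators
open NumberField IsDedekindDomain

namespace Pool.Agent.H92.EL

open Pool.Agent.H98.MF (Om Gm ord Dec US PrS mS nrm gen cj Pre preK)

section

variable {l : ℕ} [Fact l.Prime] {k K : Type} [Field k] [NumberField k] [Field K] [NumberField K]
  [Algebra k K] {z : K}

/-- the symbols are given by the local symbols -/
private theorem bk14_symb {G : GSy l K z} {S : Finset (HeightOneSpectrum (𝓞 K))}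
    (hS : AdmL l S) (F : CFl k G S) (p q : (preK S).P) (hpq : p ≠ q) :
    F.s p q = G.hs q.1 (F.pi p) (F.pi q) := by
  have hne : q.1 ≠ p.1 := fun h => hpq (Subtype.ext h.symm)
  have hl : ord q.1 ((l : ℕ) : K) = 0 := by
    have h0 : 0 ≤ ord q.1 ((l : ℕ) : K) := by
      have h1 := Pool.Agent.H98.MF.ord_int_nonneg q.1 ((l : ℕ) : 𝓞 K)
      simpa using h1
    by_contra h
    exact q.2 (hS.mem q.1 (lt_of_le_of_ne h0 (Ne.symm h)))
  have hu := G.unit q.1 (F.pi p) (F.pi q) hl (F.pi_other p q.1 q.2 hne)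
  rw [hu, F.pi_self q]
  unfold CFl.s
  rw [if_neg hpq]
  push_cast
  ring

/-- symbols with a power vanish, left -/
private theorem bk14_powL (G : GSy l K z) (P : HeightOneSpectrum (𝓞 K)) (c b : Kˣ) (n : ℕ) :
    G.hs P (c ^ n) b = (n : ZMod l) * G.hs P c b := by
  induction n with
  | zero =>
    have h := G.mulL P 1 1 b
    rw [mul_one] at h
    have h2 : G.hs P 1 b = 0 := by linear_combination -h
    simpa using h2
  | succ n ih =>
    rw [pow_succ, G.mulL, ih]
    push_cast
    ring

/-- symbols with a power vanish, right -/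
private theorem bk14_powR (G : GSy l K z) (P : HeightOneSpectrum (𝓞 K)) (a c : Kˣ) (n : ℕ) :
    G.hs P a (c ^ n) = (n : ZMod l) * G.hs P a c := by
  induction n with
  | zero =>
    have h := G.mulR P a 1 1
    rw [mul_one] at h
    have h2 : G.hs P a 1 = 0 := by linear_combination -h
    simpa using h2
  | succ n ih =>
    rw [pow_succ, G.mulR, ih]
    push_cast
    ring

private theorem bk14_pw (G : GSy l K z) (P : HeightOneSpectrum (𝓞 K)) (a a' b b' : Kˣ)
    (ha : a / a' ∈ pw l (⊤ : Subgroup Kˣ)) (hb : b / b' ∈ pw l (⊤ : Subgroup Kˣ)) :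
    G.hs P a b = G.hs P a' b' := by
  obtain ⟨c, -, hc⟩ := ha
  obtain ⟨d, -, hd⟩ := hb
  have hc' : a = a' * c ^ l := by
    rw [powMonoidHom_apply] at hc
    rw [hc, mul_div_cancel]
  have hd' : b = b' * d ^ l := by
    rw [powMonoidHom_apply] at hd
    rw [hd, mul_div_cancel]
  rw [hc', hd', G.mulL, G.mulR, bk14_powL, bk14_powR, CharP.cast_eq_zero (ZMod l) l]
  ring

end

theorem sk14 (h1 : SK1) : SK14 := by
  intro l hl k K _ _ _ _ _ z hz G he S hS F δ p q p' q' hp hq
  have D := h1 l hl.out k K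
  by_cases hpq : p = q
  · subst hpq
    have h2 : p' = q' := Subtype.ext (hp.trans hq.symm)
    subst h2
    unfold CFl.s
    rw [if_pos rfl, if_pos rfl, mul_zero]
  · have hpq' : p' ≠ q' := by
      intro h
      apply hpq
      apply Subtype.ext
      have h2 : dP δ p.1 = dP δ q.1 := by rw [← hp, ← hq, h]
      have h3 := congrArg (dP δ⁻¹) h2
      rw [← D.mul, ← D.mul, inv_mul_cancel, D.one, D.one] at h3
      exact h3
    rw [bk14_symb hS F p q hpq, bk14_symb hS F p' q' hpq', ← he.eqv δ q.1, ← hq]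
    exact (bk14_pw G q'.1 _ _ _ _ (F.pi_ac δ p p' hp) (F.pi_ac δ q q' hq)).symm

end Pool.Agent.H92.EL
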