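import Pool.Agent.H92.EL.AStm
import Pool.Agent.H98.MF.L.Ord
import Pool.Agent.H98.MF.L.QuadY

/-!
# Project ELL (MP_a3214d), block A, row A8: power residue symbols
-/

set_option autoImplicit false

open scoped BigOperators Pointwise
open NumberField IsDedekindDomain

namespace Pool.Agent.H92.EL

open Pool.Agent.H98.MF (Om Gm ord Dec US PrS SUn mS nrm gen FixD ord_mul ord_pow ord_one
  ord_neg ord_add_eq le_ord_add le_ord_iff ord_unit ord_nonneg_iff ord_int_nonneg ord_div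
  rc_mul rc_sub rc_add rc_zero)

/-! ### finite fields -/

section

variable {F : Type} [Field F] [Fintype F] {l : ℕ}

theorem lg_dvd (hl : l.Prime) {ζ : F} (h : IsPrimitiveRoot ζ l) : l ∣ Fintype.card F - 1 := by
  have h0 : ζ ≠ 0 := by
    rintro rfl
    have h1 := h.pow_eq_one
    rw [zero_pow hl.ne_zero] at h1
    exact zero_ne_one h1
  exact h.dvd_of_pow_eq_one _ (FiniteField.pow_card_sub_one_eq_one ζ h0)

theorem lg_f1 (hl : l.Prime) {ζ : F} (h : IsPrimitiveRoot ζ l) {t : F} (ht : t ≠ 0) :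
    ∃ i : ZMod l, t ^ ((Fintype.card F - 1) / l) = ζ ^ i.val := by
  have : NeZero l := ⟨hl.ne_zero⟩
  have h1 : (t ^ ((Fintype.card F - 1) / l)) ^ l = 1 := by
    rw [← pow_mul, Nat.div_mul_cancel (lg_dvd hl h)]
    exact FiniteField.pow_card_sub_one_eq_one t ht
  obtain ⟨i, hi, hi2⟩ := h.eq_pow_of_pow_eq_one h1
  refine ⟨(i : ZMod l), ?_⟩
  rw [ZMod.val_natCast_of_lt hi, hi2]

theorem lg_f2 (hl : l.Prime) {ζ : F} (h : IsPrimitiveRoot ζ l) {i j : ZMod l}
    (hij : ζ ^ i.val = ζ ^ j.val) : i = j := by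
  have : NeZero l := ⟨hl.ne_zero⟩
  exact ZMod.val_injective l (h.pow_inj (ZMod.val_lt i) (ZMod.val_lt j) hij)

theorem lg_gen (F : Type) [Field F] [Fintype F] : ∃ g : Fˣ, (∀ x : Fˣ, ∃ k : ℕ, g ^ k = x) ∧
    orderOf g = Fintype.card F - 1 := by
  classical
  obtain ⟨g, hg⟩ := IsCyclic.exists_generator (α := Fˣ)
  refine ⟨g, fun x => ?_, ?_⟩
  · obtain ⟨k, hk⟩ := (mem_powers_iff_mem_zpowers.2 (hg x))
    exact ⟨k, hk⟩
  · rw [orderOf_eq_card_of_forall_mem_zpowers hg, Nat.card_eq_fintype_card,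
      Fintype.card_units]

theorem lg_f3 (hl : l.Prime) {ζ : F} (h : IsPrimitiveRoot ζ l) {t : F} (ht : t ≠ 0) :
    t ^ ((Fintype.card F - 1) / l) = 1 ↔ ∃ s : F, s ≠ 0 ∧ t = s ^ l := by
  have hd := lg_dvd hl h
  have hq : 0 < Fintype.card F - 1 := by
    have := Fintype.one_lt_card (α := F)
    omega
  constructor
  · intro h1
    obtain ⟨g, hg, ho⟩ := lg_gen F
    obtain ⟨k, hk⟩ := hg (Units.mk0 t ht)
    have h2 : g ^ (k * ((Fintype.card F - 1) / l)) = 1 := by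
      rw [pow_mul, hk]
      apply Units.ext
      rw [Units.val_pow_eq_pow_val, Units.val_mk0, h1, Units.val_one]
    have h3 := orderOf_dvd_of_pow_eq_one h2
    rw [ho] at h3
    have h4 : 0 < (Fintype.card F - 1) / l := Nat.div_pos (Nat.le_of_dvd hq hd) hl.pos
    have h5 : l ∣ k := by
      have h6 : l * ((Fintype.card F - 1) / l) ∣ k * ((Fintype.card F - 1) / l) := by
        rw [Nat.mul_div_cancel' hd]
        exact h3
      exact Nat.dvd_of_mul_dvd_mul_right h4 h6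
    obtain ⟨m, rfl⟩ := h5
    refine ⟨((g ^ m : Fˣ) : F), Units.ne_zero _, ?_⟩
    rw [← Units.val_pow_eq_pow_val, ← pow_mul, mul_comm m l, hk, Units.val_mk0]
  · rintro ⟨s, hs, rfl⟩
    rw [← pow_mul, Nat.mul_div_cancel' hd]
    exact FiniteField.pow_card_sub_one_eq_one s hs

theorem lg_f4 (hl : l.Prime) {ζ : F} (h : IsPrimitiveRoot ζ l) :
    ∃ t : F, t ≠ 0 ∧ t ^ ((Fintype.card F - 1) / l) = ζ := by
  have : NeZero l := ⟨hl.ne_zero⟩
  have hd := lg_dvd hl h
  have hq : 0 < Fintype.card F - 1 := by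
    have := Fintype.one_lt_card (α := F)
    omega
  obtain ⟨g, hg, ho⟩ := lg_gen F
  have h1 : IsPrimitiveRoot (g : F) (Fintype.card F - 1) := by
    rw [← ho]
    exact IsPrimitiveRoot.coe_units_iff.2 (IsPrimitiveRoot.orderOf g)
  have h2 : IsPrimitiveRoot ((g : F) ^ ((Fintype.card F - 1) / l)) l :=
    h1.pow hq (Nat.div_mul_cancel hd).symm
  obtain ⟨i, -, hi⟩ := h2.eq_pow_of_pow_eq_one h.pow_eq_one
  refine ⟨(g : F) ^ i, pow_ne_zero _ (Units.ne_zero _), ?_⟩
  rw [← hi, ← pow_mul, ← pow_mul, mul_comm]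

end

/-! ### residues -/

section

variable {K : Type} [Field K] [NumberField K] {F : Type} [Field F]
  (φ : 𝓞 K →+* F)

/-- `t` is the residue of `a` -/
def Rd (a : K) (t : F) : Prop :=
  ∃ x y : 𝓞 K, φ y ≠ 0 ∧ a * (y : K) = (x : K) ∧ φ x = t * φ y

variable {φ}

theorem Rd.mul {a b : K} {t s : F} (h : Rd φ a t) (h' : Rd φ b s) : Rd φ (a * b) (t * s) := by
  obtain ⟨x, y, h1, h2, h3⟩ := h
  obtain ⟨x', y', h1', h2', h3'⟩ := h'
  refine ⟨x * x', y * y', ?_, ?_, ?_⟩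
  · rw [map_mul]
    exact mul_ne_zero h1 h1'
  · rw [rc_mul, rc_mul, ← h2, ← h2']
    ring
  · rw [map_mul, map_mul, h3, h3']
    ring

theorem Rd.sub {a b : K} {t s : F} (h : Rd φ a t) (h' : Rd φ b s) : Rd φ (a - b) (t - s) := by
  obtain ⟨x, y, h1, h2, h3⟩ := h
  obtain ⟨x', y', h1', h2', h3'⟩ := h'
  refine ⟨x * y' - x' * y, y * y', ?_, ?_, ?_⟩
  · rw [map_mul]
    exact mul_ne_zero h1 h1'
  · rw [rc_mul, rc_sub, rc_mul, rc_mul, ← h2, ← h2']
    ring
  · rw [map_sub, map_mul, map_mul, map_mul, h3, h3']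
    ring

theorem lg_rc_one : ((1 : 𝓞 K) : K) = 1 := rfl

theorem rd_int (x : 𝓞 K) : Rd φ (x : K) (φ x) :=
  ⟨x, 1, by rw [map_one]; exact one_ne_zero, by rw [lg_rc_one, mul_one], by
    rw [map_one, mul_one]⟩

theorem rd_one : Rd φ (1 : K) 1 := by
  have h := rd_int (φ := φ) (1 : 𝓞 K)
  rwa [lg_rc_one, map_one] at h

theorem Rd.pow {a : K} {t : F} (h : Rd φ a t) (n : ℕ) : Rd φ (a ^ n) (t ^ n) := by
  induction n with
  | zero =>
    rw [pow_zero, pow_zero]
    exact rd_one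
  | succ n ih =>
    rw [pow_succ, pow_succ]
    exact ih.mul h

theorem Rd.zero {a : K} {t : F} {P : HeightOneSpectrum (𝓞 K)}
    (hk : ∀ x : 𝓞 K, φ x = 0 ↔ x ∈ P.asIdeal) (h : Rd φ a t) :
    t = 0 ↔ (a = 0 ∨ 1 ≤ ord P a) := by
  obtain ⟨x, y, h1, h2, h3⟩ := h
  have hy : y ∉ P.asIdeal := fun h => h1 ((hk y).2 h)
  have hy0 : (y : K) ≠ 0 := by
    intro h
    apply h1
    have h4 : y = 0 := by exact_mod_cast h
    rw [h4, map_zero]
  have h4 : t = 0 ↔ x ∈ P.asIdeal := by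
    rw [← hk x, h3]
    constructor
    · intro h
      rw [h, zero_mul]
    · intro h
      exact (mul_eq_zero.1 h).resolve_right h1
  have h5 := le_ord_iff P x 1
  rw [pow_one] at h5
  rw [h4, ← h5]
  have h6 : x = 0 ↔ a = 0 := by
    constructor
    · intro h
      rw [h, rc_zero] at h2
      exact (mul_eq_zero.1 h2).resolve_right hy0
    · intro h
      rw [h, zero_mul] at h2
      exact_mod_cast h2.symm
  by_cases ha : a = 0
  · exact ⟨fun _ => Or.inl ha, fun _ => Or.inl (h6.2 ha)⟩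
  · have h7 : ord P (x : K) = ord P a := by
      rw [← h2, ord_mul P ha hy0, ord_unit P hy, add_zero]
    rw [h6, h7]
    norm_num

theorem rd_ex {P : HeightOneSpectrum (𝓞 K)} (hk : ∀ x : 𝓞 K, φ x = 0 ↔ x ∈ P.asIdeal) {a : K}
    (ha : 0 ≤ ord P a) : ∃ t : F, Rd φ a t := by
  obtain ⟨x, y, hy, hxy⟩ := (ord_nonneg_iff P a).1 ha
  have h1 : φ y ≠ 0 := fun h => hy ((hk y).1 h)
  exact ⟨φ x / φ y, x, y, h1, hxy, by rw [div_mul_cancel₀ _ h1]⟩

theorem rd_ne {P : HeightOneSpectrum (𝓞 K)} (hk : ∀ x : 𝓞 K, φ x = 0 ↔ x ∈ P.asIdeal) {a : K}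
    (ha : a ≠ 0) (ha0 : ord P a = 0) {t : F} (h : Rd φ a t) : t ≠ 0 := by
  intro ht
  rcases (h.zero hk).1 ht with h1 | h1
  · exact ha h1
  · omega

end

/-! ### Hensel -/

section

variable {K : Type} [Field K] [NumberField K] (P : HeightOneSpectrum (𝓞 K))

/-- zero or of exponent at least `n` -/
def Qn (n : ℤ) (x : K) : Prop := x = 0 ∨ n ≤ ord P x

variable {P}

theorem Qn.mul {n m : ℤ} {x y : K} (hx : Qn P n x) (hy : Qn P m y) : Qn P (n + m) (x * y) := by
  rcases hx with hx | hx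
  · left
    rw [hx, zero_mul]
  rcases hy with hy | hy
  · left
    rw [hy, mul_zero]
  by_cases hx0 : x = 0
  · left
    rw [hx0, zero_mul]
  by_cases hy0 : y = 0
  · left
    rw [hy0, mul_zero]
  right
  rw [ord_mul P hx0 hy0]
  omega

theorem Qn.add {n : ℤ} {x y : K} (hx : Qn P n x) (hy : Qn P n y) : Qn P n (x + y) :=
  le_ord_add P n hx hy

theorem Qn.neg {n : ℤ} {x : K} (hx : Qn P n x) : Qn P n (-x) := by
  rcases hx with hx | hx
  · left
    rw [hx, neg_zero]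
  · right
    rwa [ord_neg]

theorem Qn.mono {n m : ℤ} {x : K} (hx : Qn P n x) (h : m ≤ n) : Qn P m x :=
  hx.imp id fun h1 => h.trans h1

theorem qn_nat (k : ℕ) : Qn P 0 (k : K) := by
  right
  have h := ord_int_nonneg P (k : 𝓞 K)
  have h1 : ((k : 𝓞 K) : K) = (k : K) := map_natCast _ k
  rwa [h1] at h

theorem qn_one : Qn P 0 (1 : K) := by
  right
  rw [ord_one]

theorem lg_pow (e : K) (he : Qn P 0 e) (k : ℕ) : ∃ r : K, Qn P 0 r ∧
    (1 + e) ^ k = 1 + k * e + e ^ 2 * r := by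
  induction k with
  | zero => exact ⟨0, Or.inl rfl, by push_cast; ring⟩
  | succ k ih =>
    obtain ⟨r, hr, h⟩ := ih
    refine ⟨k + r + e * r, ?_, ?_⟩
    · have h1 := he.mul hr
      rw [add_zero] at h1
      exact ((qn_nat k).add hr).add h1
    · rw [pow_succ, h]
      push_cast
      ring

theorem lg_hensel {l : ℕ} (hl : l.Prime) (hP : ord P (l : K) = 0) {a c : K}
    (h : Qn P 1 (a * c ^ l - 1)) : LocW l P a := by
  have hl0 : (l : K) ≠ 0 := by exact_mod_cast hl.ne_zero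
  have key : ∀ n : ℕ, ∃ c : K, Qn P ((n : ℤ) + 1) (a * c ^ l - 1) := by
    intro n
    induction n with
    | zero => exact ⟨c, by simpa using h⟩
    | succ n ih =>
      obtain ⟨c, hc⟩ := ih
      set δ := a * c ^ l - 1 with hδ
      set e := -δ / l with he
      have hle : (l : K) * e = -δ := by
        rw [he, mul_div_cancel₀ _ hl0]
      have hQe : Qn P ((n : ℤ) + 1) e := by
        by_cases hδ0 : δ = 0
        · left
          rw [he, hδ0, neg_zero, zero_div]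
        · right
          rw [he, ord_div P (neg_ne_zero.2 hδ0) hl0, ord_neg, hP, sub_zero]
          exact hc.resolve_left hδ0
      obtain ⟨r, hr, hp⟩ := lg_pow e (hQe.mono (by omega)) l
      refine ⟨c * (1 + e), ?_⟩
      have h1 : a * (c * (1 + e)) ^ l - 1 = -(δ * δ) + (1 + δ) * (e * e * r) := by
        have h2 : a * (c * (1 + e)) ^ l = (1 + δ) * (1 + e) ^ l := by
          rw [mul_pow, hδ]
          ring
        rw [h2, hp, hle]
        ring
      rw [h1]
      have h3 : Qn P ((n : ℤ) + 1 + (n + 1)) (-(δ * δ)) := (hc.mul hc).neg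
      have h4 : Qn P 0 (1 + δ) := qn_one.add (hc.mono (by omega))
      have h5 := h4.mul ((hQe.mul hQe).mul hr)
      refine (h3.mono ?_).add (h5.mono ?_)
      · push_cast
        omega
      · push_cast
        omega
  intro n
  obtain ⟨c, hc⟩ := key n
  refine ⟨c, ?_⟩
  rcases hc with hc | hc
  · left
    exact sub_eq_zero.1 hc
  · right
    omega

end

/-! ### the theorem -/

section

variable {K : Type} [Field K] [NumberField K] {F : Type} [Field F] [Fintype F]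
  {φ : 𝓞 K →+* F} {P : HeightOneSpectrum (𝓞 K)} {l : ℕ} {z : K} {ζ : F}

theorem lg_iff (hk : ∀ x : 𝓞 K, φ x = 0 ↔ x ∈ P.asIdeal) (hz : Rd φ z ζ) {a : K} {t : F}
    (ha : Rd φ a t) (M i : ℕ) :
    (a ^ M = z ^ i ∨ 1 ≤ ord P (a ^ M - z ^ i)) ↔ t ^ M = ζ ^ i := by
  have h := ((ha.pow M).sub (hz.pow i)).zero hk
  rw [sub_eq_zero, sub_eq_zero] at h
  exact h.symm

theorem lg_main (hl : l.Prime) (hφ : Function.Surjective φ)
    (hk : ∀ x : 𝓞 K, φ x = 0 ↔ x ∈ P.asIdeal) (hc : nrm P = Fintype.card F)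
    (hP : ord P (l : K) = 0) (hz : Rd φ z ζ) (hζ : IsPrimitiveRoot ζ l) :
    (∀ a : Kˣ, ord P (a : K) = 0 → ∀ i : ZMod l, lgs l z P (a : K) = i ↔
      ((a : K) ^ ((nrm P - 1) / l) = z ^ i.val ∨
        1 ≤ ord P ((a : K) ^ ((nrm P - 1) / l) - z ^ i.val))) ∧
    (∀ a b : Kˣ, ord P (a : K) = 0 → ord P (b : K) = 0 →
      lgs l z P ((a * b : Kˣ) : K) = lgs l z P (a : K) + lgs l z P (b : K)) ∧
    (∀ a : Kˣ, ord P (a : K) = 0 → (lgs l z P (a : K) = 0 ↔ LocW l P (a : K))) ∧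
    ∃ u : Kˣ, ord P (u : K) = 0 ∧ lgs l z P (u : K) = 1 := by
  have : NeZero l := ⟨hl.ne_zero⟩
  have : Fact (1 < l) := ⟨hl.one_lt⟩
  have h1 : ∀ a : Kˣ, ord P (a : K) = 0 → ∀ i : ZMod l, lgs l z P (a : K) = i ↔
      ((a : K) ^ ((nrm P - 1) / l) = z ^ i.val ∨
        1 ≤ ord P ((a : K) ^ ((nrm P - 1) / l) - z ^ i.val)) := by
    intro a ha i
    obtain ⟨t, ht⟩ := rd_ex hk ha.ge
    have ht0 := rd_ne hk a.ne_zero ha ht
    have hex : ∃ i : ZMod l, (a : K) ^ ((nrm P - 1) / l) = z ^ i.val ∨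
        1 ≤ ord P ((a : K) ^ ((nrm P - 1) / l) - z ^ i.val) := by
      obtain ⟨i, hi⟩ := lg_f1 hl hζ ht0
      refine ⟨i, (lg_iff hk hz ht _ _).2 ?_⟩
      rw [hc]
      exact hi
    have hch := hex.choose_spec
    have hL : lgs l z P (a : K) = hex.choose := by
      unfold lgs
      rw [dif_pos hex]
    rw [hL]
    constructor
    · intro h
      rw [← h]
      exact hch
    · intro h
      have h2 := (lg_iff hk hz ht _ _).1 hch
      have h3 := (lg_iff hk hz ht _ _).1 h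
      exact lg_f2 hl hζ (h2.symm.trans h3)
  have h1' : ∀ a : Kˣ, ord P (a : K) = 0 → ∀ t : F, Rd φ (a : K) t → ∀ i : ZMod l,
      lgs l z P (a : K) = i ↔ t ^ ((Fintype.card F - 1) / l) = ζ ^ i.val := by
    intro a ha t ht i
    rw [h1 a ha i, lg_iff hk hz ht, hc]
  refine ⟨h1, ?_, ?_, ?_⟩
  · intro a b ha hb
    obtain ⟨t, ht⟩ := rd_ex hk ha.ge
    obtain ⟨s, hs⟩ := rd_ex hk hb.ge
    have hab : ord P ((a * b : Kˣ) : K) = 0 := by
      rw [Units.val_mul, ord_mul P a.ne_zero b.ne_zero, ha, hb, add_zero]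
    rw [h1' (a * b) hab (t * s) (by rw [Units.val_mul]; exact ht.mul hs), mul_pow,
      (h1' a ha t ht _).1 rfl, (h1' b hb s hs _).1 rfl, ← pow_add, ZMod.val_add]
    have hmod : ∀ m : ℕ, ζ ^ (m % l) = ζ ^ m := by
      intro m
      conv_rhs => rw [← Nat.mod_add_div m l, pow_add, pow_mul, hζ.pow_eq_one, one_pow, mul_one]
    rw [hmod]
  · intro a ha
    obtain ⟨t, ht⟩ := rd_ex hk ha.ge
    have ht0 := rd_ne hk a.ne_zero ha ht
    rw [h1' a ha t ht, ZMod.val_zero, pow_zero, lg_f3 hl hζ ht0]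
    constructor
    · rintro ⟨s, hs, rfl⟩
      obtain ⟨c, hc'⟩ := hφ s⁻¹
      have h2 := ((ht.mul ((rd_int (φ := φ) c).pow l)).sub rd_one).zero hk
      refine lg_hensel hl hP (c := (c : K)) (h2.1 ?_)
      rw [hc', inv_pow, mul_inv_cancel₀ (pow_ne_zero _ hs), sub_self]
    · intro h
      obtain ⟨c, hc'⟩ := h 1
      have h2 : Qn P 1 ((a : K) * c ^ l - 1) := by
        rcases hc' with h3 | h3
        · left
          rw [h3, sub_self]
        · right
          exact_mod_cast h3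
      have h3 : (a : K) * c ^ l ≠ 0 ∧ ord P ((a : K) * c ^ l) = 0 := by
        have h4 := ord_add_eq P (a := (1 : K)) (b := (a : K) * c ^ l - 1) one_ne_zero
          (h2.imp id fun h5 => by rw [ord_one]; omega)
        rw [add_sub_cancel, ord_one] at h4
        exact h4
      have hc0 : c ≠ 0 := by
        rintro rfl
        apply h3.1
        rw [zero_pow hl.ne_zero, mul_zero]
      have h5 : ord P c = 0 := by
        have h6 := h3.2
        rw [ord_mul P a.ne_zero (pow_ne_zero _ hc0), ha, zero_add, ord_pow] at h6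
        exact (mul_eq_zero.1 h6).resolve_left (by exact_mod_cast hl.ne_zero)
      obtain ⟨s, hs⟩ := rd_ex hk h5.ge
      have hs0 := rd_ne hk hc0 h5 hs
      have h6 := (((ht.mul (hs.pow l)).sub rd_one).zero hk).2 h2
      refine ⟨s⁻¹, inv_ne_zero hs0, ?_⟩
      rw [inv_pow]
      exact eq_inv_of_mul_eq_one_left (sub_eq_zero.1 h6)
  · obtain ⟨t, ht0, ht⟩ := lg_f4 hl hζ
    obtain ⟨x, rfl⟩ := hφ t
    have hx : x ∉ P.asIdeal := fun h => ht0 ((hk x).2 h)
    have hx0 : (x : K) ≠ 0 := by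
      intro h
      apply ht0
      have h4 : x = 0 := by exact_mod_cast h
      rw [h4, map_zero]
    refine ⟨Units.mk0 (x : K) hx0, ord_unit P hx, ?_⟩
    rw [h1' _ (ord_unit P hx) (φ x) (rd_int x), ht, ZMod.val_one, pow_one]

end

theorem slg : SLg := by
  intro l hl K _ _ z hz P hP
  classical
  have hmax := P.isMaximal
  let _ : Field (𝓞 K ⧸ P.asIdeal) := Ideal.Quotient.field P.asIdeal
  have hfin : Finite (𝓞 K ⧸ P.asIdeal) := Ideal.finiteQuotientOfFreeOfNeBot P.asIdeal P.ne_bot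
  let _ := Fintype.ofFinite (𝓞 K ⧸ P.asIdeal)
  have hk : ∀ x : 𝓞 K, Ideal.Quotient.mk P.asIdeal x = 0 ↔ x ∈ P.asIdeal :=
    fun x => Ideal.Quotient.eq_zero_iff_mem
  let z' : 𝓞 K := ⟨z, hz.isIntegral hl.pos⟩
  have hz' : (z' : K) = z := rfl
  have hzl : z' ^ l = 1 := by
    apply RingOfIntegers.ext
    show z ^ l = 1
    exact hz.pow_eq_one
  have hne : Ideal.Quotient.mk P.asIdeal z' ≠ 1 := by
    intro h
    have h1 : ∑ i ∈ Finset.range l, z' ^ i = 0 := by
      apply RingOfIntegers.ext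
      have h2 : ((∑ i ∈ Finset.range l, z' ^ i : 𝓞 K) : K) = ∑ i ∈ Finset.range l, z ^ i := by
        show algebraMap (𝓞 K) K _ = _
        rw [map_sum]
        exact Finset.sum_congr rfl fun i _ => by rw [map_pow]; rfl
      rw [h2, rc_zero]
      exact hz.geom_sum_eq_zero hl.one_lt
    have h2 := congrArg (Ideal.Quotient.mk P.asIdeal) h1
    rw [map_sum, map_zero] at h2
    simp only [map_pow, h, one_pow, Finset.sum_const, Finset.card_range, nsmul_eq_mul,
      mul_one] at h2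
    have h3 : Ideal.Quotient.mk P.asIdeal (l : 𝓞 K) = 0 := by rw [map_natCast]; exact h2
    have h4 := (le_ord_iff P (l : 𝓞 K) 1).2 (by rw [pow_one]; exact (hk _).1 h3)
    rcases h4 with h4 | h4
    · exact hl.ne_zero (by exact_mod_cast h4)
    · have h5 : ((l : 𝓞 K) : K) = (l : K) := map_natCast _ l
      rw [h5, hP] at h4
      norm_num at h4
  have hζ : IsPrimitiveRoot (Ideal.Quotient.mk P.asIdeal z') l := by
    have : Fact l.Prime := ⟨hl⟩
    have h1 : orderOf (Ideal.Quotient.mk P.asIdeal z') = l :=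
      orderOf_eq_prime (by rw [← map_pow, hzl, map_one]) hne
    have h2 := IsPrimitiveRoot.orderOf (Ideal.Quotient.mk P.asIdeal z')
    rwa [h1] at h2
  have hzR : Rd (Ideal.Quotient.mk P.asIdeal) z (Ideal.Quotient.mk P.asIdeal z') := by
    rw [← hz']
    exact rd_int z'
  have hc : nrm P = Fintype.card (𝓞 K ⧸ P.asIdeal) := by
    rw [← Nat.card_eq_fintype_card]
    rfl
  exact lg_main hl Ideal.Quotient.mk_surjective hk hc hP hzR hζ

end Pool.Agent.H92.EL
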