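import Pool.Agent.H92.EL.BKStm
import Pool.Agent.H92.EL.Lg
import Pool.Agent.H98.MF.C.Bas

/-!
# Project ELL (MP_a3214d), block B, the side of `K = k(μ_l)`: the representatives of the classes
-/

set_option autoImplicit false

open scoped BigOperators
open NumberField IsDedekindDomain

namespace Pool.Agent.H92.EL

open Pool.Agent.H98.MF (ord US PrS mS nrm Pre preK)

section

variable {l : ℕ} {K : Type} [Field K] [NumberField K] {z : K}

private theorem bk15_one (hl : l.Prime) (hz : IsPrimitiveRoot z l)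
    {P : HeightOneSpectrum (𝓞 K)} (hP : ord P (l : K) = 0) :
    lgs l z P (((1 : Kˣ) : Kˣ) : K) = 0 := by
  have h0 : ord P (((1 : Kˣ) : Kˣ) : K) = 0 := by
    rw [Units.val_one]
    exact Pool.Agent.H98.MF.B.ord_one P
  have h := (slg l hl K z hz P hP).2.1 1 1 h0 h0
  rw [mul_one] at h
  exact left_eq_add.1 h

private theorem bk15_prod (hl : l.Prime) (hz : IsPrimitiveRoot z l)
    {P : HeightOneSpectrum (𝓞 K)} (hP : ord P (l : K) = 0) {ι : Type} (s : Finset ι)
    (f : ι → Kˣ) (hf : ∀ i ∈ s, ord P (f i : K) = 0) :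
    ord P ((∏ i ∈ s, f i : Kˣ) : K) = 0 ∧
      lgs l z P ((∏ i ∈ s, f i : Kˣ) : K) = ∑ i ∈ s, lgs l z P (f i : K) := by
  classical
  induction s using Finset.induction_on with
  | empty =>
    rw [Finset.prod_empty, Finset.sum_empty]
    refine ⟨?_, bk15_one hl hz hP⟩
    rw [Units.val_one]
    exact Pool.Agent.H98.MF.B.ord_one P
  | insert i s hi ih =>
    have h1 := ih fun j hj => hf j (Finset.mem_insert_of_mem hj)
    have h2 := hf i (Finset.mem_insert_self i s)
    rw [Finset.prod_insert hi, Finset.sum_insert hi]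
    refine ⟨?_, ?_⟩
    · rw [Units.val_mul, Pool.Agent.H98.MF.B.ord_mul P (Units.ne_zero _) (Units.ne_zero _), h1.1,
        h2, add_zero]
    · rw [(slg l hl K z hz P hP).2.1 _ _ h2 h1.1, h1.2]

private theorem bk15_pow (hl : l.Prime) (hz : IsPrimitiveRoot z l)
    {P : HeightOneSpectrum (𝓞 K)} (hP : ord P (l : K) = 0) (a : Kˣ) (ha : ord P (a : K) = 0)
    (n : ℕ) : ord P ((a ^ n : Kˣ) : K) = 0 ∧
      lgs l z P ((a ^ n : Kˣ) : K) = (n : ZMod l) * lgs l z P (a : K) := by
  have h := bk15_prod hl hz hP (Finset.range n) (fun _ => a) fun _ _ => ha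
  rw [Finset.prod_const, Finset.sum_const, Finset.card_range, nsmul_eq_mul] at h
  exact h

end

/-- the representatives of the classes -/
theorem sk15 : SK15 := by
  classical
  intro l _ k K _ _ _ _ _ z hz G S hS F f c
  have hl : l.Prime := Fact.out
  have hu : ∀ (j : Fin (mS S)) (P : HeightOneSpectrum (𝓞 K)), P ∉ S → ord P (F.u j : K) = 0 :=
    fun j => Pool.Agent.H98.MF.B.mem_US.1 (F.u_mem j)
  have hpi : ∀ q p : (preK S).P, ord p.1 (F.pi q : K) = if q = p then 1 else 0 := by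
    intro q p
    split_ifs with h
    · rw [h]
      exact F.pi_self p
    · exact F.pi_other q p.1 p.2 fun h' => h (Subtype.ext h'.symm)
  have h1 : ∀ p : (preK S).P, ord p.1 (F.rep f c : K) = ((f p).val : ℤ) := by
    intro p
    unfold CFl.rep
    rw [Finsupp.prod, Units.val_mul,
      Pool.Agent.H98.MF.B.ord_mul _ (Units.ne_zero _) (Units.ne_zero _),
      Pool.Agent.H98.MF.B.ord_prod, Pool.Agent.H98.MF.B.ord_prod]
    have e1 : ∑ j, ord p.1 ((F.u j ^ (c j).val : Kˣ) : K) = 0 := by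
      refine Finset.sum_eq_zero fun i _ => ?_
      rw [Units.val_pow_eq_pow_val, Pool.Agent.H98.MF.B.ord_pow, hu i p.1 p.2, mul_zero]
    have e2 : ∑ q ∈ f.support, ord p.1 ((F.pi q ^ (f q).val : Kˣ) : K) = ((f p).val : ℤ) := by
      have e3 : ∀ q ∈ f.support, ord p.1 ((F.pi q ^ (f q).val : Kˣ) : K) =
          if q = p then ((f p).val : ℤ) else 0 := by
        intro q _
        rw [Units.val_pow_eq_pow_val, Pool.Agent.H98.MF.B.ord_pow, hpi]
        split_ifs with h
        · rw [h, mul_one]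
        · rw [mul_zero]
      rw [Finset.sum_congr rfl e3, Finset.sum_ite_eq']
      split_ifs with h
      · rfl
      · rw [Finsupp.notMem_support_iff.1 h, ZMod.val_zero]
        rfl
    rw [e1, e2, zero_add]
  refine ⟨h1, ?_, ?_⟩
  · intro p hp
    have hP : ord p.1 (l : K) = 0 := by
      have e1 : 0 ≤ ord p.1 (((l : 𝓞 K) : 𝓞 K) : K) := Pool.Agent.H98.MF.ord_int_nonneg p.1 _
      have e2 : ((l : 𝓞 K) : K) = (l : K) := map_natCast _ l
      rw [e2] at e1
      by_contra h
      exact p.2 (hS.mem p.1 (lt_of_le_of_ne e1 (Ne.symm h)))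
    have hA := bk15_prod hl hz hP Finset.univ (fun j => F.u j ^ (c j).val) fun j _ =>
      (bk15_pow hl hz hP (F.u j) (hu j p.1 p.2) _).1
    have hq : ∀ q ∈ f.support, q ≠ p := fun q hq h => hp (h ▸ hq)
    have hq0 : ∀ q ∈ f.support, ord p.1 (F.pi q : K) = 0 := fun q h => by
      rw [hpi, if_neg (hq q h)]
    have hB := bk15_prod hl hz hP f.support (fun q => F.pi q ^ (f q).val) fun q h =>
      (bk15_pow hl hz hP (F.pi q) (hq0 q h) _).1
    unfold CFl.rep CFl.gF
    rw [Finsupp.prod, Finsupp.sum, (slg l hl K z hz p.1 hP).2.1 _ _ hA.1 hB.1, hA.2, hB.2,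
      mul_add, Finset.mul_sum, Finset.mul_sum, add_comm]
    congr 1
    · unfold dotProduct
      refine Finset.sum_congr rfl fun j _ => ?_
      rw [(bk15_pow hl hz hP (F.u j) (hu j p.1 p.2) _).2, ZMod.natCast_val, ZMod.cast_id]
      unfold CFl.ty
      ring
    · refine Finset.sum_congr rfl fun q h => ?_
      rw [(bk15_pow hl hz hP (F.pi q) (hq0 q h) _).2, ZMod.natCast_val, ZMod.cast_id]
      unfold CFl.s
      rw [if_neg (hq q h)]
      ring
  · rintro ⟨b, -, hb⟩
    have hf : f = 0 := by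
      ext p
      have e1 := h1 p
      rw [← hb] at e1
      have e2 : ord p.1 ((b ^ l : Kˣ) : K) = ((f p).val : ℤ) := e1
      rw [Units.val_pow_eq_pow_val, Pool.Agent.H98.MF.B.ord_pow] at e2
      have e3 : (l : ℤ) ∣ ((f p).val : ℤ) := ⟨_, e2.symm⟩
      have e4 : (f p).val = 0 := Nat.eq_zero_of_dvd_of_lt (Int.natCast_dvd_natCast.1 e3)
        (ZMod.val_lt _)
      exact (ZMod.val_eq_zero _).1 e4
    refine ⟨hf, F.u_ind c ⟨b, Subgroup.mem_top b, ?_⟩⟩
    rw [hb, hf]
    unfold CFl.rep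
    rw [Finsupp.prod_zero_index, mul_one]

end Pool.Agent.H92.EL
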