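import Pool.Agent.H92.EL.AStm
import Pool.Agent.H98.MF.NReps
import Pool.Agent.H98.MF.NOrd
import Pool.Agent.H98.MF.NIdf
import Pool.Agent.H98.MF.L.Ord
import Pool.Agent.H98.MF.C.Bas

/-!
# Project ELL (MP_a3214d), block A, A32: characters of ideals given by functionals
-/

set_option autoImplicit false

open scoped BigOperators Pointwise NNReal nonZeroDivisors
open NumberField IsDedekindDomain

namespace Pool.Agent.H92.EL

open Pool.Agent.H98.MF (ord US PrS gen le_ord_iff_valuation PER cof sgnN CoP Reps reps_exist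
  ord_quot)
open Pool.Agent.H98.MF.NIdfA (cn cn_mul)

variable {K : Type} [Field K] [NumberField K]

/-! ### Hensel's lemma for powers -/

theorem n2a_pow (P : HeightOneSpectrum (𝓞 K)) (u : K) (hu : P.valuation K u ≤ 1) (l : ℕ) :
    ∃ c : K, P.valuation K c ≤ 1 ∧ (1 - u) ^ l = 1 - l * u + u ^ 2 * c := by
  have hn : ∀ m : ℕ, P.valuation K (m : K) ≤ 1 := by
    intro m
    have e : algebraMap (𝓞 K) K (m : 𝓞 K) = (m : K) := map_natCast (algebraMap (𝓞 K) K) m
    rw [← e]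
    exact P.valuation_le_one _
  induction l with
  | zero => exact ⟨0, by simp, by simp⟩
  | succ l ih =>
    obtain ⟨c, hc, h⟩ := ih
    refine ⟨l + c - u * c, ?_, ?_⟩
    · refine (Valuation.map_sub _ _ _).trans (max_le ?_ ?_)
      · exact (Valuation.map_add _ _ _).trans (max_le (hn l) hc)
      · rw [map_mul]
        exact mul_le_one' hu hc
    · rw [pow_succ, h]
      push_cast
      ring

theorem n2a_hensel (P : HeightOneSpectrum (𝓞 K)) (l : ℕ) (hl : l ≠ 0) (a : K)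
    (h : P.valuation K (a - 1) ≤ WithZero.exp (-(2 * ord P (l : K) + 1))) : LocW l P a := by
  have hlK : (l : K) ≠ 0 := Nat.cast_ne_zero.2 hl
  set e : ℤ := ord P (l : K) with he
  have he0 : 0 ≤ e := by
    have h1 := Pool.Agent.H98.MF.N_ord_nonneg P (l : 𝓞 K)
    have h2 : (((l : 𝓞 K) : 𝓞 K) : K) = (l : K) := map_natCast (algebraMap (𝓞 K) K) l
    rw [h2] at h1
    exact h1
  have hli : P.valuation K ((l : K)⁻¹) ≤ WithZero.exp e := by
    have h1 := (le_ord_iff_valuation P ((l : K)⁻¹) (-e)).1 (Or.inr (by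
      rw [Pool.Agent.H98.MF.B.ord_inv]))
    rwa [neg_neg] at h1
  have key : ∀ j : ℕ, ∃ d : K,
      P.valuation K (a * d ^ l - 1) ≤ WithZero.exp (-(2 * e + 1 + (j : ℤ))) := by
    intro j
    induction j with
    | zero =>
      refine ⟨1, ?_⟩
      rw [one_pow, mul_one]
      refine h.trans (le_of_eq ?_)
      congr 1
      push_cast
      ring
    | succ j ih =>
      obtain ⟨d, hd⟩ := ih
      set t : K := a * d ^ l - 1 with ht
      set u : K := t * (l : K)⁻¹ with hu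
      have hu1 : P.valuation K u ≤ WithZero.exp (-(e + 1 + (j : ℤ))) := by
        rw [hu, map_mul]
        refine (mul_le_mul' hd hli).trans (le_of_eq ?_)
        rw [← WithZero.exp_add]
        congr 1
        ring
      have hu2 : P.valuation K u ≤ 1 := by
        refine hu1.trans ?_
        rw [← WithZero.exp_zero, WithZero.exp_le_exp]
        omega
      have ht1 : P.valuation K t ≤ 1 := by
        refine hd.trans ?_
        rw [← WithZero.exp_zero, WithZero.exp_le_exp]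
        omega
      obtain ⟨c, hc, hcu⟩ := n2a_pow P u hu2 l
      refine ⟨d * (1 - u), ?_⟩
      have e1 : a * (d * (1 - u)) ^ l - 1 = -(t * t) + (1 + t) * (u * u * c) := by
        have e2 : a * (d * (1 - u)) ^ l = (1 + t) * (1 - u) ^ l := by
          rw [mul_pow, ht]
          ring
        have e3 : (l : K) * u = t := by
          rw [hu]
          field_simp
        rw [e2, hcu, e3]
        ring
      rw [e1]
      refine (Valuation.map_add _ _ _).trans (max_le ?_ ?_)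
      · rw [Valuation.map_neg, map_mul]
        refine (mul_le_mul' hd hd).trans ?_
        rw [← WithZero.exp_add, WithZero.exp_le_exp]
        push_cast
        omega
      · rw [map_mul, map_mul, map_mul]
        have h1 : P.valuation K (1 + t) ≤ 1 := by
          refine (Valuation.map_add _ _ _).trans (max_le ?_ ht1)
          rw [map_one]
        have h2 : P.valuation K (1 + t) * (P.valuation K u * P.valuation K u *
            P.valuation K c) ≤ 1 * (WithZero.exp (-(e + 1 + (j : ℤ))) *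
              WithZero.exp (-(e + 1 + (j : ℤ))) * 1) :=
          mul_le_mul' h1 (mul_le_mul' (mul_le_mul' hu1 hu1) hc)
        refine h2.trans ?_
        rw [one_mul, mul_one, ← WithZero.exp_add, WithZero.exp_le_exp]
        push_cast
        omega
  intro n
  obtain ⟨d, hd⟩ := key n
  refine ⟨d, ?_⟩
  have h1 : a * d ^ l - 1 = 0 ∨ (n : ℤ) ≤ ord P (a * d ^ l - 1) := by
    rw [le_ord_iff_valuation]
    refine hd.trans ?_
    rw [WithZero.exp_le_exp]
    omega
  rwa [sub_eq_zero] at h1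

/-! ### the character on ideals -/

section

variable {l : ℕ} [NeZero l] {S : Finset (HeightOneSpectrum (𝓞 K))}
  {ψ : Kˣ →* Multiplicative (ZMod l)}

theorem n2a_ord {I J : Ideal (𝓞 K)} (hI : I ≠ ⊥) (hJ : J ≠ ⊥)
    (hJS : ∀ Q : HeightOneSpectrum (𝓞 K), Q ∉ S → ¬ J ≤ Q.asIdeal) {α : 𝓞 K}
    (hα : Ideal.span {α} = I * J) (Q : HeightOneSpectrum (𝓞 K)) (hQ : Q ∉ S) :
    ord Q (α : K) = cn Q I := by
  have h1 : ord Q (α : K) = cn Q (Ideal.span {α}) := by
    unfold ord cn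
    rw [FractionalIdeal.coeIdeal_span_singleton]
  have h2 : cn Q J = 0 := by
    by_contra h
    exact hJS Q hQ ((Pool.Agent.H98.MF.NIdfA.le_iff Q hJ).2 h)
  rw [h1, hα, cn_mul Q hI hJ, h2, add_zero]

theorem n2a_cn {I : Ideal (𝓞 K)} (hI : I ≠ ⊥) (Q : HeightOneSpectrum (𝓞 K)) :
    cn Q I = ((Associates.mk Q.asIdeal).count (Associates.mk I).factors : ℤ) := by
  classical
  exact FractionalIdeal.count_coe K Q hI

/-- the value of a functional depends only on the exponents outside `S` -/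
theorem n2a_val (hψ : FnL l S ψ) {x y : Kˣ}
    (h : ∀ Q : HeightOneSpectrum (𝓞 K), Q ∉ S → ord Q (x : K) = ord Q (y : K)) : ψ x = ψ y := by
  have h1 : x / y ∈ US S := by
    rw [Pool.Agent.H98.MF.B.mem_US]
    intro Q hQ
    rw [Units.val_div_eq_div_val, Pool.Agent.H98.MF.B.ord_div Q x.ne_zero y.ne_zero, h Q hQ,
      sub_self]
  have h2 := hψ.unit _ h1
  rwa [map_div, div_eq_one] at h2

theorem n2a_chI (hψ : FnL l S ψ) {I J : Ideal (𝓞 K)} (hI : I ≠ ⊥) (hJ : J ≠ ⊥)
    (hJS : ∀ Q : HeightOneSpectrum (𝓞 K), Q ∉ S → ¬ J ≤ Q.asIdeal)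
    (hIS : ∀ P ∈ S, ¬ I ≤ P.asIdeal) {α : 𝓞 K} (hα0 : (α : K) ≠ 0)
    (hα : Ideal.span {α} = I * J) :
    chI l S ψ I = ZMod.stdAddChar (vl l ψ (Units.mk0 (α : K) hα0)) := by
  classical
  have hex : ∃ x : Kˣ, ∀ Q : HeightOneSpectrum (𝓞 K), Q ∉ S →
      ord Q (x : K) = ((Associates.mk Q.asIdeal).count (Associates.mk I).factors : ℤ) := by
    refine ⟨Units.mk0 (α : K) hα0, fun Q hQ => ?_⟩
    rw [Units.val_mk0, n2a_ord hI hJ hJS hα Q hQ, n2a_cn hI]
  have h1 : ψ (xI S I) = ψ (Units.mk0 (α : K) hα0) := by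
    refine n2a_val hψ fun Q hQ => ?_
    rw [Units.val_mk0, n2a_ord hI hJ hJS hα Q hQ, n2a_cn hI]
    unfold xI
    rw [dif_pos hex]
    exact hex.choose_spec Q hQ
  unfold chI
  rw [if_pos hIS]
  unfold vl
  rw [h1]

theorem n2a_chI_zero {I : Ideal (𝓞 K)} (hIS : ¬ ∀ P ∈ S, ¬ I ≤ P.asIdeal) :
    chI l S ψ I = 0 := by
  unfold chI
  rw [if_neg hIS]

theorem n2a_norm (I : Ideal (𝓞 K)) : ‖chI l S ψ I‖ ≤ 1 := by
  unfold chI
  split_ifs
  · exact le_of_eq (AddChar.norm_apply _ _)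
  · rw [norm_zero]
    exact zero_le_one

/-- an ideal prime to `S` times an ideal with primes in `S` is principal -/
theorem n2a_co (hS : PrS S) {I : Ideal (𝓞 K)} (hI : I ≠ ⊥) : ∃ (J : Ideal (𝓞 K)) (α : 𝓞 K),
    J ≠ ⊥ ∧ (∀ Q : HeightOneSpectrum (𝓞 K), Q ∉ S → ¬ J ≤ Q.asIdeal) ∧ (α : K) ≠ 0 ∧
      Ideal.span {α} = I * J := by
  obtain ⟨R, hR, hRS⟩ := reps_exist K S hS
  obtain ⟨J, ⟨hJR, hJI⟩, -⟩ := hR.2 I hI
  obtain ⟨α, hα⟩ := hJI
  refine ⟨J, α, hR.1 J hJR, hRS J hJR, ?_, hα.symm⟩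
  intro h
  have h1 : α = 0 := RingOfIntegers.coe_eq_zero_iff.1 h
  rw [h1, Ideal.span_singleton_eq_bot.2 rfl] at hα
  exact mul_ne_zero hI (hR.1 J hJR) hα

theorem n2a_mul (hS : PrS S) (hψ : FnL l S ψ) {I I' : Ideal (𝓞 K)} (hI : I ≠ ⊥) (hI' : I' ≠ ⊥) :
    chI l S ψ (I * I') = chI l S ψ I * chI l S ψ I' := by
  classical
  by_cases h : ∀ P ∈ S, ¬ I ≤ P.asIdeal
  · by_cases h' : ∀ P ∈ S, ¬ I' ≤ P.asIdeal
    · obtain ⟨J, α, hJ, hJS, hα0, hα⟩ := n2a_co hS hI
      obtain ⟨J', α', hJ', hJS', hα0', hα'⟩ := n2a_co hS hI'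
      rw [n2a_chI hψ hI hJ hJS h hα0 hα, n2a_chI hψ hI' hJ' hJS' h' hα0' hα']
      have h0 : ((α * α' : 𝓞 K) : K) ≠ 0 := by
        show (α : K) * (α' : K) ≠ 0
        exact mul_ne_zero hα0 hα0'
      rw [n2a_chI hψ (J := J * J') (mul_ne_zero hI hI') (mul_ne_zero hJ hJ')
        (fun Q hQ hle => by
          rcases (Q.isPrime.mul_le).1 hle with h1 | h1
          · exact hJS Q hQ h1
          · exact hJS' Q hQ h1)
        (fun P hP hle => by
          rcases (P.isPrime.mul_le).1 hle with h1 | h1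
          · exact h P hP h1
          · exact h' P hP h1) h0
        (by
          rw [← Ideal.span_singleton_mul_span_singleton, hα, hα']
          ring)]
      have h1 : Units.mk0 ((α * α' : 𝓞 K) : K) h0 =
          Units.mk0 (α : K) hα0 * Units.mk0 (α' : K) hα0' := by
        apply Units.ext
        simp
      rw [h1]
      unfold vl
      rw [map_mul, toAdd_mul, AddChar.map_add_eq_mul]
    · have h2 : ¬ ∀ P ∈ S, ¬ I * I' ≤ P.asIdeal := by
        push Not at h' ⊢
        obtain ⟨Q, hQ, hQ'⟩ := h'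
        exact ⟨Q, hQ, Ideal.mul_le_right.trans hQ'⟩
      rw [n2a_chI_zero h', n2a_chI_zero h2, mul_zero]
  · have h2 : ¬ ∀ P ∈ S, ¬ I * I' ≤ P.asIdeal := by
      push Not at h ⊢
      obtain ⟨Q, hQ, hQ'⟩ := h
      exact ⟨Q, hQ, Ideal.mul_le_left.trans hQ'⟩
    rw [n2a_chI_zero h, n2a_chI_zero h2, zero_mul]

/-- a prime outside `S` where the character is not trivial -/
theorem n2a_prime (hS : PrS S) (hψ : FnL l S ψ) (hne : ψ ≠ 1) :
    ∃ P : HeightOneSpectrum (𝓞 K), P ∉ S ∧ ψ (gen S P) ≠ 1 := by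
  classical
  by_contra hcon
  push Not at hcon
  apply hne
  refine MonoidHom.ext fun x => ?_
  set T0 := (Pool.Agent.H98.MF.B.ord_finite (x : K) x.ne_zero).toFinset with hT0
  have h0 : ∀ Q, Q ∈ T0 ↔ ord Q (x : K) ≠ 0 := fun Q => by
    rw [hT0, Set.Finite.mem_toFinset]
    exact Iff.rfl
  have h1 := hψ.unit _ (Pool.Agent.H98.MF.B.exists_unit_mul hS x (T0.filter fun Q => Q ∉ S)
    (fun Q hQ hQT => by
      by_contra h
      exact hQT (Finset.mem_filter.2 ⟨(h0 Q).2 h, hQ⟩))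
    (fun Q hQ => (Finset.mem_filter.1 hQ).2))
  rw [map_mul, map_inv, map_prod, mul_inv_eq_one] at h1
  rw [h1, MonoidHom.one_apply]
  refine Finset.prod_eq_one fun Q hQ => ?_
  rw [map_zpow, hcon Q (Finset.mem_filter.1 hQ).2, one_zpow]

theorem n2a_single (hS : PrS S) (hψ : FnL l S ψ) {P : HeightOneSpectrum (𝓞 K)} (hP : P ∉ S)
    (h : ψ (gen S P) ≠ 1) : chI l S ψ P.asIdeal ≠ 1 := by
  classical
  obtain ⟨J, α, hJ, hJS, hα0, hα⟩ := n2a_co hS P.ne_bot
  have hPS : ∀ Q ∈ S, ¬ P.asIdeal ≤ Q.asIdeal := by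
    intro Q hQ hle
    have h1 : P.asIdeal = Q.asIdeal := P.isMaximal.eq_of_le Q.isPrime.ne_top hle
    exact hP (HeightOneSpectrum.ext h1 ▸ hQ)
  rw [n2a_chI hψ P.ne_bot hJ hJS hPS hα0 hα]
  have hg := Pool.Agent.H98.MF.B.gen_spec hS hP
  have h1 : ψ (Units.mk0 (α : K) hα0) = ψ (gen S P) := by
    refine n2a_val hψ fun Q hQ => ?_
    rw [Units.val_mk0, n2a_ord P.ne_bot hJ hJS hα Q hQ]
    by_cases hQP : Q = P
    · subst hQP
      rw [hg.1]
      exact FractionalIdeal.count_self K Q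
    · rw [hg.2 Q hQ hQP]
      exact FractionalIdeal.count_maximal_coprime K Q (Ne.symm hQP)
  unfold vl
  rw [h1]
  intro h2
  apply h
  have h3 : (ZMod.stdAddChar (Multiplicative.toAdd (ψ (gen S P))) : ℂ) =
      ZMod.stdAddChar (0 : ZMod l) := by rw [h2, AddChar.map_zero_eq_one]
  exact Multiplicative.toAdd.injective (ZMod.injective_stdAddChar h3)

end

end Pool.Agent.H92.EL
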