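import Pool.Agent.H92.EL.BKStm
import Pool.Agent.H92.EL.N2aA
import Pool.Agent.H98.MF.L.Ord

/-!
# Project ELL (MP_a3214d), block B, BK16: the characters are ray class characters
-/

set_option autoImplicit false

open scoped BigOperators
open NumberField IsDedekindDomain

namespace Pool.Agent.H92.EL

open Pool.Agent.H98.MF (Om Gm ord Dec US PrS mS nrm gen cj Pre preK)

section

variable {l : ℕ} [Fact l.Prime] {K : Type} [Field K] [NumberField K] {z : K}

private theorem bk16_near (P : HeightOneSpectrum (𝓞 K)) (γ : K)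
    (h : γ = 1 ∨ 2 * ord P (l : K) + 1 ≤ ord P (γ - 1)) : LocW l P γ := by
  refine n2a_hensel P l (Fact.out : l.Prime).ne_zero γ ?_
  refine (Pool.Agent.H98.MF.le_ord_iff_valuation P (γ - 1) _).1 ?_
  rcases h with h | h
  · left
    rw [h, sub_self]
  · exact Or.inr h

omit [Fact l.Prime] in
private theorem bk16_ord_l (P : HeightOneSpectrum (𝓞 K)) : 0 ≤ ord P (l : K) := by
  have h1 := Pool.Agent.H98.MF.N_ord_nonneg P (l : 𝓞 K)
  have h2 : (((l : 𝓞 K) : 𝓞 K) : K) = (l : K) := map_natCast (algebraMap (𝓞 K) K) l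
  rw [h2] at h1
  exact h1

private theorem bk16_zero (G : GSy l K z) (P : HeightOneSpectrum (𝓞 K)) (a b : Kˣ)
    (h : LocW l P (b : K)) : G.hs P a b = 0 := by
  have h1 : G.hs P b a = 0 := (G.nd P b).2 h a
  have h2 := G.alt P (a * b)
  rw [G.mulL, G.mulR, G.mulR, G.alt, G.alt, h1] at h2
  simpa using h2

private theorem bk16_us {S2 : Finset (HeightOneSpectrum (𝓞 K))} {a : Kˣ}
    (h : ∀ P : HeightOneSpectrum (𝓞 K), P ∉ S2 → ord P (a : K) = 0) : a ∈ US S2 :=
  Pool.Agent.H98.MF.B.mem_US.2 h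

end

/-- BK16 -/
theorem sk16 (h15 : SK15) : SK16 := by
  intro l hl K _ _ z hz S hS
  classical
  refine ⟨∑ P ∈ S, (2 * ord P (l : K) + 1).toNat, ?_⟩
  intro k _ _ _ G F f c γ hγ0 hS1 hy1
  obtain ⟨ho, hg, -⟩ := h15 l k K z hz G S hS F f c
  set a : Kˣ := F.rep f c with ha
  set g : Kˣ := Units.mk0 γ hγ0 with hgdef
  set Y : Finset (HeightOneSpectrum (𝓞 K)) := f.support.image fun q => q.1 with hY
  set S2 : Finset (HeightOneSpectrum (𝓞 K)) :=
    S ∪ Y ∪ (Pool.Agent.H98.MF.B.ord_finite γ hγ0).toFinset with hS2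
  have hl0 : ∀ Q : (preK S).P, ord Q.1 (l : K) = 0 := fun Q => by
    by_contra h
    exact Q.2 (hS.mem Q.1 (lt_of_le_of_ne (bk16_ord_l Q.1) (Ne.symm h)))
  have hmem : ∀ P : HeightOneSpectrum (𝓞 K), 0 < ord P (l : K) → P ∈ S2 := fun P hP =>
    Finset.mem_union_left _ (Finset.mem_union_left _ (hS.mem P hP))
  have hg2 : g ∈ US S2 := bk16_us fun P hP => by
    by_contra h
    exact hP (Finset.mem_union_right _ ((Set.Finite.mem_toFinset _).2 h))
  have ha2 : a ∈ US S2 := bk16_us fun P hP => by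
    have hP1 : P ∉ S := fun h => hP (Finset.mem_union_left _ (Finset.mem_union_left _ h))
    have hP2 : (⟨P, hP1⟩ : (preK S).P) ∉ f.support := fun h => hP (Finset.mem_union_left _
      (Finset.mem_union_right _ (Finset.mem_image.2 ⟨_, h, rfl⟩)))
    have h0 : f ⟨P, hP1⟩ = 0 := Finsupp.notMem_support_iff.1 hP2
    refine (ho ⟨P, hP1⟩).trans ((congrArg (fun t : ZMod l => (t.val : ℤ)) h0).trans ?_)
    show (((0 : ZMod l).val : ℕ) : ℤ) = 0
    rw [ZMod.val_zero]
    rfl
  have hrec := G.prd S2 hmem a ha2 g hg2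
  have hval : ∀ Q : (preK S).P, G.hs Q.1 a g =
      ((if Q ∈ f.support then 0 else ord Q.1 γ : ℤ) : ZMod l) * F.gF f c Q := by
    intro Q
    split_ifs with hQy
    · rw [Int.cast_zero, zero_mul]
      refine bk16_zero G Q.1 a g (bk16_near Q.1 γ ?_)
      rw [hl0 Q]
      simpa using hy1 Q hQy
    · have h0 : ord Q.1 (a : K) = 0 := by
        have h1 : f Q = 0 := Finsupp.notMem_support_iff.1 hQy
        refine (ho Q).trans ((congrArg (fun t : ZMod l => (t.val : ℤ)) h1).trans ?_)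
        show (((0 : ZMod l).val : ℕ) : ℤ) = 0
        rw [ZMod.val_zero]
        rfl
      rw [G.unit Q.1 a g (hl0 Q) h0, hg Q hQy]
      show G.cc Q.1 * ((ord Q.1 γ : ZMod l) * lgs l z Q.1 (a : K)) = _
      ring
  have hzero : ∀ P ∈ S, G.hs P a g = 0 := by
    intro P hP
    refine bk16_zero G P a g (bk16_near P γ ?_)
    rcases hS1 P hP with h | h
    · exact Or.inl h
    · right
      have h1 : (2 * ord P (l : K) + 1).toNat ≤ ∑ Q ∈ S, (2 * ord Q (l : K) + 1).toNat :=
        Finset.single_le_sum (f := fun Q => (2 * ord Q (l : K) + 1).toNat)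
          (fun _ _ => Nat.zero_le _) hP
      have h2 : 2 * ord P (l : K) + 1 ≤ ((2 * ord P (l : K) + 1).toNat : ℤ) :=
        Int.self_le_toNat _
      have h3 : ((2 * ord P (l : K) + 1).toNat : ℤ) ≤
          ((∑ Q ∈ S, (2 * ord Q (l : K) + 1).toNat : ℕ) : ℤ) := by exact_mod_cast h1
      exact h2.trans (h3.trans h)
  refine (finsum_eq_sum_of_support_subset _
    (s := (S2.subtype (fun P => P ∉ S) : Finset (preK S).P)) ?_).trans ?_
  rotate_left
  · have h3 : ∑ P ∈ S2, G.hs P a g = ∑ P ∈ S2.filter (fun P => P ∉ S), G.hs P a g := by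
      rw [Finset.sum_filter]
      refine Finset.sum_congr rfl fun P hP => ?_
      by_cases h : P ∈ S
      · rw [if_neg (not_not.2 h)]
        exact hzero P h
      · rw [if_pos h]
    rw [h3, ← Finset.sum_subtype_eq_sum_filter] at hrec
    rw [← hrec]
    refine Finset.sum_congr rfl fun Q hQ => ?_
    refine (?_ : _ = _).trans (hval Q).symm
    congr!
  · intro Q hQ
    rw [Finset.mem_coe, Finset.mem_subtype]
    by_contra h
    apply hQ
    have h4 : ord Q.1 γ = 0 := by
      by_contra h'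
      exact h (Finset.mem_union_right _ ((Set.Finite.mem_toFinset _).2 h'))
    simp only [h4]
    simp

end Pool.Agent.H92.EL
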