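import Pool.Agent.H98.MF.NMain
import Pool.Agent.H98.MF.NFin
import Pool.Agent.H98.MF.NReps

/-!
# Project ELL (MP_a3214d), block B, BK18: sums of complex multiplicative periodic functions of
ideals, with polynomial dependence on the modulus
-/

set_option autoImplicit false

open scoped BigOperators Pointwise NNReal nonZeroDivisors
open NumberField IsDedekindDomain

namespace Pool.Agent.H92.EL

open Pool.Agent.H98.MF (PER cof sgnN CoP Reps IdLe finite_IdLe main_count)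

variable {K : Type} [Field K] [NumberField K]

/-- periodicity without sign condition -/
def bk18Per (J M : Ideal (𝓞 K)) (F : Ideal (𝓞 K) → ℂ) : Prop :=
  ∀ α β : 𝓞 K, α ≠ 0 → β ≠ 0 → α ∈ J → α - β ∈ M * J → F (cof J α) = F (cof J β)

theorem bk18_norm_pos {B : Ideal (𝓞 K)} (hB : B ≠ ⊥) : (0 : ℝ) < (Ideal.absNorm B : ℝ) := by
  have h : Ideal.absNorm B ≠ 0 := by
    rw [Ne, Ideal.absNorm_eq_zero_iff]
    exact hB
  exact_mod_cast Nat.pos_of_ne_zero h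

theorem bk18_image (B : Ideal (𝓞 K)) (hB : B ≠ ⊥) (X : ℝ) :
    {I ∈ IdLe K X | B ∣ I} = (fun I => B * I) '' IdLe K (X / Ideal.absNorm B) := by
  have hN := bk18_norm_pos hB
  ext I
  constructor
  · rintro ⟨⟨h1, h2⟩, J, rfl⟩
    refine ⟨J, ⟨?_, ?_⟩, rfl⟩
    · rintro rfl
      exact h1 (by simp)
    · rw [le_div_iff₀ hN]
      rw [map_mul] at h2
      push_cast at h2
      linarith
  · rintro ⟨J, ⟨h1, h2⟩, rfl⟩
    refine ⟨⟨?_, ?_⟩, dvd_mul_right _ _⟩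
    · exact mul_ne_zero hB h1
    · rw [le_div_iff₀ hN] at h2
      simp only [map_mul]
      push_cast
      linarith

/-- a linear function bounded by a smaller power vanishes -/
theorem bk18_zero (c : ℂ) (C X₀ : ℝ) (d : ℕ) (hd : 0 < d)
    (h : ∀ X : ℝ, X₀ ≤ X → 1 ≤ X → ‖c * (X : ℂ)‖ ≤ C * X ^ (1 - 1 / (d : ℝ))) : c = 0 := by
  by_contra hc
  have hc' : 0 < ‖c‖ := norm_pos_iff.2 hc
  have hd' : (0 : ℝ) < 1 / (d : ℝ) := by positivity
  have h1 : ∀ X : ℝ, X₀ ≤ X → 1 ≤ X → X ^ (1 / (d : ℝ)) ≤ C / ‖c‖ := by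
    intro X hX0 hX
    have hXp : 0 < X := by linarith
    have h2 := h X hX0 hX
    have h3 : X ^ (1 - 1 / (d : ℝ)) * X ^ (1 / (d : ℝ)) = X := by
      rw [← Real.rpow_add hXp]
      simp
    have h4 : 0 < X ^ (1 - 1 / (d : ℝ)) := Real.rpow_pos_of_pos hXp _
    rw [norm_mul, Complex.norm_real, Real.norm_eq_abs, abs_of_pos hXp] at h2
    rw [le_div_iff₀ hc']
    have h5 : X ^ (1 - 1 / (d : ℝ)) * (X ^ (1 / (d : ℝ)) * ‖c‖) ≤ X ^ (1 - 1 / (d : ℝ)) * C := by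
      calc X ^ (1 - 1 / (d : ℝ)) * (X ^ (1 / (d : ℝ)) * ‖c‖)
          = (X ^ (1 - 1 / (d : ℝ)) * X ^ (1 / (d : ℝ))) * ‖c‖ := by ring
        _ = X * ‖c‖ := by rw [h3]
        _ ≤ X ^ (1 - 1 / (d : ℝ)) * C := by linarith
    exact le_of_mul_le_mul_left h5 h4
  have h2 := (tendsto_rpow_atTop hd').eventually (Filter.eventually_gt_atTop (C / ‖c‖))
  obtain ⟨X, ⟨h3, h4⟩, h5⟩ :=
    ((h2.and (Filter.eventually_ge_atTop X₀)).and (Filter.eventually_ge_atTop (1 : ℝ))).exists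
  exact absurd (h1 X h4 h5) (not_le.2 h3)

/-- the sums of a periodic function -/
theorem bk18_count (R : Finset (Ideal (𝓞 K))) (hR : Reps R) :
    ∃ C : ℝ, 0 ≤ C ∧ ∀ (M : Ideal (𝓞 K)), M ≠ ⊥ → ∀ F : Ideal (𝓞 K) → ℂ, (∀ I, ‖F I‖ ≤ 1) →
      (∀ J ∈ R, bk18Per J M F) → ∃ A : ℂ, ∀ (B : Ideal (𝓞 K)), B ≠ ⊥ → IsCoprime B M →
        ∀ X : ℝ, 1 ≤ X →
        ‖∑ᶠ I ∈ {I ∈ IdLe K X | B ∣ I}, F I - A * X / Ideal.absNorm B‖ ≤
          C * ((Ideal.absNorm B : ℝ) * Ideal.absNorm M) ^ (Module.finrank ℚ K + 1) *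
            X ^ (1 - 1 / (Module.finrank ℚ K : ℝ)) := by
  obtain ⟨C, hC, h⟩ := main_count K R hR
  refine ⟨2 * C, by linarith, fun M hM F hF hP => ?_⟩
  obtain ⟨A₁, h1⟩ := h M hM (fun I => (F I).re)
    (fun I => (Complex.abs_re_le_norm _).trans (hF I))
    (fun J hJ α β hα hβ hαJ hαβ _ => by
      show (F (cof J α)).re = (F (cof J β)).re
      rw [hP J hJ α β hα hβ hαJ hαβ])
  obtain ⟨A₂, h2⟩ := h M hM (fun I => (F I).im)
    (fun I => (Complex.abs_im_le_norm _).trans (hF I))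
    (fun J hJ α β hα hβ hαJ hαβ _ => by
      show (F (cof J α)).im = (F (cof J β)).im
      rw [hP J hJ α β hα hβ hαJ hαβ])
  refine ⟨⟨A₁, A₂⟩, fun B hB hBM X hX => ?_⟩
  have hfin : {I ∈ IdLe K X | B ∣ I}.Finite := (finite_IdLe K X).subset fun I h => h.1
  have e0 : (⟨A₁, A₂⟩ : ℂ) * (X : ℂ) / ((Ideal.absNorm B : ℕ) : ℂ) =
      ⟨A₁ * X / (Ideal.absNorm B : ℝ), A₂ * X / (Ideal.absNorm B : ℝ)⟩ := by
    have h0 : ((Ideal.absNorm B : ℕ) : ℂ) = (((Ideal.absNorm B : ℕ) : ℝ) : ℂ) := by push_cast; rfl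
    rw [h0, mul_div_assoc, ← Complex.ofReal_div]
    apply Complex.ext
    · rw [Complex.mul_re, Complex.ofReal_re, Complex.ofReal_im]
      simp only
      ring
    · rw [Complex.mul_im, Complex.ofReal_re, Complex.ofReal_im]
      simp only
      ring
  have e1 : (∑ᶠ I ∈ {I ∈ IdLe K X | B ∣ I}, F I).re =
      ∑ᶠ I ∈ {I ∈ IdLe K X | B ∣ I}, (F I).re :=
    Complex.reAddGroupHom.map_finsum_mem F hfin
  have e2 : (∑ᶠ I ∈ {I ∈ IdLe K X | B ∣ I}, F I).im =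
      ∑ᶠ I ∈ {I ∈ IdLe K X | B ∣ I}, (F I).im :=
    Complex.imAddGroupHom.map_finsum_mem F hfin
  have h3 := h1 B hB hBM X hX
  have h4 := h2 B hB hBM X hX
  have h5 := Complex.norm_le_abs_re_add_abs_im
    (∑ᶠ I ∈ {I ∈ IdLe K X | B ∣ I}, F I - (⟨A₁, A₂⟩ : ℂ) * X / Ideal.absNorm B)
  rw [Complex.sub_re, Complex.sub_im, e0, e1, e2] at h5
  rw [e0]
  refine h5.trans ((add_le_add h3 h4).trans (le_of_eq ?_))
  ring

/-- cancellation for completely multiplicative functions -/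
theorem bk18_vanish (R : Finset (Ideal (𝓞 K))) (hR : Reps R) :
    ∃ C : ℝ, 0 ≤ C ∧ ∀ (M : Ideal (𝓞 K)), M ≠ ⊥ → ∀ F : Ideal (𝓞 K) → ℂ, (∀ I, ‖F I‖ ≤ 1) →
      (∀ J ∈ R, bk18Per J M F) →
      (∀ I I' : Ideal (𝓞 K), I ≠ ⊥ → I' ≠ ⊥ → F (I * I') = F I * F I') →
      (∃ B : Ideal (𝓞 K), B ≠ ⊥ ∧ IsCoprime B M ∧ F B ≠ 1) → ∀ X : ℝ, 1 ≤ X →
        ‖∑ᶠ I ∈ IdLe K X, F I‖ ≤
          C * (Ideal.absNorm M : ℝ) ^ (Module.finrank ℚ K + 1) *
            X ^ (1 - 1 / (Module.finrank ℚ K : ℝ)) := by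
  obtain ⟨C, hC0, hC⟩ := bk18_count R hR
  refine ⟨C, hC0, ?_⟩
  intro M hM F hF hP hmul hBex X hX
  obtain ⟨B, hB, hBM, hFB⟩ := hBex
  obtain ⟨A, hA⟩ := hC M hM F hF hP
  have hN := bk18_norm_pos hB
  have hN1 : (1 : ℝ) ≤ Ideal.absNorm B := by
    have : 0 < Ideal.absNorm B := by exact_mod_cast hN
    exact_mod_cast this
  have htop : IsCoprime (⊤ : Ideal (𝓞 K)) M := by
    rw [Ideal.isCoprime_iff_sup_eq]
    simp
  have hset : ∀ Y : ℝ, {I ∈ IdLe K Y | (⊤ : Ideal (𝓞 K)) ∣ I} = IdLe K Y := by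
    intro Y
    ext I
    constructor
    · intro h
      exact h.1
    · intro h
      refine ⟨h, ?_⟩
      rw [← Ideal.one_eq_top]
      exact one_dvd I
  have hT : ∀ Y : ℝ, 1 ≤ Y → ‖∑ᶠ I ∈ IdLe K Y, F I - A * Y‖ ≤
      C * (Ideal.absNorm M : ℝ) ^ (Module.finrank ℚ K + 1) *
        Y ^ (1 - 1 / (Module.finrank ℚ K : ℝ)) := by
    intro Y hY
    have h := hA ⊤ top_ne_bot htop Y hY
    rw [hset] at h
    simpa using h
  have hd : 0 < Module.finrank ℚ K := Module.finrank_pos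
  have hexp : (0 : ℝ) ≤ 1 - 1 / (Module.finrank ℚ K : ℝ) := by
    have h1 : (1 : ℝ) ≤ Module.finrank ℚ K := by exact_mod_cast hd
    have h2 : 1 / (Module.finrank ℚ K : ℝ) ≤ 1 := by
      rw [div_le_one (by linarith)]
      exact h1
    linarith
  have hS : ∀ Y : ℝ, ∑ᶠ I ∈ {I ∈ IdLe K Y | B ∣ I}, F I =
      F B * ∑ᶠ I ∈ IdLe K (Y / Ideal.absNorm B), F I := by
    intro Y
    rw [bk18_image B hB, finsum_mem_image, mul_finsum_mem]
    · refine finsum_mem_congr rfl fun I hI => ?_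
      exact hmul B I hB hI.1
    · intro I _ I' _ h
      exact mul_left_cancel₀ hB h
  have hA0 : A = 0 := by
    have h1 : A * (1 - F B) / (Ideal.absNorm B : ℂ) = 0 := by
      refine bk18_zero _ (C * ((Ideal.absNorm B : ℝ) * Ideal.absNorm M) ^
        (Module.finrank ℚ K + 1) + C * (Ideal.absNorm M : ℝ) ^ (Module.finrank ℚ K + 1))
        (Ideal.absNorm B) (Module.finrank ℚ K) hd ?_
      intro Y hY0 hY
      have hY1 : 1 ≤ Y / Ideal.absNorm B := by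
        rw [le_div_iff₀ hN]
        linarith
      have h2 := hA B hB hBM Y hY
      have h3 := hT (Y / Ideal.absNorm B) hY1
      rw [hS] at h2
      have h4 : ‖F B * (∑ᶠ I ∈ IdLe K (Y / Ideal.absNorm B), F I -
          A * ((Y / Ideal.absNorm B : ℝ) : ℂ))‖ ≤
          C * (Ideal.absNorm M : ℝ) ^ (Module.finrank ℚ K + 1) *
            (Y / Ideal.absNorm B) ^ (1 - 1 / (Module.finrank ℚ K : ℝ)) := by
        rw [norm_mul]
        calc _ ≤ 1 * _ := mul_le_mul_of_nonneg_right (hF B) (norm_nonneg _)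
          _ ≤ _ := by rw [one_mul]; exact h3
      have h5 : (Y / Ideal.absNorm B) ^ (1 - 1 / (Module.finrank ℚ K : ℝ)) ≤
          Y ^ (1 - 1 / (Module.finrank ℚ K : ℝ)) := by
        refine Real.rpow_le_rpow (by positivity) ?_ hexp
        exact div_le_self (by linarith) hN1
      have h6 : C * (Ideal.absNorm M : ℝ) ^ (Module.finrank ℚ K + 1) *
            (Y / Ideal.absNorm B) ^ (1 - 1 / (Module.finrank ℚ K : ℝ)) ≤
          C * (Ideal.absNorm M : ℝ) ^ (Module.finrank ℚ K + 1) *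
            Y ^ (1 - 1 / (Module.finrank ℚ K : ℝ)) :=
        mul_le_mul_of_nonneg_left h5 (by positivity)
      have hNC : ((Ideal.absNorm B : ℕ) : ℂ) ≠ 0 := by exact_mod_cast hN.ne'
      have h7 : A * (1 - F B) / (Ideal.absNorm B : ℂ) * (Y : ℂ) =
          F B * (∑ᶠ I ∈ IdLe K (Y / Ideal.absNorm B), F I -
            A * ((Y / Ideal.absNorm B : ℝ) : ℂ)) -
          (F B * ∑ᶠ I ∈ IdLe K (Y / Ideal.absNorm B), F I -
            A * Y / (Ideal.absNorm B : ℂ)) := by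
        push_cast
        field_simp
        ring
      rw [h7]
      refine (norm_sub_le _ _).trans ?_
      have := add_le_add (h4.trans h6) h2
      rw [add_mul]
      linarith
    have hNC : ((Ideal.absNorm B : ℕ) : ℂ) ≠ 0 := by exact_mod_cast hN.ne'
    have h2 : A * (1 - F B) = 0 := by
      rcases div_eq_zero_iff.1 h1 with h | h
      · exact h
      · exact absurd h hNC
    rcases mul_eq_zero.1 h2 with h | h
    · exact h
    · exact absurd (sub_eq_zero.1 h).symm hFB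
  have h := hT X hX
  rw [hA0, zero_mul, sub_zero] at h
  exact h

end Pool.Agent.H92.EL
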