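import Pool.Agent.H92.EL.BKStm
import Pool.Agent.H92.EL.BK18_a
import Pool.Agent.H98.MF.NChi

/-!
# Project ELL (MP_a3214d), block B, BK18: the bound for ray class characters
-/

set_option autoImplicit false

open scoped BigOperators Pointwise NNReal nonZeroDivisors
open NumberField IsDedekindDomain

namespace Pool.Agent.H92.EL

open Pool.Agent.H98.MF (ord PrS PER cof sgnN CoP Reps reps_exist ord_quot IdLe finite_IdLe Pre preK
  idf idf_surj idf_add idf_injective idf_ne_bot absNorm_idf idf_le ord_idf MI nchi_idf_single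
  nchi_coprime nchi_norm_MI nchi_MI_ne)

variable {K : Type} [Field K] [NumberField K] {l : ℕ} [NeZero l]

theorem bk18_ec_add (a b : ZMod l) : ec (a + b) = ec a * ec b := by
  unfold ec
  exact AddChar.map_add_eq_mul _ a b

theorem bk18_ec_norm (a : ZMod l) : ‖ec a‖ = 1 := by
  unfold ec
  exact AddChar.norm_apply _ _

theorem bk18_ec_ne {a : ZMod l} (h : a ≠ 0) : ec a ≠ 1 := by
  unfold ec
  rw [← (ZMod.stdAddChar (N := l)).map_zero_eq_one]
  exact fun h' => h (ZMod.injective_stdAddChar h')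

theorem bk18_chc_add (T : Pre) (y : Finset T.P) (g : T.P → ZMod l) (f f' : T.P →₀ ℕ) :
    chc T y g (f + f') = chc T y g f * chc T y g f' := by
  classical
  have hd : Disjoint (f + f').support y ↔ Disjoint f.support y ∧ Disjoint f'.support y := by
    rw [Finset.disjoint_right, Finset.disjoint_right, Finset.disjoint_right, ← forall₂_and]
    refine forall₂_congr fun p _ => ?_
    rw [Finsupp.mem_support_iff, Finsupp.mem_support_iff, Finsupp.mem_support_iff,
      Finsupp.add_apply]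
    omega
  unfold chc
  by_cases h1 : Disjoint f.support y
  · by_cases h2 : Disjoint f'.support y
    · rw [if_pos (hd.2 ⟨h1, h2⟩), if_pos h1, if_pos h2, ← bk18_ec_add]
      congr 1
      exact Finsupp.sum_add_index' (fun p => by simp) fun p a b => by push_cast; ring
    · rw [if_neg fun h => h2 (hd.1 h).2, if_neg h2, mul_zero]
  · rw [if_neg fun h => h1 (hd.1 h).1, if_neg h1, zero_mul]

theorem bk18_chc_norm (T : Pre) (y : Finset T.P) (g : T.P → ZMod l) (f : T.P →₀ ℕ) :
    ‖chc T y g f‖ ≤ 1 := by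
  unfold chc
  split_ifs
  · rw [bk18_ec_norm]
  · rw [norm_zero]
    exact zero_le_one

open Classical in
/-- the function on ideals attached to `g` -/
noncomputable def bk18F (S : Finset (HeightOneSpectrum (𝓞 K))) (y : Finset (preK S).P)
    (g : (preK S).P → ZMod l) (I : Ideal (𝓞 K)) : ℂ :=
  if h : ∃ f, idf S f = I then chc (preK S) y g h.choose else 0

theorem bk18F_idf (S : Finset (HeightOneSpectrum (𝓞 K))) (y : Finset (preK S).P)
    (g : (preK S).P → ZMod l) (f : (preK S).P →₀ ℕ) :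
    bk18F S y g (idf S f) = chc (preK S) y g f := by
  have h : ∃ f', idf S f' = idf S f := ⟨f, rfl⟩
  unfold bk18F
  rw [dif_pos h, idf_injective S h.choose_spec]

theorem bk18F_zero (S : Finset (HeightOneSpectrum (𝓞 K))) (y : Finset (preK S).P)
    (g : (preK S).P → ZMod l) (I : Ideal (𝓞 K)) (h : ¬ ∃ f, idf S f = I) :
    bk18F S y g I = 0 := by
  unfold bk18F
  rw [dif_neg h]

theorem bk18F_norm (S : Finset (HeightOneSpectrum (𝓞 K))) (y : Finset (preK S).P)
    (g : (preK S).P → ZMod l) (I : Ideal (𝓞 K)) : ‖bk18F S y g I‖ ≤ 1 := by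
  by_cases h : ∃ f, idf S f = I
  · obtain ⟨f, rfl⟩ := h
    rw [bk18F_idf]
    exact bk18_chc_norm _ y g f
  · rw [bk18F_zero S y g I h, norm_zero]
    exact zero_le_one

theorem bk18F_mul (S : Finset (HeightOneSpectrum (𝓞 K))) (y : Finset (preK S).P)
    (g : (preK S).P → ZMod l) (I I' : Ideal (𝓞 K)) (hI : I ≠ ⊥) (hI' : I' ≠ ⊥) :
    bk18F S y g (I * I') = bk18F S y g I * bk18F S y g I' := by
  have hm : I * I' ≠ ⊥ := mul_ne_zero hI hI'
  by_cases h : ∃ f, idf S f = I
  · by_cases h' : ∃ f, idf S f = I'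
    · obtain ⟨f, rfl⟩ := h
      obtain ⟨f', rfl⟩ := h'
      rw [← idf_add, bk18F_idf, bk18F_idf, bk18F_idf, bk18_chc_add]
    · have h2 : ¬ ∃ f, idf S f = I * I' := by
        rw [idf_surj S _ hI'] at h'
        rw [idf_surj S _ hm]
        push Not at h' ⊢
        obtain ⟨Q, hQ, hQ'⟩ := h'
        exact ⟨Q, hQ, Ideal.mul_le_right.trans hQ'⟩
      rw [bk18F_zero S y g _ h', bk18F_zero S y g _ h2, mul_zero]
  · have h2 : ¬ ∃ f, idf S f = I * I' := by
      rw [idf_surj S _ hI] at h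
      rw [idf_surj S _ hm]
      push Not at h ⊢
      obtain ⟨Q, hQ, hQ'⟩ := h
      exact ⟨Q, hQ, Ideal.mul_le_left.trans hQ'⟩
    rw [bk18F_zero S y g _ h, bk18F_zero S y g _ h2, zero_mul]

theorem bk18F_single (S : Finset (HeightOneSpectrum (𝓞 K))) (y : Finset (preK S).P)
    (g : (preK S).P → ZMod l) (p : (preK S).P) (hp : p ∉ y) (hg : g p ≠ 0) :
    bk18F S y g (idf S (Finsupp.single p 1)) ≠ 1 := by
  rw [bk18F_idf]
  unfold chc
  rw [if_pos, Finsupp.sum_single_index]
  · rw [Nat.cast_one, one_mul]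
    exact bk18_ec_ne hg
  · simp
  · rw [Finset.disjoint_left]
    intro q hq
    have := Finsupp.support_single_subset hq
    rw [Finset.mem_singleton] at this
    rw [this]
    exact hp

theorem bk18_sum (S : Finset (HeightOneSpectrum (𝓞 K))) (y : Finset (preK S).P)
    (g : (preK S).P → ZMod l) (X : ℝ) :
    ∑ f ∈ (preK S).idl X, chc (preK S) y g f = ∑ᶠ I ∈ IdLe K X, bk18F S y g I := by
  classical
  have h1 : ∑ f ∈ (preK S).idl X, chc (preK S) y g f =
      ∑ᶠ I ∈ {I ∈ IdLe K X | ∀ Q ∈ S, ¬ I ≤ Q.asIdeal}, bk18F S y g I := by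
    rw [← finsum_mem_coe_finset]
    refine finsum_mem_eq_of_bijOn (idf S) ⟨?_, ?_, ?_⟩ fun f _ => (bk18F_idf S y g f).symm
    · intro f hf
      have hf' := (preK S).mem_idl.1 (Finset.mem_coe.1 hf)
      refine ⟨⟨idf_ne_bot S f, ?_⟩, (idf_surj S _ (idf_ne_bot S f)).1 ⟨f, rfl⟩⟩
      rw [absNorm_idf]
      exact hf'
    · exact (idf_injective S).injOn
    · rintro I ⟨⟨hI, hX⟩, hS⟩
      obtain ⟨f, rfl⟩ := (idf_surj S I hI).2 hS
      refine ⟨f, ?_, rfl⟩
      rw [Finset.mem_coe, Pre.mem_idl, ← absNorm_idf]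
      exact hX
  rw [h1]
  refine finsum_congr fun I => ?_
  by_cases h : ∃ f, idf S f = I
  · have hI : I ≠ ⊥ := by
      obtain ⟨f, rfl⟩ := h
      exact idf_ne_bot S f
    have h2 := (idf_surj S I hI).1 h
    by_cases h3 : I ∈ IdLe K X
    · rw [finsum_eq_if, finsum_eq_if, if_pos h3, if_pos ⟨h3, h2⟩]
    · rw [finsum_eq_if, finsum_eq_if, if_neg h3, if_neg fun h4 => h3 h4.1]
  · rw [bk18F_zero S y g I h]
    simp

private theorem bk18_cof (J : Ideal (𝓞 K)) (α : 𝓞 K) (hα : α ∈ J) :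
    Ideal.span {α} = cof J α * J := by
  have h : ∃ I : Ideal (𝓞 K), Ideal.span {α} = I * J := by
    have h1 : J ∣ Ideal.span {α} := by
      rw [Ideal.dvd_span_singleton]
      exact hα
    obtain ⟨I, hI⟩ := h1
    exact ⟨I, by rw [hI, mul_comm]⟩
  unfold cof
  rw [dif_pos h]
  exact h.choose_spec

private theorem bk18_le_iff {I J P : Ideal (𝓞 K)} (hJ : J ≠ ⊥) : I * J ≤ P * J ↔ I ≤ P := by
  rw [← Ideal.dvd_iff_le, ← Ideal.dvd_iff_le]
  exact mul_dvd_mul_iff_right hJ


theorem bk18_per (S : Finset (HeightOneSpectrum (𝓞 K))) (n : ℕ)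
    (y : Finset (preK S).P) (g : (preK S).P → ZMod l) (h : LocL l S n y g) (J : Ideal (𝓞 K))
    (hJ : J ≠ ⊥) (hJS : ∀ Q : HeightOneSpectrum (𝓞 K), Q ∉ S → ¬ J ≤ Q.asIdeal) :
    bk18Per J (MI S n y) (bk18F S y g) := by
  classical
  intro α β hα hβ hαJ hαβ
  have hα' : (α : K) ≠ 0 := by
    rw [Ne, FaithfulSMul.algebraMap_eq_zero_iff]
    exact hα
  have hβ' : (β : K) ≠ 0 := by
    rw [Ne, FaithfulSMul.algebraMap_eq_zero_iff]
    exact hβ
  have hβJ : β ∈ J := by
    have h0 : MI S n y * J ≤ J := Ideal.mul_le_right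
    have h1 : α - β ∈ J := h0 hαβ
    have h2 : α - (α - β) ∈ J := J.sub_mem hαJ h1
    rwa [sub_sub_cancel] at h2
  have hcα := bk18_cof J α hαJ
  have hcβ := bk18_cof J β hβJ
  have hneα : cof J α ≠ ⊥ := by
    intro h0
    rw [h0, Ideal.bot_mul] at hcα
    exact hα (Ideal.span_singleton_eq_bot.1 hcα)
  have hneβ : cof J β ≠ ⊥ := by
    intro h0
    rw [h0, Ideal.bot_mul] at hcβ
    exact hβ (Ideal.span_singleton_eq_bot.1 hcβ)
  -- the congruences at a prime dividing the modulus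
  have hcong : ∀ (Q : HeightOneSpectrum (𝓞 K)) (a : ℕ), 1 ≤ a →
      MI S n y ≤ Q.asIdeal ^ a →
      (cof J α ≤ Q.asIdeal ↔ cof J β ≤ Q.asIdeal) ∧
      (¬ cof J β ≤ Q.asIdeal →
        ((α : K) / (β : K) = 1 ∨ (a : ℤ) ≤ ord Q ((α : K) / (β : K) - 1))) := by
    intro Q a ha hM
    have h0 : MI S n y * J ≤ Q.asIdeal ^ a * J := Ideal.mul_mono_left hM
    have h1 := ord_quot Q a ha J hJ α β hα hβ hαJ (h0 hαβ)
    rw [hcα, hcβ, bk18_le_iff hJ, bk18_le_iff hJ] at h1
    exact h1
  have hMS : ∀ Q ∈ S, MI S n y ≤ Q.asIdeal ^ (n + 1) := by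
    intro Q hQ
    unfold MI
    refine Ideal.mul_le_left.trans ?_
    rw [← Ideal.dvd_iff_le]
    exact Finset.dvd_prod_of_mem (fun Q : HeightOneSpectrum (𝓞 K) => Q.asIdeal ^ (n + 1)) hQ
  have hMy : ∀ Q ∈ y, MI S n y ≤ Q.1.asIdeal ^ 1 := by
    intro Q hQ
    unfold MI
    rw [pow_one]
    refine Ideal.mul_le_right.trans ?_
    rw [← Ideal.dvd_iff_le]
    exact Finset.dvd_prod_of_mem (fun Q : (preK S).P => Q.1.asIdeal) hQ
  have hS1 : ∀ Q ∈ S, (cof J α ≤ Q.asIdeal ↔ cof J β ≤ Q.asIdeal) := fun Q hQ =>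
    (hcong Q (n + 1) (by omega) (hMS Q hQ)).1
  by_cases hA : ∀ Q ∈ S, ¬ cof J α ≤ Q.asIdeal
  · have hB : ∀ Q ∈ S, ¬ cof J β ≤ Q.asIdeal := fun Q hQ h0 => hA Q hQ ((hS1 Q hQ).2 h0)
    have hfα : ∃ f, idf S f = cof J α := (idf_surj S _ hneα).2 hA
    have hfβ : ∃ f, idf S f = cof J β := (idf_surj S _ hneβ).2 hB
    unfold bk18F
    rw [dif_pos hfα, dif_pos hfβ]
    obtain hf := hfα.choose_spec
    obtain hf' := hfβ.choose_spec
    generalize hfα.choose = f at hf
    generalize hfβ.choose = f' at hf'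
    have hyd : ∀ Q ∈ y, (Q ∈ f.support ↔ Q ∈ f'.support) := by
      intro Q hQ
      rw [← idf_le, ← idf_le, hf, hf']
      exact (hcong Q.1 1 le_rfl (hMy Q hQ)).1
    have hdisj : Disjoint f.support y ↔ Disjoint f'.support y := by
      rw [Finset.disjoint_right, Finset.disjoint_right]
      constructor
      · intro h1 Q hQ h2
        exact h1 hQ ((hyd Q hQ).2 h2)
      · intro h1 Q hQ h2
        exact h1 hQ ((hyd Q hQ).1 h2)
    unfold chc
    by_cases hd : Disjoint f.support y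
    · have hd' := hdisj.1 hd
      rw [if_pos hd, if_pos hd']
      have hloc := h ((α : K) / (β : K)) (div_ne_zero hα' hβ')
        (fun Q hQ => by
          rcases (hcong Q (n + 1) (by omega) (hMS Q hQ)).2 (hB Q hQ) with h1 | h1
          · exact Or.inl h1
          · right
            push_cast at h1
            linarith)
        (fun Q hQ => by
          have h0 : ¬ cof J β ≤ Q.1.asIdeal := by
            rw [← hf', idf_le]
            exact Finset.disjoint_right.1 hd' hQ
          rcases (hcong Q.1 1 le_rfl (hMy Q hQ)).2 h0 with h1 | h1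
          · exact Or.inl h1
          · right
            exact_mod_cast h1)
      have hord : ∀ Q : (preK S).P, ord Q.1 ((α : K) / (β : K)) = (f Q : ℤ) - (f' Q : ℤ) := by
        intro Q
        rw [Pool.Agent.H98.MF.B.ord_div Q.1 hα' hβ', ord_idf S f J hJ hJS α (by rw [hf]; exact hcα) Q,
          ord_idf S f' J hJ hJS β (by rw [hf']; exact hcβ) Q]
      have hterm : ∀ Q : (preK S).P,
          ((if Q ∈ y then 0 else ord Q.1 ((α : K) / (β : K)) : ℤ) : ZMod l) * g Q =
            (f Q : ZMod l) * g Q - (f' Q : ZMod l) * g Q := by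
        intro Q
        by_cases hQ : Q ∈ y
        · have h1 : f Q = 0 := Finsupp.notMem_support_iff.1 (Finset.disjoint_right.1 hd hQ)
          have h2 : f' Q = 0 := Finsupp.notMem_support_iff.1 (Finset.disjoint_right.1 hd' hQ)
          rw [if_pos hQ, h1, h2]
          simp
        · rw [if_neg hQ, hord]
          push_cast
          ring
      have hsum : ∑ᶠ Q : (preK S).P,
          ((if Q ∈ y then 0 else ord Q.1 ((α : K) / (β : K)) : ℤ) : ZMod l) * g Q =
            ∑ Q ∈ f.support ∪ f'.support, ((f Q : ZMod l) * g Q - (f' Q : ZMod l) * g Q) := by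
        rw [finsum_eq_sum_of_support_subset (s := f.support ∪ f'.support)]
        · exact Finset.sum_congr rfl fun Q _ => hterm Q
        · intro Q hQ
          rw [Function.mem_support, hterm] at hQ
          by_contra hcon
          rw [Finset.mem_coe, Finset.mem_union, not_or] at hcon
          apply hQ
          rw [Finsupp.notMem_support_iff.1 hcon.1, Finsupp.notMem_support_iff.1 hcon.2]
          simp
      rw [hsum, Finset.sum_sub_distrib, sub_eq_zero] at hloc
      have h1 : f.sum (fun p m => (m : ZMod l) * g p) =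
          ∑ Q ∈ f.support ∪ f'.support, (f Q : ZMod l) * g Q :=
        Finsupp.sum_of_support_subset f Finset.subset_union_left _ (by simp)
      have h2 : f'.sum (fun p m => (m : ZMod l) * g p) =
          ∑ Q ∈ f.support ∪ f'.support, (f' Q : ZMod l) * g Q :=
        Finsupp.sum_of_support_subset f' Finset.subset_union_right _ (by simp)
      rw [h1, h2, hloc]
    · rw [if_neg hd, if_neg (fun h0 => hd (hdisj.2 h0))]
  · have hB : ¬ ∀ Q ∈ S, ¬ cof J β ≤ Q.asIdeal := by
      intro h0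
      exact hA fun Q hQ h1 => h0 Q hQ ((hS1 Q hQ).1 h1)
    unfold bk18F
    rw [dif_neg (fun h0 => hA ((idf_surj S _ hneα).1 h0)),
      dif_neg (fun h0 => hB ((idf_surj S _ hneβ).1 h0))]

/-- BK18: the bound for ray class characters -/
theorem sk18 : SK18 := by
  intro l _ K _ _ S hS n
  obtain ⟨R, hR, hRS⟩ := reps_exist K S hS
  obtain ⟨C, hC, h⟩ := bk18_vanish R hR
  refine ⟨C * (Ideal.absNorm (∏ Q ∈ S, Q.asIdeal ^ (n + 1)) : ℝ) ^ (Module.finrank ℚ K + 1),
    ((Module.finrank ℚ K + 1 : ℕ) : ℝ), mul_nonneg hC (pow_nonneg (Nat.cast_nonneg _) _),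
    Nat.cast_nonneg _, ?_⟩
  intro y g hL hp X hX
  obtain ⟨p, hp, hg⟩ := hp
  rw [bk18_sum]
  have h1 := h (MI S n y) (nchi_MI_ne S n y) (bk18F S y g) (bk18F_norm S y g)
    (fun J hJ => bk18_per S n y g hL J (hR.1 J hJ) (hRS J hJ))
    (fun I I' hI hI' => bk18F_mul S y g I I' hI hI') ?_ X hX
  · refine h1.trans (le_of_eq ?_)
    rw [nchi_norm_MI, Nat.cast_mul, mul_pow, Real.rpow_natCast]
    ring
  · refine ⟨idf S (Finsupp.single p 1), idf_ne_bot S _, ?_, bk18F_single S y g p hp hg⟩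
    rw [nchi_idf_single]
    unfold MI
    refine IsCoprime.mul_right (IsCoprime.prod_right fun Q hQ => IsCoprime.pow_right ?_)
      (IsCoprime.prod_right fun Q hQ => ?_)
    · exact nchi_coprime _ _ fun h2 => p.2 (h2 ▸ hQ)
    · exact nchi_coprime _ _ fun h2 => hp (by rw [Subtype.ext h2]; exact hQ)

end Pool.Agent.H92.EL
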