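import Pool.Agent.H92.EL.BKStm
import Pool.Agent.H92.EL.Mem
import Pool.Agent.H92.EL.Wk
import Pool.Agent.H92.EL.Lg
import Pool.Agent.H98.MF.C.Bas

/-!
# Project ELL (MP_a3214d), block B, row BK19: cancellation over the primes
-/

set_option autoImplicit false

open scoped BigOperators
open NumberField IsDedekindDomain

namespace Pool.Agent.H92.EL

open Pool.Agent.H98.MF (Om Gm ord Dec US PrS mS nrm gen cj Pre preK)

section

variable {l : ℕ} [hl : Fact l.Prime] {K : Type} [Field K] [NumberField K] {z : K}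

/-- the residue symbol of a power -/
theorem bk19_pow (hz : IsPrimitiveRoot z l) (P : HeightOneSpectrum (𝓞 K))
    (hP : ord P (l : K) = 0) (a : Kˣ) (ha : ord P (a : K) = 0) (n : ℕ) :
    ord P ((a ^ n : Kˣ) : K) = 0 ∧ lgs l z P ((a ^ n : Kˣ) : K) = n * lgs l z P (a : K) := by
  obtain ⟨-, hmul, -, -⟩ := slg l hl.out K z hz P hP
  have h1 : ∀ m : ℕ, ord P ((a ^ m : Kˣ) : K) = 0 := fun m => by
    rw [Units.val_pow_eq_pow_val, Pool.Agent.H98.MF.B.ord_pow, ha, mul_zero]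
  refine ⟨h1 n, ?_⟩
  induction n with
  | zero =>
    have h2 := hmul 1 1 (by rw [Units.val_one, Pool.Agent.H98.MF.B.ord_one])
      (by rw [Units.val_one, Pool.Agent.H98.MF.B.ord_one])
    rw [mul_one] at h2
    rw [pow_zero, Nat.cast_zero, zero_mul]
    exact left_eq_add.1 h2
  | succ n ih =>
    rw [pow_succ, hmul _ _ (h1 n) ha, ih, Nat.cast_succ, add_mul, one_mul]

/-- the residue symbol of a product -/
theorem bk19_prod (hz : IsPrimitiveRoot z l) (P : HeightOneSpectrum (𝓞 K))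
    (hP : ord P (l : K) = 0) {ι : Type} (s : Finset ι) (f : ι → Kˣ)
    (hf : ∀ i, ord P (f i : K) = 0) :
    ord P ((∏ i ∈ s, f i : Kˣ) : K) = 0 ∧
      lgs l z P ((∏ i ∈ s, f i : Kˣ) : K) = ∑ i ∈ s, lgs l z P (f i : K) := by
  classical
  obtain ⟨-, hmul, -, -⟩ := slg l hl.out K z hz P hP
  induction s using Finset.induction_on with
  | empty =>
    have h := bk19_pow hz P hP 1 (by rw [Units.val_one, Pool.Agent.H98.MF.B.ord_one]) 0
    rw [pow_zero, Nat.cast_zero, zero_mul] at h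
    rw [Finset.prod_empty, Finset.sum_empty]
    exact h
  | insert i s hi ih =>
    rw [Finset.prod_insert hi, Finset.sum_insert hi, hmul _ _ (hf i) ih.1, ih.2]
    refine ⟨?_, rfl⟩
    rw [Units.val_mul, Pool.Agent.H98.MF.B.ord_mul _ (Units.ne_zero _) (Units.ne_zero _), hf i,
      ih.1, add_zero]

variable (G : GSy l K z)

theorem bk19_skew (P : HeightOneSpectrum (𝓞 K)) (a b : Kˣ) : G.hs P a b = - G.hs P b a := by
  have h := G.alt P (a * b)
  rw [G.mulL, G.mulR, G.mulR, G.alt, G.alt, zero_add, add_zero] at h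
  exact eq_neg_of_add_eq_zero_left h

/-- the functional of an element -/
noncomputable def bk19_psi (S : Finset (HeightOneSpectrum (𝓞 K))) (γ : Kˣ) :
    Kˣ →* Multiplicative (ZMod l) :=
  MonoidHom.mk' (fun x => Multiplicative.ofAdd (∑ P ∈ S, G.hs P γ x)) (fun x y => by
    rw [← ofAdd_add, ← Finset.sum_add_distrib]
    congr 1
    exact Finset.sum_congr rfl fun P _ => G.mulR P γ x y)

theorem bk19_vl (S : Finset (HeightOneSpectrum (𝓞 K))) (γ x : Kˣ) :
    vl l (bk19_psi G S γ) x = ∑ P ∈ S, G.hs P γ x := rfl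

theorem bk19_fnl (S : Finset (HeightOneSpectrum (𝓞 K))) (hS : AdmL l S) (γ : Kˣ)
    (hγ : γ ∈ US S) : FnL l S (bk19_psi G S γ) := by
  refine ⟨fun a ha => ?_, fun a ha => ?_⟩
  · have h := G.prd S hS.mem γ hγ a ha
    show Multiplicative.ofAdd (∑ P ∈ S, G.hs P γ a) = 1
    rw [h]
    rfl
  · have h : ∑ P ∈ S, G.hs P γ a = 0 := by
      refine Finset.sum_eq_zero fun P hP => ?_
      unfold KW at ha
      rw [Subgroup.mem_iInf] at ha
      have h1 := ha P
      rw [Subgroup.mem_iInf] at h1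
      have h2 := (smem l hl.out K P a).1 (h1 hP)
      rw [bk19_skew, (G.nd P a).2 h2, neg_zero]
    show Multiplicative.ofAdd (∑ P ∈ S, G.hs P γ a) = 1
    rw [h]
    rfl

theorem bk19_ne (hG : GlF G) (S : Finset (HeightOneSpectrum (𝓞 K))) (hS : AdmL l S) (γ : Kˣ)
    (hγ : γ ∈ US S) (hγ2 : γ ∉ pw l (⊤ : Subgroup Kˣ)) : bk19_psi G S γ ≠ 1 := by
  classical
  intro h
  apply hγ2
  have h0 : ∀ x, ∑ P ∈ S, G.hs P γ x = 0 := fun x => by
    have h1 := DFunLike.congr_fun h x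
    exact congrArg Multiplicative.toAdd h1
  have h1 : γ ∈ KW l S := by
    unfold KW
    rw [Subgroup.mem_iInf]
    intro P
    rw [Subgroup.mem_iInf]
    intro hP
    rw [smem l hl.out K P γ, ← G.nd P γ]
    intro b
    obtain ⟨x, hx⟩ := swk l hl.out K S (fun Q => if Q = P then b else 1)
    have h2 : ∀ Q ∈ S, G.hs Q γ x = if Q = P then G.hs P γ b else 0 := by
      intro Q hQ
      have h3 := (smem l hl.out K Q _).1 (hx Q hQ)
      have h4 := (G.nd Q _).2 h3
      have h5 : G.hs Q γ x = G.hs Q γ (if Q = P then b else 1) := by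
        have h6 : x = x / (if Q = P then b else 1) * (if Q = P then b else 1) :=
          (div_mul_cancel _ _).symm
        conv_lhs => rw [h6]
        rw [G.mulR, bk19_skew, h4, neg_zero, zero_add]
      rw [h5]
      split_ifs with h7
      · rw [h7]
      · have h8 := G.mulR Q γ 1 1
        rw [mul_one] at h8
        exact left_eq_add.1 h8
    have h9 := h0 x
    rw [Finset.sum_congr rfl h2, Finset.sum_ite_eq' S P, if_pos hP] at h9
    exact h9
  obtain ⟨y, -, hy⟩ := hG.inj S hS γ hγ h1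
  exact ⟨y, Subgroup.mem_top y, hy⟩

/-- the value at the generator of a prime -/
theorem bk19_gen (S : Finset (HeightOneSpectrum (𝓞 K)))
    (hS : AdmL l S) (γ : Kˣ) (hγ : γ ∈ US S) (Q : HeightOneSpectrum (𝓞 K)) (hQ : Q ∉ S) :
    vl l (bk19_psi G S γ) (gen S Q) = - (G.cc Q * lgs l z Q (γ : K)) := by
  classical
  have hl0 : ord Q (l : K) = 0 := by
    have h1 := wk_ord_nat Q l
    have h2 : ¬ 0 < ord Q (l : K) := fun h => hQ (hS.mem Q h)
    omega
  obtain ⟨hg1, hg2⟩ := Pool.Agent.H98.MF.B.gen_spec hS.prS hQ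
  have hsub : S ⊆ insert Q S := Finset.subset_insert _ _
  have hγ' : γ ∈ US (insert Q S) := Pool.Agent.H98.MF.B.US_mono hsub hγ
  have hg' : gen S Q ∈ US (insert Q S) := by
    rw [Pool.Agent.H98.MF.B.mem_US]
    intro R hR
    rw [Finset.mem_insert, not_or] at hR
    exact hg2 R hR.2 hR.1
  have h1 := G.prd (insert Q S) (fun P hP => hsub (hS.mem P hP)) γ hγ' (gen S Q) hg'
  rw [Finset.sum_insert hQ] at h1
  have h2 := G.unit Q γ (gen S Q) hl0 (Pool.Agent.H98.MF.B.mem_US.1 hγ Q hQ)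
  rw [hg1, Int.cast_one, one_mul] at h2
  rw [bk19_vl, ← h2]
  exact eq_neg_of_add_eq_zero_right h1

end

theorem sk19 : SK19 := by
  classical
  intro l hl k K _ _ _ _ _ z hz G hG S hS F c hc
  have hu : ∀ Q ∉ S, ∀ j, ord Q (F.u j : K) = 0 := fun Q hQ j =>
    Pool.Agent.H98.MF.B.mem_US.1 (F.u_mem j) Q hQ
  set γ : Kˣ := ∏ j, F.u j ^ (-c j).val with hγd
  have hγ : γ ∈ US S := Subgroup.prod_mem _ fun j _ => Subgroup.pow_mem _ (F.u_mem j) _
  have hγ2 : γ ∉ pw l (⊤ : Subgroup Kˣ) := by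
    intro h
    apply hc
    have h1 := F.u_ind (fun j => -c j) h
    funext j
    have h2 : -c j = 0 := congrFun h1 j
    show c j = 0
    exact neg_eq_zero.1 h2
  obtain ⟨C, hC⟩ := hG.prm S hS _ (bk19_fnl G S hS γ hγ) (bk19_ne G hG S hS γ hγ hγ2)
  refine ⟨C, fun s h1 h2 => ?_⟩
  have h3 := hC s h1 h2
  have h4 : ∀ Q : {Q : HeightOneSpectrum (𝓞 K) // Q ∉ S},
      vl l (bk19_psi G S γ) (gen S Q.1) = c ⬝ᵥ F.ty Q := by
    intro Q
    have hl0 : ord Q.1 (l : K) = 0 := by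
      have h5 := wk_ord_nat Q.1 l
      have h6 : ¬ 0 < ord Q.1 (l : K) := fun h => Q.2 (hS.mem Q.1 h)
      omega
    rw [bk19_gen G S hS γ hγ Q.1 Q.2, hγd]
    have h7 : ∀ j, ord Q.1 ((F.u j ^ (-c j).val : Kˣ) : K) = 0 := fun j =>
      (bk19_pow hz Q.1 hl0 (F.u j) (hu Q.1 Q.2 j) _).1
    rw [(bk19_prod hz Q.1 hl0 Finset.univ (fun j => F.u j ^ (-c j).val) h7).2]
    unfold dotProduct
    rw [Finset.mul_sum, ← Finset.sum_neg_distrib]
    refine Finset.sum_congr rfl fun j _ => ?_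
    rw [(bk19_pow hz Q.1 hl0 (F.u j) (hu Q.1 Q.2 j) _).2, ZMod.natCast_zmod_val]
    show -(G.cc Q.1 * (-c j * lgs l z Q.1 (F.u j : K))) =
      c j * (G.cc Q.1 * lgs l z Q.1 (F.u j : K))
    ring
  simp only [h4] at h3
  exact h3

end Pool.Agent.H92.EL
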