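import Pool.Agent.H92.EL.BKStm
import Pool.Agent.H92.EL.Lg

/-!
# Project ELL (MP_a3214d), block B, row BK2: power residue symbols and the action
-/

set_option autoImplicit false

open scoped BigOperators
open NumberField IsDedekindDomain

namespace Pool.Agent.H92.EL

open Pool.Agent.H98.MF (Om Gm ord Dec US PrS mS nrm gen cj Pre preK ord_cj qxR)

section

variable {k K : Type} [Field k] [NumberField k] [Field K] [NumberField K] [Algebra k K]

/-- exponents and the action -/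
theorem bk2_ord (δ : K ≃ₐ[k] K) (P : HeightOneSpectrum (𝓞 K)) (a : K) :
    ord (dP δ P) (δ a) = ord P a := by
  unfold dP
  rw [ord_cj, AlgEquiv.symm_apply_apply]

omit [NumberField k] in
/-- norms and the action -/
theorem bk2_nrm (δ : K ≃ₐ[k] K) (P : HeightOneSpectrum (𝓞 K)) : nrm (dP δ P) = nrm P := by
  unfold nrm
  rw [Ideal.absNorm_apply, Ideal.absNorm_apply, Submodule.cardQuot_apply,
    Submodule.cardQuot_apply]
  have h1 : P.asIdeal = Ideal.map ((qxR δ.symm : 𝓞 K ≃+* 𝓞 K) : 𝓞 K →+* 𝓞 K)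
      (dP δ P).asIdeal := by
    show P.asIdeal = Ideal.map ((qxR δ.symm : 𝓞 K ≃+* 𝓞 K) : 𝓞 K →+* 𝓞 K)
      (P.asIdeal.comap (qxR δ.symm))
    exact (Ideal.map_comap_of_surjective ((qxR δ.symm : 𝓞 K ≃+* 𝓞 K) : 𝓞 K →+* 𝓞 K)
      (qxR δ.symm).surjective P.asIdeal).symm
  exact Nat.card_congr (Ideal.quotientEquiv (dP δ P).asIdeal P.asIdeal (qxR δ.symm) h1).toEquiv

/-- BK2: the action and the power residue symbol -/
theorem sk2 : SK2 := by
  intro l hl k K _ _ _ _ _ z hz δ P a hP ha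
  have hl0 : NeZero l := ⟨hl.out.ne_zero⟩
  obtain ⟨h1, -, -, -⟩ := slg l hl.out K z hz P hP
  have hP' : ord (dP δ P) (l : K) = 0 := by
    have h2 := bk2_ord δ P (l : K)
    rw [map_natCast, hP] at h2
    exact h2
  have ha' : ord (dP δ P) ((uD δ a : Kˣ) : K) = 0 := by
    rw [uD_val, bk2_ord, ha]
  obtain ⟨h2, -, -, -⟩ := slg l hl.out K z hz (dP δ P) hP'
  rw [h2 (uD δ a) ha', uD_val, bk2_nrm]
  have h3 := (h1 a ha (lgs l z P (a : K))).1 rfl
  -- the root of unity
  have h4 : δ (z ^ (lgs l z P (a : K)).val) =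
      z ^ ((cyK k hz δ : ZMod l) * lgs l z P (a : K)).val := by
    have h5 : z ^ ((cyK k hz δ : (ZMod l)ˣ) : ZMod l).val = δ z :=
      hz.autToPow_spec k δ
    rw [map_pow, ← h5, ← pow_mul, ZMod.val_mul, ← pow_eq_pow_mod _ hz.pow_eq_one]
  rcases h3 with h3 | h3
  · left
    rw [← map_pow, h3, h4]
  · right
    rw [← map_pow, ← h4, ← map_sub, bk2_ord]
    exact h3

end

end Pool.Agent.H92.EL
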