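import Pool.Agent.H92.EL.BKStm
import Pool.Agent.H98.MF.NSplA

/-!
# Project ELL (MP_a3214d), block B, row BK20: primes fixed by an automorphism
-/

set_option autoImplicit false

open scoped BigOperators Pointwise
open NumberField IsDedekindDomain

namespace Pool.Agent.H92.EL

open Pool.Agent.H98.MF (Om Gm ord Dec US PrS mS nrm gen cj Pre preK qxR qxR_coe mem_cj
  summable_nrm le_ord_iff two_le_absNorm)

/-! ### roots of unity modulo a prime -/

private theorem bk20_root {R : Type} [CommRing R] [IsDomain R] (I : Ideal R) {l : ℕ} {a b : R}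
    (ha : a ^ l = 1) (hb : b ^ l = 1) (hne : a ≠ b) (h : a - b ∈ I) (hl : 0 < l) :
    (l : R) ∈ I := by
  have h1 : (∑ i ∈ Finset.range l, a ^ i * b ^ (l - 1 - i)) * (a - b) = 0 := by
    rw [(Commute.all a b).geom_sum₂_mul, ha, hb, sub_self]
  have h2 : (∑ i ∈ Finset.range l, a ^ i * b ^ (l - 1 - i)) = 0 := by
    rcases mul_eq_zero.1 h1 with h | h
    · exact h
    · exact absurd (sub_eq_zero.1 h) hne
  have h3 : Ideal.Quotient.mk I a = Ideal.Quotient.mk I b := Ideal.Quotient.eq.2 h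
  have h4 := congrArg (Ideal.Quotient.mk I) h2
  rw [map_sum, map_zero] at h4
  simp only [map_mul, map_pow, h3] at h4
  have h5 : ∀ i ∈ Finset.range l, (Ideal.Quotient.mk I b) ^ i *
      (Ideal.Quotient.mk I b) ^ (l - 1 - i) = (Ideal.Quotient.mk I b) ^ (l - 1) := by
    intro i hi
    have hi' := Finset.mem_range.1 hi
    rw [← pow_add]
    congr 1
    omega
  rw [Finset.sum_congr rfl h5, Finset.sum_const, Finset.card_range, nsmul_eq_mul] at h4
  have h6 : Ideal.Quotient.mk I (l : R) = 0 := by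
    have h7 : (l : R ⧸ I) * (Ideal.Quotient.mk I b) ^ (l - 1) * Ideal.Quotient.mk I b = 0 := by
      rw [h4, zero_mul]
    rw [mul_assoc, ← pow_succ, Nat.sub_add_cancel hl, ← map_pow, hb, map_one, mul_one] at h7
    rw [map_natCast]
    exact h7
  exact Ideal.Quotient.eq_zero_iff_mem.1 h6

section

variable {K : Type} [Field K] [NumberField K] (L : Type) [Field L] [NumberField L] [Algebra K L]

/-! ### the number of primes above a prime -/

private theorem bk20_image (P : HeightOneSpectrum (𝓞 K)) :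
    (fun Q : HeightOneSpectrum (𝓞 L) => Q.asIdeal) '' {Q : HeightOneSpectrum (𝓞 L) | OvP P Q} =
    P.asIdeal.primesOver (𝓞 L) := by
  ext Q
  constructor
  · rintro ⟨Q, hQ, rfl⟩
    exact ⟨Q.isPrime, ⟨hQ.symm⟩⟩
  · rintro ⟨h1, h2⟩
    have h3 : Q ≠ ⊥ := by
      rintro rfl
      have h4 : P.asIdeal = Ideal.comap (algebraMap (𝓞 K) (𝓞 L)) ⊥ := h2.over
      rw [← RingHom.ker_eq_comap_bot] at h4
      rw [(RingHom.injective_iff_ker_eq_bot _).mp
        (FaithfulSMul.algebraMap_injective (𝓞 K) (𝓞 L))] at h4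
      exact P.ne_bot h4
    exact ⟨⟨Q, h1, h3⟩, h2.over.symm, rfl⟩

private theorem bk20_ncard (P : HeightOneSpectrum (𝓞 K)) :
    Nat.card {Q : HeightOneSpectrum (𝓞 L) // OvP P Q} = (P.asIdeal.primesOver (𝓞 L)).ncard := by
  rw [← bk20_image L P, Set.ncard_image_of_injective _ (fun P P' h => HeightOneSpectrum.ext h),
    ← Nat.card_coe_set_eq]
  rfl

private theorem bk20_fin (P : HeightOneSpectrum (𝓞 K)) :
    {Q : HeightOneSpectrum (𝓞 L) | OvP P Q}.Finite := by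
  have := P.isPrime
  refine Set.Finite.of_finite_image (f := fun P => P.asIdeal) ?_
      (fun P _ P' _ h => HeightOneSpectrum.ext h)
  rw [bk20_image L P]
  exact Algebra.QuasiFinite.finite_primesOver _

private theorem bk20_gal [IsGalois K L] (P : HeightOneSpectrum (𝓞 K))
    (Q : HeightOneSpectrum (𝓞 L)) (h : OvP P Q) :
    Nat.card {Q : HeightOneSpectrum (𝓞 L) // OvP P Q} *
      (Q.asIdeal.ramificationIdx (𝓞 K) * Q.asIdeal.inertiaDeg (𝓞 K)) = Module.finrank K L := by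
  have h1 := P.isPrime
  have h2 := Q.isPrime
  have h3 : Q.asIdeal.LiesOver P.asIdeal := ⟨h.symm⟩
  have hG : IsGaloisGroup Gal(L/K) (𝓞 K) (𝓞 L) := IsGaloisGroup.of_isFractionRing _ _ _ K L
  rw [bk20_ncard]
  have h4 := Ideal.ncard_primesOver_mul_ramificationIdxIn_mul_inertiaDegIn P.asIdeal (𝓞 L)
    Gal(L/K)
  rw [Ideal.ramificationIdxIn_eq_ramificationIdx P.asIdeal Q.asIdeal Gal(L/K),
    Ideal.inertiaDegIn_eq_inertiaDeg P.asIdeal Q.asIdeal Gal(L/K)] at h4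
  rw [h4, IsGalois.card_aut_eq_finrank]

private theorem bk20_card_le [IsGalois K L] (P : HeightOneSpectrum (𝓞 K))
    (Q : HeightOneSpectrum (𝓞 L)) (h : OvP P Q) :
    Nat.card {Q : HeightOneSpectrum (𝓞 L) // OvP P Q} ≤ Module.finrank K L := by
  have h1 := bk20_gal L P Q h
  have h2 : 0 < Module.finrank K L := Module.finrank_pos
  have h3 : Q.asIdeal.ramificationIdx (𝓞 K) * Q.asIdeal.inertiaDeg (𝓞 K) ≠ 0 := by
    intro h0
    rw [h0, mul_zero] at h1
    omega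
  calc Nat.card {Q : HeightOneSpectrum (𝓞 L) // OvP P Q}
      ≤ Nat.card {Q : HeightOneSpectrum (𝓞 L) // OvP P Q} *
        (Q.asIdeal.ramificationIdx (𝓞 K) * Q.asIdeal.inertiaDeg (𝓞 K)) :=
        Nat.le_mul_of_pos_right _ (Nat.pos_of_ne_zero h3)
    _ = Module.finrank K L := h1

private theorem bk20_nrm (P : HeightOneSpectrum (𝓞 K))
    (Q : HeightOneSpectrum (𝓞 L)) (h : OvP P Q) :
    nrm Q = nrm P ^ (Q.asIdeal.inertiaDeg (𝓞 K)) := by
  have h1 := P.isPrime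
  have h2 := Q.isPrime
  have h3 : Q.asIdeal.LiesOver P.asIdeal := ⟨h.symm⟩
  exact (Ideal.absNorm_pow_inertiaDeg P.asIdeal Q.asIdeal).symm

private theorem bk20_card (Q : HeightOneSpectrum (𝓞 K)) : nrm Q = Nat.card (𝓞 K ⧸ Q.asIdeal) := by
  rw [nrm, Ideal.absNorm_apply, Submodule.cardQuot_apply]

/-- if the norms are equal, then every integer of `L` is congruent to an integer of `K` -/
private theorem bk20_surj (P : HeightOneSpectrum (𝓞 K)) (Q : HeightOneSpectrum (𝓞 L))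
    (h : OvP P Q) (hn : nrm Q = nrm P) (x : 𝓞 L) :
    ∃ y : 𝓞 K, x - algebraMap (𝓞 K) (𝓞 L) y ∈ Q.asIdeal := by
  let φ : 𝓞 K ⧸ P.asIdeal →+* 𝓞 L ⧸ Q.asIdeal :=
    Ideal.quotientMap Q.asIdeal (algebraMap (𝓞 K) (𝓞 L)) (le_of_eq h.symm)
  have hinj : Function.Injective φ := Ideal.quotientMap_injective' (le_of_eq h)
  have hne : Nat.card (𝓞 L ⧸ Q.asIdeal) ≠ 0 := by
    rw [← bk20_card, nrm]
    have := two_le_absNorm Q
    omega
  have hfin : Finite (𝓞 L ⧸ Q.asIdeal) := Nat.finite_of_card_ne_zero hne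
  have hbij : Function.Bijective φ := by
    refine Function.Injective.bijective_of_nat_card_le hinj ?_
    rw [← bk20_card, ← bk20_card, hn]
  obtain ⟨t, ht⟩ := hbij.2 (Ideal.Quotient.mk Q.asIdeal x)
  obtain ⟨y, rfl⟩ := Ideal.Quotient.mk_surjective t
  refine ⟨y, ?_⟩
  rw [← Ideal.Quotient.eq, ← ht]
  exact Ideal.quotientMap_mk

end

/-! ### the degree -/

private theorem bk20_deg {l : ℕ} [Fact l.Prime] {k K : Type} [Field k] [NumberField k]
    [Field K] [NumberField K] [Algebra k K] {z : K} (hz : IsPrimitiveRoot z l) (hC : Cyl k hz)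
    {S : Finset (HeightOneSpectrum (𝓞 K))} (hS : AdmL l S) (Q : HeightOneSpectrum (𝓞 K))
    (hQ : Q ∉ S) (δ : K ≃ₐ[k] K) (hδ : δ ≠ 1) (hd : dP δ Q = Q) :
    nrm (Q.under (𝓞 k)) ^ 2 ≤ nrm Q := by
  have hl : l.Prime := Fact.out
  have hov : OvP (Q.under (𝓞 k)) Q := rfl
  have h1 := bk20_nrm K (Q.under (𝓞 k)) Q hov
  have h2 : 2 ≤ nrm Q := two_le_absNorm Q
  have h3 : 2 ≤ nrm (Q.under (𝓞 k)) := two_le_absNorm _
  set f := Q.asIdeal.inertiaDeg (𝓞 k) with hf
  by_cases hf2 : 2 ≤ f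
  · rw [h1]
    exact Nat.pow_le_pow_right (by omega) hf2
  exfalso
  have hf1 : f = 1 := by
    have : f ≠ 0 := by
      intro h0
      rw [h0, pow_zero] at h1
      omega
    omega
  rw [hf1, pow_one] at h1
  -- the integer of the root of unity
  set ζ : 𝓞 K := hz.toInteger with hζ
  have hζz : (ζ : K) = z := hz.coe_toInteger
  have hζl : ζ ^ l = 1 := hz.toInteger_isPrimitiveRoot.pow_eq_one
  have hmem : ∀ x : 𝓞 K, x ∈ Q.asIdeal → qxR δ x ∈ Q.asIdeal := by
    intro x hx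
    have e1 : qxR δ x ∈ (dP δ Q).asIdeal ↔ qxR δ.symm (qxR δ x) ∈ Q.asIdeal := Iff.rfl
    have e2 : qxR δ.symm (qxR δ x) = x := by
      apply RingOfIntegers.ext
      rw [qxR_coe, qxR_coe]
      exact δ.symm_apply_apply (x : K)
    rw [hd, e2] at e1
    exact e1.2 hx
  obtain ⟨y, hy⟩ := bk20_surj K (Q.under (𝓞 k)) Q hov h1 ζ
  have hy2 := hmem _ hy
  rw [map_sub, Pool.Agent.H98.MF.qxR_algebraMap] at hy2
  have hsub : qxR δ ζ - ζ ∈ Q.asIdeal := by
    have := Q.asIdeal.sub_mem hy2 hy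
    rwa [sub_sub_sub_cancel_right] at this
  have hne : qxR δ ζ ≠ ζ := by
    intro h
    apply hδ
    apply hC.inj
    have := congrArg (fun t : 𝓞 K => (t : K)) h
    simp only [qxR_coe, hζz] at this
    exact this
  have hlm : (l : 𝓞 K) ∈ Q.asIdeal :=
    bk20_root Q.asIdeal (by rw [← map_pow, hζl, map_one]) hζl hne hsub hl.pos
  have h5 := (le_ord_iff Q (l : 𝓞 K) 1).2 (by rw [pow_one]; exact hlm)
  rcases h5 with h5 | h5
  · exact hl.ne_zero (by exact_mod_cast h5)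
  · apply hQ
    apply hS.mem
    have e1 : (((l : 𝓞 K)) : K) = (l : K) := by simp
    rw [e1] at h5
    have h6 : (1 : ℤ) ≤ ord Q (l : K) := by exact_mod_cast h5
    omega

/-- Row BK20: primes fixed by an automorphism. -/
theorem sk20 (h1 : SK1) : SK20 := by
  classical
  have _ := h1
  intro l _ k K _ _ _ _ _ z hz hC S hS
  have hgal := hC.gal
  refine ⟨(Module.finrank k K : ℝ) * ∑' P : HeightOneSpectrum (𝓞 k),
    (nrm P : ℝ) ^ (-(3 / 2) : ℝ), fun F hF => ?_⟩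
  have hsum : Summable fun P : HeightOneSpectrum (𝓞 k) => (nrm P : ℝ) ^ (-(3 / 2) : ℝ) :=
    summable_nrm (3 / 2) (by norm_num)
  have hpos : ∀ P : HeightOneSpectrum (𝓞 k), 0 ≤ (nrm P : ℝ) ^ (-(3 / 2) : ℝ) := fun P =>
    Real.rpow_nonneg (Nat.cast_nonneg _) _
  set g : (preK S).P → HeightOneSpectrum (𝓞 k) := fun p => p.1.under (𝓞 k) with hg
  -- every term
  have hterm : ∀ p ∈ F, ((preK S).N p : ℝ) ^ (-(3 / 4) : ℝ) ≤ (nrm (g p) : ℝ) ^ (-(3 / 2) : ℝ) := by
    intro p hp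
    obtain ⟨δ, hδ, hd⟩ := hF p hp
    have h2 := bk20_deg hz hC hS p.1 p.2 δ hδ hd
    have h3 : (2 : ℝ) ≤ (nrm (g p) : ℝ) := by exact_mod_cast two_le_absNorm (g p)
    have h4 : ((nrm (g p) : ℝ)) ^ 2 ≤ ((preK S).N p : ℝ) := by
      have : (nrm (g p)) ^ 2 ≤ (preK S).N p := h2
      exact_mod_cast this
    calc ((preK S).N p : ℝ) ^ (-(3 / 4) : ℝ)
        ≤ ((nrm (g p) : ℝ) ^ 2) ^ (-(3 / 4) : ℝ) :=
          Real.rpow_le_rpow_of_nonpos (by positivity) h4 (by norm_num)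
      _ = (nrm (g p) : ℝ) ^ (-(3 / 2) : ℝ) := by
          rw [← Real.rpow_natCast, ← Real.rpow_mul (by positivity)]
          norm_num
  have hfib : ∀ P ∈ F.image g, (F.filter fun p => g p = P).card ≤ Module.finrank k K := by
    intro P hP
    obtain ⟨p0, _, rfl⟩ := Finset.mem_image.1 hP
    have hov : OvP (g p0) p0.1 := rfl
    refine le_trans ?_ (bk20_card_le K (g p0) p0.1 hov)
    have hfin : Finite {Q : HeightOneSpectrum (𝓞 K) // OvP (g p0) Q} :=
      (bk20_fin K (g p0)).to_subtype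
    rw [← Nat.card_eq_finsetCard]
    refine Nat.card_le_card_of_injective (fun p : {p // p ∈ F.filter fun p => g p = g p0} =>
      (⟨p.1.1, ?_⟩ : {Q : HeightOneSpectrum (𝓞 K) // OvP (g p0) Q})) ?_
    · have h2 : g p.1 = g p0 := (Finset.mem_filter.1 p.2).2
      exact congrArg HeightOneSpectrum.asIdeal h2
    · intro p q hpq
      have h2 := congrArg (fun t : {Q : HeightOneSpectrum (𝓞 K) // OvP (g p0) Q} => t.1) hpq
      exact Subtype.ext (Subtype.ext h2)
  calc ∑ p ∈ F, ((preK S).N p : ℝ) ^ (-(3 / 4) : ℝ)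
      ≤ ∑ p ∈ F, (nrm (g p) : ℝ) ^ (-(3 / 2) : ℝ) := Finset.sum_le_sum hterm
    _ = ∑ P ∈ F.image g, (F.filter fun p => g p = P).card • (nrm P : ℝ) ^ (-(3 / 2) : ℝ) :=
        Finset.sum_comp (fun P => (nrm P : ℝ) ^ (-(3 / 2) : ℝ)) g
    _ ≤ ∑ P ∈ F.image g, (Module.finrank k K : ℝ) * (nrm P : ℝ) ^ (-(3 / 2) : ℝ) := by
        refine Finset.sum_le_sum fun P hP => ?_
        rw [nsmul_eq_mul]
        exact mul_le_mul_of_nonneg_right (by exact_mod_cast hfib P hP) (hpos P)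
    _ = (Module.finrank k K : ℝ) * ∑ P ∈ F.image g, (nrm P : ℝ) ^ (-(3 / 2) : ℝ) := by
        rw [Finset.mul_sum]
    _ ≤ (Module.finrank k K : ℝ) * ∑' P : HeightOneSpectrum (𝓞 k),
        (nrm P : ℝ) ^ (-(3 / 2) : ℝ) :=
        mul_le_mul_of_nonneg_left (hsum.sum_le_tsum _ fun P _ => hpos P) (Nat.cast_nonneg _)

end Pool.Agent.H92.EL
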