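import Pool.Agent.H92.EL.BKStm

/-!
# Project ELL (MP_a3214d), block B, row BK3: conjugate primes
-/

set_option autoImplicit false

open scoped BigOperators Pointwise
open NumberField IsDedekindDomain

namespace Pool.Agent.H92.EL

open Pool.Agent.H98.MF (Om Gm ord Dec US PrS mS nrm gen cj Pre preK qxR mem_cj)

/-- Row BK3: primes above the same prime are conjugate. -/
theorem sk3 : SK3 := by
  intro k K _ _ _ _ _ _ P Q Q' hQ
  constructor
  · intro hQ'
    have hu : Q.asIdeal.under (𝓞 k) = Q'.asIdeal.under (𝓞 k) := by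
      unfold OvP at hQ hQ'
      rw [Ideal.under_def, Ideal.under_def, hQ, hQ']
    obtain ⟨g, hg⟩ := Algebra.IsInvariant.exists_smul_of_under_eq (𝓞 k) (𝓞 K) (K ≃ₐ[k] K)
      Q.asIdeal Q'.asIdeal hu
    refine ⟨g, HeightOneSpectrum.ext ?_⟩
    rw [hg]
    ext x
    rw [Ideal.mem_pointwise_smul_iff_inv_smul_mem]
    exact Iff.rfl
  · rintro ⟨δ, rfl⟩
    exact Pool.Agent.H98.MF.Over.cj hQ δ.symm

end Pool.Agent.H92.EL
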