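import Pool.Agent.H92.EL.AStm
import Pool.Agent.H98.MF.C.C1

/-!
# Project ELL (MP_a3214d), block A: admissible sets exist
-/

set_option autoImplicit false

open scoped BigOperators Pointwise
open NumberField IsDedekindDomain

namespace Pool.Agent.H92.EL

open Pool.Agent.H98.MF (ord)

/-- C1: admissible sets exist -/
theorem sc1 : SC1 := by
  classical
  intro l hl K _ _ T
  have h2 : (l : K) ≠ 0 := Nat.cast_ne_zero.2 hl.ne_zero
  obtain ⟨S, hTS, hS⟩ := Pool.Agent.H98.MF.B.exists_PrS
    (T ∪ (Pool.Agent.H98.MF.B.ord_finite (l : K) h2).toFinset)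
  refine ⟨S, (Finset.subset_union_left).trans hTS, ⟨fun P hP => ?_, hS⟩⟩
  exact hTS (Finset.mem_union_right _ ((Set.Finite.mem_toFinset _).2 hP.ne'))

end Pool.Agent.H92.EL
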