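import Pool.Agent.H92.EL.BKStm
import Pool.Agent.H92.EL.Mem
import Pool.Agent.H92.EL.Wk
import Pool.Agent.H92.EL.C1
import Pool.Agent.H98.MF.C.Bas

/-!
# Project ELL (MP_a3214d), block B, row BK4: vanishing symbols are preserved by the Galois group
-/

set_option autoImplicit false

open scoped BigOperators
open NumberField IsDedekindDomain

namespace Pool.Agent.H92.EL

open Pool.Agent.H98.MF (Om Gm ord Dec US PrS mS nrm gen ord_int_nonneg)
open Pool.Agent.H98.MF.B (mem_US US_mono exists_mem_US)

section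

variable {l : ℕ} {K : Type} [Field K] [NumberField K] {z : K} (Y : LSy l K z)

/-- antisymmetry -/
private theorem bk4_anti (P : HeightOneSpectrum (𝓞 K)) (a b : Kˣ) :
    Y.hs P a b = - Y.hs P b a := by
  have h1 := Y.alt P (a * b)
  rw [Y.mulL, Y.mulR, Y.mulR, Y.alt, Y.alt, zero_add, add_zero] at h1
  exact eq_neg_of_add_eq_zero_left h1

private theorem bk4_left (P : HeightOneSpectrum (𝓞 K)) (a b : Kˣ) (h : LocW l P (a : K)) :
    Y.hs P a b = 0 := (Y.nd P a).2 h b

private theorem bk4_right (P : HeightOneSpectrum (𝓞 K)) (a b : Kˣ) (h : LocW l P (b : K)) :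
    Y.hs P a b = 0 := by
  rw [bk4_anti, bk4_left Y P b a h, neg_zero]

/-- the second argument modulo local powers -/
private theorem bk4_congr (P : HeightOneSpectrum (𝓞 K)) (a b c : Kˣ)
    (h : LocW l P ((c / b : Kˣ) : K)) : Y.hs P a c = Y.hs P a b := by
  have h1 : c = c / b * b := (div_mul_cancel c b).symm
  rw [h1, Y.mulR, bk4_right Y P a _ h, zero_add]

end

/-- vanishing symbols are preserved by the Galois group -/
theorem sk4 (h1 : SK1) : SK4 := by
  classical
  intro l hl hl2 k K _ _ _ _ _ z hz G hG δ P a b hab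
  have hlp : l.Prime := hl.out
  have hD := h1 l hlp k K
  have hmem : ∀ (Q : HeightOneSpectrum (𝓞 K)) (x : Kˣ), x ∈ WS l Q ↔ LocW l Q (x : K) :=
    fun Q x => smem l hlp K Q x
  -- the set of places
  obtain ⟨S0, hS0⟩ := exists_mem_US (k := K) {a}
  obtain ⟨S, hS, hadm⟩ := sc1 l hlp K (insert P S0)
  have hPS : P ∈ S := hS (Finset.mem_insert_self _ _)
  have haS : a ∈ US S := US_mono (fun Q hQ => hS (Finset.mem_insert_of_mem hQ))
    (hS0 a (Finset.mem_singleton_self a))
  -- approximation
  obtain ⟨γ, hγ⟩ := swk l hlp K S (fun Q => if Q = P then b else 1)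
  obtain ⟨Q0, q, hQ0, hq1, hq2, hq3⟩ := hG.g2 S hadm γ
  have hqP : LocW l P ((q / b : Kˣ) : K) := by
    rw [← hmem]
    have e1 : q / b = q / γ * (γ / b) := by
      rw [div_mul_div_cancel]
    have e2 := hγ P hPS
    simp only [if_true] at e2
    rw [e1]
    exact (WS l P).mul_mem (hq3 P hPS) e2
  have hqR : ∀ R ∈ S, R ≠ P → LocW l R (q : K) := by
    intro R hR hRP
    rw [← hmem]
    have e1 : q = q / γ * γ := (div_mul_cancel q γ).symm
    have e2 := hγ R hR
    simp only [if_neg hRP, div_one] at e2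
    rw [e1]
    exact (WS l R).mul_mem (hq3 R hR) e2
  have hl0 : ∀ R, R ∉ S → ord R (l : K) = 0 := by
    intro R hR
    refine le_antisymm ?_ ?_
    · by_contra h
      exact hR (hadm.mem R (not_le.1 h))
    · have e0 : (((l : 𝓞 K)) : K) = (l : K) := map_natCast (algebraMap (𝓞 K) K) l
      have h2 := ord_int_nonneg R (l : 𝓞 K)
      rwa [e0] at h2
  have hne : ∀ R, R ≠ Q0 → G.hs R a q = 0 := by
    intro R hRQ
    by_cases hR : R ∈ S
    · by_cases hRP : R = P
      · subst hRP
        rw [bk4_congr G.toLSy R a b q hqP]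
        exact hab
      · exact bk4_right G.toLSy R a q (hqR R hR hRP)
    · rw [G.unit R a q (hl0 R hR) (mem_US.1 haS R hR), hq2 R hR hRQ]
      simp
  have hall : ∀ R, G.hs R a q = 0 := by
    intro R
    by_cases hRQ : R = Q0
    · subst hRQ
      have hqS : q ∈ US (insert R S) := by
        rw [mem_US]
        intro Q hQ
        exact hq2 Q (fun h => hQ (Finset.mem_insert_of_mem h))
          (fun h => hQ (h ▸ Finset.mem_insert_self _ _))
      have haS' : a ∈ US (insert R S) := US_mono (Finset.subset_insert _ _) haS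
      have h2 := G.prd (insert R S) (fun Q hQ => Finset.mem_insert_of_mem (hadm.mem Q hQ)) a haS'
        q hqS
      rw [Finset.sum_insert hQ0] at h2
      rw [Finset.sum_eq_zero (fun Q hQ => hne Q (fun h => hQ0 (h ▸ hQ))), add_zero] at h2
      exact h2
    · exact hne R hRQ
  -- the norm
  have hng := hD.ng δ a q (hG.hn a q hall)
  have h3 := G.nm (dP δ P) (uD δ a) (uD δ q) hng
  have h4 : LocW l (dP δ P) ((uD δ q / uD δ b : Kˣ) : K) := by
    rw [← map_div]
    exact (hD.lw δ P (q / b)).2 hqP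
  rw [← bk4_congr G.toLSy (dP δ P) (uD δ a) (uD δ b) (uD δ q) h4]
  exact h3

end Pool.Agent.H92.EL
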