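import Pool.Agent.H92.EL.BKStm

/-!
# Project ELL (MP_a3214d), block B, row BK5: bilinear forms with the same zeros are proportional
-/

set_option autoImplicit false

open scoped BigOperators

namespace Pool.Agent.H92.EL

/-- linear forms with the same zeros are proportional -/
theorem bk5_row {l : ℕ} [Fact l.Prime] {M : Type} [CommGroup M] {f g : M → ZMod l}
    (hf : ∀ a b, f (a * b) = f a + f b) (hg : ∀ a b, g (a * b) = g a + g b)
    (h : ∀ a, f a = 0 → g a = 0) {b₀ : M} (hb : f b₀ ≠ 0) (b : M) :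
    g b = g b₀ / f b₀ * f b := by
  have hpow : ∀ (φ : M → ZMod l), (∀ a b, φ (a * b) = φ a + φ b) → ∀ (n : ℕ),
      φ (b₀ ^ n) = n * φ b₀ := by
    intro φ hφ n
    induction n with
    | zero =>
      have h1 := hφ 1 1
      rw [one_mul] at h1
      rw [pow_zero, Nat.cast_zero, zero_mul]
      exact left_eq_add.1 h1
    | succ n ih =>
      rw [pow_succ, hφ, ih, Nat.cast_succ]
      ring
  set n : ℕ := (-(f b / f b₀)).val with hn
  have hn' : (n : ZMod l) = -(f b / f b₀) := by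
    rw [hn, ZMod.natCast_val, ZMod.cast_id]
  have e1 : f (b * b₀ ^ n) = 0 := by
    rw [hf, hpow f hf, hn', neg_mul, div_mul_cancel₀ _ hb, add_neg_cancel]
  have e2 := h _ e1
  rw [hg, hpow g hg, hn'] at e2
  have e3 : g b = f b / f b₀ * g b₀ := by
    rw [neg_mul, add_neg_eq_zero] at e2
    exact e2
  rw [e3]
  ring

/-- Row BK5. -/
theorem sk5 : SK5 := by
  intro l _ M _ B B' h1 h2 h3 h4 h
  by_cases h0 : ∀ a b, B a b = 0
  · exact ⟨0, fun a b => by rw [h a b (h0 a b), zero_mul]⟩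
  push Not at h0
  obtain ⟨a₀, b₀, hab⟩ := h0
  have row : ∀ a b₁, B a b₁ ≠ 0 → ∀ b, B' a b = B' a b₁ / B a b₁ * B a b := fun a b₁ hb b =>
    bk5_row (f := B a) (g := B' a) (h2 a) (h4 a) (h a) hb b
  have col : ∀ a₁ b, B a₁ b ≠ 0 → ∀ a, B' a b = B' a₁ b / B a₁ b * B a b := fun a₁ b hb a =>
    bk5_row (f := fun a => B a b) (g := fun a => B' a b) (fun a c => h1 a c b)
      (fun a c => h3 a c b) (fun a => h a b) hb a
  have key : ∀ a b, B a₀ b ≠ 0 → B' a b = B' a₀ b₀ / B a₀ b₀ * B a b := by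
    intro a b hb
    rw [col a₀ b hb a, row a₀ b₀ hab b, mul_div_cancel_right₀ _ hb]
  refine ⟨B' a₀ b₀ / B a₀ b₀, fun a b => ?_⟩
  by_cases hb : B a₀ b = 0
  · have e1 : B a₀ (b * b₀) ≠ 0 := by
      rw [h2, hb, zero_add]
      exact hab
    have e2 := key a (b * b₀) e1
    have e3 := key a b₀ hab
    rw [h2, h4, e3, mul_add] at e2
    exact add_right_cancel e2
  · exact key a b hb

end Pool.Agent.H92.EL
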