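import Pool.Agent.H92.EL.IjB
import Pool.Agent.H98.MF.L.Ord

/-!
# Project ELL (MP_a3214d), block A, row A39: there is no bad place
-/

set_option autoImplicit false

open scoped BigOperators Pointwise
open NumberField IsDedekindDomain

namespace Pool.Agent.H92.EL

open Pool.Agent.H98.MF (Om Gm ord Dec US PrS SUn mS nrm gen FixD)
open Pool.Agent.H98.MF.B (mem_US US_mono gen_spec)

/-! ### separation -/

private theorem r5_sepV {l : ℕ} [Fact l.Prime] {V : Type} [AddCommGroup V] [Module (ZMod l) V]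
    {v : V} (hv : v ≠ 0) : ∃ f : V →+ ZMod l, f v ≠ 0 := by
  by_contra h
  push Not at h
  apply hv
  rw [← Module.forall_dual_apply_eq_zero_iff (ZMod l) v]
  intro φ
  exact h φ.toAddMonoidHom

/-- a subgroup containing the powers is separated from the other elements by functionals -/
theorem r5_sep {l : ℕ} [Fact l.Prime] {G : Type} [CommGroup G] (H : Subgroup G)
    (hH : ∀ x : G, x ^ l ∈ H) {x : G} (hx : x ∉ H) :
    ∃ ψ : G →* Multiplicative (ZMod l), (∀ y ∈ H, ψ y = 1) ∧ ψ x ≠ 1 := by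
  have hv : (Additive.ofMul (x : G ⧸ H) : Additive (G ⧸ H)) ≠ 0 := by
    intro h
    exact hx ((QuotientGroup.eq_one_iff x).1 (ofMul_eq_zero.1 h))
  obtain ⟨f, hf⟩ := @r5_sepV l _ (Additive (G ⧸ H)) _
    (AddCommGroup.zmodModule (ij_gr l H hH)) _ hv
  let ψ : G →* Multiplicative (ZMod l) :=
    { toFun := fun y => Multiplicative.ofAdd (f (Additive.ofMul (y : G ⧸ H)))
      map_one' := by
        rw [QuotientGroup.mk_one, ofMul_one, map_zero, ofAdd_zero]
      map_mul' := fun y y' => by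
        rw [QuotientGroup.mk_mul, ofMul_mul, map_add, ofAdd_add] }
  refine ⟨ψ, fun y hy => ?_, fun h => hf ?_⟩
  · show Multiplicative.ofAdd (f (Additive.ofMul (y : G ⧸ H))) = 1
    rw [(QuotientGroup.eq_one_iff y).2 hy, ofMul_one, map_zero, ofAdd_zero]
  · exact Multiplicative.ofAdd.injective (h.trans ofAdd_zero.symm)

section

variable {l : ℕ} [Fact l.Prime] {K : Type} [Field K] [NumberField K] {z : K} (Y : LSy l K z)

/-! ### local powers have exponents divisible by `l` -/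

theorem r5_dvd {P : HeightOneSpectrum (𝓞 K)} {a : Kˣ} (h : LocW l P (a : K)) :
    (l : ℤ) ∣ ord P (a : K) := by
  obtain ⟨c, hc⟩ := h 1
  have hlp : l.Prime := Fact.out
  have hc0 : c ≠ 0 := by
    rintro rfl
    rw [zero_pow hlp.ne_zero, mul_zero] at hc
    rcases hc with hc | hc
    · exact zero_ne_one hc
    · rw [zero_sub, Pool.Agent.H98.MF.ord_neg, Pool.Agent.H98.MF.ord_one] at hc
      norm_num at hc
  have h1 : ord P ((a : K) * c ^ l) = 0 := by
    rcases hc with hc | hc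
    · rw [hc, Pool.Agent.H98.MF.ord_one]
    · have h2 := Pool.Agent.H98.MF.ord_add_eq P (a := (1 : K)) (b := (a : K) * c ^ l - 1)
        one_ne_zero (Or.inr (by
          rw [Pool.Agent.H98.MF.ord_one]
          push_cast at hc
          omega))
      rw [add_sub_cancel, Pool.Agent.H98.MF.ord_one] at h2
      exact h2.2
  rw [Pool.Agent.H98.MF.ord_mul P a.ne_zero (pow_ne_zero _ hc0),
    Pool.Agent.H98.MF.ord_pow] at h1
  exact ⟨- ord P c, by linarith⟩

/-- there is an element which is not a local power -/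
theorem r5_proper (P : HeightOneSpectrum (𝓞 K)) : ∃ c : Kˣ, ¬ LocW l P (c : K) := by
  obtain ⟨π, hπ⟩ := Pool.Agent.H98.MF.exists_unif P
  have h0 : (π : K) ≠ 0 := by
    intro h
    rw [h, Pool.Agent.H98.MF.ord_zero] at hπ
    exact zero_ne_one hπ
  refine ⟨Units.mk0 (π : K) h0, fun h => ?_⟩
  have h1 := r5_dvd h
  rw [Units.val_mk0, hπ] at h1
  have h2 : (l : ℤ) = 1 := by
    exact Int.eq_one_of_dvd_one (Int.natCast_nonneg l) h1
  exact (Fact.out : l.Prime).one_lt.ne' (by exact_mod_cast h2)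

/-! ### representatives -/

omit [Fact l.Prime] in
theorem r5_reps {G : Type} [CommGroup G] (A : Subgroup G) (h : (pw l A).relIndex A ≠ 0) :
    ∃ R : Finset G, (∀ r ∈ R, r ∈ A) ∧ ∀ x ∈ A, ∃ r ∈ R, ∃ d : G, x = r * d ^ l := by
  classical
  have hfi : ((pw l A).subgroupOf A).FiniteIndex := ⟨h⟩
  have hfin : Finite (A ⧸ (pw l A).subgroupOf A) := Subgroup.finite_quotient_of_finiteIndex
  have hr : (Set.range (fun q : A ⧸ (pw l A).subgroupOf A => ((Quotient.out q : A) : G))).Finite :=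
    Set.finite_range _
  refine ⟨hr.toFinset, ?_, ?_⟩
  · intro r hr'
    rw [Set.Finite.mem_toFinset] at hr'
    obtain ⟨q, rfl⟩ := hr'
    exact (Quotient.out q : A).2
  · intro x hx
    let q : A ⧸ (pw l A).subgroupOf A := QuotientGroup.mk (⟨x, hx⟩ : A)
    refine ⟨((Quotient.out q : A) : G), ?_, ?_⟩
    · rw [Set.Finite.mem_toFinset]
      exact ⟨q, rfl⟩
    · have h1 : (QuotientGroup.mk (Quotient.out q : A) : A ⧸ (pw l A).subgroupOf A) =
          QuotientGroup.mk (⟨x, hx⟩ : A) := QuotientGroup.out_eq' q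
      rw [QuotientGroup.eq, Subgroup.mem_subgroupOf] at h1
      obtain ⟨d, _, hd⟩ := Subgroup.mem_map.1 h1
      refine ⟨d, ?_⟩
      have h2 : d ^ l = (((Quotient.out q : A)⁻¹ * (⟨x, hx⟩ : A) : A) : G) := hd
      rw [h2]
      push_cast
      rw [mul_inv_cancel_left]

omit [Fact l.Prime] in
/-- the exponent of a power product of prime generators -/
theorem r5_ord {S T : Finset (HeightOneSpectrum (𝓞 K))} (hS : PrS S)
    (n : HeightOneSpectrum (𝓞 K) → ℤ)
    (hT : ∀ Q ∈ T, Q ∉ S) (R : HeightOneSpectrum (𝓞 K)) (hR : R ∉ S) :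
    ord R ((∏ Q ∈ T, gen S Q ^ n Q : Kˣ) : K) = by classical exact if R ∈ T then n R else 0 := by
  classical
  rw [Pool.Agent.H98.MF.B.ord_prod]
  have h1 : ∀ Q ∈ T, ord R ((gen S Q ^ n Q : Kˣ) : K) = if R = Q then n Q else 0 := by
    intro Q hQ
    rw [Units.val_zpow_eq_zpow_val, Pool.Agent.H98.MF.B.ord_zpow]
    have h2 := gen_spec hS (hT Q hQ)
    by_cases h : R = Q
    · subst h
      rw [h2.1, if_pos rfl, mul_one]
    · rw [h2.2 R hR h, if_neg h, mul_zero]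
  rw [Finset.sum_congr rfl h1, Finset.sum_ite_eq]

omit [Fact l.Prime] in
theorem r5_adm_mono {S S' : Finset (HeightOneSpectrum (𝓞 K))} (h : AdmL l S) (hS : S ⊆ S') :
    AdmL l S' := by
  refine ⟨fun P hP => hS (h.mem P hP), fun P hP => ?_⟩
  obtain ⟨a, ha, h1, h2⟩ := h.prS P fun h' => hP (hS h')
  exact ⟨a, ha, h1, fun Q hQ hne => h2 Q (fun h' => hQ (hS h')) hne⟩

/-! ### the radical -/

/-- the data of a system of global constants -/
private theorem r5_rad (hM : SMem) (hW : SWk) {c : HeightOneSpectrum (𝓞 K) → ZMod l}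
    (hprd : ∀ S : Finset (HeightOneSpectrum (𝓞 K)),
        (∀ P : HeightOneSpectrum (𝓞 K), 0 < ord P (l : K) → P ∈ S) →
        ∀ a ∈ US S, ∀ b ∈ US S, ∑ P ∈ S, c P * Y.hs P a b = 0)
    (hne : ∀ a : Kˣ, a ∉ pw l (⊤ : Subgroup Kˣ) → ∃ P, c P ≠ 0 ∧ ¬ LocW l P (a : K))
    {S : Finset (HeightOneSpectrum (𝓞 K))} (hS : AdmL l S) (a : Kˣ) (ha : a ∈ US S)
    (h : ∀ x, ∑ P ∈ S, c P * Y.hs P a x = 0) : a ∈ pw l (US S) := by
  classical
  refine ij_pw_US ha ?_
  by_contra hn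
  obtain ⟨P, hcP, hP⟩ := hne a hn
  by_cases hPS : P ∈ S
  · apply hP
    rw [← Y.nd]
    intro b
    obtain ⟨g, hg⟩ := ij_eval Y hM hW hPS b
    have h1 := hg c a
    rw [h g] at h1
    exact (mul_eq_zero.1 h1.symm).resolve_left hcP
  · obtain ⟨hg1, hg2⟩ := gen_spec hS.prS hPS
    have hsub : S ⊆ insert P S := Finset.subset_insert P S
    have ha' : a ∈ US (insert P S) := US_mono hsub ha
    have hg' : gen S P ∈ US (insert P S) := by
      refine mem_US.2 fun Q hQ => ?_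
      rw [Finset.mem_insert, not_or] at hQ
      exact hg2 Q hQ.2 hQ.1
    have h1 := hprd (insert P S) (fun Q hQ => hsub (hS.mem Q hQ)) a ha' _ hg'
    rw [Finset.sum_insert hPS, h (gen S P), add_zero] at h1
    have h2 := (mul_eq_zero.1 h1).resolve_left hcP
    have hlP : ord P (l : K) = 0 := ij_ordl0 hS.mem hPS
    have haP : ord P (a : K) = 0 := mem_US.1 ha P hPS
    rw [Y.unit P a _ hlP haP, hg1, Int.cast_one, one_mul] at h2
    have h3 := (mul_eq_zero.1 h2).resolve_left (Y.cc_ne P)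
    apply hP
    rw [← Y.nd]
    intro b
    rw [Y.unit P a b hlP haP, h3, mul_zero, mul_zero]

/-- a unit which is a local power at all places of `S` except one bad place -/
private theorem r5_unit (hM : SMem) (hW : SWk) (hI : SCI) (h2 : SC2) (hl : l ≠ 2)
    (hz : IsPrimitiveRoot z l) {c : HeightOneSpectrum (𝓞 K) → ZMod l}
    (hprd : ∀ S : Finset (HeightOneSpectrum (𝓞 K)),
        (∀ P : HeightOneSpectrum (𝓞 K), 0 < ord P (l : K) → P ∈ S) →
        ∀ a ∈ US S, ∀ b ∈ US S, ∑ P ∈ S, c P * Y.hs P a b = 0)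
    (hne : ∀ a : Kˣ, a ∉ pw l (⊤ : Subgroup Kˣ) → ∃ P, c P ≠ 0 ∧ ¬ LocW l P (a : K))
    {S : Finset (HeightOneSpectrum (𝓞 K))} (hS : AdmL l S) {P₀ : HeightOneSpectrum (𝓞 K)}
    (hP₀ : P₀ ∈ S) (hc0 : c P₀ = 0) :
    ∃ u ∈ US S, u ∉ WS l P₀ ∧ ∀ P ∈ S, P ≠ P₀ → u ∈ WS l P := by
  classical
  have hlp : l.Prime := Fact.out
  obtain ⟨π, hπ⟩ := r5_proper (l := l) P₀
  obtain ⟨g, hg⟩ := hW l hlp K S (fun Q => if Q = P₀ then π else 1)
  have hg0 : g / π ∈ WS l P₀ := by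
    have h1 := hg P₀ hP₀
    rwa [if_pos rfl] at h1
  have hg1 : ∀ P ∈ S, P ≠ P₀ → g ∈ WS l P := by
    intro P hP hPP
    have h1 := hg P hP
    rwa [if_neg hPP, div_one] at h1
  have hin : ∀ a ∈ US S, a ∈ KW l S → a ∈ pw l (US S) := fun a ha hk =>
    r5_rad Y hM hW hprd hne hS a ha fun x => Finset.sum_eq_zero fun P hP => by
      rw [(Y.nd P a).2 ((hM l hlp K P a).1 (ij_mem_KW.1 hk P hP)) x, mul_zero]
  have hgH : g ∈ US S ⊔ KW l S := by
    by_contra hcon
    obtain ⟨ψ, hψ1, hψ2⟩ := r5_sep (US S ⊔ KW l S)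
      (fun x => Subgroup.mem_sup_right (ij_pow_KW S x)) hcon
    obtain ⟨a, ha, hψ⟩ := ij_du Y h2 hI hl hz hS.mem hin hM c (hprd S hS.mem)
      (r5_rad Y hM hW hprd hne hS) ψ
      ⟨fun a ha => hψ1 a (Subgroup.mem_sup_left ha), fun a ha => hψ1 a (Subgroup.mem_sup_right ha)⟩
    apply hψ2
    refine Multiplicative.toAdd.injective ?_
    show vl l ψ g = 0
    rw [hψ g]
    refine Finset.sum_eq_zero fun P hP => ?_
    by_cases hPP : P = P₀
    · rw [hPP, hc0, zero_mul]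
    · rw [ij_locR Y a ((hM l hlp K P g).1 (hg1 P hP hPP)), mul_zero]
  obtain ⟨u, hu, y, hy, huy⟩ := Subgroup.mem_sup.1 hgH
  have hu' : u = g / y := eq_div_of_mul_eq' huy
  refine ⟨u, hu, fun h => hπ ?_, fun P hP hPP => ?_⟩
  · rw [← hM l hlp K P₀]
    have h1 : g ∈ WS l P₀ := by
      rw [← huy]
      exact (WS l P₀).mul_mem h (ij_mem_KW.1 hy P₀ hP₀)
    have h3 : π = g / (g / π) := (div_div_cancel g π).symm
    rw [h3]
    exact (WS l P₀).div_mem h1 hg0
  · rw [hu']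
    exact (WS l P).div_mem (hg1 P hP hPP) (ij_mem_KW.1 hy P hP)

end

/-- there is no bad place -/
theorem sr5 (hM : SMem) (hW : SWk) (hA : SAn) (hI : SCI) (h2 : SC2) (h1 : SC1) : SR5 := by
  classical
  intro l _ hl K _ _ z hz Y c hprd hne P₀ hc0
  have hlp : l.Prime := Fact.out
  obtain ⟨S, hPS, hS⟩ := h1 l hlp K {P₀}
  have hP₀ : P₀ ∈ S := hPS (Finset.mem_singleton_self P₀)
  have hri : (pw l (US S)).relIndex (US S) ≠ 0 := by
    rw [h2 l hlp K z hz S]
    exact pow_ne_zero _ hlp.ne_zero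
  obtain ⟨R, hRU, hR⟩ := r5_reps (US S) hri
  let f : Kˣ → Finset (HeightOneSpectrum (𝓞 K)) := fun r =>
    if h : ∃ Q : HeightOneSpectrum (𝓞 K), Q ∉ S ∧ r ∉ WS l Q then {h.choose} else ∅
  have hf : ∀ r, ∀ Q ∈ f r, Q ∉ S ∧ r ∉ WS l Q := by
    intro r Q hQ
    by_cases h : ∃ Q : HeightOneSpectrum (𝓞 K), Q ∉ S ∧ r ∉ WS l Q
    · have h1 : f r = {h.choose} := dif_pos h
      rw [h1, Finset.mem_singleton] at hQ
      rw [hQ]
      exact h.choose_spec
    · have h1 : f r = ∅ := dif_neg h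
      rw [h1] at hQ
      exact absurd hQ (Finset.notMem_empty Q)
  have hf2 : ∀ r, (∃ Q : HeightOneSpectrum (𝓞 K), Q ∉ S ∧ r ∉ WS l Q) → ∃ Q, Q ∈ f r := by
    intro r h
    have h1 : f r = {h.choose} := dif_pos h
    exact ⟨h.choose, by rw [h1]; exact Finset.mem_singleton_self _⟩
  let T : Finset (HeightOneSpectrum (𝓞 K)) := R.biUnion f
  have hTS : ∀ Q ∈ T, Q ∉ S := by
    intro Q hQ
    obtain ⟨r, _, hQ'⟩ := Finset.mem_biUnion.1 hQ
    exact (hf r Q hQ').1
  have hSS : S ⊆ S ∪ T := Finset.subset_union_left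
  have hneP : ∀ Q : HeightOneSpectrum (𝓞 K), Q ∉ S → Q ≠ P₀ := by
    rintro Q hQ rfl
    exact hQ hP₀
  obtain ⟨b, hb, hbv, hbw⟩ := r5_unit Y hM hW hI h2 hl hz hprd hne (r5_adm_mono hS hSS)
    (hSS hP₀) hc0
  let e : Kˣ := ∏ Q ∈ T, gen S Q ^ (ord Q (b : K) / (l : ℤ))
  have hc : b * (e ^ l)⁻¹ ∈ US S := by
    rw [mem_US]
    intro Q hQ
    have h1 : ord Q (e : K) = if Q ∈ T then ord Q (b : K) / (l : ℤ) else 0 :=
      r5_ord hS.prS (fun Q => ord Q (b : K) / (l : ℤ)) hTS Q hQ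
    rw [Units.val_mul, Pool.Agent.H98.MF.ord_mul Q (Units.ne_zero _) (Units.ne_zero _),
      Units.val_inv_eq_inv_val, Pool.Agent.H98.MF.ord_inv, Units.val_pow_eq_pow_val,
      Pool.Agent.H98.MF.ord_pow, h1]
    by_cases hQT : Q ∈ T
    · have h3 : b ∈ WS l Q := hbw Q (Finset.mem_union_right S hQT) (hneP Q hQ)
      have h4 := r5_dvd ((hM l hlp K Q b).1 h3)
      rw [if_pos hQT, Int.mul_ediv_cancel' h4]
      ring
    · have h3 : ord Q (b : K) = 0 := by
        refine mem_US.1 hb Q ?_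
        intro h
        rcases Finset.mem_union.1 h with h | h
        · exact hQ h
        · exact hQT h
      rw [if_neg hQT, h3]
      ring
  obtain ⟨r, hr, d, hd⟩ := hR _ hc
  have hrb : b = r * (d * e) ^ l := by
    rw [mul_pow, ← mul_assoc, ← hd, inv_mul_cancel_right]
  have hrb' : r = b / (d * e) ^ l := by
    rw [hrb, mul_div_cancel_right]
  have hrw : ∀ w : HeightOneSpectrum (𝓞 K), b ∈ WS l w → r ∈ WS l w := by
    intro w hw
    rw [hrb']
    exact (WS l w).div_mem hw (ij_pow_WS w _)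
  have hrv : r ∉ WS l P₀ := by
    intro h
    apply hbv
    rw [hrb]
    exact (WS l P₀).mul_mem h (ij_pow_WS P₀ _)
  have hex : ∃ Q : HeightOneSpectrum (𝓞 K), Q ∉ S ∧ r ∉ WS l Q := by
    by_contra hcon
    push Not at hcon
    have h3 := ij_dens (hA l hl K z hz) S
      (fun P hP => (hM l hlp K P r).1 (hcon P hP))
    obtain ⟨t, -, ht⟩ := ij_mem_pw.1 h3
    apply hrv
    rw [← ht]
    exact ij_pow_WS P₀ t
  obtain ⟨Q', hQ'⟩ := hf2 r hex
  have h3 := hf r Q' hQ'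
  refine h3.2 (hrw _ (hbw _ ?_ (hneP Q' h3.1)))
  exact Finset.mem_union_right S (Finset.mem_biUnion.2 ⟨r, hr, hQ'⟩)

end Pool.Agent.H92.EL
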