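import Pool.Agent.H92.EL.BKStm
import Pool.Agent.H92.EL.R5

/-!
# Project ELL (MP_a3214d), block B: equivariance of the symbols up to a constant
-/

set_option autoImplicit false

open scoped BigOperators
open NumberField IsDedekindDomain

namespace Pool.Agent.H92.EL

open Pool.Agent.H98.MF (Om Gm ord Dec US PrS mS nrm gen cj Pre preK)

/-- there is a prime -/
private theorem bk6_prime (K : Type) [Field K] [NumberField K] :
    Nonempty (HeightOneSpectrum (𝓞 K)) := by
  obtain ⟨M, hM⟩ := Ideal.exists_maximal (𝓞 K)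
  exact ⟨⟨M, hM.isPrime, Ring.ne_bot_of_isMaximal_of_not_isField hM
    (NumberField.RingOfIntegers.not_isField K)⟩⟩

/-- equivariance up to a constant -/
theorem sk6 (h1 : SK1) (h4 : SK4) (h5 : SK5) : SK6 := by
  classical
  intro l _ hl k K _ _ _ _ _ z hz G hG δ
  have H : DPf l k K := h1 l Fact.out k K
  have hex : ∀ P : HeightOneSpectrum (𝓞 K), ∃ t : ZMod l, ∀ a b : Kˣ,
      G.hs (dP δ P) (uD δ a) (uD δ b) = t * G.hs P a b := by
    intro P
    refine h5 l Kˣ (fun a b => G.hs P a b) (fun a b => G.hs (dP δ P) (uD δ a) (uD δ b))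
      (fun a b c => G.mulL P a b c) (fun a b c => G.mulR P a b c)
      (fun a b c => ?_) (fun a b c => ?_) (fun a b h => ?_)
    · show G.hs (dP δ P) (uD δ (a * b)) (uD δ c) = _
      rw [map_mul, G.mulL]
    · show G.hs (dP δ P) (uD δ a) (uD δ (b * c)) = _
      rw [map_mul, G.mulR]
    · exact h4 l hl k K z hz G hG δ P a b h
  choose c hc using hex
  have hcan : ∀ P : HeightOneSpectrum (𝓞 K), dP δ (dP δ⁻¹ P) = P := by
    intro P
    rw [← H.mul, mul_inv_cancel, H.one]
  have hcan' : ∀ P : HeightOneSpectrum (𝓞 K), dP δ⁻¹ (dP δ P) = P := by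
    intro P
    rw [← H.mul, inv_mul_cancel, H.one]
  have hinj : Function.Injective (dP δ : HeightOneSpectrum (𝓞 K) → HeightOneSpectrum (𝓞 K)) :=
    Function.LeftInverse.injective hcan'
  have hu : ∀ a : Kˣ, uD δ (uD δ⁻¹ a) = a := by
    intro a
    rw [← H.mul', mul_inv_cancel, H.one']
  obtain ⟨t, ht⟩ := hG.uq c (by
    intro S hS a ha b hb
    have e1 : ∑ P ∈ S, c P * G.hs P a b =
        ∑ Q ∈ S.image (dP δ), G.hs Q (uD δ a) (uD δ b) := by
      rw [Finset.sum_image (fun x _ y _ h => hinj h)]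
      exact Finset.sum_congr rfl fun P _ => (hc P a b).symm
    rw [e1]
    refine G.prd (S.image (dP δ)) ?_ (uD δ a) ?_ (uD δ b) ?_
    · intro Q hQ
      refine Finset.mem_image.2 ⟨dP δ⁻¹ Q, hS _ ?_, hcan Q⟩
      have e2 := H.ord_eq δ (dP δ⁻¹ Q) (l : K)
      rw [hcan, map_natCast] at e2
      rwa [← e2]
    · exact H.us δ S a ha _ fun P hP => Finset.mem_image_of_mem _ hP
    · exact H.us δ S b hb _ fun P hP => Finset.mem_image_of_mem _ hP)
  refine ⟨t, ?_, fun P a b => by rw [hc, ht]⟩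
  rintro rfl
  obtain ⟨P⟩ := bk6_prime K
  obtain ⟨x, hx⟩ := r5_proper (l := l) (dP δ P)
  apply hx
  rw [← G.nd]
  intro b
  have e3 := hc P (uD δ⁻¹ x) (uD δ⁻¹ b)
  rw [hu, hu, ht, zero_mul] at e3
  exact e3

end Pool.Agent.H92.EL
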