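import Pool.Agent.H92.EL.BK7_a
import Pool.Agent.H92.EL.Lg

/-!
# Project ELL (MP_a3214d), block B: the constant of the equivariance is the cyclotomic character
-/

set_option autoImplicit false

open scoped BigOperators
open NumberField IsDedekindDomain

namespace Pool.Agent.H92.EL

open Pool.Agent.H98.MF (Om Gm ord Dec US PrS mS nrm gen cj Pre preK Over exists_over ord_finite
  exists_unif)

section

variable {k K : Type} [Field k] [NumberField k] [Field K] [NumberField K] [Algebra k K]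

/-- the number of primes of the fixed field of a normal subgroup containing the stabilisers -/
theorem bk7_num (h1 : SK1) (h3 : SK3) [IsGalois k K] (H : Subgroup (K ≃ₐ[k] K)) [hN : H.Normal]
    (P : HeightOneSpectrum (𝓞 k))
    (hst : ∀ (Q : HeightOneSpectrum (𝓞 K)) (δ : K ≃ₐ[k] K), OvP P Q → dP δ Q = Q → δ ∈ H) :
    Nat.card {Q : HeightOneSpectrum (𝓞 (IntermediateField.fixedField H)) // OvP P Q} =
      Module.finrank k (IntermediateField.fixedField H) := by
  have hfd : FiniteDimensional k K := FiniteDimensional.right ℚ k K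
  have D := h1 2 Nat.prime_two k K
  obtain ⟨Q0, hQ0'⟩ := exists_over (L := K) P
  have hQ0 : OvP P Q0 := hQ0'
  have htr : ∀ (δ : K ≃ₐ[k] K),
      OvP P ((dP δ Q0).under (𝓞 (IntermediateField.fixedField H))) := by
    intro δ
    have h5 : OvP P (dP δ Q0) := (h3 k K P Q0 (dP δ Q0) hQ0).2 ⟨δ, rfl⟩
    show Ideal.comap (algebraMap (𝓞 k) (𝓞 (IntermediateField.fixedField H)))
      (Ideal.comap (algebraMap (𝓞 (IntermediateField.fixedField H)) (𝓞 K)) (dP δ Q0).asIdeal) = _
    rw [Ideal.comap_comap, ← IsScalarTower.algebraMap_eq]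
    exact h5
  let g : (K ≃ₐ[k] K) → {Q : HeightOneSpectrum (𝓞 (IntermediateField.fixedField H)) // OvP P Q} :=
    fun δ => ⟨(dP δ Q0).under (𝓞 (IntermediateField.fixedField H)), htr δ⟩
  have hfix : IntermediateField.fixingSubgroup (IntermediateField.fixedField H) = H :=
    IntermediateField.fixingSubgroup_fixedField H
  have hgs : Function.Surjective g := by
    rintro ⟨R, hR⟩
    obtain ⟨Q', hQ'⟩ := exists_over (L := K) R
    have hQ2 : OvP P Q' := by
      show Ideal.comap (algebraMap (𝓞 k) (𝓞 K)) Q'.asIdeal = P.asIdeal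
      rw [IsScalarTower.algebraMap_eq (𝓞 k) (𝓞 (IntermediateField.fixedField H)) (𝓞 K),
        ← Ideal.comap_comap]
      have e1 : Ideal.comap (algebraMap (𝓞 (IntermediateField.fixedField H)) (𝓞 K)) Q'.asIdeal =
        R.asIdeal := hQ'
      rw [e1]
      exact hR
    obtain ⟨δ, hδ⟩ := (h3 k K P Q0 Q' hQ0).1 hQ2
    refine ⟨δ, Subtype.ext (HeightOneSpectrum.ext ?_)⟩
    show Ideal.comap (algebraMap (𝓞 (IntermediateField.fixedField H)) (𝓞 K))
      (dP δ Q0).asIdeal = R.asIdeal
    rw [hδ]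
    exact hQ'
  have hgi : ∀ δ δ' : K ≃ₐ[k] K, g δ = g δ' ↔ δ⁻¹ * δ' ∈ H := by
    intro δ δ'
    constructor
    · intro h
      have hR : OvP ((dP δ' Q0).under (𝓞 (IntermediateField.fixedField H))) (dP δ' Q0) := rfl
      have hR2 : OvP ((dP δ' Q0).under (𝓞 (IntermediateField.fixedField H))) (dP δ Q0) := by
        have h6 : (dP δ Q0).under (𝓞 (IntermediateField.fixedField H)) =
          (dP δ' Q0).under (𝓞 (IntermediateField.fixedField H)) := congrArg Subtype.val h
        rw [← h6]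
        rfl
      obtain ⟨η, hη⟩ := (h3 (IntermediateField.fixedField H) K _ (dP δ' Q0) (dP δ Q0) hR).1 hR2
      have hη0 : η.restrictScalars k ∈ H := by
        refine hfix.le ((IntermediateField.mem_fixingSubgroup_iff _ _).2 ?_)
        intro x hx
        exact η.commutes ⟨x, hx⟩
      have hη1 : dP (η.restrictScalars k) (dP δ' Q0) = dP η (dP δ' Q0) := rfl
      have h7 : dP (δ⁻¹ * (η.restrictScalars k * δ')) Q0 = Q0 := by
        rw [D.mul, D.mul, hη1, hη, ← D.mul, inv_mul_cancel, D.one]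
      have h8 := hst Q0 _ hQ0 h7
      have h9 := hN.conj_mem _ (H.inv_mem hη0) δ⁻¹
      have h10 := H.mul_mem h9 h8
      have e : δ⁻¹ * (η.restrictScalars k)⁻¹ * δ⁻¹⁻¹ * (δ⁻¹ * (η.restrictScalars k * δ')) =
        δ⁻¹ * δ' := by group
      rwa [e] at h10
    · intro h
      have hη0 : δ * (δ⁻¹ * δ') * δ⁻¹ ∈ H := hN.conj_mem _ h δ
      set η0 := δ * (δ⁻¹ * δ') * δ⁻¹ with hη0d
      have hη0' : η0 ∈ IntermediateField.fixingSubgroup (IntermediateField.fixedField H) := by
        rw [hfix]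
        exact hη0
      let η : K ≃ₐ[IntermediateField.fixedField H] K :=
        IntermediateField.fixingSubgroupEquiv _ ⟨η0, hη0'⟩
      have e1 : δ' = η0 * δ := by rw [hη0d]; group
      have e2 : dP δ' Q0 = dP η (dP δ Q0) := by
        rw [e1, D.mul]
        rfl
      have hR : OvP ((dP δ Q0).under (𝓞 (IntermediateField.fixedField H))) (dP δ Q0) := rfl
      have hR2 := (h3 (IntermediateField.fixedField H) K _ (dP δ Q0) (dP δ' Q0) hR).2
        ⟨η, e2.symm⟩
      exact Subtype.ext (HeightOneSpectrum.ext hR2.symm)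
  let g' : (K ≃ₐ[k] K) ⧸ H → {Q : HeightOneSpectrum (𝓞 (IntermediateField.fixedField H)) //
      OvP P Q} :=
    Quotient.lift g (fun a b hab => (hgi a b).2 (QuotientGroup.leftRel_apply.1 hab))
  have hg' : Function.Bijective g' := by
    constructor
    · intro a b
      induction a using Quotient.inductionOn with | _ a
      induction b using Quotient.inductionOn with | _ b
      intro h
      exact Quotient.sound (QuotientGroup.leftRel_apply.2 ((hgi a b).1 h))
    · intro R
      obtain ⟨δ, hδ⟩ := hgs R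
      exact ⟨Quotient.mk _ δ, hδ⟩
  have e3 := Nat.card_congr (Equiv.ofBijective g' hg')
  rw [← e3, IntermediateField.finrank_eq_fixingSubgroup_index, hfix]
  rfl

/-- the primes over a prime not above `l` -/
theorem bk7_ab (l : ℕ) (P : HeightOneSpectrum (𝓞 k)) (Q : HeightOneSpectrum (𝓞 K))
    (h : OvP P Q) (hP : ord P (l : k) = 0) : ord Q (l : K) = 0 := by
  have h' : Over P Q := h
  have := h'.ord_map (l : k)
  rwa [hP, mul_zero, map_natCast] at this

/-- a normal subgroup containing the stabilisers of almost all primes is the whole group -/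
theorem bk7_top (h1 : SK1) (h3 : SK3) [IsGalois k K] (H : Subgroup (K ≃ₐ[k] K)) [H.Normal]
    (l : ℕ) (hl : l ≠ 0)
    (hst : ∀ (Q : HeightOneSpectrum (𝓞 K)) (δ : K ≃ₐ[k] K), ord Q (l : K) = 0 →
      dP δ Q = Q → δ ∈ H) : H = ⊤ := by
  have hfd : FiniteDimensional k K := FiniteDimensional.right ℚ k K
  have e := bk7_den (K := k) (IntermediateField.fixedField H)
    {P : HeightOneSpectrum (𝓞 k) | ord P (l : k) ≠ 0}
    (ord_finite (Nat.cast_ne_zero.2 hl)) (fun P hP => bk7_num h1 h3 H P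
      (fun Q δ hQ hδ => hst Q δ (bk7_ab l P Q hQ (by simpa using hP)) hδ))
  rw [IntermediateField.finrank_eq_fixingSubgroup_index,
    IntermediateField.fixingSubgroup_fixedField] at e
  exact Subgroup.index_eq_one.1 e

end

theorem sk7 (h1 : SK1) (h2 : SK2) (h3 : SK3) (h6 : SK6) : SK7 := by
  intro l hl hl2 k K _ _ _ _ _ z hz hC G hG
  have hlp : l.Prime := hl.out
  have hgal : IsGalois k K := hC.gal
  have D := h1 l hlp k K
  choose t ht0 ht using h6 l hl2 k K z hz G hG
  -- the values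
  have hval : ∀ P : HeightOneSpectrum (𝓞 K), ord P (l : K) = 0 → ∃ a b : Kˣ,
      G.hs P a b = G.cc P ∧ ∀ δ : K ≃ₐ[k] K,
        G.hs (dP δ P) (uD δ a) (uD δ b) = G.cc (dP δ P) * (cyK k hz δ : ZMod l) := by
    intro P hP
    obtain ⟨a, ha0, ha1⟩ := (slg l hlp K z hz P hP).2.2.2
    obtain ⟨π, hπ⟩ := exists_unif P
    have hπ0 : (π : K) ≠ 0 := by
      intro h0
      rw [h0, Pool.Agent.H98.MF.ord_zero] at hπ
      exact zero_ne_one hπ
    refine ⟨a, Units.mk0 (π : K) hπ0, ?_, fun δ => ?_⟩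
    · rw [G.unit P a _ hP ha0, ha1, Units.val_mk0, hπ]
      simp
    · have e1 : ord (dP δ P) (l : K) = 0 := by
        have := D.ord_eq δ P (l : K)
        rwa [map_natCast, hP] at this
      have e2 : ord (dP δ P) ((uD δ a : Kˣ) : K) = 0 := by
        rw [uD_val, D.ord_eq, ha0]
      rw [G.unit (dP δ P) _ _ e1 e2, h2 l k K z hz δ P a hP ha0, ha1, uD_val, D.ord_eq,
        Units.val_mk0, hπ]
      simp
  -- a prime not above l
  obtain ⟨P0, hP0'⟩ := bk7_ex {P : HeightOneSpectrum (𝓞 K) | ord P (l : K) ≠ 0}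
    (ord_finite (Nat.cast_ne_zero.2 hlp.ne_zero))
  have hP0 : ord P0 (l : K) = 0 := by simpa using hP0'
  obtain ⟨a0, b0, hab0, _⟩ := hval P0 hP0
  have hne : G.hs P0 a0 b0 ≠ 0 := by
    rw [hab0]
    exact G.cc_ne P0
  have ht1 : t 1 = 1 := by
    have e := ht 1 P0 a0 b0
    rw [D.one, D.one', D.one'] at e
    exact (mul_right_cancel₀ hne (by rw [one_mul]; exact e)).symm
  have htm : ∀ δ δ' : K ≃ₐ[k] K, t (δ * δ') = t δ * t δ' := by
    intro δ δ'
    have e := ht (δ * δ') P0 a0 b0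
    rw [D.mul, D.mul', D.mul', ht, ht, ← mul_assoc] at e
    exact (mul_right_cancel₀ hne e).symm
  let χ : (K ≃ₐ[k] K) →* (ZMod l)ˣ :=
    { toFun := fun δ => Units.mk0 (t δ) (ht0 δ) * (cyK k hz δ)⁻¹
      map_one' := by
        rw [map_one, inv_one, mul_one]
        ext
        exact ht1
      map_mul' := fun δ δ' => by
        have e : Units.mk0 (t (δ * δ')) (ht0 (δ * δ')) =
            Units.mk0 (t δ) (ht0 δ) * Units.mk0 (t δ') (ht0 δ') := by
          ext
          exact htm δ δ'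
        rw [e, map_mul, mul_inv]
        exact mul_mul_mul_comm _ _ _ _ }
  have hχ : ∀ δ : K ≃ₐ[k] K, δ ∈ χ.ker ↔ t δ = (cyK k hz δ : ZMod l) := by
    intro δ
    rw [MonoidHom.mem_ker]
    show Units.mk0 (t δ) (ht0 δ) * (cyK k hz δ)⁻¹ = 1 ↔ _
    rw [mul_inv_eq_one, Units.ext_iff, Units.val_mk0]
  have htop : χ.ker = ⊤ := by
    refine bk7_top h1 h3 χ.ker l hlp.ne_zero fun Q δ hQ hδ => ?_
    rw [hχ]
    obtain ⟨a, b, hab, hab2⟩ := hval Q hQ
    have e := hab2 δ
    rw [ht δ Q a b, hab, hδ, mul_comm (G.cc Q)] at e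
    exact mul_right_cancel₀ (G.cc_ne Q) e
  have hall : ∀ δ : K ≃ₐ[k] K, t δ = (cyK k hz δ : ZMod l) := by
    intro δ
    rw [← hχ, htop]
    trivial
  refine ⟨fun δ P a b => by rw [ht, hall], fun δ P hP => ?_⟩
  obtain ⟨a, b, hab, hab2⟩ := hval P hP
  have e := hab2 δ
  rw [ht δ P a b, hab, hall, mul_comm] at e
  exact (mul_right_cancel₀ (Units.ne_zero (cyK k hz δ)) e).symm

end Pool.Agent.H92.EL
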