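import Pool.Agent.H92.EL.BKStm

/-!
# Project ELL (MP_a3214d), block B, row BK8: stable Lagrangian complements
-/

set_option autoImplicit false

open scoped BigOperators
open NumberField IsDedekindDomain

namespace Pool.Agent.H92.EL

/-- the form identifies a space with its dual -/
private theorem bk8_perp {F V : Type} [Field F] [AddCommGroup V] [Module F V]
    [FiniteDimensional F V] (B : V →ₗ[F] V →ₗ[F] F)
    (hnd : ∀ x, (∀ y, B x y = 0) → x = 0) (U : Submodule F V)
    (hUi : ∀ x ∈ U, ∀ y ∈ U, B x y = 0)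
    (hdim : Module.finrank F V = 2 * Module.finrank F U) (x : V)
    (hx : ∀ u ∈ U, B x u = 0) : x ∈ U := by
  classical
  have hinj : Function.Injective (B : V →ₗ[F] Module.Dual F V) := by
    rw [← LinearMap.ker_eq_bot, LinearMap.ker_eq_bot']
    intro m hm
    exact hnd m fun y => by rw [hm]; rfl
  have hsurj : Function.Surjective (B : V →ₗ[F] Module.Dual F V) :=
    (LinearMap.injective_iff_surjective_of_finrank_eq_finrank
      (Subspace.dual_finrank_eq (K := F) (V := V)).symm).1 hinj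
  let T : V →ₗ[F] Module.Dual F U := (U.subtype.dualMap).comp (B : V →ₗ[F] Module.Dual F V)
  have hTs : Function.Surjective T := by
    have h1 : Function.Surjective (U.subtype.dualMap) :=
      LinearMap.dualMap_surjective_of_injective U.injective_subtype
    exact h1.comp hsurj
  have hTr : Module.finrank F (LinearMap.range T) = Module.finrank F U := by
    rw [LinearMap.range_eq_top.2 hTs, finrank_top]
    exact Subspace.dual_finrank_eq
  have h3 := LinearMap.finrank_range_add_finrank_ker T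
  have hker : Module.finrank F (LinearMap.ker T) = Module.finrank F U := by omega
  have hle : U ≤ LinearMap.ker T := by
    intro u hu
    rw [LinearMap.mem_ker]
    ext w
    exact hUi u hu w w.2
  have heq : U = LinearMap.ker T := Submodule.eq_of_le_of_finrank_eq hle hker.symm
  rw [heq, LinearMap.mem_ker]
  ext w
  exact hx w w.2

/-- a Lagrangian complement, as a projection -/
private theorem bk8_lag {F V : Type} [Field F] [AddCommGroup V] [Module F V]
    [FiniteDimensional F V] (h2 : (2 : F) ≠ 0) (B : V →ₗ[F] V →ₗ[F] F) (halt : ∀ x, B x x = 0)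
    (hnd : ∀ x, (∀ y, B x y = 0) → x = 0) (U : Submodule F V)
    (hUi : ∀ x ∈ U, ∀ y ∈ U, B x y = 0)
    (hdim : Module.finrank F V = 2 * Module.finrank F U) :
    ∃ p : V →ₗ[F] V, (∀ u ∈ U, p u = 0) ∧ (∀ x, x - p x ∈ U) ∧
      ∀ x y, B (p x) y + B x (p y) = B x y := by
  classical
  have hinj : Function.Injective (B : V →ₗ[F] Module.Dual F V) := by
    rw [← LinearMap.ker_eq_bot, LinearMap.ker_eq_bot']
    intro m hm
    exact hnd m fun y => by rw [hm]; rfl
  have hanti : ∀ x y, B x y = - B y x := by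
    intro x y
    have h := halt (x + y)
    simp only [map_add, LinearMap.add_apply, halt] at h
    linear_combination h
  obtain ⟨g, hg⟩ := LinearMap.exists_leftInverse_of_injective U.subtype
    (LinearMap.ker_eq_bot.2 U.injective_subtype)
  have hg' : ∀ u : U, g (u : V) = u := fun u => by
    have := LinearMap.congr_fun hg u
    simpa using this
  let q : V →ₗ[F] V := LinearMap.id - U.subtype.comp g
  have hq0 : ∀ u ∈ U, q u = 0 := by
    intro u hu
    have h := hg' ⟨u, hu⟩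
    simp only [q, LinearMap.sub_apply, LinearMap.id_apply, LinearMap.comp_apply,
      Submodule.subtype_apply]
    rw [show g u = ⟨u, hu⟩ from h]
    simp
  have hqU : ∀ x, x - q x ∈ U := by
    intro x
    have : x - q x = (g x : V) := by
      simp [q]
    rw [this]
    exact (g x).2
  let E : V ≃ₗ[F] Module.Dual F V := LinearEquiv.ofBijective (B : V →ₗ[F] Module.Dual F V)
    ⟨hinj, (LinearMap.injective_iff_surjective_of_finrank_eq_finrank
      (Subspace.dual_finrank_eq (K := F) (V := V)).symm).1 hinj⟩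
  have hE : ∀ (f : Module.Dual F V) (y : V), B (E.symm f) y = f y := by
    intro f y
    have h : E (E.symm f) = f := E.apply_symm_apply f
    have h' : (B (E.symm f) : Module.Dual F V) = f := h
    rw [h']
  let C : V →ₗ[F] Module.Dual F V := (-(2 : F)⁻¹) • (B.compl₁₂ q q)
  have hC : ∀ x y, C x y = -(2 : F)⁻¹ * B (q x) (q y) := by
    intro x y
    simp [C, LinearMap.compl₁₂_apply]
  let φ : V →ₗ[F] V := (E.symm : Module.Dual F V →ₗ[F] V).comp C
  have hφ : ∀ x y, B (φ x) y = -(2 : F)⁻¹ * B (q x) (q y) := by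
    intro x y
    have : φ x = E.symm (C x) := rfl
    rw [this, hE, hC]
  refine ⟨q + φ, ?_, ?_, ?_⟩
  · intro u hu
    have h1 : φ u = 0 := by
      apply hnd
      intro y
      rw [hφ, hq0 u hu]
      simp
    rw [LinearMap.add_apply, hq0 u hu, h1, add_zero]
  · intro x
    have h1 : φ x ∈ U := by
      apply bk8_perp B hnd U hUi hdim
      intro u hu
      rw [hφ, hq0 u hu]
      simp
    have : x - (q + φ) x = (x - q x) - φ x := by
      rw [LinearMap.add_apply]; abel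
    rw [this]
    exact U.sub_mem (hqU x) h1
  · intro x y
    have h0 : B (x - q x) (y - q y) = 0 := hUi _ (hqU x) _ (hqU y)
    have h1 : B (φ x) y = -(2 : F)⁻¹ * B (q x) (q y) := hφ x y
    have h3 : B x (φ y) = (2 : F)⁻¹ * B (q y) (q x) := by
      rw [hanti, hφ]; ring
    have h4 : B (q y) (q x) = - B (q x) (q y) := hanti _ _
    simp only [LinearMap.add_apply, map_add]
    simp only [map_sub, LinearMap.sub_apply] at h0
    rw [h1, h3, h4]
    have h5 : (2 : F)⁻¹ * 2 = 1 := inv_mul_cancel₀ h2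
    linear_combination -h0 - B (q x) (q y) * h5

/-- the version for vector spaces -/
private theorem bk8_vs {F V D : Type} [Field F] [AddCommGroup V] [Module F V]
    [FiniteDimensional F V] [Group D] [Fintype D] (h2 : (2 : F) ≠ 0)
    (hD : (Fintype.card D : F) ≠ 0) (R : D → V →ₗ[F] V) (hR1 : ∀ v, R 1 v = v)
    (hRm : ∀ d d' v, R (d * d') v = R d (R d' v)) (e : D → F) (B : V →ₗ[F] V →ₗ[F] F)
    (halt : ∀ x, B x x = 0) (hnd : ∀ x, (∀ y, B x y = 0) → x = 0)
    (heq : ∀ d x y, B (R d x) (R d y) = e d * B x y) (U : Submodule F V)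
    (hUi : ∀ x ∈ U, ∀ y ∈ U, B x y = 0)
    (hdim : Module.finrank F V = 2 * Module.finrank F U) (hUs : ∀ d, ∀ x ∈ U, R d x ∈ U) :
    ∃ W : Submodule F V, (∀ d, ∀ x ∈ W, R d x ∈ W) ∧ (∀ x ∈ W, ∀ y ∈ W, B x y = 0) ∧
      (∀ x, ∃ u ∈ U, x - u ∈ W) ∧ ∀ u ∈ U, u ∈ W → u = 0 := by
  classical
  obtain ⟨p, hp0, hpU, hpB⟩ := bk8_lag h2 B halt hnd U hUi hdim
  have hRi : ∀ d v, R d (R d⁻¹ v) = v := by
    intro d v
    rw [← hRm, mul_inv_cancel, hR1]
  let P : V →ₗ[F] V := (Fintype.card D : F)⁻¹ • ∑ d : D, (R d).comp (p.comp (R d⁻¹))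
  have hP : ∀ x, P x = (Fintype.card D : F)⁻¹ • ∑ d : D, R d (p (R d⁻¹ x)) := by
    intro x
    simp [P, LinearMap.sum_apply]
  have hP0 : ∀ u ∈ U, P u = 0 := by
    intro u hu
    rw [hP]
    rw [Finset.sum_eq_zero, smul_zero]
    intro d _
    rw [hp0 _ (hUs _ u hu), map_zero]
  have hcard : ∀ x : V, x = (Fintype.card D : F)⁻¹ • ∑ _d : D, x := by
    intro x
    rw [Finset.sum_const, Finset.card_univ, ← Nat.cast_smul_eq_nsmul F, smul_smul,
      inv_mul_cancel₀ hD, one_smul]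
  have hPU : ∀ x, x - P x ∈ U := by
    intro x
    have h : x - P x = (Fintype.card D : F)⁻¹ • ∑ d : D, (R d (R d⁻¹ x - p (R d⁻¹ x))) := by
      rw [hP]
      conv_lhs => rw [hcard x]
      rw [← smul_sub, ← Finset.sum_sub_distrib]
      congr 1
      apply Finset.sum_congr rfl
      intro d _
      rw [map_sub, hRi]
      simp only [← hcard]
    rw [h]
    exact U.smul_mem _ (U.sum_mem fun d _ => hUs d _ (hpU _))
  have hPB : ∀ x y, B (P x) y + B x (P y) = B x y := by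
    intro x y
    have key : ∀ d, B (R d (p (R d⁻¹ x))) y + B x (R d (p (R d⁻¹ y))) = B x y := by
      intro d
      have e1 : B (R d (p (R d⁻¹ x))) y = e d * B (p (R d⁻¹ x)) (R d⁻¹ y) := by
        rw [← heq, hRi]
      have e2 : B x (R d (p (R d⁻¹ y))) = e d * B (R d⁻¹ x) (p (R d⁻¹ y)) := by
        rw [← heq, hRi]
      rw [e1, e2, ← mul_add, hpB, ← heq, hRi, hRi]
    rw [hP, hP]
    simp only [map_smul, map_sum, LinearMap.smul_apply, LinearMap.sum_apply, smul_eq_mul]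
    rw [← mul_add, ← Finset.sum_add_distrib]
    rw [Finset.sum_congr rfl fun d _ => key d, Finset.sum_const, Finset.card_univ,
      nsmul_eq_mul, ← mul_assoc, inv_mul_cancel₀ hD, one_mul]
  have hPR : ∀ c x, P (R c x) = R c (P x) := by
    intro c x
    rw [hP, hP, map_smul, map_sum]
    congr 1
    refine Fintype.sum_bijective (fun d => c⁻¹ * d) (Group.mulLeft_bijective c⁻¹) _ _ ?_
    intro d
    have h1 : R d⁻¹ (R c x) = R (c⁻¹ * d)⁻¹ x := by
      rw [← hRm, mul_inv_rev, inv_inv]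
    rw [h1, ← hRm c, mul_inv_cancel_left]
  have hPP : ∀ x, P (P x) = P x := by
    intro x
    have h := hP0 _ (hPU x)
    rw [map_sub, sub_eq_zero] at h
    exact h.symm
  refine ⟨LinearMap.ker (LinearMap.id - P), ?_, ?_, ?_, ?_⟩
  · intro d x hx
    rw [LinearMap.mem_ker, LinearMap.sub_apply, LinearMap.id_apply, sub_eq_zero] at hx ⊢
    rw [hPR, ← hx]
  · intro x hx y hy
    rw [LinearMap.mem_ker, LinearMap.sub_apply, LinearMap.id_apply, sub_eq_zero] at hx hy
    have h := hPB x y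
    rw [← hx, ← hy] at h
    linear_combination h
  · intro x
    refine ⟨x - P x, hPU x, ?_⟩
    rw [LinearMap.mem_ker, LinearMap.sub_apply, LinearMap.id_apply, sub_eq_zero, sub_sub_cancel]
    exact (hPP x).symm
  · intro u hu hw
    rw [LinearMap.mem_ker, LinearMap.sub_apply, LinearMap.id_apply, sub_eq_zero, hP0 u hu] at hw
    exact hw

/-- the version with a chosen quotient map -/
private theorem bk8_core (l : ℕ) [hl : Fact l.Prime] (h2 : l ≠ 2) (M : Type) [CommGroup M]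
    (D : Type) [Group D] [Finite D] (ρ : D → M →* M) (e : D →* (ZMod l)ˣ) (B : M → M → ZMod l)
    (N U : Subgroup M) (m : ℕ) (hD : ¬ l ∣ Nat.card D) (hρ1 : ∀ a, ρ 1 a = a)
    (hρm : ∀ d d' a, ρ (d * d') a = ρ d (ρ d' a))
    (hBl : ∀ a b c, B (a * b) c = B a c + B b c) (hBr : ∀ a b c, B a (b * c) = B a b + B a c)
    (halt : ∀ a, B a a = 0) (hrad : ∀ a, (∀ b, B a b = 0) ↔ a ∈ N)
    (hUi : ∀ x ∈ U, ∀ y ∈ U, B x y = 0) (hUs : ∀ d, ∀ x ∈ U, ρ d x ∈ U)
    (heq : ∀ d a b, B (ρ d a) (ρ d b) = (e d : ZMod l) * B a b)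
    (V : Type) [AddCommGroup V] [Module (ZMod l) V] [Finite V] (κ : M → V)
    (hκs : ∀ x : V, ∃ a, κ a = x) (hκm : ∀ a b, κ (a * b) = κ a + κ b)
    (hκ0 : ∀ a, κ a = 0 ↔ a ∈ N) (hcardV : Nat.card V = l ^ (2 * m))
    (hcardU : Nat.card {x : V // ∃ a ∈ U, κ a = x} = l ^ m) :
    ∃ W : Subgroup M, N ≤ W ∧ (∀ d, ∀ x ∈ W, ρ d x ∈ W) ∧ (∀ x ∈ W, ∀ y ∈ W, B x y = 0) ∧
    (∀ x, ∃ u ∈ U, x / u ∈ W) ∧ ∀ u ∈ U, u ∈ W → u ∈ N := by
  classical
  have hanti : ∀ a b, B a b = - B b a := by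
    intro a b
    have h := halt (a * b)
    rw [hBl, hBr, hBr, halt, halt] at h
    linear_combination h
  have hN0 : ∀ a ∈ N, ∀ b, B a b = 0 := fun a ha b => (hrad a).2 ha b
  have hN0' : ∀ a ∈ N, ∀ b, B b a = 0 := fun a ha b => by rw [hanti, hN0 a ha, neg_zero]
  haveI : Fintype D := Fintype.ofFinite D
  haveI : FiniteDimensional (ZMod l) V := Module.Finite.of_finite
  have hκ1 : κ 1 = 0 := (hκ0 1).2 N.one_mem
  have hκi : ∀ a, κ a⁻¹ = - κ a := by
    intro a
    have h : κ (a⁻¹ * a) = κ a⁻¹ + κ a := hκm _ _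
    rw [inv_mul_cancel, hκ1] at h
    exact eq_neg_of_add_eq_zero_left h.symm
  have hκd : ∀ a b, κ (a / b) = κ a - κ b := by
    intro a b
    rw [div_eq_mul_inv, hκm, hκi, sub_eq_add_neg]
  have hdef : ∀ d a b, κ a = κ b → κ (ρ d a) = κ (ρ d b) := by
    intro d a b h
    have h1 : a / b ∈ N := by rw [← hκ0, hκd, h, sub_self]
    have h3 : ρ d (a / b) ∈ N := by
      apply (hrad _).1
      intro c
      have hc : c = ρ d (ρ d⁻¹ c) := by rw [← hρm, mul_inv_cancel, hρ1]
      rw [hc, heq, hN0 _ h1, mul_zero]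
    rw [← hκ0, map_div, hκd, sub_eq_zero] at h3
    exact h3
  -- the form
  have hwd : ∀ a a' b b', κ a = κ a' → κ b = κ b' → B a b = B a' b' := by
    intro a a' b b' h1 h3
    have e1 : a / a' ∈ N := by rw [← hκ0, hκd, h1, sub_self]
    have e2 : b / b' ∈ N := by rw [← hκ0, hκd, h3, sub_self]
    have e3 : B a b = B a' b := by
      have : a = (a / a') * a' := by rw [div_mul_cancel]
      rw [this, hBl, hN0 _ e1, zero_add]
    have e4 : B a' b = B a' b' := by
      have : b = (b / b') * b' := by rw [div_mul_cancel]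
      rw [this, hBr, hN0' _ e2, zero_add]
    rw [e3, e4]
  choose σ hσ using hκs
  obtain ⟨f, hf'⟩ : ∃ f : V → V → ZMod l, ∀ x y, f x y = B (σ x) (σ y) := ⟨_, fun _ _ => rfl⟩
  have hf : ∀ a b, f (κ a) (κ b) = B a b := fun a b => by
    rw [hf']; exact hwd _ _ _ _ (hσ _) (hσ _)
  have hfl : ∀ x x' y, f (x + x') y = f x y + f x' y := by
    intro x x' y
    rw [hf', hf', hf', ← hBl]
    exact hwd _ _ _ _ (by rw [hσ, hκm, hσ, hσ]) rfl
  have hfr : ∀ x y y', f x (y + y') = f x y + f x y' := by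
    intro x y y'
    rw [hf', hf', hf', ← hBr]
    exact hwd _ _ _ _ rfl (by rw [hσ, hκm, hσ, hσ])
  have hfsl : ∀ (c : ZMod l) x y, f (c • x) y = c • f x y := fun c x y =>
    ZMod.map_smul (AddMonoidHom.mk' (fun x => f x y) fun a b => hfl a b y) c x
  have hfsr : ∀ (c : ZMod l) x y, f x (c • y) = c • f x y := fun c x y =>
    ZMod.map_smul (AddMonoidHom.mk' (fun y => f x y) fun a b => hfr x a b) c y
  obtain ⟨BQ, hBQ⟩ : ∃ BQ : V →ₗ[ZMod l] V →ₗ[ZMod l] ZMod l, ∀ x y, BQ x y = f x y :=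
    ⟨LinearMap.mk₂ (ZMod l) f hfl hfsl hfr hfsr, fun _ _ => rfl⟩
  -- the action
  have hg : ∀ d, ∃ g : V →ₗ[ZMod l] V, ∀ a, g (κ a) = κ (ρ d a) := by
    intro d
    refine ⟨(AddMonoidHom.mk' (fun x => κ (ρ d (σ x))) ?_).toZModLinearMap l, ?_⟩
    · intro x y
      rw [← hκm, ← map_mul]
      exact hdef d _ _ (by rw [hσ, hκm, hσ, hσ])
    · intro a
      exact hdef d _ _ (hσ _)
  choose R hR using hg
  -- the subspace
  obtain ⟨U2, hU2⟩ : ∃ U2 : Submodule (ZMod l) V, ∀ x, x ∈ U2 ↔ ∃ a ∈ U, κ a = x := by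
    refine ⟨AddSubgroup.toZModSubmodule l
      { carrier := {x | ∃ a ∈ U, κ a = x}
        add_mem' := ?_
        zero_mem' := ⟨1, U.one_mem, hκ1⟩
        neg_mem' := ?_ }, fun x => Iff.rfl⟩
    · rintro _ _ ⟨a, ha, rfl⟩ ⟨b, hb, rfl⟩
      exact ⟨a * b, U.mul_mem ha hb, hκm a b⟩
    · rintro _ ⟨a, ha, rfl⟩
      exact ⟨a⁻¹, U.inv_mem ha, hκi a⟩
  have hfrV : Module.finrank (ZMod l) V = 2 * m := by
    have h := Module.natCard_eq_pow_finrank (K := ZMod l) (V := V)
    rw [hcardV, Nat.card_zmod] at h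
    exact (Nat.pow_right_injective hl.out.two_le h).symm
  have hcardU' : Nat.card U2 = l ^ m := by
    rw [← hcardU]
    exact Nat.card_congr (Equiv.subtypeEquivRight fun x => hU2 x)
  have hfrU : Module.finrank (ZMod l) U2 = m := by
    have h := Module.natCard_eq_pow_finrank (K := ZMod l) (V := U2)
    rw [hcardU', Nat.card_zmod] at h
    exact (Nat.pow_right_injective hl.out.two_le h).symm
  have h20 : (2 : ZMod l) ≠ 0 := by
    intro h
    have h3 : ((2 : ℕ) : ZMod l) = 0 := by exact_mod_cast h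
    rw [ZMod.natCast_eq_zero_iff] at h3
    exact h2 ((Nat.prime_dvd_prime_iff_eq hl.out Nat.prime_two).1 h3)
  have hD0 : (Fintype.card D : ZMod l) ≠ 0 := by
    intro h
    rw [ZMod.natCast_eq_zero_iff, ← Nat.card_eq_fintype_card] at h
    exact hD h
  obtain ⟨W, hW1, hW2, hW3, hW4⟩ := bk8_vs h20 hD0 R
    (fun v => by obtain ⟨a, rfl⟩ : ∃ a, κ a = v := ⟨σ v, hσ v⟩; rw [hR, hρ1])
    (fun d d' v => by
      obtain ⟨a, rfl⟩ : ∃ a, κ a = v := ⟨σ v, hσ v⟩
      rw [hR, hR, hR, hρm]) (fun d => (e d : ZMod l)) BQ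
    (fun x => by
      obtain ⟨a, rfl⟩ : ∃ a, κ a = x := ⟨σ x, hσ x⟩
      rw [hBQ, hf, halt])
    (fun x hx => by
      obtain ⟨a, rfl⟩ : ∃ a, κ a = x := ⟨σ x, hσ x⟩
      rw [hκ0, ← hrad]
      intro b
      have := hx (κ b)
      rwa [hBQ, hf] at this)
    (fun d x y => by
      obtain ⟨a, rfl⟩ : ∃ a, κ a = x := ⟨σ x, hσ x⟩
      obtain ⟨b, rfl⟩ : ∃ b, κ b = y := ⟨σ y, hσ y⟩
      rw [hR, hR, hBQ, hBQ, hf, hf, heq])
    U2
    (fun x hx y hy => by
      obtain ⟨a, ha, rfl⟩ := (hU2 x).1 hx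
      obtain ⟨b, hb, rfl⟩ := (hU2 y).1 hy
      rw [hBQ, hf, hUi a ha b hb])
    (by rw [hfrV, hfrU])
    (fun d x hx => by
      obtain ⟨a, ha, rfl⟩ := (hU2 x).1 hx
      rw [hR]
      exact (hU2 _).2 ⟨_, hUs d a ha, rfl⟩)
  obtain ⟨W', hW'⟩ : ∃ W' : Subgroup M, ∀ a, a ∈ W' ↔ κ a ∈ W := by
    refine ⟨{ carrier := {a | κ a ∈ W}
              mul_mem' := ?_
              one_mem' := ?_
              inv_mem' := ?_ }, fun a => Iff.rfl⟩
    · intro a b ha hb
      change κ (a * b) ∈ W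
      rw [hκm]
      exact W.add_mem ha hb
    · change κ 1 ∈ W
      rw [hκ1]
      exact W.zero_mem
    · intro a ha
      change κ a⁻¹ ∈ W
      rw [hκi]
      exact W.neg_mem ha
  refine ⟨W', ?_, ?_, ?_, ?_, ?_⟩
  · intro a ha
    rw [hW', (hκ0 a).2 ha]
    exact W.zero_mem
  · intro d x hx
    rw [hW', ← hR]
    exact hW1 d _ ((hW' x).1 hx)
  · intro x hx y hy
    rw [← hf, ← hBQ]
    exact hW2 _ ((hW' x).1 hx) _ ((hW' y).1 hy)
  · intro x
    obtain ⟨u, hu, hxu⟩ := hW3 (κ x)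
    obtain ⟨a, ha, rfl⟩ := (hU2 u).1 hu
    exact ⟨a, ha, by rw [hW', hκd]; exact hxu⟩
  · intro u hu hw
    rw [← hκ0]
    exact hW4 _ ((hU2 _).2 ⟨u, hu, rfl⟩) ((hW' u).1 hw)

/-- BK8 -/
theorem sk8 : SK8 := by
  intro l hl h2 M _ D _ _ ρ e B N U m hD hρ1 hρm hBl hBr halt hrad hidx hUi hUx hUs heq
  have hB1 : ∀ b, B 1 b = 0 := fun b => (hrad 1).2 N.one_mem b
  have hpow : ∀ (n : ℕ) (a b : M), B (a ^ n) b = (n : ZMod l) * B a b := by
    intro n a b
    induction n with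
    | zero => simp [hB1]
    | succ n ih => rw [pow_succ, hBl, ih]; push_cast; ring
  have htor : ∀ x : Additive (M ⧸ N), l • x = 0 := by
    intro x
    obtain ⟨a, ha⟩ := QuotientGroup.mk_surjective (s := N) (Additive.toMul x)
    have h1 : x = Additive.ofMul (a : M ⧸ N) := by rw [ha]; rfl
    rw [h1, ← ofMul_pow, ← QuotientGroup.mk_pow]
    have h3 : a ^ l ∈ N := by
      apply (hrad _).1
      intro b
      rw [hpow]
      simp
    rw [(QuotientGroup.eq_one_iff _).2 h3]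
    rfl
  let _ : Module (ZMod l) (Additive (M ⧸ N)) := AddCommGroup.zmodModule htor
  have hfi : N.FiniteIndex := ⟨by rw [hidx]; exact pow_ne_zero _ hl.out.ne_zero⟩
  have hfin : Finite (M ⧸ N) := inferInstance
  have hfin2 : Finite (Additive (M ⧸ N)) := hfin
  refine bk8_core l h2 M D ρ e B N U m hD hρ1 hρm hBl hBr halt hrad hUi hUs heq
    (Additive (M ⧸ N)) (fun a => Additive.ofMul (a : M ⧸ N)) ?_ (fun a b => rfl) ?_ ?_ ?_
  · intro x
    obtain ⟨a, ha⟩ := QuotientGroup.mk_surjective (s := N) (Additive.toMul x)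
    exact ⟨a, by rw [ha]; rfl⟩
  · intro a
    rw [← QuotientGroup.eq_one_iff (N := N)]
    exact ofMul_eq_zero
  · rw [← hidx]; rfl
  · rw [← hUx]
    have h := Subgroup.relIndex_ker (K := U) (QuotientGroup.mk' N)
    rw [QuotientGroup.ker_mk'] at h
    rw [h]
    exact Nat.card_congr (Equiv.refl _)

end Pool.Agent.H92.EL
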