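import Pool.Agent.H92.EL.AStm
import Pool.Agent.H98.MF.C.C2

/-!
# Project ELL (MP_a3214d), block A: the `S`-units modulo `l`-th powers
-/

set_option autoImplicit false

open scoped BigOperators Pointwise nonZeroDivisors
open NumberField IsDedekindDomain

namespace Pool.Agent.H92.EL

open Pool.Agent.H98.MF (ord US mS)

theorem c2l_mem {l : ℕ} {G : Type} [CommGroup G] {H : Subgroup G} {x : G} :
    x ∈ pw l H ↔ ∃ b ∈ H, b ^ l = x := Iff.rfl

theorem c2l_le {l : ℕ} {G : Type} [CommGroup G] (H : Subgroup G) : pw l H ≤ H := by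
  rintro x ⟨b, hb, rfl⟩
  exact pow_mem hb l

/-- adding a homomorphism to the integers multiplies the index of the powers by `l` -/
theorem c2l_mul {l : ℕ} (hl : l ≠ 0) {G : Type} [CommGroup G] (A B : Subgroup G)
    (f : G →* Multiplicative ℤ) (hA : A = B ⊓ f.ker) (hf : ∃ b ∈ B, f b ≠ 1) :
    (pw l B).relIndex B = l * (pw l A).relIndex A := by
  have hl' : NeZero l := ⟨hl⟩
  have hAB : A ≤ B := hA ▸ inf_le_left
  have hm : ∀ x, x ∈ A ↔ x ∈ B ∧ f x = 1 := fun x => by
    rw [hA, Subgroup.mem_inf, MonoidHom.mem_ker]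
  -- torsion freeness of the integers
  have htf : ∀ z : Multiplicative ℤ, ∀ n : ℤ, n ≠ 0 → z ^ n = 1 → z = 1 := by
    intro z n hn hz
    have h1 : n • Multiplicative.toAdd z = 0 := by
      rw [← toAdd_zpow, hz]
      rfl
    rw [smul_eq_mul] at h1
    rcases mul_eq_zero.1 h1 with h2 | h2
    · exact absurd h2 hn
    · exact h2
  -- a generator of the image
  obtain ⟨⟨z, hzB⟩, hz⟩ := IsCyclic.exists_generator (α := (B.map f : Subgroup (Multiplicative ℤ)))
  obtain ⟨g, hgB, hgz⟩ := hzB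
  have hgen : ∀ b ∈ B, ∃ n : ℤ, f b = z ^ n := by
    intro b hb
    obtain ⟨n, hn⟩ := Subgroup.mem_zpowers_iff.1 (hz ⟨f b, b, hb, rfl⟩)
    refine ⟨n, ?_⟩
    have h2 := congrArg Subtype.val hn
    simpa using h2.symm
  have hz1 : z ≠ 1 := by
    intro h
    obtain ⟨b, hb, hb1⟩ := hf
    obtain ⟨n, hn⟩ := hgen b hb
    exact hb1 (by rw [hn, h, one_zpow])
  have huq : ∀ m n : ℤ, z ^ m = z ^ n → m = n := by
    intro m n h
    by_contra hmn
    apply hz1
    refine htf z (m - n) (sub_ne_zero.2 hmn) ?_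
    rw [zpow_sub, h, mul_inv_cancel]
  choose! e he using hgen
  have e1 : (A ⊔ pw l B).relIndex B = l := by
    let φ : B →* Multiplicative (ZMod l) :=
      MonoidHom.mk' (fun b => Multiplicative.ofAdd ((e (b : G) : ℤ) : ZMod l)) (fun b c => by
        have h1 : e ((b * c : B) : G) = e (b : G) + e (c : G) := by
          apply huq
          rw [← he _ (b * c).2, zpow_add, ← he _ b.2, ← he _ c.2, Subgroup.coe_mul, map_mul]
        rw [h1, Int.cast_add, ofAdd_add])
    have hφ : ∀ b : B, φ b = Multiplicative.ofAdd ((e (b : G) : ℤ) : ZMod l) := fun b => rfl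
    have hk : (A ⊔ pw l B).subgroupOf B = φ.ker := by
      ext b
      rw [Subgroup.mem_subgroupOf, MonoidHom.mem_ker, hφ, ofAdd_eq_one,
        ZMod.intCast_zmod_eq_zero_iff_dvd]
      constructor
      · intro h
        obtain ⟨a, ha, c, hc, hac⟩ := Subgroup.mem_sup.1 h
        obtain ⟨d, hd, rfl⟩ := c2l_mem.1 hc
        refine ⟨e d, huq _ _ ?_⟩
        rw [← he _ b.2, ← hac, map_mul, ((hm a).1 ha).2, one_mul, map_pow, he _ hd,
          mul_comm (l : ℤ), zpow_mul, zpow_natCast]
      · rintro ⟨m, hm'⟩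
        refine Subgroup.mem_sup.2 ⟨(b : G) * ((g ^ m) ^ l)⁻¹, ?_, (g ^ m) ^ l,
          c2l_mem.2 ⟨g ^ m, zpow_mem hgB m, rfl⟩, inv_mul_cancel_right _ _⟩
        refine (hm _).2 ⟨mul_mem b.2 (inv_mem (pow_mem (zpow_mem hgB m) l)), ?_⟩
        rw [map_mul, map_inv, map_pow, map_zpow, hgz, he _ b.2, hm', mul_comm (l : ℤ), zpow_mul,
          zpow_natCast, mul_inv_cancel]
    have hs : Function.Surjective φ := by
      intro y
      obtain ⟨n, hn⟩ := ZMod.intCast_surjective (Multiplicative.toAdd y)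
      refine ⟨⟨g ^ n, zpow_mem hgB n⟩, ?_⟩
      have h2 : e (g ^ n) = n := by
        apply huq
        rw [← he _ (zpow_mem hgB n), map_zpow, hgz]
      rw [hφ]
      show Multiplicative.ofAdd ((e (g ^ n) : ℤ) : ZMod l) = y
      rw [h2, hn]
      rfl
    rw [Subgroup.relIndex, hk, Subgroup.index_ker, MonoidHom.range_eq_top.2 hs,
      Subgroup.card_top]
    exact Nat.card_zmod l
  have e2 : (pw l B).relIndex (A ⊔ pw l B) = (pw l A).relIndex A := by
    rw [Subgroup.relIndex_sup_right, ← Subgroup.inf_relIndex_right]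
    congr 1
    ext x
    rw [Subgroup.mem_inf]
    constructor
    · rintro ⟨h1, h2⟩
      obtain ⟨b, hb, rfl⟩ := c2l_mem.1 h1
      refine c2l_mem.2 ⟨b, (hm b).2 ⟨hb, ?_⟩, rfl⟩
      have h3 := ((hm _).1 h2).2
      rw [map_pow] at h3
      exact htf _ l (by exact_mod_cast hl) (by exact_mod_cast h3)
    · intro h
      obtain ⟨b, hb, rfl⟩ := c2l_mem.1 h
      exact ⟨c2l_mem.2 ⟨b, hAB hb, rfl⟩, pow_mem hb l⟩
  rw [← Subgroup.relIndex_mul_relIndex (pw l B) (A ⊔ pw l B) B le_sup_right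
    (sup_le hAB (c2l_le B)), e1, e2, mul_comm]

/-- the powers of a subgroup under an injective homomorphism -/
theorem c2l_map {l : ℕ} {G G' : Type} [CommGroup G] [CommGroup G'] (f : G →* G')
    (hf : Function.Injective f) (H : Subgroup G) :
    (pw l (H.map f)).relIndex (H.map f) = (pw l H).relIndex H := by
  have h : pw l (H.map f) = (pw l H).map f := by
    ext x
    constructor
    · intro hx
      obtain ⟨b, ⟨c, hc, rfl⟩, rfl⟩ := c2l_mem.1 hx
      exact ⟨c ^ l, c2l_mem.2 ⟨c, hc, rfl⟩, map_pow f c l⟩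
    · rintro ⟨y, hy, rfl⟩
      obtain ⟨c, hc, rfl⟩ := c2l_mem.1 hy
      exact c2l_mem.2 ⟨f c, ⟨c, hc, rfl⟩, (map_pow f c l).symm⟩
  rw [h, Subgroup.relIndex_map_map_of_injective _ _ hf]

section

open Pool.Agent.H98.MF.B (c2_B c2_f mem_c2_B c2_f_apply c2_e_fund c2_B_univ c2_US_empty c2_gen
  ordH ordH_apply mem_US)

variable (k : Type) [Field k] [NumberField k]

theorem c2l_step {l : ℕ} (hl : l ≠ 0) (s : Finset (Fin (Units.rank k))) :
    (pw l (⊤ : Subgroup (𝓞 k)ˣ)).relIndex ⊤ =
      l ^ s.card * (pw l (c2_B k s)).relIndex (c2_B k s) := by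
  classical
  induction s using Finset.induction_on with
  | empty =>
    have h : c2_B k ∅ = ⊤ := by
      unfold c2_B
      simp
    rw [h, Finset.card_empty, pow_zero, one_mul]
  | insert i s hi ih =>
    rw [ih, c2l_mul hl (c2_B k (insert i s)) (c2_B k s) (c2_f k i),
      Finset.card_insert_of_notMem hi, pow_succ, mul_assoc]
    · ext x
      rw [Subgroup.mem_inf, mem_c2_B, mem_c2_B, MonoidHom.mem_ker, c2_f_apply, ofAdd_eq_one]
      simp only [Finset.mem_insert, forall_eq_or_imp]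
      exact and_comm
    · refine ⟨Units.fundSystem k i, (mem_c2_B k).2 fun j hj => ?_, ?_⟩
      · rw [c2_e_fund, Pi.single_eq_of_ne]
        rintro rfl
        exact hi hj
      · rw [c2_f_apply, c2_e_fund, Pi.single_eq_same]
        intro h
        rw [ofAdd_eq_one] at h
        exact one_ne_zero h

theorem c2l_tors {l : ℕ} (hl : l ≠ 0) {z : k} (hz : IsPrimitiveRoot z l) :
    (pw l (Units.torsion k)).relIndex (Units.torsion k) = l := by
  have hl' : NeZero l := ⟨hl⟩
  have h1 : (pw l (Units.torsion k)).subgroupOf (Units.torsion k) =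
      (powMonoidHom l : Units.torsion k →* Units.torsion k).range := by
    ext ⟨x, hx⟩
    rw [Subgroup.mem_subgroupOf, c2l_mem]
    constructor
    · rintro ⟨b, hb, hbx⟩
      exact ⟨⟨b, hb⟩, Subtype.ext hbx⟩
    · rintro ⟨⟨b, hb⟩, hbx⟩
      exact ⟨b, hb, congrArg Subtype.val hbx⟩
  rw [Subgroup.relIndex, h1, IsCyclic.index_powMonoidHom_range]
  exact Nat.gcd_eq_right (Units.dvd_torsionOrder_of_isPrimitiveRoot hz)

theorem c2l_units {l : ℕ} (hl : l ≠ 0) {z : k} (hz : IsPrimitiveRoot z l) :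
    (pw l (⊤ : Subgroup (𝓞 k)ˣ)).relIndex ⊤ =
    l ^ (InfinitePlace.nrRealPlaces k + InfinitePlace.nrComplexPlaces k) := by
  rw [c2l_step k hl Finset.univ, c2_B_univ, c2l_tors k hl hz, ← pow_succ]
  congr 1
  rw [Finset.card_univ, Fintype.card_fin, Units.rank,
    ← InfinitePlace.card_eq_nrRealPlaces_add_nrComplexPlaces]
  have h := Fintype.card_pos (α := InfinitePlace k)
  omega

/-- C2: the `S`-units modulo `l`-th powers -/
theorem sc2 : SC2 := by
  classical
  intro l hl K _ _ z hz S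
  have hl0 : l ≠ 0 := hl.ne_zero
  induction S using Finset.induction_on with
  | empty =>
    have hinj : Function.Injective (Units.map (algebraMap (𝓞 K) K : 𝓞 K →* K)) :=
      Units.map_injective (FaithfulSMul.algebraMap_injective _ _)
    rw [c2_US_empty, c2l_map _ hinj, c2l_units K hl0 hz]
    unfold mS
    rw [Finset.card_empty, zero_add]
  | insert P S hP ih =>
    rw [c2l_mul hl0 (US S) (US (insert P S)) (ordH P), ih]
    · unfold mS
      rw [Finset.card_insert_of_notMem hP, ← pow_succ']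
      congr 1
      ring
    · ext a
      rw [Subgroup.mem_inf, mem_US, mem_US, MonoidHom.mem_ker, ordH_apply, ofAdd_eq_one]
      constructor
      · intro h
        exact ⟨fun Q hQ => h Q fun h' => hQ (Finset.mem_insert_of_mem h'), h P hP⟩
      · rintro ⟨h1, h2⟩ Q hQ
        by_cases hQP : Q = P
        · rw [hQP, h2]
        · exact h1 Q fun h' => (Finset.mem_insert.1 h').elim hQP hQ
    · obtain ⟨a, ha, ha'⟩ := c2_gen K P
      refine ⟨a, mem_US.2 fun Q hQ => ha' Q fun h => hQ (h ▸ Finset.mem_insert_self _ _), ?_⟩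
      rw [ordH_apply]
      intro h
      exact ha (ofAdd_eq_one.1 h)

end

end Pool.Agent.H92.EL
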