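import Pool.Agent.H92.EL.BKStm
import Pool.Agent.H92.EL.Mem
import Pool.Agent.H92.EL.Wk
import Pool.Agent.H92.EL.C2

/-!
# Project ELL (MP_a3214d), block B, row BK9: stable complements of the `S`-units
-/

set_option autoImplicit false

open scoped BigOperators
open NumberField IsDedekindDomain

namespace Pool.Agent.H92.EL

open Pool.Agent.H98.MF (Om Gm ord Dec US PrS mS nrm gen cj Pre preK)

section

variable {l : ℕ} [Fact l.Prime] {K : Type} [Field K] [NumberField K] {z : K}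

private theorem bk9_mem_KW {S : Finset (HeightOneSpectrum (𝓞 K))} {a : Kˣ} :
    a ∈ KW l S ↔ ∀ P ∈ S, a ∈ WS l P := by
  unfold KW
  simp only [Subgroup.mem_iInf]

private theorem bk9_hs1 (G : GSy l K z) (P : HeightOneSpectrum (𝓞 K)) (a : Kˣ) :
    G.hs P a 1 = 0 := by
  have h := G.mulR P a 1 1
  rw [mul_one] at h
  exact left_eq_add.1 h

private theorem bk9_anti (G : GSy l K z) (P : HeightOneSpectrum (𝓞 K)) (a b : Kˣ) :
    G.hs P a b = - G.hs P b a := by
  have h := G.alt P (a * b)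
  rw [G.mulL, G.mulR, G.mulR, G.alt, G.alt] at h
  rw [zero_add, add_zero] at h
  exact eq_neg_of_add_eq_zero_left h

private theorem bk9_ws (G : GSy l K z) {P : HeightOneSpectrum (𝓞 K)} {a : Kˣ} :
    a ∈ WS l P ↔ ∀ b, G.hs P a b = 0 := by
  rw [smem l Fact.out K P a, G.nd]

private theorem bk9_ker (G : GSy l K z) (S : Finset (HeightOneSpectrum (𝓞 K))) (a : Kˣ) :
    (∀ b, ∑ P ∈ S, G.hs P a b = 0) ↔ a ∈ KW l S := by
  classical
  rw [bk9_mem_KW]
  constructor
  · intro h P0 hP0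
    rw [bk9_ws G]
    intro b
    obtain ⟨x, hx⟩ := swk l Fact.out K S (fun P => if P = P0 then b else 1)
    have h1 := h x
    have h2 : ∀ P ∈ S, P ≠ P0 → G.hs P a x = 0 := by
      intro P hP hne
      have h3 := hx P hP
      rw [if_neg hne, div_one, bk9_ws G] at h3
      rw [bk9_anti, h3 a, neg_zero]
    rw [Finset.sum_eq_single P0 h2 (fun h4 => absurd hP0 h4)] at h1
    have h3 := hx P0 hP0
    rw [if_pos rfl, bk9_ws G] at h3
    have h4 : G.hs P0 a x = G.hs P0 a b + G.hs P0 a (x / b) := by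
      rw [← G.mulR, mul_div_cancel]
    rw [h1, bk9_anti G P0 a (x / b), h3 a, neg_zero, add_zero] at h4
    exact h4.symm
  · intro h b
    exact Finset.sum_eq_zero fun P hP => (bk9_ws G).1 (h P hP) b

private theorem bk9_pw (S : Finset (HeightOneSpectrum (𝓞 K))) (y : Kˣ) : y ^ l ∈ KW l S := by
  rw [bk9_mem_KW]
  intro P _
  refine Subgroup.subset_closure ?_
  intro n
  refine ⟨((y⁻¹ : Kˣ) : K), Or.inl ?_⟩
  rw [← Units.val_pow_eq_pow_val, ← Units.val_mul, ← mul_pow, mul_inv_cancel, one_pow,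
    Units.val_one]

private theorem bk9_inf (G : GSy l K z) (hG : GlF G) {S : Finset (HeightOneSpectrum (𝓞 K))}
    (hS : AdmL l S) : KW l S ⊓ US S = pw l (US S) := by
  ext x
  constructor
  · rintro ⟨h1, h2⟩
    exact hG.inj S hS x h2 h1
  · rintro ⟨y, hy, rfl⟩
    exact ⟨bk9_pw S y, pow_mem hy l⟩

end

theorem sk9 (h1 : SK1) (h3 : SK3) (h8 : SK8) (hI : SCI) : SK9 := by
  classical
  intro l _ hl2 k K _ _ _ _ _ z hz hC G hG hE T S hTS hS
  have hlp : l.Prime := Fact.out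
  have hD := h1 l hlp k K
  haveI := hC.gal
  -- the set `S` is stable
  have hst : ∀ (δ : K ≃ₐ[k] K), ∀ P ∈ S, dP δ P ∈ S := by
    intro δ Q hQ
    obtain ⟨P, hP, hPQ⟩ := (hTS Q).1 hQ
    exact (hTS _).2 ⟨P, hP, (h3 k K P Q (dP δ Q) hPQ).2 ⟨δ, rfl⟩⟩
  have hinv : ∀ (δ : K ≃ₐ[k] K) (P : HeightOneSpectrum (𝓞 K)), dP δ⁻¹ (dP δ P) = P := by
    intro δ P
    rw [← hD.mul, inv_mul_cancel, hD.one]
  have hinv' : ∀ (δ : K ≃ₐ[k] K) (P : HeightOneSpectrum (𝓞 K)), dP δ (dP δ⁻¹ P) = P := by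
    intro δ P
    rw [← hD.mul, mul_inv_cancel, hD.one]
  -- the order of the Galois group
  have hinj : Function.Injective (cyK k hz) := by
    rw [injective_iff_map_eq_one]
    intro δ hδ
    refine hC.inj δ ?_
    have h4 := hz.autToPow_spec k δ
    have h5 : hz.autToPow k δ = 1 := hδ
    rw [h5, Units.val_one] at h4
    rw [← h4]
    have h6 : (1 : ZMod l).val = 1 := by
      haveI : Fact (1 < l) := ⟨hlp.one_lt⟩
      exact ZMod.val_one l
    rw [h6, pow_one]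
  have hcard : ¬ l ∣ Nat.card (K ≃ₐ[k] K) := by
    intro hdvd
    have h4 : Nat.card (K ≃ₐ[k] K) ≤ Nat.card (ZMod l)ˣ := Nat.card_le_card_of_injective _ hinj
    have h5 : Nat.card (ZMod l)ˣ = l - 1 := by
      rw [Nat.card_eq_fintype_card, ZMod.card_units]
    have h6 : 0 < Nat.card (K ≃ₐ[k] K) := Nat.card_pos
    have h7 := Nat.le_of_dvd h6 hdvd
    have h8 := hlp.one_lt
    omega
  obtain ⟨W, w1, w2, w3, w4, w5⟩ := h8 l hl2 Kˣ (K ≃ₐ[k] K) (fun δ => uD δ) (cyK k hz)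
    (fun a b => ∑ P ∈ S, G.hs P a b) (KW l S) (US S) (mS S) hcard
    (fun a => hD.one' a) (fun δ δ' a => hD.mul' δ δ' a)
    (fun a b c => by
      show ∑ P ∈ S, G.hs P (a * b) c = ∑ P ∈ S, G.hs P a c + ∑ P ∈ S, G.hs P b c
      rw [← Finset.sum_add_distrib]
      exact Finset.sum_congr rfl fun P _ => G.mulL P a b c)
    (fun a b c => by
      show ∑ P ∈ S, G.hs P a (b * c) = ∑ P ∈ S, G.hs P a b + ∑ P ∈ S, G.hs P a c
      rw [← Finset.sum_add_distrib]
      exact Finset.sum_congr rfl fun P _ => G.mulR P a b c)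
    (fun a => Finset.sum_eq_zero fun P _ => G.alt P a)
    (fun a => bk9_ker G S a)
    (hI l hlp hl2 K z hz S hS.mem)
    (fun x hx y hy => G.prd S hS.mem x hx y hy)
    (by rw [← Subgroup.inf_relIndex_right, bk9_inf G hG hS]; exact sc2 l hlp K z hz S)
    (fun δ x hx => hD.us δ S x hx S (hst δ))
    (fun δ a b => by
      show ∑ P ∈ S, G.hs P (uD δ a) (uD δ b) = (cyK k hz δ : ZMod l) * ∑ P ∈ S, G.hs P a b
      rw [Finset.mul_sum]
      symm
      refine Finset.sum_nbij' (dP δ) (dP δ⁻¹) (fun P hP => hst δ P hP)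
        (fun P hP => hst δ⁻¹ P hP) (fun P _ => hinv δ P) (fun P _ => hinv' δ P) fun P _ => ?_
      exact (hE.eqv δ P a b).symm)
  exact ⟨W, ⟨w1, w2, w3, w4, fun u hu hw => hG.inj S hS u hu (w5 u hu hw)⟩⟩

end Pool.Agent.H92.EL
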