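import Pool.Agent.H92.EL.AStm
import Pool.Agent.H98.MF.C.C1
import Pool.Agent.H98.MF.C.C3c

/-!
# Project ELL (MP_a3214d), block A: principal rings of `S`-integers above
-/

set_option autoImplicit false

open scoped BigOperators Pointwise
open NumberField IsDedekindDomain

namespace Pool.Agent.H92.EL

/-- ELL-A28: for `S` large the ring of integers above `S` is principal -/
theorem spu : SPu := by
  intro K L _ _ _ _ _
  obtain ⟨S₀, -, h0⟩ := Pool.Agent.H98.MF.B.exists_PrS (k := L) ∅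
  obtain ⟨T, hT⟩ := Pool.Agent.H98.MF.B.ovr_below (k := K) (L := L) S₀
  refine ⟨T, fun S hS => ?_⟩
  obtain ⟨S', hS'⟩ := Pool.Agent.H98.MF.B.ovr_exists (L := L) S
  have hsub : S₀ ⊆ S' := hT S hS S' hS'
  refine ⟨S', hS', fun P hP => ?_⟩
  obtain ⟨a, ha, h1, h2⟩ := h0 P fun h' => hP (hsub h')
  exact ⟨a, ha, h1, fun Q hQ hne => h2 Q (fun h' => hQ (hsub h')) hne⟩

end Pool.Agent.H92.EL
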