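import Pool.Agent.H92.EL.BKStm
import Pool.Agent.H92.EL.Pu
import Pool.Agent.H98.MF.NCntS

/-!
# Project ELL (MP_a3214d), block B, the side of `K = k(μ_l)`: the frame
-/

set_option autoImplicit false

open scoped BigOperators
open NumberField IsDedekindDomain

namespace Pool.Agent.H92.EL

open Pool.Agent.H98.MF (Om Gm ord Dec US PrS mS nrm gen cj Pre preK cnt_S prm0_S)

section

variable {l : ℕ} [Fact l.Prime] {k K : Type} [Field k] [NumberField k] [Field K] [NumberField K]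
  [Algebra k K] {z : K}

theorem cyK_spec (hz : IsPrimitiveRoot z l) (δ : K ≃ₐ[k] K) :
    z ^ ((cyK k hz δ : (ZMod l)ˣ) : ZMod l).val = δ z := hz.autToPow_spec k δ

theorem cyK_inj {hz : IsPrimitiveRoot z l} (hC : Cyl k hz) : Function.Injective (cyK k hz) := by
  rw [injective_iff_map_eq_one]
  intro δ h
  apply hC.inj
  rw [← cyK_spec hz δ, h, Units.val_one, ZMod.val_one, pow_one]

/-- the Galois group is commutative -/
@[reducible] def comm_gal {hz : IsPrimitiveRoot z l} (hC : Cyl k hz) :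
    CommGroup (K ≃ₐ[k] K) :=
  { (inferInstance : Group (K ≃ₐ[k] K)) with
    mul_comm := fun a b => cyK_inj hC (by rw [map_mul, map_mul, mul_comm]) }

/-- the system of primes -/
noncomputable def mkSysL {hz : IsPrimitiveRoot z l} {G : GSy l K z}
    {S : Finset (HeightOneSpectrum (𝓞 K))} (h1 : DPf l k K) (hC : Cyl k hz)
    (hS : ∀ (δ : K ≃ₐ[k] K) (P : HeightOneSpectrum (𝓞 K)), P ∉ S → dP δ P ∉ S)
    (F : CFl k G S) (hsym : ∀ p q, F.s p q = F.s q p)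
    (hsac : ∀ (δ : K ≃ₐ[k] K) (p q p' q' : (preK S).P), p'.1 = dP δ p.1 → q'.1 = dP δ q.1 →
      F.s p' q' = (cyK k hz δ : ZMod l) * F.s p q)
    (κ C A δ : ℝ) (a1 : 0 < κ) (a2 : 0 ≤ C) (a3 : 0 ≤ A) (a4 : 0 < δ) (a5 : δ ≤ 1)
    (a6 : ∀ X : ℝ, 1 ≤ X → |(((preK S).idl X).card : ℝ) - κ * X| ≤ C * X ^ (1 - δ))
    (a7 : ∀ (f : (preK S).P →₀ ZMod l) (c : Fin (mS S) → ZMod l), (f ≠ 0 ∨ c ≠ 0) →
      ∀ X : ℝ, 1 ≤ X → ‖∑ i ∈ (preK S).idl X, chc (preK S) f.support (F.gF f c) i‖ ≤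
        C * ((preK S).nm f.support : ℝ) ^ A * X ^ (1 - δ))
    (a8 : ∀ c : Fin (mS S) → ZMod l, c ≠ 0 → ∃ C : ℝ, ∀ s : ℝ, 1 < s → s ≤ 2 →
      ‖∑' p : (preK S).P, ec (c ⬝ᵥ F.ty p) * ((((preK S).N p : ℝ) ^ (-s) : ℝ) : ℂ)‖ ≤ C)
    (a9 : ∃ C : ℝ, ∀ F : Finset (preK S).P,
      (∀ p ∈ F, ∃ δ : K ≃ₐ[k] K, δ ≠ 1 ∧ dP δ p.1 = p.1) →
        ∑ p ∈ F, ((preK S).N p : ℝ) ^ (-(3 / 4) : ℝ) ≤ C) : SysL l where
  toPre := preK S
  D := K ≃ₐ[k] K
  grp := comm_gal hC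
  fnt := inferInstance
  e := cyK k hz
  e_inj := cyK_inj hC
  ac := fun g p => ⟨dP g p.1, hS g p.1 p.2⟩
  ac_one := fun p => Subtype.ext (h1.one p.1)
  ac_mul := fun g h p => Subtype.ext (h1.mul g h p.1)
  N_ac := fun g p => h1.nrm_eq g p.1
  m := mS S
  ty := F.ty
  s := F.s
  symm := fun p q _ => hsym p q
  s_ac := fun g p q _ => hsac g p q _ _ rfl rfl
  κ := κ
  C := C
  A := A
  δ := δ
  κ_pos := a1
  C_nonneg := a2
  A_nonneg := a3
  δ_pos := a4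
  δ_le := a5
  cnt := a6
  chr := a7
  prm0 := prm0_S S
  prm := a8
  irr := by
    obtain ⟨C, hC⟩ := a9
    refine ⟨C, fun F hF => hC F fun p hp => ?_⟩
    obtain ⟨g, hg, hg2⟩ := hF p hp
    exact ⟨g, hg, congrArg Subtype.val hg2⟩

end

theorem skfr (h1 : SK1) (h3 : SK3) (h7 : SK7) (h9 : SK9) (h12 : SK12) (h13 : SK13) (h14 : SK14)
    (h16 : SK16) (h17 : SK17) (h18 : SK18) (h19 : SK19) (h20 : SK20) : SKFr := by
  classical
  intro l hl hl2 k K _ _ _ _ _ z hz hC G hG T0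
  have hD : DPf l k K := h1 l hl.out k K
  have := hC.gal
  obtain ⟨T1, hT1⟩ := spu k K
  -- the primes of `k` above `l`
  have hfin : {P : HeightOneSpectrum (𝓞 k) | ord P (l : k) ≠ 0}.Finite :=
    Pool.Agent.H98.MF.B.ord_finite (l : k) (by
      exact_mod_cast hl.out.ne_zero)
  set T : Finset (HeightOneSpectrum (𝓞 k)) := T0 ∪ T1 ∪ hfin.toFinset with hT
  obtain ⟨S, hOv, hPr⟩ := hT1 T (fun P hP =>
    Finset.mem_union_left _ (Finset.mem_union_right _ hP))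
  have hA : AdmL l S := by
    refine ⟨fun Q hQ => ?_, hPr⟩
    have hlQ : (l : 𝓞 K) ∈ Q.asIdeal := by
      have h5 := (Pool.Agent.H98.MF.le_ord_iff Q (l : 𝓞 K) 1).1 (Or.inr (by
        have h6 : ((l : 𝓞 K) : K) = (l : K) := by simp
        rw [h6]
        exact_mod_cast hQ))
      rwa [pow_one] at h5
    have hlP : (l : 𝓞 k) ∈ Q.asIdeal.comap (algebraMap (𝓞 k) (𝓞 K)) := by
      rw [Ideal.mem_comap, map_natCast]
      exact hlQ
    have hl0 : (l : 𝓞 k) ≠ 0 := by exact_mod_cast hl.out.ne_zero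
    have hPne : Q.asIdeal.comap (algebraMap (𝓞 k) (𝓞 K)) ≠ ⊥ := by
      intro h
      rw [h, Ideal.mem_bot] at hlP
      exact hl0 hlP
    have hPp : (Q.asIdeal.comap (algebraMap (𝓞 k) (𝓞 K))).IsPrime :=
      Ideal.IsPrime.comap _
    refine (hOv Q).2 ⟨⟨_, hPp, hPne⟩, ?_, rfl⟩
    refine Finset.mem_union_right _ ((Set.Finite.mem_toFinset _).2 ?_)
    have h5 := (Pool.Agent.H98.MF.le_ord_iff (⟨_, hPp, hPne⟩ : HeightOneSpectrum (𝓞 k))
      (l : 𝓞 k) 1).2 (by rw [pow_one]; exact hlP)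
    have h6 : ((l : 𝓞 k) : k) = (l : k) := by simp
    rw [h6] at h5
    have h7 := h5.resolve_left hl0
    show ord _ (l : k) ≠ 0
    push_cast at h7
    omega
  have hE : Eqv k hz G := h7 l hl2 k K z hz hC G hG
  obtain ⟨W, hW⟩ := h9 l hl2 k K z hz hC G hG hE T S hOv hA
  obtain ⟨F⟩ := h12 l k K z hz G hG T S W hOv hA hW
  have hst : ∀ (δ : K ≃ₐ[k] K) (P : HeightOneSpectrum (𝓞 K)), P ∉ S → dP δ P ∉ S := by
    intro δ P hP h
    apply hP
    obtain ⟨p, hp, hpP⟩ := (hOv _).1 h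
    refine (hOv P).2 ⟨p, hp, ?_⟩
    refine (h3 k K p (dP δ P) P hpP).2 ⟨δ⁻¹, ?_⟩
    rw [← hD.mul, inv_mul_cancel, hD.one]
  refine ⟨T, Finset.subset_union_left.trans Finset.subset_union_left, ?_⟩
  have hd : (0 : ℝ) < Module.finrank ℚ K := Nat.cast_pos.2 Module.finrank_pos
  have hd1 : (1 : ℝ) ≤ Module.finrank ℚ K := Nat.one_le_cast.2 Module.finrank_pos
  obtain ⟨κ, hκ, C1, hC1, c1⟩ := cnt_S (k := K) S
  obtain ⟨n, hn⟩ := h16 l K z hz S hA
  obtain ⟨C2, A, hC2, hA0, c2⟩ := h18 l K S hPr n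
  have c1' : ∀ X : ℝ, 1 ≤ X → |(((preK S).idl X).card : ℝ) - κ * X| ≤
      (C1 + C2) * X ^ (1 - 1 / (Module.finrank ℚ K : ℝ)) := by
    intro X hX
    refine (c1 X hX).trans ?_
    have : 0 ≤ X ^ (1 - 1 / (Module.finrank ℚ K : ℝ)) := by positivity
    nlinarith
  have c2' : ∀ (f : (preK S).P →₀ ZMod l) (c : Fin (mS S) → ZMod l), (f ≠ 0 ∨ c ≠ 0) →
      ∀ X : ℝ, 1 ≤ X → ‖∑ i ∈ (preK S).idl X, chc (preK S) f.support (F.gF f c) i‖ ≤
        (C1 + C2) * ((preK S).nm f.support : ℝ) ^ A *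
          X ^ (1 - 1 / (Module.finrank ℚ K : ℝ)) := by
    intro f c hfc X hX
    refine (c2 f.support (F.gF f c) (hn k G F f c) (h17 l hl2 k K z hz G S hA F f c hfc)
      X hX).trans ?_
    have h3 : 0 ≤ X ^ (1 - 1 / (Module.finrank ℚ K : ℝ)) := by positivity
    have h4 : 0 ≤ ((preK S).nm f.support : ℝ) ^ A := by positivity
    have h5 : 0 ≤ ((preK S).nm f.support : ℝ) ^ A * X ^ (1 - 1 / (Module.finrank ℚ K : ℝ)) :=
      mul_nonneg h4 h3
    nlinarith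
  have hsym := h13 l k K z hz G S hA F
  have hsac := h14 l k K z hz G hE S hA F
  refine ⟨{
    S := S
    ovr := hOv
    adm := hA
    sys := mkSysL hD hC hst F hsym hsac κ (C1 + C2) A (1 / (Module.finrank ℚ K : ℝ)) hκ
      (add_nonneg hC1 hC2) hA0 (by positivity) (by rw [div_le_one hd]; exact hd1) c1' c2'
      (h19 l k K z hz G hG S hA F) (h20 l k K z hz hC S hA)
    m_eq := rfl
    pl := fun p => p.1
    pl_inj := Subtype.val_injective
    pl_iff := fun Q => ⟨fun ⟨p, hp⟩ => hp ▸ p.2, fun hQ => ⟨⟨Q, hQ⟩, rfl⟩⟩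
    N_eq := fun p => rfl
    dg := { toEquiv := Equiv.refl _, map_mul' := fun _ _ => rfl }
    e_eq := fun g => rfl
    ac_eq := fun g p => rfl
    u := F.u
    w := F.w
    pi := F.pi
    u_mem := F.u_mem
    u_gen := F.u_gen
    u_ind := F.u_ind
    pi_self := F.pi_self
    pi_other := F.pi_other
    ty_eq := fun p j => rfl
    s_eq := fun p q hpq => if_neg hpq
    s_self := fun p => if_pos rfl
    uw := F.uw
    ww := F.ww
    loc := F.loc
    gen := F.gen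
    ind := F.ind
    pi_ac := fun g p => F.pi_ac g p _ rfl
    w_ac := fun g j => F.w_ac g j
    cc_ac := fun δ P hP => hE.cc δ P (by
      have h5 : ¬ 0 < ord P (l : K) := fun h => hP (hA.mem P h)
      have h6 : 0 ≤ ord P (l : K) := by
        have := Pool.Agent.H98.MF.ord_int_nonneg P (l : 𝓞 K)
        simpa using this
      omega)
    eqv := hE.eqv }⟩

end Pool.Agent.H92.EL
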