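import Pool.Agent.H92.EL.BStm
import Pool.Agent.H98.MF.C.Val

/-!
# Project ELL (MP_a3214d), block B, BL20: coordinates of classes
-/

set_option autoImplicit false

open scoped BigOperators
open NumberField IsDedekindDomain

namespace Pool.Agent.H92.EL

open Pool.Agent.H98.MF (ord US PrS mS nrm)

section

variable {l : ℕ} {K : Type} [Field K] [NumberField K]

theorem blco_mem {a : Kˣ} : a ∈ pw l (⊤ : Subgroup Kˣ) ↔ ∃ b : Kˣ, b ^ l = a := by
  unfold pw
  rw [Subgroup.mem_map]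
  constructor
  · rintro ⟨b, _, hb⟩
    exact ⟨b, hb⟩
  · rintro ⟨b, hb⟩
    exact ⟨b, Subgroup.mem_top _, hb⟩

/-- the class modulo `l`-th powers -/
noncomputable def blq (l : ℕ) (K : Type) [Field K] [NumberField K] :
    Kˣ →* Kˣ ⧸ pw l (⊤ : Subgroup Kˣ) := QuotientGroup.mk' _

theorem blq_eq_one {a : Kˣ} : blq l K a = 1 ↔ a ∈ pw l (⊤ : Subgroup Kˣ) :=
  QuotientGroup.eq_one_iff a

theorem blq_pow (a : Kˣ) : blq l K (a ^ l) = 1 := blq_eq_one.2 (blco_mem.2 ⟨a, rfl⟩)

theorem blq_val_add [NeZero l] (a : Kˣ) (s t : ZMod l) :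
    blq l K (a ^ (s + t).val) = blq l K (a ^ s.val) * blq l K (a ^ t.val) := by
  rw [map_pow, map_pow, map_pow, ← pow_add]
  refine pow_eq_pow_of_modEq ?_ (n := l) (by rw [← map_pow]; exact blq_pow a)
  rw [ZMod.val_add]
  exact Nat.mod_modEq _ _

end

section

variable {l : ℕ} [Fact l.Prime] {k K : Type} [Field k] [NumberField k] [Field K] [NumberField K]
  [Algebra k K] {z : K} {hz : IsPrimitiveRoot z l} {G : GSy l K z}
  {T : Finset (HeightOneSpectrum (𝓞 k))} (F : KFr k hz G T)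

/-- the product of the generators of the primes -/
noncomputable def blcoR (f : F.sys.P →₀ ZMod l) : Kˣ := f.prod fun p t => F.pi p ^ t.val

/-- the representative of a class -/
noncomputable def blcoRep (x : F.sys.El) : Kˣ := (∏ j, F.u j ^ (x.1 j).val) * blcoR F x.2

theorem blco_pi (p q : F.sys.P) [Decidable (q = p)] :
    ord (F.pl p) (F.pi q : K) = if q = p then 1 else 0 := by
  split_ifs with h
  · rw [h]
    exact F.pi_self p
  · exact F.pi_other q (F.pl p) ((F.pl_iff _).1 ⟨p, rfl⟩) fun h' => h (F.pl_inj h').symm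

theorem blco_out (p : F.sys.P) : F.pl p ∉ F.S := (F.pl_iff _).1 ⟨p, rfl⟩

theorem blco_ordR (f : F.sys.P →₀ ZMod l) (p : F.sys.P) :
    ord (F.pl p) (blcoR F f : K) = ((f p).val : ℤ) := by
  classical
  unfold blcoR
  rw [Finsupp.prod, Pool.Agent.H98.MF.B.ord_prod]
  have e3 : ∀ q ∈ f.support, ord (F.pl p) ((F.pi q ^ (f q).val : Kˣ) : K) =
      if q = p then ((f p).val : ℤ) else 0 := by
    intro q _
    rw [Units.val_pow_eq_pow_val, Pool.Agent.H98.MF.B.ord_pow, blco_pi]
    split_ifs with h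
    · rw [h, mul_one]
    · rw [mul_zero]
  rw [Finset.sum_congr rfl e3, Finset.sum_ite_eq']
  split_ifs with h
  · rfl
  · rw [Finsupp.notMem_support_iff.1 h, ZMod.val_zero]
    rfl

theorem blco_u (j : Fin F.sys.m) (p : F.sys.P) : ord (F.pl p) (F.u j : K) = 0 :=
  Pool.Agent.H98.MF.B.mem_US.1 (F.u_mem j) _ (blco_out F p)

theorem blco_ordU (c : Fin F.sys.m → ZMod l) (p : F.sys.P) :
    ord (F.pl p) ((∏ j, F.u j ^ (c j).val : Kˣ) : K) = 0 := by
  rw [Pool.Agent.H98.MF.B.ord_prod]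
  refine Finset.sum_eq_zero fun i _ => ?_
  rw [Units.val_pow_eq_pow_val, Pool.Agent.H98.MF.B.ord_pow, blco_u, mul_zero]

theorem blco_ordRep (x : F.sys.El) (p : F.sys.P) :
    ord (F.pl p) (blcoRep F x : K) = ((x.2 p).val : ℤ) := by
  unfold blcoRep
  rw [Units.val_mul, Pool.Agent.H98.MF.B.ord_mul _ (Units.ne_zero _) (Units.ne_zero _),
    blco_ordU, blco_ordR, zero_add]

theorem blco_rep_zero : blcoRep F 0 = 1 := by
  unfold blcoRep blcoR
  have h1 : ((0 : F.sys.El).2 : F.sys.P →₀ ZMod l) = 0 := rfl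
  have h2 : ∀ j, (0 : F.sys.El).1 j = 0 := fun _ => rfl
  rw [h1, Finsupp.prod_zero_index, mul_one]
  exact Finset.prod_eq_one fun j _ => by rw [h2, ZMod.val_zero, pow_zero]

theorem blco_rep_add (x y : F.sys.El) :
    blq l K (blcoRep F (x + y)) = blq l K (blcoRep F x) * blq l K (blcoRep F y) := by
  classical
  have h1 : blq l K (∏ j, F.u j ^ ((x + y).1 j).val) =
      blq l K (∏ j, F.u j ^ (x.1 j).val) * blq l K (∏ j, F.u j ^ (y.1 j).val) := by
    rw [map_prod, map_prod, map_prod, ← Finset.prod_mul_distrib]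
    exact Finset.prod_congr rfl fun j _ => blq_val_add _ _ _
  have h2 : ∀ f : F.sys.P →₀ ZMod l, blq l K (blcoR F f) =
      f.prod fun p t => blq l K (F.pi p ^ t.val) := fun f => by
    unfold blcoR
    rw [Finsupp.prod, Finsupp.prod, map_prod]
  have h3 : blq l K (blcoR F (x + y).2) = blq l K (blcoR F x.2) * blq l K (blcoR F y.2) := by
    rw [h2, h2, h2]
    exact Finsupp.prod_add_index' (fun p => by rw [ZMod.val_zero, pow_zero, map_one])
      (fun p s t => blq_val_add _ _ _)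
  unfold blcoRep
  rw [map_mul, map_mul, map_mul, h1, h3]
  exact mul_mul_mul_comm _ _ _ _

/-- representatives of trivial classes -/
theorem blco_rep_pw (x : F.sys.El) (h : blcoRep F x ∈ pw l (⊤ : Subgroup Kˣ)) : x = 0 := by
  obtain ⟨b, hb⟩ := blco_mem.1 h
  have h2 : x.2 = 0 := by
    ext p
    have h3 := blco_ordRep F x p
    rw [← hb, Units.val_pow_eq_pow_val, Pool.Agent.H98.MF.B.ord_pow] at h3
    have h4 := congrArg (fun t : ℤ => (t : ZMod l)) h3
    simp only [Int.cast_mul, Int.cast_natCast, ZMod.natCast_self, zero_mul,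
      ZMod.natCast_zmod_val] at h4
    exact h4.symm
  have h3 : (∏ j, F.u j ^ (x.1 j).val) ∈ pw l (⊤ : Subgroup Kˣ) := by
    unfold blcoRep blcoR at h
    rw [h2, Finsupp.prod_zero_index, mul_one] at h
    exact h
  exact Prod.ext (F.u_ind _ h3) h2

theorem blco_uniq {x y : F.sys.El} (h : blq l K (blcoRep F x) = blq l K (blcoRep F y)) :
    x = y := by
  have h1 := blco_rep_add F (x - y) y
  rw [sub_add_cancel, h] at h1
  have h2 : blq l K (blcoRep F (x - y)) = 1 := (right_eq_mul.1 h1)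
  exact sub_eq_zero.1 (blco_rep_pw F _ (blq_eq_one.1 h2))

/-- every element is a representative times a power -/
theorem blco_ex (a : Kˣ) : ∃ (x : F.sys.El) (b : Kˣ), a = blcoRep F x * b ^ l := by
  classical
  have hl : l.Prime := Fact.out
  have hfin : {p : F.sys.P | ord (F.pl p) (a : K) ≠ 0}.Finite :=
    (Pool.Agent.H98.MF.B.ord_finite (a : K) a.ne_zero).preimage F.pl_inj.injOn
  set A : Finset F.sys.P := hfin.toFinset with hA
  have hA' : ∀ p, p ∉ A → ord (F.pl p) (a : K) = 0 := fun p hp => by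
    by_contra h
    exact hp (hfin.mem_toFinset.2 h)
  let f : F.sys.P →₀ ZMod l := Finsupp.onFinset A
    (fun p => ((ord (F.pl p) (a : K) : ℤ) : ZMod l)) fun p hp => by
      by_contra h
      exact hp (by rw [hA' p h, Int.cast_zero])
  have hf : ∀ p, f p = ((ord (F.pl p) (a : K) : ℤ) : ZMod l) := fun p => rfl
  have hdvd : ∀ p, (l : ℤ) ∣ ord (F.pl p) (a : K) - ((f p).val : ℤ) := fun p => by
    rw [← ZMod.intCast_zmod_eq_zero_iff_dvd, Int.cast_sub, Int.cast_natCast,
      ZMod.natCast_zmod_val, hf, sub_self]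
  let n : F.sys.P → ℤ := fun p => (ord (F.pl p) (a : K) - ((f p).val : ℤ)) / l
  have hn : ∀ p, (l : ℤ) * n p = ord (F.pl p) (a : K) - ((f p).val : ℤ) := fun p =>
    Int.mul_ediv_cancel' (hdvd p)
  have hn0 : ∀ p, p ∉ A → n p = 0 := fun p hp => by
    have h1 : f p = 0 := by rw [hf, hA' p hp, Int.cast_zero]
    show (ord (F.pl p) (a : K) - ((f p).val : ℤ)) / l = 0
    rw [h1, hA' p hp, ZMod.val_zero]
    simp
  set b0 : Kˣ := ∏ p ∈ A, F.pi p ^ n p with hb0
  have hob : ∀ q, ord (F.pl q) (b0 : K) = n q := by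
    intro q
    rw [hb0, Pool.Agent.H98.MF.B.ord_prod]
    have e3 : ∀ p ∈ A, ord (F.pl q) ((F.pi p ^ n p : Kˣ) : K) =
        if p = q then n q else 0 := by
      intro p _
      rw [Units.val_zpow_eq_zpow_val, Pool.Agent.H98.MF.B.ord_zpow, blco_pi]
      split_ifs with h
      · rw [h, mul_one]
      · rw [mul_zero]
    rw [Finset.sum_congr rfl e3, Finset.sum_ite_eq']
    split_ifs with h
    · rfl
    · exact (hn0 q h).symm
  have hv : a / (blcoR F f * b0 ^ l) ∈ US F.S := by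
    refine Pool.Agent.H98.MF.B.mem_US.2 fun Q hQ => ?_
    obtain ⟨q, rfl⟩ := (F.pl_iff Q).2 hQ
    rw [Units.val_div_eq_div_val, Units.val_mul,
      Pool.Agent.H98.MF.B.ord_div _ (Units.ne_zero _) (mul_ne_zero (Units.ne_zero _)
        (Units.ne_zero _)),
      Pool.Agent.H98.MF.B.ord_mul _ (Units.ne_zero _) (Units.ne_zero _), blco_ordR,
      Units.val_pow_eq_pow_val, Pool.Agent.H98.MF.B.ord_pow, hob, hn]
    ring
  obtain ⟨c, hc⟩ := F.u_gen _ hv
  unfold pw at hc
  obtain ⟨b1, _, hb1⟩ := Subgroup.mem_map.1 hc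
  refine ⟨(c, f), b1 * b0, ?_⟩
  have hb1' : b1 ^ l = a / (blcoR F f * b0 ^ l) / ∏ j, F.u j ^ (c j).val := hb1
  unfold blcoRep
  have e1 : a = (a / (blcoR F f * b0 ^ l) / ∏ j, F.u j ^ (c j).val) *
      ((∏ j, F.u j ^ (c j).val) * (blcoR F f * b0 ^ l)) := by
    rw [div_div, mul_comm (∏ j, F.u j ^ (c j).val), div_mul_cancel]
  rw [← hb1'] at e1
  rw [mul_pow]
  conv_lhs => rw [e1]
  generalize (∏ j, F.u j ^ (c j).val) = U
  generalize blcoR F f = R
  generalize b0 ^ l = B
  generalize b1 ^ l = C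
  show C * (U * (R * B)) = U * R * (C * B)
  ac_rfl

/-- the coordinates -/
noncomputable def blco (a : Kˣ) : F.sys.El := (blco_ex F a).choose

theorem blco_spec (a : Kˣ) : ∃ b : Kˣ, a = blcoRep F (blco F a) * b ^ l :=
  (blco_ex F a).choose_spec

theorem blco_q (a : Kˣ) : blq l K (blcoRep F (blco F a)) = blq l K a := by
  obtain ⟨b, hb⟩ := blco_spec F a
  conv_rhs => rw [hb, map_mul, blq_pow, mul_one]

/-! ### symbols -/

theorem blco_lg1 (hlg : SLg) (hz : IsPrimitiveRoot z l)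
    {P : HeightOneSpectrum (𝓞 K)} (hP : ord P (l : K) = 0) :
    lgs l z P (((1 : Kˣ) : Kˣ) : K) = 0 := by
  have h0 : ord P (((1 : Kˣ) : Kˣ) : K) = 0 := by
    rw [Units.val_one]
    exact Pool.Agent.H98.MF.B.ord_one P
  have h := (hlg l Fact.out K z hz P hP).2.1 1 1 h0 h0
  rw [mul_one] at h
  exact left_eq_add.1 h

theorem blco_lgp (hlg : SLg) (hz : IsPrimitiveRoot z l)
    {P : HeightOneSpectrum (𝓞 K)} (hP : ord P (l : K) = 0) {ι : Type} (s : Finset ι)
    (f : ι → Kˣ) (hf : ∀ i ∈ s, ord P (f i : K) = 0) :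
    ord P ((∏ i ∈ s, f i : Kˣ) : K) = 0 ∧
      lgs l z P ((∏ i ∈ s, f i : Kˣ) : K) = ∑ i ∈ s, lgs l z P (f i : K) := by
  classical
  induction s using Finset.induction_on with
  | empty =>
    rw [Finset.prod_empty, Finset.sum_empty]
    refine ⟨?_, blco_lg1 hlg hz hP⟩
    rw [Units.val_one]
    exact Pool.Agent.H98.MF.B.ord_one P
  | insert i s hi ih =>
    have h1 := ih fun j hj => hf j (Finset.mem_insert_of_mem hj)
    have h2 := hf i (Finset.mem_insert_self i s)
    rw [Finset.prod_insert hi, Finset.sum_insert hi]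
    refine ⟨?_, ?_⟩
    · rw [Units.val_mul, Pool.Agent.H98.MF.B.ord_mul P (Units.ne_zero _) (Units.ne_zero _), h1.1,
        h2, add_zero]
    · rw [(hlg l Fact.out K z hz P hP).2.1 _ _ h2 h1.1, h1.2]

theorem blco_lgpow (hlg : SLg) (hz : IsPrimitiveRoot z l)
    {P : HeightOneSpectrum (𝓞 K)} (hP : ord P (l : K) = 0) (a : Kˣ) (ha : ord P (a : K) = 0)
    (n : ℕ) : ord P ((a ^ n : Kˣ) : K) = 0 ∧
      lgs l z P ((a ^ n : Kˣ) : K) = (n : ZMod l) * lgs l z P (a : K) := by
  have h := blco_lgp hlg hz hP (Finset.range n) (fun _ => a) fun _ _ => ha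
  rw [Finset.prod_const, Finset.sum_const, Finset.card_range, nsmul_eq_mul] at h
  exact h

theorem blco_ordl (p : F.sys.P) : ord (F.pl p) (l : K) = 0 := by
  have h1 := Pool.Agent.H98.MF.B.ord_alg_nonneg (F.pl p) (l : 𝓞 K)
  rw [map_natCast] at h1
  have h2 : ¬ 0 < ord (F.pl p) (l : K) := fun h => blco_out F p (F.adm.mem _ h)
  omega

theorem blco_exp (hlg : SLg) (a : Kˣ) (p : F.sys.P) (ha : ord (F.pl p) (a : K) = 0) :
    F.sys.ex (blco F a) p = G.cc (F.pl p) * lgs l z (F.pl p) (a : K) := by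
  classical
  have hl : l.Prime := Fact.out
  have hP := blco_ordl F p
  obtain ⟨b, hb⟩ := blco_spec F a
  set x := blco F a with hx
  have h1 : ord (F.pl p) (a : K) = ((x.2 p).val : ℤ) + l * ord (F.pl p) (b : K) := by
    conv_lhs => rw [hb]
    rw [Units.val_mul, Pool.Agent.H98.MF.B.ord_mul _ (Units.ne_zero _) (Units.ne_zero _),
      blco_ordRep, Units.val_pow_eq_pow_val, Pool.Agent.H98.MF.B.ord_pow]
  rw [ha] at h1
  have h2 : x.2 p = 0 := by
    have h4 := congrArg (fun t : ℤ => (t : ZMod l)) h1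
    simp only [Int.cast_add, Int.cast_mul, Int.cast_natCast, ZMod.natCast_self, zero_mul,
      ZMod.natCast_zmod_val, add_zero, Int.cast_zero] at h4
    exact h4.symm
  have h3 : ord (F.pl p) (b : K) = 0 := by
    rw [h2, ZMod.val_zero, Nat.cast_zero, zero_add] at h1
    rcases mul_eq_zero.1 h1.symm with h | h
    · exact absurd h (by exact_mod_cast hl.ne_zero)
    · exact h
  have hA := blco_lgp hlg hz hP Finset.univ (fun j => F.u j ^ (x.1 j).val) fun j _ =>
    (blco_lgpow hlg hz hP (F.u j) (blco_u F j p) _).1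
  have hq : ∀ q ∈ x.2.support, q ≠ p := fun q hq h => by
    rw [h] at hq
    exact Finsupp.mem_support_iff.1 hq h2
  have hq0 : ∀ q ∈ x.2.support, ord (F.pl p) (F.pi q : K) = 0 := fun q h => by
    rw [blco_pi, if_neg (hq q h)]
  have hB := blco_lgp hlg hz hP x.2.support (fun q => F.pi q ^ (x.2 q).val) fun q h =>
    (blco_lgpow hlg hz hP (F.pi q) (hq0 q h) _).1
  have hC := blco_lgpow hlg hz hP b h3 l
  have hD : lgs l z (F.pl p) (a : K) = ∑ j, (x.1 j) * lgs l z (F.pl p) (F.u j : K) +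
      ∑ q ∈ x.2.support, x.2 q * lgs l z (F.pl p) (F.pi q : K) := by
    have e1 : a = ((∏ j, F.u j ^ (x.1 j).val) * ∏ q ∈ x.2.support, F.pi q ^ (x.2 q).val) *
        b ^ l := by
      conv_lhs => rw [hb]
      rfl
    have e2 : ord (F.pl p) (((∏ j, F.u j ^ (x.1 j).val) *
        ∏ q ∈ x.2.support, F.pi q ^ (x.2 q).val : Kˣ) : K) = 0 := by
      rw [Units.val_mul, Pool.Agent.H98.MF.B.ord_mul _ (Units.ne_zero _) (Units.ne_zero _),
        hA.1, hB.1, add_zero]
    conv_lhs => rw [e1]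
    rw [(hlg l Fact.out K z hz (F.pl p) hP).2.1 _ _ e2 hC.1, hC.2, ZMod.natCast_self, zero_mul,
      add_zero, (hlg l Fact.out K z hz (F.pl p) hP).2.1 _ _ hA.1 hB.1, hA.2, hB.2]
    congr 1
    · refine Finset.sum_congr rfl fun j _ => ?_
      rw [(blco_lgpow hlg hz hP (F.u j) (blco_u F j p) _).2, ZMod.natCast_zmod_val]
    · refine Finset.sum_congr rfl fun q h => ?_
      rw [(blco_lgpow hlg hz hP (F.pi q) (hq0 q h) _).2, ZMod.natCast_zmod_val]
  unfold SysL.ex
  rw [hD, mul_add, Finset.mul_sum, Finset.mul_sum, add_comm, Finsupp.sum]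
  congr 1
  · unfold dotProduct
    refine Finset.sum_congr rfl fun j _ => ?_
    rw [F.ty_eq]
    ring
  · refine Finset.sum_congr rfl fun q h => ?_
    rw [F.s_eq q p (hq q h)]
    ring

end

/-- coordinates exist -/
theorem sco (hlg : SLg) (hmem : SMem) : SCo := by
  classical
  intro l _ hl2 k K _ _ _ _ _ z hz G hG T F
  have _ := hmem
  have hl : l.Prime := Fact.out
  refine ⟨blco F, ?_, ?_, ?_, ?_, ?_, ?_, ?_, ?_⟩
  · intro a b
    refine blco_uniq F ?_
    rw [blco_q, blco_rep_add, blco_q, blco_q, map_mul]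
  · intro a
    constructor
    · intro h
      obtain ⟨b, hb⟩ := blco_spec F a
      rw [h, blco_rep_zero, one_mul] at hb
      exact blco_mem.2 ⟨b, hb.symm⟩
    · intro h
      refine blco_uniq F ?_
      rw [blco_q, blco_rep_zero, map_one]
      exact blq_eq_one.2 h
  · intro x
    exact ⟨blcoRep F x, blco_uniq F (blco_q F _)⟩
  · intro a p
    obtain ⟨b, hb⟩ := blco_spec F a
    have h1 : ord (F.pl p) (a : K) =
        (((blco F a).2 p).val : ℤ) + l * ord (F.pl p) (b : K) := by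
      conv_lhs => rw [hb]
      rw [Units.val_mul, Pool.Agent.H98.MF.B.ord_mul _ (Units.ne_zero _) (Units.ne_zero _),
        blco_ordRep, Units.val_pow_eq_pow_val, Pool.Agent.H98.MF.B.ord_pow]
    rw [h1]
    push_cast
    rw [ZMod.natCast_self, zero_mul, add_zero, ZMod.natCast_zmod_val]
  · intro p
    refine blco_uniq F ?_
    rw [blco_q]
    congr 1
    unfold blcoRep blcoR
    have : Fact (1 < l) := ⟨hl.one_lt⟩
    rw [Finsupp.prod_single_index (by rw [ZMod.val_zero, pow_zero]), ZMod.val_one, pow_one,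
      Finset.prod_eq_one fun j _ => by
        show F.u j ^ (0 : ZMod l).val = 1
        rw [ZMod.val_zero, pow_zero], one_mul]
  · intro a p ha
    exact blco_exp F hlg a p ha
  · intro a ha
    obtain ⟨b, hb⟩ := blco_spec F a
    ext p
    have h1 : ord (F.pl p) (a : K) =
        (((blco F a).2 p).val : ℤ) + l * ord (F.pl p) (b : K) := by
      conv_lhs => rw [hb]
      rw [Units.val_mul, Pool.Agent.H98.MF.B.ord_mul _ (Units.ne_zero _) (Units.ne_zero _),
        blco_ordRep, Units.val_pow_eq_pow_val, Pool.Agent.H98.MF.B.ord_pow]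
    rw [Pool.Agent.H98.MF.B.mem_US.1 ha _ (blco_out F p)] at h1
    have h4 := congrArg (fun t : ℤ => (t : ZMod l)) h1
    simp only [Int.cast_add, Int.cast_mul, Int.cast_natCast, ZMod.natCast_self, zero_mul,
      ZMod.natCast_zmod_val, add_zero, Int.cast_zero] at h4
    exact h4.symm
  · intro a h2 ha
    obtain ⟨b, hb⟩ := blco_spec F a
    have h3 : b ^ l ∈ KW l F.S := by
      unfold KW
      rw [Subgroup.mem_iInf]
      intro P
      rw [Subgroup.mem_iInf]
      intro _
      refine Subgroup.subset_closure fun n => ⟨((b⁻¹ : Kˣ) : K), Or.inl ?_⟩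
      rw [← Units.val_pow_eq_pow_val, ← Units.val_mul, ← mul_pow, mul_inv_cancel, one_pow,
        Units.val_one]
    have h4 : (∏ j, F.u j ^ ((blco F a).1 j).val) * ∏ j, F.w j ^ ((0 : Fin F.sys.m → ZMod l) j).val
        ∈ KW l F.S := by
      have e1 : ∏ j, F.w j ^ ((0 : Fin F.sys.m → ZMod l) j).val = 1 :=
        Finset.prod_eq_one fun j _ => by rw [Pi.zero_apply, ZMod.val_zero, pow_zero]
      have e2 : (∏ j, F.u j ^ ((blco F a).1 j).val) = a / b ^ l := by
        conv_rhs => rw [hb]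
        unfold blcoRep blcoR
        rw [h2, Finsupp.prod_zero_index, mul_one, mul_div_cancel_right]
      rw [e1, mul_one, e2]
      exact Subgroup.div_mem _ ha h3
    exact Prod.ext (F.ind _ _ h4).1 h2

end Pool.Agent.H92.EL
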