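import Pool.Agent.H98.MF.D.Defs
import Pool.Agent.H98.MF.C.Defs
import Pool.Agent.H32.MZ.KDefs

/-!
# Project T4 (MP_a3214d), block D: tame generators, discriminants, homomorphisms
-/

set_option autoImplicit false

open scoped BigOperators Pointwise
open NumberField IsDedekindDomain

namespace Pool.Agent.H92.EL

open Pool.Agent.H98.MF (Om Gm ord Dec top nrm fld rdN rexp rex)
open Pool.Agent.H98.ML (norb)
open Pool.Agent.H32.MA (pind mInd bM)
open Pool.Agent.H32.MZ (NK MalleK)

/-! ### tame generators and Frobenius elements -/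

section

variable {k : Type} [Field k] [NumberField k]

/-- normal open subgroups of index prime to the norm of `P` -/
structure TmU (P : HeightOneSpectrum (𝓞 k)) (U : Subgroup (Gm k)) : Prop where
  nor : U.Normal
  opn : IsOpen (U : Set (Gm k))
  cop : Nat.Coprime U.index (nrm P)

/-- integers of the closure in a Galois extension of degree prime to the norm of `P` -/
def Tme (P : HeightOneSpectrum (𝓞 k)) (x : 𝓞 (Om k)) : Prop :=
  ∃ U : Subgroup (Gm k), TmU P U ∧ ∀ σ ∈ U, σ • x = x

/-- a universal tame generator and Frobenius element at `P` -/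
structure IsTM (P : HeightOneSpectrum (𝓞 k)) (τ φ : Gm k) : Prop where
  decτ : τ ∈ Dec P
  decφ : φ ∈ Dec P
  rel : ∀ U : Subgroup (Gm k), TmU P U → φ * τ * φ⁻¹ * (τ ^ nrm P)⁻¹ ∈ U
  disc : ∀ U : Subgroup (Gm k), TmU P U → ∀ W : Subgroup (Gm k), U ≤ W →
    rexp P (fld k W) + norb W τ = W.index
  ine : ∀ x : 𝓞 (Om k), Tme P x → τ • x - x ∈ top P
  fro : ∀ x : 𝓞 (Om k), Tme P x → φ • x - x ^ nrm P ∈ top P
  gen : ∀ U : Subgroup (Gm k), TmU P U → ∀ σ ∈ Dec P, ∃ i j : ℕ, (τ ^ i * φ ^ j)⁻¹ * σ ∈ U

variable (k)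

/-- tame generators and Frobenius elements at all primes -/
structure TM where
  /-- tame generators -/
  tau : HeightOneSpectrum (𝓞 k) → Gm k
  /-- Frobenius elements -/
  phi : HeightOneSpectrum (𝓞 k) → Gm k
  tm : ∀ P, IsTM P (tau P) (phi P)

end

/-! ### homomorphisms -/

section

variable (k : Type) [Field k] [NumberField k] (G : Type) [Group G]

/-- continuous surjective homomorphisms -/
def Hk : Set (Gm k →* G) := {ρ | Function.Surjective ρ ∧ IsLocallyConstant ρ}

variable {k G}

/-- the norm of the relative discriminant of the field of a homomorphism -/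
noncomputable def dG (ρ : Gm k →* G) : ℕ := rdN (fld k ρ.ker)

/-- the exponent of the discriminant at a tame prime with inertia generator `g` -/
noncomputable def xo (g : G) : ℕ := Nat.card G - Nat.card G / orderOf g

/-- continuous homomorphisms unramified outside `S` -/
def Hu (T : TM k) (G : Type) [Group G] (S : Finset (HeightOneSpectrum (𝓞 k))) :
    Set (Gm k →* G) :=
  {ρ | IsLocallyConstant ρ ∧ ∀ P, P ∉ S → ρ (T.tau P) = 1}

/-- the part of the discriminant at the primes of `S` -/
noncomputable def qS (S : Finset (HeightOneSpectrum (𝓞 k))) (ρ : Gm k →* G) : ℕ :=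
  ∏ P ∈ S, nrm P ^ rexp P (fld k ρ.ker)

end

/-- `S` contains the primes dividing `n` -/
def Ctn {k : Type} [Field k] [NumberField k] (S : Finset (HeightOneSpectrum (𝓞 k))) (n : ℕ) :
    Prop :=
  ∀ P : HeightOneSpectrum (𝓞 k), P ∉ S → Nat.Coprime n (nrm P)

/-! ### the cyclotomic character and classes -/

/-- the image of the cyclotomic character modulo `l` -/
def cyc (k : Type) [Field k] (l : ℕ) : Set (ZMod l)ˣ :=
  {j | ∃ σ : AlgebraicClosure k ≃ₐ[k] AlgebraicClosure k,
    ∀ ζ : AlgebraicClosure k, ζ ^ l = 1 → σ ζ = ζ ^ (j : ZMod l).val}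

/-- the conjugacy classes of elements of order `l` -/
abbrev Ncl (l : ℕ) (G : Type) [Group G] : Type :=
  {c : ConjClasses G // ∃ g : G, ConjClasses.mk g = c ∧ orderOf g = l}

/-- the elements of order dividing `l` lie in the second center -/
def Zt (l : ℕ) (G : Type) [Group G] : Prop :=
  ∀ g : G, g ^ l = 1 → g ∈ Subgroup.upperCentralSeries G 2

end Pool.Agent.H92.EL
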