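import Pool.Agent.H92.EL.CFin
import Pool.Agent.H92.EL.DDefs

/-!
# Project T4 (MP_a3214d): the groups, frames of the base field, homomorphisms; definitions

`l` is an odd prime, `G` a finite nilpotent group whose elements of order `l` (the smallest prime
divisor of the order) lie in the second center.
-/

set_option autoImplicit false

open scoped BigOperators Topology
open NumberField IsDedekindDomain Filter

namespace Pool.Agent.H92.EL

open Pool.Agent.H98.MF (Om Gm Dec nrm rdN fld)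
open SysL (VV BD)

/-! ### the groups -/

/-- nilpotent groups whose elements of order `l`, the smallest prime divisor of the order, lie in
the second center -/
structure Nl (l : ℕ) (G : Type) [Group G] : Prop where
  fin : Finite G
  nil : Group.IsNilpotent G
  min : ∀ p : ℕ, p.Prime → p ∣ Nat.card G → l ≤ p
  dvd : l ∣ Nat.card G
  z2 : Zt l G

/-- coordinates: `nn v z` runs over the elements with `g ^ l = 1`, the elements `nn 0 z` are the
central ones, `bp` is the commutator pairing -/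
structure Cd (l : ℕ) [Fact l.Prime] (G : Type) [Group G] where
  d : ℕ
  n : ℕ
  n_pos : 1 ≤ n
  Bd : BD l d n
  nn : VV l d → VV l n → G
  nn_mul : ∀ v w z y, nn v z * nn w y = nn (v + w) (z + y + (2 : ZMod l)⁻¹ • Bd.B v w)
  nn_inj : ∀ v w z y, nn v z = nn w y → v = w ∧ z = y
  nn_iff : ∀ g : G, g ^ l = 1 ↔ ∃ v z, g = nn v z
  nn_cen : ∀ g : G, (g ∈ Subgroup.center G ∧ g ^ l = 1) ↔ ∃ z, g = nn 0 z
  bp : G → VV l d → VV l n
  bp_conj : ∀ g v z, g * nn v z * g⁻¹ = nn v (z + bp g v)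
  bp_mul : ∀ g h v, bp (g * h) v = bp g v + bp h v
  bp_add : ∀ g v w, bp g (v + w) = bp g v + bp g w
  bp_nn : ∀ w z v, bp (nn w z) v = Bd.B w v

/-- G1: coordinates exist -/
def SGCd : Prop := ∀ (l : ℕ) [Fact l.Prime], l ≠ 2 → ∀ (G : Type) [Group G], Nl l G →
  Nonempty (Cd l G)

section

variable {l : ℕ} [Fact l.Prime] {G : Type} [Group G] (C : Cd l G)

open Classical in
/-- the number of dual vectors vanishing on the commutators with `v` -/
noncomputable def Cd.kc (v : VV l C.d) : ℕ :=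
  (Finset.univ.filter fun ζ : VV l C.n => ∀ g : G, ζ ⬝ᵥ C.bp g v = 0).card

/-- the elements of order dividing `l` as a subgroup -/
def Cd.NS : Subgroup G := Subgroup.closure {g | g ^ l = 1}

/-- the central elements of order dividing `l` as a subgroup -/
def Cd.ZS : Subgroup G := Subgroup.closure {g | g ∈ Subgroup.center G ∧ g ^ l = 1}

end

open Classical in
/-- G2: the number of classes of elements of order `l` -/
def SGCls : Prop := ∀ (l : ℕ) [Fact l.Prime], l ≠ 2 → ∀ (G : Type) [Group G] [Finite G]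
  (C : Cd l G), Nat.card (Ncl l G) + 1 =
    ∑ v ∈ Finset.univ.filter (fun v : VV l C.d => v ≠ 0), C.kc v + l ^ C.n

/-- G3: the order of the other elements -/
def SGOrd : Prop := ∀ (l : ℕ) [Fact l.Prime], l ≠ 2 → ∀ (G : Type) [Group G], Nl l G →
  ∀ g : G, g ^ l ≠ 1 → l < orderOf g

/-! ### homomorphisms to `ZMod l` -/

section

variable {k : Type} [Field k] [NumberField k] {l : ℕ}

/-- continuous homomorphisms -/
structure Hm (h : Gm k → ZMod l) : Prop where
  lc : IsLocallyConstant h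
  add : ∀ σ τ, h (σ * τ) = h σ + h τ

/-- the sum of the cup products is a coboundary on `D` -/
def TrH (D : Subgroup (Gm k)) {r : ℕ} (a b : Fin r → Gm k → ZMod l) : Prop :=
  ∃ f : Gm k → ZMod l, IsLocallyConstant f ∧ ∀ σ ∈ D, ∀ τ ∈ D,
    f (σ * τ) = f σ + f τ + ∑ i, a i σ * b i τ

end

section

variable (k : Type) [Field k] [NumberField k]

/-- tame generators and Frobenius elements satisfy the tame relation -/
def RelT (tau phi : HeightOneSpectrum (𝓞 k) → Gm k) : Prop :=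
  ∀ (G : Type) [Group G] [Finite G] (ρ : Gm k →* G), IsLocallyConstant ρ →
    ∀ P : HeightOneSpectrum (𝓞 k), (nrm P).Coprime (Nat.card G) →
      ρ (phi P) * ρ (tau P) * (ρ (phi P))⁻¹ = ρ (tau P) ^ nrm P

/-- homomorphisms are unramified at almost all primes -/
def FinT (tau : HeightOneSpectrum (𝓞 k) → Gm k) : Prop :=
  ∀ (G : Type) [Group G] [Finite G] (ρ : Gm k →* G), IsLocallyConstant ρ →
    {P | ρ (tau P) ≠ 1}.Finite

/-- B4: local and global triviality of sums of cup products over the base field -/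
structure HasK (l : ℕ) (tau phi : HeightOneSpectrum (𝓞 k) → Gm k) : Prop where
  glob : ∀ (r : ℕ) (a b : Fin r → Gm k → ZMod l), (∀ i, Hm (a i)) → (∀ i, Hm (b i)) →
    (∀ P : HeightOneSpectrum (𝓞 k), TrH (Dec P) a b) → TrH (⊤ : Subgroup (Gm k)) a b
  loc : ∀ P : HeightOneSpectrum (𝓞 k), ((nrm P : ℕ) : ZMod l) ≠ 0 →
    ∀ (r : ℕ) (a b : Fin r → Gm k → ZMod l), (∀ i, Hm (a i)) → (∀ i, Hm (b i)) →
    ∑ i, (a i (phi P) * b i (tau P) - a i (tau P) * b i (phi P)) = 0 → TrH (Dec P) a b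
  tam : ∀ P : HeightOneSpectrum (𝓞 k), ((nrm P : ℕ) : ZMod l) ≠ 0 →
    ((nrm P : ℕ) : ZMod l) ≠ 1 → ∀ h : Gm k → ZMod l, Hm h → h (tau P) = 0

/-! ### frames of the base field -/

/-- a frame of the number field `k` for the prime `l`: the primes outside `S`, the homomorphisms
`al p` ramified at one prime outside `S`, the homomorphisms `un y` unramified outside `S` -/
structure FrI (l : ℕ) [Fact l.Prime] (tau phi : HeightOneSpectrum (𝓞 k) → Gm k) where
  S : Finset (HeightOneSpectrum (𝓞 k))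
  sys : SysL l
  /-- the prime below -/
  dn : sys.P → HeightOneSpectrum (𝓞 k)
  dn_eq : ∀ p q, dn p = dn q ↔ ∃ g, sys.ac g p = q
  dn_not : ∀ p, dn p ∉ S
  dn_ex : ∀ P, P ∉ S → ((∃ p, sys.rg p ∧ dn p = P) ↔ ((nrm P : ℕ) : ZMod l) = 1)
  S_l : ∀ P, P ∉ S → ((nrm P : ℕ) : ZMod l) ≠ 0
  N_eq : ∀ p, sys.rg p → sys.N p = nrm (dn p)
  e_iff : ∀ u : (ZMod l)ˣ, (∃ g, sys.e g = u) ↔ u ∈ cyc k l
  /-- the base prime above a prime -/
  bs : HeightOneSpectrum (𝓞 k) → sys.P
  bs_dn : ∀ p, dn (bs (dn p)) = dn p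
  /-- the number of basic homomorphisms unramified outside `S` -/
  U : ℕ
  un : (Fin U → ZMod l) → Gm k → ZMod l
  un_hm : ∀ y, Hm (un y)
  un_add : ∀ y y' σ, un (y + y') σ = un y σ + un y' σ
  un_tau : ∀ y P, P ∉ S → un y (tau P) = 0
  un_ex : ∀ h : Gm k → ZMod l, Hm h → (∀ P, P ∉ S → h (tau P) = 0) → ∃ y, h = un y
  fin : ∀ h : Gm k → ZMod l, Hm h → {P | h (tau P) ≠ 0}.Finite
  tam : ∀ h : Gm k → ZMod l, Hm h → ∀ P, P ∉ S → ((nrm P : ℕ) : ZMod l) ≠ 1 → h (tau P) = 0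
  un_inj : ∀ y, (un y = fun _ => 0) → y = 0
  /-- homomorphisms ramified at one prime outside `S` -/
  al : sys.P → Gm k → ZMod l
  /-- scaling constants -/
  kt : HeightOneSpectrum (𝓞 k) → ZMod l
  cc : HeightOneSpectrum (𝓞 k) → ZMod l
  kt_ne : ∀ P, kt P ≠ 0
  cc_ne : ∀ P, cc P ≠ 0
  al_hm : ∀ p, sys.rg p → Hm (al p)
  al_tau : ∀ p, sys.rg p → ∀ Q, Q ∉ S → Q ≠ dn p → al p (tau Q) = 0
  al_self : ∀ p, sys.rg p → ∀ g, sys.ac g (bs (dn p)) = p →
    al p (tau (dn p)) = kt (dn p) * (sys.e g : ZMod l)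
  al_phi : ∀ p q, sys.rg p → sys.rg q → dn p ≠ dn q → cc (dn q) * al p (phi (dn q)) = sys.J p q
  /-- the class of a homomorphism -/
  cl : (Gm k → ZMod l) → sys.El
  cl_add : ∀ h h', Hm h → Hm h' → cl (fun σ => h σ + h' σ) = cl h + cl h'
  cl_inj : ∀ h, Hm h → cl h = 0 → h = fun _ => 0
  cl_ex : ∀ h, Hm h → ∀ q, sys.rg q → h (tau (dn q)) = 0 → cc (dn q) * h (phi (dn q)) =
    sys.ex (cl h) q
  cl_sup : ∀ h, Hm h → ∀ p ∈ (cl h).2.support, h (tau (dn p)) ≠ 0
  /-- the local part of the homomorphisms `al p` -/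
  lam : sys.T → Gm k → ZMod l
  lam_hm : ∀ t, Hm (lam t)
  lam_add : ∀ t t', ∀ P ∈ S, ∀ σ ∈ Dec P, lam (t + t') σ = lam t σ + lam t' σ
  al_loc : ∀ p, sys.rg p → ∀ P ∈ S, ∀ σ ∈ Dec P, al p σ = lam (sys.ty p) σ
  loc_ex : ∀ c : HeightOneSpectrum (𝓞 k) → Gm k → ZMod l, (∀ P ∈ S, IsLocallyConstant (c P) ∧
    ∀ σ ∈ Dec P, ∀ τ ∈ Dec P, c P (σ * τ) = c P σ + c P τ) →
    ∃ y t, ∀ P ∈ S, ∀ σ ∈ Dec P, c P σ = un y σ + lam t σ
  loc_un : ∀ y t, (∀ P ∈ S, ∀ σ ∈ Dec P, un y σ + lam t σ = 0) → y = 0 ∧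
    ∀ P ∈ S, ∀ σ ∈ Dec P, lam t σ = 0

/-- B: frames exist -/
def SFrI (l : ℕ) [Fact l.Prime] (tau phi : HeightOneSpectrum (𝓞 k) → Gm k) : Prop :=
  ∀ T : Finset (HeightOneSpectrum (𝓞 k)), ∃ Fr : FrI k l tau phi, T ⊆ Fr.S

end

/-! ### configurations -/

section

variable {k : Type} [Field k] [NumberField k] {l : ℕ} [Fact l.Prime]
  {tau phi : HeightOneSpectrum (𝓞 k) → Gm k} (Fr : FrI k l tau phi)

/-- the noncentral part of a homomorphism: unit coordinates and a family of sets of primes -/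
noncomputable def FrI.aa {d : ℕ} (R : Finset (VV l d)) (y : Fin d → Fin Fr.U → ZMod l)
    (x : R → Finset Fr.sys.P) (σ : Gm k) : VV l d :=
  fun i => Fr.un (y i) σ + ∑ v : R, (v : VV l d) i * ∑ p ∈ x v, Fr.al p σ

/-- the central part: unit coordinates, an assignment and a family -/
noncomputable def FrI.cz {n : ℕ} (RZ : Finset (VV l n)) (u : Fin n → Fin Fr.U → ZMod l)
    (z : Fr.sys.P →₀ VV l n) (x : RZ → Finset Fr.sys.P) (σ : Gm k) : VV l n :=
  fun i => Fr.un (u i) σ + (z.sum fun p v => v i * Fr.al p σ) +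
    ∑ v : RZ, (v : VV l n) i * ∑ p ∈ x v, Fr.al p σ

variable {G : Type} [Group G] (C : Cd l G)

/-- the outer characters of a base homomorphism twisted by units -/
noncomputable def FrI.oc (ρ : Gm k →* G) (y : Fin C.d → Fin Fr.U → ZMod l) (v : VV l C.d)
    (ζ : VV l C.n) : Fr.sys.El :=
  Fr.cl fun σ => ζ ⬝ᵥ (C.bp (ρ σ) v + C.Bd.B (fun i => Fr.un (y i) σ) v)

/-- the images of a base homomorphism twisted by units and of some vectors generate `G` modulo
the central elements of order `l` -/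
def FrI.gen (ρ : Gm k →* G) (R : Finset (VV l C.d)) (y : Fin C.d → Fin Fr.U → ZMod l)
    (U : Finset R) : Prop :=
  Subgroup.closure ({g | ∃ σ, g = C.nn (fun i => Fr.un (y i) σ) 0 * ρ σ} ∪
    {g | ∃ v ∈ U, g = C.nn v 0} ∪ {g | ∃ z, g = C.nn 0 z}) = ⊤

end

end Pool.Agent.H92.EL
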