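import Pool.Agent.H92.EL.BStm
import Pool.Agent.H92.EL.GDefs

/-!
# Project ELL (MP_a3214d), block B: local and global triviality over `k` in the form of block D
-/

set_option autoImplicit false

open scoped BigOperators
open NumberField IsDedekindDomain

namespace Pool.Agent.H92.EL

open Pool.Agent.H98.MF (Om Gm Dec nrm)

/-- continuous homomorphisms in the two notations -/
theorem hm_homL {k : Type} [Field k] [NumberField k] {l : ℕ} {h : Gm k → ZMod l} :
    Hm h ↔ HomL h := ⟨fun a => ⟨a.lc, a.add⟩, fun a => ⟨a.lc, a.add⟩⟩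

/-- the sum of homomorphisms with coefficients -/
theorem homL_sum {k : Type} [Field k] [NumberField k] {l : ℕ} {r : ℕ}
    {a : Fin r → Gm k → ZMod l} (ha : ∀ i, HomL (a i)) (t : Fin r → ZMod l) :
    HomL fun σ => ∑ i, t i * a i σ := by
  constructor
  · rw [IsLocallyConstant.iff_eventually_eq]
    intro x
    have h : ∀ i, ∀ᶠ y in nhds x, a i y = a i x := fun i =>
      (IsLocallyConstant.iff_eventually_eq (a i)).1 (ha i).lc x
    filter_upwards [Filter.eventually_all.2 h] with y hy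
    exact Finset.sum_congr rfl fun i _ => by rw [hy i]
  · intro σ τ
    rw [← Finset.sum_add_distrib]
    exact Finset.sum_congr rfl fun i _ => by rw [(ha i).add, mul_add]

theorem homL_neg_add {k : Type} [Field k] [NumberField k] {l : ℕ}
    {a b : Gm k → ZMod l} (ha : HomL a) (hb : HomL b) : HomL fun σ => a σ - b σ := by
  constructor
  · rw [IsLocallyConstant.iff_eventually_eq]
    intro x
    filter_upwards [(IsLocallyConstant.iff_eventually_eq a).1 ha.lc x,
      (IsLocallyConstant.iff_eventually_eq b).1 hb.lc x] with y hy hy'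
    rw [hy, hy']
  · intro σ τ
    rw [ha.add, hb.add]
    ring

/-- vanishing of the alternating form at the tame pair gives triviality -/
theorem crt_le (hh : SHtp) {l : ℕ} [Fact l.Prime] (hl : l ≠ 2) {k : Type} [Field k]
    [NumberField k] {p : HeightOneSpectrum (𝓞 k)} {τ φ : Gm k} (hp : Nat.Coprime (nrm p) l)
    (ht : IsTM p τ φ) {r : ℕ} {a b : Fin r → Gm k → ZMod l} (ha : ∀ i, HomL (a i))
    (hb : ∀ i, HomL (b i)) (h0 : ∑ i, (a i φ * b i τ - a i τ * b i φ) = 0) :
    Trv (Dec p) a b := by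
  have hA : ∀ σ', HomL fun σ => ∑ i, (a i σ * b i σ' - a i σ' * b i σ) := by
    intro σ'
    have h1 := homL_neg_add (homL_sum ha (fun i => b i σ')) (homL_sum hb (fun i => a i σ'))
    have h2 : (fun σ => ∑ i, (a i σ * b i σ' - a i σ' * b i σ)) =
        fun σ => ∑ i, b i σ' * a i σ - ∑ i, a i σ' * b i σ := by
      funext σ
      rw [← Finset.sum_sub_distrib]
      exact Finset.sum_congr rfl fun i _ => by ring
    rw [h2]
    exact h1
  have hz : ∀ σ, ∑ i, (a i σ * b i σ - a i σ * b i σ) = 0 := by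
    intro σ
    exact Finset.sum_eq_zero fun i _ => by ring
  have h0' : ∑ i, (a i τ * b i φ - a i φ * b i τ) = 0 := by
    have : ∑ i, (a i τ * b i φ - a i φ * b i τ) = - ∑ i, (a i φ * b i τ - a i τ * b i φ) := by
      rw [← Finset.sum_neg_distrib]
      exact Finset.sum_congr rfl fun i _ => by ring
    rw [this, h0, neg_zero]
  have h1 : ∀ σ ∈ Dec p, ∑ i, (a i σ * b i τ - a i τ * b i σ) = 0 :=
    (hh l k p τ φ hp ht _ (hA τ)).2 (hz τ) h0
  have h2 : ∀ σ ∈ Dec p, ∑ i, (a i σ * b i φ - a i φ * b i σ) = 0 :=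
    (hh l k p τ φ hp ht _ (hA φ)).2 h0' (hz φ)
  have hsw : ∀ σ σ' : Gm k, ∑ i, (a i σ * b i σ' - a i σ' * b i σ) =
      - ∑ i, (a i σ' * b i σ - a i σ * b i σ') := by
    intro σ σ'
    rw [← Finset.sum_neg_distrib]
    exact Finset.sum_congr rfl fun i _ => by ring
  have h3 : ∀ σ' ∈ Dec p, ∀ σ ∈ Dec p, ∑ i, (a i σ * b i σ' - a i σ' * b i σ) = 0 := by
    intro σ' hσ'
    refine (hh l k p τ φ hp ht _ (hA σ')).2 ?_ ?_
    · rw [hsw, h1 σ' hσ', neg_zero]
    · rw [hsw, h2 σ' hσ', neg_zero]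
  have h2n : (2 : ZMod l) ≠ 0 := by
    have hpr : l.Prime := Fact.out
    intro h
    have h4 : ((2 : ℕ) : ZMod l) = 0 := by simpa using h
    rw [ZMod.natCast_eq_zero_iff] at h4
    have h5 := Nat.le_of_dvd (by norm_num) h4
    have h6 := hpr.two_le
    exact hl (by omega)
  refine ⟨fun σ => (2 : ZMod l)⁻¹ * ∑ i, a i σ * b i σ, ?_, ?_⟩
  · rw [IsLocallyConstant.iff_eventually_eq]
    intro x
    have e1 : ∀ i, ∀ᶠ y in nhds x, a i y = a i x := fun i =>
      (IsLocallyConstant.iff_eventually_eq (a i)).1 (ha i).lc x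
    have e2 : ∀ i, ∀ᶠ y in nhds x, b i y = b i x := fun i =>
      (IsLocallyConstant.iff_eventually_eq (b i)).1 (hb i).lc x
    filter_upwards [Filter.eventually_all.2 e1, Filter.eventually_all.2 e2] with y hy hy'
    congr 1
    exact Finset.sum_congr rfl fun i _ => by rw [hy i, hy' i]
  · intro σ hσ σ' hσ'
    have h5 := h3 σ' hσ' σ hσ
    have h6 : ∑ i, a i (σ * σ') * b i (σ * σ') = ∑ i, a i σ * b i σ + ∑ i, a i σ' * b i σ' +
        (2 : ZMod l) * ∑ i, a i σ * b i σ' := by
      have h7 : ∑ i, a i σ' * b i σ = ∑ i, a i σ * b i σ' := by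
        rw [Finset.sum_sub_distrib] at h5
        exact (sub_eq_zero.1 h5).symm
      have h8 : ∑ i, a i (σ * σ') * b i (σ * σ') = ∑ i, a i σ * b i σ + ∑ i, a i σ' * b i σ' +
          (∑ i, a i σ * b i σ' + ∑ i, a i σ' * b i σ) := by
        rw [← Finset.sum_add_distrib, ← Finset.sum_add_distrib, ← Finset.sum_add_distrib]
        exact Finset.sum_congr rfl fun i _ => by rw [(ha i).add, (hb i).add]; ring
      rw [h8, h7]
      ring
    show (2 : ZMod l)⁻¹ * ∑ i, a i (σ * σ') * b i (σ * σ') = _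
    rw [h6, mul_add, mul_add, ← mul_assoc, inv_mul_cancel₀ h2n, one_mul]

/-- triviality over `k` -/
theorem hasK (hp : SHpk) (hh : SHtp) (l : ℕ) [Fact l.Prime] (hl : l ≠ 2) (k : Type) [Field k]
    [NumberField k] (t : TM k) : HasK k l t.tau t.phi := by
  have hcop : ∀ P : HeightOneSpectrum (𝓞 k), ((nrm P : ℕ) : ZMod l) ≠ 0 →
      Nat.Coprime (nrm P) l := by
    intro P h
    have hpr : l.Prime := Fact.out
    rw [Nat.coprime_comm, Nat.Prime.coprime_iff_not_dvd hpr]
    intro h2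
    exact h ((ZMod.natCast_eq_zero_iff _ _).2 h2)
  refine ⟨?_, ?_, ?_⟩
  · intro r a b ha hb h
    exact hp l hl k r a b (fun i => hm_homL.1 (ha i)) (fun i => hm_homL.1 (hb i)) h
  · intro P hP r a b ha hb h
    exact crt_le hh hl (hcop P hP) (t.tm P) (fun i => hm_homL.1 (ha i))
      (fun i => hm_homL.1 (hb i)) h
  · intro P hP hP1 h hh'
    exact (hh l k P _ _ (hcop P hP) (t.tm P) h (hm_homL.1 hh')).1 hP1

end Pool.Agent.H92.EL
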