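import Pool.Agent.H92.EL.BStm
import Pool.Agent.H92.EL.BLHasK
import Pool.Agent.H98.MF.L.Ord

/-!
# Project ELL (MP_a3214d), block B: the local criterion over `k` (row BL18)
-/

set_option autoImplicit false

open scoped BigOperators Pointwise
open NumberField IsDedekindDomain

namespace Pool.Agent.H92.EL

open Pool.Agent.H98.MF (Om Gm ord Dec nrm)

section

variable {l : ℕ} [Fact l.Prime] {K : Type} [Field K] [NumberField K] {z : K}

/-- a prime of norm prime to `l` does not divide `l` -/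
theorem blcrt_ordl {Q : HeightOneSpectrum (𝓞 K)} (h : Nat.Coprime (nrm Q) l) :
    ord Q (l : K) = 0 := by
  have e : (((l : ℕ) : 𝓞 K) : K) = (l : K) := map_natCast (algebraMap (𝓞 K) K) l
  rw [← e]
  refine Pool.Agent.H98.MF.ord_unit Q ?_
  intro hmem
  have h1 : ((nrm Q : ℕ) : 𝓞 K) ∈ Q.asIdeal := Ideal.absNorm_mem Q.asIdeal
  have h2 : IsCoprime ((nrm Q : ℕ) : 𝓞 K) ((l : ℕ) : 𝓞 K) := by
    have h3 : IsCoprime ((nrm Q : ℕ) : ℤ) ((l : ℕ) : ℤ) := Nat.isCoprime_iff_coprime.2 h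
    have h4 := h3.map (Int.castRingHom (𝓞 K))
    simpa using h4
  obtain ⟨u, v, huv⟩ := h2
  refine Q.isPrime.ne_top ((Ideal.eq_top_iff_one _).2 ?_)
  rw [← huv]
  exact Q.asIdeal.add_mem (Q.asIdeal.mul_mem_left _ h1) (Q.asIdeal.mul_mem_left _ hmem)

/-- decomposition into a unit and a power of a uniformiser -/
theorem blcrt_dec (Q : HeightOneSpectrum (𝓞 K)) : ∃ π : Kˣ, ord Q (π : K) = 1 ∧
    ∀ a : Kˣ, ord Q ((a / π ^ ord Q (a : K) : Kˣ) : K) = 0 := by
  obtain ⟨π, hπ⟩ := Pool.Agent.H98.MF.exists_unif Q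
  have hπ0 : (π : K) ≠ 0 := by
    intro h0
    rw [h0, Pool.Agent.H98.MF.ord_zero] at hπ
    exact zero_ne_one hπ
  have hz : ∀ n : ℤ, ord Q ((Units.mk0 (π : K) hπ0 ^ n : Kˣ) : K) = n := by
    intro n
    obtain ⟨j, rfl | rfl⟩ := n.eq_nat_or_neg
    · rw [zpow_natCast, Units.val_pow_eq_pow_val, Pool.Agent.H98.MF.ord_pow, Units.val_mk0, hπ,
        mul_one]
    · rw [zpow_neg, zpow_natCast, Units.val_inv_eq_inv_val, Pool.Agent.H98.MF.ord_inv,
        Units.val_pow_eq_pow_val, Pool.Agent.H98.MF.ord_pow, Units.val_mk0, hπ, mul_one]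
  refine ⟨Units.mk0 (π : K) hπ0, ?_, ?_⟩
  · rw [Units.val_mk0]
    exact hπ
  · intro a
    rw [Units.val_div_eq_div_val, Pool.Agent.H98.MF.ord_div Q a.ne_zero (Units.ne_zero _), hz,
      sub_self]

/-- integral powers under additive maps -/
theorem blcrt_zpow (f : Kˣ → ZMod l) (hf : ∀ a b, f (a * b) = f a + f b) (a : Kˣ) (n : ℤ) :
    f (a ^ n) = (n : ZMod l) * f a := by
  let F : Kˣ →* Multiplicative (ZMod l) :=
    MonoidHom.mk' (fun x => Multiplicative.ofAdd (f x)) (fun x y => by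
      show Multiplicative.ofAdd (f (x * y)) = _
      rw [hf, ofAdd_add])
  have h := map_zpow F a n
  have h1 : F (a ^ n) = Multiplicative.ofAdd (f (a ^ n)) := rfl
  have h2 : F a = Multiplicative.ofAdd (f a) := rfl
  rw [h1, h2, ← ofAdd_zsmul] at h
  have h3 := Multiplicative.ofAdd.injective h
  rw [h3, zsmul_eq_mul]

variable (Y : LSy l K z)

/-- the symbol at a prime not above `l` -/
theorem blcrt_hs (Q : HeightOneSpectrum (𝓞 K)) (hl : ord Q (l : K) = 0) {π : Kˣ}
    (hπ : ord Q (π : K) = 1) (a b : Kˣ) (m n : ℤ) (a' b' : Kˣ) (ha : a = a' * π ^ m)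
    (hb : b = b' * π ^ n) (ha' : ord Q (a' : K) = 0) (hb' : ord Q (b' : K) = 0) :
    Y.hs Q a b = Y.cc Q * ((n : ZMod l) * lgs l z Q (a' : K) -
      (m : ZMod l) * lgs l z Q (b' : K)) := by
  have anti : ∀ x y : Kˣ, Y.hs Q x y = - Y.hs Q y x := by
    intro x y
    have h := Y.alt Q (x * y)
    rw [Y.mulL, Y.mulR, Y.mulR, Y.alt, Y.alt] at h
    linear_combination h
  have zR : ∀ (x y : Kˣ) (i : ℤ), Y.hs Q x (y ^ i) = (i : ZMod l) * Y.hs Q x y := fun x y i =>
    blcrt_zpow (fun w => Y.hs Q x w) (fun u v => Y.mulR Q x u v) y i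
  have zL : ∀ (x y : Kˣ) (i : ℤ), Y.hs Q (x ^ i) y = (i : ZMod l) * Y.hs Q x y := fun x y i =>
    blcrt_zpow (fun w => Y.hs Q w y) (fun u v => Y.mulL Q u v y) x i
  have e1 : Y.hs Q a' b' = 0 := by
    rw [Y.unit Q a' b' hl ha', hb']
    simp
  have e2 : Y.hs Q a' π = Y.cc Q * lgs l z Q (a' : K) := by
    rw [Y.unit Q a' π hl ha', hπ]
    simp
  have e3 : Y.hs Q π b' = - (Y.cc Q * lgs l z Q (b' : K)) := by
    rw [anti, Y.unit Q b' π hl hb', hπ]
    simp
  rw [ha, hb, Y.mulL, Y.mulR, Y.mulR, zR, zR, zL, zL, Y.alt, e1, e2, e3]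
  ring

end

theorem scrt (h0 : SCy) (hk : SKu) (hls : SLs) (hlg : SLg) (hc : SCyl) (ht : SThF) (hd : SDcF)
    (hkk : SKk) (hp : SPrk) (hrg : SRgk) (htau : STau) (hphi : SPhi) (hkap : SKap)
    (hh : SHtp) : SCrt := by
  intro l _ hl k _ _ p τ φ hcop htm r a b ha hb
  have hcl : Nat.Coprime (nrm p) l := Nat.Coprime.coprime_mul_right_right hcop
  constructor
  · rintro ⟨f, hf, hfa⟩
    by_cases hn : (nrm p : ZMod l) = 1
    · obtain ⟨K, _, _, _, z, ⟨X⟩⟩ := h0 l Fact.out k
      obtain ⟨Q, hQ⟩ := (hp k K).2 p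
      obtain ⟨g, hg⟩ := (hd l k K z X).ex p Q hQ
      have hcd := (hd l k K z X).cd p Q g hg
      obtain ⟨hcyl, -⟩ := hc l k K z X
      have hrg1 := hrg l k K z X.prim hcyl p Q hQ hcl
      have hnQ : nrm Q = nrm p := hrg1.2 (hrg1.1.2 hn)
      have hol : ord Q (l : K) = 0 := blcrt_ordl (by rw [hnQ]; exact hcl)
      obtain ⟨τ', κ, hτ1, hτ2, hτ3⟩ := htau l k K z X p Q g τ φ hQ hcop htm hg
      obtain ⟨φ', hφ1, hφ2, hφ3⟩ := hphi l k K z X p Q g τ φ hQ hcop htm hg hn
      obtain ⟨Y⟩ := hls l Fact.out hl K z X.prim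
      have hkf := hk l Fact.out K z X.prim
      choose α hα using fun i => (hkk l k K z X).ex (a i) (ha i)
      choose β hβ using fun i => (hkk l k K z X).ex (b i) (hb i)
      -- conjugation invariance of homomorphisms
      have hconj : ∀ h : Gm k → ZMod l, HomL h → ∀ x : Gm k, h (g⁻¹ * x * g) = h x := by
        intro h hh' x
        have h1 : h 1 = 0 := by
          have := hh'.add 1 1
          rw [mul_one] at this
          linear_combination -this
        have h2 : h g⁻¹ + h g = 0 := by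
          rw [← hh'.add, inv_mul_cancel, h1]
        rw [hh'.add, hh'.add]
        linear_combination h2
      have hconj' : ∀ h : Gm k → ZMod l, HomL h → ∀ x : Gm k, h (g * x * g⁻¹) = h x := by
        intro h hh' x
        rw [← hconj h hh' (g * x * g⁻¹)]
        congr 1
        group
      -- the sum of the symbols vanishes
      have hsum : ∑ i, Y.hs Q (α i) (β i) = 0 := by
        refine (Y.triv Q α β).1 ⟨fun σ => f (g⁻¹ * X.Th σ * g), ?_, ?_⟩
        · refine hf.comp_continuous ?_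
          have hTc := (ht l k K z X).cont
          exact (continuous_const.mul hTc).mul continuous_const
        · intro σ hσ σ' hσ'
          have e1 : g⁻¹ * X.Th (σ * σ') * g = (g⁻¹ * X.Th σ * g) * (g⁻¹ * X.Th σ' * g) := by
            rw [map_mul]
            group
          have e2 := hfa _ ((hcd σ).1 hσ) _ ((hcd σ').1 hσ')
          show f (g⁻¹ * X.Th (σ * σ') * g) = f (g⁻¹ * X.Th σ * g) + f (g⁻¹ * X.Th σ' * g) + _
          rw [e1, e2]
          congr 1
          refine Finset.sum_congr rfl fun i _ => ?_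
          rw [hconj _ (ha i), hconj _ (hb i), hα i σ, hβ i σ']
      obtain ⟨π, hπ, hπd⟩ := blcrt_dec (K := K) Q
      -- the values
      have hval : ∀ (h : Gm k → ZMod l) (c : Kˣ), HomL h → X.Is h c →
          h τ = κ * ((ord Q (c : K) : ℤ) : ZMod l) ∧
          h φ = lgs l z Q ((c / π ^ ord Q (c : K) : Kˣ) : K) +
            ((ord Q (c : K) : ℤ) : ZMod l) * chl l z (π : K) φ' := by
        intro h c hh' hc'
        constructor
        · rw [← hconj' h hh' τ, ← hτ1, hc' τ', hτ3 c]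
        · rw [← hconj' h hh' φ, ← hφ1, hc' φ', ← hφ3 _ (hπd c)]
          have e1 : chl l z (c : K) φ' =
              chl l z (((c / π ^ ord Q (c : K)) * π ^ ord Q (c : K) : Kˣ) : K) φ' := by
            rw [div_mul_cancel]
          rw [e1, hkf.mul]
          congr 1
          exact blcrt_zpow (fun w : Kˣ => chl l z (w : K) φ')
            (fun u v => hkf.mul u v φ') π (ord Q (c : K))
      have hterm : ∀ i, a i τ * b i φ - a i φ * b i τ =
          - (κ * (Y.cc Q)⁻¹) * Y.hs Q (α i) (β i) := by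
        intro i
        obtain ⟨u1, u2⟩ := hval (a i) (α i) (ha i) (hα i)
        obtain ⟨v1, v2⟩ := hval (b i) (β i) (hb i) (hβ i)
        have hhs := blcrt_hs Y Q hol hπ (α i) (β i) (ord Q (α i : K)) (ord Q (β i : K))
          (α i / π ^ ord Q (α i : K)) (β i / π ^ ord Q (β i : K))
          (by rw [div_mul_cancel]) (by rw [div_mul_cancel]) (hπd _) (hπd _)
        rw [u1, u2, v1, v2, hhs]
        have hcc := Y.cc_ne Q
        have e : -(κ * (Y.cc Q)⁻¹) * (Y.cc Q * (((ord Q (β i : K) : ℤ) : ZMod l) *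
            lgs l z Q ((α i / π ^ ord Q (α i : K) : Kˣ) : K) -
            ((ord Q (α i : K) : ℤ) : ZMod l) *
            lgs l z Q ((β i / π ^ ord Q (β i : K) : Kˣ) : K))) =
            -κ * ((Y.cc Q)⁻¹ * Y.cc Q) * (((ord Q (β i : K) : ℤ) : ZMod l) *
            lgs l z Q ((α i / π ^ ord Q (α i : K) : Kˣ) : K) -
            ((ord Q (α i : K) : ℤ) : ZMod l) *
            lgs l z Q ((β i / π ^ ord Q (β i : K) : Kˣ) : K)) := by ring
        rw [e, inv_mul_cancel₀ hcc]
        ring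
      rw [Finset.sum_congr rfl fun i _ => hterm i, ← Finset.mul_sum, hsum, mul_zero]
    · refine Finset.sum_eq_zero fun i _ => ?_
      rw [(hh l k p τ φ hcl htm (a i) (ha i)).1 hn, (hh l k p τ φ hcl htm (b i) (hb i)).1 hn]
      ring
  · intro h
    refine crt_le hh hl hcl htm ha hb ?_
    rw [← neg_eq_zero, ← Finset.sum_neg_distrib, ← h]
    exact Finset.sum_congr rfl fun i _ => by ring

end Pool.Agent.H92.EL
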