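import Pool.Agent.H92.EL.BStm

/-!
# Project ELL (MP_a3214d), block B, row BL1: the field `K = k(z)`
-/

set_option autoImplicit false

open scoped BigOperators Pointwise
open NumberField IsDedekindDomain

namespace Pool.Agent.H92.EL

open Pool.Agent.H98.MF (Om Gm)

/-- an identification of the closures -/
theorem blcy_equiv (k K : Type) [Field k] [NumberField k] [Field K] [NumberField K]
    [Algebra k K] : ∃ j : Om K ≃+* Om k,
      ∀ x : k, j (algebraMap K (Om K) (algebraMap k K x)) = algebraMap k (Om k) x := by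
  let f : K →ₐ[k] Om k := IsAlgClosed.lift
  letI : Algebra K (Om k) := f.toRingHom.toAlgebra
  haveI : IsScalarTower k K (Om k) := IsScalarTower.of_algebraMap_eq fun x =>
    (f.commutes x).symm
  haveI : Algebra.IsAlgebraic K (Om k) := Algebra.IsAlgebraic.tower_top (K := k) K
  haveI : IsAlgClosure K (Om k) := ⟨inferInstance, inferInstance⟩
  let e : Om K ≃ₐ[K] Om k := IsAlgClosure.equiv K (Om K) (Om k)
  refine ⟨(e : Om K ≃+* Om k), fun x => ?_⟩
  have h1 : e (algebraMap K (Om K) (algebraMap k K x)) =
      algebraMap K (Om k) (algebraMap k K x) := e.commutes _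
  have h2 : algebraMap K (Om k) (algebraMap k K x) = algebraMap k (Om k) x := f.commutes x
  exact h1.trans h2

/-- the extension exists -/
theorem scy : SCy := by
  intro l hl k _ _
  haveI : NeZero l := ⟨hl.ne_zero⟩
  haveI : NeZero ((l : ℕ) : k) := ⟨Nat.cast_ne_zero.2 hl.ne_zero⟩
  haveI hNF : NumberField (CyclotomicField l k) :=
    IsCyclotomicExtension.numberField {l} k (CyclotomicField l k)
  have hz : IsPrimitiveRoot (IsCyclotomicExtension.zeta l k (CyclotomicField l k)) l :=
    IsCyclotomicExtension.zeta_spec l k (CyclotomicField l k)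
  obtain ⟨j, hj⟩ := blcy_equiv k (CyclotomicField l k)
  refine ⟨CyclotomicField l k, inferInstance, hNF, inferInstance,
    IsCyclotomicExtension.zeta l k (CyclotomicField l k), ⟨⟨hz, ?_, j, hj⟩⟩⟩
  have h1 : Algebra.adjoin k {IsCyclotomicExtension.zeta l k (CyclotomicField l k)} = ⊤ :=
    IsCyclotomicExtension.adjoin_primitive_root_eq_top hz
  rw [eq_top_iff]
  intro x _
  have h2 : x ∈ Algebra.adjoin k {IsCyclotomicExtension.zeta l k (CyclotomicField l k)} :=
    h1 ▸ Algebra.mem_top
  exact IntermediateField.algebra_adjoin_le_adjoin k _ h2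

end Pool.Agent.H92.EL
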