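import Pool.Agent.H92.EL.BStm

/-!
# Project ELL (MP_a3214d), block B, row BL2: the extension `K = k(z)` is Galois
-/

set_option autoImplicit false

open scoped BigOperators
open NumberField IsDedekindDomain

namespace Pool.Agent.H92.EL

/-- BL2 -/
theorem scyl : SCyl := by
  intro l hl k K _ _ _ _ _ z X
  haveI : FiniteDimensional k K := Module.Finite.of_restrictScalars_finite ℚ k K
  haveI : NeZero l := ⟨hl.out.ne_zero⟩
  have hz := X.prim
  have hadj : Algebra.adjoin k ({z} : Set K) = ⊤ := by
    have h := IntermediateField.adjoin_simple_toSubalgebra_of_isAlgebraic (F := k) (α := z)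
      (Algebra.IsAlgebraic.isAlgebraic z)
    rw [← h, X.gen]
    rfl
  have hcyc : IsCyclotomicExtension {l} k K := by
    refine (IsCyclotomicExtension.iff_singleton l k K).2 ⟨⟨z, hz⟩, fun x => ?_⟩
    have h1 : x ∈ Algebra.adjoin k ({z} : Set K) := by rw [hadj]; exact Algebra.mem_top
    refine Algebra.adjoin_mono ?_ h1
    rintro _ rfl
    exact hz.pow_eq_one
  have hgal : IsGalois k K := IsCyclotomicExtension.isGalois {l} k K
  have hinj : ∀ δ : K ≃ₐ[k] K, δ z = z → δ = 1 := by
    intro δ hδ
    have h1 : (δ : K →ₐ[k] K) = AlgHom.id k K := by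
      apply AlgHom.ext_of_adjoin_eq_top hadj
      rintro _ rfl
      exact hδ
    ext x
    exact AlgHom.congr_fun h1 x
  have hci : Function.Injective (cyK k hz) := by
    rw [injective_iff_map_eq_one]
    intro δ hδ
    apply hinj
    have h1 := hz.autToPow_spec k δ
    have h2 : hz.autToPow k δ = 1 := hδ
    rw [h2] at h1
    rw [← h1]
    haveI : Fact (1 < l) := ⟨hl.out.one_lt⟩
    rw [Units.val_one, ZMod.val_one, pow_one]
  have hcard : Nat.card (K ≃ₐ[k] K) = Module.finrank k K := IsGalois.card_aut_eq_finrank k K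
  refine ⟨⟨hgal, hinj⟩, ?_, hcard, hci⟩
  rw [← hcard]
  have h1 : Nat.card (K ≃ₐ[k] K) = Nat.card (cyK k hz).range :=
    Nat.card_congr (MonoidHom.ofInjective hci).toEquiv
  rw [h1]
  have h2 : Nat.card (ZMod l)ˣ = l - 1 := by
    rw [Nat.card_eq_fintype_card, ZMod.card_units_eq_totient, Nat.totient_prime hl.out]
  rw [← h2]
  exact Subgroup.card_subgroup_dvd_card _

end Pool.Agent.H92.EL
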