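import Pool.Agent.H92.EL.BStm
import Pool.Agent.H98.MF.L.Top

/-!
# Project ELL (MP_a3214d), block B: decomposition groups of `K` and `k`
-/

set_option autoImplicit false

open scoped BigOperators Pointwise
open NumberField IsDedekindDomain

namespace Pool.Agent.H92.EL

open Pool.Agent.H98.MF (Om Gm ord Dec top US PrS SUn mS nrm gen cj qxR qxR_coe top_prime top_comap
  tp_cont mem_cj)

/-- transitivity on the primes above a prime -/
private theorem bldc_trans {F : Type} [Field F] [NumberField F] (T T' : Ideal (𝓞 (Om F)))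
    (hT : T.IsPrime) (hT' : T'.IsPrime) (h : T.comap (algebraMap (𝓞 F) (𝓞 (Om F)))
      = T'.comap (algebraMap (𝓞 F) (𝓞 (Om F)))) : ∃ τ : Gm F, T' = τ • T := by
  let _ : TopologicalSpace (𝓞 (Om F)) := ⊥
  have : DiscreteTopology (𝓞 (Om F)) := ⟨rfl⟩
  have : IsGalois F (Om F) := inferInstance
  have : ContinuousSMul (Gm F) (𝓞 (Om F)) := tp_cont F
  have : SMulCommClass (Gm F) (𝓞 F) (𝓞 (Om F)) := by
    constructor
    intro σ a b
    rw [Algebra.smul_def, Algebra.smul_def]
    apply RingOfIntegers.coe_injective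
    show σ (algebraMap F (Om F) (a : F) * (b : Om F)) = algebraMap F (Om F) (a : F) * σ (b : Om F)
    rw [map_mul, σ.commutes]
  have : Algebra.IsInvariant (𝓞 F) (𝓞 (Om F)) (Gm F) := by
    constructor
    intro b hb
    have h1 : (b : Om F) ∈ Set.range (algebraMap F (Om F)) := by
      rw [InfiniteGalois.mem_range_algebraMap_iff_fixed]
      intro σ
      have h2 : ((σ • b : 𝓞 (Om F)) : Om F) = b := by rw [hb σ]
      exact h2
    obtain ⟨a, ha⟩ := h1
    have h2 : IsIntegral ℤ a := by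
      have h3 : IsIntegral ℤ (algebraMap F (Om F) a) := by rw [ha]; exact b.2
      exact (isIntegral_algebraMap_iff (algebraMap F (Om F)).injective).1 h3
    refine ⟨⟨a, h2⟩, ?_⟩
    exact RingOfIntegers.coe_injective ha
  exact Algebra.IsInvariant.exists_smul_of_under_eq_of_profinite (A := 𝓞 F) T T' h

/-- membership in the decomposition group -/
private theorem bldc_mem {F : Type} [Field F] [NumberField F] (p : HeightOneSpectrum (𝓞 F))
    (σ : Gm F) : σ ∈ Dec p ↔ ∀ y : 𝓞 (Om F), y ∈ top p ↔ σ • y ∈ top p := by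
  constructor
  · intro h y
    have h0 : σ • top p = top p := h
    have h1 : σ • y ∈ σ • top p ↔ y ∈ top p := Ideal.smul_mem_pointwise_smul_iff
    rw [h0] at h1
    exact h1.symm
  · intro h
    show σ • top p = top p
    ext x
    rw [Ideal.mem_pointwise_smul_iff_inv_smul_mem, h (σ⁻¹ • x), smul_inv_smul]

section

variable {l : ℕ} [Fact l.Prime] {k K : Type} [Field k] [NumberField k] [Field K] [NumberField K]
  [Algebra k K] {z : K} (X : CyX l k K z)

omit [Fact l.Prime] in
private theorem bldc_jO (σ : Gm K) (x : 𝓞 (Om K)) : X.jO (σ • x) = X.Th σ • X.jO x := by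
  apply RingOfIntegers.coe_injective
  exact (X.Th_apply σ (x : Om K)).symm

omit [Fact l.Prime] in
private theorem bldc_alg (a : 𝓞 k) :
    X.jO (algebraMap (𝓞 K) (𝓞 (Om K)) (algebraMap (𝓞 k) (𝓞 K) a)) =
      algebraMap (𝓞 k) (𝓞 (Om k)) a := by
  apply RingOfIntegers.coe_injective
  exact X.j_alg (a : k)

omit [NumberField k] in
private theorem bldc_fix (g : Gm k) (a : 𝓞 k) :
    g • algebraMap (𝓞 k) (𝓞 (Om k)) a = algebraMap (𝓞 k) (𝓞 (Om k)) a := by
  apply RingOfIntegers.coe_injective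
  exact g.commutes (a : k)

private theorem bldc_top {F : Type} [Field F] [NumberField F] (p : HeightOneSpectrum (𝓞 F))
    (a : 𝓞 F) : algebraMap (𝓞 F) (𝓞 (Om F)) a ∈ top p ↔ a ∈ p.asIdeal := by
  rw [← Ideal.mem_comap, top_comap]

/-- the ideal of `𝓞 (Om K)` corresponding to the conjugate of `top p` -/
private noncomputable def bldcI (p : HeightOneSpectrum (𝓞 k)) (g : Gm k) : Ideal (𝓞 (Om K)) :=
  (g • top p).comap (X.jO : 𝓞 (Om K) →+* 𝓞 (Om k))

omit [Fact l.Prime] in
private theorem bldcI_mem (p : HeightOneSpectrum (𝓞 k)) (g : Gm k) (x : 𝓞 (Om K)) :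
    x ∈ bldcI X p g ↔ g⁻¹ • X.jO x ∈ top p := by
  unfold bldcI
  rw [Ideal.mem_comap, Ideal.mem_pointwise_smul_iff_inv_smul_mem]
  rfl

omit [Fact l.Prime] in
private theorem bldcI_prime (p : HeightOneSpectrum (𝓞 k)) (g : Gm k) : (bldcI X p g).IsPrime := by
  have := top_prime p
  have : (g • top p).IsPrime := Ideal.IsPrime.smul _
  exact Ideal.comap_isPrime _ _

omit [Fact l.Prime] in
/-- transport of the conjugating element by an element of the Galois group of `K` -/
private theorem bldc_mv (p : HeightOneSpectrum (𝓞 k)) (Q : HeightOneSpectrum (𝓞 K)) (g : Gm k)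
    (h : (bldcI X p g).comap (algebraMap (𝓞 K) (𝓞 (Om K))) = Q.asIdeal) :
    ∃ s : Gm K, X.Tp p Q (X.Th s * g) := by
  obtain ⟨s, hs⟩ := bldc_trans (bldcI X p g) (top Q) (bldcI_prime X p g) (top_prime Q)
    (by rw [h, top_comap])
  refine ⟨s, fun x => ?_⟩
  rw [hs, Ideal.mem_pointwise_smul_iff_inv_smul_mem, bldcI_mem, bldc_jO, map_inv, mul_inv_rev,
    mul_smul]

end

theorem sdcf (h' : SRsF) (hk : SKu) : SDcF := by
  intro l _ k K _ _ _ _ _ z X
  have hR := h' l k K z X (hk l Fact.out K z X.prim)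
  refine ⟨fun p Q hpQ => ?_, fun p Q g hg σ => ?_, fun p Q g hg => ?_, fun p Q g g' hg => ?_,
    fun p Q g δ hg => ?_⟩
  · -- existence
    have hT := top_prime Q
    have h1 : ((top Q).comap (X.jO.symm : 𝓞 (Om k) →+* 𝓞 (Om K))).IsPrime :=
      Ideal.comap_isPrime _ _
    have h2 : ∀ y : 𝓞 (Om k), y ∈ (top Q).comap (X.jO.symm : 𝓞 (Om k) →+* 𝓞 (Om K)) ↔
        X.jO.symm y ∈ top Q := fun y => Iff.rfl
    obtain ⟨τ, hτ⟩ := bldc_trans (top p) _ (top_prime p) h1 (by
      rw [top_comap]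
      ext a
      rw [Ideal.mem_comap, h2, ← bldc_alg X a, RingEquiv.symm_apply_apply, bldc_top]
      have h3 : Q.asIdeal.comap (algebraMap (𝓞 k) (𝓞 K)) = p.asIdeal := hpQ
      rw [← h3, Ideal.mem_comap])
    refine ⟨τ, fun x => ?_⟩
    rw [← Ideal.mem_pointwise_smul_iff_inv_smul_mem, ← hτ, h2, RingEquiv.symm_apply_apply]
  · -- decomposition groups
    rw [bldc_mem, bldc_mem]
    constructor
    · intro h y
      obtain ⟨x, hx⟩ := X.jO.surjective (g • y)
      have h1 := h x
      rw [hg x, hg (σ • x), bldc_jO, hx, inv_smul_smul] at h1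
      rw [h1, mul_smul, mul_smul]
    · intro h x
      have h1 := h (g⁻¹ • X.jO x)
      rw [hg x, hg (σ • x), bldc_jO, h1, mul_smul, mul_smul, smul_inv_smul]
  · -- the primes
    show Q.asIdeal.comap (algebraMap (𝓞 k) (𝓞 K)) = p.asIdeal
    ext a
    rw [Ideal.mem_comap, ← bldc_top Q, hg, bldc_alg, bldc_fix, bldc_top]
  · -- uniqueness
    rw [bldc_mem]
    constructor
    · intro h y
      obtain ⟨x, hx⟩ := X.jO.surjective (g' • y)
      have h1 := h x
      have h2 := hg x
      rw [hx] at h1 h2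
      rw [inv_smul_smul] at h1
      rw [← h1, h2, mul_smul]
    · intro h x
      have h1 := h (g'⁻¹ • X.jO x)
      rw [mul_smul, smul_inv_smul] at h1
      rw [h1]
      exact hg x
  · -- the action
    obtain ⟨γ, hγ⟩ := hR.ex δ
    obtain ⟨s, hs⟩ := bldc_mv X p (dP δ Q) (γ * g) (by
      ext a
      rw [Ideal.mem_comap, bldcI_mem]
      have h1 : γ⁻¹ • X.jO (algebraMap (𝓞 K) (𝓞 (Om K)) a) =
          X.jO (algebraMap (𝓞 K) (𝓞 (Om K)) (qxR δ.symm a)) := by
        rw [inv_smul_eq_iff]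
        apply RingOfIntegers.coe_injective
        have h2 := hγ ((qxR δ.symm a : 𝓞 K) : K)
        rw [qxR_coe, AlgEquiv.apply_symm_apply] at h2
        show X.j (algebraMap K (Om K) (a : K)) = γ (X.j (algebraMap K (Om K) _))
        rw [qxR_coe]
        exact h2.symm
      rw [mul_inv_rev, mul_smul, h1, ← hg, bldc_top]
      exact (mem_cj δ.symm Q a).symm)
    refine ⟨X.Th s * γ, ?_, ?_⟩
    · have h3 := hR.mul (X.Th s) γ 1 δ ((hR.one _).2 ⟨s, rfl⟩) hγ
      rwa [one_mul] at h3
    · rw [mul_assoc]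
      exact hs

end Pool.Agent.H92.EL
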