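import Pool.Agent.H92.EL.BStm

/-!
# Project ELL (MP_a3214d), block B, row BL22: the map to the primes of `k`
-/

set_option autoImplicit false

open scoped BigOperators Pointwise
open NumberField IsDedekindDomain

namespace Pool.Agent.H92.EL

open Pool.Agent.H98.MF (Om Gm ord Dec top US PrS SUn mS nrm gen cj)

theorem sdn (hc : SCyl) (hp : SPrk) (h1 : SK1) (h3 : SK3) : SDn := by
  intro l _ k K _ _ _ _ _ z X G T F
  obtain ⟨hcyl, -⟩ := hc l k K z X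
  have := hcyl.gal
  obtain ⟨hp1, hp2⟩ := hp k K
  have hD := h1 l Fact.out k K
  have h3' := h3 k K
  choose dn hdn hdn' using fun p : F.sys.P => hp1 (F.pl p)
  have hun : ∀ (p : F.sys.P) (P : HeightOneSpectrum (𝓞 k)), OvP P (F.pl p) → P = dn p := hdn'
  refine ⟨dn, ⟨hdn, fun Q => ⟨?_, fun hQ => ?_⟩, fun p q => ⟨fun h => ?_, ?_⟩, fun p => ?_⟩⟩
  · rintro ⟨p, rfl⟩ hT
    exact (F.pl_iff (F.pl p)).1 ⟨p, rfl⟩ ((F.ovr (F.pl p)).2 ⟨dn p, hT, hdn p⟩)
  · obtain ⟨Q', hQ'⟩ := hp2 Q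
    have hS : Q' ∉ F.S := by
      intro hS
      obtain ⟨P, hP, hPQ⟩ := (F.ovr Q').1 hS
      have h4 : P = Q := (hp1 Q').unique hPQ hQ'
      exact hQ (h4 ▸ hP)
    obtain ⟨p, rfl⟩ := (F.pl_iff Q').2 hS
    exact ⟨p, (hun p Q hQ').symm⟩
  · have h5 : OvP (dn p) (F.pl q) := by
      rw [h]
      exact hdn q
    obtain ⟨δ, hδ⟩ := (h3' (dn p) (F.pl p) (F.pl q) (hdn p)).1 h5
    refine ⟨F.dg.symm δ, F.pl_inj ?_⟩
    rw [F.ac_eq, MulEquiv.apply_symm_apply, hδ]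
  · rintro ⟨g, rfl⟩
    have h6 : OvP (dn p) (F.pl (F.sys.ac g p)) :=
      (h3' (dn p) (F.pl p) _ (hdn p)).2 ⟨F.dg g, (F.ac_eq g p).symm⟩
    exact hun _ _ h6
  · constructor
    · intro h δ hδ
      have h7 : F.sys.ac (F.dg.symm δ) p = p := F.pl_inj (by
        rw [F.ac_eq, MulEquiv.apply_symm_apply, hδ])
      have h8 := h _ h7
      have h9 := congrArg F.dg h8
      rwa [MulEquiv.apply_symm_apply, map_one] at h9
    · intro h g hg
      have h7 : dP (F.dg g) (F.pl p) = F.pl p := by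
        rw [← F.ac_eq, hg]
      have h8 := h _ h7
      exact (MulEquiv.map_eq_one_iff F.dg).1 h8

end Pool.Agent.H92.EL
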