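import Pool.Agent.H92.EL.BStm

/-!
# Project ELL (MP_a3214d), block B: frames of `k` exist, given the parts
-/

set_option autoImplicit false

open scoped BigOperators Pointwise
open NumberField IsDedekindDomain

namespace Pool.Agent.H92.EL

open Pool.Agent.H98.MF (Om Gm ord Dec top US PrS SUn mS nrm gen cj)

section

variable {k : Type} [Field k] [NumberField k]

/-- only finitely many primes contain a nonzero natural number -/
private theorem blFr_fin {n : ℕ} (hn : n ≠ 0) :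
    {P : HeightOneSpectrum (𝓞 k) | (n : 𝓞 k) ∈ P.asIdeal}.Finite := by
  have hn' : (n : 𝓞 k) ≠ 0 := Nat.cast_ne_zero.2 hn
  have h0 : Ideal.span {(n : 𝓞 k)} ≠ 0 := by
    intro h
    exact hn' (Ideal.span_singleton_eq_bot.1 h)
  refine (Ideal.finite_factors h0).subset ?_
  intro P hP
  have hP' : (n : 𝓞 k) ∈ P.asIdeal := hP
  change P.asIdeal ∣ Ideal.span {(n : 𝓞 k)}
  rw [Ideal.dvd_span_singleton]
  exact hP'

/-- the norm of a prime not containing `n` is prime to `n` -/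
private theorem blFr_cop {n : ℕ} (P : HeightOneSpectrum (𝓞 k))
    (h : (n : 𝓞 k) ∉ P.asIdeal) : Nat.Coprime (nrm P) n := by
  by_contra hc
  obtain ⟨q, hq, hq1, hq2⟩ := Nat.Prime.not_coprime_iff_dvd.1 hc
  have hmax : P.asIdeal.IsMaximal := P.isMaximal
  let _ : Field (𝓞 k ⧸ P.asIdeal) := Ideal.Quotient.field P.asIdeal
  have _ : Finite (𝓞 k ⧸ P.asIdeal) := Ideal.finiteQuotientOfFreeOfNeBot P.asIdeal P.ne_bot
  let _ : Fintype (𝓞 k ⧸ P.asIdeal) := Fintype.ofFinite _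
  obtain ⟨p, hp⟩ := CharP.exists (𝓞 k ⧸ P.asIdeal)
  obtain ⟨m, hpp, hm⟩ := FiniteField.card (𝓞 k ⧸ P.asIdeal) p
  have hcard : nrm P = p ^ (m : ℕ) := by
    rw [← hm, ← Nat.card_eq_fintype_card]
    rfl
  rw [hcard] at hq1
  have hqp : q = p := (Nat.prime_dvd_prime_iff_eq hq hpp).1 (hq.dvd_of_dvd_pow hq1)
  have h1 : ((n : ℕ) : 𝓞 k ⧸ P.asIdeal) = 0 := by
    rw [CharP.cast_eq_zero_iff (𝓞 k ⧸ P.asIdeal) p]
    rw [← hqp]
    exact hq2
  apply h
  rw [← Ideal.Quotient.eq_zero_iff_mem]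
  rw [map_natCast]
  exact h1

end

section

variable {l : ℕ} [Fact l.Prime] {k K : Type} [Field k] [NumberField k] [Field K] [NumberField K]
  [Algebra k K] {z : K}

omit [Fact l.Prime] in
/-- the image of the root of unity is a primitive root of unity -/
private theorem blFr_prim (X : CyX l k K z) : IsPrimitiveRoot (X.jK z) l := by
  have h1 : IsPrimitiveRoot (algebraMap K (Om K) z) l :=
    X.prim.map_of_injective (algebraMap K (Om K)).injective
  exact h1.map_of_injective (f := X.j) X.j.injective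

/-- the values of the cyclotomic character -/
private theorem blFr_e (X : CyX l k K z) (hR : RsF X) {G : GSy l K z}
    {T : Finset (HeightOneSpectrum (𝓞 k))} (F : KFr k X.prim G T) (u : (ZMod l)ˣ) :
    (∃ g, F.sys.e g = u) ↔
      ∃ σ : Gm k, ∀ y : Om k, y ^ l = 1 → σ y = y ^ ((u : (ZMod l)ˣ) : ZMod l).val := by
  constructor
  · rintro ⟨g, hg⟩
    obtain ⟨σ, hσ⟩ := hR.ex (F.dg g)
    refine ⟨σ, fun y hy => ?_⟩
    rw [hR.cy σ _ hσ y hy, ← F.e_eq, hg]
  · rintro ⟨σ, hσ⟩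
    obtain ⟨δ, hδ⟩ := hR.rs σ
    have hz := blFr_prim X
    have h1 := hR.cy σ δ hδ (X.jK z) hz.pow_eq_one
    rw [hσ (X.jK z) hz.pow_eq_one] at h1
    have h2 := hz.pow_inj (ZMod.val_lt _) (ZMod.val_lt _) h1
    have h3 : ((u : (ZMod l)ˣ) : ZMod l) = ((cyK k X.prim δ : (ZMod l)ˣ) : ZMod l) :=
      ZMod.val_injective l h2
    refine ⟨F.dg.symm δ, ?_⟩
    rw [F.e_eq, MulEquiv.apply_symm_apply]
    exact (Units.ext h3).symm

end

/-- frames of `k` exist -/
theorem sfrl (h0 : SCy) (hc : SCyl) (hk : SKu) (_ht : SThF) (hr : SRsF) (_hp : SPrk)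
    (hrg : SRgk) (hg : SGs) (hgl : SGl) (hfr : SKFr) (hco : SCo) (hdn : SDn) (ha : SPtA)
    (hb : SPtB) (hcc : SPtC) : SFrL := by
  classical
  intro l hl hl2 k _ _ t T0
  have hlp : l.Prime := hl.out
  obtain ⟨K, iK, iN, iA, z, ⟨X⟩⟩ := h0 l hlp k
  have hCyl : Cyl k X.prim := (hc l k K z X).1
  have hKu : KuF l K z := hk l hlp K z X.prim
  have hR : RsF X := hr l k K z X hKu
  obtain ⟨G⟩ := hg l hl2 K z X.prim
  have hG : GlF G := hgl l hl2 K z X.prim G
  have hn : l * (l - 1) ≠ 0 := by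
    have h2 := hlp.two_le
    exact Nat.mul_ne_zero (by omega) (by omega)
  obtain ⟨T, hT, ⟨F⟩⟩ := hfr l hl2 k K z X.prim hCyl G hG
    (T0 ∪ (blFr_fin (k := k) hn).toFinset)
  have hcop : ∀ Q, Q ∉ T → Nat.Coprime (nrm Q) (l * (l - 1)) := by
    intro Q hQ
    refine blFr_cop Q fun h => hQ ?_
    exact hT (Finset.mem_union_right _ ((Set.Finite.mem_toFinset _).2 h))
  obtain ⟨co, hCo⟩ := hco l hl2 k K z X.prim G hG T F
  obtain ⟨dn, hDn⟩ := hdn l k K z X G T F
  obtain ⟨cl, ch, hCl, hA⟩ := ha l k K z X G T F co hCo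
  obtain ⟨ka, nu, la, hB⟩ := hb l k K z X G T F co hCo hcop t dn hDn cl ch hCl hA
  obtain ⟨lam, hC⟩ := hcc l k K z X G T F co hCo cl ch hCl hA
  have hdT : ∀ p, dn p ∉ T := fun p => (hDn.iff (dn p)).1 ⟨p, rfl⟩
  have hcl : ∀ p, Nat.Coprime (nrm (dn p)) l := fun p =>
    Nat.Coprime.coprime_dvd_right (Dvd.intro _ rfl) (hcop _ (hdT p))
  have hRg := fun p => hrg l k K z X.prim hCyl (dn p) (F.pl p) (hDn.ov p) (hcl p)
  refine ⟨{
    S := T
    cop := hcop
    sys := F.sys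
    e_iff := blFr_e X hR F
    dn := dn
    dn_iff := hDn.iff
    dn_eq := hDn.eq
    N_rg := fun p h => by rw [F.N_eq p, (hRg p).2 ((hDn.rg p).1 h)]
    rg_iff := fun p => (hDn.rg p).trans (hRg p).1
    cl := cl
    cl_add := hA.add
    cl_inj := hA.inj
    cl_ac := hA.ac
    ch := ch
    ch_hom := hA.ch_hom
    cl_ch := hA.cl_ch
    ka := ka
    ka_ne := hB.ka_ne
    ka_ac := hB.ka_ac
    nu := nu
    nu_ne := hB.nu_ne
    nu_ac := hB.nu_ac
    la := la
    tau_val := hB.tau_val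
    tau_irr := hB.tau_irr
    phi_val := hB.phi_val
    lam := lam
    lam_hom := hC.hom
    lam_add := hC.add
    lam_ch := hC.ch
    loc_ex := hC.ex
    loc_inj := hC.inj }, ?_⟩
  exact Finset.subset_union_left.trans hT

end Pool.Agent.H92.EL
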