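import Pool.Agent.H92.EL.BLFrI

/-!
# Project ELL (MP_a3214d), block B: the frame used in block D
-/

set_option autoImplicit false

open scoped BigOperators
open NumberField IsDedekindDomain

namespace Pool.Agent.H92.EL

open Pool.Agent.H98.MF (Om Gm Dec nrm)

section

variable {l : ℕ} [Fact l.Prime] {k : Type} [Field k] [NumberField k]
  {tau phi : HeightOneSpectrum (𝓞 k) → Gm k} (F : FrmL l k tau phi)

namespace FrmL

theorem cl_eq {h h' : Gm k → ZMod l} (a : HomL h) (b : HomL h') (e : F.cl h = F.cl h') :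
    ∀ σ, h σ = h' σ := by
  have h1 := homL_add a (homL_smul b (-1))
  have h2 := F.cl_add _ _ a (homL_smul b (-1))
  have h4 : F.cl h' + (-1 : ZMod l) • F.cl h' = 0 := by
    refine Prod.ext ?_ ?_
    · funext j
      show (F.cl h').1 j + (-1 : ZMod l) * (F.cl h').1 j = 0
      ring
    · ext j
      show (F.cl h').2 j + (-1 : ZMod l) * (F.cl h').2 j = 0
      ring
  rw [F.cl_smul b, e, h4] at h2
  intro σ
  have h3 := F.cl_inj _ h1 h2 σ
  linear_combination h3

/-- the unit coordinates of the homomorphisms unramified outside `S` -/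
def UU : Submodule (ZMod l) (Fin F.sys.m → ZMod l) where
  carrier := {c | ∃ h : Gm k → ZMod l, HomL h ∧ F.cl h = (c, 0)}
  add_mem' := by
    rintro c c' ⟨h, hh, e⟩ ⟨h', hh', e'⟩
    refine ⟨_, homL_add hh hh', ?_⟩
    rw [F.cl_add _ _ hh hh', e, e']
    exact Prod.ext rfl (add_zero _)
  zero_mem' := ⟨_, homL_zero, F.cl_zero⟩
  smul_mem' := by
    rintro t c ⟨h, hh, e⟩
    refine ⟨_, homL_smul hh t, ?_⟩
    rw [F.cl_smul hh, e]
    exact Prod.ext rfl (smul_zero _)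

/-- the number of basic unit homomorphisms -/
noncomputable def UN : ℕ := Module.finrank (ZMod l) F.UU

/-- coordinates -/
noncomputable def ue : (Fin F.UN → ZMod l) ≃ₗ[ZMod l] F.UU :=
  (Module.finBasis (ZMod l) F.UU).equivFun.symm

/-- the unit homomorphism with given coordinates -/
noncomputable def unn (y : Fin F.UN → ZMod l) : Gm k → ZMod l := (F.ue y).2.choose

theorem unn_hom (y : Fin F.UN → ZMod l) : HomL (F.unn y) := (F.ue y).2.choose_spec.1

theorem cl_unn (y : Fin F.UN → ZMod l) : F.cl (F.unn y) = ((F.ue y : Fin F.sys.m → ZMod l), 0) :=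
  (F.ue y).2.choose_spec.2

theorem unn_add (y y' : Fin F.UN → ZMod l) (σ : Gm k) :
    F.unn (y + y') σ = F.unn y σ + F.unn y' σ := by
  refine F.cl_eq (F.unn_hom _) (homL_add (F.unn_hom y) (F.unn_hom y')) ?_ σ
  rw [F.cl_add _ _ (F.unn_hom y) (F.unn_hom y'), F.cl_unn, F.cl_unn, F.cl_unn, map_add]
  exact Prod.ext rfl (add_zero _).symm

theorem unn_ex {h : Gm k → ZMod l} (hh : HomL h) (h0 : (F.cl h).2 = 0) : ∃ y, h = F.unn y := by
  have hm : (F.cl h).1 ∈ F.UU := ⟨h, hh, Prod.ext rfl h0⟩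
  refine ⟨F.ue.symm ⟨_, hm⟩, ?_⟩
  funext σ
  refine F.cl_eq hh (F.unn_hom _) ?_ σ
  rw [F.cl_unn, LinearEquiv.apply_symm_apply]
  exact Prod.ext rfl h0

theorem unn_inj (y : Fin F.UN → ZMod l) (h0 : ∀ σ, F.unn y σ = 0) : y = 0 := by
  have h1 : F.unn y = fun _ => 0 := funext h0
  have h2 := F.cl_unn y
  rw [h1, F.cl_zero] at h2
  have h3 : ((F.ue y : F.UU) : Fin F.sys.m → ZMod l) = 0 := (congrArg Prod.fst h2).symm
  have h4 : F.ue y = 0 := Subtype.ext h3
  exact (LinearEquiv.map_eq_zero_iff _).1 h4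

open Classical in
/-- base primes -/
noncomputable def bs (P : HeightOneSpectrum (𝓞 k)) : F.sys.P :=
  if h : ∃ p, F.dn p = P then h.choose else (sysL_nonempty F.sys).some

theorem dn_bs (p : F.sys.P) : F.dn (F.bs (F.dn p)) = F.dn p := by
  have h : ∃ q, F.dn q = F.dn p := ⟨p, rfl⟩
  unfold bs
  rw [dif_pos h]
  exact h.choose_spec

/-- the frame used in block D -/
noncomputable def toFrI : FrI k l tau phi where
  S := F.S
  sys := F.sys
  dn := F.dn
  dn_eq := F.dn_eq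
  dn_not := F.dn_not
  dn_ex P hP := by
    obtain ⟨p, rfl⟩ := (F.dn_iff P).2 hP
    constructor
    · rintro ⟨q, hq, e⟩
      rw [← e]
      exact (F.rg_iff q).1 hq
    · intro h
      exact ⟨p, (F.rg_iff p).2 h, rfl⟩
  S_l P hP h := by
    have hpr : l.Prime := Fact.out
    have h1 := (F.cop P hP).coprime_dvd_right (dvd_mul_right l (l - 1))
    rw [ZMod.natCast_eq_zero_iff] at h
    rw [Nat.coprime_comm, Nat.Prime.coprime_iff_not_dvd hpr] at h1
    exact h1 h
  N_eq := F.N_rg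
  e_iff u := F.e_iff u
  bs := F.bs
  bs_dn := F.dn_bs
  U := F.UN
  un := F.unn
  un_hm y := hm_homL.2 (F.unn_hom y)
  un_add := F.unn_add
  un_tau y P hP := (F.unr_iff (F.unn_hom y)).1 (by rw [F.cl_unn]) P hP
  un_ex h hh h0 := F.unn_ex (hm_homL.1 hh) ((F.unr_iff (hm_homL.1 hh)).2 h0)
  fin h hh := by
    have h1 : {P | h (tau P) ≠ 0} ⊆ (F.S : Set (HeightOneSpectrum (𝓞 k))) ∪
        F.dn '' ((F.cl h).2.support : Set F.sys.P) := by
      intro P hP
      by_cases hS : P ∈ F.S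
      · exact Or.inl hS
      · right
        obtain ⟨p, rfl⟩ := (F.dn_iff P).2 hS
        refine ⟨p, ?_, rfl⟩
        rw [Finset.mem_coe, Finsupp.mem_support_iff]
        intro h0
        exact hP ((F.tau_zero_iff (hm_homL.1 hh) p).2 h0)
    exact ((F.S.finite_toSet).union ((Finset.finite_toSet _).image _)).subset h1
  tam h hh P hP h1 := by
    obtain ⟨p, rfl⟩ := (F.dn_iff P).2 hP
    exact F.tau_irr h (hm_homL.1 hh) p fun h2 => h1 ((F.rg_iff p).1 h2)
  un_inj y h := F.unn_inj y fun σ => congrFun h σ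
  al := F.ch
  kt P := if F.ka (F.bs P) = 0 then 1 else F.ka (F.bs P)
  cc P := (F.nu (F.bs P))⁻¹
  kt_ne P := by
    by_cases h : F.ka (F.bs P) = 0
    · rw [if_pos h]; exact one_ne_zero
    · rw [if_neg h]; exact h
  cc_ne P := inv_ne_zero (F.nu_ne _)
  al_hm p _ := hm_homL.2 (F.ch_hom p)
  al_tau p _ Q hQ hne := by
    obtain ⟨q, rfl⟩ := (F.dn_iff Q).2 hQ
    exact (F.tau_zero_iff (F.ch_hom p) q).2 (F.cl_ch_ne fun h => hne h.symm)
  al_self p hp g hg := by
    have hb : F.sys.rg (F.bs (F.dn p)) := by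
      rw [F.rg_iff, F.dn_bs, ← F.rg_iff]
      exact hp
    show F.ch p (tau (F.dn p)) = (if F.ka (F.bs (F.dn p)) = 0 then 1 else F.ka (F.bs (F.dn p))) *
      (F.sys.e g : ZMod l)
    rw [if_neg (F.ka_ne _ hb), F.tau_val _ (F.ch_hom p) p hp, F.cl_ch_self hp, mul_one]
    have h2 := F.ka_ac g (F.bs (F.dn p)) hb
    rw [hg] at h2
    rw [h2, mul_comm]
  al_phi p q _ hq hne := by
    show (F.nu (F.bs (F.dn q)))⁻¹ * F.ch p (phi (F.dn q)) = F.sys.J p q
    obtain ⟨g, hg⟩ := (F.dn_eq (F.bs (F.dn q)) q).1 (F.dn_bs q)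
    have h2 := F.nu_ac g (F.bs (F.dn q))
    rw [hg] at h2
    rw [F.phi_val _ (F.ch_hom p) q hq, F.cl_ch_ne hne, mul_zero, add_zero, F.ex_ch, h2,
      ← mul_assoc, inv_mul_cancel₀ (F.nu_ne _), one_mul]
  cl := F.cl
  cl_add h h' a b := F.cl_add h h' (hm_homL.1 a) (hm_homL.1 b)
  cl_inj h a e := funext (F.cl_inj h (hm_homL.1 a) e)
  cl_ex h a q hq h0 := by
    show (F.nu (F.bs (F.dn q)))⁻¹ * h (phi (F.dn q)) = F.sys.ex (F.cl h) q
    obtain ⟨g, hg⟩ := (F.dn_eq (F.bs (F.dn q)) q).1 (F.dn_bs q)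
    have h2 := F.nu_ac g (F.bs (F.dn q))
    rw [hg] at h2
    rw [F.phi_val _ (hm_homL.1 a) q hq, (F.tau_zero_iff (hm_homL.1 a) q).1 h0, mul_zero, add_zero,
      h2, ← mul_assoc, inv_mul_cancel₀ (F.nu_ne _), one_mul]
  cl_sup h a p hp h0 := by
    rw [Finsupp.mem_support_iff] at hp
    exact hp ((F.tau_zero_iff (hm_homL.1 a) p).1 h0)
  lam := F.lam
  lam_hm t := hm_homL.2 (F.lam_hom t)
  lam_add t t' _ _ σ _ := F.lam_add t t' σ
  al_loc p _ := F.lam_ch p
  loc_ex c hc := by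
    obtain ⟨h, t, hh, h0, h1⟩ := F.loc_ex c hc
    obtain ⟨y, rfl⟩ := F.unn_ex hh h0
    exact ⟨y, t, h1⟩
  loc_un y t h := by
    have h1 := F.loc_inj (F.unn y) t (F.unn_hom y) (by rw [F.cl_unn]) h
    refine ⟨F.unn_inj y h1, ?_⟩
    intro P hP σ hσ
    have h2 := h P hP σ hσ
    rw [h1 σ, zero_add] at h2
    exact h2

end FrmL

end

/-- frames in the form of block D exist -/
theorem sfrI (h : SFrL) (l : ℕ) [Fact l.Prime] (hl : l ≠ 2) (k : Type) [Field k] [NumberField k]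
    (t : TM k) : SFrI k l t.tau t.phi := by
  intro T
  obtain ⟨F, hF⟩ := h l hl k t T
  exact ⟨F.toFrI, hF⟩

end Pool.Agent.H92.EL
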