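import Pool.Agent.H92.EL.BStm

/-!
# Project ELL (MP_a3214d), block B: descent of coboundaries from `K` to `k`
-/

set_option autoImplicit false

open scoped BigOperators Topology
open NumberField IsDedekindDomain Filter

namespace Pool.Agent.H92.EL

open Pool.Agent.H98.MF (Om Gm)

/-- a solution of the cocycle equation which is given by a locally constant function on an open
subgroup is locally constant -/
private theorem bh2_lc {A : Type} [Group A] [TopologicalSpace A] [IsTopologicalGroup A] {l : ℕ}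
    {r : ℕ} {a b : Fin r → A → ZMod l} (ha : ∀ i x y, a i (x * y) = a i x + a i y)
    (hb : ∀ i x y, b i (x * y) = b i x + b i y) (hbc : ∀ i, IsLocallyConstant (b i))
    {F g : A → ZMod l} (hF : ∀ x y, F (x * y) = F x + F y + ∑ i, a i x * b i y)
    {H : Subgroup A} (hH : IsOpen (H : Set A)) (hg : IsLocallyConstant g)
    (hFg : ∀ x ∈ H, F x = g x) : IsLocallyConstant F := by
  have ha1 : ∀ i, a i 1 = 0 := fun i => by
    have h := ha i 1 1
    rw [mul_one] at h
    exact left_eq_add.1 h
  have hb1 : ∀ i, b i 1 = 0 := fun i => by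
    have h := hb i 1 1
    rw [mul_one] at h
    exact left_eq_add.1 h
  have hF1 : F 1 = 0 := by
    have h := hF 1 1
    rw [mul_one, Finset.sum_eq_zero fun i _ => by rw [ha1 i, zero_mul], add_zero] at h
    exact left_eq_add.1 h
  have e1 : ∀ᶠ u in 𝓝 (1 : A), F u = 0 := by
    filter_upwards [hH.mem_nhds H.one_mem, (IsLocallyConstant.iff_eventually_eq g).1 hg 1]
      with u hu hu2
    rw [hFg u hu, hu2, ← hFg 1 H.one_mem, hF1]
  have e2 : ∀ᶠ u in 𝓝 (1 : A), ∀ i, b i u = 0 := by
    rw [eventually_all]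
    intro i
    filter_upwards [(IsLocallyConstant.iff_eventually_eq (b i)).1 (hbc i) 1] with u hu
    rw [hu, hb1 i]
  rw [IsLocallyConstant.iff_eventually_eq]
  intro x
  have e3 : Tendsto (fun y : A => x⁻¹ * y) (𝓝 x) (𝓝 1) := by
    have h : Continuous fun y : A => x⁻¹ * y := continuous_const.mul continuous_id
    have h2 := h.tendsto x
    rwa [inv_mul_cancel] at h2
  filter_upwards [e3.eventually (e1.and e2)] with y hy
  have h := hF x (x⁻¹ * y)
  rw [mul_inv_cancel_left, hy.1, Finset.sum_eq_zero fun i _ => by rw [hy.2 i, mul_zero],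
    add_zero, add_zero] at h
  exact h

/-- descent of coboundaries from `K` to `k` -/
theorem sh2 (hc : SCyl) (ht : SThF) (hx : SXc) : SH2 := by
  rintro l _ k K _ _ _ _ _ z X r a b ha hb ⟨f, hf, hfe⟩
  have T := ht l k K z X
  have hl : l.Prime := Fact.out
  have hidx : ((X.Th.range.index : ℕ) : ZMod l) ≠ 0 := by
    rw [T.idx, Ne, ZMod.natCast_eq_zero_iff]
    intro h
    have h1 : Module.finrank k K ∣ l - 1 := (hc l k K z X).2.1
    have h2 : l ∣ l - 1 := h.trans h1
    have h4 := hl.two_le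
    have h3 : 0 < l - 1 := by omega
    have := Nat.le_of_dvd h3 h2
    omega
  obtain ⟨f', hf', hfe'⟩ := T.ext f hf
  have hL : ∀ x y w : Gm k, ∑ i, a i (x * y) * b i w = ∑ i, a i x * b i w + ∑ i, a i y * b i w := by
    intro x y w
    rw [← Finset.sum_add_distrib]
    exact Finset.sum_congr rfl fun i _ => by rw [(ha i).add, add_mul]
  have hR : ∀ x y w : Gm k, ∑ i, a i x * b i (y * w) = ∑ i, a i x * b i y + ∑ i, a i x * b i w := by
    intro x y w
    rw [← Finset.sum_add_distrib]
    exact Finset.sum_congr rfl fun i _ => by rw [(hb i).add, mul_add]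
  have hf2 : ∀ x ∈ X.Th.range, ∀ y ∈ X.Th.range,
      f' (x * y) = f' x + f' y + ∑ i, a i x * b i y := by
    rintro _ ⟨σ, rfl⟩ _ ⟨τ, rfl⟩
    rw [← map_mul, hfe', hfe', hfe', hfe]
  obtain ⟨F, n, s, w, hF, hFH⟩ := hx l (Gm k) X.Th.range T.nor hidx
    (fun x y => ∑ i, a i x * b i y) hL hR f' hf2
  refine ⟨F, ?_, fun σ _ τ _ => hF σ τ⟩
  refine bh2_lc (fun i => (ha i).add) (fun i => (hb i).add) (fun i => (hb i).lc) hF T.opn
    (g := fun x => w * ∑ i, (f' (s i * x * (s i)⁻¹) -
      (∑ j, a j (s i) * b j x - ∑ j, a j x * b j (s i)))) ?_ hFH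
  rw [IsLocallyConstant.iff_eventually_eq]
  intro x
  have e1 : ∀ᶠ y in 𝓝 x, ∀ i, f' (s i * y * (s i)⁻¹) = f' (s i * x * (s i)⁻¹) := by
    rw [eventually_all]
    intro i
    have h1 : Continuous fun y : Gm k => s i * y * (s i)⁻¹ :=
      (continuous_const.mul continuous_id).mul continuous_const
    exact (IsLocallyConstant.iff_eventually_eq _).1 (hf'.comp_continuous h1) x
  have e2 : ∀ᶠ y in 𝓝 x, ∀ j, a j y = a j x := by
    rw [eventually_all]
    exact fun j => (IsLocallyConstant.iff_eventually_eq _).1 (ha j).lc x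
  have e3 : ∀ᶠ y in 𝓝 x, ∀ j, b j y = b j x := by
    rw [eventually_all]
    exact fun j => (IsLocallyConstant.iff_eventually_eq _).1 (hb j).lc x
  filter_upwards [e1, e2, e3] with y h1 h2 h3
  simp only [h1, h2, h3]

end Pool.Agent.H92.EL
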