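import Pool.Agent.H92.EL.BKDefs

/-!
# Project ELL (MP_a3214d), block B, the side of `K = k(μ_l)`: statements
-/

set_option autoImplicit false

open scoped BigOperators
open NumberField IsDedekindDomain

namespace Pool.Agent.H92.EL

open Pool.Agent.H98.MF (Om Gm ord Dec US PrS mS nrm gen cj Pre preK)

/-! ### the action of the Galois group -/

section

variable {l : ℕ} [Fact l.Prime] {K : Type} [Field K] [NumberField K] {z : K}

/-- the action on the primes and the elements -/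
structure DPf (l : ℕ) (k K : Type) [Field k] [NumberField k] [Field K] [NumberField K]
    [Algebra k K] : Prop where
  one : ∀ P : HeightOneSpectrum (𝓞 K), dP (1 : K ≃ₐ[k] K) P = P
  mul : ∀ (δ δ' : K ≃ₐ[k] K) (P : HeightOneSpectrum (𝓞 K)), dP (δ * δ') P = dP δ (dP δ' P)
  ord_eq : ∀ (δ : K ≃ₐ[k] K) (P : HeightOneSpectrum (𝓞 K)) (a : K), ord (dP δ P) (δ a) = ord P a
  nrm_eq : ∀ (δ : K ≃ₐ[k] K) (P : HeightOneSpectrum (𝓞 K)), nrm (dP δ P) = nrm P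
  lw : ∀ (δ : K ≃ₐ[k] K) (P : HeightOneSpectrum (𝓞 K)) (a : Kˣ),
    LocW l (dP δ P) ((uD δ a : Kˣ) : K) ↔ LocW l P (a : K)
  ng : ∀ (δ : K ≃ₐ[k] K) (a b : Kˣ), b ∈ NGL l a → uD δ b ∈ NGL l (uD δ a)
  us : ∀ (δ : K ≃ₐ[k] K) (S : Finset (HeightOneSpectrum (𝓞 K))) (a : Kˣ), a ∈ US S →
    ∀ S' : Finset (HeightOneSpectrum (𝓞 K)), (∀ P ∈ S, dP δ P ∈ S') → uD δ a ∈ US S'
  one' : ∀ a : Kˣ, uD (1 : K ≃ₐ[k] K) a = a
  mul' : ∀ (δ δ' : K ≃ₐ[k] K) (a : Kˣ), uD (δ * δ') a = uD δ (uD δ' a)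

/-- the equivariance of the symbols -/
structure Eqv (k : Type) [Field k] [NumberField k] [Algebra k K] (hz : IsPrimitiveRoot z l)
    (G : GSy l K z) : Prop where
  eqv : ∀ (δ : K ≃ₐ[k] K) (P : HeightOneSpectrum (𝓞 K)) (a b : Kˣ),
    G.hs (dP δ P) (uD δ a) (uD δ b) = (cyK k hz δ : ZMod l) * G.hs P a b
  cc : ∀ (δ : K ≃ₐ[k] K) (P : HeightOneSpectrum (𝓞 K)), ord P (l : K) = 0 →
    G.cc (dP δ P) = G.cc P

end

/-- BK1: the action -/
def SK1 : Prop := ∀ (l : ℕ), l.Prime → ∀ (k K : Type) [Field k] [NumberField k] [Field K]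
  [NumberField K] [Algebra k K], DPf l k K

/-- BK2: the action and the power residue symbol -/
def SK2 : Prop := ∀ (l : ℕ) [Fact l.Prime] (k K : Type) [Field k] [NumberField k] [Field K]
  [NumberField K] [Algebra k K] (z : K) (hz : IsPrimitiveRoot z l) (δ : K ≃ₐ[k] K)
  (P : HeightOneSpectrum (𝓞 K)) (a : Kˣ), ord P (l : K) = 0 → ord P (a : K) = 0 →
    lgs l z (dP δ P) ((uD δ a : Kˣ) : K) = (cyK k hz δ : ZMod l) * lgs l z P (a : K)

/-- BK3: conjugate primes -/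
def SK3 : Prop := ∀ (k K : Type) [Field k] [NumberField k] [Field K] [NumberField K]
  [Algebra k K] [IsGalois k K] (P : HeightOneSpectrum (𝓞 k)) (Q Q' : HeightOneSpectrum (𝓞 K)),
    OvP P Q → (OvP P Q' ↔ ∃ δ : K ≃ₐ[k] K, dP δ Q = Q')

/-- BK4: vanishing symbols are preserved -/
def SK4 : Prop := ∀ (l : ℕ) [Fact l.Prime], l ≠ 2 → ∀ (k K : Type) [Field k] [NumberField k]
  [Field K] [NumberField K] [Algebra k K] (z : K), IsPrimitiveRoot z l → ∀ (G : GSy l K z),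
  GlF G → ∀ (δ : K ≃ₐ[k] K) (P : HeightOneSpectrum (𝓞 K)) (a b : Kˣ), G.hs P a b = 0 →
    G.hs (dP δ P) (uD δ a) (uD δ b) = 0

/-- BK5: bilinear forms with the same zeros are proportional -/
def SK5 : Prop := ∀ (l : ℕ) [Fact l.Prime] (M : Type) [CommGroup M] (B B' : M → M → ZMod l),
  (∀ a b c, B (a * b) c = B a c + B b c) → (∀ a b c, B a (b * c) = B a b + B a c) →
  (∀ a b c, B' (a * b) c = B' a c + B' b c) → (∀ a b c, B' a (b * c) = B' a b + B' a c) →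
  (∀ a b, B a b = 0 → B' a b = 0) → ∃ t : ZMod l, ∀ a b, B' a b = t * B a b

/-- BK6: equivariance up to a constant -/
def SK6 : Prop := ∀ (l : ℕ) [Fact l.Prime], l ≠ 2 → ∀ (k K : Type) [Field k] [NumberField k]
  [Field K] [NumberField K] [Algebra k K] (z : K), IsPrimitiveRoot z l → ∀ (G : GSy l K z),
  GlF G → ∀ δ : K ≃ₐ[k] K, ∃ t : ZMod l, t ≠ 0 ∧ ∀ (P : HeightOneSpectrum (𝓞 K)) (a b : Kˣ),
    G.hs (dP δ P) (uD δ a) (uD δ b) = t * G.hs P a b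

/-- BK7: equivariance -/
def SK7 : Prop := ∀ (l : ℕ) [Fact l.Prime], l ≠ 2 → ∀ (k K : Type) [Field k] [NumberField k]
  [Field K] [NumberField K] [Algebra k K] (z : K) (hz : IsPrimitiveRoot z l), Cyl k hz →
  ∀ (G : GSy l K z), GlF G → Eqv k hz G

/-- BK8: stable Lagrangian complements -/
def SK8 : Prop := ∀ (l : ℕ) [Fact l.Prime], l ≠ 2 → ∀ (M : Type) [CommGroup M] (D : Type)
  [Group D] [Finite D] (ρ : D → M →* M) (e : D →* (ZMod l)ˣ) (B : M → M → ZMod l)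
  (N U : Subgroup M) (m : ℕ), ¬ l ∣ Nat.card D → (∀ a, ρ 1 a = a) →
  (∀ d d' a, ρ (d * d') a = ρ d (ρ d' a)) →
  (∀ a b c, B (a * b) c = B a c + B b c) → (∀ a b c, B a (b * c) = B a b + B a c) →
  (∀ a, B a a = 0) → (∀ a, (∀ b, B a b = 0) ↔ a ∈ N) → N.index = l ^ (2 * m) →
  (∀ x ∈ U, ∀ y ∈ U, B x y = 0) → N.relIndex U = l ^ m → (∀ d, ∀ x ∈ U, ρ d x ∈ U) →
  (∀ d a b, B (ρ d a) (ρ d b) = (e d : ZMod l) * B a b) →
  ∃ W : Subgroup M, N ≤ W ∧ (∀ d, ∀ x ∈ W, ρ d x ∈ W) ∧ (∀ x ∈ W, ∀ y ∈ W, B x y = 0) ∧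
    (∀ x, ∃ u ∈ U, x / u ∈ W) ∧ ∀ u ∈ U, u ∈ W → u ∈ N

/-- BK9: stable complements of the units -/
def SK9 : Prop := ∀ (l : ℕ) [Fact l.Prime], l ≠ 2 → ∀ (k K : Type) [Field k] [NumberField k]
  [Field K] [NumberField K] [Algebra k K] (z : K) (hz : IsPrimitiveRoot z l), Cyl k hz →
  ∀ (G : GSy l K z), GlF G → Eqv k hz G → ∀ (T : Finset (HeightOneSpectrum (𝓞 k)))
  (S : Finset (HeightOneSpectrum (𝓞 K))), OvS T S → AdmL l S → ∃ W, LgW k G S W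

/-- BK10: bases of the units -/
def SK10 : Prop := ∀ (l : ℕ) [Fact l.Prime] (K : Type) [Field K] [NumberField K] (z : K),
  IsPrimitiveRoot z l → ∀ S : Finset (HeightOneSpectrum (𝓞 K)), ∃ u : Fin (mS S) → Kˣ,
    (∀ j, u j ∈ US S) ∧
    (∀ a ∈ US S, ∃ c : Fin (mS S) → ZMod l, a / ∏ j, u j ^ (c j).val ∈ pw l (US S)) ∧
    ∀ c : Fin (mS S) → ZMod l, ∏ j, u j ^ (c j).val ∈ pw l (⊤ : Subgroup Kˣ) → c = 0

/-- BK11: dual bases -/
def SK11 : Prop := ∀ (l : ℕ) [Fact l.Prime] (k K : Type) [Field k] [NumberField k]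
  [Field K] [NumberField K] [Algebra k K] (z : K), IsPrimitiveRoot z l → ∀ (G : GSy l K z),
  GlF G → ∀ (S : Finset (HeightOneSpectrum (𝓞 K))) (W : Subgroup Kˣ), AdmL l S → LgW k G S W →
  ∀ u : Fin (mS S) → Kˣ, (∀ j, u j ∈ US S) →
    (∀ a ∈ US S, ∃ c : Fin (mS S) → ZMod l, a / ∏ j, u j ^ (c j).val ∈ pw l (US S)) →
    (∀ c : Fin (mS S) → ZMod l, ∏ j, u j ^ (c j).val ∈ pw l (⊤ : Subgroup Kˣ) → c = 0) →
    ∃ w : Fin (mS S) → Kˣ, (∀ j, w j ∈ W) ∧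
      (∀ i j, ∑ P ∈ S, G.hs P (u i) (w j) = if i = j then -1 else 0) ∧
      ∀ x ∈ W, x / ∏ j, w j ^ (-∑ P ∈ S, G.hs P (u j) x).val ∈ KW l S

/-- BK12: the algebraic part of the frame -/
def SK12 : Prop := ∀ (l : ℕ) [Fact l.Prime] (k K : Type) [Field k] [NumberField k]
  [Field K] [NumberField K] [Algebra k K] (z : K), IsPrimitiveRoot z l → ∀ (G : GSy l K z),
  GlF G → ∀ (T : Finset (HeightOneSpectrum (𝓞 k))) (S : Finset (HeightOneSpectrum (𝓞 K)))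
  (W : Subgroup Kˣ), OvS T S → AdmL l S → LgW k G S W → Nonempty (CFl k G S)

/-- BK13: the symbols are symmetric -/
def SK13 : Prop := ∀ (l : ℕ) [Fact l.Prime] (k K : Type) [Field k] [NumberField k]
  [Field K] [NumberField K] [Algebra k K] (z : K), IsPrimitiveRoot z l → ∀ (G : GSy l K z)
  (S : Finset (HeightOneSpectrum (𝓞 K))), AdmL l S → ∀ (F : CFl k G S) (p q : (preK S).P),
    F.s p q = F.s q p

/-- BK14: the action on the symbols -/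
def SK14 : Prop := ∀ (l : ℕ) [Fact l.Prime] (k K : Type) [Field k] [NumberField k]
  [Field K] [NumberField K] [Algebra k K] (z : K) (hz : IsPrimitiveRoot z l) (G : GSy l K z),
  Eqv k hz G → ∀ (S : Finset (HeightOneSpectrum (𝓞 K))), AdmL l S → ∀ (F : CFl k G S)
  (δ : K ≃ₐ[k] K) (p q p' q' : (preK S).P), p'.1 = dP δ p.1 → q'.1 = dP δ q.1 →
    F.s p' q' = (cyK k hz δ : ZMod l) * F.s p q

/-- BK15: the representatives of the classes -/
def SK15 : Prop := ∀ (l : ℕ) [Fact l.Prime] (k K : Type) [Field k] [NumberField k]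
  [Field K] [NumberField K] [Algebra k K] (z : K), IsPrimitiveRoot z l → ∀ (G : GSy l K z)
  (S : Finset (HeightOneSpectrum (𝓞 K))), AdmL l S → ∀ (F : CFl k G S)
  (f : (preK S).P →₀ ZMod l) (c : Fin (mS S) → ZMod l),
    (∀ p : (preK S).P, ord p.1 (F.rep f c : K) = ((f p).val : ℤ)) ∧
    (∀ p : (preK S).P, p ∉ f.support → F.gF f c p = G.cc p.1 * lgs l z p.1 (F.rep f c : K)) ∧
    (F.rep f c ∈ pw l (⊤ : Subgroup Kˣ) → f = 0 ∧ c = 0)

/-- BK16: the characters are ray class characters with bounded conductor at `S` -/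
def SK16 : Prop := ∀ (l : ℕ) [Fact l.Prime] (K : Type) [Field K] [NumberField K] (z : K),
  IsPrimitiveRoot z l → ∀ (S : Finset (HeightOneSpectrum (𝓞 K))), AdmL l S →
  ∃ n : ℕ, ∀ (k : Type) [Field k] [NumberField k] [Algebra k K] (G : GSy l K z)
    (F : CFl k G S) (f : (preK S).P →₀ ZMod l) (c : Fin (mS S) → ZMod l),
      LocL l S n f.support (F.gF f c)

/-- BK17: the characters are nontrivial -/
def SK17 : Prop := ∀ (l : ℕ) [Fact l.Prime], l ≠ 2 → ∀ (k K : Type) [Field k] [NumberField k]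
  [Field K] [NumberField K] [Algebra k K] (z : K), IsPrimitiveRoot z l → ∀ (G : GSy l K z)
  (S : Finset (HeightOneSpectrum (𝓞 K))), AdmL l S → ∀ (F : CFl k G S)
  (f : (preK S).P →₀ ZMod l) (c : Fin (mS S) → ZMod l), (f ≠ 0 ∨ c ≠ 0) →
    ∃ p, p ∉ f.support ∧ F.gF f c p ≠ 0

/-- BK18: the bound for ray class characters -/
def SK18 : Prop := ∀ (l : ℕ) [Fact l.Prime] (K : Type) [Field K] [NumberField K]
  (S : Finset (HeightOneSpectrum (𝓞 K))), PrS S → ∀ n : ℕ,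
    ∃ C A : ℝ, 0 ≤ C ∧ 0 ≤ A ∧ ∀ (y : Finset (preK S).P) (g : (preK S).P → ZMod l),
      LocL l S n y g → (∃ p, p ∉ y ∧ g p ≠ 0) → ∀ X : ℝ, 1 ≤ X →
        ‖∑ i ∈ (preK S).idl X, chc (preK S) y g i‖ ≤
          C * ((preK S).nm y : ℝ) ^ A * X ^ (1 - 1 / (Module.finrank ℚ K : ℝ))

/-- BK19: cancellation over the primes -/
def SK19 : Prop := ∀ (l : ℕ) [Fact l.Prime] (k K : Type) [Field k] [NumberField k]
  [Field K] [NumberField K] [Algebra k K] (z : K), IsPrimitiveRoot z l → ∀ (G : GSy l K z),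
  GlF G → ∀ (S : Finset (HeightOneSpectrum (𝓞 K))), AdmL l S → ∀ (F : CFl k G S)
  (c : Fin (mS S) → ZMod l), c ≠ 0 → ∃ C : ℝ, ∀ s : ℝ, 1 < s → s ≤ 2 →
    ‖∑' p : (preK S).P, ec (c ⬝ᵥ F.ty p) * ((((preK S).N p : ℝ) ^ (-s) : ℝ) : ℂ)‖ ≤ C

/-- BK20: primes fixed by an automorphism -/
def SK20 : Prop := ∀ (l : ℕ) [Fact l.Prime] (k K : Type) [Field k] [NumberField k]
  [Field K] [NumberField K] [Algebra k K] (z : K) (hz : IsPrimitiveRoot z l), Cyl k hz →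
  ∀ (S : Finset (HeightOneSpectrum (𝓞 K))), AdmL l S → ∃ C : ℝ, ∀ F : Finset (preK S).P,
    (∀ p ∈ F, ∃ δ : K ≃ₐ[k] K, δ ≠ 1 ∧ dP δ p.1 = p.1) →
      ∑ p ∈ F, ((preK S).N p : ℝ) ^ (-(3 / 4) : ℝ) ≤ C

/-- BK21: frames exist -/
def SKFr : Prop := ∀ (l : ℕ) [Fact l.Prime], l ≠ 2 → ∀ (k K : Type) [Field k] [NumberField k]
  [Field K] [NumberField K] [Algebra k K] (z : K) (hz : IsPrimitiveRoot z l), Cyl k hz →
  ∀ (G : GSy l K z), GlF G → ∀ T0 : Finset (HeightOneSpectrum (𝓞 k)),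
    ∃ T : Finset (HeightOneSpectrum (𝓞 k)), T0 ⊆ T ∧ Nonempty (KFr k hz G T)

end Pool.Agent.H92.EL
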