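import Pool.Agent.H92.EL.BDefs
import Pool.Agent.H92.EL.BKStm
import Pool.Agent.H92.EL.DDefs

/-!
# Project ELL (MP_a3214d), block B: statements on the side of `k`
-/

set_option autoImplicit false

open scoped BigOperators Pointwise
open NumberField IsDedekindDomain

namespace Pool.Agent.H92.EL

open Pool.Agent.H98.MF (Om Gm ord Dec top US PrS SUn mS nrm gen cj)

/-! ### the field `K = k(z)` and its Galois group -/

/-- the extension exists -/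
def SCy : Prop := ∀ (l : ℕ), l.Prime → ∀ (k : Type) [Field k] [NumberField k],
  ∃ (K : Type) (_ : Field K) (_ : NumberField K) (_ : Algebra k K) (z : K),
    Nonempty (CyX l k K z)

/-- the extension is Galois, automorphisms are determined by the image of `z` -/
def SCyl : Prop := ∀ (l : ℕ) [Fact l.Prime] (k K : Type) [Field k] [NumberField k] [Field K]
  [NumberField K] [Algebra k K] (z : K) (X : CyX l k K z), Cyl k X.prim ∧
    Module.finrank k K ∣ l - 1 ∧ Nat.card (K ≃ₐ[k] K) = Module.finrank k K ∧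
    Function.Injective (cyK k X.prim)

section

variable {l : ℕ} [Fact l.Prime] {k K : Type} [Field k] [NumberField k] [Field K] [NumberField K]
  [Algebra k K] {z : K}

/-- the Galois group of `K` in that of `k` -/
structure ThF (X : CyX l k K z) : Prop where
  inj : Function.Injective X.Th
  cont : Continuous X.Th
  rng : ∀ g : Gm k, g ∈ X.Th.range ↔ ∀ x : K, g (X.jK x) = X.jK x
  rngz : ∀ g : Gm k, g ∈ X.Th.range ↔ g (X.jK z) = X.jK z
  opn : IsOpen (X.Th.range : Set (Gm k))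
  nor : X.Th.range.Normal
  idx : X.Th.range.index = Module.finrank k K
  ext : ∀ f : Gm K → ZMod l, IsLocallyConstant f →
    ∃ F : Gm k → ZMod l, IsLocallyConstant F ∧ ∀ σ, F (X.Th σ) = f σ

/-- restriction of automorphisms to `K` -/
structure RsF (X : CyX l k K z) : Prop where
  rs : ∀ g : Gm k, ∃ δ, X.Rs g δ
  ex : ∀ δ : K ≃ₐ[k] K, ∃ g, X.Rs g δ
  un : ∀ (g : Gm k) (δ δ' : K ≃ₐ[k] K), X.Rs g δ → X.Rs g δ' → δ = δ'
  one : ∀ g : Gm k, X.Rs g 1 ↔ g ∈ X.Th.range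
  mul : ∀ (g g' : Gm k) (δ δ' : K ≃ₐ[k] K), X.Rs g δ → X.Rs g' δ' → X.Rs (g * g') (δ * δ')
  cy : ∀ (g : Gm k) (δ : K ≃ₐ[k] K), X.Rs g δ → ∀ y : Om k, y ^ l = 1 →
    g y = y ^ ((cyK k X.prim δ : (ZMod l)ˣ) : ZMod l).val
  cj : ∀ (g : Gm k) (δ : K ≃ₐ[k] K), X.Rs g δ → ∀ σ σ' : Gm K,
    X.Th σ' = g * X.Th σ * g⁻¹ → ∀ c : Kˣ,
    chl l z ((uD δ c : Kˣ) : K) σ' = (cyK k X.prim δ : (ZMod l)ˣ) * chl l z (c : K) σ

/-- the identification of the integers -/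
noncomputable def CyX.jO (X : CyX l k K z) : 𝓞 (Om K) ≃+* 𝓞 (Om k) :=
  RingOfIntegers.mapRingEquiv X.j

/-- `top Q` corresponds to the conjugate by `g` of `top p` -/
def CyX.Tp (X : CyX l k K z) (p : HeightOneSpectrum (𝓞 k)) (Q : HeightOneSpectrum (𝓞 K))
    (g : Gm k) : Prop :=
  ∀ x : 𝓞 (Om K), x ∈ top Q ↔ g⁻¹ • X.jO x ∈ top p

/-- decomposition groups of `K` and `k` -/
structure DcF (X : CyX l k K z) : Prop where
  ex : ∀ (p : HeightOneSpectrum (𝓞 k)) (Q : HeightOneSpectrum (𝓞 K)), OvP p Q → ∃ g, X.Tp p Q g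
  cd : ∀ (p : HeightOneSpectrum (𝓞 k)) (Q : HeightOneSpectrum (𝓞 K)) (g : Gm k), X.Tp p Q g →
    X.Cd p Q g
  ov : ∀ (p : HeightOneSpectrum (𝓞 k)) (Q : HeightOneSpectrum (𝓞 K)) (g : Gm k), X.Tp p Q g →
    OvP p Q
  un : ∀ (p : HeightOneSpectrum (𝓞 k)) (Q : HeightOneSpectrum (𝓞 K)) (g g' : Gm k), X.Tp p Q g →
    (X.Tp p Q g' ↔ g⁻¹ * g' ∈ Dec p)
  ac : ∀ (p : HeightOneSpectrum (𝓞 k)) (Q : HeightOneSpectrum (𝓞 K)) (g : Gm k)
    (δ : K ≃ₐ[k] K), X.Tp p Q g → ∃ g', X.Rs g' δ ∧ X.Tp p (dP δ Q) (g' * g)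

/-- Kummer theory over `k` -/
structure KkF (X : CyX l k K z) : Prop where
  ex : ∀ h : Gm k → ZMod l, HomL h → ∃ c : Kˣ, X.Is h c
  eqv : ∀ (h : Gm k → ZMod l) (c : Kˣ), HomL h → X.Is h c → Eqc k X.prim c
  surj : ∀ c : Kˣ, Eqc k X.prim c → ∃ h : Gm k → ZMod l, HomL h ∧ X.Is h c
  un : ∀ h : Gm k → ZMod l, HomL h → (∀ σ, h (X.Th σ) = 0) → ∀ g, h g = 0

end

/-- properties of the embedding of Galois groups -/
def SThF : Prop := ∀ (l : ℕ) [Fact l.Prime] (k K : Type) [Field k] [NumberField k] [Field K]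
  [NumberField K] [Algebra k K] (z : K) (X : CyX l k K z), ThF X

/-- properties of the restriction -/
def SRsF : Prop := ∀ (l : ℕ) [Fact l.Prime] (k K : Type) [Field k] [NumberField k] [Field K]
  [NumberField K] [Algebra k K] (z : K) (X : CyX l k K z), KuF l K z → RsF X

/-- decomposition groups -/
def SDcF : Prop := ∀ (l : ℕ) [Fact l.Prime] (k K : Type) [Field k] [NumberField k] [Field K]
  [NumberField K] [Algebra k K] (z : K) (X : CyX l k K z), DcF X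

/-- extension of invariant homomorphisms from a normal subgroup of index prime to `l` -/
def SXt : Prop := ∀ (l : ℕ) [Fact l.Prime] (A : Type) [Group A] (H : Subgroup A), H.Normal →
  ((H.index : ℕ) : ZMod l) ≠ 0 →
  (∀ f : A → ZMod l, (∀ x ∈ H, ∀ y ∈ H, f (x * y) = f x + f y) →
    (∀ g : A, ∀ x ∈ H, f (g * x * g⁻¹) = f x) →
    ∃ F : A → ZMod l, (∀ x y, F (x * y) = F x + F y) ∧ ∀ x ∈ H, F x = f x) ∧
  ∀ F : A → ZMod l, (∀ x y, F (x * y) = F x + F y) → (∀ x ∈ H, F x = 0) → ∀ x, F x = 0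

/-- Kummer theory over `k` -/
def SKk : Prop := ∀ (l : ℕ) [Fact l.Prime] (k K : Type) [Field k] [NumberField k] [Field K]
  [NumberField K] [Algebra k K] (z : K) (X : CyX l k K z), KkF X

/-- bilinear cocycles that are coboundaries on a normal subgroup of index prime to `l` -/
def SXc : Prop := ∀ (l : ℕ) [Fact l.Prime] (A : Type) [Group A] (H : Subgroup A), H.Normal →
  ((H.index : ℕ) : ZMod l) ≠ 0 → ∀ c : A → A → ZMod l,
  (∀ x y w, c (x * y) w = c x w + c y w) → (∀ x y w, c x (y * w) = c x y + c x w) →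
  ∀ f : A → ZMod l, (∀ x ∈ H, ∀ y ∈ H, f (x * y) = f x + f y + c x y) →
    ∃ (F : A → ZMod l) (n : ℕ) (r : Fin n → A) (w : ZMod l),
      (∀ x y, F (x * y) = F x + F y + c x y) ∧
      ∀ x ∈ H, F x = w * ∑ i, (f (r i * x * (r i)⁻¹) - (c (r i) x - c x (r i)))

/-- descent of coboundaries from `K` to `k` -/
def SH2 : Prop := ∀ (l : ℕ) [Fact l.Prime] (k K : Type) [Field k] [NumberField k] [Field K]
  [NumberField K] [Algebra k K] (z : K) (X : CyX l k K z) (r : ℕ) (a b : Fin r → Gm k → ZMod l),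
  (∀ i, HomL (a i)) → (∀ i, HomL (b i)) →
  (∃ f : Gm K → ZMod l, IsLocallyConstant f ∧ ∀ σ τ : Gm K,
    f (σ * τ) = f σ + f τ + ∑ i, a i (X.Th σ) * b i (X.Th τ)) →
  Trv (⊤ : Subgroup (Gm k)) a b

/-- the Hasse principle for sums of cup products over `k` -/
def SHpk : Prop := ∀ (l : ℕ) [Fact l.Prime], l ≠ 2 → ∀ (k : Type) [Field k] [NumberField k]
  (r : ℕ) (a b : Fin r → Gm k → ZMod l), (∀ i, HomL (a i)) → (∀ i, HomL (b i)) →
  (∀ p : HeightOneSpectrum (𝓞 k), Trv (Dec p) a b) → Trv (⊤ : Subgroup (Gm k)) a b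

/-! ### primes -/

/-- primes of `K` and `k` -/
def SPrk : Prop := ∀ (k K : Type) [Field k] [NumberField k] [Field K] [NumberField K]
  [Algebra k K],
  (∀ Q : HeightOneSpectrum (𝓞 K), ∃! p : HeightOneSpectrum (𝓞 k), OvP p Q) ∧
  (∀ p : HeightOneSpectrum (𝓞 k), ∃ Q : HeightOneSpectrum (𝓞 K), OvP p Q)

/-- primes of degree one -/
def SRgk : Prop := ∀ (l : ℕ) [Fact l.Prime] (k K : Type) [Field k] [NumberField k] [Field K]
  [NumberField K] [Algebra k K] (z : K) (hz : IsPrimitiveRoot z l), Cyl k hz →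
  ∀ (p : HeightOneSpectrum (𝓞 k)) (Q : HeightOneSpectrum (𝓞 K)), OvP p Q →
    Nat.Coprime (nrm p) l →
    (Rg k Q ↔ (nrm p : ZMod l) = 1) ∧ (Rg k Q → nrm Q = nrm p)

/-! ### values at the tame generators and Frobenius elements -/

/-- roots of elements of `K` are tame at the primes not dividing `l (l - 1)` -/
def STme : Prop := ∀ (l : ℕ) [Fact l.Prime] (k K : Type) [Field k] [NumberField k] [Field K]
  [NumberField K] [Algebra k K] (z : K) (X : CyX l k K z) (p : HeightOneSpectrum (𝓞 k)),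
  Nat.Coprime (nrm p) (l * (l - 1)) →
  (∀ c : Kˣ, ∃ U : Subgroup (Gm k), TmU p U ∧ U ≤ X.Th.range ∧
    (∀ σ : Gm K, X.Th σ ∈ U → chl l z (c : K) σ = 0)) ∧
  ∀ (y : 𝓞 (Om K)) (c : Kˣ), (y : Om K) ^ l = algebraMap K (Om K) (c : K) → Tme p (X.jO y)

/-- the tame generator in the Galois group of `K` -/
def STau : Prop := ∀ (l : ℕ) [Fact l.Prime] (k K : Type) [Field k] [NumberField k] [Field K]
  [NumberField K] [Algebra k K] (z : K) (X : CyX l k K z) (p : HeightOneSpectrum (𝓞 k))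
  (Q : HeightOneSpectrum (𝓞 K)) (g τ φ : Gm k), OvP p Q →
  Nat.Coprime (nrm p) (l * (l - 1)) → IsTM p τ φ → X.Tp p Q g →
    ∃ (τ' : Gm K) (κ : ZMod l), X.Th τ' = g * τ * g⁻¹ ∧ τ' ∈ Dec Q ∧
      ∀ c : Kˣ, chl l z (c : K) τ' = κ * ((ord Q (c : K) : ℤ) : ZMod l)

/-- the Frobenius element in the Galois group of `K` -/
def SPhi : Prop := ∀ (l : ℕ) [Fact l.Prime] (k K : Type) [Field k] [NumberField k] [Field K]
  [NumberField K] [Algebra k K] (z : K) (X : CyX l k K z) (p : HeightOneSpectrum (𝓞 k))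
  (Q : HeightOneSpectrum (𝓞 K)) (g τ φ : Gm k), OvP p Q →
  Nat.Coprime (nrm p) (l * (l - 1)) → IsTM p τ φ → X.Tp p Q g → (nrm p : ZMod l) = 1 →
    ∃ φ' : Gm K, X.Th φ' = g * φ * g⁻¹ ∧ φ' ∈ Dec Q ∧
      ∀ c : Kˣ, ord Q (c : K) = 0 → chl l z (c : K) φ' = lgs l z Q (c : K)

/-- the tame generator is nontrivial on ramified Kummer extensions -/
def SKap : Prop := ∀ (l : ℕ) [Fact l.Prime] (k K : Type) [Field k] [NumberField k] [Field K]
  [NumberField K] [Algebra k K] (z : K) (X : CyX l k K z) (p : HeightOneSpectrum (𝓞 k))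
  (Q : HeightOneSpectrum (𝓞 K)) (g τ φ : Gm k), OvP p Q →
  Nat.Coprime (nrm p) (l * (l - 1)) → IsTM p τ φ → X.Tp p Q g → (nrm p : ZMod l) = 1 →
    ∀ (τ' : Gm K) (κ : ZMod l), X.Th τ' = g * τ * g⁻¹ →
      (∀ c : Kˣ, chl l z (c : K) τ' = κ * ((ord Q (c : K) : ℤ) : ZMod l)) → κ ≠ 0

/-- homomorphisms on a decomposition group -/
def SHtp : Prop := ∀ (l : ℕ) [Fact l.Prime] (k : Type) [Field k] [NumberField k]
  (p : HeightOneSpectrum (𝓞 k)) (τ φ : Gm k), Nat.Coprime (nrm p) l → IsTM p τ φ →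
  ∀ h : Gm k → ZMod l, HomL h →
    ((nrm p : ZMod l) ≠ 1 → h τ = 0) ∧ (h τ = 0 → h φ = 0 → ∀ σ ∈ Dec p, h σ = 0)

/-- the local criterion -/
def SCrt : Prop := ∀ (l : ℕ) [Fact l.Prime], l ≠ 2 → ∀ (k : Type) [Field k] [NumberField k]
  (p : HeightOneSpectrum (𝓞 k)) (τ φ : Gm k), Nat.Coprime (nrm p) (l * (l - 1)) → IsTM p τ φ →
  ∀ (r : ℕ) (a b : Fin r → Gm k → ZMod l), (∀ i, HomL (a i)) → (∀ i, HomL (b i)) →
    (Trv (Dec p) a b ↔ ∑ i, (a i τ * b i φ - a i φ * b i τ) = 0)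

/-! ### equivariant classes -/

section

variable {l : ℕ} [Fact l.Prime] {k K : Type} [Field k] [NumberField k] [Field K] [NumberField K]
  [Algebra k K] {z : K}

/-- the projection to the equivariant classes, times the degree -/
noncomputable def prE (k : Type) {K : Type} [Field k] [NumberField k] [Field K] [NumberField K]
    [Algebra k K] {z : K} (hz : IsPrimitiveRoot z l) (c : Kˣ) : Kˣ :=
  ∏ δ : K ≃ₐ[k] K, uD δ c ^ (((cyK k hz δ)⁻¹ : (ZMod l)ˣ) : ZMod l).val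

/-- coordinates of classes -/
structure CoF {hz : IsPrimitiveRoot z l} {G : GSy l K z}
    {T : Finset (HeightOneSpectrum (𝓞 k))} (F : KFr k hz G T) (co : Kˣ → F.sys.El) : Prop where
  mul : ∀ a b : Kˣ, co (a * b) = co a + co b
  ker : ∀ a : Kˣ, co a = 0 ↔ a ∈ pw l (⊤ : Subgroup Kˣ)
  surj : ∀ c : F.sys.El, ∃ a : Kˣ, co a = c
  ord : ∀ (a : Kˣ) (p : F.sys.P), (co a).2 p = ((ord (F.pl p) (a : K) : ℤ) : ZMod l)
  pi : ∀ p, co (F.pi p) = (0, Finsupp.single p 1)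
  ex : ∀ (a : Kˣ) (p : F.sys.P), Pool.Agent.H98.MF.ord (F.pl p) (a : K) = 0 →
    F.sys.ex (co a) p = G.cc (F.pl p) * lgs l z (F.pl p) (a : K)
  unit : ∀ a : Kˣ, a ∈ US F.S → (co a).2 = 0
  loc : ∀ a : Kˣ, (co a).2 = 0 → a ∈ KW l F.S → co a = 0

end

/-- the projection to the equivariant classes -/
def SPrE : Prop := ∀ (l : ℕ) [Fact l.Prime] (k K : Type) [Field k] [NumberField k] [Field K]
  [NumberField K] [Algebra k K] (z : K) (hz : IsPrimitiveRoot z l), Cyl k hz →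
  (∀ c : Kˣ, Eqc k hz (prE k hz c)) ∧
  (∀ a b : Kˣ, prE k hz (a * b) = prE k hz a * prE k hz b) ∧
  (∀ c : Kˣ, Eqc k hz c → prE k hz c / c ^ Nat.card (K ≃ₐ[k] K) ∈ pw l (⊤ : Subgroup Kˣ)) ∧
  (Nat.card (K ≃ₐ[k] K) : ZMod l) ≠ 0 ∧
  ∀ (T : Finset (HeightOneSpectrum (𝓞 k))) (S : Finset (HeightOneSpectrum (𝓞 K))), OvS T S →
    (∀ c ∈ US S, prE k hz c ∈ US S) ∧ (∀ c ∈ KW l S, prE k hz c ∈ KW l S) ∧
    ∀ (γ : HeightOneSpectrum (𝓞 K) → Kˣ) (c : Kˣ), (∀ Q ∈ S, c / γ Q ∈ WS l Q) →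
      (∀ (δ : K ≃ₐ[k] K), ∀ Q ∈ S,
        uD δ (γ Q) / γ (dP δ Q) ^ ((cyK k hz δ : (ZMod l)ˣ) : ZMod l).val ∈ WS l (dP δ Q)) →
      ∀ Q ∈ S, prE k hz c / γ Q ^ Nat.card (K ≃ₐ[k] K) ∈ WS l Q

/-- coordinates exist -/
def SCo : Prop := ∀ (l : ℕ) [Fact l.Prime], l ≠ 2 → ∀ (k K : Type) [Field k] [NumberField k]
  [Field K] [NumberField K] [Algebra k K] (z : K) (hz : IsPrimitiveRoot z l) (G : GSy l K z),
  GlF G → ∀ (T : Finset (HeightOneSpectrum (𝓞 k))) (F : KFr k hz G T),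
    ∃ co : Kˣ → F.sys.El, CoF F co

/-- local homomorphisms at a prime of `k` and local classes of `K` -/
def SLoh : Prop := ∀ (l : ℕ) [Fact l.Prime] (k K : Type) [Field k] [NumberField k] [Field K]
  [NumberField K] [Algebra k K] (z : K) (X : CyX l k K z) (v : HeightOneSpectrum (𝓞 k)),
  (∀ c : Gm k → ZMod l, IsLocallyConstant c →
    (∀ σ ∈ Dec v, ∀ τ ∈ Dec v, c (σ * τ) = c σ + c τ) →
    ∃ γ : HeightOneSpectrum (𝓞 K) → Kˣ,
      (∀ (Q : HeightOneSpectrum (𝓞 K)) (g : Gm k), X.Tp v Q g → ∀ σ ∈ Dec Q,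
        c (g⁻¹ * X.Th σ * g) = chl l z (γ Q : K) σ) ∧
      ∀ (δ : K ≃ₐ[k] K) (Q : HeightOneSpectrum (𝓞 K)), OvP v Q →
        uD δ (γ Q) / γ (dP δ Q) ^ ((cyK k X.prim δ : (ZMod l)ˣ) : ZMod l).val ∈ WS l (dP δ Q)) ∧
  ∀ c : Gm k → ZMod l, (∀ σ ∈ Dec v, ∀ τ ∈ Dec v, c (σ * τ) = c σ + c τ) →
    ∀ (Q : HeightOneSpectrum (𝓞 K)) (g : Gm k), X.Tp v Q g →
    (∀ σ ∈ Dec Q, c (g⁻¹ * X.Th σ * g) = 0) → ∀ σ ∈ Dec v, c σ = 0

/-! ### the parts of the frame -/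

section

variable {l : ℕ} [Fact l.Prime] {k K : Type} [Field k] [NumberField k] [Field K] [NumberField K]
  [Algebra k K] {z : K} (X : CyX l k K z) {G : GSy l K z}
  {T : Finset (HeightOneSpectrum (𝓞 k))} (F : KFr k X.prim G T)

/-- the class map is given by the coordinates -/
def ClF (co : Kˣ → F.sys.El) (cl : (Gm k → ZMod l) → F.sys.El) : Prop :=
  ∀ (h : Gm k → ZMod l) (c : Kˣ), HomL h → X.Is h c → cl h = co c

/-- the map to the primes of `k` -/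
structure DnF (dn : F.sys.P → HeightOneSpectrum (𝓞 k)) : Prop where
  ov : ∀ p, OvP (dn p) (F.pl p)
  iff : ∀ Q, (∃ p, dn p = Q) ↔ Q ∉ T
  eq : ∀ p q, dn p = dn q ↔ ∃ g, F.sys.ac g p = q
  rg : ∀ p, F.sys.rg p ↔ Rg k (F.pl p)

/-- the properties of the class map -/
structure PtA (cl : (Gm k → ZMod l) → F.sys.El) (ch : F.sys.P → Gm k → ZMod l) : Prop where
  add : ∀ h h' : Gm k → ZMod l, HomL h → HomL h' → cl (fun σ => h σ + h' σ) = cl h + cl h'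
  inj : ∀ h : Gm k → ZMod l, HomL h → cl h = 0 → ∀ σ, h σ = 0
  ac : ∀ h : Gm k → ZMod l, HomL h → ∀ g p,
    (cl h).2 (F.sys.ac g p) = ((F.sys.e g)⁻¹ : (ZMod l)ˣ) * (cl h).2 p
  ch_hom : ∀ p, HomL (ch p)
  ch_is : ∀ p, ∃ c : Kˣ, X.Is (ch p) c ∧
    c / prE k X.prim (F.pi p) ∈ pw l (⊤ : Subgroup Kˣ)
  cl_ch : ∀ p, cl (ch p) =
    (0, ∑ g, Finsupp.single (F.sys.ac g p) (((F.sys.e g)⁻¹ : (ZMod l)ˣ) : ZMod l))

/-- the values at the tame generators and the Frobenius elements -/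
structure PtB (tau phi : HeightOneSpectrum (𝓞 k) → Gm k)
    (dn : F.sys.P → HeightOneSpectrum (𝓞 k)) (cl : (Gm k → ZMod l) → F.sys.El)
    (ka nu la : F.sys.P → ZMod l) : Prop where
  ka_ne : ∀ p, F.sys.rg p → ka p ≠ 0
  ka_ac : ∀ g p, F.sys.rg p → ka (F.sys.ac g p) = F.sys.e g * ka p
  nu_ne : ∀ p, nu p ≠ 0
  nu_ac : ∀ g p, nu (F.sys.ac g p) = nu p
  tau_val : ∀ h : Gm k → ZMod l, HomL h → ∀ p, F.sys.rg p → h (tau (dn p)) = ka p * (cl h).2 p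
  tau_irr : ∀ h : Gm k → ZMod l, HomL h → ∀ p, ¬ F.sys.rg p → h (tau (dn p)) = 0
  phi_val : ∀ h : Gm k → ZMod l, HomL h → ∀ p, F.sys.rg p →
    h (phi (dn p)) = nu p * F.sys.ex (cl h) p + la p * (cl h).2 p

/-- the local components at the exceptional primes -/
structure PtC (cl : (Gm k → ZMod l) → F.sys.El) (ch : F.sys.P → Gm k → ZMod l)
    (lam : F.sys.T → Gm k → ZMod l) : Prop where
  hom : ∀ t, HomL (lam t)
  add : ∀ t t' σ, lam (t + t') σ = lam t σ + lam t' σ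
  ch : ∀ p, ∀ v ∈ T, ∀ σ ∈ Dec v, ch p σ = lam (F.sys.ty p) σ
  ex : ∀ c : HeightOneSpectrum (𝓞 k) → Gm k → ZMod l,
    (∀ v ∈ T, IsLocallyConstant (c v) ∧ ∀ σ ∈ Dec v, ∀ τ ∈ Dec v, c v (σ * τ) = c v σ + c v τ) →
    ∃ (h : Gm k → ZMod l) (t : F.sys.T), HomL h ∧ (cl h).2 = 0 ∧
      ∀ v ∈ T, ∀ σ ∈ Dec v, c v σ = h σ + lam t σ
  inj : ∀ (h : Gm k → ZMod l) (t : F.sys.T), HomL h → (cl h).2 = 0 →
    (∀ v ∈ T, ∀ σ ∈ Dec v, h σ + lam t σ = 0) → ∀ σ, h σ = 0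

end

/-- the map to the primes of `k` exists -/
def SDn : Prop := ∀ (l : ℕ) [Fact l.Prime] (k K : Type) [Field k] [NumberField k] [Field K]
  [NumberField K] [Algebra k K] (z : K) (X : CyX l k K z) (G : GSy l K z)
  (T : Finset (HeightOneSpectrum (𝓞 k))) (F : KFr k X.prim G T), ∃ dn, DnF X F dn

/-- the class map and the homomorphisms of the primes exist -/
def SPtA : Prop := ∀ (l : ℕ) [Fact l.Prime] (k K : Type) [Field k] [NumberField k] [Field K]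
  [NumberField K] [Algebra k K] (z : K) (X : CyX l k K z) (G : GSy l K z)
  (T : Finset (HeightOneSpectrum (𝓞 k))) (F : KFr k X.prim G T) (co : Kˣ → F.sys.El),
  CoF F co → ∃ cl ch, ClF X F co cl ∧ PtA X F cl ch

/-- the values exist -/
def SPtB : Prop := ∀ (l : ℕ) [Fact l.Prime] (k K : Type) [Field k] [NumberField k] [Field K]
  [NumberField K] [Algebra k K] (z : K) (X : CyX l k K z) (G : GSy l K z)
  (T : Finset (HeightOneSpectrum (𝓞 k))) (F : KFr k X.prim G T) (co : Kˣ → F.sys.El),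
  CoF F co → (∀ p, p ∉ T → Nat.Coprime (nrm p) (l * (l - 1))) →
  ∀ (t : TM k) (dn : F.sys.P → HeightOneSpectrum (𝓞 k)), DnF X F dn →
  ∀ (cl : (Gm k → ZMod l) → F.sys.El) (ch : F.sys.P → Gm k → ZMod l),
  ClF X F co cl → PtA X F cl ch → ∃ ka nu la, PtB X F t.tau t.phi dn cl ka nu la

/-- the local components exist -/
def SPtC : Prop := ∀ (l : ℕ) [Fact l.Prime] (k K : Type) [Field k] [NumberField k] [Field K]
  [NumberField K] [Algebra k K] (z : K) (X : CyX l k K z) (G : GSy l K z)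
  (T : Finset (HeightOneSpectrum (𝓞 k))) (F : KFr k X.prim G T) (co : Kˣ → F.sys.El),
  CoF F co → ∀ (cl : (Gm k → ZMod l) → F.sys.El) (ch : F.sys.P → Gm k → ZMod l),
  ClF X F co cl → PtA X F cl ch → ∃ lam, PtC X F cl ch lam

/-- frames exist -/
def SFrL : Prop := ∀ (l : ℕ) [Fact l.Prime], l ≠ 2 → ∀ (k : Type) [Field k] [NumberField k]
  (t : TM k) (T0 : Finset (HeightOneSpectrum (𝓞 k))),
  ∃ F : FrmL l k t.tau t.phi, T0 ⊆ F.S

end Pool.Agent.H92.EL
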