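import Pool.Agent.H92.EL.AStm
import Pool.Agent.H92.EL.BStm

/-!
# Project ELL (MP_a3214d), block B: the Hasse principle for sums of cup products over `k`
-/

set_option autoImplicit false

open scoped BigOperators Pointwise
open NumberField IsDedekindDomain

namespace Pool.Agent.H92.EL

open Pool.Agent.H98.MF (Om Gm ord Dec top US PrS SUn mS nrm gen cj)

private theorem hp_cj {l : ℕ} {k : Type} [Field k] [NumberField k] {h : Gm k → ZMod l}
    (hh : HomL h) (g σ : Gm k) : h (g⁻¹ * σ * g) = h σ := by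
  have h1 : h 1 = 0 := by
    have e := hh.add 1 1
    rw [mul_one] at e
    exact left_eq_add.1 e
  have h2 : h g⁻¹ + h g = 0 := by
    rw [← hh.add, inv_mul_cancel, h1]
  rw [hh.add, hh.add]
  calc h g⁻¹ + h σ + h g = (h g⁻¹ + h g) + h σ := by ring
    _ = h σ := by rw [h2, zero_add]

/-- the Hasse principle for sums of cup products over `k` -/
theorem shpk (h0 : SCy) (_hk : SKu) (ht : SThF) (hd : SDcF) (hkk : SKk) (h2 : SH2) (hp : SPrk)
    (hg : SGs) (hl : SGl) : SHpk := by
  intro l _ hl2 k _ _ r a b ha hb htr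
  obtain ⟨K, _, _, _, z, ⟨X⟩⟩ := h0 l Fact.out k
  obtain ⟨G⟩ := hg l hl2 K z X.prim
  have hG := hl l hl2 K z X.prim G
  have hD := hd l k K z X
  have hKk := hkk l k K z X
  have hT := ht l k K z X
  choose α hα using fun i => hKk.ex (a i) (ha i)
  choose β hβ using fun i => hKk.ex (b i) (hb i)
  have htop : TrL l z (⊤ : Subgroup (Gm K)) (fun i => (α i : K)) (fun i => (β i : K)) := by
    refine hG.hp r α β fun Q => ?_
    obtain ⟨p, hpQ, -⟩ := (hp k K).1 Q
    obtain ⟨g, hgT⟩ := hD.ex p Q hpQ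
    obtain ⟨f, hf, hfe⟩ := htr p
    refine ⟨fun σ => f (g⁻¹ * X.Th σ * g), ?_, ?_⟩
    · exact hf.comp_continuous ((continuous_const.mul hT.cont).mul continuous_const)
    · intro σ hσ τ hτ
      have h3 := (hD.cd p Q g hgT σ).1 hσ
      have h4 := (hD.cd p Q g hgT τ).1 hτ
      have h5 := hfe _ h3 _ h4
      have e : g⁻¹ * X.Th (σ * τ) * g = (g⁻¹ * X.Th σ * g) * (g⁻¹ * X.Th τ * g) := by
        rw [map_mul]
        group
      change f (g⁻¹ * X.Th (σ * τ) * g) = _
      rw [e, h5]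
      congr 1
      refine Finset.sum_congr rfl fun i _ => ?_
      rw [hp_cj (ha i), hp_cj (hb i), hα i σ, hβ i τ]
  obtain ⟨f, hf, hfe⟩ := htop
  refine h2 l k K z X r a b ha hb ⟨f, hf, fun σ τ => ?_⟩
  rw [hfe σ trivial τ trivial]
  congr 1
  refine Finset.sum_congr rfl fun i _ => ?_
  rw [hα i σ, hβ i τ]

end Pool.Agent.H92.EL
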