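import Pool.Agent.H92.EL.BStm

/-!
# Project ELL (MP_a3214d), block B, BL17: homomorphisms on a decomposition group
-/

set_option autoImplicit false

open scoped BigOperators Pointwise
open NumberField IsDedekindDomain

namespace Pool.Agent.H92.EL

open Pool.Agent.H98.MF (Om Gm ord Dec top US PrS SUn mS nrm gen cj)

theorem shtp : SHtp := by
  intro l _ k _ _ p τ φ hp hT h hh
  have h1 : h 1 = 0 := by
    have h2 := hh.add 1 1
    rw [mul_one] at h2
    have h3 : h 1 + 0 = h 1 + h 1 := by rw [add_zero]; exact h2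
    exact (add_left_cancel h3).symm
  let f : Gm k →* Multiplicative (ZMod l) :=
    { toFun := fun σ => Multiplicative.ofAdd (h σ)
      map_one' := by rw [h1]; rfl
      map_mul' := fun σ ρ => by rw [hh.add]; rfl }
  have hf : ∀ σ, f σ = Multiplicative.ofAdd (h σ) := fun σ => rfl
  have hmem : ∀ σ, σ ∈ f.ker ↔ h σ = 0 := by
    intro σ
    rw [MonoidHom.mem_ker, hf]
    exact ofAdd_eq_one
  have hU : TmU p f.ker := by
    refine ⟨inferInstance, ?_, ?_⟩
    · have h2 : (f.ker : Set (Gm k)) = h ⁻¹' {0} := by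
        ext σ
        exact hmem σ
      rw [h2]
      exact hh.lc.isOpen_fiber 0
    · have h2 : f.ker.index ∣ l := by
        rw [Subgroup.index_ker]
        have h3 := Subgroup.card_subgroup_dvd_card f.range
        have h4 : Nat.card (Multiplicative (ZMod l)) = l := by
          rw [Nat.card_congr Multiplicative.toAdd, Nat.card_zmod]
        rwa [h4] at h3
      exact Nat.Coprime.coprime_dvd_left h2 hp.symm
  have hpow : ∀ (σ : Gm k) (n : ℕ), h (σ ^ n) = n * h σ := by
    intro σ n
    induction n with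
    | zero => rw [pow_zero, h1, Nat.cast_zero, zero_mul]
    | succ n ih => rw [pow_succ, hh.add, ih]; push_cast; ring
  have hinv : ∀ σ : Gm k, h σ⁻¹ = - h σ := by
    intro σ
    have h2 := hh.add σ⁻¹ σ
    rw [inv_mul_cancel, h1] at h2
    exact eq_neg_of_add_eq_zero_left h2.symm
  refine ⟨fun hN => ?_, fun hτ hφ σ hσ => ?_⟩
  · have h2 := (hmem _).1 (hT.rel _ hU)
    rw [hh.add, hh.add, hh.add, hinv, hinv, hpow] at h2
    have h3 : (1 - (nrm p : ZMod l)) * h τ = 0 := by
      rw [← h2]
      ring
    rcases mul_eq_zero.1 h3 with h4 | h4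
    · exact absurd (sub_eq_zero.1 h4).symm hN
    · exact h4
  · obtain ⟨i, j, h2⟩ := hT.gen _ hU σ hσ
    have h3 := (hmem _).1 h2
    rw [hh.add, hinv, hh.add, hpow, hpow, hτ, hφ, mul_zero, mul_zero, add_zero, neg_zero,
      zero_add] at h3
    exact h3

end Pool.Agent.H92.EL
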