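import Pool.Agent.H92.EL.BStm
import Pool.Agent.H98.MF.L.Ord

/-!
# Project ELL (MP_a3214d), block B, BL16: the tame generator is nontrivial
-/

set_option autoImplicit false

open scoped BigOperators Pointwise
open NumberField IsDedekindDomain

namespace Pool.Agent.H92.EL

open Pool.Agent.H98.MF (Om Gm ord Dec top US PrS SUn mS nrm gen cj)

section

variable {l : ℕ} {K : Type} [Field K] [NumberField K] {z : K}

theorem ka_c1 (X : KuF l K z) (σ : Gm K) : chl l z ((1 : Kˣ) : K) σ = 0 := by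
  have h := X.mul 1 1 σ
  rw [mul_one] at h
  linear_combination -h

theorem ka_cpow (X : KuF l K z) (a : Kˣ) (n : ℕ) (σ : Gm K) :
    chl l z ((a ^ n : Kˣ) : K) σ = n * chl l z (a : K) σ := by
  induction n with
  | zero => rw [pow_zero, ka_c1 X, Nat.cast_zero, zero_mul]
  | succ n ih =>
    rw [pow_succ, X.mul, ih]
    push_cast
    ring

theorem ka_cdiv (X : KuF l K z) (a b : Kˣ) (σ : Gm K) :
    chl l z ((a / b : Kˣ) : K) σ = chl l z (a : K) σ - chl l z (b : K) σ := by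
  have h := X.mul (a / b) b σ
  rw [div_mul_cancel] at h
  linear_combination -h

theorem ka_g1 (X : KuF l K z) (a : Kˣ) : chl l z (a : K) 1 = 0 := by
  have h := X.hom a 1 1
  rw [mul_one] at h
  linear_combination -h

theorem ka_gpow (X : KuF l K z) (a : Kˣ) (σ : Gm K) (n : ℕ) :
    chl l z (a : K) (σ ^ n) = n * chl l z (a : K) σ := by
  induction n with
  | zero => rw [pow_zero, ka_g1 X, Nat.cast_zero, zero_mul]
  | succ n ih =>
    rw [pow_succ, X.hom, ih]
    push_cast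
    ring

theorem ka_ginv (X : KuF l K z) (a : Kˣ) (σ : Gm K) :
    chl l z (a : K) σ⁻¹ = -chl l z (a : K) σ := by
  have h := X.hom a σ⁻¹ σ
  rw [inv_mul_cancel, ka_g1 X] at h
  linear_combination -h

/-- exponents of local powers -/
theorem ka_dvd (hl : l.Prime) {P : HeightOneSpectrum (𝓞 K)} {a : Kˣ}
    (h : LocW l P (a : K)) : (l : ℤ) ∣ ord P (a : K) := by
  obtain ⟨c, hc⟩ := h 1
  have hc0 : c ≠ 0 := by
    rintro rfl
    rw [zero_pow hl.ne_zero, mul_zero] at hc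
    rcases hc with hc | hc
    · exact zero_ne_one hc
    · rw [zero_sub, Pool.Agent.H98.MF.ord_neg, Pool.Agent.H98.MF.ord_one] at hc
      norm_num at hc
  have h1 : ord P ((a : K) * c ^ l) = 0 := by
    rcases hc with hc | hc
    · rw [hc, Pool.Agent.H98.MF.ord_one]
    · have h2 := Pool.Agent.H98.MF.ord_add_eq P (a := (1 : K)) (b := (a : K) * c ^ l - 1)
        one_ne_zero (Or.inr (by
          rw [Pool.Agent.H98.MF.ord_one]
          push_cast at hc
          omega))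
      rw [add_sub_cancel, Pool.Agent.H98.MF.ord_one] at h2
      exact h2.2
  rw [Pool.Agent.H98.MF.ord_mul P a.ne_zero (pow_ne_zero _ hc0),
    Pool.Agent.H98.MF.ord_pow] at h1
  exact ⟨- ord P c, by linarith⟩

end

/-- integers prime to the norm are units -/
theorem ka_ordl {k K : Type} [Field k] [NumberField k] [Field K] [NumberField K] [Algebra k K]
    {p : HeightOneSpectrum (𝓞 k)} {Q : HeightOneSpectrum (𝓞 K)} (h : OvP p Q) {n : ℕ}
    (hn : Nat.Coprime (nrm p) n) : ord Q (n : K) = 0 := by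
  have h1 : ((nrm p : ℕ) : 𝓞 K) ∈ Q.asIdeal := by
    have h2 : ((nrm p : ℕ) : 𝓞 k) ∈ p.asIdeal := Ideal.absNorm_mem p.asIdeal
    have h3 : Q.asIdeal.comap (algebraMap (𝓞 k) (𝓞 K)) = p.asIdeal := h
    rw [← h3, Ideal.mem_comap, map_natCast] at h2
    exact h2
  have h2 : (n : 𝓞 K) ∉ Q.asIdeal := by
    intro h3
    obtain ⟨u, v, huv⟩ := Nat.isCoprime_iff_coprime.2 hn
    have h4 : (u : 𝓞 K) * ((nrm p : ℕ) : 𝓞 K) + (v : 𝓞 K) * (n : 𝓞 K) = 1 := by
      exact_mod_cast congrArg (Int.cast : ℤ → 𝓞 K) huv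
    apply Q.isPrime.ne_top
    rw [Ideal.eq_top_iff_one, ← h4]
    exact Ideal.add_mem _ (Ideal.mul_mem_left _ _ h1) (Ideal.mul_mem_left _ _ h3)
  have h3 := Pool.Agent.H98.MF.ord_unit Q h2
  have e : (((n : ℕ) : 𝓞 K) : K) = (n : K) := map_natCast (algebraMap (𝓞 K) K) n
  rwa [e] at h3

/-- Row BL16: the tame generator is nontrivial -/
theorem skap (hk : SKu) (hone : SOne) (hlg : SLg) (ht : SThF) (hd : SDcF) (hm : STme)
    (hphi : SPhi) : SKap := by
  intro l _ k K _ _ _ _ _ z X p Q g τ φ hO hcop hT hTp hn τ' κ hτ' hκ h0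
  have hlp : l.Prime := Fact.out
  have : NeZero l := ⟨hlp.ne_zero⟩
  have KX : KuF l K z := hk l hlp K z X.prim
  have TX : ThF X := ht l k K z X
  have hinj := TX.inj
  obtain ⟨φ', hφ', -, hφv⟩ := hphi l k K z X p Q g τ φ hO hcop hT hTp hn
  have hordl : ord Q ((l : ℕ) : K) = 0 := ka_ordl hO (Nat.Coprime.coprime_mul_right_right hcop)
  obtain ⟨-, -, -, u, hu0, hu1⟩ := hlg l hlp K z X.prim Q hordl
  have hφu : chl l z (u : K) φ' = 1 := by rw [hφv u hu0, hu1]
  obtain ⟨π0, hπ⟩ := Pool.Agent.H98.MF.exists_unif Q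
  have hπ0 : (π0 : K) ≠ 0 := by
    intro h
    rw [h, Pool.Agent.H98.MF.ord_zero] at hπ
    exact zero_ne_one hπ
  let π : Kˣ := Units.mk0 (π0 : K) hπ0
  let a : ZMod l := chl l z (π : K) φ'
  let c : Kˣ := π / u ^ a.val
  have hcτ : chl l z (c : K) τ' = 0 := by rw [hκ c, h0, zero_mul]
  have hcφ : chl l z (c : K) φ' = 0 := by
    show chl l z ((π / u ^ a.val : Kˣ) : K) φ' = 0
    rw [ka_cdiv KX, ka_cpow KX, hφu, ZMod.natCast_zmod_val, mul_one]
    exact sub_self _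
  have hcord : ord Q (c : K) = 1 := by
    show ord Q ((π / u ^ a.val : Kˣ) : K) = 1
    rw [Units.val_div_eq_div_val, Units.val_pow_eq_pow_val,
      Pool.Agent.H98.MF.ord_div Q π.ne_zero (pow_ne_zero _ u.ne_zero),
      Pool.Agent.H98.MF.ord_pow, hu0, mul_zero, sub_zero]
    exact hπ
  have hDec : ∀ σ ∈ Dec Q, chl l z (c : K) σ = 0 := by
    intro σ hσ
    obtain ⟨U, hU, -, hUv⟩ := (hm l k K z X p hcop).1 c
    have h1 := ((hd l k K z X).cd p Q g hTp σ).1 hσ
    obtain ⟨i, j, h2⟩ := hT.gen U hU _ h1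
    have h3 : X.Th ((τ' ^ i * φ' ^ j)⁻¹ * σ) =
        g * ((τ ^ i * φ ^ j)⁻¹ * (g⁻¹ * X.Th σ * g)) * g⁻¹ := by
      rw [map_mul, map_inv, map_mul, map_pow, map_pow, hτ', hφ', conj_pow, conj_pow]
      group
    have h4 : X.Th ((τ' ^ i * φ' ^ j)⁻¹ * σ) ∈ U := by
      rw [h3]
      exact hU.nor.conj_mem _ h2 g
    have h5 := hUv _ h4
    rw [KX.hom, ka_ginv KX, KX.hom, ka_gpow KX, ka_gpow KX, hcτ, hcφ, mul_zero, mul_zero,
      add_zero, neg_zero, zero_add] at h5
    exact h5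
  have h6 := ka_dvd hlp (((hone l hlp K z X.prim Q).1 c).1 hDec)
  rw [hcord] at h6
  have h7 := Int.eq_one_of_dvd_one (Int.natCast_nonneg l) h6
  exact hlp.one_lt.ne' (by exact_mod_cast h7)

end Pool.Agent.H92.EL
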