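import Pool.Agent.H92.EL.BStm

/-!
# Project T4 (MP_a3214d), block B, row BL7: Kummer theory over `k`
-/

set_option autoImplicit false

open scoped BigOperators Pointwise
open NumberField IsDedekindDomain

namespace Pool.Agent.H92.EL

open Pool.Agent.H98.MF (Om Gm ord Dec top US PrS SUn mS nrm gen cj)

section

variable {l : ℕ} [Fact l.Prime] {K : Type} [Field K] [NumberField K] {z : K}

private theorem blk_one (hK : KuF l K z) (σ : Gm K) : chl l z ((1 : Kˣ) : K) σ = 0 := by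
  have h := hK.mul 1 1 σ
  rw [mul_one] at h
  exact left_eq_add.1 h

private theorem blk_pow (hK : KuF l K z) (a : Kˣ) (σ : Gm K) (n : ℕ) :
    chl l z ((a ^ n : Kˣ) : K) σ = (n : ZMod l) * chl l z (a : K) σ := by
  induction n with
  | zero => rw [pow_zero, blk_one hK, Nat.cast_zero, zero_mul]
  | succ n ih => rw [pow_succ, hK.mul, ih, Nat.cast_succ]; ring

private theorem blk_div (hK : KuF l K z) (a b : Kˣ) (σ : Gm K) :
    chl l z ((a / b : Kˣ) : K) σ = chl l z (a : K) σ - chl l z (b : K) σ := by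
  have h := hK.mul (a / b) b σ
  rw [div_mul_cancel] at h
  rw [h]; ring

variable {k : Type} [Field k] [NumberField k] [Algebra k K]

private theorem blk_cj {X : CyX l k K z} (hT : ThF X) (g : Gm k) (σ : Gm K) :
    ∃ σ' : Gm K, X.Th σ' = g * X.Th σ * g⁻¹ := by
  have h : g * X.Th σ * g⁻¹ ∈ X.Th.range := hT.nor.conj_mem _ ⟨σ, rfl⟩ g
  exact h

private theorem blk_inv {h : Gm k → ZMod l} (hh : HomL h) (g x : Gm k) :
    h (g * x * g⁻¹) = h x := by
  have h1 : h 1 = 0 := by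
    have := hh.add 1 1
    rw [mul_one] at this
    exact left_eq_add.1 this
  have h2 : h g + h g⁻¹ = 0 := by
    rw [← hh.add, mul_inv_cancel, h1]
  rw [hh.add, hh.add]
  calc h g + h x + h g⁻¹ = h x + (h g + h g⁻¹) := by ring
    _ = h x := by rw [h2, add_zero]

private theorem blk_eq (hK : KuF l K z) (a c : Kˣ) (e : (ZMod l)ˣ)
    (h : a / c ^ (e : ZMod l).val ∈ pw l (⊤ : Subgroup Kˣ)) (σ : Gm K) :
    chl l z (a : K) σ = (e : ZMod l) * chl l z (c : K) σ := by
  have h1 := (hK.zero _).2 h σ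
  rw [blk_div hK, blk_pow hK, ZMod.natCast_zmod_val] at h1
  exact sub_eq_zero.1 h1

end

open Classical in
/-- Row BL7: Kummer theory over `k`. -/
theorem skk (hk : SKu) (hc : SCyl) (ht : SThF) (hr : SRsF) (hx : SXt) : SKk := by
  intro l _ k K _ _ _ _ _ z X
  have hK := hk l (Fact.out) K z X.prim
  obtain ⟨hC, hfr, hcard, hinj⟩ := hc l k K z X
  have hT := ht l k K z X
  have hR := hr l k K z X hK
  have hidx : ((X.Th.range.index : ℕ) : ZMod l) ≠ 0 := by
    rw [hT.idx, Ne, ZMod.natCast_eq_zero_iff]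
    intro h
    have h1 : 1 < l := (Fact.out : l.Prime).one_lt
    have h2 := Nat.le_of_dvd (by omega) (h.trans hfr)
    omega
  refine ⟨?_, ?_, ?_, ?_⟩
  · intro h hh
    obtain ⟨c, hc'⟩ := hK.surj (fun σ => h (X.Th σ)) (hh.lc.comp_continuous hT.cont)
      (fun σ τ => by rw [map_mul, hh.add])
    exact ⟨c, hc'⟩
  · intro h c hh hi δ
    refine (hK.zero _).1 fun τ => ?_
    obtain ⟨g, hg⟩ := hR.ex δ
    obtain ⟨σ, hσ⟩ := blk_cj hT g⁻¹ τ
    have h1 : X.Th τ = g * X.Th σ * g⁻¹ := by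
      rw [hσ]; group
    have h2 := hR.cj g δ hg σ τ h1 c
    have h3 : chl l z (c : K) τ = chl l z (c : K) σ := by
      rw [← hi τ, ← hi σ, h1, blk_inv hh]
    rw [blk_div hK, blk_pow hK, ZMod.natCast_zmod_val, h2, h3, sub_self]
  · intro c hE
    set f : Gm k → ZMod l := fun g =>
      if h : ∃ σ, X.Th σ = g then chl l z (c : K) h.choose else 0 with hf
    have hfT : ∀ σ, f (X.Th σ) = chl l z (c : K) σ := by
      intro σ
      have h : ∃ σ', X.Th σ' = X.Th σ := ⟨σ, rfl⟩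
      have h1 : f (X.Th σ) = chl l z (c : K) h.choose := by
        rw [hf]
        exact dif_pos h
      rw [h1, hT.inj h.choose_spec]
    obtain ⟨F, hF1, hF2⟩ := (hx l (Gm k) X.Th.range hT.nor hidx).1 f (by
      rintro _ ⟨σ, rfl⟩ _ ⟨τ, rfl⟩
      rw [← map_mul, hfT, hfT, hfT, hK.hom]) (by
      rintro g _ ⟨σ, rfl⟩
      obtain ⟨σ', hσ'⟩ := blk_cj hT g σ
      obtain ⟨δ, hδ⟩ := hR.rs g
      have h1 := hR.cj g δ hδ σ σ' hσ' c
      rw [blk_eq hK _ c _ (hE δ) σ'] at h1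
      rw [← hσ', hfT, hfT]
      exact (cyK k X.prim δ).isUnit.mul_left_cancel h1)
    have hFT : ∀ σ, F (X.Th σ) = chl l z (c : K) σ := fun σ => by
      rw [hF2 _ ⟨σ, rfl⟩, hfT]
    refine ⟨F, ⟨?_, hF1⟩, hFT⟩
    obtain ⟨F', hF'1, hF'2⟩ := hT.ext _ (hK.lc c)
    rw [IsLocallyConstant.iff_exists_open]
    intro x
    refine ⟨(fun y => x⁻¹ * y) ⁻¹' ((X.Th.range : Set (Gm k)) ∩ {g | F' g = 0}), ?_, ?_, ?_⟩
    · exact (hT.opn.inter (hF'1.isOpen_fiber 0)).preimage (continuous_const.mul continuous_id)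
    · rw [Set.mem_preimage, inv_mul_cancel]
      refine ⟨X.Th.range.one_mem, ?_⟩
      have h1 := hF'2 1
      rw [map_one] at h1
      have h2 := hK.hom c 1 1
      rw [mul_one] at h2
      show F' 1 = 0
      rw [h1]
      exact left_eq_add.1 h2
    · intro y hy
      obtain ⟨⟨σ, hσ⟩, h0⟩ := hy
      have h1 : F (x⁻¹ * y) = 0 := by
        have h2 : X.Th σ = x⁻¹ * y := hσ
        have h3 : F' (x⁻¹ * y) = 0 := h0
        rw [← h2, hFT, ← hF'2, h2, h3]
      have h4 : F y = F (x * (x⁻¹ * y)) := by rw [mul_inv_cancel_left]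
      rw [h4, hF1, h1, add_zero]
  · intro h hh h0
    refine (hx l (Gm k) X.Th.range hT.nor hidx).2 h hh.add ?_
    rintro _ ⟨σ, rfl⟩
    exact h0 σ

end Pool.Agent.H92.EL
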