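import Pool.Agent.H92.EL.BStm

/-!
# Project ELL (MP_a3214d), block B: local homomorphisms at a prime of `k` and local classes of `K`
-/

set_option autoImplicit false

open scoped BigOperators Pointwise
open NumberField IsDedekindDomain

namespace Pool.Agent.H92.EL

open Pool.Agent.H98.MF (Om Gm ord Dec top US PrS SUn mS nrm gen cj)

/-! ### Kummer characters -/

private theorem llo_one {l : ℕ} {K : Type} [Field K] [NumberField K] {z : K} (hk : KuF l K z)
    (σ : Gm K) : chl l z ((1 : Kˣ) : K) σ = 0 := by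
  have h := hk.mul 1 1 σ
  rw [one_mul] at h
  exact left_eq_add.1 h

private theorem llo_pow {l : ℕ} {K : Type} [Field K] [NumberField K] {z : K} (hk : KuF l K z)
    (a : Kˣ) (σ : Gm K) (n : ℕ) :
    chl l z ((a ^ n : Kˣ) : K) σ = (n : ZMod l) * chl l z (a : K) σ := by
  induction n with
  | zero => rw [pow_zero, llo_one hk, Nat.cast_zero, zero_mul]
  | succ n ih =>
    rw [pow_succ, hk.mul, ih]
    push_cast
    ring

private theorem llo_div {l : ℕ} {K : Type} [Field K] [NumberField K] {z : K} (hk : KuF l K z)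
    (a b : Kˣ) (σ : Gm K) :
    chl l z ((a / b : Kˣ) : K) σ = chl l z (a : K) σ - chl l z (b : K) σ := by
  have h := hk.mul (a / b) b σ
  rw [div_mul_cancel] at h
  rw [h, add_sub_cancel_right]

/-! ### homomorphisms on a subgroup -/

private theorem llo_c1 {l : ℕ} {A : Type} [Group A] {D : Subgroup A} {c : A → ZMod l}
    (hc : ∀ σ ∈ D, ∀ τ ∈ D, c (σ * τ) = c σ + c τ) : c 1 = 0 := by
  have h := hc 1 (one_mem _) 1 (one_mem _)
  rw [one_mul] at h
  exact left_eq_add.1 h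

private theorem llo_conj {l : ℕ} {A : Type} [Group A] {D : Subgroup A} {c : A → ZMod l}
    (hc : ∀ σ ∈ D, ∀ τ ∈ D, c (σ * τ) = c σ + c τ) {d x : A} (hd : d ∈ D) (hx : x ∈ D) :
    c (d⁻¹ * x * d) = c x := by
  have hi := D.inv_mem hd
  have h1 := hc _ (D.mul_mem hi hx) _ hd
  have h2 := hc _ hi _ hx
  have h3 := hc _ hi _ hd
  rw [inv_mul_cancel, llo_c1 hc] at h3
  rw [h1, h2]
  linear_combination -h3

private theorem llo_cpow {l : ℕ} {A : Type} [Group A] {D : Subgroup A} {c : A → ZMod l}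
    (hc : ∀ σ ∈ D, ∀ τ ∈ D, c (σ * τ) = c σ + c τ) {x : A} (hx : x ∈ D) (n : ℕ) :
    c (x ^ n) = (n : ZMod l) * c x := by
  induction n with
  | zero => rw [pow_zero, llo_c1 hc, Nat.cast_zero, zero_mul]
  | succ n ih =>
    rw [pow_succ, hc _ (D.pow_mem hx n) _ hx, ih]
    push_cast
    ring

theorem sloh (hk : SKu) (htwo : STwo) (hone : SOne) (hmem : SMem) (hc : SCyl) (ht : SThF)
    (hr : SRsF) (hd : SDcF) : SLoh := by
  intro l hl k K _ _ _ _ _ z X v
  have hp : l.Prime := hl.out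
  have hku := hk l hp K z X.prim
  have hT := ht l k K z X
  have hR := hr l k K z X hku
  have hD := hd l k K z X
  have hnor : X.Th.range.Normal := hT.nor
  refine ⟨fun c hlc hadd => ?_, fun c hadd Q g hg h0 σ hσ => ?_⟩
  · have hex : ∀ Q : HeightOneSpectrum (𝓞 K), ∃ γ : Kˣ, ∀ g : Gm k, X.Tp v Q g →
        ∀ σ ∈ Dec Q, c (g⁻¹ * X.Th σ * g) = chl l z (γ : K) σ := by
      intro Q
      by_cases hQ : ∃ g, X.Tp v Q g
      · obtain ⟨g₀, hg₀⟩ := hQ
        have hcd := hD.cd v Q g₀ hg₀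
        have hcont : Continuous fun σ : Gm K => g₀⁻¹ * X.Th σ * g₀ :=
          (continuous_const.mul hT.cont).mul continuous_const
        obtain ⟨γ, hγ⟩ := htwo l hp K z X.prim Q (fun σ => c (g₀⁻¹ * X.Th σ * g₀))
          (hlc.comp_continuous hcont) (fun σ hσ τ hτ => by
            have h1 := hadd _ ((hcd σ).1 hσ) _ ((hcd τ).1 hτ)
            rw [← h1, map_mul]
            congr 1
            group)
        refine ⟨γ, fun g hg σ hσ => ?_⟩
        have h2 := (hD.un v Q g₀ g hg₀).1 hg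
        have h3 := llo_conj hadd h2 ((hcd σ).1 hσ)
        rw [← hγ σ hσ]
        show c (g⁻¹ * X.Th σ * g) = c (g₀⁻¹ * X.Th σ * g₀)
        rw [← h3]
        congr 1
        group
      · exact ⟨1, fun g hg => absurd ⟨g, hg⟩ hQ⟩
    choose γ hγ using hex
    refine ⟨γ, fun Q g hg σ hσ => hγ Q g hg σ hσ, fun δ Q hov => ?_⟩
    obtain ⟨g, hg⟩ := hD.ex v Q hov
    obtain ⟨g', hg', hgg⟩ := hD.ac v Q g δ hg
    rw [hmem l hp K (dP δ Q), ← (hone l hp K z X.prim (dP δ Q)).1]
    intro σ' hσ'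
    obtain ⟨σ, hσ⟩ : ∃ σ, X.Th σ = g'⁻¹ * X.Th σ' * g' := by
      have h1 := hnor.conj_mem (X.Th σ') ⟨σ', rfl⟩ g'⁻¹
      rw [inv_inv] at h1
      exact h1
    have e1 : g⁻¹ * X.Th σ * g = (g' * g)⁻¹ * X.Th σ' * (g' * g) := by
      rw [hσ]
      group
    have h2 : σ ∈ Dec Q := by
      rw [hD.cd v Q g hg σ, e1]
      exact (hD.cd v (dP δ Q) (g' * g) hgg σ').1 hσ'
    have h3 : chl l z (γ (dP δ Q) : K) σ' = chl l z (γ Q : K) σ := by
      rw [← hγ (dP δ Q) (g' * g) hgg σ' hσ', ← hγ Q g hg σ h2, e1]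
    have h4 := hR.cj g' δ hg' σ σ' (by rw [hσ]; group) (γ Q)
    rw [llo_div hku, llo_pow hku, h4, h3]
    have h5 : ((((cyK k X.prim δ : (ZMod l)ˣ) : ZMod l).val : ℕ) : ZMod l) =
        ((cyK k X.prim δ : (ZMod l)ˣ) : ZMod l) := ZMod.natCast_zmod_val _
    rw [h5, sub_self]
  · have hcd := hD.cd v Q g hg
    have h1 := Subgroup.pow_index_mem X.Th.range σ
    rw [hT.idx] at h1
    obtain ⟨σ', hσ'⟩ := hnor.conj_mem _ h1 g
    have e1 : g⁻¹ * X.Th σ' * g = σ ^ Module.finrank k K := by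
      rw [hσ']
      group
    have h2 : σ' ∈ Dec Q := by
      rw [hcd σ', e1]
      exact (Dec v).pow_mem hσ _
    have h3 := h0 σ' h2
    rw [e1, llo_cpow hadd hσ] at h3
    have h4 : ((Module.finrank k K : ℕ) : ZMod l) ≠ 0 := by
      rw [Ne, ZMod.natCast_eq_zero_iff]
      intro h5
      have h6 := hp.two_le
      have h7 := (hc l k K z X).2.1
      have h8 := Nat.le_of_dvd (by omega) (h5.trans h7)
      omega
    exact (mul_eq_zero.1 h3).resolve_left h4

end Pool.Agent.H92.EL
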