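import Pool.Agent.H92.EL.BStm
import Pool.Agent.H98.MF.L.Ord
import Pool.Agent.H98.MF.L.Top

/-!
# Project ELL (MP_a3214d), block B, BL15: the Frobenius element in the Galois group of `K`
-/

set_option autoImplicit false

open scoped BigOperators Pointwise
open NumberField IsDedekindDomain

namespace Pool.Agent.H92.EL

open Pool.Agent.H98.MF (Om Gm ord Dec top US PrS SUn mS nrm gen cj top_prime top_comap ord_unit
  ord_nonneg_iff le_ord_iff)

/-- a nontrivial root of unity congruent to one -/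
private theorem phi_root {R : Type} [CommRing R] [IsDomain R] (I : Ideal R) (l : ℕ) (η : R)
    (h : η ^ l = 1) (h1 : η ≠ 1) (h2 : η - 1 ∈ I) : (l : R) ∈ I := by
  have hs : ∑ i ∈ Finset.range l, η ^ i = 0 := by
    have h3 : (η - 1) * ∑ i ∈ Finset.range l, η ^ i = 0 := by
      rw [mul_geom_sum, h, sub_self]
    rcases mul_eq_zero.1 h3 with h4 | h4
    · exact absurd (sub_eq_zero.1 h4) h1
    · exact h4
  have h5 : (l : R) = ∑ i ∈ Finset.range l, (1 - η ^ i) := by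
    rw [Finset.sum_sub_distrib, hs, sub_zero]
    simp
  rw [h5]
  refine I.sum_mem fun i _ => ?_
  have h6 : 1 - η ^ i = -((η - 1) * ∑ j ∈ Finset.range i, η ^ j) := by
    rw [mul_geom_sum]
    ring
  rw [h6]
  exact I.neg_mem (I.mul_mem_right _ h2)

/-- congruent roots of unity are equal -/
private theorem phi_fix {R : Type} [CommRing R] [IsDomain R] (I : Ideal R) (l : ℕ) (hl : 0 < l)
    (ζ ξ : R) (h : ζ ^ l = 1) (h1 : ξ ^ l = 1) (h2 : ξ - ζ ∈ I) (hI : (l : R) ∉ I) : ξ = ζ := by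
  have hz : ζ * ζ ^ (l - 1) = 1 := by
    rw [← pow_succ', Nat.sub_add_cancel hl, h]
  by_contra hne
  refine hI (phi_root I l (ξ * ζ ^ (l - 1)) ?_ ?_ ?_)
  · rw [mul_pow, h1, one_mul, ← pow_mul, mul_comm, pow_mul, h, one_pow]
  · intro h3
    apply hne
    calc ξ = ξ * (ζ * ζ ^ (l - 1)) := by rw [hz, mul_one]
      _ = (ξ * ζ ^ (l - 1)) * ζ := by ring
      _ = ζ := by rw [h3, one_mul]
  · have h4 : ξ * ζ ^ (l - 1) - 1 = (ξ - ζ) * ζ ^ (l - 1) := by
      rw [sub_mul, hz]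
    rw [h4]
    exact I.mul_mem_right _ h2

private theorem phi_nl {k : Type} [Field k] [NumberField k] (p : HeightOneSpectrum (𝓞 k)) (l : ℕ)
    (h : Nat.Coprime (nrm p) l) : (l : 𝓞 k) ∉ p.asIdeal := by
  intro h1
  have h2 : ((nrm p : ℕ) : 𝓞 k) ∈ p.asIdeal := Ideal.absNorm_mem p.asIdeal
  obtain ⟨a, b, hab⟩ : IsCoprime ((nrm p : ℕ) : 𝓞 k) (l : 𝓞 k) := Nat.Coprime.cast h
  refine p.isPrime.ne_top ((Ideal.eq_top_iff_one _).2 ?_)
  rw [← hab]
  exact p.asIdeal.add_mem (p.asIdeal.mul_mem_left _ h2) (p.asIdeal.mul_mem_left _ h1)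

/-- BL15 -/
theorem sphi (hk : SKu) (hc : SCyl) (hlg : SLg) (ht : SThF) (hd : SDcF) (hm : STme)
    (hrg : SRgk) : SPhi := by
  intro l hlF k K _ _ _ _ _ z X p Q g τ φ hov hcop hTM hTp hN
  have hl : l.Prime := hlF.out
  have hz : IsPrimitiveRoot z l := X.prim
  have hK := hk l hl K z hz
  have hTh := ht l k K z X
  have hD := hd l k K z X
  obtain ⟨-, hm2⟩ := hm l k K z X p hcop
  have hcl : Nat.Coprime (nrm p) l := Nat.Coprime.coprime_mul_right_right hcop
  have hNQ : nrm Q = nrm p := by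
    obtain ⟨h1, h2⟩ := hrg l k K z hz (hc l k K z X).1 p Q hov hcl
    exact h2 (h1.2 hN)
  -- the norm
  have hN0 : 1 ≤ nrm p := by
    by_contra h
    have h0 : nrm p = 0 := by omega
    rw [h0, Nat.cast_zero] at hN
    exact zero_ne_one hN
  have hNd : l ∣ nrm p - 1 := by
    rw [← ZMod.natCast_eq_zero_iff, Nat.cast_sub hN0, hN, Nat.cast_one, sub_self]
  obtain ⟨M, hM⟩ := hNd
  -- the prime number `l` is not in the primes
  have hlp : (l : 𝓞 k) ∉ p.asIdeal := phi_nl p l hcl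
  have hlQ : (l : 𝓞 K) ∉ Q.asIdeal := by
    intro h
    apply hlp
    rw [← hov, Ideal.mem_comap, map_natCast]
    exact h
  have hlt : (l : 𝓞 (Om k)) ∉ top p := by
    intro h
    apply hlp
    rw [← top_comap p, Ideal.mem_comap, map_natCast]
    exact h
  have hordl : ord Q (l : K) = 0 := by
    have h1 := ord_unit Q hlQ
    have h2 : (((l : 𝓞 K) : 𝓞 K) : K) = (l : K) := map_natCast (algebraMap (𝓞 K) K) l
    rw [h2] at h1
    exact h1
  -- the root of unity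
  set zK : 𝓞 K := ⟨z, hz.isIntegral hl.pos⟩ with hzK
  set zO : 𝓞 (Om K) := algebraMap (𝓞 K) (𝓞 (Om K)) zK with hzO
  have hzKl : zK ^ l = 1 := by
    apply RingOfIntegers.coe_injective
    rw [map_pow, map_one]
    exact hz.pow_eq_one
  have hzOl : zO ^ l = 1 := by
    rw [hzO, ← map_pow, hzKl, map_one]
  have hzOc : (zO : Om K) = algebraMap K (Om K) z := rfl
  have hjl : (X.jO zO) ^ l = 1 := by
    rw [← map_pow, hzOl, map_one]
  have hT1 : Tme p (X.jO zO) := hm2 zO 1 (by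
    have h1 := congrArg (algebraMap (𝓞 (Om K)) (Om K)) hzOl
    rw [map_pow, map_one] at h1
    rw [Units.val_one, map_one]
    exact h1)
  have hf1 := hTM.fro (X.jO zO) hT1
  have hpN : (X.jO zO) ^ nrm p = X.jO zO := by
    have h1 : nrm p = l * M + 1 := by omega
    rw [h1, pow_succ, pow_mul, hjl, one_pow, one_mul]
  rw [hpN] at hf1
  have hfix : φ • X.jO zO = X.jO zO :=
    phi_fix (top p) l hl.pos (X.jO zO) (φ • X.jO zO) hjl (by rw [← smul_pow', hjl, smul_one])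
      hf1 hlt
  have hfix2 : φ (X.jK z) = X.jK z := congrArg (fun t : 𝓞 (Om k) => (t : Om k)) hfix
  have hrange : φ ∈ X.Th.range := (hTh.rngz φ).2 hfix2
  obtain ⟨φ', hφ'⟩ := hTh.nor.conj_mem φ hrange g
  refine ⟨φ', hφ', ?_, ?_⟩
  · rw [hD.cd p Q g hTp φ', hφ']
    have h1 : g⁻¹ * (g * φ * g⁻¹) * g = φ := by group
    rw [h1]
    exact hTM.decφ
  intro c hc0
  obtain ⟨x, b, hb, hx⟩ := (ord_nonneg_iff Q (c : K)).1 hc0.ge
  have hb0 : (b : K) ≠ 0 := by
    intro h0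
    have h1 : b = 0 := by exact_mod_cast h0
    exact hb (h1 ▸ Q.asIdeal.zero_mem)
  have hxQ : x ∉ Q.asIdeal := by
    intro h
    have h1 : x ∈ Q.asIdeal ^ 1 := by rwa [pow_one]
    have hx0 : (x : K) ≠ 0 := by
      rw [← hx]
      exact mul_ne_zero c.ne_zero hb0
    rcases (le_ord_iff Q x 1).2 h1 with h2 | h2
    · exact hx0 (by rw [h2]; simp)
    · have h3 := Pool.Agent.H98.MF.ord_mul Q c.ne_zero hb0
      rw [hx, hc0, ord_unit Q hb] at h3
      rw [h3] at h2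
      norm_num at h2
  set bU : Kˣ := Units.mk0 (b : K) hb0 with hbU
  set d : Kˣ := c * bU ^ l with hd'
  set d0 : 𝓞 K := x * b ^ (l - 1) with hd0
  have hdc : (d0 : K) = (d : K) := by
    have h1 : (d0 : K) = (x : K) * (b : K) ^ (l - 1) := by
      have h0 := map_mul (algebraMap (𝓞 K) K) x (b ^ (l - 1))
      rw [map_pow] at h0
      exact h0
    have h2 : (d : K) = (c : K) * (b : K) ^ l := by
      rw [hd', Units.val_mul, Units.val_pow_eq_pow_val]
      rfl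
    rw [h1, h2, ← hx, mul_assoc, ← pow_succ', Nat.sub_add_cancel hl.pos]
  have hd0Q : d0 ∉ Q.asIdeal := by
    intro h
    rcases Q.isPrime.mem_or_mem h with h | h
    · exact hxQ h
    · exact hb (Q.isPrime.mem_of_pow_mem _ h)
  have hordb : ord Q (bU : K) = 0 := ord_unit Q hb
  have hordbl : ord Q ((bU ^ l : Kˣ) : K) = 0 := by
    rw [Units.val_pow_eq_pow_val, Pool.Agent.H98.MF.ord_pow, hordb, mul_zero]
  have hordd : ord Q (d : K) = 0 := by
    rw [← hdc]
    exact ord_unit Q hd0Q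
  obtain ⟨hS1, hS2, hS3, -⟩ := hlg l hl K z hz Q hordl
  have hlgd : lgs l z Q (d : K) = lgs l z Q (c : K) := by
    have h1 : lgs l z Q ((bU ^ l : Kˣ) : K) = 0 := by
      rw [hS3 (bU ^ l) hordbl]
      intro n
      refine ⟨(bU⁻¹ : Kˣ), Or.inl ?_⟩
      rw [Units.val_pow_eq_pow_val, ← mul_pow, Units.mul_inv, one_pow]
    rw [hd', hS2 c (bU ^ l) hc0 hordbl, h1, add_zero]
  have hchd : chl l z (d : K) φ' = chl l z (c : K) φ' := by
    have h1 : chl l z ((bU ^ l : Kˣ) : K) φ' = 0 :=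
      (hK.zero (bU ^ l)).2 ⟨bU, Subgroup.mem_top _, rfl⟩ φ'
    rw [hd', hK.mul, h1, add_zero]
  rw [← hlgd, ← hchd]
  -- the root
  obtain ⟨y0, hy0⟩ := IsAlgClosed.exists_pow_nat_eq (algebraMap K (Om K) (d : K)) hl.pos
  have hyI : IsIntegral ℤ y0 := by
    refine IsIntegral.of_pow hl.pos ?_
    rw [hy0, ← hdc]
    exact (RingOfIntegers.isIntegral_coe d0).algebraMap
  set yO : 𝓞 (Om K) := ⟨y0, hyI⟩ with hyO
  have hyl : yO ^ l = algebraMap (𝓞 K) (𝓞 (Om K)) d0 := by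
    apply RingOfIntegers.coe_injective
    rw [map_pow]
    show y0 ^ l = algebraMap K (Om K) (d0 : K)
    rw [hy0, hdc]
  have hyt : yO ∉ top Q := by
    intro h
    apply hd0Q
    rw [← top_comap Q, Ideal.mem_comap, ← hyl]
    exact Ideal.pow_mem_of_mem _ h l hl.pos
  obtain ⟨U, hU, hUy⟩ := hm2 yO d hy0
  have hTw : Tme p (g⁻¹ • X.jO yO) := ⟨U, hU, fun σ hσ => by
    rw [smul_smul]
    have h1 : σ * g⁻¹ = g⁻¹ * (g * σ * g⁻¹) := by group
    rw [h1, mul_smul, hUy _ (hU.nor.conj_mem σ hσ g)]⟩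
  have hf2 := hTM.fro (g⁻¹ • X.jO yO) hTw
  have hact : X.jO (φ' • yO) = X.Th φ' • X.jO yO := by
    apply RingOfIntegers.coe_injective
    exact (X.Th_apply φ' y0).symm
  have hrew : φ • g⁻¹ • X.jO yO - (g⁻¹ • X.jO yO) ^ nrm p =
      g⁻¹ • X.jO (φ' • yO - yO ^ nrm p) := by
    rw [map_sub, map_pow, smul_sub, smul_pow', hact, hφ', smul_smul, smul_smul]
    have h1 : φ * g⁻¹ = g⁻¹ * (g * φ * g⁻¹) := by group
    rw [h1]
  rw [hrew, ← hTp] at hf2
  set i : ZMod l := chl l z (d : K) φ' with hi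
  have hroot : φ' • yO = zO ^ i.val * yO := by
    apply RingOfIntegers.coe_injective
    rw [map_mul, map_pow]
    exact hK.root d y0 hy0 φ'
  have hsplit : φ' • yO - yO ^ nrm p = yO * (zO ^ i.val - yO ^ (nrm p - 1)) := by
    rw [hroot, mul_sub, ← pow_succ', Nat.sub_add_cancel hN0, mul_comm]
  rw [hsplit] at hf2
  have hf3 := ((top_prime Q).mem_or_mem hf2).resolve_left hyt
  have hf4 : algebraMap (𝓞 K) (𝓞 (Om K)) (zK ^ i.val - d0 ^ M) ∈ top Q := by
    rw [map_sub, map_pow, map_pow, ← hyl, ← pow_mul, ← hM]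
    exact hf3
  have hf5 : zK ^ i.val - d0 ^ M ∈ Q.asIdeal := by
    rw [← top_comap Q]
    exact hf4
  symm
  rw [hS1 d hordd i]
  have hM2 : (nrm Q - 1) / l = M := by
    rw [hNQ, hM, Nat.mul_div_cancel_left _ hl.pos]
  rw [hM2]
  have hf6 : d0 ^ M - zK ^ i.val ∈ Q.asIdeal ^ 1 := by
    rw [pow_one, ← neg_sub]
    exact Q.asIdeal.neg_mem hf5
  have hcast : ((d0 ^ M - zK ^ i.val : 𝓞 K) : K) = (d : K) ^ M - z ^ i.val := by
    have h0 := map_sub (algebraMap (𝓞 K) K) (d0 ^ M) (zK ^ i.val)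
    rw [map_pow, map_pow] at h0
    rw [← hdc]
    exact h0
  rcases (le_ord_iff Q _ 1).2 hf6 with h | h
  · left
    rw [h] at hcast
    have h0 : ((0 : 𝓞 K) : K) = 0 := map_zero (algebraMap (𝓞 K) K)
    rw [h0] at hcast
    exact sub_eq_zero.1 hcast.symm
  · right
    rw [hcast] at h
    exact_mod_cast h

end Pool.Agent.H92.EL
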