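import Pool.Agent.H92.EL.BStm

/-!
# Project ELL (MP_a3214d), block B, row BL11: primes of `K` and `k`
-/

set_option autoImplicit false

open scoped BigOperators Pointwise
open NumberField IsDedekindDomain

namespace Pool.Agent.H92.EL

/-- Row BL11: primes of `K` and `k` -/
theorem sprk : SPrk := by
  intro k K _ _ _ _ _
  refine ⟨fun Q => ?_, fun p => ?_⟩
  · have := Q.isPrime
    obtain ⟨x, hx, hx0⟩ := Submodule.exists_mem_ne_zero_of_ne_bot Q.ne_bot
    have hne : Q.asIdeal.comap (algebraMap (𝓞 k) (𝓞 K)) ≠ ⊥ :=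
      Ideal.comap_ne_bot_of_integral_mem hx0 hx (Algebra.IsIntegral.isIntegral x)
    refine ⟨⟨Q.asIdeal.comap (algebraMap (𝓞 k) (𝓞 K)), inferInstance, hne⟩, rfl, ?_⟩
    intro p hp
    exact HeightOneSpectrum.ext hp.symm
  · obtain ⟨Q, hQ⟩ := Pool.Agent.H98.MF.exists_over (L := K) p
    exact ⟨Q, hQ⟩

end Pool.Agent.H92.EL
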