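import Pool.Agent.H92.EL.BStm

/-!
# Project ELL (MP_a3214d), block B, row BL19: projection to the equivariant classes
-/

set_option autoImplicit false

open scoped BigOperators Pointwise
open NumberField IsDedekindDomain

namespace Pool.Agent.H92.EL

open Pool.Agent.H98.MF (Om Gm ord Dec top US PrS SUn mS nrm gen cj)

/-! ### groups modulo subgroups containing the `l`-th powers -/

section

variable {l : ℕ} {G : Type} [CommGroup G]

theorem pre_pow {N : Subgroup G} (hN : ∀ x : G, x ^ l ∈ N) (x : G) {a b : ℕ}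
    (h : (a : ZMod l) = (b : ZMod l)) : x ^ a / x ^ b ∈ N := by
  have h1 : (l : ℤ) ∣ (a : ℤ) - b := by
    rw [← ZMod.intCast_eq_intCast_iff_dvd_sub]
    push_cast
    exact h.symm
  obtain ⟨t, ht⟩ := h1
  have h2 : x ^ a / x ^ b = (x ^ t) ^ l := by
    rw [← zpow_natCast x a, ← zpow_natCast x b, div_eq_mul_inv, ← zpow_sub, ht, mul_comm,
      zpow_mul, zpow_natCast]
  rw [h2]
  exact hN _

theorem pre_inv [Fact l.Prime] {N : Subgroup G} (hN : ∀ x : G, x ^ l ∈ N) {x y : G} {e : (ZMod l)ˣ}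
    (h : x / y ^ (e : ZMod l).val ∈ N) :
    x ^ ((e⁻¹ : (ZMod l)ˣ) : ZMod l).val / y ∈ N := by
  have h1 : x ^ ((e⁻¹ : (ZMod l)ˣ) : ZMod l).val /
      (y ^ (e : ZMod l).val) ^ ((e⁻¹ : (ZMod l)ˣ) : ZMod l).val ∈ N := by
    rw [← div_pow]
    exact N.pow_mem h _
  have h2 : y ^ ((e : ZMod l).val * ((e⁻¹ : (ZMod l)ˣ) : ZMod l).val) / y ^ 1 ∈ N := by
    refine pre_pow hN y ?_
    rw [Nat.cast_mul, ZMod.natCast_zmod_val, ZMod.natCast_zmod_val, Units.mul_inv, Nat.cast_one]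
  have h3 := N.mul_mem h1 h2
  rwa [pow_mul, pow_one, div_mul_div_cancel] at h3

theorem pre_prod {ι : Type} [Fintype ι] {N : Subgroup G} {f g : ι → G}
    (h : ∀ i, f i / g i ∈ N) : (∏ i, f i) / ∏ i, g i ∈ N := by
  rw [← Finset.prod_div_distrib]
  exact N.prod_mem fun i _ => h i

theorem pre_pw (x : G) : x ^ l ∈ pw l (⊤ : Subgroup G) :=
  ⟨x, Subgroup.mem_top x, rfl⟩

end

section

variable {l : ℕ} [Fact l.Prime] {k K : Type} [Field k] [NumberField k] [Field K] [NumberField K]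
  [Algebra k K] {z : K}

theorem pre_ws (hmem : SMem) (Q : HeightOneSpectrum (𝓞 K)) (x : Kˣ) : x ^ l ∈ WS l Q := by
  rw [hmem l (Fact.out : l.Prime) K Q]
  intro n
  refine ⟨((x⁻¹ : Kˣ) : K), Or.inl ?_⟩
  rw [← Units.val_pow_eq_pow_val, ← Units.val_mul, inv_pow, mul_inv_cancel, Units.val_one]

omit [NumberField K] in
theorem pre_inj (hz : IsPrimitiveRoot z l) (X : Cyl k hz) :
    Function.Injective (cyK k hz) := by
  intro δ δ' h
  have h1 : ∀ d : K ≃ₐ[k] K, z ^ ((cyK k hz d : (ZMod l)ˣ) : ZMod l).val = d z := fun d =>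
    hz.autToPow_spec k d
  have h2 : δ z = δ' z := by rw [← h1 δ, ← h1 δ', h]
  have h3 : δ'⁻¹ * δ = 1 := by
    refine X.inj _ ?_
    rw [AlgEquiv.mul_apply, h2]
    exact δ'.symm_apply_apply z
  exact (inv_mul_eq_one.1 h3).symm

omit [NumberField K] in
theorem pre_card (hz : IsPrimitiveRoot z l) (X : Cyl k hz) :
    (Nat.card (K ≃ₐ[k] K) : ZMod l) ≠ 0 := by
  have h1 : Nat.card (K ≃ₐ[k] K) ∣ Nat.card (ZMod l)ˣ :=
    Subgroup.card_dvd_of_injective (cyK k hz) (pre_inj hz X)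
  rw [Nat.card_eq_fintype_card (α := (ZMod l)ˣ), ZMod.card_units_eq_totient,
    Nat.totient_prime (Fact.out : l.Prime)] at h1
  intro h2
  rw [ZMod.natCast_eq_zero_iff] at h2
  have h3 := h2.trans h1
  have h4 := (Fact.out : l.Prime).two_le
  have h5 := Nat.le_of_dvd (by omega) h3
  omega

end

/-- the projection to the equivariant classes -/
theorem spre (h1 : SK1) (h3 : SK3) (hmem : SMem) : SPrE := by
  intro l _ k K _ _ _ _ _ z hz X
  have hl : l.Prime := Fact.out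
  have hA := h1 l hl k K
  have := X.gal
  have hD : ∀ (δ δ' : K ≃ₐ[k] K) (a : Kˣ), uD δ (uD δ' a) = uD (δ * δ') a :=
    fun δ δ' a => (hA.mul' δ δ' a).symm
  refine ⟨?_, ?_, ?_, pre_card hz X, ?_⟩
  · intro c δ'
    have e1 : prE k hz c = ∏ δ : K ≃ₐ[k] K,
        uD (δ' * δ) c ^ (((cyK k hz (δ' * δ))⁻¹ : (ZMod l)ˣ) : ZMod l).val := by
      unfold prE
      exact (Equiv.prod_comp (Equiv.mulLeft δ')
        (fun δ : K ≃ₐ[k] K => uD δ c ^ (((cyK k hz δ)⁻¹ : (ZMod l)ˣ) : ZMod l).val)).symm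
    have e2 : uD δ' (prE k hz c) = ∏ δ : K ≃ₐ[k] K,
        uD (δ' * δ) c ^ (((cyK k hz δ)⁻¹ : (ZMod l)ˣ) : ZMod l).val := by
      unfold prE
      rw [map_prod]
      refine Finset.prod_congr rfl fun δ _ => ?_
      rw [map_pow, hD]
    rw [e2, e1, ← Finset.prod_pow]
    refine pre_prod fun δ => ?_
    rw [← pow_mul]
    refine pre_pow pre_pw _ ?_
    rw [Nat.cast_mul, ZMod.natCast_zmod_val, ZMod.natCast_zmod_val, ZMod.natCast_zmod_val,
      map_mul, mul_inv, mul_comm (cyK k hz δ')⁻¹, Units.val_mul, mul_assoc, Units.inv_mul,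
      mul_one]
  · intro a b
    unfold prE
    rw [← Finset.prod_mul_distrib]
    refine Finset.prod_congr rfl fun δ _ => ?_
    rw [map_mul, mul_pow]
  · intro c hc
    have e1 : c ^ Nat.card (K ≃ₐ[k] K) = ∏ _δ : K ≃ₐ[k] K, c := by
      rw [Finset.prod_const, Finset.card_univ, Nat.card_eq_fintype_card]
    rw [e1]
    unfold prE
    exact pre_prod fun δ => pre_inv pre_pw (hc δ)
  · intro T S hOv
    have hS : ∀ (δ : K ≃ₐ[k] K), ∀ Q ∈ S, dP δ Q ∈ S := by
      intro δ Q hQ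
      obtain ⟨P, hP, hPQ⟩ := (hOv Q).1 hQ
      exact (hOv _).2 ⟨P, hP, (h3 k K P Q (dP δ Q) hPQ).2 ⟨δ, rfl⟩⟩
    have hback : ∀ (δ : K ≃ₐ[k] K) (Q : HeightOneSpectrum (𝓞 K)), dP δ (dP δ⁻¹ Q) = Q := by
      intro δ Q
      rw [← hA.mul, mul_inv_cancel, hA.one]
    have hWS : ∀ (δ : K ≃ₐ[k] K) (Q : HeightOneSpectrum (𝓞 K)) (x : Kˣ),
        x ∈ WS l Q → uD δ x ∈ WS l (dP δ Q) := by
      intro δ Q x hx
      rw [hmem l hl K] at hx ⊢
      exact (hA.lw δ Q x).2 hx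
    refine ⟨?_, ?_, ?_⟩
    · intro c hc
      unfold prE
      exact Subgroup.prod_mem _ fun δ _ =>
        Subgroup.pow_mem _ (hA.us δ S c hc S (hS δ)) _
    · intro c hc
      unfold prE
      refine Subgroup.prod_mem _ fun δ _ => Subgroup.pow_mem _ ?_ _
      unfold KW at hc ⊢
      rw [Subgroup.mem_iInf] at hc ⊢
      intro Q
      rw [Subgroup.mem_iInf]
      intro hQ
      have h4 := hc (dP δ⁻¹ Q)
      rw [Subgroup.mem_iInf] at h4
      have h5 := hWS δ _ _ (h4 (hS _ _ hQ))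
      rwa [hback] at h5
    · intro γ c hγ hδ Q hQ
      have e1 : γ Q ^ Nat.card (K ≃ₐ[k] K) = ∏ _δ : K ≃ₐ[k] K, γ Q := by
        rw [Finset.prod_const, Finset.card_univ, Nat.card_eq_fintype_card]
      rw [e1]
      unfold prE
      refine pre_prod fun δ => pre_inv (pre_ws hmem Q) ?_
      have hQ' : dP δ⁻¹ Q ∈ S := hS _ _ hQ
      have h4 := hWS δ _ _ (hγ _ hQ')
      have h5 := hδ δ _ hQ'
      rw [hback] at h4 h5
      rw [map_div] at h4
      have h6 := Subgroup.mul_mem _ h4 h5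
      rwa [div_mul_div_cancel] at h6

end Pool.Agent.H92.EL
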