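import Pool.Agent.H92.EL.BStm

/-!
# Project ELL (MP_a3214d), block B: BL23, the class map and the homomorphisms of the primes
-/

set_option autoImplicit false

open scoped BigOperators Pointwise
open NumberField IsDedekindDomain

namespace Pool.Agent.H92.EL

open Pool.Agent.H98.MF (Om Gm ord Dec top US PrS SUn mS nrm gen cj)

section

variable {l : ℕ} [Fact l.Prime] {k K : Type} [Field k] [NumberField k] [Field K] [NumberField K]
  [Algebra k K] {z : K}

private theorem bla_co_one {hz : IsPrimitiveRoot z l} {G : GSy l K z}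
    {T : Finset (HeightOneSpectrum (𝓞 k))} {F : KFr k hz G T} {co : Kˣ → F.sys.El}
    (hco : CoF F co) : co 1 = 0 := by
  have h := hco.mul 1 1
  rw [mul_one] at h
  exact left_eq_add.1 h

private theorem bla_co_pow {hz : IsPrimitiveRoot z l} {G : GSy l K z}
    {T : Finset (HeightOneSpectrum (𝓞 k))} {F : KFr k hz G T} {co : Kˣ → F.sys.El}
    (hco : CoF F co) (a : Kˣ) (n : ℕ) : co (a ^ n) = n • co a := by
  induction n with
  | zero => rw [pow_zero, bla_co_one hco, zero_smul]
  | succ n ih => rw [pow_succ, hco.mul, ih, succ_nsmul]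

private theorem bla_co_prod {hz : IsPrimitiveRoot z l} {G : GSy l K z}
    {T : Finset (HeightOneSpectrum (𝓞 k))} {F : KFr k hz G T} {co : Kˣ → F.sys.El}
    (hco : CoF F co) {ι : Type} (s : Finset ι) (f : ι → Kˣ) :
    co (∏ i ∈ s, f i) = ∑ i ∈ s, co (f i) := by
  classical
  induction s using Finset.induction_on with
  | empty => rw [Finset.prod_empty, Finset.sum_empty, bla_co_one hco]
  | insert i s hi ih => rw [Finset.prod_insert hi, Finset.sum_insert hi, hco.mul, ih]

/-- elements that differ by a power have the same coordinates -/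
private theorem bla_co_eq {hz : IsPrimitiveRoot z l} {G : GSy l K z}
    {T : Finset (HeightOneSpectrum (𝓞 k))} {F : KFr k hz G T} {co : Kˣ → F.sys.El}
    (hco : CoF F co) {a b : Kˣ} (h : a / b ∈ pw l (⊤ : Subgroup Kˣ)) : co a = co b := by
  have h1 := hco.mul (a / b) b
  rw [div_mul_cancel, (hco.ker _).2 h, zero_add] at h1
  exact h1

/-- classes of the same homomorphism have the same coordinates -/
private theorem bla_is_eq (Kd : KuF l K z) (X : CyX l k K z) {G : GSy l K z}
    {T : Finset (HeightOneSpectrum (𝓞 k))} {F : KFr k X.prim G T} {co : Kˣ → F.sys.El}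
    (hco : CoF F co) {h : Gm k → ZMod l} {c c' : Kˣ} (hc : X.Is h c) (hc' : X.Is h c') :
    co c = co c' := by
  apply bla_co_eq hco
  rw [← Kd.zero]
  intro σ
  have h1 := Kd.mul (c / c') c' σ
  rw [div_mul_cancel, ← hc σ, ← hc' σ] at h1
  exact left_eq_add.1 (by rw [add_comm] at h1; exact h1)

end

open Classical in
theorem spta (hk : SKu) (hc : SCyl) (hkk : SKk) (he : SPrE) (h1 : SK1) : SPtA := by
  intro l hl k K _ _ _ _ _ z X G T F co hco
  have Kd := hk l hl.out K z X.prim
  have Cy := (hc l k K z X).1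
  have KK := hkk l k K z X
  have D := h1 l hl.out k K
  have P := he l k K z X.prim Cy
  let cl : (Gm k → ZMod l) → F.sys.El := fun h => if H : ∃ c, X.Is h c then co H.choose else 0
  have hcl : ∀ (h : Gm k → ZMod l) (c : Kˣ), X.Is h c → cl h = co c := by
    intro h c hh
    have H : ∃ c, X.Is h c := ⟨c, hh⟩
    show (if H : ∃ c, X.Is h c then co H.choose else 0) = co c
    rw [dif_pos H]
    exact bla_is_eq Kd X hco H.choose_spec hh
  have hch : ∀ p : F.sys.P, ∃ h : Gm k → ZMod l, HomL h ∧ X.Is h (prE k X.prim (F.pi p)) :=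
    fun p => KK.surj _ (P.1 _)
  choose ch hch1 hch2 using hch
  refine ⟨cl, ch, fun h c _ hh => hcl h c hh, ?_⟩
  refine ⟨?_, ?_, ?_, hch1, ?_, ?_⟩
  · intro h h' hh hh'
    obtain ⟨c, hc1⟩ := KK.ex h hh
    obtain ⟨c', hc1'⟩ := KK.ex h' hh'
    have h2 : X.Is (fun σ => h σ + h' σ) (c * c') := by
      intro σ
      show h (X.Th σ) + h' (X.Th σ) = _
      rw [Kd.mul, hc1 σ, hc1' σ]
    rw [hcl _ _ h2, hcl _ _ hc1, hcl _ _ hc1', hco.mul]
  · intro h hh h0
    obtain ⟨c, hc1⟩ := KK.ex h hh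
    rw [hcl _ _ hc1, hco.ker, ← Kd.zero] at h0
    apply KK.un h hh
    intro σ
    rw [hc1 σ]
    exact h0 σ
  · intro h hh g p
    obtain ⟨c, hc1⟩ := KK.ex h hh
    rw [hcl _ _ hc1]
    have hq := KK.eqv h c hh hc1 (F.dg g)
    have h2 : co (uD (F.dg g) c) =
        ((cyK k X.prim (F.dg g) : (ZMod l)ˣ) : ZMod l).val • co c := by
      rw [bla_co_eq hco hq, bla_co_pow hco]
    have h3 : (co (uD (F.dg g) c)).2 (F.sys.ac g p) = (co c).2 p := by
      rw [hco.ord, hco.ord, F.ac_eq]
      congr 1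
      exact D.ord_eq (F.dg g) (F.pl p) (c : K)
    rw [h2, ← F.e_eq g] at h3
    have h4 : ((F.sys.e g : (ZMod l)ˣ) : ZMod l) * (co c).2 (F.sys.ac g p) = (co c).2 p := by
      rw [← h3]
      simp [nsmul_eq_mul]
    rw [← h4, ← mul_assoc, Units.inv_mul, one_mul]
  · intro p
    exact ⟨_, hch2 p, by rw [div_self']; exact Subgroup.one_mem _⟩
  · intro p
    rw [hcl _ _ (hch2 p)]
    unfold prE
    rw [bla_co_prod hco, ← Equiv.sum_comp F.dg.toEquiv]
    have h2 : ∀ g : F.sys.D, co (uD (F.dg.toEquiv g) (F.pi p) ^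
        (((cyK k X.prim (F.dg.toEquiv g))⁻¹ : (ZMod l)ˣ) : ZMod l).val) =
        ((0, Finsupp.single (F.sys.ac g p) (((F.sys.e g)⁻¹ : (ZMod l)ˣ) : ZMod l)) :
          F.sys.El) := by
      intro g
      have h3 : co (uD (F.dg.toEquiv g) (F.pi p)) = co (F.pi (F.sys.ac g p)) :=
        bla_co_eq hco (F.pi_ac g p)
      rw [bla_co_pow hco, h3, hco.pi, F.e_eq g]
      show ((((cyK k X.prim (F.dg g))⁻¹ : (ZMod l)ˣ) : ZMod l).val) •
        ((0, Finsupp.single (F.sys.ac g p) 1) : F.sys.El) = _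
      rw [Prod.smul_mk, smul_zero, Finsupp.smul_single, nsmul_eq_mul, mul_one,
        ZMod.natCast_zmod_val]
    rw [Finset.sum_congr rfl fun g _ => h2 g]
    apply Prod.ext
    · rw [Prod.fst_sum]
      simp
    · rw [Prod.snd_sum]

end Pool.Agent.H92.EL
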