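import Pool.Agent.H92.EL.BStm
import Pool.Agent.H98.MF.L.Ord

/-!
# Project ELL (MP_a3214d), block B, row BL24: the values at the tame generators and the Frobenius
elements (helper2)
-/

set_option autoImplicit false

open scoped BigOperators Pointwise
open NumberField IsDedekindDomain

namespace Pool.Agent.H92.EL

open Pool.Agent.H98.MF (Om Gm ord Dec nrm)

section

variable {l : ℕ} [Fact l.Prime] {k K : Type} [Field k] [NumberField k] [Field K] [NumberField K]
  [Algebra k K] {z : K}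

omit [NumberField k] in
/-- invariance under conjugation -/
private theorem ptb_conj {h : Gm k → ZMod l} (hh : HomL h) (g σ : Gm k) :
    h (g * σ * g⁻¹) = h σ := by
  have h1 : h 1 = 0 := by
    have h2 := hh.add 1 1
    rw [mul_one] at h2
    have h3 : h 1 + 0 = h 1 + h 1 := by rw [add_zero]; exact h2
    exact (add_left_cancel h3).symm
  have h4 := hh.add g g⁻¹
  rw [mul_inv_cancel, h1] at h4
  rw [hh.add, hh.add]
  linear_combination -h4

omit [NumberField K] in
/-- functions additive on products and integral powers -/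
private theorem ptb_zpow {A : Type} [AddCommGroup A] (f : Kˣ → A)
    (hf : ∀ a b, f (a * b) = f a + f b) (a : Kˣ) (m : ℤ) : f (a ^ m) = m • f a := by
  have h1 : f 1 = 0 := by
    have h2 := hf 1 1
    rw [mul_one] at h2
    have h3 : f 1 + 0 = f 1 + f 1 := by rw [add_zero]; exact h2
    exact (add_left_cancel h3).symm
  let φ : Additive Kˣ →+ A :=
    { toFun := fun x => f x.toMul
      map_zero' := h1
      map_add' := fun x y => hf _ _ }
  exact map_zsmul φ m (Additive.ofMul a)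

private theorem ptb_ord_zpow (P : HeightOneSpectrum (𝓞 K)) (a : Kˣ) (m : ℤ) :
    ord P ((a ^ m : Kˣ) : K) = m * ord P (a : K) := by
  rw [ptb_zpow (fun a : Kˣ => ord P (a : K)) (fun a b => by
    rw [Units.val_mul]
    exact Pool.Agent.H98.MF.ord_mul P a.ne_zero b.ne_zero) a m, smul_eq_mul]

end

theorem sptb (hk : SKu) (hc : SCyl) (_ht : SThF) (hd : SDcF) (hkk : SKk) (hrg : SRgk)
    (htau : STau) (hphi : SPhi) (hkap : SKap) (hh : SHtp) : SPtB := by
  classical
  intro l hl k K _ _ _ _ _ z X G T F co hco hT t dn hdn cl ch hcl hA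
  have hC : Cyl k X.prim := (hc l k K z X).1
  have hK : KuF l K z := hk l hl.out K z X.prim
  have hKK : KkF X := hkk l k K z X
  have hcop : ∀ p, Nat.Coprime (nrm (dn p)) (l * (l - 1)) := fun p =>
    hT _ ((hdn.iff _).1 ⟨p, rfl⟩)
  have hcopl : ∀ p, Nat.Coprime (nrm (dn p)) l := fun p => Nat.Coprime.coprime_mul_right_right
    (hcop p)
  choose g hg using fun p => (hd l k K z X).ex (dn p) (F.pl p) (hdn.ov p)
  choose τ' κ h1 _ h3 using fun p => htau l k K z X (dn p) (F.pl p) (g p) (t.tau (dn p))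
    (t.phi (dn p)) (hdn.ov p) (hcop p) (t.tm (dn p)) (hg p)
  -- the values at the tame generators
  have tauv : ∀ h : Gm k → ZMod l, HomL h → ∀ p, h (t.tau (dn p)) = κ p * (cl h).2 p := by
    intro h hh p
    obtain ⟨c, hc⟩ := hKK.ex h hh
    rw [← ptb_conj hh (g p) (t.tau (dn p)), ← h1 p, hc, h3 p c, hcl h c hh hc, hco.ord c p]
  have hnrm : ∀ p, F.sys.rg p ↔ (nrm (dn p) : ZMod l) = 1 := fun p =>
    (hdn.rg p).trans (hrg l k K z X.prim hC (dn p) (F.pl p) (hdn.ov p) (hcopl p)).1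
  have hphiex : ∀ p, ∃ φ' : Gm K, F.sys.rg p → X.Th φ' = g p * t.phi (dn p) * (g p)⁻¹ ∧
      ∀ c : Kˣ, ord (F.pl p) (c : K) = 0 →
        chl l z (c : K) φ' = lgs l z (F.pl p) (c : K) := by
    intro p
    by_cases hp : F.sys.rg p
    · obtain ⟨φ', e1, -, e2⟩ := hphi l k K z X (dn p) (F.pl p) (g p) (t.tau (dn p))
        (t.phi (dn p)) (hdn.ov p) (hcop p) (t.tm (dn p)) (hg p) ((hnrm p).1 hp)
      exact ⟨φ', fun _ => ⟨e1, e2⟩⟩
    · exact ⟨1, fun h => absurd h hp⟩
  choose φ' hφ' using hphiex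
  have hccn : ∀ p, G.cc (F.pl p) ≠ 0 := fun p => G.cc_ne _
  refine ⟨κ, fun p => (G.cc (F.pl p))⁻¹, fun p => chl l z (F.pi p : K) (φ' p), ?_, ?_, ?_, ?_,
    fun h hh p _ => tauv h hh p, ?_, ?_⟩
  · intro p hp
    exact hkap l k K z X (dn p) (F.pl p) (g p) (t.tau (dn p)) (t.phi (dn p)) (hdn.ov p) (hcop p)
      (t.tm (dn p)) (hg p) ((hnrm p).1 hp) (τ' p) (κ p) (h1 p) (h3 p)
  · intro δ p hp
    have e1 := tauv (ch p) (hA.ch_hom p) p
    have e2 := tauv (ch p) (hA.ch_hom p) (F.sys.ac δ p)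
    rw [← (hdn.eq p (F.sys.ac δ p)).2 ⟨δ, rfl⟩, e1, hA.ac _ (hA.ch_hom p) δ p] at e2
    have e3 : (cl (ch p)).2 p = 1 := by
      rw [hA.cl_ch p]
      show (∑ g, Finsupp.single (F.sys.ac g p) (((F.sys.e g)⁻¹ : (ZMod l)ˣ) : ZMod l)) p = 1
      rw [Finsupp.finsetSum_apply, Finset.sum_eq_single (1 : F.sys.D)]
      · rw [F.sys.ac_one, Finsupp.single_eq_same, map_one, inv_one, Units.val_one]
      · intro b _ hb
        exact Finsupp.single_eq_of_ne fun h => hb (hp b h.symm)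
      · intro h
        exact absurd (Finset.mem_univ _) h
    rw [e3, mul_one, mul_one] at e2
    rw [e2, mul_comm (κ (F.sys.ac δ p)), ← mul_assoc, ← Units.val_mul, mul_inv_cancel,
      Units.val_one, one_mul]
  · intro p
    exact inv_ne_zero (hccn p)
  · intro δ p
    show (G.cc (F.pl (F.sys.ac δ p)))⁻¹ = (G.cc (F.pl p))⁻¹
    rw [F.ac_eq, F.cc_ac _ _ ((F.pl_iff _).1 ⟨p, rfl⟩)]
  · intro h hh' p hp
    exact (hh l k (dn p) (t.tau (dn p)) (t.phi (dn p)) (hcopl p) (t.tm (dn p)) h hh').1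
      fun h2 => hp ((hnrm p).2 h2)
  · intro h hh p hp
    obtain ⟨c, hc⟩ := hKK.ex h hh
    obtain ⟨e1, e2⟩ := hφ' p hp
    set m : ℤ := ord (F.pl p) (c : K) with hm
    have hord : ord (F.pl p) ((c * (F.pi p) ^ (-m) : Kˣ) : K) = 0 := by
      rw [Units.val_mul, Pool.Agent.H98.MF.ord_mul _ c.ne_zero (Units.ne_zero _),
        ptb_ord_zpow, F.pi_self, mul_one, ← hm, add_neg_cancel]
    have e3 : chl l z (c : K) (φ' p) =
        chl l z ((c * (F.pi p) ^ (-m) : Kˣ) : K) (φ' p) +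
          (m : ZMod l) * chl l z (F.pi p : K) (φ' p) := by
      rw [hK.mul, ptb_zpow (fun a : Kˣ => chl l z (a : K) (φ' p)) (fun a b => hK.mul a b _)
        (F.pi p) (-m), zsmul_eq_mul]
      push_cast
      ring
    have e4 : F.sys.ex (co (c * (F.pi p) ^ (-m))) p = F.sys.ex (co c) p := by
      rw [hco.mul, ptb_zpow co hco.mul, hco.pi]
      unfold SysL.ex
      have e5 : (co c + -m • ((0 : F.sys.T), Finsupp.single p (1 : ZMod l))).2 =
          (co c).2 + Finsupp.single p (((-m : ℤ)) : ZMod l) := by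
        rw [Prod.snd_add, Prod.smul_snd, Finsupp.smul_single, zsmul_eq_mul, mul_one]
      have e6 : (co c + -m • ((0 : F.sys.T), Finsupp.single p (1 : ZMod l))).1 = (co c).1 := by
        rw [Prod.fst_add, Prod.smul_fst, smul_zero, add_zero]
      rw [e5, e6, Finsupp.sum_add_index' (fun _ => zero_mul _) (fun _ _ _ => add_mul _ _ _),
        Finsupp.sum_single_index (zero_mul _), F.s_self, mul_zero, add_zero]
    have e7 := hco.ex (c * (F.pi p) ^ (-m)) p hord
    rw [e4] at e7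
    show h (t.phi (dn p)) = (G.cc (F.pl p))⁻¹ * F.sys.ex (cl h) p +
      chl l z (F.pi p : K) (φ' p) * (cl h).2 p
    rw [← ptb_conj hh (g p) (t.phi (dn p)), ← e1, hc, e3, e2 _ hord, hcl h c hh hc, e7,
      hco.ord c p, ← mul_assoc, inv_mul_cancel₀ (hccn p), one_mul, mul_comm (m : ZMod l)]

end Pool.Agent.H92.EL
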