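import Pool.Agent.H92.EL.BStm
import Pool.Agent.H98.MF.C.Bas

/-!
# Project ELL (MP_a3214d), block B, row BL25: the local components at the exceptional primes
-/

set_option autoImplicit false

open scoped BigOperators Pointwise
open NumberField IsDedekindDomain

namespace Pool.Agent.H92.EL

open Pool.Agent.H98.MF (Om Gm ord Dec US PrS SUn mS nrm gen cj)

section

variable {l : ℕ} [Fact l.Prime]

omit [Fact l.Prime] in
private theorem blc_mem {M : Type} [CommGroup M] {H : Subgroup M} {a : M} :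
    a ∈ pw l H ↔ ∃ b ∈ H, b ^ l = a := by
  unfold pw
  rw [Subgroup.mem_map]
  rfl

private theorem blc_xpow {M : Type} [CommGroup M] (x : M) {n m : ℕ}
    (h : (n : ZMod l) = (m : ZMod l)) : x ^ n / x ^ m ∈ pw l (⊤ : Subgroup M) := by
  obtain ⟨c, hc⟩ := (ZMod.intCast_zmod_eq_zero_iff_dvd ((n : ℤ) - m) l).1 (by
    push_cast
    rw [h, sub_self])
  refine blc_mem.2 ⟨x ^ c, Subgroup.mem_top _, ?_⟩
  rw [← zpow_natCast x n, ← zpow_natCast x m, div_eq_mul_inv, ← zpow_sub, hc,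
    mul_comm (l : ℤ) c, zpow_mul, zpow_natCast]

private theorem blc_e1 {M : Type} [CommGroup M] (r s t q q' : M) :
    (r * s / q * (q / q') * (t / s))⁻¹ = q' / (r * t) := by
  have h : ∀ (A : Type) [AddCommGroup A] (r s t q q' : A),
      -(r + s - q + (q - q') + (t - s)) = q' - (r + t) := fun A _ r s t q q' => by abel
  exact h (Additive M) r s t q q'

private theorem blc_e2 {M : Type} [CommGroup M] (c r s q : M) :
    c * s * (c / r * (s / q))⁻¹ = r * q := by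
  have h : ∀ (A : Type) [AddCommGroup A] (c r s q : A),
      c + s + -(c - r + (s - q)) = r + q := fun A _ c r s q => by abel
  exact h (Additive M) c r s q

private theorem blc_add {M : Type} [CommGroup M] {m : ℕ} (w : Fin m → M)
    (s t : Fin m → ZMod l) :
    (∏ j, w j ^ ((s + t) j).val) / ((∏ j, w j ^ (s j).val) * ∏ j, w j ^ (t j).val) ∈
      pw l (⊤ : Subgroup M) := by
  rw [← Finset.prod_mul_distrib, ← Finset.prod_div_distrib]
  refine Subgroup.prod_mem _ fun j _ => ?_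
  rw [← pow_add]
  refine blc_xpow _ ?_
  rw [Nat.cast_add, ZMod.natCast_zmod_val, ZMod.natCast_zmod_val, ZMod.natCast_zmod_val,
    Pi.add_apply]

private theorem blc_smul {M : Type} [CommGroup M] {m : ℕ} (w : Fin m → M)
    (c : ZMod l) (t : Fin m → ZMod l) :
    (∏ j, w j ^ (c * t j).val) / (∏ j, w j ^ (t j).val) ^ c.val ∈ pw l (⊤ : Subgroup M) := by
  rw [← Finset.prod_pow, ← Finset.prod_div_distrib]
  refine Subgroup.prod_mem _ fun j _ => ?_
  rw [← pow_mul]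
  refine blc_xpow _ ?_
  rw [Nat.cast_mul, ZMod.natCast_zmod_val, ZMod.natCast_zmod_val, ZMod.natCast_zmod_val, mul_comm]

variable {K : Type} [Field K] [NumberField K] {z : K}

private theorem blc_pwW {a : Kˣ} (ha : a ∈ pw l (⊤ : Subgroup Kˣ))
    (P : HeightOneSpectrum (𝓞 K)) : a ∈ WS l P := by
  obtain ⟨b, -, rfl⟩ := blc_mem.1 ha
  refine Subgroup.subset_closure ?_
  intro n
  refine ⟨(b : K)⁻¹, Or.inl ?_⟩
  rw [Units.val_pow_eq_pow_val, inv_pow]
  exact mul_inv_cancel₀ (pow_ne_zero _ b.ne_zero)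

omit [Fact l.Prime] in
private theorem blc_KW {S : Finset (HeightOneSpectrum (𝓞 K))} {a : Kˣ} :
    a ∈ KW l S ↔ ∀ P ∈ S, a ∈ WS l P := by
  unfold KW
  simp only [Subgroup.mem_iInf]

private theorem blc_pwK {a : Kˣ} (ha : a ∈ pw l (⊤ : Subgroup Kˣ))
    (S : Finset (HeightOneSpectrum (𝓞 K))) : a ∈ KW l S :=
  blc_KW.2 fun P _ => blc_pwW ha P

private theorem blc_div (ku : KuF l K z) (a b : Kˣ) (σ : Gm K) :
    chl l z ((a / b : Kˣ) : K) σ = chl l z (a : K) σ - chl l z (b : K) σ := by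
  have h := ku.mul (a / b) b σ
  rw [div_mul_cancel] at h
  rw [h, add_sub_cancel_right]

/-- an element with exponents divisible by `l` outside `S` -/
private theorem blc_unit {S : Finset (HeightOneSpectrum (𝓞 K))} (hS : PrS S) (x : Kˣ)
    (h : ∀ Q, Q ∉ S → (l : ℤ) ∣ ord Q (x : K)) : ∃ u ∈ US S, x / u ∈ pw l (⊤ : Subgroup Kˣ) := by
  classical
  have hl0 : (l : ℤ) ≠ 0 := by
    have : l.Prime := Fact.out
    exact_mod_cast this.ne_zero
  set T := (Pool.Agent.H98.MF.B.ord_finite (x : K) x.ne_zero).toFinset.filter fun Q => Q ∉ S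
    with hT
  have h1 := Pool.Agent.H98.MF.B.exists_unit_mul hS x T (fun Q hQ hQT => by
    by_contra hne
    exact hQT (Finset.mem_filter.2 ⟨(Set.Finite.mem_toFinset _).2 hne, hQ⟩))
    (fun Q hQ => (Finset.mem_filter.1 hQ).2)
  refine ⟨_, h1, blc_mem.2 ⟨∏ Q ∈ T, gen S Q ^ (ord Q (x : K) / l), Subgroup.mem_top _, ?_⟩⟩
  have h2 : (∏ Q ∈ T, gen S Q ^ (ord Q (x : K) / l)) ^ l = ∏ Q ∈ T, gen S Q ^ (ord Q (x : K)) := by
    rw [← Finset.prod_pow]
    refine Finset.prod_congr rfl fun Q hQ => ?_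
    rw [← zpow_natCast, ← zpow_mul, Int.ediv_mul_cancel (h Q (Finset.mem_filter.1 hQ).2)]
  rw [h2]
  simp

end

section

variable {l : ℕ} {k : Type} [Field k] [NumberField k]

omit [NumberField k] in
private theorem blc_conj {h : Gm k → ZMod l} (hh : HomL h) (g x : Gm k) :
    h (g⁻¹ * x * g) = h x := by
  have h1 : h 1 = 0 := by
    have := hh.add 1 1
    rw [mul_one] at this
    exact left_eq_add.1 this
  have h2 : h g⁻¹ + h g = 0 := by
    rw [← hh.add, inv_mul_cancel, h1]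
  rw [hh.add, hh.add, add_right_comm, h2, zero_add]

end

/-- Row BL25 -/
theorem sptc (hk : SKu) (hone : SOne) (hmem : SMem) (hc : SCyl) (hd : SDcF) (hkk : SKk)
    (he : SPrE) (hl : SLoh) (h1 : SK1) (h3 : SK3) (hp : SPrk) : SPtC := by
  intro l _ k K _ _ _ _ _ z X G T F co hco cl ch hcl hA
  have hlp : l.Prime := Fact.out
  obtain ⟨hcyl, -⟩ := hc l k K z X
  have := hcyl.gal
  have ku := hk l hlp K z X.prim
  have kk := hkk l k K z X
  have dc := hd l k K z X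
  obtain ⟨e1, e2, -, e4, e5⟩ := he l k K z X.prim hcyl
  obtain ⟨e6, e7, e8⟩ := e5 T F.S F.ovr
  obtain ⟨p1, p2⟩ := hp k K
  have s3 := h3 k K
  have hW : ∀ (P : HeightOneSpectrum (𝓞 K)) (a : Kˣ), a ∈ WS l P ↔
      ∀ σ ∈ Dec P, chl l z (a : K) σ = 0 := fun P a =>
    (hmem l hlp K P a).trans ((hone l hlp K z X.prim P).1 a).symm
  -- the projection
  have pr1 : prE k X.prim 1 = 1 := by
    have h := e2 1 1
    rw [mul_one] at h
    exact left_eq_mul.1 h
  have prd : ∀ a b : Kˣ, prE k X.prim (a / b) = prE k X.prim a / prE k X.prim b := fun a b => by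
    rw [eq_div_iff_mul_eq', ← e2, div_mul_cancel]
  have prp : ∀ (a : Kˣ) (n : ℕ), prE k X.prim (a ^ n) = prE k X.prim a ^ n := fun a n => by
    induction n with
    | zero => rw [pow_zero, pow_zero, pr1]
    | succ n ih => rw [pow_succ, e2, ih, pow_succ]
  have prw : ∀ a ∈ pw l (⊤ : Subgroup Kˣ), prE k X.prim a ∈ pw l (⊤ : Subgroup Kˣ) := by
    intro a ha
    obtain ⟨b, -, rfl⟩ := blc_mem.1 ha
    exact blc_mem.2 ⟨prE k X.prim b, Subgroup.mem_top _, (prp b l).symm⟩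
  -- homomorphisms with the same class
  have heq : ∀ (h h' : Gm k → ZMod l) (c c' : Kˣ), HomL h → HomL h' → X.Is h c → X.Is h' c' →
      c / c' ∈ pw l (⊤ : Subgroup Kˣ) → ∀ σ, h σ = h' σ := by
    intro h h' c c' hh hh' hi hi' hd σ
    have hz := (ku.zero _).2 hd
    have h9 := kk.un (fun σ => h σ - h' σ) ⟨hh.lc.sub hh'.lc, fun σ τ => by
      show h (σ * τ) - h' (σ * τ) = h σ - h' σ + (h τ - h' τ)
      rw [hh.add, hh'.add]
      ring⟩ (fun σ => by
        show h (X.Th σ) - h' (X.Th σ) = 0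
        rw [hi σ, hi' σ, ← blc_div ku, hz σ]) σ
    exact sub_eq_zero.1 h9
  obtain ⟨lam, hlam⟩ : ∃ lam : F.sys.T → Gm k → ZMod l, ∀ t, HomL (lam t) ∧
      X.Is (lam t) (prE k X.prim (∏ j, F.w j ^ (t j).val)) := by
    choose lam h using fun t : F.sys.T => kk.surj (prE k X.prim (∏ j, F.w j ^ (t j).val)) (e1 _)
    exact ⟨lam, h⟩
  refine ⟨lam, ⟨fun t => (hlam t).1, ?_, ?_, ?_, ?_⟩⟩
  · -- additivity
    intro t t'
    refine heq _ (fun σ => lam t σ + lam t' σ) _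
      (prE k X.prim (∏ j, F.w j ^ (t j).val) * prE k X.prim (∏ j, F.w j ^ (t' j).val))
      (hlam (t + t')).1 ⟨(hlam t).1.lc.add (hlam t').1.lc, fun σ τ => by
        show lam t (σ * τ) + lam t' (σ * τ) = lam t σ + lam t' σ + (lam t τ + lam t' τ)
        rw [(hlam t).1.add, (hlam t').1.add]
        ring⟩ (hlam (t + t')).2 (fun σ => by
          show lam t (X.Th σ) + lam t' (X.Th σ) = _
          rw [(hlam t).2 σ, (hlam t').2 σ, ku.mul]) ?_
    rw [← e2, ← prd]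
    exact prw _ (blc_add F.w t t')
  · -- the homomorphisms of the primes
    intro p v hv σ hσ
    obtain ⟨c, hc1, hc2⟩ := hA.ch_is p
    obtain ⟨Q, hQ⟩ := p2 v
    obtain ⟨g, hg⟩ := dc.ex v Q hQ
    have hQS : Q ∈ F.S := (F.ovr Q).2 ⟨v, hv, hQ⟩
    have h5 : c / prE k X.prim (∏ j, F.w j ^ (F.sys.ty p j).val) ∈ WS l Q := by
      have h6 := mul_mem (blc_pwW hc2 Q) (blc_KW.1 (e7 _ (F.loc p)) Q hQS)
      rwa [prd, div_mul_div_cancel] at h6
    have h7 := (hl l k K z X v).2 (fun σ => ch p σ - lam (F.sys.ty p) σ) (fun σ _ τ _ => by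
      show ch p (σ * τ) - lam (F.sys.ty p) (σ * τ) =
        ch p σ - lam (F.sys.ty p) σ + (ch p τ - lam (F.sys.ty p) τ)
      rw [(hA.ch_hom p).add, (hlam _).1.add]
      ring) Q g hg (fun σ hσ => by
        show ch p (g⁻¹ * X.Th σ * g) - lam (F.sys.ty p) (g⁻¹ * X.Th σ * g) = 0
        rw [blc_conj (hA.ch_hom p), blc_conj (hlam _).1, hc1 σ, (hlam _).2 σ, ← blc_div ku]
        exact (hW Q _).1 h5 σ hσ) σ hσ
    exact sub_eq_zero.1 h7
  · -- local components
    intro c hcv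
    obtain ⟨Γ, hΓ⟩ : ∃ Γ : HeightOneSpectrum (𝓞 k) → HeightOneSpectrum (𝓞 K) → Kˣ,
        ∀ v ∈ T, (∀ (Q : HeightOneSpectrum (𝓞 K)) (g : Gm k), X.Tp v Q g → ∀ σ ∈ Dec Q,
          c v (g⁻¹ * X.Th σ * g) = chl l z (Γ v Q : K) σ) ∧
        ∀ (δ : K ≃ₐ[k] K) (Q : HeightOneSpectrum (𝓞 K)), OvP v Q →
          uD δ (Γ v Q) / Γ v (dP δ Q) ^ ((cyK k X.prim δ : (ZMod l)ˣ) : ZMod l).val ∈
            WS l (dP δ Q) := by
      have h5 : ∀ v : HeightOneSpectrum (𝓞 k), ∃ γ : HeightOneSpectrum (𝓞 K) → Kˣ, v ∈ T →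
          (∀ (Q : HeightOneSpectrum (𝓞 K)) (g : Gm k), X.Tp v Q g → ∀ σ ∈ Dec Q,
            c v (g⁻¹ * X.Th σ * g) = chl l z (γ Q : K) σ) ∧
          ∀ (δ : K ≃ₐ[k] K) (Q : HeightOneSpectrum (𝓞 K)), OvP v Q →
            uD δ (γ Q) / γ (dP δ Q) ^ ((cyK k X.prim δ : (ZMod l)ˣ) : ZMod l).val ∈
              WS l (dP δ Q) := by
        intro v
        by_cases hv : v ∈ T
        · obtain ⟨γ, hγ⟩ := (hl l k K z X v).1 (c v) (hcv v hv).1 (hcv v hv).2
          exact ⟨γ, fun _ => hγ⟩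
        · exact ⟨fun _ => 1, fun h => absurd h hv⟩
      choose Γ hΓ using h5
      exact ⟨Γ, hΓ⟩
    choose bl hbl hblu using p1
    have hbT : ∀ Q ∈ F.S, bl Q ∈ T := by
      intro Q hQ
      obtain ⟨P, hP, hPQ⟩ := (F.ovr Q).1 hQ
      have h5 : P = bl Q := hblu Q P hPQ
      rwa [h5] at hP
    have hbd : ∀ (δ : K ≃ₐ[k] K) (Q : HeightOneSpectrum (𝓞 K)), bl (dP δ Q) = bl Q := by
      intro δ Q
      have h5 : OvP (bl Q) (dP δ Q) := (s3 (bl Q) Q _ (hbl Q)).2 ⟨δ, rfl⟩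
      exact (hblu (dP δ Q) (bl Q) h5).symm
    obtain ⟨x, y, hxy⟩ := F.gen fun Q => Γ (bl Q) Q
    have h8 := e8 (fun Q => Γ (bl Q) Q)
      ((∏ j, F.u j ^ (x j).val) * ∏ j, F.w j ^ (y j).val) (fun Q hQ => by
        have h9 := inv_mem (hxy Q hQ)
        rwa [inv_div] at h9) (fun δ Q hQ => by
        show uD δ (Γ (bl Q) Q) / Γ (bl (dP δ Q)) (dP δ Q) ^ _ ∈ _
        rw [hbd]
        exact (hΓ (bl Q) (hbT Q hQ)).2 δ Q (hbl Q))
    generalize hA' : (∏ j, F.u j ^ (x j).val) = A at h8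
    have hAU : A ∈ US F.S := by
      rw [← hA']
      exact Subgroup.prod_mem _ fun j _ => pow_mem (F.u_mem j) _
    obtain ⟨h, hh, hi⟩ := kk.surj
      (prE k X.prim (A ^ ((Nat.card (K ≃ₐ[k] K) : ZMod l)⁻¹).val)) (e1 _)
    refine ⟨h, fun j => (Nat.card (K ≃ₐ[k] K) : ZMod l)⁻¹ * y j, hh, ?_, ?_⟩
    · rw [hcl h _ hh hi]
      exact hco.unit _ (e6 _ (pow_mem hAU _))
    · intro v hv σ hσ
      obtain ⟨Q, hQ⟩ := p2 v
      obtain ⟨g, hg⟩ := dc.ex v Q hQ
      have hQS : Q ∈ F.S := (F.ovr Q).2 ⟨v, hv, hQ⟩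
      have hbv : bl Q = v := (hblu Q v hQ).symm
      have h9 := h8 Q hQS
      simp only [hbv] at h9
      have hm : ((Nat.card (K ≃ₐ[k] K) : ZMod l)⁻¹).val * Nat.card (K ≃ₐ[k] K) =
          ((1 : ℕ) : ZMod l) := by
        rw [ZMod.natCast_zmod_val, inv_mul_cancel₀ e4, Nat.cast_one]
      have h10 : Γ v Q / (prE k X.prim (A ^ ((Nat.card (K ≃ₐ[k] K) : ZMod l)⁻¹).val) *
          prE k X.prim (∏ j, F.w j ^ ((Nat.card (K ≃ₐ[k] K) : ZMod l)⁻¹ * y j).val)) ∈
          WS l Q := by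
        generalize ((Nat.card (K ≃ₐ[k] K) : ZMod l)⁻¹) = m at hm ⊢
        generalize Nat.card (K ≃ₐ[k] K) = n at hm h9 ⊢
        have a1 : prE k X.prim (∏ j, F.w j ^ (m * y j).val) /
            prE k X.prim (∏ j, F.w j ^ (y j).val) ^ m.val ∈ WS l Q := by
          rw [← prp, ← prd]
          exact blc_pwW (prw _ (blc_smul F.w m y)) Q
        have a2 : Γ v Q ^ (m.val * n) / Γ v Q ^ 1 ∈ WS l Q :=
          blc_pwW (blc_xpow _ (by rw [Nat.cast_mul]; exact hm)) Q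
        have a3 := pow_mem h9 m.val
        rw [e2, div_pow, mul_pow, ← pow_mul, mul_comm n] at a3
        rw [pow_one] at a2
        have a4 := inv_mem (mul_mem (mul_mem a3 a2) a1)
        rw [prp]
        rwa [blc_e1] at a4
      have h11 := (hl l k K z X v).2 (fun σ => c v σ - h σ -
        lam (fun j => (Nat.card (K ≃ₐ[k] K) : ZMod l)⁻¹ * y j) σ) (fun σ hσ τ hτ => by
          show c v (σ * τ) - h (σ * τ) - lam _ (σ * τ) = c v σ - h σ - lam _ σ +
            (c v τ - h τ - lam _ τ)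
          rw [(hcv v hv).2 σ hσ τ hτ, hh.add, (hlam _).1.add]
          ring) Q g hg (fun σ hσ => by
            show c v (g⁻¹ * X.Th σ * g) - h (g⁻¹ * X.Th σ * g) - lam _ (g⁻¹ * X.Th σ * g) = 0
            rw [blc_conj hh, blc_conj (hlam _).1, hi σ, (hlam _).2 σ,
              (hΓ v hv).1 Q g hg σ hσ, sub_sub, ← ku.mul, ← blc_div ku]
            exact (hW Q _).1 h10 σ hσ) σ hσ
      have h12 : c v σ - h σ - lam (fun j => (Nat.card (K ≃ₐ[k] K) : ZMod l)⁻¹ * y j) σ = 0 := h11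
      rw [sub_sub] at h12
      exact sub_eq_zero.1 h12
  · -- uniqueness
    intro h t hh h0 hT
    obtain ⟨c, hi⟩ := kk.ex h hh
    rw [hcl h c hh hi] at h0
    obtain ⟨u0, hu0, hcu⟩ := blc_unit (l := l) F.adm.prS c (fun Q hQ => by
      obtain ⟨p, rfl⟩ := (F.pl_iff Q).2 hQ
      have h5 := hco.ord c p
      rw [h0, Finsupp.zero_apply] at h5
      exact (ZMod.intCast_zmod_eq_zero_iff_dvd _ l).1 h5.symm)
    obtain ⟨x, hx⟩ := F.u_gen u0 hu0
    have hcx : c / ∏ j, F.u j ^ (x j).val ∈ pw l (⊤ : Subgroup Kˣ) := by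
      have h5 : u0 / ∏ j, F.u j ^ (x j).val ∈ pw l (⊤ : Subgroup Kˣ) := by
        obtain ⟨b, -, hb⟩ := blc_mem.1 hx
        exact blc_mem.2 ⟨b, Subgroup.mem_top _, hb⟩
      have h6 := mul_mem hcu h5
      rwa [div_mul_div_cancel] at h6
    -- the local classes
    have h7 : c * prE k X.prim (∏ j, F.w j ^ (t j).val) ∈ KW l F.S := by
      refine blc_KW.2 fun Q hQ => (hW Q _).2 fun σ hσ => ?_
      obtain ⟨v, hv, hvQ⟩ := (F.ovr Q).1 hQ
      obtain ⟨g, hg⟩ := dc.ex v Q hvQ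
      have h8 := (dc.cd v Q g hg σ).1 hσ
      have h9 := hT v hv _ h8
      rw [blc_conj hh, blc_conj (hlam _).1, hi σ, (hlam _).2 σ] at h9
      rw [ku.mul, h9]
    -- the subgroup of the complement
    have hmulW : ∀ a b : Kˣ, (∃ y : Fin F.sys.m → ZMod l, a / ∏ j, F.w j ^ (y j).val ∈ KW l F.S) →
        (∃ y : Fin F.sys.m → ZMod l, b / ∏ j, F.w j ^ (y j).val ∈ KW l F.S) →
        ∃ y : Fin F.sys.m → ZMod l, (a * b) / ∏ j, F.w j ^ (y j).val ∈ KW l F.S := by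
      rintro a b ⟨y, hy⟩ ⟨y', hy'⟩
      refine ⟨y + y', ?_⟩
      have h8 := inv_mem (blc_pwK (blc_add F.w y y') F.S)
      have h9 := mul_mem (mul_mem hy hy') h8
      rw [inv_div, div_mul_div_comm, div_mul_div_cancel] at h9
      exact h9
    have hoW : ∃ y : Fin F.sys.m → ZMod l, (1 : Kˣ) / ∏ j, F.w j ^ (y j).val ∈ KW l F.S := by
      refine ⟨0, ?_⟩
      simp only [Pi.zero_apply, ZMod.val_zero, pow_zero, Finset.prod_const_one, div_one]
      exact one_mem _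
    have hpW : ∀ (a : Kˣ) (n : ℕ),
        (∃ y : Fin F.sys.m → ZMod l, a / ∏ j, F.w j ^ (y j).val ∈ KW l F.S) →
        ∃ y : Fin F.sys.m → ZMod l, (a ^ n) / ∏ j, F.w j ^ (y j).val ∈ KW l F.S := by
      intro a n ha
      induction n with
      | zero =>
        rw [pow_zero]
        exact hoW
      | succ n ih =>
        rw [pow_succ]
        exact hmulW _ _ ih ha
    have hprW : ∀ {ι : Type} (s : Finset ι) (f : ι → Kˣ),
        (∀ i ∈ s, ∃ y : Fin F.sys.m → ZMod l, f i / ∏ j, F.w j ^ (y j).val ∈ KW l F.S) →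
        ∃ y : Fin F.sys.m → ZMod l, (∏ i ∈ s, f i) / ∏ j, F.w j ^ (y j).val ∈ KW l F.S := by
      intro ι s f hf
      classical
      induction s using Finset.induction_on with
      | empty =>
        rw [Finset.prod_empty]
        exact hoW
      | insert i s hi ih =>
        rw [Finset.prod_insert hi]
        exact hmulW _ _ (hf i (Finset.mem_insert_self _ _))
          (ih fun j hj => hf j (Finset.mem_insert_of_mem hj))
    obtain ⟨y, hy⟩ : ∃ y : Fin F.sys.m → ZMod l,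
        prE k X.prim (∏ j, F.w j ^ (t j).val) / ∏ j, F.w j ^ (y j).val ∈ KW l F.S := by
      unfold prE
      refine hprW _ _ fun δ _ => hpW _ _ ?_
      rw [map_prod]
      refine hprW _ _ fun j _ => ?_
      rw [map_pow]
      refine hpW _ _ ?_
      obtain ⟨c', hc'⟩ := F.w_ac (F.dg.symm δ) j
      rw [MulEquiv.apply_symm_apply] at hc'
      exact ⟨c', hc'⟩
    have h8 : (∏ j, F.u j ^ (x j).val) * ∏ j, F.w j ^ (y j).val ∈ KW l F.S := by
      have h9 := mul_mem h7 (inv_mem (mul_mem (blc_pwK hcx F.S) hy))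
      rwa [blc_e2] at h9
    obtain ⟨hx0, -⟩ := F.ind x y h8
    have h9 : c ∈ pw l (⊤ : Subgroup Kˣ) := by
      rw [hx0] at hcx
      simpa only [Pi.zero_apply, ZMod.val_zero, pow_zero, Finset.prod_const_one, div_one]
        using hcx
    exact kk.un h hh fun σ => by rw [hi σ, (ku.zero c).2 h9 σ]

end Pool.Agent.H92.EL
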