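import Pool.Agent.H92.EL.BStm

/-!
# Project ELL (MP_a3214d), block B, row BL4: restriction of automorphisms to `K`
-/

set_option autoImplicit false

open scoped BigOperators Pointwise
open NumberField IsDedekindDomain

namespace Pool.Agent.H92.EL

open Pool.Agent.H98.MF (Om Gm ord Dec top US PrS SUn mS nrm gen cj)

section

variable {l : ℕ} {k K : Type} [Field k] [NumberField k] [Field K] [NumberField K]
  [Algebra k K] {z : K}

/-- the embedding of `K` as a ring homomorphism -/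
noncomputable def blrs_f (X : CyX l k K z) : K →+* Om k :=
  (X.j : Om K →+* Om k).comp (algebraMap K (Om K))

theorem blrs_f_apply (X : CyX l k K z) (x : K) : blrs_f X x = X.jK x := rfl

theorem blrs_inj (X : CyX l k K z) : Function.Injective X.jK := (blrs_f X).injective

theorem blrs_map (X : CyX l k K z) (x : k) :
    blrs_f X (algebraMap k K x) = algebraMap k (Om k) x := X.j_alg x

theorem blrs_one (X : CyX l k K z) (g : Gm k) : X.Rs g 1 ↔ g ∈ X.Th.range := by
  constructor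
  · intro h
    have hc : ∀ x : K, (X.j.trans ((g : Om k ≃+* Om k).trans X.j.symm)) (algebraMap K (Om K) x) =
        algebraMap K (Om K) x := by
      intro x
      have h1 : g (X.j (algebraMap K (Om K) x)) = X.j (algebraMap K (Om K) x) := h x
      show X.j.symm (g (X.j (algebraMap K (Om K) x))) = algebraMap K (Om K) x
      rw [h1, RingEquiv.symm_apply_apply]
    refine ⟨AlgEquiv.ofRingEquiv (f := X.j.trans ((g : Om k ≃+* Om k).trans X.j.symm)) hc, ?_⟩
    ext y
    obtain ⟨w, rfl⟩ := X.j.surjective y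
    rw [X.Th_apply]
    show X.j (X.j.symm (g (X.j w))) = g (X.j w)
    rw [RingEquiv.apply_symm_apply]
  · rintro ⟨σ, rfl⟩ x
    show X.Th σ (X.j (algebraMap K (Om K) x)) = X.j (algebraMap K (Om K) x)
    rw [X.Th_apply]
    congr 1
    exact σ.commutes x

theorem blrs_cy [Fact l.Prime] (X : CyX l k K z) (g : Gm k) (δ : K ≃ₐ[k] K) (h : X.Rs g δ)
    (y : Om k) (hy : y ^ l = 1) :
    g y = y ^ ((cyK k X.prim δ : (ZMod l)ˣ) : ZMod l).val := by
  have hl0 : NeZero l := ⟨(Fact.out : l.Prime).ne_zero⟩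
  have hp : IsPrimitiveRoot (X.jK z) l := X.prim.map_of_injective (f := blrs_f X) (blrs_inj X)
  obtain ⟨i, -, rfl⟩ := hp.eq_pow_of_pow_eq_one hy
  have h5 : z ^ ((cyK k X.prim δ : (ZMod l)ˣ) : ZMod l).val = δ z :=
    X.prim.autToPow_spec k δ
  rw [map_pow, h z, ← h5, ← blrs_f_apply, map_pow, blrs_f_apply, ← pow_mul, ← pow_mul, mul_comm]

theorem blrs_cj [Fact l.Prime] (X : CyX l k K z) (hK : KuF l K z) (g : Gm k) (δ : K ≃ₐ[k] K)
    (h : X.Rs g δ) (σ σ' : Gm K) (hs : X.Th σ' = g * X.Th σ * g⁻¹) (c : Kˣ) :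
    chl l z ((uD δ c : Kˣ) : K) σ' = (cyK k X.prim δ : (ZMod l)ˣ) * chl l z (c : K) σ := by
  have hl0 : NeZero l := ⟨(Fact.out : l.Prime).ne_zero⟩
  have hpos : 0 < l := (Fact.out : l.Prime).pos
  obtain ⟨y, hy⟩ := IsAlgClosed.exists_pow_nat_eq (algebraMap K (Om K) (c : K)) hpos
  -- the conjugate root
  obtain ⟨w, hw⟩ := X.j.surjective (g (X.j y))
  have hwl : w ^ l = algebraMap K (Om K) ((uD δ c : Kˣ) : K) := by
    apply X.j.injective
    rw [map_pow, hw, ← map_pow, ← map_pow, hy]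
    exact h (c : K)
  have hw0 : w ≠ 0 := by
    intro h0
    rw [h0, zero_pow hpos.ne'] at hwl
    exact (uD δ c).ne_zero ((map_eq_zero (algebraMap K (Om K))).1 hwl.symm)
  have h1 := hK.root (uD δ c) w hwl σ'
  have h2 := hK.root c y hy σ
  have h5 : z ^ ((cyK k X.prim δ : (ZMod l)ˣ) : ZMod l).val = δ z :=
    X.prim.autToPow_spec k δ
  have h3 : σ' w = algebraMap K (Om K) z ^ (((cyK k X.prim δ : (ZMod l)ˣ) : ZMod l).val *
      (chl l z (c : K) σ).val) * w := by
    apply X.j.injective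
    rw [← X.Th_apply, hs, hw]
    show g (X.Th σ (g⁻¹ (g (X.j y)))) = _
    have h6 : g⁻¹ (g (X.j y)) = X.j y := g.symm_apply_apply (X.j y)
    rw [h6, X.Th_apply, h2, map_mul, map_mul, map_pow, map_pow, map_mul, map_pow, ← hw, pow_mul]
    congr 2
    have h7 : g (X.j (algebraMap K (Om K) z)) = X.jK (δ z) := h z
    rw [h7, ← h5, ← blrs_f_apply, map_pow]
    rfl
  rw [h1] at h3
  have h4 := mul_right_cancel₀ hw0 h3
  rw [← map_pow, ← map_pow] at h4
  have h8 := (algebraMap K (Om K)).injective h4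
  have hz0 : z ≠ 0 := X.prim.ne_zero hpos.ne'
  have h8' : (Units.mk0 z hz0) ^ (chl l z ((uD δ c : Kˣ) : K) σ').val =
      (Units.mk0 z hz0) ^ (((cyK k X.prim δ : (ZMod l)ˣ) : ZMod l).val *
        (chl l z (c : K) σ).val) := by
    apply Units.ext
    rw [Units.val_pow_eq_pow_val, Units.val_pow_eq_pow_val, Units.val_mk0]
    exact h8
  have h9 := pow_eq_pow_iff_modEq.1 h8'
  rw [← orderOf_units, Units.val_mk0, ← X.prim.eq_orderOf] at h9
  have h10 := (ZMod.natCast_eq_natCast_iff _ _ _).2 h9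
  rw [Nat.cast_mul, ZMod.natCast_zmod_val, ZMod.natCast_zmod_val, ZMod.natCast_zmod_val] at h10
  exact h10

/-- BL4: restriction of automorphisms to `K` -/
theorem srsf (h : SCyl) : SRsF := by
  intro l hl k K _ _ _ _ _ z X hK
  obtain ⟨hC, -, -, -⟩ := h l k K z X
  have hG : IsGalois k K := hC.gal
  let _ : Algebra K (Om k) := (blrs_f X).toAlgebra
  have hT : IsScalarTower k K (Om k) :=
    IsScalarTower.of_algebraMap_eq fun x => (blrs_map X x).symm
  refine ⟨?_, ?_, ?_, blrs_one X, ?_, blrs_cy X, ?_⟩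
  · intro g
    refine ⟨AlgEquiv.restrictNormal g K, fun x => ?_⟩
    exact (AlgEquiv.restrictNormal_commutes g K x).symm
  · intro δ
    refine ⟨AlgEquiv.liftNormal δ (Om k), fun x => ?_⟩
    exact AlgEquiv.liftNormal_commutes δ (Om k) x
  · intro g δ δ' h1 h2
    ext x
    apply blrs_inj X
    rw [← h1 x, ← h2 x]
  · intro g g' δ δ' h1 h2 x
    show g (g' (X.jK x)) = X.jK (δ (δ' x))
    rw [h2 x, h1]
  · intro g δ h1 σ σ' h2 c
    exact blrs_cj X hK g δ h1 σ σ' h2 c

end

end Pool.Agent.H92.EL
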