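import Pool.Agent.H92.EL.BStm
import Pool.Agent.H98.MF.L.Ord
import Pool.Agent.H98.MF.L.Top

/-!
# Project ELL (MP_a3214d), block B: the tame generator in the Galois group of `K`
-/

set_option autoImplicit false

open scoped BigOperators Pointwise
open NumberField IsDedekindDomain

namespace Pool.Agent.H92.EL

open Pool.Agent.H98.MF

section

variable {F : Type} [Field F] [NumberField F]

/-- a nontrivial `l`-th root of unity congruent to one -/
theorem bt_l_mem {l : ℕ} (P : HeightOneSpectrum (𝓞 F)) {w : 𝓞 (Om F)} (h1 : w ^ l = 1)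
    (h2 : w ≠ 1) (h3 : w - 1 ∈ top P) : ((l : ℕ) : 𝓞 (Om F)) ∈ top P := by
  have h4 : (∑ i ∈ Finset.range l, w ^ i) * (w - 1) = 0 := by
    rw [geom_sum_mul, h1, sub_self]
  have h5 : ∑ i ∈ Finset.range l, w ^ i = 0 :=
    (mul_eq_zero.1 h4).resolve_right (sub_ne_zero.2 h2)
  have h6 : ((l : ℕ) : 𝓞 (Om F)) = - ∑ i ∈ Finset.range l, (w ^ i - 1) := by
    rw [Finset.sum_sub_distrib, h5, Finset.sum_const, Finset.card_range, nsmul_eq_mul, mul_one]
    ring
  rw [h6]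
  refine neg_mem (Ideal.sum_mem _ fun i _ => ?_)
  have h7 : w - 1 ∣ w ^ i - 1 := by
    have := sub_dvd_pow_sub_pow w 1 i
    rwa [one_pow] at this
  exact Ideal.mem_of_dvd _ h7 h3

theorem bt_cop {l : ℕ} (P : HeightOneSpectrum (𝓞 F)) (h : Nat.Coprime (nrm P) l) :
    ((l : ℕ) : 𝓞 F) ∉ P.asIdeal := by
  intro h1
  have h2 : ((nrm P : ℕ) : 𝓞 F) ∈ P.asIdeal := Ideal.absNorm_mem P.asIdeal
  have h3 : IsCoprime ((nrm P : ℕ) : ℤ) (l : ℤ) := Nat.isCoprime_iff_coprime.2 h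
  obtain ⟨a, b, hab⟩ := h3
  have h4 : (a : 𝓞 F) * ((nrm P : ℕ) : 𝓞 F) + (b : 𝓞 F) * ((l : ℕ) : 𝓞 F) = 1 := by
    exact_mod_cast congrArg (Int.cast : ℤ → 𝓞 F) hab
  apply P.isPrime.ne_top
  rw [Ideal.eq_top_iff_one, ← h4]
  exact Ideal.add_mem _ (Ideal.mul_mem_left _ _ h2) (Ideal.mul_mem_left _ _ h1)

theorem bt_eq_one {l : ℕ} (P : HeightOneSpectrum (𝓞 F)) (hl : ((l : ℕ) : 𝓞 F) ∉ P.asIdeal)
    {w : 𝓞 (Om F)} (h1 : w ^ l = 1) (h3 : w - 1 ∈ top P) : w = 1 := by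
  by_contra h2
  have h4 := bt_l_mem P h1 h2 h3
  apply hl
  rw [← top_comap P, Ideal.mem_comap, map_natCast]
  exact h4

end

section

variable {l : ℕ} [Fact l.Prime] {k K : Type} [Field k] [NumberField k] [Field K] [NumberField K]
  [Algebra k K] {z : K}

/-- the root of unity as an integer -/
theorem bt_zO (X : CyX l k K z) : ∃ w : 𝓞 (Om K), (w : Om K) = algebraMap K (Om K) z ∧
    w ^ l = 1 := by
  have hl : 0 < l := (Fact.out : l.Prime).pos
  have h1 : (algebraMap K (Om K) z) ^ l = 1 := by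
    rw [← map_pow, X.prim.pow_eq_one, map_one]
  have h2 : IsIntegral ℤ (algebraMap K (Om K) z) := by
    refine IsIntegral.of_pow hl ?_
    rw [h1]
    exact isIntegral_one
  refine ⟨⟨algebraMap K (Om K) z, h2⟩, rfl, ?_⟩
  apply RingOfIntegers.coe_injective
  rw [map_pow, map_one]
  exact h1

theorem bt_jO (X : CyX l k K z) (x : 𝓞 (Om K)) : ((X.jO x : 𝓞 (Om k)) : Om k) = X.j (x : Om K) :=
  rfl

theorem bt_smul_coe (σ : Gm k) (x : 𝓞 (Om k)) : ((σ • x : 𝓞 (Om k)) : Om k) = σ (x : Om k) := rfl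

theorem bt_smul_jO (X : CyX l k K z) (σ : Gm K) (x : 𝓞 (Om K)) :
    X.Th σ • X.jO x = X.jO (σ • x) := by
  apply RingOfIntegers.coe_injective
  exact X.Th_apply σ (x : Om K)

/-- the tame generator fixes the root of unity -/
theorem bt_range (X : CyX l k K z) (hT : ThF X) (hm : STme) (p : HeightOneSpectrum (𝓞 k))
    (τ φ : Gm k) (hc : Nat.Coprime (nrm p) (l * (l - 1))) (ht : IsTM p τ φ) :
    τ ∈ X.Th.range := by
  obtain ⟨w, hw, hwl⟩ := bt_zO X
  have h1 : Tme p (X.jO w) := (hm l k K z X p hc).2 w 1 (by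
    have := congrArg (fun x : 𝓞 (Om K) => (x : Om K)) hwl
    simpa using this)
  have h2 := ht.ine (X.jO w) h1
  have hl0 : 0 < l := (Fact.out : l.Prime).pos
  have h3 : (X.jO w) ^ l = 1 := by rw [← map_pow, hwl, map_one]
  have h4 : (τ • X.jO w * (X.jO w) ^ (l - 1)) ^ l = 1 := by
    rw [mul_pow, ← smul_pow', h3, ← pow_mul, mul_comm (l - 1) l, pow_mul, h3, one_pow, mul_one,
      smul_one]
  have h5 : (τ • X.jO w * (X.jO w) ^ (l - 1)) - 1 = (X.jO w) ^ (l - 1) * (τ • X.jO w - X.jO w) := by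
    have h6 : (X.jO w) ^ (l - 1) * X.jO w = 1 := by rw [pow_sub_one_mul hl0.ne', h3]
    rw [mul_sub, h6, mul_comm]
  have h6 := bt_eq_one p (bt_cop p (Nat.Coprime.coprime_mul_right_right hc)) h4 (by
    rw [h5]
    exact Ideal.mul_mem_left _ _ h2)
  have h7 : τ • X.jO w = X.jO w := by
    have h8 : (X.jO w) ^ (l - 1) * X.jO w = 1 := by rw [pow_sub_one_mul hl0.ne', h3]
    calc τ • X.jO w = τ • X.jO w * ((X.jO w) ^ (l - 1) * X.jO w) := by rw [h8, mul_one]
      _ = (τ • X.jO w * (X.jO w) ^ (l - 1)) * X.jO w := by ring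
      _ = X.jO w := by rw [h6, one_mul]
  rw [hT.rngz]
  have h9 := congrArg (fun x : 𝓞 (Om k) => (x : Om k)) h7
  have h10 : τ (X.j (w : Om K)) = X.j (w : Om K) := h9
  rw [hw] at h10
  exact h10

/-- the Kummer character of a unit at the tame generator -/
theorem bt_unit (X : CyX l k K z) (hK : KuF l K z) (hm : STme) (p : HeightOneSpectrum (𝓞 k))
    (Q : HeightOneSpectrum (𝓞 K)) (g τ φ : Gm k) (ho : OvP p Q)
    (hc : Nat.Coprime (nrm p) (l * (l - 1))) (ht : IsTM p τ φ) (hTp : X.Tp p Q g) (τ' : Gm K)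
    (hτ : X.Th τ' = g * τ * g⁻¹) (c : Kˣ) (h0 : ord Q (c : K) = 0) :
    chl l z (c : K) τ' = 0 := by
  have hl0 : 0 < l := (Fact.out : l.Prime).pos
  have hQp := top_prime Q
  have hQQ : Q.asIdeal.IsPrime := Q.isPrime
  have hlQ : ((l : ℕ) : 𝓞 K) ∉ Q.asIdeal := by
    intro h1
    apply bt_cop p (Nat.Coprime.coprime_mul_right_right hc)
    rw [← ho, Ideal.mem_comap, map_natCast]
    exact h1
  obtain ⟨x, y, hy, hxy⟩ := (ord_nonneg_iff Q (c : K)).1 h0.ge
  have hy0 : (y : K) ≠ 0 := by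
    intro h
    have : y = 0 := by exact_mod_cast h
    exact hy (this ▸ Q.asIdeal.zero_mem)
  have hx : x ∉ Q.asIdeal := by
    intro h
    have h1 := (le_ord_iff Q x 1).2 (by rwa [pow_one])
    have h2 : ord Q (x : K) = 0 := by
      rw [← hxy, ord_mul Q c.ne_zero hy0, h0, ord_unit Q hy, add_zero]
    rcases h1 with h1 | h1
    · rw [h1] at hxy
      have h3 : (c : K) * (y : K) = 0 := by
        rw [hxy]
        simp
      exact (mul_ne_zero c.ne_zero hy0) h3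
    · rw [h2] at h1
      norm_num at h1
  -- the root
  set yU : Kˣ := Units.mk0 (y : K) hy0 with hyU
  set c0 : Kˣ := c * yU ^ l with hc0
  have hc0v : (c0 : K) = ((x * y ^ (l - 1) : 𝓞 K) : K) := by
    rw [hc0, Units.val_mul, Units.val_pow_eq_pow_val, hyU, Units.val_mk0]
    have e1 : ((x * y ^ (l - 1) : 𝓞 K) : K) = (x : K) * (y : K) ^ (l - 1) := by
      change algebraMap (𝓞 K) K (x * y ^ (l - 1)) =
        algebraMap (𝓞 K) K x * algebraMap (𝓞 K) K y ^ (l - 1)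
      rw [map_mul, map_pow]
    rw [e1, ← hxy, mul_assoc, ← pow_succ', Nat.sub_add_cancel hl0]
  obtain ⟨Y, hY⟩ := IsAlgClosed.exists_pow_nat_eq (algebraMap K (Om K) (c0 : K)) hl0
  have hYi : IsIntegral ℤ Y := by
    refine IsIntegral.of_pow hl0 ?_
    rw [hY, hc0v]
    exact map_isIntegral_int (algebraMap K (Om K)) (RingOfIntegers.isIntegral_coe _)
  obtain ⟨YO, hYO⟩ : ∃ YO : 𝓞 (Om K), (YO : Om K) = Y := ⟨⟨Y, hYi⟩, rfl⟩
  have hYl : YO ^ l = algebraMap (𝓞 K) (𝓞 (Om K)) (x * y ^ (l - 1)) := by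
    apply RingOfIntegers.coe_injective
    rw [map_pow]
    show (YO : Om K) ^ l = algebraMap K (Om K) ((x * y ^ (l - 1) : 𝓞 K) : K)
    rw [hYO, hY, hc0v]
  have hYQ : YO ∉ top Q := by
    intro h
    have h1 : YO ^ l ∈ top Q := Ideal.pow_mem_of_mem _ h l hl0
    rw [hYl] at h1
    have h2 : x * y ^ (l - 1) ∈ Q.asIdeal := by
      rw [← top_comap Q, Ideal.mem_comap]
      exact h1
    rcases hQQ.mem_or_mem h2 with h3 | h3
    · exact hx h3
    · exact hy (hQQ.mem_of_pow_mem _ h3)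
  -- the tame generator
  have h1 : Tme p (X.jO YO) := (hm l k K z X p hc).2 YO c0 (by rw [hYO, hY])
  have h2 : Tme p (g⁻¹ • X.jO YO) := by
    obtain ⟨U, hU, hfix⟩ := h1
    refine ⟨U, hU, fun σ hσ => ?_⟩
    have h3 := hfix (g * σ * g⁻¹) (hU.nor.conj_mem σ hσ g)
    calc σ • g⁻¹ • X.jO YO = g⁻¹ • (g * σ * g⁻¹) • X.jO YO := by
          rw [smul_smul, smul_smul]
          congr 1
          group
      _ = g⁻¹ • X.jO YO := by rw [h3]
  have h3 := ht.ine _ h2
  have h4 : τ • g⁻¹ • X.jO YO - g⁻¹ • X.jO YO = g⁻¹ • X.jO (τ' • YO - YO) := by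
    rw [map_sub, smul_sub, ← bt_smul_jO, hτ, smul_smul, smul_smul]
    congr 2
    group
  rw [h4, ← hTp] at h3
  obtain ⟨w, hw, hwl⟩ := bt_zO X
  have hroot := hK.root c0 Y hY τ'
  have h5 : τ' • YO = w ^ (chl l z (c0 : K) τ').val * YO := by
    apply RingOfIntegers.coe_injective
    rw [map_mul, map_pow]
    show τ' (YO : Om K) = (w : Om K) ^ (chl l z (c0 : K) τ').val * (YO : Om K)
    rw [hYO, hw]
    exact hroot
  have h6 : w ^ (chl l z (c0 : K) τ').val - 1 ∈ top Q := by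
    have h7 : (w ^ (chl l z (c0 : K) τ').val - 1) * YO ∈ top Q := by
      rw [sub_mul, one_mul, ← h5]
      exact h3
    exact (hQp.mem_or_mem h7).resolve_right hYQ
  have h7 := bt_eq_one Q hlQ (by rw [← pow_mul, mul_comm, pow_mul, hwl, one_pow]) h6
  have h8 : z ^ (chl l z (c0 : K) τ').val = 1 := by
    apply (algebraMap K (Om K)).injective
    rw [map_pow, map_one, ← hw]
    have := congrArg (fun x : 𝓞 (Om K) => (x : Om K)) h7
    simpa using this
  have h9 : chl l z (c0 : K) τ' = 0 := by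
    rw [← ZMod.val_eq_zero]
    have h10 := (X.prim.pow_eq_one_iff_dvd _).1 h8
    exact Nat.eq_zero_of_dvd_of_lt h10 (ZMod.val_lt _)
  -- remove the power
  let f : Kˣ →* Multiplicative (ZMod l) := MonoidHom.mk' (fun a =>
    Multiplicative.ofAdd (chl l z (a : K) τ')) (fun a b => by rw [hK.mul, ofAdd_add])
  have h10 : f c0 = 1 := by
    show Multiplicative.ofAdd (chl l z (c0 : K) τ') = 1
    rw [h9]
    rfl
  have h11 : f yU ^ l = 1 := by
    show Multiplicative.ofAdd (l • chl l z (yU : K) τ') = 1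
    rw [nsmul_eq_mul, CharP.cast_eq_zero, zero_mul]
    rfl
  rw [hc0, map_mul, map_pow, h11, mul_one] at h10
  exact h10

theorem bt_zpow_ord (Q : HeightOneSpectrum (𝓞 K)) (a : Kˣ) (n : ℤ) :
    ord Q ((a ^ n : Kˣ) : K) = n * ord Q (a : K) := by
  let f : Kˣ →* Multiplicative ℤ := MonoidHom.mk' (fun a =>
    Multiplicative.ofAdd (ord Q (a : K))) (fun a b => by
      rw [Units.val_mul, ord_mul Q a.ne_zero b.ne_zero, ofAdd_add])
  have h1 := map_zpow f a n
  have h2 : ord Q ((a ^ n : Kˣ) : K) = n • ord Q (a : K) := h1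
  rw [h2, smul_eq_mul]

end

theorem stau (hk : SKu) (ht : SThF) (hd : SDcF) (hm : STme) : STau := by
  intro l _ k K _ _ _ _ _ z X p Q g τ φ ho hc hτ hTp
  have hK := hk l Fact.out K z X.prim
  have hT := ht l k K z X
  have hD := hd l k K z X
  have h1 := bt_range X hT hm p τ φ hc hτ
  obtain ⟨τ', hτ'⟩ := hT.nor.conj_mem τ h1 g
  obtain ⟨π, hπ⟩ := exists_unif Q
  have hπ0 : (π : K) ≠ 0 := by
    intro h
    rw [h, ord_zero] at hπ
    norm_num at hπ
  set πU : Kˣ := Units.mk0 (π : K) hπ0 with hπU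
  refine ⟨τ', chl l z (πU : K) τ', hτ', ?_, fun c => ?_⟩
  · rw [hD.cd p Q g hTp τ', hτ']
    have h2 : g⁻¹ * (g * τ * g⁻¹) * g = τ := by group
    rw [h2]
    exact hτ.decτ
  · have h2 : ord Q ((c * πU ^ (-(ord Q (c : K))) : Kˣ) : K) = 0 := by
      rw [Units.val_mul, ord_mul Q c.ne_zero (Units.ne_zero _), bt_zpow_ord, hπU, Units.val_mk0,
        hπ]
      ring
    have h3 := bt_unit X hK hm p Q g τ φ ho hc hτ hTp τ' hτ' _ h2
    let f : Kˣ →* Multiplicative (ZMod l) := MonoidHom.mk' (fun a =>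
      Multiplicative.ofAdd (chl l z (a : K) τ')) (fun a b => by rw [hK.mul, ofAdd_add])
    have h4 : f (c * πU ^ (-(ord Q (c : K)))) = 1 := by
      show Multiplicative.ofAdd (chl l z _ τ') = 1
      rw [h3]
      rfl
    rw [map_mul, zpow_neg, map_inv, map_zpow, mul_inv_eq_one] at h4
    have h5 : chl l z (c : K) τ' = ord Q (c : K) • chl l z (πU : K) τ' := h4
    rw [h5, zsmul_eq_mul, mul_comm]

end Pool.Agent.H92.EL
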