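import Pool.Agent.H92.EL.BStm
import Pool.Agent.H98.MF.C.H0

/-!
# Project ELL (MP_a3214d), block B: the Galois group of `K` in that of `k`
-/

set_option autoImplicit false

open scoped BigOperators Pointwise Topology
open NumberField IsDedekindDomain Filter

namespace Pool.Agent.H92.EL

open Pool.Agent.H98.MF (Om Gm)
open Pool.Agent.H98.MF.B (loc_of_values)

section

variable {F : Type} [Field F] [NumberField F]

omit [NumberField F] in
private lemma bth_adj {S : Set (Om F)} {u : Gm F} (h : ∀ s ∈ S, u s = s) {z : Om F}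
    (hz : z ∈ IntermediateField.adjoin F S) : u z = z := by
  induction hz using IntermediateField.adjoin_induction with
  | mem x hx => exact h x hx
  | algebraMap x => exact u.commutes x
  | add x y _ _ hx hy => rw [map_add, hx, hy]
  | mul x y _ _ hx hy => rw [map_mul, hx, hy]
  | inv x _ hx => rw [map_inv₀, hx]

/-- the stabiliser of finitely many elements is open -/
private lemma bth_open (S : Finset (Om F)) : IsOpen {u : Gm F | ∀ s ∈ S, u s = s} := by
  have h := loc_of_values S (fun u : Gm F => ∀ s ∈ S, u s = s) fun σ τ h => by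
    refine propext ⟨fun h1 s hs => ?_, fun h1 s hs => ?_⟩
    · rw [← h s hs]
      exact h1 s hs
    · rw [h s hs]
      exact h1 s hs
  have h2 := h.isOpen_fiber True
  refine (congrArg IsOpen (Set.ext fun u => ?_)).mp h2
  show ((∀ s ∈ S, u s = s) = True) ↔ ∀ s ∈ S, u s = s
  rw [eq_iff_iff, iff_true]

/-- a neighbourhood of the identity contains such a stabiliser -/
private lemma bth_nhds {T : Set (Gm F)} (hT : T ∈ 𝓝 (1 : Gm F)) :
    ∃ S : Finset (Om F), {u : Gm F | ∀ s ∈ S, u s = s} ⊆ T := by
  obtain ⟨E, hE, hET⟩ := (krullTopology_mem_nhds_one_iff F (Om F) T).1 hT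
  obtain ⟨S, hS⟩ := E.fg_of_fg_toSubalgebra (Subalgebra.fg_of_fg_toSubmodule
    (Module.Finite.iff_fg.1 hE))
  refine ⟨S, fun u hu => hET ?_⟩
  show u ∈ E.fixingSubgroup
  rw [IntermediateField.mem_fixingSubgroup_iff]
  intro x hx
  rw [← hS] at hx
  exact bth_adj hu hx

end

section

variable {l : ℕ} [Fact l.Prime] {k K : Type} [Field k] [NumberField k] [Field K] [NumberField K]
  [Algebra k K] {z : K} (X : CyX l k K z)

/-- the embedding as a homomorphism of algebras -/
private noncomputable def bth_e : K →ₐ[k] Om k where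
  toFun := X.jK
  map_one' := by
    show X.j (algebraMap K (Om K) 1) = 1
    rw [map_one, map_one]
  map_mul' x y := by
    show X.j (algebraMap K (Om K) (x * y)) = _
    rw [map_mul, map_mul]
    rfl
  map_zero' := by
    show X.j (algebraMap K (Om K) 0) = 0
    rw [map_zero, map_zero]
  map_add' x y := by
    show X.j (algebraMap K (Om K) (x + y)) = _
    rw [map_add, map_add]
    rfl
  commutes' x := X.j_alg x

omit [Fact l.Prime] in
private theorem bth_ea (x : K) : bth_e X x = X.jK x := rfl

omit [Fact l.Prime] in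
private theorem bth_rng (g : Gm k) : g ∈ X.Th.range ↔ ∀ x : K, g (X.jK x) = X.jK x := by
  constructor
  · rintro ⟨σ, rfl⟩ x
    show X.Th σ (X.j _) = X.j _
    rw [X.Th_apply, σ.commutes]
  · intro h
    let σ : Gm K := AlgEquiv.ofRingEquiv
      (f := (X.j.trans (g : Om k ≃+* Om k)).trans X.j.symm) (fun c => by
        show X.j.symm (g (X.j (algebraMap K (Om K) c))) = algebraMap K (Om K) c
        have h1 : g (X.j (algebraMap K (Om K) c)) = X.j (algebraMap K (Om K) c) := h c
        rw [h1, RingEquiv.symm_apply_apply])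
    have hσ : ∀ x, σ x = X.j.symm (g (X.j x)) := fun x => rfl
    refine ⟨σ, AlgEquiv.ext fun y => ?_⟩
    obtain ⟨x, rfl⟩ := X.j.surjective y
    rw [X.Th_apply, hσ, RingEquiv.apply_symm_apply]

omit [Fact l.Prime] in
private theorem bth_rngz (g : Gm k) : g ∈ X.Th.range ↔ g (X.jK z) = X.jK z := by
  rw [bth_rng]
  constructor
  · exact fun h => h z
  · intro h x
    have hx : x ∈ IntermediateField.adjoin k ({z} : Set K) := by
      rw [X.gen]
      exact IntermediateField.mem_top
    show g (bth_e X x) = bth_e X x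
    induction hx using IntermediateField.adjoin_induction with
    | mem x hx =>
      rw [Set.mem_singleton_iff.1 hx]
      exact h
    | algebraMap x => rw [AlgHom.commutes, AlgEquiv.commutes]
    | add x y _ _ hx hy => rw [map_add, map_add, hx, hy]
    | mul x y _ _ hx hy => rw [map_mul, map_mul, hx, hy]
    | inv x _ hx => rw [map_inv₀, map_inv₀, hx]

private theorem bth_nor : X.Th.range.Normal := by
  refine ⟨fun h hh g => ?_⟩
  rw [bth_rngz] at hh ⊢
  have hl : 0 < l := (Fact.out : l.Prime).pos
  have hp : IsPrimitiveRoot (X.jK z) l := X.prim.map_of_injective (bth_e X).injective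
  have h1 : (g⁻¹ (X.jK z)) ^ l = 1 := by
    rw [← map_pow, hp.pow_eq_one, map_one]
  obtain ⟨i, -, hi⟩ := hp.eq_pow_of_pow_eq_one h1
  rw [AlgEquiv.mul_apply, AlgEquiv.mul_apply, ← hi, map_pow h, hh, hi, ← AlgEquiv.mul_apply,
    mul_inv_cancel, AlgEquiv.one_apply]

omit [Fact l.Prime] in
private theorem bth_idx : X.Th.range.index = Module.finrank k K := by
  haveI : FiniteDimensional k K := Module.Finite.of_restrictScalars_finite ℚ k K
  have h1 : ((⊤ : IntermediateField k K).map (bth_e X)).fixingSubgroup = X.Th.range := by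
    ext g
    rw [IntermediateField.mem_fixingSubgroup_iff, bth_rng]
    constructor
    · intro h x
      exact h _ ⟨x, IntermediateField.mem_top, rfl⟩
    · rintro h y ⟨x, -, rfl⟩
      exact h x
  have h2 : Module.finrank k ((⊤ : IntermediateField k K).map (bth_e X)) =
      Module.finrank k K := by
    rw [← (IntermediateField.equivMap (⊤ : IntermediateField k K)
      (bth_e X)).toLinearEquiv.finrank_eq]
    exact IntermediateField.finrank_top'
  rw [← h1, ← IntermediateField.finrank_eq_fixingSubgroup_index, h2]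

omit [Fact l.Prime] in
private theorem bth_inj : Function.Injective X.Th := by
  intro σ τ h
  refine AlgEquiv.ext fun x => X.j.injective ?_
  rw [← X.Th_apply, ← X.Th_apply, h]

omit [Fact l.Prime] in
private theorem bth_opn : IsOpen (X.Th.range : Set (Gm k)) := by
  refine (congrArg IsOpen (Set.ext fun g => ?_)).mp (bth_open ({X.jK z} : Finset (Om k)))
  show (∀ s ∈ ({X.jK z} : Finset (Om k)), g s = s) ↔ g ∈ X.Th.range
  rw [bth_rngz]
  exact ⟨fun h => h _ (Finset.mem_singleton_self _), fun h s hs => by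
    rw [Finset.mem_singleton.1 hs]
    exact h⟩

omit [Fact l.Prime] in
private theorem bth_cont : Continuous X.Th := by
  apply continuous_of_continuousAt_one X.Th
  rw [ContinuousAt, map_one]
  intro T hT
  obtain ⟨S, hS⟩ := bth_nhds hT
  classical
  have h1 : {u : Gm K | ∀ s ∈ S.image X.j.symm, u s = s} ∈ 𝓝 (1 : Gm K) :=
    (bth_open (S.image X.j.symm)).mem_nhds (fun s _ => rfl)
  rw [Filter.mem_map]
  refine Filter.mem_of_superset h1 ?_
  intro u hu
  apply hS
  intro s hs
  have h2 : u (X.j.symm s) = X.j.symm s := hu _ (Finset.mem_image_of_mem _ hs)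
  have h3 : X.Th u (X.j (X.j.symm s)) = X.j (u (X.j.symm s)) := X.Th_apply _ _
  rwa [h2, RingEquiv.apply_symm_apply] at h3

omit [Fact l.Prime] in
private theorem bth_ext (f : Gm K → ZMod l) (hf : IsLocallyConstant f) :
    ∃ F : Gm k → ZMod l, IsLocallyConstant F ∧ ∀ σ, F (X.Th σ) = f σ := by
  classical
  have hce : Topology.IsClosedEmbedding X.Th := (bth_cont X).isClosedEmbedding (bth_inj X)
  refine ⟨fun g => if h : ∃ σ, X.Th σ = g then f h.choose else 0, ?_, fun σ => ?_⟩
  · rw [IsLocallyConstant.iff_exists_open]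
    intro g
    by_cases hg : ∃ σ, X.Th σ = g
    · obtain ⟨σ, rfl⟩ := hg
      have hU : IsOpen (f ⁻¹' {f σ}) := hf.isOpen_fiber (f σ)
      obtain ⟨V, hV, hVU⟩ := hce.isInducing.isOpen_iff.1 hU
      have key : ∀ g' ∈ V, ∀ (h : ∃ τ, X.Th τ = g'), f h.choose = f σ := by
        intro g' hg' h
        have h1 : h.choose ∈ X.Th ⁻¹' V := by
          show X.Th h.choose ∈ V
          rw [h.choose_spec]
          exact hg'
        rw [hVU] at h1
        exact h1
      have hσV : X.Th σ ∈ V := by
        have h1 : σ ∈ X.Th ⁻¹' V := by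
          rw [hVU]
          exact rfl
        exact h1
      refine ⟨V ∩ (X.Th.range : Set (Gm k)), hV.inter (bth_opn X), ⟨hσV, ⟨σ, rfl⟩⟩, ?_⟩
      rintro g' ⟨h1, h2⟩
      have h3 : ∃ τ, X.Th τ = g' := h2
      have h4 : ∃ τ, X.Th τ = X.Th σ := ⟨σ, rfl⟩
      rw [dif_pos h3, dif_pos h4, key g' h1 h3, key _ hσV h4]
    · refine ⟨(X.Th.range : Set (Gm k))ᶜ, (X.Th.range.isClosed_of_isOpen (bth_opn X)).isOpen_compl,
        hg, fun g' hg' => ?_⟩
      have h1 : ¬ ∃ σ, X.Th σ = g' := hg'
      rw [dif_neg h1, dif_neg hg]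
  · have h1 : ∃ τ, X.Th τ = X.Th σ := ⟨σ, rfl⟩
    show (if h : ∃ τ, X.Th τ = X.Th σ then f h.choose else 0) = f σ
    rw [dif_pos h1, bth_inj X h1.choose_spec]

end

/-- row BL3 -/
theorem sthf (h : SCyl) : SThF := by
  intro l _ k K _ _ _ _ _ z X
  exact ⟨bth_inj X, bth_cont X, bth_rng X, bth_rngz X, bth_opn X, bth_nor X, bth_idx X,
    bth_ext X⟩

end Pool.Agent.H92.EL
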