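import Pool.Agent.H92.EL.BStm

/-!
# Project ELL (MP_a3214d), block B, row BL13: roots of elements of `K` are tame away from
`l (l - 1)`
-/

set_option autoImplicit false

open scoped BigOperators Pointwise
open NumberField IsDedekindDomain

namespace Pool.Agent.H92.EL

open Pool.Agent.H98.MF (Om Gm ord Dec top US PrS SUn mS nrm gen cj)

section

variable {l : ℕ} [hl : Fact l.Prime] {k K : Type} [Field k] [NumberField k] [Field K]
  [NumberField K] [Algebra k K] {z : K}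

theorem bltme_uD_mul (δ δ' : K ≃ₐ[k] K) (a : Kˣ) : uD (δ * δ') a = uD δ (uD δ' a) := rfl

theorem bltme_uD_one (a : Kˣ) : uD (1 : K ≃ₐ[k] K) a = a := by
  apply Units.ext
  rfl

/-- the characters of the conjugates of `c` -/
noncomputable def bltme_phi (k : Type) [Field k] [NumberField k] [Algebra k K]
    (hK : KuF l K z) (c : Kˣ) : Gm K →* Multiplicative ((K ≃ₐ[k] K) → ZMod l) :=
  MonoidHom.mk' (fun σ => Multiplicative.ofAdd fun δ => chl l z ((uD δ c : Kˣ) : K) σ)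
    (fun σ τ => by
      rw [← ofAdd_add]
      congr 1
      funext δ
      exact hK.hom (uD δ c) σ τ)

theorem bltme_mem (hK : KuF l K z) (c : Kˣ) (σ : Gm K) : σ ∈ (bltme_phi k hK c).ker ↔
    ∀ δ : K ≃ₐ[k] K, chl l z ((uD δ c : Kˣ) : K) σ = 0 := by
  rw [MonoidHom.mem_ker]
  constructor
  · intro h δ
    exact congrFun (congrArg Multiplicative.toAdd h) δ
  · intro h
    show Multiplicative.ofAdd (fun δ => chl l z ((uD δ c : Kˣ) : K) σ) = 1
    rw [funext h]
    rfl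

theorem bltme_key (hK : KuF l K z) (X : CyX l k K z) (hF : ThF X) (hR : RsF X)
    (hd : Module.finrank k K ∣ l - 1) (hn : Nat.card (K ≃ₐ[k] K) = Module.finrank k K)
    (p : HeightOneSpectrum (𝓞 k)) (hp : Nat.Coprime (nrm p) (l * (l - 1))) (c : Kˣ) :
    TmU p ((bltme_phi k hK c).ker.map X.Th) := by
  have hl1 : 0 < l - 1 := Nat.sub_pos_of_lt hl.out.one_lt
  have hfin : Finite (K ≃ₐ[k] K) := by
    apply Nat.finite_of_card_ne_zero
    rw [hn]
    exact (Nat.pos_of_dvd_of_pos hd hl1).ne'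
  refine ⟨⟨?_⟩, ?_, ?_⟩
  · rintro _ ⟨σ, hσ, rfl⟩ g
    obtain ⟨σ', hσ'⟩ := hF.nor.conj_mem (X.Th σ) ⟨σ, rfl⟩ g
    refine ⟨σ', ?_, hσ'⟩
    show σ' ∈ (bltme_phi k hK c).ker
    rw [bltme_mem]
    intro δ
    obtain ⟨δ', hδ'⟩ := hR.rs g
    have h1 := hR.cj g δ' hδ' σ σ' hσ' (uD (δ'⁻¹ * δ) c)
    have h2 : uD δ' (uD (δ'⁻¹ * δ) c) = uD δ c := by
      rw [← bltme_uD_mul, mul_inv_cancel_left]
    rw [h2, (bltme_mem hK c σ).1 hσ (δ'⁻¹ * δ), mul_zero] at h1
    exact h1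
  · have hex := fun δ : K ≃ₐ[k] K => hF.ext _ (hK.lc (uD δ c))
    choose F hF1 hF2 using hex
    have h3 : ((bltme_phi k hK c).ker.map X.Th : Set (Gm k)) =
        (X.Th.range : Set (Gm k)) ∩ ⋂ δ, F δ ⁻¹' {0} := by
      ext g
      constructor
      · rintro ⟨σ, hσ, rfl⟩
        refine ⟨⟨σ, rfl⟩, Set.mem_iInter.2 fun δ => ?_⟩
        show F δ (X.Th σ) = 0
        rw [hF2 δ σ]
        exact (bltme_mem hK c σ).1 hσ δ
      · rintro ⟨⟨σ, rfl⟩, hg⟩
        refine ⟨σ, (bltme_mem hK c σ).2 fun δ => ?_, rfl⟩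
        have h4 : F δ (X.Th σ) = 0 := Set.mem_iInter.1 hg δ
        rwa [hF2 δ σ] at h4
    rw [h3]
    exact hF.opn.inter (isOpen_iInter_of_finite fun δ => (hF1 δ).isOpen_fiber 0)
  · rw [Subgroup.index_map, (MonoidHom.ker_eq_bot_iff _).2 hF.inj, sup_bot_eq, hF.idx,
      Subgroup.index_ker]
    have h5 : Nat.card (bltme_phi k hK c).range ∣ l ^ Nat.card (K ≃ₐ[k] K) := by
      have h6 := Subgroup.card_subgroup_dvd_card (bltme_phi k hK c).range
      have h7 : Nat.card (Multiplicative ((K ≃ₐ[k] K) → ZMod l)) =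
          l ^ Nat.card (K ≃ₐ[k] K) := by
        rw [Nat.card_congr Multiplicative.toAdd, Nat.card_fun, Nat.card_zmod]
      rwa [h7] at h6
    have h8 : Nat.Coprime (nrm p) l := Nat.Coprime.coprime_mul_right_right hp
    have h9 : Nat.Coprime (nrm p) (l - 1) := Nat.Coprime.coprime_mul_left_right hp
    refine Nat.Coprime.mul_left ?_ ?_
    · exact (Nat.Coprime.pow_right _ h8).symm.coprime_dvd_left h5
    · exact h9.symm.coprime_dvd_left hd

end

theorem stme (hk : SKu) (hc : SCyl) (ht : SThF) (hr : SRsF) : STme := by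
  intro l hl k K _ _ _ _ _ z X p hp
  have hK := hk l hl.out K z X.prim
  have hF := ht l k K z X
  have hR := hr l k K z X hK
  obtain ⟨-, hd, hn, -⟩ := hc l k K z X
  refine ⟨fun c => ⟨_, bltme_key hK X hF hR hd hn p hp c, ?_, ?_⟩, fun y c hy => ?_⟩
  · rintro _ ⟨σ, -, rfl⟩
    exact ⟨σ, rfl⟩
  · intro σ hσ
    have h1 := (bltme_mem hK c σ).1 ((Subgroup.mem_map_iff_mem hF.inj).1 hσ) 1
    rwa [bltme_uD_one] at h1
  · refine ⟨_, bltme_key hK X hF hR hd hn p hp c, ?_⟩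
    rintro _ ⟨σ, hσ, rfl⟩
    have h1 := (bltme_mem hK c σ).1 hσ 1
    rw [bltme_uD_one] at h1
    have h2 := hK.root c (y : Om K) hy σ
    rw [h1, ZMod.val_zero, pow_zero, one_mul] at h2
    apply RingOfIntegers.coe_injective
    show X.Th σ (X.j (y : Om K)) = X.j (y : Om K)
    rw [X.Th_apply, h2]

end Pool.Agent.H92.EL
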