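import Pool.Agent.H92.EL.BStm

/-!
# Project T4 (MP_a3214d), block (B): bilinear cocycles that are coboundaries on a normal subgroup
of index prime to `l`
-/

set_option autoImplicit false

open scoped BigOperators

namespace Pool.Agent.H92.EL

section

variable {l : ℕ} {A : Type} [Group A] (H : Subgroup A) (c : A → A → ZMod l) (f : A → ZMod l)

/-- representatives -/
noncomputable def sxcR (q : A ⧸ H) : A := Quotient.out q

theorem sxcR_mk (q : A ⧸ H) : ((sxcR H q : A) : A ⧸ H) = q := Quotient.out_eq' q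

variable [H.Normal]

/-- the components of right multiplication -/
noncomputable def sxcH (q : A ⧸ H) (x : A) : A := sxcR H q * x * (sxcR H (q * (x : A ⧸ H)))⁻¹

theorem sxcH_mem (q : A ⧸ H) (x : A) : sxcH H q x ∈ H := by
  rw [← QuotientGroup.eq_one_iff]
  unfold sxcH
  rw [QuotientGroup.mk_mul, QuotientGroup.mk_mul, QuotientGroup.mk_inv, sxcR_mk, sxcR_mk,
    mul_inv_cancel]

theorem sxcH_mul (q : A ⧸ H) (x y : A) :
    sxcH H q (x * y) = sxcH H q x * sxcH H (q * (x : A ⧸ H)) y := by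
  unfold sxcH
  rw [QuotientGroup.mk_mul, ← mul_assoc q]
  group

theorem sxcH_r (q : A ⧸ H) (x : A) :
    sxcH H q x * sxcR H (q * (x : A ⧸ H)) = sxcR H q * x := by
  unfold sxcH
  rw [inv_mul_cancel_right]

/-- the terms of the transfer -/
noncomputable def sxcT (q : A ⧸ H) (x : A) : ZMod l :=
  f (sxcH H q x) + c (sxcH H q x) (sxcR H (q * (x : A ⧸ H))) - c (sxcR H q) x

theorem sxcT_mul (h1 : ∀ x y w, c (x * y) w = c x w + c y w)
    (h2 : ∀ x y w, c x (y * w) = c x y + c x w)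
    (hf : ∀ x ∈ H, ∀ y ∈ H, f (x * y) = f x + f y + c x y) (q : A ⧸ H) (x y : A) :
    sxcT H c f q (x * y) = sxcT H c f q x + sxcT H c f (q * (x : A ⧸ H)) y + c x y := by
  unfold sxcT
  have e1 := sxcH_r H q x
  have e2 := sxcH_r H (q * (x : A ⧸ H)) y
  have e3 : q * ((x * y : A) : A ⧸ H) = q * (x : A ⧸ H) * (y : A ⧸ H) := by
    rw [QuotientGroup.mk_mul, mul_assoc]
  rw [sxcH_mul, hf _ (sxcH_mem H q x) _ (sxcH_mem H _ y), e3, h2 (sxcR H q) x y,
    h1 (sxcH H q x) (sxcH H (q * (x : A ⧸ H)) y)]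
  have e4 : c (sxcH H q x) (sxcH H (q * (x : A ⧸ H)) y) +
      c (sxcH H q x) (sxcR H (q * (x : A ⧸ H) * (y : A ⧸ H))) =
      c (sxcH H q x) (sxcR H (q * (x : A ⧸ H))) + c (sxcH H q x) y := by
    rw [← h2, ← h2, e2]
  have e5 : c (sxcH H q x) y + c (sxcR H (q * (x : A ⧸ H))) y = c (sxcR H q) y + c x y := by
    rw [← h1, ← h1, e1]
  linear_combination e4 + e5

end

theorem sxc : SXc := by
  intro l _ A _ H hN hi c h1 h2 f hf
  have : H.Normal := hN
  have hi0 : H.index ≠ 0 := fun h => hi (by rw [h, Nat.cast_zero])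
  have : H.FiniteIndex := ⟨hi0⟩
  have : Finite (A ⧸ H) := Subgroup.finite_quotient_of_finiteIndex
  have : Fintype (A ⧸ H) := Fintype.ofFinite _
  have hcard : Fintype.card (A ⧸ H) = H.index := by
    rw [Subgroup.index, Nat.card_eq_fintype_card]
  refine ⟨fun x => ((H.index : ℕ) : ZMod l)⁻¹ * ∑ q : A ⧸ H, sxcT H c f q x,
    Fintype.card (A ⧸ H), fun i => sxcR H ((Fintype.equivFin (A ⧸ H)).symm i),
    ((H.index : ℕ) : ZMod l)⁻¹, fun x y => ?_, fun x hx => ?_⟩
  · have e1 : ∑ q : A ⧸ H, sxcT H c f q (x * y) =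
        ∑ q : A ⧸ H, sxcT H c f q x + ∑ q : A ⧸ H, sxcT H c f q y + H.index * c x y := by
      rw [Finset.sum_congr rfl fun q _ => sxcT_mul H c f h1 h2 hf q x y, Finset.sum_add_distrib,
        Finset.sum_add_distrib, Finset.sum_const, nsmul_eq_mul, Finset.card_univ, hcard]
      congr 2
      exact Equiv.sum_comp (Equiv.mulRight (x : A ⧸ H)) (fun q => sxcT H c f q y)
    change _ * _ = _ * _ + _ * _ + _
    rw [e1, mul_add, mul_add, inv_mul_cancel_left₀ hi]
  · change _ * _ = _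
    congr 1
    rw [← Equiv.sum_comp (Fintype.equivFin (A ⧸ H)).symm]
    refine Finset.sum_congr rfl fun i _ => ?_
    set q := (Fintype.equivFin (A ⧸ H)).symm i with hq
    have e1 : (x : A ⧸ H) = 1 := (QuotientGroup.eq_one_iff x).2 hx
    have e2 : sxcH H q x = sxcR H q * x * (sxcR H q)⁻¹ := by
      unfold sxcH
      rw [e1, mul_one]
    unfold sxcT
    rw [e2, e1, mul_one]
    have e3 : c (sxcR H q * x * (sxcR H q)⁻¹) (sxcR H q) = c x (sxcR H q) := by
      have e4 := h1 (sxcR H q * x * (sxcR H q)⁻¹) (sxcR H q) (sxcR H q)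
      rw [inv_mul_cancel_right, h1] at e4
      linear_combination -e4
    rw [e3]
    ring

end Pool.Agent.H92.EL
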