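import Pool.Agent.H92.EL.BStm

/-!
# Project ELL (MP_a3214d), block B: extension of invariant homomorphisms (transfer)
-/

set_option autoImplicit false

open scoped BigOperators Pointwise

namespace Pool.Agent.H92.EL

/-- the factor of `x` at the coset `q` -/
noncomputable def blxt_h {A : Type} [Group A] (H : Subgroup A) (x : A) (q : A ⧸ H) : A :=
  ((x • q).out)⁻¹ * x * q.out

theorem blxt_mem {A : Type} [Group A] (H : Subgroup A) (x : A) (q : A ⧸ H) :
    blxt_h H x q ∈ H := by
  unfold blxt_h
  rw [mul_assoc, ← QuotientGroup.eq, QuotientGroup.out_eq']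
  conv_lhs => rw [← QuotientGroup.out_eq' q]
  rfl

theorem blxt_mul {A : Type} [Group A] (H : Subgroup A) (x y : A) (q : A ⧸ H) :
    blxt_h H (x * y) q = blxt_h H x (y • q) * blxt_h H y q := by
  unfold blxt_h
  rw [mul_smul]
  group

theorem blxt_smul {A : Type} [Group A] (H : Subgroup A) [hn : H.Normal] (x : A) (hx : x ∈ H)
    (q : A ⧸ H) : x • q = q := by
  induction q using QuotientGroup.induction_on with
  | H g =>
    change ((x * g : A) : A ⧸ H) = ((g : A) : A ⧸ H)
    symm
    rw [QuotientGroup.eq]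
    have h1 : g⁻¹ * (x * g) = g⁻¹ * x * g⁻¹⁻¹ := by group
    rw [h1]
    exact hn.conj_mem _ hx g⁻¹

/-- extension of invariant homomorphisms from a normal subgroup of index prime to `l` -/
theorem sxt : SXt := by
  intro l _ A _ H hn hi
  have hi0 : H.index ≠ 0 := by
    intro h
    apply hi
    rw [h, Nat.cast_zero]
  have hfin : H.FiniteIndex := ⟨hi0⟩
  have hF : Finite (A ⧸ H) := inferInstance
  have hFt : Fintype (A ⧸ H) := Fintype.ofFinite _
  have hcard : Fintype.card (A ⧸ H) = H.index := by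
    rw [Fintype.card_eq_nat_card]
    rfl
  refine ⟨fun f hf hg => ?_, fun F hF h0 x => ?_⟩
  · refine ⟨fun x => ((H.index : ℕ) : ZMod l)⁻¹ * ∑ q : A ⧸ H, f (blxt_h H x q), ?_, ?_⟩
    · intro x y
      have h1 : ∑ q : A ⧸ H, f (blxt_h H (x * y) q) =
          ∑ q : A ⧸ H, f (blxt_h H x q) + ∑ q : A ⧸ H, f (blxt_h H y q) := by
        have h2 : ∑ q : A ⧸ H, f (blxt_h H x (y • q)) = ∑ q : A ⧸ H, f (blxt_h H x q) :=
          Equiv.sum_comp (MulAction.toPerm y) fun q => f (blxt_h H x q)
        rw [← h2, ← Finset.sum_add_distrib]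
        refine Finset.sum_congr rfl fun q _ => ?_
        rw [blxt_mul]
        exact hf _ (blxt_mem H x _) _ (blxt_mem H y q)
      change ((H.index : ℕ) : ZMod l)⁻¹ * ∑ q : A ⧸ H, f (blxt_h H (x * y) q) = _
      rw [h1, mul_add]
    · intro x hx
      have h1 : ∀ q : A ⧸ H, f (blxt_h H x q) = f x := by
        intro q
        unfold blxt_h
        rw [blxt_smul H x hx q]
        have h2 := hg (q.out)⁻¹ x hx
        rw [inv_inv] at h2
        exact h2
      change ((H.index : ℕ) : ZMod l)⁻¹ * ∑ q : A ⧸ H, f (blxt_h H x q) = f x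
      rw [Finset.sum_congr rfl fun q _ => h1 q, Finset.sum_const, Finset.card_univ, hcard,
        nsmul_eq_mul, ← mul_assoc, inv_mul_cancel₀ hi, one_mul]
  · have h1 : F 1 = 0 := h0 1 H.one_mem
    have h2 : ∀ n : ℕ, F (x ^ n) = (n : ZMod l) * F x := by
      intro n
      induction n with
      | zero => rw [pow_zero, h1, Nat.cast_zero, zero_mul]
      | succ n ih => rw [pow_succ, hF, ih, Nat.cast_succ, add_mul, one_mul]
    have h3 : x ^ H.index ∈ H := H.pow_index_mem x
    have h4 := h0 _ h3
    rw [h2] at h4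
    exact (mul_eq_zero.1 h4).resolve_left hi

end Pool.Agent.H92.EL
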