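import Pool.Agent.H92.EL.AAll
import Pool.Agent.H92.EL.BK1
import Pool.Agent.H92.EL.BK2
import Pool.Agent.H92.EL.BK3
import Pool.Agent.H92.EL.BK4
import Pool.Agent.H92.EL.BK5
import Pool.Agent.H92.EL.BK6
import Pool.Agent.H92.EL.BK7
import Pool.Agent.H92.EL.BK8
import Pool.Agent.H92.EL.BK9
import Pool.Agent.H92.EL.BK11
import Pool.Agent.H92.EL.BK12
import Pool.Agent.H92.EL.BK13
import Pool.Agent.H92.EL.BK14
import Pool.Agent.H92.EL.BK15
import Pool.Agent.H92.EL.BK16
import Pool.Agent.H92.EL.BK17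
import Pool.Agent.H92.EL.BK18
import Pool.Agent.H92.EL.BK19
import Pool.Agent.H92.EL.BK20
import Pool.Agent.H92.EL.BKFr
import Pool.Agent.H92.EL.BLCy
import Pool.Agent.H92.EL.BLCyl
import Pool.Agent.H92.EL.BLTh
import Pool.Agent.H92.EL.BLRs
import Pool.Agent.H92.EL.BLDc
import Pool.Agent.H92.EL.BLXt
import Pool.Agent.H92.EL.BLKk
import Pool.Agent.H92.EL.BLXc
import Pool.Agent.H92.EL.BLH2
import Pool.Agent.H92.EL.BLHp
import Pool.Agent.H92.EL.BLPr
import Pool.Agent.H92.EL.BLRg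
import Pool.Agent.H92.EL.BLTme
import Pool.Agent.H92.EL.BLTau
import Pool.Agent.H92.EL.BLPhi
import Pool.Agent.H92.EL.BLKap
import Pool.Agent.H92.EL.BLHtp
import Pool.Agent.H92.EL.BLCrt
import Pool.Agent.H92.EL.BLPrE
import Pool.Agent.H92.EL.BLCo
import Pool.Agent.H92.EL.BLLoh
import Pool.Agent.H92.EL.BLDn
import Pool.Agent.H92.EL.BLPtA
import Pool.Agent.H92.EL.BLPtB
import Pool.Agent.H92.EL.BLPtC
import Pool.Agent.H92.EL.BLFr
import Pool.Agent.H92.EL.BLFrJ

/-!
# Project ELL (MP_a3214d), block B: everything together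
-/

set_option autoImplicit false

open scoped BigOperators
open NumberField IsDedekindDomain

namespace Pool.Agent.H92.EL

theorem y_th : SThF := sthf scyl
theorem y_rs : SRsF := srsf scyl
theorem y_dc : SDcF := sdcf y_rs sku
theorem y_kk : SKk := skk sku scyl y_th y_rs sxt
theorem y_h2 : SH2 := sh2 scyl y_th sxc
theorem y_rg : SRgk := srgk sk1 sk3
theorem y_tme : STme := stme sku scyl y_th y_rs
theorem y_tau : STau := stau sku y_th y_dc y_tme
theorem y_phi : SPhi := sphi sku scyl slg y_th y_dc y_tme y_rg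
theorem y_kap : SKap := skap sku x_one slg y_th y_dc y_tme y_phi
theorem y_crt : SCrt := scrt scy sku x_ls slg scyl y_th y_dc y_kk sprk y_rg y_tau y_phi y_kap shtp
theorem y_pre : SPrE := spre sk1 sk3 smem
theorem y_co : SCo := sco slg smem
theorem y_loh : SLoh := sloh sku x_two x_one smem scyl y_th y_rs y_dc
theorem y_dn : SDn := sdn scyl sprk sk1 sk3
theorem y_pta : SPtA := spta sku scyl y_kk y_pre sk1
theorem y_ptb : SPtB := sptb sku scyl y_th y_dc y_kk y_rg y_tau y_phi y_kap shtp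
theorem y_ptc : SPtC := sptc sku x_one smem scyl y_dc y_kk y_pre y_loh sk1 sk3 sprk

theorem y_k4 : SK4 := sk4 sk1
theorem y_k6 : SK6 := sk6 sk1 y_k4 sk5
theorem y_k7 : SK7 := sk7 sk1 sk2 sk3 y_k6
theorem y_k9 : SK9 := sk9 sk1 sk3 sk8 x_ci
theorem y_k14 : SK14 := sk14 sk1
theorem y_k16 : SK16 := sk16 sk15
theorem y_k17 : SK17 := sk17 sk15 x_an
theorem y_k20 : SK20 := sk20 sk1

section

variable (hf : SC3f) (h10 : SK10)

/-- the Hasse principle over `k` -/
theorem y_hp (hf : SC3f) : SHpk :=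
  shpk scy sku y_th y_dc y_kk y_h2 sprk (x_gs hf) (x_gl hf)

theorem y_k12 (h10 : SK10) : SK12 := sk12 sk1 sk3 h10 sk11

theorem y_kfr (h10 : SK10) : SKFr :=
  skfr sk1 sk3 y_k7 y_k9 (y_k12 h10) sk13 y_k14 y_k16 y_k17 sk18 sk19 y_k20

/-- frames exist -/
theorem y_frl (hf : SC3f) (h10 : SK10) : SFrL :=
  sfrl scy scyl sku y_th y_rs sprk y_rg (x_gs hf) (x_gl hf) (y_kfr h10) y_co y_dn y_pta y_ptb
    y_ptc

/-- frames in the form of block D -/
theorem y_frI (hf : SC3f) (h10 : SK10) (l : ℕ) [Fact l.Prime] (hl : l ≠ 2) (k : Type) [Field k]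
    [NumberField k] (t : TM k) : SFrI k l t.tau t.phi := sfrI (y_frl hf h10) l hl k t

/-- local and global triviality -/
theorem y_hasK (hf : SC3f) (l : ℕ) [Fact l.Prime] (hl : l ≠ 2) (k : Type) [Field k]
    [NumberField k] (t : TM k) : HasK k l t.tau t.phi := hasK (y_hp hf) shtp l hl k t

end

end Pool.Agent.H92.EL
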