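import Pool.Agent.H92.EL.BKStm
import Pool.Agent.H92.EL.C2

/-!
# Project ELL (MP_a3214d), block B: bases of the `S`-units modulo `l`-th powers
-/

set_option autoImplicit false

open scoped BigOperators
open NumberField IsDedekindDomain

namespace Pool.Agent.H92.EL

open Pool.Agent.H98.MF (ord US mS)

/-- a basis of a space of cardinality `l ^ m` -/
theorem bk10_mod {l : ℕ} [Fact l.Prime] {V : Type} [AddCommGroup V] [Module (ZMod l) V] (m : ℕ)
    (hcard : Nat.card V = l ^ m) :
    ∃ b : Fin m → V, (∀ x, ∃ c : Fin m → ZMod l, ∑ j, (c j).val • b j = x) ∧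
      ∀ c : Fin m → ZMod l, ∑ j, (c j).val • b j = 0 → c = 0 := by
  classical
  have hfin : Finite V := Nat.finite_of_card_ne_zero (by
    rw [hcard]
    exact pow_ne_zero _ (Fact.out (p := l.Prime)).ne_zero)
  have hmf : Module.Finite (ZMod l) V := inferInstance
  have hfr : Module.finrank (ZMod l) V = m := by
    have h1 := Module.natCard_eq_pow_finrank (K := ZMod l) (V := V)
    rw [hcard, Nat.card_zmod] at h1
    exact (Nat.pow_right_injective (Fact.out (p := l.Prime)).two_le h1).symm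
  let b : Module.Basis (Fin m) (ZMod l) V := Module.finBasisOfFinrankEq (ZMod l) V hfr
  have key : ∀ (c : ZMod l) (x : V), c.val • x = c • x := by
    intro c x
    rw [← Nat.cast_smul_eq_nsmul (ZMod l), ZMod.natCast_zmod_val]
  refine ⟨fun j => b j, fun x => ⟨fun j => b.repr x j, ?_⟩, fun c hc => ?_⟩
  · simp only [key]
    exact b.sum_repr x
  · simp only [key] at hc
    funext j
    exact Fintype.linearIndependent_iff.1 b.linearIndependent c hc j

/-- a basis of a group of exponent `l` -/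
theorem bk10_abs {l : ℕ} [Fact l.Prime] {V : Type} [AddCommGroup V] (m : ℕ)
    (hex : ∀ x : V, l • x = 0) (hcard : Nat.card V = l ^ m) :
    ∃ b : Fin m → V, (∀ x, ∃ c : Fin m → ZMod l, ∑ j, (c j).val • b j = x) ∧
      ∀ c : Fin m → ZMod l, ∑ j, (c j).val • b j = 0 → c = 0 :=
  @bk10_mod l _ V _ (AddCommGroup.zmodModule hex) m hcard

/-- a basis of `H` modulo `l`-th powers -/
theorem bk10_basis {l : ℕ} [Fact l.Prime] {G : Type} [CommGroup G] (H : Subgroup G) (m : ℕ)
    (hi : (pw l H).relIndex H = l ^ m) :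
    ∃ u : Fin m → G, (∀ j, u j ∈ H) ∧
      (∀ a ∈ H, ∃ c : Fin m → ZMod l, a / ∏ j, u j ^ (c j).val ∈ pw l H) ∧
      ∀ c : Fin m → ZMod l, ∏ j, u j ^ (c j).val ∈ pw l H → c = 0 := by
  classical
  obtain ⟨N, hN⟩ : ∃ N : Subgroup H, N = (pw l H).subgroupOf H := ⟨_, rfl⟩
  have hex : ∀ x : Additive (H ⧸ N), l • x = 0 := by
    intro x
    obtain ⟨h, hh⟩ := QuotientGroup.mk_surjective (Additive.toMul x)
    have h1 : (Additive.toMul x) ^ l = 1 := by
      rw [← hh, ← QuotientGroup.mk_pow, QuotientGroup.eq_one_iff, hN, Subgroup.mem_subgroupOf]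
      exact ⟨(h : G), h.2, rfl⟩
    have h2 : Additive.toMul (l • x) = 1 := by
      rw [toMul_nsmul]
      exact h1
    exact h2
  have hcard : Nat.card (Additive (H ⧸ N)) = l ^ m := by
    rw [hN]
    exact hi
  obtain ⟨b, hb1, hb2⟩ := bk10_abs m hex hcard
  have hl : ∀ j, ∃ h : H, (QuotientGroup.mk h : H ⧸ N) = Additive.toMul (b j) := fun j =>
    QuotientGroup.mk_surjective _
  choose u hu using hl
  -- the class of a product
  have key : ∀ c : Fin m → ZMod l, (QuotientGroup.mk (∏ j, u j ^ (c j).val) : H ⧸ N) =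
      Additive.toMul (∑ j, (c j).val • b j) := by
    intro c
    rw [QuotientGroup.mk_prod, toMul_sum]
    refine Finset.prod_congr rfl fun j _ => ?_
    rw [QuotientGroup.mk_pow, hu, ← toMul_nsmul]
  have hco : ∀ c : Fin m → ZMod l,
      ((∏ j, u j ^ (c j).val : H) : G) = ∏ j, (u j : G) ^ (c j).val := by
    intro c
    rw [Subgroup.val_finsetProd]
    exact Finset.prod_congr rfl fun j _ => rfl
  refine ⟨fun j => (u j : G), fun j => (u j).2, ?_, ?_⟩
  · intro a ha
    obtain ⟨c, hc⟩ := hb1 (Additive.ofMul (QuotientGroup.mk ⟨a, ha⟩ : H ⧸ N))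
    refine ⟨c, ?_⟩
    have h1 := key c
    rw [hc, toMul_ofMul] at h1
    have h2 := (QuotientGroup.eq_iff_div_mem (N := N)).1 h1.symm
    rw [hN, Subgroup.mem_subgroupOf, Subgroup.coe_div, hco] at h2
    exact h2
  · intro c hc
    have h1 : (QuotientGroup.mk (∏ j, u j ^ (c j).val) : H ⧸ N) = 1 := by
      rw [QuotientGroup.eq_one_iff, hN, Subgroup.mem_subgroupOf, hco]
      exact hc
    rw [key] at h1
    exact hb2 c h1

/-- BK10: bases of the `S`-units modulo `l`-th powers -/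
theorem sk10 : SK10 := by
  intro l _ K _ _ z hz S
  have hl := (Fact.out : l.Prime)
  obtain ⟨u, h1, h2, h3⟩ := bk10_basis (l := l) (US S) (mS S) (sc2 l hl K z hz S)
  refine ⟨u, h1, h2, fun c hc => h3 c ?_⟩
  obtain ⟨b, -, hb⟩ := c2l_mem.1 hc
  refine c2l_mem.2 ⟨b, ?_, hb⟩
  have h4 : ∏ j, u j ^ (c j).val ∈ US S := Subgroup.prod_mem _ fun j _ => pow_mem (h1 j) _
  rw [Pool.Agent.H98.MF.B.mem_US] at h4 ⊢
  intro Q hQ
  have h5 := h4 Q hQ
  rw [← hb, Units.val_pow_eq_pow_val, Pool.Agent.H98.MF.B.ord_pow] at h5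
  rcases mul_eq_zero.1 h5 with h6 | h6
  · exact absurd h6 (by exact_mod_cast hl.ne_zero)
  · exact h6

end Pool.Agent.H92.EL
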