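import Pool.Agent.H92.EL.CStm

/-!
# Project ELL (MP_a3214d), block C: two large linked variables with weights bounded by products
of `τ`
-/

set_option autoImplicit false

open scoped BigOperators Topology
open Filter

namespace Pool.Agent.H92.EL

open Pool.Agent.H98.MF (Pre)

namespace CBxA

variable {l : ℕ} [Fact l.Prime] (S : SysL l)

private theorem ec_norm (x : ZMod l) : ‖ec x‖ = 1 := AddChar.norm_apply _ _

open Classical in
/-- the term of the double sum -/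
noncomputable def tm (t : S.D → ZMod l) (s : ℝ) (J : ℕ) (a b : Finset S.P → ℂ)
    (z : Finset S.P × Finset S.P) : ℂ :=
  if S.G2 z.1 z.2 ∧ 2 ^ J < S.nm z.1 ∧ 2 ^ J < S.nm z.2
    then a z.1 * b z.2 * ec (S.Tt t z.1 z.2) * ((S.pws s z.1 * S.pws s z.2 : ℝ) : ℂ) else 0

/-- the double sum -/
noncomputable def bx (t : S.D → ZMod l) (s : ℝ) (J : ℕ) (a b : Finset S.P → ℂ) : ℂ :=
  ∑' z, tm S t s J a b z

theorem pw0 (s : ℝ) (x : Finset S.P) : 0 ≤ S.pws s x :=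
  Finset.prod_nonneg fun _ _ => Real.rpow_nonneg (Nat.cast_nonneg _) _

theorem tm_abs (t : S.D → ZMod l) (s : ℝ) (J : ℕ) (a b : Finset S.P → ℂ) (u v : Finset S.P → ℝ)
    (ha : ∀ x, ‖a x‖ ≤ u x) (hb : ∀ x, ‖b x‖ ≤ v x) (z : Finset S.P × Finset S.P) :
    ‖tm S t s J a b z‖ ≤ (u z.1 * S.pws s z.1) * (v z.2 * S.pws s z.2) := by
  have hu : 0 ≤ u z.1 := (norm_nonneg _).trans (ha _)
  have hv : 0 ≤ v z.2 := (norm_nonneg _).trans (hb _)
  have h0 : 0 ≤ (u z.1 * S.pws s z.1) * (v z.2 * S.pws s z.2) :=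
    mul_nonneg (mul_nonneg hu (pw0 S s _)) (mul_nonneg hv (pw0 S s _))
  unfold tm
  split_ifs
  · rw [norm_mul, norm_mul, norm_mul, ec_norm, mul_one, Complex.norm_real, Real.norm_eq_abs,
      abs_of_nonneg (mul_nonneg (pw0 S s z.1) (pw0 S s z.2))]
    calc ‖a z.1‖ * ‖b z.2‖ * (S.pws s z.1 * S.pws s z.2)
        ≤ u z.1 * v z.2 * (S.pws s z.1 * S.pws s z.2) :=
          mul_le_mul_of_nonneg_right (mul_le_mul (ha _) (hb _) (norm_nonneg _) hu)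
            (mul_nonneg (pw0 S s _) (pw0 S s _))
      _ = _ := by ring
  · rw [norm_zero]
    exact h0

theorem tm_sum (t : S.D → ZMod l) (s : ℝ) (J : ℕ) (a b : Finset S.P → ℂ)
    (u v : Finset S.P → ℝ) (ha : ∀ x, ‖a x‖ ≤ u x)
    (hb : ∀ x, ‖b x‖ ≤ v x) (h1 : Summable fun x => u x * S.pws s x)
    (h2 : Summable fun x => v x * S.pws s x) :
    (Summable fun z => tm S t s J a b z) ∧
    ‖bx S t s J a b‖ ≤ (∑' x, u x * S.pws s x) * ∑' x, v x * S.pws s x := by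
  have hu : ∀ x, 0 ≤ u x * S.pws s x := fun x => mul_nonneg ((norm_nonneg _).trans (ha _)) (pw0 S s _)
  have hv : ∀ x, 0 ≤ v x * S.pws s x := fun x => mul_nonneg ((norm_nonneg _).trans (hb _)) (pw0 S s _)
  have h3 : Summable fun z : Finset S.P × Finset S.P =>
      (u z.1 * S.pws s z.1) * (v z.2 * S.pws s z.2) := h1.mul_of_nonneg h2 hu hv
  have h4 : Summable fun z => ‖tm S t s J a b z‖ :=
    Summable.of_nonneg_of_le (fun z => norm_nonneg _) (tm_abs S t s J a b u v ha hb) h3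
  refine ⟨h4.of_norm, ?_⟩
  rw [h1.tsum_mul_tsum h2 h3]
  calc ‖bx S t s J a b‖ ≤ ∑' z, ‖tm S t s J a b z‖ :=
        norm_tsum_le_tsum_norm (f := fun z => tm S t s J a b z) h4
    _ ≤ _ := h4.tsum_le_tsum (tm_abs S t s J a b u v ha hb) h3

theorem bx_add_left (t : S.D → ZMod l) (s : ℝ) (J : ℕ) (a a' b : Finset S.P → ℂ)
    (h1 : Summable fun z => tm S t s J a b z) (h2 : Summable fun z => tm S t s J a' b z) :
    bx S t s J (fun x => a x + a' x) b = bx S t s J a b + bx S t s J a' b := by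
  unfold bx
  rw [← h1.tsum_add h2]
  refine tsum_congr fun z => ?_
  unfold tm
  split_ifs <;> ring

theorem bx_add_right (t : S.D → ZMod l) (s : ℝ) (J : ℕ) (a b b' : Finset S.P → ℂ)
    (h1 : Summable fun z => tm S t s J a b z) (h2 : Summable fun z => tm S t s J a b' z) :
    bx S t s J a (fun x => b x + b' x) = bx S t s J a b + bx S t s J a b' := by
  unfold bx
  rw [← h1.tsum_add h2]
  refine tsum_congr fun z => ?_
  unfold tm
  split_ifs <;> ring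

theorem bx_scale (t : S.D → ZMod l) (s : ℝ) (J : ℕ) (a b : Finset S.P → ℂ) (T : ℝ)
    (hT : T ≠ 0) :
    bx S t s J a b = (T : ℂ) ^ 2 * bx S t s J (fun x => a x / T) (fun x => b x / T) := by
  have hT' : (T : ℂ) ≠ 0 := by exact_mod_cast hT
  unfold bx
  rw [← tsum_mul_left]
  refine tsum_congr fun z => ?_
  unfold tm
  split_ifs
  · field_simp
  · ring

/-- the squares of the weights -/
theorem tk_sq (B : ℝ) (τ : S.P → ℝ) (h : S.Tk B τ) :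
    S.Tk (B * (2 + B)) fun p => τ p ^ 2 := by
  intro p
  obtain ⟨h0, h1⟩ := h p
  refine ⟨by positivity, ?_⟩
  have hN : (1 : ℝ) ≤ S.N p := by exact_mod_cast S.one_le_N p
  have hn0 : 0 < (S.N p : ℝ) ^ (-(1 / 2) : ℝ) := Real.rpow_pos_of_pos (by linarith) _
  have hn1 : (S.N p : ℝ) ^ (-(1 / 2) : ℝ) ≤ 1 :=
    Real.rpow_le_one_of_one_le_of_nonpos hN (by norm_num)
  have hB : 0 ≤ B := by
    by_contra hB
    have := mul_neg_of_neg_of_pos (not_le.1 hB) hn0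
    linarith [abs_nonneg (τ p - 1)]
  have h2 : |τ p + 1| ≤ 2 + B := by
    have e : τ p + 1 = (τ p - 1) + 2 := by ring
    rw [e]
    refine (abs_add_le _ _).trans ?_
    rw [abs_of_pos (two_pos : (0 : ℝ) < 2)]
    nlinarith
  have e : τ p ^ 2 - 1 = (τ p - 1) * (τ p + 1) := by ring
  show |τ p ^ 2 - 1| ≤ _
  rw [e, abs_mul]
  calc |τ p - 1| * |τ p + 1| ≤ (B * (S.N p : ℝ) ^ (-(1 / 2) : ℝ)) * (2 + B) :=
        mul_le_mul h1 h2 (abs_nonneg _) (mul_nonneg hB hn0.le)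
    _ = _ := by ring

end CBxA

open CBxA in
/-- two large linked variables, weights bounded by products of `τ` -/
theorem sbxL (h : SBxL0) (h1 : STrL) : SBxL := by
  classical
  intro l _ S tt B htt
  obtain ⟨C0, E0, c0, hC0, hE0, hc0, H⟩ := h l S tt htt
  obtain ⟨C1, hC1, H1⟩ := h1 l S (B * (2 + B)) 1 0 zero_le_one
  obtain ⟨C2, hC2, H2⟩ := h1 l S B 1 0 zero_le_one
  refine ⟨C0 + 2 * (C1 * C2), E0 + 2, c0 / 4, by positivity, by positivity, by positivity, ?_⟩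
  intro τ hτ a b ha hb σ J hσ hσ1
  have K1 := H1 _ (tk_sq S B τ hτ) σ hσ hσ1
  have K2 := H2 τ hτ σ hσ hσ1
  set t : Finset S.P → ℝ := fun x => ∏ p ∈ x, τ p with ht
  have ht0 : ∀ x, 0 ≤ t x := fun x => Finset.prod_nonneg fun p _ => (hτ p).1
  have e1 : ∀ x : Finset S.P, (∏ p ∈ x, 1 * τ p ^ 2) * S.ls x ^ 0 * S.pws (1 + σ) x =
      t x ^ 2 * S.pws (1 + σ) x := by
    intro x
    simp only [one_mul, pow_zero, mul_one, ht, Finset.prod_pow]
  have e2 : ∀ x : Finset S.P, (∏ p ∈ x, 1 * τ p) * S.ls x ^ 0 * S.pws (1 + σ) x =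
      t x * S.pws (1 + σ) x := by
    intro x
    simp only [one_mul, pow_zero, mul_one, ht]
  simp only [e1] at K1
  simp only [e2] at K2
  obtain ⟨s1, b1, -⟩ := K1
  obtain ⟨s2, b2, -⟩ := K2
  set T : ℝ := (2 : ℝ) ^ (c0 * J / 4) with hT
  have hT0 : 0 < T := Real.rpow_pos_of_pos two_pos _
  have hTi : T⁻¹ = (2 : ℝ) ^ (-(c0 / 4 * J)) := by
    rw [hT, ← Real.rpow_neg two_pos.le]
    congr 1
    ring
  -- truncation
  set tr : (Finset S.P → ℂ) → Finset S.P → ℂ := fun f x => if t x ≤ T then f x else 0 with htr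
  set tl : (Finset S.P → ℂ) → Finset S.P → ℂ := fun f x => if t x ≤ T then 0 else f x with htl
  have hsp : ∀ f : Finset S.P → ℂ, f = fun x => tr f x + tl f x := by
    intro f
    funext x
    simp only [htr, htl]
    split_ifs <;> ring
  have htr1 : ∀ f : Finset S.P → ℂ, (∀ x, ‖f x‖ ≤ t x) → ∀ x, ‖tr f x‖ ≤ t x := by
    intro f hf x
    simp only [htr]
    split_ifs
    · exact hf x
    · rw [norm_zero]
      exact ht0 x
  have htr2 : ∀ f : Finset S.P → ℂ, (∀ x, ‖f x‖ ≤ t x) → ∀ x, ‖tr f x / T‖ ≤ 1 := by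
    intro f hf x
    simp only [htr]
    rw [norm_div, Complex.norm_real, Real.norm_eq_abs, abs_of_pos hT0, div_le_one hT0]
    split_ifs with hx
    · exact (hf x).trans hx
    · rw [norm_zero]
      exact hT0.le
  have htl1 : ∀ f : Finset S.P → ℂ, (∀ x, ‖f x‖ ≤ t x) → ∀ x, ‖tl f x‖ ≤ T⁻¹ * t x ^ 2 := by
    intro f hf x
    simp only [htl]
    split_ifs with hx
    · rw [norm_zero]
      exact mul_nonneg (inv_nonneg.2 hT0.le) (sq_nonneg _)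
    · have hx' : T ≤ t x := (not_le.1 hx).le
      refine (hf x).trans ?_
      rw [inv_mul_eq_div, le_div_iff₀ hT0, sq]
      exact mul_le_mul_of_nonneg_left hx' (ht0 x)
  have s1' : Summable fun x => (T⁻¹ * t x ^ 2) * S.pws (1 + σ) x := by
    have := s1.mul_left T⁻¹
    simpa only [mul_assoc] using this
  have b1' : ∑' x, (T⁻¹ * t x ^ 2) * S.pws (1 + σ) x ≤ T⁻¹ * (C1 * σ ^ (-(1 : ℝ))) := by
    simp only [mul_assoc]
    rw [tsum_mul_left]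
    exact mul_le_mul_of_nonneg_left b1 (inv_nonneg.2 hT0.le)
  have n1 : 0 ≤ ∑' x, (T⁻¹ * t x ^ 2) * S.pws (1 + σ) x := tsum_nonneg fun x =>
    mul_nonneg (mul_nonneg (inv_nonneg.2 hT0.le) (sq_nonneg _)) (pw0 S _ _)
  have n2 : 0 ≤ ∑' x, t x * S.pws (1 + σ) x := tsum_nonneg fun x =>
    mul_nonneg (ht0 x) (pw0 S _ _)
  -- the three parts
  have m1 : Summable fun z => tm S tt (1 + σ) J (tr a) b z :=
    (tm_sum S tt (1 + σ) J (tr a) b t t (htr1 a ha) hb s2 s2).1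
  have m2 := tm_sum S tt (1 + σ) J (tl a) b (fun x => T⁻¹ * t x ^ 2) t (htl1 a ha) hb s1' s2
  have m3 : Summable fun z => tm S tt (1 + σ) J (tr a) (tr b) z :=
    (tm_sum S tt (1 + σ) J (tr a) (tr b) t t (htr1 a ha) (htr1 b hb) s2 s2).1
  have m4 := tm_sum S tt (1 + σ) J (tr a) (tl b) t (fun x => T⁻¹ * t x ^ 2) (htr1 a ha)
    (htl1 b hb) s2 s1'
  have f1 : bx S tt (1 + σ) J a b = bx S tt (1 + σ) J (tr a) (tr b) +
      bx S tt (1 + σ) J (tr a) (tl b) + bx S tt (1 + σ) J (tl a) b := by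
    have g1 := bx_add_left S tt (1 + σ) J (tr a) (tl a) b m1 m2.1
    have g2 := bx_add_right S tt (1 + σ) J (tr a) (tr b) (tl b) m3 m4.1
    rw [← hsp a] at g1
    rw [← hsp b] at g2
    rw [g1, g2]
  have hσi : (0 : ℝ) ≤ σ ^ (-(1 : ℝ)) := Real.rpow_nonneg hσ.le _
  have r1 : ‖bx S tt (1 + σ) J (tr a) (tr b)‖ ≤
      T ^ 2 * (C0 * σ ^ (-E0) * (2 : ℝ) ^ (-(c0 * J))) := by
    rw [bx_scale S tt (1 + σ) J (tr a) (tr b) T hT0.ne', norm_mul, norm_pow, Complex.norm_real,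
      Real.norm_eq_abs, abs_of_pos hT0]
    exact mul_le_mul_of_nonneg_left (H _ _ (htr2 a ha) (htr2 b hb) σ J hσ hσ1)
      (pow_pos hT0 2).le
  have r2 : ‖bx S tt (1 + σ) J (tr a) (tl b)‖ ≤
      (C2 * σ ^ (-(1 : ℝ))) * (T⁻¹ * (C1 * σ ^ (-(1 : ℝ)))) :=
    m4.2.trans (mul_le_mul b2 b1' n1 (mul_nonneg hC2 hσi))
  have r3 : ‖bx S tt (1 + σ) J (tl a) b‖ ≤
      (T⁻¹ * (C1 * σ ^ (-(1 : ℝ)))) * (C2 * σ ^ (-(1 : ℝ))) :=
    m2.2.trans (mul_le_mul b1' b2 n2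
      (mul_nonneg (inv_nonneg.2 hT0.le) (mul_nonneg hC1 hσi)))
  have q1 : T ^ 2 * (2 : ℝ) ^ (-(c0 * J)) = T⁻¹ ^ 2 := by
    have e3 : T ^ 2 = (2 : ℝ) ^ (c0 * J / 2) := by
      rw [hT, ← Real.rpow_natCast, ← Real.rpow_mul two_pos.le]
      congr 1
      push_cast
      ring
    rw [inv_pow, e3, ← Real.rpow_add two_pos, ← Real.rpow_neg two_pos.le]
    congr 1
    ring
  have hT1 : T⁻¹ ≤ 1 := by
    rw [hTi]
    exact Real.rpow_le_one_of_one_le_of_nonpos one_le_two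
      (neg_nonpos.2 (by positivity))
  have q2 : T⁻¹ ^ 2 ≤ T⁻¹ := by
    rw [sq]
    exact mul_le_of_le_one_right (inv_nonneg.2 hT0.le) hT1
  have q3 : σ ^ (-(1 : ℝ)) * σ ^ (-(1 : ℝ)) = σ ^ (-(2 : ℝ)) := by
    rw [← Real.rpow_add hσ]
    norm_num
  have q4 : σ ^ (-E0) ≤ σ ^ (-(E0 + 2)) :=
    Real.rpow_le_rpow_of_exponent_ge hσ hσ1 (by linarith)
  have q5 : σ ^ (-(2 : ℝ)) ≤ σ ^ (-(E0 + 2)) :=
    Real.rpow_le_rpow_of_exponent_ge hσ hσ1 (by linarith)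
  have hσE : (0 : ℝ) ≤ σ ^ (-E0) := Real.rpow_nonneg hσ.le _
  have hTn : (0 : ℝ) ≤ T⁻¹ := inv_nonneg.2 hT0.le
  show ‖bx S tt (1 + σ) J a b‖ ≤ _
  rw [f1, ← hTi]
  calc ‖bx S tt (1 + σ) J (tr a) (tr b) + bx S tt (1 + σ) J (tr a) (tl b) +
        bx S tt (1 + σ) J (tl a) b‖
      ≤ ‖bx S tt (1 + σ) J (tr a) (tr b)‖ + ‖bx S tt (1 + σ) J (tr a) (tl b)‖ +
        ‖bx S tt (1 + σ) J (tl a) b‖ := norm_add₃_le
    _ ≤ T ^ 2 * (C0 * σ ^ (-E0) * (2 : ℝ) ^ (-(c0 * J))) +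
        (C2 * σ ^ (-(1 : ℝ))) * (T⁻¹ * (C1 * σ ^ (-(1 : ℝ)))) +
        (T⁻¹ * (C1 * σ ^ (-(1 : ℝ)))) * (C2 * σ ^ (-(1 : ℝ))) :=
        add_le_add (add_le_add r1 r2) r3
    _ = C0 * σ ^ (-E0) * (T ^ 2 * (2 : ℝ) ^ (-(c0 * J))) +
        2 * (C1 * C2) * (σ ^ (-(1 : ℝ)) * σ ^ (-(1 : ℝ))) * T⁻¹ := by ring
    _ = C0 * σ ^ (-E0) * T⁻¹ ^ 2 + 2 * (C1 * C2) * σ ^ (-(2 : ℝ)) * T⁻¹ := by rw [q1, q3]
    _ ≤ C0 * σ ^ (-(E0 + 2)) * T⁻¹ + 2 * (C1 * C2) * σ ^ (-(E0 + 2)) * T⁻¹ := by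
        refine add_le_add ?_ ?_
        · exact mul_le_mul (mul_le_mul_of_nonneg_left q4 hC0) q2 (by positivity)
            (mul_nonneg hC0 (Real.rpow_nonneg hσ.le _))
        · exact mul_le_mul_of_nonneg_right (mul_le_mul_of_nonneg_left q5 (by positivity)) hTn
    _ = _ := by ring

end Pool.Agent.H92.EL
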