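import Pool.Agent.H92.EL.CStm
import Pool.Agent.H98.MF.SBase
import Pool.Agent.H98.MF.NLog

/-!
# Project ELL (MP_a3214d), block C: two large linked variables with bounded weights
-/

set_option autoImplicit false

open scoped BigOperators Topology
open Filter

namespace Pool.Agent.H92.EL

open Pool.Agent.H98.MF (Pre pre_summable_N)

section

variable {l : ℕ} [Fact l.Prime] (S : SysL l)

/-- powers of the norm as products -/
private theorem cbx_pw (s : ℝ) (x : Finset S.P) : S.pws s x = (S.nm x : ℝ) ^ (-s) := by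
  unfold SysL.pws Pre.nm
  rw [Nat.cast_prod]
  exact Real.finsetProd_rpow x _ (fun _ _ => Nat.cast_nonneg _) _

private theorem cbx_pw_nonneg (s : ℝ) (x : Finset S.P) : 0 ≤ S.pws s x := by
  rw [cbx_pw]
  exact Real.rpow_nonneg (Nat.cast_nonneg _) _

/-- the sum of the powers of the norms converges -/
private theorem cbx_summableN (s : ℝ) (hs : 1 < s) :
    Summable fun p : S.P => (S.N p : ℝ) ^ (-s) := by
  refine pre_summable_N S.toPre (S.κ + S.C) (fun X hX => ?_) s hs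
  have h2 := (abs_le.1 (S.cnt X hX)).2
  have h3 : X ^ (1 - S.δ) ≤ X := by
    nth_rw 2 [← Real.rpow_one X]
    exact Real.rpow_le_rpow_of_exponent_le hX (by linarith [S.δ_pos])
  have h4 := mul_le_mul_of_nonneg_left h3 S.C_nonneg
  linarith

private theorem cbx_summable (s : ℝ) (hs : 1 < s) :
    Summable fun x : Finset S.P => S.pws s x := by
  classical
  have h1 := cbx_summableN S s hs
  have h0 : ∀ p : S.P, 0 ≤ (S.N p : ℝ) ^ (-s) := fun p =>
    Real.rpow_nonneg (Nat.cast_nonneg _) _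
  refine summable_of_sum_le (c := Real.exp (∑' p : S.P, (S.N p : ℝ) ^ (-s)))
    (fun x => cbx_pw_nonneg S s x) fun A => ?_
  calc ∑ x ∈ A, S.pws s x ≤ ∑ x ∈ (A.biUnion id).powerset, S.pws s x := by
        refine Finset.sum_le_sum_of_subset_of_nonneg (fun x hx => ?_)
          fun x _ _ => cbx_pw_nonneg S s x
        exact Finset.mem_powerset.2 (Finset.subset_biUnion_of_mem id hx)
    _ = ∏ p ∈ A.biUnion id, (1 + (S.N p : ℝ) ^ (-s)) := by
        rw [Finset.prod_one_add]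
        rfl
    _ ≤ Real.exp (∑ p ∈ A.biUnion id, (S.N p : ℝ) ^ (-s)) := by
        rw [Real.exp_sum]
        refine Finset.prod_le_prod (fun p _ => ?_) fun p _ => ?_
        · linarith [h0 p]
        · linarith [Real.add_one_le_exp ((S.N p : ℝ) ^ (-s))]
    _ ≤ _ := Real.exp_le_exp.2 (h1.sum_le_tsum _ fun p _ => h0 p)

/-- a geometric sum -/
private theorem cbx_geo (σ : ℝ) (h0 : 0 < σ) (h1 : σ ≤ 1) (n : ℕ) :
    ∑ i ∈ Finset.range n, (2 : ℝ) ^ (-(σ * i)) ≤ 2 / σ := by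
  have hq0 : (0 : ℝ) < (2 : ℝ) ^ (-σ) := Real.rpow_pos_of_pos two_pos _
  have hq1 : (2 : ℝ) ^ (-σ) ≤ 1 - σ / 2 := by
    have h := rpow_one_add_le_one_add_mul_self (s := -(1 / 2)) (p := σ) (by norm_num) h0.le h1
    have e : (2 : ℝ) ^ (-σ) = (1 + -(1 / 2)) ^ σ := by
      rw [Real.rpow_neg two_pos.le, ← Real.inv_rpow two_pos.le]
      norm_num
    rw [e]
    linarith
  have e1 : ∀ i : ℕ, (2 : ℝ) ^ (-(σ * i)) = ((2 : ℝ) ^ (-σ)) ^ i := by
    intro i
    rw [← Real.rpow_natCast, ← Real.rpow_mul two_pos.le, neg_mul]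
  have h2 := hasSum_geometric_of_lt_one hq0.le (by linarith)
  calc ∑ i ∈ Finset.range n, (2 : ℝ) ^ (-(σ * i))
      = ∑ i ∈ Finset.range n, ((2 : ℝ) ^ (-σ)) ^ i := Finset.sum_congr rfl fun i _ => e1 i
    _ ≤ (1 - (2 : ℝ) ^ (-σ))⁻¹ := sum_le_hasSum _ (fun i _ => pow_nonneg hq0.le i) h2
    _ ≤ 2 / σ := by
        rw [inv_le_comm₀ (by linarith) (by positivity), inv_div]
        linarith

/-- the dyadic level -/
private noncomputable def cbx_lv (x : Finset S.P) : ℕ := Nat.clog 2 (S.nm x)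

private theorem cbx_lv_le {x : Finset S.P} {i : ℕ} : cbx_lv S x ≤ i ↔ S.nm x ≤ 2 ^ i :=
  Nat.clog_le_iff_le_pow (by norm_num)

private theorem cbx_lv_lt {x : Finset S.P} {i : ℕ} : i < cbx_lv S x ↔ 2 ^ i < S.nm x :=
  Nat.lt_clog_iff_pow_lt (by norm_num)

private theorem cbx_mem {x : Finset S.P} {i : ℕ} :
    x ∈ S.bx ((2 : ℝ) ^ i) ↔ cbx_lv S x ≤ i := by
  rw [S.mem_bx, cbx_lv_le]
  exact_mod_cast Iff.rfl

private theorem cbx_ec (a : ZMod l) : ‖(ec a : ℂ)‖ = 1 := by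
  unfold ec
  exact AddChar.norm_apply _ _

open Classical in
/-- the term -/
private noncomputable def cbx_t (t : S.D → ZMod l) (a b : Finset S.P → ℂ) (s : ℝ) (J : ℕ)
    (x y : Finset S.P) : ℂ :=
  if S.G2 x y ∧ 2 ^ J < S.nm x ∧ 2 ^ J < S.nm y
    then a x * b y * ec (S.Tt t x y) * ((S.pws s x * S.pws s y : ℝ) : ℂ) else 0

private theorem cbx_t_norm (t : S.D → ZMod l) {a b : Finset S.P → ℂ} (ha : ∀ x, ‖a x‖ ≤ 1)
    (hb : ∀ x, ‖b x‖ ≤ 1) (s : ℝ) (J : ℕ) (x y : Finset S.P) :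
    ‖cbx_t S t a b s J x y‖ ≤ S.pws s x * S.pws s y := by
  unfold cbx_t
  have h0 : 0 ≤ S.pws s x * S.pws s y := mul_nonneg (cbx_pw_nonneg S s x) (cbx_pw_nonneg S s y)
  split_ifs with h
  · rw [norm_mul, Complex.norm_real, Real.norm_of_nonneg h0, norm_mul, norm_mul, cbx_ec, mul_one]
    have h2 : ‖a x‖ * ‖b y‖ ≤ 1 := mul_le_one₀ (ha x) (norm_nonneg _) (hb y)
    exact mul_le_of_le_one_left h0 h2
  · rw [norm_zero]
    exact h0

open Classical in
/-- the weights of a box -/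
private noncomputable def cbx_w (a : Finset S.P → ℂ) (s : ℝ) (i : ℕ) (x : Finset S.P) : ℂ :=
  if cbx_lv S x = i + 1 then a x * ((S.pws s x * (2 : ℝ) ^ (s * i) : ℝ) : ℂ) else 0

private theorem cbx_w_norm {a : Finset S.P → ℂ} (ha : ∀ x, ‖a x‖ ≤ 1) {s : ℝ} (hs : 0 ≤ s)
    (i : ℕ) (x : Finset S.P) : ‖cbx_w S a s i x‖ ≤ 1 := by
  unfold cbx_w
  split_ifs with h
  · have h0 : 0 ≤ S.pws s x * (2 : ℝ) ^ (s * i) :=
      mul_nonneg (cbx_pw_nonneg S s x) (Real.rpow_nonneg two_pos.le _)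
    rw [norm_mul, Complex.norm_real, Real.norm_of_nonneg h0]
    refine mul_le_one₀ (ha x) h0 ?_
    have h1 : 2 ^ i < S.nm x := (cbx_lv_lt S).1 (by rw [h]; exact Nat.lt_succ_self i)
    have h2 : (2 : ℝ) ^ i ≤ S.nm x := by exact_mod_cast h1.le
    rw [cbx_pw, Real.rpow_neg (Nat.cast_nonneg _), mul_comm s, Real.rpow_mul two_pos.le,
      Real.rpow_natCast, ← div_eq_inv_mul]
    have h3 : ((2 : ℝ) ^ i) ^ s ≤ (S.nm x : ℝ) ^ s := Real.rpow_le_rpow (by positivity) h2 hs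
    have h4 : (0 : ℝ) < (S.nm x : ℝ) ^ s := Real.rpow_pos_of_pos (S.nm_posr x) _
    rw [div_le_one h4]
    exact h3
  · rw [norm_zero]
    exact zero_le_one

open Classical in
/-- the sum over a pair of levels -/
private theorem cbx_level (t : S.D → ZMod l) (a b : Finset S.P → ℂ) (s : ℝ) (J n i j : ℕ)
    (hi : J ≤ i) (hj : J ≤ j) (hin : i + 1 ≤ n) (hjn : j + 1 ≤ n) :
    ∑ x ∈ (S.bx ((2 : ℝ) ^ n)).filter (fun x => cbx_lv S x = i + 1),
      ∑ y ∈ (S.bx ((2 : ℝ) ^ n)).filter (fun y => cbx_lv S y = j + 1), cbx_t S t a b s J x y =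
    (((2 : ℝ) ^ (-(s * i)) * (2 : ℝ) ^ (-(s * j)) : ℝ) : ℂ) *
      ∑ x ∈ S.bx ((2 : ℝ) ^ (i + 1)), ∑ y ∈ S.bx ((2 : ℝ) ^ (j + 1)),
        (if S.G2 x y then cbx_w S a s i x * cbx_w S b s j y * ec (S.Tt t x y) else 0) := by
  have e1 : ∀ {i : ℕ}, i + 1 ≤ n → (S.bx ((2 : ℝ) ^ n)).filter (fun x => cbx_lv S x = i + 1) =
      (S.bx ((2 : ℝ) ^ (i + 1))).filter (fun x => cbx_lv S x = i + 1) := by
    intro i hi
    ext x
    rw [Finset.mem_filter, Finset.mem_filter, cbx_mem, cbx_mem]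
    constructor
    · rintro ⟨-, h⟩
      exact ⟨h.le, h⟩
    · rintro ⟨-, h⟩
      exact ⟨h.le.trans hi, h⟩
  rw [e1 hin, e1 hjn, Finset.sum_filter, Finset.mul_sum]
  refine Finset.sum_congr rfl fun x _ => ?_
  by_cases hx : cbx_lv S x = i + 1
  · rw [if_pos hx, Finset.sum_filter, Finset.mul_sum]
    refine Finset.sum_congr rfl fun y _ => ?_
    by_cases hy : cbx_lv S y = j + 1
    · rw [if_pos hy]
      unfold cbx_t cbx_w
      rw [if_pos hx, if_pos hy]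
      by_cases hd : S.G2 x y
      · have hx2 : 2 ^ J < S.nm x := (cbx_lv_lt S).1 (by rw [hx]; exact Nat.lt_succ_of_le hi)
        have hy2 : 2 ^ J < S.nm y := (cbx_lv_lt S).1 (by rw [hy]; exact Nat.lt_succ_of_le hj)
        rw [if_pos ⟨hd, hx2, hy2⟩, if_pos hd]
        have p1 : ∀ i : ℕ, (((2 : ℝ) ^ (-(s * i)) : ℝ) : ℂ) * (((2 : ℝ) ^ (s * i) : ℝ) : ℂ) = 1 := by
          intro i
          rw [← Complex.ofReal_mul, ← Real.rpow_add two_pos, neg_add_cancel, Real.rpow_zero,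
            Complex.ofReal_one]
        rw [Complex.ofReal_mul, Complex.ofReal_mul, Complex.ofReal_mul, Complex.ofReal_mul]
        calc a x * b y * ec (S.Tt t x y) * ((S.pws s x : ℂ) * (S.pws s y : ℂ))
            = (a x * b y * ec (S.Tt t x y) * ((S.pws s x : ℂ) * (S.pws s y : ℂ))) * 1 * 1 := by
              ring
          _ = (a x * b y * ec (S.Tt t x y) * ((S.pws s x : ℂ) * (S.pws s y : ℂ))) *
              ((((2 : ℝ) ^ (-(s * i)) : ℝ) : ℂ) * (((2 : ℝ) ^ (s * i) : ℝ) : ℂ)) *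
              ((((2 : ℝ) ^ (-(s * j)) : ℝ) : ℂ) * (((2 : ℝ) ^ (s * j) : ℝ) : ℂ)) := by
              rw [p1, p1]
          _ = _ := by ring
      · rw [if_neg hd, if_neg fun h => hd h.1, mul_zero]
    · rw [if_neg hy]
      have h0 : cbx_w S b s j y = 0 := by
        unfold cbx_w
        rw [if_neg hy]
      rw [h0, mul_zero, zero_mul, ite_self, mul_zero]
  · rw [if_neg hx]
    have h0 : cbx_w S a s i x = 0 := by
      unfold cbx_w
      rw [if_neg hx]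
    symm
    apply mul_eq_zero_of_right
    refine Finset.sum_eq_zero fun y _ => ?_
    rw [h0, zero_mul, zero_mul, ite_self]

open Classical in
/-- the bound for a pair of levels -/
private theorem cbx_bound (t : S.D → ZMod l) {C c : ℝ} (hC : 0 ≤ C) (hc : 0 < c)
    (hbox : ∀ a b : Finset S.P → ℂ, (∀ x, ‖a x‖ ≤ 1) → (∀ y, ‖b y‖ ≤ 1) →
      ∀ X Y : ℝ, 1 ≤ X → 1 ≤ Y →
      ‖∑ x ∈ S.bx X, ∑ y ∈ S.bx Y, (if S.G2 x y then a x * b y * ec (S.Tt t x y) else 0)‖ ≤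
        C * (X * Y) * min X Y ^ (-c))
    {a b : Finset S.P → ℂ} (ha : ∀ x, ‖a x‖ ≤ 1) (hb : ∀ x, ‖b x‖ ≤ 1) {σ : ℝ} (h0 : 0 < σ)
    (J n i j : ℕ) (hin : i ≤ n) (hjn : j ≤ n) :
    ‖∑ x ∈ (S.bx ((2 : ℝ) ^ n)).filter (fun x => cbx_lv S x = i),
      ∑ y ∈ (S.bx ((2 : ℝ) ^ n)).filter (fun y => cbx_lv S y = j),
        cbx_t S t a b (1 + σ) J x y‖ ≤
    4 * 4 ^ σ * C * (2 : ℝ) ^ (-(c * J)) * ((2 : ℝ) ^ (-(σ * i)) * (2 : ℝ) ^ (-(σ * j))) := by
  have hR : 0 ≤ 4 * 4 ^ σ * C * (2 : ℝ) ^ (-(c * J)) *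
      ((2 : ℝ) ^ (-(σ * i)) * (2 : ℝ) ^ (-(σ * j))) := by positivity
  rcases Nat.lt_or_ge J i with hi | hi
  · rcases Nat.lt_or_ge J j with hj | hj
    · obtain ⟨i, rfl⟩ : ∃ i', i = i' + 1 := ⟨i - 1, by omega⟩
      obtain ⟨j, rfl⟩ : ∃ j', j = j' + 1 := ⟨j - 1, by omega⟩
      rw [cbx_level S t a b (1 + σ) J n i j (by omega) (by omega) hin hjn]
      have hP1 : (1 : ℝ) ≤ (2 : ℝ) ^ J := one_le_pow₀ (by norm_num)
      have hPi : (2 : ℝ) ^ J ≤ (2 : ℝ) ^ (i + 1) := pow_le_pow_right₀ (by norm_num) hi.le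
      have hPj : (2 : ℝ) ^ J ≤ (2 : ℝ) ^ (j + 1) := pow_le_pow_right₀ (by norm_num) hj.le
      have h1 := hbox (cbx_w S a (1 + σ) i) (cbx_w S b (1 + σ) j)
        (cbx_w_norm S ha (by linarith) i) (cbx_w_norm S hb (by linarith) j)
        ((2 : ℝ) ^ (i + 1)) ((2 : ℝ) ^ (j + 1)) (hP1.trans hPi) (hP1.trans hPj)
      have q0 : 0 ≤ (2 : ℝ) ^ (-((1 + σ) * i)) * (2 : ℝ) ^ (-((1 + σ) * j)) := by positivity
      rw [norm_mul, Complex.norm_real, Real.norm_of_nonneg q0]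
      refine (mul_le_mul_of_nonneg_left h1 q0).trans ?_
      have e1 : min ((2 : ℝ) ^ (i + 1)) ((2 : ℝ) ^ (j + 1)) ^ (-c) ≤ (2 : ℝ) ^ (-(c * J)) := by
        have h2 : ((2 : ℝ) ^ J) ^ (-c) = (2 : ℝ) ^ (-(c * J)) := by
          rw [← Real.rpow_natCast, ← Real.rpow_mul two_pos.le]
          congr 1
          ring
        rw [← h2]
        exact Real.rpow_le_rpow_of_nonpos (by positivity) (le_min hPi hPj) (by linarith)
      have e4 : ∀ m : ℕ, (2 : ℝ) ^ (-((1 + σ) * m)) * (2 : ℝ) ^ (m + 1) =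
          4 * 2 ^ σ / 2 * (2 : ℝ) ^ (-(σ * ((m + 1 : ℕ) : ℝ))) := by
        intro m
        have h7 : (2 : ℝ) ^ (m + 1) = (2 : ℝ) ^ ((m + 1 : ℕ) : ℝ) := (Real.rpow_natCast _ _).symm
        have h8 : (4 * 2 ^ σ / 2 : ℝ) = (2 : ℝ) ^ (1 + σ) := by
          rw [Real.rpow_add two_pos, Real.rpow_one]
          ring
        rw [h7, h8, ← Real.rpow_add two_pos, ← Real.rpow_add two_pos]
        congr 1
        push_cast
        ring
      have e5 : (4 : ℝ) ^ σ = 2 ^ σ * 2 ^ σ := by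
        rw [← Real.mul_rpow two_pos.le two_pos.le]
        norm_num
      calc (2 : ℝ) ^ (-((1 + σ) * i)) * (2 : ℝ) ^ (-((1 + σ) * j)) *
            (C * ((2 : ℝ) ^ (i + 1) * (2 : ℝ) ^ (j + 1)) *
              min ((2 : ℝ) ^ (i + 1)) ((2 : ℝ) ^ (j + 1)) ^ (-c))
          = C * (((2 : ℝ) ^ (-((1 + σ) * i)) * (2 : ℝ) ^ (i + 1)) *
              ((2 : ℝ) ^ (-((1 + σ) * j)) * (2 : ℝ) ^ (j + 1))) *
              min ((2 : ℝ) ^ (i + 1)) ((2 : ℝ) ^ (j + 1)) ^ (-c) := by ring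
        _ ≤ C * (((2 : ℝ) ^ (-((1 + σ) * i)) * (2 : ℝ) ^ (i + 1)) *
              ((2 : ℝ) ^ (-((1 + σ) * j)) * (2 : ℝ) ^ (j + 1))) * (2 : ℝ) ^ (-(c * J)) :=
            mul_le_mul_of_nonneg_left e1 (by positivity)
        _ = _ := by
            rw [e4, e4, e5]
            ring
    · rw [Finset.sum_eq_zero, norm_zero]
      · exact hR
      · intro x _
        refine Finset.sum_eq_zero fun y hy => ?_
        unfold cbx_t
        rw [if_neg]
        rintro ⟨-, -, h⟩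
        rw [← cbx_lv_lt, (Finset.mem_filter.1 hy).2] at h
        omega
  · rw [Finset.sum_eq_zero, norm_zero]
    · exact hR
    · intro x hx
      refine Finset.sum_eq_zero fun y _ => ?_
      unfold cbx_t
      rw [if_neg]
      rintro ⟨-, h, -⟩
      rw [← cbx_lv_lt, (Finset.mem_filter.1 hx).2] at h
      omega

end

/-- two large linked variables, bounded weights -/
theorem sbxL0 (h : SBoxL) : SBxL0 := by
  classical
  intro l _ S t ht
  obtain ⟨C, c, hC, hc, hbox⟩ := h l S t ht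
  refine ⟨64 * C, 2, c, by positivity, by norm_num, hc, ?_⟩
  intro a b ha hb σ J h0 h1
  have hsum : Summable fun z : Finset S.P × Finset S.P => cbx_t S t a b (1 + σ) J z.1 z.2 := by
    have h2 := cbx_summable S (1 + σ) (by linarith)
    have h3 := h2.mul_of_nonneg h2 (fun x => cbx_pw_nonneg S _ x) (fun x => cbx_pw_nonneg S _ x)
    exact Summable.of_norm_bounded h3 fun z => cbx_t_norm S t ha hb _ J z.1 z.2
  have hlim : Tendsto (fun n : ℕ => S.bx ((2 : ℝ) ^ n) ×ˢ S.bx ((2 : ℝ) ^ n)) atTop atTop := by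
    refine tendsto_atTop_finset_of_monotone ?_ ?_
    · intro m n hmn
      have h4 : S.bx ((2 : ℝ) ^ m) ⊆ S.bx ((2 : ℝ) ^ n) :=
        S.bx_mono (pow_le_pow_right₀ (by norm_num) hmn)
      exact Finset.product_subset_product h4 h4
    · intro z
      refine ⟨max (cbx_lv S z.1) (cbx_lv S z.2), Finset.mem_product.2 ⟨?_, ?_⟩⟩
      · rw [cbx_mem]
        exact le_max_left _ _
      · rw [cbx_mem]
        exact le_max_right _ _
  have hT := (hsum.hasSum.comp hlim).norm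
  refine le_of_tendsto' hT fun n => ?_
  show ‖∑ z ∈ S.bx ((2 : ℝ) ^ n) ×ˢ S.bx ((2 : ℝ) ^ n), cbx_t S t a b (1 + σ) J z.1 z.2‖ ≤ _
  rw [Finset.sum_product]
  have hmap : ∀ x ∈ S.bx ((2 : ℝ) ^ n), cbx_lv S x ∈ Finset.range (n + 1) := fun x hx =>
    Finset.mem_range.2 (Nat.lt_succ_of_le ((cbx_mem S).1 hx))
  have e1 : ∑ x ∈ S.bx ((2 : ℝ) ^ n), ∑ y ∈ S.bx ((2 : ℝ) ^ n), cbx_t S t a b (1 + σ) J x y =
      ∑ i ∈ Finset.range (n + 1), ∑ j ∈ Finset.range (n + 1),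
        ∑ x ∈ (S.bx ((2 : ℝ) ^ n)).filter (fun x => cbx_lv S x = i),
          ∑ y ∈ (S.bx ((2 : ℝ) ^ n)).filter (fun y => cbx_lv S y = j),
            cbx_t S t a b (1 + σ) J x y := by
    rw [← Finset.sum_fiberwise_of_maps_to hmap
      (fun x => ∑ y ∈ S.bx ((2 : ℝ) ^ n), cbx_t S t a b (1 + σ) J x y)]
    refine Finset.sum_congr rfl fun i _ => ?_
    refine Eq.trans ?_ Finset.sum_comm
    refine Finset.sum_congr rfl fun x _ => ?_
    exact (Finset.sum_fiberwise_of_maps_to hmap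
      (fun y => cbx_t S t a b (1 + σ) J x y)).symm
  rw [e1]
  refine (norm_sum_le _ _).trans ?_
  calc ∑ i ∈ Finset.range (n + 1), ‖∑ j ∈ Finset.range (n + 1),
        ∑ x ∈ (S.bx ((2 : ℝ) ^ n)).filter (fun x => cbx_lv S x = i),
          ∑ y ∈ (S.bx ((2 : ℝ) ^ n)).filter (fun y => cbx_lv S y = j),
            cbx_t S t a b (1 + σ) J x y‖
      ≤ ∑ i ∈ Finset.range (n + 1), ∑ j ∈ Finset.range (n + 1),
          4 * 4 ^ σ * C * (2 : ℝ) ^ (-(c * J)) *
            ((2 : ℝ) ^ (-(σ * i)) * (2 : ℝ) ^ (-(σ * j))) := by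
        refine Finset.sum_le_sum fun i hi => ?_
        refine (norm_sum_le _ _).trans (Finset.sum_le_sum fun j hj => ?_)
        exact cbx_bound S t hC hc hbox ha hb h0 J n i j
          (Nat.lt_succ_iff.1 (Finset.mem_range.1 hi)) (Nat.lt_succ_iff.1 (Finset.mem_range.1 hj))
    _ = 4 * 4 ^ σ * C * (2 : ℝ) ^ (-(c * J)) *
          (∑ i ∈ Finset.range (n + 1), (2 : ℝ) ^ (-(σ * i))) ^ 2 := by
        rw [pow_two (∑ i ∈ Finset.range (n + 1), (2 : ℝ) ^ (-(σ * i))),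
          Finset.sum_mul_sum, Finset.mul_sum]
        refine Finset.sum_congr rfl fun i _ => ?_
        rw [Finset.mul_sum]
    _ ≤ 16 * C * (2 : ℝ) ^ (-(c * J)) * (2 / σ) ^ 2 := by
        have g1 := cbx_geo σ h0 h1 (n + 1)
        have g2 : 0 ≤ ∑ i ∈ Finset.range (n + 1), (2 : ℝ) ^ (-(σ * i)) :=
          Finset.sum_nonneg fun i _ => by positivity
        have g3 : (4 : ℝ) ^ σ ≤ 4 := by
          calc (4 : ℝ) ^ σ ≤ (4 : ℝ) ^ (1 : ℝ) :=
                Real.rpow_le_rpow_of_exponent_le (by norm_num) h1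
            _ = 4 := Real.rpow_one 4
        refine mul_le_mul ?_ (pow_le_pow_left₀ g2 g1 2) (by positivity) (by positivity)
        refine mul_le_mul_of_nonneg_right ?_ (by positivity)
        refine mul_le_mul_of_nonneg_right ?_ hC
        linarith
    _ = _ := by
        have g4 : σ ^ (-(2 : ℝ)) = (σ ^ 2)⁻¹ := by
          rw [Real.rpow_neg h0.le]
          norm_num
        rw [g4, div_pow]
        field_simp
        ring

end Pool.Agent.H92.EL
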