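import Pool.Agent.H92.EL.CStm

/-!
# Project ELL (MP_a3214d), block C: the number of central families (row C25)
-/

set_option autoImplicit false

open scoped BigOperators Topology
open Filter

namespace Pool.Agent.H92.EL

open Pool.Agent.H98.MF (Pre)

/-! ### real inequalities -/

theorem ccc_sqrt (a : ℝ) (ha : 0 ≤ a) : (1 + a) ^ (1 / 2 : ℝ) ≤ 2 * Real.exp (a / 4) := by
  rw [← Real.sqrt_eq_rpow]
  refine Real.sqrt_le_iff.2 ⟨by positivity, ?_⟩
  have h1 : Real.exp (a / 4) ^ 2 = Real.exp (a / 2) := by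
    rw [← Real.exp_nat_mul]
    congr 1
    push_cast
    ring
  have h2 := Real.add_one_le_exp (a / 2)
  rw [mul_pow, h1]
  nlinarith

theorem ccc_quart (N : ℝ) (hN : 1 ≤ N) : N ^ (1 / 4 : ℝ) = Real.exp (Real.log N / 4) := by
  rw [Real.rpow_def_of_pos (by linarith)]
  congr 1
  ring

theorem ccc_shift (N Y e : ℝ) (hN : 1 ≤ N) (hY : N ≤ Y) (he : -(1 / 2) ≤ e) :
    (1 + Real.log (Y / N)) ^ e ≤ 2 * N ^ (1 / 4 : ℝ) * (1 + Real.log Y) ^ e := by
  have hN0 : 0 < N := by linarith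
  have hY0 : 0 < Y := by linarith
  have ha : 0 ≤ Real.log N := Real.log_nonneg hN
  have hb : 0 ≤ Real.log (Y / N) := Real.log_nonneg ((one_le_div hN0).2 hY)
  have hL : Real.log Y = Real.log N + Real.log (Y / N) := by
    rw [Real.log_div hY0.ne' hN0.ne']
    ring
  rw [ccc_quart N hN, hL]
  generalize Real.log N = a at ha
  generalize Real.log (Y / N) = b at hb
  have h1b : 0 < 1 + b := by linarith
  have h1a : 0 < 1 + a := by linarith
  have hab : 0 < 1 + (a + b) := by linarith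
  have e1 : (1 + b) ^ e = (1 + b) ^ (e + 1 / 2) * (1 + b) ^ (-(1 / 2) : ℝ) := by
    rw [← Real.rpow_add h1b]
    congr 1
    ring
  have e2 : (1 + (a + b)) ^ e =
      (1 + (a + b)) ^ (e + 1 / 2) * (1 + (a + b)) ^ (-(1 / 2) : ℝ) := by
    rw [← Real.rpow_add hab]
    congr 1
    ring
  have h3 : (1 + b) ^ (e + 1 / 2) ≤ (1 + (a + b)) ^ (e + 1 / 2) :=
    Real.rpow_le_rpow h1b.le (by linarith) (by linarith)
  have h4 : (1 + b) ^ (-(1 / 2) : ℝ) ≤
      (1 + a) ^ (1 / 2 : ℝ) * (1 + (a + b)) ^ (-(1 / 2) : ℝ) := by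
    have h5 : (1 + (a + b)) ^ (1 / 2 : ℝ) ≤ (1 + a) ^ (1 / 2 : ℝ) * (1 + b) ^ (1 / 2 : ℝ) := by
      rw [← Real.mul_rpow h1a.le h1b.le]
      exact Real.rpow_le_rpow hab.le (by nlinarith [mul_nonneg ha hb]) (by norm_num)
    have hu : 0 < (1 + b) ^ (1 / 2 : ℝ) := Real.rpow_pos_of_pos h1b _
    have hv : 0 < (1 + (a + b)) ^ (1 / 2 : ℝ) := Real.rpow_pos_of_pos hab _
    rw [Real.rpow_neg h1b.le, Real.rpow_neg hab.le, ← div_eq_mul_inv, le_div_iff₀ hv,
      inv_mul_eq_div, div_le_iff₀ hu]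
    exact h5
  rw [e1, e2]
  have h6 := ccc_sqrt a ha
  have hP : 0 ≤ (1 + (a + b)) ^ (e + 1 / 2) := Real.rpow_nonneg hab.le _
  have hQ : 0 ≤ (1 + (a + b)) ^ (-(1 / 2) : ℝ) := Real.rpow_nonneg hab.le _
  calc (1 + b) ^ (e + 1 / 2) * (1 + b) ^ (-(1 / 2) : ℝ)
      ≤ (1 + (a + b)) ^ (e + 1 / 2) *
        ((1 + a) ^ (1 / 2 : ℝ) * (1 + (a + b)) ^ (-(1 / 2) : ℝ)) :=
        mul_le_mul h3 h4 (Real.rpow_nonneg h1b.le _) hP
    _ ≤ (1 + (a + b)) ^ (e + 1 / 2) *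
        ((2 * Real.exp (a / 4)) * (1 + (a + b)) ^ (-(1 / 2) : ℝ)) := by gcongr
    _ = _ := by ring

theorem ccc_pow0 (b L : ℝ) (hb : 0 ≤ b) (hbL : b ≤ L) :
    ∀ j : ℕ, L ^ (j + 1) - b ^ (j + 1) ≤ (j + 1) * (L - b) * L ^ j
  | 0 => by simp
  | j + 1 => by
    have h := ccc_pow0 b L hb hbL j
    have hL : 0 ≤ L := hb.trans hbL
    have h2 : b ^ (j + 1) ≤ L ^ (j + 1) := pow_le_pow_left₀ hb hbL _
    have h3 : L * (L ^ (j + 1) - b ^ (j + 1)) ≤ L * ((j + 1) * (L - b) * L ^ j) :=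
      mul_le_mul_of_nonneg_left h hL
    have h4 : (L - b) * b ^ (j + 1) ≤ (L - b) * L ^ (j + 1) :=
      mul_le_mul_of_nonneg_left h2 (by linarith)
    have e1 : L ^ (j + 1 + 1) - b ^ (j + 1 + 1) =
        L * (L ^ (j + 1) - b ^ (j + 1)) + (L - b) * b ^ (j + 1) := by ring
    have e2 : L * ((j + 1) * (L - b) * L ^ j) + (L - b) * L ^ (j + 1) =
        ((j + 1 : ℕ) + 1) * (L - b) * L ^ (j + 1) := by
      push_cast
      ring
    rw [e1, ← e2]
    linarith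

theorem ccc_pow (k : ℕ) (b L : ℝ) (hb : 0 ≤ b) (hbL : b ≤ L) :
    |b ^ k - L ^ k| ≤ k * (L - b) * (1 + L) ^ ((k : ℝ) - 1 / 2) := by
  have hL : 0 ≤ L := hb.trans hbL
  rw [abs_sub_comm, abs_of_nonneg (by linarith [pow_le_pow_left₀ hb hbL k])]
  rcases k with _ | j
  · simp
  · refine (ccc_pow0 b L hb hbL j).trans ?_
    have h1 : L ^ j ≤ (1 + L) ^ (((j + 1 : ℕ) : ℝ) - 1 / 2) := by
      have h2 : L ^ j ≤ (1 + L) ^ j := pow_le_pow_left₀ hL (by linarith) j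
      have h3 : (1 + L) ^ j = (1 + L) ^ (j : ℝ) := (Real.rpow_natCast _ _).symm
      rw [h3] at h2
      refine h2.trans (Real.rpow_le_rpow_of_exponent_le (by linarith) ?_)
      push_cast
      linarith
    push_cast at h1 ⊢
    have h0 : 0 ≤ ((j : ℝ) + 1) * (L - b) := mul_nonneg (by positivity) (by linarith)
    exact mul_le_mul_of_nonneg_left h1 h0

theorem ccc_big (k : ℕ) (Y N : ℝ) (hY : 1 ≤ Y) (hN : Y ≤ N) :
    Real.log Y ^ k ≤ 2 * N ^ (1 / 4 : ℝ) * (1 + Real.log Y) ^ ((k : ℝ) - 1 / 2) := by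
  have hL : 0 ≤ Real.log Y := Real.log_nonneg hY
  have h1 : Real.log Y ^ k ≤ (1 + Real.log Y) ^ k := pow_le_pow_left₀ hL (by linarith) k
  have h2 : (1 + Real.log Y) ^ k =
      (1 + Real.log Y) ^ ((k : ℝ) - 1 / 2) * (1 + Real.log Y) ^ (1 / 2 : ℝ) := by
    rw [← Real.rpow_add (by linarith), ← Real.rpow_natCast]
    congr 1
    ring
  have h3 := ccc_sqrt _ hL
  rw [← ccc_quart Y hY] at h3
  have h4 : Y ^ (1 / 4 : ℝ) ≤ N ^ (1 / 4 : ℝ) :=
    Real.rpow_le_rpow (by linarith) hN (by norm_num)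
  have h5 : 0 ≤ (1 + Real.log Y) ^ ((k : ℝ) - 1 / 2) := Real.rpow_nonneg (by linarith) _
  calc Real.log Y ^ k ≤ (1 + Real.log Y) ^ ((k : ℝ) - 1 / 2) *
        (1 + Real.log Y) ^ (1 / 2 : ℝ) := h1.trans h2.le
    _ ≤ (1 + Real.log Y) ^ ((k : ℝ) - 1 / 2) * (2 * N ^ (1 / 4 : ℝ)) :=
        mul_le_mul_of_nonneg_left (h3.trans (by linarith)) h5
    _ = _ := by ring

theorem ccc_log (N : ℝ) (hN : 1 ≤ N) : Real.log N ≤ 4 * N ^ (1 / 4 : ℝ) := by
  rw [ccc_quart N hN]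
  have := Real.add_one_le_exp (Real.log N / 4)
  linarith

/-! ### Fourier inversion -/

section

variable {l : ℕ} [Fact l.Prime] {m : ℕ} {ι : Type} [Fintype ι]

/-- the characters -/
noncomputable def cccX (b : ι → Fin m → ZMod l) : AddChar (ι → Fin m → ZMod l) ℂ where
  toFun c := ec (∑ u, c u ⬝ᵥ b u)
  map_zero_eq_one' := by simp [ec]
  map_add_eq_mul' := by
    intro c d
    simp only [Pi.add_apply, add_dotProduct, Finset.sum_add_distrib, ec,
      AddChar.map_add_eq_mul]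

theorem cccX_apply (b c : ι → Fin m → ZMod l) : cccX b c = ec (∑ u, c u ⬝ᵥ b u) := rfl

theorem ccc_norm_ec (a : ZMod l) : ‖ec a‖ = 1 := AddChar.norm_apply _ _

theorem ccc_ec_add (a b : ZMod l) : ec (a + b) = ec a * ec b := AddChar.map_add_eq_mul _ _ _

theorem cccX_eq_zero (b : ι → Fin m → ZMod l) : cccX b = 0 ↔ b = 0 := by
  classical
  constructor
  · intro h
    by_contra hb
    obtain ⟨u, hu⟩ := Function.ne_iff.1 hb
    obtain ⟨i, hi⟩ := Function.ne_iff.1 hu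
    have hi' : b u i ≠ 0 := hi
    have h1 : cccX b (Pi.single u (Pi.single i (b u i)⁻¹)) = 1 := by
      rw [h, AddChar.zero_apply]
    rw [cccX_apply] at h1
    have h2 : ∑ v, (Pi.single u (Pi.single i (b u i)⁻¹ : Fin m → ZMod l) :
        ι → Fin m → ZMod l) v ⬝ᵥ b v = 1 := by
      rw [Finset.sum_eq_single u]
      · rw [Pi.single_eq_same, single_dotProduct, inv_mul_cancel₀ hi']
      · intro v _ hv
        rw [Pi.single_eq_of_ne hv, zero_dotProduct]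
      · intro hu'
        exact absurd (Finset.mem_univ u) hu'
    rw [h2] at h1
    have h3 : (1 : ZMod l) = 0 := by
      apply ZMod.injective_stdAddChar
      rw [AddChar.map_zero_eq_one]
      exact h1
    exact one_ne_zero h3
  · rintro rfl
    ext c
    rw [cccX_apply, AddChar.zero_apply]
    simp [ec]

open Classical in
/-- the Fourier coefficients -/
noncomputable def cccG (g : (ι → Fin m → ZMod l) → ℝ) (c : ι → Fin m → ZMod l) : ℂ :=
  (1 / (((l : ℝ) ^ m) ^ Fintype.card ι : ℝ) : ℝ) *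
    ∑ t : ι → Fin m → ZMod l, (g t : ℂ) * ec (-∑ u, c u ⬝ᵥ t u)

open Classical in
theorem card_ccc : (Fintype.card (ι → Fin m → ZMod l) : ℝ) = ((l : ℝ) ^ m) ^ Fintype.card ι := by
  classical
  rw [Fintype.card_fun, Fintype.card_fun, ZMod.card, Fintype.card_fin]
  push_cast
  rfl

open Classical in
theorem cccG_inv (g : (ι → Fin m → ZMod l) → ℝ) (t : ι → Fin m → ZMod l) :
    (g t : ℂ) = ∑ c : ι → Fin m → ZMod l, cccG g c * ec (∑ u, c u ⬝ᵥ t u) := by
  classical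
  have hq : (((l : ℝ) ^ m) ^ Fintype.card ι : ℝ) ≠ 0 := by
    have : (l : ℝ) ≠ 0 := by exact_mod_cast (Fact.out : l.Prime).ne_zero
    positivity
  have h1 : ∀ t' : ι → Fin m → ZMod l,
      ∑ c : ι → Fin m → ZMod l, ec (-∑ u, c u ⬝ᵥ t' u) * ec (∑ u, c u ⬝ᵥ t u) =
        if t' = t then ((((l : ℝ) ^ m) ^ Fintype.card ι : ℝ) : ℂ) else 0 := by
    intro t'
    have h2 : ∀ c : ι → Fin m → ZMod l, ec (-∑ u, c u ⬝ᵥ t' u) * ec (∑ u, c u ⬝ᵥ t u) =
        cccX (t - t') c := by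
      intro c
      rw [cccX_apply, ← ccc_ec_add]
      congr 1
      simp only [Pi.sub_apply, dotProduct_sub, Finset.sum_sub_distrib]
      ring
    rw [Finset.sum_congr rfl fun c _ => h2 c, AddChar.sum_eq_ite]
    by_cases ht : t' = t
    · rw [if_pos ((cccX_eq_zero _).2 (by rw [ht, sub_self])), if_pos ht, ← card_ccc]
      push_cast
      rfl
    · rw [if_neg (fun h => ht (sub_eq_zero.1 ((cccX_eq_zero _).1 h)).symm), if_neg ht]
  unfold cccG
  have h3 : ∑ c : ι → Fin m → ZMod l,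
      ((1 / (((l : ℝ) ^ m) ^ Fintype.card ι : ℝ) : ℝ) *
        ∑ t' : ι → Fin m → ZMod l, (g t' : ℂ) * ec (-∑ u, c u ⬝ᵥ t' u)) *
          ec (∑ u, c u ⬝ᵥ t u) =
      ((1 / (((l : ℝ) ^ m) ^ Fintype.card ι : ℝ) : ℝ) : ℂ) *
        ∑ t' : ι → Fin m → ZMod l, (g t' : ℂ) *
          ∑ c : ι → Fin m → ZMod l, ec (-∑ u, c u ⬝ᵥ t' u) * ec (∑ u, c u ⬝ᵥ t u) := by
    simp only [Finset.mul_sum, Finset.sum_mul]
    rw [Finset.sum_comm]
    refine Finset.sum_congr rfl fun t' _ => Finset.sum_congr rfl fun c _ => ?_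
    ring
  rw [h3, Finset.sum_congr rfl fun t' _ => by rw [h1 t']]
  rw [Finset.sum_eq_single t]
  · rw [if_pos rfl, mul_comm (g t : ℂ), ← mul_assoc, ← Complex.ofReal_mul,
      one_div_mul_cancel hq, Complex.ofReal_one, one_mul]
  · intro t' _ ht
    rw [if_neg ht, mul_zero]
  · intro h
    exact absurd (Finset.mem_univ t) h

theorem norm_cccG (g : (ι → Fin m → ZMod l) → ℝ) (hg : ∀ t, |g t| ≤ 1)
    (c : ι → Fin m → ZMod l) : ‖cccG g c‖ ≤ 1 := by
  classical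
  have hq : 0 < (((l : ℝ) ^ m) ^ Fintype.card ι : ℝ) := by
    have : 0 < (l : ℝ) := by exact_mod_cast (Fact.out : l.Prime).pos
    positivity
  unfold cccG
  rw [norm_mul, Complex.norm_real, Real.norm_of_nonneg (by positivity)]
  have h1 : ‖∑ t : ι → Fin m → ZMod l, (g t : ℂ) * ec (-∑ u, c u ⬝ᵥ t u)‖ ≤
      ((l : ℝ) ^ m) ^ Fintype.card ι := by
    refine (norm_sum_le _ _).trans ?_
    rw [← card_ccc (l := l) (m := m) (ι := ι)]
    have h2 : ∀ t ∈ (Finset.univ : Finset (ι → Fin m → ZMod l)),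
        ‖(g t : ℂ) * ec (-∑ u, c u ⬝ᵥ t u)‖ ≤ 1 := by
      intro t _
      rw [norm_mul, ccc_norm_ec, mul_one, Complex.norm_real]
      exact hg t
    refine (Finset.sum_le_sum h2).trans ?_
    simp
  calc _ ≤ 1 / ((l : ℝ) ^ m) ^ Fintype.card ι * ((l : ℝ) ^ m) ^ Fintype.card ι :=
        mul_le_mul_of_nonneg_left h1 (by positivity)
    _ = 1 := one_div_mul_cancel hq.ne'

open Classical in
theorem cccG_zero (g : (ι → Fin m → ZMod l) → ℝ) :
    cccG g 0 = (((1 / ((l : ℝ) ^ m) ^ Fintype.card ι) * ∑ t, g t : ℝ) : ℂ) := by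
  unfold cccG
  have h : ∀ t : ι → Fin m → ZMod l,
      ec (-∑ u, (0 : ι → Fin m → ZMod l) u ⬝ᵥ t u) = 1 := by
    intro t
    simp [ec]
  simp only [h, mul_one]
  push_cast
  rfl

end

/-! ### one character -/

theorem ccc_main {l : ℕ} [Fact l.Prime] (S : SysL l) (k : ℕ) (K C1 Y B : ℝ) (hK : 0 ≤ K)
    (hC1 : 0 ≤ C1) (hY : 1 ≤ Y) (h : (S.P →₀ ℕ) → ℂ)
    (hs : Summable fun f => ‖h f‖ * (S.nf f : ℝ) ^ (-(3 / 4) : ℝ))
    (hB : ∑' f, ‖h f‖ * (S.nf f : ℝ) ^ (-(3 / 4) : ℝ) ≤ B) (D : ℝ → ℂ) (tr : Prop)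
    [Decidable tr]
    (hD : ∀ Z : ℝ, 1 ≤ Z → ‖D Z - (if tr then ((K * (Z * Real.log Z ^ k) : ℝ) : ℂ) else 0)‖ ≤
      C1 * Z * (1 + Real.log Z) ^ ((k : ℝ) - 1 / 2)) :
    ‖∑ f ∈ S.idl Y, h f * D (Y / S.nf f) -
      (if tr then (K * (Y * Real.log Y ^ k) : ℝ) * ∑' f, h f * (((S.nf f : ℝ)⁻¹ : ℝ) : ℂ)
        else 0)‖ ≤
      (2 * C1 + K * (4 * k + 2)) * B * Y * (1 + Real.log Y) ^ ((k : ℝ) - 1 / 2) := by
  classical
  have hY0 : 0 < Y := by linarith
  have hL : 0 ≤ Real.log Y := Real.log_nonneg hY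
  have hE : 0 ≤ (1 + Real.log Y) ^ ((k : ℝ) - 1 / 2) := Real.rpow_nonneg (by linarith) _
  have hN1 : ∀ f, (1 : ℝ) ≤ S.nf f := fun f => by exact_mod_cast S.nf_pos f
  have hN0 : ∀ f, (0 : ℝ) < S.nf f := fun f => lt_of_lt_of_le one_pos (hN1 f)
  have hq : ∀ f, (S.nf f : ℝ) ^ (-(3 / 4) : ℝ) = (S.nf f : ℝ)⁻¹ * (S.nf f : ℝ) ^ (1 / 4 : ℝ) := by
    intro f
    rw [← Real.rpow_neg_one, ← Real.rpow_add (hN0 f)]
    congr 1
    norm_num
  have hpos : ∀ f, 0 ≤ ‖h f‖ * (S.nf f : ℝ) ^ (-(3 / 4) : ℝ) := fun f =>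
    mul_nonneg (norm_nonneg _) (Real.rpow_nonneg (hN0 f).le _)
  -- the error terms
  have e1 : ‖∑ f ∈ S.idl Y, h f * (D (Y / S.nf f) -
      (if tr then ((K * ((Y / S.nf f) * Real.log (Y / S.nf f) ^ k) : ℝ) : ℂ) else 0))‖ ≤
      2 * C1 * B * Y * (1 + Real.log Y) ^ ((k : ℝ) - 1 / 2) := by
    refine (norm_sum_le _ _).trans ?_
    have h1 : ∀ f ∈ S.idl Y, ‖h f * (D (Y / S.nf f) -
      (if tr then ((K * ((Y / S.nf f) * Real.log (Y / S.nf f) ^ k) : ℝ) : ℂ) else 0))‖ ≤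
        2 * C1 * Y * (1 + Real.log Y) ^ ((k : ℝ) - 1 / 2) *
          (‖h f‖ * (S.nf f : ℝ) ^ (-(3 / 4) : ℝ)) := by
      intro f hf
      have hfY : (S.nf f : ℝ) ≤ Y := S.mem_idl.1 hf
      rw [norm_mul]
      have h2 := hD (Y / S.nf f) ((one_le_div (hN0 f)).2 hfY)
      have h3 := ccc_shift (S.nf f) Y ((k : ℝ) - 1 / 2) (hN1 f) hfY (by
        have : (0 : ℝ) ≤ k := Nat.cast_nonneg k
        linarith)
      have h4 : C1 * (Y / S.nf f) * (1 + Real.log (Y / S.nf f)) ^ ((k : ℝ) - 1 / 2) ≤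
          C1 * (Y / S.nf f) * (2 * (S.nf f : ℝ) ^ (1 / 4 : ℝ) *
            (1 + Real.log Y) ^ ((k : ℝ) - 1 / 2)) :=
        mul_le_mul_of_nonneg_left h3 (mul_nonneg hC1 (div_nonneg hY0.le (hN0 f).le))
      refine (mul_le_mul_of_nonneg_left (h2.trans h4) (norm_nonneg _)).trans (le_of_eq ?_)
      rw [hq f]
      ring
    refine (Finset.sum_le_sum h1).trans ?_
    rw [← Finset.mul_sum]
    have h5 : ∑ f ∈ S.idl Y, ‖h f‖ * (S.nf f : ℝ) ^ (-(3 / 4) : ℝ) ≤ B :=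
      (hs.sum_le_tsum _ fun f _ => hpos f).trans hB
    calc _ ≤ 2 * C1 * Y * (1 + Real.log Y) ^ ((k : ℝ) - 1 / 2) * B :=
          mul_le_mul_of_nonneg_left h5 (by positivity)
      _ = _ := by ring
  have hB0 : 0 ≤ B := (tsum_nonneg hpos).trans hB
  -- the main terms
  have e2 : ‖∑ f ∈ S.idl Y, h f *
      (if tr then ((K * ((Y / S.nf f) * Real.log (Y / S.nf f) ^ k) : ℝ) : ℂ) else 0) -
      (if tr then (K * (Y * Real.log Y ^ k) : ℝ) * ∑' f, h f * (((S.nf f : ℝ)⁻¹ : ℝ) : ℂ)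
        else 0)‖ ≤
      K * (4 * k + 2) * B * Y * (1 + Real.log Y) ^ ((k : ℝ) - 1 / 2) := by
    by_cases htr : tr
    · simp only [if_pos htr]
      set w : (S.P →₀ ℕ) → ℝ := fun f =>
        if f ∈ S.idl Y then Real.log (Y / S.nf f) ^ k else 0 with hw
      have hv : Summable fun f => h f * (((S.nf f : ℝ)⁻¹ : ℝ) : ℂ) := by
        refine Summable.of_norm_bounded hs fun f => ?_
        rw [norm_mul, Complex.norm_real, Real.norm_of_nonneg (inv_nonneg.2 (hN0 f).le)]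
        refine mul_le_mul_of_nonneg_left ?_ (norm_nonneg _)
        rw [hq f]
        exact le_mul_of_one_le_right (inv_nonneg.2 (hN0 f).le)
          (Real.one_le_rpow (hN1 f) (by norm_num))
      have hz : ∀ f, f ∉ S.idl Y → h f * (((S.nf f : ℝ)⁻¹ : ℝ) : ℂ) * (w f : ℂ) = 0 := by
        intro f hf
        rw [hw]
        simp only [if_neg hf, Complex.ofReal_zero, mul_zero]
      have hvw : Summable fun f => h f * (((S.nf f : ℝ)⁻¹ : ℝ) : ℂ) * (w f : ℂ) :=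
        summable_of_ne_finset_zero hz
      have h6 : ∑ f ∈ S.idl Y, h f * ((K * ((Y / S.nf f) * Real.log (Y / S.nf f) ^ k) : ℝ) : ℂ) =
          ((K * Y : ℝ) : ℂ) * ∑' f, h f * (((S.nf f : ℝ)⁻¹ : ℝ) : ℂ) * (w f : ℂ) := by
        rw [tsum_eq_sum hz, Finset.mul_sum]
        refine Finset.sum_congr rfl fun f hf => ?_
        rw [hw]
        simp only [if_pos hf]
        push_cast
        rw [div_eq_mul_inv]
        ring
      have h7 : ((K * (Y * Real.log Y ^ k) : ℝ) : ℂ) *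
          ∑' f, h f * (((S.nf f : ℝ)⁻¹ : ℝ) : ℂ) =
          ((K * Y : ℝ) : ℂ) * ∑' f, h f * (((S.nf f : ℝ)⁻¹ : ℝ) : ℂ) *
            ((Real.log Y ^ k : ℝ) : ℂ) := by
        rw [tsum_mul_right]
        push_cast
        ring
      rw [h6, h7, ← mul_sub, ← hvw.tsum_sub (hv.mul_right _), norm_mul, Complex.norm_real,
        Real.norm_of_nonneg (mul_nonneg hK hY0.le)]
      have h8 : ‖∑' f, (h f * (((S.nf f : ℝ)⁻¹ : ℝ) : ℂ) * (w f : ℂ) -
          h f * (((S.nf f : ℝ)⁻¹ : ℝ) : ℂ) * ((Real.log Y ^ k : ℝ) : ℂ))‖ ≤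
          ((4 * k + 2) * (1 + Real.log Y) ^ ((k : ℝ) - 1 / 2)) *
            ∑' f, ‖h f‖ * (S.nf f : ℝ) ^ (-(3 / 4) : ℝ) := by
        refine tsum_of_norm_bounded (hs.hasSum.mul_left _) fun f => ?_
        rw [← mul_sub, ← Complex.ofReal_sub, norm_mul, norm_mul, Complex.norm_real,
          Complex.norm_real, Real.norm_of_nonneg (inv_nonneg.2 (hN0 f).le), hq f,
          Real.norm_eq_abs]
        have h9 : |w f - Real.log Y ^ k| ≤
            ((4 * k + 2) * (1 + Real.log Y) ^ ((k : ℝ) - 1 / 2)) *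
              (S.nf f : ℝ) ^ (1 / 4 : ℝ) := by
          have hq4 : 0 ≤ (S.nf f : ℝ) ^ (1 / 4 : ℝ) := Real.rpow_nonneg (hN0 f).le _
          have hk0 : (0 : ℝ) ≤ k := Nat.cast_nonneg k
          have hprod : 0 ≤ (1 + Real.log Y) ^ ((k : ℝ) - 1 / 2) * (S.nf f : ℝ) ^ (1 / 4 : ℝ) :=
            mul_nonneg hE hq4
          by_cases hf : f ∈ S.idl Y
          · have hfY : (S.nf f : ℝ) ≤ Y := S.mem_idl.1 hf
            have hb : 0 ≤ Real.log (Y / S.nf f) :=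
              Real.log_nonneg ((one_le_div (hN0 f)).2 hfY)
            have hLb : Real.log Y - Real.log (Y / S.nf f) = Real.log (S.nf f) := by
              rw [Real.log_div hY0.ne' (hN0 f).ne']
              ring
            have hl0 : 0 ≤ Real.log (S.nf f) := Real.log_nonneg (hN1 f)
            have h10 := ccc_pow k (Real.log (Y / S.nf f)) (Real.log Y) hb (by linarith)
            rw [hLb] at h10
            have h11 := ccc_log (S.nf f) (hN1 f)
            rw [hw]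
            simp only [if_pos hf]
            refine h10.trans ?_
            have h12 : (k : ℝ) * Real.log (S.nf f) ≤ k * (4 * (S.nf f : ℝ) ^ (1 / 4 : ℝ)) :=
              mul_le_mul_of_nonneg_left h11 hk0
            have h13 := mul_le_mul_of_nonneg_right h12 hE
            nlinarith
          · have hfY : Y ≤ S.nf f := (lt_of_not_ge fun h => hf (S.mem_idl.2 h)).le
            rw [hw]
            simp only [if_neg hf, zero_sub, abs_neg]
            rw [abs_of_nonneg (pow_nonneg hL k)]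
            have h10 := ccc_big k Y (S.nf f) hY hfY
            nlinarith [mul_nonneg hk0 hprod]
        calc ‖h f‖ * (S.nf f : ℝ)⁻¹ * |w f - Real.log Y ^ k|
            ≤ ‖h f‖ * (S.nf f : ℝ)⁻¹ *
              (((4 * k + 2) * (1 + Real.log Y) ^ ((k : ℝ) - 1 / 2)) *
                (S.nf f : ℝ) ^ (1 / 4 : ℝ)) :=
              mul_le_mul_of_nonneg_left h9
                (mul_nonneg (norm_nonneg _) (inv_nonneg.2 (hN0 f).le))
          _ = _ := by ring
      have hk0 : (0 : ℝ) ≤ k := Nat.cast_nonneg k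
      calc _ ≤ K * Y * (((4 * k + 2) * (1 + Real.log Y) ^ ((k : ℝ) - 1 / 2)) *
            ∑' f, ‖h f‖ * (S.nf f : ℝ) ^ (-(3 / 4) : ℝ)) :=
            mul_le_mul_of_nonneg_left h8 (mul_nonneg hK hY0.le)
        _ ≤ K * Y * (((4 * k + 2) * (1 + Real.log Y) ^ ((k : ℝ) - 1 / 2)) * B) := by
            refine mul_le_mul_of_nonneg_left (mul_le_mul_of_nonneg_left hB ?_)
              (mul_nonneg hK hY0.le)
            exact mul_nonneg (by linarith) hE
        _ = _ := by ring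
    · simp only [if_neg htr, mul_zero, Finset.sum_const_zero, sub_zero, norm_zero]
      have hk0 : (0 : ℝ) ≤ k := Nat.cast_nonneg k
      positivity
  have e3 : ∑ f ∈ S.idl Y, h f * D (Y / S.nf f) -
      (if tr then (K * (Y * Real.log Y ^ k) : ℝ) * ∑' f, h f * (((S.nf f : ℝ)⁻¹ : ℝ) : ℂ)
        else 0) =
      ∑ f ∈ S.idl Y, h f * (D (Y / S.nf f) -
        (if tr then ((K * ((Y / S.nf f) * Real.log (Y / S.nf f) ^ k) : ℝ) : ℂ) else 0)) +
      (∑ f ∈ S.idl Y, h f *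
        (if tr then ((K * ((Y / S.nf f) * Real.log (Y / S.nf f) ^ k) : ℝ) : ℂ) else 0) -
        (if tr then (K * (Y * Real.log Y ^ k) : ℝ) * ∑' f, h f * (((S.nf f : ℝ)⁻¹ : ℝ) : ℂ)
          else 0)) := by
    simp only [mul_sub, Finset.sum_sub_distrib]
    ring
  rw [e3]
  refine (norm_add_le _ _).trans ((add_le_add e1 e2).trans (le_of_eq ?_))
  ring

/-- the number of central families -/
theorem sccL (h1 : SDiv) (h2 : SCmp) : SCcL := by
  classical
  intro l _ S ι _ _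
  obtain ⟨C1, hC1, H1⟩ := h1 l S ι
  obtain ⟨A0, C2, κ0, hA0, hC2, hκ0, H2⟩ := h2 l S ι
  have hn1 : 1 ≤ Fintype.card ι := Fintype.card_pos
  obtain ⟨k, hk⟩ : ∃ k, Fintype.card ι = k + 1 := ⟨Fintype.card ι - 1, by omega⟩
  have hk1 : Fintype.card ι - 1 = k := by omega
  have hke : (Fintype.card ι : ℝ) - 3 / 2 = (k : ℝ) - 1 / 2 := by
    rw [hk]
    push_cast
    ring
  rw [hk1, hke] at H1
  set K : ℝ := S.κ ^ Fintype.card ι / (k.factorial : ℝ) with hKdef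
  have hK : 0 < K := div_pos (pow_pos S.κ_pos _) (by exact_mod_cast k.factorial_pos)
  set q : ℝ := ((l : ℝ) ^ S.m) ^ Fintype.card ι with hq
  have hq0 : 0 < q := by
    have : 0 < (l : ℝ) := by exact_mod_cast (Fact.out : l.Prime).pos
    positivity
  refine ⟨K * κ0, A0, q * ((2 * C1 + K * (4 * k + 2)) * C2), mul_pos hK hκ0, hA0, by positivity,
    fun y hy g hg Y hY => ?_⟩
  rw [hk1, hke]
  -- one character
  have main : ∀ c : ι → S.T, ‖S.CCc y c Y -
      (if c = 0 then ((K * κ0 * S.ty0 ι y * (Y * Real.log Y ^ k) : ℝ) : ℂ) else 0)‖ ≤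
      (2 * C1 + K * (4 * k + 2)) * (C2 * S.lo A0 y) * Y *
        (1 + Real.log Y) ^ ((k : ℝ) - 1 / 2) := by
    intro c
    obtain ⟨h, hs, hB, hE, h0⟩ := H2 c y hy
    have hm := ccc_main S k K C1 Y (C2 * S.lo A0 y) hK.le hC1 hY h hs hB (S.DD c)
      (∀ u, c u = 0) (fun Z hZ => H1 c Z hZ)
    rw [← hE Y hY] at hm
    have e4 : (if c = 0 then ((K * κ0 * S.ty0 ι y * (Y * Real.log Y ^ k) : ℝ) : ℂ) else 0) =
        (if ∀ u, c u = 0 then ((K * (Y * Real.log Y ^ k) : ℝ) : ℂ) *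
          ∑' f, h f * (((S.nf f : ℝ)⁻¹ : ℝ) : ℂ) else 0) := by
      by_cases hc : ∀ u, c u = 0
      · have hc0 : c = 0 := funext hc
        rw [if_pos hc, if_pos hc0, h0 hc]
        push_cast
        ring
      · rw [if_neg hc, if_neg fun h => hc fun u => by rw [h]; rfl]
    rw [e4]
    exact hm
  -- Fourier expansion
  have e5 : (S.CC y g Y : ℂ) = ∑ c : ι → S.T, cccG g c * S.CCc y c Y := by
    unfold SysL.CC SysL.CCc
    simp only [Finset.mul_sum]
    rw [Finset.sum_comm, Complex.ofReal_sum]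
    refine Finset.sum_congr rfl fun x _ => ?_
    by_cases hx : S.Gd x ∧ S.Awy y x ∧ ((∏ u, S.nm (x u) : ℕ) : ℝ) ≤ Y
    · simp only [if_pos hx]
      exact cccG_inv g _
    · simp only [if_neg hx, mul_zero, Finset.sum_const_zero, Complex.ofReal_zero]
  have e6 : ((K * κ0 * ((1 / q) * ∑ t : ι → S.T, g t) * S.ty0 ι y *
      (Y * Real.log Y ^ k) : ℝ) : ℂ) =
      ∑ c : ι → S.T, cccG g c *
        (if c = 0 then ((K * κ0 * S.ty0 ι y * (Y * Real.log Y ^ k) : ℝ) : ℂ) else 0) := by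
    refine Eq.trans ?_ (Finset.sum_eq_single (0 : ι → S.T) ?_ ?_).symm
    · rw [if_pos rfl, cccG_zero, ← Complex.ofReal_mul]
      congr 1
      rw [hq]
      ring
    · intro c _ hc
      rw [if_neg hc, mul_zero]
    · intro h
      exact absurd (Finset.mem_univ _) h
  rw [← Real.norm_eq_abs, ← Complex.norm_real, Complex.ofReal_sub, e5, e6,
    ← Finset.sum_sub_distrib]
  refine (norm_sum_le _ _).trans ?_
  have h7 : ∀ c ∈ (Finset.univ : Finset (ι → S.T)), ‖cccG g c * S.CCc y c Y - cccG g c *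
      (if c = 0 then ((K * κ0 * S.ty0 ι y * (Y * Real.log Y ^ k) : ℝ) : ℂ) else 0)‖ ≤
      (2 * C1 + K * (4 * k + 2)) * (C2 * S.lo A0 y) * Y *
        (1 + Real.log Y) ^ ((k : ℝ) - 1 / 2) := by
    intro c _
    rw [← mul_sub, norm_mul]
    refine (mul_le_mul_of_nonneg_right (norm_cccG g hg c) (norm_nonneg _)).trans ?_
    rw [one_mul]
    exact main c
  refine (Finset.sum_le_sum h7).trans (le_of_eq ?_)
  rw [Finset.sum_const, nsmul_eq_mul, Finset.card_univ, card_ccc, ← hq]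
  ring

end Pool.Agent.H92.EL
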