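import Pool.Agent.H92.EL.CStm

/-!
# Project ELL (MP_a3214d), block C, row C11: the characters of the isolated variables
-/

set_option autoImplicit false

open scoped BigOperators Topology
open Filter

namespace Pool.Agent.H92.EL

section

variable {l : ℕ} [Fact l.Prime] (S : SysL l)

theorem ch1_J (p q : S.P) (h : ∀ g, S.ac g p ≠ q) :
    S.J p q = ∑ g : S.D, S.s (S.ac g q) p := by
  unfold SysL.J
  have h1 : ∀ g : S.D, ((S.e g)⁻¹ : (ZMod l)ˣ) * S.s (S.ac g p) q = S.s (S.ac g⁻¹ q) p := by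
    intro g
    have h2 : S.ac g (S.ac g⁻¹ q) = q := by rw [← S.ac_mul, mul_inv_cancel, S.ac_one]
    have h3 : S.ac g⁻¹ q ≠ p := fun h4 => h g (by rw [← h4, h2])
    have h5 := S.s_ac g (S.ac g⁻¹ q) p h3
    rw [h2] at h5
    rw [S.symm _ _ (h g), h5, Units.inv_mul_cancel_left]
  rw [Finset.sum_congr rfl fun g _ => h1 g]
  exact Equiv.sum_comp (Equiv.inv S.D) fun g => S.s (S.ac g q) p

/-- the coefficient of the pair `u`, `v` at `g` -/
def ch1k {ι : Type} (b : ι → ι → ZMod l) (u v : ι) (g : S.D) : ZMod l :=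
  b u v * (((S.e g)⁻¹ : (ZMod l)ˣ) : ZMod l) + b v u

theorem ch1_pair {ι : Type} (b : ι → ι → ZMod l) (u v : ι) (p q : S.P)
    (h : ∀ g, S.ac g p ≠ q) :
    b u v * S.J q p + b v u * S.J p q = ∑ g : S.D, ch1k S b u v g * S.s (S.ac g q) p := by
  rw [ch1_J S p q h]
  unfold SysL.J ch1k
  rw [Finset.mul_sum, Finset.mul_sum, ← Finset.sum_add_distrib]
  exact Finset.sum_congr rfl fun g _ => by ring

theorem ch1_lk {ι : Type} (b : ι → ι → ZMod l) (u v : ι) :
    (∀ g, ch1k S b u v g = 0) ↔ ¬ S.Lk b u v := by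
  unfold SysL.Lk ch1k
  push Not
  constructor
  · intro h g
    have h1 := h g⁻¹
    rw [map_inv, inv_inv] at h1
    have h2 : (((S.e g)⁻¹ : (ZMod l)ˣ) : ZMod l) * (b u v * ((S.e g : (ZMod l)ˣ) : ZMod l) +
        b v u) = b u v + (((S.e g)⁻¹ : (ZMod l)ˣ) : ZMod l) * b v u := by
      have h3 : (((S.e g)⁻¹ : (ZMod l)ˣ) : ZMod l) * ((S.e g : (ZMod l)ˣ) : ZMod l) = 1 :=
        Units.inv_mul _
      linear_combination (b u v) * h3
    rw [← h2, h1, mul_zero]
  · intro h g
    have h1 := h g⁻¹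
    rw [map_inv, inv_inv] at h1
    have h3 : ((S.e g : (ZMod l)ˣ) : ZMod l) * (((S.e g)⁻¹ : (ZMod l)ˣ) : ZMod l) = 1 :=
      Units.mul_inv _
    have h2 : (((S.e g)⁻¹ : (ZMod l)ˣ) : ZMod l) * (b u v + ((S.e g : (ZMod l)ˣ) : ZMod l) *
        b v u) = b u v * (((S.e g)⁻¹ : (ZMod l)ˣ) : ZMod l) + b v u := by
      linear_combination (b v u) * h3
    rw [← h2, h1, mul_zero]

/-- the symbol at `p` as a homomorphism -/
noncomputable def ch1p (p : S.P) : (S.P →₀ ZMod l) →+ ZMod l :=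
  Finsupp.liftAddHom fun q => AddMonoidHom.mulRight (S.s q p)

theorem ch1p_apply (p : S.P) (f : S.P →₀ ZMod l) :
    ch1p S p f = f.sum fun q t => t * S.s q p := rfl

theorem ch1p_single (p q : S.P) (t : ZMod l) : ch1p S p (Finsupp.single q t) = t * S.s q p := by
  rw [ch1p_apply, Finsupp.sum_single_index (zero_mul _)]

theorem ch1_ex (c : S.El) (f : S.P →₀ ZMod l) (p : S.P) :
    S.ex (c + (0, f)) p = S.ex c p + ch1p S p f := by
  unfold SysL.ex
  rw [← ch1p_apply, ← ch1p_apply, Prod.snd_add, Prod.fst_add, map_add, add_zero]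
  ring

variable {ι : Type} [Fintype ι] (b : ι → ι → ZMod l) (y : ι → Finset S.P)

/-- the additional class -/
noncomputable def ch1F (u : ι) : S.P →₀ ZMod l :=
  ∑ v, ∑ q ∈ y v, ∑ g : S.D, Finsupp.single (S.ac g q) (ch1k S b u v g)

theorem ch1p_ch1F (u : ι) (p : S.P) :
    ch1p S p (ch1F S b y u) = ∑ v, ∑ q ∈ y v, ∑ g : S.D, ch1k S b u v g * S.s (S.ac g q) p := by
  unfold ch1F
  rw [map_sum]
  refine Finset.sum_congr rfl fun v _ => ?_
  rw [map_sum]
  refine Finset.sum_congr rfl fun q _ => ?_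
  rw [map_sum]
  exact Finset.sum_congr rfl fun g _ => ch1p_single S p _ _

theorem ch1F_zero (u : ι) (r : S.P) (h : ∀ v, ∀ q ∈ y v, ∀ g, S.ac g q ≠ r) :
    ch1F S b y u r = 0 := by
  unfold ch1F
  rw [Finsupp.finsetSum_apply]
  refine Finset.sum_eq_zero fun v _ => ?_
  rw [Finsupp.finsetSum_apply]
  refine Finset.sum_eq_zero fun q hq => ?_
  rw [Finsupp.finsetSum_apply]
  refine Finset.sum_eq_zero fun g _ => ?_
  rw [Finsupp.single_apply, if_neg (h v q hq g)]

theorem ch1F_val (hy : S.Gd y) (u v : ι) (q : S.P) (hq : q ∈ y v) (g : S.D) :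
    ch1F S b y u (S.ac g q) = ch1k S b u v g := by
  classical
  have key : ∀ v', ∀ q' ∈ y v', ∀ g', S.ac g' q' = S.ac g q → v' = v ∧ q' = q ∧ g' = g := by
    intro v' q' hq' g' h
    have h1 : S.ac (g'⁻¹ * g) q = q' := by
      rw [S.ac_mul, ← h, ← S.ac_mul, inv_mul_cancel, S.ac_one]
    obtain ⟨h2, h3⟩ := hy.2 v v' q hq q' hq' _ h1
    subst h2
    subst h3
    have h4 := hy.1 _ _ hq _ h1
    exact ⟨rfl, rfl, (inv_mul_eq_one.1 h4)⟩
  unfold ch1F
  rw [Finsupp.finsetSum_apply, Finset.sum_eq_single v]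
  · rw [Finsupp.finsetSum_apply, Finset.sum_eq_single q]
    · rw [Finsupp.finsetSum_apply, Finset.sum_eq_single g]
      · rw [Finsupp.single_apply, if_pos rfl]
      · intro g' _ hne
        rw [Finsupp.single_apply, if_neg]
        exact fun h => hne (key v q hq g' h).2.2
      · exact fun h => absurd (Finset.mem_univ _) h
    · intro q' hq' hne
      rw [Finsupp.finsetSum_apply]
      refine Finset.sum_eq_zero fun g' _ => ?_
      rw [Finsupp.single_apply, if_neg]
      exact fun h => hne (key v q' hq' g' h).2.1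
    · exact fun h => absurd hq h
  · intro v' _ hne
    rw [Finsupp.finsetSum_apply]
    refine Finset.sum_eq_zero fun q' hq' => ?_
    rw [Finsupp.finsetSum_apply]
    refine Finset.sum_eq_zero fun g' _ => ?_
    rw [Finsupp.single_apply, if_neg]
    exact fun h => hne (key v' q' hq' g' h).1
  · exact fun h => absurd (Finset.mem_univ _) h

open Classical in
/-- the kernel of the double sums -/
noncomputable def ch1K (p q : S.P) : ZMod l := if p = q then 0 else S.J q p

/-- the double sums -/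
noncomputable def ch1D (x z : ι → Finset S.P) : ZMod l :=
  ∑ u, ∑ v, b u v * ∑ p ∈ x u, ∑ q ∈ z v, ch1K S p q

theorem ch1_EE (c : ι → S.El) (x : ι → Finset S.P) :
    S.EE b c x = ch1D S b x x + ∑ u, ∑ p ∈ x u, S.ex (c u) p := rfl

open Classical in
omit [Fintype ι] in
theorem ch1_un {x y : ι → Finset S.P} (h : ∀ u, x u = ∅ ∨ y u = ∅) (u : ι)
    (f : S.P → ZMod l) : ∑ p ∈ x u ∪ y u, f p = ∑ p ∈ x u, f p + ∑ p ∈ y u, f p := by
  refine Finset.sum_union ?_
  rcases h u with h1 | h1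
  · rw [h1]; exact Finset.disjoint_empty_left _
  · rw [h1]; exact Finset.disjoint_empty_right _

open Classical in
theorem ch1_D4 {x y : ι → Finset S.P} (h : ∀ u, x u = ∅ ∨ y u = ∅) :
    ch1D S b (fun u => x u ∪ y u) (fun u => x u ∪ y u) =
      ch1D S b x x + (ch1D S b x y + ch1D S b y x) + ch1D S b y y := by
  unfold ch1D
  simp only [← Finset.sum_add_distrib]
  refine Finset.sum_congr rfl fun u _ => Finset.sum_congr rfl fun v _ => ?_
  rw [ch1_un S h u]
  have h1 : ∀ z : Finset S.P, ∑ p ∈ z, ∑ q ∈ x v ∪ y v, ch1K S p q =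
      ∑ p ∈ z, ∑ q ∈ x v, ch1K S p q + ∑ p ∈ z, ∑ q ∈ y v, ch1K S p q := by
    intro z
    rw [← Finset.sum_add_distrib]
    exact Finset.sum_congr rfl fun p _ => ch1_un S h v _
  rw [h1, h1]
  ring

/-- the unlinked part vanishes -/
theorem ch1_D0 (hb : ∀ u, b u u = 0) (I : Finset ι) (hI : ∀ u ∈ I, ∀ v ∈ I, ¬ S.Lk b u v)
    {x : ι → Finset S.P} (hxI : ∀ u, u ∉ I → x u = ∅) (hx : S.Gd x) : ch1D S b x x = 0 := by
  classical
  unfold ch1D
  rw [← Finset.sum_product']
  refine Finset.sum_involution (fun z _ => (z.2, z.1)) ?_ ?_ ?_ ?_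
  · rintro ⟨u, v⟩ _
    simp only
    by_cases huv : u = v
    · subst huv
      rw [hb, zero_mul, add_zero]
    by_cases hu : u ∈ I
    · by_cases hv : v ∈ I
      · rw [Finset.sum_comm (s := x v), Finset.mul_sum, Finset.mul_sum, ← Finset.sum_add_distrib]
        refine Finset.sum_eq_zero fun p hp => ?_
        rw [Finset.mul_sum, Finset.mul_sum, ← Finset.sum_add_distrib]
        refine Finset.sum_eq_zero fun q hq => ?_
        have hne : ∀ g, S.ac g p ≠ q := fun g h => huv (hx.2 u v p hp q hq g h).1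
        have hpq : p ≠ q := fun h => hne 1 (by rw [S.ac_one, h])
        unfold ch1K
        rw [if_neg hpq, if_neg (Ne.symm hpq), ch1_pair S b u v p q hne]
        refine Finset.sum_eq_zero fun g _ => ?_
        rw [(ch1_lk S b u v).2 (hI u hu v hv) g, zero_mul]
      · rw [hxI v hv]
        simp
    · rw [hxI u hu]
      simp
  · rintro ⟨u, v⟩ _ hne h
    apply hne
    simp only [Prod.mk.injEq] at h
    rw [h.1, hb, zero_mul]
  · rintro ⟨u, v⟩ _
    exact Finset.mem_product.2 ⟨Finset.mem_univ _, Finset.mem_univ _⟩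
  · rintro ⟨u, v⟩ _
    rfl

/-- the mixed part -/
theorem ch1_D1 {x : ι → Finset S.P}
    (h : ∀ u v, ∀ p ∈ x u, ∀ q ∈ y v, ∀ g, S.ac g p ≠ q) :
    ch1D S b x y + ch1D S b y x = ∑ u, ∑ p ∈ x u, ch1p S p (ch1F S b y u) := by
  classical
  have h1 : ch1D S b y x = ∑ u, ∑ v, b v u * ∑ p ∈ x u, ∑ q ∈ y v, ch1K S q p := by
    unfold ch1D
    rw [Finset.sum_comm]
    refine Finset.sum_congr rfl fun u _ => Finset.sum_congr rfl fun v _ => ?_
    rw [Finset.sum_comm]
  rw [h1]
  unfold ch1D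
  rw [← Finset.sum_add_distrib]
  refine Finset.sum_congr rfl fun u _ => ?_
  rw [← Finset.sum_add_distrib]
  have h2 : ∀ v : ι, b u v * ∑ p ∈ x u, ∑ q ∈ y v, ch1K S p q +
      b v u * ∑ p ∈ x u, ∑ q ∈ y v, ch1K S q p =
      ∑ p ∈ x u, ∑ q ∈ y v, ∑ g : S.D, ch1k S b u v g * S.s (S.ac g q) p := by
    intro v
    rw [Finset.mul_sum, Finset.mul_sum, ← Finset.sum_add_distrib]
    refine Finset.sum_congr rfl fun p hp => ?_
    rw [Finset.mul_sum, Finset.mul_sum, ← Finset.sum_add_distrib]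
    refine Finset.sum_congr rfl fun q hq => ?_
    have hne := h u v p hp q hq
    have hpq : p ≠ q := fun h => hne 1 (by rw [S.ac_one, h])
    unfold ch1K
    rw [if_neg hpq, if_neg (Ne.symm hpq), ch1_pair S b u v p q hne]
  rw [Finset.sum_congr rfl fun v _ => h2 v, Finset.sum_comm]
  exact Finset.sum_congr rfl fun p _ => (ch1p_ch1F S b y u p).symm

end

/-- the characters of the large variables given the small ones -/
theorem sch1 : SCh1 := by
  classical
  intro l _ S ι _ b c M hb hok I y hI hyI hy hoff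
  set M' : Finset S.P := M ∪ Finset.univ.biUnion fun u => (y u).biUnion fun q =>
    Finset.univ.image fun g : S.D => S.ac g q with hM'def
  have hM' : ∀ p, p ∈ M' ↔ (p ∈ M ∨ ∃ u, ∃ q ∈ y u, ∃ g, S.ac g q = p) := by
    intro p
    rw [hM'def, Finset.mem_union]
    simp only [Finset.mem_biUnion, Finset.mem_univ, true_and, Finset.mem_image]
  have hstb : S.Stb M' := by
    intro g p hp
    rw [hM'] at hp ⊢
    rcases hp with hp | ⟨u, q, hq, g', rfl⟩
    · exact Or.inl (hok.stb g p hp)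
    · exact Or.inr ⟨u, q, hq, g * g', S.ac_mul _ _ _⟩
  have hyM : ∀ u, ∀ q ∈ y u, ∀ g, S.ac g q ∉ M := by
    intro u q hq g h
    have h1 := hok.stb g⁻¹ _ h
    rw [← S.ac_mul, inv_mul_cancel, S.ac_one] at h1
    exact Finset.disjoint_left.1 (hoff u) hq h1
  refine ⟨fun u => c u + (0, ch1F S b y u), M', ⟨hstb, fun u p hp => ?_⟩,
    fun p hp => (hM' p).2 (Or.inl hp), hM', fun u _ => ?_, fun x hxI => ⟨?_, fun hx hxo => ?_⟩⟩
  · have h1 : p ∈ ((c u).2 + ch1F S b y u).support := hp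
    rcases Finset.mem_union.1 (Finsupp.support_add h1) with h2 | h2
    · exact (hM' p).2 (Or.inl (hok.sub u h2))
    · rw [hM']
      right
      by_contra h3
      push Not at h3
      exact (Finsupp.mem_support_iff.1 h2) (ch1F_zero S b y u p h3)
  · constructor
    · intro h
      have e1 : (c u).1 + 0 = 0 := congrArg Prod.fst h
      have e2 : (c u).2 + ch1F S b y u = 0 := congrArg Prod.snd h
      have e3 : (c u).2 = 0 := by
        ext r
        by_cases hr : r ∈ M
        · have h4 := DFunLike.congr_fun e2 r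
          rw [Finsupp.add_apply, ch1F_zero S b y u r (fun v q hq g h5 =>
            hyM v q hq g (h5 ▸ hr)), add_zero] at h4
          exact h4
        · by_contra h4
          exact hr (hok.sub u (Finsupp.mem_support_iff.2 h4))
      refine ⟨Prod.ext ((add_zero (c u).1).symm.trans e1) e3, fun v hv => ?_⟩
      by_contra h4
      obtain ⟨q, hq⟩ := Finset.nonempty_iff_ne_empty.2 h4
      refine (ch1_lk S b u v).1 (fun g => ?_) hv
      rw [← ch1F_val S b y hy u v q hq g]
      rw [e3, zero_add] at e2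
      rw [e2, Finsupp.zero_apply]
    · rintro ⟨h1, h2⟩
      have h3 : ch1F S b y u = 0 := by
        unfold ch1F
        refine Finset.sum_eq_zero fun v _ => ?_
        by_cases hv : S.Lk b u v
        · rw [h2 v hv, Finset.sum_empty]
        · refine Finset.sum_eq_zero fun q _ => Finset.sum_eq_zero fun g _ => ?_
          rw [(ch1_lk S b u v).2 hv g, Finsupp.single_zero]
      show c u + (0, ch1F S b y u) = 0
      rw [h1, h3]
      exact add_zero 0
  · constructor
    · rintro ⟨⟨g1, g2⟩, g3⟩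
      refine ⟨⟨fun u p hp => g1 u p (Finset.mem_union_left _ hp), fun u v p hp q hq g h =>
        g2 u v p (Finset.mem_union_left _ hp) q (Finset.mem_union_left _ hq) g h⟩, fun u => ?_⟩
      rw [Finset.disjoint_left]
      intro p hp hp'
      rcases (hM' p).1 hp' with h1 | ⟨v, q, hq, g, h1⟩
      · exact Finset.disjoint_left.1 (g3 u) (Finset.mem_union_left _ hp) h1
      · obtain ⟨h2, -⟩ := g2 v u q (Finset.mem_union_right _ hq) p (Finset.mem_union_left _ hp) g h1
        subst h2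
        by_cases hv : v ∈ I
        · rw [hyI v hv] at hq
          exact absurd hq (Finset.notMem_empty _)
        · rw [hxI v hv] at hp
          exact absurd hp (Finset.notMem_empty _)
    · rintro ⟨⟨g1, g2⟩, g3⟩
      have hxy : ∀ u v, ∀ p ∈ x u, ∀ q ∈ y v, ∀ g, S.ac g q ≠ p := fun u v p hp q hq g h =>
        Finset.disjoint_left.1 (g3 u) hp ((hM' p).2 (Or.inr ⟨v, q, hq, g, h⟩))
      refine ⟨⟨fun u p hp => ?_, fun u v p hp q hq g h => ?_⟩, fun u => ?_⟩
      · rcases Finset.mem_union.1 hp with h1 | h1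
        · exact g1 u p h1
        · exact hy.1 u p h1
      · rcases Finset.mem_union.1 hp with h1 | h1 <;> rcases Finset.mem_union.1 hq with h2 | h2
        · exact g2 u v p h1 q h2 g h
        · exfalso
          refine hxy u v p h1 q h2 g⁻¹ ?_
          rw [← h, ← S.ac_mul, inv_mul_cancel, S.ac_one]
        · exact absurd h (hxy v u q h2 p h1 g)
        · exact hy.2 u v p h1 q h2 g h
      · refine Finset.disjoint_union_left.2 ⟨?_, hoff u⟩
        exact (g3 u).mono_right fun p hp => (hM' p).2 (Or.inl hp)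
  · have hxy : ∀ u v, ∀ p ∈ x u, ∀ q ∈ y v, ∀ g, S.ac g p ≠ q := by
      intro u v p hp q hq g h
      refine Finset.disjoint_left.1 (hxo u) hp ((hM' p).2 (Or.inr ⟨v, q, hq, g⁻¹, ?_⟩))
      rw [← h, ← S.ac_mul, inv_mul_cancel, S.ac_one]
    have hu : ∀ u, x u = ∅ ∨ y u = ∅ := by
      intro u
      by_cases h : u ∈ I
      · exact Or.inr (hyI u h)
      · exact Or.inl (hxI u h)
    rw [ch1_EE, ch1_EE, ch1_D4 S b hu, ch1_D0 S b hb I hI hxI hx, ch1_D1 S b y hxy]
    have h1 : ∑ u, ∑ p ∈ x u ∪ y u, S.ex (c u) p =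
        ∑ u, ∑ p ∈ x u, S.ex (c u) p + ∑ u, ∑ p ∈ y u, S.ex (c u) p := by
      rw [← Finset.sum_add_distrib]
      exact Finset.sum_congr rfl fun u _ => ch1_un S hu u _
    have h2 : ∑ u, ∑ p ∈ x u, S.ex (c u + (0, ch1F S b y u)) p =
        ∑ u, ∑ p ∈ x u, S.ex (c u) p + ∑ u, ∑ p ∈ x u, ch1p S p (ch1F S b y u) := by
      rw [← Finset.sum_add_distrib]
      refine Finset.sum_congr rfl fun u _ => ?_
      rw [← Finset.sum_add_distrib]
      exact Finset.sum_congr rfl fun p _ => ch1_ex S _ _ _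
    rw [h1, h2]
    ring

end Pool.Agent.H92.EL
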