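import Pool.Agent.H92.EL.CCmpF

/-!
# Project ELL (MP_a3214d), block C, row C24: comparison of good families and ideals (helper21)
-/

set_option autoImplicit false

open scoped BigOperators Topology
open Filter

namespace Pool.Agent.H92.EL.CmpC

open MvPolynomial
open Pool.Agent.H98.MF (Pre)
open CmpA CmpB

section

variable {l : ℕ} [Fact l.Prime] (S : SysL l) {ι : Type} [Fintype ι]

open Classical in
/-- the value of the local factor -/
noncomputable def er (ι : Type) [Fintype ι] (y : Finset S.P) (i : Orb S) : ℝ :=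
  (1 + if Us S y i then (MM S ι : ℝ) * (S.N (rp S i) : ℝ)⁻¹ else 0) *
    (1 - (S.N (rp S i) : ℝ)⁻¹) ^ (Fintype.card ι * (fib S i).card)

/-- the point -/
noncomputable def vv (p : S.P) : ℂ := (((S.N p : ℝ)⁻¹ : ℝ) : ℂ)

theorem prod_vv (f : S.P →₀ ℕ) : (f.prod fun p k => vv S p ^ k) =
    (((S.nf f : ℝ)⁻¹ : ℝ) : ℂ) := by
  unfold Pre.nf Finsupp.prod vv
  push_cast
  rw [← Finset.prod_inv_distrib]
  exact Finset.prod_congr rfl fun p _ => inv_pow _ _

theorem ch_zero (p : S.P) : ch S 0 p = 1 := by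
  unfold ch
  rw [zero_dotProduct, ec_zero]

theorem eval_hO (y : Finset S.P) (i : Orb S) :
    eval (vv S) (hO S (fun _ : ι => 0) y i) = ((er S ι y i : ℝ) : ℂ) := by
  classical
  have hv : ∀ p ∈ fib S i, vv S p = (((S.N (rp S i) : ℝ)⁻¹ : ℝ) : ℂ) := fun p hp => by
    unfold vv
    rw [N_of_mem S hp]
  have e1 : eval (vv S) (EO S (fun _ : ι => 0) i) =
      (((1 - (S.N (rp S i) : ℝ)⁻¹) ^ (Fintype.card ι * (fib S i).card) : ℝ) : ℂ) := by
    unfold EO
    rw [map_prod]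
    have h1 : ∀ p ∈ fib S i, eval (vv S) (∏ _u : ι, (1 - C (ch S 0 p) * X p)) =
        (((1 - (S.N (rp S i) : ℝ)⁻¹) ^ (Fintype.card ι) : ℝ) : ℂ) := by
      intro p hp
      rw [map_prod, Finset.prod_const, Finset.card_univ, map_sub, map_one, map_mul, eval_C,
        eval_X, ch_zero, one_mul, hv p hp]
      push_cast
      rfl
    rw [Finset.prod_congr rfl h1, Finset.prod_const, ← Complex.ofReal_pow, ← pow_mul]
  have e2 : eval (vv S) (NO S (fun _ : ι => 0) y i) =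
      (((1 + if Us S y i then (MM S ι : ℝ) * (S.N (rp S i) : ℝ)⁻¹ else 0) : ℝ) : ℂ) := by
    unfold NO
    rw [map_add, map_one]
    by_cases h : Us S y i
    · rw [if_pos h, if_pos h, map_sum]
      have h1 : ∀ p ∈ fib S i, eval (vv S) (∑ _u : ι, C (ch S 0 p) * X p) =
          (Fintype.card ι : ℂ) * (((S.N (rp S i) : ℝ)⁻¹ : ℝ) : ℂ) := by
        intro p hp
        rw [map_sum, Finset.sum_const, Finset.card_univ, map_mul, eval_C,
          eval_X, ch_zero, one_mul, hv p hp, nsmul_eq_mul]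
      rw [Finset.sum_congr rfl h1, Finset.sum_const, card_fib S i h.1, nsmul_eq_mul]
      unfold MM
      push_cast
      ring
    · rw [if_neg h, if_neg h, map_zero]
      push_cast
      rfl
  unfold hO er
  rw [map_mul, e1, e2, ← Complex.ofReal_mul]

theorem wt_ge (f : S.P →₀ ℕ) : ‖f.prod fun p k => vv S p ^ k‖ ≤ wt S f := by
  have h1 : (1 : ℝ) ≤ S.nf f := by exact_mod_cast S.nf_pos f
  rw [prod_vv, Complex.norm_real, Real.norm_of_nonneg (by positivity), ← Real.rpow_neg_one]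
  unfold wt
  exact Real.rpow_le_rpow_of_exponent_le h1 (by norm_num)

theorem lim_er (y : Finset S.P)
    (hs : Summable fun f => ‖hh S (fun _ : ι => 0) y f‖ * wt S f) :
    Tendsto (fun Φ : Finset (Orb S) => ((∏ i ∈ Φ, er S ι y i : ℝ) : ℂ)) atTop
      (𝓝 (∑' f, hh S (fun _ : ι => 0) y f * (((S.nf f : ℝ)⁻¹ : ℝ) : ℂ))) := by
  have h1 := hc_lim (oo S) (hO S (fun _ : ι => 0) y) (hO_zero S _ y) (hO_supp S _ y) (vv S) (by
    refine Summable.of_nonneg_of_le (fun f => mul_nonneg (norm_nonneg _) (norm_nonneg _))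
      (fun f => ?_) hs
    exact mul_le_mul_of_nonneg_left (wt_ge S f) (norm_nonneg _))
  simp only [eval_hO, prod_vv] at h1
  refine h1.congr fun Φ => ?_
  push_cast
  rfl

/-- elementary inequality -/
theorem elem1 {x : ℝ} (h0 : 0 ≤ x) (h1 : x ≤ 1 / 2) : Real.exp (-(x + 2 * x ^ 2)) ≤ 1 - x := by
  have h2 : 0 < 1 - x := by linarith
  have h4 : Real.log (1 - x) ≥ 1 - (1 - x)⁻¹ := Real.one_sub_inv_le_log_of_pos h2
  have h5 : 1 - (1 - x)⁻¹ ≥ -(x + 2 * x ^ 2) := by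
    have h6 : (1 - x)⁻¹ ≤ 1 + x + 2 * x ^ 2 := by
      rw [inv_le_iff_one_le_mul₀ h2]
      nlinarith [mul_nonneg h0 h0, mul_nonneg (mul_nonneg h0 h0) (by linarith : 0 ≤ 1 - 2 * x)]
    linarith
  calc Real.exp (-(x + 2 * x ^ 2)) ≤ Real.exp (Real.log (1 - x)) :=
        Real.exp_le_exp.2 (by linarith)
    _ = 1 - x := Real.exp_log h2

theorem elem2 {z : ℝ} (h0 : 0 ≤ z) : Real.exp (z - z ^ 2) ≤ 1 + z := by
  have h2 : 0 < 1 + z := by linarith
  have h4 : Real.log (1 + z) ≥ 1 - (1 + z)⁻¹ := Real.one_sub_inv_le_log_of_pos h2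
  have h5 : z - z ^ 2 ≤ 1 - (1 + z)⁻¹ := by
    have h6 : (1 + z)⁻¹ ≤ 1 - (z - z ^ 2) := by
      rw [inv_le_iff_one_le_mul₀ h2]
      nlinarith [mul_nonneg h0 h0, mul_nonneg (mul_nonneg h0 h0) h0]
    linarith
  calc Real.exp (z - z ^ 2) ≤ Real.exp (Real.log (1 + z)) := Real.exp_le_exp.2 (by linarith)
    _ = 1 + z := Real.exp_log h2

theorem er_ge (i : Orb S) : Real.exp (-(((MM S ι : ℝ) ^ 2 + 2 * MM S ι) *
    ((S.N (rp S i) : ℝ) ^ (-(3 / 2) : ℝ) + (open Classical in if S.rg (rp S i) then 0 else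
      (S.N (rp S i) : ℝ) ^ (-(3 / 4) : ℝ))))) ≤ er S ι ∅ i := by
  classical
  set M : ℝ := ((MM S ι : ℕ) : ℝ) with hM
  set N : ℝ := ((S.N (rp S i) : ℕ) : ℝ) with hN
  have hM0 : 0 ≤ M := Nat.cast_nonneg _
  have hN2 : 2 ≤ N := by
    rw [hN]
    exact_mod_cast S.two_le (rp S i)
  have hN0 : 0 < N := by linarith
  set x : ℝ := N⁻¹ with hx
  have hx0 : 0 ≤ x := by positivity
  have hx1 : x ≤ 1 / 2 := by
    rw [hx, inv_le_comm₀ hN0 (by norm_num)]
    linarith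
  have h1x : 0 ≤ 1 - x := by linarith
  have h1x' : 1 - x ≤ 1 := by linarith
  have hx2 : x ^ 2 ≤ N ^ (-(3 / 2) : ℝ) := by
    have h1 : x ^ 2 = N ^ (-2 : ℝ) := by
      rw [hx, inv_pow, Real.rpow_neg hN0.le]
      norm_num
    rw [h1]
    exact Real.rpow_le_rpow_of_exponent_le (by linarith) (by norm_num)
  have hx34 : x ≤ N ^ (-(3 / 4) : ℝ) := by
    have h1 : x = N ^ (-1 : ℝ) := by
      rw [hx, Real.rpow_neg_one]
    rw [h1]
    exact Real.rpow_le_rpow_of_exponent_le (by linarith) (by norm_num)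
  have h34 : 0 ≤ N ^ (-(3 / 4) : ℝ) := Real.rpow_nonneg hN0.le _
  have h32 : 0 ≤ N ^ (-(3 / 2) : ℝ) := Real.rpow_nonneg hN0.le _
  have hpow : Real.exp (-(M * (x + 2 * x ^ 2))) ≤ (1 - x) ^ MM S ι := by
    have h1 := pow_le_pow_left₀ (Real.exp_pos _).le (elem1 hx0 hx1) (MM S ι)
    rw [← Real.exp_nat_mul] at h1
    refine le_trans (le_of_eq ?_) h1
    rw [hM]
    congr 1
    ring
  unfold er
  by_cases hr : S.rg (rp S i)
  · have hU : Us S ∅ i := ⟨hr, by simp⟩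
    rw [if_pos hr, if_pos hU, card_fib S i hr, add_zero]
    have h1 : Real.exp (M * x - (M * x) ^ 2) ≤ 1 + M * x := elem2 (mul_nonneg hM0 hx0)
    have h2 := mul_le_mul h1 hpow (Real.exp_pos _).le (by positivity)
    refine le_trans ?_ h2
    rw [← Real.exp_add, Real.exp_le_exp]
    have h3 := mul_le_mul_of_nonneg_left hx2 (by positivity : 0 ≤ M ^ 2 + 2 * M)
    nlinarith
  · have hU : ¬ Us S ∅ i := fun h => hr h.1
    rw [if_neg hr, if_neg hU, add_zero, one_mul]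
    have h1 : (1 - x) ^ MM S ι ≤ (1 - x) ^ (Fintype.card ι * (fib S i).card) :=
      pow_le_pow_of_le_one h1x h1x' (Nat.mul_le_mul_left _ (card_fib_le S i))
    refine le_trans (le_trans ?_ hpow) h1
    rw [Real.exp_le_exp, neg_le_neg_iff]
    have h2 : x + 2 * x ^ 2 ≤ 2 * x := by nlinarith
    have h3 : M * (x + 2 * x ^ 2) ≤ M * (2 * N ^ (-(3 / 4) : ℝ)) :=
      mul_le_mul_of_nonneg_left (by linarith) hM0
    refine h3.trans ?_
    have h4 : 0 ≤ M ^ 2 * N ^ (-(3 / 4) : ℝ) := by positivity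
    have h5 : 0 ≤ (M ^ 2 + 2 * M) * N ^ (-(3 / 2) : ℝ) := by positivity
    nlinarith

theorem prod_er_ge {K1 K2 : ℝ} (hK1 : ∀ Φ : Finset (Orb S),
    ∑ i ∈ Φ, (S.N (rp S i) : ℝ) ^ (-(3 / 2) : ℝ) ≤ K1) (hK2 : ∀ Φ : Finset (Orb S),
    ∑ i ∈ Φ, (open Classical in if S.rg (rp S i) then 0 else
      (S.N (rp S i) : ℝ) ^ (-(3 / 4) : ℝ)) ≤ K2) (Φ : Finset (Orb S)) :
    Real.exp (-(((MM S ι : ℝ) ^ 2 + 2 * MM S ι) * (K1 + K2))) ≤ ∏ i ∈ Φ, er S ι ∅ i := by
  classical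
  have h1 := Finset.prod_le_prod (s := Φ) (fun i _ => (Real.exp_pos _).le)
    fun i _ => er_ge (ι := ι) S i
  refine le_trans ?_ h1
  rw [← Real.exp_sum, Real.exp_le_exp, Finset.sum_neg_distrib, ← Finset.mul_sum,
    Finset.sum_add_distrib, neg_le_neg_iff]
  exact mul_le_mul_of_nonneg_left (add_le_add (hK1 Φ) (hK2 Φ)) (by positivity)

theorem prod_er_eq {y : Finset S.P} (hy : S.Gd (fun _ : Unit => y)) {Φ : Finset (Orb S)}
    (hΦ : y.image (oo S) ⊆ Φ) :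
    ∏ i ∈ Φ, er S ι y i = (∏ i ∈ Φ, er S ι ∅ i) * S.ty0 ι y := by
  classical
  have h1 : ∀ i, er S ι y i = er S ι ∅ i * if i ∈ y.image (oo S) then
      (1 + (MM S ι : ℝ) * (S.N (rp S i) : ℝ)⁻¹)⁻¹ else 1 := by
    intro i
    by_cases hi : i ∈ y.image (oo S)
    · obtain ⟨p, hp, hpi⟩ := Finset.mem_image.1 hi
      have hr : S.rg (rp S i) := by
        refine rg_of_oo S ?_ (hy.1 () p hp)
        rw [oo_rp, hpi]
      have hU : Us S ∅ i := ⟨hr, by simp⟩
      have hU' : ¬ Us S y i := fun h => h.2 hi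
      unfold er
      rw [if_pos hU, if_neg hU', if_pos hi]
      have h2 : 0 < 1 + (MM S ι : ℝ) * (S.N (rp S i) : ℝ)⁻¹ := by positivity
      field_simp
      ring
    · have hU : Us S ∅ i ↔ Us S y i := by
        unfold Us
        simp [hi]
      unfold er
      rw [if_neg hi, mul_one]
      simp only [hU]
  rw [Finset.prod_congr rfl fun i _ => h1 i, Finset.prod_mul_distrib]
  congr 1
  rw [← Finset.prod_filter, Finset.filter_mem_eq_inter, Finset.inter_eq_right.2 hΦ,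
    Finset.prod_image fun p hp q hq h => good_inj S hy hp hq h]
  unfold SysL.ty0
  refine Finset.prod_congr rfl fun p _ => ?_
  rw [N_of_oo S (oo_rp S (oo S p))]
  rfl

end

end Pool.Agent.H92.EL.CmpC

namespace Pool.Agent.H92.EL

open CmpA CmpB CmpC

/-- comparison of good families and ideals -/
theorem scmp : SCmp := by
  classical
  intro l _ S ι _
  obtain ⟨K2, hK20, hK2⟩ := irr_sum S
  set K1 : ℝ := ∑' p : S.P, (S.N p : ℝ) ^ (-(3 / 2) : ℝ) with hK1d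
  have hK1 : ∀ Φ : Finset (Orb S), ∑ i ∈ Φ, (S.N (rp S i) : ℝ) ^ (-(3 / 2) : ℝ) ≤ K1 :=
    fun Φ => sum_orb S Φ
  have hsum : ∀ (c : ι → S.T) (y : Finset S.P), S.Gd (fun _ : Unit => y) →
      (Summable fun f => ‖hh S c y f‖ * wt S f) ∧ ∑' f, ‖hh S c y f‖ * wt S f ≤
        Real.exp (KK S ι * (K1 + K2)) * S.lo (KK S ι) y := fun c y hy =>
    hc_summable (oo S) (hO S c y) (hO_zero S c y) (hO_supp S c y) (wt_nonneg S) (wt_zero S)
      (wt_add S) (prod_nw_le S hK1 hK2 c y hy)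
  have hG0 : S.Gd (fun _ : Unit => (∅ : Finset S.P)) :=
    ⟨fun _ p hp => absurd hp (Finset.notMem_empty p),
      fun _ _ p hp => absurd hp (Finset.notMem_empty p)⟩
  set L : ℂ := ∑' f, hh S (fun _ : ι => 0) ∅ f * (((S.nf f : ℝ)⁻¹ : ℝ) : ℂ) with hL
  have hlim : Tendsto (fun Φ : Finset (Orb S) => ((∏ i ∈ Φ, er S ι ∅ i : ℝ) : ℂ)) atTop (𝓝 L) :=
    lim_er S ∅ (hsum _ ∅ hG0).1
  have hre : Tendsto (fun Φ : Finset (Orb S) => ∏ i ∈ Φ, er S ι ∅ i) atTop (𝓝 L.re) := by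
    have h1 := (Complex.continuous_re.tendsto L).comp hlim
    exact h1.congr fun Φ => Complex.ofReal_re _
  have hLr : L = ((L.re : ℝ) : ℂ) :=
    tendsto_nhds_unique hlim ((Complex.continuous_ofReal.tendsto _).comp hre)
  have hpos : 0 < L.re := lt_of_lt_of_le (Real.exp_pos _)
    (ge_of_tendsto' hre fun Φ => prod_er_ge (ι := ι) S hK1 hK2 Φ)
  refine ⟨KK S ι, Real.exp (KK S ι * (K1 + K2)), L.re, KK_nonneg S ι, (Real.exp_pos _).le, hpos,
    fun c y hy => ⟨hh S c y, (hsum c y hy).1, (hsum c y hy).2, fun Y hY => CCc_hh S c y hY,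
      fun hc0 => ?_⟩⟩
  have hc1 : c = fun _ => 0 := funext hc0
  subst hc1
  have h1 := lim_er S y (hsum _ y hy).1
  have h2 : Tendsto (fun Φ : Finset (Orb S) => ((∏ i ∈ Φ, er S ι y i : ℝ) : ℂ)) atTop
      (𝓝 ((L.re * S.ty0 ι y : ℝ) : ℂ)) := by
    refine (Complex.continuous_ofReal.tendsto _).comp ?_
    refine (hre.mul_const (S.ty0 ι y)).congr' ?_
    filter_upwards [Filter.eventually_ge_atTop (y.image (oo S))] with Φ hΦ
    exact (prod_er_eq S hy hΦ).symm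
  exact tendsto_nhds_unique h1 h2

end Pool.Agent.H92.EL
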