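import Pool.Agent.H92.EL.CStm

/-!
# Project ELL (MP_a3214d), C13: the number of isolated types with trivial character
-/

set_option autoImplicit false

open scoped BigOperators

namespace Pool.Agent.H92.EL

section

variable {l : ℕ} [Fact l.Prime] {d n : ℕ}

private theorem ccomb_alt (Bd : SysL.BD l d n) (v w : SysL.VV l d) : Bd.B v w = - Bd.B w v := by
  have h := Bd.alt (v + w)
  rw [map_add, map_add, LinearMap.add_apply, LinearMap.add_apply, Bd.alt, Bd.alt, zero_add,
    add_zero] at h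
  rw [eq_neg_iff_add_eq_zero, add_comm]
  exact h

private theorem ccomb_mem {S : SysL l} {ι : Type} {b : ι → ι → ZMod l} {U : Finset ι} {u : ι} :
    u ∈ S.iso b U ↔ u ∈ U ∧ ∀ v ∈ U, ¬ S.Lk b u v := by
  unfold SysL.iso
  exact @Finset.mem_filter _ _ (_) _ _

private theorem ccomb_iso {S : SysL l} {Bd : SysL.BD l d n} {R : Finset (SysL.VV l d)}
    {U : Finset (R × SysL.VV l n)} {u : R × SysL.VV l n} (hu : u ∈ S.iso (SysL.bz Bd R) U)
    {w : R × SysL.VV l n} (hw : w ∈ U) (g : S.D) :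
    u.2 ⬝ᵥ Bd.B w.1 u.1 - ((S.e g)⁻¹ : (ZMod l)ˣ) * (w.2 ⬝ᵥ Bd.B w.1 u.1) = 0 := by
  have h := (ccomb_mem.1 hu).2 w hw
  unfold SysL.Lk at h
  push Not at h
  have h2 := h g
  unfold SysL.bz at h2
  rw [ccomb_alt Bd u.1 w.1, dotProduct_neg] at h2
  linear_combination h2

private theorem ccomb_fib {S : SysL l} {Bd : SysL.BD l d n} {R : Finset (SysL.VV l d)}
    {c : SysL.VV l d → SysL.VV l n → S.El} {Φ : Finset R → Prop} (hA : S.Adc c)
    (hG : S.Gen Bd R c Φ) (η : R → S.El) (U : Finset (R × SysL.VV l n))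
    [DecidableEq R] (hU : Φ (U.image Prod.fst)) (A : Finset (R × SysL.VV l n))
    (hAi : ∀ u ∈ A, u ∈ S.iso (SysL.bz Bd R) U ∧ S.cz R c u + η u.1 = 0) (v : R) :
    (A.filter fun u => u.1 = v).card ≤ S.nv Bd c v := by
  classical
  rcases Finset.eq_empty_or_nonempty (A.filter fun u => u.1 = v) with h0 | ⟨u0, hu0⟩
  · rw [h0, Finset.card_empty]
    exact Nat.zero_le _
  rw [Finset.mem_filter] at hu0
  obtain ⟨hu0A, hu0v⟩ := hu0
  have h0 := hAi u0 hu0A
  unfold SysL.nv
  refine Finset.card_le_card_of_injOn (fun u => u.2 - u0.2) ?_ ?_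
  · intro u hu
    rw [Finset.mem_coe, Finset.mem_filter] at hu
    obtain ⟨huA, huv⟩ := hu
    have h1 := hAi u huA
    have hc : c v (u.2 - u0.2) = 0 := by
      have e1 := hA v (u.2 - u0.2) u0.2
      rw [sub_add_cancel] at e1
      have e2 := h1.2
      have e3 := h0.2
      unfold SysL.cz at e2 e3
      rw [huv] at e2
      rw [hu0v] at e3
      have e4 : c v u.2 = c v u0.2 := by
        rw [eq_neg_of_add_eq_zero_left e2, eq_neg_of_add_eq_zero_left e3]
      rw [e4] at e1
      have e5 : 0 + c v u0.2 = c v (u.2 - u0.2) + c v u0.2 := by rw [zero_add]; exact e1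
      exact (add_right_cancel e5).symm
    rw [Finset.mem_coe, Finset.mem_filter]
    refine ⟨Finset.mem_univ _, hc, ?_⟩
    refine hG _ hU v v.2 _ hc ?_
    intro w hw
    rw [Finset.mem_image] at hw
    obtain ⟨x, hx, rfl⟩ := hw
    have e1 := ccomb_iso h1.1 hx 1
    have e2 := ccomb_iso h0.1 hx 1
    rw [huv] at e1
    rw [hu0v] at e2
    change (u.2 - u0.2) ⬝ᵥ Bd.B x.1 v = 0
    rw [sub_dotProduct]
    linear_combination e1 - e2
  · intro u hu u' hu' h
    rw [Finset.mem_coe, Finset.mem_filter] at hu hu'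
    have h1 : u.2 = u'.2 := sub_left_injective h
    exact Prod.ext (hu.2.trans hu'.2.symm) h1

private theorem ccomb_nv {S : SysL l} (Bd : SysL.BD l d n)
    {c : SysL.VV l d → SysL.VV l n → S.El} (hA : S.Adc c) (v : SysL.VV l d) :
    1 ≤ S.nv Bd c v := by
  classical
  unfold SysL.nv
  rw [Nat.succ_le_iff, Finset.card_pos]
  refine ⟨0, ?_⟩
  rw [Finset.mem_filter]
  refine ⟨Finset.mem_univ _, ?_, fun w => zero_dotProduct _⟩
  have h := hA v 0 0
  rw [add_zero] at h
  have h2 : c v 0 + 0 = c v 0 + c v 0 := by rw [add_zero]; exact h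
  exact (add_left_cancel h2).symm

end

/-- the number of isolated types with trivial character -/
theorem scomb : SComb := by
  classical
  intro l _ S d n Bd R c Φ _ hA hG η U hU
  set A : Finset (R × SysL.VV l n) := (S.iso (SysL.bz Bd R) U).filter
    fun u => S.cz R c u + η u.1 = 0 with hAdef
  have hAi : ∀ u ∈ A, u ∈ S.iso (SysL.bz Bd R) U ∧ S.cz R c u + η u.1 = 0 := by
    intro u hu
    rw [hAdef, Finset.mem_filter] at hu
    exact hu
  have hU' : Φ (U.image Prod.fst) := by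
    convert hU
  have hwt : S.wt (SysL.bz Bd R) (fun u => S.cz R c u + η u.1) U = A.card := by
    unfold SysL.wt
    rw [hAdef]
  have hcard : A.card = ∑ v : R, (A.filter fun u => u.1 = v).card :=
    Finset.card_eq_sum_card_fiberwise (fun u _ => Finset.mem_coe.2 (Finset.mem_univ _))
  have hbV : S.bV Bd R c = ∑ v : R, S.nv Bd c v := by
    unfold SysL.bV
    rw [Finset.sum_coe_sort R (fun v => S.nv Bd c v)]
  have hfib : ∀ v : R, (A.filter fun u => u.1 = v).card ≤ S.nv Bd c v := fun v =>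
    ccomb_fib hA hG η U hU' A hAi v
  have hle : A.card ≤ S.bV Bd R c := by
    rw [hcard, hbV]
    exact Finset.sum_le_sum fun v _ => hfib v
  have heq : A.card = S.bV Bd R c → ∀ v : R, ∃ z : SysL.VV l n, (v, z) ∈ A := by
    intro h v
    rw [hcard, hbV, Finset.sum_eq_sum_iff_of_le (fun v _ => hfib v)] at h
    have h1 := h v (Finset.mem_univ v)
    have h2 := ccomb_nv (S := S) Bd hA (v : SysL.VV l d)
    rw [← h1, Nat.succ_le_iff, Finset.card_pos] at h2
    obtain ⟨u, hu⟩ := h2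
    rw [Finset.mem_filter] at hu
    refine ⟨u.2, ?_⟩
    rw [← hu.2]
    exact hu.1
  have hiU : ∀ u ∈ S.iso (SysL.bz Bd R) U, u ∈ U := by
    intro u hu
    exact (ccomb_mem.1 hu).1
  rw [hwt]
  refine ⟨hle, ?_, ?_⟩
  · intro hne
    refine lt_of_le_of_ne hle fun h => hne ?_
    have hex := heq h
    refine Finset.Subset.antisymm hiU ?_
    intro u' hu'
    rw [ccomb_mem]
    refine ⟨hu', fun u'' hu'' => ?_⟩
    rintro ⟨g, hg⟩
    apply hg
    obtain ⟨z1, hz1⟩ := hex u'.1
    obtain ⟨z2, hz2⟩ := hex u''.1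
    have i1 := (hAi _ hz1).1
    have i2 := (hAi _ hz2).1
    have e1 := ccomb_iso i1 hu'' g
    have e2 := ccomb_iso i2 hu' 1
    have e3 := ccomb_iso i1 (hiU _ i2) 1
    rw [map_one, inv_one, Units.val_one, one_mul] at e2 e3
    simp only at e1 e2 e3
    rw [ccomb_alt Bd u'.1 u''.1, dotProduct_neg, dotProduct_neg] at e2
    unfold SysL.bz
    rw [ccomb_alt Bd u'.1 u''.1, dotProduct_neg]
    linear_combination e1 - e3 + e2
  · intro h
    have hex := heq h
    rw [Finset.eq_univ_iff_forall]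
    intro v
    obtain ⟨z, hz⟩ := hex v
    exact Finset.mem_image.2 ⟨(v, z), hiU _ (hAi _ hz).1, rfl⟩

end Pool.Agent.H92.EL
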