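import Pool.Agent.H92.EL.CStm

/-!
# Project ELL (MP_a3214d), block C, row C15: expansion in types
-/

set_option autoImplicit false

open scoped BigOperators Topology
open Filter

namespace Pool.Agent.H92.EL

open Pool.Agent.H98.MF (Pre)

/-! ### characters -/

section

variable {l : ℕ} [Fact l.Prime]

private theorem cx_zero : ec (0 : ZMod l) = 1 := AddChar.map_zero_eq_one _

private theorem cx_add (a b : ZMod l) : ec (a + b) = ec a * ec b := AddChar.map_add_eq_mul _ _ _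

private theorem cx_norm (a : ZMod l) : ‖ec a‖ = 1 := AddChar.norm_apply _ _

private theorem cx_sum {X : Type} (s : Finset X) (f : X → ZMod l) :
    ec (∑ i ∈ s, f i) = ∏ i ∈ s, ec (f i) := by
  classical
  induction s using Finset.induction_on with
  | empty => rw [Finset.sum_empty, Finset.prod_empty, cx_zero]
  | insert a s ha ih => rw [Finset.sum_insert ha, Finset.prod_insert ha, cx_add, ih]

private theorem cx_one {a : ZMod l} (h : ec a = 1) : a = 0 :=
  ZMod.injective_stdAddChar (h.trans cx_zero.symm)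

open Classical in
private theorem cx_orth {G : Type} [AddCommGroup G] [Fintype G] (A : G → ZMod l)
    (hA : ∀ a b, A (a + b) = A a + A b) :
    ∑ a : G, ec (A a) = if ∀ a, A a = 0 then (Fintype.card G : ℂ) else 0 := by
  split_ifs with h
  · rw [Finset.sum_congr rfl fun a _ => by rw [h a, cx_zero]]
    rw [Finset.sum_const, Finset.card_univ, nsmul_eq_mul, mul_one]
  · push Not at h
    obtain ⟨a, ha⟩ := h
    have h1 : ∑ b : G, ec (A b) = ec (A a) * ∑ b : G, ec (A b) := by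
      rw [Finset.mul_sum, ← Equiv.sum_comp (Equiv.addLeft a) fun b => ec (A b)]
      refine Finset.sum_congr rfl fun b _ => ?_
      rw [Equiv.coe_addLeft, hA, cx_add]
    have h2 : (1 - ec (A a)) * ∑ b : G, ec (A b) = 0 := by
      rw [sub_mul, one_mul, ← h1, sub_self]
    rcases mul_eq_zero.1 h2 with h3 | h3
    · exact absurd (cx_one (sub_eq_zero.1 h3).symm) ha
    · exact h3

/-- finite Fourier expansion -/
private theorem cx_fourier {X : Type} [Fintype X] [DecidableEq X] (m : ℕ)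
    (θ : (X → Fin m → ZMod l) → ℝ) : ∃ th : (X → Fin m → ZMod l) → ℂ,
      (∀ η, ‖th η‖ ≤ ∑ t, |θ t|) ∧
      ∀ t, (θ t : ℂ) = ∑ η, th η * ec (∑ v, η v ⬝ᵥ t v) := by
  classical
  have hcard : (Fintype.card (X → Fin m → ZMod l) : ℂ) ≠ 0 :=
    Nat.cast_ne_zero.2 Fintype.card_ne_zero
  have hc1 : (1 : ℝ) ≤ (Fintype.card (X → Fin m → ZMod l) : ℝ) := by
    exact_mod_cast Nat.one_le_iff_ne_zero.2 Fintype.card_ne_zero
  refine ⟨fun η => (Fintype.card (X → Fin m → ZMod l) : ℂ)⁻¹ *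
    ∑ t, (θ t : ℂ) * ec (-∑ v, η v ⬝ᵥ t v), fun η => ?_, fun t => ?_⟩
  · rw [norm_mul, norm_inv, Complex.norm_natCast]
    have h1 : ‖∑ t, (θ t : ℂ) * ec (-∑ v, η v ⬝ᵥ t v)‖ ≤ ∑ t, |θ t| := by
      refine (norm_sum_le _ _).trans (Finset.sum_le_sum fun t _ => ?_)
      rw [norm_mul, cx_norm, mul_one, Complex.norm_real, Real.norm_eq_abs]
    have h2 : 0 ≤ ∑ t : X → Fin m → ZMod l, |θ t| :=
      Finset.sum_nonneg fun t _ => abs_nonneg _
    calc _ ≤ (Fintype.card (X → Fin m → ZMod l) : ℝ)⁻¹ * ∑ t, |θ t| :=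
          mul_le_mul_of_nonneg_left h1 (inv_nonneg.2 (by linarith))
      _ ≤ 1 * ∑ t, |θ t| := mul_le_mul_of_nonneg_right (inv_le_one_of_one_le₀ hc1) h2
      _ = _ := one_mul _
  · have h1 : ∀ η t' : X → Fin m → ZMod l,
        ec (-∑ v, η v ⬝ᵥ t' v) * ec (∑ v, η v ⬝ᵥ t v) = ec (∑ v, η v ⬝ᵥ (t v - t' v)) := by
      intro η t'
      rw [← cx_add]
      congr 1
      rw [neg_add_eq_sub, ← Finset.sum_sub_distrib]
      exact Finset.sum_congr rfl fun v _ => (dotProduct_sub _ _ _).symm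
    have h2 : ∀ t' : X → Fin m → ZMod l, ∑ η : X → Fin m → ZMod l,
        ec (∑ v, η v ⬝ᵥ (t v - t' v)) =
        if t' = t then (Fintype.card (X → Fin m → ZMod l) : ℂ) else 0 := by
      intro t'
      rw [cx_orth (fun η : X → Fin m → ZMod l => ∑ v, η v ⬝ᵥ (t v - t' v))]
      · have h3 : (∀ a : X → Fin m → ZMod l, ∑ v, a v ⬝ᵥ (t v - t' v) = 0) ↔ t' = t := by
          constructor
          · intro h
            funext v i
            have h4 := h (Pi.single v (Pi.single i 1))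
            rw [Finset.sum_eq_single v] at h4
            · rw [Pi.single_eq_same, single_one_dotProduct, Pi.sub_apply] at h4
              exact (sub_eq_zero.1 h4).symm
            · intro w _ hw
              rw [Pi.single_eq_of_ne hw, zero_dotProduct]
            · intro h5
              exact absurd (Finset.mem_univ _) h5
          · rintro rfl a
            refine Finset.sum_eq_zero fun v _ => ?_
            rw [sub_self, dotProduct_zero]
        by_cases h4 : t' = t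
        · rw [if_pos (h3.2 h4), if_pos h4]
        · rw [if_neg fun h5 => h4 (h3.1 h5), if_neg h4]
      · intro a b
        rw [← Finset.sum_add_distrib]
        exact Finset.sum_congr rfl fun v _ => by rw [Pi.add_apply, add_dotProduct]
    have h5 : ∑ η : X → Fin m → ZMod l, ((Fintype.card (X → Fin m → ZMod l) : ℂ)⁻¹ *
        ∑ t', (θ t' : ℂ) * ec (-∑ v, η v ⬝ᵥ t' v)) * ec (∑ v, η v ⬝ᵥ t v) =
        (Fintype.card (X → Fin m → ZMod l) : ℂ)⁻¹ * ∑ t', (θ t' : ℂ) *
          ∑ η : X → Fin m → ZMod l, ec (∑ v, η v ⬝ᵥ (t v - t' v)) := by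
      have h6 : ∀ η : X → Fin m → ZMod l, ((Fintype.card (X → Fin m → ZMod l) : ℂ)⁻¹ *
        ∑ t', (θ t' : ℂ) * ec (-∑ v, η v ⬝ᵥ t' v)) * ec (∑ v, η v ⬝ᵥ t v) =
          (Fintype.card (X → Fin m → ZMod l) : ℂ)⁻¹ * ∑ t', (θ t' : ℂ) *
            ec (∑ v, η v ⬝ᵥ (t v - t' v)) := by
        intro η
        rw [mul_assoc, Finset.sum_mul]
        congr 1
        refine Finset.sum_congr rfl fun t' _ => ?_
        rw [mul_assoc, h1]
      rw [Finset.sum_congr rfl fun η _ => h6 η, ← Finset.mul_sum, Finset.sum_comm]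
      congr 1
      refine Finset.sum_congr rfl fun t' _ => ?_
      rw [Finset.mul_sum]
    rw [h5, Finset.sum_congr rfl fun t' _ => by rw [h2 t', mul_ite, mul_zero]]
    rw [Finset.sum_ite_eq' Finset.univ t, if_pos (Finset.mem_univ _)]
    field_simp

end

/-! ### merging -/

section

variable {P : Type}

/-- disjoint families -/
private def Dp {ι : Type} (y : ι → Finset P) : Prop := ∀ i j, i ≠ j → Disjoint (y i) (y j)

open Classical in
/-- merging -/
private noncomputable def mg {κ J : Type} [Fintype J] (y : κ × J → Finset P) (k : κ) :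
    Finset P :=
  Finset.univ.biUnion fun j => y (k, j)

private theorem mg_mem {κ J : Type} [Fintype J] (y : κ × J → Finset P) (k : κ) (p : P) :
    p ∈ mg y k ↔ ∃ j, p ∈ y (k, j) := by
  classical
  unfold mg
  rw [Finset.mem_biUnion]
  simp only [Finset.mem_univ, true_and]

/-- a product over a family of sets -/
private theorem mg_prod {κ : Type} [Fintype κ] (U : Finset P) (x : κ → Finset P) (kk : U → κ)
    (hx : ∀ k p, p ∈ x k ↔ ∃ h : p ∈ U, kk ⟨p, h⟩ = k) (G : κ → P → ℂ) :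
    ∏ k, ∏ p ∈ x k, G k p = ∏ p : U, G (kk p) p.1 := by
  classical
  rw [← Finset.prod_fiberwise (Finset.univ : Finset U) kk]
  refine Finset.prod_congr rfl fun k _ => ?_
  have h1 : x k = (Finset.univ.filter fun p : U => kk p = k).map
      (Function.Embedding.subtype fun p => p ∈ U) := by
    ext p
    rw [hx, Finset.mem_map]
    constructor
    · rintro ⟨h, hk⟩
      exact ⟨⟨p, h⟩, by rw [Finset.mem_filter]; exact ⟨Finset.mem_univ _, hk⟩, rfl⟩
    · rintro ⟨q, hq, rfl⟩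
      exact ⟨q.2, (Finset.mem_filter.1 hq).2⟩
  rw [h1, Finset.prod_map]
  refine Finset.prod_congr rfl fun p hp => ?_
  rw [(Finset.mem_filter.1 hp).2]
  rfl

/-- the family with given types -/
private noncomputable def mgY {ι : Type} (U : Finset P) (τ : U → ι) (t : ι) : Finset P := by
  classical
  exact (Finset.univ.filter fun p : U => τ p = t).map (Function.Embedding.subtype fun p => p ∈ U)

private theorem mgY_mem {ι : Type} (U : Finset P) (τ : U → ι) (t : ι) (p : P) :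
    p ∈ mgY U τ t ↔ ∃ h : p ∈ U, τ ⟨p, h⟩ = t := by
  classical
  unfold mgY
  rw [Finset.mem_map]
  constructor
  · rintro ⟨q, hq, rfl⟩
    exact ⟨q.2, (Finset.mem_filter.1 hq).2⟩
  · rintro ⟨h, hk⟩
    exact ⟨⟨p, h⟩, by rw [Finset.mem_filter]; exact ⟨Finset.mem_univ _, hk⟩, rfl⟩

private theorem mgY_inj {ι : Type} (U : Finset P) : Function.Injective (mgY (ι := ι) U) := by
  intro τ τ' h
  funext p
  have h1 : p.1 ∈ mgY U τ (τ p) := (mgY_mem U τ (τ p) p.1).2 ⟨p.2, rfl⟩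
  rw [h, mgY_mem] at h1
  obtain ⟨_, h2⟩ := h1
  exact h2.symm

open Classical in
private theorem mg_fibre {κ J : Type} [Fintype κ] [Fintype J] (w : κ × J → P → ℂ)
    (x : κ → Finset P) (hx : Dp x) :
    ∑' y : (mg (P := P) (κ := κ) (J := J)) ⁻¹' {x}, (if Dp (y : κ × J → Finset P) then
      ∏ t, ∏ p ∈ (y : κ × J → Finset P) t, w t p else 0) =
    ∏ k, ∏ p ∈ x k, ∑ j, w (k, j) p := by
  set U : Finset P := Finset.univ.biUnion x with hU
  have hmU : ∀ k p, p ∈ x k → p ∈ U := by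
    intro k p hp
    rw [hU, Finset.mem_biUnion]
    exact ⟨k, Finset.mem_univ _, hp⟩
  have hk : ∀ p : U, ∃ k, p.1 ∈ x k := by
    rintro ⟨p, hp⟩
    rw [hU, Finset.mem_biUnion] at hp
    obtain ⟨k, _, hk⟩ := hp
    exact ⟨k, hk⟩
  choose kk hkk using hk
  have huniq : ∀ (p : U) (k : κ), p.1 ∈ x k → kk p = k := by
    intro p k hp
    by_contra hne
    exact (Finset.disjoint_left.1 (hx _ _ hne)) (hkk p) hp
  have hxk : ∀ k p, p ∈ x k ↔ ∃ h : p ∈ U, kk ⟨p, h⟩ = k := by
    intro k p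
    constructor
    · intro hp
      exact ⟨hmU k p hp, huniq _ _ hp⟩
    · rintro ⟨h, hk⟩
      have h2 := hkk ⟨p, h⟩
      rw [hk] at h2
      exact h2
  have hD : ∀ τ : U → J, Dp (mgY U fun p => (kk p, τ p)) := by
    intro τ i j hij
    rw [Finset.disjoint_left]
    intro p hp hp'
    rw [mgY_mem] at hp hp'
    obtain ⟨h1, h2⟩ := hp
    obtain ⟨_, h4⟩ := hp'
    exact hij (h2.symm.trans h4)
  have hM : ∀ τ : U → J, mg (mgY U fun p => (kk p, τ p)) = x := by
    intro τ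
    funext k
    ext p
    rw [mg_mem, hxk]
    constructor
    · rintro ⟨j, hp⟩
      rw [mgY_mem] at hp
      obtain ⟨h, h2⟩ := hp
      exact ⟨h, congrArg Prod.fst h2⟩
    · rintro ⟨h, h2⟩
      exact ⟨τ ⟨p, h⟩, (mgY_mem U _ _ p).2 ⟨h, Prod.ext h2 rfl⟩⟩
  have hS : ∀ y : κ × J → Finset P, Dp y → mg y = x →
      ∃ τ : U → J, (mgY U fun p => (kk p, τ p)) = y := by
    intro y hy hyx
    have h1 : ∀ p : U, ∃ j, p.1 ∈ y (kk p, j) := by
      intro p
      have h2 := hkk p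
      rw [← mg_mem, hyx]
      exact h2
    choose τ hτ using h1
    refine ⟨τ, ?_⟩
    funext t
    ext p
    rw [mgY_mem]
    constructor
    · rintro ⟨h, h2⟩
      rw [← h2]
      exact hτ ⟨p, h⟩
    · intro hp
      have h3 : p ∈ x t.1 := by
        rw [← hyx, mg_mem]
        exact ⟨t.2, hp⟩
      refine ⟨hmU _ _ h3, ?_⟩
      by_contra hne
      exact (Finset.disjoint_left.1 (hy _ _ hne)) (hτ ⟨p, hmU _ _ h3⟩) hp
  have hinj : Function.Injective fun τ : U → J => mgY U fun p => (kk p, τ p) := by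
    intro τ τ' h
    have h1 := mgY_inj U h
    funext p
    exact congrArg Prod.snd (congrFun h1 p)
  have e1 : ∏ k, ∏ p ∈ x k, ∑ j, w (k, j) p = ∑ τ : U → J, ∏ p : U, w (kk p, τ p) p.1 := by
    rw [mg_prod U x kk hxk (fun k p => ∑ j, w (k, j) p)]
    rw [Finset.prod_univ_sum (fun _ : U => (Finset.univ : Finset J))
      (fun p j => w (kk p, j) p.1), Fintype.piFinset_univ]
  rw [tsum_subtype ((mg (P := P) (κ := κ) (J := J)) ⁻¹' {x})
    (fun y : κ × J → Finset P => if Dp y then ∏ t, ∏ p ∈ y t, w t p else 0)]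
  rw [tsum_eq_sum (s := Finset.univ.image fun τ : U → J => mgY U fun p => (kk p, τ p))]
  · rw [Finset.sum_image (fun a _ b _ h => hinj h), e1]
    refine Finset.sum_congr rfl fun τ _ => ?_
    have h2 : (mgY U fun p => (kk p, τ p)) ∈ (mg (P := P) (κ := κ) (J := J)) ⁻¹' {x} := hM τ
    rw [Set.indicator_of_mem h2, if_pos (hD τ)]
    exact mg_prod U (mgY U fun p => (kk p, τ p)) (fun p => (kk p, τ p))
      (fun t p => mgY_mem U _ t p) (fun t p => w t p)
  · intro y hy
    by_cases h1 : y ∈ (mg (P := P) (κ := κ) (J := J)) ⁻¹' {x}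
    · rw [Set.indicator_of_mem h1, if_neg]
      intro h2
      apply hy
      obtain ⟨τ, hτy⟩ := hS y h2 h1
      rw [Finset.mem_image]
      exact ⟨τ, Finset.mem_univ _, hτy⟩
    · rw [Set.indicator_of_notMem h1]

end

/-! ### families -/

section

variable {l : ℕ} [Fact l.Prime] (S : SysL l) {d n : ℕ}

private theorem cx_ex_add (a b : S.El) (p : S.P) : S.ex (a + b) p = S.ex a p + S.ex b p := by
  unfold SysL.ex
  rw [Prod.snd_add, Prod.fst_add, add_dotProduct, Finsupp.sum_add_index']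
  · ring
  · intro q
    exact zero_mul _
  · intro q s t
    exact add_mul _ _ _

private theorem cx_ex_ty (η : S.T) (p : S.P) : S.ex (η, 0) p = η ⬝ᵥ S.ty p := by
  unfold SysL.ex
  rw [Finsupp.sum_zero_index, zero_add]

private theorem cx_gd_dp {ι : Type} {y : ι → Finset S.P} (h : S.Gd y) : Dp y := by
  intro i j hij
  rw [Finset.disjoint_left]
  intro p hp hp'
  exact hij (h.2 i j p hp p hp' 1 (S.ac_one p)).1

variable {R : Finset (SysL.VV l d)}

private theorem cx_gd {y : R × SysL.VV l n → Finset S.P} :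
    S.Gd y ↔ Dp y ∧ S.Gd (mg y) := by
  constructor
  · intro h
    refine ⟨cx_gd_dp S h, ⟨?_, ?_⟩⟩
    · intro u p hp
      rw [mg_mem] at hp
      obtain ⟨j, hj⟩ := hp
      exact h.1 _ p hj
    · intro u v p hp q hq g hg
      rw [mg_mem] at hp hq
      obtain ⟨j, hj⟩ := hp
      obtain ⟨k, hk⟩ := hq
      obtain ⟨h1, h2⟩ := h.2 _ _ p hj q hk g hg
      exact ⟨congrArg Prod.fst h1, h2⟩
  · rintro ⟨hd, h⟩
    have hm : ∀ (u : R × SysL.VV l n) (p : S.P), p ∈ y u → p ∈ mg y u.1 := by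
      intro u p hp
      rw [mg_mem]
      exact ⟨u.2, hp⟩
    refine ⟨fun u p hp => h.1 u.1 p (hm u p hp), fun u v p hp q hq g hg => ?_⟩
    obtain ⟨_, h2⟩ := h.2 _ _ p (hm u p hp) q (hm v q hq) g hg
    refine ⟨?_, h2⟩
    by_contra hne
    subst h2
    exact Finset.disjoint_left.1 (hd _ _ hne) hp hq

private theorem cx_off {M : Finset S.P} {y : R × SysL.VV l n → Finset S.P} :
    S.Off M y ↔ S.Off M (mg y) := by
  constructor
  · intro h u
    rw [Finset.disjoint_left]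
    intro p hp
    rw [mg_mem] at hp
    obtain ⟨j, hj⟩ := hp
    exact Finset.disjoint_left.1 (h _) hj
  · intro h u
    rw [Finset.disjoint_left]
    intro p hp
    exact Finset.disjoint_left.1 (h u.1) ((mg_mem _ _ _).2 ⟨u.2, hp⟩)

private theorem cx_pat (y : R × SysL.VV l n → Finset S.P) :
    S.pat (mg y) = (S.pat y).image Prod.fst := by
  classical
  ext u
  unfold SysL.pat
  rw [Finset.mem_filter, Finset.mem_image]
  constructor
  · rintro ⟨_, p, hp⟩
    obtain ⟨j, hj⟩ := (mg_mem _ _ _).1 hp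
    exact ⟨(u, j), Finset.mem_filter.2 ⟨Finset.mem_univ _, p, hj⟩, rfl⟩
  · rintro ⟨t, ht, rfl⟩
    obtain ⟨p, hp⟩ := (Finset.mem_filter.1 ht).2
    exact ⟨Finset.mem_univ _, p, (mg_mem _ _ _).2 ⟨t.2, hp⟩⟩

/-- the exponent at a prime -/
private noncomputable def cxA (Bd : SysL.BD l d n) (c : SysL.VV l d → SysL.VV l n → S.El)
    (x : R → Finset S.P) (v : R) (p : S.P) (ζ : SysL.VV l n) : ZMod l :=
  ∑ w : R, (∑ q ∈ x w, S.J q p) * (ζ ⬝ᵥ Bd.B w v) + S.ex (c v ζ) p

private theorem cxA_add (Bd : SysL.BD l d n) {c : SysL.VV l d → SysL.VV l n → S.El}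
    (hc : S.Adc c) (x : R → Finset S.P) (v : R) (p : S.P) (ζ ζ' : SysL.VV l n) :
    cxA S Bd c x v p (ζ + ζ') = cxA S Bd c x v p ζ + cxA S Bd c x v p ζ' := by
  unfold cxA
  rw [hc, cx_ex_add]
  have h1 : ∑ w : R, (∑ q ∈ x w, S.J q p) * ((ζ + ζ') ⬝ᵥ Bd.B w v) =
      ∑ w : R, (∑ q ∈ x w, S.J q p) * (ζ ⬝ᵥ Bd.B w v) +
        ∑ w : R, (∑ q ∈ x w, S.J q p) * (ζ' ⬝ᵥ Bd.B w v) := by
    rw [← Finset.sum_add_distrib]
    refine Finset.sum_congr rfl fun w _ => ?_
    rw [add_dotProduct, mul_add]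
  rw [h1]
  ring

private theorem cx_EE (Bd : SysL.BD l d n) (c : R × SysL.VV l n → S.El)
    {y : R × SysL.VV l n → Finset S.P} (hy : S.Gd y) :
    S.EE (SysL.bz Bd R) c y = ∑ u, ∑ p ∈ y u,
      (∑ w : R, (∑ q ∈ mg y w, S.J q p) * (u.2 ⬝ᵥ Bd.B w u.1) + S.ex (c u) p) := by
  classical
  unfold SysL.EE
  rw [← Finset.sum_add_distrib]
  refine Finset.sum_congr rfl fun u _ => ?_
  rw [Finset.sum_add_distrib]
  congr 1
  rw [Finset.sum_congr rfl fun v _ => Finset.mul_sum _ _ _, Finset.sum_comm]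
  refine Finset.sum_congr rfl fun p hp => ?_
  rw [Fintype.sum_prod_type]
  refine Finset.sum_congr rfl fun w _ => ?_
  unfold SysL.bz
  have h0 : (∑ j : SysL.VV l n, u.2 ⬝ᵥ Bd.B ((w, j) : R × SysL.VV l n).1 u.1 *
      ∑ q ∈ y (w, j), if p = q then 0 else S.J q p) =
      (u.2 ⬝ᵥ Bd.B w u.1) * ∑ j : SysL.VV l n, ∑ q ∈ y (w, j), if p = q then 0 else S.J q p := by
    rw [Finset.mul_sum]
  rw [h0]
  by_cases hw : w = u.1
  · subst hw
    rw [Bd.alt, dotProduct_zero, zero_mul, mul_zero]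
  · rw [mul_comm]
    congr 1
    unfold mg
    rw [Finset.sum_biUnion]
    · refine Finset.sum_congr rfl fun j _ => Finset.sum_congr rfl fun q hq => ?_
      rw [if_neg]
      rintro rfl
      have h1 := (hy.2 u (w, j) p hp p hq 1 (S.ac_one p)).1
      exact hw (congrArg Prod.fst h1).symm
    · intro i _ j _ hij
      exact cx_gd_dp S hy _ _ fun h => hij (congrArg Prod.snd h)

/-- the weight of a type at a prime -/
private noncomputable def cxW (Bd : SysL.BD l d n) (c : SysL.VV l d → SysL.VV l n → S.El)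
    (τ : S.P → ℝ) (s : ℝ) (η : R → S.T) (x : R → Finset S.P) (u : R × SysL.VV l n)
    (p : S.P) : ℂ :=
  ec (cxA S Bd c x u.1 p u.2 + η u.1 ⬝ᵥ S.ty p) * ((τ p * (S.N p : ℝ) ^ (-s) : ℝ) : ℂ)

open Classical in
private theorem cx_Kt (Bd : SysL.BD l d n) (c : SysL.VV l d → SysL.VV l n → S.El)
    (τ : S.P → ℝ) (s : ℝ) (η : R → S.T) (M : Finset S.P)
    (y : R × SysL.VV l n → Finset S.P) :
    S.Kt τ s (SysL.bz Bd R) (fun u => S.cz R c u + (η u.1, 0)) M y =
      if S.Gd (mg y) ∧ S.Off M (mg y) then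
        (if Dp y then ∏ u, ∏ p ∈ y u, cxW S Bd c τ s η (mg y) u p else 0) else 0 := by
  unfold SysL.Kt
  by_cases h : S.Gd y ∧ S.Off M y
  · have h1 := (cx_gd S).1 h.1
    have h2 := (cx_off S).1 h.2
    rw [if_pos h, if_pos ⟨h1.2, h2⟩, if_pos h1.1, cx_EE S Bd _ h.1, cx_sum]
    rw [Complex.ofReal_prod, ← Finset.prod_mul_distrib]
    refine Finset.prod_congr rfl fun u _ => ?_
    rw [cx_sum, Complex.ofReal_prod, ← Finset.prod_mul_distrib]
    refine Finset.prod_congr rfl fun p _ => ?_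
    unfold cxW cxA
    congr 2
    rw [cx_ex_add, cx_ex_ty, ← add_assoc]
    rfl
  · rw [if_neg h]
    by_cases h1 : S.Gd (mg y) ∧ S.Off M (mg y)
    · rw [if_pos h1, if_neg]
      intro h2
      exact h ⟨(cx_gd S).2 ⟨h2, h1.1⟩, (cx_off S).2 h1.2⟩
    · rw [if_neg h1]

open Classical in
private theorem cx_Wsum (Bd : SysL.BD l d n) {c : SysL.VV l d → SysL.VV l n → S.El}
    (hc : S.Adc c) (τ : S.P → ℝ) (s : ℝ) (η : R → S.T) (x : R → Finset S.P) (v : R)
    (p : S.P) : ∑ ζ : SysL.VV l n, cxW S Bd c τ s η x (v, ζ) p =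
      ec (η v ⬝ᵥ S.ty p) * (if ∀ ζ, cxA S Bd c x v p ζ = 0 then
        (((l : ℝ) ^ n * τ p * (S.N p : ℝ) ^ (-s) : ℝ) : ℂ) else 0) := by
  unfold cxW
  have h1 : ∀ ζ : SysL.VV l n, ec (cxA S Bd c x v p ζ + η v ⬝ᵥ S.ty p) *
      ((τ p * (S.N p : ℝ) ^ (-s) : ℝ) : ℂ) = ec (cxA S Bd c x v p ζ) *
        (ec (η v ⬝ᵥ S.ty p) * ((τ p * (S.N p : ℝ) ^ (-s) : ℝ) : ℂ)) := by
    intro ζ
    rw [cx_add, mul_assoc]
  rw [Finset.sum_congr rfl fun ζ _ => h1 ζ, ← Finset.sum_mul,
    cx_orth (fun ζ => cxA S Bd c x v p ζ) (cxA_add S Bd hc x v p)]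
  have h2 : Fintype.card (SysL.VV l n) = l ^ n := by
    rw [Fintype.card_fun, ZMod.card, Fintype.card_fin]
  rw [h2]
  split_ifs
  · push_cast
    ring
  · rw [zero_mul, mul_zero]

open Classical in
private theorem cx_Wprod (Bd : SysL.BD l d n) {c : SysL.VV l d → SysL.VV l n → S.El}
    (hc : S.Adc c) (τ : S.P → ℝ) (s : ℝ) (η : R → S.T) (x : R → Finset S.P) :
    ∏ v, ∏ p ∈ x v, ∑ ζ : SysL.VV l n, cxW S Bd c τ s η x (v, ζ) p =
      ec (∑ v, η v ⬝ᵥ S.tys (x v)) * (if S.okc Bd R c x then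
        ((∏ v, ∏ p ∈ x v, ((l : ℝ) ^ n * τ p * (S.N p : ℝ) ^ (-s)) : ℝ) : ℂ) else 0) := by
  have h1 : ∏ v, ∏ p ∈ x v, ∑ ζ : SysL.VV l n, cxW S Bd c τ s η x (v, ζ) p =
      (∏ v, ∏ p ∈ x v, ec (η v ⬝ᵥ S.ty p)) * ∏ v, ∏ p ∈ x v,
        (if ∀ ζ, cxA S Bd c x v p ζ = 0 then
          (((l : ℝ) ^ n * τ p * (S.N p : ℝ) ^ (-s) : ℝ) : ℂ) else 0) := by
    rw [← Finset.prod_mul_distrib]
    refine Finset.prod_congr rfl fun v _ => ?_
    rw [← Finset.prod_mul_distrib]
    exact Finset.prod_congr rfl fun p _ => cx_Wsum S Bd hc τ s η x v p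
  rw [h1]
  congr 1
  · rw [cx_sum]
    refine Finset.prod_congr rfl fun v _ => ?_
    unfold SysL.tys
    rw [dotProduct_sum, cx_sum]
  · by_cases h : S.okc Bd R c x
    · rw [if_pos h]
      rw [Complex.ofReal_prod]
      refine Finset.prod_congr rfl fun v _ => ?_
      rw [Complex.ofReal_prod]
      refine Finset.prod_congr rfl fun p hp => ?_
      have h3 : ∀ ζ, cxA S Bd c x v p ζ = 0 := h v p hp
      rw [if_pos h3]
    · rw [if_neg h]
      unfold SysL.okc at h
      push Not at h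
      obtain ⟨v, p, hp, ζ, hζ⟩ := h
      refine Finset.prod_eq_zero (Finset.mem_univ v) (Finset.prod_eq_zero hp ?_)
      rw [if_neg]
      intro h2
      exact hζ (h2 ζ)

end

open Classical in
/-- the expansion in types -/
theorem sexpd (hs : SSmL) : SExpd := by
  intro l _ S d n Bd R c M Φ θ B τ hτ hc
  obtain ⟨th, hth1, hth2⟩ := cx_fourier (l := l) (X := R) S.m θ
  refine ⟨th, hth1, hth2, fun σ hσ => ?_⟩
  set s : ℝ := 1 + σ with hs'
  set K : (R → S.T) → (R × SysL.VV l n → Finset S.P) → ℂ := fun η y =>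
    if Φ ((S.pat y).image Prod.fst) then
      S.Kt τ s (SysL.bz Bd R) (fun u => S.cz R c u + (η u.1, 0)) M y else 0 with hK
  have hKt : ∀ η : R → S.T, Summable fun y : R × SysL.VV l n → Finset S.P =>
      ‖S.Kt τ s (SysL.bz Bd R) (fun u => S.cz R c u + (η u.1, 0)) M y‖ := fun η =>
    hs l S (R × SysL.VV l n) (SysL.bz Bd R) (fun u => S.cz R c u + (η u.1, 0)) M B τ hτ σ hσ
  have hKs : ∀ η, Summable (K η) := by
    intro η
    refine Summable.of_norm_bounded (hKt η) fun y => ?_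
    rw [hK]
    dsimp only
    split_ifs
    · exact le_rfl
    · rw [norm_zero]
      exact norm_nonneg _
  have hfib := fun η => (hKs η).hasSum.tsum_fiberwise
    (mg (P := S.P) (κ := R) (J := SysL.VV l n))
  have hx : ∀ (η : R → S.T) (x : R → Finset S.P),
      ∑' y : (mg (P := S.P) (κ := R) (J := SysL.VV l n)) ⁻¹' {x}, K η y =
        ec (∑ v, η v ⬝ᵥ S.tys (x v)) *
        (if S.Gd x ∧ S.Off M x ∧ S.okc Bd R c x ∧ Φ (S.pat x) then
          ((∏ v, ∏ p ∈ x v, ((l : ℝ) ^ n * τ p * (S.N p : ℝ) ^ (-s)) : ℝ) : ℂ) else 0) := by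
    intro η x
    have h1 : ∀ y : (mg (P := S.P) (κ := R) (J := SysL.VV l n)) ⁻¹' {x}, K η y =
        if S.Gd x ∧ S.Off M x ∧ Φ (S.pat x) then
          (if Dp (y : R × SysL.VV l n → Finset S.P) then
            ∏ u, ∏ p ∈ (y : R × SysL.VV l n → Finset S.P) u, cxW S Bd c τ s η x u p else 0)
          else 0 := by
      intro y
      have hy : mg (y : R × SysL.VV l n → Finset S.P) = x := y.2
      rw [hK]
      dsimp only
      rw [cx_Kt, hy, ← cx_pat, hy]
      by_cases h2 : Φ (S.pat x)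
      · rw [if_pos h2]
        by_cases h3 : S.Gd x ∧ S.Off M x
        · have h4 : S.Gd x ∧ S.Off M x ∧ Φ (S.pat x) := ⟨h3.1, h3.2, h2⟩
          rw [if_pos h3, if_pos h4]
        · have h4 : ¬ (S.Gd x ∧ S.Off M x ∧ Φ (S.pat x)) := fun h => h3 ⟨h.1, h.2.1⟩
          rw [if_neg h3, if_neg h4]
      · rw [if_neg h2, if_neg fun h => h2 h.2.2]
    rw [tsum_congr h1]
    by_cases h2 : S.Gd x ∧ S.Off M x ∧ Φ (S.pat x)
    · simp only [if_pos h2]
      rw [mg_fibre _ x (cx_gd_dp S h2.1), cx_Wprod S Bd hc]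
      by_cases h3 : S.okc Bd R c x
      · rw [if_pos h3, if_pos ⟨h2.1, h2.2.1, h3, h2.2.2⟩]
      · rw [if_neg h3, if_neg fun h => h3 h.2.2.1]
    · simp only [if_neg h2]
      rw [tsum_zero, if_neg fun h => h2 ⟨h.1, h.2.1, h.2.2.2⟩, mul_zero]
  set F : (R → Finset S.P) → ℝ := fun x =>
    if S.Gd x ∧ S.Off M x ∧ S.okc Bd R c x ∧ Φ (S.pat x)
      then θ (fun v => S.tys (x v)) *
        ∏ v, ∏ p ∈ x v, ((l : ℝ) ^ n * τ p * (S.N p : ℝ) ^ (-s)) else 0 with hF
  have hFx : ∀ x, (F x : ℂ) = ∑ η : R → S.T, th η *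
      ∑' y : (mg (P := S.P) (κ := R) (J := SysL.VV l n)) ⁻¹' {x}, K η y := by
    intro x
    rw [Finset.sum_congr rfl fun η _ => by rw [hx η x, ← mul_assoc], ← Finset.sum_mul,
      ← hth2 fun v => S.tys (x v)]
    rw [hF]
    dsimp only
    split_ifs
    · push_cast
      rfl
    · rw [mul_zero, Complex.ofReal_zero]
  have hFs : Summable fun x => (F x : ℂ) := by
    have h1 : (fun x => (F x : ℂ)) = fun x => ∑ η : R → S.T, th η *
        ∑' y : (mg (P := S.P) (κ := R) (J := SysL.VV l n)) ⁻¹' {x}, K η y := funext hFx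
    rw [h1]
    exact summable_sum fun η _ => (hfib η).summable.mul_left _
  refine ⟨Complex.summable_ofReal.1 hFs, ?_⟩
  have h1 : (S.FF Bd R c M Φ θ τ s : ℂ) = ∑' x, (F x : ℂ) := by
    unfold SysL.FF
    rw [Complex.ofReal_tsum]
  rw [h1, tsum_congr hFx, Summable.tsum_finsetSum fun η _ => (hfib η).summable.mul_left _]
  refine Finset.sum_congr rfl fun η _ => ?_
  rw [tsum_mul_left]
  congr 1
  rw [(hfib η).tsum_eq]
  have h2 : ∀ y, K η y = ∑ U : Finset (R × SysL.VV l n), if Φ (U.image Prod.fst) then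
      (if S.pat y = U then
        S.Kt τ s (SysL.bz Bd R) (fun u => S.cz R c u + (η u.1, 0)) M y else 0) else 0 := by
    intro y
    rw [Finset.sum_eq_single (S.pat y)]
    · rw [if_pos (rfl : S.pat y = S.pat y)]
    · intro U _ hU
      rw [if_neg (Ne.symm hU), ite_self]
    · intro h
      exact absurd (Finset.mem_univ _) h
  have hU : ∀ U : Finset (R × SysL.VV l n), Summable fun y : R × SysL.VV l n → Finset S.P =>
      (if S.pat y = U then
        S.Kt τ s (SysL.bz Bd R) (fun u => S.cz R c u + (η u.1, 0)) M y else 0) := by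
    intro U
    refine Summable.of_norm_bounded (hKt η) fun y => ?_
    split_ifs
    · exact le_rfl
    · rw [norm_zero]
      exact norm_nonneg _
  rw [tsum_congr h2, Summable.tsum_finsetSum]
  · refine Finset.sum_congr rfl fun U _ => ?_
    split_ifs
    · unfold SysL.PS
      exact tsum_congr fun y => by congr
    · exact tsum_zero
  · intro U _
    by_cases h3 : Φ (U.image Prod.fst)
    · simp only [if_pos h3]
      exact hU U
    · simp only [if_neg h3]
      exact summable_zero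

end Pool.Agent.H92.EL
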