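import Pool.Agent.H92.EL.CStm

/-!
# Project ELL (MP_a3214d), block C, row C10: two large linked variables in a family
-/

set_option autoImplicit false

open scoped BigOperators Topology
open Filter

namespace Pool.Agent.H92.EL

open Pool.Agent.H98.MF (Pre)

/-! ### the character -/

private theorem ec_add' {l : ℕ} [NeZero l] (a b : ZMod l) : ec (a + b) = ec a * ec b :=
  AddChar.map_add_eq_mul _ _ _

private theorem ec_norm' {l : ℕ} [NeZero l] (a : ZMod l) : ‖ec a‖ = 1 :=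
  AddChar.norm_apply _ _

/-! ### products over finite families -/

private theorem cfa_pi {T X : Type} [Fintype T] (g : X → ℝ) (hg : ∀ x, 0 ≤ g x)
    (hs : Summable g) :
    (Summable fun r : T → X => ∏ t, g (r t)) ∧
      ∑' r : T → X, ∏ t, g (r t) ≤ (∑' x, g x) ^ Fintype.card T := by
  classical
  have h1 : ∀ F : Finset (T → X), ∑ r ∈ F, ∏ t, g (r t) ≤ (∑' x, g x) ^ Fintype.card T := by
    intro F
    have h2 : F ⊆ Fintype.piFinset fun t => F.image fun r => r t := by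
      intro r hr
      rw [Fintype.mem_piFinset]
      exact fun t => Finset.mem_image_of_mem _ hr
    refine (Finset.sum_le_sum_of_subset_of_nonneg h2 fun r _ _ =>
      Finset.prod_nonneg fun t _ => hg _).trans ?_
    rw [← Finset.prod_univ_sum]
    refine (Finset.prod_le_prod (fun t _ => Finset.sum_nonneg fun x _ => hg x)
      fun t _ => hs.sum_le_tsum _ fun x _ => hg x).trans (le_of_eq ?_)
    rw [Finset.prod_const, Finset.card_univ]
  have h2 : Summable fun r : T → X => ∏ t, g (r t) :=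
    summable_of_sum_le (fun r => Finset.prod_nonneg fun t _ => hg _) h1
  exact ⟨h2, h2.tsum_le_of_sum_le h1⟩

section glue

variable {P ι : Type}

/-- the other variables -/
abbrev CfR (u v : ι) : Type := {t : ι // t ≠ u ∧ t ≠ v}

noncomputable instance cfRFt [Fintype ι] (u v : ι) : Fintype (CfR u v) := Fintype.ofFinite _

open Classical in
/-- a tuple from two variables and the others -/
noncomputable def cfG (u v : ι) (r : CfR u v → Finset P) (z : Finset P × Finset P) :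
    ι → Finset P := fun t =>
  if hu : t = u then z.1 else if hv : t = v then z.2 else r ⟨t, hu, hv⟩

theorem cfG_u (u v : ι) (r : CfR u v → Finset P) (z : Finset P × Finset P) :
    cfG u v r z u = z.1 := dif_pos rfl

theorem cfG_v {u v : ι} (h : u ≠ v) (r : CfR u v → Finset P) (z : Finset P × Finset P) :
    cfG u v r z v = z.2 := by
  unfold cfG
  rw [dif_neg h.symm, dif_pos rfl]

theorem cfG_r {u v : ι} (r : CfR u v → Finset P) (z : Finset P × Finset P) (t : CfR u v) :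
    cfG u v r z t.1 = r t := by
  unfold cfG
  rw [dif_neg t.2.1, dif_neg t.2.2]

/-- the equivalence -/
noncomputable def cfE {u v : ι} (h : u ≠ v) :
    (CfR u v → Finset P) × (Finset P × Finset P) ≃ (ι → Finset P) where
  toFun p := cfG u v p.1 p.2
  invFun x := (fun t => x t.1, (x u, x v))
  left_inv p := by
    refine Prod.ext ?_ (Prod.ext ?_ ?_)
    · funext t
      exact cfG_r p.1 p.2 t
    · exact cfG_u u v p.1 p.2
    · exact cfG_v h p.1 p.2
  right_inv x := by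
    funext t
    by_cases hu : t = u
    · subst hu
      exact cfG_u _ _ _ _
    · by_cases hv : t = v
      · subst hv
        exact cfG_v h _ _
      · exact cfG_r (u := u) (v := v) _ _ ⟨t, hu, hv⟩

theorem cf_sum [Fintype ι] {M : Type*} [AddCommMonoid M] {u v : ι} (h : u ≠ v) (f : ι → M) :
    ∑ t, f t = f u + (f v + ∑ t : CfR u v, f t.1) := by
  classical
  have h1 : (Finset.univ : Finset ι) =
      insert u (insert v (Finset.univ.filter fun t => t ≠ u ∧ t ≠ v)) := by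
    ext t
    simp only [Finset.mem_univ, Finset.mem_insert, Finset.mem_filter, true_and, true_iff]
    tauto
  have h2 : u ∉ insert v (Finset.univ.filter fun t => t ≠ u ∧ t ≠ v) := by
    simp only [Finset.mem_insert, Finset.mem_filter, Finset.mem_univ, true_and, not_or]
    exact ⟨h, fun h3 => h3.1 rfl⟩
  have h3 : v ∉ (Finset.univ.filter fun t => t ≠ u ∧ t ≠ v) := by
    simp only [Finset.mem_filter, Finset.mem_univ, true_and]
    exact fun h3 => h3.2 rfl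
  rw [h1, Finset.sum_insert h2, Finset.sum_insert h3]
  congr 2
  refine Finset.sum_subtype _ (fun t => ?_) _
  simp only [Finset.mem_filter, Finset.mem_univ, true_and]

theorem cf_prod [Fintype ι] {M : Type*} [CommMonoid M] {u v : ι} (h : u ≠ v) (f : ι → M) :
    ∏ t, f t = f u * (f v * ∏ t : CfR u v, f t.1) := by
  have h1 := cf_sum (M := Additive M) h (fun t => Additive.ofMul (f t))
  exact h1

theorem cf_all {u v : ι} {p : ι → Prop} : (∀ t, p t) ↔ (p u ∧ p v ∧ ∀ t : CfR u v, p t.1) := by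
  refine ⟨fun h => ⟨h u, h v, fun t => h t.1⟩, fun h t => ?_⟩
  by_cases hu : t = u
  · rw [hu]; exact h.1
  · by_cases hv : t = v
    · rw [hv]; exact h.2.1
    · exact h.2.2 ⟨t, hu, hv⟩

end glue

section sys

variable {l : ℕ} [Fact l.Prime] (S : SysL l) {ι : Type}

/-- a set of primes away from a family -/
def CfA {κ : Type} (a : Finset S.P) (r : κ → Finset S.P) : Prop :=
  ∀ t, ∀ p ∈ a, ∀ q ∈ r t, ∀ g, S.ac g p ≠ q

/-- separated pairs -/
def CfS (i j : ι) (x : ι → Finset S.P) : Prop :=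
  ∀ p ∈ x i, ∀ q ∈ x j, ∀ g, S.ac g p = q → i = j ∧ p = q

theorem CfS.sy {S : SysL l} {i j : ι} {x : ι → Finset S.P} (h : CfS S i j x) : CfS S j i x := by
  intro p hp q hq g hg
  have h1 : S.ac g⁻¹ q = p := by
    rw [← hg, ← S.ac_mul, inv_mul_cancel, S.ac_one]
  obtain ⟨h2, h3⟩ := h q hq p hp g⁻¹ h1
  exact ⟨h2.symm, h3.symm⟩

theorem cf_Gd {u v : ι} (h : u ≠ v) (r : CfR u v → Finset S.P) (z : Finset S.P × Finset S.P) :
    S.Gd (cfG u v r z) ↔ S.G2 z.1 z.2 ∧ CfA S z.1 r ∧ CfA S z.2 r ∧ S.Gd r := by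
  constructor
  · rintro ⟨h1, h2⟩
    refine ⟨⟨?_, ?_⟩, ?_, ?_, ⟨?_, ?_⟩⟩
    · intro i p hp
      cases i
      · exact h1 v p (by rw [cfG_v h]; exact hp)
      · exact h1 u p (by rw [cfG_u]; exact hp)
    · intro i j p hp q hq g hg
      cases i <;> cases j
      · exact ⟨rfl, (h2 v v p (by rw [cfG_v h]; exact hp) q (by rw [cfG_v h]; exact hq) g hg).2⟩
      · exact absurd (h2 v u p (by rw [cfG_v h]; exact hp) q (by rw [cfG_u]; exact hq) g hg).1
          h.symm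
      · exact absurd (h2 u v p (by rw [cfG_u]; exact hp) q (by rw [cfG_v h]; exact hq) g hg).1 h
      · exact ⟨rfl, (h2 u u p (by rw [cfG_u]; exact hp) q (by rw [cfG_u]; exact hq) g hg).2⟩
    · intro t p hp q hq g hg
      exact t.2.1 (h2 u t.1 p (by rw [cfG_u]; exact hp) q (by rw [cfG_r]; exact hq) g hg).1.symm
    · intro t p hp q hq g hg
      exact t.2.2 (h2 v t.1 p (by rw [cfG_v h]; exact hp) q (by rw [cfG_r]; exact hq) g hg).1.symm
    · intro t p hp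
      exact h1 t.1 p (by rw [cfG_r]; exact hp)
    · intro t t' p hp q hq g hg
      obtain ⟨h3, h4⟩ := h2 t.1 t'.1 p (by rw [cfG_r]; exact hp) q (by rw [cfG_r]; exact hq) g hg
      exact ⟨Subtype.ext h3, h4⟩
  · rintro ⟨⟨g1, g2⟩, ha, hb, ⟨r1, r2⟩⟩
    refine ⟨?_, ?_⟩
    · rw [cf_all (u := u) (v := v)]
      refine ⟨?_, ?_, fun t => ?_⟩
      · rw [cfG_u]
        exact g1 true
      · rw [cfG_v h]
        exact g1 false
      · rw [cfG_r]
        exact r1 t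
    · have kuu : CfS S u u (cfG u v r z) := by
        intro p hp q hq g hg
        rw [cfG_u] at hp hq
        exact ⟨rfl, (g2 true true p hp q hq g hg).2⟩
      have kvv : CfS S v v (cfG u v r z) := by
        intro p hp q hq g hg
        rw [cfG_v h] at hp hq
        exact ⟨rfl, (g2 false false p hp q hq g hg).2⟩
      have kuv : CfS S u v (cfG u v r z) := by
        intro p hp q hq g hg
        rw [cfG_u] at hp
        rw [cfG_v h] at hq
        exact absurd (g2 true false p hp q hq g hg).1 (by simp)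
      have kut : ∀ t : CfR u v, CfS S u t.1 (cfG u v r z) := by
        intro t p hp q hq g hg
        rw [cfG_u] at hp
        rw [cfG_r] at hq
        exact absurd hg (ha t p hp q hq g)
      have kvt : ∀ t : CfR u v, CfS S v t.1 (cfG u v r z) := by
        intro t p hp q hq g hg
        rw [cfG_v h] at hp
        rw [cfG_r] at hq
        exact absurd hg (hb t p hp q hq g)
      have ktt : ∀ t t' : CfR u v, CfS S t.1 t'.1 (cfG u v r z) := by
        intro t t' p hp q hq g hg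
        rw [cfG_r] at hp hq
        obtain ⟨h3, h4⟩ := r2 t t' p hp q hq g hg
        exact ⟨congrArg Subtype.val h3, h4⟩
      have key : ∀ i j, CfS S i j (cfG u v r z) := by
        rw [cf_all (u := u) (v := v)]
        refine ⟨?_, ?_, fun t => ?_⟩
        · rw [cf_all (u := u) (v := v)]
          exact ⟨kuu, kuv, kut⟩
        · rw [cf_all (u := u) (v := v)]
          exact ⟨kuv.sy, kvv, kvt⟩
        · rw [cf_all (u := u) (v := v)]
          exact ⟨(kut t).sy, (kvt t).sy, ktt t⟩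
      exact key

open Classical in
/-- the coupling of two sets in the exponent -/
noncomputable def cfJ (x y : Finset S.P) : ZMod l :=
  ∑ p ∈ x, ∑ q ∈ y, (if p = q then 0 else S.J q p)

theorem cf_s {p q : S.P} (hpq : ∀ g, S.ac g p ≠ q) (g : S.D) :
    (((S.e g)⁻¹ : (ZMod l)ˣ) : ZMod l) * S.s (S.ac g q) p = S.s (S.ac g⁻¹ p) q := by
  have h1 : q ≠ S.ac g⁻¹ p := fun h => hpq g⁻¹ h.symm
  have h2 : S.ac g (S.ac g⁻¹ p) = p := by
    rw [← S.ac_mul, mul_inv_cancel, S.ac_one]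
  have h3 := S.s_ac g q (S.ac g⁻¹ p) h1
  rw [h2] at h3
  rw [h3, ← mul_assoc, ← Units.val_mul, inv_mul_cancel, Units.val_one, one_mul,
    S.symm q _ h1]

theorem cf_J {p q : S.P} (hpq : ∀ g, S.ac g p ≠ q) : S.J q p = ∑ g : S.D, S.s (S.ac g p) q := by
  unfold SysL.J
  rw [Finset.sum_congr rfl fun g _ => cf_s S hpq g]
  exact Equiv.sum_comp (Equiv.inv S.D) fun g => S.s (S.ac g p) q

theorem cf_Tt (b1 b2 : ZMod l) (x y : Finset S.P)
    (hxy : ∀ p ∈ x, ∀ q ∈ y, ∀ g, S.ac g p ≠ q) :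
    b1 * cfJ S x y + b2 * cfJ S y x =
      S.Tt (fun g => b1 + (((S.e g)⁻¹ : (ZMod l)ˣ) : ZMod l) * b2) x y := by
  classical
  unfold cfJ SysL.Tt
  rw [Finset.sum_comm (s := y), Finset.mul_sum, Finset.mul_sum, ← Finset.sum_add_distrib]
  refine Finset.sum_congr rfl fun p hp => ?_
  rw [Finset.mul_sum, Finset.mul_sum, ← Finset.sum_add_distrib]
  refine Finset.sum_congr rfl fun q hq => ?_
  have h1 : p ≠ q := by
    intro h
    exact hxy p hp q hq 1 (by rw [S.ac_one]; exact h)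
  rw [if_neg h1, if_neg h1.symm, cf_J S (hxy p hp q hq)]
  unfold SysL.J
  rw [Finset.mul_sum, Finset.mul_sum, ← Finset.sum_add_distrib]
  refine Finset.sum_congr rfl fun g _ => ?_
  ring

/-- the exponent of one variable -/
noncomputable def cfX [Fintype ι] (b : ι → ι → ZMod l) (d : ι → S.El) (u v w : ι)
    (r : CfR u v → Finset S.P) (a : Finset S.P) : ZMod l :=
  b w w * cfJ S a a + ∑ t : CfR u v, b w t.1 * cfJ S a (r t) +
    ∑ t : CfR u v, b t.1 w * cfJ S (r t) a + ∑ p ∈ a, S.ex (d w) p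

/-- the exponent of the others -/
noncomputable def cfY [Fintype ι] (b : ι → ι → ZMod l) (d : ι → S.El) (u v : ι)
    (r : CfR u v → Finset S.P) : ZMod l :=
  ∑ t : CfR u v, ∑ t' : CfR u v, b t.1 t'.1 * cfJ S (r t) (r t') +
    ∑ t : CfR u v, ∑ p ∈ r t, S.ex (d t.1) p

theorem cf_EE [Fintype ι] (b : ι → ι → ZMod l) (d : ι → S.El) {u v : ι} (h : u ≠ v)
    (r : CfR u v → Finset S.P) (z : Finset S.P × Finset S.P) :
    S.EE b d (cfG u v r z) = (b u v * cfJ S z.1 z.2 + b v u * cfJ S z.2 z.1) +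
      cfX S b d u v u r z.1 + cfX S b d u v v r z.2 + cfY S b d u v r := by
  have h0 : S.EE b d (cfG u v r z) = ∑ s, ∑ t, b s t * cfJ S (cfG u v r z s) (cfG u v r z t) +
      ∑ s, ∑ p ∈ cfG u v r z s, S.ex (d s) p := rfl
  have h1 : ∀ s, ∑ t, b s t * cfJ S (cfG u v r z s) (cfG u v r z t) =
      b s u * cfJ S (cfG u v r z s) z.1 + (b s v * cfJ S (cfG u v r z s) z.2 +
        ∑ t : CfR u v, b s t.1 * cfJ S (cfG u v r z s) (r t)) := by
    intro s
    rw [cf_sum h, cfG_u, cfG_v h]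
    simp only [cfG_r]
  unfold cfX cfY
  rw [h0, Finset.sum_congr rfl fun s _ => h1 s, cf_sum h, cf_sum h (fun s => ∑ p ∈ cfG u v r z s,
    S.ex (d s) p), cfG_u, cfG_v h]
  simp only [cfG_r, Finset.sum_add_distrib]
  ring

theorem cf_pw (s : ℝ) (f : S.P → ℝ) (x : Finset S.P) :
    ∏ p ∈ x, (f p * (S.N p : ℝ) ^ (-s)) = (∏ p ∈ x, f p) * S.pws s x := by
  unfold SysL.pws
  rw [Finset.prod_mul_distrib]

theorem cf_pw_nonneg (s : ℝ) (x : Finset S.P) : 0 ≤ S.pws s x :=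
  Finset.prod_nonneg fun _ _ => Real.rpow_nonneg (Nat.cast_nonneg _) _

/-- the trivial weight of one variable -/
noncomputable def cfW (τ : S.P → ℝ) (s : ℝ) (x : Finset S.P) : ℝ :=
  (∏ p ∈ x, 1 * τ p) * S.ls x ^ 0 * S.pws s x

theorem cfW_eq (τ : S.P → ℝ) (s : ℝ) (x : Finset S.P) :
    cfW S τ s x = ∏ p ∈ x, (τ p * (S.N p : ℝ) ^ (-s)) := by
  unfold cfW
  rw [cf_pw, pow_zero, mul_one]
  simp only [one_mul]

theorem cfW_nonneg {B : ℝ} {τ : S.P → ℝ} (hτ : S.Tk B τ) (s : ℝ) (x : Finset S.P) :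
    0 ≤ cfW S τ s x := by
  rw [cfW_eq]
  exact Finset.prod_nonneg fun p _ => mul_nonneg (hτ p).1 (Real.rpow_nonneg (Nat.cast_nonneg _) _)

open Classical in
/-- the weight of one of the two variables -/
noncomputable def cfAA [Fintype ι] (τ : S.P → ℝ) (b : ι → ι → ZMod l) (d : ι → S.El)
    (M : Finset S.P) (u v w : ι) (r : CfR u v → Finset S.P) (a : Finset S.P) : ℂ :=
  if CfA S a r ∧ Disjoint a M then ec (cfX S b d u v w r a) * ((∏ p ∈ a, τ p : ℝ) : ℂ) else 0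

theorem cfAA_norm [Fintype ι] {B : ℝ} {τ : S.P → ℝ} (hτ : S.Tk B τ) (b : ι → ι → ZMod l)
    (d : ι → S.El) (M : Finset S.P) (u v w : ι) (r : CfR u v → Finset S.P) (a : Finset S.P) :
    ‖cfAA S τ b d M u v w r a‖ ≤ ∏ p ∈ a, τ p := by
  have h0 : 0 ≤ ∏ p ∈ a, τ p := Finset.prod_nonneg fun p _ => (hτ p).1
  unfold cfAA
  split_ifs
  · rw [norm_mul, ec_norm', one_mul, Complex.norm_real, Real.norm_eq_abs, abs_of_nonneg h0]
  · rw [norm_zero]
    exact h0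

/-- the conditions on the others -/
def CfQ (M : Finset S.P) (U W L : Finset ι) (J : ℕ) (u v : ι) (r : CfR u v → Finset S.P) : Prop :=
  (u ∈ U ∧ v ∈ U ∧ ∀ t, ((r t).Nonempty ↔ t.1 ∈ U)) ∧
    (∀ t : CfR u v, t.1 ∈ W → (t.1 ∈ L ↔ 2 ^ J < S.nm (r t))) ∧ S.Gd r ∧ S.Off M r

open Classical in
/-- the coefficient of the others -/
noncomputable def cfCC [Fintype ι] (τ : S.P → ℝ) (s : ℝ) (b : ι → ι → ZMod l) (d : ι → S.El)
    (M : Finset S.P) (U W L : Finset ι) (J : ℕ) (u v : ι) (r : CfR u v → Finset S.P) : ℂ :=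
  if CfQ S M U W L J u v r then ec (cfY S b d u v r) *
    ((∏ t : CfR u v, ∏ p ∈ r t, (τ p * (S.N p : ℝ) ^ (-s)) : ℝ) : ℂ) else 0

theorem cfCC_norm [Fintype ι] {B : ℝ} {τ : S.P → ℝ} (hτ : S.Tk B τ) (s : ℝ)
    (b : ι → ι → ZMod l) (d : ι → S.El) (M : Finset S.P) (U W L : Finset ι) (J : ℕ) (u v : ι)
    (r : CfR u v → Finset S.P) :
    ‖cfCC S τ s b d M U W L J u v r‖ ≤ ∏ t, cfW S τ s (r t) := by
  have h0 : 0 ≤ ∏ t : CfR u v, cfW S τ s (r t) :=
    Finset.prod_nonneg fun t _ => cfW_nonneg S hτ s _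
  unfold cfCC
  split_ifs
  · rw [norm_mul, ec_norm', one_mul, Complex.norm_real, Real.norm_eq_abs]
    simp only [← cfW_eq]
    rw [abs_of_nonneg h0]
  · rw [norm_zero]
    exact h0

theorem cf_big {J : ℕ} {x : Finset S.P} (h : 2 ^ J < S.nm x) : x.Nonempty := by
  rcases x.eq_empty_or_nonempty with h1 | h1
  · have h2 : S.nm x = 1 := by
      rw [h1]
      exact Finset.prod_empty
    have := Nat.one_le_two_pow (n := J)
    omega
  · exact h1

theorem cf_pat [Fintype ι] (x : ι → Finset S.P) (U : Finset ι) :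
    S.pat x = U ↔ ∀ t, ((x t).Nonempty ↔ t ∈ U) := by
  classical
  unfold SysL.pat
  rw [Finset.ext_iff]
  refine forall_congr' fun t => ?_
  rw [Finset.mem_filter]
  simp only [Finset.mem_univ, true_and]

theorem cf_cond [Fintype ι] {u v : ι} (h : u ≠ v) (M : Finset S.P) {U W L : Finset ι}
    (huL : u ∈ L) (hvL : v ∈ L) (huW : u ∈ W) (hvW : v ∈ W) (J : ℕ)
    (r : CfR u v → Finset S.P) (z : Finset S.P × Finset S.P) :
    ((S.pat (cfG u v r z) = U ∧ ∀ w ∈ W, (w ∈ L ↔ 2 ^ J < S.nm (cfG u v r z w))) ∧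
      (S.Gd (cfG u v r z) ∧ S.Off M (cfG u v r z))) ↔
    (CfQ S M U W L J u v r ∧ (S.G2 z.1 z.2 ∧ 2 ^ J < S.nm z.1 ∧ 2 ^ J < S.nm z.2) ∧
      (CfA S z.1 r ∧ Disjoint z.1 M) ∧ (CfA S z.2 r ∧ Disjoint z.2 M)) := by
  unfold CfQ SysL.Off
  rw [cf_pat, cf_Gd S h, cf_all (u := u) (v := v), cf_all (u := u) (v := v)
    (p := fun w => w ∈ W → (w ∈ L ↔ 2 ^ J < S.nm (cfG u v r z w))), cf_all (u := u) (v := v)
    (p := fun w => Disjoint (cfG u v r z w) M), cfG_u, cfG_v h]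
  simp only [cfG_r]
  constructor
  · rintro ⟨⟨⟨a1, a2, a3⟩, b1, b2, b3⟩, ⟨c1, c2, c3, c4⟩, d1, d2, d3⟩
    have e1 := (b1 huW).1 huL
    have e2 := (b2 hvW).1 hvL
    exact ⟨⟨⟨a1.1 (cf_big S e1), a2.1 (cf_big S e2), a3⟩, b3, c4, d3⟩, ⟨c1, e1, e2⟩,
      ⟨c2, d1⟩, c3, d2⟩
  · rintro ⟨⟨⟨a1, a2, a3⟩, b3, c4, d3⟩, ⟨c1, e1, e2⟩, ⟨c2, d1⟩, c3, d2⟩
    exact ⟨⟨⟨⟨fun _ => a1, fun _ => cf_big S e1⟩, ⟨fun _ => a2, fun _ => cf_big S e2⟩, a3⟩,
      fun _ => ⟨fun _ => e1, fun _ => huL⟩, fun _ => ⟨fun _ => e2, fun _ => hvL⟩, b3⟩,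
      ⟨c1, c2, c3, c4⟩, d1, d2, d3⟩

open Classical in
/-- the term for fixed others -/
theorem cf_term [Fintype ι] (τ : S.P → ℝ) (s : ℝ) (b : ι → ι → ZMod l) (d : ι → S.El)
    {u v : ι} (h : u ≠ v) (M : Finset S.P) {U W L : Finset ι}
    (huL : u ∈ L) (hvL : v ∈ L) (huW : u ∈ W) (hvW : v ∈ W) (J : ℕ)
    (r : CfR u v → Finset S.P) (z : Finset S.P × Finset S.P) :
    (if S.pat (cfG u v r z) = U ∧ ∀ w ∈ W, (w ∈ L ↔ 2 ^ J < S.nm (cfG u v r z w))
      then S.Kt τ s b d M (cfG u v r z) else 0) =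
      cfCC S τ s b d M U W L J u v r *
        (if S.G2 z.1 z.2 ∧ 2 ^ J < S.nm z.1 ∧ 2 ^ J < S.nm z.2
          then cfAA S τ b d M u v u r z.1 * cfAA S τ b d M u v v r z.2 *
            ec (S.Tt (fun g => b u v + (((S.e g)⁻¹ : (ZMod l)ˣ) : ZMod l) * b v u) z.1 z.2) *
            ((S.pws s z.1 * S.pws s z.2 : ℝ) : ℂ) else 0) := by
  by_cases hc : (S.pat (cfG u v r z) = U ∧ ∀ w ∈ W, (w ∈ L ↔ 2 ^ J < S.nm (cfG u v r z w))) ∧
      (S.Gd (cfG u v r z) ∧ S.Off M (cfG u v r z))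
  · obtain ⟨q1, q2, q3, q4⟩ := (cf_cond S h M huL hvL huW hvW J r z).1 hc
    have e0 : S.Kt τ s b d M (cfG u v r z) = ec (S.EE b d (cfG u v r z)) *
        ((∏ t, ∏ p ∈ cfG u v r z t, (τ p * (S.N p : ℝ) ^ (-s)) : ℝ) : ℂ) := if_pos hc.2
    have e1 : cfCC S τ s b d M U W L J u v r = ec (cfY S b d u v r) *
      ((∏ t : CfR u v, ∏ p ∈ r t, (τ p * (S.N p : ℝ) ^ (-s)) : ℝ) : ℂ) := if_pos q1
    have e2 : cfAA S τ b d M u v u r z.1 = ec (cfX S b d u v u r z.1) *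
      ((∏ p ∈ z.1, τ p : ℝ) : ℂ) := if_pos q3
    have e3 : cfAA S τ b d M u v v r z.2 = ec (cfX S b d u v v r z.2) *
      ((∏ p ∈ z.2, τ p : ℝ) : ℂ) := if_pos q4
    have e4 : ∀ p ∈ z.1, ∀ q ∈ z.2, ∀ g, S.ac g p ≠ q := by
      intro p hp q hq g hg
      exact absurd (q2.1.2 true false p hp q hq g hg).1 (by simp)
    rw [if_pos hc.1, if_pos q2, e0, e1, e2, e3, cf_EE S b d h, cf_Tt S _ _ _ _ e4, cf_prod h,
      cfG_u, cfG_v h]
    simp only [cfG_r, ec_add']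
    rw [cf_pw S s τ z.1, cf_pw S s τ z.2]
    push_cast
    ring
  · have hL : (if S.pat (cfG u v r z) = U ∧ ∀ w ∈ W, (w ∈ L ↔ 2 ^ J < S.nm (cfG u v r z w))
      then S.Kt τ s b d M (cfG u v r z) else 0) = 0 := by
      split_ifs with h1
      · exact if_neg fun h2 => hc ⟨h1, h2⟩
      · rfl
    rw [hL]
    symm
    rw [cf_cond S h M huL hvL huW hvW J r z] at hc
    by_cases q1 : CfQ S M U W L J u v r
    · by_cases q2 : S.G2 z.1 z.2 ∧ 2 ^ J < S.nm z.1 ∧ 2 ^ J < S.nm z.2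
      · rw [if_pos q2]
        by_cases q3 : CfA S z.1 r ∧ Disjoint z.1 M
        · have e1 : cfAA S τ b d M u v v r z.2 = 0 := if_neg fun q4 => hc ⟨q1, q2, q3, q4⟩
          rw [e1]
          ring
        · have e1 : cfAA S τ b d M u v u r z.1 = 0 := if_neg q3
          rw [e1]
          ring
      · rw [if_neg q2, mul_zero]
    · have e1 : cfCC S τ s b d M U W L J u v r = 0 := if_neg q1
      rw [e1, zero_mul]

end sys

/-- a positive lower bound for finitely many positive numbers -/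
private theorem cf_low {Q : Type} [Fintype Q] (c : Q → ℝ) (hc : ∀ q, 0 < c q) :
    ∃ c0 : ℝ, 0 < c0 ∧ ∀ q, c0 ≤ c q := by
  have h1 : 0 ≤ ∑ q, (c q)⁻¹ := Finset.sum_nonneg fun q _ => (inv_pos.2 (hc q)).le
  refine ⟨(1 + ∑ q, (c q)⁻¹)⁻¹, by positivity, fun q => ?_⟩
  rw [inv_le_comm₀ (by positivity) (hc q)]
  have h2 : (c q)⁻¹ ≤ ∑ q, (c q)⁻¹ :=
    Finset.single_le_sum (f := fun q => (c q)⁻¹) (fun q _ => (inv_pos.2 (hc q)).le)
      (Finset.mem_univ q)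
  linarith

theorem sfaL (h : SBxL) (ht : STrL) (hs : SSmL) : SFaL := by
  classical
  intro l _ S ι _ b B
  obtain ⟨C1, hC1, hT⟩ := ht l S B 1 0 zero_le_one
  -- the constants of the pairs
  have hpair : ∀ q : ι × ι, ∃ C E c : ℝ, 0 ≤ C ∧ 0 ≤ E ∧ 0 < c ∧ (S.Lk b q.1 q.2 →
      ∀ τ : S.P → ℝ, S.Tk B τ →
      ∀ a b' : Finset S.P → ℂ, (∀ x, ‖a x‖ ≤ ∏ p ∈ x, τ p) → (∀ y, ‖b' y‖ ≤ ∏ p ∈ y, τ p) →
      ∀ (σ : ℝ) (J : ℕ), 0 < σ → σ ≤ 1 →
        ‖∑' z : Finset S.P × Finset S.P,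
          (if S.G2 z.1 z.2 ∧ 2 ^ J < S.nm z.1 ∧ 2 ^ J < S.nm z.2
          then a z.1 * b' z.2 * ec (S.Tt (fun g => b q.1 q.2 +
            (((S.e g)⁻¹ : (ZMod l)ˣ) : ZMod l) * b q.2 q.1) z.1 z.2) *
            ((S.pws (1 + σ) z.1 * S.pws (1 + σ) z.2 : ℝ) : ℂ) else 0)‖ ≤
          C * σ ^ (-E) * (2 : ℝ) ^ (-(c * J))) := by
    intro q
    by_cases hl : S.Lk b q.1 q.2
    · obtain ⟨g, hg⟩ := hl
      have h1 : (fun g : S.D => b q.1 q.2 + (((S.e g)⁻¹ : (ZMod l)ˣ) : ZMod l) * b q.2 q.1) ≠ 0 :=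
        fun h2 => hg (congrFun h2 g)
      obtain ⟨C, E, c, hC, hE, hc, hb⟩ := h l S _ B h1
      exact ⟨C, E, c, hC, hE, hc, fun _ => hb⟩
    · exact ⟨0, 0, 1, le_rfl, le_rfl, one_pos, fun h1 => absurd h1 hl⟩
  choose Cf Ef cf hCf hEf hcf hBf using hpair
  obtain ⟨c0, hc0, hc0'⟩ := cf_low cf hcf
  obtain ⟨C0, hC0e⟩ : ∃ C0 : ℝ, C0 = ∑ q, Cf q := ⟨_, rfl⟩
  obtain ⟨E0, hE0e⟩ : ∃ E0 : ℝ, E0 = ∑ q, Ef q := ⟨_, rfl⟩
  have hC0 : 0 ≤ C0 := hC0e ▸ Finset.sum_nonneg fun q _ => hCf q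
  have hE0 : 0 ≤ E0 := hE0e ▸ Finset.sum_nonneg fun q _ => hEf q
  have hC0' : ∀ q, Cf q ≤ C0 := fun q => hC0e ▸
    Finset.single_le_sum (f := Cf) (fun q _ => hCf q) (Finset.mem_univ q)
  have hE0' : ∀ q, Ef q ≤ E0 := fun q => hE0e ▸
    Finset.single_le_sum (f := Ef) (fun q _ => hEf q) (Finset.mem_univ q)
  obtain ⟨m, hm⟩ : ∃ m : ℕ, m = Fintype.card ι := ⟨_, rfl⟩
  refine ⟨(max C1 1) ^ m * C0, m + E0, c0, mul_nonneg (pow_nonneg (le_trans hC1
    (le_max_left _ _)) _) hC0, by positivity, hc0, ?_⟩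
  intro τ d M hτ U W L u v huL hvL huW hvW hne hl σ J hσ0 hσ1
  obtain ⟨hs1, ht1, -⟩ := hT τ hτ σ hσ0 hσ1
  have hs' : Summable (cfW S τ (1 + σ)) := hs1
  have ht' : ∑' x, cfW S τ (1 + σ) x ≤ C1 * σ ^ (-(1 : ℝ)) := ht1
  have hg0 : ∀ x, 0 ≤ cfW S τ (1 + σ) x := cfW_nonneg S hτ (1 + σ)
  obtain ⟨bb, hbb⟩ : ∃ bb : ℝ, bb = C0 * σ ^ (-E0) * (2 : ℝ) ^ (-(c0 * J)) := ⟨_, rfl⟩
  have hb0 : 0 ≤ bb := by
    rw [hbb]
    positivity
  have hble : Cf (u, v) * σ ^ (-Ef (u, v)) * (2 : ℝ) ^ (-(cf (u, v) * J)) ≤ bb := by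
    rw [hbb]
    refine mul_le_mul (mul_le_mul (hC0' _) ?_ (Real.rpow_nonneg hσ0.le _) hC0) ?_
      (Real.rpow_nonneg zero_le_two _) (mul_nonneg hC0 (Real.rpow_nonneg hσ0.le _))
    · exact Real.rpow_le_rpow_of_exponent_ge hσ0 hσ1 (neg_le_neg (hE0' _))
    · refine Real.rpow_le_rpow_of_exponent_le one_le_two (neg_le_neg ?_)
      exact mul_le_mul_of_nonneg_right (hc0' _) (Nat.cast_nonneg _)
  obtain ⟨q1, q2⟩ := cfa_pi (T := CfR u v) _ hg0 hs'
  obtain ⟨F, hF⟩ : ∃ F : (ι → Finset S.P) → ℂ,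
      F = fun x => (if S.pat x = U ∧ ∀ w ∈ W, (w ∈ L ↔ 2 ^ J < S.nm (x w))
      then S.Kt τ (1 + σ) b d M x else 0) := ⟨_, rfl⟩
  have hsum : Summable F := by
    refine Summable.of_norm_bounded (hs l S ι b d M B τ hτ σ hσ0) fun x => ?_
    rw [hF]
    beta_reduce
    split_ifs
    · exact le_rfl
    · rw [norm_zero]
      exact norm_nonneg _
  have hsum' : Summable fun p => F (cfE (P := S.P) hne p) :=
    (cfE (P := S.P) hne).summable_iff.2 hsum
  have e1 : ∀ (r : CfR u v → Finset S.P) (z : Finset S.P × Finset S.P),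
      F (cfE (P := S.P) hne (r, z)) = cfCC S τ (1 + σ) b d M U W L J u v r *
        (if S.G2 z.1 z.2 ∧ 2 ^ J < S.nm z.1 ∧ 2 ^ J < S.nm z.2
          then cfAA S τ b d M u v u r z.1 * cfAA S τ b d M u v v r z.2 *
            ec (S.Tt (fun g => b u v + (((S.e g)⁻¹ : (ZMod l)ˣ) : ZMod l) * b v u) z.1 z.2) *
            ((S.pws (1 + σ) z.1 * S.pws (1 + σ) z.2 : ℝ) : ℂ) else 0) := by
    intro r z
    have e2 : cfE (P := S.P) hne (r, z) = cfG u v r z := rfl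
    rw [e2, hF]
    exact cf_term S τ (1 + σ) b d hne M huL hvL huW hvW J r z
  have e3 : ∑' x : ι → Finset S.P, (if S.pat x = U ∧ ∀ w ∈ W, (w ∈ L ↔ 2 ^ J < S.nm (x w))
      then S.Kt τ (1 + σ) b d M x else 0) =
      ∑' (r : CfR u v → Finset S.P) (z : Finset S.P × Finset S.P),
        F (cfE (P := S.P) hne (r, z)) := by
    rw [← hsum'.tsum_prod, (cfE (P := S.P) hne).tsum_eq F, hF]
  rw [e3]
  have q3 : HasSum (fun r : CfR u v → Finset S.P => (∏ t, cfW S τ (1 + σ) (r t)) * bb)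
      ((∑' r : CfR u v → Finset S.P, ∏ t, cfW S τ (1 + σ) (r t)) * bb) := q1.hasSum.mul_right bb
  have q4 : ∀ r : CfR u v → Finset S.P, ‖∑' z : Finset S.P × Finset S.P,
      F (cfE (P := S.P) hne (r, z))‖ ≤ (∏ t, cfW S τ (1 + σ) (r t)) * bb := by
    intro r
    rw [tsum_congr fun z => e1 r z, tsum_mul_left, norm_mul]
    refine mul_le_mul (cfCC_norm S hτ _ b d M U W L J u v r) ?_ (norm_nonneg _)
      (Finset.prod_nonneg fun t _ => hg0 _)
    exact (hBf (u, v) hl τ hτ (cfAA S τ b d M u v u r) (cfAA S τ b d M u v v r)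
      (cfAA_norm S hτ b d M u v u r) (cfAA_norm S hτ b d M u v v r) σ J hσ0 hσ1).trans hble
  have q5 := tsum_of_norm_bounded q3 q4
  refine (q5.trans (mul_le_mul_of_nonneg_right q2 hb0)).trans ?_
  -- constants
  have hcard : Fintype.card (CfR u v) ≤ m := hm ▸ Fintype.card_subtype_le _
  have a1 : 1 ≤ max C1 1 * σ⁻¹ := by
    have a2 : 1 ≤ σ⁻¹ := (one_le_inv₀ hσ0).2 hσ1
    exact one_le_mul_of_one_le_of_one_le (le_max_right _ _) a2
  have a2 : ∑' x, cfW S τ (1 + σ) x ≤ max C1 1 * σ⁻¹ := by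
    refine ht'.trans (mul_le_mul (le_max_left _ _) ?_ (Real.rpow_nonneg hσ0.le _)
      (le_trans hC1 (le_max_left _ _)))
    rw [Real.rpow_neg_one]
  have a3 : (∑' x, cfW S τ (1 + σ) x) ^ Fintype.card (CfR u v) ≤ (max C1 1 * σ⁻¹) ^ m :=
    (pow_le_pow_left₀ (tsum_nonneg hg0) a2 _).trans (pow_le_pow_right₀ a1 hcard)
  refine (mul_le_mul_of_nonneg_right a3 hb0).trans (le_of_eq ?_)
  rw [hbb, mul_pow, neg_add, Real.rpow_add hσ0, Real.rpow_neg hσ0.le (m : ℝ),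
    Real.rpow_natCast, inv_pow]
  ring

end Pool.Agent.H92.EL
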