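import Pool.Agent.H92.EL.CFinA

/-!
# Project T4 (MP_a3214d), block C: the asymptotic formula for a fixed frame
-/

set_option autoImplicit false

open scoped BigOperators Topology
open Filter

namespace Pool.Agent.H92.EL

theorem sfix (h1 : SMain) (h2 : SCcL) (h3 : SKarL) (hE : SExpd) : SFix := by
  classical
  intro l _ S d n Bd R RZ c Φ θ g hR hRZ hn hc hG hΦ hg hθ hav
  have : Nonempty RZ := fx_ne S hRZ hn
  obtain ⟨κ1, A0, C, hκ, hA0, hC, hcc⟩ := h2 l S RZ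
  obtain ⟨L, hL0, hL, hLp⟩ := h1 l S d n Bd R c Φ θ _ _ hR
    (fxt1_Tk S (Fintype.card RZ * Fintype.card S.D)) hc hG hΦ hθ
    (fxt1_pos S (Fintype.card RZ * Fintype.card S.D))
  obtain ⟨L', -, hL', -⟩ := h1 l S d n Bd R c Φ (fun _ => 1) _ _ hR (fxt2_Tk S hA0) hc hG hΦ
    (fun _ => zero_le_one) (fun p => lt_of_lt_of_le one_pos (fxt2_one S hA0 p))
  have hAd : S.Adc (S.cT c) := by
    intro v ζ ζ'
    unfold SysL.cT
    rw [hc, Prod.mk_add_mk, add_zero]
  have hβ : 1 ≤ Fintype.card RZ := Fintype.card_pos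
  have hd1 : DPo (fxn S) (fxb S Bd R (S.cT c) ∅ Φ θ
      (fxt1 S (Fintype.card RZ * Fintype.card S.D))) (S.bV Bd R (S.cT c)) L := by
    refine ⟨fxb_nonneg S Bd R (S.cT c) ∅ Φ hθ fun p => (fxt1_pos S _ p).le, fun σ hσ => ?_, ?_⟩
    · obtain ⟨th, -, -, h⟩ := hE l S d n Bd R (S.cT c) ∅ Φ θ _ _
        (fxt1_Tk S (Fintype.card RZ * Fintype.card S.D)) hAd
      rw [fx_sum]
      exact (h σ hσ).1
    · refine hL.congr fun σ => ?_
      rw [fx_tsum]
  have hd2 : DPo (fxn S) (fxb S Bd R (S.cT c) ∅ Φ (fun _ => 1) (fxt2 S A0))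
      (S.bV Bd R (S.cT c)) L' := by
    refine ⟨fxb_nonneg S Bd R (S.cT c) ∅ Φ (fun _ => zero_le_one)
      fun p => le_trans zero_le_one (fxt2_one S hA0 p), fun σ hσ => ?_, ?_⟩
    · obtain ⟨th, -, -, h⟩ := hE l S d n Bd R (S.cT c) ∅ Φ (fun _ => 1) _ _
        (fxt2_Tk S hA0) hAd
      rw [fx_sum]
      exact (h σ hσ).1
    · refine hL'.congr fun σ => ?_
      rw [fx_tsum]
  have hkey : ∀ (x : R → Finset S.P) (t : ℝ), 1 ≤ t →
      |fxf S Bd R RZ (S.cT c) ∅ Φ g x t - κ1 * (fxb S Bd R (S.cT c) ∅ Φ θ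
        (fxt1 S (Fintype.card RZ * Fintype.card S.D)) x * fxn S x) *
        (t * Real.log t ^ (Fintype.card RZ - 1))| ≤
      C * (fxb S Bd R (S.cT c) ∅ Φ (fun _ => 1) (fxt2 S A0) x * fxn S x) *
        (t * (1 + Real.log t) ^ ((Fintype.card RZ : ℝ) - 3 / 2)) := by
    intro x t ht
    by_cases hx : fxC S Bd R (S.cT c) ∅ Φ x
    · rw [fxb_mul S Bd R (S.cT c) ∅ Φ _ _ hx, fxb_mul S Bd R (S.cT c) ∅ Φ _ _ hx]
      unfold fxf
      rw [if_pos hx]
      have hty : ∏ p ∈ S.un x, fxt1 S (Fintype.card RZ * Fintype.card S.D) p =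
          S.ty0 RZ (S.un x) := rfl
      have hlo : ∏ p ∈ S.un x, fxt2 S A0 p = S.lo A0 (S.un x) := rfl
      unfold fxW
      rw [hty, hlo, ← fx_asg S n (S.un x), ← hav x hx.1 hx.2.2.1]
      have hz : ∀ z ∈ S.asg n (S.un x),
          |S.CC (S.un x) (fun t' : RZ → S.T => g x (S.tz RZ z t')) t -
            κ1 * ((1 / ((l : ℝ) ^ S.m) ^ n) * ∑ t : Fin n → S.T, g x t) *
              S.ty0 RZ (S.un x) * (t * Real.log t ^ (Fintype.card RZ - 1))| ≤
            C * S.lo A0 (S.un x) * t * (1 + Real.log t) ^ ((Fintype.card RZ : ℝ) - 3 / 2) := by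
        intro z _
        have h4 := hcc (S.un x) (fx_gd S hx.1) (fun t' : RZ → S.T => g x (S.tz RZ z t'))
          (fun t' => abs_le.2 ⟨by linarith [(hg x (S.tz RZ z t')).1], (hg x _).2⟩) t ht
        rwa [fx_avg' S hRZ z (g x) _] at h4
      calc |∑ z ∈ S.asg n (S.un x), S.CC (S.un x) (fun t' : RZ → S.T => g x (S.tz RZ z t')) t -
          κ1 * ((1 / ((l : ℝ) ^ S.m) ^ n * ∑ t : Fin n → S.T, g x t) *
            (((S.asg n (S.un x)).card : ℝ) * S.ty0 RZ (S.un x))) *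
            (t * Real.log t ^ (Fintype.card RZ - 1))|
          = |∑ z ∈ S.asg n (S.un x),
              (S.CC (S.un x) (fun t' : RZ → S.T => g x (S.tz RZ z t')) t -
            κ1 * ((1 / ((l : ℝ) ^ S.m) ^ n) * ∑ t : Fin n → S.T, g x t) *
              S.ty0 RZ (S.un x) * (t * Real.log t ^ (Fintype.card RZ - 1)))| := by
            rw [Finset.sum_sub_distrib, Finset.sum_const, nsmul_eq_mul]
            congr 1
            ring
        _ ≤ ∑ z ∈ S.asg n (S.un x),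
              C * S.lo A0 (S.un x) * t * (1 + Real.log t) ^ ((Fintype.card RZ : ℝ) - 3 / 2) :=
            (Finset.abs_sum_le_sum_abs _ _).trans (Finset.sum_le_sum hz)
        _ = _ := by
            rw [Finset.sum_const, nsmul_eq_mul]
            ring
    · unfold fxf fxb
      rw [if_neg hx, if_neg hx, if_neg hx]
      simp
  have hfin := h3 (R → Finset S.P) (fxn S) _ _ (S.bV Bd R (S.cT c)) (Fintype.card RZ) L L'
    (fxn_one S) hβ (fxn_fin S) hd1 hd2 κ1 C hκ.le hC _ hkey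
  rw [Fintype.card_coe] at hfin
  refine ⟨_, ?_, hfin.congr' ?_, fun hpos => ?_⟩
  · positivity
  · filter_upwards [eventually_ge_atTop (0 : ℝ)] with Y hY
    rw [fx_NN S Bd R RZ (S.cT c) ∅ Φ g hY]
  · have := hLp hpos
    positivity

end Pool.Agent.H92.EL
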