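import Pool.Agent.H92.EL.CStm
import Pool.Agent.H98.MF.NAbel

/-!
# Project ELL (MP_a3214d), block C, row C9: summability
-/

set_option autoImplicit false

open scoped BigOperators Topology
open Filter

namespace Pool.Agent.H92.EL

open Pool.Agent.H98.MF (Pre)

theorem csm_ec {l : ℕ} [NeZero l] (a : ZMod l) : ‖ec a‖ = 1 := by
  unfold ec
  exact AddChar.norm_apply _ _

/-- products of summable families -/
theorem csm_pi {ι X : Type} [Fintype ι] (f : ι → X → ℝ) (h0 : ∀ u t, 0 ≤ f u t)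
    (hf : ∀ u, Summable (f u)) : Summable fun x : ι → X => ∏ u, f u (x u) := by
  classical
  refine summable_of_sum_le (c := ∏ u, ∑' t, f u t)
    (fun x => Finset.prod_nonneg fun u _ => h0 u (x u)) fun T => ?_
  have hsub : T ⊆ Fintype.piFinset fun u => T.image fun x => x u := by
    intro x hx
    rw [Fintype.mem_piFinset]
    exact fun u => Finset.mem_image_of_mem (fun x : ι → X => x u) hx
  calc ∑ x ∈ T, ∏ u, f u (x u)
      ≤ ∑ x ∈ Fintype.piFinset fun u => T.image fun x => x u, ∏ u, f u (x u) :=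
        Finset.sum_le_sum_of_subset_of_nonneg hsub fun x _ _ =>
          Finset.prod_nonneg fun u _ => h0 u (x u)
    _ = ∏ u, ∑ t ∈ T.image fun x => x u, f u t := (Finset.prod_univ_sum _ f).symm
    _ ≤ ∏ u, ∑' t, f u t := Finset.prod_le_prod
        (fun u _ => Finset.sum_nonneg fun t _ => h0 u t)
        fun u _ => (hf u).sum_le_tsum _ fun t _ => h0 u t

section

variable {l : ℕ} [Fact l.Prime] (S : SysL l)

/-- the number of ideals -/
theorem csm_card : ∀ X : ℝ, 1 ≤ X → ((S.idl X).card : ℝ) ≤ (S.κ + S.C) * X := by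
  intro X hX
  have h1 := (abs_le.1 (S.cnt X hX)).2
  have h2 : X ^ (1 - S.δ) ≤ X := by
    have h3 : X ^ (1 - S.δ) ≤ X ^ (1 : ℝ) :=
      Real.rpow_le_rpow_of_exponent_le hX (by linarith [S.δ_pos])
    rwa [Real.rpow_one] at h3
  have h4 := mul_le_mul_of_nonneg_left h2 S.C_nonneg
  linarith

/-- the sum over the ideals converges -/
theorem csm_nf {s : ℝ} (hs : 1 < s) : Summable fun f : S.P →₀ ℕ => (S.nf f : ℝ) ^ (-s) :=
  Pool.Agent.H98.MF.summable_nf S.toPre _ (csm_card S) s hs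

/-- the sum over the primes converges -/
theorem csm_N {s : ℝ} (hs : 1 < s) : Summable fun p : S.P => (S.N p : ℝ) ^ (-s) := by
  have h1 := (csm_nf S hs).comp_injective (i := fun p : S.P => Finsupp.single p 1)
    (Finsupp.single_left_injective one_ne_zero)
  refine h1.congr fun p => ?_
  have h2 : S.nf (Finsupp.single p 1) = S.N p :=
    (Finsupp.prod_single_index (h := fun p k => S.N p ^ k) (pow_zero _)).trans (pow_one _)
  show (S.nf (Finsupp.single p 1) : ℝ) ^ (-s) = _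
  rw [h2]

/-- bounded multiples -/
theorem csm_tau {B : ℝ} {τ : S.P → ℝ} (hτ : S.Tk B τ) (p : S.P) :
    0 ≤ τ p ∧ τ p ≤ 1 + |B| := by
  obtain ⟨h0, h1⟩ := hτ p
  refine ⟨h0, ?_⟩
  have h2 : (S.N p : ℝ) ^ (-(1 / 2) : ℝ) ≤ 1 := by
    refine Real.rpow_le_one_of_one_le_of_nonpos ?_ (by norm_num)
    exact_mod_cast S.one_le_N p
  have h3 : 0 ≤ (S.N p : ℝ) ^ (-(1 / 2) : ℝ) := Real.rpow_nonneg (Nat.cast_nonneg _) _
  have h4 : B * (S.N p : ℝ) ^ (-(1 / 2) : ℝ) ≤ |B| * 1 :=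
    (mul_le_mul_of_nonneg_right (le_abs_self B) h3).trans
      (mul_le_mul_of_nonneg_left h2 (abs_nonneg B))
  have h5 := (abs_le.1 h1).2
  linarith

theorem csm_tauN {B : ℝ} {τ : S.P → ℝ} (hτ : S.Tk B τ) {s : ℝ} (hs : 1 < s) :
    Summable fun p : S.P => τ p * (S.N p : ℝ) ^ (-s) := by
  refine Summable.of_nonneg_of_le (fun p => ?_) (fun p => ?_) ((csm_N S hs).mul_left (1 + |B|))
  · exact mul_nonneg (csm_tau S hτ p).1 (Real.rpow_nonneg (Nat.cast_nonneg _) _)
  · exact mul_le_mul_of_nonneg_right (csm_tau S hτ p).2 (Real.rpow_nonneg (Nat.cast_nonneg _) _)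

/-- the sum over the finite sets of primes converges -/
theorem csm_fin {B : ℝ} {τ : S.P → ℝ} (hτ : S.Tk B τ) {s : ℝ} (hs : 1 < s) :
    Summable fun x : Finset S.P => ∏ p ∈ x, (τ p * (S.N p : ℝ) ^ (-s)) :=
  summable_finsetProd_of_summable_nonneg
    (fun p => mul_nonneg (csm_tau S hτ p).1 (Real.rpow_nonneg (Nat.cast_nonneg _) _))
    (csm_tauN S hτ hs)

/-- the sum over the families converges -/
theorem csm_fam {ι : Type} [Fintype ι] {B : ℝ} {τ : S.P → ℝ} (hτ : S.Tk B τ) {s : ℝ}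
    (hs : 1 < s) : Summable fun x : ι → Finset S.P =>
      ∏ u, ∏ p ∈ x u, (τ p * (S.N p : ℝ) ^ (-s)) :=
  csm_pi (fun (_ : ι) (x : Finset S.P) => ∏ p ∈ x, (τ p * (S.N p : ℝ) ^ (-s)))
    (fun _ _ => Finset.prod_nonneg fun p _ =>
      mul_nonneg (csm_tau S hτ p).1 (Real.rpow_nonneg (Nat.cast_nonneg _) _))
    fun _ => csm_fin S hτ hs

/-- the norm of a term -/
theorem csm_norm_le {ι : Type} [Fintype ι] {B : ℝ} {τ : S.P → ℝ} (hτ : S.Tk B τ) (s : ℝ)
    (b : ι → ι → ZMod l) (c : ι → S.El) (M : Finset S.P) (x : ι → Finset S.P) :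
    ‖S.Kt τ s b c M x‖ ≤ ∏ u, ∏ p ∈ x u, (τ p * (S.N p : ℝ) ^ (-s)) := by
  have h0 : 0 ≤ ∏ u, ∏ p ∈ x u, (τ p * (S.N p : ℝ) ^ (-s)) :=
    Finset.prod_nonneg fun u _ => Finset.prod_nonneg fun p _ =>
      mul_nonneg (csm_tau S hτ p).1 (Real.rpow_nonneg (Nat.cast_nonneg _) _)
  unfold SysL.Kt
  split_ifs
  · rw [norm_mul, csm_ec, one_mul, Complex.norm_real, Real.norm_of_nonneg h0]
  · rw [norm_zero]
    exact h0

end

/-- all terms are summable -/
theorem ssmL : SSmL := by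
  intro l _ S ι _ b c M B τ hτ σ hσ
  exact Summable.of_nonneg_of_le (fun x => norm_nonneg _)
    (fun x => csm_norm_le S hτ (1 + σ) b c M x) (csm_fam S hτ (by linarith))

end Pool.Agent.H92.EL
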