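import Pool.Agent.H92.EL.CFin
import Pool.Agent.H92.EL.CSm
import Pool.Agent.H98.MF.SBase

/-!
# Project ELL (MP_a3214d), block C, row C31: families where one central vector does not occur
-/

set_option autoImplicit false

open scoped BigOperators Topology
open Filter

namespace Pool.Agent.H92.EL

open Pool.Agent.H98.MF (Pre)

section

variable {l : ℕ} [Fact l.Prime] (S : SysL l) {ι : Type} [Fintype ι]

/-- the norm of a family -/
private noncomputable def cfe_n (x : ι → Finset S.P) : ℕ := ∏ u, S.nm (x u)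

private theorem cfe_n1 (x : ι → Finset S.P) : 1 ≤ cfe_n S x :=
  Finset.one_le_prod' fun u _ => S.one_le_nm (x u)

private theorem cfe_le (x : ι → Finset S.P) (u : ι) : S.nm (x u) ≤ cfe_n S x :=
  Finset.single_le_prod' (f := fun u => S.nm (x u)) (fun v _ => S.one_le_nm (x v))
    (Finset.mem_univ u)

private theorem cfe_mem [DecidableEq ι] {Y : ℝ} (x : ι → Finset S.P)
    (h : (cfe_n S x : ℝ) ≤ Y) : x ∈ Fintype.piFinset (fun _ : ι => S.bx Y) := by
  rw [Fintype.mem_piFinset]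
  intro u
  rw [S.mem_bx]
  refine le_trans ?_ h
  exact_mod_cast cfe_le S x u

private theorem cfe_fin (N : ℕ) : {x : ι → Finset S.P | cfe_n S x ≤ N}.Finite := by
  classical
  refine Set.Finite.subset
    (Finset.finite_toSet (Fintype.piFinset (fun _ : ι => S.bx (N : ℝ)))) fun x hx => ?_
  refine cfe_mem S x ?_
  exact_mod_cast (show cfe_n S x ≤ N from hx)

private theorem cfe_memf {Y : ℝ} (hY : 0 ≤ Y) (x : ι → Finset S.P) :
    x ∈ (cfe_fin (ι := ι) S ⌊Y⌋₊).toFinset ↔ (cfe_n S x : ℝ) ≤ Y := by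
  rw [Set.Finite.mem_toFinset]
  exact Nat.le_floor_iff hY

private theorem cfe_card {x : ι → Finset S.P} (h : S.Gd x) :
    (S.un x).card = ∑ u, (x u).card := by
  classical
  have h1 : S.un x = Finset.univ.biUnion x := by
    unfold SysL.un
    congr
  rw [h1, Finset.card_biUnion]
  intro u _ v _ huv
  show Disjoint (x u) (x v)
  rw [Finset.disjoint_left]
  intro p hp hq
  exact huv (h.2 u v p hp p hq 1 (S.ac_one p)).1

/-- the term of a good family -/
private theorem cfe_term (n : ℕ) {x : ι → Finset S.P} (h : S.Gd x) (σ : ℝ) :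
    ∏ v, ∏ p ∈ x v, ((l : ℝ) ^ n * 1 * (S.N p : ℝ) ^ (-(1 + σ))) =
      ((l : ℝ) ^ n) ^ (S.un x).card / (cfe_n S x : ℝ) * (cfe_n S x : ℝ) ^ (-σ) := by
  have hn : (0 : ℝ) < cfe_n S x := by exact_mod_cast cfe_n1 S x
  have h1 : ∀ v, ∏ p ∈ x v, ((l : ℝ) ^ n * 1 * (S.N p : ℝ) ^ (-(1 + σ))) =
      ((l : ℝ) ^ n) ^ (x v).card * (S.nm (x v) : ℝ) ^ (-(1 + σ)) := by
    intro v
    rw [Finset.prod_mul_distrib, Finset.prod_const, mul_one,
      Real.finsetProd_rpow _ _ (fun p _ => Nat.cast_nonneg _)]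
    unfold Pre.nm
    rw [Nat.cast_prod]
  simp only [h1]
  rw [Finset.prod_mul_distrib, Finset.prod_pow_eq_pow_sum, ← cfe_card S h,
    Real.finsetProd_rpow _ _ (fun v _ => Nat.cast_nonneg _)]
  have h2 : ∏ v, (S.nm (x v) : ℝ) = (cfe_n S x : ℝ) := by
    unfold cfe_n
    rw [Nat.cast_prod]
  rw [h2, neg_add, Real.rpow_add hn, Real.rpow_neg_one]
  ring

end

section

variable {l : ℕ} [Fact l.Prime] (S : SysL l) {d n : ℕ}

open Classical in
/-- the coefficients -/
private noncomputable def cfe_b (Bd : SysL.BD l d n) (R : Finset (SysL.VV l d))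
    (c : SysL.VV l d → SysL.VV l n → S.El) (Φ : Finset R → Prop) (x : R → Finset S.P) : ℝ :=
  if S.Gd x ∧ S.okc Bd R c x ∧ Φ (S.pat x)
    then ((l : ℝ) ^ n) ^ (S.un x).card / (cfe_n S x : ℝ) else 0

private theorem cfe_b0 (Bd : SysL.BD l d n) (R : Finset (SysL.VV l d))
    (c : SysL.VV l d → SysL.VV l n → S.El) (Φ : Finset R → Prop) (x : R → Finset S.P) :
    0 ≤ cfe_b S Bd R c Φ x := by
  unfold cfe_b
  split_ifs
  · positivity
  · exact le_refl _

private theorem cfe_sm {ι : Type} [Fintype ι] (n : ℕ) {σ : ℝ} (hσ : 0 < σ) :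
    Summable fun x : ι → Finset S.P =>
      ∏ v, ∏ p ∈ x v, ((l : ℝ) ^ n * 1 * (S.N p : ℝ) ^ (-(1 + σ))) := by
  have h0 : ∀ p : S.P, 0 ≤ (l : ℝ) ^ n * 1 * (S.N p : ℝ) ^ (-(1 + σ)) := fun p => by positivity
  exact csm_pi (fun (_ : ι) (x : Finset S.P) =>
    ∏ p ∈ x, ((l : ℝ) ^ n * 1 * (S.N p : ℝ) ^ (-(1 + σ))))
    (fun _ _ => Finset.prod_nonneg fun p _ => h0 p)
    fun _ => summable_finsetProd_of_summable_nonneg h0
      ((csm_N S (by linarith)).mul_left _)

/-- the Dirichlet series of the coefficients -/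
private theorem cfe_dpo (h1 : SMain) (Bd : SysL.BD l d n) (R : Finset (SysL.VV l d))
    (c : SysL.VV l d → SysL.VV l n → S.T) (Φ : Finset R → Prop) (hR : S.Rep R)
    (hc : ∀ v ζ ζ', c v (ζ + ζ') = c v ζ + c v ζ') (hG : S.Gen Bd R (S.cT c) Φ)
    (hΦ : Φ Finset.univ) : ∃ L : ℝ,
    DPo (cfe_n S) (cfe_b S Bd R (S.cT c) Φ) (S.bV Bd R (S.cT c)) L := by
  classical
  obtain ⟨L, -, hL, -⟩ := h1 l S d n Bd R c Φ (fun _ => 1) 0 (fun _ => 1) hR
    (fun p => ⟨zero_le_one, by simp⟩) hc hG hΦ (fun _ => zero_le_one) (fun _ => one_pos)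
  have hterm : ∀ (σ : ℝ) (x : R → Finset S.P),
      cfe_b S Bd R (S.cT c) Φ x * (cfe_n S x : ℝ) ^ (-σ) =
      if S.Gd x ∧ S.Off ∅ x ∧ S.okc Bd R (S.cT c) x ∧ Φ (S.pat x)
        then 1 * ∏ v, ∏ p ∈ x v, ((l : ℝ) ^ n * 1 * (S.N p : ℝ) ^ (-(1 + σ)))
        else 0 := by
    intro σ x
    unfold cfe_b
    by_cases h : S.Gd x ∧ S.okc Bd R (S.cT c) x ∧ Φ (S.pat x)
    · rw [if_pos h, if_pos ⟨h.1, fun u => Finset.disjoint_empty_right _, h.2⟩, one_mul,
        cfe_term S n h.1]
    · rw [if_neg h, if_neg (fun h' => h ⟨h'.1, h'.2.2⟩), zero_mul]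
  refine ⟨L, fun x => cfe_b0 S Bd R (S.cT c) Φ x, fun σ hσ => ?_, ?_⟩
  · refine Summable.of_nonneg_of_le (fun x => mul_nonneg (cfe_b0 S Bd R (S.cT c) Φ x)
      (Real.rpow_nonneg (Nat.cast_nonneg _) _)) (fun x => ?_) (cfe_sm S n hσ)
    rw [hterm σ x, one_mul]
    split_ifs
    · exact le_refl _
    · exact Finset.prod_nonneg fun v _ => Finset.prod_nonneg fun p _ => by positivity
  · refine hL.congr fun σ => ?_
    congr 1
    unfold SysL.FF
    refine tsum_congr fun x => ?_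
    rw [hterm σ x]

private theorem cfe_asg (y : Finset S.P) :
    ((S.asg n y).card : ℝ) = ((l : ℝ) ^ n) ^ y.card := by
  classical
  have h1 : S.asg n y = y.finsupp fun _ => (Finset.univ : Finset (SysL.VV l n)) := by
    unfold SysL.asg
    congr
  rw [h1, Finset.card_finsupp, Finset.prod_const, Finset.card_univ, Fintype.card_fun,
    ZMod.card, Fintype.card_fin]
  push_cast
  rfl

/-- the sum over the noncentral families -/
private theorem cfe_NE (Bd : SysL.BD l d n) (R : Finset (SysL.VV l d))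
    (RZ : Finset (SysL.VV l n)) (c : SysL.VV l d → SysL.VV l n → S.El) (Φ : Finset R → Prop)
    (z0 : RZ) {Y A : ℝ} (hY : 0 ≤ Y) (w : (R → Finset S.P) → ℝ) (hA0 : 0 ≤ A)
    (hw : ∀ x, 0 ≤ w x)
    (hA : ∀ x : R → Finset S.P, (cfe_n S x : ℝ) ≤ Y →
      S.CE z0 (S.un x) (Y / (cfe_n S x : ℝ)) ≤ A * w x) :
    S.NE Bd R RZ c Φ z0 Y ≤ A * ∑ x ∈ (cfe_fin (ι := R) S ⌊Y⌋₊).toFinset,
      cfe_b S Bd R c Φ x * ((cfe_n S x : ℝ) * w x) := by
  classical
  unfold SysL.NE
  rw [← Finset.sum_filter, Finset.mul_sum]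
  have hsub : (Fintype.piFinset (fun _ : R => S.bx Y)).filter
      (fun x : R → Finset S.P => S.Gd x ∧ S.okc Bd R c x ∧ Φ (S.pat x) ∧
        ((∏ u, S.nm (x u) : ℕ) : ℝ) ≤ Y) ⊆ (cfe_fin (ι := R) S ⌊Y⌋₊).toFinset := by
    intro x hx
    exact (cfe_memf S hY x).2 (Finset.mem_filter.1 hx).2.2.2.2
  refine (Finset.sum_le_sum fun x hx => ?_).trans
    (Finset.sum_le_sum_of_subset_of_nonneg hsub fun x _ _ => ?_)
  · have h := (Finset.mem_filter.1 hx).2
    have hn : (0 : ℝ) < cfe_n S x := by exact_mod_cast cfe_n1 S x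
    have h1 := hA x h.2.2.2
    have h2 : cfe_b S Bd R c Φ x = ((l : ℝ) ^ n) ^ (S.un x).card / (cfe_n S x : ℝ) := by
      unfold cfe_b
      rw [if_pos ⟨h.1, h.2.1, h.2.2.1⟩]
    rw [h2, cfe_asg]
    have h3 : (0 : ℝ) ≤ ((l : ℝ) ^ n) ^ (S.un x).card := by positivity
    refine (mul_le_mul_of_nonneg_left h1 h3).trans (le_of_eq ?_)
    field_simp
  · exact mul_nonneg hA0 (mul_nonneg (cfe_b0 S Bd R c Φ x)
      (mul_nonneg (Nat.cast_nonneg _) (hw x)))

private theorem cfe_pi {ι : Type} [Fintype ι] (d1 : DecidableEq ι) {x : ι → Finset S.P}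
    {t : ℝ} : x ∈ @Fintype.piFinset ι d1 _ (fun _ => Finset S.P) (fun _ => S.bx t) ↔
      ∀ u, x u ∈ S.bx t := by
  exact Fintype.mem_piFinset

/-- families with an empty member are families on the complement -/
private theorem cfe_CE_le {ι : Type} [Fintype ι] (z0 : ι) [Fintype {u : ι // u ≠ z0}]
    (y : Finset S.P) (t : ℝ) :
    S.CE z0 y t ≤ S.CC (ι := {u : ι // u ≠ z0}) ∅ (fun _ => 1) t := by
  classical
  unfold SysL.CE SysL.CC
  rw [← Finset.sum_filter, ← Finset.sum_filter, Finset.sum_const, Finset.sum_const,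
    nsmul_eq_mul, nsmul_eq_mul, mul_one, mul_one]
  refine Nat.cast_le.2 (Finset.card_le_card_of_injOn
    (fun (x : ι → Finset S.P) (u : {u : ι // u ≠ z0}) => x u.1) ?_ ?_)
  · intro x hx
    have h := Finset.mem_filter.1 hx
    have h1 : ∏ u : {u : ι // u ≠ z0}, S.nm (x u.1) ≤ ∏ u, S.nm (x u) := by
      rw [← Finset.prod_subtype (Finset.univ.filter fun u => u ≠ z0)
        (fun u => by simp) (fun u => S.nm (x u))]
      exact Finset.prod_le_prod_of_subset_of_one_le' (Finset.filter_subset _ _)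
        (fun u _ _ => S.one_le_nm (x u))
    have h2 : ((∏ u : {u : ι // u ≠ z0}, S.nm (x u.1) : ℕ) : ℝ) ≤ t :=
      le_trans (Nat.cast_le.2 h1) h.2.2.2.1
    refine Finset.mem_filter.2 ⟨?_, ⟨fun u p hp => h.2.1.1 u.1 p hp,
      fun u v p hp q hq g hg => ?_⟩, fun u p hp q hq => absurd hq (Finset.notMem_empty q), h2⟩
    · exact (cfe_pi S _).2 fun u => (cfe_pi S _).1 h.1 u.1
    · obtain ⟨h3, h4⟩ := h.2.1.2 u.1 v.1 p hp q hq g hg
      exact ⟨Subtype.ext h3, h4⟩
  · intro x hx x' hx' hxx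
    have h := (Finset.mem_filter.1 hx).2.2.2.2
    have h' := (Finset.mem_filter.1 hx').2.2.2.2
    funext u
    by_cases hu : u = z0
    · rw [hu, h, h']
    · exact congrFun hxx ⟨u, hu⟩

private theorem cfe_CE2 (h2 : SCcL) {ι : Type} [Fintype ι] (z0 : ι)
    (hι : 2 ≤ Fintype.card ι) : ∃ C : ℝ, 0 ≤ C ∧ ∀ (y : Finset S.P) (t : ℝ), 1 ≤ t →
      S.CE z0 y t ≤ C * (t * (1 + Real.log t) ^ (Fintype.card ι - 2)) := by
  classical
  have hcard : Fintype.card {u : ι // u ≠ z0} = Fintype.card ι - 1 := by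
    rw [Fintype.card_subtype, Finset.filter_ne', Finset.card_erase_of_mem (Finset.mem_univ _),
      Finset.card_univ]
  have : Nonempty {u : ι // u ≠ z0} := by
    rw [← Fintype.card_pos_iff, hcard]
    omega
  obtain ⟨κ1, A0, C, hκ, hA0, hC, h⟩ := h2 l S {u : ι // u ≠ z0}
  have hG : S.Gd (fun _ : Unit => (∅ : Finset S.P)) :=
    ⟨fun _ p hp => absurd hp (Finset.notMem_empty p),
      fun _ _ p hp => absurd hp (Finset.notMem_empty p)⟩
  obtain ⟨G, h3⟩ : ∃ G : ℝ, ∀ Y : ℝ, 1 ≤ Y →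
      |S.CC (ι := {u : ι // u ≠ z0}) ∅ (fun _ => 1) Y -
        G * (Y * Real.log Y ^ (Fintype.card {u : ι // u ≠ z0} - 1))| ≤
      C * S.lo A0 ∅ * Y * (1 + Real.log Y) ^ ((Fintype.card {u : ι // u ≠ z0} : ℝ) - 3 / 2) :=
    ⟨_, h ∅ hG (fun _ => 1) (fun _ => by simp)⟩
  refine ⟨|G| + C * |S.lo A0 ∅|, by positivity, fun y t ht => ?_⟩
  refine (cfe_CE_le S z0 y t).trans ?_
  have h4 := (abs_le.1 (h3 t ht)).2
  have hlog : 0 ≤ Real.log t := Real.log_nonneg ht
  have e1 : Fintype.card {u : ι // u ≠ z0} - 1 = Fintype.card ι - 2 := by omega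
  have h5 : t * Real.log t ^ (Fintype.card {u : ι // u ≠ z0} - 1) ≤
      t * (1 + Real.log t) ^ (Fintype.card ι - 2) := by
    rw [e1]
    exact mul_le_mul_of_nonneg_left (pow_le_pow_left₀ hlog (by linarith) _) (by linarith)
  have h6 : (1 + Real.log t) ^ ((Fintype.card {u : ι // u ≠ z0} : ℝ) - 3 / 2) ≤
      (1 + Real.log t) ^ (Fintype.card ι - 2) := by
    rw [← Real.rpow_natCast]
    refine Real.rpow_le_rpow_of_exponent_le (by linarith) ?_
    rw [hcard, Nat.cast_sub (by omega), Nat.cast_sub hι]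
    push_cast
    linarith
  have h7 : G * (t * Real.log t ^ (Fintype.card {u : ι // u ≠ z0} - 1)) ≤
      |G| * (t * (1 + Real.log t) ^ (Fintype.card ι - 2)) :=
    (mul_le_mul_of_nonneg_right (le_abs_self G) (by positivity)).trans
      (mul_le_mul_of_nonneg_left h5 (abs_nonneg G))
  have h8 : C * S.lo A0 ∅ * t * (1 + Real.log t) ^
      ((Fintype.card {u : ι // u ≠ z0} : ℝ) - 3 / 2) ≤
      C * |S.lo A0 ∅| * (t * (1 + Real.log t) ^ (Fintype.card ι - 2)) := by
    have h9 : C * S.lo A0 ∅ * t ≤ C * |S.lo A0 ∅| * t :=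
      mul_le_mul_of_nonneg_right (mul_le_mul_of_nonneg_left (le_abs_self _) hC) (by linarith)
    have h10 : 0 ≤ (1 + Real.log t) ^ ((Fintype.card {u : ι // u ≠ z0} : ℝ) - 3 / 2) :=
      Real.rpow_nonneg (by linarith) _
    refine (mul_le_mul_of_nonneg_right h9 h10).trans ?_
    rw [mul_assoc (C * |S.lo A0 ∅|)]
    exact mul_le_mul_of_nonneg_left (mul_le_mul_of_nonneg_left h6 (by linarith))
      (by positivity)
  linarith

private theorem cfe_CE1 {ι : Type} [Fintype ι] (z0 : ι) (hι : Fintype.card ι = 1)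
    (y : Finset S.P) (t : ℝ) : S.CE z0 y t ≤ 1 := by
  classical
  have : Subsingleton ι := Fintype.card_le_one_iff_subsingleton.1 (by omega)
  unfold SysL.CE
  rw [← Finset.sum_filter, Finset.sum_const, nsmul_eq_mul, mul_one]
  rw [show (1 : ℝ) = ((1 : ℕ) : ℝ) by norm_num, Nat.cast_le, Finset.card_le_one]
  intro x hx x' hx'
  have h := (Finset.mem_filter.1 hx).2.2.2.2
  have h' := (Finset.mem_filter.1 hx').2.2.2.2
  funext u
  rw [Subsingleton.elim u z0, h, h']

private theorem cfe_NE0 (Bd : SysL.BD l d n) (R : Finset (SysL.VV l d))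
    (RZ : Finset (SysL.VV l n)) (c : SysL.VV l d → SysL.VV l n → S.El) (Φ : Finset R → Prop)
    (z0 : RZ) (Y : ℝ) : 0 ≤ S.NE Bd R RZ c Φ z0 Y := by
  classical
  unfold SysL.NE
  refine Finset.sum_nonneg fun x _ => ?_
  split_ifs
  · refine mul_nonneg (Nat.cast_nonneg _) ?_
    unfold SysL.CE
    refine Finset.sum_nonneg fun x _ => ?_
    split_ifs
    · exact zero_le_one
    · exact le_refl _
  · exact le_refl _

end

/-- families where one central vector does not occur are negligible -/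
theorem sfixE (h1 : SMain) (h2 : SCcL) (h3 : SKarE) (h4 : SKar0) (_hs : SSmL) : SFixE := by
  classical
  intro l _ S d n Bd R RZ c Φ hR _ _ hc hG hΦ z0
  obtain ⟨L, hD⟩ := cfe_dpo S h1 Bd R c Φ hR hc hG hΦ
  set b := cfe_b S Bd R (S.cT c) Φ with hb
  set B := S.bV Bd R (S.cT c) with hB
  have hn1 : ∀ x : R → Finset S.P, 1 ≤ cfe_n S x := cfe_n1 S
  have hcard : Fintype.card RZ = RZ.card := Fintype.card_coe RZ
  have hpos : 1 ≤ RZ.card := Finset.card_pos.2 ⟨z0.1, z0.2⟩
  rcases Nat.lt_or_ge 1 RZ.card with h | h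
  · -- at least two central vectors
    obtain ⟨C, hC, hCE⟩ := cfe_CE2 S h2 z0 (by rw [hcard]; omega)
    rw [hcard] at hCE
    have hK := h4 (R → Finset S.P) (cfe_n S) b B L hn1 (cfe_fin (ι := R) S) hD
    have hlog : Tendsto (fun Y : ℝ => (Real.log Y)⁻¹) atTop (𝓝 0) :=
      tendsto_inv_atTop_zero.comp Real.tendsto_log_atTop
    have hlim := (hK.mul hlog).const_mul (C * 2 ^ (RZ.card - 2))
    rw [mul_zero, mul_zero] at hlim
    refine squeeze_zero' ?_ ?_ hlim
    · filter_upwards [eventually_ge_atTop (Real.exp 1)] with Y hY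
      have hY0 : 0 < Y := (Real.exp_pos 1).trans_le hY
      have hlg : 1 ≤ Real.log Y := by
        rw [Real.le_log_iff_exp_le hY0]
        exact hY
      exact div_nonneg (cfe_NE0 S Bd R RZ (S.cT c) Φ z0 Y) (by positivity)
    · filter_upwards [eventually_ge_atTop (Real.exp 1)] with Y hY
      have hY0 : 0 < Y := (Real.exp_pos 1).trans_le hY
      have hlg : 1 ≤ Real.log Y := by
        rw [Real.le_log_iff_exp_le hY0]
        exact hY
      have h5 := cfe_NE S Bd R RZ (S.cT c) Φ z0 (Y := Y)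
        (A := C * (Y * (1 + Real.log Y) ^ (RZ.card - 2))) hY0.le
        (fun x => (cfe_n S x : ℝ)⁻¹) (by positivity) (fun x => by positivity) (fun x hx => by
          have hn : (1 : ℝ) ≤ cfe_n S x := by exact_mod_cast cfe_n1 S x
          have ht : 1 ≤ Y / (cfe_n S x : ℝ) := by
            rw [le_div_iff₀ (by linarith)]
            linarith
          have ht2 : Y / (cfe_n S x : ℝ) ≤ Y := div_le_self hY0.le hn
          refine (hCE (S.un x) _ ht).trans ?_
          rw [mul_assoc]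
          refine mul_le_mul_of_nonneg_left ?_ hC
          have h6 : (1 + Real.log (Y / (cfe_n S x : ℝ))) ^ (RZ.card - 2) ≤
              (1 + Real.log Y) ^ (RZ.card - 2) := by
            refine pow_le_pow_left₀ ?_ ?_ _
            · have := Real.log_nonneg ht
              linarith
            · have := Real.log_le_log (by linarith) ht2
              linarith
          calc Y / (cfe_n S x : ℝ) * (1 + Real.log (Y / (cfe_n S x : ℝ))) ^ (RZ.card - 2) ≤
                Y / (cfe_n S x : ℝ) * (1 + Real.log Y) ^ (RZ.card - 2) :=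
                mul_le_mul_of_nonneg_left h6 (by linarith)
            _ = Y * (1 + Real.log Y) ^ (RZ.card - 2) * (cfe_n S x : ℝ)⁻¹ := by
                rw [div_eq_mul_inv]
                ring)
      have h6 : ∑ x ∈ (cfe_fin (ι := R) S ⌊Y⌋₊).toFinset,
          cfe_b S Bd R (S.cT c) Φ x * ((cfe_n S x : ℝ) * (cfe_n S x : ℝ)⁻¹) =
          ∑ x ∈ (cfe_fin (ι := R) S ⌊Y⌋₊).toFinset, b x := by
        refine Finset.sum_congr rfl fun x _ => ?_
        have hn : (0 : ℝ) < cfe_n S x := by exact_mod_cast cfe_n1 S x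
        rw [mul_inv_cancel₀ hn.ne', mul_one]
      rw [h6] at h5
      set Q : ℝ := ∑ x ∈ (cfe_fin (ι := R) S ⌊Y⌋₊).toFinset, b x with hQ
      have hQ0 : 0 ≤ Q := Finset.sum_nonneg fun x _ => cfe_b0 S Bd R (S.cT c) Φ x
      have hden : 0 < Y * Real.log Y ^ (B + RZ.card - 1) := by positivity
      rw [div_le_iff₀ hden]
      refine h5.trans ?_
      have h7 : (1 + Real.log Y) ^ (RZ.card - 2) ≤ 2 ^ (RZ.card - 2) *
          Real.log Y ^ (RZ.card - 2) := by
        rw [← mul_pow]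
        exact pow_le_pow_left₀ (by linarith) (by linarith) _
      have h8 : Real.log Y ^ (B + RZ.card - 1) =
          Real.log Y ^ B * Real.log Y ^ (RZ.card - 2) * Real.log Y := by
        rw [← pow_add, ← pow_succ]
        congr 1
        omega
      have hl0 : 0 < Real.log Y := by linarith
      calc C * (Y * (1 + Real.log Y) ^ (RZ.card - 2)) * Q ≤
            C * (Y * (2 ^ (RZ.card - 2) * Real.log Y ^ (RZ.card - 2))) * Q := by
            refine mul_le_mul_of_nonneg_right ?_ hQ0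
            refine mul_le_mul_of_nonneg_left ?_ hC
            exact mul_le_mul_of_nonneg_left h7 hY0.le
        _ = C * 2 ^ (RZ.card - 2) * (Q / Real.log Y ^ B * (Real.log Y)⁻¹) *
            (Y * Real.log Y ^ (B + RZ.card - 1)) := by
            rw [h8]
            field_simp
  · -- one central vector
    have hone : RZ.card = 1 := by omega
    have hK := h3 (R → Finset S.P) (cfe_n S) b B L hn1 (cfe_fin (ι := R) S) hD
    have hB1 : B + RZ.card - 1 = B := by omega
    rw [hB1]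
    refine squeeze_zero' ?_ ?_ hK
    · filter_upwards [eventually_ge_atTop (Real.exp 1)] with Y hY
      have hY0 : 0 < Y := (Real.exp_pos 1).trans_le hY
      have hlg : 1 ≤ Real.log Y := by
        rw [Real.le_log_iff_exp_le hY0]
        exact hY
      exact div_nonneg (cfe_NE0 S Bd R RZ (S.cT c) Φ z0 Y) (by positivity)
    · filter_upwards [eventually_ge_atTop (Real.exp 1)] with Y hY
      have hY0 : 0 < Y := (Real.exp_pos 1).trans_le hY
      have hlg : 1 ≤ Real.log Y := by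
        rw [Real.le_log_iff_exp_le hY0]
        exact hY
      have h5 := cfe_NE S Bd R RZ (S.cT c) Φ z0 (Y := Y) (A := 1) hY0.le (fun _ => 1)
        zero_le_one (fun _ => zero_le_one) (fun x _ => by
          rw [mul_one]
          exact cfe_CE1 S z0 (by rw [hcard, hone]) _ _)
      simp only [one_mul, mul_one] at h5
      exact div_le_div_of_nonneg_right h5 (by positivity)

end Pool.Agent.H92.EL
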