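import Pool.Agent.H92.EL.CStm

/-!
# Project ELL (MP_a3214d), block C: the maximal sets of unlinked types
-/

set_option autoImplicit false

open scoped BigOperators

namespace Pool.Agent.H92.EL

namespace SysL

variable {l : ℕ} [Fact l.Prime] (S : SysL l) {d n : ℕ} (Bd : SysL.BD l d n)
  (R : Finset (SysL.VV l d))

theorem cfull_iso_iff (U : Finset (R × SysL.VV l n)) :
    S.iso (SysL.bz Bd R) U = U ↔ ∀ u ∈ U, ∀ v ∈ U, ∀ g : S.D,
      u.2 ⬝ᵥ Bd.B v.1 u.1 + ((S.e g)⁻¹ : (ZMod l)ˣ) * (v.2 ⬝ᵥ Bd.B u.1 v.1) = 0 := by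
  unfold SysL.iso
  refine (@Finset.filter_eq_self _ _ (_) _).trans ?_
  constructor
  · intro h u hu v hv g
    have h1 := h u hu v hv
    by_contra hne
    exact h1 ⟨g, hne⟩
  · intro h u hu v hv hL
    obtain ⟨g, hg⟩ := hL
    exact hg (h u hu v hv g)

/-- additive maps are homogeneous -/
theorem cfull_smul {ψ : SysL.VV l d → SysL.VV l d → ZMod l} (hF : S.Fam Bd ψ) (c : ZMod l)
    (w v : SysL.VV l d) : ψ (c • w) v = c * ψ w v := by
  let f : SysL.VV l d →+ ZMod l := AddMonoidHom.mk' (fun w => ψ w v) (fun a b => hF.add a b v)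
  have h := ZMod.map_smul f c w
  exact h

theorem cfull_smul' {ψ : SysL.VV l d → SysL.VV l d → ZMod l} (hF : S.Fam Bd ψ) (c : ZMod l)
    (w v : SysL.VV l d) : ψ w (c • v) = c * ψ w v := by
  rw [hF.alt, cfull_smul S Bd hF, hF.alt v w]
  ring

theorem cfull_zero {ψ : SysL.VV l d → SysL.VV l d → ZMod l} (hF : S.Fam Bd ψ)
    (w : SysL.VV l d) : ψ w 0 = 0 := by
  have h := cfull_smul' S Bd hF 0 w 0
  rwa [zero_smul, zero_mul] at h

theorem cfull_dir2 (U : Finset (R × SysL.VV l n)) (ψ : SysL.VV l d → SysL.VV l d → ZMod l)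
    (hF : S.Fam Bd ψ) (hU : ∀ u ∈ U, ∀ w, u.2 ⬝ᵥ Bd.B w u.1 = ψ w u.1) :
    S.iso (SysL.bz Bd R) U = U := by
  rw [cfull_iso_iff]
  intro u hu v hv g
  rw [hU u hu, hU v hv]
  by_cases hg : g = 1
  · subst hg
    rw [map_one, inv_one, Units.val_one, one_mul, hF.alt]
    ring
  · have h := hF.triv ⟨g, hg⟩
    rw [h, h, mul_zero, add_zero]

theorem cfull_dir1 (U : Finset (R × SysL.VV l n)) (hR : S.Rep R)
    (him : ∀ r : R, ∃ ζ, (r, ζ) ∈ U) (hiso : S.iso (SysL.bz Bd R) U = U) :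
    ∃ ψ, S.Fam Bd ψ ∧ (∀ u ∈ U, ∀ w, u.2 ⬝ᵥ Bd.B w u.1 = ψ w u.1) ∧
      ∀ ψ', S.Fam Bd ψ' → (∀ u ∈ U, ∀ w, u.2 ⬝ᵥ Bd.B w u.1 = ψ' w u.1) → ψ' = ψ := by
  classical
  rw [cfull_iso_iff] at hiso
  choose z hz using him
  have hex : ∀ v : SysL.VV l d, v ≠ 0 →
      ∃ r : R, ∃ g : S.D, v = (S.e g : ZMod l) • (r : SysL.VV l d) := by
    intro v hv
    obtain ⟨w, hw, g, hg⟩ := hR.ex v hv
    exact ⟨⟨w, hw⟩, g, hg⟩
  have hcase : ∀ v : SysL.VV l d, v = 0 ∨
      ∃ r : R, ∃ g : S.D, v = (S.e g : ZMod l) • (r : SysL.VV l d) := by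
    intro v
    by_cases hv : v = 0
    · exact Or.inl hv
    · exact Or.inr (hex v hv)
  choose rr gg hrg using hex
  have hr0 : ∀ r : R, (r : SysL.VV l d) ≠ 0 := by
    intro r h
    apply hR.nz
    rw [← h]
    exact r.2
  have hun : ∀ (r r' : R) (g g' : S.D), (S.e g : ZMod l) • (r : SysL.VV l d) =
      (S.e g' : ZMod l) • (r' : SysL.VV l d) → r = r' := by
    intro r r' g g' h
    apply Subtype.ext
    apply hR.un r r.2 r' r'.2 (g⁻¹ * g')
    rw [map_mul, map_inv, Units.val_mul, mul_smul, ← h, ← mul_smul, ← Units.val_mul,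
      inv_mul_cancel, Units.val_one, one_smul]
  let ψ : SysL.VV l d → SysL.VV l d → ZMod l := fun w v =>
    if h : v = 0 then 0 else z (rr v h) ⬝ᵥ Bd.B w (rr v h)
  have hψ0 : ∀ w, ψ w 0 = 0 := by
    intro w
    simp only [ψ, dif_pos]
  have hψ : ∀ (r : R) (g : S.D) (w : SysL.VV l d),
      ψ w ((S.e g : ZMod l) • (r : SysL.VV l d)) = z r ⬝ᵥ Bd.B w r := by
    intro r g w
    have hne : (S.e g : ZMod l) • (r : SysL.VV l d) ≠ 0 :=
      smul_ne_zero (S.e g).ne_zero (hr0 r)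
    simp only [ψ, dif_neg hne]
    have h1 : rr _ hne = r := (hun r (rr _ hne) g (gg _ hne) (hrg _ hne)).symm
    rw [h1]
  have hψr : ∀ (r : R) (w : SysL.VV l d), ψ w (r : SysL.VV l d) = z r ⬝ᵥ Bd.B w r := by
    intro r w
    have h := hψ r 1 w
    rwa [map_one, Units.val_one, one_smul] at h
  have hsc : ∀ (c : ZMod l) (w v : SysL.VV l d), ψ (c • w) v = c * ψ w v := by
    intro c w v
    rcases hcase v with rfl | ⟨r, g, rfl⟩
    · rw [hψ0, hψ0, mul_zero]
    · rw [hψ, hψ, map_smul, LinearMap.smul_apply, dotProduct_smul, smul_eq_mul]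
  have hadd : ∀ w w' v, ψ (w + w') v = ψ w v + ψ w' v := by
    intro w w' v
    rcases hcase v with rfl | ⟨r, g, rfl⟩
    · rw [hψ0, hψ0, hψ0, add_zero]
    · rw [hψ, hψ, hψ, map_add, LinearMap.add_apply, dotProduct_add]
  have hz0 : ∀ v, ψ 0 v = 0 := by
    intro v
    have h := hsc 0 0 v
    rwa [zero_smul, zero_mul] at h
  -- antisymmetry with any scalar
  have hanti : ∀ (r r' : R) (g : S.D), ψ (r' : SysL.VV l d) r = -(((S.e g)⁻¹ : (ZMod l)ˣ) *
      ψ (r : SysL.VV l d) r') := by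
    intro r r' g
    have h := hiso (r, z r) (hz r) (r', z r') (hz r') g
    rw [hψr, hψr]
    exact eq_neg_of_add_eq_zero_left h
  have halt : ∀ w v, ψ w v = -ψ v w := by
    intro w v
    rcases hcase v with rfl | ⟨r, g, rfl⟩
    · rw [hψ0, hz0, neg_zero]
    · rcases hcase w with rfl | ⟨r', g', rfl⟩
      · rw [hψ0, hz0, neg_zero]
      · rw [hsc, hψ, ← hψr, hsc, hψ, ← hψr, hanti r r' (g⁻¹ * g')]
        have e1 : ((S.e g' : (ZMod l)ˣ) : ZMod l) * (((S.e (g⁻¹ * g'))⁻¹ : (ZMod l)ˣ) : ZMod l) =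
            ((S.e g : (ZMod l)ˣ) : ZMod l) := by
          rw [← Units.val_mul]
          congr 1
          rw [map_mul, map_inv]
          group
        rw [← e1]
        ring
  have hF : S.Fam Bd ψ := by
    refine ⟨hadd, halt, ?_, ?_⟩
    · intro v
      rcases hcase v with rfl | ⟨r, g, rfl⟩
      · refine ⟨0, fun w => ?_⟩
        rw [hψ0, zero_dotProduct]
      · refine ⟨(((S.e g)⁻¹ : (ZMod l)ˣ) : ZMod l) • z r, fun w => ?_⟩
        rw [hψ, map_smul, smul_dotProduct, dotProduct_smul, smul_smul, ← Units.val_mul,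
          inv_mul_cancel, Units.val_one, one_smul]
    · rintro ⟨g, hg⟩ w v
      rcases hcase v with rfl | ⟨r, g', rfl⟩
      · exact hψ0 w
      · have h1 : ψ w ((S.e (g * g') : ZMod l) • (r : SysL.VV l d)) =
            ψ w ((S.e g' : ZMod l) • (r : SysL.VV l d)) := by
          rw [hψ, hψ]
        have h2 : ψ w ((S.e (g * g') : ZMod l) • (r : SysL.VV l d)) =
            (S.e g : ZMod l) * ψ w ((S.e g' : ZMod l) • (r : SysL.VV l d)) := by
          rw [map_mul, Units.val_mul, mul_smul, halt, hsc, halt _ w]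
          ring
        rw [h1] at h2
        have h3 : ((S.e g : ZMod l) - 1) *
            ψ w ((S.e g' : ZMod l) • (r : SysL.VV l d)) = 0 := by
          linear_combination -h2
        rcases mul_eq_zero.1 h3 with h4 | h4
        · exfalso
          apply hg
          apply S.e_inj
          rw [map_one]
          apply Units.ext
          rw [Units.val_one]
          linear_combination h4
        · exact h4
  have hval : ∀ u ∈ U, ∀ w, u.2 ⬝ᵥ Bd.B w u.1 = ψ w u.1 := by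
    intro u hu w
    rw [hψr]
    rcases hcase w with rfl | ⟨r', g', rfl⟩
    · rw [map_zero, LinearMap.zero_apply, dotProduct_zero, dotProduct_zero]
    · rw [map_smul, LinearMap.smul_apply, dotProduct_smul, dotProduct_smul]
      congr 1
      have h1 := hiso u hu (r', z r') (hz r') 1
      have h2 := hiso (u.1, z u.1) (hz u.1) (r', z r') (hz r') 1
      linear_combination h1 - h2
  refine ⟨ψ, hF, hval, ?_⟩
  intro ψ' hF' hval'
  funext w v
  rcases hcase v with rfl | ⟨r, g, rfl⟩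
  · rw [cfull_zero S Bd hF', cfull_zero S Bd hF]
  · rw [cfull_smul' S Bd hF', cfull_smul' S Bd hF]
    congr 1
    have h1 := hval' (r, z r) (hz r) w
    have h2 := hval (r, z r) (hz r) w
    rw [← h1, ← h2]

end SysL

theorem sfull : SFull := by
  intro l _ S d n Bd R U hR
  refine ⟨?_, ?_⟩
  · intro him hiso
    refine SysL.cfull_dir1 S Bd R U hR ?_ ?_
    · intro r
      have h : r ∈ U.image Prod.fst := by
        rw [him]
        exact Finset.mem_univ r
      obtain ⟨u, hu, hur⟩ := Finset.mem_image.1 h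
      refine ⟨u.2, ?_⟩
      rw [← hur]
      exact hu
    · exact hiso
  · intro ψ hF hU
    exact SysL.cfull_dir2 S Bd R U ψ hF hU

end Pool.Agent.H92.EL
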