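import Pool.Agent.H92.EL.CStm
import Pool.Agent.H98.MF.NLog

/-!
# Project ELL (MP_a3214d), block C, row C18: limits of Euler products (helper40)
-/

set_option autoImplicit false

open scoped BigOperators Topology
open Filter

namespace Pool.Agent.H92.EL

open Pool.Agent.H98.MF (Pre pre_summable_N)

/-! ### characters -/

private theorem cge_ec_add {l : ℕ} [NeZero l] (a b : ZMod l) : ec (a + b) = ec a * ec b :=
  AddChar.map_add_eq_mul _ _ _

private theorem cge_ec_zero {l : ℕ} [NeZero l] : ec (0 : ZMod l) = 1 :=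
  AddChar.map_zero_eq_one _

private theorem cge_ec_norm {l : ℕ} [NeZero l] (a : ZMod l) : ‖ec a‖ = 1 :=
  AddChar.norm_apply _ _

private theorem cge_orth1 {l : ℕ} [NeZero l] (a : ZMod l) :
    ∑ x : ZMod l, ec (x * a) = if a = 0 then (l : ℂ) else 0 := by
  have h := AddChar.sum_mulShift (R := ZMod l) (R' := ℂ) (ψ := ZMod.stdAddChar) a
    (ZMod.isPrimitive_stdAddChar l)
  unfold ec
  rw [h, ZMod.card]
  split_ifs <;> simp

private theorem cge_sumprod {l : ℕ} [NeZero l] {ι : Type} (s : Finset ι) (a : ι → ZMod l) :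
    ec (∑ i ∈ s, a i) = ∏ i ∈ s, ec (a i) := by
  classical
  induction s using Finset.induction_on with
  | empty => simp [cge_ec_zero]
  | insert i s hi ih => rw [Finset.sum_insert hi, Finset.prod_insert hi, cge_ec_add, ih]

private theorem cge_orth {l : ℕ} [NeZero l] {m : ℕ} (t : Fin m → ZMod l) :
    ∑ c : Fin m → ZMod l, ec (c ⬝ᵥ t) = if t = 0 then (l : ℂ) ^ m else 0 := by
  classical
  have h1 : ∀ c : Fin m → ZMod l, ec (c ⬝ᵥ t) = ∏ i, ec (c i * t i) := by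
    intro c
    exact cge_sumprod Finset.univ fun i => c i * t i
  rw [Finset.sum_congr rfl fun c _ => h1 c]
  have h2 := Finset.prod_univ_sum (fun _ : Fin m => (Finset.univ : Finset (ZMod l)))
    (fun i a => ec (a * t i))
  rw [Fintype.piFinset_univ] at h2
  rw [← h2]
  rw [Finset.prod_congr rfl fun i _ => cge_orth1 (t i)]
  by_cases ht : t = 0
  · subst ht
    simp
  · rw [if_neg ht]
    obtain ⟨i, hi⟩ : ∃ i, t i ≠ 0 := by
      by_contra h
      push Not at h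
      exact ht (funext h)
    exact Finset.prod_eq_zero (Finset.mem_univ i) (if_neg hi)

/-- the Fourier coefficients -/
private noncomputable def cge_fh {l : ℕ} [NeZero l] {m : ℕ} (G : (Fin m → ZMod l) → ℂ)
    (c : Fin m → ZMod l) : ℂ :=
  (1 / (l : ℂ) ^ m) * ∑ t : Fin m → ZMod l, G t * ec (-(c ⬝ᵥ t))

private theorem cge_fh_zero {l : ℕ} [NeZero l] {m : ℕ} (G : (Fin m → ZMod l) → ℂ) :
    cge_fh G 0 = (1 / (l : ℂ) ^ m) * ∑ t : Fin m → ZMod l, G t := by
  unfold cge_fh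
  simp [cge_ec_zero]

private theorem cge_inv {l : ℕ} [NeZero l] {m : ℕ} (G : (Fin m → ZMod l) → ℂ)
    (t : Fin m → ZMod l) : G t = ∑ c : Fin m → ZMod l, cge_fh G c * ec (c ⬝ᵥ t) := by
  classical
  have hl : (l : ℂ) ^ m ≠ 0 := pow_ne_zero _ (by exact_mod_cast NeZero.ne l)
  have h1 : ∀ c : Fin m → ZMod l, cge_fh G c * ec (c ⬝ᵥ t) =
      (1 / (l : ℂ) ^ m) * ∑ t' : Fin m → ZMod l, G t' * ec (c ⬝ᵥ (t - t')) := by
    intro c
    unfold cge_fh
    rw [mul_assoc, Finset.sum_mul]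
    congr 1
    refine Finset.sum_congr rfl fun t' _ => ?_
    rw [mul_assoc, ← cge_ec_add]
    congr 2
    rw [dotProduct_sub]
    ring
  rw [Finset.sum_congr rfl fun c _ => h1 c, ← Finset.mul_sum, Finset.sum_comm]
  have h2 : ∀ t' : Fin m → ZMod l, ∑ c : Fin m → ZMod l, G t' * ec (c ⬝ᵥ (t - t')) =
      if t' = t then G t * (l : ℂ) ^ m else 0 := by
    intro t'
    rw [← Finset.mul_sum, cge_orth]
    by_cases h : t' = t
    · subst h
      simp
    · have h' : t - t' ≠ 0 := fun e => h (sub_eq_zero.1 e).symm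
      rw [if_neg h, if_neg h', mul_zero]
  rw [Finset.sum_congr rfl fun t' _ => h2 t', Finset.sum_ite_eq' Finset.univ t,
    if_pos (Finset.mem_univ t)]
  field_simp

/-! ### prime sums -/

section

variable {l : ℕ} [Fact l.Prime] (S : SysL l)

private theorem cge_two (p : S.P) : (2 : ℝ) ≤ S.N p := by exact_mod_cast S.two_le p

private theorem cge_pos (p : S.P) : (0 : ℝ) < S.N p := by linarith [cge_two S p]

private theorem cge_sum (s : ℝ) (hs : 1 < s) : Summable fun p : S.P => (S.N p : ℝ) ^ (-s) := by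
  refine pre_summable_N S.toPre (S.κ + S.C) (fun X hX => ?_) s hs
  have h1 := S.cnt X hX
  have h2 : X ^ (1 - S.δ) ≤ X := by
    calc X ^ (1 - S.δ) ≤ X ^ (1 : ℝ) :=
          Real.rpow_le_rpow_of_exponent_le hX (by linarith [S.δ_pos])
      _ = X := Real.rpow_one X
  have h3 := (abs_le.1 h1).2
  have h4 : S.C * X ^ (1 - S.δ) ≤ S.C * X := mul_le_mul_of_nonneg_left h2 S.C_nonneg
  linarith

private theorem cge_rp_le (p : S.P) {a b : ℝ} (h : a ≤ b) :
    (S.N p : ℝ) ^ a ≤ (S.N p : ℝ) ^ b :=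
  Real.rpow_le_rpow_of_exponent_le (by linarith [cge_two S p]) h

private theorem cge_rp_le_one (p : S.P) {a : ℝ} (h : a ≤ 0) : (S.N p : ℝ) ^ a ≤ 1 := by
  have := cge_rp_le S p h
  rwa [Real.rpow_zero] at this

private theorem cge_rp_nn (p : S.P) (a : ℝ) : 0 ≤ (S.N p : ℝ) ^ a :=
  Real.rpow_nonneg (cge_pos S p).le _

open Classical in
private theorem cge_irr : Summable fun p : S.P =>
    if S.rg p then (0 : ℝ) else (S.N p : ℝ) ^ (-(3 / 4) : ℝ) := by
  obtain ⟨K, hK⟩ := S.irr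
  refine summable_of_sum_le (c := K) (fun p => ?_) fun u => ?_
  · split_ifs
    · exact le_rfl
    · exact cge_rp_nn S p _
  · calc ∑ p ∈ u, (if S.rg p then (0 : ℝ) else (S.N p : ℝ) ^ (-(3 / 4) : ℝ))
        = ∑ p ∈ u.filter (fun p => ¬ S.rg p), (S.N p : ℝ) ^ (-(3 / 4) : ℝ) := by
          rw [Finset.sum_filter]
          refine Finset.sum_congr rfl fun p _ => ?_
          by_cases h : S.rg p <;> simp [h]
      _ ≤ K := hK _ (fun p hp => by
          have h := (Finset.mem_filter.1 hp).2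
          unfold SysL.rg at h
          push Not at h
          obtain ⟨g, hg, hg1⟩ := h
          exact ⟨g, hg1, hg⟩)

private theorem cge_tau {B : ℝ} {τ : S.P → ℝ} (hτ : S.Tk B τ) (p : S.P) : τ p ≤ 1 + |B| := by
  have h1 := (abs_le.1 (hτ p).2).2
  have h2 : B * (S.N p : ℝ) ^ (-(1 / 2) : ℝ) ≤ |B| * 1 :=
    mul_le_mul (le_abs_self B) (cge_rp_le_one S p (by norm_num)) (cge_rp_nn S p _) (abs_nonneg B)
  linarith

private theorem cge_cont (p : S.P) (σ₀ : ℝ) :
    Tendsto (fun σ : ℝ => (S.N p : ℝ) ^ (-(1 + σ))) (𝓝 σ₀) (𝓝 ((S.N p : ℝ) ^ (-(1 + σ₀)))) := by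
  have h : Continuous fun σ : ℝ => (S.N p : ℝ) ^ (-(1 + σ)) :=
    (Real.continuous_const_rpow (cge_pos S p).ne').comp (by fun_prop)
  exact h.tendsto σ₀

/-- the term of a prime -/
private noncomputable def cge_t (G : S.T → ℂ) (τ : S.P → ℝ) (σ : ℝ) (p : S.P) : ℂ :=
  G (S.ty p) * ((τ p * (S.N p : ℝ) ^ (-(1 + σ)) : ℝ) : ℂ)

private theorem cge_t_le {G : S.T → ℂ} {F : ℝ} (hF : ∀ t, ‖G t‖ ≤ F) {B : ℝ} {τ : S.P → ℝ}
    (hτ : S.Tk B τ) (σ : ℝ) (p : S.P) :
    ‖cge_t S G τ σ p‖ ≤ F * (1 + |B|) * (S.N p : ℝ) ^ (-(1 + σ)) := by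
  unfold cge_t
  rw [norm_mul, Complex.norm_real, Real.norm_eq_abs,
    abs_of_nonneg (mul_nonneg (hτ p).1 (cge_rp_nn S p _)), mul_assoc]
  have hF0 : 0 ≤ F := (norm_nonneg _).trans (hF (S.ty p))
  refine mul_le_mul (hF _) ?_ (mul_nonneg (hτ p).1 (cge_rp_nn S p _)) hF0
  exact mul_le_mul_of_nonneg_right (cge_tau S hτ p) (cge_rp_nn S p _)

private theorem cge_t_cont (G : S.T → ℂ) (τ : S.P → ℝ) (p : S.P) (σ₀ : ℝ) :
    Tendsto (fun σ : ℝ => cge_t S G τ σ p) (𝓝 σ₀) (𝓝 (cge_t S G τ σ₀ p)) := by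
  unfold cge_t
  refine Tendsto.const_mul _ ?_
  exact (Complex.continuous_ofReal.tendsto _).comp ((cge_cont S p σ₀).const_mul _)

open Classical in
/-- the prime sum -/
private noncomputable def cge_Z (G : S.T → ℂ) (τ : S.P → ℝ) (σ : ℝ) : ℂ :=
  ∑' p : S.P, if S.rg p then cge_t S G τ σ p else 0

open Classical in
private theorem cge_Z_sum {G : S.T → ℂ} {F : ℝ} (hF : ∀ t, ‖G t‖ ≤ F) {B : ℝ} {τ : S.P → ℝ}
    (hτ : S.Tk B τ) {σ : ℝ} (hσ : 0 < σ) :
    Summable fun p : S.P => if S.rg p then cge_t S G τ σ p else 0 := by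
  refine Summable.of_norm_bounded ((cge_sum S (1 + σ) (by linarith)).mul_left (F * (1 + |B|)))
    fun p => ?_
  have hF0 : 0 ≤ F := (norm_nonneg _).trans (hF (S.ty p))
  split_ifs
  · exact cge_t_le S hF hτ σ p
  · rw [norm_zero]
    exact mul_nonneg (mul_nonneg hF0 (by positivity)) (cge_rp_nn S p _)

private theorem cge_main (h3 : SPl) (G : S.T → ℂ) : ∃ K : ℂ, Tendsto (fun σ : ℝ =>
    ∑' p : S.P, G (S.ty p) * (((S.N p : ℝ) ^ (-(1 + σ)) : ℝ) : ℂ) -
      cge_fh G 0 * (Real.log (1 / σ) : ℂ)) (𝓝[>] 0) (𝓝 K) := by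
  classical
  obtain ⟨⟨L0, hL0⟩, hL⟩ := h3 l S
  have hex : ∀ c : S.T, ∃ L : ℂ, Tendsto (fun σ : ℝ =>
      ∑' p : S.P, ec (c ⬝ᵥ S.ty p) * (((S.N p : ℝ) ^ (-(1 + σ)) : ℝ) : ℂ) -
        if c = 0 then (Real.log (1 / σ) : ℂ) else 0) (𝓝[>] 0) (𝓝 L) := by
    intro c
    by_cases hc : c = 0
    · subst hc
      refine ⟨(L0 : ℂ), ?_⟩
      have h1 := (Complex.continuous_ofReal.tendsto L0).comp hL0
      refine h1.congr fun σ => ?_
      rw [if_pos rfl]
      simp only [Function.comp_apply, zero_dotProduct, cge_ec_zero, one_mul]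
      rw [Complex.ofReal_sub, Complex.ofReal_tsum]
    · obtain ⟨L, h⟩ := hL c hc
      refine ⟨L, ?_⟩
      simp only [if_neg hc, sub_zero]
      exact h
  choose L hLc using hex
  refine ⟨∑ c, cge_fh G c * L c, ?_⟩
  have h1 : Tendsto (fun σ : ℝ => ∑ c, cge_fh G c *
      (∑' p : S.P, ec (c ⬝ᵥ S.ty p) * (((S.N p : ℝ) ^ (-(1 + σ)) : ℝ) : ℂ) -
        if c = 0 then (Real.log (1 / σ) : ℂ) else 0)) (𝓝[>] 0)
      (𝓝 (∑ c, cge_fh G c * L c)) :=
    tendsto_finsetSum _ fun c _ => (hLc c).const_mul _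
  refine h1.congr' ?_
  filter_upwards [self_mem_nhdsWithin] with σ hσ
  have hσ' : (0 : ℝ) < σ := hσ
  have hs : ∀ c : S.T, Summable fun p : S.P =>
      ec (c ⬝ᵥ S.ty p) * (((S.N p : ℝ) ^ (-(1 + σ)) : ℝ) : ℂ) := by
    intro c
    refine Summable.of_norm_bounded (cge_sum S (1 + σ) (by linarith)) fun p => ?_
    rw [norm_mul, cge_ec_norm, one_mul, Complex.norm_real, Real.norm_eq_abs,
      abs_of_nonneg (cge_rp_nn S p _)]
  have h2 : ∑' p : S.P, G (S.ty p) * (((S.N p : ℝ) ^ (-(1 + σ)) : ℝ) : ℂ) =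
      ∑ c, cge_fh G c * ∑' p : S.P, ec (c ⬝ᵥ S.ty p) *
        (((S.N p : ℝ) ^ (-(1 + σ)) : ℝ) : ℂ) := by
    rw [Finset.sum_congr rfl fun c _ => (tsum_mul_left (a := cge_fh G c)).symm]
    rw [← Summable.tsum_finsetSum fun c _ => (hs c).mul_left _]
    refine tsum_congr fun p => ?_
    conv_lhs => rw [cge_inv G (S.ty p)]
    rw [Finset.sum_mul]
    refine Finset.sum_congr rfl fun c _ => ?_
    ring
  rw [h2]
  simp only [mul_sub, Finset.sum_sub_distrib, mul_ite, mul_zero, Finset.sum_ite_eq',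
    Finset.mem_univ, if_true]

open Classical in
private theorem cge_lim (h3 : SPl) {G : S.T → ℂ} {F : ℝ} (hF : ∀ t, ‖G t‖ ≤ F) {B : ℝ}
    {τ : S.P → ℝ} (hτ : S.Tk B τ) : ∃ K : ℂ, Tendsto (fun σ : ℝ =>
      cge_Z S G τ σ - cge_fh G 0 * (Real.log (1 / σ) : ℂ)) (𝓝[>] 0) (𝓝 K) := by
  obtain ⟨K1, hK1⟩ := cge_main S h3 G
  set D : ℝ → S.P → ℂ := fun σ p => (if S.rg p then cge_t S G τ σ p else 0) -
    G (S.ty p) * (((S.N p : ℝ) ^ (-(1 + σ)) : ℝ) : ℂ) with hD
  have hF0 : S.P → 0 ≤ F := fun p => (norm_nonneg _).trans (hF (S.ty p))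
  have hbd : ∀ σ : ℝ, 0 ≤ σ → ∀ p, ‖D σ p‖ ≤ F * |B| * (S.N p : ℝ) ^ (-(3 / 2) : ℝ) +
      F * (if S.rg p then 0 else (S.N p : ℝ) ^ (-(3 / 4) : ℝ)) := by
    intro σ hσ p
    by_cases hr : S.rg p
    · simp only [hD, if_pos hr, mul_zero, add_zero]
      unfold cge_t
      rw [← mul_sub, ← Complex.ofReal_sub, norm_mul, Complex.norm_real, Real.norm_eq_abs,
        mul_assoc]
      refine mul_le_mul (hF _) ?_ (abs_nonneg _) (hF0 p)
      rw [show τ p * (S.N p : ℝ) ^ (-(1 + σ)) - (S.N p : ℝ) ^ (-(1 + σ)) =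
        (τ p - 1) * (S.N p : ℝ) ^ (-(1 + σ)) by ring, abs_mul,
        abs_of_nonneg (cge_rp_nn S p (-(1 + σ)))]
      have h1 : |τ p - 1| ≤ |B| * (S.N p : ℝ) ^ (-(1 / 2) : ℝ) :=
        (hτ p).2.trans (mul_le_mul_of_nonneg_right (le_abs_self B) (cge_rp_nn S p _))
      have h2 : (S.N p : ℝ) ^ (-(1 + σ)) ≤ (S.N p : ℝ) ^ (-1 : ℝ) :=
        cge_rp_le S p (by linarith)
      calc |τ p - 1| * (S.N p : ℝ) ^ (-(1 + σ))
          ≤ (|B| * (S.N p : ℝ) ^ (-(1 / 2) : ℝ)) * (S.N p : ℝ) ^ (-1 : ℝ) :=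
            mul_le_mul h1 h2 (cge_rp_nn S p _)
              (mul_nonneg (abs_nonneg B) (cge_rp_nn S p _))
        _ = |B| * (S.N p : ℝ) ^ (-(3 / 2) : ℝ) := by
            rw [mul_assoc, ← Real.rpow_add (cge_pos S p)]
            norm_num
    · simp only [hD, if_neg hr, zero_sub, norm_neg]
      rw [norm_mul, Complex.norm_real, Real.norm_eq_abs, abs_of_nonneg (cge_rp_nn S p _)]
      have h1 : ‖G (S.ty p)‖ * (S.N p : ℝ) ^ (-(1 + σ)) ≤
          F * (S.N p : ℝ) ^ (-(3 / 4) : ℝ) :=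
        mul_le_mul (hF _) (cge_rp_le S p (by linarith)) (cge_rp_nn S p _) (hF0 p)
      have h2 : 0 ≤ F * |B| * (S.N p : ℝ) ^ (-(3 / 2) : ℝ) :=
        mul_nonneg (mul_nonneg (hF0 p) (abs_nonneg B)) (cge_rp_nn S p _)
      linarith
  have hsb : Summable fun p : S.P => F * |B| * (S.N p : ℝ) ^ (-(3 / 2) : ℝ) +
      F * (if S.rg p then 0 else (S.N p : ℝ) ^ (-(3 / 4) : ℝ)) :=
    ((cge_sum S (3 / 2) (by norm_num)).mul_left _).add ((cge_irr S).mul_left _)
  have hlim : Tendsto (fun σ : ℝ => ∑' p, D σ p) (𝓝[>] 0) (𝓝 (∑' p, D 0 p)) := by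
    refine tendsto_tsum_of_dominated_convergence hsb (fun p => ?_) ?_
    · refine Tendsto.mono_left ?_ nhdsWithin_le_nhds
      refine Tendsto.sub ?_ ?_
      · by_cases hr : S.rg p
        · simp only [if_pos hr]
          exact cge_t_cont S G τ p 0
        · simp only [if_neg hr]
          exact tendsto_const_nhds
      · exact ((Complex.continuous_ofReal.tendsto _).comp (cge_cont S p 0)).const_mul _
    · filter_upwards [self_mem_nhdsWithin] with σ hσ p
      exact hbd σ (le_of_lt hσ) p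
  refine ⟨K1 + ∑' p, D 0 p, (hK1.add hlim).congr' ?_⟩
  filter_upwards [self_mem_nhdsWithin] with σ hσ
  have hσ' : (0 : ℝ) < σ := hσ
  have hs1 := cge_Z_sum S hF hτ hσ'
  have hs2 : Summable fun p : S.P => G (S.ty p) * (((S.N p : ℝ) ^ (-(1 + σ)) : ℝ) : ℂ) := by
    refine Summable.of_norm_bounded ((cge_sum S (1 + σ) (by linarith)).mul_left F) fun p => ?_
    rw [norm_mul, Complex.norm_real, Real.norm_eq_abs, abs_of_nonneg (cge_rp_nn S p _)]
    exact mul_le_mul_of_nonneg_right (hF _) (cge_rp_nn S p _)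
  have h1 : ∑' p, D σ p = cge_Z S G τ σ -
      ∑' p : S.P, G (S.ty p) * (((S.N p : ℝ) ^ (-(1 + σ)) : ℝ) : ℂ) := hs1.tsum_sub hs2
  rw [h1]
  ring


/-! ### orbits -/

/-- orbits of the Galois group -/
private def cge_st : Setoid S.P where
  r p q := ∃ g, S.ac g p = q
  iseqv :=
    { refl := fun p => ⟨1, S.ac_one p⟩
      symm := by
        rintro p q ⟨g, rfl⟩
        exact ⟨g⁻¹, by rw [← S.ac_mul, inv_mul_cancel, S.ac_one]⟩
      trans := by
        rintro p q r ⟨g, rfl⟩ ⟨h, rfl⟩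
        exact ⟨h * g, S.ac_mul h g p⟩ }

private def cge_O : Type := Quotient (cge_st S)

private def cge_o (p : S.P) : cge_O S := Quotient.mk (cge_st S) p

private theorem cge_o_iff (p q : S.P) : cge_o S p = cge_o S q ↔ ∃ g, S.ac g p = q := by
  constructor
  · intro h
    exact Quotient.exact (s := cge_st S) h
  · intro h
    exact Quotient.sound (s := cge_st S) h

private noncomputable def cge_r (i : cge_O S) : S.P := Quotient.out i

private theorem cge_o_r (i : cge_O S) : cge_o S (cge_r S i) = i := Quotient.out_eq i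

private theorem cge_r_inj : Function.Injective (cge_r S) := fun i j h => by
  rw [← cge_o_r S i, ← cge_o_r S j, h]

open Classical in
private noncomputable def cge_fb (i : cge_O S) : Finset S.P :=
  (Finset.univ : Finset S.D).image fun g => S.ac g (cge_r S i)

private theorem cge_mem_fb {i : cge_O S} {p : S.P} : p ∈ cge_fb S i ↔ cge_o S p = i := by
  classical
  unfold cge_fb
  rw [Finset.mem_image]
  constructor
  · rintro ⟨g, -, hg⟩
    have h := (cge_o_iff S (cge_r S i) p).2 ⟨g, hg⟩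
    rw [← h, cge_o_r]
  · intro h
    obtain ⟨g, hg⟩ := (cge_o_iff S (cge_r S i) p).1 (by rw [cge_o_r, h])
    exact ⟨g, Finset.mem_univ g, hg⟩

private theorem cge_N_fb {i : cge_O S} {p : S.P} (h : p ∈ cge_fb S i) :
    S.N p = S.N (cge_r S i) := by
  classical
  unfold cge_fb at h
  obtain ⟨g, -, hg⟩ := Finset.mem_image.1 h
  rw [← hg, S.N_ac]

private theorem cge_card_fb (i : cge_O S) : (cge_fb S i).card ≤ Fintype.card S.D := by
  classical
  unfold cge_fb
  exact Finset.card_image_le.trans (by rw [Finset.card_univ])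

open Classical in
/-- the term of an orbit -/
private noncomputable def cge_z (G : S.T → ℂ) (τ : S.P → ℝ) (σ : ℝ) (i : cge_O S) : ℂ :=
  ∑' p : S.P, if cge_o S p = i ∧ S.rg p then cge_t S G τ σ p else 0

open Classical in
private theorem cge_z_eq (G : S.T → ℂ) (τ : S.P → ℝ) (σ : ℝ) (i : cge_O S) :
    cge_z S G τ σ i = ∑ p ∈ cge_fb S i, if S.rg p then cge_t S G τ σ p else 0 := by
  unfold cge_z
  rw [tsum_eq_sum (s := cge_fb S i)]
  · refine Finset.sum_congr rfl fun p hp => ?_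
    have h := (cge_mem_fb S).1 hp
    by_cases hr : S.rg p
    · rw [if_pos ⟨h, hr⟩, if_pos hr]
    · rw [if_neg (fun e => hr e.2), if_neg hr]
  · intro p hp
    exact if_neg fun e => hp ((cge_mem_fb S).2 e.1)

private theorem cge_z_le {G : S.T → ℂ} {F : ℝ} (hF0 : 0 ≤ F) (hF : ∀ t, ‖G t‖ ≤ F) {B : ℝ}
    {τ : S.P → ℝ} (hτ : S.Tk B τ) {σ : ℝ} (hσ : 0 ≤ σ) (i : cge_O S) :
    ‖cge_z S G τ σ i‖ ≤ Fintype.card S.D * (F * (1 + |B|)) *
      (S.N (cge_r S i) : ℝ) ^ (-1 : ℝ) := by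
  classical
  rw [cge_z_eq]
  have hA : 0 ≤ F * (1 + |B|) := mul_nonneg hF0 (by positivity)
  calc ‖∑ p ∈ cge_fb S i, if S.rg p then cge_t S G τ σ p else 0‖
      ≤ ∑ p ∈ cge_fb S i, F * (1 + |B|) * (S.N (cge_r S i) : ℝ) ^ (-1 : ℝ) := by
        refine norm_sum_le_of_le _ fun p hp => ?_
        have h1 : (S.N p : ℝ) ^ (-(1 + σ)) ≤ (S.N (cge_r S i) : ℝ) ^ (-1 : ℝ) := by
          rw [← cge_N_fb S hp]
          exact cge_rp_le S p (by linarith)
        split_ifs
        · exact (cge_t_le S hF hτ σ p).trans (mul_le_mul_of_nonneg_left h1 hA)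
        · rw [norm_zero]
          exact mul_nonneg hA (cge_rp_nn S _ _)
    _ = (cge_fb S i).card * (F * (1 + |B|) * (S.N (cge_r S i) : ℝ) ^ (-1 : ℝ)) := by
        rw [Finset.sum_const, nsmul_eq_mul]
    _ ≤ Fintype.card S.D * (F * (1 + |B|) * (S.N (cge_r S i) : ℝ) ^ (-1 : ℝ)) :=
        mul_le_mul_of_nonneg_right (by exact_mod_cast cge_card_fb S i)
          (mul_nonneg hA (cge_rp_nn S _ _))
    _ = _ := by ring

private theorem cge_z_cont (G : S.T → ℂ) (τ : S.P → ℝ) (i : cge_O S) (σ₀ : ℝ) :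
    Tendsto (fun σ : ℝ => cge_z S G τ σ i) (𝓝 σ₀) (𝓝 (cge_z S G τ σ₀ i)) := by
  classical
  simp only [cge_z_eq]
  refine tendsto_finsetSum _ fun p _ => ?_
  by_cases hr : S.rg p
  · simp only [if_pos hr]
    exact cge_t_cont S G τ p σ₀
  · simp only [if_neg hr]
    exact tendsto_const_nhds

private theorem cge_z_hs {G : S.T → ℂ} {F : ℝ} (hF : ∀ t, ‖G t‖ ≤ F) {B : ℝ} {τ : S.P → ℝ}
    (hτ : S.Tk B τ) {σ : ℝ} (hσ : 0 < σ) : HasSum (cge_z S G τ σ) (cge_Z S G τ σ) := by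
  classical
  have h1 := (cge_Z_sum S hF hτ hσ).hasSum
  have h2 := h1.tsum_fiberwise (cge_o S)
  have h3 : (fun c : cge_O S => ∑' b : cge_o S ⁻¹' {c},
      if S.rg (b : S.P) then cge_t S G τ σ b else 0) = cge_z S G τ σ := by
    funext i
    rw [tsum_subtype (cge_o S ⁻¹' {i}) fun p => if S.rg p then cge_t S G τ σ p else 0]
    unfold cge_z
    refine tsum_congr fun p => ?_
    unfold Set.indicator
    by_cases h : cge_o S p = i
    · by_cases hr : S.rg p
      · simp [h, hr]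
      · simp [h, hr]
    · simp [h]
  rw [h3] at h2
  exact h2

/-! ### the canonical factors -/

private noncomputable def cge_E (z : ℂ) : ℂ := (1 + z) * Complex.exp (-z) - 1

private theorem cge_E_cont : Continuous cge_E := by
  unfold cge_E
  fun_prop

private theorem cge_E_le {R : ℝ} {z : ℂ} (hz : ‖z‖ ≤ R) :
    ‖cge_E z‖ ≤ ((1 + R) * Real.exp R + 1) * ‖z‖ ^ 2 := by
  have h1 := Complex.norm_exp_sub_sum_le_norm_mul_exp (-z) 2
  simp only [Finset.sum_range_succ, Finset.sum_range_zero, pow_zero, Nat.factorial_zero,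
    Nat.cast_one, div_one, zero_add, pow_one, Nat.factorial_one, norm_neg] at h1
  have h2 : cge_E z = (1 + z) * (Complex.exp (-z) - (1 + -z)) - z ^ 2 := by
    unfold cge_E
    ring
  have hR : 0 ≤ R := (norm_nonneg z).trans hz
  have h3 : Real.exp ‖z‖ ≤ Real.exp R := Real.exp_le_exp.2 hz
  have h4 : ‖(1 : ℂ) + z‖ ≤ 1 + R := by
    refine (norm_add_le _ _).trans ?_
    rw [norm_one]
    linarith
  calc ‖cge_E z‖ ≤ ‖(1 + z) * (Complex.exp (-z) - (1 + -z))‖ + ‖z ^ 2‖ := by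
        rw [h2]
        exact norm_sub_le _ _
    _ ≤ (1 + R) * (‖z‖ ^ 2 * Real.exp R) + ‖z‖ ^ 2 := by
        rw [norm_mul, norm_pow]
        have h5 : ‖Complex.exp (-z) - (1 + -z)‖ ≤ ‖z‖ ^ 2 * Real.exp R :=
          h1.trans (mul_le_mul_of_nonneg_left h3 (by positivity))
        have h6 := mul_le_mul h4 h5 (norm_nonneg _) (by linarith)
        linarith
    _ = _ := by ring

private theorem cge_prod {G : S.T → ℂ} {F : ℝ} (hF0 : 0 ≤ F) (hF : ∀ t, ‖G t‖ ≤ F) {B : ℝ}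
    {τ : S.P → ℝ} (hτ : S.Tk B τ) :
    (∀ σ : ℝ, 0 < σ → ∏' i : cge_O S, (1 + cge_z S G τ σ i) =
      Complex.exp (cge_Z S G τ σ) * ∏' i : cge_O S, (1 + cge_E (cge_z S G τ σ i))) ∧
    Tendsto (fun σ : ℝ => ∏' i : cge_O S, (1 + cge_E (cge_z S G τ σ i))) (𝓝[>] 0)
      (𝓝 (∏' i : cge_O S, (1 + cge_E (cge_z S G τ 0 i)))) ∧
    ((∀ i, 1 + cge_z S G τ 0 i ≠ 0) → ∏' i : cge_O S, (1 + cge_E (cge_z S G τ 0 i)) ≠ 0) := by
  set A : ℝ := Fintype.card S.D * (F * (1 + |B|)) with hA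
  have hA0 : 0 ≤ A := mul_nonneg (Nat.cast_nonneg _) (mul_nonneg hF0 (by positivity))
  set bd : cge_O S → ℝ := fun i => ((1 + A) * Real.exp A + 1) * A ^ 2 *
    (S.N (cge_r S i) : ℝ) ^ (-2 : ℝ) with hbd
  have hbs : Summable bd := by
    have h1 := (cge_sum S 2 (by norm_num)).comp_injective (cge_r_inj S)
    exact h1.mul_left _
  have hb : ∀ σ : ℝ, 0 ≤ σ → ∀ i, ‖cge_E (cge_z S G τ σ i)‖ ≤ bd i := by
    intro σ hσ i
    have h1 := cge_z_le S hF0 hF hτ hσ i
    rw [← hA] at h1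
    have h2 : (S.N (cge_r S i) : ℝ) ^ (-1 : ℝ) ≤ 1 := cge_rp_le_one S _ (by norm_num)
    have h3 : ‖cge_z S G τ σ i‖ ≤ A := h1.trans (mul_le_of_le_one_right hA0 h2)
    refine (cge_E_le h3).trans ?_
    have h4 : ‖cge_z S G τ σ i‖ ^ 2 ≤ (A * (S.N (cge_r S i) : ℝ) ^ (-1 : ℝ)) ^ 2 :=
      pow_le_pow_left₀ (norm_nonneg _) h1 2
    have h5 : (A * (S.N (cge_r S i) : ℝ) ^ (-1 : ℝ)) ^ 2 =
        A ^ 2 * (S.N (cge_r S i) : ℝ) ^ (-2 : ℝ) := by
      rw [mul_pow, ← Real.rpow_natCast ((S.N (cge_r S i) : ℝ) ^ (-1 : ℝ)) 2,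
        ← Real.rpow_mul (cge_pos S _).le]
      norm_num
    rw [h5] at h4
    have h6 : 0 ≤ (1 + A) * Real.exp A + 1 := by positivity
    calc ((1 + A) * Real.exp A + 1) * ‖cge_z S G τ σ i‖ ^ 2
        ≤ ((1 + A) * Real.exp A + 1) * (A ^ 2 * (S.N (cge_r S i) : ℝ) ^ (-2 : ℝ)) :=
          mul_le_mul_of_nonneg_left h4 h6
      _ = bd i := by rw [hbd]; ring
  have hns : ∀ σ : ℝ, 0 ≤ σ → Summable fun i => ‖cge_E (cge_z S G τ σ i)‖ := fun σ hσ =>
    Summable.of_nonneg_of_le (fun _ => norm_nonneg _) (hb σ hσ) hbs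
  refine ⟨fun σ hσ => ?_, ?_, fun hne => ?_⟩
  · have h1 : HasProd (fun i => Complex.exp (cge_z S G τ σ i)) (Complex.exp (cge_Z S G τ σ)) :=
      (cge_z_hs S hF hτ hσ).cexp
    have h2 : Multipliable fun i => 1 + cge_E (cge_z S G τ σ i) :=
      multipliable_one_add_of_summable (hns σ hσ.le)
    rw [← h1.tprod_eq, ← h1.multipliable.tprod_mul h2]
    refine tprod_congr fun i => ?_
    unfold cge_E
    rw [add_sub_cancel, mul_comm (1 + cge_z S G τ σ i), ← mul_assoc, ← Complex.exp_add,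
      add_neg_cancel, Complex.exp_zero, one_mul]
  · refine tendsto_tprod_one_add_of_dominated_convergence hbs (fun i => ?_) ?_
    · refine Tendsto.mono_left ?_ nhdsWithin_le_nhds
      exact (cge_E_cont.tendsto _).comp (cge_z_cont S G τ i 0)
    · filter_upwards [self_mem_nhdsWithin] with σ hσ i
      exact hb σ (le_of_lt hσ) i
  · refine tprod_one_add_ne_zero_of_summable (fun i => ?_) (hns 0 le_rfl)
    unfold cge_E
    rw [add_sub_cancel]
    exact mul_ne_zero (hne i) (Complex.exp_ne_zero _)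

end

/-! ### the limits -/

private theorem cge_log_top : Tendsto (fun σ : ℝ => Real.log (1 / σ)) (𝓝[>] 0) atTop := by
  have h : Tendsto (fun σ : ℝ => 1 / σ) (𝓝[>] 0) atTop := by
    simp only [one_div]
    exact tendsto_inv_nhdsGT_zero
  exact Real.tendsto_log_atTop.comp h

private theorem cge_pow (b : ℕ) {σ : ℝ} (hσ : 0 < σ) :
    σ ^ b = Real.exp (-(b * Real.log (1 / σ))) := by
  rw [one_div, Real.log_inv, mul_neg, neg_neg, ← Real.log_pow, Real.exp_log (pow_pos hσ b)]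

private theorem cge_powc (b : ℕ) {σ : ℝ} (hσ : 0 < σ) :
    ((σ ^ b : ℝ) : ℂ) = Complex.exp (-((b : ℂ) * (Real.log (1 / σ) : ℂ))) := by
  rw [cge_pow b hσ]
  push_cast
  rfl

theorem sge1 (h1 : SGs1) (h2 : SGs2) (h3 : SPl) : SGE1 := by
  classical
  intro l _ S ι _ f B τ b hτ
  set G : S.T → ℂ := fun t => ∑ u, f u t with hGdef
  set F : ℝ := ∑ u, ∑ t, ‖f u t‖ with hFdef
  have hf : ∀ u t, ‖f u t‖ ≤ F := fun u t =>
    (Finset.single_le_sum (f := fun t => ‖f u t‖) (fun t _ => norm_nonneg _)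
      (Finset.mem_univ t)).trans
      (Finset.single_le_sum (f := fun u => ∑ t, ‖f u t‖)
        (fun u _ => Finset.sum_nonneg fun t _ => norm_nonneg _) (Finset.mem_univ u))
  have hG : ∀ t, ‖G t‖ ≤ F := fun t =>
    (norm_sum_le _ _).trans (Finset.sum_le_sum fun u _ =>
      Finset.single_le_sum (f := fun t => ‖f u t‖) (fun t _ => norm_nonneg _)
        (Finset.mem_univ t))
  have hF0 : 0 ≤ F := Finset.sum_nonneg fun u _ => Finset.sum_nonneg fun t _ => norm_nonneg _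
  have hmu : S.mu f = cge_fh G 0 := by
    rw [cge_fh_zero]
    unfold SysL.mu
    rw [← Finset.mul_sum, Finset.sum_comm]
  have hw : ∀ σ u p, ‖cge_t S (f u) τ σ p‖ ≤ F * (1 + |B|) * (S.N p : ℝ) ^ (-(1 + σ)) :=
    fun σ u p => cge_t_le S (hf u) hτ σ p
  have hsw : ∀ σ p, ∑ u, cge_t S (f u) τ σ p = cge_t S G τ σ p := by
    intro σ p
    unfold cge_t
    rw [← Finset.sum_mul]
  have hGE : ∀ σ : ℝ, S.GE (fun _ => 1) f τ (1 + σ) =
      ∑' x : ι → Finset S.P, (if S.Gd x then ∏ u, ∏ p ∈ x u, cge_t S (f u) τ σ p else 0) := by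
    intro σ
    unfold SysL.GE cge_t
    refine tsum_congr fun x => ?_
    by_cases hx : S.Gd x
    · rw [if_pos hx, if_pos hx]
      push_cast
      rw [one_mul]
    · rw [if_neg hx, if_neg hx]
  have ha : ∀ σ : ℝ, 0 < σ → Summable fun p : S.P => F * (1 + |B|) * (S.N p : ℝ) ^ (-(1 + σ)) :=
    fun σ hσ => (cge_sum S (1 + σ) (by linarith)).mul_left _
  obtain ⟨K, hK⟩ := cge_lim S h3 hG hτ
  obtain ⟨P1, P2, P3⟩ := cge_prod S hF0 hG hτ
  have hval : ∀ σ : ℝ, 0 < σ → S.GE (fun _ => 1) f τ (1 + σ) =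
      Complex.exp (cge_Z S G τ σ) * ∏' i : cge_O S, (1 + cge_E (cge_z S G τ σ i)) := by
    intro σ hσ
    rw [hGE, ← P1 σ hσ, h2 l S ι (fun u p => cge_t S (f u) τ σ p) _ (hw σ) (ha σ hσ)
      (cge_O S) (cge_o S) (cge_o_iff S)]
    refine tprod_congr fun i => ?_
    congr 1
    unfold cge_z
    refine tsum_congr fun p => ?_
    rw [hsw]
  have hlim : S.mu f = b → Tendsto (fun σ : ℝ => ((σ ^ b : ℝ) : ℂ) *
      S.GE (fun _ => 1) f τ (1 + σ)) (𝓝[>] 0)
      (𝓝 (Complex.exp K * ∏' i : cge_O S, (1 + cge_E (cge_z S G τ 0 i)))) := by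
    intro hb
    have e1 := ((Complex.continuous_exp.tendsto K).comp hK).mul P2
    refine e1.congr' ?_
    filter_upwards [self_mem_nhdsWithin] with σ hσ
    have hσ' : (0 : ℝ) < σ := hσ
    rw [hval σ hσ', ← mul_assoc, cge_powc b hσ', ← Complex.exp_add, Function.comp_apply, ← hmu, hb]
    congr 2
    ring
  refine ⟨fun hb => ?_, fun hb => ⟨_, hlim hb⟩, fun hb hr => ?_⟩
  · -- the bound
    set A2 : ℝ := ∑' p : S.P, (F * (1 + |B|) * (S.N p : ℝ) ^ (-1 : ℝ)) ^ 2 with hA2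
    set c : ℝ := ((Fintype.card ι : ℝ) * Fintype.card S.D) ^ 2 with hc
    have hc0 : 0 ≤ c := sq_nonneg _
    have hA0 : 0 ≤ F * (1 + |B|) := mul_nonneg hF0 (by positivity)
    have hs2 : Summable fun p : S.P => (F * (1 + |B|) * (S.N p : ℝ) ^ (-1 : ℝ)) ^ 2 := by
      have e := (cge_sum S 2 (by norm_num)).mul_left ((F * (1 + |B|)) ^ 2)
      refine e.congr fun p => ?_
      rw [mul_pow (F * (1 + |B|)) ((S.N p : ℝ) ^ (-1 : ℝ)) 2, ← Real.rpow_natCast ((S.N p : ℝ) ^ (-1 : ℝ)) 2,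
        ← Real.rpow_mul (cge_pos S _).le]
      norm_num
    have hbd : ∀ σ : ℝ, 0 < σ → ‖S.GE (fun _ => 1) f τ (1 + σ)‖ ≤
        Real.exp ((cge_Z S G τ σ).re + c * A2) := by
      intro σ hσ
      have e1 := (h1 l S ι (fun u p => cge_t S (f u) τ σ p) _ ∅
        (fun g p hp => absurd hp (Finset.notMem_empty p)) (hw σ) (ha σ hσ)).2
      have e2 : ∑' x : ι → Finset S.P, (if S.Gd x ∧ S.Off ∅ x then
          ∏ u, ∏ p ∈ x u, cge_t S (f u) τ σ p else 0) = S.GE (fun _ => 1) f τ (1 + σ) := by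
        rw [hGE]
        refine tsum_congr fun x => ?_
        have hoff : S.Off ∅ x := fun u => Finset.disjoint_empty_right _
        by_cases hx : S.Gd x
        · rw [if_pos ⟨hx, hoff⟩, if_pos hx]
        · rw [if_neg (fun h => hx h.1), if_neg hx]
      rw [e2] at e1
      refine e1.trans (Real.exp_le_exp.2 ?_)
      have e3 : ∑' p : S.P, (if S.rg p ∧ p ∉ (∅ : Finset S.P) then
          ∑ u, (cge_t S (f u) τ σ p).re else 0) = (cge_Z S G τ σ).re := by
        unfold cge_Z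
        rw [Complex.re_tsum (cge_Z_sum S hG hτ hσ)]
        refine tsum_congr fun p => ?_
        by_cases hr : S.rg p
        · rw [if_pos ⟨hr, Finset.notMem_empty p⟩, if_pos hr, ← hsw, Complex.re_sum]
        · rw [if_neg (fun h => hr h.1), if_neg hr, Complex.zero_re]
      rw [e3]
      have e4 : ∑' p : S.P, (F * (1 + |B|) * (S.N p : ℝ) ^ (-(1 + σ))) ^ 2 ≤ A2 := by
        have e5 : ∀ p : S.P, (F * (1 + |B|) * (S.N p : ℝ) ^ (-(1 + σ))) ^ 2 ≤
            (F * (1 + |B|) * (S.N p : ℝ) ^ (-1 : ℝ)) ^ 2 := fun p =>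
          pow_le_pow_left₀ (mul_nonneg hA0 (cge_rp_nn S p _))
            (mul_le_mul_of_nonneg_left (cge_rp_le S p (by linarith)) hA0) 2
        exact (Summable.of_nonneg_of_le (fun p => sq_nonneg _) e5 hs2).tsum_le_tsum e5 hs2
      have e6 := mul_le_mul_of_nonneg_left e4 hc0
      linarith
    have hre : Tendsto (fun σ : ℝ => (cge_Z S G τ σ - cge_fh G 0 * (Real.log (1 / σ) : ℂ)).re)
        (𝓝[>] 0) (𝓝 K.re) := (Complex.continuous_re.tendsto K).comp hK
    have hev := hre.eventually (gt_mem_nhds (lt_add_one K.re))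
    have hto : Tendsto (fun σ : ℝ => Real.exp (K.re + 1 + c * A2) *
        Real.exp (((S.mu f).re - b) * Real.log (1 / σ))) (𝓝[>] 0) (𝓝 0) := by
      have e1 : Tendsto (fun σ : ℝ => ((S.mu f).re - b) * Real.log (1 / σ)) (𝓝[>] 0) atBot :=
        cge_log_top.const_mul_atTop_of_neg (by linarith)
      have e2 := (Real.tendsto_exp_atBot.comp e1).const_mul (Real.exp (K.re + 1 + c * A2))
      rw [mul_zero] at e2
      exact e2
    refine squeeze_zero_norm' ?_ hto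
    filter_upwards [hev, self_mem_nhdsWithin] with σ hσ1 hσ
    have hσ' : (0 : ℝ) < σ := hσ
    rw [norm_mul, Complex.norm_real, Real.norm_eq_abs, abs_of_pos (pow_pos hσ' b),
      cge_pow b hσ']
    have e1 := mul_le_mul_of_nonneg_left (hbd σ hσ')
      (Real.exp_pos (-(b * Real.log (1 / σ)))).le
    refine e1.trans ?_
    rw [← Real.exp_add, ← Real.exp_add]
    apply Real.exp_le_exp.2
    rw [← hmu, Complex.sub_re, Complex.re_mul_ofReal] at hσ1
    linarith
  · -- positivity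
    choose r hr0 hr using hr
    set L : ℂ := Complex.exp K * ∏' i : cge_O S, (1 + cge_E (cge_z S G τ 0 i)) with hL
    have hGr : ∀ t, G t = ((∑ u, r u t : ℝ) : ℂ) := by
      intro t
      rw [hGdef]
      push_cast
      exact Finset.sum_congr rfl fun u _ => hr u t
    have hL0 : L ≠ 0 := by
      refine mul_ne_zero (Complex.exp_ne_zero _) (P3 fun i => ?_)
      have e1 : cge_z S G τ 0 i = ((∑ p ∈ cge_fb S i, if S.rg p then
          (∑ u, r u (S.ty p)) * (τ p * (S.N p : ℝ) ^ (-(1 + (0 : ℝ)))) else 0 : ℝ) : ℂ) := by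
        rw [cge_z_eq, Complex.ofReal_sum]
        refine Finset.sum_congr rfl fun p _ => ?_
        by_cases h : S.rg p
        · rw [if_pos h, if_pos h]
          unfold cge_t
          rw [hGr, ← Complex.ofReal_mul]
        · rw [if_neg h, if_neg h, Complex.ofReal_zero]
      rw [e1, ← Complex.ofReal_one, ← Complex.ofReal_add]
      refine Complex.ofReal_ne_zero.2 (ne_of_gt ?_)
      refine add_pos_of_pos_of_nonneg one_pos (Finset.sum_nonneg fun p _ => ?_)
      split_ifs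
      · exact mul_nonneg (Finset.sum_nonneg fun u _ => hr0 u _)
          (mul_nonneg (hτ p).1 (cge_rp_nn S p _))
      · exact le_rfl
    have hreal : ∀ σ : ℝ, 0 < σ → ∃ y : ℝ, 0 ≤ y ∧
        ((σ ^ b : ℝ) : ℂ) * S.GE (fun _ => 1) f τ (1 + σ) = (y : ℂ) := by
      intro σ hσ
      refine ⟨σ ^ b * ∑' x : ι → Finset S.P, (if S.Gd x then
        ∏ u, ∏ p ∈ x u, (r u (S.ty p) * (τ p * (S.N p : ℝ) ^ (-(1 + σ)))) else 0), ?_, ?_⟩
      · refine mul_nonneg (pow_pos hσ b).le (tsum_nonneg fun x => ?_)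
        split_ifs
        · exact Finset.prod_nonneg fun u _ => Finset.prod_nonneg fun p _ =>
            mul_nonneg (hr0 u _) (mul_nonneg (hτ p).1 (cge_rp_nn S p _))
        · exact le_rfl
      · rw [hGE, Complex.ofReal_mul, Complex.ofReal_tsum]
        congr 1
        refine tsum_congr fun x => ?_
        by_cases hx : S.Gd x
        · rw [if_pos hx, if_pos hx, Complex.ofReal_prod]
          refine Finset.prod_congr rfl fun u _ => ?_
          rw [Complex.ofReal_prod]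
          refine Finset.prod_congr rfl fun p _ => ?_
          unfold cge_t
          rw [hr u, ← Complex.ofReal_mul]
        · rw [if_neg hx, if_neg hx, Complex.ofReal_zero]
    have hlimL := hlim hb
    have him : Tendsto (fun σ : ℝ => (((σ ^ b : ℝ) : ℂ) *
        S.GE (fun _ => 1) f τ (1 + σ)).im) (𝓝[>] 0) (𝓝 L.im) :=
      (Complex.continuous_im.tendsto L).comp hlimL
    have hre : Tendsto (fun σ : ℝ => (((σ ^ b : ℝ) : ℂ) *
        S.GE (fun _ => 1) f τ (1 + σ)).re) (𝓝[>] 0) (𝓝 L.re) :=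
      (Complex.continuous_re.tendsto L).comp hlimL
    have him0 : L.im = 0 := by
      refine tendsto_nhds_unique him ?_
      refine (tendsto_const_nhds (x := (0 : ℝ))).congr' ?_
      filter_upwards [self_mem_nhdsWithin] with σ hσ
      obtain ⟨y, -, hy⟩ := hreal σ hσ
      rw [hy, Complex.ofReal_im]
    have hre0 : 0 ≤ L.re := by
      refine ge_of_tendsto hre ?_
      filter_upwards [self_mem_nhdsWithin] with σ hσ
      obtain ⟨y, hy0, hy⟩ := hreal σ hσ
      rw [hy, Complex.ofReal_re]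
      exact hy0
    have hLr : L = (L.re : ℂ) := Complex.ext rfl (by rw [him0, Complex.ofReal_im])
    refine ⟨L.re, lt_of_le_of_ne hre0 fun h => hL0 ?_, ?_⟩
    · rw [hLr, ← h, Complex.ofReal_zero]
    · rw [← hLr]
      exact hlimL

end Pool.Agent.H92.EL
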