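import Pool.Agent.H92.EL.CStm

/-!
# Project ELL (MP_a3214d), block C, row C20: factorisation of the local factors
-/

set_option autoImplicit false

open scoped BigOperators Topology
open Filter

namespace Pool.Agent.H92.EL

theorem gfac_add {l : ℕ} [NeZero l] (a b : ZMod l) : ec (a + b) = ec a * ec b :=
  AddChar.map_add_eq_mul _ a b

theorem gfac_zero {l : ℕ} [NeZero l] : ec (0 : ZMod l) = 1 := AddChar.map_zero_eq_one _

theorem gfac_one {l : ℕ} [NeZero l] (a : ZMod l) (h : ec a = 1) : a = 0 := by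
  apply ZMod.injective_stdAddChar (N := l)
  rw [AddChar.map_zero_eq_one]
  exact h

open Classical in
/-- the sum of a character over a finite subgroup -/
theorem gfac_sum {l : ℕ} [NeZero l] {G : Type} [AddCommGroup G] (A : Finset G) (f : G → ZMod l)
    (hf : ∀ x ∈ A, ∀ y ∈ A, f (x + y) = f x + f y) (hA : ∀ x ∈ A, ∀ y ∈ A, x + y ∈ A)
    (hn : ∀ x ∈ A, -x ∈ A) :
    ∑ x ∈ A, ec (f x) = if ∀ x ∈ A, f x = 0 then (A.card : ℂ) else 0 := by
  split_ifs with h
  · rw [Finset.sum_congr rfl fun x hx => by rw [h x hx, gfac_zero], Finset.sum_const,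
      nsmul_eq_mul, mul_one]
  · push Not at h
    obtain ⟨x1, hx1, h1⟩ := h
    have h2 : ∑ x ∈ A, ec (f x) = ∑ x ∈ A, ec (f (x + x1)) := by
      symm
      refine Finset.sum_bij' (fun x _ => x + x1) (fun x _ => x + -x1)
        (fun x hx => hA x hx x1 hx1) (fun x hx => hA x hx _ (hn x1 hx1)) ?_ ?_ ?_
      · intro x _
        simp
      · intro x _
        simp
      · intro x _
        rfl
    have h3 : ∑ x ∈ A, ec (f (x + x1)) = (∑ x ∈ A, ec (f x)) * ec (f x1) := by
      rw [Finset.sum_mul]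
      refine Finset.sum_congr rfl fun x hx => ?_
      rw [hf x hx x1 hx1, gfac_add]
    rw [h3] at h2
    have h4 : (∑ x ∈ A, ec (f x)) * (1 - ec (f x1)) = 0 := by linear_combination h2
    rcases mul_eq_zero.1 h4 with h5 | h5
    · exact h5
    · exact absurd (gfac_one _ (sub_eq_zero.1 h5).symm) h1

section

variable {l : ℕ} [Fact l.Prime] (S : SysL l) {d n : ℕ} (Bd : SysL.BD l d n)
  (c : SysL.VV l d → SysL.VV l n → S.T)

open Classical in
/-- the dual vectors orthogonal to the values at `v` -/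
noncomputable def gfN (v : SysL.VV l d) : Finset (SysL.VV l n) :=
  Finset.univ.filter fun ζ => ∀ w, ζ ⬝ᵥ Bd.B w v = 0

theorem gfac_memN {v : SysL.VV l d} {ζ : SysL.VV l n} :
    ζ ∈ gfN Bd v ↔ ∀ w, ζ ⬝ᵥ Bd.B w v = 0 := by
  classical
  unfold gfN
  rw [Finset.mem_filter]
  exact ⟨fun h => h.2, fun h => ⟨Finset.mem_univ _, h⟩⟩

open Classical in
/-- the weight -/
noncomputable def gfW (v : SysL.VV l d) (t : S.T) : ℝ :=
  if ∀ ζ ∈ gfN Bd v, c v ζ ⬝ᵥ t = 0 then ((gfN Bd v).card : ℝ) else 0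

open Classical in
/-- a representative of a form at `v` -/
noncomputable def gfZ (ψ : SysL.VV l d → SysL.VV l d → ZMod l) (v : SysL.VV l d) :
    SysL.VV l n :=
  if h : ∃ ζ : SysL.VV l n, ∀ w, ψ w v = ζ ⬝ᵥ Bd.B w v then h.choose else 0

theorem gfac_Z {ψ : SysL.VV l d → SysL.VV l d → ZMod l} {v : SysL.VV l d}
    (h : ∃ ζ : SysL.VV l n, ∀ w, ψ w v = ζ ⬝ᵥ Bd.B w v) (w : SysL.VV l d) :
    ψ w v = gfZ Bd ψ v ⬝ᵥ Bd.B w v := by
  classical
  unfold gfZ
  rw [dif_pos h]
  exact h.choose_spec w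

theorem gfac_card (v : SysL.VV l d) : 0 < (gfN Bd v).card := by
  refine Finset.card_pos.2 ⟨0, (gfac_memN Bd).2 fun w => ?_⟩
  rw [zero_dotProduct]

theorem gfac_W (hc : ∀ v ζ ζ', c v (ζ + ζ') = c v ζ + c v ζ') (v : SysL.VV l d) (t : S.T) :
    ∑ ζ ∈ gfN Bd v, ec (c v ζ ⬝ᵥ t) = (gfW S Bd c v t : ℂ) := by
  classical
  rw [gfac_sum (gfN Bd v) (fun ζ => c v ζ ⬝ᵥ t)]
  · unfold gfW
    split_ifs <;> push_cast <;> rfl
  · intro x _ y _
    show c v (x + y) ⬝ᵥ t = _
    rw [hc, add_dotProduct]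
  · intro x hx y hy
    rw [gfac_memN] at hx hy ⊢
    intro w
    rw [add_dotProduct, hx, hy, add_zero]
  · intro x hx
    rw [gfac_memN] at hx ⊢
    intro w
    rw [neg_dotProduct, hx, neg_zero]

end

/-- Row C20: factorisation of the local factors -/
theorem sgfac : SGfac := by
  classical
  intro l _ S d n Bd c hc
  have hc0 : ∀ v, c v 0 = 0 := by
    intro v
    have h := hc v 0 0
    rw [add_zero] at h
    exact add_eq_left.mp h.symm
  have hcn : ∀ v ζ, c v (-ζ) = -c v ζ := by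
    intro v ζ
    have h := hc v ζ (-ζ)
    rw [add_neg_cancel, hc0] at h
    exact (neg_eq_of_add_eq_zero_right h.symm).symm
  refine ⟨gfW S Bd c, fun ψ v t => c v (gfZ Bd ψ v) ⬝ᵥ t, ?_, ?_, ?_, ?_, ?_, ?_, ?_⟩
  · intro v t
    unfold gfW
    split_ifs
    · exact Nat.cast_nonneg _
    · exact le_rfl
  · intro v
    unfold gfW
    rw [if_pos fun ζ _ => dotProduct_zero _]
    exact_mod_cast gfac_card Bd v
  · intro v
    have hl : (l : ℝ) ≠ 0 := by exact_mod_cast (Fact.out : l.Prime).ne_zero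
    have h1 : ∑ t : S.T, (gfW S Bd c v t : ℂ) = (l : ℂ) ^ S.m * (S.nv Bd (S.cT c) v : ℂ) := by
      have e1 : ∑ t : S.T, (gfW S Bd c v t : ℂ) =
          ∑ ζ ∈ gfN Bd v, ∑ t : S.T, ec (c v ζ ⬝ᵥ t) := by
        rw [Finset.sum_comm]
        exact Finset.sum_congr rfl fun t _ => (gfac_W S Bd c hc v t).symm
      have e2 : ∀ ζ : SysL.VV l n, ∑ t : S.T, ec (c v ζ ⬝ᵥ t) =
          if c v ζ = 0 then (l : ℂ) ^ S.m else 0 := by
        intro ζ
        rw [gfac_sum Finset.univ (fun t : S.T => c v ζ ⬝ᵥ t) (fun x _ y _ => dotProduct_add _ _ _)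
          (fun _ _ _ _ => Finset.mem_univ _) (fun _ _ => Finset.mem_univ _)]
        have e3 : (∀ t ∈ (Finset.univ : Finset S.T), c v ζ ⬝ᵥ t = 0) ↔ c v ζ = 0 := by
          constructor
          · intro h
            funext i
            have h2 := h (Pi.single i 1) (Finset.mem_univ _)
            rwa [dotProduct_single, mul_one] at h2
          · intro h t _
            rw [h, zero_dotProduct]
        have e4 : ((Finset.univ : Finset S.T).card : ℂ) = (l : ℂ) ^ S.m := by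
          rw [Finset.card_univ, Fintype.card_fun, ZMod.card, Fintype.card_fin]
          push_cast
          rfl
        by_cases h : c v ζ = 0
        · rw [if_pos (e3.2 h), if_pos h, e4]
        · rw [if_neg fun h' => h (e3.1 h'), if_neg h]
      rw [e1, Finset.sum_congr rfl fun ζ _ => e2 ζ, ← Finset.sum_filter, Finset.sum_const,
        nsmul_eq_mul, mul_comm]
      congr 1
      unfold SysL.nv
      norm_cast
      congr 1
      ext ζ
      rw [Finset.mem_filter, gfac_memN, Finset.mem_filter]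
      unfold SysL.cT
      constructor
      · rintro ⟨h1, h2⟩
        exact ⟨Finset.mem_univ _, by rw [h2]; rfl, h1⟩
      · rintro ⟨-, h1, h2⟩
        exact ⟨h2, congrArg Prod.fst h1⟩
    have h2 : ∑ t : S.T, gfW S Bd c v t = (l : ℝ) ^ S.m * (S.nv Bd (S.cT c) v : ℝ) := by
      have h3 : ((∑ t : S.T, gfW S Bd c v t : ℝ) : ℂ) =
          (((l : ℝ) ^ S.m * (S.nv Bd (S.cT c) v : ℝ) : ℝ) : ℂ) := by
        push_cast
        exact h1
      exact_mod_cast h3
    rw [h2, one_div, inv_mul_cancel_left₀ (pow_ne_zero _ hl)]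
  · intro ψ hψ v t
    have hz := gfac_Z Bd (hψ.rep v)
    rw [← gfac_W S Bd c hc v t, Finset.sum_mul]
    unfold SysL.gψ
    refine Finset.sum_bij' (fun ζ _ => ζ - gfZ Bd ψ v) (fun ζ _ => ζ + gfZ Bd ψ v) ?_ ?_ ?_ ?_ ?_
    · intro ζ hζ
      rw [Finset.mem_filter] at hζ
      rw [gfac_memN]
      intro w
      rw [sub_dotProduct, hζ.2, hz, sub_self]
    · intro ζ hζ
      rw [gfac_memN] at hζ
      rw [Finset.mem_filter]
      refine ⟨Finset.mem_univ _, fun w => ?_⟩
      rw [add_dotProduct, hζ, zero_add, hz]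
    · intro ζ _
      exact sub_add_cancel _ _
    · intro ζ _
      exact add_sub_cancel_right _ _
    · intro ζ _
      rw [← gfac_add, ← add_dotProduct, ← hc, sub_add_cancel]
  · intro ψ ψ' hψ hψ' v t hw
    have hz := gfac_Z Bd (hψ.rep v)
    have hz' := gfac_Z Bd (hψ'.rep v)
    have hex : ∃ ζ : SysL.VV l n, ∀ w, (ψ + ψ') w v = ζ ⬝ᵥ Bd.B w v := by
      refine ⟨gfZ Bd ψ v + gfZ Bd ψ' v, fun w => ?_⟩
      rw [add_dotProduct, ← hz, ← hz']
      rfl
    have hz2 := gfac_Z Bd hex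
    have hall : ∀ ζ ∈ gfN Bd v, c v ζ ⬝ᵥ t = 0 := by
      by_contra h
      apply hw
      unfold gfW
      rw [if_neg h]
    have hmem : gfZ Bd (ψ + ψ') v + -(gfZ Bd ψ v + gfZ Bd ψ' v) ∈ gfN Bd v := by
      rw [gfac_memN]
      intro w
      rw [add_dotProduct, neg_dotProduct, add_dotProduct, ← hz, ← hz', ← hz2]
      exact add_neg_cancel _
    have h1 := hall _ hmem
    rw [hc, hcn, hc, add_dotProduct, neg_dotProduct, add_dotProduct] at h1
    exact add_neg_eq_zero.1 h1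
  · intro ψ _ v
    exact dotProduct_zero _
  · intro v t w0 h
    refine ⟨?_, fun ψ hψ => ?_⟩
    · unfold gfW
      rw [if_pos fun ζ hζ => by rw [h ζ]; exact (gfac_memN Bd).1 hζ w0]
      exact_mod_cast (gfac_card Bd v).ne'
    · show c v (gfZ Bd ψ v) ⬝ᵥ t = ψ w0 v
      rw [h, ← gfac_Z Bd (hψ.rep v)]

end Pool.Agent.H92.EL
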