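import Pool.Agent.H92.EL.CStm

/-!
# Project ELL (MP_a3214d), row C2: sums over good families, upper bound
-/

set_option autoImplicit false

open scoped BigOperators Topology
open Filter

namespace Pool.Agent.H92.EL

section

variable {X O : Type}

open Classical in
/-- the sum over the sets with different orbits -/
noncomputable def gs1G (o : X → O) (w : X → ℂ) (F : Finset X) : ℂ :=
  ∑ z ∈ F.powerset, if Set.InjOn o (z : Set X) then ∏ x ∈ z, w x else 0

open Classical in
theorem gs1_rec (o : X → O) (w : X → ℂ) (F : Finset X) (x0 : X) (h0 : x0 ∉ F) :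
    gs1G o w (insert x0 F) = gs1G o w F + w x0 * gs1G o w (F.filter fun x => o x ≠ o x0) := by
  unfold gs1G
  rw [Finset.sum_powerset_insert h0]
  congr 1
  rw [Finset.mul_sum]
  symm
  have hsub : (F.filter fun x => o x ≠ o x0).powerset ⊆ F.powerset :=
    Finset.powerset_mono.2 (Finset.filter_subset _ _)
  refine (Finset.sum_congr rfl fun t ht => ?_).trans (Finset.sum_subset hsub fun t ht ht' => ?_)
  · rw [Finset.mem_powerset] at ht
    have hx : x0 ∉ t := fun h => h0 (Finset.mem_filter.1 (ht h)).1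
    have hor : ∀ y ∈ t, o y ≠ o x0 := fun y hy => (Finset.mem_filter.1 (ht hy)).2
    by_cases hi : Set.InjOn o (t : Set X)
    · rw [if_pos hi, if_pos, Finset.prod_insert hx]
      rw [Finset.coe_insert]
      refine (Set.injOn_insert (by simpa using hx)).2 ⟨hi, ?_⟩
      rintro ⟨y, hy, he⟩
      exact hor y hy he
    · rw [if_neg hi, if_neg, mul_zero]
      intro h
      exact hi (h.mono (by simp))
  · rw [Finset.mem_powerset] at ht ht'
    rw [if_neg]
    intro h
    apply ht'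
    intro y hy
    refine Finset.mem_filter.2 ⟨ht hy, fun he => ?_⟩
    have h1 : y = x0 := h (by simp [hy]) (by simp) he
    exact h0 (h1 ▸ ht hy)

open Classical in
theorem gs1_prod (o : X → O) (w : X → ℂ) (T : Finset O) (F : Finset X) :
    (∀ x ∈ F, o x ∈ T) →
      gs1G o w F = ∏ i ∈ T, (1 + ∑ x ∈ F.filter (fun x => o x = i), w x) := by
  induction F using Finset.strongInduction with
  | H F ih =>
    intro hT
    rcases F.eq_empty_or_nonempty with hF | ⟨x0, hx0⟩
    · subst hF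
      simp [gs1G]
    · have hsub : F.erase x0 ⊂ F := Finset.erase_ssubset hx0
      have hsub2 : (F.erase x0).filter (fun x => o x ≠ o x0) ⊂ F :=
        lt_of_le_of_lt (Finset.filter_subset _ _) hsub
      have hT1 : ∀ x ∈ F.erase x0, o x ∈ T := fun x hx => hT x (Finset.mem_of_mem_erase hx)
      have h1 := ih _ hsub hT1
      have h2 := ih _ hsub2 fun x hx => hT1 x (Finset.mem_filter.1 hx).1
      have h3 := gs1_rec o w (F.erase x0) x0 (Finset.notMem_erase _ _)
      rw [Finset.insert_erase hx0] at h3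
      rw [h3, h1, h2]
      have hm : o x0 ∈ T := hT x0 hx0
      rw [← Finset.mul_prod_erase T _ hm, ← Finset.mul_prod_erase T _ hm,
        ← Finset.mul_prod_erase T _ hm]
      have e1 : ((F.erase x0).filter (fun x => o x ≠ o x0)).filter (fun x => o x = o x0) = ∅ := by
        ext x
        simp only [Finset.mem_filter, Finset.notMem_empty, iff_false]
        tauto
      have e2 : F.filter (fun x => o x = o x0) =
          insert x0 ((F.erase x0).filter fun x => o x = o x0) := by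
        ext x
        simp only [Finset.mem_filter, Finset.mem_insert, Finset.mem_erase]
        constructor
        · rintro ⟨hx, he⟩
          by_cases hxx : x = x0
          · exact Or.inl hxx
          · exact Or.inr ⟨⟨hxx, hx⟩, he⟩
        · rintro (rfl | ⟨⟨-, hx⟩, he⟩)
          · exact ⟨hx0, rfl⟩
          · exact ⟨hx, he⟩
      have e3 : ∀ i ∈ T.erase (o x0),
          ((F.erase x0).filter (fun x => o x ≠ o x0)).filter (fun x => o x = i) =
            (F.erase x0).filter (fun x => o x = i) := by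
        intro i hi
        have hi' : i ≠ o x0 := (Finset.mem_erase.1 hi).1
        ext x
        simp only [Finset.mem_filter]
        constructor
        · rintro ⟨⟨a, -⟩, c⟩
          exact ⟨a, c⟩
        · rintro ⟨a, c⟩
          exact ⟨⟨a, fun h => hi' (c.symm.trans h)⟩, c⟩
      have e4 : ∀ i ∈ T.erase (o x0),
          F.filter (fun x => o x = i) = (F.erase x0).filter (fun x => o x = i) := by
        intro i hi
        have hi' : i ≠ o x0 := (Finset.mem_erase.1 hi).1
        ext x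
        simp only [Finset.mem_filter, Finset.mem_erase]
        constructor
        · rintro ⟨a, c⟩
          exact ⟨⟨fun h => hi' (by rw [← c, h]), a⟩, c⟩
        · rintro ⟨⟨-, a⟩, c⟩
          exact ⟨a, c⟩
      have e5 : ∏ i ∈ T.erase (o x0), (1 + ∑ x ∈ ((F.erase x0).filter
          (fun x => o x ≠ o x0)).filter (fun x => o x = i), w x) =
          ∏ i ∈ T.erase (o x0), (1 + ∑ x ∈ (F.erase x0).filter (fun x => o x = i), w x) :=
        Finset.prod_congr rfl fun i hi => by rw [e3 i hi]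
      have e6 : ∏ i ∈ T.erase (o x0), (1 + ∑ x ∈ F.filter (fun x => o x = i), w x) =
          ∏ i ∈ T.erase (o x0), (1 + ∑ x ∈ (F.erase x0).filter (fun x => o x = i), w x) :=
        Finset.prod_congr rfl fun i hi => by rw [e4 i hi]
      rw [e5, e6, e1, e2, Finset.sum_insert (by simp)]
      simp only [Finset.sum_empty, add_zero, one_mul]
      ring

theorem gs1_one (z : ℂ) : ‖1 + z‖ ≤ Real.exp (z.re + ‖z‖ ^ 2) := by
  have h1 : ‖1 + z‖ ^ 2 = 1 + (2 * z.re + ‖z‖ ^ 2) := by
    rw [Complex.sq_norm, Complex.sq_norm, Complex.normSq_apply, Complex.normSq_apply]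
    simp only [Complex.add_re, Complex.one_re, Complex.add_im, Complex.one_im]
    ring
  have h2 : (2 * z.re + ‖z‖ ^ 2) + 1 ≤ Real.exp (2 * z.re + ‖z‖ ^ 2) := Real.add_one_le_exp _
  have h3 : Real.exp (2 * z.re + ‖z‖ ^ 2) ≤ Real.exp (z.re + ‖z‖ ^ 2) ^ 2 := by
    rw [← Real.exp_nat_mul]
    refine Real.exp_le_exp.2 ?_
    push_cast
    nlinarith [sq_nonneg ‖z‖]
  have h4 : ‖1 + z‖ ^ 2 ≤ Real.exp (z.re + ‖z‖ ^ 2) ^ 2 := by linarith
  exact (pow_le_pow_iff_left₀ (norm_nonneg _) (Real.exp_pos _).le two_ne_zero).1 h4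

open Classical in
theorem gs1_le (o : X → O) (w : X → ℂ) (k : ℝ)
    (hk : ∀ (F : Finset X) (i : O), ((F.filter fun x => o x = i).card : ℝ) ≤ k) (F : Finset X) :
    ‖gs1G o w F‖ ≤ Real.exp (∑ x ∈ F, (w x).re + k * ∑ x ∈ F, ‖w x‖ ^ 2) := by
  rw [gs1_prod o w (F.image o) F fun x hx => Finset.mem_image_of_mem o hx]
  have hmap : ∀ x ∈ F, o x ∈ F.image o := fun x hx => Finset.mem_image_of_mem o hx
  rw [← Finset.sum_fiberwise_of_maps_to hmap fun x => (w x).re,
    ← Finset.sum_fiberwise_of_maps_to hmap fun x => ‖w x‖ ^ 2, Finset.mul_sum,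
    ← Finset.sum_add_distrib, Real.exp_sum, norm_prod]
  refine Finset.prod_le_prod (fun _ _ => norm_nonneg _) fun i _ => ?_
  refine (gs1_one _).trans (Real.exp_le_exp.2 ?_)
  rw [Complex.re_sum]
  refine add_le_add le_rfl ?_
  have h1 : ‖∑ x ∈ F.filter (fun x => o x = i), w x‖ ^ 2 ≤
      (∑ x ∈ F.filter (fun x => o x = i), ‖w x‖) ^ 2 :=
    pow_le_pow_left₀ (norm_nonneg _) (norm_sum_le _ _) 2
  have h2 := sq_sum_le_card_mul_sum_sq (s := F.filter (fun x => o x = i)) (f := fun x => ‖w x‖)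
  refine h1.trans (h2.trans ?_)
  exact mul_le_mul_of_nonneg_right (hk F i) (Finset.sum_nonneg fun _ _ => sq_nonneg _)

theorem gs1_sq {w : X → ℂ} (hw : Summable fun x => ‖w x‖) : Summable fun x => ‖w x‖ ^ 2 := by
  have h1 : Tendsto (fun x => ‖w x‖) cofinite (𝓝 0) := hw.tendsto_cofinite_zero
  have h2 : ∀ᶠ x in cofinite, ‖w x‖ ≤ 1 :=
    (h1.eventually (ge_mem_nhds (by norm_num : (0 : ℝ) < 1)))
  refine Summable.of_norm_bounded_eventually hw ?_
  filter_upwards [h2] with p hp
  rw [Real.norm_eq_abs, abs_pow, abs_norm, pow_two]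
  calc ‖w p‖ * ‖w p‖ ≤ 1 * ‖w p‖ := mul_le_mul_of_nonneg_right hp (norm_nonneg _)
    _ = ‖w p‖ := one_mul _

theorem gs1_sum {w : X → ℂ} (hw : Summable fun x => ‖w x‖) :
    Summable fun z : Finset X => ∏ x ∈ z, ‖w x‖ :=
  summable_finsetProd_of_summable_norm (by simpa using hw)

open Classical in
theorem gs1_tsum (o : X → O) (w : X → ℂ) (hw : Summable fun x => ‖w x‖) (k : ℝ)
    (hk : ∀ (F : Finset X) (i : O), ((F.filter fun x => o x = i).card : ℝ) ≤ k) :
    ‖∑' z : Finset X, (if Set.InjOn o (z : Set X) then ∏ x ∈ z, w x else 0)‖ ≤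
      Real.exp (∑' x, (w x).re + k * ∑' x, ‖w x‖ ^ 2) := by
  have h1 : Summable fun z : Finset X =>
      (if Set.InjOn o (z : Set X) then ∏ x ∈ z, w x else 0) := by
    refine Summable.of_norm_bounded (gs1_sum hw) fun z => ?_
    split_ifs
    · rw [norm_prod]
    · rw [norm_zero]
      exact Finset.prod_nonneg fun _ _ => norm_nonneg _
  have h2 : Tendsto (fun F : Finset X => F.powerset) atTop atTop :=
    Filter.tendsto_finset_powerset_atTop_atTop
  have h3 := (h1.hasSum.comp h2).norm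
  have hre : Summable fun x => (w x).re :=
    Summable.of_norm_bounded hw fun x => Complex.abs_re_le_norm (w x)
  have h4 : Tendsto (fun F : Finset X =>
      Real.exp (∑ x ∈ F, (w x).re + k * ∑ x ∈ F, ‖w x‖ ^ 2)) atTop
      (𝓝 (Real.exp (∑' x, (w x).re + k * ∑' x, ‖w x‖ ^ 2))) :=
    (Real.continuous_exp.tendsto _).comp
      (Tendsto.add hre.hasSum (Tendsto.const_mul k (gs1_sq hw).hasSum))
  exact le_of_tendsto_of_tendsto' h3 h4 fun F => gs1_le o w k hk F

end

theorem gs1_inj {ι P : Type} (u : ι) (s : Set P) :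
    Set.InjOn (fun p => (⟨u, p⟩ : Σ _ : ι, P)) s := by
  intro a _ b _ h
  have h1 : (⟨u, a⟩ : Σ _ : ι, P) = ⟨u, b⟩ := h
  rw [Sigma.mk.injEq] at h1
  exact eq_of_heq h1.2

/-- families and sets of pairs -/
noncomputable def gs1Equiv (ι P : Type) [Fintype ι] : (ι → Finset P) ≃ Finset (Σ _ : ι, P) where
  toFun x := Finset.univ.sigma x
  invFun z u := z.preimage (fun p => (⟨u, p⟩ : Σ _ : ι, P)) (gs1_inj u _)
  left_inv x := by
    funext u
    refine Finset.ext fun p => ?_
    change p ∈ (Finset.univ.sigma x).preimage (fun p => (⟨u, p⟩ : Σ _ : ι, P)) (gs1_inj u _) ↔ _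
    rw [Finset.mem_preimage, Finset.mem_sigma]
    exact ⟨fun h => h.2, fun h => ⟨Finset.mem_univ _, h⟩⟩
  right_inv z := by
    refine Finset.ext fun y => ?_
    obtain ⟨u, p⟩ := y
    change (⟨u, p⟩ : Σ _ : ι, P) ∈ Finset.univ.sigma (fun u =>
      z.preimage (fun p => (⟨u, p⟩ : Σ _ : ι, P)) (gs1_inj u _)) ↔ _
    rw [Finset.mem_sigma, Finset.mem_preimage]
    exact ⟨fun h => h.2, fun h => ⟨Finset.mem_univ _, h⟩⟩

open Classical in
/-- good families, abstract version -/
theorem gs1_main {ι P O : Type} [Fintype ι] (o : P → O) (R : P → Prop) (w : ι → P → ℂ)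
    (a : P → ℝ) (d : ℕ) (hd : 1 ≤ d)
    (ho : ∀ (F : Finset P) (i : O), (F.filter fun p => o p = i).card ≤ d)
    (ha : ∀ u p, ‖w u p‖ ≤ a p) (hsa : Summable a) (Gd : (ι → Finset P) → Prop)
    (hG : ∀ x, Gd x ↔ (∀ u, ∀ p ∈ x u, R p) ∧
      ∀ u v, ∀ p ∈ x u, ∀ q ∈ x v, o p = o q → u = v ∧ p = q) :
    (Summable fun x : ι → Finset P => if Gd x then ∏ u, ∏ p ∈ x u, ‖w u p‖ else 0) ∧
    ‖∑' x : ι → Finset P, (if Gd x then ∏ u, ∏ p ∈ x u, w u p else 0)‖ ≤
      Real.exp (∑' p : P, (if R p then ∑ u, (w u p).re else 0) +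
        ((Fintype.card ι : ℝ) * d) ^ 2 * ∑' p : P, a p ^ 2) := by
  rcases isEmpty_or_nonempty ι with hι | ⟨⟨u0⟩⟩
  · refine ⟨Summable.of_finite, ?_⟩
    have h0 : Fintype.card ι = 0 := Fintype.card_eq_zero
    rw [tsum_fintype, Fintype.sum_unique, h0]
    have h1 : ∑' p : P, (if R p then ∑ u : ι, (w u p).re else 0) = 0 := by
      refine (tsum_congr fun p => ?_).trans tsum_zero
      rw [Finset.univ_eq_empty, Finset.sum_empty, ite_self]
    rw [h1]
    simp only [Nat.cast_zero, zero_mul, ne_eq, OfNat.ofNat_ne_zero, not_false_eq_true, zero_pow,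
      add_zero, Real.exp_zero]
    split_ifs
    · rw [Finset.univ_eq_empty, Finset.prod_empty, norm_one]
    · rw [norm_zero]
      exact zero_le_one
  have ha0 : ∀ p, 0 ≤ a p := fun p => (norm_nonneg _).trans (ha u0 p)
  obtain ⟨w', hw'⟩ : ∃ w' : (Σ _ : ι, P) → ℂ, ∀ x, w' x = if R x.2 then w x.1 x.2 else 0 :=
    ⟨_, fun _ => rfl⟩
  have hn' : ∀ x : (Σ _ : ι, P), ‖w' x‖ ≤ a x.2 := by
    intro x
    rw [hw']
    split_ifs
    · exact ha _ _
    · rw [norm_zero]
      exact ha0 _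
  have hsig : Summable fun x : (Σ _ : ι, P) => a x.2 := by
    refine (summable_sigma_of_nonneg (f := fun x : (Σ _ : ι, P) => a x.2) (fun x => ha0 x.2)).2
      ⟨fun _ => hsa, ?_⟩
    exact Summable.of_finite
  have hsw : Summable fun x => ‖w' x‖ :=
    Summable.of_nonneg_of_le (fun _ => norm_nonneg _) hn' hsig
  have hsf : Summable fun x : (Σ _ : ι, P) => ‖w x.1 x.2‖ :=
    Summable.of_nonneg_of_le (fun _ => norm_nonneg _) (fun x => ha x.1 x.2) hsig
  have hinj : ∀ x : ι → Finset P, Gd x ↔ (∀ u, ∀ p ∈ x u, R p) ∧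
      Set.InjOn (fun y : (Σ _ : ι, P) => o y.2) ((gs1Equiv ι P x : Finset (Σ _ : ι, P)) : Set (Σ _ : ι, P)) := by
    intro x
    rw [hG]
    refine and_congr_right fun _ => ?_
    constructor
    · rintro h ⟨u, p⟩ hp ⟨v, q⟩ hq he
      have hp' : p ∈ x u := (Finset.mem_sigma.1 (Finset.mem_coe.1 hp)).2
      have hq' : q ∈ x v := (Finset.mem_sigma.1 (Finset.mem_coe.1 hq)).2
      obtain ⟨rfl, rfl⟩ := h u v p hp' q hq' he
      rfl
    · intro h u v p hp q hq he
      have h1 : (⟨u, p⟩ : (Σ _ : ι, P)) = ⟨v, q⟩ :=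
        h (Finset.mem_coe.2 (Finset.mem_sigma.2 ⟨Finset.mem_univ _, hp⟩))
          (Finset.mem_coe.2 (Finset.mem_sigma.2 ⟨Finset.mem_univ _, hq⟩)) he
      rw [Sigma.mk.injEq] at h1
      exact ⟨h1.1, eq_of_heq h1.2⟩
  have hprod : ∀ x : ι → Finset P, ∏ y ∈ gs1Equiv ι P x, w' y =
      ∏ u, ∏ p ∈ x u, (if R p then w u p else 0) := by
    intro x
    change ∏ y ∈ Finset.univ.sigma x, w' y = _
    rw [Finset.prod_sigma]
    exact Finset.prod_congr rfl fun u _ => Finset.prod_congr rfl fun p _ => hw' _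
  have hprodn : ∀ x : ι → Finset P, ∏ y ∈ gs1Equiv ι P x, ‖w y.1 y.2‖ =
      ∏ u, ∏ p ∈ x u, ‖w u p‖ := by
    intro x
    change ∏ y ∈ Finset.univ.sigma x, ‖w y.1 y.2‖ = _
    rw [Finset.prod_sigma]
  have hterm : ∀ x : ι → Finset P, (if Gd x then ∏ u, ∏ p ∈ x u, w u p else 0) =
      (if Set.InjOn (fun y : (Σ _ : ι, P) => o y.2) ((gs1Equiv ι P x : Finset (Σ _ : ι, P)) : Set (Σ _ : ι, P)) then
        ∏ y ∈ gs1Equiv ι P x, w' y else 0) := by
    intro x
    rw [hprod]
    by_cases hR : ∀ u, ∀ p ∈ x u, R p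
    · have h1 : ∏ u, ∏ p ∈ x u, (if R p then w u p else 0) = ∏ u, ∏ p ∈ x u, w u p :=
        Finset.prod_congr rfl fun u _ => Finset.prod_congr rfl fun p hp => if_pos (hR u p hp)
      rw [h1]
      exact if_congr ((hinj x).trans (and_iff_right hR)) rfl rfl
    · rw [if_neg fun h => hR ((hinj x).1 h).1]
      push Not at hR
      obtain ⟨u, p, hp, hRp⟩ := hR
      have h1 : ∏ u, ∏ p ∈ x u, (if R p then w u p else 0) = 0 :=
        Finset.prod_eq_zero (Finset.mem_univ u) (Finset.prod_eq_zero hp (if_neg hRp))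
      rw [h1, ite_self]
  constructor
  · have h1 := (gs1_sum hsf)
    have h2 : Summable fun x : ι → Finset P => ∏ u, ∏ p ∈ x u, ‖w u p‖ := by
      have h3 := (gs1Equiv ι P).summable_iff.2 h1
      refine h3.congr fun x => ?_
      exact hprodn x
    refine Summable.of_nonneg_of_le (fun x => ?_) (fun x => ?_) h2
    · split_ifs
      · exact Finset.prod_nonneg fun _ _ => Finset.prod_nonneg fun _ _ => norm_nonneg _
      · exact le_rfl
    · split_ifs
      · exact le_rfl
      · exact Finset.prod_nonneg fun _ _ => Finset.prod_nonneg fun _ _ => norm_nonneg _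
  · rw [tsum_congr hterm]
    have e1 := (gs1Equiv ι P).tsum_eq (fun z : Finset (Σ _ : ι, P) =>
      (if Set.InjOn (fun y : (Σ _ : ι, P) => o y.2) (z : Set (Σ _ : ι, P)) then ∏ y ∈ z, w' y else 0))
    rw [e1]
    have hk : ∀ (F : Finset (Σ _ : ι, P)) (i : O), ((F.filter fun x => o x.2 = i).card : ℝ) ≤
        (Fintype.card ι : ℝ) * d := by
      intro F i
      have h1 : F.filter (fun x => o x.2 = i) ⊆
          Finset.univ.sigma fun _ : ι => (F.image Sigma.snd).filter fun p => o p = i := by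
        rintro ⟨u, p⟩ hx
        obtain ⟨hx1, hx2⟩ := Finset.mem_filter.1 hx
        refine Finset.mem_sigma.2 ⟨Finset.mem_univ _, Finset.mem_filter.2 ⟨?_, hx2⟩⟩
        exact Finset.mem_image.2 ⟨_, hx1, rfl⟩
      have h2 := Finset.card_le_card h1
      rw [Finset.card_sigma] at h2
      have h3 : ∑ _u : ι, ((F.image Sigma.snd).filter fun p => o p = i).card ≤
          Fintype.card ι * d := by
        rw [Finset.sum_const, smul_eq_mul, Finset.card_univ]
        exact Nat.mul_le_mul_left _ (ho _ _)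
      exact_mod_cast h2.trans h3
    refine (gs1_tsum (fun y : (Σ _ : ι, P) => o y.2) w' hsw _ hk).trans (Real.exp_le_exp.2 ?_)
    have hre : Summable fun x : (Σ _ : ι, P) => (w' x).re :=
      Summable.of_norm_bounded hsw fun x => Complex.abs_re_le_norm (w' x)
    have e2 : ∑' x : (Σ _ : ι, P), (w' x).re = ∑' p : P, (if R p then ∑ u, (w u p).re else 0) := by
      rw [hre.tsum_sigma, tsum_fintype, ← Summable.tsum_finsetSum]
      · refine tsum_congr fun p => ?_
        by_cases hR : R p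
        · rw [if_pos hR]
          exact Finset.sum_congr rfl fun u _ => by simp only [hw', if_pos hR]
        · rw [if_neg hR]
          exact Finset.sum_eq_zero fun u _ => by simp only [hw', if_neg hR, Complex.zero_re]
      · intro u _
        exact hre.comp_injective (sigma_mk_injective (i := u))
    have hsa2 : Summable fun p => a p ^ 2 := by
      have h1 : Summable fun p => ‖(a p : ℂ)‖ := by
        refine hsa.congr fun p => ?_
        rw [Complex.norm_real, Real.norm_eq_abs, abs_of_nonneg (ha0 p)]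
      refine (gs1_sq h1).congr fun p => ?_
      rw [Complex.norm_real, Real.norm_eq_abs, sq_abs]
    have hs2 : Summable fun x : (Σ _ : ι, P) => a x.2 ^ 2 := by
      refine (summable_sigma_of_nonneg (f := fun x : (Σ _ : ι, P) => a x.2 ^ 2)
        (fun x => sq_nonneg (a x.2))).2 ⟨fun _ => hsa2, ?_⟩
      exact Summable.of_finite
    have e3 : ∑' x : (Σ _ : ι, P), ‖w' x‖ ^ 2 ≤ Fintype.card ι * ∑' p : P, a p ^ 2 := by
      have h1 : ∑' x : (Σ _ : ι, P), ‖w' x‖ ^ 2 ≤ ∑' x : (Σ _ : ι, P), a x.2 ^ 2 :=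
        Summable.tsum_le_tsum (fun x => pow_le_pow_left₀ (norm_nonneg _) (hn' x) 2)
          (gs1_sq hsw) hs2
      refine h1.trans (le_of_eq ?_)
      rw [hs2.tsum_sigma, tsum_fintype]
      change ∑ _b : ι, ∑' c : P, a c ^ 2 = _
      rw [Finset.sum_const, nsmul_eq_mul, Finset.card_univ]
    rw [e2]
    refine add_le_add le_rfl ?_
    have h4 : 0 ≤ ∑' p : P, a p ^ 2 := tsum_nonneg fun _ => sq_nonneg _
    have h5 : (1 : ℝ) ≤ d := by exact_mod_cast hd
    have h6 : (0 : ℝ) ≤ Fintype.card ι := Nat.cast_nonneg _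
    calc (Fintype.card ι : ℝ) * d * ∑' x : (Σ _ : ι, P), ‖w' x‖ ^ 2 ≤
        (Fintype.card ι : ℝ) * d * (Fintype.card ι * ∑' p : P, a p ^ 2) :=
          mul_le_mul_of_nonneg_left e3 (by positivity)
      _ = (Fintype.card ι : ℝ) * (Fintype.card ι * (∑' p : P, a p ^ 2)) * d * 1 := by ring
      _ ≤ (Fintype.card ι : ℝ) * (Fintype.card ι * (∑' p : P, a p ^ 2)) * d * d :=
          mul_le_mul_of_nonneg_left h5 (by positivity)
      _ = ((Fintype.card ι : ℝ) * d) ^ 2 * ∑' p : P, a p ^ 2 := by ring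

/-- the orbit relation -/
def gs1S {l : ℕ} [Fact l.Prime] (S : SysL l) : Setoid S.P where
  r p q := ∃ g, S.ac g p = q
  iseqv := by
    refine ⟨fun p => ⟨1, S.ac_one p⟩, ?_, ?_⟩
    · rintro p q ⟨g, rfl⟩
      exact ⟨g⁻¹, by rw [← S.ac_mul, inv_mul_cancel, S.ac_one]⟩
    · rintro p q r ⟨g, rfl⟩ ⟨h, rfl⟩
      exact ⟨h * g, S.ac_mul h g p⟩

theorem gs1S_iff {l : ℕ} [Fact l.Prime] (S : SysL l) (p q : S.P) :
    Quotient.mk (gs1S S) p = Quotient.mk (gs1S S) q ↔ ∃ g, S.ac g p = q :=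
  ⟨fun h => Quotient.exact h, fun h => Quotient.sound h⟩

open Classical in
theorem gs1_fib {l : ℕ} [Fact l.Prime] (S : SysL l) (F : Finset S.P) (i : Quotient (gs1S S)) :
    (F.filter fun p => Quotient.mk (gs1S S) p = i).card ≤ Fintype.card S.D := by
  induction i using Quotient.inductionOn with
  | h p0 =>
    have h1 : (F.filter fun p => Quotient.mk (gs1S S) p = Quotient.mk (gs1S S) p0) ⊆
        (Finset.univ : Finset S.D).image fun g => S.ac g p0 := by
      intro p hp
      obtain ⟨g, hg⟩ := (gs1S_iff S p0 p).1 (Finset.mem_filter.1 hp).2.symm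
      exact Finset.mem_image.2 ⟨g, Finset.mem_univ _, hg⟩
    exact (Finset.card_le_card h1).trans (Finset.card_image_le.trans (le_of_eq Finset.card_univ))

open Classical in
theorem sgs1 : SGs1 := by
  intro l _ S ι _ w a M hM ha hsa
  have hG : ∀ x : ι → Finset S.P, (S.Gd x ∧ S.Off M x) ↔
      (∀ u, ∀ p ∈ x u, S.rg p ∧ p ∉ M) ∧ ∀ u v, ∀ p ∈ x u, ∀ q ∈ x v,
        Quotient.mk (gs1S S) p = Quotient.mk (gs1S S) q → u = v ∧ p = q := by
    intro x
    constructor
    · rintro ⟨⟨h1, h2⟩, h3⟩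
      refine ⟨fun u p hp => ⟨h1 u p hp, fun hm => ?_⟩, fun u v p hp q hq he => ?_⟩
      · exact Finset.disjoint_left.1 (h3 u) hp hm
      · obtain ⟨g, hg⟩ := (gs1S_iff S p q).1 he
        exact h2 u v p hp q hq g hg
    · rintro ⟨h1, h2⟩
      refine ⟨⟨fun u p hp => (h1 u p hp).1, fun u v p hp q hq g hg => ?_⟩, fun u => ?_⟩
      · exact h2 u v p hp q hq ((gs1S_iff S p q).2 ⟨g, hg⟩)
      · exact Finset.disjoint_left.2 fun p hp hm => (h1 u p hp).2 hm
  obtain ⟨h1, h2⟩ := gs1_main (Quotient.mk (gs1S S)) (fun p => S.rg p ∧ p ∉ M) w a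
    (Fintype.card S.D) Fintype.card_pos (fun F i => by convert gs1_fib S F i) ha hsa
    (fun x => S.Gd x ∧ S.Off M x) hG
  refine ⟨?_, ?_⟩
  · convert h1
  · convert h2

end Pool.Agent.H92.EL
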