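import Pool.Agent.H92.EL.CStm

/-!
# Project ELL (MP_a3214d), block C, row C3: sums over good families as products over the orbits
-/

set_option autoImplicit false

open scoped BigOperators Topology
open Filter

namespace Pool.Agent.H92.EL

/-! ### a finite identity -/

open Classical in
private theorem cg2_fin {A O : Type} (o : A → O) (t : O → Finset A)
    (ht : ∀ i α, α ∈ t i ↔ o α = i) (f : A → ℂ) (F : Finset O) :
    ∑ Y ∈ (F.biUnion t).powerset.filter
        (fun Y : Finset A => Y.image o = F ∧ Set.InjOn o (Y : Set A)),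
      ∏ α ∈ Y, f α = ∏ i ∈ F, ∑ α ∈ t i, f α := by
  rw [Finset.prod_sum]
  symm
  refine Finset.sum_bij (fun p _ => F.attach.image fun x => p x.1 x.2) ?_ ?_ ?_ ?_
  · intro p hp
    rw [Finset.mem_pi] at hp
    have ho : ∀ x : {x // x ∈ F}, o (p x.1 x.2) = x.1 := fun x => (ht _ _).1 (hp x.1 x.2)
    rw [Finset.mem_filter, Finset.mem_powerset]
    refine ⟨?_, ?_, ?_⟩
    · intro α hα
      obtain ⟨x, -, rfl⟩ := Finset.mem_image.1 hα
      exact Finset.mem_biUnion.2 ⟨x.1, x.2, hp x.1 x.2⟩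
    · ext i
      rw [Finset.mem_image]
      constructor
      · rintro ⟨α, hα, rfl⟩
        obtain ⟨x, -, rfl⟩ := Finset.mem_image.1 hα
        rw [ho]
        exact x.2
      · intro hi
        exact ⟨p i hi, Finset.mem_image.2 ⟨⟨i, hi⟩, Finset.mem_attach _ _, rfl⟩, ho ⟨i, hi⟩⟩
    · intro α hα β hβ h
      obtain ⟨x, -, rfl⟩ := Finset.mem_image.1 (Finset.mem_coe.1 hα)
      obtain ⟨y, -, rfl⟩ := Finset.mem_image.1 (Finset.mem_coe.1 hβ)
      rw [ho, ho] at h
      rw [Subtype.ext h]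
  · intro p hp q hq h
    rw [Finset.mem_pi] at hp hq
    funext i hi
    have h1 : p i hi ∈ F.attach.image fun x => q x.1 x.2 := by
      rw [← h]
      exact Finset.mem_image.2 ⟨⟨i, hi⟩, Finset.mem_attach _ _, rfl⟩
    obtain ⟨x, -, hx⟩ := Finset.mem_image.1 h1
    have h2 : x.1 = i := by
      rw [← (ht _ _).1 (hq x.1 x.2), hx]
      exact (ht _ _).1 (hp i hi)
    obtain ⟨j, hj⟩ := x
    subst h2
    exact hx.symm
  · intro Y hY
    rw [Finset.mem_filter, Finset.mem_powerset] at hY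
    obtain ⟨-, hYi, hYj⟩ := hY
    have hex : ∀ i, i ∈ F → ∃ α ∈ Y, o α = i := fun i hi => by
      rw [← hYi] at hi
      exact Finset.mem_image.1 hi
    choose p hp1 hp2 using hex
    refine ⟨p, ?_, ?_⟩
    · rw [Finset.mem_pi]
      exact fun i hi => (ht _ _).2 (hp2 i hi)
    · ext α
      rw [Finset.mem_image]
      constructor
      · rintro ⟨x, -, rfl⟩
        exact hp1 x.1 x.2
      · intro hα
        have hi : o α ∈ F := by
          rw [← hYi]
          exact Finset.mem_image_of_mem o hα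
        refine ⟨⟨o α, hi⟩, Finset.mem_attach _ _, ?_⟩
        exact hYj (Finset.mem_coe.2 (hp1 _ hi)) (Finset.mem_coe.2 hα) (hp2 _ hi)
  · intro p hp
    rw [Finset.mem_pi] at hp
    rw [Finset.prod_image]
    intro x _ y _ h
    have h1 := (ht _ _).1 (hp x.1 x.2)
    have h2 := (ht _ _).1 (hp y.1 y.2)
    apply Subtype.ext
    rw [← h1, ← h2]
    exact congrArg o h

/-! ### the product over the fibres -/

open Classical in
private theorem cg2_prod {A O : Type} (o : A → O) (t : O → Finset A)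
    (ht : ∀ i α, α ∈ t i ↔ o α = i) (f : A → ℂ) (hf : Summable fun α => ‖f α‖) :
    HasProd (fun i : O => 1 + ∑ α ∈ t i, f α)
      (∑' Y : Finset A, if Set.InjOn o (Y : Set A) then ∏ α ∈ Y, f α else 0) := by
  have hs : Summable fun Y : Finset A =>
      if Set.InjOn o (Y : Set A) then ∏ α ∈ Y, f α else (0 : ℂ) := by
    have h1 : Summable fun Y : Finset A => ∏ α ∈ Y, ‖f α‖ :=
      summable_finsetProd_of_summable_norm (by simpa using hf)
    refine Summable.of_norm_bounded h1 fun Y => ?_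
    split_ifs with h
    · rw [norm_prod]
    · rw [norm_zero]
      exact Finset.prod_nonneg fun α _ => norm_nonneg _
  apply hasProd_one_add_of_hasSum_prod
  have h2 := hs.hasSum.tsum_fiberwise fun Y : Finset A => Y.image o
  have h3 : (fun F : Finset O => ∑' Y : (fun Y : Finset A => Y.image o) ⁻¹' {F},
      (if Set.InjOn o (Y.1 : Set A) then ∏ α ∈ Y.1, f α else (0 : ℂ))) =
      fun F => ∏ i ∈ F, ∑ α ∈ t i, f α := by
    funext F
    rw [← cg2_fin o t ht f F]
    have h4 := tsum_subtype ((fun Y : Finset A => Y.image o) ⁻¹' {F})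
      (fun Y : Finset A => if Set.InjOn o (Y : Set A) then ∏ α ∈ Y, f α else (0 : ℂ))
    refine h4.trans ?_
    rw [tsum_eq_sum (s := (F.biUnion t).powerset.filter
      (fun Y : Finset A => Y.image o = F ∧ Set.InjOn o (Y : Set A)))]
    · refine Finset.sum_congr rfl fun Y hY => ?_
      rw [Finset.mem_filter] at hY
      rw [Set.indicator_of_mem (by exact hY.2.1), if_pos hY.2.2]
    · intro Y hY
      by_cases h5 : Y.image o = F
      · rw [Set.indicator_of_mem (by exact h5)]
        by_cases h6 : Set.InjOn o (Y : Set A)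
        · exfalso
          apply hY
          rw [Finset.mem_filter, Finset.mem_powerset]
          refine ⟨fun α hα => ?_, h5, h6⟩
          refine Finset.mem_biUnion.2 ⟨o α, ?_, (ht _ _).2 rfl⟩
          rw [← h5]
          exact Finset.mem_image_of_mem o hα
        · rw [if_neg h6]
      · exact Set.indicator_of_notMem (by exact h5) _
  rw [h3] at h2
  exact h2

/-! ### families as finite sets of pairs -/

private theorem cg2_inj {ι P : Type} (u : ι) :
    Function.Injective fun p : P => (⟨u, p⟩ : Σ _ : ι, P) := fun _ _ h =>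
  eq_of_heq (Sigma.mk.inj h).2

private noncomputable def cg2_inv {ι P : Type} (Y : Finset (Σ _ : ι, P)) (u : ι) : Finset P :=
  Y.preimage (fun p : P => (⟨u, p⟩ : Σ _ : ι, P)) (cg2_inj u).injOn

private theorem cg2_mem {ι P : Type} (Y : Finset (Σ _ : ι, P)) (u : ι) (p : P) :
    p ∈ cg2_inv Y u ↔ (⟨u, p⟩ : Σ _ : ι, P) ∈ Y := Finset.mem_preimage

/-- families of finite sets as finite sets of pairs -/
private noncomputable def cg2_eqv (ι P : Type) [Fintype ι] :
    (ι → Finset P) ≃ Finset (Σ _ : ι, P) where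
  toFun x := Finset.univ.sigma x
  invFun := cg2_inv
  left_inv x := by
    funext u
    ext p
    rw [cg2_mem, Finset.mem_sigma]
    exact ⟨fun h => h.2, fun h => ⟨Finset.mem_univ _, h⟩⟩
  right_inv Y := by
    ext ⟨u, p⟩
    rw [Finset.mem_sigma, cg2_mem]
    exact ⟨fun h => h.2, fun h => ⟨Finset.mem_univ _, h⟩⟩

theorem sgs2 : SGs2 := by
  classical
  intro l _ S ι _ w a hw ha O o ho
  -- the orbits
  have hfib : ∀ i : O, {p : S.P | o p = i}.Finite := by
    intro i
    by_cases h : ∃ p, o p = i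
    · obtain ⟨p, hp⟩ := h
      refine (Set.finite_range fun g : S.D => S.ac g p).subset fun q hq => ?_
      have h1 : o p = o q := hp.trans (by exact hq.symm)
      obtain ⟨g, hg⟩ := (ho p q).1 h1
      exact ⟨g, hg⟩
    · refine Set.finite_empty.subset fun q hq => ?_
      exact h ⟨q, hq⟩
  let orb : O → Finset S.P := fun i => (hfib i).toFinset
  have horb : ∀ i p, p ∈ orb i ↔ o p = i := fun i p => by
    show p ∈ (hfib i).toFinset ↔ _
    rw [Set.Finite.mem_toFinset]
    rfl
  let A : Type := Σ _ : ι, S.P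
  let o' : A → O := fun α => o α.2
  let t : O → Finset A := fun i => (Finset.univ : Finset ι).sigma fun _ => orb i
  have ht : ∀ i α, α ∈ t i ↔ o' α = i := by
    rintro i ⟨u, p⟩
    show (⟨u, p⟩ : A) ∈ (Finset.univ : Finset ι).sigma (fun _ => orb i) ↔ o p = i
    rw [Finset.mem_sigma]
    exact ⟨fun h => (horb i p).1 h.2, fun h => ⟨Finset.mem_univ _, (horb i p).2 h⟩⟩
  let f : A → ℂ := fun α => if S.rg α.2 then w α.1 α.2 else 0
  have hfn : ∀ α, ‖f α‖ ≤ a α.2 := by
    intro α
    show ‖(if S.rg α.2 then w α.1 α.2 else 0 : ℂ)‖ ≤ a α.2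
    split_ifs
    · exact hw _ _
    · rw [norm_zero]
      exact (norm_nonneg _).trans (hw α.1 α.2)
  have hf : Summable fun α => ‖f α‖ := by
    rw [summable_sigma_of_nonneg fun α => norm_nonneg (f α)]
    refine ⟨fun u => ?_, Summable.of_finite⟩
    exact Summable.of_nonneg_of_le (fun p => norm_nonneg _) (fun p => hfn ⟨u, p⟩) ha
  have hP := cg2_prod o' t ht f hf
  -- the left side
  have hL : ∑' x : ι → Finset S.P, (if S.Gd x then ∏ u, ∏ p ∈ x u, w u p else 0) =
      ∑' Y : Finset A, if Set.InjOn o' (Y : Set A) then ∏ α ∈ Y, f α else 0 := by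
    rw [← Equiv.tsum_eq (cg2_eqv ι S.P)]
    refine tsum_congr fun x => ?_
    have e1 : ∏ α ∈ cg2_eqv ι S.P x, f α =
        ∏ u, ∏ p ∈ x u, (if S.rg p then w u p else 0 : ℂ) := by
      show ∏ α ∈ (Finset.univ : Finset ι).sigma x, f α = _
      rw [Finset.prod_sigma]
    have e2 : ∀ (u : ι) (p : S.P), (⟨u, p⟩ : A) ∈ cg2_eqv ι S.P x ↔ p ∈ x u := by
      intro u p
      show (⟨u, p⟩ : A) ∈ (Finset.univ : Finset ι).sigma x ↔ p ∈ x u
      rw [Finset.mem_sigma]
      exact ⟨fun h => h.2, fun h => ⟨Finset.mem_univ _, h⟩⟩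
    have e3 : S.Gd x ↔ (∀ u, ∀ p ∈ x u, S.rg p) ∧
        Set.InjOn o' (cg2_eqv ι S.P x : Set A) := by
      constructor
      · rintro ⟨h1, h2⟩
        refine ⟨h1, ?_⟩
        rintro ⟨u, p⟩ hp ⟨v, q⟩ hq h
        obtain ⟨g, hg⟩ := (ho p q).1 h
        obtain ⟨rfl, rfl⟩ := h2 u v p ((e2 u p).1 hp) q ((e2 v q).1 hq) g hg
        rfl
      · rintro ⟨h1, h2⟩
        refine ⟨h1, ?_⟩
        intro u v p hp q hq g hg
        have h3 : (⟨u, p⟩ : A) = ⟨v, q⟩ :=
          h2 ((e2 u p).2 hp) ((e2 v q).2 hq) ((ho p q).2 ⟨g, hg⟩)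
        exact ⟨(Sigma.mk.inj h3).1, eq_of_heq (Sigma.mk.inj h3).2⟩
    by_cases hG : S.Gd x
    · rw [if_pos hG, if_pos (e3.1 hG).2, e1]
      refine Finset.prod_congr rfl fun u _ => Finset.prod_congr rfl fun p hp => ?_
      rw [if_pos ((e3.1 hG).1 u p hp)]
    · rw [if_neg hG]
      by_cases hI : Set.InjOn o' (cg2_eqv ι S.P x : Set A)
      · rw [if_pos hI, e1]
        have h4 : ¬ ∀ u, ∀ p ∈ x u, S.rg p := fun h => hG (e3.2 ⟨h, hI⟩)
        push Not at h4
        obtain ⟨u, p, hp, hr⟩ := h4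
        symm
        refine Finset.prod_eq_zero (Finset.mem_univ u) (Finset.prod_eq_zero hp ?_)
        rw [if_neg hr]
      · rw [if_neg hI]
  rw [hL, ← hP.tprod_eq]
  refine tprod_congr fun i => ?_
  congr 1
  rw [tsum_eq_sum (s := orb i)]
  · show ∑ α ∈ (Finset.univ : Finset ι).sigma (fun _ => orb i), f α = _
    rw [Finset.sum_sigma, Finset.sum_comm]
    refine Finset.sum_congr rfl fun p hp => ?_
    have h5 : o p = i := (horb i p).1 hp
    by_cases hr : S.rg p
    · rw [if_pos ⟨h5, hr⟩]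
      refine Finset.sum_congr rfl fun u _ => ?_
      exact if_pos hr
    · rw [if_neg fun h => hr h.2]
      refine Finset.sum_eq_zero fun u _ => ?_
      exact if_neg hr
  · intro p hp
    rw [if_neg fun h => hp ((horb i p).2 h.1)]

end Pool.Agent.H92.EL
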