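import Pool.Agent.H92.EL.CFin

/-!
# Project ELL (MP_a3214d), block C, row C30: sums with a sharp cutoff are small
-/

set_option autoImplicit false

open scoped BigOperators Topology
open Filter

namespace Pool.Agent.H92.EL

/-- Row C30: sums with a sharp cutoff are small. -/
theorem skarE (h : SKar0) : SKarE := by
  intro X n b B L h1 hf hb
  have hG := h X n b B L h1 hf hb
  have hmem : ∀ (Y : ℝ) (x : X), 0 ≤ Y → (x ∈ (hf ⌊Y⌋₊).toFinset ↔ (n x : ℝ) ≤ Y) := by
    intro Y x hY
    rw [Set.Finite.mem_toFinset, Set.mem_ofPred_eq, Nat.le_floor_iff hY]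
  -- logarithms
  have hlog : ∀ ε : ℝ, 0 < ε →
      Tendsto (fun Y : ℝ => Real.log (ε * Y) / Real.log Y) atTop (𝓝 1) := by
    intro ε hε
    have h2 : Tendsto (fun Y : ℝ => Real.log ε / Real.log Y + 1) atTop (𝓝 (0 + 1)) :=
      ((Real.tendsto_log_atTop).const_div_atTop (Real.log ε)).add_const 1
    rw [zero_add] at h2
    refine h2.congr' ?_
    filter_upwards [eventually_gt_atTop (1 : ℝ)] with Y hY
    have hl : Real.log Y ≠ 0 := (Real.log_pos hY).ne'
    rw [Real.log_mul hε.ne' (by linarith : Y ≠ 0), add_div, div_self hl]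
  have hshift : ∀ ε : ℝ, 0 < ε →
      Tendsto (fun Y : ℝ => (∑ x ∈ (hf ⌊ε * Y⌋₊).toFinset, b x) / Real.log Y ^ B) atTop
        (𝓝 (L / (B.factorial : ℝ))) := by
    intro ε hε
    have h2 : Tendsto (fun Y : ℝ => ε * Y) atTop atTop := tendsto_id.const_mul_atTop hε
    have h3 := (hG.comp h2).mul ((hlog ε hε).pow B)
    rw [one_pow, mul_one] at h3
    refine h3.congr' ?_
    filter_upwards [h2.eventually (eventually_gt_atTop (1 : ℝ)),
      eventually_gt_atTop (1 : ℝ)] with Y hY1 hY
    have hl : Real.log Y ^ B ≠ 0 := pow_ne_zero _ (Real.log_pos hY).ne'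
    have hl2 : Real.log (ε * Y) ^ B ≠ 0 := pow_ne_zero _ (Real.log_pos hY1).ne'
    simp only [Function.comp_apply]
    rw [div_pow, div_mul_div_comm, mul_comm (Real.log (ε * Y) ^ B) (Real.log Y ^ B),
      mul_div_mul_right _ _ hl2]
  -- the inequality
  have key : ∀ ε : ℝ, 0 < ε → ε ≤ 1 → ∀ Y : ℝ, 1 < Y →
      (∑ x ∈ (hf ⌊Y⌋₊).toFinset, b x * n x) / (Y * Real.log Y ^ B) ≤
        ε * ((∑ x ∈ (hf ⌊Y⌋₊).toFinset, b x) / Real.log Y ^ B) +
        ((∑ x ∈ (hf ⌊Y⌋₊).toFinset, b x) / Real.log Y ^ B -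
          (∑ x ∈ (hf ⌊ε * Y⌋₊).toFinset, b x) / Real.log Y ^ B) := by
    intro ε hε hε1 Y hY
    have hY0 : 0 < Y := by linarith
    have hl : 0 < Real.log Y ^ B := pow_pos (Real.log_pos hY) _
    have hs : (∑ x ∈ (hf ⌊ε * Y⌋₊).toFinset, b x) =
        ∑ x ∈ (hf ⌊Y⌋₊).toFinset, if (n x : ℝ) ≤ ε * Y then b x else 0 := by
      rw [← Finset.sum_filter]
      refine Finset.sum_congr ?_ fun _ _ => rfl
      ext x
      rw [Finset.mem_filter, hmem _ x (by positivity), hmem _ x hY0.le]
      constructor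
      · intro hx
        exact ⟨hx.trans (by nlinarith), hx⟩
      · exact fun hx => hx.2
    have h2 : (∑ x ∈ (hf ⌊Y⌋₊).toFinset, b x * n x) ≤
        ε * Y * (∑ x ∈ (hf ⌊Y⌋₊).toFinset, b x) +
        Y * ((∑ x ∈ (hf ⌊Y⌋₊).toFinset, b x) -
          (∑ x ∈ (hf ⌊ε * Y⌋₊).toFinset, b x)) := by
      rw [hs, ← Finset.sum_sub_distrib, Finset.mul_sum, Finset.mul_sum,
        ← Finset.sum_add_distrib]
      refine Finset.sum_le_sum fun x hx => ?_
      rw [hmem _ x hY0.le] at hx
      have hbx := hb.nn x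
      split_ifs with h3
      · rw [sub_self, mul_zero, add_zero, mul_comm (ε * Y)]
        exact mul_le_mul_of_nonneg_left h3 hbx
      · rw [sub_zero]
        have h4 : b x * (n x : ℝ) ≤ b x * Y := mul_le_mul_of_nonneg_left hx hbx
        have h5 : 0 ≤ ε * Y * b x := by positivity
        linarith
    rw [div_le_iff₀ (by positivity)]
    refine h2.trans (le_of_eq ?_)
    field_simp
  rw [tendsto_order]
  constructor
  · intro a ha
    filter_upwards [eventually_gt_atTop (1 : ℝ)] with Y hY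
    have hY0 : 0 < Y := by linarith
    have hl : 0 < Real.log Y ^ B := pow_pos (Real.log_pos hY) _
    refine ha.trans_le (div_nonneg (Finset.sum_nonneg fun x _ => ?_) (by positivity))
    exact mul_nonneg (hb.nn x) (Nat.cast_nonneg _)
  · intro a ha
    set c : ℝ := L / (B.factorial : ℝ) with hc
    obtain ⟨ε, hε, hε1, hε2⟩ : ∃ ε : ℝ, 0 < ε ∧ ε ≤ 1 ∧ ε * c < a := by
      refine ⟨min 1 (a / (2 * (|c| + 1))), ?_, min_le_left _ _, ?_⟩
      · exact lt_min one_pos (by positivity)
      · have hm : (0 : ℝ) < min 1 (a / (2 * (|c| + 1))) := lt_min one_pos (by positivity)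
        calc min 1 (a / (2 * (|c| + 1))) * c ≤ min 1 (a / (2 * (|c| + 1))) * (|c| + 1) :=
              mul_le_mul_of_nonneg_left (by linarith [le_abs_self c]) hm.le
          _ ≤ a / (2 * (|c| + 1)) * (|c| + 1) :=
              mul_le_mul_of_nonneg_right (min_le_right _ _) (by positivity)
          _ = a / 2 := by
              have : |c| + 1 ≠ 0 := by positivity
              field_simp
          _ < a := by linarith
    have h3 := ((hG.const_mul ε).add (hG.sub (hshift ε hε)))
    rw [sub_self, add_zero] at h3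
    filter_upwards [h3.eventually (eventually_lt_nhds hε2),
      eventually_gt_atTop (1 : ℝ)] with Y hY1 hY
    exact (key ε hε hε1 Y hY).trans_lt hY1

end Pool.Agent.H92.EL
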