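import Pool.Agent.H98.MF.NLog

/-!
# Project ELL (MP_a3214d), row A33: Abel summation and Euler product with complex values,
abstract part
-/

set_option autoImplicit false

open scoped BigOperators Topology
open Filter MeasureTheory

namespace Pool.Agent.H92.EL

open Pool.Agent.H98.MF

variable (S : Pre)

theorem n2x_countable : Countable S.P := by
  have h : (Set.univ : Set S.P) = ⋃ X : ℕ, {p : S.P | S.N p ≤ X} := by
    ext p
    simp only [Set.mem_univ, Set.mem_iUnion, Set.mem_ofPred_eq, true_iff]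
    exact ⟨S.N p, le_rfl⟩
  have h2 : (Set.univ : Set S.P).Countable := by
    rw [h]
    exact Set.countable_iUnion fun X => (S.fin X).countable
  exact Set.countable_univ_iff.1 h2

theorem n2x_one_le (f : S.P →₀ ℕ) : (1 : ℝ) ≤ S.nf f := by
  exact_mod_cast S.nf_pos f

/-- the integral representation of `n ^ (-s)` -/
theorem n2x_int (n s : ℝ) (hn : 1 ≤ n) (hs : 1 < s) :
    IntegrableOn (fun t : ℝ => if n ≤ t then s * t ^ (-s - 1) else 0) (Set.Ioi 1) ∧
      ∫ t in Set.Ioi (1 : ℝ), (if n ≤ t then s * t ^ (-s - 1) else 0) = n ^ (-s) := by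
  have hn0 : 0 < n := by linarith
  have e1 : (fun t : ℝ => if n ≤ t then s * t ^ (-s - 1) else 0) =
      (Set.Ici n).indicator (fun t : ℝ => s * t ^ (-s - 1)) := by
    ext t
    simp only [Set.indicator_apply, Set.mem_Ici]
  have hint : IntegrableOn (fun t : ℝ => s * t ^ (-s - 1)) (Set.Ioi n) :=
    (integrableOn_Ioi_rpow_of_lt (by linarith) hn0).const_mul s
  have hval : ∫ t in Set.Ioi n, s * t ^ (-s - 1) = n ^ (-s) := by
    rw [integral_const_mul, integral_Ioi_rpow_of_lt (by linarith) hn0]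
    have e2 : -s - 1 + 1 = -s := by ring
    rw [e2]
    field_simp
  rw [e1]
  constructor
  · have h1 : IntegrableOn (fun t : ℝ => s * t ^ (-s - 1)) (Set.Ici n) :=
      (integrableOn_Ici_iff_integrableOn_Ioi enorm_ne_top).2 hint
    exact (h1.integrable_indicator measurableSet_Ici).integrableOn
  · rw [setIntegral_indicator measurableSet_Ici]
    rcases eq_or_lt_of_le hn with h | h
    · have e3 : Set.Ioi (1 : ℝ) ∩ Set.Ici n = Set.Ioi n := by
        rw [← h]
        ext t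
        simp only [Set.mem_inter_iff, Set.mem_Ioi, Set.mem_Ici]
        constructor
        · exact fun h => h.1
        · exact fun h => ⟨h, h.le⟩
      rw [e3, hval]
    · have e3 : Set.Ioi (1 : ℝ) ∩ Set.Ici n = Set.Ici n := by
        ext t
        simp only [Set.mem_inter_iff, Set.mem_Ioi, Set.mem_Ici]
        constructor
        · exact fun h => h.2
        · exact fun h2 => ⟨lt_of_lt_of_le h h2, h2⟩
      rw [e3, integral_Ici_eq_integral_Ioi, hval]

theorem n2x_idl_floor {t : ℝ} (ht : 0 ≤ t) : S.idl t = S.idl (⌊t⌋₊ : ℝ) := by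
  ext f
  rw [S.mem_idl, S.mem_idl, Nat.cast_le, Nat.le_floor_iff ht]

/-- Abel summation, complex values -/
theorem n2x_abel (χ : (S.P →₀ ℕ) → ℂ) (hχ : ∀ f, ‖χ f‖ ≤ 1) (C₀ : ℝ)
    (hC₀ : ∀ X : ℝ, 1 ≤ X → ((S.idl X).card : ℝ) ≤ C₀ * X) (C δ : ℝ) (hδ : 0 < δ)
    (h : ∀ X : ℝ, 1 ≤ X → ‖∑ f ∈ S.idl X, χ f‖ ≤ C * X ^ (1 - δ)) :
    ∃ Lf : ℝ → ℂ, ContinuousOn Lf (Set.Icc 1 2) ∧ ∀ s : ℝ, 1 < s → s ≤ 2 →
      Lf s = ∑' f : S.P →₀ ℕ, χ f * (((S.nf f : ℝ) ^ (-s) : ℝ) : ℂ) := by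
  have hcP := n2x_countable S
  have hC : 0 ≤ C := by
    have h1 := h 1 le_rfl
    rw [Real.one_rpow, mul_one] at h1
    exact (norm_nonneg _).trans h1
  refine ⟨fun s => ∫ t in Set.Ioi (1 : ℝ), (∑ f ∈ S.idl t, χ f) *
    ((s * t ^ (-s - 1) : ℝ) : ℂ), ?_, ?_⟩
  · -- continuity
    have hmeas : AEStronglyMeasurable (fun t : ℝ => ∑ f ∈ S.idl t, χ f)
        (volume.restrict (Set.Ioi 1)) := by
      have h1 : Measurable fun t : ℝ => ∑ f ∈ S.idl ((⌊t⌋₊ : ℕ) : ℝ), χ f := by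
        have h2 : Measurable fun n : ℕ => ∑ f ∈ S.idl (n : ℝ), χ f := measurable_from_nat
        exact h2.comp Nat.measurable_floor
      refine h1.aestronglyMeasurable.congr ?_
      refine (ae_restrict_iff' measurableSet_Ioi).2 (Eventually.of_forall fun t ht => ?_)
      have ht1 : (1 : ℝ) < t := ht
      change ∑ f ∈ S.idl ((⌊t⌋₊ : ℕ) : ℝ), χ f = ∑ f ∈ S.idl t, χ f
      rw [← n2x_idl_floor S (by linarith)]
    have hb : IntegrableOn (fun t : ℝ => 2 * C * t ^ (-1 - δ)) (Set.Ioi 1) :=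
      (integrableOn_Ioi_rpow_of_lt (by linarith) one_pos).const_mul (2 * C)
    refine continuousOn_of_dominated (bound := fun t : ℝ => 2 * C * t ^ (-1 - δ)) ?_ ?_ hb ?_
    · intro s _
      refine hmeas.mul ?_
      exact (Complex.measurable_ofReal.comp
        ((measurable_id.pow_const _).const_mul s)).aestronglyMeasurable
    · intro s hs
      refine (ae_restrict_iff' measurableSet_Ioi).2 (Eventually.of_forall fun t ht => ?_)
      have ht1 : (1 : ℝ) < t := ht
      have ht0 : 0 < t := by linarith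
      have h6 : 0 ≤ s * t ^ (-s - 1) := mul_nonneg (by linarith [hs.1]) (Real.rpow_nonneg ht0.le _)
      have h7 : s * t ^ (-s - 1) ≤ 2 * t ^ (-2 : ℝ) := by
        refine mul_le_mul hs.2 ?_ (Real.rpow_nonneg ht0.le _) zero_le_two
        exact Real.rpow_le_rpow_of_exponent_le ht1.le (by linarith [hs.1])
      rw [norm_mul, Complex.norm_real, Real.norm_eq_abs, abs_of_nonneg h6]
      have e4 : t ^ (-1 - δ) = t ^ (1 - δ) * t ^ (-2 : ℝ) := by
        rw [← Real.rpow_add ht0]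
        congr 1
        ring
      calc ‖∑ f ∈ S.idl t, χ f‖ * (s * t ^ (-s - 1)) ≤ (C * t ^ (1 - δ)) * (2 * t ^ (-2 : ℝ)) :=
            mul_le_mul (h t ht1.le) h7 h6 (mul_nonneg hC (Real.rpow_nonneg ht0.le _))
        _ = 2 * C * t ^ (-1 - δ) := by
            rw [e4]
            ring
    · refine (ae_restrict_iff' measurableSet_Ioi).2 (Eventually.of_forall fun t ht => ?_)
      have ht1 : (1 : ℝ) < t := ht
      have ht0 : 0 < t := by linarith
      refine Continuous.continuousOn ?_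
      refine continuous_const.mul (Complex.continuous_ofReal.comp ?_)
      refine continuous_id.mul ?_
      exact Real.continuous_const_rpow ht0.ne' |>.comp (by fun_prop)
  · -- the series
    intro s hs _
    let G : (S.P →₀ ℕ) → ℝ → ℂ := fun f t =>
      χ f * (((if (S.nf f : ℝ) ≤ t then s * t ^ (-s - 1) else 0 : ℝ)) : ℂ)
    have hGi : ∀ f, IntegrableOn (G f) (Set.Ioi 1) := fun f =>
      ((n2x_int _ s (n2x_one_le S f) hs).1.ofReal).const_mul (χ f)
    have hGv : ∀ f, ∫ t in Set.Ioi (1 : ℝ), G f t =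
        χ f * (((S.nf f : ℝ) ^ (-s) : ℝ) : ℂ) := by
      intro f
      rw [integral_const_mul, integral_complex_ofReal, (n2x_int _ s (n2x_one_le S f) hs).2]
    have hGn : ∀ f, ∫ t in Set.Ioi (1 : ℝ), ‖G f t‖ ≤ (S.nf f : ℝ) ^ (-s) := by
      intro f
      rw [← (n2x_int _ s (n2x_one_le S f) hs).2]
      refine setIntegral_mono_on (hGi f).norm (n2x_int _ s (n2x_one_le S f) hs).1
        measurableSet_Ioi ?_
      intro t ht
      have ht1 : 1 < t := ht
      have ht0 : 0 < t := by linarith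
      have h2 : 0 ≤ (if (S.nf f : ℝ) ≤ t then s * t ^ (-s - 1) else 0) := by
        split_ifs
        · positivity
        · exact le_rfl
      simp only [G]
      rw [norm_mul, Complex.norm_real, Real.norm_eq_abs, abs_of_nonneg h2]
      exact mul_le_of_le_one_left h2 (hχ f)
    have hsum : Summable fun f => ∫ t in Set.Ioi (1 : ℝ), ‖G f t‖ := by
      refine Summable.of_nonneg_of_le ?_ hGn (summable_nf S C₀ hC₀ s hs)
      intro f
      exact integral_nonneg fun t => norm_nonneg _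
    have hHS := hasSum_integral_of_summable_integral_norm hGi hsum
    have e1 : ∑' f : S.P →₀ ℕ, χ f * (((S.nf f : ℝ) ^ (-s) : ℝ) : ℂ) =
        ∫ t in Set.Ioi (1 : ℝ), ∑' f, G f t := by
      rw [← hHS.tsum_eq]
      exact tsum_congr fun f => (hGv f).symm
    have e2 : ∀ t : ℝ, ∑' f, G f t = (∑ f ∈ S.idl t, χ f) * ((s * t ^ (-s - 1) : ℝ) : ℂ) := by
      intro t
      rw [tsum_eq_sum (s := S.idl t)]
      · rw [Finset.sum_mul]
        refine Finset.sum_congr rfl fun f hf => ?_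
        simp only [G]
        rw [if_pos (S.mem_idl.1 hf)]
      · intro f hf
        simp only [G]
        rw [if_neg (fun h3 => hf (S.mem_idl.2 h3)), Complex.ofReal_zero, mul_zero]
    rw [e1]
    simp only [e2]

/-! ### Euler products -/

section

variable {P : Type}

open Classical in
/-- splitting off one prime -/
private noncomputable def n2xEquiv (p : P) (T : Finset P) (hp : p ∉ T) :
    {f : P →₀ ℕ // f.support ⊆ insert p T} ≃ {f : P →₀ ℕ // f.support ⊆ T} × ℕ where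
  toFun f := (⟨f.1.erase p, fun q hq => by
    rw [Finsupp.support_erase, Finset.mem_erase] at hq
    exact (Finset.mem_insert.1 (f.2 hq.2)).resolve_left hq.1⟩, f.1 p)
  invFun z := ⟨z.1.1 + Finsupp.single p z.2, fun q hq => by
    have h1 := Finsupp.support_add hq
    rw [Finset.mem_union] at h1
    rcases h1 with h1 | h1
    · exact Finset.mem_insert_of_mem (z.1.2 h1)
    · have h2 := Finsupp.support_single_subset h1
      rw [Finset.mem_singleton] at h2
      rw [h2]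
      exact Finset.mem_insert_self _ _⟩
  left_inv f := by
    apply Subtype.ext
    exact Finsupp.erase_add_single p f.1
  right_inv z := by
    obtain ⟨⟨f, hf⟩, n⟩ := z
    have h0 : f p = 0 := by
      by_contra h
      exact hp (hf (Finsupp.mem_support_iff.2 h))
    have h1 : (f + Finsupp.single p n) p = n := by
      rw [Finsupp.add_apply, h0, zero_add, Finsupp.single_eq_same]
    have h2 : (f + Finsupp.single p n).erase p = f := by
      rw [Finsupp.erase_add, Finsupp.erase_single, add_zero]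
      exact Finsupp.erase_of_notMem_support (Finsupp.notMem_support_iff.2 h0)
    simp only [h1, h2]

private theorem n2x_prod_split (c : P → ℂ) (p : P) (f : P →₀ ℕ) :
    (f.prod fun q n => c q ^ n) = ((f.erase p).prod fun q n => c q ^ n) * c p ^ f p := by
  classical
  conv_lhs => rw [← Finsupp.erase_add_single p f]
  rw [Finsupp.prod_add_index' (fun q => pow_zero _) fun q a b => pow_add _ _ _,
    Finsupp.prod_single_index (h := fun q n => c q ^ n) (pow_zero _)]

theorem n2x_gen (c : P → ℂ) (hc : ∀ p, ‖c p‖ < 1) (T : Finset P) :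
    HasSum (fun f : {f : P →₀ ℕ // f.support ⊆ T} => f.1.prod fun p n => c p ^ n)
      (∏ p ∈ T, (1 - c p)⁻¹) := by
  classical
  induction T using Finset.induction_on with
  | empty =>
    have h1 : ∀ f : {f : P →₀ ℕ // f.support ⊆ (∅ : Finset P)}, f = ⟨0, by simp⟩ := by
      rintro ⟨f, hf⟩
      apply Subtype.ext
      exact Finsupp.support_eq_empty.1 (Finset.subset_empty.1 hf)
    rw [Finset.prod_empty]
    have h2 := hasSum_single (f := fun f : {f : P →₀ ℕ // f.support ⊆ (∅ : Finset P)} =>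
      f.1.prod fun p n => c p ^ n) ⟨0, by simp⟩ (fun f hf => absurd (h1 f) hf)
    simpa using h2
  | insert p T hp ih =>
    have hg : HasSum (fun n : ℕ => c p ^ n) (1 - c p)⁻¹ := hasSum_geometric_of_norm_lt_one (hc p)
    have hn1 : Summable fun f : {f : P →₀ ℕ // f.support ⊆ T} =>
        ‖f.1.prod fun p n => c p ^ n‖ := ih.summable.norm
    have hn2 : Summable fun n : ℕ => ‖c p ^ n‖ := hg.summable.norm
    have h3 := summable_mul_of_summable_norm hn1 hn2
    have h4 := tsum_mul_tsum_of_summable_norm hn1 hn2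
    rw [ih.tsum_eq, hg.tsum_eq] at h4
    have h5 := h3.hasSum
    rw [← h4] at h5
    rw [Finset.prod_insert hp, mul_comm]
    have h6 := (n2xEquiv p T hp).hasSum_iff.2 h5
    have h7 : (fun f : {f : P →₀ ℕ // f.support ⊆ insert p T} => f.1.prod fun p n => c p ^ n) =
        (fun z : {f : P →₀ ℕ // f.support ⊆ T} × ℕ =>
          (z.1.1.prod fun p n => c p ^ n) * c p ^ z.2) ∘ (n2xEquiv p T hp) := by
      funext f
      exact n2x_prod_split c p f.1
    rw [h7]
    exact h6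

end

/-- the weight of a prime -/
theorem n2x_two (p : S.P) : (2 : ℝ) ≤ S.N p := by exact_mod_cast S.two_le p

theorem n2x_wt_le (p : S.P) {s : ℝ} (hs : 1 ≤ s) : (S.N p : ℝ) ^ (-s) ≤ (S.N p : ℝ) ^ (-1 : ℝ) :=
  Real.rpow_le_rpow_of_exponent_le (by linarith [n2x_two S p]) (by linarith)

theorem n2x_wt_half (p : S.P) {s : ℝ} (hs : 1 ≤ s) : (S.N p : ℝ) ^ (-s) ≤ 1 / 2 := by
  refine (n2x_wt_le S p hs).trans ?_
  rw [Real.rpow_neg_one, one_div]
  exact inv_anti₀ two_pos (n2x_two S p)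

theorem n2x_nf_rpow (x : S.P → ℂ) (s : ℝ) (f : S.P →₀ ℕ) :
    (f.prod fun p n => x p ^ n) * (((S.nf f : ℝ) ^ (-s) : ℝ) : ℂ) =
      f.prod fun p n => (x p * (((S.N p : ℝ) ^ (-s) : ℝ) : ℂ)) ^ n := by
  have h1 : (S.nf f : ℝ) ^ (-s) = f.prod fun p n => ((S.N p : ℝ) ^ (-s)) ^ n := by
    unfold Pre.nf Finsupp.prod
    push_cast
    rw [← Real.finsetProd_rpow _ _ fun p _ => by positivity]
    refine Finset.prod_congr rfl fun p _ => ?_
    rw [← Real.rpow_natCast, ← Real.rpow_natCast, ← Real.rpow_mul (Nat.cast_nonneg _),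
      ← Real.rpow_mul (Nat.cast_nonneg _), mul_comm]
  rw [h1]
  unfold Finsupp.prod
  rw [Complex.ofReal_prod, ← Finset.prod_mul_distrib]
  refine Finset.prod_congr rfl fun p _ => ?_
  beta_reduce
  rw [Complex.ofReal_pow, mul_pow]

theorem n2x_norm_prod (x : S.P → ℂ) (hx : ∀ p, ‖x p‖ ≤ 1) (f : S.P →₀ ℕ) :
    ‖f.prod fun p n => x p ^ n‖ ≤ 1 := by
  unfold Finsupp.prod
  rw [norm_prod]
  refine Finset.prod_le_one (fun p _ => norm_nonneg _) fun p _ => ?_
  rw [norm_pow]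
  exact pow_le_one₀ (norm_nonneg _) (hx p)

/-- the second order part of the logarithm -/
noncomputable def n2xg (x : S.P → ℂ) (p : S.P) (s : ℝ) : ℂ :=
  -Complex.log (1 - x p * (((S.N p : ℝ) ^ (-s) : ℝ) : ℂ)) -
    x p * (((S.N p : ℝ) ^ (-s) : ℝ) : ℂ)

theorem n2x_norm_u (x : S.P → ℂ) (hx : ∀ p, ‖x p‖ ≤ 1) (p : S.P) (s : ℝ) :
    ‖x p * (((S.N p : ℝ) ^ (-s) : ℝ) : ℂ)‖ ≤ (S.N p : ℝ) ^ (-s) := by
  have h0 : 0 ≤ (S.N p : ℝ) ^ (-s) := Real.rpow_nonneg (Nat.cast_nonneg _) _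
  rw [norm_mul, Complex.norm_real, Real.norm_eq_abs, abs_of_nonneg h0]
  exact mul_le_of_le_one_left h0 (hx p)

theorem n2x_g_le (x : S.P → ℂ) (hx : ∀ p, ‖x p‖ ≤ 1) (p : S.P) {s : ℝ} (hs : 1 ≤ s) :
    ‖n2xg S x p s‖ ≤ (S.N p : ℝ) ^ (-2 : ℝ) := by
  set u : ℂ := x p * (((S.N p : ℝ) ^ (-s) : ℝ) : ℂ) with hu
  have h1 : ‖u‖ ≤ (S.N p : ℝ) ^ (-s) := n2x_norm_u S x hx p s
  have h2 : ‖u‖ ≤ 1 / 2 := h1.trans (n2x_wt_half S p hs)
  have h3 : ‖-u‖ < 1 := by
    rw [norm_neg]
    linarith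
  have h4 := Complex.norm_log_one_add_sub_self_le h3
  rw [norm_neg] at h4
  have e : n2xg S x p s = -(Complex.log (1 + -u) - -u) := by
    have h0 : n2xg S x p s = -Complex.log (1 - u) - u := rfl
    rw [h0, ← sub_eq_add_neg]
    ring
  rw [e, norm_neg]
  refine h4.trans ?_
  have h5 : (1 - ‖u‖)⁻¹ ≤ 2 := by
    rw [inv_le_comm₀ (by linarith) two_pos]
    norm_num
    linarith
  have h6 : ‖u‖ ≤ (S.N p : ℝ) ^ (-1 : ℝ) := h1.trans (n2x_wt_le S p hs)
  have h7 : ‖u‖ ^ 2 ≤ (S.N p : ℝ) ^ (-2 : ℝ) := by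
    calc ‖u‖ ^ 2 ≤ ((S.N p : ℝ) ^ (-1 : ℝ)) ^ 2 := pow_le_pow_left₀ (norm_nonneg _) h6 2
      _ = (S.N p : ℝ) ^ (-2 : ℝ) := by
        rw [← Real.rpow_natCast, ← Real.rpow_mul (Nat.cast_nonneg _)]
        norm_num
  calc ‖u‖ ^ 2 * (1 - ‖u‖)⁻¹ / 2 ≤ ‖u‖ ^ 2 * 2 / 2 := by
        refine div_le_div_of_nonneg_right ?_ zero_le_two
        exact mul_le_mul_of_nonneg_left h5 (sq_nonneg _)
    _ = ‖u‖ ^ 2 := by ring
    _ ≤ _ := h7

theorem n2x_g_cont (x : S.P → ℂ) (hx : ∀ p, ‖x p‖ ≤ 1) (p : S.P) :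
    ContinuousOn (n2xg S x p) (Set.Icc 1 2) := by
  have hN : (S.N p : ℝ) ≠ 0 := by linarith [n2x_two S p]
  have hc : Continuous fun s : ℝ => x p * (((S.N p : ℝ) ^ (-s) : ℝ) : ℂ) := by
    refine continuous_const.mul (Complex.continuous_ofReal.comp ?_)
    exact (Real.continuous_const_rpow hN).comp continuous_neg
  unfold n2xg
  refine ContinuousOn.sub ?_ hc.continuousOn
  refine ContinuousOn.neg ?_
  refine ContinuousOn.clog (continuous_const.sub hc).continuousOn fun s hs => ?_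
  left
  have h1 := (n2x_norm_u S x hx p s).trans (n2x_wt_half S p hs.1)
  have h2 := (Complex.abs_re_le_norm _).trans h1
  have h3 := (abs_le.1 h2).2
  rw [Complex.sub_re, Complex.one_re]
  linarith

/-- the logarithm of the Euler product -/
theorem n2x_euler (C₀ : ℝ) (hC₀ : ∀ X : ℝ, 1 ≤ X → ((S.idl X).card : ℝ) ≤ C₀ * X)
    (x : S.P → ℂ) (hx : ∀ p, ‖x p‖ ≤ 1) {s : ℝ} (hs : 1 < s) :
    ∑' f : S.P →₀ ℕ, (f.prod fun p n => x p ^ n) * (((S.nf f : ℝ) ^ (-s) : ℝ) : ℂ) =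
      Complex.exp (∑' p : S.P, x p * (((S.N p : ℝ) ^ (-s) : ℝ) : ℂ) + ∑' p, n2xg S x p s) := by
  classical
  have hsum2 := pre_summable_N S C₀ hC₀ 2 (by norm_num)
  have hsN := pre_summable_N S C₀ hC₀ s hs
  have hsf := summable_nf S C₀ hC₀ s hs
  set u : S.P → ℂ := fun p => x p * (((S.N p : ℝ) ^ (-s) : ℝ) : ℂ) with hu
  set F : (S.P →₀ ℕ) → ℂ := fun f =>
    (f.prod fun p n => x p ^ n) * (((S.nf f : ℝ) ^ (-s) : ℝ) : ℂ) with hF
  have hun : ∀ p, ‖u p‖ ≤ (S.N p : ℝ) ^ (-s) := fun p => n2x_norm_u S x hx p s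
  have hu_half : ∀ p, ‖u p‖ ≤ 1 / 2 := fun p => (hun p).trans (n2x_wt_half S p hs.le)
  have hsu : Summable u := Summable.of_norm_bounded hsN hun
  have hsg : Summable fun p => n2xg S x p s :=
    Summable.of_norm_bounded hsum2 fun p => n2x_g_le S x hx p hs.le
  -- finite products
  have hE1 : ∀ T : Finset S.P, ∏ p ∈ T, (1 - u p)⁻¹ =
      Complex.exp (∑ p ∈ T, (u p + n2xg S x p s)) := by
    intro T
    rw [Complex.exp_sum]
    refine Finset.prod_congr rfl fun p _ => ?_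
    have h1 : u p + n2xg S x p s = -Complex.log (1 - u p) := by
      have h0 : n2xg S x p s = -Complex.log (1 - u p) - u p := rfl
      rw [h0]
      ring
    have h2 : 1 - u p ≠ 0 := by
      intro h3
      have h4 : u p = 1 := (sub_eq_zero.1 h3).symm
      have h5 := hu_half p
      rw [h4, norm_one] at h5
      norm_num at h5
    rw [h1, Complex.exp_neg, Complex.exp_log h2]
  have hlim1 : Tendsto (fun T : Finset S.P => ∏ p ∈ T, (1 - u p)⁻¹) atTop
      (𝓝 (Complex.exp (∑' p, u p + ∑' p, n2xg S x p s))) := by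
    simp only [hE1]
    refine (Complex.continuous_exp.tendsto _).comp ?_
    exact hsu.hasSum.add hsg.hasSum
  have hlim2 : Tendsto (fun T : Finset S.P => ∏ p ∈ T, (1 - u p)⁻¹) atTop (𝓝 (∑' f, F f)) := by
    have hc : ∀ p, ‖u p‖ < 1 := fun p => lt_of_le_of_lt (hu_half p) (by norm_num)
    have h1 : ∀ T : Finset S.P, ∏ p ∈ T, (1 - u p)⁻¹ =
        ∑' f : S.P →₀ ℕ, if f.support ⊆ T then F f else 0 := by
      intro T
      have h2 := (n2x_gen u hc T).tsum_eq
      rw [← h2]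
      have h3 : ∑' f : {f : S.P →₀ ℕ // f.support ⊆ T}, (f.1.prod fun p n => u p ^ n) =
          ∑' f : {f : S.P →₀ ℕ // f.support ⊆ T}, F f.1 :=
        tsum_congr fun f => (n2x_nf_rpow S x s f.1).symm
      rw [h3]
      have h4 := tsum_subtype {f : S.P →₀ ℕ | f.support ⊆ T} F
      refine h4.trans (tsum_congr fun f => ?_)
      rw [Set.indicator_apply]
      rfl
    rw [show (fun T : Finset S.P => ∏ p ∈ T, (1 - u p)⁻¹) =
      fun T => ∑' f : S.P →₀ ℕ, if f.support ⊆ T then F f else 0 from funext h1]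
    refine tendsto_tsum_of_dominated_convergence hsf (fun f => ?_) (Eventually.of_forall
      fun T f => ?_)
    · refine tendsto_const_nhds.congr' ?_
      filter_upwards [eventually_ge_atTop f.support] with T hT
      rw [if_pos hT]
    · have hpos : (0 : ℝ) < (S.nf f : ℝ) ^ (-s) :=
        Real.rpow_pos_of_pos (by exact_mod_cast S.nf_pos f) _
      split_ifs
      · rw [hF, norm_mul, Complex.norm_real, Real.norm_eq_abs, abs_of_pos hpos]
        exact mul_le_of_le_one_left hpos.le (n2x_norm_prod S x hx f)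
      · rw [norm_zero]
        exact hpos.le
  exact tendsto_nhds_unique hlim2 hlim1

/-- the abstract theorem -/
theorem n2x_main (C₀ : ℝ) (hC₀ : ∀ X : ℝ, 1 ≤ X → ((S.idl X).card : ℝ) ≤ C₀ * X)
    (x : S.P → ℂ) (hx : ∀ p, ‖x p‖ ≤ 1) (C δ : ℝ) (hδ : 0 < δ)
    (h : ∀ X : ℝ, 1 ≤ X → ‖∑ f ∈ S.idl X, f.prod fun p n => x p ^ n‖ ≤ C * X ^ (1 - δ)) :
    ∃ Lf g : ℝ → ℂ, ContinuousOn Lf (Set.Icc 1 2) ∧ ContinuousOn g (Set.Icc 1 2) ∧
      ∀ s : ℝ, 1 < s → s ≤ 2 → Lf s =
        Complex.exp (∑' p : S.P, x p * (((S.N p : ℝ) ^ (-s) : ℝ) : ℂ) + g s) := by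
  obtain ⟨Lf, h1, h2⟩ := n2x_abel S (fun f => f.prod fun p n => x p ^ n)
    (n2x_norm_prod S x hx) C₀ hC₀ C δ hδ h
  refine ⟨Lf, fun s => ∑' p, n2xg S x p s, h1, ?_, fun s hs hs2 => ?_⟩
  · refine continuousOn_tsum (fun p => n2x_g_cont S x hx p)
      (pre_summable_N S C₀ hC₀ 2 (by norm_num)) fun p s hs => n2x_g_le S x hx p hs.1
  · rw [h2 s hs hs2]
    exact n2x_euler S C₀ hC₀ x hx hs

end Pool.Agent.H92.EL
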