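import Pool.Agent.H92.EL.CStm
import Pool.Agent.H92.EL.N2x

/-!
# Project ELL (MP_a3214d), block C, row C1: upper bound for the prime sums of characters
-/

set_option autoImplicit false

open scoped BigOperators Topology
open Filter MeasureTheory

namespace Pool.Agent.H92.EL

open Pool.Agent.H98.MF

/-! ### the series as an integral -/

private theorem clup_int (S : Pre) (χ : (S.P →₀ ℕ) → ℂ) (hχ : ∀ f, ‖χ f‖ ≤ 1) (C₀ : ℝ)
    (hC₀ : ∀ X : ℝ, 1 ≤ X → ((S.idl X).card : ℝ) ≤ C₀ * X) {s : ℝ} (hs : 1 < s) :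
    ∑' f : S.P →₀ ℕ, χ f * (((S.nf f : ℝ) ^ (-s) : ℝ) : ℂ) =
      ∫ t in Set.Ioi (1 : ℝ), (∑ f ∈ S.idl t, χ f) * ((s * t ^ (-s - 1) : ℝ) : ℂ) := by
  have hcP := n2x_countable S
  let G : (S.P →₀ ℕ) → ℝ → ℂ := fun f t =>
    χ f * (((if (S.nf f : ℝ) ≤ t then s * t ^ (-s - 1) else 0 : ℝ)) : ℂ)
  have hGi : ∀ f, IntegrableOn (G f) (Set.Ioi 1) := fun f =>
    ((n2x_int _ s (n2x_one_le S f) hs).1.ofReal).const_mul (χ f)
  have hGv : ∀ f, ∫ t in Set.Ioi (1 : ℝ), G f t =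
      χ f * (((S.nf f : ℝ) ^ (-s) : ℝ) : ℂ) := by
    intro f
    rw [integral_const_mul, integral_complex_ofReal, (n2x_int _ s (n2x_one_le S f) hs).2]
  have hGn : ∀ f, ∫ t in Set.Ioi (1 : ℝ), ‖G f t‖ ≤ (S.nf f : ℝ) ^ (-s) := by
    intro f
    rw [← (n2x_int _ s (n2x_one_le S f) hs).2]
    refine setIntegral_mono_on (hGi f).norm (n2x_int _ s (n2x_one_le S f) hs).1
      measurableSet_Ioi ?_
    intro t ht
    have ht1 : 1 < t := ht
    have ht0 : 0 < t := by linarith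
    have h2 : 0 ≤ (if (S.nf f : ℝ) ≤ t then s * t ^ (-s - 1) else 0) := by
      split_ifs
      · positivity
      · exact le_rfl
    simp only [G]
    rw [norm_mul, Complex.norm_real, Real.norm_eq_abs, abs_of_nonneg h2]
    exact mul_le_of_le_one_left h2 (hχ f)
  have hsum : Summable fun f => ∫ t in Set.Ioi (1 : ℝ), ‖G f t‖ := by
    refine Summable.of_nonneg_of_le ?_ hGn (summable_nf S C₀ hC₀ s hs)
    intro f
    exact integral_nonneg fun t => norm_nonneg _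
  have hHS := hasSum_integral_of_summable_integral_norm hGi hsum
  have e1 : ∑' f : S.P →₀ ℕ, χ f * (((S.nf f : ℝ) ^ (-s) : ℝ) : ℂ) =
      ∫ t in Set.Ioi (1 : ℝ), ∑' f, G f t := by
    rw [← hHS.tsum_eq]
    exact tsum_congr fun f => (hGv f).symm
  have e2 : ∀ t : ℝ, ∑' f, G f t = (∑ f ∈ S.idl t, χ f) * ((s * t ^ (-s - 1) : ℝ) : ℂ) := by
    intro t
    rw [tsum_eq_sum (s := S.idl t)]
    · rw [Finset.sum_mul]
      refine Finset.sum_congr rfl fun f hf => ?_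
      simp only [G]
      rw [if_pos (S.mem_idl.1 hf)]
    · intro f hf
      simp only [G]
      rw [if_neg (fun h3 => hf (S.mem_idl.2 h3)), Complex.ofReal_zero, mul_zero]
  rw [e1]
  simp only [e2]

/-- the bound for the series: cut at `T` -/
private theorem clup_bound (S : Pre) (χ : (S.P →₀ ℕ) → ℂ) (hχ : ∀ f, ‖χ f‖ ≤ 1) (C₀ : ℝ)
    (hC₀ : ∀ X : ℝ, 1 ≤ X → ((S.idl X).card : ℝ) ≤ C₀ * X) (B δ : ℝ) (hδ : 0 < δ)
    (h : ∀ X : ℝ, 1 ≤ X → ‖∑ f ∈ S.idl X, χ f‖ ≤ B * X ^ (1 - δ)) {s : ℝ} (hs : 1 < s)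
    (hs2 : s ≤ 2) {T : ℝ} (hT : 1 ≤ T) :
    ‖∑' f : S.P →₀ ℕ, χ f * (((S.nf f : ℝ) ^ (-s) : ℝ) : ℂ)‖ ≤
      2 * C₀ * Real.log T + 2 * B * (T ^ (-δ) / δ) := by
  have hT0 : 0 < T := by linarith
  have hB : 0 ≤ B := by
    have h1 := h 1 le_rfl
    rw [Real.one_rpow, mul_one] at h1
    exact (norm_nonneg _).trans h1
  have hC0 : 0 ≤ C₀ := by
    have h1 := hC₀ 1 le_rfl
    have h2 : (0 : ℝ) ≤ ((S.idl 1).card : ℝ) := Nat.cast_nonneg _
    linarith
  rw [clup_int S χ hχ C₀ hC₀ hs]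
  have hi1 : IntegrableOn (fun t : ℝ => 2 * C₀ * t⁻¹) (Set.Ioc 1 T) := by
    refine IntegrableOn.mono_set (t := Set.Icc 1 T) ?_ Set.Ioc_subset_Icc_self
    refine ContinuousOn.integrableOn_Icc ?_
    refine continuousOn_const.mul (continuousOn_inv₀.mono ?_)
    intro t ht
    have : 1 ≤ t := ht.1
    simp only [Set.mem_compl_iff, Set.mem_singleton_iff]
    intro h0
    rw [h0] at this
    linarith
  have hi2 : IntegrableOn (fun t : ℝ => 2 * B * t ^ (-1 - δ)) (Set.Ioi T) :=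
    (integrableOn_Ioi_rpow_of_lt (by linarith) hT0).const_mul (2 * B)
  have hsub : Set.Ioi T ⊆ Set.Ioi (1 : ℝ) := fun t ht => lt_of_le_of_lt hT ht
  have hg1 : IntegrableOn ((Set.Ioc 1 T).indicator fun t : ℝ => 2 * C₀ * t⁻¹) (Set.Ioi 1) :=
    (hi1.integrable_indicator measurableSet_Ioc).integrableOn
  have hg2 : IntegrableOn ((Set.Ioi T).indicator fun t : ℝ => 2 * B * t ^ (-1 - δ)) (Set.Ioi 1) :=
    (hi2.integrable_indicator measurableSet_Ioi).integrableOn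
  have hg := hg1.add hg2
  refine (norm_integral_le_of_norm_le hg ?_).trans ?_
  · refine (ae_restrict_iff' measurableSet_Ioi).2 (Eventually.of_forall fun t ht => ?_)
    have ht1 : (1 : ℝ) < t := ht
    have ht0 : 0 < t := by linarith
    have h6 : 0 ≤ s * t ^ (-s - 1) := mul_nonneg (by linarith) (Real.rpow_nonneg ht0.le _)
    have h7 : s * t ^ (-s - 1) ≤ 2 * t ^ (-2 : ℝ) := by
      refine mul_le_mul hs2 ?_ (Real.rpow_nonneg ht0.le _) zero_le_two
      exact Real.rpow_le_rpow_of_exponent_le ht1.le (by linarith)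
    rw [norm_mul, Complex.norm_real, Real.norm_eq_abs, abs_of_nonneg h6]
    show _ ≤ (Set.Ioc 1 T).indicator (fun t : ℝ => 2 * C₀ * t⁻¹) t +
      (Set.Ioi T).indicator (fun t : ℝ => 2 * B * t ^ (-1 - δ)) t
    rcases le_or_gt t T with h8 | h8
    · rw [Set.indicator_of_mem (show t ∈ Set.Ioc 1 T from ⟨ht1, h8⟩),
        Set.indicator_of_notMem (show t ∉ Set.Ioi T from not_lt.2 h8), add_zero]
      have h9 : ‖∑ f ∈ S.idl t, χ f‖ ≤ C₀ * t := by
        refine (norm_sum_le _ _).trans ?_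
        refine le_trans (Finset.sum_le_card_nsmul _ _ 1 fun f _ => hχ f) ?_
        rw [nsmul_eq_mul, mul_one]
        exact hC₀ t ht1.le
      have e : C₀ * t * (2 * t ^ (-2 : ℝ)) = 2 * C₀ * t⁻¹ := by
        have e1 : t ^ (-2 : ℝ) = t⁻¹ * t⁻¹ := by
          rw [← Real.rpow_neg_one, ← Real.rpow_add ht0]
          norm_num
        rw [e1]
        field_simp
      rw [← e]
      exact mul_le_mul h9 h7 h6 (mul_nonneg hC0 ht0.le)
    · rw [Set.indicator_of_notMem (show t ∉ Set.Ioc 1 T from fun h9 => not_le.2 h8 h9.2),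
        Set.indicator_of_mem (show t ∈ Set.Ioi T from h8), zero_add]
      have e4 : t ^ (-1 - δ) = t ^ (1 - δ) * t ^ (-2 : ℝ) := by
        rw [← Real.rpow_add ht0]
        congr 1
        ring
      calc ‖∑ f ∈ S.idl t, χ f‖ * (s * t ^ (-s - 1)) ≤ (B * t ^ (1 - δ)) * (2 * t ^ (-2 : ℝ)) :=
            mul_le_mul (h t ht1.le) h7 h6 (mul_nonneg hB (Real.rpow_nonneg ht0.le _))
        _ = 2 * B * t ^ (-1 - δ) := by
            rw [e4]
            ring
  · have e0 : ∫ t in Set.Ioi (1 : ℝ), ((Set.Ioc 1 T).indicator (fun t : ℝ => 2 * C₀ * t⁻¹) +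
        (Set.Ioi T).indicator (fun t : ℝ => 2 * B * t ^ (-1 - δ))) t =
        (∫ t in Set.Ioi (1 : ℝ), (Set.Ioc 1 T).indicator (fun t : ℝ => 2 * C₀ * t⁻¹) t) +
        ∫ t in Set.Ioi (1 : ℝ), (Set.Ioi T).indicator (fun t : ℝ => 2 * B * t ^ (-1 - δ)) t :=
      integral_add hg1 hg2
    rw [e0, setIntegral_indicator measurableSet_Ioc, setIntegral_indicator measurableSet_Ioi]
    have e1 : Set.Ioi (1 : ℝ) ∩ Set.Ioc 1 T = Set.Ioc 1 T :=
      Set.inter_eq_self_of_subset_right fun t ht => ht.1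
    have e2 : Set.Ioi (1 : ℝ) ∩ Set.Ioi T = Set.Ioi T :=
      Set.inter_eq_self_of_subset_right hsub
    rw [e1, e2, integral_const_mul, integral_const_mul, ← intervalIntegral.integral_of_le hT,
      integral_inv_of_pos one_pos hT0, div_one, integral_Ioi_rpow_of_lt (by linarith) hT0]
    have e3 : -1 - δ + 1 = -δ := by ring
    rw [e3, neg_div_neg_eq]

/-! ### the character -/

private theorem clup_char_sum {ι A : Type*} [AddCommMonoid A] (χ : AddChar A ℂ) (s : Finset ι)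
    (f : ι → A) : χ (∑ i ∈ s, f i) = ∏ i ∈ s, χ (f i) := by
  classical
  induction s using Finset.induction_on with
  | empty => simp
  | insert a s ha ih => rw [Finset.sum_insert ha, Finset.prod_insert ha, AddChar.map_add_eq_mul, ih]

private theorem clup_norm {l : ℕ} [NeZero l] (a : ZMod l) : ‖ec a‖ = 1 := by
  unfold ec
  exact AddChar.norm_apply _ _

open Classical in
/-- the values at the primes -/
private noncomputable def clupX {l : ℕ} [NeZero l] (S : Pre) (y : Finset S.P) (g : S.P → ZMod l)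
    (p : S.P) : ℂ := if p ∈ y then 0 else ec (g p)

private theorem clup_X1 {l : ℕ} [NeZero l] (S : Pre) (y : Finset S.P) (g : S.P → ZMod l)
    (p : S.P) : ‖clupX S y g p‖ ≤ 1 := by
  unfold clupX
  split_ifs
  · rw [norm_zero]
    exact zero_le_one
  · rw [clup_norm]

private theorem clup_chc {l : ℕ} [NeZero l] (S : Pre) (y : Finset S.P) (g : S.P → ZMod l)
    (f : S.P →₀ ℕ) : chc S y g f = f.prod fun p n => clupX S y g p ^ n := by
  classical
  unfold chc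
  split_ifs with h
  · unfold ec Finsupp.sum Finsupp.prod
    rw [clup_char_sum]
    refine Finset.prod_congr rfl fun p hp => ?_
    have h0 : clupX S y g p = ZMod.stdAddChar (g p) := if_neg (Finset.disjoint_left.1 h hp)
    show (ZMod.stdAddChar ((f p : ZMod l) * g p) : ℂ) = clupX S y g p ^ f p
    rw [h0, ← AddChar.map_nsmul_eq_pow, nsmul_eq_mul]
  · rw [Finset.not_disjoint_iff] at h
    obtain ⟨p, hp, hpy⟩ := h
    symm
    unfold Finsupp.prod
    refine Finset.prod_eq_zero hp ?_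
    have h0 : clupX S y g p = 0 := if_pos hpy
    show clupX S y g p ^ f p = 0
    rw [h0]
    exact zero_pow (Finsupp.mem_support_iff.1 hp)

theorem slupL : SLupL := by
  classical
  intro l _ S
  have hl0 : NeZero l := ⟨(Fact.out : l.Prime).ne_zero⟩
  have hδ := S.δ_pos
  have hA := S.A_nonneg
  have hC := S.C_nonneg
  have hκ := S.κ_pos
  have hC₀ : ∀ X : ℝ, 1 ≤ X → ((S.toPre.idl X).card : ℝ) ≤ (S.κ + S.C) * X := by
    intro X hX
    have h1 := (abs_le.1 (S.cnt X hX)).2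
    have h2 : X ^ (1 - S.δ) ≤ X := by
      have h3 := Real.rpow_le_rpow_of_exponent_le hX (by linarith : 1 - S.δ ≤ 1)
      rwa [Real.rpow_one] at h3
    have h4 := mul_le_mul_of_nonneg_left h2 hC
    linarith
  obtain ⟨K, hK⟩ : ∃ K : ℝ, K = 2 * (S.κ + S.C) * (S.A / S.δ) + 2 * S.C / S.δ + 1 := ⟨_, rfl⟩
  have ha : 0 ≤ 2 * (S.κ + S.C) * (S.A / S.δ) :=
    mul_nonneg (by linarith) (div_nonneg hA hδ.le)
  have hb : 0 ≤ 2 * S.C / S.δ := div_nonneg (by linarith) hδ.le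
  have hK0 : 0 < K := by
    rw [hK]
    linarith
  have hsum2 := pre_summable_N S.toPre (S.κ + S.C) hC₀ 2 (by norm_num)
  have hsq0 : 0 ≤ ∑' p : S.P, (S.N p : ℝ) ^ (-(2 : ℝ)) :=
    tsum_nonneg fun p => Real.rpow_nonneg (Nat.cast_nonneg _) _
  refine ⟨|Real.log K| + ∑' p : S.P, (S.N p : ℝ) ^ (-(2 : ℝ)),
    add_nonneg (abs_nonneg _) hsq0, ?_⟩
  intro c hc s hs hs2
  set y : Finset S.P := c.2.support with hy
  set g : S.P → ZMod l := fun p => S.ex c p with hg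
  set x : S.P → ℂ := clupX S.toPre y g with hx
  have hx1 : ∀ p, ‖x p‖ ≤ 1 := fun p => clup_X1 S.toPre y g p
  have hQ1 : (1 : ℝ) ≤ S.toPre.nm y := by
    have h1 : 0 < S.toPre.nm y := Finset.prod_pos fun p _ => S.toPre.one_le_N p
    exact_mod_cast h1
  have hQ0 : (0 : ℝ) < S.toPre.nm y := by linarith
  obtain ⟨lg, hlg⟩ : ∃ lg : ℝ, lg = Real.log (S.toPre.nm y) := ⟨_, rfl⟩
  have hlg0 : 0 ≤ lg := by
    rw [hlg]
    exact Real.log_nonneg hQ1
  -- the character sums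
  have hne : c.2 ≠ 0 ∨ c.1 ≠ 0 := by
    by_contra h
    push Not at h
    exact hc (Prod.ext h.2 h.1)
  have hch : ∀ X : ℝ, 1 ≤ X → ‖∑ f ∈ S.toPre.idl X, (f.prod fun p n => x p ^ n)‖ ≤
      S.C * (S.toPre.nm y : ℝ) ^ S.A * X ^ (1 - S.δ) := by
    intro X hX
    have h1 := S.chr c.2 c.1 hne X hX
    have h2 : ∑ f ∈ S.toPre.idl X, (f.prod fun p n => x p ^ n) =
        ∑ i ∈ S.toPre.idl X,
          chc S.toPre c.2.support (fun p => (c.2.sum fun q t => t * S.s q p) + c.1 ⬝ᵥ S.ty p) i :=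
      Finset.sum_congr rfl fun f _ => (clup_chc S.toPre y g f).symm
    rw [h2]
    exact h1
  -- the bound
  obtain ⟨T, hTd⟩ : ∃ T : ℝ, T = (S.toPre.nm y : ℝ) ^ (S.A / S.δ) := ⟨_, rfl⟩
  have hT1 : 1 ≤ T := by
    rw [hTd]
    exact Real.one_le_rpow hQ1 (div_nonneg hA hδ.le)
  have hTl : Real.log T = S.A / S.δ * lg := by
    rw [hTd, Real.log_rpow hQ0, hlg]
  have hTδ : T ^ (-S.δ) = (S.toPre.nm y : ℝ) ^ (-S.A) := by
    rw [hTd, ← Real.rpow_mul hQ0.le]
    congr 1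
    field_simp
  have hbd := clup_bound S.toPre (fun f => f.prod fun p n => x p ^ n)
    (n2x_norm_prod S.toPre x hx1) (S.κ + S.C) hC₀ (S.C * (S.toPre.nm y : ℝ) ^ S.A) S.δ hδ hch
    hs hs2 hT1
  have hbd2 : 2 * (S.κ + S.C) * Real.log T +
      2 * (S.C * (S.toPre.nm y : ℝ) ^ S.A) * (T ^ (-S.δ) / S.δ) ≤ K * (1 + lg) := by
    have e1 : (S.toPre.nm y : ℝ) ^ S.A * (S.toPre.nm y : ℝ) ^ (-S.A) = 1 := by
      rw [← Real.rpow_add hQ0, add_neg_cancel, Real.rpow_zero]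
    have e2 : 2 * (S.C * (S.toPre.nm y : ℝ) ^ S.A) * (T ^ (-S.δ) / S.δ) = 2 * S.C / S.δ := by
      rw [hTδ]
      calc 2 * (S.C * (S.toPre.nm y : ℝ) ^ S.A) * ((S.toPre.nm y : ℝ) ^ (-S.A) / S.δ)
          = 2 * S.C / S.δ * ((S.toPre.nm y : ℝ) ^ S.A * (S.toPre.nm y : ℝ) ^ (-S.A)) := by ring
        _ = 2 * S.C / S.δ := by rw [e1, mul_one]
    rw [e2, hTl, hK]
    have e3 : 0 ≤ 2 * S.C / S.δ * lg := mul_nonneg hb hlg0
    have e4 : 2 * (S.κ + S.C) * (S.A / S.δ * lg) = 2 * (S.κ + S.C) * (S.A / S.δ) * lg := by ring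
    rw [e4]
    linarith
  have hL := hbd.trans hbd2
  have hE := n2x_euler S.toPre (S.κ + S.C) hC₀ x hx1 hs
  rw [hE, Complex.norm_exp, Complex.add_re] at hL
  have hpos : 0 < K * (1 + lg) := mul_pos hK0 (by linarith)
  have h3 : (∑' p : S.P, x p * (((S.N p : ℝ) ^ (-s) : ℝ) : ℂ)).re +
      (∑' p, n2xg S.toPre x p s).re ≤ Real.log K + Real.log (1 + lg) := by
    rw [← Real.log_mul hK0.ne' (by linarith), ← Real.exp_le_exp, Real.exp_log hpos]
    exact hL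
  -- the second order part
  have h4 : -(∑' p : S.P, (S.N p : ℝ) ^ (-(2 : ℝ))) ≤ (∑' p, n2xg S.toPre x p s).re := by
    have h5 : ‖∑' p, n2xg S.toPre x p s‖ ≤ ∑' p : S.P, (S.N p : ℝ) ^ (-(2 : ℝ)) :=
      tsum_of_norm_bounded hsum2.hasSum fun p => n2x_g_le S.toPre x hx1 p hs.le
    have h6 := (abs_le.1 ((Complex.abs_re_le_norm _).trans h5)).1
    exact h6
  -- the real parts
  have hsx : Summable fun p : S.P => x p * (((S.N p : ℝ) ^ (-s) : ℝ) : ℂ) :=
    Summable.of_norm_bounded (pre_summable_N S.toPre (S.κ + S.C) hC₀ s hs)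
      fun p => n2x_norm_u S.toPre x hx1 p s
  have h7 : ∑' p : S.P, (if p ∈ c.2.support then 0 else (ec (S.ex c p)).re) *
      (S.N p : ℝ) ^ (-s) = (∑' p : S.P, x p * (((S.N p : ℝ) ^ (-s) : ℝ) : ℂ)).re := by
    rw [Complex.re_tsum hsx]
    refine tsum_congr fun p => ?_
    rw [Complex.re_mul_ofReal]
    congr 1
    rw [hx]
    unfold clupX
    split_ifs with h8
    · rw [Complex.zero_re]
    · rfl
  have h8 := le_abs_self (Real.log K)
  rw [← hlg]
  convert (by linarith : (∑' p : S.P, x p * (((S.N p : ℝ) ^ (-s) : ℝ) : ℂ)).re ≤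
    Real.log (1 + lg) + (|Real.log K| + ∑' p : S.P, (S.N p : ℝ) ^ (-(2 : ℝ)))) using 1

end Pool.Agent.H92.EL
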