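import Pool.Agent.H92.EL.CStm

/-!
# Project ELL (MP_a3214d), row C22: the result for a fixed frame
-/

set_option autoImplicit false

open scoped BigOperators Topology
open Filter

namespace Pool.Agent.H92.EL

/-- Row C22: the reduction to Euler products and their limit give the limit. -/
theorem smain (h1 : SMainA) (h2 : SMainL) : SMain := by
  intro l _ S d n Bd R c Φ θ B τ hR hτ hc hG hΦ hθ hp
  obtain ⟨L, hL0, hL, hpos⟩ := h2 l S d n Bd R c θ B τ hR hτ hc hθ hp
  refine ⟨L, hL0, ?_, hpos⟩
  have h3 := (h1 l S d n Bd R c Φ θ B τ hR hτ hc hG hΦ).add hL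
  rw [zero_add] at h3
  have h4 := (Complex.continuous_re.tendsto ((L : ℝ) : ℂ)).comp h3
  rw [Complex.ofReal_re] at h4
  refine h4.congr fun σ => ?_
  have h5 : ∀ x y z : ℂ, x * (y - z) + x * z = x * y := fun x y z => by ring
  simp only [Function.comp_apply]
  rw [h5, ← Complex.ofReal_mul, Complex.ofReal_re]

end Pool.Agent.H92.EL
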