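import Pool.Agent.H92.EL.CMainA_a

/-!
# Project ELL (MP_a3214d), block C, row C19: reduction of the main term to Euler products
-/

set_option autoImplicit false

open scoped BigOperators Topology
open Filter

namespace Pool.Agent.H92.EL

open Pool.Agent.H98.MF (Pre)

private theorem cma_err (E : ℝ) (hE : 0 ≤ E) :
    Tendsto (fun σ : ℝ => σ * (1 + Real.log (1 / σ)) ^ E) (𝓝[>] 0) (𝓝 0) := by
  obtain ⟨ε, hε⟩ : ∃ ε : ℝ, ε = 1 / (2 * (E + 1)) := ⟨_, rfl⟩
  have hε0 : 0 < ε := by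
    rw [hε]
    positivity
  have hεE : ε * E ≤ 1 / 2 := by
    rw [hε, div_mul_eq_mul_div, one_mul, div_le_div_iff₀ (by positivity) (by norm_num)]
    linarith
  have hlim : Tendsto (fun σ : ℝ => (1 + 1 / ε) ^ E * σ ^ (1 / 2 : ℝ)) (𝓝[>] 0) (𝓝 0) := by
    have h1 : Tendsto (fun σ : ℝ => σ ^ (1 / 2 : ℝ)) (𝓝[>] 0) (𝓝 0) := by
      have h2 : ContinuousAt (fun σ : ℝ => σ ^ (1 / 2 : ℝ)) 0 :=
        Real.continuousAt_rpow_const 0 (1 / 2) (Or.inr (by norm_num))
      have h3 := h2.tendsto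
      rw [Real.zero_rpow (by norm_num)] at h3
      exact h3.mono_left nhdsWithin_le_nhds
    have h4 := h1.const_mul ((1 + 1 / ε) ^ E)
    rwa [mul_zero] at h4
  have hev : ∀ᶠ σ : ℝ in 𝓝[>] 0, 0 < σ ∧ σ ≤ 1 := by
    have h1 : Set.Ioc (0 : ℝ) 1 ∈ 𝓝[>] (0 : ℝ) := Ioc_mem_nhdsGT one_pos
    filter_upwards [h1] with σ hσ
    exact hσ
  refine squeeze_zero' (hev.mono fun σ hσ => ?_) (hev.mono fun σ hσ => ?_) hlim
  · have h1 : 0 ≤ Real.log (1 / σ) := Real.log_nonneg ((one_le_div hσ.1).2 hσ.2)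
    exact mul_nonneg hσ.1.le (Real.rpow_nonneg (by linarith) _)
  · have hσ0 := hσ.1
    have h1 : 1 ≤ 1 / σ := (one_le_div hσ.1).2 hσ.2
    have h2 : 0 ≤ Real.log (1 / σ) := Real.log_nonneg h1
    have h3 : Real.log (1 / σ) ≤ (1 / σ) ^ ε / ε := Real.log_le_rpow_div (by positivity) hε0
    have h4 : (1 : ℝ) ≤ (1 / σ) ^ ε := Real.one_le_rpow h1 hε0.le
    have h5 : 1 + Real.log (1 / σ) ≤ (1 + 1 / ε) * (1 / σ) ^ ε := by
      have h6 : (1 + 1 / ε) * (1 / σ) ^ ε = (1 / σ) ^ ε + (1 / σ) ^ ε / ε := by ring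
      linarith
    have h6 : (1 + Real.log (1 / σ)) ^ E ≤ ((1 + 1 / ε) * (1 / σ) ^ ε) ^ E :=
      Real.rpow_le_rpow (by linarith) h5 hE
    have h7 : ((1 + 1 / ε) * (1 / σ) ^ ε) ^ E = (1 + 1 / ε) ^ E * (1 / σ) ^ (ε * E) := by
      rw [Real.mul_rpow (by positivity) (by positivity), ← Real.rpow_mul (by positivity)]
    have h8 : (1 / σ) ^ (ε * E) ≤ (1 / σ) ^ (1 / 2 : ℝ) :=
      Real.rpow_le_rpow_of_exponent_le h1 hεE
    have h9 : σ * (1 / σ) ^ (1 / 2 : ℝ) = σ ^ (1 / 2 : ℝ) := by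
      rw [one_div, Real.inv_rpow hσ0.le, ← div_eq_mul_inv]
      nth_rewrite 1 [← Real.rpow_one σ]
      rw [← Real.rpow_sub hσ0]
      norm_num
    have h10 : 0 ≤ (1 + 1 / ε) ^ E := Real.rpow_nonneg (by positivity) _
    calc σ * (1 + Real.log (1 / σ)) ^ E
        ≤ σ * ((1 + 1 / ε) ^ E * (1 / σ) ^ (1 / 2 : ℝ)) := by
          refine mul_le_mul_of_nonneg_left ?_ hσ0.le
          rw [h7] at h6
          exact h6.trans (mul_le_mul_of_nonneg_left h8 h10)
      _ = (1 + 1 / ε) ^ E * (σ * (1 / σ) ^ (1 / 2 : ℝ)) := by ring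
      _ = (1 + 1 / ε) ^ E * σ ^ (1 / 2 : ℝ) := by rw [h9]

section

variable {l : ℕ} [Fact l.Prime] (S : SysL l) {d n : ℕ}

private theorem cma_isoU {ι : Type} (b : ι → ι → ZMod l) (U : Finset ι) (u : ι)
    (h : u ∈ S.iso b U) : u ∈ U := by
  classical
  have h1 : S.iso b U = U.filter fun u => ∀ v ∈ U, ¬ S.Lk b u v := by
    unfold SysL.iso
    congr
  rw [h1, Finset.mem_filter] at h
  exact h.1

private theorem cma_snd (R : Finset (SysL.VV l d)) (c : SysL.VV l d → SysL.VV l n → S.T)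
    (η : R → S.T) (u : R × SysL.VV l n) : (cmaD S R c η u).2 = 0 := by
  unfold cmaD SysL.cz SysL.cT
  exact add_zero 0

private theorem cma_fst (R : Finset (SysL.VV l d)) (c : SysL.VV l d → SysL.VV l n → S.T)
    (η : R → S.T) (u : R × SysL.VV l n) : (cmaD S R c η u).1 = c u.1 u.2 + η u.1 := rfl

private theorem cma_lim (h1 : SPat) (Bd : SysL.BD l d n) (R : Finset (SysL.VV l d))
    (c : SysL.VV l d → SysL.VV l n → S.T) (η : R → S.T) (B : ℝ) (τ : S.P → ℝ) (hτ : S.Tk B τ)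
    (U : Finset (R × SysL.VV l n)) (b : ℕ)
    (hw : S.wt (SysL.bz Bd R) (cmaD S R c η) U < b) :
    Tendsto (fun σ : ℝ => ((σ ^ b : ℝ) : ℂ) *
      S.PS τ (1 + σ) (SysL.bz Bd R) (cmaD S R c η) ∅ U) (𝓝[>] 0) (𝓝 0) := by
  obtain ⟨E, hE, h⟩ := h1 l S (R × SysL.VV l n) (SysL.bz Bd R) B (by
    intro u
    unfold SysL.bz
    rw [Bd.alt, dotProduct_zero])
  obtain ⟨C, hC, h⟩ := h 1 one_pos
  have hok : S.Ok (cmaD S R c η) ∅ := by
    refine ⟨fun g p hp => absurd hp (Finset.notMem_empty _), fun u => ?_⟩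
    rw [cma_snd, Finsupp.support_zero]
  have hlim := (cma_err E hE).const_mul C
  rw [mul_zero] at hlim
  have hev : ∀ᶠ σ : ℝ in 𝓝[>] 0, 0 < σ ∧ σ ≤ 1 := by
    have h1 : Set.Ioc (0 : ℝ) 1 ∈ 𝓝[>] (0 : ℝ) := Ioc_mem_nhdsGT one_pos
    filter_upwards [h1] with σ hσ
    exact hσ
  refine squeeze_zero_norm' (hev.mono fun σ hσ => ?_) hlim
  have hσ0 := hσ.1
  have h2 := h τ (cmaD S R c η) ∅ hτ hok U σ hσ.1 hσ.2
  have hL : 0 ≤ Real.log (1 / σ) := Real.log_nonneg ((one_le_div hσ.1).2 hσ.2)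
  have hLE : 1 ≤ (1 + Real.log (1 / σ)) ^ E := Real.one_le_rpow (by linarith) hE
  have hnm : ((S.nm ∅ : ℕ) : ℝ) ^ (1 : ℝ) = 1 := by
    unfold Pre.nm
    rw [Finset.prod_empty, Nat.cast_one, Real.one_rpow]
  have h3 : ‖S.PS τ (1 + σ) (SysL.bz Bd R) (cmaD S R c η) ∅ U‖ ≤
      C * (1 + Real.log (1 / σ)) ^ E * σ ^ (-(S.wt (SysL.bz Bd R) (cmaD S R c η) U : ℝ)) := by
    refine h2.trans ?_
    rw [hnm, mul_one]
    refine mul_le_mul_of_nonneg_right (mul_le_mul_of_nonneg_left ?_ hC)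
      (Real.rpow_nonneg hσ0.le _)
    split_ifs
    · exact hLE
    · exact le_rfl
  have h4 : σ ^ b * σ ^ (-(S.wt (SysL.bz Bd R) (cmaD S R c η) U : ℝ)) ≤ σ := by
    rw [← Real.rpow_natCast, ← Real.rpow_add hσ0]
    calc σ ^ ((b : ℝ) + -(S.wt (SysL.bz Bd R) (cmaD S R c η) U : ℝ)) ≤ σ ^ (1 : ℝ) := by
          refine Real.rpow_le_rpow_of_exponent_ge hσ0 hσ.2 ?_
          have h5 : ((S.wt (SysL.bz Bd R) (cmaD S R c η) U + 1 : ℕ) : ℝ) ≤ b := by
            exact_mod_cast hw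
          push_cast at h5
          linarith
      _ = σ := Real.rpow_one σ
  rw [norm_mul, Complex.norm_real, Real.norm_of_nonneg (pow_nonneg hσ0.le _)]
  calc σ ^ b * ‖S.PS τ (1 + σ) (SysL.bz Bd R) (cmaD S R c η) ∅ U‖
      ≤ σ ^ b * (C * (1 + Real.log (1 / σ)) ^ E *
        σ ^ (-(S.wt (SysL.bz Bd R) (cmaD S R c η) U : ℝ))) :=
        mul_le_mul_of_nonneg_left h3 (pow_nonneg hσ0.le _)
    _ = C * (1 + Real.log (1 / σ)) ^ E *
        (σ ^ b * σ ^ (-(S.wt (SysL.bz Bd R) (cmaD S R c η) U : ℝ))) := by ring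
    _ ≤ C * (1 + Real.log (1 / σ)) ^ E * σ :=
        mul_le_mul_of_nonneg_left h4 (mul_nonneg hC (le_trans zero_le_one hLE))
    _ = C * (σ * (1 + Real.log (1 / σ)) ^ E) := by ring

/-- patterns in the set of a form missing a vector -/
private theorem cma_small (Bd : SysL.BD l d n) (R : Finset (SysL.VV l d))
    (c : SysL.VV l d → SysL.VV l n → S.T)
    (hadd : ∀ v ζ ζ', c v (ζ + ζ') = c v ζ + c v ζ')
    (ψ : SysL.VV l d → SysL.VV l d → ZMod l)
    (U : Finset (R × SysL.VV l n)) (hC : cmaC Bd R ψ U) (v0 : R) (hv0 : ∀ u ∈ U, u.1 ≠ v0)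
    (η : R → S.T) :
    S.wt (SysL.bz Bd R) (cmaD S R c η) U < S.bV Bd R (S.cT c) := by
  classical
  have hc0 : ∀ v, c v 0 = 0 := by
    intro v
    have h1 := hadd v 0 0
    rw [add_zero] at h1
    exact left_eq_add.1 h1
  have h1 : S.wt (SysL.bz Bd R) (cmaD S R c η) U ≤
      (U.filter fun u => cmaD S R c η u = 0).card := by
    unfold SysL.wt
    refine Finset.card_le_card fun u hu => ?_
    rw [Finset.mem_filter] at hu ⊢
    exact ⟨cma_isoU S _ _ u hu.1, hu.2⟩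
  refine lt_of_le_of_lt h1 ?_
  have h2 : S.bV Bd R (S.cT c) = ∑ v : R, S.nv Bd (S.cT c) v := by
    unfold SysL.bV
    rw [← Finset.sum_coe_sort R]
  rw [h2, Finset.card_eq_sum_card_fiberwise (f := Prod.fst) (t := (Finset.univ : Finset R))
    (fun u _ => Finset.mem_univ _)]
  have hle : ∀ v : R, ((U.filter fun u => cmaD S R c η u = 0).filter fun u => u.1 = v).card ≤
      S.nv Bd (S.cT c) v := by
    intro v
    by_cases hne : ((U.filter fun u => cmaD S R c η u = 0).filter fun u => u.1 = v).Nonempty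
    · obtain ⟨⟨v', ζ0⟩, hu0⟩ := hne
      rw [Finset.mem_filter, Finset.mem_filter] at hu0
      obtain ⟨⟨hU0, hz0⟩, hv'⟩ := hu0
      change v' = v at hv'
      subst hv'
      unfold SysL.nv
      refine Finset.card_le_card_of_injOn (fun u => u.2 - ζ0) ?_ ?_
      · rintro ⟨v, ζ⟩ hu
        rw [Finset.mem_coe, Finset.mem_filter, Finset.mem_filter] at hu
        obtain ⟨⟨hU1, hz1⟩, hv⟩ := hu
        change v = v' at hv
        subst hv
        rw [Finset.mem_coe, Finset.mem_filter]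
        refine ⟨Finset.mem_univ _, ?_, ?_⟩
        · have h3 : c v ζ = c v ζ0 := by
            have h4 := congrArg Prod.fst hz0
            have h5 := congrArg Prod.fst hz1
            rw [cma_fst] at h4 h5
            exact add_right_cancel (h5.trans h4.symm)
          have h6 : c v (ζ - ζ0) = 0 := by
            have h7 := hadd v (ζ - ζ0) ζ0
            rw [sub_add_cancel, h3] at h7
            exact right_eq_add.1 h7
          unfold SysL.cT
          exact Prod.ext h6 rfl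
        · intro w
          have h3 := hC (v, ζ) hU1 w
          have h4 := hC (v, ζ0) hU0 w
          change ζ ⬝ᵥ Bd.B w v = ψ w v at h3
          change ζ0 ⬝ᵥ Bd.B w v = ψ w v at h4
          change (ζ - ζ0) ⬝ᵥ Bd.B w v = 0
          rw [sub_dotProduct, h3, h4, sub_self]
      · rintro ⟨v, ζ⟩ hu ⟨v1, ζ1⟩ hu1 h
        rw [Finset.mem_coe, Finset.mem_filter] at hu hu1
        have h3 : v = v' := hu.2
        have h4 : v1 = v' := hu1.2
        change ζ - ζ0 = ζ1 - ζ0 at h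
        rw [h3, h4, sub_left_inj.1 h]
    · rw [Finset.not_nonempty_iff_eq_empty] at hne
      rw [hne, Finset.card_empty]
      exact Nat.zero_le _
  refine Finset.sum_lt_sum (fun v _ => hle v) ⟨v0, Finset.mem_univ _, ?_⟩
  have h3 : ((U.filter fun u => cmaD S R c η u = 0).filter fun u => u.1 = v0) = ∅ := by
    rw [Finset.filter_eq_empty_iff]
    intro u hu
    exact hv0 u (Finset.mem_filter.1 hu).1
  rw [h3, Finset.card_empty]
  unfold SysL.nv
  rw [Finset.card_pos]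
  refine ⟨0, ?_⟩
  rw [Finset.mem_filter]
  refine ⟨Finset.mem_univ _, ?_, fun w => zero_dotProduct _⟩
  unfold SysL.cT
  exact Prod.ext (hc0 _) rfl

end

theorem smainA (h1 : SPat) (h2 : SComb) (h3 : SFull) (h4 : SExpd) (hs : SSmL) : SMainA := by
  classical
  intro l _ S d n Bd R c Φ θ B τ hR hτ hadd hgen hΦ
  have hadc : S.Adc (S.cT c) := by
    intro v ζ ζ'
    unfold SysL.cT
    rw [hadd]
    exact Prod.ext rfl (add_zero 0).symm
  obtain ⟨th, hth0, hth, hexp⟩ := h4 l S d n Bd R (S.cT c) ∅ Φ θ B τ hτ hadc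
  obtain ⟨coef, hcoef⟩ : ∃ coef : Finset (R × SysL.VV l n) → ℂ, coef = fun U =>
      (if Φ (U.image Prod.fst) then 1 else 0) -
        ∑ ψ ∈ S.Fams Bd, (if cmaC Bd R ψ U then 1 else 0) := ⟨_, rfl⟩
  have hmF : ∀ ψ, ψ ∈ S.Fams Bd ↔ S.Fam Bd ψ := by
    intro ψ
    unfold SysL.Fams
    rw [Finset.mem_filter]
    exact ⟨fun h => h.2, fun h => ⟨Finset.mem_univ _, h⟩⟩
  have hmain : ∀ σ : ℝ, 0 < σ → (S.FF Bd R (S.cT c) ∅ Φ θ τ (1 + σ) : ℂ) - ∑ ψ ∈ S.Fams Bd,
      S.GE θ (fun v : R => S.gψ Bd c ψ v) τ (1 + σ) = ∑ η : R → S.T,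
        ∑ U : Finset (R × SysL.VV l n), (th η * coef U) *
          S.PS τ (1 + σ) (SysL.bz Bd R) (cmaD S R c η) ∅ U := by
    intro σ hσ
    have e1 : (S.FF Bd R (S.cT c) ∅ Φ θ τ (1 + σ) : ℂ) = ∑ η : R → S.T,
        ∑ U : Finset (R × SysL.VV l n), th η * (if Φ (U.image Prod.fst) then 1 else 0) *
          S.PS τ (1 + σ) (SysL.bz Bd R) (cmaD S R c η) ∅ U := by
      rw [(hexp σ hσ).2]
      refine Finset.sum_congr rfl fun η _ => ?_
      rw [Finset.mul_sum]
      refine Finset.sum_congr rfl fun U _ => ?_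
      by_cases hU : Φ (U.image Prod.fst)
      · simp only [if_pos hU, mul_one]
        rfl
      · simp only [if_neg hU, mul_zero, zero_mul]
    have e2 : ∑ ψ ∈ S.Fams Bd, S.GE θ (fun v : R => S.gψ Bd c ψ v) τ (1 + σ) =
        ∑ η : R → S.T, ∑ U : Finset (R × SysL.VV l n), th η *
          (∑ ψ ∈ S.Fams Bd, (if cmaC Bd R ψ U then 1 else 0)) *
          S.PS τ (1 + σ) (SysL.bz Bd R) (cmaD S R c η) ∅ U := by
      rw [Finset.sum_congr rfl fun ψ hψ => cma_GE S h3 hs Bd R hR c ψ ((hmF ψ).1 hψ) B τ hτ θ th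
        hth σ hσ, Finset.sum_comm]
      refine Finset.sum_congr rfl fun η _ => ?_
      rw [← Finset.mul_sum, Finset.sum_comm, Finset.mul_sum]
      refine Finset.sum_congr rfl fun U _ => ?_
      rw [mul_assoc, Finset.sum_mul]
      congr 1
      refine Finset.sum_congr rfl fun ψ _ => ?_
      by_cases hU : cmaC Bd R ψ U
      · simp only [if_pos hU, one_mul]
      · simp only [if_neg hU, zero_mul]
    rw [e1, e2, ← Finset.sum_sub_distrib]
    refine Finset.sum_congr rfl fun η _ => ?_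
    rw [← Finset.sum_sub_distrib]
    refine Finset.sum_congr rfl fun U _ => ?_
    rw [hcoef]
    ring
  have hdich : ∀ (η : R → S.T) (U : Finset (R × SysL.VV l n)), coef U = 0 ∨
      S.wt (SysL.bz Bd R) (cmaD S R c η) U < S.bV Bd R (S.cT c) := by
    intro η U
    by_cases hU : Φ (U.image Prod.fst)
    · obtain ⟨c1, c2, c3⟩ := h2 l S d n Bd R (S.cT c) Φ hR hadc hgen
        (fun v => ((η v, 0) : S.El)) U hU
      change S.wt (SysL.bz Bd R) (cmaD S R c η) U ≤ S.bV Bd R (S.cT c) at c1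
      change (S.iso (SysL.bz Bd R) U ≠ U →
        S.wt (SysL.bz Bd R) (cmaD S R c η) U < S.bV Bd R (S.cT c)) at c2
      change (S.wt (SysL.bz Bd R) (cmaD S R c η) U = S.bV Bd R (S.cT c) →
        U.image Prod.fst = Finset.univ) at c3
      rcases c1.lt_or_eq with hlt | heq
      · exact Or.inr hlt
      · left
        have hiso : S.iso (SysL.bz Bd R) U = U := by
          by_contra hne
          exact absurd (c2 hne) (by rw [heq]; exact lt_irrefl _)
        obtain ⟨ψ, hψ, hψC, hψu⟩ := (h3 l S d n Bd R U hR).1 (c3 heq) hiso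
        rw [hcoef]
        simp only [if_pos hU]
        rw [Finset.sum_eq_single ψ]
        · have hc : cmaC Bd R ψ U := hψC
          simp only [if_pos hc, sub_self]
        · intro ψ' hψ' hne
          rw [if_neg]
          intro hc
          exact hne (hψu ψ' ((hmF ψ').1 hψ') hc)
        · intro h
          exact absurd ((hmF ψ).2 hψ) h
    · by_cases hex : ∃ ψ ∈ S.Fams Bd, cmaC Bd R ψ U
      · obtain ⟨ψ, _, hψC⟩ := hex
        right
        have h5 : ∃ v0 : R, v0 ∉ U.image Prod.fst := by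
          by_contra hcon
          push Not at hcon
          apply hU
          rw [Finset.eq_univ_iff_forall.2 hcon]
          exact hΦ
        obtain ⟨v0, hv0⟩ := h5
        refine cma_small S Bd R c hadd ψ U hψC v0 ?_ η
        intro u hu huv
        exact hv0 (Finset.mem_image.2 ⟨u, hu, huv⟩)
      · left
        rw [hcoef]
        simp only [if_neg hU]
        rw [Finset.sum_eq_zero, sub_zero]
        intro ψ hψ
        rw [if_neg]
        intro hc
        exact hex ⟨ψ, hψ, hc⟩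
  have hlim : Tendsto (fun σ : ℝ => ∑ η : R → S.T, ∑ U : Finset (R × SysL.VV l n),
      (th η * coef U) * (((σ ^ S.bV Bd R (S.cT c) : ℝ) : ℂ) *
        S.PS τ (1 + σ) (SysL.bz Bd R) (cmaD S R c η) ∅ U)) (𝓝[>] 0)
      (𝓝 (∑ η : R → S.T, ∑ U : Finset (R × SysL.VV l n), 0)) := by
    refine tendsto_finsetSum _ fun η _ => tendsto_finsetSum _ fun U _ => ?_
    rcases hdich η U with h | h
    · simp only [h, mul_zero, zero_mul]
      exact tendsto_const_nhds
    · have h5 := (cma_lim S h1 Bd R c η B τ hτ U _ h).const_mul (th η * coef U)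
      rwa [mul_zero] at h5
  simp only [Finset.sum_const_zero] at hlim
  have hev : ∀ᶠ σ : ℝ in 𝓝[>] 0, 0 < σ := by
    filter_upwards [self_mem_nhdsWithin] with σ hσ
    exact hσ
  refine hlim.congr' (hev.mono fun σ hσ => ?_)
  beta_reduce
  rw [hmain σ hσ, Finset.mul_sum]
  refine Finset.sum_congr rfl fun η _ => ?_
  rw [Finset.mul_sum]
  refine Finset.sum_congr rfl fun U _ => ?_
  ring

end Pool.Agent.H92.EL
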