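import Pool.Agent.H92.EL.CStm

/-!
# Project ELL (MP_a3214d), block C: limit and positivity of the main term
-/

set_option autoImplicit false
set_option linter.unusedSectionVars false

open scoped BigOperators Topology
open Filter

namespace Pool.Agent.H92.EL

/-! ### characters -/

section Basic

variable {l : ℕ} [Fact l.Prime]

open Classical in
/-- indicator of a proposition -/
private noncomputable def mlI (p : Prop) : ℝ := if p then 1 else 0

private theorem mlI_pos {p : Prop} (h : p) : mlI p = 1 := if_pos h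

private theorem mlI_neg {p : Prop} (h : ¬ p) : mlI p = 0 := if_neg h

private theorem mlI_nn (p : Prop) : 0 ≤ mlI p := by
  by_cases h : p
  · rw [mlI_pos h]
    exact zero_le_one
  · rw [mlI_neg h]

private theorem mlI_le (p : Prop) : mlI p ≤ 1 := by
  by_cases h : p
  · rw [mlI_pos h]
  · rw [mlI_neg h]
    exact zero_le_one

private theorem ml_ec_add (a b : ZMod l) : ec (a + b) = ec a * ec b :=
  AddChar.map_add_eq_mul _ _ _

private theorem ml_ec_zero {l : ℕ} [Fact l.Prime] : ec (0 : ZMod l) = 1 :=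
  AddChar.map_zero_eq_one _

private theorem ml_ec_norm (a : ZMod l) : ‖ec a‖ = 1 := AddChar.norm_apply _ _

private theorem ml_ec_one {a : ZMod l} (h : ec a = 1) : a = 0 := by
  rw [← ml_ec_zero (l := l)] at h
  exact ZMod.injective_stdAddChar h

private theorem ml_ec_re (a : ZMod l) : (ec a).re ≤ 1 := by
  have h := Complex.re_le_norm (ec a)
  rwa [ml_ec_norm a] at h

private theorem ml_ec_re_lt {a : ZMod l} (h : a ≠ 0) : (ec a).re < 1 := by
  refine lt_of_le_of_ne (ml_ec_re a) fun h1 => h (ml_ec_one ?_)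
  have h2 := Complex.sq_norm (ec a)
  rw [ml_ec_norm, Complex.normSq_apply, h1] at h2
  have h3 : (ec a).im = 0 := by nlinarith
  exact Complex.ext h1 h3

private theorem ml_ec_sum {α : Type*} (s : Finset α) (f : α → ZMod l) :
    ec (∑ a ∈ s, f a) = ∏ a ∈ s, ec (f a) := by
  classical
  induction s using Finset.induction_on with
  | empty => rw [Finset.sum_empty, Finset.prod_empty, ml_ec_zero]
  | insert a s ha ih => rw [Finset.sum_insert ha, Finset.prod_insert ha, ml_ec_add, ih]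

/-- orthogonality on a finite group -/
private theorem ml_orth {G : Type*} [AddCommGroup G] (E : Finset G)
    (hadd : ∀ a ∈ E, ∀ b ∈ E, a + b ∈ E) (hneg : ∀ a ∈ E, -a ∈ E) (L : G → ZMod l)
    (hL : ∀ a ∈ E, ∀ b ∈ E, L (a + b) = L a + L b) :
    ∑ a ∈ E, ec (L a) = (((E.card : ℝ) * mlI (∀ a ∈ E, L a = 0) : ℝ) : ℂ) := by
  by_cases h : ∀ a ∈ E, L a = 0
  · rw [mlI_pos h, mul_one, Finset.sum_congr rfl fun a ha => by rw [h a ha, ml_ec_zero]]
    simp
  · rw [mlI_neg h, mul_zero]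
    push Not at h
    obtain ⟨a0, ha0, hne⟩ := h
    have h1 : ∑ a ∈ E, ec (L a) = ∑ a ∈ E, ec (L (a + a0)) := by
      symm
      exact Finset.sum_bij (fun a _ => a + a0) (fun a ha => hadd a ha a0 ha0)
        (fun a _ b _ h => add_right_cancel h)
        (fun b hb => ⟨b + -a0, hadd b hb _ (hneg _ ha0), by simp⟩) (fun a _ => rfl)
    have h2 : ∑ a ∈ E, ec (L (a + a0)) = ec (L a0) * ∑ a ∈ E, ec (L a) := by
      rw [Finset.mul_sum]
      exact Finset.sum_congr rfl fun a ha => by rw [hL a ha a0 ha0, ml_ec_add, mul_comm]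
    rw [h2] at h1
    have h3 : (1 - ec (L a0)) * ∑ a ∈ E, ec (L a) = 0 := by linear_combination h1
    rcases mul_eq_zero.1 h3 with h4 | h4
    · exact absurd (ml_ec_one (by linear_combination -h4)) hne
    · rw [h4]
      simp

end Basic

/-! ### summability -/

section Sum

variable {l : ℕ} [Fact l.Prime] (S : SysL l)

private theorem ml_N (p : S.P) : (1 : ℝ) ≤ S.N p := by exact_mod_cast S.one_le_N p

private theorem ml_sumN {σ : ℝ} (hσ : 0 < σ) :
    Summable fun p : S.P => (S.N p : ℝ) ^ (-(1 + σ)) := by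
  by_contra hns
  obtain ⟨K, hK⟩ := S.prm0
  set t : ℝ := min (min σ 1) (Real.exp (-(|K| + 1))) with ht
  have ht0 : 0 < t := lt_min (lt_min hσ one_pos) (Real.exp_pos _)
  have ht1 : t ≤ 1 := (min_le_left _ _).trans (min_le_right _ _)
  have ht2 : t ≤ σ := (min_le_left _ _).trans (min_le_left _ _)
  have ht3 : t ≤ Real.exp (-(|K| + 1)) := min_le_right _ _
  have hns' : ¬ Summable fun p : S.P => (S.N p : ℝ) ^ (-(1 + t)) := by
    intro h
    apply hns
    refine Summable.of_nonneg_of_le (fun p => by positivity) (fun p => ?_) h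
    exact Real.rpow_le_rpow_of_exponent_le (ml_N S p) (by linarith)
  have h1 := hK (1 + t) (by linarith) (by linarith)
  rw [tsum_eq_zero_of_not_summable hns', zero_sub, abs_neg, add_sub_cancel_left, one_div,
    Real.log_inv, abs_neg] at h1
  have h2 : Real.log t ≤ -(|K| + 1) := by
    rw [← Real.log_exp (-(|K| + 1))]
    exact Real.log_le_log ht0 ht3
  have h3 := (abs_le.1 h1).1
  have h4 := le_abs_self K
  linarith

/-- products of summable families in independent variables are summable -/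
private theorem ml_pi {ι Y : Type} [Fintype ι] (g : ι → Y → ℝ) (h0 : ∀ u y, 0 ≤ g u y)
    (hs : ∀ u, Summable (g u)) : Summable fun x : ι → Y => ∏ u, g u (x u) := by
  classical
  refine summable_of_sum_le (c := ∏ u, ∑' y, g u y)
    (fun x => Finset.prod_nonneg fun u _ => h0 u _) ?_
  intro E
  have h2 : E ⊆ Fintype.piFinset (fun u => E.image (fun x => x u)) := by
    intro x hx
    rw [Fintype.mem_piFinset]
    intro u
    exact Finset.mem_image_of_mem _ hx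
  calc ∑ x ∈ E, ∏ u, g u (x u)
      ≤ ∑ x ∈ Fintype.piFinset (fun u => E.image (fun x => x u)), ∏ u, g u (x u) :=
        Finset.sum_le_sum_of_subset_of_nonneg h2 fun x _ _ =>
          Finset.prod_nonneg fun u _ => h0 u _
    _ = ∏ u, ∑ y ∈ E.image (fun x => x u), g u y := (Finset.prod_univ_sum _ _).symm
    _ ≤ ∏ u, ∑' y, g u y := by
        refine Finset.prod_le_prod (fun u _ => Finset.sum_nonneg fun y _ => h0 u y) ?_
        intro u _
        exact (hs u).sum_le_tsum _ fun y _ => h0 u y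

private theorem ml_sumF {ι : Type} [Fintype ι] (a : S.P → ℝ) (ha : ∀ p, 0 ≤ a p)
    (hs : Summable a) : Summable fun x : ι → Finset S.P => ∏ u, ∏ p ∈ x u, a p :=
  ml_pi (fun (_ : ι) (y : Finset S.P) => ∏ p ∈ y, a p)
    (fun _ _ => Finset.prod_nonneg fun p _ => ha p)
    (fun _ => summable_finsetProd_of_summable_nonneg ha hs)

/-- the product attached to a family -/
private noncomputable def mlT {ι : Type} [Fintype ι] (f : ι → S.T → ℂ) (τ : S.P → ℝ) (s : ℝ)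
    (x : ι → Finset S.P) : ℂ :=
  ∏ v, ∏ p ∈ x v, (f v (S.ty p) * ((τ p * (S.N p : ℝ) ^ (-s) : ℝ) : ℂ))

/-- the real product attached to a family -/
private noncomputable def mlP {ι : Type} [Fintype ι] (w : ι → S.T → ℝ) (τ : S.P → ℝ) (s : ℝ)
    (x : ι → Finset S.P) : ℝ :=
  ∏ v, ∏ p ∈ x v, (w v (S.ty p) * (τ p * (S.N p : ℝ) ^ (-s)))

variable {S}

private theorem ml_tk {B : ℝ} {τ : S.P → ℝ} (h : S.Tk B τ) (p : S.P) : τ p ≤ 1 + |B| := by
  have h1 := (abs_le.1 (h p).2).2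
  have h2 : B * (S.N p : ℝ) ^ (-(1 / 2) : ℝ) ≤ |B| * 1 := by
    refine mul_le_mul (le_abs_self B) ?_ (by positivity) (abs_nonneg B)
    exact Real.rpow_le_one_of_one_le_of_nonpos (ml_N S p) (by norm_num)
  linarith

variable {ι : Type} [Fintype ι] [DecidableEq ι]

private theorem ml_sumT {f : ι → S.T → ℂ} {A B σ : ℝ} {τ : S.P → ℝ} (hf : ∀ v t, ‖f v t‖ ≤ A)
    (hA : 0 ≤ A) (hT : S.Tk B τ) (hσ : 0 < σ) :
    Summable fun x : ι → Finset S.P => ‖mlT S f τ (1 + σ) x‖ := by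
  have h1 := ml_sumF S (ι := ι) (fun p => A * ((1 + |B|) * (S.N p : ℝ) ^ (-(1 + σ))))
    (fun p => by positivity) (((ml_sumN S hσ).mul_left _).mul_left _)
  refine Summable.of_nonneg_of_le (fun x => norm_nonneg _) (fun x => ?_) h1
  unfold mlT
  rw [norm_prod]
  refine Finset.prod_le_prod (fun v _ => norm_nonneg _) fun v _ => ?_
  rw [norm_prod]
  refine Finset.prod_le_prod (fun p _ => norm_nonneg _) fun p _ => ?_
  rw [norm_mul, Complex.norm_real, Real.norm_of_nonneg (mul_nonneg (hT p).1 (by positivity))]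
  exact mul_le_mul (hf v _) (mul_le_mul_of_nonneg_right (ml_tk hT p) (by positivity))
    (mul_nonneg (hT p).1 (by positivity)) hA

private theorem ml_sumW {f : ι → S.T → ℂ} {A B σ D : ℝ} {τ : S.P → ℝ}
    (hf : ∀ v t, ‖f v t‖ ≤ A) (hA : 0 ≤ A) (hT : S.Tk B τ) (hσ : 0 < σ)
    (u : (ι → Finset S.P) → ℂ) (hu : ∀ x, ‖u x‖ ≤ D) :
    Summable fun x : ι → Finset S.P => u x * mlT S f τ (1 + σ) x := by
  refine Summable.of_norm_bounded ((ml_sumT hf hA hT hσ).mul_left D) fun x => ?_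
  rw [norm_mul]
  exact mul_le_mul_of_nonneg_right (hu x) (norm_nonneg _)

private theorem ml_GE (θ : (ι → S.T) → ℝ) (f : ι → S.T → ℂ) (τ : S.P → ℝ) (s : ℝ) :
    S.GE θ f τ s = ∑' x : ι → Finset S.P,
      ((mlI (S.Gd x) * θ (fun v => S.tys (x v)) : ℝ) : ℂ) * mlT S f τ s x := by
  unfold SysL.GE
  refine tsum_congr fun x => ?_
  by_cases h : S.Gd x
  · rw [if_pos h, mlI_pos h, one_mul]
    rfl
  · rw [if_neg h, mlI_neg h, zero_mul]
    simp

/-- twist by characters -/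
private theorem ml_tw (f : ι → S.T → ℂ) (a : ι → S.T → ZMod l) (τ : S.P → ℝ) (s : ℝ)
    (x : ι → Finset S.P) : mlT S (fun v t => f v t * ec (a v t)) τ s x =
      mlT S f τ s x * ec (∑ v, ∑ p ∈ x v, a v (S.ty p)) := by
  unfold mlT
  rw [ml_ec_sum, ← Finset.prod_mul_distrib]
  refine Finset.prod_congr rfl fun v _ => ?_
  rw [ml_ec_sum, ← Finset.prod_mul_distrib]
  refine Finset.prod_congr rfl fun p _ => ?_
  ring

private theorem ml_TP (w : ι → S.T → ℝ) (τ : S.P → ℝ) (s : ℝ) (x : ι → Finset S.P) :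
    mlT S (fun v t => (w v t : ℂ)) τ s x = (mlP S w τ s x : ℂ) := by
  unfold mlT mlP
  rw [Complex.ofReal_prod]
  refine Finset.prod_congr rfl fun v _ => ?_
  rw [Complex.ofReal_prod]
  refine Finset.prod_congr rfl fun p _ => ?_
  rw [← Complex.ofReal_mul]

private theorem ml_P_nn {w : ι → S.T → ℝ} (hw : ∀ v t, 0 ≤ w v t) {B : ℝ} {τ : S.P → ℝ}
    (hT : S.Tk B τ) (s : ℝ) (x : ι → Finset S.P) : 0 ≤ mlP S w τ s x :=
  Finset.prod_nonneg fun v _ => Finset.prod_nonneg fun p _ =>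
    mul_nonneg (hw v _) (mul_nonneg (hT p).1 (by positivity))

/-! ### Fourier expansion in the types -/

/-- the exponent of a character of the types -/
private def mlE (η t : ι → S.T) : ZMod l := ∑ v, η v ⬝ᵥ t v

private theorem mlE_addL (η η' t : ι → S.T) : mlE (S := S) (η + η') t = mlE η t + mlE η' t := by
  unfold mlE
  rw [← Finset.sum_add_distrib]
  exact Finset.sum_congr rfl fun v _ => add_dotProduct _ _ _

private theorem mlE_sub (η t t' : ι → S.T) : mlE (S := S) η (t - t') = mlE η t - mlE η t' := by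
  unfold mlE
  rw [← Finset.sum_sub_distrib]
  exact Finset.sum_congr rfl fun v _ => dotProduct_sub _ _ _

private theorem mlE_zero {t : ι → S.T} : (∀ η ∈ (Finset.univ : Finset (ι → S.T)),
    mlE (S := S) η t = 0) ↔ t = 0 := by
  classical
  constructor
  · intro h
    funext v j
    have h1 := h (Pi.single v (Pi.single j 1)) (Finset.mem_univ _)
    unfold mlE at h1
    rw [Finset.sum_eq_single v] at h1
    · rw [Pi.single_eq_same, single_dotProduct, one_mul] at h1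
      exact h1
    · intro u _ hu
      rw [Pi.single_eq_of_ne hu, zero_dotProduct]
    · intro hv
      exact absurd (Finset.mem_univ v) hv
  · rintro rfl η _
    unfold mlE
    exact Finset.sum_eq_zero fun v _ => dotProduct_zero _

private theorem mlE_orth (t : ι → S.T) : ∑ η : ι → S.T, ec (mlE (S := S) η t) =
    (((Fintype.card (ι → S.T) : ℝ) * mlI (t = 0) : ℝ) : ℂ) := by
  rw [ml_orth Finset.univ (fun _ _ _ _ => Finset.mem_univ _) (fun _ _ => Finset.mem_univ _)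
    (fun η => mlE (S := S) η t) (fun a _ b _ => mlE_addL a b t), Finset.card_univ]
  have h : mlI (∀ a ∈ (Finset.univ : Finset (ι → S.T)), mlE (S := S) a t = 0) =
      mlI (t = 0) := by
    rw [mlE_zero]
  rw [h]

/-- the Fourier coefficients -/
private noncomputable def mlF (θ : (ι → S.T) → ℝ) (η : ι → S.T) : ℂ :=
  ((Fintype.card (ι → S.T) : ℝ) : ℂ)⁻¹ * ∑ t : ι → S.T, (θ t : ℂ) * ec (-mlE (S := S) η t)

private theorem mlF_inv (θ : (ι → S.T) → ℝ) (t : ι → S.T) :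
    (θ t : ℂ) = ∑ η : ι → S.T, mlF θ η * ec (mlE (S := S) η t) := by
  have hq : (((Fintype.card (ι → S.T) : ℝ)) : ℂ) ≠ 0 := by
    have h1 : Fintype.card (ι → S.T) ≠ 0 := Fintype.card_ne_zero
    exact_mod_cast h1
  have h1 : ∀ η : ι → S.T, mlF θ η * ec (mlE (S := S) η t) =
      ∑ t' : ι → S.T, ((Fintype.card (ι → S.T) : ℝ) : ℂ)⁻¹ *
        ((θ t' : ℂ) * ec (mlE (S := S) η (t - t'))) := by
    intro η
    unfold mlF
    rw [mul_assoc, Finset.sum_mul, Finset.mul_sum]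
    refine Finset.sum_congr rfl fun t' _ => ?_
    rw [mlE_sub, sub_eq_neg_add, ml_ec_add]
    ring
  rw [Finset.sum_congr rfl fun η _ => h1 η, Finset.sum_comm]
  have h2 : ∀ t' : ι → S.T, ∑ η : ι → S.T, ((Fintype.card (ι → S.T) : ℝ) : ℂ)⁻¹ *
      ((θ t' : ℂ) * ec (mlE (S := S) η (t - t'))) = (θ t' : ℂ) * ((mlI (t - t' = 0) : ℝ) : ℂ) := by
    intro t'
    rw [← Finset.mul_sum, ← Finset.mul_sum, mlE_orth, Complex.ofReal_mul,
      mul_left_comm (θ t' : ℂ), inv_mul_cancel_left₀ hq]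
  rw [Finset.sum_congr rfl fun t' _ => h2 t', Finset.sum_eq_single t]
  · rw [mlI_pos (sub_self t)]
    simp
  · intro t' _ hne
    rw [mlI_neg (fun h => hne (sub_eq_zero.1 h).symm)]
    simp
  · intro h
    exact absurd (Finset.mem_univ t) h

private theorem mlE_tys (η : ι → S.T) (x : ι → Finset S.P) :
    mlE (S := S) η (fun v => S.tys (x v)) = ∑ v, ∑ p ∈ x v, η v ⬝ᵥ S.ty p := by
  unfold mlE SysL.tys
  exact Finset.sum_congr rfl fun v _ => dotProduct_sum _ _ _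

/-- expansion of the Euler products -/
private theorem ml_expand {f : ι → S.T → ℂ} {A B σ : ℝ} {τ : S.P → ℝ}
    (hf : ∀ v t, ‖f v t‖ ≤ A) (hA : 0 ≤ A) (hT : S.Tk B τ) (hσ : 0 < σ)
    (θ : (ι → S.T) → ℝ) : S.GE θ f τ (1 + σ) = ∑ η : ι → S.T,
      mlF θ η * S.GE (fun _ => 1) (fun v t => f v t * ec (η v ⬝ᵥ t)) τ (1 + σ) := by
  have hsum : ∀ η ∈ (Finset.univ : Finset (ι → S.T)), Summable fun x : ι → Finset S.P =>
      mlF θ η * (((mlI (S.Gd x) * 1 : ℝ) : ℂ) *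
        mlT S (fun v t => f v t * ec (η v ⬝ᵥ t)) τ (1 + σ) x) := by
    intro η _
    refine (ml_sumW (A := A) (D := 1) (fun v t => ?_) hA hT hσ _ fun x => ?_).mul_left _
    · rw [norm_mul, ml_ec_norm, mul_one]
      exact hf v t
    · rw [mul_one, Complex.norm_real, Real.norm_of_nonneg (mlI_nn _)]
      exact mlI_le _
  have h1 : ∀ η : ι → S.T, mlF θ η * S.GE (fun _ => 1) (fun v t => f v t * ec (η v ⬝ᵥ t)) τ
      (1 + σ) = ∑' x : ι → Finset S.P, mlF θ η * (((mlI (S.Gd x) * 1 : ℝ) : ℂ) *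
        mlT S (fun v t => f v t * ec (η v ⬝ᵥ t)) τ (1 + σ) x) := by
    intro η
    rw [ml_GE, tsum_mul_left]
  rw [Finset.sum_congr rfl fun η _ => h1 η, ← Summable.tsum_finsetSum hsum, ml_GE]
  refine tsum_congr fun x => ?_
  rw [Complex.ofReal_mul, mlF_inv θ (fun v => S.tys (x v)), Finset.mul_sum, Finset.sum_mul]
  refine Finset.sum_congr rfl fun η _ => ?_
  rw [ml_tw f (fun v t => η v ⬝ᵥ t) τ (1 + σ) x, mlE_tys, mul_one]
  ring

end Sum

/-! ### limits -/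

section Core

variable {l : ℕ} [Fact l.Prime] {S : SysL l} {ι : Type} [Fintype ι] [DecidableEq ι]

/-- either the phase is trivial or the mean is smaller -/
private theorem ml_dich {w : ι → S.T → ℝ} (hw : ∀ v t, 0 ≤ w v t) (a : ι → S.T → ZMod l) :
    (∀ v t, (w v t : ℂ) * ec (a v t) = (w v t : ℂ)) ∨
      (S.mu (fun v t => (w v t : ℂ) * ec (a v t))).re <
        ∑ u, (1 / (l : ℝ) ^ S.m) * ∑ t : S.T, w u t := by
  have hl : (0 : ℝ) < 1 / (l : ℝ) ^ S.m := by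
    have h : (0 : ℝ) < l := by exact_mod_cast (Fact.out : l.Prime).pos
    positivity
  have hre : (S.mu (fun v t => (w v t : ℂ) * ec (a v t))).re =
      ∑ u, (1 / (l : ℝ) ^ S.m) * ∑ t : S.T, w u t * (ec (a u t)).re := by
    unfold SysL.mu
    rw [Complex.re_sum]
    refine Finset.sum_congr rfl fun u _ => ?_
    have h1 : (1 / (l : ℂ) ^ S.m) = (((1 / (l : ℝ) ^ S.m : ℝ)) : ℂ) := by
      push_cast
      rfl
    rw [h1, Complex.re_ofReal_mul, Complex.re_sum]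
    congr 1
    exact Finset.sum_congr rfl fun t _ => Complex.re_ofReal_mul _ _
  by_cases h : ∀ v t, w v t = 0 ∨ a v t = 0
  · left
    intro v t
    rcases h v t with h1 | h1
    · rw [h1]
      simp
    · rw [h1, ml_ec_zero, mul_one]
  · right
    push Not at h
    obtain ⟨v, t, h1, h2⟩ := h
    rw [hre]
    refine Finset.sum_lt_sum (fun u _ => ?_) ⟨v, Finset.mem_univ v, ?_⟩
    · refine mul_le_mul_of_nonneg_left (Finset.sum_le_sum fun t _ => ?_) hl.le
      exact mul_le_of_le_one_right (hw u t) (ml_ec_re _)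
    · refine mul_lt_mul_of_pos_left (Finset.sum_lt_sum
        (fun t _ => mul_le_of_le_one_right (hw v t) (ml_ec_re _)) ⟨t, Finset.mem_univ t, ?_⟩) hl
      have h3 : 0 < w v t := lt_of_le_of_ne (hw v t) (Ne.symm h1)
      exact mul_lt_of_lt_one_right h3 (ml_ec_re_lt h2)

/-- the limits of the twisted Euler products -/
private theorem ml_lim (h1 : SGE1) {w : ι → S.T → ℝ} (hw : ∀ v t, 0 ≤ w v t) {b : ℕ}
    (hb : ∑ u, (1 / (l : ℝ) ^ S.m) * ∑ t : S.T, w u t = b) {B : ℝ} {τ : S.P → ℝ}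
    (hT : S.Tk B τ) : ∃ Lw : ℝ, 0 < Lw ∧ ∀ a : ι → S.T → ZMod l,
      ∃ L : ℝ, 0 ≤ L ∧ ((∀ v t, (w v t : ℂ) * ec (a v t) = (w v t : ℂ)) → L = Lw) ∧
      Tendsto (fun σ : ℝ => ((σ ^ b : ℝ) : ℂ) *
        S.GE (fun _ => 1) (fun v t => (w v t : ℂ) * ec (a v t)) τ (1 + σ)) (𝓝[>] 0)
        (𝓝 (L : ℂ)) := by
  have hmu : S.mu (fun v t => (w v t : ℂ)) = b := by
    have h2 : S.mu (fun v t => (w v t : ℂ)) =
        ((∑ u, (1 / (l : ℝ) ^ S.m) * ∑ t : S.T, w u t : ℝ) : ℂ) := by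
      unfold SysL.mu
      push_cast
      rfl
    rw [h2, hb]
    push_cast
    rfl
  obtain ⟨Lw, hLw, hlim⟩ := (h1 l S ι (fun v t => (w v t : ℂ)) B τ b hT).2.2 hmu
    fun u t => ⟨w u t, hw u t, rfl⟩
  refine ⟨Lw, hLw, fun a => ?_⟩
  rcases ml_dich hw a with h2 | h2
  · refine ⟨Lw, hLw.le, fun _ => rfl, ?_⟩
    have h3 : (fun v t => (w v t : ℂ) * ec (a v t)) = fun v t => (w v t : ℂ) :=
      funext fun v => funext fun t => h2 v t
    rw [h3]
    exact hlim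
  · refine ⟨0, le_rfl, fun h3 => ?_, ?_⟩
    · exfalso
      have h4 : (fun v t => (w v t : ℂ) * ec (a v t)) = fun v t => (w v t : ℂ) :=
        funext fun v => funext fun t => h3 v t
      rw [h4, hmu, hb] at h2
      simp at h2
    · rw [hb] at h2
      have h3 := (h1 l S ι (fun v t => (w v t : ℂ) * ec (a v t)) B τ b hT).1 h2
      simpa using h3

variable {G : Type} [AddCommGroup G]

/-- the phase of a family -/
private def mlL (φ : G → ι → S.T → ZMod l) (ψ : G) (x : ι → Finset S.P) : ZMod l :=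
  ∑ v, ∑ p ∈ x v, φ ψ v (S.ty p)

/-- the term of a family -/
private noncomputable def mlR (θ : (ι → S.T) → ℝ) (w : ι → S.T → ℝ) (E : Finset G)
    (φ : G → ι → S.T → ZMod l) (τ : S.P → ℝ) (s : ℝ) (x : ι → Finset S.P) : ℝ :=
  mlI (S.Gd x) * θ (fun v => S.tys (x v)) *
    (mlP S w τ s x * ((E.card : ℝ) * mlI (∀ ψ ∈ E, mlL φ ψ x = 0)))

private theorem ml_th (θ : (ι → S.T) → ℝ) (t : ι → S.T) : |θ t| ≤ ∑ t : ι → S.T, |θ t| :=
  Finset.single_le_sum (f := fun t => |θ t|) (fun _ _ => abs_nonneg _) (Finset.mem_univ t)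

private theorem ml_bd (w : ι → S.T → ℝ) : ∃ A : ℝ, 0 ≤ A ∧ ∀ v t, ‖(w v t : ℂ)‖ ≤ A := by
  refine ⟨∑ v, ∑ t : S.T, |w v t|, Finset.sum_nonneg fun _ _ => Finset.sum_nonneg fun _ _ =>
    abs_nonneg _, fun v t => ?_⟩
  rw [Complex.norm_real, Real.norm_eq_abs]
  exact (Finset.single_le_sum (f := fun t => |w v t|) (fun _ _ => abs_nonneg _)
    (Finset.mem_univ t)).trans (Finset.single_le_sum (f := fun v => ∑ t : S.T, |w v t|)
    (fun _ _ => Finset.sum_nonneg fun _ _ => abs_nonneg _) (Finset.mem_univ v))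

private theorem ml_R_sum {θ : (ι → S.T) → ℝ} {w : ι → S.T → ℝ} (E : Finset G)
    (φ : G → ι → S.T → ZMod l) {B σ : ℝ} {τ : S.P → ℝ} (hT : S.Tk B τ)
    (hσ : 0 < σ) : Summable (mlR θ w E φ τ (1 + σ)) := by
  obtain ⟨A, hA, hwA⟩ := ml_bd w
  refine Summable.of_norm_bounded ((ml_sumT hwA hA hT hσ).mul_left
    ((∑ t : ι → S.T, |θ t|) * (E.card : ℝ))) fun x => ?_
  rw [ml_TP, Complex.norm_real]
  unfold mlR
  rw [norm_mul, norm_mul, norm_mul, norm_mul]
  have e1 : ‖mlI (S.Gd x)‖ ≤ 1 := by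
    rw [Real.norm_of_nonneg (mlI_nn _)]
    exact mlI_le _
  have e2 : ‖mlI (∀ ψ ∈ E, mlL φ ψ x = 0)‖ ≤ 1 := by
    rw [Real.norm_of_nonneg (mlI_nn _)]
    exact mlI_le _
  have e3 : ‖(E.card : ℝ)‖ = E.card := Real.norm_of_nonneg (Nat.cast_nonneg _)
  rw [e3]
  have e4 : ‖mlI (S.Gd x)‖ * ‖θ (fun v => S.tys (x v))‖ ≤ ∑ t : ι → S.T, |θ t| :=
    (mul_le_of_le_one_left (norm_nonneg _) e1).trans (ml_th θ _)
  calc ‖mlI (S.Gd x)‖ * ‖θ (fun v => S.tys (x v))‖ *
        (‖mlP S w τ (1 + σ) x‖ * ((E.card : ℝ) * ‖mlI (∀ ψ ∈ E, mlL φ ψ x = 0)‖))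
      ≤ (∑ t : ι → S.T, |θ t|) * (‖mlP S w τ (1 + σ) x‖ * ((E.card : ℝ) * 1)) := by
        refine mul_le_mul e4 ?_ (by positivity) (Finset.sum_nonneg fun _ _ => abs_nonneg _)
        exact mul_le_mul_of_nonneg_left (mul_le_mul_of_nonneg_left e2 (Nat.cast_nonneg _))
          (norm_nonneg _)
    _ = (∑ t : ι → S.T, |θ t|) * (E.card : ℝ) * ‖mlP S w τ (1 + σ) x‖ := by ring

/-- the sum over the characters as a sum of real terms -/
private theorem ml_rep {θ : (ι → S.T) → ℝ} {w : ι → S.T → ℝ} {E : Finset G}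
    (hadd : ∀ a ∈ E, ∀ b ∈ E, a + b ∈ E) (hneg : ∀ a ∈ E, -a ∈ E)
    {φ : G → ι → S.T → ZMod l} (hφ : ∀ ψ ∈ E, ∀ ψ' ∈ E, ∀ v t, w v t ≠ 0 →
      φ (ψ + ψ') v t = φ ψ v t + φ ψ' v t) {B σ : ℝ} {τ : S.P → ℝ} (hT : S.Tk B τ)
    (hσ : 0 < σ) : ∑ ψ ∈ E, S.GE θ (fun v t => (w v t : ℂ) * ec (φ ψ v t)) τ (1 + σ) =
      ((∑' x, mlR θ w E φ τ (1 + σ) x : ℝ) : ℂ) := by
  obtain ⟨A, hA, hwA⟩ := ml_bd w
  have hsum : ∀ ψ ∈ E, Summable fun x : ι → Finset S.P =>
      ((mlI (S.Gd x) * θ (fun v => S.tys (x v)) : ℝ) : ℂ) *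
        mlT S (fun v t => (w v t : ℂ) * ec (φ ψ v t)) τ (1 + σ) x := by
    intro ψ _
    refine ml_sumW (A := A) (D := ∑ t : ι → S.T, |θ t|) (fun v t => ?_) hA hT hσ _ fun x => ?_
    · rw [norm_mul, ml_ec_norm, mul_one]
      exact hwA v t
    · rw [Complex.norm_real, norm_mul, Real.norm_of_nonneg (mlI_nn _)]
      exact (mul_le_of_le_one_left (norm_nonneg _) (mlI_le _)).trans (ml_th θ _)
  rw [Finset.sum_congr rfl fun ψ _ => ml_GE θ _ τ (1 + σ), ← Summable.tsum_finsetSum hsum,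
    Complex.ofReal_tsum]
  refine tsum_congr fun x => ?_
  have h1 : ∀ ψ ∈ E, ((mlI (S.Gd x) * θ (fun v => S.tys (x v)) : ℝ) : ℂ) *
      mlT S (fun v t => (w v t : ℂ) * ec (φ ψ v t)) τ (1 + σ) x =
      ((mlI (S.Gd x) * θ (fun v => S.tys (x v)) : ℝ) : ℂ) * (mlP S w τ (1 + σ) x : ℂ) *
        ec (mlL φ ψ x) := by
    intro ψ _
    rw [ml_tw, ml_TP, mul_assoc]
    rfl
  rw [Finset.sum_congr rfl h1, ← Finset.mul_sum]
  unfold mlR
  by_cases hP : mlP S w τ (1 + σ) x = 0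
  · rw [hP]
    simp
  · have hne : ∀ v, ∀ p ∈ x v, w v (S.ty p) ≠ 0 := by
      intro v p hp h0
      apply hP
      unfold mlP
      refine Finset.prod_eq_zero (Finset.mem_univ v) (Finset.prod_eq_zero hp ?_)
      rw [h0, zero_mul]
    rw [ml_orth E hadd hneg (fun ψ => mlL φ ψ x) fun a ha b hb => ?_]
    · push_cast
      ring
    · unfold mlL
      rw [← Finset.sum_add_distrib]
      refine Finset.sum_congr rfl fun v _ => ?_
      rw [← Finset.sum_add_distrib]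
      exact Finset.sum_congr rfl fun p hp => hφ a ha b hb v _ (hne v p hp)

/-- the value of the limit -/
private theorem ml_val (h1 : SGE1) {w : ι → S.T → ℝ} (hw : ∀ v t, 0 ≤ w v t) {b : ℕ}
    (hb : ∑ u, (1 / (l : ℝ) ^ S.m) * ∑ t : S.T, w u t = b) (E : Finset G)
    (φ : G → ι → S.T → ZMod l) {B : ℝ} {τ : S.P → ℝ} (hT : S.Tk B τ) :
    ∃ ℓ : G → (ι → S.T) → ℝ, (∀ ψ η, 0 ≤ ℓ ψ η) ∧
      (∀ ψ η, (∀ v t, w v t ≠ 0 → φ ψ v t + η v ⬝ᵥ t = 0) → 0 < ℓ ψ η) ∧
      ∀ θ : (ι → S.T) → ℝ, Tendsto (fun σ : ℝ => ((σ ^ b : ℝ) : ℂ) *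
        ∑ ψ ∈ E, S.GE θ (fun v t => (w v t : ℂ) * ec (φ ψ v t)) τ (1 + σ)) (𝓝[>] 0)
        (𝓝 (∑ ψ ∈ E, ∑ η : ι → S.T, mlF θ η * (ℓ ψ η : ℂ))) := by
  obtain ⟨A, hA, hwA⟩ := ml_bd w
  obtain ⟨Lw, hLw, hlim⟩ := ml_lim h1 hw hb hT
  choose ℓ hℓ0 hℓ1 hℓ2 using hlim
  refine ⟨fun ψ η => ℓ (fun v t => φ ψ v t + η v ⬝ᵥ t), fun ψ η => hℓ0 _, fun ψ η h => ?_,
    fun θ => ?_⟩
  · show 0 < ℓ (fun v t => φ ψ v t + η v ⬝ᵥ t)
    rw [hℓ1 _ fun v t => ?_]
    · exact hLw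
    · by_cases h0 : w v t = 0
      · rw [h0]
        simp
      · show (w v t : ℂ) * ec (φ ψ v t + η v ⬝ᵥ t) = _
        rw [h v t h0, ml_ec_zero, mul_one]
  · have h3 : Tendsto (fun σ : ℝ => ∑ ψ ∈ E, ∑ η : ι → S.T, mlF θ η * (((σ ^ b : ℝ) : ℂ) *
        S.GE (fun _ => 1) (fun v t => (w v t : ℂ) * ec (φ ψ v t + η v ⬝ᵥ t)) τ (1 + σ)))
        (𝓝[>] 0) (𝓝 (∑ ψ ∈ E, ∑ η : ι → S.T, mlF θ η *
          ((ℓ (fun v t => φ ψ v t + η v ⬝ᵥ t) : ℝ) : ℂ))) := by
      refine tendsto_finsetSum _ fun ψ _ => tendsto_finsetSum _ fun η _ => ?_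
      exact (hℓ2 _).const_mul _
    refine h3.congr' ?_
    filter_upwards [self_mem_nhdsWithin] with σ hσ
    have hσ' : 0 < σ := hσ
    rw [Finset.mul_sum]
    refine Finset.sum_congr rfl fun ψ _ => ?_
    rw [ml_expand (A := A) (fun v t => ?_) hA hT hσ' θ, Finset.mul_sum]
    · refine Finset.sum_congr rfl fun η _ => ?_
      have h4 : (fun v t => (w v t : ℂ) * ec (φ ψ v t + η v ⬝ᵥ t)) =
          fun v t => (w v t : ℂ) * ec (φ ψ v t) * ec (η v ⬝ᵥ t) :=
        funext fun v => funext fun t => by rw [ml_ec_add, mul_assoc]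
      rw [h4]
      ring
    · rw [norm_mul, ml_ec_norm, mul_one]
      exact hwA v t

/-- primes over the same prime of the base field as a prime of `x` -/
private def mlO (x : ι → Finset S.P) (p : S.P) : Prop := ∃ v, ∃ q ∈ x v, ∃ g, S.ac g p = q

open Classical in
/-- the weights away from `x` -/
private noncomputable def mlτ (x : ι → Finset S.P) (τ : S.P → ℝ) (p : S.P) : ℝ :=
  if mlO x p then 0 else τ p

private theorem mlτ_pos {x : ι → Finset S.P} {τ : S.P → ℝ} {p : S.P} (h : mlO x p) :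
    mlτ x τ p = 0 := if_pos h

private theorem mlτ_neg {x : ι → Finset S.P} {τ : S.P → ℝ} {p : S.P} (h : ¬ mlO x p) :
    mlτ x τ p = τ p := if_neg h

private theorem ml_Tk {B : ℝ} {τ : S.P → ℝ} (hT : S.Tk B τ) (x : ι → Finset S.P) :
    ∃ B' : ℝ, S.Tk B' (mlτ x τ) := by
  set F : Finset S.P := Finset.univ.biUnion fun v => (x v).biUnion fun q =>
    Finset.univ.image fun g => S.ac g q with hF
  have hmem : ∀ p, mlO x p → p ∈ F := by
    rintro p ⟨v, q, hq, g, hg⟩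
    rw [hF, Finset.mem_biUnion]
    refine ⟨v, Finset.mem_univ v, Finset.mem_biUnion.2 ⟨q, hq, Finset.mem_image.2
      ⟨g⁻¹, Finset.mem_univ _, ?_⟩⟩⟩
    rw [← hg, ← S.ac_mul, inv_mul_cancel, S.ac_one]
  have h0 : ∀ p : S.P, 0 ≤ (S.N p : ℝ) ^ (-(1 / 2) : ℝ) := fun p => by positivity
  have hs : 0 ≤ ∑ p ∈ F, (S.N p : ℝ) ^ (1 / 2 : ℝ) := Finset.sum_nonneg fun p _ => by positivity
  refine ⟨|B| + ∑ p ∈ F, (S.N p : ℝ) ^ (1 / 2 : ℝ), fun p => ?_⟩
  by_cases h : mlO x p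
  · rw [mlτ_pos h]
    refine ⟨le_rfl, ?_⟩
    have h1 : (S.N p : ℝ) ^ (1 / 2 : ℝ) ≤ ∑ p ∈ F, (S.N p : ℝ) ^ (1 / 2 : ℝ) :=
      Finset.single_le_sum (f := fun p => (S.N p : ℝ) ^ (1 / 2 : ℝ))
        (fun p _ => by positivity) (hmem p h)
    have h2 : (S.N p : ℝ) ^ (1 / 2 : ℝ) * (S.N p : ℝ) ^ (-(1 / 2) : ℝ) = 1 := by
      rw [← Real.rpow_add (by linarith [ml_N S p])]
      norm_num
    have h3 := mul_le_mul_of_nonneg_right (h1.trans (le_add_of_nonneg_left (abs_nonneg B)))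
      (h0 p)
    rw [h2] at h3
    simpa using h3
  · rw [mlτ_neg h]
    refine ⟨(hT p).1, (hT p).2.trans (mul_le_mul_of_nonneg_right ?_ (h0 p))⟩
    linarith [le_abs_self B]

private theorem ml_R_nn {θ : (ι → S.T) → ℝ} (hθ : ∀ t, 0 ≤ θ t) {w : ι → S.T → ℝ}
    (hw : ∀ v t, 0 ≤ w v t) (E : Finset G) (φ : G → ι → S.T → ZMod l) {B : ℝ} {τ : S.P → ℝ}
    (hT : S.Tk B τ) (s : ℝ) (x : ι → Finset S.P) : 0 ≤ mlR θ w E φ τ s x :=
  mul_nonneg (mul_nonneg (mlI_nn _) (hθ _)) (mul_nonneg (ml_P_nn hw hT s x)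
    (mul_nonneg (Nat.cast_nonneg _) (mlI_nn _)))

/-- the lower bound by the families containing a given one -/
private theorem ml_low {θ : (ι → S.T) → ℝ} (hθ : ∀ t, 0 ≤ θ t) {w : ι → S.T → ℝ}
    (hw : ∀ v t, 0 ≤ w v t) (E : Finset G) (φ : G → ι → S.T → ZMod l) {B B' σ : ℝ}
    {τ : S.P → ℝ} (hT : S.Tk B τ) (hσ : 0 < σ) {x1 : ι → Finset S.P} (hG : S.Gd x1)
    (hL : ∀ ψ ∈ E, mlL φ ψ x1 = 0) (hT' : S.Tk B' (mlτ x1 τ)) :
    θ (fun v => S.tys (x1 v)) * mlP S w τ (1 + σ) x1 *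
      ∑' x, mlR (fun t => mlI (t = 0)) w E φ (mlτ x1 τ) (1 + σ) x ≤
      ∑' x, mlR θ w E φ τ (1 + σ) x := by
  set U : Set (ι → Finset S.P) := {x | S.Gd x ∧ ∀ v, ∀ p ∈ x v, ¬ mlO x1 p} with hU
  have hsupp : Function.support (mlR (fun t => mlI (t = 0)) w E φ (mlτ x1 τ) (1 + σ)) ⊆ U := by
    intro x hx
    rw [Function.mem_support] at hx
    refine ⟨?_, fun v p hp hO => hx ?_⟩
    · by_contra h
      apply hx
      unfold mlR
      rw [mlI_neg h, zero_mul, zero_mul]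
    · unfold mlR
      have h1 : mlP S w (mlτ x1 τ) (1 + σ) x = 0 := by
        unfold mlP
        refine Finset.prod_eq_zero (Finset.mem_univ v) (Finset.prod_eq_zero hp ?_)
        rw [mlτ_pos hO, zero_mul, mul_zero]
      rw [h1, zero_mul, mul_zero]
  rw [← tsum_subtype_eq_of_support_subset hsupp, ← tsum_mul_left]
  have hdis : ∀ x : U, ∀ v, Disjoint (x1 v) (x.1 v) := by
    intro x v
    rw [Finset.disjoint_left]
    intro p hp hp'
    exact x.2.2 v p hp' ⟨v, p, hp, 1, S.ac_one p⟩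
  have hs0 := ml_R_sum (θ := fun t : ι → S.T => mlI (t = 0)) (w := w) E φ hT' hσ
  refine Summable.tsum_le_tsum_of_inj (fun (x : U) v => x1 v ∪ x.1 v) ?_
    (fun x _ => ml_R_nn hθ hw E φ hT _ x) (fun x => ?_) ((hs0.subtype U).mul_left _)
    (ml_R_sum E φ hT hσ)
  · intro x x' h
    apply Subtype.ext
    funext v
    have h1 := congrFun h v
    ext p
    have h2 := Finset.ext_iff.1 h1 p
    rw [Finset.mem_union, Finset.mem_union] at h2
    constructor
    · intro hp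
      rcases h2.1 (Or.inr hp) with h3 | h3
      · exact absurd hp (Finset.disjoint_left.1 (hdis x v) h3)
      · exact h3
    · intro hp
      rcases h2.2 (Or.inr hp) with h3 | h3
      · exact absurd hp (Finset.disjoint_left.1 (hdis x' v) h3)
      · exact h3
  · have hnn := ml_R_nn hθ hw E φ hT (1 + σ) (fun v => x1 v ∪ x.1 v)
    by_cases ht : (fun v => S.tys (x.1 v)) = 0
    · by_cases hl : ∀ ψ ∈ E, mlL φ ψ x.1 = 0
      · have e1 : S.Gd (fun v => x1 v ∪ x.1 v) := by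
          constructor
          · intro u p hp
            rcases Finset.mem_union.1 hp with h | h
            · exact hG.1 u p h
            · exact x.2.1.1 u p h
          · intro u v p hp q hq g hg
            rcases Finset.mem_union.1 hp with h | h <;> rcases Finset.mem_union.1 hq with h' | h'
            · exact hG.2 u v p h q h' g hg
            · exfalso
              refine x.2.2 v q h' ⟨u, p, h, g⁻¹, ?_⟩
              rw [← hg, ← S.ac_mul, inv_mul_cancel, S.ac_one]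
            · exact absurd ⟨v, q, h', g, hg⟩ (x.2.2 u p h)
            · exact x.2.1.2 u v p h q h' g hg
        have e2 : (fun v => S.tys (x1 v ∪ x.1 v)) = fun v => S.tys (x1 v) := by
          funext v
          unfold SysL.tys
          rw [Finset.sum_union (hdis x v)]
          have h1 : ∑ p ∈ x.1 v, S.ty p = 0 := congrFun ht v
          rw [h1, add_zero]
        have e3 : mlP S w τ (1 + σ) (fun v => x1 v ∪ x.1 v) =
            mlP S w τ (1 + σ) x1 * mlP S w (mlτ x1 τ) (1 + σ) x.1 := by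
          unfold mlP
          rw [← Finset.prod_mul_distrib]
          refine Finset.prod_congr rfl fun v _ => ?_
          rw [Finset.prod_union (hdis x v)]
          congr 1
          refine Finset.prod_congr rfl fun p hp => ?_
          rw [mlτ_neg (x.2.2 v p hp)]
        have e4 : ∀ ψ ∈ E, mlL φ ψ (fun v => x1 v ∪ x.1 v) = 0 := by
          intro ψ hψ
          have h1 : mlL φ ψ (fun v => x1 v ∪ x.1 v) = mlL φ ψ x1 + mlL φ ψ x.1 := by
            unfold mlL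
            rw [← Finset.sum_add_distrib]
            exact Finset.sum_congr rfl fun v _ => Finset.sum_union (hdis x v)
          rw [h1, hL ψ hψ, hl ψ hψ, add_zero]
        refine le_of_eq ?_
        have e5 : (fun t : ι → S.T => mlI (t = 0)) (fun v => S.tys (x.1 v)) = 1 := mlI_pos ht
        unfold mlR
        rw [e2, e3, mlI_pos e1, mlI_pos e4, e5, mlI_pos hl, mlI_pos x.2.1]
        ring
      · have h1 : mlR (fun t => mlI (t = 0)) w E φ (mlτ x1 τ) (1 + σ) x.1 = 0 := by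
          unfold mlR
          rw [mlI_neg hl, mul_zero, mul_zero, mul_zero]
        rw [h1, mul_zero]
        exact hnn
    · have h1 : mlR (fun t => mlI (t = 0)) w E φ (mlτ x1 τ) (1 + σ) x.1 = 0 := by
        have e5 : (fun t : ι → S.T => mlI (t = 0)) (fun v => S.tys (x.1 v)) = 0 := mlI_neg ht
        unfold mlR
        rw [e5, mul_zero, zero_mul]
      rw [h1, mul_zero]
      exact hnn

private theorem ml_P_pos {w : ι → S.T → ℝ} (hw : ∀ v t, 0 ≤ w v t) {τ : S.P → ℝ}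
    (hτ : ∀ p, 0 < τ p) (s : ℝ) {x : ι → Finset S.P} (hx : ∀ v, ∀ p ∈ x v, w v (S.ty p) ≠ 0) :
    0 < mlP S w τ s x := by
  refine Finset.prod_pos fun v _ => Finset.prod_pos fun p hp => ?_
  have h1 : (0 : ℝ) < S.N p := by linarith [ml_N S p]
  exact mul_pos (lt_of_le_of_ne (hw v _) (Ne.symm (hx v p hp)))
    (mul_pos (hτ p) (Real.rpow_pos_of_pos h1 _))

private theorem ml_P_mono {w : ι → S.T → ℝ} (hw : ∀ v t, 0 ≤ w v t) {τ : S.P → ℝ}
    (hτ : ∀ p, 0 < τ p) {s s' : ℝ} (hs : s ≤ s') (x : ι → Finset S.P) :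
    mlP S w τ s' x ≤ mlP S w τ s x := by
  have h0 : ∀ (s : ℝ) (v : ι) (p : S.P),
      0 ≤ w v (S.ty p) * (τ p * (S.N p : ℝ) ^ (-s)) := fun s v p =>
    mul_nonneg (hw v _) (mul_nonneg (hτ p).le (by positivity))
  refine Finset.prod_le_prod (fun v _ => Finset.prod_nonneg fun p _ => h0 s' v p) fun v _ => ?_
  refine Finset.prod_le_prod (fun p _ => h0 s' v p) fun p _ => ?_
  refine mul_le_mul_of_nonneg_left (mul_le_mul_of_nonneg_left ?_ (hτ p).le) (hw v _)
  exact Real.rpow_le_rpow_of_exponent_le (ml_N S p) (by linarith)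

private theorem mlF_ind (η : ι → S.T) : mlF (S := S) (fun t : ι → S.T => mlI (t = 0)) η =
    ((Fintype.card (ι → S.T) : ℝ) : ℂ)⁻¹ := by
  unfold mlF
  rw [Finset.sum_eq_single (0 : ι → S.T)]
  · have h1 : mlE (S := S) η 0 = 0 := mlE_zero.2 rfl η (Finset.mem_univ η)
    have h2 : (fun t : ι → S.T => mlI (t = 0)) 0 = 1 := mlI_pos rfl
    rw [h2, h1, neg_zero, ml_ec_zero]
    simp
  · intro t _ ht
    have h2 : (fun t : ι → S.T => mlI (t = 0)) t = 0 := mlI_neg ht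
    rw [h2]
    simp
  · intro h
    exact absurd (Finset.mem_univ _) h

/-- limit and positivity -/
private theorem ml_core (h1 : SGE1) {w : ι → S.T → ℝ} (hw : ∀ v t, 0 ≤ w v t) {b : ℕ}
    (hb : ∑ u, (1 / (l : ℝ) ^ S.m) * ∑ t : S.T, w u t = b) {E : Finset G}
    (hadd : ∀ a ∈ E, ∀ b ∈ E, a + b ∈ E) (hneg : ∀ a ∈ E, -a ∈ E) (h0 : (0 : G) ∈ E)
    {φ : G → ι → S.T → ZMod l} (hφ : ∀ ψ ∈ E, ∀ ψ' ∈ E, ∀ v t, w v t ≠ 0 →
      φ (ψ + ψ') v t = φ ψ v t + φ ψ' v t) {B : ℝ} {τ : S.P → ℝ} (hT : S.Tk B τ)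
    (hτ : ∀ p, 0 < τ p) {θ : (ι → S.T) → ℝ} (hθ : ∀ t, 0 ≤ θ t) :
    ∃ L : ℝ, 0 ≤ L ∧ Tendsto (fun σ : ℝ => ((σ ^ b : ℝ) : ℂ) *
      ∑ ψ ∈ E, S.GE θ (fun v t => (w v t : ℂ) * ec (φ ψ v t)) τ (1 + σ)) (𝓝[>] 0)
      (𝓝 (L : ℂ)) ∧
      ((∃ x : ι → Finset S.P, S.Gd x ∧ 0 < θ (fun v => S.tys (x v)) ∧
        (∀ v, ∀ p ∈ x v, w v (S.ty p) ≠ 0) ∧ ∀ ψ ∈ E, mlL φ ψ x = 0) → 0 < L) := by
  -- the real form of the sums
  have hreal : ∀ (θ : (ι → S.T) → ℝ) {B : ℝ} {τ : S.P → ℝ}, S.Tk B τ → ∀ z : ℂ,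
      Tendsto (fun σ : ℝ => ((σ ^ b : ℝ) : ℂ) *
        ∑ ψ ∈ E, S.GE θ (fun v t => (w v t : ℂ) * ec (φ ψ v t)) τ (1 + σ)) (𝓝[>] 0) (𝓝 z) →
      Tendsto (fun σ : ℝ => σ ^ b * ∑' x, mlR θ w E φ τ (1 + σ) x) (𝓝[>] 0) (𝓝 z.re) := by
    intro θ B τ hT z hz
    refine ((Complex.continuous_re.tendsto z).comp hz).congr' ?_
    filter_upwards [self_mem_nhdsWithin] with σ hσ
    have hσ' : 0 < σ := hσ
    show (((σ ^ b : ℝ) : ℂ) * ∑ ψ ∈ E, S.GE θ (fun v t => (w v t : ℂ) * ec (φ ψ v t)) τ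
      (1 + σ)).re = _
    rw [ml_rep hadd hneg hφ hT hσ', ← Complex.ofReal_mul, Complex.ofReal_re]
  obtain ⟨ℓ, -, -, hℓ⟩ := ml_val h1 hw hb E φ hT
  have hz := hℓ θ
  set z : ℂ := ∑ ψ ∈ E, ∑ η : ι → S.T, mlF θ η * (ℓ ψ η : ℂ) with hzd
  have hr := hreal θ hT z hz
  have hr0 : 0 ≤ z.re := by
    refine ge_of_tendsto hr ?_
    filter_upwards [self_mem_nhdsWithin] with σ hσ
    have hσ' : 0 < σ := hσ
    exact mul_nonneg (by positivity) (tsum_nonneg fun x => ml_R_nn hθ hw E φ hT _ x)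
  have hzr : z = ((z.re : ℝ) : ℂ) := by
    refine tendsto_nhds_unique hz (((Complex.continuous_ofReal.tendsto _).comp hr).congr' ?_)
    filter_upwards [self_mem_nhdsWithin] with σ hσ
    have hσ' : 0 < σ := hσ
    show ((σ ^ b * ∑' x, mlR θ w E φ τ (1 + σ) x : ℝ) : ℂ) = _
    rw [ml_rep hadd hneg hφ hT hσ', Complex.ofReal_mul]
  refine ⟨z.re, hr0, ?_, ?_⟩
  · rw [← hzr]
    exact hz
  · rintro ⟨x1, hG, hθ1, hw1, hL1⟩
    obtain ⟨B', hT'⟩ := ml_Tk hT x1
    obtain ⟨ℓ', hℓ0', hℓ1', hℓ'⟩ := ml_val h1 hw hb E φ hT'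
    have hz' := hℓ' (fun t => mlI (t = 0))
    have hr' := hreal _ hT' _ hz'
    set q : ℝ := (Fintype.card (ι → S.T) : ℝ) with hq
    have hq0 : 0 < q := by
      have : 0 < Fintype.card (ι → S.T) := Fintype.card_pos
      rw [hq]
      exact Nat.cast_pos.2 this
    have hval : (∑ ψ ∈ E, ∑ η : ι → S.T, mlF (S := S) (fun t : ι → S.T => mlI (t = 0)) η *
        (ℓ' ψ η : ℂ)) = ((q⁻¹ * ∑ ψ ∈ E, ∑ η : ι → S.T, ℓ' ψ η : ℝ) : ℂ) := by
      push_cast
      rw [Finset.mul_sum]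
      refine Finset.sum_congr rfl fun ψ _ => ?_
      rw [Finset.mul_sum]
      refine Finset.sum_congr rfl fun η _ => ?_
      rw [mlF_ind]
    rw [hval, Complex.ofReal_re] at hr'
    have hpos : 0 < q⁻¹ * ∑ ψ ∈ E, ∑ η : ι → S.T, ℓ' ψ η := by
      refine mul_pos (inv_pos.2 hq0) ?_
      refine Finset.sum_pos' (fun ψ _ => Finset.sum_nonneg fun η _ => hℓ0' ψ η) ⟨0, h0, ?_⟩
      refine Finset.sum_pos' (fun η _ => hℓ0' 0 η) ⟨0, Finset.mem_univ _, ?_⟩
      refine hℓ1' 0 0 fun v t hvt => ?_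
      have h3 := hφ 0 h0 0 h0 v t hvt
      rw [add_zero] at h3
      have h4 : φ 0 v t = 0 := by
        have h5 : φ 0 v t + 0 = φ 0 v t + φ 0 v t := by rw [add_zero]; exact h3
        exact (add_left_cancel h5).symm
      rw [h4, Pi.zero_apply, zero_dotProduct, add_zero]
    have hc : 0 < θ (fun v => S.tys (x1 v)) * mlP S w τ 2 x1 :=
      mul_pos hθ1 (ml_P_pos hw hτ 2 hw1)
    have hlow : θ (fun v => S.tys (x1 v)) * mlP S w τ 2 x1 *
        (q⁻¹ * ∑ ψ ∈ E, ∑ η : ι → S.T, ℓ' ψ η) ≤ z.re := by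
      refine le_of_tendsto_of_tendsto (hr'.const_mul _) hr ?_
      filter_upwards [self_mem_nhdsWithin, Ioo_mem_nhdsGT (zero_lt_one' ℝ)] with σ hσ hσ1
      have hσ' : 0 < σ := hσ
      have h3 := ml_low hθ hw E φ hT hσ' hG hL1 hT'
      have h4 := ml_P_mono (S := S) hw hτ (s := 1 + σ) (s' := 2) (by linarith [hσ1.2]) x1
      have h5 : 0 ≤ ∑' x, mlR (fun t => mlI (t = 0)) w E φ (mlτ x1 τ) (1 + σ) x :=
        tsum_nonneg fun x => ml_R_nn (fun _ => mlI_nn _) hw E φ hT' _ x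
      have h6 : θ (fun v => S.tys (x1 v)) * mlP S w τ 2 x1 *
          ∑' x, mlR (fun t => mlI (t = 0)) w E φ (mlτ x1 τ) (1 + σ) x ≤
          ∑' x, mlR θ w E φ τ (1 + σ) x := by
        refine le_trans ?_ h3
        exact mul_le_mul_of_nonneg_right (mul_le_mul_of_nonneg_left h4 hθ1.le) h5
      calc θ (fun v => S.tys (x1 v)) * mlP S w τ 2 x1 *
            (σ ^ b * ∑' x, mlR (fun t => mlI (t = 0)) w E φ (mlτ x1 τ) (1 + σ) x)
          = σ ^ b * (θ (fun v => S.tys (x1 v)) * mlP S w τ 2 x1 *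
            ∑' x, mlR (fun t => mlI (t = 0)) w E φ (mlτ x1 τ) (1 + σ) x) := by ring
        _ ≤ _ := mul_le_mul_of_nonneg_left h6 (by positivity)
    exact (mul_pos hc hpos).trans_le hlow

end Core

/-! ### the forms -/

section Forms

variable {l : ℕ} [Fact l.Prime] {S : SysL l} {d n : ℕ} {Bd : SysL.BD l d n}

private theorem ml_add {ψ ψ' : SysL.VV l d → SysL.VV l d → ZMod l} (h : S.Fam Bd ψ)
    (h' : S.Fam Bd ψ') : S.Fam Bd (ψ + ψ') where
  add w w' v := by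
    show ψ (w + w') v + ψ' (w + w') v = ψ w v + ψ' w v + (ψ w' v + ψ' w' v)
    rw [h.add, h'.add]
    ring
  alt w v := by
    show ψ w v + ψ' w v = -(ψ v w + ψ' v w)
    rw [h.alt w v, h'.alt w v]
    ring
  rep v := by
    obtain ⟨ζ, hζ⟩ := h.rep v
    obtain ⟨ζ', hζ'⟩ := h'.rep v
    refine ⟨ζ + ζ', fun w => ?_⟩
    show ψ w v + ψ' w v = _
    rw [hζ, hζ', add_dotProduct]
  triv hg w v := by
    show ψ w v + ψ' w v = 0
    rw [h.triv hg, h'.triv hg, add_zero]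

private theorem ml_neg {ψ : SysL.VV l d → SysL.VV l d → ZMod l} (h : S.Fam Bd ψ) :
    S.Fam Bd (-ψ) where
  add w w' v := by
    show -ψ (w + w') v = -ψ w v + -ψ w' v
    rw [h.add]
    ring
  alt w v := by
    show -ψ w v = -(-ψ v w)
    rw [h.alt w v]
  rep v := by
    obtain ⟨ζ, hζ⟩ := h.rep v
    refine ⟨-ζ, fun w => ?_⟩
    show -ψ w v = _
    rw [hζ, neg_dotProduct]
  triv hg w v := by
    show -ψ w v = 0
    rw [h.triv hg, neg_zero]

private theorem ml_zero : S.Fam Bd 0 where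
  add _ _ _ := (add_zero _).symm
  alt _ _ := neg_zero.symm
  rep _ := ⟨0, fun _ => (zero_dotProduct _).symm⟩
  triv _ _ _ := rfl

/-- the value of a form at a combination of vectors -/
private theorem ml_lin {ψ : SysL.VV l d → SysL.VV l d → ZMod l} (h : S.Fam Bd ψ)
    {α : Type} (s : Finset α) (a : α → ZMod l) (f : α → SysL.VV l d) (v : SysL.VV l d) :
    ψ (∑ i ∈ s, a i • f i) v = ∑ i ∈ s, a i * ψ (f i) v := by
  obtain ⟨ζ, hζ⟩ := h.rep v
  rw [hζ, map_sum, LinearMap.sum_apply, dotProduct_sum]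
  refine Finset.sum_congr rfl fun i _ => ?_
  rw [map_smul, LinearMap.smul_apply, dotProduct_smul, hζ, smul_eq_mul]

private theorem ml_diag {ψ : SysL.VV l d → SysL.VV l d → ZMod l} (h : S.Fam Bd ψ)
    (v : SysL.VV l d) : ψ v v = 0 := by
  obtain ⟨ζ, hζ⟩ := h.rep v
  rw [hζ, Bd.alt, dotProduct_zero]

/-- antisymmetry -/
private theorem ml_anti {R : Finset (SysL.VV l d)} {x : R → Finset S.P} (hG : S.Gd x)
    {ψ : SysL.VV l d → SysL.VV l d → ZMod l} (h : S.Fam Bd ψ) :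
    ∑ v : R, ∑ p ∈ x v, ∑ w : R, (∑ q ∈ x w, S.J q p) * ψ w v = 0 := by
  classical
  by_cases hD : ∃ g : S.D, g ≠ 1
  · refine Finset.sum_eq_zero fun v _ => Finset.sum_eq_zero fun p _ =>
      Finset.sum_eq_zero fun w _ => ?_
    rw [h.triv hD, mul_zero]
  · push Not at hD
    have hJ : ∀ q p, S.J q p = S.s q p := by
      intro q p
      unfold SysL.J
      rw [Fintype.sum_eq_single (1 : S.D) fun g hg => absurd (hD g) hg, map_one, inv_one,
        Units.val_one, one_mul, S.ac_one]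
    have hs : ∀ f : R → S.P → ZMod l, ∑ v : R, ∑ p ∈ x v, f v p =
        ∑ a ∈ Finset.univ.sigma x, f a.1 a.2 := fun f =>
      (Finset.sum_sigma Finset.univ x fun a => f a.1 a.2).symm
    have h1 : ∀ (v : R) (p : S.P), ∑ w : R, (∑ q ∈ x w, S.J q p) * ψ w v =
        ∑ b ∈ Finset.univ.sigma x, S.J b.2 p * ψ b.1 v := by
      intro v p
      rw [← hs (fun w q => S.J q p * ψ w v)]
      exact Finset.sum_congr rfl fun w _ => Finset.sum_mul _ _ _
    rw [Finset.sum_congr rfl fun v _ => Finset.sum_congr rfl fun p _ => h1 v p,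
      hs (fun v p => ∑ b ∈ Finset.univ.sigma x, S.J b.2 p * ψ b.1 v), ← Finset.sum_product']
    have hz : ∀ a ∈ Finset.univ.sigma x, ∀ b ∈ Finset.univ.sigma x, a.2 = b.2 → a.1 = b.1 := by
      intro a ha b hb hab
      rw [Finset.mem_sigma] at ha hb
      exact (hG.2 a.1 b.1 a.2 ha.2 b.2 hb.2 1 (by rw [S.ac_one, hab])).1
    refine Finset.sum_involution (fun z _ => (z.2, z.1)) ?_ ?_ ?_ ?_
    · intro z hz1
      rw [Finset.mem_product] at hz1
      by_cases he : z.1.2 = z.2.2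
      · have h2 := hz z.1 hz1.1 z.2 hz1.2 he
        rw [h2, ml_diag h, mul_zero, mul_zero, add_zero]
      · rw [hJ, hJ, S.symm _ _ he, h.alt z.1.1 z.2.1]
        ring
    · intro z _ hne heq
      apply hne
      have h2 : z.2 = z.1 := congrArg Prod.fst heq
      rw [h2, ml_diag h, mul_zero]
    · intro z hz1
      rw [Finset.mem_product] at hz1 ⊢
      exact ⟨hz1.2, hz1.1⟩
    · intro z _
      rfl

end Forms

/-- limit and positivity of the main term -/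
theorem smainL (h1 : SGE1) (h2 : SGfac) (_hs : SSmL) : SMainL := by
  classical
  intro l _ S d n Bd R c θ B τ _ hT hc hθ hτ
  obtain ⟨w, φ, hw, -, hmean, hgψ, hadd, -, hval⟩ := h2 l S d n Bd c hc
  have hmem : ∀ ψ, ψ ∈ S.Fams Bd ↔ S.Fam Bd ψ := by
    intro ψ
    unfold SysL.Fams
    rw [Finset.mem_filter]
    exact ⟨fun h => h.2, fun h => ⟨Finset.mem_univ _, h⟩⟩
  have hb : ∑ u : R, (1 / (l : ℝ) ^ S.m) * ∑ t : S.T, w u t = (S.bV Bd R (S.cT c) : ℕ) := by
    unfold SysL.bV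
    refine (Finset.sum_congr rfl fun (u : R) _ => hmean u).trans ?_
    rw [Nat.cast_sum]
    exact Finset.sum_coe_sort R fun v => (S.nv Bd (S.cT c) v : ℝ)
  obtain ⟨L, hL0, hL1, hL2⟩ := ml_core (S := S) (ι := R) (w := fun v t => w v t) h1
    (fun v t => hw v t) hb (E := S.Fams Bd)
    (fun a ha b hb => (hmem _).2 (ml_add ((hmem a).1 ha) ((hmem b).1 hb)))
    (fun a ha => (hmem _).2 (ml_neg ((hmem a).1 ha))) ((hmem _).2 ml_zero)
    (φ := fun ψ v t => φ ψ v t)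
    (fun ψ hψ ψ' hψ' v t h => hadd ψ ψ' ((hmem ψ).1 hψ) ((hmem ψ').1 hψ') v t h) hT hτ hθ
  refine ⟨L, hL0, ?_, ?_⟩
  · refine hL1.congr fun σ => ?_
    congr 1
    refine Finset.sum_congr rfl fun ψ hψ => ?_
    congr 1
    funext v t
    exact (hgψ ψ ((hmem ψ).1 hψ) v t).symm
  · rintro ⟨x, hG, hok, hθx⟩
    apply hL2
    -- the vector of a prime
    have hvec : ∀ (v : R), ∀ p ∈ x v, ∀ ζ : SysL.VV l n, c v ζ ⬝ᵥ S.ty p =
        ζ ⬝ᵥ Bd.B (∑ u : R, (-∑ q ∈ x u, S.J q p) • (u : SysL.VV l d)) v := by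
      intro v p hp ζ
      have h3 := hok v p hp ζ
      have h4 : S.ex (S.cT c v ζ) p = c v ζ ⬝ᵥ S.ty p := by
        unfold SysL.ex SysL.cT
        simp
      rw [h4] at h3
      have h5 : ζ ⬝ᵥ Bd.B (∑ u : R, (-∑ q ∈ x u, S.J q p) • (u : SysL.VV l d)) v =
          -∑ u : R, (∑ q ∈ x u, S.J q p) * (ζ ⬝ᵥ Bd.B u v) := by
        rw [map_sum, LinearMap.sum_apply, dotProduct_sum, ← Finset.sum_neg_distrib]
        refine Finset.sum_congr rfl fun u _ => ?_
        rw [map_smul, LinearMap.smul_apply, dotProduct_smul, smul_eq_mul, neg_mul]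
      rw [h5]
      linear_combination h3
    refine ⟨x, hG, hθx, fun v p hp => (hval v (S.ty p) _ (hvec v p hp)).1, fun ψ hψ => ?_⟩
    have hF := (hmem ψ).1 hψ
    have h6 : mlL (S := S) (ι := R) (fun ψ v t => φ ψ v t) ψ x =
        -∑ v : R, ∑ p ∈ x v, ∑ u : R, (∑ q ∈ x u, S.J q p) * ψ u v := by
      unfold mlL
      rw [← Finset.sum_neg_distrib]
      refine Finset.sum_congr rfl fun v _ => ?_
      rw [← Finset.sum_neg_distrib]
      refine Finset.sum_congr rfl fun p hp => ?_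
      show φ ψ (v : SysL.VV l d) (S.ty p) = _
      rw [(hval v (S.ty p) _ (hvec v p hp)).2 ψ hF, ml_lin hF, ← Finset.sum_neg_distrib]
      exact Finset.sum_congr rfl fun u _ => neg_mul _ _
    rw [h6, ml_anti hG hF, neg_zero]

end Pool.Agent.H92.EL
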