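import Pool.Agent.H92.EL.CStm

/-!
# Project ELL (MP_a3214d), row C12: the pattern theorem
-/

set_option autoImplicit false

open scoped BigOperators Topology
open Filter

namespace Pool.Agent.H92.EL

namespace CPt

open Pool.Agent.H98.MF (Pre)

theorem ec_norm {l : ℕ} [NeZero l] (a : ZMod l) : ‖ec a‖ = 1 := by
  unfold ec
  exact AddChar.norm_apply _ _

theorem ec_ad {l : ℕ} [NeZero l] (a b : ZMod l) : ec (a + b) = ec a * ec b := by
  unfold ec
  exact AddChar.map_add_eq_mul _ _ _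

theorem sum_bU {α β : Type} [DecidableEq β] (s : Finset α) (t : α → Finset β) (f : β → ℝ)
    (hf : ∀ b, 0 ≤ f b) : ∑ b ∈ s.biUnion t, f b ≤ ∑ a ∈ s, ∑ b ∈ t a, f b := by
  classical
  induction s using Finset.induction_on with
  | empty => simp
  | insert a s ha ih =>
    rw [Finset.biUnion_insert, Finset.sum_insert ha]
    have h1 : ∑ b ∈ t a ∪ s.biUnion t, f b ≤ ∑ b ∈ t a, f b + ∑ b ∈ s.biUnion t, f b := by
      rw [← Finset.sum_union_inter]
      exact le_add_of_nonneg_right (Finset.sum_nonneg fun b _ => hf b)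
    linarith

variable {l : ℕ} [Fact l.Prime] (S : SysL l) {ι : Type} [Fintype ι]

/-- the weight of a set of primes -/
noncomputable def wg (τ : S.P → ℝ) (s : ℝ) (x : Finset S.P) : ℝ :=
  ∏ p ∈ x, (τ p * (S.N p : ℝ) ^ (-s))

/-- the reciprocal sum -/
noncomputable def rs (x : Finset S.P) : ℝ := ∑ p ∈ x, 2 / (S.N p : ℝ)

variable {S}

theorem wg_nn {τ : S.P → ℝ} (hτ : ∀ p, 0 ≤ τ p) (s : ℝ) (x : Finset S.P) : 0 ≤ wg S τ s x :=
  Finset.prod_nonneg fun p _ => mul_nonneg (hτ p) (Real.rpow_nonneg (Nat.cast_nonneg _) _)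

theorem N_pos (p : S.P) : (0 : ℝ) < S.N p := by
  have := S.two_le p
  exact_mod_cast (by omega : 0 < S.N p)

theorem rs_nn (x : Finset S.P) : 0 ≤ rs S x :=
  Finset.sum_nonneg fun p _ => div_nonneg (by norm_num) (N_pos p).le

theorem nm_one (x : Finset S.P) : 1 ≤ S.nm x := by
  unfold Pre.nm
  exact Nat.one_le_iff_ne_zero.mpr (Finset.prod_ne_zero_iff.mpr fun p _ => by
    have := S.two_le p
    omega)

theorem nm_oneR (x : Finset S.P) : (1 : ℝ) ≤ S.nm x := by exact_mod_cast nm_one x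

theorem log_nm (x : Finset S.P) : Real.log (S.nm x) = ∑ p ∈ x, Real.log (S.N p) := by
  unfold Pre.nm
  push_cast
  rw [Real.log_prod]
  intro p _
  exact (N_pos p).ne'

theorem log_nm_nn (x : Finset S.P) : 0 ≤ Real.log (S.nm x) := Real.log_nonneg (nm_oneR x)

theorem ls_eq (x : Finset S.P) : S.ls x = Real.exp (rs S x) := rfl

/-- sums over the primes of a larger set -/
theorem sum_M' {M M' : Finset S.P} {y : ι → Finset S.P}
    (hM : ∀ p, p ∈ M' ↔ (p ∈ M ∨ ∃ u, ∃ q ∈ y u, ∃ g, S.ac g q = p)) (f : S.P → ℝ)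
    (hf : ∀ p, 0 ≤ f p) (hg : ∀ g p, f (S.ac g p) = f p) :
    ∑ p ∈ M', f p ≤ ∑ p ∈ M, f p + (Fintype.card S.D : ℝ) * ∑ u, ∑ q ∈ y u, f q := by
  classical
  set Z : Finset S.P := Finset.univ.biUnion fun u : ι => (y u).biUnion fun q =>
    Finset.univ.image fun g : S.D => S.ac g q with hZ
  have h1 : M' ⊆ M ∪ Z := by
    intro p hp
    rcases (hM p).mp hp with h | ⟨u, q, hq, g, hg⟩
    · exact Finset.mem_union_left _ h
    · refine Finset.mem_union_right _ ?_
      rw [hZ]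
      simp only [Finset.mem_biUnion, Finset.mem_univ, true_and, Finset.mem_image]
      exact ⟨u, q, hq, g, hg⟩
  have h2 : ∑ p ∈ M', f p ≤ ∑ p ∈ M ∪ Z, f p :=
    Finset.sum_le_sum_of_subset_of_nonneg h1 fun p _ _ => hf p
  have h3 : ∑ p ∈ M ∪ Z, f p ≤ ∑ p ∈ M, f p + ∑ p ∈ Z, f p := by
    rw [← Finset.sum_union_inter]
    exact le_add_of_nonneg_right (Finset.sum_nonneg fun b _ => hf b)
  have h4 : ∑ p ∈ Z, f p ≤ ∑ u, ∑ q ∈ y u, ∑ p ∈ Finset.univ.image (fun g : S.D => S.ac g q), f p := by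
    refine (sum_bU _ _ f hf).trans (Finset.sum_le_sum fun u _ => sum_bU _ _ f hf)
  have h5 : ∀ q : S.P, ∑ p ∈ Finset.univ.image (fun g : S.D => S.ac g q), f p ≤
      (Fintype.card S.D : ℝ) * f q := by
    intro q
    have h6 : ∀ p ∈ Finset.univ.image (fun g : S.D => S.ac g q), f p = f q := by
      intro p hp
      obtain ⟨g, _, rfl⟩ := Finset.mem_image.mp hp
      exact hg g q
    rw [Finset.sum_congr rfl h6, Finset.sum_const, nsmul_eq_mul]
    refine mul_le_mul_of_nonneg_right ?_ (hf q)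
    have h7 : (Finset.univ.image (fun g : S.D => S.ac g q)).card ≤ Fintype.card S.D :=
      Finset.card_image_le
    exact_mod_cast h7
  have h8 : ∑ u, ∑ q ∈ y u, ∑ p ∈ Finset.univ.image (fun g : S.D => S.ac g q), f p ≤
      (Fintype.card S.D : ℝ) * ∑ u, ∑ q ∈ y u, f q := by
    rw [Finset.mul_sum]
    refine Finset.sum_le_sum fun u _ => ?_
    rw [Finset.mul_sum]
    exact Finset.sum_le_sum fun q _ => h5 q
  linarith

theorem log_M' {M M' : Finset S.P} {y : ι → Finset S.P}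
    (hM : ∀ p, p ∈ M' ↔ (p ∈ M ∨ ∃ u, ∃ q ∈ y u, ∃ g, S.ac g q = p)) :
    Real.log (S.nm M') ≤ Real.log (S.nm M) +
      (Fintype.card S.D : ℝ) * ∑ u, Real.log (S.nm (y u)) := by
  simp only [log_nm]
  refine sum_M' hM (fun p => Real.log (S.N p)) (fun p => ?_) fun g p => ?_
  · have := S.two_le p
    exact Real.log_nonneg (by exact_mod_cast (by omega : 1 ≤ S.N p))
  · show Real.log (S.N (S.ac g p)) = _
    rw [S.N_ac]

theorem ls_M' {M M' : Finset S.P} {y : ι → Finset S.P}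
    (hM : ∀ p, p ∈ M' ↔ (p ∈ M ∨ ∃ u, ∃ q ∈ y u, ∃ g, S.ac g q = p)) :
    S.ls M' ≤ S.ls M * ∏ u, S.ls (y u) ^ (Fintype.card S.D) := by
  have h1 : rs S M' ≤ rs S M + (Fintype.card S.D : ℝ) * ∑ u, rs S (y u) := by
    refine sum_M' hM (fun p => 2 / (S.N p : ℝ)) (fun p => ?_) fun g p => ?_
    · exact div_nonneg (by norm_num) (N_pos p).le
    · show 2 / (S.N (S.ac g p) : ℝ) = _
      rw [S.N_ac]
  have h2 : S.ls M * ∏ u, S.ls (y u) ^ (Fintype.card S.D) =
      Real.exp (rs S M + (Fintype.card S.D : ℝ) * ∑ u, rs S (y u)) := by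
    simp only [ls_eq]
    rw [Real.exp_add, Finset.mul_sum, Real.exp_sum]
    congr 1
    refine Finset.prod_congr rfl fun u _ => ?_
    rw [← Real.exp_nat_mul]
  rw [h2, ls_eq]
  exact Real.exp_le_exp.mpr h1

/-! ### families with given small variables -/

open Classical in
/-- the family with large variables `z` and small variables `y` -/
noncomputable def jn (I : Finset ι) (y : ι → Finset S.P) (z : {u // u ∈ I} → Finset S.P) :
    ι → Finset S.P := fun w => if h : w ∈ I then z ⟨w, h⟩ else y w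

open Classical in
/-- extension by the empty set -/
noncomputable def xt (I : Finset ι) (z : {u // u ∈ I} → Finset S.P) : ι → Finset S.P :=
  fun w => if h : w ∈ I then z ⟨w, h⟩ else ∅

theorem xt_out {I : Finset ι} (z : {u // u ∈ I} → Finset S.P) {u : ι} (hu : u ∉ I) :
    xt I z u = ∅ := by
  unfold xt
  rw [dif_neg hu]

theorem xt_in {I : Finset ι} (z : {u // u ∈ I} → Finset S.P) (u : {u // u ∈ I}) :
    xt I z u.1 = z u := by
  unfold xt
  rw [dif_pos u.2]

theorem jn_eq {I : Finset ι} {y : ι → Finset S.P} (hy : ∀ u ∈ I, y u = ∅)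
    (z : {u // u ∈ I} → Finset S.P) : jn I y z = fun u => xt I z u ∪ y u := by
  funext u
  unfold jn xt
  by_cases h : u ∈ I
  · rw [dif_pos h, dif_pos h, hy u h, Finset.union_empty]
  · rw [dif_neg h, dif_neg h, Finset.empty_union]

theorem xt_Gd {I : Finset ι} (z : {u // u ∈ I} → Finset S.P) : S.Gd (xt I z) ↔ S.Gd z := by
  constructor
  · intro h
    refine ⟨fun u p hp => h.1 u.1 p (by rwa [xt_in]), fun u v p hp q hq g hg => ?_⟩
    have h1 := h.2 u.1 v.1 p (by rwa [xt_in]) q (by rwa [xt_in]) g hg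
    exact ⟨Subtype.ext h1.1, h1.2⟩
  · intro h
    refine ⟨fun u p hp => ?_, fun u v p hp q hq g hg => ?_⟩
    · by_cases hu : u ∈ I
      · exact h.1 ⟨u, hu⟩ p (by rwa [← xt_in z ⟨u, hu⟩])
      · rw [xt_out z hu] at hp
        exact absurd hp (Finset.notMem_empty p)
    · by_cases hu : u ∈ I
      · by_cases hv : v ∈ I
        · have h1 := h.2 ⟨u, hu⟩ ⟨v, hv⟩ p (by rwa [← xt_in z ⟨u, hu⟩]) q
            (by rwa [← xt_in z ⟨v, hv⟩]) g hg
          exact ⟨congrArg Subtype.val h1.1, h1.2⟩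
        · rw [xt_out z hv] at hq
          exact absurd hq (Finset.notMem_empty q)
      · rw [xt_out z hu] at hp
        exact absurd hp (Finset.notMem_empty p)

theorem xt_Off {I : Finset ι} (M : Finset S.P) (z : {u // u ∈ I} → Finset S.P) :
    S.Off M (xt I z) ↔ S.Off M z := by
  constructor
  · intro h u
    have := h u.1
    rwa [xt_in] at this
  · intro h u
    by_cases hu : u ∈ I
    · rw [show xt I z u = z ⟨u, hu⟩ from xt_in z ⟨u, hu⟩]
      exact h ⟨u, hu⟩
    · rw [xt_out z hu]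
      exact Finset.disjoint_empty_left _

/-- sums over the large variables -/
theorem xt_sum {A : Type} [AddCommMonoid A] {I : Finset ι} (z : {u // u ∈ I} → Finset S.P)
    (F : ι → S.P → A) : ∑ u, ∑ p ∈ xt I z u, F u p = ∑ u : {u // u ∈ I}, ∑ p ∈ z u, F u.1 p := by
  classical
  have h1 : ∑ u, ∑ p ∈ xt I z u, F u p = ∑ u ∈ I, ∑ p ∈ xt I z u, F u p := by
    symm
    refine Finset.sum_subset (Finset.subset_univ _) fun u _ hu => ?_
    rw [xt_out z hu, Finset.sum_empty]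
  rw [h1, ← Finset.sum_coe_sort I]
  exact Finset.sum_congr rfl fun u _ => by rw [xt_in]

theorem Gd_mono {x y : ι → Finset S.P} (h : ∀ u, y u ⊆ x u) (hx : S.Gd x) : S.Gd y :=
  ⟨fun u p hp => hx.1 u p (h u hp), fun u v p hp q hq g hg =>
    hx.2 u v p (h u hp) q (h v hq) g hg⟩

theorem Off_mono {M : Finset S.P} {x y : ι → Finset S.P} (h : ∀ u, y u ⊆ x u)
    (hx : S.Off M x) : S.Off M y := fun u => Finset.disjoint_of_subset_left (h u) (hx u)

open Classical in
/-- the inner sums -/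
noncomputable def inS (τ : S.P → ℝ) (s : ℝ) {κ : Type} [Fintype κ] (c : κ → S.El)
    (M : Finset S.P) : ℂ :=
  ∑' x : κ → Finset S.P, (if S.Gd x ∧ S.Off M x then
      ec (∑ u, ∑ p ∈ x u, S.ex (c u) p) *
        ((∏ u, ∏ p ∈ x u, (τ p * (S.N p : ℝ) ^ (-s)) : ℝ) : ℂ) else 0)

open Classical in
/-- the sum over the large variables -/
theorem fixY0 (hC : SCh1) (b : ι → ι → ZMod l) (hb : ∀ u, b u u = 0) {c : ι → S.El}
    {M : Finset S.P} (hOk : S.Ok c M) {I : Finset ι} (hI : ∀ u ∈ I, ∀ v ∈ I, ¬ S.Lk b u v)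
    {y : ι → Finset S.P} (hy : ∀ u ∈ I, y u = ∅) (τ : S.P → ℝ) (s : ℝ) :
    (¬ (S.Gd y ∧ S.Off M y) ∧
      ∑' x : ι → Finset S.P, (if ∀ w, w ∉ I → x w = y w then S.Kt τ s b c M x else 0) = 0) ∨
    ∃ (c' : ι → S.El) (M' : Finset S.P), S.Ok c' M' ∧
      (∀ p, p ∈ M' ↔ (p ∈ M ∨ ∃ u, ∃ q ∈ y u, ∃ g, S.ac g q = p)) ∧
      (∀ u ∈ I, (c' u = 0 ↔ (c u = 0 ∧ ∀ v, S.Lk b u v → y v = ∅))) ∧
      ∑' x : ι → Finset S.P, (if ∀ w, w ∉ I → x w = y w then S.Kt τ s b c M x else 0) =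
        ec (S.EE b c y) * ((∏ u, wg S τ s (y u) : ℝ) : ℂ) *
          inS τ s (fun u : {u // u ∈ I} => c' u.1) M' := by
  -- the sum is a sum over the large variables
  have h0 : ∑' x : ι → Finset S.P,
      (if ∀ w, w ∉ I → x w = y w then S.Kt τ s b c M x else 0) =
      ∑' z : {u // u ∈ I} → Finset S.P, S.Kt τ s b c M (jn I y z) := by
    have hinj : Function.Injective (jn (S := S) I y) := by
      intro z z' h
      funext u
      have h1 := congrFun h u.1
      unfold jn at h1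
      rw [dif_pos u.2, dif_pos u.2] at h1
      exact h1
    rw [← hinj.tsum_eq (f := fun x : ι → Finset S.P =>
      (if ∀ w, w ∉ I → x w = y w then S.Kt τ s b c M x else 0))]
    · refine tsum_congr fun z => ?_
      rw [if_pos]
      intro w hw
      unfold jn
      rw [dif_neg hw]
    · intro x hx
      have h1 : ∀ w, w ∉ I → x w = y w := by
        by_contra h
        exact hx (if_neg h)
      refine ⟨fun u => x u.1, ?_⟩
      funext w
      unfold jn
      by_cases hw : w ∈ I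
      · rw [dif_pos hw]
      · rw [dif_neg hw, h1 w hw]
  by_cases hg : S.Gd y ∧ S.Off M y
  swap
  · refine Or.inl ⟨hg, ?_⟩
    rw [h0]
    have h1 : ∀ z : {u // u ∈ I} → Finset S.P, S.Kt τ s b c M (jn I y z) = 0 := by
      intro z
      unfold SysL.Kt
      rw [if_neg]
      intro h
      rw [jn_eq hy] at h
      exact hg ⟨Gd_mono (fun u => Finset.subset_union_right) h.1,
        Off_mono (fun u => Finset.subset_union_right) h.2⟩
    simp only [h1, tsum_zero]
  · refine Or.inr ?_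
    obtain ⟨c', M', hOk', -, hM', hc', hx'⟩ := hC l S ι b c M hb hOk I y hI hy hg.1 hg.2
    refine ⟨c', M', hOk', hM', hc', ?_⟩
    rw [h0]
    unfold inS
    rw [← tsum_mul_left]
    refine tsum_congr fun z => ?_
    have h2 := hx' (xt I z) (fun u hu => xt_out z hu)
    rw [jn_eq hy]
    unfold SysL.Kt
    by_cases h3 : S.Gd z ∧ S.Off M' z
    · have h4 : S.Gd (xt I z) ∧ S.Off M' (xt I z) := ⟨(xt_Gd z).mpr h3.1, (xt_Off M' z).mpr h3.2⟩
      rw [if_pos (h2.1.mpr h4), if_pos h3, h2.2 h4.1 h4.2, ec_ad, xt_sum]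
      have h5 : (∏ u, ∏ p ∈ xt I z u ∪ y u, (τ p * (S.N p : ℝ) ^ (-s)) : ℝ) =
          (∏ u, wg S τ s (y u)) * ∏ u : {u // u ∈ I}, ∏ p ∈ z u, (τ p * (S.N p : ℝ) ^ (-s)) := by
        have h6 : ∀ u, ∏ p ∈ xt I z u ∪ y u, (τ p * (S.N p : ℝ) ^ (-s)) =
            wg S τ s (y u) * ∏ p ∈ xt I z u, (τ p * (S.N p : ℝ) ^ (-s)) := by
          intro u
          by_cases hu : u ∈ I
          · rw [hy u hu]
            unfold wg
            rw [Finset.union_empty, Finset.prod_empty, one_mul]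
          · rw [xt_out z hu, Finset.empty_union, Finset.prod_empty, mul_one]
            rfl
        rw [Finset.prod_congr rfl fun u _ => h6 u, Finset.prod_mul_distrib]
        congr 1
        have h7 : ∏ u, ∏ p ∈ xt I z u, (τ p * (S.N p : ℝ) ^ (-s)) =
            ∏ u ∈ I, ∏ p ∈ xt I z u, (τ p * (S.N p : ℝ) ^ (-s)) := by
          symm
          refine Finset.prod_subset (Finset.subset_univ _) fun u _ hu => ?_
          rw [xt_out z hu, Finset.prod_empty]
        rw [h7, ← Finset.prod_coe_sort I]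
        exact Finset.prod_congr rfl fun u _ => by rw [xt_in]
      rw [h5]
      push_cast
      ring
    · rw [if_neg h3, if_neg (fun h => h3 ⟨(xt_Gd z).mp (h2.1.mp h).1,
        (xt_Off M' z).mp (h2.1.mp h).2⟩), mul_zero]

/-! ### bounds -/

open Classical in
/-- the bound for given small variables -/
theorem fixY1 (hC : SCh1) (b : ι → ι → ZMod l) (hb : ∀ u, b u u = 0) {c : ι → S.El}
    {M : Finset S.P} (hOk : S.Ok c M) {I : Finset ι} (hI : ∀ u ∈ I, ∀ v ∈ I, ¬ S.Lk b u v)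
    {y : ι → Finset S.P} (hy : ∀ u ∈ I, y u = ∅) {τ : S.P → ℝ} (hτ : ∀ p, 0 ≤ τ p) {σ : ℝ}
    (hσ : 0 < σ) (hσ1 : σ ≤ 1) {C E : ℝ} (hC0 : 0 ≤ C) (hE : 0 ≤ E)
    (hIn : ∀ (c' : {u // u ∈ I} → S.El) (M' : Finset S.P), S.Ok c' M' →
      ‖inS τ (1 + σ) c' M'‖ ≤ C * (1 + Real.log (S.nm M')) ^ E * S.ls M' ^ E *
        σ ^ (-((Finset.univ.filter fun u => c' u = 0).card : ℝ)))
    {n : ℕ} (hn : (I.filter fun u => c u = 0 ∧ ∀ v, S.Lk b u v → y v = ∅).card ≤ n)
    {Z : ℝ} (hZ : ∑ u, Real.log (S.nm (y u)) ≤ Z) :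
    ‖∑' x : ι → Finset S.P, (if ∀ w, w ∉ I → x w = y w then S.Kt τ (1 + σ) b c M x else 0)‖ ≤
      (∏ u, wg S τ (1 + σ) (y u)) * (C * (1 + Real.log (S.nm M) +
        (Fintype.card S.D : ℝ) * Z) ^ E *
        (S.ls M * ∏ u, S.ls (y u) ^ (Fintype.card S.D)) ^ E * σ ^ (-(n : ℝ))) := by
  have hw : 0 ≤ ∏ u, wg S τ (1 + σ) (y u) :=
    Finset.prod_nonneg fun u _ => wg_nn hτ _ _
  have hZ0 : 0 ≤ Z := (Finset.sum_nonneg fun u _ => log_nm_nn (y u)).trans hZ
  have hls : ∀ x : Finset S.P, 0 < S.ls x := fun x => Real.exp_pos _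
  rcases fixY0 hC b hb hOk hI hy τ (1 + σ) with ⟨-, h⟩ | ⟨c', M', hOk', hM', hc', h⟩
  · rw [h, norm_zero]
    have h1 : 0 ≤ 1 + Real.log (S.nm M) + (Fintype.card S.D : ℝ) * Z := by
      have := log_nm_nn (S := S) M
      positivity
    have h2 : 0 ≤ S.ls M * ∏ u, S.ls (y u) ^ (Fintype.card S.D) :=
      mul_nonneg (hls M).le (Finset.prod_nonneg fun u _ => pow_nonneg (hls _).le _)
    exact mul_nonneg hw (mul_nonneg (mul_nonneg (mul_nonneg hC0 (Real.rpow_nonneg h1 _))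
      (Real.rpow_nonneg h2 _)) (Real.rpow_nonneg hσ.le _))
  · rw [h, norm_mul, norm_mul, ec_norm, one_mul, Complex.norm_real, Real.norm_of_nonneg hw]
    refine mul_le_mul_of_nonneg_left ?_ hw
    have hOk2 : S.Ok (fun u : {u // u ∈ I} => c' u.1) M' := ⟨hOk'.stb, fun u => hOk'.sub u.1⟩
    refine (hIn _ M' hOk2).trans ?_
    have h1 : (1 + Real.log (S.nm M')) ^ E ≤ (1 + Real.log (S.nm M) +
        (Fintype.card S.D : ℝ) * Z) ^ E := by
      refine Real.rpow_le_rpow (by have := log_nm_nn (S := S) M'; linarith) ?_ hE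
      have h2 := log_M' hM'
      have h3 : (Fintype.card S.D : ℝ) * ∑ u, Real.log (S.nm (y u)) ≤
          (Fintype.card S.D : ℝ) * Z := mul_le_mul_of_nonneg_left hZ (Nat.cast_nonneg _)
      linarith
    have h2 : S.ls M' ^ E ≤ (S.ls M * ∏ u, S.ls (y u) ^ (Fintype.card S.D)) ^ E :=
      Real.rpow_le_rpow (hls M').le (ls_M' hM') hE
    have h3 : σ ^ (-((Finset.univ.filter fun u : {u // u ∈ I} => c' u.1 = 0).card : ℝ)) ≤
        σ ^ (-(n : ℝ)) := by
      refine Real.rpow_le_rpow_of_exponent_ge hσ hσ1 ?_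
      have h4 : (Finset.univ.filter fun u : {u // u ∈ I} => c' u.1 = 0).card ≤
          (I.filter fun u => c u = 0 ∧ ∀ v, S.Lk b u v → y v = ∅).card := by
        refine Finset.card_le_card_of_injOn (fun u => u.1) (fun u hu => ?_)
          (fun u _ v _ huv => Subtype.ext huv)
        have h5 := (Finset.mem_filter.mp (Finset.mem_coe.mp hu)).2
        exact Finset.mem_coe.mpr (Finset.mem_filter.mpr ⟨u.2, (hc' u.1 u.2).mp h5⟩)
      have h6 : ((Finset.univ.filter fun u : {u // u ∈ I} => c' u.1 = 0).card : ℝ) ≤ n := by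
        exact_mod_cast h4.trans hn
      linarith
    have h7 : 0 ≤ (1 + Real.log (S.nm M')) := by have := log_nm_nn (S := S) M'; linarith
    have h8 : 0 ≤ (1 + Real.log (S.nm M) + (Fintype.card S.D : ℝ) * Z) ^ E := by
      refine (Real.rpow_nonneg h7 E).trans h1
    have h9 : 0 ≤ (S.ls M * ∏ u, S.ls (y u) ^ (Fintype.card S.D)) ^ E :=
      (Real.rpow_nonneg (hls M').le E).trans h2
    refine mul_le_mul (mul_le_mul (mul_le_mul_of_nonneg_left h1 hC0) h2
      (Real.rpow_nonneg (hls M').le E) (mul_nonneg hC0 h8)) h3 (Real.rpow_nonneg hσ.le _)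
      (mul_nonneg (mul_nonneg hC0 h8) h9)

open Classical in
/-- the small variables -/
noncomputable def Ys (J : ℕ) (K V : Finset ι) : Finset (ι → Finset S.P) :=
  Fintype.piFinset (fun w => if w ∈ K then (if w ∈ V then (S.bx ((2 : ℝ) ^ J)).erase ∅
    else S.bx ((2 : ℝ) ^ J)) else {∅})

theorem mem_bx {t : ℝ} {x : Finset S.P} : x ∈ S.bx t ↔ (S.nm x : ℝ) ≤ t := by
  unfold Pre.bx
  rw [Finset.mem_filter, Finset.mem_powerset]
  refine ⟨fun h => h.2, fun h => ⟨fun p hp => ?_, h⟩⟩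
  have h0 : (0 : ℝ) ≤ t := (Nat.cast_nonneg _).trans h
  rw [S.mem_pr h0]
  refine le_trans ?_ h
  have h1 : S.N p ∣ S.nm x := Finset.dvd_prod_of_mem _ hp
  exact_mod_cast Nat.le_of_dvd (nm_one x) h1

theorem mem_Ys {J : ℕ} {K V : Finset ι} {y : ι → Finset S.P} :
    y ∈ Ys (S := S) J K V ↔ (∀ w, w ∉ K → y w = ∅) ∧ (∀ w ∈ K, S.nm (y w) ≤ 2 ^ J) ∧
      ∀ w ∈ K, w ∈ V → (y w).Nonempty := by
  classical
  unfold Ys
  rw [Fintype.mem_piFinset]
  have hb : ∀ x : Finset S.P, x ∈ S.bx ((2 : ℝ) ^ J) ↔ S.nm x ≤ 2 ^ J := by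
    intro x
    rw [mem_bx]
    exact_mod_cast Iff.rfl
  constructor
  · intro h
    refine ⟨fun w hw => ?_, fun w hw => ?_, fun w hw hv => ?_⟩
    · have := h w
      rw [if_neg hw] at this
      exact Finset.mem_singleton.mp this
    · have := h w
      rw [if_pos hw] at this
      by_cases hv : w ∈ V
      · rw [if_pos hv] at this
        exact (hb _).mp (Finset.mem_of_mem_erase this)
      · rw [if_neg hv] at this
        exact (hb _).mp this
    · have := h w
      rw [if_pos hw, if_pos hv] at this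
      exact Finset.nonempty_iff_ne_empty.mpr (Finset.ne_of_mem_erase this)
  · intro h w
    by_cases hw : w ∈ K
    · rw [if_pos hw]
      by_cases hv : w ∈ V
      · rw [if_pos hv]
        exact Finset.mem_erase.mpr ⟨Finset.nonempty_iff_ne_empty.mp (h.2.2 w hw hv),
          (hb _).mpr (h.2.1 w hw)⟩
      · rw [if_neg hv]
        exact (hb _).mpr (h.2.1 w hw)
    · rw [if_neg hw]
      exact Finset.mem_singleton.mpr (h.1 w hw)

theorem nm_empty : S.nm (∅ : Finset S.P) = 1 := by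
  unfold Pre.nm
  exact Finset.prod_empty

theorem log_Ys {J : ℕ} {K V : Finset ι} {y : ι → Finset S.P} (hy : y ∈ Ys (S := S) J K V) :
    ∑ u, Real.log (S.nm (y u)) ≤ (Fintype.card ι : ℝ) * J := by
  have h1 : ∀ u, Real.log (S.nm (y u)) ≤ J := by
    intro u
    have h2 : S.nm (y u) ≤ 2 ^ J := by
      by_cases hu : u ∈ K
      · exact (mem_Ys.mp hy).2.1 u hu
      · rw [(mem_Ys.mp hy).1 u hu, nm_empty]
        exact Nat.one_le_two_pow
    have h3 : Real.log (S.nm (y u)) ≤ Real.log ((2 : ℝ) ^ J) :=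
      Real.log_le_log (lt_of_lt_of_le one_pos (nm_oneR _)) (by exact_mod_cast h2)
    rw [Real.log_pow] at h3
    have h4 : Real.log 2 ≤ 1 := by
      have := Real.log_two_lt_d9
      linarith
    calc Real.log (S.nm (y u)) ≤ (J : ℝ) * Real.log 2 := h3
      _ ≤ (J : ℝ) * 1 := mul_le_mul_of_nonneg_left h4 (Nat.cast_nonneg _)
      _ = J := mul_one _
  refine (Finset.sum_le_sum fun u _ => h1 u).trans ?_
  rw [Finset.sum_const, Finset.card_univ, nsmul_eq_mul]

/-- the sum of the weights of the small variables -/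
theorem sum_Ys {J : ℕ} {K V : Finset ι} {τ : S.P → ℝ} (hτ : ∀ p, 0 ≤ τ p) {σ : ℝ} (hσ : 0 < σ)
    {a : ℕ} {C2 : ℝ} (hC2 : 1 ≤ C2)
    (hT : ∑ x ∈ S.bx (2 ^ J), (∏ p ∈ x, 1 * τ p) * S.ls x ^ a * S.pws 1 x ≤
      C2 * (1 + (J : ℝ)) ^ (1 : ℝ)) :
    ∑ y ∈ Ys (S := S) J K V, ∏ u, (wg S τ (1 + σ) (y u) * S.ls (y u) ^ a) ≤
      (C2 * (1 + (J : ℝ))) ^ (Fintype.card ι) := by
  classical
  have hls : ∀ x : Finset S.P, 0 < S.ls x := fun x => Real.exp_pos _
  have hJ : (0 : ℝ) ≤ J := Nat.cast_nonneg _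
  have hh : ∀ x : Finset S.P, 0 ≤ wg S τ (1 + σ) x * S.ls x ^ a := fun x =>
    mul_nonneg (wg_nn hτ _ _) (pow_nonneg (hls x).le _)
  unfold Ys
  rw [← Finset.prod_univ_sum (t := fun w : ι => if w ∈ K then (if w ∈ V then
    (S.bx ((2 : ℝ) ^ J)).erase ∅ else S.bx ((2 : ℝ) ^ J)) else {∅})
    (f := fun (_ : ι) (x : Finset S.P) => wg S τ (1 + σ) x * S.ls x ^ a)]
  have h1 : ∀ u : ι, ∑ x ∈ (if u ∈ K then (if u ∈ V then (S.bx ((2 : ℝ) ^ J)).erase ∅
      else S.bx ((2 : ℝ) ^ J)) else {∅}), (wg S τ (1 + σ) x * S.ls x ^ a) ≤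
      C2 * (1 + (J : ℝ)) := by
    intro u
    have h2 : ∑ x ∈ S.bx ((2 : ℝ) ^ J), (wg S τ (1 + σ) x * S.ls x ^ a) ≤
        C2 * (1 + (J : ℝ)) := by
      rw [Real.rpow_one] at hT
      refine le_trans (Finset.sum_le_sum fun x _ => ?_) hT
      have h3 : wg S τ (1 + σ) x ≤ (∏ p ∈ x, 1 * τ p) * S.pws 1 x := by
        unfold wg SysL.pws
        rw [← Finset.prod_mul_distrib]
        refine Finset.prod_le_prod (fun p _ => mul_nonneg (hτ p)
          (Real.rpow_nonneg (Nat.cast_nonneg _) _)) fun p _ => ?_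
        rw [one_mul]
        refine mul_le_mul_of_nonneg_left ?_ (hτ p)
        have h4 : (1 : ℝ) ≤ S.N p := by
          have := S.two_le p
          exact_mod_cast (by omega : 1 ≤ S.N p)
        exact Real.rpow_le_rpow_of_exponent_le h4 (by linarith)
      calc wg S τ (1 + σ) x * S.ls x ^ a ≤ ((∏ p ∈ x, 1 * τ p) * S.pws 1 x) * S.ls x ^ a :=
            mul_le_mul_of_nonneg_right h3 (pow_nonneg (hls x).le _)
        _ = (∏ p ∈ x, 1 * τ p) * S.ls x ^ a * S.pws 1 x := by ring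
    by_cases hK : u ∈ K
    · rw [if_pos hK]
      by_cases hV : u ∈ V
      · rw [if_pos hV]
        exact (Finset.sum_le_sum_of_subset_of_nonneg (Finset.erase_subset _ _)
          fun x _ _ => hh x).trans h2
      · rw [if_neg hV]
        exact h2
    · rw [if_neg hK, Finset.sum_singleton]
      have h3 : wg S τ (1 + σ) ∅ * S.ls ∅ ^ a = 1 := by
        unfold wg SysL.ls
        rw [Finset.prod_empty, Finset.sum_empty, Real.exp_zero, one_pow, one_mul]
      rw [h3]
      nlinarith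
  calc ∏ u : ι, ∑ x ∈ (if u ∈ K then (if u ∈ V then (S.bx ((2 : ℝ) ^ J)).erase ∅
      else S.bx ((2 : ℝ) ^ J)) else {∅}), (wg S τ (1 + σ) x * S.ls x ^ a)
      ≤ ∏ _u : ι, (C2 * (1 + (J : ℝ))) :=
        Finset.prod_le_prod (fun u _ => Finset.sum_nonneg fun x _ => hh x) fun u _ => h1 u
    _ = (C2 * (1 + (J : ℝ))) ^ (Fintype.card ι) := by
        rw [Finset.prod_const, Finset.card_univ]

/-- the condition: `I` free, `K` small, `V` nonempty -/
def Qc (J : ℕ) (I K V : Finset ι) (x : ι → Finset S.P) : Prop :=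
  (∀ w, w ∉ I → w ∉ K → x w = ∅) ∧ (∀ w ∈ K, S.nm (x w) ≤ 2 ^ J) ∧ ∀ w ∈ V, (x w).Nonempty

open Classical in
theorem Q_eq {J : ℕ} {I K V : Finset ι} (hIK : Disjoint I K) (hV : V ⊆ K)
    (x : ι → Finset S.P) (F : ℂ) :
    (if Qc J I K V x then F else 0) =
      ∑ y ∈ Ys (S := S) J K V, if ∀ w, w ∉ I → x w = y w then F else 0 := by
  by_cases h : Qc J I K V x
  · rw [if_pos h]
    have h0 : (fun w => if w ∈ I then (∅ : Finset S.P) else x w) ∈ Ys (S := S) J K V := by
      rw [mem_Ys]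
      refine ⟨fun w hw => ?_, fun w hw => ?_, fun w hw hv => ?_⟩
      · by_cases hi : w ∈ I
        · exact if_pos hi
        · rw [if_neg hi]
          exact h.1 w hi hw
      · rw [if_neg (fun hi => Finset.disjoint_left.mp hIK hi hw)]
        exact h.2.1 w hw
      · rw [if_neg (fun hi => Finset.disjoint_left.mp hIK hi hw)]
        exact h.2.2 w hv
    rw [Finset.sum_eq_single_of_mem _ h0]
    · rw [if_pos]
      intro w hw
      exact (if_neg hw).symm
    · intro y hy hne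
      rw [if_neg]
      intro h1
      refine hne (funext fun w => ?_)
      show y w = if w ∈ I then (∅ : Finset S.P) else x w
      by_cases hi : w ∈ I
      · rw [if_pos hi]
        exact (mem_Ys.mp hy).1 w (Finset.disjoint_left.mp hIK hi)
      · rw [if_neg hi]
        exact (h1 w hi).symm
  · rw [if_neg h]
    symm
    refine Finset.sum_eq_zero fun y hy => ?_
    rw [if_neg]
    intro h1
    refine h ⟨fun w hi hk => ?_, fun w hk => ?_, fun w hv => ?_⟩
    · rw [h1 w hi]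
      exact (mem_Ys.mp hy).1 w hk
    · rw [h1 w (fun hi => Finset.disjoint_left.mp hIK hi hk)]
      exact (mem_Ys.mp hy).2.1 w hk
    · rw [h1 w (fun hi => Finset.disjoint_left.mp hIK hi (hV hv))]
      exact (mem_Ys.mp hy).2.2 w (hV hv) hv

open Classical in
/-- the bound for the sum with a condition -/
theorem Qbound (hC : SCh1) (b : ι → ι → ZMod l) (hb : ∀ u, b u u = 0) {c : ι → S.El}
    {M : Finset S.P} (hOk : S.Ok c M) {J : ℕ} {I K V U : Finset ι}
    (hI : ∀ u ∈ I, ∀ v ∈ I, ¬ S.Lk b u v) (hIK : Disjoint I K) (hV : V ⊆ K)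
    (hL : ∀ u ∈ I, u ∈ S.iso b U ∨ ∃ v ∈ V, S.Lk b u v) {τ : S.P → ℝ} (hτ : ∀ p, 0 ≤ τ p)
    {σ : ℝ} (hσ : 0 < σ) (hσ1 : σ ≤ 1) {C E : ℝ} (hC0 : 0 ≤ C) (hE : 0 ≤ E)
    (hIn : ∀ (c' : {u // u ∈ I} → S.El) (M' : Finset S.P), S.Ok c' M' →
      ‖inS τ (1 + σ) c' M'‖ ≤ C * (1 + Real.log (S.nm M')) ^ E * S.ls M' ^ E *
        σ ^ (-((Finset.univ.filter fun u => c' u = 0).card : ℝ)))
    {a : ℕ} (ha : (Fintype.card S.D : ℝ) * E ≤ a) {C2 : ℝ} (hC2 : 1 ≤ C2)
    (hT : ∑ x ∈ S.bx (2 ^ J), (∏ p ∈ x, 1 * τ p) * S.ls x ^ a * S.pws 1 x ≤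
      C2 * (1 + (J : ℝ)) ^ (1 : ℝ))
    (hS : Summable fun x : ι → Finset S.P => ‖S.Kt τ (1 + σ) b c M x‖) :
    ‖∑' x : ι → Finset S.P, (if Qc J I K V x then S.Kt τ (1 + σ) b c M x else 0)‖ ≤
      C * ((1 + Real.log (S.nm M)) * (1 + (Fintype.card S.D : ℝ) * Fintype.card ι * J)) ^ E *
        S.ls M ^ E * (C2 * (1 + (J : ℝ))) ^ (Fintype.card ι) *
        σ ^ (-(S.wt b c U : ℝ)) := by
  have hls : ∀ x : Finset S.P, 0 < S.ls x := fun x => Real.exp_pos _
  have hls1 : ∀ x : Finset S.P, 1 ≤ S.ls x := fun x => by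
    rw [ls_eq]
    exact Real.one_le_exp (rs_nn x)
  have hlg := log_nm_nn (S := S) M
  -- exchange
  have h1 : ∑' x : ι → Finset S.P, (if Qc J I K V x then S.Kt τ (1 + σ) b c M x else 0) =
      ∑ y ∈ Ys (S := S) J K V, ∑' x : ι → Finset S.P,
        (if ∀ w, w ∉ I → x w = y w then S.Kt τ (1 + σ) b c M x else 0) := by
    rw [← Summable.tsum_finsetSum]
    · exact tsum_congr fun x => Q_eq hIK hV x _
    · intro y _
      refine Summable.of_norm_bounded hS fun x => ?_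
      by_cases h : ∀ w, w ∉ I → x w = y w
      · rw [if_pos h]
      · rw [if_neg h, norm_zero]
        exact norm_nonneg _
  rw [h1]
  set G : ℝ := C * ((1 + Real.log (S.nm M)) *
    (1 + (Fintype.card S.D : ℝ) * Fintype.card ι * J)) ^ E * S.ls M ^ E *
    σ ^ (-(S.wt b c U : ℝ)) with hG
  have hD : (0 : ℝ) ≤ (Fintype.card S.D : ℝ) * Fintype.card ι * J := by positivity
  have hG0 : 0 ≤ G := by
    rw [hG]
    exact mul_nonneg (mul_nonneg (mul_nonneg hC0 (Real.rpow_nonneg (by positivity) _))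
      (Real.rpow_nonneg (hls M).le _)) (Real.rpow_nonneg hσ.le _)
  have h2 : ∀ y ∈ Ys (S := S) J K V, ‖∑' x : ι → Finset S.P,
      (if ∀ w, w ∉ I → x w = y w then S.Kt τ (1 + σ) b c M x else 0)‖ ≤
      G * ∏ u, (wg S τ (1 + σ) (y u) * S.ls (y u) ^ a) := by
    intro y hy
    have hyI : ∀ u ∈ I, y u = ∅ := fun u hu =>
      (mem_Ys.mp hy).1 u (Finset.disjoint_left.mp hIK hu)
    have hn : (I.filter fun u => c u = 0 ∧ ∀ v, S.Lk b u v → y v = ∅).card ≤ S.wt b c U := by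
      unfold SysL.wt
      refine Finset.card_le_card fun u hu => ?_
      rw [Finset.mem_filter] at hu ⊢
      refine ⟨?_, hu.2.1⟩
      rcases hL u hu.1 with h | ⟨v, hv, hlk⟩
      · exact h
      · exact absurd (hu.2.2 v hlk) (Finset.nonempty_iff_ne_empty.mp
          ((mem_Ys.mp hy).2.2 v (hV hv) hv))
    refine (fixY1 hC b hb hOk hI hyI hτ hσ hσ1 hC0 hE hIn hn (log_Ys hy)).trans ?_
    have h3 : (1 + Real.log (S.nm M) + (Fintype.card S.D : ℝ) *
        ((Fintype.card ι : ℝ) * J)) ^ E ≤ ((1 + Real.log (S.nm M)) *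
        (1 + (Fintype.card S.D : ℝ) * Fintype.card ι * J)) ^ E := by
      refine Real.rpow_le_rpow (by positivity) ?_ hE
      nlinarith [mul_nonneg hlg hD]
    have h4 : (S.ls M * ∏ u, S.ls (y u) ^ (Fintype.card S.D)) ^ E ≤
        S.ls M ^ E * ∏ u, S.ls (y u) ^ a := by
      rw [Real.mul_rpow (hls M).le (Finset.prod_nonneg fun u _ => pow_nonneg (hls _).le _),
        ← Real.finsetProd_rpow _ _ (fun u _ => pow_nonneg (hls _).le _)]
      refine mul_le_mul_of_nonneg_left (Finset.prod_le_prod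
        (fun u _ => Real.rpow_nonneg (pow_nonneg (hls _).le _) _) fun u _ => ?_)
        (Real.rpow_nonneg (hls M).le _)
      rw [← Real.rpow_natCast, ← Real.rpow_mul (hls _).le, ← Real.rpow_natCast]
      exact Real.rpow_le_rpow_of_exponent_le (hls1 _) ha
    have hw : 0 ≤ ∏ u, wg S τ (1 + σ) (y u) :=
      Finset.prod_nonneg fun u _ => wg_nn hτ _ _
    have hA : 0 ≤ C * ((1 + Real.log (S.nm M)) *
        (1 + (Fintype.card S.D : ℝ) * Fintype.card ι * J)) ^ E :=
      mul_nonneg hC0 (Real.rpow_nonneg (by positivity) _)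
    calc (∏ u, wg S τ (1 + σ) (y u)) * (C * (1 + Real.log (S.nm M) +
        (Fintype.card S.D : ℝ) * ((Fintype.card ι : ℝ) * J)) ^ E *
        (S.ls M * ∏ u, S.ls (y u) ^ (Fintype.card S.D)) ^ E * σ ^ (-(S.wt b c U : ℝ)))
        ≤ (∏ u, wg S τ (1 + σ) (y u)) * (C * ((1 + Real.log (S.nm M)) *
        (1 + (Fintype.card S.D : ℝ) * Fintype.card ι * J)) ^ E *
        (S.ls M ^ E * ∏ u, S.ls (y u) ^ a) * σ ^ (-(S.wt b c U : ℝ))) := by
          refine mul_le_mul_of_nonneg_left (mul_le_mul_of_nonneg_right (mul_le_mul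
            (mul_le_mul_of_nonneg_left h3 hC0) h4 (Real.rpow_nonneg (mul_nonneg (hls M).le
            (Finset.prod_nonneg fun u _ => pow_nonneg (hls _).le _)) _) hA)
            (Real.rpow_nonneg hσ.le _)) hw
      _ = G * ∏ u, (wg S τ (1 + σ) (y u) * S.ls (y u) ^ a) := by
          rw [hG, Finset.prod_mul_distrib]
          ring
  calc ‖∑ y ∈ Ys (S := S) J K V, ∑' x : ι → Finset S.P,
        (if ∀ w, w ∉ I → x w = y w then S.Kt τ (1 + σ) b c M x else 0)‖
      ≤ ∑ y ∈ Ys (S := S) J K V, ‖∑' x : ι → Finset S.P,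
        (if ∀ w, w ∉ I → x w = y w then S.Kt τ (1 + σ) b c M x else 0)‖ := norm_sum_le _ _
    _ ≤ ∑ y ∈ Ys (S := S) J K V, G * ∏ u, (wg S τ (1 + σ) (y u) * S.ls (y u) ^ a) :=
        Finset.sum_le_sum h2
    _ = G * ∑ y ∈ Ys (S := S) J K V, ∏ u, (wg S τ (1 + σ) (y u) * S.ls (y u) ^ a) :=
        (Finset.mul_sum _ _ _).symm
    _ ≤ G * (C2 * (1 + (J : ℝ))) ^ (Fintype.card ι) :=
        mul_le_mul_of_nonneg_left (sum_Ys hτ hσ hC2 hT) hG0
    _ = _ := by rw [hG]; ring

/-! ### the decomposition of a pattern -/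

/-- linked variables, symmetry -/
theorem Lk_symm {b : ι → ι → ZMod l} {u v : ι} (h : S.Lk b u v) : S.Lk b v u := by
  obtain ⟨g, hg⟩ := h
  refine ⟨g⁻¹, fun h => hg ?_⟩
  have h1 : ((S.e g⁻¹)⁻¹ : (ZMod l)ˣ) = S.e g := by rw [map_inv, inv_inv]
  rw [h1] at h
  have h2 : (((S.e g)⁻¹ : (ZMod l)ˣ) : ZMod l) * (S.e g : ZMod l) = 1 := by
    rw [← Units.val_mul, inv_mul_cancel, Units.val_one]
  have h3 : (((S.e g)⁻¹ : (ZMod l)ˣ) : ZMod l) * (b v u + (S.e g : ZMod l) * b u v) = 0 := by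
    rw [h, mul_zero]
  calc b u v + (((S.e g)⁻¹ : (ZMod l)ˣ) : ZMod l) * b v u
      = (((S.e g)⁻¹ : (ZMod l)ˣ) : ZMod l) * (S.e g : ZMod l) * b u v +
        (((S.e g)⁻¹ : (ZMod l)ˣ) : ZMod l) * b v u := by rw [h2, one_mul]
    _ = (((S.e g)⁻¹ : (ZMod l)ˣ) : ZMod l) * (b v u + (S.e g : ZMod l) * b u v) := by ring
    _ = 0 := h3

theorem Lk_irr {b : ι → ι → ZMod l} (hb : ∀ u, b u u = 0) (u : ι) : ¬ S.Lk b u u := by
  rintro ⟨g, hg⟩
  rw [hb, mul_zero, add_zero] at hg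
  exact hg rfl

open Classical in
/-- the terms with large variables `L` -/
theorem ind_eq (J : ℕ) {U I0 W L : Finset ι} (hU : I0 ∪ W = U) (hd : Disjoint I0 W)
    (hL : L ⊆ W) (x : ι → Finset S.P) (F : ℂ) :
    (if S.pat x = U ∧ ∀ w ∈ W, (w ∈ L ↔ 2 ^ J < S.nm (x w)) then F else 0) =
      ∑ T ∈ (L ∪ I0).powerset, (-1 : ℂ) ^ T.card *
        (if Qc J ((L ∪ I0) \ T) ((T ∩ L) ∪ (W \ L)) (W \ L) x then F else 0) := by
  set R : Prop := (∀ w, w ∉ U → x w = ∅) ∧ ∀ w ∈ W \ L, (x w).Nonempty ∧ S.nm (x w) ≤ 2 ^ J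
    with hR
  set a : ι → Prop := fun w => if w ∈ L then S.nm (x w) ≤ 2 ^ J else x w = ∅ with ha
  have hpat : ∀ w, w ∈ S.pat x ↔ (x w).Nonempty := by
    intro w
    unfold SysL.pat
    rw [Finset.mem_filter]
    exact ⟨fun h => h.2, fun h => ⟨Finset.mem_univ _, h⟩⟩
  have hbig : ∀ w, 2 ^ J < S.nm (x w) → (x w).Nonempty := by
    intro w h
    by_contra h1
    rw [Finset.not_nonempty_iff_eq_empty] at h1
    rw [h1, nm_empty] at h
    exact absurd h (not_lt.mpr Nat.one_le_two_pow)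
  have hLI : ∀ w ∈ I0, w ∉ L := fun w h1 h2 => Finset.disjoint_left.mp hd h1 (hL h2)
  -- the left condition
  have h1 : (S.pat x = U ∧ ∀ w ∈ W, (w ∈ L ↔ 2 ^ J < S.nm (x w))) ↔
      (R ∧ ∀ w ∈ L ∪ I0, ¬ a w) := by
    constructor
    · rintro ⟨h2, h3⟩
      refine ⟨⟨fun w hw => ?_, fun w hw => ?_⟩, fun w hw => ?_⟩
      · rw [← Finset.not_nonempty_iff_eq_empty, ← hpat, h2]
        exact hw
      · rw [Finset.mem_sdiff] at hw
        refine ⟨?_, not_lt.mp fun h4 => hw.2 ((h3 w hw.1).mpr h4)⟩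
        rw [← hpat, h2, ← hU]
        exact Finset.mem_union_right _ hw.1
      · rcases Finset.mem_union.mp hw with h4 | h4
        · rw [ha]
          dsimp only
          rw [if_pos h4]
          exact not_le.mpr ((h3 w (hL h4)).mp h4)
        · rw [ha]
          dsimp only
          rw [if_neg (hLI w h4), ← Finset.not_nonempty_iff_eq_empty, not_not, ← hpat, h2, ← hU]
          exact Finset.mem_union_left _ h4
    · rintro ⟨h2, h3⟩
      have h4 : ∀ w ∈ L, 2 ^ J < S.nm (x w) := by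
        intro w hw
        have := h3 w (Finset.mem_union_left _ hw)
        rw [ha] at this
        dsimp only at this
        rw [if_pos hw] at this
        exact not_le.mp this
      refine ⟨?_, fun w hw => ⟨h4 w, fun h5 => ?_⟩⟩
      · ext w
        rw [hpat]
        constructor
        · intro h5
          by_contra h6
          exact Finset.nonempty_iff_ne_empty.mp h5 (h2.1 w h6)
        · intro h5
          rw [← hU] at h5
          rcases Finset.mem_union.mp h5 with h6 | h6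
          · have := h3 w (Finset.mem_union_right _ h6)
            rw [ha] at this
            dsimp only at this
            rw [if_neg (hLI w h6), ← Finset.not_nonempty_iff_eq_empty, not_not] at this
            exact this
          · by_cases h7 : w ∈ L
            · exact hbig w (h4 w h7)
            · exact (h2.2 w (Finset.mem_sdiff.mpr ⟨h6, h7⟩)).1
      · by_contra h6
        exact absurd h5 (not_lt.mpr (h2.2 w (Finset.mem_sdiff.mpr ⟨hw, h6⟩)).2)
  -- the right condition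
  have h2 : ∀ T ∈ (L ∪ I0).powerset,
      (Qc J ((L ∪ I0) \ T) ((T ∩ L) ∪ (W \ L)) (W \ L) x ↔ (R ∧ ∀ w ∈ T, a w)) := by
    intro T hT
    rw [Finset.mem_powerset] at hT
    constructor
    · rintro ⟨h3, h4, h5⟩
      refine ⟨⟨fun w hw => ?_, fun w hw => ⟨h5 w hw, h4 w (Finset.mem_union_right _ hw)⟩⟩,
        fun w hw => ?_⟩
      · refine h3 w (fun h6 => hw ?_) fun h6 => hw ?_
        · rw [← hU]
          rcases Finset.mem_union.mp (Finset.mem_sdiff.mp h6).1 with h7 | h7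
          · exact Finset.mem_union_right _ (hL h7)
          · exact Finset.mem_union_left _ h7
        · rw [← hU]
          rcases Finset.mem_union.mp h6 with h7 | h7
          · exact Finset.mem_union_right _ (hL (Finset.mem_inter.mp h7).2)
          · exact Finset.mem_union_right _ (Finset.mem_sdiff.mp h7).1
      · rw [ha]
        dsimp only
        by_cases h6 : w ∈ L
        · rw [if_pos h6]
          exact h4 w (Finset.mem_union_left _ (Finset.mem_inter.mpr ⟨hw, h6⟩))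
        · rw [if_neg h6]
          refine h3 w (fun h7 => (Finset.mem_sdiff.mp h7).2 hw) fun h7 => ?_
          rcases Finset.mem_union.mp h7 with h8 | h8
          · exact h6 (Finset.mem_inter.mp h8).2
          · rcases Finset.mem_union.mp (hT hw) with h9 | h9
            · exact h6 h9
            · exact Finset.disjoint_left.mp hd h9 (Finset.mem_sdiff.mp h8).1
    · rintro ⟨⟨h3, h4⟩, h5⟩
      refine ⟨fun w h6 h7 => ?_, fun w h6 => ?_, fun w h6 => (h4 w h6).1⟩
      · by_cases h8 : w ∈ U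
        · rw [← hU] at h8
          have h9 : w ∉ W \ L := fun h => h7 (Finset.mem_union_right _ h)
          have h10 : w ∈ T := by
            by_contra h11
            rcases Finset.mem_union.mp h8 with h12 | h12
            · exact h6 (Finset.mem_sdiff.mpr ⟨Finset.mem_union_right _ h12, h11⟩)
            · by_cases h13 : w ∈ L
              · exact h6 (Finset.mem_sdiff.mpr ⟨Finset.mem_union_left _ h13, h11⟩)
              · exact h9 (Finset.mem_sdiff.mpr ⟨h12, h13⟩)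
          have h14 := h5 w h10
          have h15 : w ∉ L := fun h => h7 (Finset.mem_union_left _ (Finset.mem_inter.mpr ⟨h10, h⟩))
          rwa [ha, if_neg h15] at h14
        · exact h3 w h8
      · rcases Finset.mem_union.mp h6 with h7 | h7
        · have h8 := h5 w (Finset.mem_inter.mp h7).1
          rwa [ha, if_pos (Finset.mem_inter.mp h7).2] at h8
        · exact (h4 w h7).2
  -- inclusion and exclusion
  have h3 : ∏ w ∈ L ∪ I0, ((-(if a w then (1 : ℂ) else 0)) + 1) =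
      ∑ T ∈ (L ∪ I0).powerset, (-1 : ℂ) ^ T.card * (if ∀ w ∈ T, a w then 1 else 0) := by
    rw [Finset.prod_add]
    refine Finset.sum_congr rfl fun T _ => ?_
    rw [Finset.prod_const_one, mul_one, Finset.prod_neg]
    congr 1
    by_cases h4 : ∀ w ∈ T, a w
    · rw [if_pos h4]
      exact Finset.prod_eq_one fun w hw => if_pos (h4 w hw)
    · rw [if_neg h4]
      push Not at h4
      obtain ⟨w, hw, hw2⟩ := h4
      exact Finset.prod_eq_zero hw (if_neg hw2)
  have h4 : ∏ w ∈ L ∪ I0, ((-(if a w then (1 : ℂ) else 0)) + 1) =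
      if ∀ w ∈ L ∪ I0, ¬ a w then 1 else 0 := by
    by_cases h5 : ∀ w ∈ L ∪ I0, ¬ a w
    · rw [if_pos h5]
      refine Finset.prod_eq_one fun w hw => ?_
      rw [if_neg (h5 w hw), neg_zero, zero_add]
    · rw [if_neg h5]
      push Not at h5
      obtain ⟨w, hw, hw2⟩ := h5
      refine Finset.prod_eq_zero hw ?_
      rw [if_pos hw2, neg_add_cancel]
  rw [h4] at h3
  by_cases hRR : R
  · have h5 : (if S.pat x = U ∧ ∀ w ∈ W, (w ∈ L ↔ 2 ^ J < S.nm (x w)) then F else 0) =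
        (if ∀ w ∈ L ∪ I0, ¬ a w then 1 else 0) * F := by
      by_cases h6 : ∀ w ∈ L ∪ I0, ¬ a w
      · rw [if_pos h6, if_pos (h1.mpr ⟨hRR, h6⟩), one_mul]
      · rw [if_neg h6, if_neg (fun h => h6 (h1.mp h).2), zero_mul]
    rw [h5, h3, Finset.sum_mul]
    refine Finset.sum_congr rfl fun T hT => ?_
    rw [mul_assoc]
    congr 1
    by_cases h6 : ∀ w ∈ T, a w
    · rw [if_pos h6, if_pos ((h2 T hT).mpr ⟨hRR, h6⟩), one_mul]
    · rw [if_neg h6, if_neg (fun h => h6 ((h2 T hT).mp h).2), zero_mul]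
  · rw [if_neg (fun h => hRR (h1.mp h).1)]
    symm
    refine Finset.sum_eq_zero fun T hT => ?_
    rw [if_neg (fun h => hRR ((h2 T hT).mp h).1), mul_zero]

/-! ### the factor of the modulus -/

variable (S) in
theorem rs_le {η : ℝ} (hη : 0 < η) : ∃ n : ℝ, 0 ≤ n ∧ ∀ M : Finset S.P,
    rs S M ≤ η * Real.log (S.nm M) + n := by
  classical
  have hl2 : 0 < Real.log 2 := Real.log_pos (by norm_num)
  set X : ℝ := 2 / (η * Real.log 2) with hX
  have hX0 : 0 < X := by positivity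
  refine ⟨((S.pr X).card : ℝ), Nat.cast_nonneg _, fun M => ?_⟩
  rw [log_nm, Finset.mul_sum]
  have h1 : ∀ p : S.P, 2 / (S.N p : ℝ) ≤ η * Real.log (S.N p) + if p ∈ S.pr X then 1 else 0 := by
    intro p
    have h2 : (2 : ℝ) ≤ S.N p := by exact_mod_cast S.two_le p
    have h3 : 0 ≤ η * Real.log (S.N p) :=
      mul_nonneg hη.le (Real.log_nonneg (by linarith))
    by_cases hp : p ∈ S.pr X
    · rw [if_pos hp]
      have h4 : 2 / (S.N p : ℝ) ≤ 1 := by
        rw [div_le_one (by linarith)]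
        exact h2
      linarith
    · rw [if_neg hp, add_zero]
      rw [S.mem_pr hX0.le, not_le] at hp
      have h4 : 2 / (S.N p : ℝ) ≤ 2 / X :=
        div_le_div_of_nonneg_left (by norm_num) hX0 hp.le
      have h5 : 2 / X = η * Real.log 2 := by
        rw [hX]
        field_simp
      have h6 : Real.log 2 ≤ Real.log (S.N p) := Real.log_le_log (by norm_num) h2
      calc 2 / (S.N p : ℝ) ≤ η * Real.log 2 := by rw [← h5]; exact h4
        _ ≤ η * Real.log (S.N p) := mul_le_mul_of_nonneg_left h6 hη.le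
  have h2 : rs S M ≤ ∑ p ∈ M, (η * Real.log (S.N p) + if p ∈ S.pr X then (1 : ℝ) else 0) :=
    Finset.sum_le_sum fun p _ => h1 p
  rw [Finset.sum_add_distrib] at h2
  have h3 : ∑ p ∈ M, (if p ∈ S.pr X then (1 : ℝ) else 0) ≤ (S.pr X).card := by
    rw [← Finset.sum_filter, Finset.sum_const, nsmul_eq_mul, mul_one]
    exact_mod_cast Finset.card_le_card fun p hp => (Finset.mem_filter.mp hp).2
  linarith

variable (S) in
theorem Mbound {E0 ε : ℝ} (hE : 0 ≤ E0) (hε : 0 < ε) : ∃ C : ℝ, 0 ≤ C ∧ ∀ M : Finset S.P,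
    (1 + Real.log (S.nm M)) ^ E0 * S.ls M ^ E0 ≤ C * (S.nm M : ℝ) ^ ε := by
  set η : ℝ := ε / (2 * (E0 + 1)) with hη
  have hη0 : 0 < η := by positivity
  obtain ⟨n, hn, h⟩ := rs_le S hη0
  refine ⟨(1 + 1 / η) ^ E0 * Real.exp (E0 * n), by positivity, fun M => ?_⟩
  have hm := nm_oneR (S := S) M
  have hm0 : (0 : ℝ) < S.nm M := by linarith
  have h1 : 1 + Real.log (S.nm M) ≤ (1 + 1 / η) * (S.nm M : ℝ) ^ η := by
    have h2 : Real.log (S.nm M) ≤ (S.nm M : ℝ) ^ η / η := Real.log_le_rpow_div hm0.le hη0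
    have h3 : (1 : ℝ) ≤ (S.nm M : ℝ) ^ η := Real.one_le_rpow hm hη0.le
    calc 1 + Real.log (S.nm M) ≤ (S.nm M : ℝ) ^ η + (S.nm M : ℝ) ^ η / η := add_le_add h3 h2
      _ = (1 + 1 / η) * (S.nm M : ℝ) ^ η := by ring
  have h2 : (1 + Real.log (S.nm M)) ^ E0 ≤ (1 + 1 / η) ^ E0 * (S.nm M : ℝ) ^ (η * E0) := by
    have h3 := Real.rpow_le_rpow (by have := log_nm_nn (S := S) M; linarith) h1 hE
    rwa [Real.mul_rpow (by positivity) (Real.rpow_nonneg hm0.le _), ← Real.rpow_mul hm0.le] at h3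
  have h3 : S.ls M ^ E0 ≤ Real.exp (E0 * n) * (S.nm M : ℝ) ^ (η * E0) := by
    rw [ls_eq, ← Real.exp_mul, Real.rpow_def_of_pos hm0, ← Real.exp_add]
    refine Real.exp_le_exp.mpr ?_
    have h4 := mul_le_mul_of_nonneg_right (h M) hE
    linarith
  have h4 : (S.nm M : ℝ) ^ (η * E0) * (S.nm M : ℝ) ^ (η * E0) ≤ (S.nm M : ℝ) ^ ε := by
    rw [← Real.rpow_add hm0]
    refine Real.rpow_le_rpow_of_exponent_le hm ?_
    have h5 : η * E0 + η * E0 = ε * (E0 / (E0 + 1)) := by
      rw [hη]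
      field_simp
      ring
    rw [h5]
    have h6 : E0 / (E0 + 1) ≤ 1 := by
      rw [div_le_one (by linarith)]
      linarith
    nlinarith
  have h5 : 0 ≤ (1 + 1 / η) ^ E0 * Real.exp (E0 * n) := by positivity
  calc (1 + Real.log (S.nm M)) ^ E0 * S.ls M ^ E0
      ≤ ((1 + 1 / η) ^ E0 * (S.nm M : ℝ) ^ (η * E0)) *
        (Real.exp (E0 * n) * (S.nm M : ℝ) ^ (η * E0)) :=
        mul_le_mul h2 h3 (Real.rpow_nonneg (Real.exp_pos _).le _)
          (mul_nonneg (by positivity) (Real.rpow_nonneg hm0.le _))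
    _ = (1 + 1 / η) ^ E0 * Real.exp (E0 * n) *
        ((S.nm M : ℝ) ^ (η * E0) * (S.nm M : ℝ) ^ (η * E0)) := by ring
    _ ≤ (1 + 1 / η) ^ E0 * Real.exp (E0 * n) * (S.nm M : ℝ) ^ ε :=
        mul_le_mul_of_nonneg_left h4 h5

/-! ### the pattern theorem -/

open Classical in
/-- the decomposition by the large variables -/
theorem PS_eq (J : ℕ) (τ : S.P → ℝ) (s : ℝ) (b : ι → ι → ZMod l) (c : ι → S.El)
    (M : Finset S.P) (U W : Finset ι) (hS : Summable fun x : ι → Finset S.P =>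
      ‖S.Kt τ s b c M x‖) :
    S.PS τ s b c M U = ∑ L ∈ W.powerset, ∑' x : ι → Finset S.P,
      (if S.pat x = U ∧ ∀ w ∈ W, (w ∈ L ↔ 2 ^ J < S.nm (x w)) then S.Kt τ s b c M x else 0) := by
  unfold SysL.PS
  rw [← Summable.tsum_finsetSum]
  · refine tsum_congr fun x => ?_
    by_cases h : S.pat x = U
    · rw [if_pos h]
      have h0 : W.filter (fun w => 2 ^ J < S.nm (x w)) ∈ W.powerset :=
        Finset.mem_powerset.mpr (Finset.filter_subset _ _)
      rw [Finset.sum_eq_single_of_mem _ h0]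
      · rw [if_pos]
        refine ⟨h, fun w hw => ?_⟩
        rw [Finset.mem_filter]
        exact ⟨fun h1 => h1.2, fun h1 => ⟨hw, h1⟩⟩
      · intro L hL hne
        rw [if_neg]
        rintro ⟨-, h1⟩
        refine hne ?_
        ext w
        rw [Finset.mem_filter]
        exact ⟨fun h2 => ⟨Finset.mem_powerset.mp hL h2, (h1 w (Finset.mem_powerset.mp hL h2)).mp h2⟩,
          fun h2 => (h1 w h2.1).mpr h2.2⟩
    · rw [if_neg h]
      symm
      refine Finset.sum_eq_zero fun L _ => ?_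
      rw [if_neg (fun h1 => h h1.1)]
  · intro L _
    refine Summable.of_norm_bounded hS fun x => ?_
    by_cases h : S.pat x = U ∧ ∀ w ∈ W, (w ∈ L ↔ 2 ^ J < S.nm (x w))
    · rw [if_pos h]
    · rw [if_neg h, norm_zero]
      exact norm_nonneg _

open Classical in
/-- the sums with unlinked large variables -/
theorem Lbound (hC : SCh1) (b : ι → ι → ZMod l) (hb : ∀ u, b u u = 0) {c : ι → S.El}
    {M : Finset S.P} (hOk : S.Ok c M) (J : ℕ) (U : Finset ι) {L : Finset ι}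
    (hL : L ⊆ U \ S.iso b U) (hLL : ∀ u ∈ L, ∀ v ∈ L, ¬ S.Lk b u v) {τ : S.P → ℝ}
    (hτ : ∀ p, 0 ≤ τ p) {σ : ℝ} (hσ : 0 < σ) (hσ1 : σ ≤ 1) {C E : ℝ} (hC0 : 0 ≤ C)
    (hE : 0 ≤ E)
    (hIn : ∀ (I : Finset ι) (c' : {u // u ∈ I} → S.El) (M' : Finset S.P), S.Ok c' M' →
      ‖inS τ (1 + σ) c' M'‖ ≤ C * (1 + Real.log (S.nm M')) ^ E * S.ls M' ^ E *
        σ ^ (-((Finset.univ.filter fun u => c' u = 0).card : ℝ)))
    {a : ℕ} (ha : (Fintype.card S.D : ℝ) * E ≤ a) {C2 : ℝ} (hC2 : 1 ≤ C2)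
    (hT : ∑ x ∈ S.bx (2 ^ J), (∏ p ∈ x, 1 * τ p) * S.ls x ^ a * S.pws 1 x ≤
      C2 * (1 + (J : ℝ)) ^ (1 : ℝ))
    (hS : Summable fun x : ι → Finset S.P => ‖S.Kt τ (1 + σ) b c M x‖) :
    ‖∑' x : ι → Finset S.P, (if S.pat x = U ∧ ∀ w ∈ U \ S.iso b U,
      (w ∈ L ↔ 2 ^ J < S.nm (x w)) then S.Kt τ (1 + σ) b c M x else 0)‖ ≤
      2 ^ (Fintype.card ι) * (C * ((1 + Real.log (S.nm M)) *
        (1 + (Fintype.card S.D : ℝ) * Fintype.card ι * J)) ^ E *
        S.ls M ^ E * (C2 * (1 + (J : ℝ))) ^ (Fintype.card ι) *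
        σ ^ (-(S.wt b c U : ℝ))) := by
  set I0 := S.iso b U with hI0
  set W := U \ I0 with hW
  have hiso : ∀ u, u ∈ I0 ↔ u ∈ U ∧ ∀ v ∈ U, ¬ S.Lk b u v := by
    intro u
    rw [hI0]
    unfold SysL.iso
    simp only [Finset.mem_filter]
  have hsub : I0 ⊆ U := fun u hu => ((hiso u).mp hu).1
  have hU : I0 ∪ W = U := Finset.union_sdiff_of_subset hsub
  have hd : Disjoint I0 W := Finset.disjoint_sdiff
  have hWU : W ⊆ U := Finset.sdiff_subset
  set Q : ℝ := C * ((1 + Real.log (S.nm M)) *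
        (1 + (Fintype.card S.D : ℝ) * Fintype.card ι * J)) ^ E *
        S.ls M ^ E * (C2 * (1 + (J : ℝ))) ^ (Fintype.card ι) *
        σ ^ (-(S.wt b c U : ℝ)) with hQ
  have hQ0 : 0 ≤ Q := by
    rw [hQ]
    have h1 := log_nm_nn (S := S) M
    have h2 : 0 < S.ls M := Real.exp_pos _
    have h3 : 0 ≤ C2 := by linarith
    refine mul_nonneg (mul_nonneg (mul_nonneg (mul_nonneg hC0 (Real.rpow_nonneg (by positivity) _))
      (Real.rpow_nonneg h2.le _)) (by positivity)) (Real.rpow_nonneg hσ.le _)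
  have h1 : ∑' x : ι → Finset S.P, (if S.pat x = U ∧ ∀ w ∈ W,
      (w ∈ L ↔ 2 ^ J < S.nm (x w)) then S.Kt τ (1 + σ) b c M x else 0) =
      ∑ T ∈ (L ∪ I0).powerset, (-1 : ℂ) ^ T.card * ∑' x : ι → Finset S.P,
        (if Qc J ((L ∪ I0) \ T) ((T ∩ L) ∪ (W \ L)) (W \ L) x
          then S.Kt τ (1 + σ) b c M x else 0) := by
    have h2 : ∀ T : Finset ι, Summable fun x : ι → Finset S.P =>
        (if Qc J ((L ∪ I0) \ T) ((T ∩ L) ∪ (W \ L)) (W \ L) x
          then S.Kt τ (1 + σ) b c M x else 0) := by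
      intro T
      refine Summable.of_norm_bounded hS fun x => ?_
      by_cases h : Qc J ((L ∪ I0) \ T) ((T ∩ L) ∪ (W \ L)) (W \ L) x
      · rw [if_pos h]
      · rw [if_neg h, norm_zero]
        exact norm_nonneg _
    have h3 : ∀ T : Finset ι, (-1 : ℂ) ^ T.card * ∑' x : ι → Finset S.P,
        (if Qc J ((L ∪ I0) \ T) ((T ∩ L) ∪ (W \ L)) (W \ L) x
          then S.Kt τ (1 + σ) b c M x else 0) = ∑' x : ι → Finset S.P, (-1 : ℂ) ^ T.card *
        (if Qc J ((L ∪ I0) \ T) ((T ∩ L) ∪ (W \ L)) (W \ L) x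
          then S.Kt τ (1 + σ) b c M x else 0) := fun T => tsum_mul_left.symm
    rw [Finset.sum_congr rfl fun T _ => h3 T, ← Summable.tsum_finsetSum]
    · exact tsum_congr fun x => ind_eq J hU hd hL x _
    · exact fun T _ => (h2 T).mul_left _
  rw [h1]
  refine (norm_sum_le _ _).trans ?_
  have h2 : ∀ T ∈ (L ∪ I0).powerset, ‖(-1 : ℂ) ^ T.card * ∑' x : ι → Finset S.P,
        (if Qc J ((L ∪ I0) \ T) ((T ∩ L) ∪ (W \ L)) (W \ L) x
          then S.Kt τ (1 + σ) b c M x else 0)‖ ≤ Q := by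
    intro T _
    rw [norm_mul, norm_pow, norm_neg, norm_one, one_pow, one_mul]
    refine Qbound hC b hb hOk (U := U) (fun u hu v hv hlk => ?_) ?_ Finset.subset_union_right
      (fun u hu => ?_) hτ hσ hσ1 hC0 hE (hIn _) ha hC2 hT hS
    · have hu1 := (Finset.mem_sdiff.mp hu).1
      have hv1 := (Finset.mem_sdiff.mp hv).1
      rcases Finset.mem_union.mp hu1 with h3 | h3
      · rcases Finset.mem_union.mp hv1 with h4 | h4
        · exact hLL u h3 v h4 hlk
        · exact ((hiso v).mp h4).2 u (hWU (hL h3)) (Lk_symm hlk)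
      · rcases Finset.mem_union.mp hv1 with h4 | h4
        · exact ((hiso u).mp h3).2 v (hWU (hL h4)) hlk
        · exact ((hiso u).mp h3).2 v (hsub h4) hlk
    · rw [Finset.disjoint_left]
      intro u hu hk
      rcases Finset.mem_union.mp hk with h3 | h3
      · exact (Finset.mem_sdiff.mp hu).2 (Finset.mem_inter.mp h3).1
      · rcases Finset.mem_union.mp (Finset.mem_sdiff.mp hu).1 with h4 | h4
        · exact (Finset.mem_sdiff.mp h3).2 h4
        · exact Finset.disjoint_left.mp hd h4 (Finset.mem_sdiff.mp h3).1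
    · rcases Finset.mem_union.mp (Finset.mem_sdiff.mp hu).1 with h3 | h3
      swap
      · exact Or.inl h3
      · refine Or.inr ?_
        have h4 : u ∈ U ∧ u ∉ I0 := Finset.mem_sdiff.mp (hL h3)
        have h5 : ∃ v ∈ U, S.Lk b u v := by
          by_contra h6
          push Not at h6
          exact h4.2 ((hiso u).mpr ⟨h4.1, h6⟩)
        obtain ⟨v, hv, hlk⟩ := h5
        refine ⟨v, Finset.mem_sdiff.mpr ⟨Finset.mem_sdiff.mpr ⟨hv, fun h6 => ?_⟩, fun h6 => ?_⟩, hlk⟩
        · exact ((hiso v).mp h6).2 u h4.1 (Lk_symm hlk)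
        · exact hLL u h3 v h6 hlk
  refine (Finset.sum_le_sum h2).trans ?_
  rw [Finset.sum_const, nsmul_eq_mul]
  refine mul_le_mul_of_nonneg_right ?_ hQ0
  rw [Finset.card_powerset]
  push_cast
  exact pow_le_pow_right₀ (by norm_num) (Finset.card_le_univ _)

end CPt

open CPt

open Classical in
/-- Row C12: the pattern theorem. -/
theorem spat (h1 : SFaL) (h2 : SCh1) (h3 : SInn) (h4 : STrL) (h5 : SSmL) : SPat := by
  intro l _ S ι _ b B hb
  choose CI EI hCI hEI hIn using fun I : Finset ι => h3 l S {u // u ∈ I} B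
  set C0 : ℝ := ∑ I, CI I with hC0d
  set E0 : ℝ := ∑ I, EI I with hE0d
  have hC0 : 0 ≤ C0 := Finset.sum_nonneg fun I _ => hCI I
  have hE0 : 0 ≤ E0 := Finset.sum_nonneg fun I _ => hEI I
  obtain ⟨CF, EF, cF, hCF, hEF, hcF, hFa⟩ := h1 l S ι b B
  set a : ℕ := ⌈(Fintype.card S.D : ℝ) * E0⌉₊ with had
  have ha : (Fintype.card S.D : ℝ) * E0 ≤ a := Nat.le_ceil _
  obtain ⟨C2', hC2', hT⟩ := h4 l S B 1 a zero_le_one
  set C2 : ℝ := max 1 C2' with hC2d
  have hC2 : 1 ≤ C2 := le_max_left _ _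
  have hl2 : 0 < Real.log 2 := Real.log_pos (by norm_num)
  set A : ℝ := EF / (cF * Real.log 2) with hA
  have hA0 : 0 ≤ A := by positivity
  refine ⟨E0 + Fintype.card ι, by positivity, fun ε hε => ?_⟩
  obtain ⟨Ce, hCe, hMb⟩ := Mbound S hE0 hε
  set K : ℝ := C0 * Ce * (1 + (Fintype.card S.D : ℝ) * Fintype.card ι) ^ E0 *
    C2 ^ (Fintype.card ι) * (2 + A) ^ (E0 + Fintype.card ι) with hK
  have hK0 : 0 ≤ K := by
    rw [hK]
    positivity
  refine ⟨2 ^ (Fintype.card ι) * (CF + 2 ^ (Fintype.card ι) * K), by positivity,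
    fun τ c M hτ hOk U σ hσ hσ1 => ?_⟩
  have hτ0 : ∀ p, 0 ≤ τ p := fun p => (hτ p).1
  have hlog : 0 ≤ Real.log (1 / σ) := Real.log_nonneg (by
    rw [le_div_iff₀ hσ]
    linarith)
  -- the size of the small variables
  set J : ℕ := if S.iso b U = U then 0 else ⌈A * Real.log (1 / σ)⌉₊ with hJ
  set Lo : ℝ := if S.iso b U = U then 1 else 1 + Real.log (1 / σ) with hLo
  have hLo1 : 1 ≤ Lo := by
    rw [hLo]
    split_ifs
    · exact le_rfl
    · linarith
  have hJL : 1 + (J : ℝ) ≤ (2 + A) * Lo := by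
    rw [hJ, hLo]
    split_ifs with h
    · push_cast
      linarith
    · have h6 : (⌈A * Real.log (1 / σ)⌉₊ : ℝ) < A * Real.log (1 / σ) + 1 :=
        Nat.ceil_lt_add_one (mul_nonneg hA0 hlog)
      nlinarith
  have hLoE : (if S.iso b U = U then (1 : ℝ) else
      (1 + Real.log (1 / σ)) ^ (E0 + (Fintype.card ι : ℝ))) = Lo ^ (E0 + (Fintype.card ι : ℝ)) := by
    rw [hLo]
    split_ifs
    · rw [Real.one_rpow]
    · rfl
  rw [hLoE]
  -- the final bound
  have hnm : (1 : ℝ) ≤ (S.nm M : ℝ) ^ ε := Real.one_le_rpow (nm_oneR M) hε.le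
  have hLE : 1 ≤ Lo ^ (E0 + (Fintype.card ι : ℝ)) := Real.one_le_rpow hLo1 (by positivity)
  have hsw : 1 ≤ σ ^ (-(S.wt b c U : ℝ)) :=
    Real.one_le_rpow_of_pos_of_le_one_of_nonpos hσ hσ1 (by
      rw [neg_nonpos]
      exact Nat.cast_nonneg _)
  set X : ℝ := (S.nm M : ℝ) ^ ε * Lo ^ (E0 + (Fintype.card ι : ℝ)) *
    σ ^ (-(S.wt b c U : ℝ)) with hX
  have hX1 : 1 ≤ X := by
    rw [hX]
    exact one_le_mul_of_one_le_of_one_le (one_le_mul_of_one_le_of_one_le hnm hLE) hsw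
  have hgoal : 2 ^ (Fintype.card ι) * (CF + 2 ^ (Fintype.card ι) * K) * (S.nm M : ℝ) ^ ε *
      Lo ^ (E0 + (Fintype.card ι : ℝ)) * σ ^ (-(S.wt b c U : ℝ)) =
      2 ^ (Fintype.card ι) * ((CF + 2 ^ (Fintype.card ι) * K) * X) := by
    rw [hX]
    ring
  rw [hgoal]
  have hSum := h5 l S ι b c M B τ hτ σ hσ
  rw [PS_eq J τ (1 + σ) b c M U (U \ S.iso b U) hSum]
  refine (norm_sum_le _ _).trans ?_
  have hInn : ∀ (I : Finset ι) (c' : {u // u ∈ I} → S.El) (M' : Finset S.P), S.Ok c' M' →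
      ‖inS τ (1 + σ) c' M'‖ ≤ C0 * (1 + Real.log (S.nm M')) ^ E0 * S.ls M' ^ E0 *
        σ ^ (-((Finset.univ.filter fun u => c' u = 0).card : ℝ)) := by
    intro I c' M' hOk'
    have h6 := hIn I τ c' M' hτ hOk' σ hσ hσ1
    refine le_trans h6 ?_
    have h7 : (1 : ℝ) ≤ 1 + Real.log (S.nm M') := by
      have := log_nm_nn (S := S) M'
      linarith
    have h8 : 1 ≤ S.ls M' := by
      rw [ls_eq]
      exact Real.one_le_exp (rs_nn M')
    have h9 : EI I ≤ E0 := Finset.single_le_sum (f := EI) (fun I _ => hEI I) (Finset.mem_univ I)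
    have h10 : CI I ≤ C0 := Finset.single_le_sum (f := CI) (fun I _ => hCI I) (Finset.mem_univ I)
    refine mul_le_mul_of_nonneg_right ?_ (Real.rpow_nonneg hσ.le _)
    refine mul_le_mul (mul_le_mul h10 (Real.rpow_le_rpow_of_exponent_le h7 h9)
      (Real.rpow_nonneg (by linarith) _) hC0) (Real.rpow_le_rpow_of_exponent_le h8 h9)
      (Real.rpow_nonneg (by linarith) _) (mul_nonneg hC0 (Real.rpow_nonneg (by linarith) _))
  have hTT : ∑ x ∈ S.bx (2 ^ J), (∏ p ∈ x, 1 * τ p) * S.ls x ^ a * S.pws 1 x ≤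
      C2 * (1 + (J : ℝ)) ^ (1 : ℝ) := by
    refine ((hT τ hτ σ hσ hσ1).2.2 J).trans ?_
    exact mul_le_mul_of_nonneg_right (le_max_right _ _) (Real.rpow_nonneg (by positivity) _)
  have hmain : ∀ L ∈ (U \ S.iso b U).powerset, ‖∑' x : ι → Finset S.P,
      (if S.pat x = U ∧ ∀ w ∈ U \ S.iso b U, (w ∈ L ↔ 2 ^ J < S.nm (x w))
        then S.Kt τ (1 + σ) b c M x else 0)‖ ≤ (CF + 2 ^ (Fintype.card ι) * K) * X := by
    intro L hL
    rw [Finset.mem_powerset] at hL
    by_cases hLL : ∀ u ∈ L, ∀ v ∈ L, ¬ S.Lk b u v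
    · have h6 := Lbound h2 b hb hOk J U hL hLL hτ0 hσ hσ1 hC0 hE0 hInn ha hC2 hTT hSum
      refine h6.trans ?_
      have h7 : C0 * ((1 + Real.log (S.nm M)) *
          (1 + (Fintype.card S.D : ℝ) * Fintype.card ι * J)) ^ E0 *
          S.ls M ^ E0 * (C2 * (1 + (J : ℝ))) ^ (Fintype.card ι) *
          σ ^ (-(S.wt b c U : ℝ)) ≤ K * X := by
        have hlg := log_nm_nn (S := S) M
        have h8 : (1 + (Fintype.card S.D : ℝ) * Fintype.card ι * J) ≤
            (1 + (Fintype.card S.D : ℝ) * Fintype.card ι) * ((2 + A) * Lo) := by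
          have h9 : (0 : ℝ) ≤ (Fintype.card S.D : ℝ) * Fintype.card ι := by positivity
          have h10 : (0 : ℝ) ≤ J := Nat.cast_nonneg _
          calc (1 + (Fintype.card S.D : ℝ) * Fintype.card ι * J)
              ≤ (1 + (Fintype.card S.D : ℝ) * Fintype.card ι) * (1 + (J : ℝ)) := by nlinarith
            _ ≤ (1 + (Fintype.card S.D : ℝ) * Fintype.card ι) * ((2 + A) * Lo) :=
                mul_le_mul_of_nonneg_left hJL (by linarith)
        have h9 : ((1 + Real.log (S.nm M)) *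
            (1 + (Fintype.card S.D : ℝ) * Fintype.card ι * J)) ^ E0 ≤
            (1 + Real.log (S.nm M)) ^ E0 * ((1 + (Fintype.card S.D : ℝ) * Fintype.card ι) ^ E0 *
            ((2 + A) ^ E0 * Lo ^ E0)) := by
          rw [Real.mul_rpow (by linarith) (by positivity)]
          refine mul_le_mul_of_nonneg_left ?_ (Real.rpow_nonneg (by linarith) _)
          rw [← Real.mul_rpow (by positivity) (by linarith), ← Real.mul_rpow (by positivity)
            (by positivity)]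
          exact Real.rpow_le_rpow (by positivity) h8 hE0
        have h10 : (C2 * (1 + (J : ℝ))) ^ (Fintype.card ι) ≤ C2 ^ (Fintype.card ι) *
            ((2 + A) ^ (Fintype.card ι : ℝ) * Lo ^ (Fintype.card ι : ℝ)) := by
          rw [mul_pow, Real.rpow_natCast, Real.rpow_natCast,
            ← mul_pow (2 + A) Lo (Fintype.card ι)]
          exact mul_le_mul_of_nonneg_left (pow_le_pow_left₀ (by positivity) hJL _) (by positivity)
        have h11 : (2 + A) ^ (E0 + (Fintype.card ι : ℝ)) =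
            (2 + A) ^ E0 * (2 + A) ^ (Fintype.card ι : ℝ) :=
          Real.rpow_add (by linarith) _ _
        have h12 : Lo ^ (E0 + (Fintype.card ι : ℝ)) = Lo ^ E0 * Lo ^ (Fintype.card ι : ℝ) :=
          Real.rpow_add (by linarith) _ _
        have hls : 0 ≤ S.ls M := (Real.exp_pos _).le
        calc C0 * ((1 + Real.log (S.nm M)) *
          (1 + (Fintype.card S.D : ℝ) * Fintype.card ι * J)) ^ E0 *
          S.ls M ^ E0 * (C2 * (1 + (J : ℝ))) ^ (Fintype.card ι) *
          σ ^ (-(S.wt b c U : ℝ))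
            ≤ C0 * ((1 + Real.log (S.nm M)) ^ E0 *
            ((1 + (Fintype.card S.D : ℝ) * Fintype.card ι) ^ E0 *
            ((2 + A) ^ E0 * Lo ^ E0))) * S.ls M ^ E0 * (C2 ^ (Fintype.card ι) *
            ((2 + A) ^ (Fintype.card ι : ℝ) * Lo ^ (Fintype.card ι : ℝ))) *
            σ ^ (-(S.wt b c U : ℝ)) := by
              refine mul_le_mul_of_nonneg_right ?_ (Real.rpow_nonneg hσ.le _)
              have hn1 : 0 ≤ S.ls M ^ E0 := Real.rpow_nonneg hls _
              have hn2 : 0 ≤ (C2 * (1 + (J : ℝ))) ^ (Fintype.card ι) := by positivity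
              have hn3 : 0 ≤ (1 + Real.log (S.nm M)) ^ E0 *
                ((1 + (Fintype.card S.D : ℝ) * Fintype.card ι) ^ E0 *
                ((2 + A) ^ E0 * Lo ^ E0)) := by
                have : 0 ≤ 1 + Real.log (S.nm M) := by linarith
                positivity
              exact mul_le_mul (mul_le_mul_of_nonneg_right (mul_le_mul_of_nonneg_left h9 hC0) hn1)
                h10 hn2 (mul_nonneg (mul_nonneg hC0 hn3) hn1)
          _ = C0 * (((1 + Real.log (S.nm M)) ^ E0 * S.ls M ^ E0) *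
            ((1 + (Fintype.card S.D : ℝ) * Fintype.card ι) ^ E0 *
            C2 ^ (Fintype.card ι) * (2 + A) ^ (E0 + (Fintype.card ι : ℝ)) *
            Lo ^ (E0 + (Fintype.card ι : ℝ)) * σ ^ (-(S.wt b c U : ℝ)))) := by
              rw [h11, h12]
              ring
          _ ≤ C0 * ((Ce * (S.nm M : ℝ) ^ ε) *
            ((1 + (Fintype.card S.D : ℝ) * Fintype.card ι) ^ E0 *
            C2 ^ (Fintype.card ι) * (2 + A) ^ (E0 + (Fintype.card ι : ℝ)) *
            Lo ^ (E0 + (Fintype.card ι : ℝ)) * σ ^ (-(S.wt b c U : ℝ)))) := by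
              refine mul_le_mul_of_nonneg_left (mul_le_mul_of_nonneg_right (hMb M) ?_) hC0
              positivity
          _ = K * X := by
              rw [hK, hX]
              ring
      calc (2 : ℝ) ^ (Fintype.card ι) * (C0 * ((1 + Real.log (S.nm M)) *
          (1 + (Fintype.card S.D : ℝ) * Fintype.card ι * J)) ^ E0 *
          S.ls M ^ E0 * (C2 * (1 + (J : ℝ))) ^ (Fintype.card ι) *
          σ ^ (-(S.wt b c U : ℝ))) ≤ 2 ^ (Fintype.card ι) * (K * X) :=
            mul_le_mul_of_nonneg_left h7 (by positivity)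
        _ ≤ (CF + 2 ^ (Fintype.card ι) * K) * X := by
            have : 0 ≤ CF * X := mul_nonneg hCF (by linarith)
            linarith
    · push Not at hLL
      obtain ⟨u, hu, v, hv, hlk⟩ := hLL
      have huv : u ≠ v := by
        rintro rfl
        exact Lk_irr hb u hlk
      have hiso : S.iso b U ≠ U := by
        intro h
        have := hL hu
        rw [h, Finset.sdiff_self] at this
        exact absurd this (Finset.notMem_empty u)
      have h6 := hFa τ c M hτ U (U \ S.iso b U) L u v hu hv (hL hu) (hL hv) huv hlk σ J hσ hσ1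
      refine le_trans h6 ?_
      have hJ2 : A * Real.log (1 / σ) ≤ J := by
        rw [hJ, if_neg hiso]
        exact Nat.le_ceil _
      have h7 : σ ^ (-EF) * (2 : ℝ) ^ (-(cF * J)) ≤ 1 := by
        rw [Real.rpow_def_of_pos hσ, Real.rpow_def_of_pos (by norm_num : (0 : ℝ) < 2),
          ← Real.exp_add]
        rw [Real.exp_le_one_iff]
        have h8 : Real.log (1 / σ) = -Real.log σ := by rw [one_div, Real.log_inv]
        have h9 : EF * Real.log (1 / σ) ≤ Real.log 2 * (cF * J) := by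
          have h10 : A * (cF * Real.log 2) = EF := by
            rw [hA]
            field_simp
          calc EF * Real.log (1 / σ) = (A * Real.log (1 / σ)) * (cF * Real.log 2) := by
                rw [← h10]
                ring
            _ ≤ (J : ℝ) * (cF * Real.log 2) := mul_le_mul_of_nonneg_right hJ2 (by positivity)
            _ = Real.log 2 * (cF * J) := by ring
        rw [h8] at h9
        linarith
      calc CF * σ ^ (-EF) * (2 : ℝ) ^ (-(cF * J)) = CF * (σ ^ (-EF) * (2 : ℝ) ^ (-(cF * J))) := by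
            ring
        _ ≤ CF * 1 := mul_le_mul_of_nonneg_left h7 hCF
        _ ≤ CF * X := mul_le_mul_of_nonneg_left hX1 hCF
        _ ≤ (CF + 2 ^ (Fintype.card ι) * K) * X := by
            have : 0 ≤ 2 ^ (Fintype.card ι) * K * X := by positivity
            linarith
  refine (Finset.sum_le_sum hmain).trans ?_
  rw [Finset.sum_const, nsmul_eq_mul]
  refine mul_le_mul_of_nonneg_right ?_ (by positivity)
  rw [Finset.card_powerset]
  push_cast
  exact pow_le_pow_right₀ (by norm_num) (Finset.card_le_univ _)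

end Pool.Agent.H92.EL
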