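import Pool.Agent.H92.EL.CStm
import Pool.Agent.H98.MF.NLog

/-!
# Project ELL (MP_a3214d), block C, row C17: limits of prime sums
-/

set_option autoImplicit false

open scoped BigOperators Topology
open Filter

namespace Pool.Agent.H92.EL

open Pool.Agent.H98.MF (Pre summable_nf pre_summable_N abel_nf)

/-! ### Euler products -/

section

variable {P : Type}

open Classical in
/-- splitting off one prime -/
private noncomputable def splEquiv (p : P) (T : Finset P) (hp : p ∉ T) :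
    {f : P →₀ ℕ // f.support ⊆ insert p T} ≃ {f : P →₀ ℕ // f.support ⊆ T} × ℕ where
  toFun f := (⟨f.1.erase p, fun q hq => by
    rw [Finsupp.support_erase, Finset.mem_erase] at hq
    exact (Finset.mem_insert.1 (f.2 hq.2)).resolve_left hq.1⟩, f.1 p)
  invFun z := ⟨z.1.1 + Finsupp.single p z.2, fun q hq => by
    have h1 := Finsupp.support_add hq
    rw [Finset.mem_union] at h1
    rcases h1 with h1 | h1
    · exact Finset.mem_insert_of_mem (z.1.2 h1)
    · have h2 := Finsupp.support_single_subset h1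
      rw [Finset.mem_singleton] at h2
      rw [h2]
      exact Finset.mem_insert_self _ _⟩
  left_inv f := by
    apply Subtype.ext
    exact Finsupp.erase_add_single p f.1
  right_inv z := by
    obtain ⟨⟨f, hf⟩, n⟩ := z
    have h0 : f p = 0 := by
      by_contra h
      exact hp (hf (Finsupp.mem_support_iff.2 h))
    have h1 : (f + Finsupp.single p n) p = n := by
      rw [Finsupp.add_apply, h0, zero_add, Finsupp.single_eq_same]
    have h2 : (f + Finsupp.single p n).erase p = f := by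
      rw [Finsupp.erase_add, Finsupp.erase_single, add_zero]
      exact Finsupp.erase_of_notMem_support (Finsupp.notMem_support_iff.2 h0)
    simp only [h1, h2]

private theorem spl_split (c : P → ℂ) (p : P) (f : P →₀ ℕ) :
    (f.prod fun q n => c q ^ n) = ((f.erase p).prod fun q n => c q ^ n) * c p ^ f p := by
  classical
  conv_lhs => rw [← Finsupp.erase_add_single p f]
  rw [Finsupp.prod_add_index' (fun q => pow_zero _) fun q a b => pow_add _ _ _,
    Finsupp.prod_single_index (h := fun q n => c q ^ n) (pow_zero _)]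

private theorem spl_gen (c : P → ℂ) (hc : ∀ p, ‖c p‖ < 1) (T : Finset P) :
    HasSum (fun f : {f : P →₀ ℕ // f.support ⊆ T} => f.1.prod fun p n => c p ^ n)
      (∏ p ∈ T, (1 - c p)⁻¹) := by
  classical
  induction T using Finset.induction_on with
  | empty =>
    have h1 : ∀ f : {f : P →₀ ℕ // f.support ⊆ (∅ : Finset P)}, f = ⟨0, by simp⟩ := by
      rintro ⟨f, hf⟩
      apply Subtype.ext
      exact Finsupp.support_eq_empty.1 (Finset.subset_empty.1 hf)
    rw [Finset.prod_empty]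
    have h2 := hasSum_single (f := fun f : {f : P →₀ ℕ // f.support ⊆ (∅ : Finset P)} =>
      f.1.prod fun p n => c p ^ n) ⟨0, by simp⟩ (fun f hf => absurd (h1 f) hf)
    simpa using h2
  | insert p T hp ih =>
    have hg : HasSum (fun n : ℕ => c p ^ n) (1 - c p)⁻¹ := hasSum_geometric_of_norm_lt_one (hc p)
    have hn1 : Summable fun f : {f : P →₀ ℕ // f.support ⊆ T} =>
        ‖f.1.prod fun p n => c p ^ n‖ := ih.summable.norm
    have hn2 : Summable fun n : ℕ => ‖c p ^ n‖ := hg.summable.norm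
    have h3 := summable_mul_of_summable_norm hn1 hn2
    have h4 := tsum_mul_tsum_of_summable_norm hn1 hn2
    rw [ih.tsum_eq, hg.tsum_eq] at h4
    have h5 := h3.hasSum
    rw [← h4] at h5
    rw [Finset.prod_insert hp, mul_comm]
    have h6 := (splEquiv p T hp).hasSum_iff.2 h5
    have h7 : (fun f : {f : P →₀ ℕ // f.support ⊆ insert p T} => f.1.prod fun p n => c p ^ n) =
        (fun z : {f : P →₀ ℕ // f.support ⊆ T} × ℕ =>
          (z.1.1.prod fun p n => c p ^ n) * c p ^ z.2) ∘ (splEquiv p T hp) := by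
      funext f
      exact spl_split c p f.1
    rw [h7]
    exact h6

end

/-- the logarithm minus its first term -/
private noncomputable def spl_g (u : ℂ) : ℂ := - Complex.log (1 - u) - u

private theorem spl_exp {u : ℂ} (hu : ‖u‖ < 1) : Complex.exp (u + spl_g u) = (1 - u)⁻¹ := by
  have h1 : (1 : ℂ) - u ≠ 0 := by
    intro h
    have h2 : u = 1 := by linear_combination -h
    rw [h2] at hu
    simp at hu
  unfold spl_g
  have e : u + (-Complex.log (1 - u) - u) = -Complex.log (1 - u) := by ring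
  rw [e, Complex.exp_neg, Complex.exp_log h1]

private theorem spl_g_le {u : ℂ} (hu : ‖u‖ ≤ 1 / 2) : ‖spl_g u‖ ≤ ‖u‖ ^ 2 := by
  have h1 : ‖-u‖ < 1 := by rw [norm_neg]; linarith
  have h2 := Complex.norm_log_one_add_sub_self_le h1
  have h3 : Complex.log (1 + -u) - -u = - spl_g u := by
    unfold spl_g
    rw [← sub_eq_add_neg]
    ring
  rw [h3, norm_neg, norm_neg] at h2
  refine h2.trans ?_
  have h4 : (1 - ‖u‖)⁻¹ ≤ 2 := by
    rw [inv_le_comm₀ (by linarith) (by norm_num)]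
    linarith
  have h5 : 0 ≤ ‖u‖ ^ 2 := sq_nonneg _
  nlinarith

private theorem spl_g_cont {u : ℂ} (hu : ‖u‖ < 1) : ContinuousAt spl_g u := by
  unfold spl_g
  refine ContinuousAt.sub (ContinuousAt.neg (ContinuousAt.clog (by fun_prop) ?_)) continuousAt_id
  rw [Complex.mem_slitPlane_iff]
  left
  have h1 : |u.re| ≤ ‖u‖ := Complex.abs_re_le_norm u
  rw [abs_le] at h1
  simp only [Complex.sub_re, Complex.one_re]
  linarith [h1.2]

section

variable (S : Pre)

private theorem spl_two (p : S.P) : (2 : ℝ) ≤ S.N p := by exact_mod_cast S.two_le p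

private theorem spl_pos (p : S.P) (s : ℝ) : 0 < (S.N p : ℝ) ^ (-s) :=
  Real.rpow_pos_of_pos (lt_of_lt_of_le two_pos (spl_two S p)) _

private theorem spl_le_inv (p : S.P) {s : ℝ} (hs : 1 ≤ s) :
    (S.N p : ℝ) ^ (-s) ≤ (S.N p : ℝ) ^ (-1 : ℝ) := by
  have h2 := spl_two S p
  exact Real.rpow_le_rpow_of_exponent_le (by linarith) (by linarith)

private theorem spl_inv_half (p : S.P) : (S.N p : ℝ) ^ (-1 : ℝ) ≤ 1 / 2 := by
  rw [Real.rpow_neg_one, inv_le_comm₀ (by linarith [spl_two S p]) (by norm_num)]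
  have := spl_two S p
  linarith

/-- the term of a prime -/
private noncomputable def spl_u (x : S.P → ℂ) (s : ℝ) (p : S.P) : ℂ :=
  x p * (((S.N p : ℝ) ^ (-s) : ℝ) : ℂ)

private theorem spl_u_le {x : S.P → ℂ} (hx : ∀ p, ‖x p‖ ≤ 1) (s : ℝ) (p : S.P) :
    ‖spl_u S x s p‖ ≤ (S.N p : ℝ) ^ (-s) := by
  unfold spl_u
  rw [norm_mul, Complex.norm_real, Real.norm_eq_abs, abs_of_pos (spl_pos S p s)]
  calc ‖x p‖ * (S.N p : ℝ) ^ (-s) ≤ 1 * (S.N p : ℝ) ^ (-s) :=
        mul_le_mul_of_nonneg_right (hx p) (spl_pos S p s).le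
    _ = _ := one_mul _

private theorem spl_u_half {x : S.P → ℂ} (hx : ∀ p, ‖x p‖ ≤ 1) {s : ℝ} (hs : 1 ≤ s) (p : S.P) :
    ‖spl_u S x s p‖ ≤ 1 / 2 :=
  (spl_u_le S hx s p).trans ((spl_le_inv S p hs).trans (spl_inv_half S p))

private theorem spl_gu_le {x : S.P → ℂ} (hx : ∀ p, ‖x p‖ ≤ 1) {s : ℝ} (hs : 1 ≤ s) (p : S.P) :
    ‖spl_g (spl_u S x s p)‖ ≤ (S.N p : ℝ) ^ (-2 : ℝ) := by
  refine (spl_g_le (spl_u_half S hx hs p)).trans ?_
  calc ‖spl_u S x s p‖ ^ 2 ≤ ((S.N p : ℝ) ^ (-1 : ℝ)) ^ 2 :=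
        pow_le_pow_left₀ (norm_nonneg _) ((spl_u_le S hx s p).trans (spl_le_inv S p hs)) 2
    _ = (S.N p : ℝ) ^ (-2 : ℝ) := by
        rw [← Real.rpow_natCast, ← Real.rpow_mul (by linarith [spl_two S p])]
        norm_num

variable (C₀ : ℝ) (hC₀ : ∀ X : ℝ, 1 ≤ X → ((S.idl X).card : ℝ) ≤ C₀ * X)

include hC₀ in
private theorem spl_sum_u {x : S.P → ℂ} (hx : ∀ p, ‖x p‖ ≤ 1) {s : ℝ} (hs : 1 < s) :
    Summable (spl_u S x s) :=
  Summable.of_norm_bounded (pre_summable_N S C₀ hC₀ s hs) (spl_u_le S hx s)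

include hC₀ in
private theorem spl_sum_g {x : S.P → ℂ} (hx : ∀ p, ‖x p‖ ≤ 1) {s : ℝ} (hs : 1 ≤ s) :
    Summable (fun p => spl_g (spl_u S x s p)) :=
  Summable.of_norm_bounded (pre_summable_N S C₀ hC₀ 2 (by norm_num)) (spl_gu_le S hx hs)

/-- the series over the ideals -/
private noncomputable def spl_L (x : S.P → ℂ) (s : ℝ) : ℂ :=
  ∑' f : S.P →₀ ℕ, (f.prod fun p n => x p ^ n) * (((S.nf f : ℝ) ^ (-s) : ℝ) : ℂ)

private theorem spl_prod_le {x : S.P → ℂ} (hx : ∀ p, ‖x p‖ ≤ 1) (f : S.P →₀ ℕ) :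
    ‖f.prod fun p n => x p ^ n‖ ≤ 1 := by
  unfold Finsupp.prod
  rw [norm_prod]
  refine Finset.prod_le_one (fun p _ => norm_nonneg _) fun p _ => ?_
  rw [norm_pow]
  exact pow_le_one₀ (norm_nonneg _) (hx p)

private theorem spl_term {x : S.P → ℂ} (s : ℝ) (f : S.P →₀ ℕ) :
    (f.prod fun p n => x p ^ n) * (((S.nf f : ℝ) ^ (-s) : ℝ) : ℂ) =
      f.prod fun p n => (spl_u S x s p) ^ n := by
  have h1 : (S.nf f : ℝ) ^ (-s) = f.prod fun p n => ((S.N p : ℝ) ^ (-s)) ^ n := by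
    unfold Pre.nf Finsupp.prod
    push_cast
    rw [← Real.finsetProd_rpow _ _ fun p _ => by positivity]
    refine Finset.prod_congr rfl fun p _ => ?_
    rw [← Real.rpow_natCast, ← Real.rpow_natCast, ← Real.rpow_mul (Nat.cast_nonneg _),
      ← Real.rpow_mul (Nat.cast_nonneg _), mul_comm]
  rw [h1]
  unfold Finsupp.prod spl_u
  rw [Complex.ofReal_prod, ← Finset.prod_mul_distrib]
  refine Finset.prod_congr rfl fun p _ => ?_
  beta_reduce
  rw [mul_pow, Complex.ofReal_pow]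

include hC₀ in
/-- the Euler product -/
private theorem spl_euler {x : S.P → ℂ} (hx : ∀ p, ‖x p‖ ≤ 1) {s : ℝ} (hs : 1 < s) :
    spl_L S x s = Complex.exp (∑' p, spl_u S x s p + ∑' p, spl_g (spl_u S x s p)) := by
  classical
  have hsf := summable_nf S C₀ hC₀ s hs
  have hlt : ∀ p, ‖spl_u S x s p‖ < 1 := fun p =>
    lt_of_le_of_lt (spl_u_half S hx hs.le p) (by norm_num)
  have h1 : Tendsto (fun T : Finset S.P => ∏ p ∈ T, (1 - spl_u S x s p)⁻¹) atTop
      (𝓝 (Complex.exp (∑' p, spl_u S x s p + ∑' p, spl_g (spl_u S x s p)))) := by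
    have h2 : Tendsto (fun T : Finset S.P => ∑ p ∈ T, spl_u S x s p +
        ∑ p ∈ T, spl_g (spl_u S x s p)) atTop
        (𝓝 (∑' p, spl_u S x s p + ∑' p, spl_g (spl_u S x s p))) :=
      Tendsto.add (spl_sum_u S C₀ hC₀ hx hs).hasSum (spl_sum_g S C₀ hC₀ hx hs.le).hasSum
    have h3 := (Complex.continuous_exp.tendsto _).comp h2
    refine h3.congr fun T => ?_
    show Complex.exp (∑ p ∈ T, spl_u S x s p + ∑ p ∈ T, spl_g (spl_u S x s p)) = _
    rw [← Finset.sum_add_distrib, Complex.exp_sum]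
    exact Finset.prod_congr rfl fun p _ => spl_exp (hlt p)
  have h4 : Tendsto (fun T : Finset S.P => ∏ p ∈ T, (1 - spl_u S x s p)⁻¹) atTop
      (𝓝 (spl_L S x s)) := by
    have h5 : ∀ T : Finset S.P, ∏ p ∈ T, (1 - spl_u S x s p)⁻¹ =
        ∑' f : S.P →₀ ℕ, if f.support ⊆ T then
          (f.prod fun p n => x p ^ n) * (((S.nf f : ℝ) ^ (-s) : ℝ) : ℂ) else 0 := by
      intro T
      rw [← (spl_gen (spl_u S x s) hlt T).tsum_eq]
      have h6 := tsum_subtype {f : S.P →₀ ℕ | f.support ⊆ T}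
        (fun f => f.prod fun p n => (spl_u S x s p) ^ n)
      refine h6.trans (tsum_congr fun f => ?_)
      rw [Set.indicator_apply]
      show (if f.support ⊆ T then _ else 0) = _
      rw [spl_term]
    rw [show (fun T : Finset S.P => ∏ p ∈ T, (1 - spl_u S x s p)⁻¹) = _ from funext h5]
    unfold spl_L
    refine tendsto_tsum_of_dominated_convergence hsf (fun f => ?_) (Eventually.of_forall
      fun T f => ?_)
    · refine tendsto_const_nhds.congr' ?_
      filter_upwards [eventually_ge_atTop f.support] with T hT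
      rw [if_pos hT]
    · have hpos : (0 : ℝ) < (S.nf f : ℝ) ^ (-s) :=
        Real.rpow_pos_of_pos (by exact_mod_cast S.nf_pos f) _
      split_ifs
      · rw [norm_mul, Complex.norm_real, Real.norm_eq_abs, abs_of_pos hpos]
        calc _ ≤ 1 * (S.nf f : ℝ) ^ (-s) :=
              mul_le_mul_of_nonneg_right (spl_prod_le S hx f) hpos.le
          _ = _ := one_mul _
      · rw [norm_zero]
        exact hpos.le
  exact tendsto_nhds_unique h4 h1

include hC₀ in
/-- the limit of the higher terms -/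
private theorem spl_g_lim {x : S.P → ℂ} (hx : ∀ p, ‖x p‖ ≤ 1) :
    Tendsto (fun σ : ℝ => ∑' p, spl_g (spl_u S x (1 + σ) p)) (𝓝[>] 0)
      (𝓝 (∑' p, spl_g (spl_u S x 1 p))) := by
  refine tendsto_tsum_of_dominated_convergence (pre_summable_N S C₀ hC₀ 2 (by norm_num))
    (fun p => ?_) ?_
  · have h1 : ContinuousAt spl_g (spl_u S x 1 p) :=
      spl_g_cont (lt_of_le_of_lt (spl_u_half S hx le_rfl p) (by norm_num))
    have h2 : Tendsto (fun σ : ℝ => spl_u S x (1 + σ) p) (𝓝[>] 0) (𝓝 (spl_u S x 1 p)) := by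
      have h3 : Continuous fun σ : ℝ => spl_u S x (1 + σ) p := by
        unfold spl_u
        have h4 : (S.N p : ℝ) ≠ 0 := by linarith [spl_two S p]
        have h5 : Continuous fun σ : ℝ => (S.N p : ℝ) ^ (-(1 + σ)) :=
          Continuous.rpow continuous_const (by fun_prop) fun σ => Or.inl h4
        exact continuous_const.mul (Complex.continuous_ofReal.comp h5)
      have h6 := h3.tendsto 0
      rw [add_zero] at h6
      exact tendsto_nhdsWithin_of_tendsto_nhds h6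
    exact h1.tendsto.comp h2
  · filter_upwards [self_mem_nhdsWithin] with σ hσ p
    exact spl_gu_le S hx (by have : (0 : ℝ) < σ := hσ; linarith) p

include hC₀ in
/-- the prime sum is continuous -/
private theorem spl_u_cont {x : S.P → ℂ} (hx : ∀ p, ‖x p‖ ≤ 1) :
    ContinuousOn (fun σ : ℝ => ∑' p, spl_u S x (1 + σ) p) (Set.Ioi 0) := by
  intro σ hσ
  have hσ0 : (0 : ℝ) < σ := hσ
  have h1 : ContinuousOn (fun σ : ℝ => ∑' p, spl_u S x (1 + σ) p) (Set.Ioi (σ / 2)) := by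
    refine continuousOn_tsum (u := fun p => (S.N p : ℝ) ^ (-(1 + σ / 2))) (fun p => ?_)
      (pre_summable_N S C₀ hC₀ _ (by linarith)) fun p t ht => ?_
    · have h4 : (S.N p : ℝ) ≠ 0 := by linarith [spl_two S p]
      have h5 : Continuous fun σ : ℝ => (S.N p : ℝ) ^ (-(1 + σ)) :=
        Continuous.rpow continuous_const (by fun_prop) fun σ => Or.inl h4
      unfold spl_u
      exact (continuous_const.mul (Complex.continuous_ofReal.comp h5)).continuousOn
    · have ht' : σ / 2 < t := ht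
      refine (spl_u_le S hx _ p).trans ?_
      have h2 := spl_two S p
      exact Real.rpow_le_rpow_of_exponent_le (by linarith) (by linarith)
  exact ((h1 σ (show σ / 2 < σ by linarith)).continuousAt
    (Ioi_mem_nhds (by linarith))).continuousWithinAt

end

/-! ### lifting -/

/-- continuous logarithms of convergent functions converge -/
private theorem spl_lift {φ : ℝ → ℂ} (hφ : ContinuousOn φ (Set.Ioi 0)) {w : ℂ} (hw : w ≠ 0)
    (h : Tendsto (fun σ => Complex.exp (φ σ)) (𝓝[>] 0) (𝓝 w)) :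
    ∃ L, Tendsto φ (𝓝[>] 0) (𝓝 L) := by
  set ψ : ℝ → ℂ := fun σ => φ σ - Complex.log w with hψ
  have hψc : ContinuousOn ψ (Set.Ioi 0) := hφ.sub continuousOn_const
  have h1 : Tendsto (fun σ => Complex.exp (ψ σ)) (𝓝[>] 0) (𝓝 1) := by
    have h2 := h.mul_const w⁻¹
    rw [mul_inv_cancel₀ hw] at h2
    refine h2.congr fun σ => ?_
    rw [hψ]
    simp only
    rw [Complex.exp_sub, Complex.exp_log hw, div_eq_mul_inv]
  have h3 : ∀ᶠ σ in 𝓝[>] (0 : ℝ), Complex.exp (ψ σ) ∈ Complex.slitPlane :=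
    h1.eventually (Complex.isOpen_slitPlane.mem_nhds Complex.one_mem_slitPlane)
  obtain ⟨ε, hε, h4⟩ : ∃ ε > (0 : ℝ), ∀ σ ∈ Set.Ioo 0 ε, Complex.exp (ψ σ) ∈
      Complex.slitPlane := by
    obtain ⟨ε, hε, h5⟩ := mem_nhdsGT_iff_exists_Ioo_subset.1 h3
    exact ⟨ε, hε, fun σ hσ => h5 hσ⟩
  set k : ℝ → ℝ := fun σ => (ψ σ - Complex.log (Complex.exp (ψ σ))).im / (2 * Real.pi) with hk
  have hkc : ContinuousOn k (Set.Ioo 0 ε) := by
    have h5 : ContinuousOn ψ (Set.Ioo 0 ε) := hψc.mono Set.Ioo_subset_Ioi_self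
    have h6 : ContinuousOn (fun σ => Complex.log (Complex.exp (ψ σ))) (Set.Ioo 0 ε) :=
      ContinuousOn.clog (Complex.continuous_exp.comp_continuousOn h5) h4
    exact (Complex.continuous_im.comp_continuousOn (h5.sub h6)).div_const _
  have hint : ∀ σ, ∃ n : ℤ, ψ σ = Complex.log (Complex.exp (ψ σ)) +
      n * (2 * Real.pi * Complex.I) := by
    intro σ
    have h5 : Complex.exp (ψ σ) = Complex.exp (Complex.log (Complex.exp (ψ σ))) := by
      rw [Complex.exp_log (Complex.exp_ne_zero _)]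
    exact Complex.exp_eq_exp_iff_exists_int.1 h5
  have hkn : ∀ σ, ∃ n : ℤ, k σ = n ∧ ψ σ = Complex.log (Complex.exp (ψ σ)) +
      n * (2 * Real.pi * Complex.I) := by
    intro σ
    obtain ⟨n, hn⟩ := hint σ
    refine ⟨n, ?_, hn⟩
    rw [hk]
    simp only
    have h5 : ψ σ - Complex.log (Complex.exp (ψ σ)) = n * (2 * Real.pi * Complex.I) := by
      linear_combination hn
    rw [h5]
    have h6 : ((n : ℂ) * (2 * Real.pi * Complex.I)).im = n * (2 * Real.pi) := by
      simp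
    rw [h6]
    have h7 : (2 * Real.pi : ℝ) ≠ 0 := by positivity
    field_simp
  have hdisc : DiscreteTopology (Set.range ((↑) : ℤ → ℝ)) := by
    exact (Int.isClosedEmbedding_coe_real.isEmbedding.toHomeomorph).symm.isEmbedding.discreteTopology
  have hconst : ∀ σ ∈ Set.Ioo 0 ε, k σ = k (ε / 2) := by
    intro σ hσ
    have h20 : ε / 2 ∈ Set.Ioo 0 ε := ⟨by linarith [hε], by linarith [hε]⟩
    refine isPreconnected_Ioo.constant_of_mapsTo (T := Set.range ((↑) : ℤ → ℝ)) ⟨hdisc⟩ hkc ?_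
      hσ h20
    intro t _
    obtain ⟨n, hn, _⟩ := hkn t
    exact ⟨n, hn.symm⟩
  refine ⟨Complex.log w + (k (ε / 2) : ℂ) * (2 * Real.pi * Complex.I), ?_⟩
  have h8 : Tendsto (fun σ => Complex.log w + (Complex.log (Complex.exp (ψ σ)) +
      (k (ε / 2) : ℂ) * (2 * Real.pi * Complex.I))) (𝓝[>] 0)
      (𝓝 (Complex.log w + (k (ε / 2) : ℂ) * (2 * Real.pi * Complex.I))) := by
    have h9 : Tendsto (fun σ => Complex.log (Complex.exp (ψ σ))) (𝓝[>] 0) (𝓝 0) := by
      have h10 := h1.clog Complex.one_mem_slitPlane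
      rw [Complex.log_one] at h10
      exact h10
    have h11 := (h9.add_const ((k (ε / 2) : ℂ) * (2 * Real.pi * Complex.I))).const_add
      (Complex.log w)
    rw [zero_add] at h11
    exact h11
  refine h8.congr' ?_
  have h12 : Set.Ioo 0 ε ∈ 𝓝[>] (0 : ℝ) := Ioo_mem_nhdsGT hε
  filter_upwards [h12] with σ hσ
  obtain ⟨n, hn, hn2⟩ := hkn σ
  have h13 : (k (ε / 2) : ℂ) = n := by
    rw [← hconst σ hσ, hn]
    simp
  rw [h13, ← hn2, hψ]
  ring

/-! ### Abel summation -/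

private theorem spl_countable (S : Pre) : Countable S.P := by
  have h : (Set.univ : Set S.P) = ⋃ X : ℕ, {p : S.P | S.N p ≤ X} := by
    ext p
    simp only [Set.mem_univ, Set.mem_iUnion, Set.mem_ofPred_eq, true_iff]
    exact ⟨S.N p, le_rfl⟩
  have h2 : (Set.univ : Set S.P).Countable := by
    rw [h]
    exact Set.countable_iUnion fun X => (S.fin X).countable
  exact Set.countable_univ_iff.1 h2

/-- the integral representation of `n ^ (-s)` -/
private theorem spl_int (n s : ℝ) (hn : 1 ≤ n) (hs : 1 < s) :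
    MeasureTheory.IntegrableOn (fun t : ℝ => if n ≤ t then s * t ^ (-s - 1) else 0) (Set.Ioi 1) ∧
      ∫ t in Set.Ioi (1 : ℝ), (if n ≤ t then s * t ^ (-s - 1) else 0) = n ^ (-s) := by
  have hn0 : 0 < n := by linarith
  have e1 : (fun t : ℝ => if n ≤ t then s * t ^ (-s - 1) else 0) =
      (Set.Ici n).indicator (fun t : ℝ => s * t ^ (-s - 1)) := by
    ext t
    simp only [Set.indicator_apply, Set.mem_Ici]
  have hint : MeasureTheory.IntegrableOn (fun t : ℝ => s * t ^ (-s - 1)) (Set.Ioi n) :=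
    (integrableOn_Ioi_rpow_of_lt (by linarith) hn0).const_mul s
  have hval : ∫ t in Set.Ioi n, s * t ^ (-s - 1) = n ^ (-s) := by
    rw [MeasureTheory.integral_const_mul, integral_Ioi_rpow_of_lt (by linarith) hn0]
    have e2 : -s - 1 + 1 = -s := by ring
    rw [e2]
    field_simp
  rw [e1]
  constructor
  · have h1 : MeasureTheory.IntegrableOn (fun t : ℝ => s * t ^ (-s - 1)) (Set.Ici n) :=
      (integrableOn_Ici_iff_integrableOn_Ioi enorm_ne_top).2 hint
    exact (h1.integrable_indicator measurableSet_Ici).integrableOn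
  · rw [MeasureTheory.setIntegral_indicator measurableSet_Ici]
    rcases eq_or_lt_of_le hn with h | h
    · have e3 : Set.Ioi (1 : ℝ) ∩ Set.Ici n = Set.Ioi n := by
        rw [← h]
        ext t
        simp only [Set.mem_inter_iff, Set.mem_Ioi, Set.mem_Ici]
        constructor
        · exact fun h => h.1
        · exact fun h => ⟨h, h.le⟩
      rw [e3, hval]
    · have e3 : Set.Ioi (1 : ℝ) ∩ Set.Ici n = Set.Ici n := by
        ext t
        simp only [Set.mem_inter_iff, Set.mem_Ioi, Set.mem_Ici]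
        constructor
        · exact fun h => h.2
        · exact fun h2 => ⟨lt_of_lt_of_le h h2, h2⟩
      rw [e3, MeasureTheory.integral_Ici_eq_integral_Ioi, hval]

/-- Abel summation -/
private theorem spl_abel_eq (S : Pre) (χ : (S.P →₀ ℕ) → ℂ) (hχ : ∀ f, ‖χ f‖ ≤ 1) (C₀ : ℝ)
    (hC₀ : ∀ X : ℝ, 1 ≤ X → ((S.idl X).card : ℝ) ≤ C₀ * X) (s : ℝ) (hs : 1 < s) :
    MeasureTheory.IntegrableOn (fun t : ℝ => (∑ f ∈ S.idl t, χ f) *
      ((s * t ^ (-s - 1) : ℝ) : ℂ)) (Set.Ioi 1) ∧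
    ∑' f : S.P →₀ ℕ, χ f * (((S.nf f : ℝ) ^ (-s) : ℝ) : ℂ) =
      ∫ t in Set.Ioi (1 : ℝ), (∑ f ∈ S.idl t, χ f) * ((s * t ^ (-s - 1) : ℝ) : ℂ) := by
  have hcP := spl_countable S
  have hone : ∀ f : S.P →₀ ℕ, (1 : ℝ) ≤ S.nf f := fun f => by exact_mod_cast S.nf_pos f
  let G : (S.P →₀ ℕ) → ℝ → ℂ := fun f t =>
    χ f * (((if (S.nf f : ℝ) ≤ t then s * t ^ (-s - 1) else 0 : ℝ)) : ℂ)
  have hGi : ∀ f, MeasureTheory.IntegrableOn (G f) (Set.Ioi 1) := fun f =>
    ((spl_int _ s (hone f) hs).1.ofReal).const_mul (χ f)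
  have hGv : ∀ f, ∫ t in Set.Ioi (1 : ℝ), G f t = χ f * (((S.nf f : ℝ) ^ (-s) : ℝ) : ℂ) := by
    intro f
    simp only [G]
    rw [MeasureTheory.integral_const_mul, integral_complex_ofReal, (spl_int _ s (hone f) hs).2]
  have hGn : ∀ f, ∫ t in Set.Ioi (1 : ℝ), ‖G f t‖ ≤ (S.nf f : ℝ) ^ (-s) := by
    intro f
    rw [← (spl_int _ s (hone f) hs).2]
    refine MeasureTheory.setIntegral_mono_on (hGi f).norm (spl_int _ s (hone f) hs).1
      measurableSet_Ioi ?_
    intro t ht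
    have ht1 : 1 < t := ht
    have ht0 : 0 < t := by linarith
    have h2 : 0 ≤ (if (S.nf f : ℝ) ≤ t then s * t ^ (-s - 1) else 0) := by
      split_ifs
      · positivity
      · exact le_rfl
    simp only [G]
    rw [norm_mul, Complex.norm_real, Real.norm_eq_abs, abs_of_nonneg h2]
    exact mul_le_of_le_one_left h2 (hχ f)
  have hsum : Summable fun f => ∫ t in Set.Ioi (1 : ℝ), ‖G f t‖ := by
    refine Summable.of_nonneg_of_le ?_ hGn (summable_nf S C₀ hC₀ s hs)
    intro f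
    exact MeasureTheory.integral_nonneg fun t => norm_nonneg _
  have hHS := MeasureTheory.hasSum_integral_of_summable_integral_norm hGi hsum
  have e1 : ∑' f : S.P →₀ ℕ, χ f * (((S.nf f : ℝ) ^ (-s) : ℝ) : ℂ) =
      ∫ t in Set.Ioi (1 : ℝ), ∑' f, G f t := by
    rw [← hHS.tsum_eq]
    exact tsum_congr fun f => (hGv f).symm
  have e2 : ∀ t : ℝ, ∑' f, G f t = (∑ f ∈ S.idl t, χ f) * ((s * t ^ (-s - 1) : ℝ) : ℂ) := by
    intro t
    rw [tsum_eq_sum (s := S.idl t)]
    · rw [Finset.sum_mul]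
      refine Finset.sum_congr rfl fun f hf => ?_
      simp only [G]
      rw [if_pos (S.mem_idl.1 hf)]
    · intro f hf
      simp only [G]
      rw [if_neg (fun h3 => hf (S.mem_idl.2 h3)), Complex.ofReal_zero, mul_zero]
  have hTs : ∀ t : ℝ, HasSum (fun f => G f t) (∑' f, G f t) := by
    intro t
    refine (summable_of_ne_finset_zero (s := S.idl t) ?_).hasSum
    intro f hf
    simp only [G]
    rw [if_neg (fun h3 => hf (S.mem_idl.2 h3)), Complex.ofReal_zero, mul_zero]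
  have hTm : MeasureTheory.AEStronglyMeasurable (fun t : ℝ => ∑' f, G f t)
      (MeasureTheory.volume.restrict (Set.Ioi 1)) := by
    refine aestronglyMeasurable_of_tendsto_ae (Filter.atTop : Filter (Finset (S.P →₀ ℕ)))
      (f := fun F t => ∑ f ∈ F, G f t) ?_ (Filter.Eventually.of_forall fun t => ?_)
    · intro F
      exact (MeasureTheory.integrable_finsetSum F fun f _ => hGi f).aestronglyMeasurable
    · exact hTs t
  have hCi : MeasureTheory.IntegrableOn (fun t : ℝ => C₀ * s * t ^ (-s)) (Set.Ioi 1) :=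
    (integrableOn_Ioi_rpow_of_lt (by linarith) one_pos).const_mul (C₀ * s)
  have hTi : MeasureTheory.IntegrableOn (fun t : ℝ => ∑' f, G f t) (Set.Ioi 1) := by
    refine MeasureTheory.Integrable.mono' hCi hTm ?_
    refine (MeasureTheory.ae_restrict_iff' measurableSet_Ioi).2 (Filter.Eventually.of_forall ?_)
    intro t ht
    have ht1 : 1 < t := ht
    have ht0 : 0 < t := by linarith
    have e3 : t ^ (-s) = t * t ^ (-s - 1) := by
      have : -s = 1 + (-s - 1) := by ring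
      nth_rw 1 [this]
      rw [Real.rpow_add ht0, Real.rpow_one]
    have h6 : 0 ≤ s * t ^ (-s - 1) := by positivity
    rw [e2, e3, norm_mul, Complex.norm_real, Real.norm_eq_abs, abs_of_nonneg h6]
    have h7 : ‖∑ f ∈ S.idl t, χ f‖ ≤ C₀ * t := by
      calc ‖∑ f ∈ S.idl t, χ f‖ ≤ ∑ f ∈ S.idl t, ‖χ f‖ := norm_sum_le _ _
        _ ≤ ∑ f ∈ S.idl t, (1 : ℝ) := Finset.sum_le_sum fun f _ => hχ f
        _ = ((S.idl t).card : ℝ) := by simp
        _ ≤ C₀ * t := hC₀ t ht1.le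
    calc _ ≤ (C₀ * t) * (s * t ^ (-s - 1)) := mul_le_mul_of_nonneg_right h7 h6
      _ = _ := by ring
  rw [e1]
  simp only [e2] at hTi ⊢
  exact ⟨hTi, trivial⟩

/-- the limit of a series with small partial sums -/
private theorem spl_abel (S : Pre) (χ : (S.P →₀ ℕ) → ℂ) (hχ : ∀ f, ‖χ f‖ ≤ 1) (C₀ : ℝ)
    (hC₀ : ∀ X : ℝ, 1 ≤ X → ((S.idl X).card : ℝ) ≤ C₀ * X) (C δ : ℝ) (hδ : 0 < δ)
    (h : ∀ X : ℝ, 1 ≤ X → ‖∑ f ∈ S.idl X, χ f‖ ≤ C * X ^ (1 - δ)) :
    ∃ L : ℂ, Tendsto (fun σ : ℝ => ∑' f : S.P →₀ ℕ, χ f *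
      (((S.nf f : ℝ) ^ (-(1 + σ)) : ℝ) : ℂ)) (𝓝[>] 0) (𝓝 L) := by
  have hC : 0 ≤ C := by
    have h1 := h 1 le_rfl
    rw [Real.one_rpow, mul_one] at h1
    exact (norm_nonneg _).trans h1
  refine ⟨∫ t in Set.Ioi (1 : ℝ), (∑ f ∈ S.idl t, χ f) *
    (((1 + (0 : ℝ)) * t ^ (-(1 + (0 : ℝ)) - 1) : ℝ) : ℂ), ?_⟩
  have hlim : Tendsto (fun σ : ℝ => ∫ t in Set.Ioi (1 : ℝ), (∑ f ∈ S.idl t, χ f) *
      (((1 + σ) * t ^ (-(1 + σ) - 1) : ℝ) : ℂ)) (𝓝[>] 0)
      (𝓝 (∫ t in Set.Ioi (1 : ℝ), (∑ f ∈ S.idl t, χ f) *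
        (((1 + (0 : ℝ)) * t ^ (-(1 + (0 : ℝ)) - 1) : ℝ) : ℂ))) := by
    refine MeasureTheory.tendsto_integral_filter_of_dominated_convergence
      (fun t : ℝ => C * 2 * t ^ (-1 - δ)) ?_ ?_ ?_ ?_
    · filter_upwards [self_mem_nhdsWithin] with σ hσ
      have hσ0 : (0 : ℝ) < σ := hσ
      exact (spl_abel_eq S χ hχ C₀ hC₀ (1 + σ) (by linarith)).1.aestronglyMeasurable
    · filter_upwards [Ioo_mem_nhdsGT (show (0 : ℝ) < 1 by norm_num)] with σ hσ
      refine (MeasureTheory.ae_restrict_iff' measurableSet_Ioi).2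
        (Filter.Eventually.of_forall ?_)
      intro t ht
      have ht1 : 1 < t := ht
      have ht0 : 0 < t := by linarith
      have h6 : 0 ≤ (1 + σ) * t ^ (-(1 + σ) - 1) := by
        have := hσ.1
        positivity
      rw [norm_mul, Complex.norm_real, Real.norm_eq_abs, abs_of_nonneg h6]
      have h7 : (1 + σ) * t ^ (-(1 + σ) - 1) ≤ 2 * t ^ (-2 : ℝ) := by
        refine mul_le_mul (by linarith [hσ.2]) ?_ (Real.rpow_nonneg ht0.le _) (by norm_num)
        exact Real.rpow_le_rpow_of_exponent_le ht1.le (by linarith [hσ.1])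
      have e4 : t ^ (-1 - δ) = t ^ (1 - δ) * t ^ (-2 : ℝ) := by
        rw [← Real.rpow_add ht0]
        congr 1
        ring
      calc _ ≤ (C * t ^ (1 - δ)) * (2 * t ^ (-2 : ℝ)) :=
            mul_le_mul (h t ht1.le) h7 h6 (mul_nonneg hC (Real.rpow_nonneg ht0.le _))
        _ = _ := by rw [e4]; ring
    · exact (integrableOn_Ioi_rpow_of_lt (by linarith) one_pos).const_mul (C * 2)
    · refine (MeasureTheory.ae_restrict_iff' measurableSet_Ioi).2
        (Filter.Eventually.of_forall ?_)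
      intro t ht
      have ht1 : 1 < t := ht
      have ht0 : t ≠ 0 := by linarith
      have h5 : Continuous fun σ : ℝ => (1 + σ) * t ^ (-(1 + σ) - 1) :=
        Continuous.mul (by fun_prop) (Continuous.rpow continuous_const (by fun_prop)
          fun σ => Or.inl ht0)
      have h6 : Continuous fun σ : ℝ => (∑ f ∈ S.idl t, χ f) *
          (((1 + σ) * t ^ (-(1 + σ) - 1) : ℝ) : ℂ) :=
        continuous_const.mul (Complex.continuous_ofReal.comp h5)
      exact tendsto_nhdsWithin_of_tendsto_nhds (h6.tendsto 0)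
  refine hlim.congr' ?_
  filter_upwards [self_mem_nhdsWithin] with σ hσ
  have hσ0 : (0 : ℝ) < σ := hσ
  exact ((spl_abel_eq S χ hχ C₀ hC₀ (1 + σ) (by linarith)).2).symm

/-! ### the theorem -/

private theorem spl_ec_add {l : ℕ} [NeZero l] (a b : ZMod l) : ec (a + b) = ec a * ec b :=
  AddChar.map_add_eq_mul _ _ _

private theorem spl_ec_zero {l : ℕ} [NeZero l] : ec (0 : ZMod l) = 1 :=
  AddChar.map_zero_eq_one _

private theorem spl_ec_mul {l : ℕ} [NeZero l] (k : ℕ) (a : ZMod l) :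
    ec ((k : ZMod l) * a) = ec a ^ k := by
  induction k with
  | zero => rw [Nat.cast_zero, zero_mul, pow_zero, spl_ec_zero]
  | succ k ih => rw [Nat.cast_succ, add_mul, one_mul, spl_ec_add, ih, pow_succ]

private theorem spl_ec_norm {l : ℕ} [NeZero l] (a : ZMod l) : ‖ec a‖ = 1 := by
  unfold ec
  rw [ZMod.stdAddChar_apply]
  exact Circle.norm_coe _

private theorem spl_ec_sum {l : ℕ} [NeZero l] {ι : Type} (s : Finset ι) (f : ι → ZMod l) :
    ec (∑ i ∈ s, f i) = ∏ i ∈ s, ec (f i) := by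
  classical
  induction s using Finset.induction_on with
  | empty => rw [Finset.sum_empty, Finset.prod_empty, spl_ec_zero]
  | insert a s ha ih => rw [Finset.sum_insert ha, Finset.prod_insert ha, spl_ec_add, ih]

private theorem spl_card {l : ℕ} [Fact l.Prime] (S : SysL l) : ∃ C₀ : ℝ, ∀ X : ℝ, 1 ≤ X →
    ((S.toPre.idl X).card : ℝ) ≤ C₀ * X := by
  refine ⟨S.κ + S.C, fun X hX => ?_⟩
  have h1 := S.cnt X hX
  rw [abs_le] at h1
  have h2 : X ^ (1 - S.δ) ≤ X := by
    calc X ^ (1 - S.δ) ≤ X ^ (1 : ℝ) :=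
          Real.rpow_le_rpow_of_exponent_le hX (by linarith [S.δ_pos])
      _ = X := Real.rpow_one X
  have h3 : S.C * X ^ (1 - S.δ) ≤ S.C * X := mul_le_mul_of_nonneg_left h2 S.C_nonneg
  linarith [h1.2]

/-- the first part -/
private theorem spl_one {l : ℕ} [Fact l.Prime] (S : SysL l) :
    ∃ L : ℝ, Tendsto (fun σ : ℝ => ∑' p : S.P, (S.N p : ℝ) ^ (-(1 + σ)) - Real.log (1 / σ))
      (𝓝[>] 0) (𝓝 L) := by
  obtain ⟨C₀, hC₀⟩ := spl_card S
  set x : S.P → ℂ := fun _ => 1 with hx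
  have hx1 : ∀ p, ‖x p‖ ≤ 1 := fun p => by rw [hx]; simp
  have hg := spl_g_lim S.toPre C₀ hC₀ hx1
  set g1 : ℂ := ∑' p, spl_g (spl_u S.toPre x 1 p) with hg1
  set Z : ℝ → ℝ := fun σ => ∑' f : S.P →₀ ℕ, (S.toPre.nf f : ℝ) ^ (-(1 + σ)) with hZ
  -- the zeta function
  have hL : ∀ σ : ℝ, spl_L S.toPre x (1 + σ) = (Z σ : ℂ) := by
    intro σ
    unfold spl_L
    rw [hZ]
    simp only
    rw [Complex.ofReal_tsum]
    refine tsum_congr fun f => ?_
    have h1 : (f.prod fun p n => x p ^ n) = 1 := by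
      unfold Finsupp.prod
      exact Finset.prod_eq_one fun p _ => by rw [hx]; simp
    rw [h1, one_mul]
  have hu : ∀ σ : ℝ, ∑' p, spl_u S.toPre x (1 + σ) p =
      ((∑' p : S.P, (S.N p : ℝ) ^ (-(1 + σ)) : ℝ) : ℂ) := by
    intro σ
    rw [Complex.ofReal_tsum]
    refine tsum_congr fun p => ?_
    unfold spl_u
    rw [hx]
    simp only
    rw [one_mul]
  have hZpos : ∀ σ : ℝ, 0 < σ → 0 < Z σ ∧ Real.log (Z σ) =
      ∑' p : S.P, (S.N p : ℝ) ^ (-(1 + σ)) +
        (∑' p, spl_g (spl_u S.toPre x (1 + σ) p)).re := by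
    intro σ hσ
    have h1 := spl_euler S.toPre C₀ hC₀ hx1 (show 1 < 1 + σ by linarith)
    rw [hL, hu] at h1
    have h2 : ‖(Z σ : ℂ)‖ = Real.exp (∑' p : S.P, (S.N p : ℝ) ^ (-(1 + σ)) +
        (∑' p, spl_g (spl_u S.toPre x (1 + σ) p)).re) := by
      rw [h1, Complex.norm_exp]
      congr 1
    have h3 : 0 ≤ Z σ := tsum_nonneg fun f => Real.rpow_nonneg (Nat.cast_nonneg _) _
    rw [Complex.norm_real, Real.norm_eq_abs, abs_of_nonneg h3] at h2
    refine ⟨by rw [h2]; exact Real.exp_pos _, ?_⟩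
    rw [h2, Real.log_exp]
  -- the pole
  have hpole : Tendsto (fun σ : ℝ => σ * Z σ) (𝓝[>] 0) (𝓝 S.κ) := by
    have hb : ∀ σ : ℝ, 0 < σ → σ ≤ 1 → |σ * Z σ - S.κ * (1 + σ)| ≤ σ * (2 * S.C / S.δ) := by
      intro σ hσ hσ1
      have h1 := abel_nf S.toPre (fun _ => 1) (fun _ => by simp) C₀ hC₀ S.κ S.C S.δ S.δ_pos
        S.δ_le (fun X hX => by simpa using S.cnt X hX) (1 + σ) (by linarith) (by linarith)
      simp only [one_mul] at h1
      have h2 : σ * Z σ - S.κ * (1 + σ) = σ * (Z σ - S.κ * (1 + σ) / (1 + σ - 1)) := by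
        have h3 : 1 + σ - 1 = σ := by ring
        rw [h3]
        field_simp
      rw [h2, abs_mul, abs_of_pos hσ]
      exact mul_le_mul_of_nonneg_left h1 hσ.le
    have h4 : Tendsto (fun σ : ℝ => σ * Z σ - S.κ * (1 + σ)) (𝓝[>] 0) (𝓝 0) := by
      have h5 : Tendsto (fun σ : ℝ => σ * (2 * S.C / S.δ)) (𝓝[>] 0) (𝓝 0) := by
        have h6 : Tendsto (fun σ : ℝ => σ * (2 * S.C / S.δ)) (𝓝 0)
            (𝓝 (0 * (2 * S.C / S.δ))) := (continuous_id.mul continuous_const).tendsto 0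
        rw [zero_mul] at h6
        exact tendsto_nhdsWithin_of_tendsto_nhds h6
      refine squeeze_zero_norm' ?_ h5
      filter_upwards [Ioo_mem_nhdsGT (show (0 : ℝ) < 1 by norm_num)] with σ hσ
      rw [Real.norm_eq_abs]
      exact hb σ hσ.1 hσ.2.le
    have h7 : Tendsto (fun σ : ℝ => S.κ * (1 + σ)) (𝓝[>] 0) (𝓝 S.κ) := by
      have h8 : Tendsto (fun σ : ℝ => S.κ * (1 + σ)) (𝓝 0) (𝓝 (S.κ * (1 + 0))) :=
        (Continuous.tendsto (by fun_prop) 0)
      rw [add_zero, mul_one] at h8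
      exact tendsto_nhdsWithin_of_tendsto_nhds h8
    have h9 := h4.add h7
    rw [zero_add] at h9
    refine h9.congr fun σ => ?_
    ring
  have hlog : Tendsto (fun σ : ℝ => Real.log (σ * Z σ)) (𝓝[>] 0) (𝓝 (Real.log S.κ)) :=
    hpole.log S.κ_pos.ne'
  have hre : Tendsto (fun σ : ℝ => (∑' p, spl_g (spl_u S.toPre x (1 + σ) p)).re) (𝓝[>] 0)
      (𝓝 g1.re) := (Complex.continuous_re.tendsto _).comp hg
  refine ⟨Real.log S.κ - g1.re, (hlog.sub hre).congr' ?_⟩
  filter_upwards [self_mem_nhdsWithin] with σ hσ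
  have hσ0 : (0 : ℝ) < σ := hσ
  obtain ⟨h1, h2⟩ := hZpos σ hσ0
  rw [Real.log_mul hσ0.ne' h1.ne', h2, one_div, Real.log_inv]
  ring

/-- the second part -/
private theorem spl_chr {l : ℕ} [Fact l.Prime] (S : SysL l) (c : S.T) (hc : c ≠ 0) :
    ∃ L : ℂ, Tendsto (fun σ : ℝ =>
      ∑' p : S.P, ec (c ⬝ᵥ S.ty p) * (((S.N p : ℝ) ^ (-(1 + σ)) : ℝ) : ℂ)) (𝓝[>] 0) (𝓝 L) := by
  classical
  obtain ⟨C₀, hC₀⟩ := spl_card S
  obtain ⟨K, hK⟩ := S.prm c hc
  set x : S.P → ℂ := fun p => ec (c ⬝ᵥ S.ty p) with hx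
  have hx1 : ∀ p, ‖x p‖ ≤ 1 := fun p => by rw [hx]; exact (spl_ec_norm _).le
  have hg := spl_g_lim S.toPre C₀ hC₀ hx1
  set g1 : ℂ := ∑' p, spl_g (spl_u S.toPre x 1 p) with hg1
  obtain ⟨L1, hL1⟩ := spl_abel S.toPre (fun f => f.prod fun p n => x p ^ n)
    (spl_prod_le S.toPre hx1) C₀ hC₀ S.C S.δ S.δ_pos (by
      intro X hX
      have h1 := S.chr 0 c (Or.inr hc) X hX
      have h2 : ∀ f : S.P →₀ ℕ, chc S.toPre (0 : S.P →₀ ZMod l).support
          (fun p => ((0 : S.P →₀ ZMod l).sum fun q t => t * S.s q p) + c ⬝ᵥ S.ty p) f =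
          f.prod fun p n => x p ^ n := by
        intro f
        unfold chc
        rw [if_pos (by rw [Finsupp.support_zero]; exact Finset.disjoint_empty_right _)]
        unfold Finsupp.prod Finsupp.sum
        rw [spl_ec_sum]
        refine Finset.prod_congr rfl fun p _ => ?_
        rw [spl_ec_mul]
        simp [hx]
      simp only [h2] at h1
      rw [Finsupp.support_zero] at h1
      have h3 : S.toPre.nm ∅ = 1 := by unfold Pre.nm; simp
      rw [h3, Nat.cast_one, Real.one_rpow, mul_one] at h1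
      exact h1)
  have hL : ∀ σ : ℝ, ∑' f : S.P →₀ ℕ, (f.prod fun p n => x p ^ n) *
      (((S.toPre.nf f : ℝ) ^ (-(1 + σ)) : ℝ) : ℂ) = spl_L S.toPre x (1 + σ) := fun σ => rfl
  simp only [hL] at hL1
  set Gs : ℝ → ℂ := fun σ => ∑' p, spl_g (spl_u S.toPre x (1 + σ) p) with hGs
  set Ss : ℝ → ℂ := fun σ => ∑' p, spl_u S.toPre x (1 + σ) p with hSs
  have heul : ∀ σ : ℝ, 0 < σ → spl_L S.toPre x (1 + σ) = Complex.exp (Ss σ + Gs σ) :=
    fun σ hσ => spl_euler S.toPre C₀ hC₀ hx1 (show 1 < 1 + σ by linarith)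
  -- the value at one is not zero
  have hne : L1 ≠ 0 := by
    set K2 : ℝ := ∑' p : S.P, (S.N p : ℝ) ^ (-2 : ℝ) with hK2
    have h1 : ∀ᶠ σ in 𝓝[>] (0 : ℝ), Real.exp (-K - K2) ≤ ‖spl_L S.toPre x (1 + σ)‖ := by
      filter_upwards [Ioo_mem_nhdsGT (show (0 : ℝ) < 1 by norm_num)] with σ hσ
      rw [heul σ hσ.1, Complex.norm_exp]
      refine Real.exp_le_exp.2 ?_
      have h2 : ‖Ss σ‖ ≤ K := hK (1 + σ) (by linarith [hσ.1]) (by linarith [hσ.2])
      have h3 : ‖Gs σ‖ ≤ K2 := by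
        have hs1 : (1 : ℝ) ≤ 1 + σ := by linarith [hσ.1]
        refine (norm_tsum_le_tsum_norm (spl_sum_g S.toPre C₀ hC₀ hx1 hs1).norm).trans ?_
        exact (spl_sum_g S.toPre C₀ hC₀ hx1 hs1).norm.tsum_le_tsum
          (spl_gu_le S.toPre hx1 hs1) (pre_summable_N S.toPre C₀ hC₀ 2 (by norm_num))
      have h4 := Complex.abs_re_le_norm (Ss σ)
      have h5 := Complex.abs_re_le_norm (Gs σ)
      rw [abs_le] at h4 h5
      rw [Complex.add_re]
      linarith [h4.1, h5.1]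
    have h6 : Real.exp (-K - K2) ≤ ‖L1‖ := ge_of_tendsto hL1.norm h1
    intro h7
    rw [h7, norm_zero] at h6
    linarith [Real.exp_pos (-K - K2)]
  have hexp : Tendsto (fun σ => Complex.exp (Ss σ)) (𝓝[>] 0) (𝓝 (L1 * Complex.exp (-g1))) := by
    have h1 : Tendsto (fun σ => Complex.exp (-Gs σ)) (𝓝[>] 0) (𝓝 (Complex.exp (-g1))) :=
      (Complex.continuous_exp.tendsto _).comp hg.neg
    refine (hL1.mul h1).congr' ?_
    filter_upwards [self_mem_nhdsWithin] with σ hσ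
    have hσ0 : (0 : ℝ) < σ := hσ
    rw [heul σ hσ0, ← Complex.exp_add]
    congr 1
    ring
  exact spl_lift (spl_u_cont S.toPre C₀ hC₀ hx1) (mul_ne_zero hne (Complex.exp_ne_zero _)) hexp

/-- limits of prime sums -/
theorem spl : SPl := by
  intro l _ S
  exact ⟨spl_one S, fun c hc => spl_chr S c hc⟩

end Pool.Agent.H92.EL
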