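import Pool.Agent.H92.EL.CSm
import Pool.Agent.H98.MF.SBase
import Pool.Agent.D8.BExp

/-!
# Project ELL (MP_a3214d), block C, row C8: one variable, trivial bounds
-/

set_option autoImplicit false

open scoped BigOperators Topology
open Filter

namespace Pool.Agent.H92.EL

open Pool.Agent.H98.MF (Pre)

section

variable {l : ℕ} [Fact l.Prime]

theorem ctr_N (S : SysL l) (p : S.P) : (2 : ℝ) ≤ S.N p := by exact_mod_cast S.two_le p

theorem ctr_ls (S : SysL l) (a : ℕ) (x : Finset S.P) :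
    S.ls x ^ a = ∏ p ∈ x, Real.exp (a * (2 / (S.N p : ℝ))) := by
  unfold SysL.ls
  rw [← Real.exp_nat_mul, ← Real.exp_sum, Finset.mul_sum]

/-- the weight is a power of the norm -/
theorem ctr_pw (S : SysL l) (s : ℝ) (x : Finset S.P) :
    S.pws s x = (S.nm x : ℝ) ^ (-s) := by
  unfold SysL.pws Pre.nm
  rw [Nat.cast_prod, Real.finset_prod_rpow _ _ fun p _ => Nat.cast_nonneg _]

/-- the factor of a prime -/
noncomputable def ctr_u (S : SysL l) (κ : ℝ) (a : ℕ) (τ : S.P → ℝ) (s : ℝ) (p : S.P) : ℝ :=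
  κ * τ p * Real.exp (a * (2 / (S.N p : ℝ))) * (S.N p : ℝ) ^ (-s)

theorem ctr_prod (S : SysL l) (κ : ℝ) (a : ℕ) (τ : S.P → ℝ) (s : ℝ) (x : Finset S.P) :
    (∏ p ∈ x, κ * τ p) * S.ls x ^ a * S.pws s x = ∏ p ∈ x, ctr_u S κ a τ s p := by
  rw [ctr_ls]
  unfold SysL.pws
  rw [← Finset.prod_mul_distrib, ← Finset.prod_mul_distrib]
  rfl

theorem ctr_u0 {S : SysL l} {B κ : ℝ} {a : ℕ} {τ : S.P → ℝ} (hκ : 0 ≤ κ) (h : S.Tk B τ) (s : ℝ)
    (p : S.P) : 0 ≤ ctr_u S κ a τ s p := by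
  unfold ctr_u
  have h1 := (h p).1
  have h2 : (0 : ℝ) ≤ (S.N p : ℝ) ^ (-s) := Real.rpow_nonneg (Nat.cast_nonneg _) _
  positivity

/-- the bound for the factor of a prime -/
theorem ctr_ub {S : SysL l} {B κ : ℝ} {a : ℕ} {τ : S.P → ℝ} (hκ : 0 ≤ κ) (h : S.Tk B τ) {s : ℝ}
    (hs : 1 ≤ s) (p : S.P) : ctr_u S κ a τ s p ≤ κ * (S.N p : ℝ) ^ (-s) +
      κ * ((|B| + 2 * a) * Real.exp a) * (S.N p : ℝ) ^ (-(3 / 2) : ℝ) := by
  obtain ⟨h1, h2⟩ := h p
  have hN := ctr_N S p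
  have hN0 : (0 : ℝ) < S.N p := by linarith
  have hN1 : (1 : ℝ) ≤ S.N p := by linarith
  set r : ℝ := (S.N p : ℝ) ^ (-(1 / 2) : ℝ) with hr
  have hr0 : 0 ≤ r := Real.rpow_nonneg hN0.le _
  set t : ℝ := a * (2 / (S.N p : ℝ)) with ht
  have ha : (0 : ℝ) ≤ a := Nat.cast_nonneg _
  have ht0 : 0 ≤ t := by positivity
  have ht1 : t ≤ a := by
    have e1 : 2 / (S.N p : ℝ) ≤ 1 := by
      rw [div_le_one hN0]
      exact hN
    calc t ≤ a * 1 := mul_le_mul_of_nonneg_left e1 ha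
      _ = a := mul_one _
  have ht2 : t ≤ 2 * a * r := by
    have e1 : (S.N p : ℝ)⁻¹ ≤ r := by
      rw [hr, ← Real.rpow_neg_one]
      exact Real.rpow_le_rpow_of_exponent_le hN1 (by norm_num)
    calc t = 2 * a * (S.N p : ℝ)⁻¹ := by rw [ht]; ring
      _ ≤ 2 * a * r := mul_le_mul_of_nonneg_left e1 (by positivity)
  have he : Real.exp t ≤ Real.exp a := Real.exp_le_exp.2 ht1
  have he0 : 0 < Real.exp t := Real.exp_pos _
  have he1 : Real.exp t - 1 ≤ t * Real.exp t := by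
    have e1 := Real.add_one_le_exp (-t)
    have e2 : Real.exp (-t) * Real.exp t = 1 := by
      rw [← Real.exp_add, neg_add_cancel, Real.exp_zero]
    nlinarith
  have hτ : τ p ≤ 1 + |B| * r := by
    have e1 := (abs_le.1 h2).2
    have e2 : B * r ≤ |B| * r := mul_le_mul_of_nonneg_right (le_abs_self B) hr0
    linarith
  have hm : τ p * Real.exp t ≤ 1 + (|B| + 2 * a) * Real.exp a * r := by
    have e1 : τ p * Real.exp t ≤ (1 + |B| * r) * Real.exp t :=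
      mul_le_mul_of_nonneg_right hτ he0.le
    have e2 : (1 + |B| * r) * Real.exp t = 1 + (Real.exp t - 1) + |B| * r * Real.exp t := by
      ring
    have e3 : |B| * r * Real.exp t ≤ |B| * r * Real.exp a :=
      mul_le_mul_of_nonneg_left he (mul_nonneg (abs_nonneg _) hr0)
    have e4 : t * Real.exp t ≤ 2 * a * r * Real.exp a :=
      mul_le_mul ht2 he he0.le (by positivity)
    have e5 : (|B| + 2 * a) * Real.exp a * r = |B| * r * Real.exp a + 2 * a * r * Real.exp a := by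
      ring
    linarith
  have hps : (0 : ℝ) ≤ (S.N p : ℝ) ^ (-s) := Real.rpow_nonneg hN0.le _
  have hrs : r * (S.N p : ℝ) ^ (-s) ≤ (S.N p : ℝ) ^ (-(3 / 2) : ℝ) := by
    rw [hr, ← Real.rpow_add hN0]
    exact Real.rpow_le_rpow_of_exponent_le hN1 (by linarith)
  have hc : 0 ≤ κ * ((|B| + 2 * a) * Real.exp a) := by positivity
  calc ctr_u S κ a τ s p = κ * (τ p * Real.exp t) * (S.N p : ℝ) ^ (-s) := by
        unfold ctr_u
        rw [← mul_assoc]
    _ ≤ κ * (1 + (|B| + 2 * a) * Real.exp a * r) * (S.N p : ℝ) ^ (-s) :=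
        mul_le_mul_of_nonneg_right (mul_le_mul_of_nonneg_left hm hκ) hps
    _ = κ * (S.N p : ℝ) ^ (-s) + κ * ((|B| + 2 * a) * Real.exp a) * (r * (S.N p : ℝ) ^ (-s)) := by
        ring
    _ ≤ _ := by
        have := mul_le_mul_of_nonneg_left hrs hc
        linarith

theorem ctr_sum {S : SysL l} {B κ : ℝ} {a : ℕ} {τ : S.P → ℝ} (hκ : 0 ≤ κ) (h : S.Tk B τ) {s : ℝ}
    (hs : 1 < s) : Summable (ctr_u S κ a τ s) ∧
      ∑' p, ctr_u S κ a τ s p ≤ κ * ∑' p : S.P, (S.N p : ℝ) ^ (-s) +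
        κ * ((|B| + 2 * a) * Real.exp a) * ∑' p : S.P, (S.N p : ℝ) ^ (-(3 / 2) : ℝ) := by
  have s1 : Summable fun p : S.P => κ * (S.N p : ℝ) ^ (-s) := (csm_N S hs).mul_left κ
  have s2 : Summable fun p : S.P => κ * ((|B| + 2 * a) * Real.exp a) *
      (S.N p : ℝ) ^ (-(3 / 2) : ℝ) := (csm_N S (s := 3 / 2) (by norm_num)).mul_left _
  have s3 : Summable (ctr_u S κ a τ s) :=
    Summable.of_nonneg_of_le (fun p => ctr_u0 hκ h s p) (fun p => ctr_ub hκ h hs.le p)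
      (s1.add s2)
  refine ⟨s3, ?_⟩
  rw [← tsum_mul_left, ← tsum_mul_left, ← s1.tsum_add s2]
  exact s3.tsum_le_tsum (fun p => ctr_ub hκ h hs.le p) (s1.add s2)

end

/-- Row ELL-C8. -/
theorem strL : STrL := by
  intro l _ S B κ a hκ
  obtain ⟨K, hK⟩ := S.prm0
  set Z : ℝ := κ * ((|B| + 2 * a) * Real.exp a) * ∑' p : S.P, (S.N p : ℝ) ^ (-(3 / 2) : ℝ)
    with hZ
  have main : ∀ τ : S.P → ℝ, S.Tk B τ → ∀ σ : ℝ, 0 < σ → σ ≤ 1 →
      (Summable fun x : Finset S.P => (∏ p ∈ x, κ * τ p) * S.ls x ^ a * S.pws (1 + σ) x) ∧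
      ∑' x : Finset S.P, (∏ p ∈ x, κ * τ p) * S.ls x ^ a * S.pws (1 + σ) x ≤
        Real.exp (κ * K + Z) * σ ^ (-κ) := by
    intro τ hτ σ h0 h1
    obtain ⟨s1, s2⟩ := ctr_sum (a := a) hκ hτ (s := 1 + σ) (by linarith)
    obtain ⟨e1, -, e2, -⟩ := Pool.Agent.D8.sExp S.P _ s1
    simp only [ctr_prod]
    refine ⟨e1, (e2 fun p => ctr_u0 hκ hτ _ p).trans ?_⟩
    have e3 : ∑' p : S.P, (S.N p : ℝ) ^ (-(1 + σ)) ≤ Real.log (1 / σ) + K := by
      have e4 := (abs_le.1 (hK (1 + σ) (by linarith) (by linarith))).2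
      rw [add_sub_cancel_left] at e4
      linarith
    have e5 : σ ^ (-κ) = Real.exp (κ * Real.log (1 / σ)) := by
      rw [Real.rpow_def_of_pos h0, one_div, Real.log_inv]
      congr 1
      ring
    rw [e5, ← Real.exp_add]
    refine Real.exp_le_exp.2 (s2.trans ?_)
    have e6 := mul_le_mul_of_nonneg_left e3 hκ
    rw [← hZ]
    linarith
  refine ⟨2 * Real.exp (κ * K + Z), by positivity, fun τ hτ σ h0 h1 => ?_⟩
  obtain ⟨m1, m2⟩ := main τ hτ σ h0 h1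
  refine ⟨m1, m2.trans ?_, fun J => ?_⟩
  · have e1 : 0 ≤ Real.exp (κ * K + Z) * σ ^ (-κ) :=
      mul_nonneg (Real.exp_pos _).le (Real.rpow_nonneg h0.le _)
    linarith
  · have hJ : (0 : ℝ) < 1 + (J : ℝ) := by positivity
    have hJ1 : (1 : ℝ) ≤ 1 + (J : ℝ) := by
      have : (0 : ℝ) ≤ J := Nat.cast_nonneg _
      linarith
    obtain ⟨n1, n2⟩ := main τ hτ (1 / (1 + (J : ℝ))) (by positivity)
      ((div_le_one hJ).2 hJ1)
    have e0 : ∀ x : Finset S.P, 0 ≤ (∏ p ∈ x, κ * τ p) * S.ls x ^ a := fun x => by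
      refine mul_nonneg (Finset.prod_nonneg fun p _ => mul_nonneg hκ (hτ p).1) ?_
      unfold SysL.ls
      positivity
    have e1 : ∀ x ∈ S.bx (2 ^ J), (∏ p ∈ x, κ * τ p) * S.ls x ^ a * S.pws 1 x ≤
        2 * ((∏ p ∈ x, κ * τ p) * S.ls x ^ a * S.pws (1 + 1 / (1 + (J : ℝ))) x) := by
      intro x hx
      rw [S.mem_bx] at hx
      have f0 := S.nm_posr x
      have f1 := S.one_le_nmr x
      have f2 : S.pws 1 x = (S.nm x : ℝ) ^ (1 / (1 + (J : ℝ))) *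
          S.pws (1 + 1 / (1 + (J : ℝ))) x := by
        rw [ctr_pw, ctr_pw, ← Real.rpow_add f0]
        congr 1
        ring
      have f3 : (S.nm x : ℝ) ^ (1 / (1 + (J : ℝ))) ≤ 2 := by
        calc (S.nm x : ℝ) ^ (1 / (1 + (J : ℝ))) ≤ ((2 : ℝ) ^ J) ^ (1 / (1 + (J : ℝ))) :=
              Real.rpow_le_rpow f0.le hx (by positivity)
          _ = (2 : ℝ) ^ ((J : ℝ) * (1 / (1 + (J : ℝ)))) := by
              rw [← Real.rpow_natCast, ← Real.rpow_mul (by norm_num)]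
          _ ≤ (2 : ℝ) ^ (1 : ℝ) := by
              refine Real.rpow_le_rpow_of_exponent_le (by norm_num) ?_
              rw [mul_one_div, div_le_one hJ]
              linarith
          _ = 2 := Real.rpow_one _
      have f4 : 0 ≤ S.pws (1 + 1 / (1 + (J : ℝ))) x := by
        rw [ctr_pw]
        exact Real.rpow_nonneg f0.le _
      have f5 := mul_le_mul_of_nonneg_left (mul_le_mul_of_nonneg_right f3 f4) (e0 x)
      rw [f2]
      linarith
    calc ∑ x ∈ S.bx (2 ^ J), (∏ p ∈ x, κ * τ p) * S.ls x ^ a * S.pws 1 x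
        ≤ ∑ x ∈ S.bx (2 ^ J), 2 * ((∏ p ∈ x, κ * τ p) * S.ls x ^ a *
          S.pws (1 + 1 / (1 + (J : ℝ))) x) := Finset.sum_le_sum e1
      _ = 2 * ∑ x ∈ S.bx (2 ^ J), (∏ p ∈ x, κ * τ p) * S.ls x ^ a *
          S.pws (1 + 1 / (1 + (J : ℝ))) x := (Finset.mul_sum _ _ _).symm
      _ ≤ 2 * ∑' x : Finset S.P, (∏ p ∈ x, κ * τ p) * S.ls x ^ a *
          S.pws (1 + 1 / (1 + (J : ℝ))) x := by
          refine mul_le_mul_of_nonneg_left (n1.sum_le_tsum _ fun x _ => ?_) (by norm_num)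
          refine mul_nonneg (e0 x) ?_
          rw [ctr_pw]
          exact Real.rpow_nonneg (S.nm_posr x).le _
      _ ≤ 2 * (Real.exp (κ * K + Z) * (1 / (1 + (J : ℝ))) ^ (-κ)) :=
          mul_le_mul_of_nonneg_left n2 (by norm_num)
      _ = 2 * Real.exp (κ * K + Z) * (1 + (J : ℝ)) ^ κ := by
          rw [one_div, Real.inv_rpow hJ.le, Real.rpow_neg hJ.le, inv_inv]
          ring

end Pool.Agent.H92.EL
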