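import Pool.Agent.H92.EL.CFinA

/-!
# Project T4 (MP_a3214d), block C: the uniform bound for the assembly
-/

set_option autoImplicit false

open scoped BigOperators Topology
open Filter

namespace Pool.Agent.H92.EL

section

variable {l : ℕ} [Fact l.Prime] (S : SysL l) {d n : ℕ} (Bd : SysL.BD l d n)

theorem fu_nv (c : SysL.VV l d → SysL.VV l n → S.El) (v : SysL.VV l d) :
    S.nv Bd c v ≤ l ^ n := by
  classical
  unfold SysL.nv
  refine (Finset.card_le_univ _).trans (le_of_eq ?_)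
  show Fintype.card (Fin n → ZMod l) = _
  rw [Fintype.card_fun, ZMod.card, Fintype.card_fin]

theorem fu_bV (R : Finset (SysL.VV l d)) (c : SysL.VV l d → SysL.VV l n → S.El) :
    S.bV Bd R c ≤ R.card * l ^ n := by
  unfold SysL.bV
  refine (Finset.sum_le_sum fun v _ => fu_nv S Bd c v).trans (le_of_eq ?_)
  rw [Finset.sum_const, smul_eq_mul]

theorem fu_ty0 (ι : Type) [Fintype ι] (y : Finset S.P) : S.ty0 ι y ≤ 1 := by
  have h : S.ty0 ι y = ∏ p ∈ y, fxt1 S (Fintype.card ι * Fintype.card S.D) p := rfl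
  rw [h]
  exact Finset.prod_le_one (fun p _ => (fxt1_pos S _ p).le) fun p _ => fxt1_le S _ p

theorem fu_ty0' (ι : Type) [Fintype ι] (y : Finset S.P) : 0 ≤ S.ty0 ι y := by
  have h : S.ty0 ι y = ∏ p ∈ y, fxt1 S (Fintype.card ι * Fintype.card S.D) p := rfl
  rw [h]
  exact Finset.prod_nonneg fun p _ => (fxt1_pos S _ p).le

theorem fu_lo {A0 : ℝ} (hA : 0 ≤ A0) (y : Finset S.P) : 1 ≤ S.lo A0 y := by
  have h : S.lo A0 y = ∏ p ∈ y, fxt2 S A0 p := rfl
  rw [h]
  have h2 : ∏ p ∈ y, (1 : ℝ) ≤ ∏ p ∈ y, fxt2 S A0 p :=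
    Finset.prod_le_prod (fun _ _ => zero_le_one) fun p _ => fxt2_one S hA p
  rwa [Finset.prod_const_one] at h2

end

/-- the mean of the constant function -/
theorem fu_avg {l : ℕ} [Fact l.Prime] (S : SysL l) {n : ℕ} {RZ : Finset (SysL.VV l n)}
    (hRZ : S.Rep RZ) (i : Fintype (RZ → S.T)) :
    (1 / ((l : ℝ) ^ S.m) ^ Fintype.card RZ) *
      (@Finset.univ (RZ → S.T) i).sum (fun _ => (1 : ℝ)) = 1 := by
  have h6 := fx_avg' S hRZ 0 (fun _ => 1) i
  rw [h6]
  have hl : (0 : ℝ) < l := by exact_mod_cast (Fact.out : l.Prime).pos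
  rw [Finset.sum_const, Finset.card_univ, Fintype.card_fun, Fintype.card_fin, nsmul_eq_mul]
  have h7 : Fintype.card S.T = l ^ S.m := by
    show Fintype.card (Fin S.m → ZMod l) = _
    rw [Fintype.card_fun, ZMod.card, Fintype.card_fin]
  rw [h7]
  push_cast
  field_simp

/-- an elementary bound for logarithms -/
theorem fu_log {Y : ℝ} (hY : 2 ≤ Y) : 1 ≤ 2 * Real.log Y := by
  have h1 := Real.log_two_gt_d9
  have h2 : Real.log 2 ≤ Real.log Y := Real.log_le_log (by norm_num) hY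
  linarith

theorem sunf (h1 : SUni) (h2 : SCcL) (hE : SExpd) : SUnf := by
  classical
  intro l _ S d n Bd R RZ ε hR hRZ hn hε
  have : Nonempty RZ := fx_ne S hRZ hn
  obtain ⟨κ1, A0, C, hκ, hA0, hC, hcc⟩ := h2 l S RZ
  obtain ⟨C1, hC1, hU⟩ := h1 l S d n Bd R A0 ε hR hε
  have hβ : 1 ≤ Fintype.card RZ := Fintype.card_pos
  refine ⟨(κ1 + C) * (Real.exp 1 * (C1 * 2 ^ (R.card * l ^ n))) * 3 ^ (Fintype.card RZ - 1),
    by positivity, fun c M Φ hA hM hs hG Y hY => ?_⟩
  have hY0 : 0 < Y := by linarith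
  have hY1 : 1 ≤ Y := by linarith
  have hlY := fu_log hY
  have hlY0 : 0 < Real.log Y := by linarith
  have hτ := fxt2_Tk S hA0
  have hn1 : 0 < (S.nm M : ℝ) := S.nm_posr M
  -- the inner sums
  have hkey : ∀ x ∈ (fxn_fin S (ι := R) ⌊Y⌋₊).toFinset,
      fxf S Bd R RZ c M Φ (fun _ _ => 1) x (Y / fxn S x) ≤
        (κ1 + C) * (Y * (1 + Real.log Y) ^ (Fintype.card RZ - 1)) *
          fxb S Bd R c M Φ (fun _ => 1) (fxt2 S A0) x := by
    intro x hx
    have hx1 : (fxn S x : ℝ) ≤ Y := by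
      rw [Set.Finite.mem_toFinset] at hx
      exact (Nat.le_floor_iff hY0.le).1 hx
    have hn0 := fxn_pos S x
    have hn1 : (1 : ℝ) ≤ fxn S x := by exact_mod_cast fxn_one S x
    by_cases hc : fxC S Bd R c M Φ x
    · have ht : 1 ≤ Y / fxn S x := by
        rw [le_div_iff₀ hn0, one_mul]
        exact hx1
      have htY : Y / fxn S x ≤ Y := div_le_self hY0.le hn1
      have hlt : 0 ≤ Real.log (Y / fxn S x) := Real.log_nonneg ht
      have hlt2 : Real.log (Y / fxn S x) ≤ Real.log Y := Real.log_le_log (by linarith) htY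
      have hb := fxb_mul S Bd R c M Φ (fun _ => 1) (fxt2 S A0) hc
      unfold fxf
      rw [if_pos hc]
      have h4 := hcc (S.un x) (fx_gd S hc.1) (fun _ => 1) (fun _ => by simp) _ ht
      rw [fu_avg S hRZ _, mul_one] at h4
      have hlo := fu_lo S hA0 (S.un x)
      have hty := fu_ty0 S RZ (S.un x)
      have hty' := fu_ty0' S RZ (S.un x)
      have hWl : fxW S n (fxt2 S A0) x = ((S.asg n (S.un x)).card : ℝ) * S.lo A0 (S.un x) := by
        rw [fx_asg]
        rfl
      rw [one_mul] at hb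
      set t := Y / (fxn S x : ℝ) with htd
      have hP : 0 ≤ (1 + Real.log t) ^ (Fintype.card RZ - 1) := by positivity
      have h6 : (1 + Real.log t) ^ ((Fintype.card RZ : ℝ) - 3 / 2) ≤
          (1 + Real.log t) ^ (Fintype.card RZ - 1) := by
        rw [← Real.rpow_natCast (1 + Real.log t) (Fintype.card RZ - 1)]
        refine Real.rpow_le_rpow_of_exponent_le (by linarith) ?_
        rw [Nat.cast_sub hβ]
        push_cast
        linarith
      have h7 : Real.log t ^ (Fintype.card RZ - 1) ≤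
          (1 + Real.log t) ^ (Fintype.card RZ - 1) :=
        pow_le_pow_left₀ hlt (by linarith) _
      have h8 : (1 + Real.log t) ^ (Fintype.card RZ - 1) ≤
          (1 + Real.log Y) ^ (Fintype.card RZ - 1) :=
        pow_le_pow_left₀ (by linarith) (by linarith) _
      have ht0 : 0 ≤ t := by linarith
      have h9 : S.CC (S.un x) (fun _ : RZ → S.T => (1 : ℝ)) t ≤
          (κ1 + C) * S.lo A0 (S.un x) * (t * (1 + Real.log Y) ^ (Fintype.card RZ - 1)) := by
        have h10 := (abs_le.1 h4).2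
        have h11 : κ1 * S.ty0 RZ (S.un x) * (t * Real.log t ^ (Fintype.card RZ - 1)) ≤
            κ1 * S.lo A0 (S.un x) * (t * (1 + Real.log Y) ^ (Fintype.card RZ - 1)) := by
          refine mul_le_mul (mul_le_mul_of_nonneg_left (hty.trans hlo) hκ.le)
            (mul_le_mul_of_nonneg_left (h7.trans h8) ht0) ?_ ?_
          · exact mul_nonneg ht0 (pow_nonneg hlt _)
          · exact mul_nonneg hκ.le (le_trans zero_le_one hlo)
        have h12 : C * S.lo A0 (S.un x) * t * (1 + Real.log t) ^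
            ((Fintype.card RZ : ℝ) - 3 / 2) ≤
            C * S.lo A0 (S.un x) * t * (1 + Real.log Y) ^ (Fintype.card RZ - 1) :=
          mul_le_mul_of_nonneg_left (h6.trans h8)
            (mul_nonneg (mul_nonneg hC (le_trans zero_le_one hlo)) ht0)
        calc _ ≤ _ + _ := sub_le_iff_le_add.1 h10
          _ ≤ _ := add_le_add h12 h11
          _ = _ := by ring
      calc ∑ z ∈ S.asg n (S.un x), S.CC (S.un x) (fun _ : RZ → S.T => (1 : ℝ)) t
          ≤ ∑ z ∈ S.asg n (S.un x),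
            (κ1 + C) * S.lo A0 (S.un x) * (t * (1 + Real.log Y) ^ (Fintype.card RZ - 1)) :=
            Finset.sum_le_sum fun _ _ => h9
        _ = (κ1 + C) * (t * (1 + Real.log Y) ^ (Fintype.card RZ - 1)) *
            (((S.asg n (S.un x)).card : ℝ) * S.lo A0 (S.un x)) := by
            rw [Finset.sum_const, nsmul_eq_mul]
            ring
        _ = (κ1 + C) * (t * (1 + Real.log Y) ^ (Fintype.card RZ - 1)) *
            (fxb S Bd R c M Φ (fun _ => 1) (fxt2 S A0) x * fxn S x) := by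
            rw [hb, hWl]
        _ = (κ1 + C) * ((t * fxn S x) * (1 + Real.log Y) ^ (Fintype.card RZ - 1)) *
            fxb S Bd R c M Φ (fun _ => 1) (fxt2 S A0) x := by ring
        _ = _ := by rw [htd, div_mul_cancel₀ _ hn0.ne']
    · unfold fxf fxb
      rw [if_neg hc, if_neg hc, mul_zero]
  -- the exponent
  set Y' := max Y (Real.exp 1) with hY'
  have hY'0 : 0 < Y' := lt_of_lt_of_le hY0 (le_max_left _ _)
  have hl1 : 1 ≤ Real.log Y' := by
    rw [Real.le_log_iff_exp_le hY'0]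
    exact le_max_right _ _
  have hl2 : Real.log Y ≤ Real.log Y' := Real.log_le_log hY0 (le_max_left _ _)
  have hl3 : Real.log Y' ≤ 2 * Real.log Y := by
    rcases max_cases Y (Real.exp 1) with ⟨h, -⟩ | ⟨h, -⟩
    · rw [hY', h]
      linarith
    · rw [hY', h, Real.log_exp]
      exact hlY
  set σ : ℝ := 1 / Real.log Y' with hσ
  have hσ0 : 0 < σ := by positivity
  have hσ1 : σ ≤ 1 := by
    rw [hσ, div_le_one (by linarith)]
    exact hl1
  obtain ⟨th, -, -, hS⟩ := hE l S d n Bd R c M Φ (fun _ => 1) _ _ hτ hA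
  have hsum : Summable fun x : R → Finset S.P =>
      fxb S Bd R c M Φ (fun _ => 1) (fxt2 S A0) x * (fxn S x : ℝ) ^ (-σ) := by
    rw [fx_sum]
    exact (hS σ hσ0).1
  have hFF := hU (fxt2 S A0) c M Φ hτ hA hM hs hG σ hσ0 hσ1
  have hb0 := fxb_nonneg S Bd R c M Φ (θ := fun _ => 1) (fun _ => zero_le_one)
    (fun p => le_trans zero_le_one (fxt2_one S hA0 p))
  have hfin : ∑ x ∈ (fxn_fin S (ι := R) ⌊Y⌋₊).toFinset,
      fxb S Bd R c M Φ (fun _ => 1) (fxt2 S A0) x ≤
      Real.exp 1 * S.FF Bd R c M Φ (fun _ => 1) (fxt2 S A0) (1 + σ) := by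
    rw [← fx_tsum]
    have h13 : ∀ x ∈ (fxn_fin S (ι := R) ⌊Y⌋₊).toFinset,
        fxb S Bd R c M Φ (fun _ => 1) (fxt2 S A0) x ≤
          Real.exp 1 * (fxb S Bd R c M Φ (fun _ => 1) (fxt2 S A0) x *
            (fxn S x : ℝ) ^ (-σ)) := by
      intro x hx
      have hx1 : (fxn S x : ℝ) ≤ Y := by
        rw [Set.Finite.mem_toFinset] at hx
        exact (Nat.le_floor_iff hY0.le).1 hx
      have hn0 := fxn_pos S x
      have h14 : (fxn S x : ℝ) ^ σ ≤ Real.exp 1 := by
        rw [Real.rpow_def_of_pos hn0]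
        refine Real.exp_le_exp.2 ?_
        have h15 : Real.log (fxn S x) ≤ Real.log Y' :=
          (Real.log_le_log hn0 hx1).trans hl2
        rw [hσ, mul_one_div, div_le_one (by linarith)]
        exact h15
      have h16 : 1 ≤ Real.exp 1 * (fxn S x : ℝ) ^ (-σ) := by
        rw [Real.rpow_neg hn0.le, ← div_eq_mul_inv, le_div_iff₀ (Real.rpow_pos_of_pos hn0 _),
          one_mul]
        exact h14
      calc _ = fxb S Bd R c M Φ (fun _ => 1) (fxt2 S A0) x * 1 := (mul_one _).symm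
        _ ≤ fxb S Bd R c M Φ (fun _ => 1) (fxt2 S A0) x *
            (Real.exp 1 * (fxn S x : ℝ) ^ (-σ)) := mul_le_mul_of_nonneg_left h16 (hb0 x)
        _ = _ := by ring
    calc _ ≤ ∑ x ∈ (fxn_fin S (ι := R) ⌊Y⌋₊).toFinset,
          Real.exp 1 * (fxb S Bd R c M Φ (fun _ => 1) (fxt2 S A0) x *
            (fxn S x : ℝ) ^ (-σ)) := Finset.sum_le_sum h13
      _ = Real.exp 1 * ∑ x ∈ (fxn_fin S (ι := R) ⌊Y⌋₊).toFinset,
          (fxb S Bd R c M Φ (fun _ => 1) (fxt2 S A0) x * (fxn S x : ℝ) ^ (-σ)) := by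
          rw [Finset.mul_sum]
      _ ≤ _ := mul_le_mul_of_nonneg_left (hsum.sum_le_tsum _ fun x _ =>
          mul_nonneg (hb0 x) (Real.rpow_nonneg (Nat.cast_nonneg _) _)) (Real.exp_pos 1).le
  have hσb : σ ^ (-(S.bV Bd R c : ℝ)) ≤
      2 ^ (R.card * l ^ n) * Real.log Y ^ S.bV Bd R c := by
    rw [Real.rpow_neg hσ0.le, Real.rpow_natCast, hσ, one_div, inv_pow, inv_inv]
    calc Real.log Y' ^ S.bV Bd R c ≤ (2 * Real.log Y) ^ S.bV Bd R c :=
          pow_le_pow_left₀ (by linarith) hl3 _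
      _ = 2 ^ S.bV Bd R c * Real.log Y ^ S.bV Bd R c := mul_pow _ _ _
      _ ≤ _ := mul_le_mul_of_nonneg_right
          (pow_le_pow_right₀ (by norm_num) (fu_bV S Bd R c)) (pow_nonneg hlY0.le _)
  have hlg : (1 + Real.log Y) ^ (Fintype.card RZ - 1) ≤
      3 ^ (Fintype.card RZ - 1) * Real.log Y ^ (Fintype.card RZ - 1) := by
    rw [← mul_pow]
    exact pow_le_pow_left₀ (by linarith) (by linarith) _
  have hexp : S.bV Bd R c + RZ.card - 1 = S.bV Bd R c + (Fintype.card RZ - 1) := by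
    rw [Fintype.card_coe] at hβ ⊢
    omega
  have hnε : 0 < (S.nm M : ℝ) ^ ε := Real.rpow_pos_of_pos hn1 _
  rw [fx_NN S Bd R RZ c M Φ _ hY0.le, hexp, pow_add]
  calc _ ≤ ∑ x ∈ (fxn_fin S (ι := R) ⌊Y⌋₊).toFinset,
        (κ1 + C) * (Y * (1 + Real.log Y) ^ (Fintype.card RZ - 1)) *
          fxb S Bd R c M Φ (fun _ => 1) (fxt2 S A0) x := Finset.sum_le_sum hkey
    _ = (κ1 + C) * (Y * (1 + Real.log Y) ^ (Fintype.card RZ - 1)) *
        ∑ x ∈ (fxn_fin S (ι := R) ⌊Y⌋₊).toFinset,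
          fxb S Bd R c M Φ (fun _ => 1) (fxt2 S A0) x := by rw [Finset.mul_sum]
    _ ≤ (κ1 + C) * (Y * (3 ^ (Fintype.card RZ - 1) * Real.log Y ^ (Fintype.card RZ - 1))) *
        (Real.exp 1 * (C1 * (S.nm M : ℝ) ^ ε *
          (2 ^ (R.card * l ^ n) * Real.log Y ^ S.bV Bd R c))) := by
        refine mul_le_mul ?_ ?_ (Finset.sum_nonneg fun x _ => hb0 x) (by positivity)
        · exact mul_le_mul_of_nonneg_left (mul_le_mul_of_nonneg_left hlg hY0.le) (by positivity)
        · refine hfin.trans (mul_le_mul_of_nonneg_left (hFF.trans ?_) (Real.exp_pos 1).le)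
          exact mul_le_mul_of_nonneg_left hσb (by positivity)
    _ = _ := by ring

end Pool.Agent.H92.EL
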