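import Pool.Agent.H92.EL.CStm

/-!
# Project ELL (MP_a3214d), block C, row C16: the uniform bound (SUni) from the pattern theorem, the
combinatorics and the expansion
-/

set_option autoImplicit false

open scoped BigOperators Topology
open Filter

namespace Pool.Agent.H92.EL

open Pool.Agent.H98.MF (Pre)

/-- powers of the logarithm are small -/
private theorem cuni_log (E : ℝ) (hE : 0 ≤ E) (σ : ℝ) (h0 : 0 < σ) (h1 : σ ≤ 1) :
    (1 + Real.log (1 / σ)) ^ E ≤ (E + 2) ^ E * σ⁻¹ := by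
  have hx : 1 ≤ 1 / σ := by
    rw [le_div_iff₀ h0]
    linarith
  have hE1 : 0 < E + 1 := by linarith
  have hδ : 0 < 1 / (E + 1) := by positivity
  have hx0 : 0 ≤ 1 / σ := le_trans zero_le_one hx
  have h2 := Real.log_le_rpow_div hx0 hδ
  have h3 : (1 : ℝ) ≤ (1 / σ) ^ (1 / (E + 1)) := Real.one_le_rpow hx hδ.le
  have h4 : 1 + Real.log (1 / σ) ≤ (E + 2) * (1 / σ) ^ (1 / (E + 1)) := by
    have h5 : (1 / σ) ^ (1 / (E + 1)) / (1 / (E + 1)) = (E + 1) * (1 / σ) ^ (1 / (E + 1)) := by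
      rw [div_div_eq_mul_div, div_one, mul_comm]
    rw [h5] at h2
    linarith
  have h5 : 0 ≤ 1 + Real.log (1 / σ) := by
    have := Real.log_nonneg hx
    linarith
  have h6 : (0 : ℝ) ≤ (1 / σ) ^ (1 / (E + 1)) := le_trans zero_le_one h3
  calc (1 + Real.log (1 / σ)) ^ E ≤ ((E + 2) * (1 / σ) ^ (1 / (E + 1))) ^ E :=
        Real.rpow_le_rpow h5 h4 hE
    _ = (E + 2) ^ E * ((1 / σ) ^ (1 / (E + 1))) ^ E := Real.mul_rpow (by linarith) h6
    _ ≤ (E + 2) ^ E * σ⁻¹ := by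
        refine mul_le_mul_of_nonneg_left ?_ (Real.rpow_nonneg (by linarith) _)
        rw [← Real.rpow_mul hx0]
        have h7 : 1 / (E + 1) * E ≤ 1 := by
          rw [div_mul_eq_mul_div, one_mul, div_le_one hE1]
          linarith
        calc (1 / σ) ^ (1 / (E + 1) * E) ≤ (1 / σ) ^ (1 : ℝ) :=
              Real.rpow_le_rpow_of_exponent_le hx h7
          _ = σ⁻¹ := by rw [Real.rpow_one, one_div]

/-- **Row C16.** The uniform bound. -/
theorem suni (h1 : SPat) (h2 : SComb) (h3 : SExpd) : SUni := by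
  classical
  intro l _ S d n Bd R B ε hR hε
  have hb : ∀ u : R × SysL.VV l n, SysL.bz Bd R u u = 0 := fun u => by
    unfold SysL.bz
    rw [Bd.alt, dotProduct_zero]
  obtain ⟨E, hE, hp⟩ := h1 l S (R × SysL.VV l n) (SysL.bz Bd R) B hb
  obtain ⟨C, hC, hp⟩ := hp ε hε
  have hL : (0 : ℝ) ≤ (E + 2) ^ E := Real.rpow_nonneg (by linarith) _
  have hC' : 0 ≤ C * (1 + (E + 2) ^ E) := mul_nonneg hC (by linarith)
  refine ⟨∑ _η : R → S.T, (∑ _t : R → S.T, |(1 : ℝ)|) *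
    ∑ _U : Finset (R × SysL.VV l n), C * (1 + (E + 2) ^ E), ?_, ?_⟩
  · exact Finset.sum_nonneg fun _ _ => mul_nonneg (Finset.sum_nonneg fun _ _ => abs_nonneg _)
      (Finset.sum_nonneg fun _ _ => hC')
  intro τ c M Φ hτ hc hM hsub hG σ h0 hσ
  obtain ⟨th, ht1, -, hex⟩ := h3 l S d n Bd R c M Φ (fun _ => 1) B τ hτ hc
  obtain ⟨-, hF⟩ := hex σ h0
  have hN : (0 : ℝ) ≤ (S.nm M : ℝ) ^ ε := Real.rpow_nonneg (Nat.cast_nonneg _) _
  have hW : 0 ≤ (S.nm M : ℝ) ^ ε * σ ^ (-(S.bV Bd R c : ℝ)) :=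
    mul_nonneg hN (Real.rpow_nonneg h0.le _)
  have key : ∀ (η : R → S.T) (U : Finset (R × SysL.VV l n)),
      ‖(if Φ (U.image Prod.fst) then S.PS τ (1 + σ) (SysL.bz Bd R)
        (fun u => S.cz R c u + (η u.1, 0)) M U else 0 : ℂ)‖ ≤
      C * (1 + (E + 2) ^ E) * ((S.nm M : ℝ) ^ ε * σ ^ (-(S.bV Bd R c : ℝ))) := by
    intro η U
    by_cases hΦ : Φ (U.image Prod.fst)
    · rw [if_pos hΦ]
      have hOk : S.Ok (fun u : R × SysL.VV l n => S.cz R c u + (η u.1, 0)) M := by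
        refine ⟨hM, fun u => ?_⟩
        have e1 : (S.cz R c u + ((η u.1, 0) : S.El)).2 = (c u.1 u.2).2 := by
          show (c u.1 u.2).2 + 0 = _
          rw [add_zero]
        show (S.cz R c u + ((η u.1, 0) : S.El)).2.support ⊆ M
        rw [e1]
        exact hsub _ _
      obtain ⟨g1, g2, -⟩ := h2 l S d n Bd R c Φ hR hc hG (fun v => (η v, 0)) U hΦ
      refine (hp τ _ M hτ hOk U σ h0 hσ).trans ?_
      have hle : ∀ m : ℕ, m ≤ S.bV Bd R c →
          σ ^ (-(m : ℝ)) ≤ σ ^ (-(S.bV Bd R c : ℝ)) := by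
        intro m hm
        apply Real.rpow_le_rpow_of_exponent_ge h0 hσ
        have : (m : ℝ) ≤ (S.bV Bd R c : ℝ) := by exact_mod_cast hm
        linarith
      have hCN : 0 ≤ C * (S.nm M : ℝ) ^ ε := mul_nonneg hC hN
      by_cases hi : S.iso (SysL.bz Bd R) U = U
      · rw [if_pos hi, mul_one]
        calc C * (S.nm M : ℝ) ^ ε * σ ^ (-(S.wt (SysL.bz Bd R)
                (fun u => S.cz R c u + (η u.1, 0)) U : ℝ))
            ≤ C * (S.nm M : ℝ) ^ ε * σ ^ (-(S.bV Bd R c : ℝ)) :=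
              mul_le_mul_of_nonneg_left (hle _ g1) hCN
          _ = C * 1 * ((S.nm M : ℝ) ^ ε * σ ^ (-(S.bV Bd R c : ℝ))) := by ring
          _ ≤ _ := mul_le_mul_of_nonneg_right
              (mul_le_mul_of_nonneg_left (by linarith) hC) hW
      · rw [if_neg hi]
        have g3 := hle _ (Nat.succ_le_of_lt (g2 hi))
        set w : ℕ := S.wt (SysL.bz Bd R) (fun u => S.cz R c u + (η u.1, 0)) U with hw
        have g4 : σ ^ (-(w : ℝ)) = σ ^ (-((w + 1 : ℕ) : ℝ)) * σ := by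
          have : -(w : ℝ) = -((w + 1 : ℕ) : ℝ) + 1 := by push_cast; ring
          rw [this, Real.rpow_add h0, Real.rpow_one]
        have g5 := cuni_log E hE σ h0 hσ
        have g6 : 0 ≤ σ ^ (-((w + 1 : ℕ) : ℝ)) := Real.rpow_nonneg h0.le _
        calc C * (S.nm M : ℝ) ^ ε * (1 + Real.log (1 / σ)) ^ E * σ ^ (-(w : ℝ))
            ≤ C * (S.nm M : ℝ) ^ ε * ((E + 2) ^ E * σ⁻¹) * σ ^ (-(w : ℝ)) :=
              mul_le_mul_of_nonneg_right (mul_le_mul_of_nonneg_left g5 hCN)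
                (Real.rpow_nonneg h0.le _)
          _ = C * (E + 2) ^ E * ((S.nm M : ℝ) ^ ε * σ ^ (-((w + 1 : ℕ) : ℝ))) := by
              rw [g4]
              field_simp
          _ ≤ C * (E + 2) ^ E * ((S.nm M : ℝ) ^ ε * σ ^ (-(S.bV Bd R c : ℝ))) :=
              mul_le_mul_of_nonneg_left (mul_le_mul_of_nonneg_left g3 hN)
                (mul_nonneg hC hL)
          _ ≤ _ := mul_le_mul_of_nonneg_right
              (mul_le_mul_of_nonneg_left (by linarith) hC) hW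
    · rw [if_neg hΦ, norm_zero]
      exact mul_nonneg hC' hW
  calc S.FF Bd R c M Φ (fun _ => 1) τ (1 + σ)
      ≤ |S.FF Bd R c M Φ (fun _ => 1) τ (1 + σ)| := le_abs_self _
    _ = ‖(S.FF Bd R c M Φ (fun _ => 1) τ (1 + σ) : ℂ)‖ := by
        rw [Complex.norm_real, Real.norm_eq_abs]
    _ ≤ ∑ η : R → S.T, ‖th η‖ * ∑ U : Finset (R × SysL.VV l n),
          ‖(if Φ (U.image Prod.fst) then S.PS τ (1 + σ) (SysL.bz Bd R)
            (fun u => S.cz R c u + (η u.1, 0)) M U else 0 : ℂ)‖ := by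
        rw [hF]
        refine (norm_sum_le _ _).trans (Finset.sum_le_sum fun η _ => ?_)
        rw [norm_mul]
        exact mul_le_mul_of_nonneg_left (norm_sum_le _ _) (norm_nonneg _)
    _ ≤ ∑ _η : R → S.T, (∑ _t : R → S.T, |(1 : ℝ)|) * ∑ _U : Finset (R × SysL.VV l n),
          C * (1 + (E + 2) ^ E) * ((S.nm M : ℝ) ^ ε * σ ^ (-(S.bV Bd R c : ℝ))) := by
        refine Finset.sum_le_sum fun η _ => ?_
        exact mul_le_mul (ht1 η) (Finset.sum_le_sum fun U _ => key η U)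
          (Finset.sum_nonneg fun _ _ => norm_nonneg _)
          (Finset.sum_nonneg fun _ _ => abs_nonneg _)
    _ = (∑ _η : R → S.T, (∑ _t : R → S.T, |(1 : ℝ)|) *
          ∑ _U : Finset (R × SysL.VV l n), C * (1 + (E + 2) ^ E)) * (S.nm M : ℝ) ^ ε *
          σ ^ (-(S.bV Bd R c : ℝ)) := by
        simp only [Finset.sum_const, nsmul_eq_mul]
        ring

end Pool.Agent.H92.EL
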