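import Pool.Agent.H92.EL.CBox
import Pool.Agent.H92.EL.CBx
import Pool.Agent.H92.EL.CBx0
import Pool.Agent.H92.EL.CCc
import Pool.Agent.H92.EL.CCh
import Pool.Agent.H92.EL.CCmp
import Pool.Agent.H92.EL.CComb
import Pool.Agent.H92.EL.CDiv
import Pool.Agent.H92.EL.CExpd
import Pool.Agent.H92.EL.CFa
import Pool.Agent.H92.EL.CFix
import Pool.Agent.H92.EL.CFixE
import Pool.Agent.H92.EL.CFull
import Pool.Agent.H92.EL.CGE
import Pool.Agent.H92.EL.CGfac
import Pool.Agent.H92.EL.CGs1
import Pool.Agent.H92.EL.CGs2
import Pool.Agent.H92.EL.CInn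
import Pool.Agent.H92.EL.CKar
import Pool.Agent.H92.EL.CKar0
import Pool.Agent.H92.EL.CKarE
import Pool.Agent.H92.EL.CLup
import Pool.Agent.H92.EL.CMain
import Pool.Agent.H92.EL.CMainA
import Pool.Agent.H92.EL.CMainL
import Pool.Agent.H92.EL.CPat
import Pool.Agent.H92.EL.CPl
import Pool.Agent.H92.EL.CSm
import Pool.Agent.H92.EL.CTr
import Pool.Agent.H92.EL.CUnf
import Pool.Agent.H92.EL.CUni

/-!
# Project T4 (MP_a3214d), block C: the analytic results, without hypotheses
-/

set_option autoImplicit false

namespace Pool.Agent.H92.EL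

theorem call_fa : SFaL := sfaL (sbxL (sbxL0 sboxL) strL) strL ssmL

theorem call_pat : SPat := spat call_fa sch1 (sinn slupL sgs1) strL ssmL

theorem call_expd : SExpd := sexpd ssmL

theorem call_main : SMain :=
  smain (smainA call_pat scomb sfull call_expd ssmL)
    (smainL (sge1 sgs1 sgs2 spl) sgfac ssmL)

theorem call_cc : SCcL := sccL sdiv scmp

/-- the asymptotic formula for a fixed frame -/
theorem call_fix : SFix := sfix call_main call_cc (skarL skar0) call_expd

/-- families without a central vector are negligible -/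
theorem call_fixE : SFixE := sfixE call_main call_cc (skarE skar0) skar0 ssmL

/-- the uniform bound -/
theorem call_unf : SUnf := sunf (suni call_pat scomb call_expd) call_cc call_expd

end Pool.Agent.H92.EL
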