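import Pool.Agent.H92.EL.GDefs

/-!
# Project T4 (MP_a3214d): coordinates of the elements of order `l`, number of classes, orders

The elements with `g ^ l = 1` form a vector space for the sum `a * b * [a, b] ^ ((l - 1) / 2)`.
-/

set_option autoImplicit false

open scoped BigOperators

namespace Pool.Agent.H92.EL

open SysL (VV BD)

namespace G1

section kom

variable {l : ℕ} {G : Type} [Group G]

/-- the commutator -/
def kom (a b : G) : G := a * b * a⁻¹ * b⁻¹

theorem kom_cen (hz : Zt l G) {a : G} (ha : a ^ l = 1) (g : G) :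
    kom a g ∈ Subgroup.center G := by
  have h2 := hz a ha
  have h3 := (Subgroup.mem_upperCentralSeries_succ_iff (n := 1)).1 h2 g
  rwa [Subgroup.upperCentralSeries_one] at h3

theorem cen_comm {c : G} (hc : c ∈ Subgroup.center G) (g : G) : c * g = g * c :=
  ((Subgroup.mem_center_iff.1 hc) g).symm

theorem mul_eq_kom (a b : G) : a * b = kom a b * (b * a) := by
  unfold kom; group

theorem kom_swap (a b : G) : kom b a = (kom a b)⁻¹ := by
  unfold kom; group

theorem kom_self (a : G) : kom a a = 1 := by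
  unfold kom; group

theorem kom_one_left (a : G) : kom 1 a = 1 := by
  unfold kom; group

theorem kom_one_right (a : G) : kom a 1 = 1 := by
  unfold kom; group

theorem kom_mul_left (a b g : G) (hb : kom b g ∈ Subgroup.center G) :
    kom (a * b) g = kom a g * kom b g := by
  have h1 : kom (a * b) g = a * kom b g * (g * a⁻¹ * g⁻¹) := by unfold kom; group
  rw [h1, ← cen_comm hb a, mul_assoc, cen_comm hb]
  unfold kom
  group

theorem kom_mul_right (a g h : G) (hb : kom a h ∈ Subgroup.center G) :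
    kom a (g * h) = kom a g * kom a h := by
  have h1 : kom a (g * h) = a * g * a⁻¹ * kom a h * g⁻¹ := by unfold kom; group
  rw [h1, mul_assoc, cen_comm hb]
  unfold kom
  group

theorem kom_cen_left {c : G} (hc : c ∈ Subgroup.center G) (g : G) : kom c g = 1 := by
  unfold kom; rw [cen_comm hc g]; group

theorem kom_cen_right {c : G} (hc : c ∈ Subgroup.center G) (g : G) : kom g c = 1 := by
  rw [kom_swap c g, kom_cen_left hc, inv_one]

theorem kom_pow_left {a g : G} (h : kom a g ∈ Subgroup.center G) (n : ℕ) :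
    kom (a ^ n) g = kom a g ^ n := by
  induction n with
  | zero => simp [kom_one_left]
  | succ n ih => rw [pow_succ, kom_mul_left _ _ _ h, ih, pow_succ]

theorem kom_pow_one (hz : Zt l G) {a : G} (ha : a ^ l = 1) (g : G) : kom a g ^ l = 1 := by
  rw [← kom_pow_left (kom_cen hz ha g), ha, kom_one_left]

theorem mul_pow_kom {a b : G} (h : kom b a ∈ Subgroup.center G) (n : ℕ) :
    (a * b) ^ n = a ^ n * b ^ n * kom b a ^ (n.choose 2) := by
  induction n with
  | zero => simp
  | succ n ih =>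
    have h1 : b ^ n * a = kom b a ^ n * (a * b ^ n) := by
      rw [← kom_pow_left h, ← mul_eq_kom]
    have hc : ∀ m : ℕ, kom b a ^ m ∈ Subgroup.center G := fun m => Subgroup.pow_mem _ h m
    rw [pow_succ (a * b), ih, Nat.choose_succ_succ' n 1, Nat.choose_one_right]
    calc a ^ n * b ^ n * kom b a ^ n.choose 2 * (a * b)
        = a ^ n * (b ^ n * a) * b * kom b a ^ n.choose 2 := by
          rw [mul_assoc (a ^ n * b ^ n), cen_comm (hc _)]; group
      _ = a ^ n * (kom b a ^ n * (a * b ^ n)) * b * kom b a ^ n.choose 2 := by rw [h1]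
      _ = a ^ n * (a * b ^ n * kom b a ^ n) * b * kom b a ^ n.choose 2 := by
          rw [cen_comm (hc n)]
      _ = a ^ n * a * b ^ n * (kom b a ^ n * b) * kom b a ^ n.choose 2 := by group
      _ = a ^ n * a * b ^ n * (b * kom b a ^ n) * kom b a ^ n.choose 2 := by
          rw [cen_comm (hc n)]
      _ = a ^ (n + 1) * b ^ (n + 1) * (kom b a ^ n * kom b a ^ n.choose 2) := by
          rw [pow_succ a, pow_succ b]; group
      _ = a ^ (n + 1) * b ^ (n + 1) * (kom b a ^ n * kom b a ^ n.choose (1 + 1)) := rfl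
      _ = a ^ (n + 1) * b ^ (n + 1) * kom b a ^ (n + n.choose (1 + 1)) := by
          rw [pow_add (kom b a)]

theorem dvd_choose_two {l : ℕ} (hl : l.Prime) (h2 : l ≠ 2) : l ∣ l.choose 2 := by
  have : 2 < l := lt_of_le_of_ne hl.two_le (Ne.symm h2)
  exact hl.dvd_choose_self (by norm_num) this

theorem mul_pow_one (hl : l.Prime) (h2 : l ≠ 2) (hz : Zt l G) {a b : G} (ha : a ^ l = 1)
    (hb : b ^ l = 1) : (a * b) ^ l = 1 := by
  rw [mul_pow_kom (kom_cen hz hb a), ha, hb]
  obtain ⟨k, hk⟩ := dvd_choose_two hl h2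
  rw [hk, pow_mul, kom_pow_one hz hb a]
  simp

end kom

/-! ### the elements of exponent `l` as a vector space -/

/-- odd primes and the condition on the second center -/
class Hy (l : ℕ) (G : Type) [Group G] : Prop where
  pr : l.Prime
  ne : l ≠ 2
  zt : Zt l G

/-- the elements of order dividing `l` -/
def AA (l : ℕ) (G : Type) [Group G] : Type := {g : G // g ^ l = 1}

section AA

variable {l : ℕ} {G : Type} [Group G] [hy : Hy l G]

omit hy in
theorem ext' {a b : AA l G} (h : a.1 = b.1) : a = b := Subtype.ext h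

theorem kc (a : AA l G) (g : G) : kom a.1 g ∈ Subgroup.center G := kom_cen hy.zt a.2 g

theorem kl (a : AA l G) (g : G) : kom a.1 g ^ l = 1 := kom_pow_one hy.zt a.2 g

omit hy in
theorem two_half (hy : Hy l G) : 2 * ((l - 1) / 2) + 1 = l := by
  have h1 := hy.pr.eq_two_or_odd
  have h2 := hy.ne
  have h3 := hy.pr.two_le
  omega

theorem kcp (a : AA l G) (g : G) (m : ℕ) : kom a.1 g ^ m ∈ Subgroup.center G :=
  Subgroup.pow_mem _ (kc a g) m

/-- the sum -/
def ad (a b : AA l G) : AA l G :=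
  ⟨a.1 * b.1 * kom a.1 b.1 ^ ((l - 1) / 2), by
    refine mul_pow_one hy.pr hy.ne hy.zt (mul_pow_one hy.pr hy.ne hy.zt a.2 b.2) ?_
    rw [← pow_mul, mul_comm, pow_mul, kl, one_pow]⟩

theorem ad_val (a b : AA l G) : (ad a b).1 = a.1 * b.1 * kom a.1 b.1 ^ ((l - 1) / 2) := rfl

theorem kom_ad (a b : AA l G) (g : G) : kom (ad a b).1 g = kom a.1 g * kom b.1 g := by
  have h1 : kom (kom a.1 b.1 ^ ((l - 1) / 2)) g = 1 := kom_cen_left (kcp a b.1 _) g
  rw [ad_val, kom_mul_left _ _ _ (by rw [h1]; exact one_mem _), h1, mul_one,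
    kom_mul_left _ _ _ (kc b g)]

theorem kom_ad' (a b : AA l G) (g : G) : kom g (ad a b).1 = kom g a.1 * kom g b.1 := by
  rw [kom_swap (ad a b).1 g, kom_ad, kom_swap a.1 g, kom_swap b.1 g, mul_inv_rev]
  rw [← Subgroup.mem_center_iff.1 (Subgroup.inv_mem _ (kc a g)) (kom b.1 g)⁻¹]

theorem ad_comm (a b : AA l G) : ad a b = ad b a := by
  apply ext'
  rw [ad_val, ad_val, mul_eq_kom a.1 b.1, kom_swap a.1 b.1]
  have h1 : kom a.1 b.1 * (b.1 * a.1) * kom a.1 b.1 ^ ((l - 1) / 2) =
      b.1 * a.1 * kom a.1 b.1 ^ ((l - 1) / 2 + 1) := by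
    rw [cen_comm (kc a b.1), mul_assoc, ← pow_succ']
  rw [h1]
  congr 1
  rw [inv_pow, eq_inv_iff_mul_eq_one, ← pow_add]
  have := two_half hy
  have h2 : (l - 1) / 2 + 1 + (l - 1) / 2 = l := by omega
  rw [h2, kl]

theorem ad_assoc (a b c : AA l G) : ad (ad a b) c = ad a (ad b c) := by
  apply ext'
  rw [ad_val (ad a b) c, kom_ad, ad_val a (ad b c), kom_ad', ad_val, ad_val]
  set h := (l - 1) / 2
  have e1 := kcp a b.1 h
  have e2 := kcp b c.1 h
  have e3 := kc a c.1
  have e4 := kc b c.1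
  have e5 := kc a b.1
  have c1 : Commute (kom a.1 c.1) (kom b.1 c.1) := cen_comm e3 _
  have c2 : Commute (kom a.1 b.1) (kom a.1 c.1) := cen_comm e5 _
  rw [c1.mul_pow, c2.mul_pow]
  have e6 := kcp a c.1 h
  calc a.1 * b.1 * kom a.1 b.1 ^ h * c.1 * (kom a.1 c.1 ^ h * kom b.1 c.1 ^ h)
      = a.1 * b.1 * (kom a.1 b.1 ^ h * c.1) * (kom a.1 c.1 ^ h * kom b.1 c.1 ^ h) := by group
    _ = a.1 * b.1 * (c.1 * kom a.1 b.1 ^ h) * (kom a.1 c.1 ^ h * kom b.1 c.1 ^ h) := by
        rw [cen_comm e1]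
    _ = a.1 * b.1 * c.1 * (kom a.1 b.1 ^ h * kom a.1 c.1 ^ h * kom b.1 c.1 ^ h) := by group
    _ = a.1 * b.1 * c.1 * (kom b.1 c.1 ^ h * (kom a.1 b.1 ^ h * kom a.1 c.1 ^ h)) := by
        rw [cen_comm e2]
    _ = a.1 * (b.1 * c.1 * kom b.1 c.1 ^ h) * (kom a.1 b.1 ^ h * kom a.1 c.1 ^ h) := by group

instance : Zero (AA l G) := ⟨⟨1, one_pow _⟩⟩
instance : Add (AA l G) := ⟨ad⟩
instance : Neg (AA l G) := ⟨fun a => ⟨a.1⁻¹, by rw [inv_pow, a.2, inv_one]⟩⟩

theorem add_val (a b : AA l G) : (a + b).1 = a.1 * b.1 * kom a.1 b.1 ^ ((l - 1) / 2) := rfl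
omit hy in
theorem zero_val : (0 : AA l G).1 = 1 := rfl
omit hy in
theorem neg_val (a : AA l G) : (-a).1 = a.1⁻¹ := rfl

instance : AddCommGroup (AA l G) where
  add_assoc := ad_assoc
  zero_add a := by
    apply ext'; rw [add_val, zero_val, kom_one_left]; simp
  add_zero a := by
    apply ext'; rw [add_val, zero_val, kom_one_right]; simp
  nsmul := nsmulRec
  zsmul := zsmulRec
  neg_add_cancel a := by
    apply ext'
    have h : kom a.1⁻¹ a.1 = 1 := by unfold kom; group
    rw [add_val, neg_val, h]; simp [zero_val]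
  add_comm := ad_comm

theorem nsmul_val (n : ℕ) (a : AA l G) : (n • a).1 = a.1 ^ n := by
  induction n with
  | zero => rw [zero_smul, pow_zero]; rfl
  | succ n ih =>
    rw [succ_nsmul, add_val, ih, pow_succ]
    have h : kom (a.1 ^ n) a.1 = 1 := by
      rw [kom_pow_left (kc a a.1), kom_self, one_pow]
    rw [h]; simp

noncomputable instance [Fact l.Prime] : Module (ZMod l) (AA l G) :=
  AddCommGroup.zmodModule fun a => ext' (by rw [nsmul_val, a.2]; rfl)

/-! ### commutators -/

theorem smul_val [Fact l.Prime] (r : ZMod l) (a : AA l G) : (r • a).1 = a.1 ^ r.val := by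
  have h1 : r • a = r.val • a := by
    conv_lhs => rw [← ZMod.natCast_zmod_val r]
    exact Nat.cast_smul_eq_nsmul (ZMod l) r.val a
  rw [h1, nsmul_val]

theorem add_val_cen (a c : AA l G) (hc : c.1 ∈ Subgroup.center G) : (a + c).1 = a.1 * c.1 := by
  rw [add_val, kom_cen_right hc]; simp

/-- the commutator as an element of the space -/
def br (a : AA l G) (g : G) : AA l G := ⟨kom a.1 g, kl a g⟩

theorem br_val (a : AA l G) (g : G) : (br a g).1 = kom a.1 g := rfl

theorem mul_val [Fact l.Prime] (a b : AA l G) :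
    a.1 * b.1 = (a + b + (2 : ZMod l)⁻¹ • br a b.1).1 := by
  have h2 : (2 : ZMod l)⁻¹ = -(((l - 1) / 2 : ℕ) : ZMod l) := by
    apply inv_eq_of_mul_eq_one_right
    have h3 : ((2 * ((l - 1) / 2) + 1 : ℕ) : ZMod l) = 0 := by
      rw [two_half hy, ZMod.natCast_self]
    push_cast at h3
    linear_combination -h3
  have h4 : ((2 : ZMod l)⁻¹ • br a b.1).1 = (kom a.1 b.1 ^ ((l - 1) / 2))⁻¹ := by
    rw [h2, neg_smul, Nat.cast_smul_eq_nsmul, neg_val, nsmul_val, br_val]
  rw [add_val_cen _ _ (by rw [h4]; exact Subgroup.inv_mem _ (kcp a b.1 _)), h4, add_val]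
  group

variable (l G) in
/-- the central elements -/
noncomputable def WW [Fact l.Prime] : Submodule (ZMod l) (AA l G) where
  carrier := {a | a.1 ∈ Subgroup.center G}
  add_mem' {a b} ha hb := by
    show (a + b).1 ∈ Subgroup.center G
    rw [add_val_cen a b hb]
    exact Subgroup.mul_mem _ ha hb
  zero_mem' := by
    show (0 : AA l G).1 ∈ Subgroup.center G
    rw [zero_val]
    exact one_mem _
  smul_mem' r a ha := by
    show (r • a).1 ∈ Subgroup.center G
    rw [smul_val]
    exact Subgroup.pow_mem _ ha _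

variable [Fact l.Prime]

theorem mem_ww {a : AA l G} : a ∈ WW l G ↔ a.1 ∈ Subgroup.center G := Iff.rfl

theorem ww_cen (a : WW l G) : (a : AA l G).1 ∈ Subgroup.center G := mem_ww.1 a.2

/-- the commutator as a central element -/
noncomputable def bw (a : AA l G) (g : G) : WW l G := ⟨br a g, mem_ww.2 (kc a g)⟩

theorem bw_val (a : AA l G) (g : G) : ((bw a g : WW l G) : AA l G).1 = kom a.1 g := rfl

theorem ww_ext {a b : WW l G} (h : (a : AA l G).1 = (b : AA l G).1) : a = b :=
  Subtype.ext (ext' h)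

theorem ww_add (a b : WW l G) : ((a + b : WW l G) : AA l G).1 = (a : AA l G).1 * (b : AA l G).1 :=
  add_val_cen (a : AA l G) (b : AA l G) (ww_cen b)

theorem bw_add (a b : AA l G) (g : G) : bw (a + b) g = bw a g + bw b g := by
  apply ww_ext
  rw [ww_add, bw_val, bw_val, bw_val]
  exact kom_ad a b g

theorem bw_mul (a : AA l G) (g h : G) : bw a (g * h) = bw a g + bw a h := by
  apply ww_ext
  rw [ww_add, bw_val, bw_val, bw_val]
  exact kom_mul_right a.1 g h (kc a h)

theorem bw_add' (a b c : AA l G) : bw a (b + c).1 = bw a b.1 + bw a c.1 := by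
  apply ww_ext
  rw [ww_add, bw_val, bw_val, bw_val]
  exact kom_ad' b c a.1

theorem bw_cen (a : AA l G) {c : G} (hc : c ∈ Subgroup.center G) : bw a c = 0 := by
  apply ww_ext
  rw [bw_val, kom_cen_right hc]
  rfl

theorem bw_cen' (a : AA l G) (ha : a.1 ∈ Subgroup.center G) (g : G) : bw a g = 0 := by
  apply ww_ext
  rw [bw_val, kom_cen_left ha]
  rfl

theorem bw_self (a : AA l G) : bw a a.1 = 0 := by
  apply ww_ext
  rw [bw_val, kom_self]
  rfl

theorem bw_swap (a b : AA l G) : bw a b.1 = - bw b a.1 := by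
  have h := bw_self (a + b)
  rw [bw_add, bw_add', bw_add', bw_self, bw_self, zero_add, add_zero] at h
  exact eq_neg_of_add_eq_zero_left h

theorem conj_val (a : AA l G) (g : G) : g * a.1 * g⁻¹ = (a + (-(bw a g : WW l G) : WW l G)).1 := by
  have h1 : (((-(bw a g : WW l G) : WW l G)) : AA l G).1 = (kom a.1 g)⁻¹ := rfl
  rw [add_val_cen _ _ (ww_cen (-(bw a g : WW l G))), h1,
    ← cen_comm (Subgroup.inv_mem _ (kc a g))]
  unfold kom
  group

/-- the commutator with a fixed element -/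
noncomputable def bL (g : G) : AA l G →+ WW l G :=
  AddMonoidHom.mk' (fun a => bw a g) fun a b => bw_add a b g

/-- the commutator with a fixed element, on the right -/
noncomputable def bR (a : AA l G) : AA l G →+ WW l G :=
  AddMonoidHom.mk' (fun b => bw a b.1) fun b c => bw_add' a b c

theorem smul_bw (r : ZMod l) (a : AA l G) (g : G) : bw (r • a) g = r • bw a g := by
  have h := ZMod.map_smul (bL (l := l) g) r a
  exact h

theorem smul_bw' (r : ZMod l) (a b : AA l G) : bw a (r • b).1 = r • bw a b.1 := by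
  have h := ZMod.map_smul (bR a) r b
  exact h

end AA

end G1

open G1

/-- nilpotent groups of the project have nontrivial central elements of order `l` -/
theorem nl_cen {l : ℕ} [Fact l.Prime] {G : Type} [Group G] (h : Nl l G) :
    ∃ c : G, c ≠ 1 ∧ c ^ l = 1 ∧ c ∈ Subgroup.center G := by
  have := h.fin
  obtain ⟨g, hg⟩ := exists_prime_orderOf_dvd_card' l h.dvd
  have h1 : g ^ l = 1 := by rw [← hg]; exact pow_orderOf_eq_one g
  have h2 : g ≠ 1 := by
    rintro rfl
    rw [orderOf_one] at hg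
    exact (Fact.out : l.Prime).one_lt.ne hg
  by_cases hc : g ∈ Subgroup.center G
  · exact ⟨g, h2, h1, hc⟩
  · rw [Subgroup.mem_center_iff] at hc
    push Not at hc
    obtain ⟨x, hx⟩ := hc
    refine ⟨kom g x, ?_, kom_pow_one h.z2 h1 x, kom_cen h.z2 h1 x⟩
    intro h3
    apply hx
    have h4 := mul_eq_kom g x
    rw [h3, one_mul] at h4
    exact h4.symm

theorem sgCd : SGCd := by
  intro l hp h2 G _ hN
  have : Hy l G := ⟨hp.out, h2, hN.z2⟩
  have := hN.fin
  have : Finite (AA l G) := inferInstanceAs (Finite {g : G // g ^ l = 1})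
  have : Module.Finite (ZMod l) (AA l G) := inferInstance
  obtain ⟨V, hV⟩ := Submodule.exists_isCompl (WW l G)
  let eV : VV l (Module.finrank (ZMod l) V) ≃ₗ[ZMod l] V :=
    (Module.finBasis (ZMod l) V).equivFun.symm
  let eW : VV l (Module.finrank (ZMod l) (WW l G)) ≃ₗ[ZMod l] WW l G :=
    (Module.finBasis (ZMod l) (WW l G)).equivFun.symm
  let E : (V × WW l G) ≃ₗ[ZMod l] AA l G := Submodule.prodEquivOfIsCompl V (WW l G) hV.symm
  have hE : ∀ v z, E (eV v, eW z) = (eV v : AA l G) + (eW z : AA l G) := fun v z =>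
    Submodule.coe_prodEquivOfIsCompl' V (WW l G) hV.symm (eV v, eW z)
  let B : VV l (Module.finrank (ZMod l) V) →ₗ[ZMod l]
      VV l (Module.finrank (ZMod l) V) →ₗ[ZMod l] VV l (Module.finrank (ZMod l) (WW l G)) :=
    LinearMap.mk₂ (ZMod l) (fun w v => eW.symm (bw (eV w : AA l G) (eV v : AA l G).1))
      (fun w w' v => by
        rw [map_add eV, Submodule.coe_add, bw_add, map_add])
      (fun r w v => by
        rw [map_smul eV, Submodule.coe_smul, smul_bw, map_smul])
      (fun w v v' => by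
        rw [map_add eV, Submodule.coe_add, bw_add', map_add])
      (fun r w v => by
        rw [map_smul eV, Submodule.coe_smul, smul_bw', map_smul])
  have hB : ∀ w v, B w v = eW.symm (bw (eV w : AA l G) (eV v : AA l G).1) := fun w v => rfl
  -- the coordinates
  let nn : VV l (Module.finrank (ZMod l) V) → VV l (Module.finrank (ZMod l) (WW l G)) → G :=
    fun v z => ((eV v : AA l G) + (eW z : AA l G)).1
  let bp : G → VV l (Module.finrank (ZMod l) V) → VV l (Module.finrank (ZMod l) (WW l G)) :=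
    fun g v => eW.symm (-(bw (eV v : AA l G) g))
  have hbr : ∀ v z w y, bw ((eV v : AA l G) + (eW z : AA l G)) ((eV w : AA l G) +
      (eW y : AA l G)).1 = bw (eV v : AA l G) (eV w : AA l G).1 := by
    intro v z w y
    rw [bw_add, bw_add', bw_add', bw_cen' _ (ww_cen (eW z)), bw_cen' _ (ww_cen (eW z)),
      bw_cen _ (ww_cen (eW y))]
    simp
  refine ⟨⟨Module.finrank (ZMod l) V, Module.finrank (ZMod l) (WW l G), ?_, ⟨B, ?_⟩, nn,
    ?_, ?_, ?_, ?_, bp, ?_, ?_, ?_, ?_⟩⟩
  · -- the central part is not trivial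
    obtain ⟨c, hc1, hc2, hc3⟩ := nl_cen hN
    have : Nontrivial (WW l G) := by
      refine ⟨⟨⟨⟨c, hc2⟩, mem_ww.2 hc3⟩, 0, ?_⟩⟩
      intro h
      apply hc1
      have := congrArg (fun a : WW l G => (a : AA l G).1) h
      exact this
    exact Module.finrank_pos
  · intro v
    rw [hB, bw_self, map_zero]
  · intro v w z y
    show ((eV v : AA l G) + (eW z : AA l G)).1 * ((eV w : AA l G) + (eW y : AA l G)).1 = _
    rw [mul_val]
    show _ = ((eV (v + w) : AA l G) + (eW (z + y + (2 : ZMod l)⁻¹ • B v w) : AA l G)).1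
    congr 1
    rw [map_add eV, map_add eW, map_add eW, map_smul eW, hB, LinearEquiv.apply_symm_apply]
    have h1 : br ((eV v : AA l G) + (eW z : AA l G)) ((eV w : AA l G) + (eW y : AA l G)).1 =
        ((bw (eV v : AA l G) (eV w : AA l G).1 : WW l G) : AA l G) := by
      rw [← hbr v z w y]; rfl
    rw [h1]
    push_cast
    abel
  · intro v w z y h
    have h1 : E (eV v, eW z) = E (eV w, eW y) := by
      rw [hE, hE]
      exact ext' h
    have h2 := E.injective h1
    rw [Prod.mk.injEq] at h2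
    exact ⟨eV.injective h2.1, eW.injective h2.2⟩
  · intro g
    constructor
    · intro hg
      obtain ⟨⟨a, b⟩, hab⟩ := E.surjective ⟨g, hg⟩
      refine ⟨eV.symm a, eW.symm b, ?_⟩
      have h1 := hE (eV.symm a) (eW.symm b)
      rw [LinearEquiv.apply_symm_apply, LinearEquiv.apply_symm_apply] at h1
      show g = ((eV (eV.symm a) : AA l G) + (eW (eW.symm b) : AA l G)).1
      rw [LinearEquiv.apply_symm_apply, LinearEquiv.apply_symm_apply, ← h1, hab]
    · rintro ⟨v, z, rfl⟩
      exact ((eV v : AA l G) + (eW z : AA l G)).2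
  · intro g
    constructor
    · rintro ⟨hg1, hg2⟩
      refine ⟨eW.symm ⟨⟨g, hg2⟩, mem_ww.2 hg1⟩, ?_⟩
      show g = ((eV 0 : AA l G) + (eW (eW.symm ⟨⟨g, hg2⟩, mem_ww.2 hg1⟩) : AA l G)).1
      rw [map_zero, LinearEquiv.apply_symm_apply, Submodule.coe_zero, zero_add]
    · rintro ⟨z, rfl⟩
      have h1 : nn 0 z = (eW z : AA l G).1 := by
        show ((eV 0 : AA l G) + (eW z : AA l G)).1 = _
        rw [map_zero, Submodule.coe_zero, zero_add]
      rw [h1]
      exact ⟨ww_cen _, (eW z : AA l G).2⟩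
  · intro g v z
    show g * ((eV v : AA l G) + (eW z : AA l G)).1 * g⁻¹ =
      ((eV v : AA l G) + (eW (z + eW.symm (-(bw (eV v : AA l G) g))) : AA l G)).1
    rw [conj_val, bw_add, bw_cen' _ (ww_cen (eW z)), add_zero, map_add,
      LinearEquiv.apply_symm_apply, Submodule.coe_add, add_assoc]
  · intro g h v
    show eW.symm (-(bw (eV v : AA l G) (g * h))) = _
    rw [bw_mul, neg_add, map_add]
  · intro g v w
    show eW.symm (-(bw (eV (v + w) : AA l G) g)) = _
    rw [map_add, Submodule.coe_add, bw_add, neg_add, map_add]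
  · intro w z v
    show eW.symm (-(bw (eV v : AA l G) ((eV w : AA l G) + (eW z : AA l G)).1)) = B w v
    rw [bw_add', bw_cen _ (ww_cen (eW z)), add_zero, ← bw_swap, hB]

/-! ### the number of classes -/

section cls

variable {l : ℕ} [Fact l.Prime] {G : Type} [Group G] (C : Cd l G)

theorem Cd.bp_one (v : VV l C.d) : C.bp 1 v = 0 := by
  have h := C.bp_mul 1 1 v
  rw [one_mul] at h
  exact left_eq_add.1 h

theorem Cd.bp_pow (g : G) (v : VV l C.d) (n : ℕ) : C.bp (g ^ n) v = n • C.bp g v := by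
  induction n with
  | zero => rw [pow_zero, C.bp_one, zero_smul]
  | succ n ih => rw [pow_succ, C.bp_mul, ih, succ_nsmul]

theorem Cd.bp_zero (g : G) : C.bp g 0 = 0 := by
  have h := C.bp_add g 0 0
  rw [add_zero] at h
  exact left_eq_add.1 h

/-- the commutators with a vector -/
noncomputable def Cd.HH (v : VV l C.d) : Submodule (ZMod l) (VV l C.n) where
  carrier := Set.range fun g => C.bp g v
  add_mem' := by
    rintro _ _ ⟨g, rfl⟩ ⟨h, rfl⟩
    exact ⟨g * h, C.bp_mul g h v⟩
  zero_mem' := ⟨1, C.bp_one v⟩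
  smul_mem' := by
    rintro r _ ⟨g, rfl⟩
    refine ⟨g ^ r.val, ?_⟩
    show C.bp (g ^ r.val) v = r • C.bp g v
    rw [C.bp_pow]
    conv_rhs => rw [← ZMod.natCast_zmod_val r]
    exact (Nat.cast_smul_eq_nsmul (ZMod l) r.val _).symm

theorem Cd.mem_HH {v : VV l C.d} {x : VV l C.n} : x ∈ C.HH v ↔ ∃ g, C.bp g v = x := Iff.rfl

theorem Cd.conj_iff (v w : VV l C.d) (z y : VV l C.n) :
    IsConj (C.nn v z) (C.nn w y) ↔ v = w ∧ -z + y ∈ C.HH v := by
  rw [isConj_iff]
  constructor
  · rintro ⟨g, hg⟩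
    rw [C.bp_conj] at hg
    obtain ⟨h1, h2⟩ := C.nn_inj _ _ _ _ hg
    refine ⟨h1, C.mem_HH.2 ⟨g, ?_⟩⟩
    rw [← h2]; abel
  · rintro ⟨rfl, h2⟩
    obtain ⟨g, hg⟩ := C.mem_HH.1 h2
    refine ⟨g, ?_⟩
    rw [C.bp_conj, hg]
    congr 1
    abel

/-- the class of a vector and a coset -/
noncomputable def Cd.ph (s : Σ v : VV l C.d, VV l C.n ⧸ C.HH v) : ConjClasses G :=
  Quotient.liftOn' s.2 (fun z => ConjClasses.mk (C.nn s.1 z)) fun a b hab => by
    rw [ConjClasses.mk_eq_mk_iff_isConj, C.conj_iff]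
    exact ⟨rfl, QuotientAddGroup.leftRel_apply.1 hab⟩

theorem Cd.ph_mk (v : VV l C.d) (z : VV l C.n) :
    C.ph ⟨v, Submodule.Quotient.mk z⟩ = ConjClasses.mk (C.nn v z) := rfl

theorem Cd.ph_inj : Function.Injective C.ph := by
  rintro ⟨v, q⟩ ⟨w, r⟩ h
  obtain ⟨z, rfl⟩ := Submodule.Quotient.mk_surjective _ q
  obtain ⟨y, rfl⟩ := Submodule.Quotient.mk_surjective _ r
  rw [C.ph_mk, C.ph_mk, ConjClasses.mk_eq_mk_iff_isConj, C.conj_iff] at h
  obtain ⟨rfl, h2⟩ := h
  congr 1
  rw [Submodule.Quotient.eq]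
  have h3 := (C.HH v).neg_mem h2
  convert h3 using 1
  abel

theorem Cd.ph_range : Set.range C.ph = {c : ConjClasses G | ∃ g : G, ConjClasses.mk g = c ∧
    g ^ l = 1} := by
  ext c
  constructor
  · rintro ⟨⟨v, q⟩, rfl⟩
    obtain ⟨z, rfl⟩ := Submodule.Quotient.mk_surjective _ q
    exact ⟨C.nn v z, rfl, (C.nn_iff _).2 ⟨v, z, rfl⟩⟩
  · rintro ⟨g, rfl, hg⟩
    obtain ⟨v, z, rfl⟩ := (C.nn_iff g).1 hg
    exact ⟨⟨v, Submodule.Quotient.mk z⟩, rfl⟩

theorem Cd.kc_eq (v : VV l C.d) : C.kc v = Nat.card (VV l C.n ⧸ C.HH v) := by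
  classical
  let e := dotProductEquiv (ZMod l) (Fin C.n)
  have h1 : C.kc v = Nat.card {ζ : VV l C.n // e ζ ∈ (C.HH v).dualAnnihilator} := by
    unfold Cd.kc
    rw [Nat.card_eq_fintype_card, Fintype.card_subtype]
    congr 1
    ext ζ
    simp only [Finset.mem_filter, Finset.mem_univ, true_and]
    rw [Submodule.mem_dualAnnihilator]
    constructor
    · rintro h _ ⟨g, rfl⟩
      exact h g
    · intro h g
      exact h _ ⟨g, rfl⟩
  have h2 : Nat.card {ζ : VV l C.n // e ζ ∈ (C.HH v).dualAnnihilator} =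
      Nat.card (C.HH v).dualAnnihilator :=
    Nat.card_congr (e.toEquiv.subtypeEquiv fun ζ => Iff.rfl)
  have h3 : Module.finrank (ZMod l) (C.HH v).dualAnnihilator =
      Module.finrank (ZMod l) (VV l C.n ⧸ C.HH v) := by
    rw [← LinearEquiv.finrank_eq (C.HH v).dualQuotEquivDualAnnihilator,
      Subspace.dual_finrank_eq]
  rw [h1, h2, Module.natCard_eq_pow_finrank (K := ZMod l) (V := (C.HH v).dualAnnihilator),
    Module.natCard_eq_pow_finrank (K := ZMod l) (V := VV l C.n ⧸ C.HH v), h3]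

theorem Cd.kc_zero : C.kc 0 = l ^ C.n := by
  classical
  unfold Cd.kc
  rw [Finset.filter_true_of_mem]
  · rw [Finset.card_univ, Fintype.card_fun, ZMod.card, Fintype.card_fin]
  · intro ζ _ g
    rw [C.bp_zero, dotProduct_zero]

end cls

theorem sgCls : SGCls := by
  intro l hp h2 G _ _ C
  classical
  have : Finite (ConjClasses G) := inferInstance
  have h1 : Nat.card (Σ v : VV l C.d, VV l C.n ⧸ C.HH v) = ∑ v : VV l C.d, C.kc v := by
    rw [Nat.card_sigma]
    exact Finset.sum_congr rfl fun v _ => (C.kc_eq v).symm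
  have h3 : Nat.card (Σ v : VV l C.d, VV l C.n ⧸ C.HH v) = (Set.range C.ph).ncard := by
    rw [← Nat.card_coe_set_eq]
    exact Nat.card_congr (Equiv.ofInjective _ C.ph_inj)
  have h4 : Set.range C.ph = insert (ConjClasses.mk (1 : G))
      {c : ConjClasses G | ∃ g : G, ConjClasses.mk g = c ∧ orderOf g = l} := by
    rw [C.ph_range]
    ext c
    constructor
    · rintro ⟨g, rfl, hg⟩
      by_cases h : g = 1
      · left; rw [h]
      · right; exact ⟨g, rfl, orderOf_eq_prime hg h⟩
    · rintro (rfl | ⟨g, rfl, hg⟩)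
      · exact ⟨1, rfl, one_pow _⟩
      · exact ⟨g, rfl, by rw [← hg]; exact pow_orderOf_eq_one g⟩
  have h5 : ConjClasses.mk (1 : G) ∉
      {c : ConjClasses G | ∃ g : G, ConjClasses.mk g = c ∧ orderOf g = l} := by
    rintro ⟨g, hg, ho⟩
    rw [ConjClasses.mk_eq_mk_iff_isConj, isConj_one_left] at hg
    rw [hg, orderOf_one] at ho
    exact hp.out.one_lt.ne ho
  have h6 : (Set.range C.ph).ncard = Nat.card (Ncl l G) + 1 := by
    rw [h4, Set.ncard_insert_of_notMem h5 (Set.toFinite _), ← Nat.card_coe_set_eq]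
    rfl
  rw [← h6, ← h3, h1, ← Finset.sum_filter_add_sum_filter_not Finset.univ
    (fun v : VV l C.d => v ≠ 0)]
  congr 1
  have h7 : Finset.univ.filter (fun v : VV l C.d => ¬ v ≠ 0) = {0} := by
    ext v; simp
  rw [h7, Finset.sum_singleton, C.kc_zero]

theorem sgOrd : SGOrd := by
  intro l hp _ G _ hN g hg
  have := hN.fin
  have h0 : orderOf g ≠ 1 := by
    intro h
    apply hg
    rw [orderOf_eq_one_iff.1 h, one_pow]
  obtain ⟨p, hp1, hp2⟩ := Nat.exists_prime_and_dvd h0
  have h1 : l ≤ p := hN.min p hp1 (hp2.trans (orderOf_dvd_natCard g))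
  have h2 : p ≤ orderOf g := Nat.le_of_dvd (orderOf_pos g) hp2
  refine lt_of_le_of_ne (h1.trans h2) ?_
  intro h
  apply hg
  rw [h]
  exact pow_orderOf_eq_one g

end Pool.Agent.H92.EL
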