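import Pool.Agent.H92.EL.GStm

/-!
# Project T4 (MP_a3214d), row G10: the number of classes
-/

set_option autoImplicit false

open scoped BigOperators Topology
open NumberField IsDedekindDomain Filter

namespace Pool.Agent.H92.EL

open SysL (VV BD)

section G10

variable {l : ℕ} [Fact l.Prime] (S : SysL l)

/-- the same orbit -/
def g10r (d : ℕ) : Setoid (VV l d) where
  r v w := ∃ g : S.D, v = (S.e g : ZMod l) • w
  iseqv :=
    { refl := fun v => ⟨1, by rw [map_one, Units.val_one, one_smul]⟩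
      symm := by
        rintro v w ⟨g, hg⟩
        refine ⟨g⁻¹, ?_⟩
        rw [hg, smul_smul, ← Units.val_mul, ← map_mul, inv_mul_cancel, map_one, Units.val_one,
          one_smul]
      trans := by
        rintro u v w ⟨g, hg⟩ ⟨h, hh⟩
        refine ⟨g * h, ?_⟩
        rw [hg, hh, smul_smul, ← Units.val_mul, ← map_mul] }

/-- the representative of an orbit -/
noncomputable def g10o {d : ℕ} (v : VV l d) : VV l d :=
  (Quotient.mk (g10r S d) v).out

theorem g10o_rel {d : ℕ} (v : VV l d) : ∃ g : S.D, g10o S v = (S.e g : ZMod l) • v :=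
  Quotient.exact (Quotient.out_eq (Quotient.mk (g10r S d) v))

theorem g10o_rel' {d : ℕ} (v : VV l d) : ∃ g : S.D, v = (S.e g : ZMod l) • g10o S v :=
  (g10r S d).iseqv.symm (g10o_rel S v)

theorem g10o_congr {d : ℕ} {v w : VV l d} (h : ∃ g : S.D, v = (S.e g : ZMod l) • w) :
    g10o S v = g10o S w := by
  unfold g10o
  congr 1
  exact Quotient.sound (s := g10r S d) h

theorem g10_rep (d : ℕ) : ∃ R : Finset (VV l d), S.Rep R := by
  classical
  refine ⟨(Finset.univ.filter fun v : VV l d => v ≠ 0).image (g10o S), ?_, ?_, ?_⟩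
  · intro h
    obtain ⟨v, hv, hv0⟩ := Finset.mem_image.mp h
    obtain ⟨g, hg⟩ := g10o_rel' S v
    rw [hv0, smul_zero] at hg
    exact (Finset.mem_filter.mp hv).2 hg
  · intro v hv
    exact ⟨g10o S v, Finset.mem_image_of_mem _ (Finset.mem_filter.mpr ⟨Finset.mem_univ _, hv⟩),
      g10o_rel' S v⟩
  · intro v hv w hw g hg
    obtain ⟨v', _, rfl⟩ := Finset.mem_image.mp hv
    obtain ⟨w', _, rfl⟩ := Finset.mem_image.mp hw
    have h1 : g10o S (g10o S v') = g10o S (g10o S w') := g10o_congr S ⟨g, hg⟩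
    rwa [g10o_congr S (g10o_rel S v'), g10o_congr S (g10o_rel S w')] at h1

open Classical in
/-- sums over the orbits -/
theorem g10_sum {d : ℕ} {R : Finset (VV l d)} (hR : S.Rep R) (f : VV l d → ℕ)
    (hf : ∀ (g : S.D) v, f ((S.e g : ZMod l) • v) = f v) :
    ∑ v ∈ Finset.univ.filter (fun v : VV l d => v ≠ 0), f v =
      Fintype.card S.D * ∑ v ∈ R, f v := by
  have h1 : ∑ x ∈ (Finset.univ : Finset S.D) ×ˢ R, f x.2 =
      ∑ v ∈ Finset.univ.filter (fun v : VV l d => v ≠ 0), f v := by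
    refine Finset.sum_bij (fun x _ => (S.e x.1 : ZMod l) • x.2) ?_ ?_ ?_ ?_
    · rintro ⟨g, w⟩ hx
      have hw : w ∈ R := (Finset.mem_product.mp hx).2
      refine Finset.mem_filter.mpr ⟨Finset.mem_univ _, fun h => ?_⟩
      have h2 : w = 0 := by
        have h3 : (((S.e g)⁻¹ : (ZMod l)ˣ) : ZMod l) • ((S.e g : ZMod l) • w) = 0 := by
          rw [h, smul_zero]
        rwa [smul_smul, ← Units.val_mul, inv_mul_cancel, Units.val_one, one_smul] at h3
      exact hR.nz (h2 ▸ hw)
    · rintro ⟨g, w⟩ hx ⟨g', w'⟩ hx' h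
      have hw : w ∈ R := (Finset.mem_product.mp hx).2
      have hw' : w' ∈ R := (Finset.mem_product.mp hx').2
      have h' : (S.e g : ZMod l) • w = (S.e g' : ZMod l) • w' := h
      have h2 : w = (S.e (g⁻¹ * g') : ZMod l) • w' := by
        rw [map_mul, Units.val_mul, ← smul_smul, ← h', smul_smul, ← Units.val_mul, ← map_mul,
          inv_mul_cancel, map_one, Units.val_one, one_smul]
      have h3 : w = w' := hR.un w hw w' hw' _ h2
      subst h3
      have h4 : ((S.e g : ZMod l) - (S.e g' : ZMod l)) • w = 0 := by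
        rw [sub_smul, h', sub_self]
      rcases smul_eq_zero.mp h4 with h5 | h5
      · have h6 : S.e g = S.e g' := Units.ext (sub_eq_zero.mp h5)
        rw [S.e_inj h6]
      · exact absurd (h5 ▸ hw) hR.nz
    · intro v hv
      obtain ⟨w, hw, g, hg⟩ := hR.ex v (Finset.mem_filter.mp hv).2
      exact ⟨(g, w), Finset.mem_product.mpr ⟨Finset.mem_univ _, hw⟩, hg.symm⟩
    · rintro ⟨g, w⟩ _
      exact (hf g w).symm
  rw [← h1, Finset.sum_product]
  dsimp only
  rw [Finset.sum_const, Finset.card_univ, smul_eq_mul]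

theorem g10_kc {G : Type} [Group G] (C : Cd l G) (g : S.D) (v : VV l C.d) :
    C.kc ((S.e g : ZMod l) • v) = C.kc v := by
  classical
  have h1 : ∀ (x : G) (c : ZMod l), C.bp x (c • v) = c • C.bp x v := by
    intro x c
    have h2 : C.bp x 0 = 0 := by
      have h3 := C.bp_add x 0 0
      rw [add_zero] at h3
      simpa using h3
    let F : VV l C.d →+ VV l C.n :=
      { toFun := C.bp x
        map_zero' := h2
        map_add' := C.bp_add x }
    exact ZMod.map_smul F c v
  unfold Cd.kc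
  congr 1
  ext ζ
  simp only [Finset.mem_filter, Finset.mem_univ, true_and]
  refine forall_congr' fun x => ?_
  rw [h1, dotProduct_smul, smul_eq_mul]
  exact ⟨fun h => (mul_eq_zero.mp h).resolve_left (Units.ne_zero _), fun h => by rw [h, mul_zero]⟩

end G10

section

variable {l : ℕ} [Fact l.Prime] {G : Type} [Group G]

/-- Row G10: the number of classes. -/
theorem sg10 (hl : l ≠ 2) (hG : Nl l G) (k : Type) [Field k] [NumberField k] (C : Cd l G)
    (hc : SGCls) : SG10 k C := by
  classical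
  intro S hS
  have : Finite G := hG.fin
  obtain ⟨R, hR⟩ := g10_rep S C.d
  obtain ⟨RZ, hRZ⟩ := g10_rep S C.n
  refine ⟨R, RZ, hR, hRZ, ?_⟩
  have hD : Nat.card (cyc k l) = Fintype.card S.D := by
    rw [← Nat.card_eq_fintype_card]
    refine (Nat.card_congr (Equiv.ofBijective
      (fun g : S.D => (⟨S.e g, (hS (S.e g)).mp ⟨g, rfl⟩⟩ : cyc k l)) ⟨?_, ?_⟩)).symm
    · intro g g' h
      exact S.e_inj (congrArg Subtype.val h)
    · rintro ⟨u, hu⟩
      obtain ⟨g, hg⟩ := (hS u).mpr hu
      exact ⟨g, Subtype.ext hg⟩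
  have h1 := hc l hl G C
  have h2 := g10_sum S hR C.kc (g10_kc S C)
  have h3 := g10_sum S hRZ (fun _ => 1) fun _ _ => rfl
  have h4 : ∑ v ∈ Finset.univ.filter (fun v : VV l C.n => v ≠ 0), 1 = l ^ C.n - 1 := by
    rw [Finset.sum_const, smul_eq_mul, mul_one, Finset.filter_ne' Finset.univ (0 : VV l C.n),
      Finset.card_erase_of_mem (Finset.mem_univ _), Finset.card_univ, Fintype.card_fun,
      ZMod.card, Fintype.card_fin]
  have h5 : 1 ≤ l ^ C.n := Nat.one_le_pow _ _ (Fact.out : l.Prime).pos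
  have h6 : ∑ v ∈ RZ, 1 = RZ.card := by
    rw [Finset.sum_const, smul_eq_mul, mul_one]
  have h7 : ∑ v ∈ Finset.univ.filter (fun v : VV l C.d => v ≠ 0), C.kc v =
      Fintype.card S.D * ∑ v ∈ R, C.kc v := by
    convert h2
  have h8 : Fintype.card S.D * RZ.card = l ^ C.n - 1 := by
    rw [← h4, ← h6]
    exact h3.symm
  have h9 : Nat.card (Ncl l G) + 1 = Fintype.card S.D * ∑ v ∈ R, C.kc v + l ^ C.n := by
    rw [← h7]
    convert h1
  unfold Cd.bb
  rw [hD, add_mul, mul_comm _ (Fintype.card S.D), mul_comm RZ.card, h8]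
  omega

end

end Pool.Agent.H92.EL
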