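import Pool.Agent.H92.EL.DStm

/-!
# Project T4 (MP_a3214d), block D: from homomorphisms to fields
-/

set_option autoImplicit false

open scoped BigOperators Pointwise Topology
open NumberField IsDedekindDomain Filter

namespace Pool.Agent.H92.EL

open Pool.Agent.H98.MF (Om Gm ord Dec top nrm fld rdN rexp rex)
open Pool.Agent.H98.ML (norb)
open Pool.Agent.H32.MA (pind mInd bM)
open Pool.Agent.H32.MZ (NK MalleK)

theorem cyc_pos (k : Type) [Field k] {l : ℕ} (hl : 1 < l) : 0 < Nat.card (cyc k l) := by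
  haveI : NeZero l := ⟨by omega⟩
  haveI : Fact (1 < l) := ⟨hl⟩
  haveI : Nonempty (cyc k l) := by
    refine ⟨⟨1, AlgEquiv.refl, fun ζ _ => ?_⟩⟩
    rw [Units.val_one, ZMod.val_one, pow_one]
    rfl
  exact Nat.card_pos

/-- D17: from homomorphisms to fields -/
theorem sfinT (hF : SFldT) (hI : SmI) (hb : SbM) : SFinT := by
  intro k _ _ n G ht hc hn hz b hbb hA
  obtain ⟨κ, hκ, hN⟩ := hF n G ht hc (by omega)
  rcases hA with h | ⟨L, hL, hlim⟩
  · left
    intro X
    have h1 := hN k X
    have h2 : {ρ : Gm k →* G | ρ ∈ Hk k G ∧ (dG ρ : ℝ) ≤ X} = ∅ := by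
      ext ρ
      constructor
      · rintro ⟨h3, -⟩
        rw [h] at h3
        exact h3
      · intro h3
        exact absurd h3 (Set.notMem_empty _)
    rw [h2, Set.ncard_empty, Nat.cast_zero, mul_zero] at h1
    exact_mod_cast h1
  · right
    have hl : n.minFac.Prime := Nat.minFac_prime (by omega)
    have h1 := hb k n G ht hc hn hz
    have h2 : b = bM k G :=
      Nat.eq_of_mul_eq_mul_right (cyc_pos k hl.one_lt) (hbb.trans h1.symm)
    have h3 := (hI n G ht hc hn).2
    refine ⟨κ * L, mul_pos hκ hL, ?_⟩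
    rw [hc, h2] at hlim
    rw [h3]
    have h4 := hlim.const_mul κ
    refine h4.congr fun X => ?_
    rw [hN k X, mul_div_assoc]

end Pool.Agent.H92.EL
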