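import Pool.Agent.H92.EL.DStm

/-!
# Project T4 (MP_a3214d), block D, row D7: the number of homomorphisms of a nilpotent group
unramified outside a finite set
-/

set_option autoImplicit false

open scoped BigOperators Pointwise Topology
open NumberField IsDedekindDomain Filter

namespace Pool.Agent.H92.EL

open Pool.Agent.H98.MF (Om Gm ord Dec top nrm fld rdN rexp rex)

/-- the quotient of two homomorphisms that differ by a central factor -/
def dout_q {Γ G : Type} [Group Γ] [Group G] (ρ₀ ρ : Γ →* G)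
    (h : ∀ σ, (ρ₀ σ)⁻¹ * ρ σ ∈ Subgroup.center G) : Γ →* Subgroup.center G where
  toFun σ := ⟨(ρ₀ σ)⁻¹ * ρ σ, h σ⟩
  map_one' := by
    apply Subtype.ext
    simp
  map_mul' σ τ := by
    apply Subtype.ext
    have e := Subgroup.mem_center_iff.1 (h σ) (ρ₀ τ)⁻¹
    show (ρ₀ (σ * τ))⁻¹ * ρ (σ * τ) = ((ρ₀ σ)⁻¹ * ρ σ) * ((ρ₀ τ)⁻¹ * ρ τ)
    rw [map_mul, map_mul, mul_inv_rev]
    calc (ρ₀ τ)⁻¹ * (ρ₀ σ)⁻¹ * (ρ σ * ρ τ) = ((ρ₀ τ)⁻¹ * ((ρ₀ σ)⁻¹ * ρ σ)) * ρ τ := by group
      _ = (((ρ₀ σ)⁻¹ * ρ σ) * (ρ₀ τ)⁻¹) * ρ τ := by rw [e]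
      _ = _ := by group

theorem dout_q_apply {Γ G : Type} [Group Γ] [Group G] (ρ₀ ρ : Γ →* G)
    (h : ∀ σ, (ρ₀ σ)⁻¹ * ρ σ ∈ Subgroup.center G) (σ : Γ) :
    ((dout_q ρ₀ ρ h σ : Subgroup.center G) : G) = (ρ₀ σ)⁻¹ * ρ σ := rfl

/-- the quotient of two homomorphisms to a commutative group -/
def dout_c {Γ A : Type} [Group Γ] [Group A] (hc : ∀ a b : A, a * b = b * a) (ρ₀ ρ : Γ →* A) :
    Γ →* A where
  toFun σ := (ρ₀ σ)⁻¹ * ρ σ
  map_one' := by simp
  map_mul' σ τ := by
    rw [map_mul, map_mul, mul_inv_rev]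
    calc (ρ₀ τ)⁻¹ * (ρ₀ σ)⁻¹ * (ρ σ * ρ τ) = ((ρ₀ τ)⁻¹ * ((ρ₀ σ)⁻¹ * ρ σ)) * ρ τ := by group
      _ = (((ρ₀ σ)⁻¹ * ρ σ) * (ρ₀ τ)⁻¹) * ρ τ := by rw [hc (ρ₀ τ)⁻¹]
      _ = _ := by group

theorem dout_c_apply {Γ A : Type} [Group Γ] [Group A] (hc : ∀ a b : A, a * b = b * a)
    (ρ₀ ρ : Γ →* A) (σ : Γ) : dout_c hc ρ₀ ρ σ = (ρ₀ σ)⁻¹ * ρ σ := rfl

section

variable {k : Type} [Field k] [NumberField k] (T : TM k)

theorem dout_mem_q {G : Type} [Group G] {S : Finset (HeightOneSpectrum (𝓞 k))}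
    {ρ₀ ρ : Gm k →* G} (h₀ : ρ₀ ∈ Hu T G S) (h₁ : ρ ∈ Hu T G S)
    (h : ∀ σ, (ρ₀ σ)⁻¹ * ρ σ ∈ Subgroup.center G) :
    dout_q ρ₀ ρ h ∈ Hu T (Subgroup.center G) S := by
  refine ⟨?_, fun P hP => ?_⟩
  · rw [IsLocallyConstant.iff_exists_open]
    intro x
    obtain ⟨U, hU, hxU, hU'⟩ := (IsLocallyConstant.iff_exists_open _).1 h₀.1 x
    obtain ⟨V, hV, hxV, hV'⟩ := (IsLocallyConstant.iff_exists_open _).1 h₁.1 x
    refine ⟨U ∩ V, hU.inter hV, ⟨hxU, hxV⟩, fun y hy => ?_⟩
    apply Subtype.ext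
    rw [dout_q_apply, dout_q_apply, hU' y hy.1, hV' y hy.2]
  · apply Subtype.ext
    rw [dout_q_apply, h₀.2 P hP, h₁.2 P hP]
    simp

theorem dout_step1 {G : Type} [Group G] (S : Finset (HeightOneSpectrum (𝓞 k)))
    (h0 : (Hu T G S).Finite) (h1 : (Hu T (G ⧸ Subgroup.center G) S).Finite)
    (h2 : (Hu T (Subgroup.center G) S).Finite) :
    (Hu T G S).ncard ≤
      (Hu T (Subgroup.center G) S).ncard * (Hu T (G ⧸ Subgroup.center G) S).ncard := by
  classical
  set f : (Gm k →* G) → (Gm k →* G ⧸ Subgroup.center G) :=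
    fun ρ => (QuotientGroup.mk' (Subgroup.center G)).comp ρ with hf
  have hfm : ∀ ρ ∈ Hu T G S, f ρ ∈ Hu T (G ⧸ Subgroup.center G) S := by
    intro ρ hρ
    refine ⟨?_, fun P hP => ?_⟩
    · have := hρ.1.comp (QuotientGroup.mk' (Subgroup.center G))
      exact this
    · show QuotientGroup.mk' (Subgroup.center G) (ρ (T.tau P)) = 1
      rw [hρ.2 P hP, map_one]
  have key := Finset.card_le_mul_card_image (f := f) h0.toFinset
    (Hu T (Subgroup.center G) S).ncard (by
      intro a ha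
      obtain ⟨ρ₀, hρ₀, rfl⟩ := Finset.mem_image.1 ha
      rw [Set.Finite.mem_toFinset] at hρ₀
      have hh : ∀ ρ, f ρ = f ρ₀ → ∀ σ, (ρ₀ σ)⁻¹ * ρ σ ∈ Subgroup.center G := by
        intro ρ hρ σ
        have e := DFunLike.congr_fun hρ σ
        exact QuotientGroup.eq.1 e.symm
      rw [Set.ncard_eq_toFinset_card _ h2]
      refine Finset.card_le_card_of_injOn
        (fun ρ => if h : f ρ = f ρ₀ then dout_q ρ₀ ρ (hh ρ h) else 1) ?_ ?_
      · intro ρ hρ
        rw [Finset.mem_coe, Finset.mem_filter, Set.Finite.mem_toFinset] at hρ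
        rw [Finset.mem_coe, Set.Finite.mem_toFinset]
        show (if h : f ρ = f ρ₀ then dout_q ρ₀ ρ (hh ρ h) else 1) ∈ _
        rw [dif_pos hρ.2]
        exact dout_mem_q T hρ₀ hρ.1 _
      · intro ρ hρ ρ' hρ' e
        rw [Finset.mem_coe, Finset.mem_filter, Set.Finite.mem_toFinset] at hρ hρ'
        have e' : dout_q ρ₀ ρ (hh ρ hρ.2) = dout_q ρ₀ ρ' (hh ρ' hρ'.2) := by
          have e1 : (if h : f ρ = f ρ₀ then dout_q ρ₀ ρ (hh ρ h) else 1) =
            (if h : f ρ' = f ρ₀ then dout_q ρ₀ ρ' (hh ρ' h) else 1) := e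
          rwa [dif_pos hρ.2, dif_pos hρ'.2] at e1
        refine MonoidHom.ext fun σ => ?_
        have e2 := congrArg (Subtype.val) (DFunLike.congr_fun e' σ)
        rw [dout_q_apply, dout_q_apply] at e2
        exact mul_left_cancel e2)
  rw [Set.ncard_eq_toFinset_card _ h0]
  refine key.trans (Nat.mul_le_mul_left _ ?_)
  rw [Set.ncard_eq_toFinset_card _ h1]
  refine Finset.card_le_card fun a ha => ?_
  obtain ⟨ρ, hρ, rfl⟩ := Finset.mem_image.1 ha
  rw [Set.Finite.mem_toFinset] at hρ ⊢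
  exact hfm ρ hρ

open Classical in
theorem dout_step2 {A : Type} [Group A] [Finite A] (hc : ∀ a b : A, a * b = b * a)
    (S R : Finset (HeightOneSpectrum (𝓞 k))) (h0 : (Hu T A (S ∪ R)).Finite)
    (h1 : (Hu T A S).Finite) :
    (Hu T A (S ∪ R)).ncard ≤ (Hu T A S).ncard * Nat.card A ^ R.card := by
  have := Fintype.ofFinite A
  set f : (Gm k →* A) → (R → A) := fun ρ P => ρ (T.tau P) with hf
  have key := Finset.card_le_mul_card_image (f := f) h0.toFinset
    (Hu T A S).ncard (by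
      intro a ha
      obtain ⟨ρ₀, hρ₀, rfl⟩ := Finset.mem_image.1 ha
      rw [Set.Finite.mem_toFinset] at hρ₀
      rw [Set.ncard_eq_toFinset_card _ h1]
      refine Finset.card_le_card_of_injOn (fun ρ => dout_c hc ρ₀ ρ) ?_ ?_
      · intro ρ hρ
        rw [Finset.mem_coe, Finset.mem_filter, Set.Finite.mem_toFinset] at hρ
        rw [Finset.mem_coe, Set.Finite.mem_toFinset]
        refine ⟨?_, fun P hP => ?_⟩
        · rw [IsLocallyConstant.iff_exists_open]
          intro x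
          obtain ⟨U, hU, hxU, hU'⟩ := (IsLocallyConstant.iff_exists_open _).1 hρ₀.1 x
          obtain ⟨V, hV, hxV, hV'⟩ := (IsLocallyConstant.iff_exists_open _).1 hρ.1.1 x
          refine ⟨U ∩ V, hU.inter hV, ⟨hxU, hxV⟩, fun y hy => ?_⟩
          rw [dout_c_apply, dout_c_apply, hU' y hy.1, hV' y hy.2]
        · show (ρ₀ (T.tau P))⁻¹ * ρ (T.tau P) = 1
          by_cases hR : P ∈ R
          · have e : ρ (T.tau P) = ρ₀ (T.tau P) := congrFun hρ.2 ⟨P, hR⟩
            rw [e, inv_mul_cancel]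
          · have hSR : P ∉ S ∪ R := by
              rw [Finset.mem_union, not_or]
              exact ⟨hP, hR⟩
            rw [hρ₀.2 P hSR, hρ.1.2 P hSR]
            simp
      · intro ρ hρ ρ' hρ' e
        refine MonoidHom.ext fun σ => ?_
        have e2 : dout_c hc ρ₀ ρ σ = dout_c hc ρ₀ ρ' σ := DFunLike.congr_fun e σ
        rw [dout_c_apply, dout_c_apply] at e2
        exact mul_left_cancel e2)
  rw [Set.ncard_eq_toFinset_card _ h0]
  refine key.trans (Nat.mul_le_mul_left _ ?_)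
  calc (Finset.image f h0.toFinset).card ≤ (Finset.univ : Finset (R → A)).card :=
        Finset.card_le_card (Finset.subset_univ _)
    _ = Nat.card A ^ R.card := by
        rw [Finset.card_univ, Fintype.card_fun, Nat.card_eq_fintype_card, Fintype.card_coe]

end

theorem dout_ctn {k : Type} [Field k] [NumberField k] {S : Finset (HeightOneSpectrum (𝓞 k))}
    {m n : ℕ} (h : Ctn S n) (hmn : m ∣ n) : Ctn S m :=
  fun P hP => Nat.Coprime.coprime_dvd_left hmn (h P hP)

open Classical in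
theorem dout_ctn_union {k : Type} [Field k] [NumberField k]
    {S : Finset (HeightOneSpectrum (𝓞 k))} {n : ℕ} (h : Ctn S n)
    (R : Finset (HeightOneSpectrum (𝓞 k))) : Ctn (S ∪ R) n :=
  fun P hP => h P fun h' => hP (Finset.mem_union_left _ h')

/-- Row ELL-D7. -/
theorem sout (h : SHer) : SOut := by
  classical
  intro k _ _ T G _ _ hG S hS
  obtain ⟨n, hn⟩ : ∃ n, n = Nat.card G := ⟨_, rfl⟩
  induction n using Nat.strong_induction_on generalizing G with
  | _ n ih =>
    rcases subsingleton_or_nontrivial G with hs | hnt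
    · refine ⟨1, le_rfl, fun R => ?_⟩
      have hsub : (Hu T G (S ∪ R)).Subsingleton := fun ρ _ ρ' _ =>
        MonoidHom.ext fun σ => Subsingleton.elim _ _
      refine ⟨hsub.finite, ?_⟩
      rw [one_pow]
      exact (Set.ncard_le_one hsub.finite).2 fun a ha b hb => hsub ha hb
    · have hZ : Nontrivial (Subgroup.center G) :=
        (Subgroup.nontrivial_iff_ne_bot _).2 (Group.IsNilpotent.center_ne_bot G)
      have hcard : Nat.card G = Nat.card (G ⧸ Subgroup.center G) *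
          Nat.card (Subgroup.center G) := Subgroup.card_eq_card_quotient_mul_card_subgroup _
      have hz1 : 1 < Nat.card (Subgroup.center G) := Finite.one_lt_card
      have hq0 : 0 < Nat.card (G ⧸ Subgroup.center G) := Nat.card_pos
      have hlt : Nat.card (G ⧸ Subgroup.center G) < n := by
        rw [hn, hcard]
        nlinarith
      have hdq : Nat.card (G ⧸ Subgroup.center G) ∣ Nat.card G := Dvd.intro _ hcard.symm
      have hdz : Nat.card (Subgroup.center G) ∣ Nat.card G := Dvd.intro_left _ hcard.symm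
      obtain ⟨C, hC, hCR⟩ := ih _ hlt (G ⧸ Subgroup.center G) inferInstance
        (dout_ctn hS hdq) rfl
      have hZfin : (Hu T (Subgroup.center G) S).Finite := h k T _ S (dout_ctn hS hdz)
      have hZ1 : 1 ≤ (Hu T (Subgroup.center G) S).ncard := by
        rw [Nat.one_le_iff_ne_zero]
        exact Set.ncard_ne_zero_of_mem (a := 1)
          (show (1 : Gm k →* Subgroup.center G) ∈ Hu T (Subgroup.center G) S from
            ⟨IsLocallyConstant.const _, fun P _ => rfl⟩) hZfin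
      refine ⟨(Hu T (Subgroup.center G) S).ncard * Nat.card (Subgroup.center G) * C,
        Nat.one_le_iff_ne_zero.2 (by positivity), fun R => ?_⟩
      have hfin := h k T G (S ∪ R) (dout_ctn_union hS R)
      refine ⟨hfin, ?_⟩
      obtain ⟨hq1, hq2⟩ := hCR R
      have hZR : (Hu T (Subgroup.center G) (S ∪ R)).Finite :=
        h k T _ (S ∪ R) (dout_ctn_union (dout_ctn hS hdz) R)
      have s1 := dout_step1 T (S ∪ R) hfin hq1 hZR
      have s2 := dout_step2 T (A := Subgroup.center G) (fun a b => Subtype.ext (Subgroup.mem_center_iff.1 b.2 a)) S R hZR hZfin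
      set c := (Hu T (Subgroup.center G) S).ncard with hc
      set z := Nat.card (Subgroup.center G) with hz
      calc (Hu T G (S ∪ R)).ncard ≤ (Hu T (Subgroup.center G) (S ∪ R)).ncard *
            (Hu T (G ⧸ Subgroup.center G) (S ∪ R)).ncard := s1
        _ ≤ (c * z ^ R.card) * C ^ (R.card + 1) := Nat.mul_le_mul s2 hq2
        _ ≤ (c ^ (R.card + 1) * z ^ (R.card + 1)) * C ^ (R.card + 1) := by
            refine Nat.mul_le_mul_right _ (Nat.mul_le_mul ?_ ?_)
            · calc c = c ^ 1 := (pow_one c).symm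
                _ ≤ c ^ (R.card + 1) := Nat.pow_le_pow_right hZ1 (by omega)
            · exact Nat.pow_le_pow_right (by omega) (by omega)
        _ = (c * z * C) ^ (R.card + 1) := by rw [mul_pow, mul_pow]

end Pool.Agent.H92.EL
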