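import Pool.Agent.H92.EL.ZStm

/-!
# Project T4 (MP_a3214d): the final statement for Galois extensions
-/

set_option autoImplicit false

open scoped BigOperators Pointwise Topology
open NumberField IsDedekindDomain Filter

namespace Pool.Agent.H92.EL

open Pool.Agent.H98.MF (Om Gm ord Dec top nrm fld rdN rexp rex)

/-- the number of Galois extensions of `k` with group `G` and relative discriminant of norm at
most `X` -/
noncomputable def NGal (k : Type) [Field k] [NumberField k] (G : Type) [Group G] (X : ℝ) : ℕ :=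
  {L : IntermediateField k (AlgebraicClosure k) | IsGalois k L ∧ Nonempty ((L ≃ₐ[k] L) ≃* G) ∧
    ∃ h : NumberField L, ((|@NumberField.discr L _ h| : ℤ) : ℝ) ≤
      X * ((|NumberField.discr k| : ℤ) : ℝ) ^ Nat.card G}.ncard

/-- a Galois automorphism maps the class `c` to `c'` -/
def cycG (k : Type) [Field k] (l : ℕ) (G : Type) [Group G] (c c' : Ncl l G) : Prop :=
  ∃ (σ : AlgebraicClosure k ≃ₐ[k] AlgebraicClosure k) (j : ℕ),
    (∀ ζ : AlgebraicClosure k, ζ ^ l = 1 → σ ζ = ζ ^ j) ∧
    ∃ g : G, ConjClasses.mk g = c.1 ∧ ConjClasses.mk (g ^ j) = c'.1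

/-- the number of orbits of the Galois group on the classes of elements of order `l` -/
noncomputable def bG (k : Type) [Field k] (l : ℕ) (G : Type) [Group G] : ℕ :=
  Nat.card (Quot (cycG k l G))

/-- T1: fields and homomorphisms -/
def SFldG : Prop := ∀ (G : Type) [Group G] [Finite G], ∃ κ : ℝ, 0 < κ ∧
  ∀ (k : Type) [Field k] [NumberField k] (X : ℝ), (NGal k G X : ℝ) =
    κ * ({ρ : Gm k →* G | ρ ∈ Hk k G ∧ (dG ρ : ℝ) ≤ X}.ncard : ℝ)

/-- T2: the number of orbits -/
def SbG : Prop := ∀ (k : Type) [Field k] [NumberField k] (G : Type) [Group G] [Finite G]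
  (l : ℕ), l.Prime → Zt l G → bG k l G * Nat.card (cyc k l) = Nat.card (Ncl l G)

/-- T3: a Galois extension with group `G` gives a homomorphism -/
def SEx : Prop := ∀ (k : Type) [Field k] [NumberField k] (G : Type) [Group G] [Finite G],
  (∃ L : IntermediateField k (AlgebraicClosure k), IsGalois k L ∧
    Nonempty ((L ≃ₐ[k] L) ≃* G)) → (Hk k G).Nonempty

/-- the inner statements hold for `G` -/
def Inn (l : ℕ) : Prop := ∀ (k : Type) [Field k] [NumberField k] (T : TM k) (G : Type)
  [Group G] (b : ℕ), Hyp l G → Zt l G → b * Nat.card (cyc k l) = Nat.card (Ncl l G) →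
    InnF T G l b ∧ InnU T G l b

/-- the final theorem for the prime `l` -/
def T4 (l : ℕ) : Prop := ∀ (k : Type) [Field k] [NumberField k] (G : Type) [Group G],
  Hyp l G → Zt l G → (Hk k G).Nonempty → ∃ c : ℝ, 0 < c ∧
    Tendsto (fun X : ℝ => (NGal k G X : ℝ) /
      (X ^ (1 / ((Nat.card G - Nat.card G / l : ℕ) : ℝ)) * Real.log X ^ (bG k l G - 1)))
      atTop (𝓝 c)

end Pool.Agent.H92.EL
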