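import Pool.Agent.H92.EL.GStm
import Pool.Agent.H92.EL.TStm
import Pool.Agent.H92.EL.DRel
import Pool.Agent.H92.EL.DDis
import Pool.Agent.H92.EL.DOut

/-!
# Project T4 (MP_a3214d): the tame relation, finite ramification, from `SInnF`, `SInnU` to `Inn`
-/

set_option autoImplicit false

open scoped BigOperators Topology
open NumberField IsDedekindDomain Filter

namespace Pool.Agent.H92.EL

open Pool.Agent.H98.MF (Gm Dec nrm rdN fld)

theorem relT {k : Type} [Field k] [NumberField k] (T : TM k) : RelT k T.tau T.phi := by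
  intro G _ _ ρ hρ P hP
  exact (srelT k T G ρ hρ P hP.symm).1

/-- the primes not prime to a number -/
theorem ctn_ex (k : Type) [Field k] [NumberField k] (n : ℕ) (hn : n ≠ 0) :
    ∃ S : Finset (HeightOneSpectrum (𝓞 k)), Ctn S n := by
  classical
  have h0 : (algebraMap ℤ (𝓞 k) n) ≠ 0 := by
    rw [map_ne_zero_iff _ (RingHom.injective_int (algebraMap ℤ (𝓞 k)))]
    exact_mod_cast hn
  have hI : Ideal.span {(algebraMap ℤ (𝓞 k) n)} ≠ 0 := by
    rwa [Ne, Ideal.zero_eq_bot, Ideal.span_singleton_eq_bot]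
  have hf := Ideal.finite_factors hI
  refine ⟨hf.toFinset, fun P hP => ?_⟩
  rw [Set.Finite.mem_toFinset] at hP
  by_contra hc
  apply hP
  obtain ⟨p, hp, hpn, hpP⟩ := Nat.Prime.not_coprime_iff_dvd.1 hc
  change P.asIdeal ∣ Ideal.span {(algebraMap ℤ (𝓞 k) n)}
  rw [Ideal.dvd_span_singleton]
  have hmem : ((nrm P : ℕ) : 𝓞 k) ∈ P.asIdeal := Ideal.absNorm_mem P.asIdeal
  -- the residue characteristic of `P` is `p`
  obtain ⟨q, m, hq, hm, hqm⟩ : ∃ q m : ℕ, q.Prime ∧ m ≠ 0 ∧ nrm P = q ^ m := by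
    haveI := P.isPrime
    haveI : P.asIdeal.IsMaximal := P.isMaximal
    letI : Field (𝓞 k ⧸ P.asIdeal) := Ideal.Quotient.field P.asIdeal
    haveI : Finite (𝓞 k ⧸ P.asIdeal) := Ring.HasFiniteQuotients.finiteQuotient P.ne_bot
    haveI : Fintype (𝓞 k ⧸ P.asIdeal) := Fintype.ofFinite _
    obtain ⟨q, _, m, hq, hm⟩ := FiniteField.card' (𝓞 k ⧸ P.asIdeal)
    refine ⟨q, m, hq, m.ne_zero, ?_⟩
    rw [← hm, ← Nat.card_eq_fintype_card]
    rfl
  have hpq : p = q := by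
    rw [hqm] at hpP
    exact (Nat.prime_dvd_prime_iff_eq hp hq).1 (hp.dvd_of_dvd_pow hpP)
  have hmem2 : ((q : ℕ) : 𝓞 k) ∈ P.asIdeal := by
    rw [hqm] at hmem
    push_cast at hmem
    exact P.isPrime.mem_of_pow_mem _ hmem
  obtain ⟨c, hc⟩ := hpn
  rw [hc, hpq]
  push_cast
  exact Ideal.mul_mem_right _ _ hmem2

theorem finT {k : Type} [Field k] [NumberField k] (T : TM k) : FinT k T.tau := by
  intro G _ _ ρ hρ
  classical
  let ρ' : Gm k →* ρ.range := ρ.rangeRestrict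
  have hlc : IsLocallyConstant ρ' := by
    rw [IsLocallyConstant.iff_eventually_eq]
    intro σ
    filter_upwards [(IsLocallyConstant.iff_eventually_eq _).1 hρ σ] with τ hτ
    exact Subtype.ext hτ
  have hk : ρ' ∈ Hk k ρ.range := ⟨ρ.rangeRestrict_surjective, hlc⟩
  obtain ⟨S, hS⟩ := ctn_ex k (Nat.card ρ.range) Nat.card_pos.ne'
  obtain ⟨F, hF, -⟩ := sprodT sdisT k T ρ.range ρ' hk S hS
  refine (S ∪ F).finite_toSet.subset fun P hP => ?_
  by_cases hPS : P ∈ S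
  · exact Finset.mem_coe.2 (Finset.mem_union_left _ hPS)
  · refine Finset.mem_coe.2 (Finset.mem_union_right _ ((hF P).2 ⟨hPS, fun h => hP ?_⟩))
    exact congrArg Subtype.val h

theorem nl_of_hyp {l : ℕ} {G : Type} [Group G] (h : Hyp l G) (hz : Zt l G) : Nl l G :=
  ⟨h.fin, h.nil, h.least, h.dvd, hz⟩

theorem inn_of (hF : SInnF) (hU : SInnU) (l : ℕ) (hp : l.Prime) (hl : l ≠ 2) : Inn l := by
  intro k _ _ T G _ b hG hz hb
  haveI : Fact l.Prime := ⟨hp⟩
  exact ⟨hF k l T G hl (nl_of_hyp hG hz) b hb, hU k l T G hl (nl_of_hyp hG hz) b hb⟩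

end Pool.Agent.H92.EL
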