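import Pool.Agent.H92.EL.ZStm
import Pool.Agent.H92.EL.DLoc

/-!
# Project T4 (MP_a3214d), assembly: the uniform bound
-/

set_option autoImplicit false

open scoped BigOperators Pointwise Topology
open NumberField IsDedekindDomain Filter

namespace Pool.Agent.H92.EL

open Pool.Agent.H98.MF (Om Gm ord Dec top nrm fld rdN rexp rex)

/-- a bound for a union -/
theorem zuni_union {α ι : Type} (I : Finset ι) (s : Set α) (t : ι → Set α) (B : ℝ)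
    (ht : ∀ i ∈ I, (t i).Finite) (hB : ∀ i ∈ I, ((t i).ncard : ℝ) ≤ B)
    (hs : ∀ x ∈ s, ∃ i ∈ I, x ∈ t i) : (s.ncard : ℝ) ≤ (I.card : ℝ) * B := by
  have h1 : s ⊆ ⋃ i ∈ I, t i := by
    intro x hx
    obtain ⟨i, hi, hxi⟩ := hs x hx
    exact Set.mem_iUnion₂.2 ⟨i, hi, hxi⟩
  have h2 : (⋃ i ∈ I, t i).Finite := Set.Finite.biUnion I.finite_toSet ht
  have h3 : (s.ncard : ℝ) ≤ ∑ i ∈ I, ((t i).ncard : ℝ) := by
    have h4 := (Set.ncard_le_ncard h1 h2).trans (Finset.set_ncard_biUnion_le I t)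
    exact_mod_cast h4
  refine h3.trans ?_
  rw [← nsmul_eq_mul]
  exact Finset.sum_le_card_nsmul I _ _ hB

/-- finiteness of the sets of the inner statement -/
theorem zuni_fin (h2 : ZDis) {k : Type} [Field k] [NumberField k] (T : TM k) {G : Type}
    [Group G] {l : ℕ} (hH : Hyp l G) (S : Finset (HeightOneSpectrum (𝓞 k)))
    (hS : Ctn S (Nat.card G)) (Y : ℝ) :
    {ρ : Gm k →* G | ρ ∈ Hk k G ∧ (∀ P, P ∉ S → ρ (T.tau P) ^ l = 1) ∧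
      (nO T S ρ : ℝ) ≤ Y}.Finite := by
  have := hH.fin
  obtain ⟨-, hb, -, hd⟩ := h2 k T G l hH S hS
  obtain ⟨hv, -⟩ := svalT sbdT k G S
  obtain ⟨Q, hQ⟩ := hv.bddAbove
  refine (hd ((Q : ℝ) * Y ^ (Nat.card G - Nat.card G / l))).subset ?_
  rintro ρ ⟨hρ, h3, h4⟩
  refine ⟨hρ, ?_⟩
  rw [hb ρ hρ h3]
  push_cast
  have h5 : ((qS S ρ : ℕ) : ℝ) ≤ Q := by
    have h6 : qS S ρ ≤ Q := hQ ⟨ρ, hρ, rfl⟩
    exact_mod_cast h6
  exact mul_le_mul h5 (pow_le_pow_left₀ (Nat.cast_nonneg _) h4 _) (by positivity) (by positivity)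

theorem zuni_m {l : ℕ} {G : Type} [Group G] (hH : Hyp l G) :
    1 ≤ Nat.card G - Nat.card G / l := by
  have := hH.fin
  have h1 : 0 < Nat.card G := Nat.card_pos
  have h2 : Nat.card G / l < Nat.card G := Nat.div_lt_self h1 hH.prm.one_lt
  omega

/-- the real inequality -/
theorem zuni_real {b : ℕ} {m : ℕ} (hm : 1 ≤ m) {N X w0 ε : ℝ} (hN : 1 ≤ N) (hX : 2 ≤ X)
    (hw : 0 ≤ w0) (hY : 1 ≤ X ^ (1 / (m : ℝ)) * N ^ (-w0)) {C : ℝ} (hC : 0 ≤ C) :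
    C * N ^ ε * (max (X ^ (1 / (m : ℝ)) * N ^ (-w0)) 2 *
      Real.log (max (X ^ (1 / (m : ℝ)) * N ^ (-w0)) 2) ^ (b - 1)) ≤
      2 * C * N ^ (-(w0 - ε)) * (X ^ (1 / (m : ℝ)) * Real.log X ^ (b - 1)) := by
  obtain ⟨M, hM⟩ : ∃ M, M = X ^ (1 / (m : ℝ)) := ⟨_, rfl⟩
  obtain ⟨Y, hYd⟩ : ∃ Y, Y = X ^ (1 / (m : ℝ)) * N ^ (-w0) := ⟨_, rfl⟩
  rw [← hYd] at hY ⊢
  rw [← hM] at hYd ⊢
  have hN0 : 0 < N := by linarith
  have hM0 : 0 < M := by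
    rw [hM]
    exact Real.rpow_pos_of_pos (by linarith) _
  have hNw : N ^ (-w0) ≤ 1 := Real.rpow_le_one_of_one_le_of_nonpos hN (by linarith)
  have hYM : Y ≤ M := by
    rw [hYd]
    exact mul_le_of_le_one_right hM0.le hNw
  have hm1 : (1 : ℝ) ≤ m := by exact_mod_cast hm
  have hMX : M ≤ X := by
    rw [hM]
    have h1 : X ^ (1 / (m : ℝ)) ≤ X ^ (1 : ℝ) := by
      refine Real.rpow_le_rpow_of_exponent_le (by linarith) ?_
      rw [div_le_one (by linarith)]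
      exact hm1
    rwa [Real.rpow_one] at h1
  have h1 : max Y 2 ≤ X := max_le (hYM.trans hMX) hX
  have h2 : (0 : ℝ) < max Y 2 := lt_of_lt_of_le (by norm_num) (le_max_right Y 2)
  have h3 : Real.log (max Y 2) ≤ Real.log X := Real.log_le_log h2 h1
  have h4 : 0 ≤ Real.log (max Y 2) := Real.log_nonneg (le_trans (by norm_num) (le_max_right Y 2))
  have h5 : Real.log (max Y 2) ^ (b - 1) ≤ Real.log X ^ (b - 1) := pow_le_pow_left₀ h4 h3 _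
  have h6 : max Y 2 ≤ 2 * Y := max_le (by linarith) (by linarith)
  have h7 : max Y 2 * Real.log (max Y 2) ^ (b - 1) ≤ (2 * Y) * Real.log X ^ (b - 1) :=
    mul_le_mul h6 h5 (pow_nonneg h4 _) (by linarith)
  have h8 : 0 ≤ C * N ^ ε := mul_nonneg hC (Real.rpow_nonneg hN0.le _)
  refine (mul_le_mul_of_nonneg_left h7 h8).trans (le_of_eq ?_)
  have h9 : N ^ (-(w0 - ε)) = N ^ ε * N ^ (-w0) := by
    rw [← Real.rpow_add hN0]
    congr 1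
    ring
  rw [h9, hYd]
  ring

open Classical in
/-- the number of homomorphisms with given class and given inertia at `R` -/
theorem zuni_one (h2 : ZDis) {k : Type} [Field k] [NumberField k] (T : TM k) {G : Type}
    [Group G] {l b : ℕ} (hH : Hyp l G) (S : Finset (HeightOneSpectrum (𝓞 k)))
    (hS : Ctn S (Nat.card G)) {w0 ε C : ℝ} (hw0 : 1 < w0) (hC : 0 ≤ C)
    (hc : ∀ ρ : Gm k →* G, ρ ∈ Hk k G → ∀ R : Finset (HeightOneSpectrum (𝓞 k)),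
      Rw T S l ρ = (R : Set (HeightOneSpectrum (𝓞 k))) →
      ((nO T (S ∪ R) ρ : ℝ) * ((∏ P ∈ R, nrm P : ℕ) : ℝ) ^ w0) ^
        (Nat.card G - Nat.card G / l) ≤ (dG ρ : ℝ))
    (R : Finset (HeightOneSpectrum (𝓞 k))) (ρ0 : Gm k →* G)
    (u : HeightOneSpectrum (𝓞 k) → G)
    (hI : ∀ Y : ℝ, 2 ≤ Y →
      ({ρ : Gm k →* G | ρ ∈ Hk k G ∧ Cg l ρ ρ0 ∧ (∀ P ∈ R, ρ (T.tau P) = u P) ∧
        (∀ P, P ∉ S → P ∉ R → ρ (T.tau P) ^ l = 1) ∧ (nO T (S ∪ R) ρ : ℝ) ≤ Y}.ncard : ℝ) ≤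
        C * ((∏ P ∈ R, nrm P : ℕ) : ℝ) ^ ε * (Y * Real.log Y ^ (b - 1)))
    (X : ℝ) (hX : 2 ≤ X) :
    (({ρ | ρ ∈ AR T G l S R X ∧ Cg l ρ ρ0 ∧ ∀ P ∈ R, ρ (T.tau P) = u P} :
      Set (Gm k →* G)).ncard : ℝ) ≤
      2 * C * ((∏ P ∈ R, nrm P : ℕ) : ℝ) ^ (-(w0 - ε)) * gr G l b X := by
  have hm := zuni_m hH
  have hN : (1 : ℝ) ≤ ((∏ P ∈ R, nrm P : ℕ) : ℝ) := by
    have h3 : 1 ≤ ∏ P ∈ R, nrm P := Finset.one_le_prod' fun P _ => dloc_nrm P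
    exact_mod_cast h3
  unfold gr
  obtain ⟨m, hmd⟩ : ∃ m, m = Nat.card G - Nat.card G / l := ⟨_, rfl⟩
  obtain ⟨N, hNd⟩ : ∃ N, N = ((∏ P ∈ R, nrm P : ℕ) : ℝ) := ⟨_, rfl⟩
  rw [← hmd, ← hNd]
  rw [← hmd] at hc hm
  rw [← hNd] at hI hN
  have hN0 : 0 < N := by linarith
  have hSR : Ctn (S ∪ R) (Nat.card G) := fun P hP =>
    hS P fun h3 => hP (Finset.mem_union_left _ h3)
  obtain ⟨ha, -, -, -⟩ := h2 k T G l hH (S ∪ R) hSR
  -- the bound for the norm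
  have key : ∀ ρ ∈ AR T G l S R X, (nO T (S ∪ R) ρ : ℝ) ≤ X ^ (1 / (m : ℝ)) * N ^ (-w0) := by
    rintro ρ ⟨hρ, hR, hd⟩
    have h3 := (hc ρ hρ R hR).trans hd
    rw [← hNd] at h3
    have h4 : 0 ≤ (nO T (S ∪ R) ρ : ℝ) * N ^ w0 :=
      mul_nonneg (Nat.cast_nonneg _) (Real.rpow_nonneg hN0.le _)
    have h5 : (nO T (S ∪ R) ρ : ℝ) * N ^ w0 ≤ X ^ (1 / (m : ℝ)) := by
      have h6 := Real.rpow_le_rpow (pow_nonneg h4 m) h3
        (show (0 : ℝ) ≤ ((m : ℕ) : ℝ)⁻¹ by positivity)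
      rw [Real.pow_rpow_inv_natCast h4 (by omega)] at h6
      rwa [one_div]
    have h7 : (nO T (S ∪ R) ρ : ℝ) = ((nO T (S ∪ R) ρ : ℝ) * N ^ w0) * N ^ (-w0) := by
      rw [mul_assoc, ← Real.rpow_add hN0, add_neg_cancel, Real.rpow_zero, mul_one]
    rw [h7]
    exact mul_le_mul_of_nonneg_right h5 (Real.rpow_nonneg hN0.le _)
  have hlog : 0 ≤ Real.log X := Real.log_nonneg (by linarith)
  rcases lt_or_ge (X ^ (1 / (m : ℝ)) * N ^ (-w0)) 1 with hY | hY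
  · have h3 : ({ρ | ρ ∈ AR T G l S R X ∧ Cg l ρ ρ0 ∧ ∀ P ∈ R, ρ (T.tau P) = u P} :
        Set (Gm k →* G)) = ∅ := by
      rw [Set.eq_empty_iff_forall_notMem]
      rintro ρ ⟨hρ, -, -⟩
      have h4 := key ρ hρ
      have h5 : (1 : ℝ) ≤ (nO T (S ∪ R) ρ : ℝ) := by
        exact_mod_cast (ha ρ hρ.1).1
      linarith
    rw [h3, Set.ncard_empty, Nat.cast_zero]
    have h6 : 0 ≤ N ^ (-(w0 - ε)) := Real.rpow_nonneg hN0.le _
    have h7 : 0 ≤ X ^ (1 / (m : ℝ)) := Real.rpow_nonneg (by linarith) _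
    have h8 : 0 ≤ Real.log X ^ (b - 1) := pow_nonneg hlog _
    positivity
  · have h3 := hI (max (X ^ (1 / (m : ℝ)) * N ^ (-w0)) 2) (le_max_right _ _)
    refine le_trans ?_ (h3.trans (zuni_real hm hN hX (by linarith) hY hC))
    have h4 : ({ρ | ρ ∈ AR T G l S R X ∧ Cg l ρ ρ0 ∧ ∀ P ∈ R, ρ (T.tau P) = u P} :
        Set (Gm k →* G)).ncard ≤ ({ρ : Gm k →* G | ρ ∈ Hk k G ∧ Cg l ρ ρ0 ∧
        (∀ P ∈ R, ρ (T.tau P) = u P) ∧ (∀ P, P ∉ S → P ∉ R → ρ (T.tau P) ^ l = 1) ∧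
        (nO T (S ∪ R) ρ : ℝ) ≤ max (X ^ (1 / (m : ℝ)) * N ^ (-w0)) 2}).ncard := by
      refine Set.ncard_le_ncard ?_ ?_
      · rintro ρ ⟨hρ, h5, h6⟩
        refine ⟨hρ.1, h5, h6, fun P hP hPR => ?_, (key ρ hρ).trans (le_max_left _ _)⟩
        by_contra h7
        have h8 : P ∈ Rw T S l ρ := ⟨hP, h7⟩
        rw [hρ.2.1] at h8
        exact hPR h8
      · refine (zuni_fin h2 T hH (S ∪ R) hSR (max (X ^ (1 / (m : ℝ)) * N ^ (-w0)) 2)).subset ?_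
        rintro ρ ⟨h5, -, -, h6, h7⟩
        refine ⟨h5, fun P hP => ?_, h7⟩
        rw [Finset.mem_union, not_or] at hP
        exact h6 P hP.1 hP.2
    exact_mod_cast h4

open Classical in
theorem zuni (h1 : ZRep) (h2 : ZDis) : ZUni := by
  intro k _ _ T G _ l b hH hU
  have := hH.fin
  let _ : Fintype G := Fintype.ofFinite G
  obtain ⟨S, hS, hI⟩ := hU
  obtain ⟨C1, hC1, hrep⟩ := h1 k T G l hH S hS
  obtain ⟨-, -, ⟨w0, hw0, hc⟩, hd⟩ := h2 k T G l hH S hS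
  obtain ⟨C2, hC2, hI2⟩ := hI ((w0 - 1) / 2) (by linarith)
  have hC1' : (1 : ℝ) ≤ C1 := by exact_mod_cast hC1
  have hG : (1 : ℝ) ≤ Fintype.card G := by
    exact_mod_cast Fintype.card_pos
  refine ⟨S, hS, (C1 * Fintype.card G) * (2 * C2 + 1), w0 - (w0 - 1) / 2, by positivity,
    by linarith, ?_⟩
  intro R X hX
  have hN : (1 : ℝ) ≤ ((∏ P ∈ R, nrm P : ℕ) : ℝ) := by
    have h3 : 1 ≤ ∏ P ∈ R, nrm P := Finset.one_le_prod' fun P _ => dloc_nrm P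
    exact_mod_cast h3
  have hgr : 0 ≤ gr G l b X := by
    unfold gr
    exact mul_nonneg (Real.rpow_nonneg (by linarith) _)
      (pow_nonneg (Real.log_nonneg (by linarith)) _)
  have hNw : 0 ≤ ((∏ P ∈ R, nrm P : ℕ) : ℝ) ^ (-(w0 - (w0 - 1) / 2)) :=
    Real.rpow_nonneg (by linarith) _
  by_cases hdis : Disjoint R S
  · obtain ⟨F, hF, hFl, hFr⟩ := hrep R
    obtain ⟨B, hB⟩ : ∃ B, B = 2 * C2 * ((∏ P ∈ R, nrm P : ℕ) : ℝ) ^ (-(w0 - (w0 - 1) / 2)) *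
      gr G l b X := ⟨_, rfl⟩
    have hB0 : 0 ≤ B := by
      rw [hB]
      positivity
    -- the functions on `R`
    obtain ⟨e, he⟩ : ∃ e : ({P // P ∈ R} → G) → HeightOneSpectrum (𝓞 k) → G,
      e = fun v P => if h : P ∈ R then v ⟨P, h⟩ else 1 := ⟨_, rfl⟩
    have h3 := zuni_union (F ×ˢ (Finset.univ : Finset ({P // P ∈ R} → G))) (AR T G l S R X)
      (fun i => {ρ | ρ ∈ AR T G l S R X ∧ Cg l ρ i.1 ∧ ∀ P ∈ R, ρ (T.tau P) = e i.2 P}) B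
      (fun i _ => (hd X).subset fun ρ hρ => ⟨hρ.1.1, hρ.1.2.2⟩)
      (fun i hi => by
        rw [hB]
        exact zuni_one h2 T hH S hS hw0 hC2 hc R i.1 (e i.2)
          (fun Y hY => hI2 R hdis i.1 (hFl i.1 (Finset.mem_product.1 hi).1) (e i.2) Y hY) X hX)
      (fun ρ hρ => by
        obtain ⟨ρ0, ⟨h4, h5⟩, -⟩ := hFr ρ hρ.1 (le_of_eq hρ.2.1)
        refine ⟨(ρ0, fun P => ρ (T.tau P.1)), Finset.mem_product.2 ⟨h4, Finset.mem_univ _⟩,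
          hρ, h5, fun P hP => ?_⟩
        rw [he]
        simp only [dif_pos hP])
    refine h3.trans ?_
    rw [Finset.card_product, Finset.card_univ, Fintype.card_fun, Fintype.card_coe]
    push_cast
    have h4 : (F.card : ℝ) ≤ (C1 : ℝ) ^ (R.card + 1) := by exact_mod_cast hF
    have h5 : (Fintype.card G : ℝ) ^ R.card ≤ (Fintype.card G : ℝ) ^ (R.card + 1) :=
      pow_le_pow_right₀ hG (Nat.le_succ _)
    have h6 : (2 * C2 + 1) ≤ (2 * C2 + 1) ^ (R.card + 1) :=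
      le_self_pow₀ (by linarith) (Nat.succ_ne_zero _)
    have h7 : 2 * C2 ≤ (2 * C2 + 1) ^ (R.card + 1) := by linarith
    have h8 : (F.card : ℝ) * (Fintype.card G : ℝ) ^ R.card ≤
        (C1 : ℝ) ^ (R.card + 1) * (Fintype.card G : ℝ) ^ (R.card + 1) :=
      mul_le_mul h4 h5 (by positivity) (by positivity)
    have h9 : B ≤ (2 * C2 + 1) ^ (R.card + 1) *
        ((∏ P ∈ R, nrm P : ℕ) : ℝ) ^ (-(w0 - (w0 - 1) / 2)) * gr G l b X := by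
      rw [hB]
      exact mul_le_mul_of_nonneg_right (mul_le_mul_of_nonneg_right h7 hNw) hgr
    refine (mul_le_mul h8 h9 hB0 (by positivity)).trans (le_of_eq ?_)
    rw [mul_pow, mul_pow]
    push_cast
    ring
  · have h3 : AR T G l S R X = ∅ := by
      rw [Set.eq_empty_iff_forall_notMem]
      rintro ρ ⟨-, hR, -⟩
      apply hdis
      rw [Finset.disjoint_left]
      intro P hP
      have h4 : P ∈ Rw T S l ρ := by
        rw [hR]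
        exact hP
      exact h4.1
    rw [h3, Set.ncard_empty, Nat.cast_zero]
    positivity

end Pool.Agent.H92.EL
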