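import Pool.Agent.H92.EL.GStm
import Pool.Agent.H92.EL.GRel
import Pool.Agent.H92.EL.ZUni
import Pool.Agent.H92.EL.ZDis
import Pool.Agent.H92.EL.DFin

/-!
# Project T4 (MP_a3214d), homomorphisms for odd `l`: the inner statement for fixed data (row G12)
-/

set_option autoImplicit false

open scoped BigOperators Topology
open NumberField IsDedekindDomain Filter

namespace Pool.Agent.H92.EL

open Pool.Agent.H98.MF (Gm Dec nrm rdN fld)
open SysL (VV BD)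

/-- the growth function at a scaled argument -/
private theorem g12_scale (c : ℕ) {N : ℝ} (hN : 1 ≤ N) {f : ℝ → ℝ} {L : ℝ}
    (h : Tendsto (fun Y : ℝ => f Y / (Y * Real.log Y ^ c)) atTop (𝓝 L)) :
    Tendsto (fun Y : ℝ => f (Y / N) / (Y * Real.log Y ^ c)) atTop (𝓝 (L / N)) := by
  have hN0 : 0 < N := by linarith
  have h1 : Tendsto (fun Y : ℝ => Y / N) atTop atTop := tendsto_id.atTop_div_const hN0
  have h2 := h.comp h1
  have h3 : Tendsto (fun X : ℝ => 1 - Real.log N / Real.log X) atTop (𝓝 (1 - 0)) :=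
    tendsto_const_nhds.sub (Tendsto.const_div_atTop Real.tendsto_log_atTop _)
  rw [sub_zero] at h3
  have h4 := (h3.pow c).div_const N
  rw [one_pow] at h4
  have h5 := h2.mul h4
  rw [mul_one_div] at h5
  refine h5.congr' ?_
  filter_upwards [eventually_gt_atTop N] with X hX
  have hX0 : 0 < X := by linarith
  have hX1 : 1 < X := by linarith
  have hl : Real.log X ≠ 0 := (Real.log_pos hX1).ne'
  have hl2 : Real.log (X / N) ≠ 0 := (Real.log_pos ((one_lt_div hN0).2 hX)).ne'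
  have h6 : 1 - Real.log N / Real.log X = Real.log (X / N) / Real.log X := by
    rw [Real.log_div hX0.ne' hN0.ne']
    field_simp
  have h7 : Real.log (X / N) ^ c ≠ 0 := pow_ne_zero _ hl2
  have h8 : Real.log X ^ c ≠ 0 := pow_ne_zero _ hl
  simp only [Function.comp_apply]
  rw [h6, div_pow]
  generalize Real.log (X / N) ^ c = u at h7
  generalize Real.log X ^ c = v at h8
  field_simp

section

variable {k : Type} [Field k] [NumberField k] {G : Type} [Group G]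

private theorem g12_nrm (P : HeightOneSpectrum (𝓞 k)) : 1 ≤ nrm P := by
  unfold Pool.Agent.H98.MF.nrm
  exact Nat.one_le_iff_ne_zero.2 (by
    rw [Ne, Ideal.absNorm_eq_zero_iff]
    exact P.ne_bot)

private theorem g12_cg {l : ℕ} {ρ ρ1 ρ0 : Gm k →* G} (h : Cg l ρ1 ρ0) :
    Cg l ρ ρ1 ↔ Cg l ρ ρ0 := by
  constructor
  · intro h1 σ
    have h2 := (Om1 l G).mul_mem (h1 σ) (h σ)
    rwa [mul_assoc, inv_mul_cancel_left] at h2
  · intro h1 σ
    have h2 := (Om1 l G).mul_mem (h1 σ) ((Om1 l G).inv_mem (h σ))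
    rwa [mul_inv_rev, inv_inv, mul_assoc, inv_mul_cancel_left] at h2

open Classical in
private theorem g12_nO (T : TM k) [Finite G] {S S' : Finset (HeightOneSpectrum (𝓞 k))}
    (hS : S ⊆ S') {ρ : Gm k →* G} (hρ : IsLocallyConstant ρ) :
    nO T S ρ = nO T S' ρ * ∏ P ∈ (S' \ S).filter fun P => ρ (T.tau P) ≠ 1, nrm P := by
  have hf := finT T G ρ hρ
  have hset : {P : HeightOneSpectrum (𝓞 k) | P ∉ S ∧ ρ (T.tau P) ≠ 1} =
      {P : HeightOneSpectrum (𝓞 k) | P ∉ S' ∧ ρ (T.tau P) ≠ 1} ∪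
        (((S' \ S).filter fun P => ρ (T.tau P) ≠ 1 : Finset (HeightOneSpectrum (𝓞 k))) :
          Set (HeightOneSpectrum (𝓞 k))) := by
    ext P
    simp only [Set.mem_ofPred_eq, Set.mem_union, Finset.coe_filter, Finset.mem_sdiff]
    constructor
    · rintro ⟨h1, h2⟩
      by_cases h3 : P ∈ S'
      · exact Or.inr ⟨⟨h3, h1⟩, h2⟩
      · exact Or.inl ⟨h3, h2⟩
    · rintro (⟨h1, h2⟩ | ⟨⟨-, h1⟩, h2⟩)
      · exact ⟨fun h3 => h1 (hS h3), h2⟩
      · exact ⟨h1, h2⟩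
  unfold nO
  rw [hset, ← finprod_mem_coe_finset, ← finprod_mem_union]
  · rw [Set.disjoint_left]
    rintro P ⟨h1, -⟩ h2
    rw [Finset.mem_coe, Finset.mem_filter, Finset.mem_sdiff] at h2
    exact h1 h2.1.1
  · exact hf.subset fun P hP => hP.2
  · exact Finset.finite_toSet _

end

/-- G12 -/
theorem sinnF
    (h9 : ∀ (k : Type) [Field k] [NumberField k] (l : ℕ) [Fact l.Prime] (T : TM k) (G : Type)
      [Group G], l ≠ 2 → Nl l G → ∀ (C : Cd l G) (Fr : FrI k l T.tau T.phi), SG9 C Fr)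
    (hfr : ∀ (k : Type) [Field k] [NumberField k] (l : ℕ) [Fact l.Prime] (T : TM k), l ≠ 2 →
      SFrI k l T.tau T.phi)
    (hcd : SGCd)
    (h10 : ∀ (k : Type) [Field k] [NumberField k] (l : ℕ) [Fact l.Prime] (G : Type) [Group G],
      l ≠ 2 → Nl l G → ∀ C : Cd l G, SG10 k C) : SInnF := by
  classical
  intro k _ _ l _ T G _ hl hG b hb ρ0 hρ0 S hS H hH
  have hfin : Finite G := hG.fin
  have hlp : l.Prime := Fact.out
  have hyp : Hyp l G := ⟨hG.fin, hG.nil, hlp, hG.dvd, hG.min⟩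
  by_cases hne : ∃ Y, (HI T l ρ0 H S Y).Nonempty
  swap
  · refine ⟨0, le_rfl, ?_, fun h => absurd h hne⟩
    have h1 : ∀ Y, HI T l ρ0 H S Y = ∅ := fun Y => by
      by_contra h
      exact hne ⟨Y, Set.nonempty_iff_ne_empty.2 h⟩
    simp only [h1, Set.ncard_empty, Nat.cast_zero, zero_div]
    exact tendsto_const_nhds
  obtain ⟨Y0, ρ1, hρ1, hcg, hH1, hl1, -⟩ := hne
  obtain ⟨C⟩ := hcd l hl G hG
  obtain ⟨Fr, hFr⟩ := hfr k l T hl (S ∪ (finT T G ρ1 hρ1.2).toFinset)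
  obtain ⟨R, RZ, hR, hRZ, hbb⟩ := h10 k l G hl hG C Fr.sys Fr.e_iff
  have hbe : C.bb R RZ = b := by
    have h1 := cyc_pos k hlp.one_lt
    exact Nat.eq_of_mul_eq_mul_right h1 (hbb.trans hb.symm)
  have hSS : S ⊆ Fr.S := Finset.subset_union_left.trans hFr
  have hS' : Ctn Fr.S (Nat.card G) := fun P hP => hS P fun h => hP (hSS h)
  have hU : Unr T Fr.S ρ1 := by
    intro P hP
    by_contra h
    exact hP (hFr (Finset.mem_union_right _ ((Set.Finite.mem_toFinset _).2 h)))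
  obtain ⟨HE, hHE⟩ : ∃ HE : Finset (HeightOneSpectrum (𝓞 k)) → (Gm k →* G) → Prop,
      ∀ E ρ, HE E ρ ↔ (H ρ ∧ ∀ P ∈ Fr.S \ S, ρ (T.tau P) ^ l = 1 ∧
        (ρ (T.tau P) ≠ 1 ↔ P ∈ E)) := ⟨_, fun _ _ => Iff.rfl⟩
  have hHEl : ∀ E, HLo Fr.S (HE E) := by
    intro E ρ ρ' h1 h2
    obtain ⟨h3, h4⟩ := (hHE E ρ).1 h2
    refine (hHE E ρ').2 ⟨hH ρ ρ' (fun P hP => h1 P (hSS hP)) h3, fun P hP => ?_⟩
    rw [← h1 P (Finset.mem_sdiff.1 hP).1 _ (T.tm P).decτ]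
    exact h4 P hP
  have hlim := fun E => h9 k l T G hl hG C Fr R RZ hR hRZ hS' ρ1 hρ1 hU (HE E) (hHEl E)
  choose L hL0 hLt hLp using hlim
  rw [hbe] at hLt
  -- the decomposition
  obtain ⟨N, hN⟩ : ∃ N : Finset (HeightOneSpectrum (𝓞 k)) → ℝ,
      ∀ E, N E = ((∏ P ∈ E, nrm P : ℕ) : ℝ) := ⟨_, fun _ => rfl⟩
  have hN1 : ∀ E, 1 ≤ N E := by
    intro E
    rw [hN]
    exact_mod_cast Nat.one_le_iff_ne_zero.2
      (Finset.prod_ne_zero_iff.2 fun P _ => Nat.one_le_iff_ne_zero.1 (g12_nrm P))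
  obtain ⟨e, he⟩ : ∃ e : (Gm k →* G) → Finset (HeightOneSpectrum (𝓞 k)),
      ∀ ρ, e ρ = (Fr.S \ S).filter fun P => ρ (T.tau P) ≠ 1 := ⟨_, fun _ => rfl⟩
  have hmem : ∀ E ∈ (Fr.S \ S).powerset, ∀ (Y : ℝ) (ρ : Gm k →* G),
      ρ ∈ HI T l ρ1 (HE E) Fr.S (Y / N E) ↔ (ρ ∈ HI T l ρ0 H S Y ∧ e ρ = E) := by
    intro E hE Y ρ
    have hE' := Finset.mem_powerset.1 hE
    have hnO : IsLocallyConstant ρ → e ρ = E →
        ((nO T Fr.S ρ : ℝ) ≤ Y / N E ↔ (nO T S ρ : ℝ) ≤ Y) := by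
      intro h1 h2
      rw [g12_nO T hSS h1, ← he, h2, Nat.cast_mul, ← hN, le_div_iff₀ (by linarith [hN1 E])]
    have hev : (∀ P ∈ Fr.S \ S, (ρ (T.tau P) ≠ 1 ↔ P ∈ E)) ↔ e ρ = E := by
      rw [he]
      constructor
      · intro h
        ext P
        rw [Finset.mem_filter]
        exact ⟨fun h1 => (h P h1.1).1 h1.2, fun h1 => ⟨hE' h1, (h P (hE' h1)).2 h1⟩⟩
      · intro h P hP
        rw [← h, Finset.mem_filter]
        exact ⟨fun h1 => ⟨hP, h1⟩, fun h1 => h1.2⟩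
    constructor
    · rintro ⟨k1, k2, k3, k4, k5⟩
      obtain ⟨k6, k7⟩ := (hHE E ρ).1 k3
      have k8 := hev.1 fun P hP => (k7 P hP).2
      refine ⟨⟨k1, (g12_cg hcg).1 k2, k6, ?_, (hnO k1.2 k8).1 k5⟩, k8⟩
      intro P hP
      by_cases h1 : P ∈ Fr.S
      · exact (k7 P (Finset.mem_sdiff.2 ⟨h1, hP⟩)).1
      · exact k4 P h1
    · rintro ⟨⟨k1, k2, k3, k4, k5⟩, k8⟩
      refine ⟨k1, (g12_cg hcg).2 k2, (hHE E ρ).2 ⟨k3, fun P hP => ⟨?_, hev.2 k8 P hP⟩⟩, ?_,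
        (hnO k1.2 k8).2 k5⟩
      · exact k4 P (Finset.mem_sdiff.1 hP).2
      · exact fun P hP => k4 P fun h => hP (hSS h)
  have hfinS : ∀ Y, (HI T l ρ0 H S Y).Finite := fun Y =>
    (zuni_fin (zdis (sprodT sdisT) sexp sdisT) T hyp S hS Y).subset
      fun ρ h => ⟨h.1, h.2.2.2.1, h.2.2.2.2⟩
  have hcount : ∀ Y : ℝ, (HI T l ρ0 H S Y).ncard =
      ∑ E ∈ (Fr.S \ S).powerset, (HI T l ρ1 (HE E) Fr.S (Y / N E)).ncard := by
    intro Y
    rw [Set.ncard_eq_toFinset_card _ (hfinS Y),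
      Finset.card_eq_sum_card_fiberwise (f := e) (t := (Fr.S \ S).powerset)]
    · refine Finset.sum_congr rfl fun E hE => ?_
      rw [← Set.ncard_coe_finset]
      congr 1
      ext ρ
      rw [hmem E hE Y ρ, Finset.coe_filter, Set.mem_ofPred_eq, Set.Finite.mem_toFinset]
    · intro ρ _
      rw [Finset.mem_coe, Finset.mem_powerset, he]
      exact Finset.filter_subset _ _
  refine ⟨∑ E ∈ (Fr.S \ S).powerset, L E / N E, ?_, ?_, fun _ => ?_⟩
  · exact Finset.sum_nonneg fun E _ => div_nonneg (hL0 E) (by linarith [hN1 E])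
  · have h1 : (fun Y : ℝ => ((HI T l ρ0 H S Y).ncard : ℝ) / (Y * Real.log Y ^ (b - 1))) =
        fun Y : ℝ => ∑ E ∈ (Fr.S \ S).powerset,
          ((HI T l ρ1 (HE E) Fr.S (Y / N E)).ncard : ℝ) / (Y * Real.log Y ^ (b - 1)) := by
      funext Y
      rw [hcount Y, Nat.cast_sum, Finset.sum_div]
    rw [h1]
    refine tendsto_finsetSum _ fun E _ => ?_
    exact g12_scale (b - 1) (hN1 E)
      (f := fun Y => ((HI T l ρ1 (HE E) Fr.S Y).ncard : ℝ)) (hLt E)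
  · refine Finset.sum_pos' (fun E _ => div_nonneg (hL0 E) (by linarith [hN1 E]))
      ⟨e ρ1, ?_, ?_⟩
    · rw [Finset.mem_powerset, he]
      exact Finset.filter_subset _ _
    · refine div_pos (hLp _ ((hHE _ _).2 ⟨hH1, fun P hP => ⟨?_, ?_⟩⟩)) (by linarith [hN1 (e ρ1)])
      · exact hl1 P (Finset.mem_sdiff.1 hP).2
      · rw [he, Finset.mem_filter]
        exact ⟨fun h => ⟨hP, h⟩, fun h => h.2⟩

end Pool.Agent.H92.EL
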