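import Pool.Agent.H92.EL.GStm

/-!
# Project T4 (MP_a3214d), row G13a: every homomorphism has a record
-/

set_option autoImplicit false

open scoped BigOperators Topology
open NumberField IsDedekindDomain Filter

namespace Pool.Agent.H92.EL

open Pool.Agent.H98.MF (Gm Dec nrm rdN fld)
open SysL (VV BD)

section

variable {k : Type} [Field k] [NumberField k] {l : ℕ} [Fact l.Prime]
  {tau phi : HeightOneSpectrum (𝓞 k) → Gm k} (Fr : FrI k l tau phi)

theorem g13a_rg {p : Fr.sys.P} (hp : Fr.sys.rg p) (h : Fr.sys.D) : Fr.sys.rg (Fr.sys.ac h p) := by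
  intro g hg
  have h1 : Fr.sys.ac (h⁻¹ * (g * h)) p = p := by
    rw [Fr.sys.ac_mul, Fr.sys.ac_mul, hg, ← Fr.sys.ac_mul, inv_mul_cancel, Fr.sys.ac_one]
  have h2 := hp _ h1
  rw [mul_comm g h, inv_mul_cancel_left] at h2
  exact h2

theorem g13a_bs (p : Fr.sys.P) : ∃ g, Fr.sys.ac g (Fr.bs (Fr.dn p)) = p :=
  (Fr.dn_eq _ _).1 (Fr.bs_dn p)

/-- the value at a prime of the family -/
theorem g13a_at {d : ℕ} (R : Finset (VV l d)) (y : Fin d → Fin Fr.U → ZMod l)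
    (x : R → Finset Fr.sys.P) (hx : Fr.sys.Gd x) (v : R) (p : Fr.sys.P) (hp : p ∈ x v)
    (g : Fr.sys.D) (hg : Fr.sys.ac g (Fr.bs (Fr.dn p)) = p) :
    Fr.aa R y x (tau (Fr.dn p)) =
      (Fr.kt (Fr.dn p) * (Fr.sys.e g : ZMod l)) • (v : VV l d) := by
  funext i
  unfold FrI.aa
  rw [Fr.un_tau _ _ (Fr.dn_not p), zero_add, Finset.sum_eq_single v]
  · rw [Finset.sum_eq_single p]
    · rw [Fr.al_self p (hx.1 v p hp) g hg, Pi.smul_apply, smul_eq_mul, mul_comm]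
    · intro q hq hqp
      refine Fr.al_tau q (hx.1 v q hq) _ (Fr.dn_not p) fun h => hqp ?_
      obtain ⟨g', hg'⟩ := (Fr.dn_eq _ _).1 h.symm
      exact (hx.2 v v q hq p hp g' hg').2
    · intro h
      exact absurd hp h
  · intro w _ hw
    rw [Finset.sum_eq_zero, mul_zero]
    intro q hq
    refine Fr.al_tau q (hx.1 w q hq) _ (Fr.dn_not p) fun h => hw ?_
    obtain ⟨g', hg'⟩ := (Fr.dn_eq _ _).1 h.symm
    exact (hx.2 w v q hq p hp g' hg').1
  · intro h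
    exact absurd (Finset.mem_univ v) h

/-- the value at the other primes -/
theorem g13a_off {d : ℕ} (R : Finset (VV l d)) (y : Fin d → Fin Fr.U → ZMod l)
    (x : R → Finset Fr.sys.P) (hx : Fr.sys.Gd x) (P : HeightOneSpectrum (𝓞 k)) (hP : P ∉ Fr.S)
    (h : ∀ v : R, ∀ p ∈ x v, Fr.dn p ≠ P) : Fr.aa R y x (tau P) = 0 := by
  funext i
  unfold FrI.aa
  rw [Fr.un_tau _ _ hP, zero_add, Pi.zero_apply]
  refine Finset.sum_eq_zero fun v _ => ?_
  rw [Finset.sum_eq_zero, mul_zero]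
  intro q hq
  exact Fr.al_tau q (hx.1 v q hq) P hP (h v q hq).symm

/-- the values determine the family at the primes where they agree -/
theorem g13a_sub {d : ℕ} {R : Finset (VV l d)} (hR : Fr.sys.Rep R)
    (y y' : Fin d → Fin Fr.U → ZMod l) (x x' : R → Finset Fr.sys.P) (hx : Fr.sys.Gd x)
    (hx' : Fr.sys.Gd x') (v : R) (p : Fr.sys.P) (hp : p ∈ x v)
    (h : Fr.aa R y x (tau (Fr.dn p)) = Fr.aa R y' x' (tau (Fr.dn p))) : p ∈ x' v := by
  obtain ⟨g, hg⟩ := g13a_bs Fr p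
  have h1 := g13a_at Fr R y x hx v p hp g hg
  have hv0 : (v : VV l d) ≠ 0 := fun h0 => hR.nz (h0 ▸ v.2)
  have hne : Fr.aa R y x (tau (Fr.dn p)) ≠ 0 := by
    rw [h1]
    exact smul_ne_zero (mul_ne_zero (Fr.kt_ne _) (Units.ne_zero _)) hv0
  by_cases hex : ∀ w : R, ∀ q ∈ x' w, Fr.dn q ≠ Fr.dn p
  · exact absurd (h.trans (g13a_off Fr R y' x' hx' _ (Fr.dn_not p) hex)) hne
  · push Not at hex
    obtain ⟨w, q, hq, hqp⟩ := hex
    obtain ⟨g', hg'⟩ := g13a_bs Fr q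
    have h2 := g13a_at Fr R y' x' hx' w q hq g' hg'
    rw [hqp] at h2 hg'
    rw [h1, h2, mul_smul, mul_smul] at h
    have h3 : (Fr.sys.e g : ZMod l) • (v : VV l d) = (Fr.sys.e g' : ZMod l) • (w : VV l d) :=
      smul_right_injective _ (Fr.kt_ne (Fr.dn p)) h
    have h4 : (v : VV l d) = (Fr.sys.e (g⁻¹ * g') : ZMod l) • (w : VV l d) := by
      rw [map_mul, map_inv, Units.val_mul, mul_smul, ← h3, smul_smul, Units.inv_mul, one_smul]
    have h5 : v = w := Subtype.ext (hR.un _ v.2 _ w.2 _ h4)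
    subst h5
    have h6 : (Fr.sys.e g : ZMod l) = (Fr.sys.e g' : ZMod l) :=
      smul_left_injective (ZMod l) hv0 h3
    have h7 : g = g' := Fr.sys.e_inj (Units.ext h6)
    subst h7
    rw [← hg, hg']
    exact hq

end

section

variable {k : Type} [Field k] [NumberField k] {l : ℕ} [Fact l.Prime] {T : TM k}
  {G : Type} [Group G]

theorem g13a_one (C : Cd l G) : C.nn 0 0 = 1 := by
  have h := C.nn_mul 0 0 0 0
  rw [map_zero, smul_zero] at h
  simp only [add_zero] at h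
  exact mul_eq_left.1 h

theorem g13a_pow (C : Cd l G) (w : VV l C.d) (z : VV l C.n) (m : ℕ) :
    ∃ z', C.nn w z ^ m = C.nn ((m : ZMod l) • w) z' := by
  induction m with
  | zero =>
    refine ⟨0, ?_⟩
    rw [pow_zero, Nat.cast_zero, zero_smul, g13a_one]
  | succ m ih =>
    obtain ⟨z', hz'⟩ := ih
    refine ⟨z' + z + (2 : ZMod l)⁻¹ • C.Bd.B ((m : ZMod l) • w) w, ?_⟩
    rw [pow_succ, hz', C.nn_mul, Nat.cast_succ, add_smul, one_smul]

/-- G13a: every homomorphism has a record -/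
theorem sg13a (hG : Nl l G) (C : Cd l G) (Fr : FrI k l T.tau T.phi) (_h4b : SG4b Fr)
    (hR : RelT k T.tau T.phi) (hF : FinT k T.tau) : SG13a C Fr := by
  classical
  intro R hRep hS A ρ hρ
  have hfin : Finite G := hG.fin
  have hlc : IsLocallyConstant ρ := hρ.1.2
  have hw0 : ∀ P : HeightOneSpectrum (𝓞 k), ∃ w : VV l C.d,
      (P ∉ Fr.S → P ∉ A → ∃ z, ρ (T.tau P) = C.nn w z) ∧ ((P ∈ Fr.S ∨ P ∈ A) → w = 0) := by
    intro P
    by_cases hP : P ∈ Fr.S ∨ P ∈ A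
    · exact ⟨0, fun h1 h2 => absurd hP (by tauto), fun _ => rfl⟩
    · push Not at hP
      obtain ⟨w, z, h⟩ := (C.nn_iff _).1 (hρ.2 P hP.1 hP.2)
      exact ⟨w, fun _ _ => ⟨z, h⟩, fun h' => absurd h' (by tauto)⟩
  choose w hw hwS using hw0
  have hPS : ∀ P, w P ≠ 0 → P ∉ Fr.S ∧ P ∉ A := by
    intro P hP
    by_contra hc
    exact hP (hwS P (by tauto))
  have hone : ∀ P, w P ≠ 0 → ((nrm P : ℕ) : ZMod l) = 1 := by
    intro P hP
    obtain ⟨h1, h2⟩ := hPS P hP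
    obtain ⟨z, hz⟩ := hw P h1 h2
    have h3 := hR G ρ hlc P (hS P h1).symm
    obtain ⟨z', hz'⟩ := g13a_pow C (w P) z (nrm P)
    rw [hz, C.bp_conj, hz'] at h3
    have h4 := (C.nn_inj _ _ _ _ h3).1
    have h5 : (((nrm P : ℕ) : ZMod l) - 1) • w P = 0 := by
      rw [sub_smul, one_smul, ← h4, sub_self]
    rcases smul_eq_zero.1 h5 with h6 | h6
    · exact sub_eq_zero.1 h6
    · exact absurd h6 hP
  have hF1 : {P | w P ≠ 0}.Finite := by
    refine (hF G ρ hlc).subset fun P hP h1 => hP ?_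
    obtain ⟨h2, h3⟩ := hPS P hP
    obtain ⟨z, hz⟩ := hw P h2 h3
    have h4 : C.nn (w P) z = C.nn 0 0 := by rw [← hz, h1, g13a_one]
    exact (C.nn_inj _ _ _ _ h4).1
  have hch : ∀ P, w P ≠ 0 → ∃ (v : R) (g : Fr.sys.D),
      Fr.sys.rg (Fr.sys.ac g (Fr.bs P)) ∧ Fr.dn (Fr.sys.ac g (Fr.bs P)) = P ∧
        w P = (Fr.kt P * (Fr.sys.e g : ZMod l)) • (v : VV l C.d) := by
    intro P hP
    obtain ⟨h1, _⟩ := hPS P hP
    obtain ⟨p, hp, hpP⟩ := (Fr.dn_ex P h1).2 (hone P hP)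
    have h2 : (Fr.kt P)⁻¹ • w P ≠ 0 := smul_ne_zero (inv_ne_zero (Fr.kt_ne P)) hP
    obtain ⟨v, hv, g, hg⟩ := hRep.ex _ h2
    have h3 : Fr.dn (Fr.bs P) = P := by
      have := Fr.bs_dn p
      rwa [hpP] at this
    obtain ⟨g0, hg0⟩ := (Fr.dn_eq p (Fr.bs P)).1 (hpP.trans h3.symm)
    refine ⟨⟨v, hv⟩, g, ?_, ?_, ?_⟩
    · rw [← hg0]
      exact g13a_rg Fr (g13a_rg Fr hp g0) g
    · rw [← (Fr.dn_eq (Fr.bs P) (Fr.sys.ac g (Fr.bs P))).2 ⟨g, rfl⟩]
      exact h3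
    · rw [mul_smul, ← hg, smul_smul, mul_inv_cancel₀ (Fr.kt_ne P), one_smul]
  have hex : ∃ x : R → Finset Fr.sys.P, Rec C Fr R A ρ x := by
    choose vv gg hrg hdn hval using hch
    have hFf : Finite {P // w P ≠ 0} := hF1.to_subtype
    have hFt : Fintype {P // w P ≠ 0} := Fintype.ofFinite _
    let x : R → Finset Fr.sys.P := fun v =>
      (Finset.univ.filter fun P : {P // w P ≠ 0} => vv P.1 P.2 = v).image
        fun P => Fr.sys.ac (gg P.1 P.2) (Fr.bs P.1)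
    have hmem : ∀ v p, p ∈ x v ↔ ∃ P : {P // w P ≠ 0}, vv P.1 P.2 = v ∧
        Fr.sys.ac (gg P.1 P.2) (Fr.bs P.1) = p := by
      intro v p
      rw [Finset.mem_image]
      constructor
      · rintro ⟨P, hP, h⟩
        exact ⟨P, (Finset.mem_filter.1 hP).2, h⟩
      · rintro ⟨P, hP, h⟩
        exact ⟨P, Finset.mem_filter.2 ⟨Finset.mem_univ _, hP⟩, h⟩
    have hGd : Fr.sys.Gd x := by
      refine ⟨fun u p hp => ?_, fun u v p hp q hq g hg => ?_⟩
      · obtain ⟨P, _, rfl⟩ := (hmem u p).1 hp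
        exact hrg P.1 P.2
      · obtain ⟨P, hPu, hPp⟩ := (hmem u p).1 hp
        obtain ⟨Q, hQv, hQq⟩ := (hmem v q).1 hq
        have h1 : Fr.dn p = P.1 := by rw [← hPp]; exact hdn P.1 P.2
        have h2 : Fr.dn q = Q.1 := by rw [← hQq]; exact hdn Q.1 Q.2
        have h3 : Fr.dn p = Fr.dn q := (Fr.dn_eq p q).2 ⟨g, hg⟩
        have h4 : P = Q := Subtype.ext (by rw [← h1, h3, h2])
        subst h4
        exact ⟨hPu.symm.trans hQv, hPp.symm.trans hQq⟩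
    refine ⟨x, hGd, fun v p hp => ?_, fun P hP hPA => ?_⟩
    · obtain ⟨P, _, rfl⟩ := (hmem v p).1 hp
      rw [hdn P.1 P.2]
      exact (hPS P.1 P.2).2
    · obtain ⟨z, hz⟩ := hw P hP hPA
      refine ⟨z, ?_⟩
      have h1 : Fr.aa R 0 x (T.tau P) = w P := by
        by_cases h0 : w P = 0
        · rw [h0]
          refine g13a_off Fr R 0 x hGd P hP fun v p hp h2 => ?_
          obtain ⟨Q, _, rfl⟩ := (hmem v p).1 hp
          rw [hdn Q.1 Q.2] at h2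
          exact Q.2 (h2 ▸ h0)
        · have h2 := g13a_at Fr R 0 x hGd (vv P h0) (Fr.sys.ac (gg P h0) (Fr.bs P))
            ((hmem _ _).2 ⟨⟨P, h0⟩, rfl, rfl⟩) (gg P h0) (by rw [hdn P h0])
          rw [hdn P h0] at h2
          rw [h2]
          exact (hval P h0).symm
      rw [h1]
      exact hz
  obtain ⟨x, hx⟩ := hex
  refine ⟨x, hx, fun x' hx' => ?_⟩
  have key : ∀ (x x' : R → Finset Fr.sys.P), Rec C Fr R A ρ x → Rec C Fr R A ρ x' →
      ∀ v, ∀ p ∈ x v, p ∈ x' v := by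
    intro x x' hx hx' v p hp
    have h1 := Fr.dn_not p
    have h2 := hx.2.1 v p hp
    obtain ⟨z, hz⟩ := hx.2.2 _ h1 h2
    obtain ⟨z', hz'⟩ := hx'.2.2 _ h1 h2
    exact g13a_sub Fr hRep 0 0 x x' hx.1 hx'.1 v p hp
      (C.nn_inj _ _ _ _ (hz.symm.trans hz')).1
  funext v
  ext p
  exact ⟨key x' x hx' hx v p, key x x' hx hx' v p⟩

end

end Pool.Agent.H92.EL
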