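import Pool.Agent.H92.EL.GStm

/-!
# Project T4 (MP_a3214d), row G13b: the number of classes
-/

set_option autoImplicit false

open scoped BigOperators Topology
open NumberField IsDedekindDomain Filter

namespace Pool.Agent.H92.EL

open Pool.Agent.H98.MF (Gm Dec nrm rdN fld)
open SysL (VV BD)

section

variable {k : Type} [Field k] [NumberField k] {l : ℕ} [Fact l.Prime] {G : Type} [Group G]
  (C : Cd l G)

theorem g13b_mul0 (v : VV l C.d) (z y : VV l C.n) :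
    C.nn v z * C.nn 0 y = C.nn v (z + y) := by
  rw [C.nn_mul, add_zero, map_zero, smul_zero, add_zero]

theorem g13b_0mul (v : VV l C.d) (z y : VV l C.n) :
    C.nn 0 y * C.nn v z = C.nn v (y + z) := by
  rw [C.nn_mul, zero_add, map_zero, LinearMap.zero_apply, smul_zero, add_zero]

theorem g13b_one : C.nn 0 0 = 1 := by
  have h := g13b_mul0 C 0 0 0
  rw [add_zero] at h
  exact mul_eq_left.1 h

theorem g13b_cen (z : VV l C.n) : C.nn 0 z ∈ Subgroup.center G :=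
  ((C.nn_cen _).2 ⟨z, rfl⟩).1

/-- the central subgroup -/
def g13b_Z : Subgroup G where
  carrier := {g | ∃ z, g = C.nn 0 z}
  mul_mem' := by
    rintro _ _ ⟨z, rfl⟩ ⟨y, rfl⟩
    exact ⟨z + y, g13b_mul0 C 0 z y⟩
  one_mem' := ⟨0, (g13b_one C).symm⟩
  inv_mem' := by
    rintro _ ⟨z, rfl⟩
    refine ⟨-z, ?_⟩
    rw [inv_eq_iff_mul_eq_one, g13b_mul0, add_neg_cancel, g13b_one]

theorem g13b_mem {g : G} : g ∈ g13b_Z C ↔ ∃ z, g = C.nn 0 z := Iff.rfl

theorem g13b_normal : (g13b_Z C).Normal := by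
  refine ⟨?_⟩
  rintro _ ⟨z, rfl⟩ g
  refine ⟨z, ?_⟩
  rw [Subgroup.mem_center_iff.1 (g13b_cen C z) g, mul_inv_cancel_right]

end

section

variable {k : Type} [Field k] [NumberField k] {l : ℕ} [Fact l.Prime] {T : TM k}
  {G : Type} [Group G]

/-- Row G13b: the number of classes. -/
theorem sg13b (_hl : l ≠ 2) (hG : Nl l G) (C : Cd l G) (Fr : FrI k l T.tau T.phi) (h4 : SG4 Fr)
    (hO : SOut) : SG13b C Fr := by
  classical
  intro R hRep hS
  have hfin : Finite G := hG.fin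
  have hZn : (g13b_Z C).Normal := g13b_normal C
  have hnil : Group.IsNilpotent G := hG.nil
  have hQn : Group.IsNilpotent (G ⧸ g13b_Z C) :=
    Group.nilpotent_quotient_of_nilpotent (g13b_Z C)
  have hQd : Nat.card (G ⧸ g13b_Z C) ∣ Nat.card G := Subgroup.card_quotient_dvd_card _
  have hQS : Ctn Fr.S (Nat.card (G ⧸ g13b_Z C)) := fun P hP =>
    Nat.Coprime.coprime_dvd_left hQd (hS P hP)
  obtain ⟨C0, hC0, hC⟩ := hO k T (G ⧸ g13b_Z C) hQn Fr.S hQS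
  refine ⟨C0, hC0, fun A => ?_⟩
  obtain ⟨hHf, hHc⟩ := hC A
  -- the classes of the coordinates
  have hq1 : ∀ v z, (QuotientGroup.mk (C.nn v z) : G ⧸ g13b_Z C) = QuotientGroup.mk (C.nn v 0) := by
    intro v z
    rw [QuotientGroup.eq, g13b_mem]
    refine ⟨-z, ?_⟩
    rw [inv_mul_eq_iff_eq_mul, g13b_mul0, add_neg_cancel]
  have hq2 : ∀ v w, (QuotientGroup.mk (C.nn (v + w) 0) : G ⧸ g13b_Z C) =
      QuotientGroup.mk (C.nn v 0) * QuotientGroup.mk (C.nn w 0) := by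
    intro v w
    rw [← QuotientGroup.mk_mul, C.nn_mul]
    exact (hq1 _ _).symm
  have hq3 : ∀ (g : G) v, (QuotientGroup.mk g : G ⧸ g13b_Z C) * QuotientGroup.mk (C.nn v 0) =
      QuotientGroup.mk (C.nn v 0) * QuotientGroup.mk g := by
    intro g v
    have h1 : g * C.nn v 0 = C.nn v (0 + C.bp g v) * g := by
      rw [← C.bp_conj, inv_mul_cancel_right]
    rw [← QuotientGroup.mk_mul, h1, QuotientGroup.mk_mul, hq1]
  have hq0 : (QuotientGroup.mk (C.nn 0 0) : G ⧸ g13b_Z C) = 1 := by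
    rw [g13b_one, QuotientGroup.mk_one]
  -- the homomorphisms
  have hψ : ∀ (ρ : Gm k →* G) (x : R → Finset Fr.sys.P), ρ ∈ HkA T G l Fr.S A →
      Rec C Fr R A ρ x → ∃ ψ : Gm k →* G ⧸ g13b_Z C, ψ ∈ hHf.toFinset ∧
        ∀ σ, ψ σ = QuotientGroup.mk (C.nn (-Fr.aa R 0 x σ) 0 * ρ σ) := by
    intro ρ x hρ hx
    have ha := (h4 C.d R hRep).1 0 x hx.1
    have hadd : ∀ σ τ, Fr.aa R 0 x (σ * τ) = Fr.aa R 0 x σ + Fr.aa R 0 x τ := by
      intro σ τ
      funext i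
      exact (ha i).add σ τ
    have hone : Fr.aa R 0 x 1 = 0 := by
      have h := hadd 1 1
      rw [mul_one] at h
      exact left_eq_add.1 h
    refine ⟨⟨⟨fun σ => QuotientGroup.mk (C.nn (-Fr.aa R 0 x σ) 0 * ρ σ), ?_⟩, ?_⟩, ?_,
      fun σ => rfl⟩
    · rw [hone, neg_zero, map_one, mul_one, hq0]
    · intro σ τ
      simp only [QuotientGroup.mk_mul, map_mul, hadd, neg_add, hq2]
      have h1 := hq3 (ρ σ) (-Fr.aa R 0 x τ)
      calc (QuotientGroup.mk (C.nn (-Fr.aa R 0 x σ) 0) : G ⧸ g13b_Z C) *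
            QuotientGroup.mk (C.nn (-Fr.aa R 0 x τ) 0) *
            (QuotientGroup.mk (ρ σ) * QuotientGroup.mk (ρ τ)) =
            QuotientGroup.mk (C.nn (-Fr.aa R 0 x σ) 0) *
            (QuotientGroup.mk (C.nn (-Fr.aa R 0 x τ) 0) * QuotientGroup.mk (ρ σ)) *
              QuotientGroup.mk (ρ τ) := by group
        _ = _ := by rw [← h1]; group
    · rw [Set.Finite.mem_toFinset]
      refine ⟨?_, ?_⟩
      · rw [IsLocallyConstant.iff_exists_open]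
        intro s
        refine ⟨(⋂ i, {τ | Fr.aa R 0 x τ i = Fr.aa R 0 x s i}) ∩ {τ | ρ τ = ρ s}, ?_, ?_, ?_⟩
        · exact (isOpen_iInter_of_finite fun i => (ha i).lc.isOpen_fiber _).inter
            (hρ.1.2.isOpen_fiber _)
        · exact ⟨Set.mem_iInter.2 fun i => rfl, rfl⟩
        · rintro τ ⟨h1, h2⟩
          have h3 : Fr.aa R 0 x τ = Fr.aa R 0 x s := funext fun i => Set.mem_iInter.1 h1 i
          have h4' : ρ τ = ρ s := h2
          show (QuotientGroup.mk (C.nn (-Fr.aa R 0 x τ) 0 * ρ τ) : G ⧸ g13b_Z C) =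
            QuotientGroup.mk (C.nn (-Fr.aa R 0 x s) 0 * ρ s)
          rw [h3, h4']
      · intro P hP
        rw [Finset.mem_union, not_or] at hP
        obtain ⟨z, hz⟩ := hx.2.2 P hP.1 hP.2
        show (QuotientGroup.mk (C.nn (-Fr.aa R 0 x (T.tau P)) 0 * ρ (T.tau P)) :
          G ⧸ g13b_Z C) = 1
        rw [hz, QuotientGroup.mk_mul, hq1 _ z, ← hq2, neg_add_cancel, hq0]
  -- the representatives
  set V : Finset (Gm k →* G ⧸ g13b_Z C) := hHf.toFinset.filter fun ψ =>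
    ∃ w : (Gm k →* G) × (R → Finset Fr.sys.P), w.1 ∈ HkA T G l Fr.S A ∧ Rec C Fr R A w.1 w.2 ∧
      ∀ σ, ψ σ = QuotientGroup.mk (C.nn (-Fr.aa R 0 w.2 σ) 0 * w.1 σ) with hV
  have hVm : ∀ ψ : V, ∃ w : (Gm k →* G) × (R → Finset Fr.sys.P), w.1 ∈ HkA T G l Fr.S A ∧
      Rec C Fr R A w.1 w.2 ∧
      ∀ σ, (ψ : Gm k →* G ⧸ g13b_Z C) σ =
        QuotientGroup.mk (C.nn (-Fr.aa R 0 w.2 σ) 0 * w.1 σ) := fun ψ =>
    (Finset.mem_filter.1 ψ.2).2
  choose f hf1 hf2 hf3 using hVm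
  refine ⟨V.attach.image f, ?_, ?_, ?_⟩
  · refine Finset.card_image_le.trans ?_
    rw [Finset.card_attach]
    refine (Finset.card_filter_le _ _).trans ?_
    rw [← Set.ncard_eq_toFinset_card _ hHf]
    exact hHc
  · intro w hw
    obtain ⟨ψ, -, rfl⟩ := Finset.mem_image.1 hw
    exact ⟨hf1 ψ, hf2 ψ⟩
  · intro ρ hρ x hx
    obtain ⟨ψ, hψm, hψe⟩ := hψ ρ x hρ hx
    have hψV : ψ ∈ V := Finset.mem_filter.2 ⟨hψm, (ρ, x), hρ, hx, hψe⟩
    refine ⟨f ⟨ψ, hψV⟩, Finset.mem_image.2 ⟨⟨ψ, hψV⟩, Finset.mem_attach _ _, rfl⟩, ?_⟩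
    intro σ
    have h1 := (hf3 ⟨ψ, hψV⟩ σ).symm.trans (hψe σ)
    rw [QuotientGroup.eq, g13b_mem] at h1
    obtain ⟨z, hz⟩ := h1
    refine ⟨z, ?_⟩
    rw [inv_mul_eq_iff_eq_mul] at hz
    rw [hz, mul_assoc, Subgroup.mem_center_iff.1 (g13b_cen C z), ← mul_assoc, g13b_mul0,
      zero_add]

end

end Pool.Agent.H92.EL
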