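import Pool.Agent.H92.EL.GStm

/-!
# Project T4 (MP_a3214d), block D, row G13c: the data of a class
-/

set_option autoImplicit false
set_option linter.unusedVariables false

open scoped BigOperators Topology
open NumberField IsDedekindDomain Filter

namespace Pool.Agent.H92.EL

open Pool.Agent.H98.MF (Gm Dec nrm rdN fld)
open SysL (VV BD)

section

variable {k : Type} [Field k] [NumberField k] {l : ℕ} [Fact l.Prime] {T : TM k}
  {G : Type} [Group G]

/-! ### the pairing -/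

private theorem g13c_bp_one (C : Cd l G) (v : VV l C.d) : C.bp 1 v = 0 := by
  have h := C.bp_mul 1 1 v
  rw [one_mul] at h
  exact left_eq_add.1 h

/-- the elements commuting with `v` up to the kernel of `ζ` -/
private def g13c_H (C : Cd l G) (v : VV l C.d) (ζ : VV l C.n) : Subgroup G where
  carrier := {g | ζ ⬝ᵥ C.bp g v = 0}
  mul_mem' := by
    intro g h hg hh
    have hg' : ζ ⬝ᵥ C.bp g v = 0 := hg
    have hh' : ζ ⬝ᵥ C.bp h v = 0 := hh
    show ζ ⬝ᵥ C.bp (g * h) v = 0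
    rw [C.bp_mul, dotProduct_add, hg', hh', add_zero]
  one_mem' := by
    show ζ ⬝ᵥ C.bp 1 v = 0
    rw [g13c_bp_one, dotProduct_zero]
  inv_mem' := by
    intro g hg
    have hg' : ζ ⬝ᵥ C.bp g v = 0 := hg
    show ζ ⬝ᵥ C.bp g⁻¹ v = 0
    have h := C.bp_mul g⁻¹ g v
    rw [inv_mul_cancel, g13c_bp_one] at h
    have h2 : ζ ⬝ᵥ (C.bp g⁻¹ v + C.bp g v) = 0 := by rw [← h, dotProduct_zero]
    rw [dotProduct_add, hg', add_zero] at h2
    exact h2

private theorem g13c_mem (C : Cd l G) (v : VV l C.d) (ζ : VV l C.n) (g : G) :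
    g ∈ g13c_H C v ζ ↔ ζ ⬝ᵥ C.bp g v = 0 := Iff.rfl

/-! ### the homomorphisms -/

private theorem g13c_hm (C : Cd l G) (Fr : FrI k l T.tau T.phi) {R : Finset (VV l C.d)}
    {ρ1 : Gm k →* G} {x1 : R → Finset Fr.sys.P} (hρ : IsLocallyConstant ρ1)
    (ha : ∀ i, Hm fun σ => Fr.aa R 0 x1 σ i) (v : VV l C.d) (ζ : VV l C.n) :
    Hm fun σ => ζ ⬝ᵥ (C.bp (ρ1 σ) v - C.Bd.B (Fr.aa R 0 x1 σ) v) := by
  refine ⟨?_, ?_⟩
  · rw [IsLocallyConstant.iff_eventually_eq]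
    intro σ
    have h1 := (IsLocallyConstant.iff_eventually_eq _).1 hρ σ
    have h2 : ∀ i, ∀ᶠ τ in 𝓝 σ, Fr.aa R 0 x1 τ i = Fr.aa R 0 x1 σ i := fun i =>
      (IsLocallyConstant.iff_eventually_eq _).1 (ha i).lc σ
    filter_upwards [h1, Filter.eventually_all.2 h2] with τ h3 h4
    rw [h3, show Fr.aa R 0 x1 τ = Fr.aa R 0 x1 σ from funext h4]
  · intro σ τ
    have h1 : Fr.aa R 0 x1 (σ * τ) = Fr.aa R 0 x1 σ + Fr.aa R 0 x1 τ :=
      funext fun i => (ha i).add σ τ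
    rw [map_mul, C.bp_mul, h1, map_add, LinearMap.add_apply, ← dotProduct_add]
    congr 1
    abel

private theorem g13c_cl0 (Fr : FrI k l T.tau T.phi) : Fr.cl (fun _ => 0) = 0 := by
  have h0 : Hm (k := k) (l := l) fun _ => 0 := ⟨IsLocallyConstant.const 0, fun _ _ => by simp⟩
  have h := Fr.cl_add _ _ h0 h0
  have e : (fun _ : Gm k => (0 : ZMod l) + 0) = fun _ => 0 := by
    funext _
    exact add_zero 0
  rw [e] at h
  exact left_eq_add.1 h

/-! ### the primes -/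

private theorem g13c_rg (Fr : FrI k l T.tau T.phi) {p : Fr.sys.P} (hp : Fr.sys.rg p)
    (g : Fr.sys.D) : Fr.sys.rg (Fr.sys.ac g p) := by
  intro h hh
  rw [← Fr.sys.ac_mul] at hh
  have h1 : Fr.sys.ac (g⁻¹ * (h * g)) p = p := by
    rw [Fr.sys.ac_mul, hh, ← Fr.sys.ac_mul, inv_mul_cancel, Fr.sys.ac_one]
  have h2 := hp _ h1
  have h3 : h * g = g := by
    rw [inv_mul_eq_one] at h2
    exact h2.symm
  exact mul_eq_right.1 h3

private theorem g13c_fib (Fr : FrI k l T.tau T.phi) (P : HeightOneSpectrum (𝓞 k)) :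
    {p : Fr.sys.P | Fr.dn p = P}.Finite ∧
      ∀ s : Finset Fr.sys.P, (∀ p ∈ s, Fr.dn p = P) → s.card ≤ Fintype.card Fr.sys.D := by
  classical
  rcases Set.eq_empty_or_nonempty {p : Fr.sys.P | Fr.dn p = P} with h | ⟨p0, hp0⟩
  · refine ⟨by rw [h]; exact Set.finite_empty, fun s hs => ?_⟩
    have h1 : s = ∅ := by
      rw [Finset.eq_empty_iff_forall_notMem]
      intro p hp
      have h2 : p ∈ {p : Fr.sys.P | Fr.dn p = P} := hs p hp
      rw [h] at h2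
      exact h2
    rw [h1, Finset.card_empty]
    exact Nat.zero_le _
  · have hp0' : Fr.dn p0 = P := hp0
    have key : ∀ p, Fr.dn p = P → p ∈ Finset.univ.image fun g : Fr.sys.D => Fr.sys.ac g p0 := by
      intro p hp
      obtain ⟨g, hg⟩ := (Fr.dn_eq p0 p).1 (hp0'.trans hp.symm)
      exact Finset.mem_image.2 ⟨g, Finset.mem_univ g, hg⟩
    refine ⟨Set.Finite.subset (Finset.finite_toSet (Finset.univ.image fun g : Fr.sys.D =>
      Fr.sys.ac g p0)) fun p hp => Finset.mem_coe.2 (key p hp), fun s hs => ?_⟩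
    refine (Finset.card_le_card fun p hp => key p (hs p hp)).trans ?_
    exact Finset.card_image_le

private theorem g13c_M (Fr : FrI k l T.tau T.phi) (A : Finset (HeightOneSpectrum (𝓞 k))) :
    ∃ M : Finset Fr.sys.P, ∀ p, p ∈ M ↔ (Fr.sys.rg p ∧ Fr.dn p ∈ A) := by
  have h1 : {p | Fr.sys.rg p ∧ Fr.dn p ∈ A}.Finite := by
    refine Set.Finite.subset (Set.Finite.biUnion (Finset.finite_toSet A)
      fun P _ => (g13c_fib Fr P).1) fun p hp => ?_
    exact Set.mem_biUnion (Finset.mem_coe.2 hp.2) rfl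
  exact ⟨h1.toFinset, fun p => h1.mem_toFinset⟩

private theorem g13c_nm (Fr : FrI k l T.tau T.phi) (A : Finset (HeightOneSpectrum (𝓞 k)))
    (M : Finset Fr.sys.P) (hM : ∀ p, p ∈ M ↔ (Fr.sys.rg p ∧ Fr.dn p ∈ A)) :
    Fr.sys.nm M ≤ (∏ P ∈ A, nrm P) ^ Fintype.card Fr.sys.D := by
  classical
  have h1 : Fr.sys.nm M = ∏ p ∈ M, nrm (Fr.dn p) :=
    Finset.prod_congr rfl fun p hp => Fr.N_eq p ((hM p).1 hp).1
  rw [h1, ← Finset.prod_fiberwise_of_maps_to (g := Fr.dn) (t := A) fun p hp => ((hM p).1 hp).2,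
    ← Finset.prod_pow]
  refine Finset.prod_le_prod' fun P _ => ?_
  have h2 : ∏ p ∈ M with Fr.dn p = P, nrm (Fr.dn p) =
      nrm P ^ (M.filter fun p => Fr.dn p = P).card := by
    rw [← Finset.prod_const]
    exact Finset.prod_congr rfl fun p hp => by rw [(Finset.mem_filter.1 hp).2]
  rw [h2]
  have h3 : 1 ≤ nrm P := by
    have h : nrm P ≠ 0 := by
      unfold Pool.Agent.H98.MF.nrm
      rw [Ne, Ideal.absNorm_eq_zero_iff]
      exact P.ne_bot
    exact Nat.one_le_iff_ne_zero.2 h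
  exact Nat.pow_le_pow_right h3 ((g13c_fib Fr P).2 _ fun p hp => (Finset.mem_filter.1 hp).2)

/-- **G13c.** -/
theorem sg13c (hl : l ≠ 2) (hG : Nl l G) (C : Cd l G) (Fr : FrI k l T.tau T.phi)
    (h4 : SG4 Fr) (h4b : SG4b Fr) : SG13c C Fr := by
  classical
  intro R hR _ A ρ1 x1 hρ1 hx1
  obtain ⟨hx, -, hrec⟩ := hx1
  have hsur : Function.Surjective ρ1 := hρ1.1.1
  have hlc : IsLocallyConstant ρ1 := hρ1.1.2
  have ha : ∀ i, Hm fun σ => Fr.aa R 0 x1 σ i := (h4 C.d R hR).1 0 x1 hx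
  have hhm := fun v ζ => g13c_hm C Fr hlc ha v ζ
  obtain ⟨M, hM⟩ := g13c_M Fr A
  -- triviality of the outer character
  have hz : ∀ v ζ, Fr.oc2 C R ρ1 x1 v ζ = 0 → ∀ σ,
      ζ ⬝ᵥ (C.bp (ρ1 σ) v - C.Bd.B (Fr.aa R 0 x1 σ) v) = 0 := by
    intro v ζ h σ
    exact congrFun (Fr.cl_inj _ (hhm v ζ) h) σ
  refine ⟨M, hM, ?_, g13c_nm Fr A M hM, ?_, ?_, ?_, ?_⟩
  · intro g p hp
    rw [hM] at hp ⊢
    refine ⟨g13c_rg Fr hp.1 g, ?_⟩
    rw [← (Fr.dn_eq p (Fr.sys.ac g p)).2 ⟨g, rfl⟩]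
    exact hp.2
  · intro v ζ p hp
    have h1 := Fr.cl_sup _ (hhm v ζ) p hp
    have h2 := Fr.dn_not p
    rw [hM]
    refine ⟨?_, ?_⟩
    · have h3 : ((nrm (Fr.dn p) : ℕ) : ZMod l) = 1 := by
        by_contra h4
        exact h1 (Fr.tam _ (hhm v ζ) _ h2 h4)
      obtain ⟨q, hq, hqp⟩ := (Fr.dn_ex _ h2).2 h3
      obtain ⟨g, rfl⟩ := (Fr.dn_eq q p).1 hqp
      exact g13c_rg Fr hq g
    · by_contra h3
      obtain ⟨z, hz1⟩ := hrec _ h2 h3
      refine h1 ?_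
      show ζ ⬝ᵥ (C.bp (ρ1 (T.tau (Fr.dn p))) v -
        C.Bd.B (Fr.aa R 0 x1 (T.tau (Fr.dn p))) v) = 0
      rw [hz1, C.bp_nn, sub_self, dotProduct_zero]
  · intro v ζ ζ'
    unfold FrI.oc2
    rw [← Fr.cl_add _ _ (hhm v ζ) (hhm v ζ')]
    congr 1
    funext σ
    exact add_dotProduct _ _ _
  · intro U hU v _ ζ hc hw w
    have h1 := hz v ζ hc
    have h2 : g13c_H C v ζ = ⊤ := by
      rw [eq_top_iff]
      unfold FrI.gen2 at hU
      rw [← hU, Subgroup.closure_le]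
      rintro g ((⟨σ, rfl⟩ | ⟨u, hu, rfl⟩) | ⟨z, rfl⟩)
      · show ζ ⬝ᵥ C.bp (C.nn (-Fr.aa R 0 x1 σ) 0 * ρ1 σ) v = 0
        have h3 := h1 σ
        rw [C.bp_mul, C.bp_nn, map_neg, LinearMap.neg_apply, neg_add_eq_sub]
        exact h3
      · show ζ ⬝ᵥ C.bp (C.nn u 0) v = 0
        rw [C.bp_nn]
        exact hw u hu
      · show ζ ⬝ᵥ C.bp (C.nn 0 z) v = 0
        rw [C.bp_nn, map_zero, LinearMap.zero_apply, dotProduct_zero]
    have h3 : C.nn w 0 ∈ g13c_H C v ζ := by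
      rw [h2]
      exact Subgroup.mem_top _
    rw [g13c_mem, C.bp_nn] at h3
    exact h3
  · unfold SysL.bV
    refine Finset.sum_congr rfl fun v _ => ?_
    unfold SysL.nv Cd.kc
    congr 1
    ext ζ
    rw [Finset.mem_filter, Finset.mem_filter]
    refine and_congr_right fun _ => ⟨?_, ?_⟩
    · rintro ⟨hc, hB⟩ g
      obtain ⟨σ, rfl⟩ := hsur g
      have h1 := hz v ζ hc σ
      rw [dotProduct_sub, hB, sub_zero] at h1
      exact h1
    · intro h
      have hB : ∀ w, ζ ⬝ᵥ C.Bd.B w v = 0 := fun w => by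
        rw [← C.bp_nn w 0 v]
        exact h _
      refine ⟨?_, hB⟩
      unfold FrI.oc2
      rw [← g13c_cl0 Fr]
      congr 1
      funext σ
      rw [dotProduct_sub, h, hB, sub_zero]

end

end Pool.Agent.H92.EL
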