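import Pool.Agent.H92.EL.GStm

/-!
# Project T4 (MP_a3214d): G13d, the members of a class satisfy the conditions
-/

set_option autoImplicit false

open scoped BigOperators Topology
open NumberField IsDedekindDomain Filter

namespace Pool.Agent.H92.EL

open Pool.Agent.H98.MF (Gm Dec nrm rdN fld)
open SysL (VV BD)

section

variable {k : Type} [Field k] [NumberField k] {l : ℕ} [Fact l.Prime] {T : TM k}
  {G : Type} [Group G]

private lemma g13d_smul {a b : ℕ} (f : VV l a → VV l b) (hf : ∀ v w, f (v + w) = f v + f w)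
    (t : ZMod l) (v : VV l a) : f (t • v) = t • f v :=
  ZMod.map_smul (AddMonoidHom.mk' f hf) t v

private lemma g13d_pow {g : G} {n : ℕ} (hg : g ^ l = 1)
    (hn : ((n : ℕ) : ZMod l) = 1) : g ^ n = g := by
  have h1 : n ≡ 1 [MOD l] := by
    have : ((n : ℕ) : ZMod l) = ((1 : ℕ) : ZMod l) := by simpa using hn
    exact (ZMod.natCast_eq_natCast_iff _ _ _).1 this
  have h2 : orderOf g ∣ l := orderOf_dvd_of_pow_eq_one hg
  have h3 : n ≡ 1 [MOD orderOf g] := h1.of_dvd h2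
  have h4 := pow_eq_pow_iff_modEq.2 h3
  simpa using h4

private lemma g13d_bp (C : Cd l G) {g : G} {v : VV l C.d} {t : ZMod l} {z : VV l C.n}
    (ht : t ≠ 0) (hc : g * C.nn (t • v) z * g⁻¹ = C.nn (t • v) z) : C.bp g v = 0 := by
  rw [C.bp_conj] at hc
  have h1 := (C.nn_inj _ _ _ _ hc).2
  have h2 : C.bp g (t • v) = 0 := by
    have h3 : z + C.bp g (t • v) = z + 0 := by rw [h1, add_zero]
    exact add_left_cancel h3
  rw [g13d_smul (C.bp g) (C.bp_add g) t v] at h2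
  exact (smul_eq_zero.1 h2).resolve_left ht

private lemma g13d_cls (C : Cd l G) (Fr : FrI k l T.tau T.phi) {R : Finset (VV l C.d)}
    {ρ1 ρ : Gm k →* G} {x1 x : R → Finset Fr.sys.P} (h : Cls2 C Fr R ρ1 x1 ρ x) (σ : Gm k)
    (v : VV l C.d) : C.bp (ρ σ) v - C.Bd.B (Fr.aa R 0 x σ) v =
      C.bp (ρ1 σ) v - C.Bd.B (Fr.aa R 0 x1 σ) v := by
  obtain ⟨z, hz⟩ := h σ
  have h1 := congrArg (fun g => C.bp g v) hz
  simp only [C.bp_mul, C.bp_nn, map_neg, LinearMap.neg_apply] at h1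
  rw [sub_eq_neg_add, sub_eq_neg_add]
  exact h1

private lemma g13d_hm (C : Cd l G) (Fr : FrI k l T.tau T.phi) {R : Finset (VV l C.d)}
    {ρ1 : Gm k →* G} (hρ : IsLocallyConstant ρ1) {x1 : R → Finset Fr.sys.P}
    (ha : ∀ i, Hm fun σ => Fr.aa R 0 x1 σ i) (v : VV l C.d) (ζ : VV l C.n) :
    Hm fun σ => ζ ⬝ᵥ (C.bp (ρ1 σ) v - C.Bd.B (Fr.aa R 0 x1 σ) v) := by
  have hla : IsLocallyConstant fun σ => Fr.aa R 0 x1 σ := by
    rw [IsLocallyConstant.iff_eventually_eq]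
    intro σ
    have h1 : ∀ᶠ τ in 𝓝 σ, ∀ i, Fr.aa R 0 x1 τ i = Fr.aa R 0 x1 σ i :=
      eventually_all.2 fun i => (IsLocallyConstant.iff_eventually_eq _).1 (ha i).lc σ
    filter_upwards [h1] with τ hτ
    exact funext hτ
  refine ⟨hρ.comp₂ hla (fun g a => ζ ⬝ᵥ (C.bp g v - C.Bd.B a v)), ?_⟩
  intro σ τ
  have h1 : Fr.aa R 0 x1 (σ * τ) = Fr.aa R 0 x1 σ + Fr.aa R 0 x1 τ := by
    funext i
    exact (ha i).add σ τ
  show ζ ⬝ᵥ (C.bp (ρ1 (σ * τ)) v - C.Bd.B (Fr.aa R 0 x1 (σ * τ)) v) = _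
  rw [h1, map_mul, C.bp_mul, map_add, LinearMap.add_apply, ← dotProduct_add]
  congr 1
  abel

/-- the linear form of a dual vector and a vector -/
private def g13d_f (C : Cd l G) (v : VV l C.d) (ζ : VV l C.n) : VV l C.d →ₗ[ZMod l] ZMod l where
  toFun a := ζ ⬝ᵥ C.Bd.B a v
  map_add' a b := by rw [map_add, LinearMap.add_apply, dotProduct_add]
  map_smul' t a := by
    rw [map_smul, LinearMap.smul_apply, dotProduct_smul, RingHom.id_apply]

private lemma g13d_un (Fr : FrI k l T.tau T.phi) (σ : Gm k) : Fr.un 0 σ = 0 := by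
  have h := Fr.un_add 0 0 σ
  rw [add_zero] at h
  have h2 : Fr.un 0 σ + 0 = Fr.un 0 σ + Fr.un 0 σ := by rw [add_zero]; exact h
  exact (add_left_cancel h2).symm

/-- the vectors in a subgroup containing the center form a submodule -/
private lemma g13d_sub (C : Cd l G) (K : Subgroup G) (hZ : ∀ z, C.nn 0 z ∈ K) {ι : Type}
    (s : Finset ι) (c : ι → ZMod l) (w : ι → VV l C.d)
    (h : ∀ i ∈ s, c i ≠ 0 → C.nn (w i) 0 ∈ K) : C.nn (∑ i ∈ s, c i • w i) 0 ∈ K := by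
  have hadd : ∀ a b, C.nn a 0 ∈ K → C.nn b 0 ∈ K → C.nn (a + b) 0 ∈ K := by
    intro a b ha hb
    have h1 : C.nn 0 (-((2 : ZMod l)⁻¹ • C.Bd.B a b)) * (C.nn a 0 * C.nn b 0) =
        C.nn (a + b) 0 := by
      rw [C.nn_mul, C.nn_mul]
      simp
    rw [← h1]
    exact K.mul_mem (hZ _) (K.mul_mem ha hb)
  have hsm : ∀ (n : ℕ) a, C.nn a 0 ∈ K → C.nn (n • a) 0 ∈ K := by
    intro n a ha
    induction n with
    | zero => rw [zero_smul]; exact hZ 0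
    | succ n ih => rw [succ_nsmul]; exact hadd _ _ ih ha
  classical
  induction s using Finset.induction_on with
  | empty => rw [Finset.sum_empty]; exact hZ 0
  | insert i s his ih =>
    rw [Finset.sum_insert his]
    refine hadd _ _ ?_ (ih fun j hj => h j (Finset.mem_insert_of_mem hj))
    by_cases hc : c i = 0
    · rw [hc, zero_smul]; exact hZ 0
    · have h1 : c i • w i = (c i).val • w i := by
        rw [← Nat.cast_smul_eq_nsmul (ZMod l), ZMod.natCast_zmod_val]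
      rw [h1]
      exact hsm _ _ (h i (Finset.mem_insert_self _ _) hc)

/-- G13d: the members of a class satisfy the conditions -/
theorem sg13d (hl : l ≠ 2) (hG : Nl l G) (C : Cd l G) (Fr : FrI k l T.tau T.phi)
    (h4 : SG4 Fr) (h4b : SG4b Fr) (hR : RelT k T.tau T.phi) : SG13d C Fr := by
  have : Finite G := hG.fin
  intro R hRep hCtn A ρ1 ρ x1 x hρ1 hρ hr1 hr hcls
  constructor
  · intro v q hq ζ
    have hrg : Fr.sys.rg q := hr.1.1 v q hq
    have hS : Fr.dn q ∉ Fr.S := Fr.dn_not q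
    have hA : Fr.dn q ∉ A := hr.2.1 v q hq
    have hn : ((nrm (Fr.dn q) : ℕ) : ZMod l) = 1 := (Fr.dn_ex _ hS).1 ⟨q, hrg, rfl⟩
    obtain ⟨z, hz⟩ := hr.2.2 _ hS hA
    obtain ⟨hb1, -, hb3⟩ := h4b C.d R hRep 0 x hr.1
    obtain ⟨t, ht, htv⟩ := hb1 v q hq
    rw [htv] at hz
    have hpw : ρ (T.tau (Fr.dn q)) ^ l = 1 := hρ.2 _ hS hA
    have hrel := hR G ρ hρ.1.2 (Fr.dn q) (hCtn _ hS).symm
    rw [g13d_pow hpw hn, hz] at hrel
    have hbp : C.bp (ρ (T.phi (Fr.dn q))) (v : VV l C.d) = 0 := g13d_bp C ht hrel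
    obtain ⟨z1, hz1⟩ := hr1.2.2 _ hS hA
    have hhm := g13d_hm C Fr hρ1.1.2 ((h4 C.d R hRep).1 0 x1 hr1.1) (v : VV l C.d) ζ
    have hcl := Fr.cl_ex _ hhm q hrg (by
      show ζ ⬝ᵥ (C.bp (ρ1 (T.tau (Fr.dn q))) (v : VV l C.d) -
        C.Bd.B (Fr.aa R 0 x1 (T.tau (Fr.dn q))) (v : VV l C.d)) = 0
      rw [hz1, C.bp_nn, sub_self, dotProduct_zero])
    have h3 := hb3 v q hq (g13d_f C v ζ) (by
      show ζ ⬝ᵥ C.Bd.B (v : VV l C.d) (v : VV l C.d) = 0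
      rw [C.Bd.alt, dotProduct_zero])
    have hcs := g13d_cls C Fr hcls (T.phi (Fr.dn q)) (v : VV l C.d)
    rw [hbp, zero_sub] at hcs
    simp only [← hcs, dotProduct_neg, mul_neg] at hcl
    have h0 : (fun i => Fr.un ((0 : Fin C.d → Fin Fr.U → ZMod l) i) (T.phi (Fr.dn q))) = 0 := by
      funext i
      exact g13d_un Fr _
    rw [h0, map_zero, mul_zero, zero_add] at h3
    show ∑ w : R, (∑ q' ∈ x w, Fr.sys.J q' q) * (ζ ⬝ᵥ C.Bd.B w v) +
      Fr.sys.ex (Fr.oc2 C R ρ1 x1 v ζ) q = 0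
    have h5 : ∑ w : R, (∑ q' ∈ x w, Fr.sys.J q' q) * (ζ ⬝ᵥ C.Bd.B w v) =
        Fr.cc (Fr.dn q) * (ζ ⬝ᵥ C.Bd.B (Fr.aa R 0 x (T.phi (Fr.dn q))) (v : VV l C.d)) := by
      refine Eq.trans ?_ h3.symm
      exact Finset.sum_congr rfl fun w _ => mul_comm _ _
    rw [h5]
    have h6 : Fr.sys.ex (Fr.oc2 C R ρ1 x1 v ζ) q =
        -(Fr.cc (Fr.dn q) * (ζ ⬝ᵥ C.Bd.B (Fr.aa R 0 x (T.phi (Fr.dn q))) (v : VV l C.d))) :=
      hcl.symm
    rw [h6, add_neg_cancel]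
  · unfold FrI.gen2
    set K : Subgroup G := Subgroup.closure
      ({g | ∃ σ, g = C.nn (-Fr.aa R 0 x1 σ) 0 * ρ1 σ} ∪
        {g | ∃ v ∈ Fr.sys.pat x, g = C.nn v 0} ∪ {g | ∃ z, g = C.nn 0 z}) with hK
    have hZ : ∀ z, C.nn 0 z ∈ K := fun z => Subgroup.subset_closure (Or.inr ⟨z, rfl⟩)
    have hV : ∀ v : R, (x v).Nonempty → C.nn v 0 ∈ K := by
      intro v hv
      refine Subgroup.subset_closure (Or.inl (Or.inr ⟨v, ?_, rfl⟩))
      unfold SysL.pat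
      rw [Finset.mem_filter]
      exact ⟨Finset.mem_univ _, hv⟩
    have h1 : ∀ σ, C.nn (-Fr.aa R 0 x1 σ) 0 * ρ1 σ ∈ K := fun σ =>
      Subgroup.subset_closure (Or.inl (Or.inl ⟨σ, rfl⟩))
    have ha : ∀ σ, C.nn (-Fr.aa R 0 x σ) 0 ∈ K := by
      intro σ
      have h2 : -Fr.aa R 0 x σ = ∑ v : R, (-∑ p ∈ x v, Fr.al p σ) • (v : VV l C.d) := by
        funext i
        have h3 : Fr.aa R 0 x σ i = Fr.un 0 σ +
          ∑ v : R, (v : VV l C.d) i * ∑ p ∈ x v, Fr.al p σ := rfl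
        rw [Pi.neg_apply, h3, g13d_un, zero_add, Finset.sum_apply, ← Finset.sum_neg_distrib]
        refine Finset.sum_congr rfl fun v _ => ?_
        rw [Pi.smul_apply, smul_eq_mul, neg_mul, mul_comm]
      rw [h2]
      refine g13d_sub C K hZ _ _ _ fun v _ hv => ?_
      refine hV v ?_
      by_contra hne
      rw [Finset.not_nonempty_iff_eq_empty] at hne
      exact hv (by rw [hne, Finset.sum_empty, neg_zero])
    rw [eq_top_iff]
    rintro g -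
    obtain ⟨σ, rfl⟩ := hρ.1.1 g
    obtain ⟨z, hz⟩ := hcls σ
    have h2 : C.nn (-Fr.aa R 0 x1 σ) z = C.nn 0 z * C.nn (-Fr.aa R 0 x1 σ) 0 := by
      rw [C.nn_mul]
      simp
    have h3 : C.nn (-Fr.aa R 0 x σ) 0 * ρ σ ∈ K := by
      rw [hz, h2, mul_assoc]
      exact K.mul_mem (hZ z) (h1 σ)
    exact (K.mul_mem_cancel_left (ha σ)).1 h3

end

end Pool.Agent.H92.EL
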