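import Pool.Agent.H92.EL.GStm

/-!
# Project T4 (MP_a3214d), block D: the number of members of a class (row G13e)
-/

set_option autoImplicit false

open scoped BigOperators Topology
open NumberField IsDedekindDomain Filter

namespace Pool.Agent.H92.EL

open Pool.Agent.H98.MF (Gm Dec nrm rdN fld)
open SysL (VV BD)

/-! ### finite fibres -/

theorem g13e_fib {α β : Type*} (s : Set α) (f : α → β) (t : Finset β) (N : ℕ)
    (h : ∀ a ∈ s, f a ∈ t)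
    (hf : ∀ a ∈ s, {b | b ∈ s ∧ f b = f a}.Finite ∧ {b | b ∈ s ∧ f b = f a}.ncard ≤ N) :
    s.Finite ∧ s.ncard ≤ N * t.card := by
  classical
  have hfin : s.Finite := by
    refine Set.Finite.of_finite_fibers f (t.finite_toSet.subset ?_) ?_
    · rintro _ ⟨a, ha, rfl⟩
      exact h a ha
    · rintro _ ⟨a, ha, rfl⟩
      exact (hf a ha).1
  refine ⟨hfin, ?_⟩
  rw [Set.ncard_eq_toFinset_card s hfin]
  have himg : hfin.toFinset.image f ⊆ t := by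
    intro b hb
    obtain ⟨a, ha, rfl⟩ := Finset.mem_image.1 hb
    exact h a (hfin.mem_toFinset.1 ha)
  refine (Finset.card_le_mul_card_image _ N ?_).trans
    (Nat.mul_le_mul_left _ (Finset.card_le_card himg))
  intro b hb
  obtain ⟨a, ha, rfl⟩ := Finset.mem_image.1 hb
  have ha' := hfin.mem_toFinset.1 ha
  refine le_trans (le_of_eq ?_) (hf a ha').2
  rw [← Set.ncard_coe_finset]
  congr 1
  ext c
  simp [hfin.mem_toFinset]

section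

variable {k : Type} [Field k] [NumberField k] {l : ℕ} [Fact l.Prime] {T : TM k}
  {G : Type} [Group G] {C : Cd l G}

/-! ### the coordinates -/

theorem g13e_nn_zero (C : Cd l G) : C.nn 0 0 = 1 := by
  have h := C.nn_mul 0 0 0 0
  simp only [map_zero, LinearMap.zero_apply, smul_zero, add_zero] at h
  exact mul_eq_left.1 h

theorem g13e_nn0_mul (C : Cd l G) (z : VV l C.n) (v : VV l C.d) (y : VV l C.n) :
    C.nn 0 z * C.nn v y = C.nn v (z + y) := by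
  have h := C.nn_mul 0 v z y
  simp only [map_zero, LinearMap.zero_apply, smul_zero, add_zero, zero_add] at h
  exact h

theorem g13e_nn0_add (C : Cd l G) (z y : VV l C.n) : C.nn 0 (z + y) = C.nn 0 z * C.nn 0 y :=
  (g13e_nn0_mul C z 0 y).symm

theorem g13e_comm (C : Cd l G) (z : VV l C.n) (g : G) : g * C.nn 0 z = C.nn 0 z * g :=
  Subgroup.mem_center_iff.1 ((C.nn_cen (C.nn 0 z)).2 ⟨z, rfl⟩).1 g

theorem g13e_nn0_inj (C : Cd l G) {z y : VV l C.n} (h : C.nn 0 z = C.nn 0 y) : z = y :=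
  (C.nn_inj 0 0 z y h).2

theorem g13e_nn0_pow (C : Cd l G) (z : VV l C.n) (m : ℕ) :
    C.nn 0 z ^ m = C.nn 0 ((m : ZMod l) • z) := by
  induction m with
  | zero => rw [pow_zero, Nat.cast_zero, zero_smul, g13e_nn_zero]
  | succ m ih =>
    rw [pow_succ, ih, ← g13e_nn0_add, Nat.cast_succ, add_smul, one_smul]

/-! ### regular primes -/

variable {tau phi : HeightOneSpectrum (𝓞 k) → Gm k} (Fr : FrI k l tau phi)

theorem g13e_rg {p : Fr.sys.P} (h : Fr.sys.D) (hp : Fr.sys.rg p) :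
    Fr.sys.rg (Fr.sys.ac h p) := by
  intro g hg
  refine hp g ?_
  have h1 : Fr.sys.ac h⁻¹ (Fr.sys.ac g (Fr.sys.ac h p)) = Fr.sys.ac h⁻¹ (Fr.sys.ac h p) := by
    rw [hg]
  have h2 : h⁻¹ * g * h = g := by rw [mul_comm h⁻¹ g, mul_assoc, inv_mul_cancel, mul_one]
  rw [← Fr.sys.ac_mul, ← Fr.sys.ac_mul, ← Fr.sys.ac_mul, inv_mul_cancel, Fr.sys.ac_one,
    h2] at h1
  exact h1

theorem g13e_ac_cancel {q p : Fr.sys.P} {g g' : Fr.sys.D} (hp : Fr.sys.rg p)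
    (h : Fr.sys.ac g q = p) (h' : Fr.sys.ac g' q = p) : g' = g := by
  have h1 : Fr.sys.ac (g' * g⁻¹) p = p := by
    conv_lhs => rw [← h]
    rw [← Fr.sys.ac_mul, mul_assoc, inv_mul_cancel, mul_one, h']
  exact mul_inv_eq_one.1 (hp _ h1)

theorem g13e_dn_ac (g : Fr.sys.D) (p : Fr.sys.P) : Fr.dn (Fr.sys.ac g p) = Fr.dn p :=
  ((Fr.dn_eq p (Fr.sys.ac g p)).2 ⟨g, rfl⟩).symm

/-- the base prime is a regular prime over `P` -/
theorem g13e_bs {P : HeightOneSpectrum (𝓞 k)} (hP : P ∉ Fr.S)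
    (h1 : ((nrm P : ℕ) : ZMod l) = 1) : Fr.sys.rg (Fr.bs P) ∧ Fr.dn (Fr.bs P) = P := by
  obtain ⟨p, hp, hpP⟩ := (Fr.dn_ex P hP).2 h1
  have h2 : Fr.dn (Fr.bs P) = P := by
    rw [← hpP]
    exact Fr.bs_dn p
  obtain ⟨g, hg⟩ := (Fr.dn_eq p (Fr.bs P)).1 (by rw [h2, hpP])
  refine ⟨?_, h2⟩
  rw [← hg]
  exact g13e_rg Fr g hp

theorem g13e_e_ne (g : Fr.sys.D) : (Fr.sys.e g : ZMod l) ≠ 0 := Units.ne_zero _

/-- families from central functions -/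
theorem g13e_cen {n : ℕ} (RZ : Finset (VV l n)) (hRZ : Fr.sys.Rep RZ)
    (Q : Finset (HeightOneSpectrum (𝓞 k))) (w : HeightOneSpectrum (𝓞 k) → VV l n)
    (hQ : ∀ P ∈ Q, P ∉ Fr.S ∧ ((nrm P : ℕ) : ZMod l) = 1 ∧ w P ≠ 0) :
    ∃ x : RZ → Finset Fr.sys.P, Fr.sys.Gd x ∧
      (∀ v, ∀ p ∈ x v, Fr.dn p ∈ Q ∧ ∃ g, Fr.sys.ac g (Fr.bs (Fr.dn p)) = p ∧
        w (Fr.dn p) = (Fr.kt (Fr.dn p) * (Fr.sys.e g : ZMod l)) • (v : VV l n)) ∧
      (∀ P ∈ Q, ∃ v, ∃ p ∈ x v, Fr.dn p = P) ∧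
      ∏ v, Fr.sys.nm (x v) = ∏ P ∈ Q, nrm P := by
  classical
  have h1 : ∀ P : {P // P ∈ Q}, ∃ (v : RZ) (g : Fr.sys.D),
      w P.1 = (Fr.kt P.1 * (Fr.sys.e g : ZMod l)) • (v : VV l n) := by
    intro P
    obtain ⟨_, _, h3⟩ := hQ P.1 P.2
    have h4 : (Fr.kt P.1)⁻¹ • w P.1 ≠ 0 := smul_ne_zero (inv_ne_zero (Fr.kt_ne P.1)) h3
    obtain ⟨v, hv, g, hg⟩ := hRZ.ex _ h4
    refine ⟨⟨v, hv⟩, g, ?_⟩
    have h5 : w P.1 = Fr.kt P.1 • ((Fr.kt P.1)⁻¹ • w P.1) := by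
      rw [smul_smul, mul_inv_cancel₀ (Fr.kt_ne P.1), one_smul]
    rw [h5, hg, smul_smul]
  choose vP gP hw using h1
  obtain ⟨pr, hpr⟩ : ∃ pr : {P // P ∈ Q} → Fr.sys.P,
      pr = fun P => Fr.sys.ac (gP P) (Fr.bs P.1) := ⟨_, rfl⟩
  have hdn : ∀ P : {P // P ∈ Q}, Fr.dn (pr P) = P.1 := by
    intro P
    rw [hpr]
    change Fr.dn (Fr.sys.ac (gP P) (Fr.bs P.1)) = P.1
    rw [g13e_dn_ac]
    exact (g13e_bs Fr (hQ P.1 P.2).1 (hQ P.1 P.2).2.1).2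
  have hrg : ∀ P : {P // P ∈ Q}, Fr.sys.rg (pr P) := by
    intro P
    rw [hpr]
    exact g13e_rg Fr _ (g13e_bs Fr (hQ P.1 P.2).1 (hQ P.1 P.2).2.1).1
  have hinj : Function.Injective pr := by
    intro P P' h
    have h2 := congrArg Fr.dn h
    rw [hdn, hdn] at h2
    exact Subtype.ext h2
  refine ⟨fun v => (Q.attach.filter fun P => vP P = v).image pr, ⟨?_, ?_⟩, ?_, ?_, ?_⟩
  · intro v p hp
    obtain ⟨P, _, rfl⟩ := Finset.mem_image.1 hp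
    exact hrg P
  · intro u v p hp q hq g hg
    obtain ⟨P, hP, rfl⟩ := Finset.mem_image.1 hp
    obtain ⟨P', hP', rfl⟩ := Finset.mem_image.1 hq
    have h2 : P = P' := by
      have h3 := congrArg Fr.dn hg
      rw [g13e_dn_ac, hdn, hdn] at h3
      exact Subtype.ext h3
    subst h2
    rw [Finset.mem_filter] at hP hP'
    exact ⟨hP.2.symm.trans hP'.2, rfl⟩
  · intro v p hp
    obtain ⟨P, hP, rfl⟩ := Finset.mem_image.1 hp
    rw [Finset.mem_filter] at hP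
    rw [hdn]
    refine ⟨P.2, gP P, by rw [hpr], ?_⟩
    rw [hw P, hP.2]
  · intro P hP
    refine ⟨vP ⟨P, hP⟩, pr ⟨P, hP⟩, Finset.mem_image_of_mem _ ?_, hdn _⟩
    rw [Finset.mem_filter]
    exact ⟨Finset.mem_attach _ _, rfl⟩
  · have h2 : ∀ v : RZ, Fr.sys.nm ((Q.attach.filter fun P => vP P = v).image pr) =
        ∏ P ∈ Q.attach with vP P = v, nrm P.1 := by
      intro v
      unfold Pool.Agent.H98.MF.Pre.nm
      rw [Finset.prod_image fun _ _ _ _ h => hinj h]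
      refine Finset.prod_congr rfl fun P _ => ?_
      have h3 : Fr.sys.N (pr P) = nrm (Fr.dn (pr P)) := Fr.N_eq (pr P) (hrg P)
      rw [hdn P] at h3
      exact h3
    rw [Finset.prod_congr rfl fun v _ => h2 v, Finset.prod_fiberwise Q.attach vP,
      Finset.prod_attach Q nrm]

/-! ### norms of families -/

theorem g13e_nm_pos (S : SysL l) (x : Finset S.P) : 1 ≤ S.nm x :=
  Finset.prod_pos fun p _ => lt_of_lt_of_le two_pos (S.two_le p)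

theorem g13e_N_le (S : SysL l) {x : Finset S.P} {p : S.P} (hp : p ∈ x) : S.N p ≤ S.nm x := by
  classical
  unfold Pool.Agent.H98.MF.Pre.nm
  exact Finset.single_le_prod' (f := fun p => S.N p)
    (fun q _ => (one_le_two.trans (S.two_le q))) hp

theorem g13e_bx (S : SysL l) {ι : Type} [Fintype ι] {x : ι → Finset S.P} {Y : ℝ}
    (h : ((∏ u, S.nm (x u) : ℕ) : ℝ) ≤ Y) (u : ι) : x u ∈ S.bx Y := by
  classical
  have h1 : S.nm (x u) ≤ ∏ u, S.nm (x u) :=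
    Finset.single_le_prod' (f := fun u => S.nm (x u)) (fun v _ => g13e_nm_pos S (x v))
      (Finset.mem_univ u)
  have h2 : (S.nm (x u) : ℝ) ≤ Y := le_trans (by exact_mod_cast h1) h
  have hY : 0 ≤ Y := le_trans (Nat.cast_nonneg _) h2
  unfold Pool.Agent.H98.MF.Pre.bx
  rw [Finset.mem_filter, Finset.mem_powerset]
  refine ⟨fun p hp => ?_, h2⟩
  rw [S.mem_pr hY]
  exact le_trans (by exact_mod_cast g13e_N_le S hp) h2

theorem g13e_CC (S : SysL l) {ι : Type} [Fintype ι] (y : Finset S.P) (Y : ℝ) :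
    ∃ Z : Finset (ι → Finset S.P), (∀ x, x ∈ Z ↔ ((∀ u, x u ∈ S.bx Y) ∧ S.Gd x ∧ S.Awy y x ∧
      ((∏ u, S.nm (x u) : ℕ) : ℝ) ≤ Y)) ∧ S.CC y (fun _ : ι → S.T => 1) Y = (Z.card : ℝ) := by
  classical
  refine ⟨(Fintype.piFinset (fun _ : ι => S.bx Y)).filter
    (fun x => S.Gd x ∧ S.Awy y x ∧ ((∏ u, S.nm (x u) : ℕ) : ℝ) ≤ Y), fun x => ?_, ?_⟩
  · rw [Finset.mem_filter, Fintype.mem_piFinset]
  · unfold SysL.CC
    rw [Finset.sum_boole]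

theorem g13e_mem_un (S : SysL l) {ι : Type} [Fintype ι] {x : ι → Finset S.P} {p : S.P} :
    p ∈ S.un x ↔ ∃ u, p ∈ x u := by
  classical
  unfold SysL.un
  simp

theorem g13e_nm_un (S : SysL l) {ι : Type} [Fintype ι] {x : ι → Finset S.P} (hx : S.Gd x) :
    ∏ u, S.nm (x u) = S.nm (S.un x) := by
  classical
  unfold SysL.un Pool.Agent.H98.MF.Pre.nm
  rw [Finset.prod_biUnion]
  intro u _ v _ huv
  refine Finset.disjoint_left.2 fun p hp hq => huv ?_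
  exact (hx.2 u v p hp p hq 1 (S.ac_one p)).1

end

/-! ### the data of a member -/

section

variable {k : Type} [Field k] [NumberField k] {l : ℕ} [Fact l.Prime] {T : TM k}
  {G : Type} [Group G] (C : Cd l G) (Fr : FrI k l T.tau T.phi)

open Classical in
/-- the data of a member of a class -/
structure G13eDat (R : Finset (VV l C.d)) (RZ : Finset (VV l C.n))
    (A : Finset (HeightOneSpectrum (𝓞 k))) (ρ1 : Gm k →* G) (x1 : R → Finset Fr.sys.P)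
    (ρ : Gm k →* G) (x : R → Finset Fr.sys.P) (z : Fr.sys.P →₀ VV l C.n)
    (x' : RZ → Finset Fr.sys.P) : Prop where
  rc : Rec C Fr R A ρ x
  cl : Cls2 C Fr R ρ1 x1 ρ x
  zs : z.support ⊆ Fr.sys.un x
  zv : ∀ v, ∀ p ∈ x v, ρ (T.tau (Fr.dn p)) = C.nn (Fr.aa R 0 x (T.tau (Fr.dn p))) (z p)
  gd : Fr.sys.Gd x'
  aw : Fr.sys.Awy (Fr.sys.un x) x'
  xv : ∀ v, ∀ p ∈ x' v, ∃ g, Fr.sys.ac g (Fr.bs (Fr.dn p)) = p ∧
    ρ (T.tau (Fr.dn p)) =
      C.nn 0 ((Fr.kt (Fr.dn p) * (Fr.sys.e g : ZMod l)) • (v : VV l C.n))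
  ex : ∀ P, P ∉ Fr.S → P ∉ A → (∀ v : R, ∀ p ∈ x v, Fr.dn p ≠ P) → ρ (T.tau P) ≠ 1 →
    ∃ v, ∃ p ∈ x' v, Fr.dn p = P
  nm : (∏ v, Fr.sys.nm (x v)) * ∏ v, Fr.sys.nm (x' v) = nO T (Fr.S ∪ A) ρ

variable {C Fr}

/-- central inertia at a tame prime -/
theorem g13e_one (hG : Nl l G) (hR : RelT k T.tau T.phi) (hS : Ctn Fr.S (Nat.card G))
    {ρ : Gm k →* G} (lc : IsLocallyConstant ρ) {P : HeightOneSpectrum (𝓞 k)} (hP : P ∉ Fr.S)
    {w : VV l C.n} (hw : ρ (T.tau P) = C.nn 0 w) (hw0 : w ≠ 0) :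
    ((nrm P : ℕ) : ZMod l) = 1 := by
  have := hG.fin
  have h1 := hR G ρ lc P (hS P hP).symm
  rw [hw, g13e_comm C w, mul_assoc, mul_inv_cancel, mul_one, g13e_nn0_pow] at h1
  have h2 := g13e_nn0_inj C h1
  have h3 : (((nrm P : ℕ) : ZMod l) - 1) • w = 0 := by
    rw [sub_smul, one_smul, ← h2, sub_self]
  rcases smul_eq_zero.1 h3 with h4 | h4
  · exact sub_eq_zero.1 h4
  · exact absurd h4 hw0

theorem g13e_ex (hG : Nl l G) (h4b : SG4b Fr) (hR : RelT k T.tau T.phi)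
    (hF : FinT k T.tau) {R : Finset (VV l C.d)} {RZ : Finset (VV l C.n)}
    (hRep : Fr.sys.Rep R) (hRZ : Fr.sys.Rep RZ) (hS : Ctn Fr.S (Nat.card G))
    {A : Finset (HeightOneSpectrum (𝓞 k))} {ρ1 : Gm k →* G} {x1 : R → Finset Fr.sys.P}
    {ρ : Gm k →* G} (hρ : ρ ∈ HkA T G l Fr.S A) {x : R → Finset Fr.sys.P}
    (hx : Rec C Fr R A ρ x) (hc : Cls2 C Fr R ρ1 x1 ρ x) :
    ∃ z x', G13eDat C Fr R RZ A ρ1 x1 ρ x z x' := by
  classical
  have := hG.fin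
  have lc : IsLocallyConstant ρ := hρ.1.2
  obtain ⟨hgd, hA, hrec⟩ := id hx
  obtain ⟨b1, b2, _⟩ := h4b C.d R hRep 0 x hgd
  have hcen : ∀ P, P ∉ Fr.S → P ∉ A → (∀ v : R, ∀ p ∈ x v, Fr.dn p ≠ P) →
      ∃ z, ρ (T.tau P) = C.nn 0 z := by
    intro P h1 h2 h3
    obtain ⟨z, hz⟩ := hrec P h1 h2
    rw [b2 P h1 h3] at hz
    exact ⟨z, hz⟩
  obtain ⟨w, hw⟩ : ∃ w : HeightOneSpectrum (𝓞 k) → VV l C.n, ∀ P, P ∉ Fr.S → P ∉ A →
      (∀ v : R, ∀ p ∈ x v, Fr.dn p ≠ P) → ρ (T.tau P) = C.nn 0 (w P) := by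
    refine ⟨fun P => if h : ∃ z, ρ (T.tau P) = C.nn 0 z then h.choose else 0, ?_⟩
    intro P h1 h2 h3
    have h4 := hcen P h1 h2 h3
    simp only [dif_pos h4]
    exact h4.choose_spec
  have hz0 : ∀ p, (∃ v, p ∈ x v) →
      ∃ z, ρ (T.tau (Fr.dn p)) = C.nn (Fr.aa R 0 x (T.tau (Fr.dn p))) z := by
    rintro p ⟨v, hp⟩
    exact hrec _ (Fr.dn_not p) (hA v p hp)
  obtain ⟨z, hz1, hz2⟩ : ∃ z : Fr.sys.P →₀ VV l C.n, z.support ⊆ Fr.sys.un x ∧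
      ∀ v, ∀ p ∈ x v, ρ (T.tau (Fr.dn p)) =
        C.nn (Fr.aa R 0 x (T.tau (Fr.dn p))) (z p) := by
    refine ⟨Finsupp.onFinset (Fr.sys.un x)
      (fun p => if h : ∃ v, p ∈ x v then (hz0 p h).choose else 0) ?_, ?_, ?_⟩
    · intro p hp
      by_contra h
      exact hp (dif_neg fun h' => h ((g13e_mem_un Fr.sys).2 h'))
    · exact Finsupp.support_onFinset_subset
    · intro v p hp
      have h : ∃ v, p ∈ x v := ⟨v, hp⟩
      rw [Finsupp.onFinset_apply, dif_pos h]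
      exact (hz0 p h).choose_spec
  have hfin : {P | ρ (T.tau P) ≠ 1}.Finite := hF G ρ lc
  obtain ⟨Q, hQm⟩ : ∃ Q : Finset (HeightOneSpectrum (𝓞 k)), ∀ P, P ∈ Q ↔
      (ρ (T.tau P) ≠ 1 ∧ P ∉ Fr.S ∧ P ∉ A ∧ ∀ v : R, ∀ p ∈ x v, Fr.dn p ≠ P) := by
    refine ⟨hfin.toFinset.filter fun P => P ∉ Fr.S ∧ P ∉ A ∧
      ∀ v : R, ∀ p ∈ x v, Fr.dn p ≠ P, fun P => ?_⟩
    rw [Finset.mem_filter, Set.Finite.mem_toFinset]
    rfl
  have hQ : ∀ P ∈ Q, P ∉ Fr.S ∧ ((nrm P : ℕ) : ZMod l) = 1 ∧ w P ≠ 0 := by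
    intro P hP
    obtain ⟨h1, h2, h3, h4⟩ := (hQm P).1 hP
    have h5 : w P ≠ 0 := by
      intro h0
      apply h1
      rw [hw P h2 h3 h4, h0, g13e_nn_zero]
    exact ⟨h2, g13e_one hG hR hS lc h2 (hw P h2 h3 h4) h5, h5⟩
  obtain ⟨x', hgd', hv', hex', hnm'⟩ := g13e_cen Fr RZ hRZ Q w hQ
  refine ⟨z, x', hx, hc, hz1, hz2, hgd', ?_, ?_, ?_, ?_⟩
  · intro v p hp q hq g hg
    obtain ⟨u, hu⟩ := (g13e_mem_un Fr.sys).1 hq
    have h1 := ((hQm _).1 (hv' v p hp).1).2.2.2 u q hu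
    apply h1
    rw [← hg, g13e_dn_ac]
  · intro v p hp
    obtain ⟨hPQ, g, hg, hwg⟩ := hv' v p hp
    obtain ⟨h1, h2, h3, h4⟩ := (hQm _).1 hPQ
    refine ⟨g, hg, ?_⟩
    rw [hw _ h2 h3 h4, hwg]
  · intro P h1 h2 h3 h4
    exact hex' P ((hQm P).2 ⟨h4, h1, h2, h3⟩)
  · have hset : {P : HeightOneSpectrum (𝓞 k) | P ∉ Fr.S ∪ A ∧ ρ (T.tau P) ≠ 1} =
        ↑((Fr.sys.un x).image Fr.dn ∪ Q) := by
      ext P
      rw [Set.mem_setOf_eq, Finset.coe_union, Set.mem_union, Finset.mem_coe, Finset.mem_coe,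
        Finset.mem_union, not_or, hQm]
      constructor
      · rintro ⟨⟨h1, h2⟩, h3⟩
        by_cases h4 : ∀ v : R, ∀ p ∈ x v, Fr.dn p ≠ P
        · exact Or.inr ⟨h3, h1, h2, h4⟩
        · push Not at h4
          obtain ⟨v, p, hp, hpP⟩ := h4
          exact Or.inl (Finset.mem_image.2 ⟨p, (g13e_mem_un Fr.sys).2 ⟨v, hp⟩, hpP⟩)
      · rintro (h | ⟨h3, h1, h2, _⟩)
        · obtain ⟨p, hp, rfl⟩ := Finset.mem_image.1 h
          obtain ⟨v, hv⟩ := (g13e_mem_un Fr.sys).1 hp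
          refine ⟨⟨Fr.dn_not p, hA v p hv⟩, fun h0 => ?_⟩
          obtain ⟨t, ht, hat⟩ := b1 v p hv
          rw [hz2 v p hv, ← g13e_nn_zero C] at h0
          have h5 := (C.nn_inj _ _ _ _ h0).1
          rw [hat] at h5
          rcases smul_eq_zero.1 h5 with h6 | h6
          · exact ht h6
          · exact hRep.nz (h6 ▸ v.2)
        · exact ⟨⟨h1, h2⟩, h3⟩
    have hdisj : Disjoint ((Fr.sys.un x).image Fr.dn) Q := by
      refine Finset.disjoint_left.2 fun P hP hPQ => ?_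
      obtain ⟨p, hp, rfl⟩ := Finset.mem_image.1 hP
      obtain ⟨v, hv⟩ := (g13e_mem_un Fr.sys).1 hp
      exact ((hQm _).1 hPQ).2.2.2 v p hv rfl
    unfold nO
    rw [hset, finprod_mem_coe_finset, Finset.prod_union hdisj, ← hnm', g13e_nm_un Fr.sys hgd,
      Finset.prod_image]
    · congr 1
      unfold Pool.Agent.H98.MF.Pre.nm
      refine Finset.prod_congr rfl fun p hp => ?_
      obtain ⟨v, hv⟩ := (g13e_mem_un Fr.sys).1 hp
      exact Fr.N_eq p (hgd.1 v p hv)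
    · intro p hp q hq h
      obtain ⟨v, hv⟩ := (g13e_mem_un Fr.sys).1 hp
      obtain ⟨u, hu⟩ := (g13e_mem_un Fr.sys).1 hq
      obtain ⟨g, hg⟩ := (Fr.dn_eq p q).1 h
      exact (hgd.2 v u p hv q hu g hg).2

/-- the data determine the inertia outside `A` -/
theorem g13e_det {R : Finset (VV l C.d)} {RZ : Finset (VV l C.n)}
    {A : Finset (HeightOneSpectrum (𝓞 k))} {ρ1 : Gm k →* G} {x1 : R → Finset Fr.sys.P}
    {ρ ρ' : Gm k →* G} {x : R → Finset Fr.sys.P} {z : Fr.sys.P →₀ VV l C.n}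
    {x' : RZ → Finset Fr.sys.P} (h : G13eDat C Fr R RZ A ρ1 x1 ρ x z x')
    (h' : G13eDat C Fr R RZ A ρ1 x1 ρ' x z x') (P : HeightOneSpectrum (𝓞 k))
    (hP : P ∉ Fr.S) (hA : P ∉ A) : ρ (T.tau P) = ρ' (T.tau P) := by
  classical
  by_cases h4 : ∀ v : R, ∀ p ∈ x v, Fr.dn p ≠ P
  · by_cases h5 : ρ (T.tau P) = 1 ∧ ρ' (T.tau P) = 1
    · rw [h5.1, h5.2]
    · have h6 : ∃ v, ∃ p ∈ x' v, Fr.dn p = P := by
        by_cases h7 : ρ (T.tau P) = 1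
        · exact h'.ex P hP hA h4 fun h8 => h5 ⟨h7, h8⟩
        · exact h.ex P hP hA h4 h7
      obtain ⟨v, p, hp, rfl⟩ := h6
      obtain ⟨g, hg, hw⟩ := h.xv v p hp
      obtain ⟨g', hg', hw'⟩ := h'.xv v p hp
      have h8 := g13e_ac_cancel Fr (h.gd.1 v p hp) hg hg'
      rw [hw, hw', h8]
  · push Not at h4
    obtain ⟨v, p, hp, rfl⟩ := h4
    rw [h.zv v p hp, h'.zv v p hp]

/-- two members with the same record differ by a central homomorphism -/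
theorem g13e_diff {R : Finset (VV l C.d)} {ρ1 : Gm k →* G} {x1 : R → Finset Fr.sys.P}
    {ρ ρ' : Gm k →* G} {x : R → Finset Fr.sys.P} (lc : IsLocallyConstant ρ)
    (lc' : IsLocallyConstant ρ') (h : Cls2 C Fr R ρ1 x1 ρ x) (h' : Cls2 C Fr R ρ1 x1 ρ' x) :
    ∃ c : Gm k → VV l C.n, (∀ i, Hm fun σ => c σ i) ∧ ∀ σ, ρ' σ = C.nn 0 (c σ) * ρ σ := by
  have h1 : ∀ σ, ∃ z, ρ' σ = C.nn 0 z * ρ σ := by
    intro σ
    obtain ⟨z, hz⟩ := h σ
    obtain ⟨z', hz'⟩ := h' σ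
    refine ⟨z' - z, ?_⟩
    have e1 : C.nn (-Fr.aa R 0 x1 σ) z' = C.nn 0 (z' - z) * C.nn (-Fr.aa R 0 x1 σ) z := by
      rw [g13e_nn0_mul, sub_add_cancel]
    have e2 : C.nn (-Fr.aa R 0 x σ) 0 * ρ' σ =
        C.nn (-Fr.aa R 0 x σ) 0 * (C.nn 0 (z' - z) * ρ σ) := by
      rw [hz', e1, mul_assoc, ← hz, ← mul_assoc, ← mul_assoc, g13e_comm C (z' - z)]
    exact mul_left_cancel e2
  choose c hc using h1
  have hadd : ∀ σ τ, c (σ * τ) = c σ + c τ := by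
    intro σ τ
    apply g13e_nn0_inj C
    have e1 : C.nn 0 (c (σ * τ)) * ρ (σ * τ) = C.nn 0 (c σ + c τ) * ρ (σ * τ) := by
      rw [← hc, map_mul, hc σ, hc τ, g13e_nn0_add, map_mul]
      calc C.nn 0 (c σ) * ρ σ * (C.nn 0 (c τ) * ρ τ)
          = C.nn 0 (c σ) * (ρ σ * C.nn 0 (c τ)) * ρ τ := by group
        _ = C.nn 0 (c σ) * (C.nn 0 (c τ) * ρ σ) * ρ τ := by rw [g13e_comm C (c τ) (ρ σ)]
        _ = _ := by group
    exact mul_right_cancel e1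
  have hlc : IsLocallyConstant c := by
    rw [IsLocallyConstant.iff_eventually_eq] at lc lc' ⊢
    intro σ
    filter_upwards [lc σ, lc' σ] with τ h1 h2
    apply g13e_nn0_inj C
    have e1 := hc τ
    rw [h2, h1, hc σ] at e1
    exact (mul_right_cancel e1).symm
  refine ⟨c, fun i => ⟨hlc.comp fun v => v i, fun σ τ => ?_⟩, hc⟩
  rw [hadd]
  rfl

/-- central homomorphisms ramified only at `S` and `A` -/
theorem g13e_E (Fr : FrI k l T.tau T.phi) (n : ℕ) (A : Finset (HeightOneSpectrum (𝓞 k))) :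
    {c : Gm k → VV l n | (∀ i, Hm fun σ => c σ i) ∧
      ∀ P, P ∉ Fr.S → P ∉ A → c (T.tau P) = 0}.Finite ∧
    {c : Gm k → VV l n | (∀ i, Hm fun σ => c σ i) ∧
      ∀ P, P ∉ Fr.S → P ∉ A → c (T.tau P) = 0}.ncard ≤
      (l ^ Fr.U) ^ n * (l ^ n) ^ A.card := by
  classical
  have hcard : (Finset.univ : Finset ({P // P ∈ A} → VV l n)).card = (l ^ n) ^ A.card := by
    rw [Finset.card_univ, Fintype.card_fun, Fintype.card_fun, ZMod.card, Fintype.card_fin,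
      Fintype.card_coe]
  rw [← hcard]
  refine g13e_fib _ (fun c P => c (T.tau P.1)) Finset.univ ((l ^ Fr.U) ^ n)
    (fun _ _ => Finset.mem_univ _) ?_
  intro a ha
  obtain ⟨ha1, ha2⟩ := ha
  obtain ⟨F, hF⟩ : ∃ F : (Fin n → Fin Fr.U → ZMod l) → Gm k → VV l n,
      F = fun u σ i => a σ i + Fr.un (u i) σ := ⟨_, rfl⟩
  have hsub : {b : Gm k → VV l n | b ∈ {c : Gm k → VV l n | (∀ i, Hm fun σ => c σ i) ∧
      ∀ P, P ∉ Fr.S → P ∉ A → c (T.tau P) = 0} ∧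
      (fun P : {P // P ∈ A} => b (T.tau P.1)) = fun P : {P // P ∈ A} => a (T.tau P.1)} ⊆
      ↑((Finset.univ : Finset (Fin n → Fin Fr.U → ZMod l)).image F) := by
    rintro b ⟨⟨hb1, hb2⟩, hb3⟩
    have h1 : ∀ i, ∃ y, (fun σ => b σ i - a σ i) = Fr.un y := by
      intro i
      refine Fr.un_ex _ ⟨(hb1 i).lc.sub (ha1 i).lc, fun σ τ => ?_⟩ fun P hP => ?_
      · have e1 := (hb1 i).add σ τ
        have e2 := (ha1 i).add σ τ
        beta_reduce at e1 e2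
        rw [e1, e2]
        ring
      · by_cases hPA : P ∈ A
        · have h2 := congrFun hb3 ⟨P, hPA⟩
          beta_reduce at h2
          rw [h2, sub_self]
        · rw [hb2 P hP hPA, ha2 P hP hPA, sub_self]
    choose u hu using h1
    rw [Finset.coe_image, Finset.coe_univ, Set.image_univ]
    refine ⟨u, ?_⟩
    rw [hF]
    funext σ i
    have h2 := congrFun (hu i) σ
    beta_reduce at h2
    change a σ i + Fr.un (u i) σ = b σ i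
    rw [← h2]
    ring
  refine ⟨(Finset.finite_toSet _).subset hsub, ?_⟩
  refine (Set.ncard_le_ncard hsub (Finset.finite_toSet _)).trans ?_
  rw [Set.ncard_coe_finset]
  refine Finset.card_image_le.trans (le_of_eq ?_)
  rw [Finset.card_univ, Fintype.card_fun, Fintype.card_fun, ZMod.card, Fintype.card_fin,
    Fintype.card_fin]

/-- Row G13e: the number of members of a class. -/
theorem sg13e (_hl : l ≠ 2) (hG : Nl l G) (C : Cd l G) (Fr : FrI k l T.tau T.phi)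
    (_h4 : SG4 Fr) (h4b : SG4b Fr) (_h5 : SG5 Fr) (_h13a : SG13a C Fr) (h13d : SG13d C Fr)
    (hR : RelT k T.tau T.phi) (hF : FinT k T.tau) : SG13e C Fr := by
  classical
  intro R RZ hRep hRZ hS A ρ1 x1 M hρ1 hrec1 hM Y _
  obtain ⟨X, hX⟩ : ∃ X : Finset (R → Finset Fr.sys.P),
      X = (Fintype.piFinset (fun _ : R => Fr.sys.bx Y)).filter (fun x => Fr.sys.Gd x ∧
        Fr.sys.Off M x ∧ Fr.sys.okc C.Bd R (Fr.oc2 C R ρ1 x1) x ∧
        Fr.gen2 C R ρ1 x1 (Fr.sys.pat x) ∧ ((∏ u, Fr.sys.nm (x u) : ℕ) : ℝ) ≤ Y) := ⟨_, rfl⟩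
  have hZ0 : ∀ x : R → Finset Fr.sys.P, _ := fun x =>
    g13e_CC (ι := RZ) Fr.sys (Fr.sys.un x) (Y / (∏ u, Fr.sys.nm (x u) : ℕ))
  choose Z hZ hZ1 using hZ0
  obtain ⟨D, hD⟩ : ∃ D : Finset (Σ _ : R → Finset Fr.sys.P,
      (Fr.sys.P →₀ VV l C.n) × (RZ → Finset Fr.sys.P)),
      D = X.sigma fun x => Fr.sys.asg C.n (Fr.sys.un x) ×ˢ Z x := ⟨_, rfl⟩
  have hNN : Fr.sys.NN C.Bd R RZ (Fr.oc2 C R ρ1 x1) M (Fr.gen2 C R ρ1 x1) (fun _ _ => 1) Y =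
      (D.card : ℝ) := by
    rw [hD, Finset.card_sigma]
    unfold SysL.NN
    rw [← Finset.sum_filter, ← hX, Nat.cast_sum]
    refine Finset.sum_congr rfl fun x _ => ?_
    beta_reduce
    rw [hZ1 x, Finset.sum_const, nsmul_eq_mul, Finset.card_product, Nat.cast_mul]
  -- the data of the members
  obtain ⟨f, hf⟩ : ∃ f : (Gm k →* G) → (Σ _ : R → Finset Fr.sys.P,
      (Fr.sys.P →₀ VV l C.n) × (RZ → Finset Fr.sys.P)),
      ∀ ρ ∈ HC C Fr R A ρ1 x1 Y, G13eDat C Fr R RZ A ρ1 x1 ρ (f ρ).1 (f ρ).2.1 (f ρ).2.2 := by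
    refine ⟨fun ρ => if h : ∃ d : (Σ _ : R → Finset Fr.sys.P,
      (Fr.sys.P →₀ VV l C.n) × (RZ → Finset Fr.sys.P)),
      G13eDat C Fr R RZ A ρ1 x1 ρ d.1 d.2.1 d.2.2 then h.choose
      else ⟨fun _ => ∅, (0, fun _ => ∅)⟩, fun ρ hρ => ?_⟩
    have h : ∃ d : (Σ _ : R → Finset Fr.sys.P,
      (Fr.sys.P →₀ VV l C.n) × (RZ → Finset Fr.sys.P)),
      G13eDat C Fr R RZ A ρ1 x1 ρ d.1 d.2.1 d.2.2 := by
      obtain ⟨hρA, ⟨x, hx, hc⟩, _⟩ := hρ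
      obtain ⟨z, x', hd⟩ := g13e_ex (RZ := RZ) hG h4b hR hF hRep hRZ hS hρA hx hc
      exact ⟨⟨x, (z, x')⟩, hd⟩
    simp only [dif_pos h]
    exact h.choose_spec
  have main := g13e_fib (HC C Fr R A ρ1 x1 Y) f D ((l ^ Fr.U) ^ C.n * (l ^ C.n) ^ A.card)
    (fun ρ hρ => ?_) (fun a ha => ?_)
  · refine ⟨main.1, ?_⟩
    rw [hNN]
    exact_mod_cast main.2
  · have hd := hf ρ hρ
    have hnm := hd.nm
    have hY : (nO T (Fr.S ∪ A) ρ : ℝ) ≤ Y := hρ.2.2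
    rw [← hnm] at hY
    have hp1 : 1 ≤ ∏ v, Fr.sys.nm ((f ρ).1 v) :=
      Nat.succ_le_of_lt (Finset.prod_pos fun v _ => g13e_nm_pos Fr.sys _)
    have hp2 : 1 ≤ ∏ v, Fr.sys.nm ((f ρ).2.2 v) :=
      Nat.succ_le_of_lt (Finset.prod_pos fun v _ => g13e_nm_pos Fr.sys _)
    have hp1' : (1 : ℝ) ≤ ((∏ v, Fr.sys.nm ((f ρ).1 v) : ℕ) : ℝ) := by exact_mod_cast hp1
    have hp2' : (1 : ℝ) ≤ ((∏ v, Fr.sys.nm ((f ρ).2.2 v) : ℕ) : ℝ) := by exact_mod_cast hp2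
    rw [Nat.cast_mul] at hY
    have hx : ((∏ v, Fr.sys.nm ((f ρ).1 v) : ℕ) : ℝ) ≤ Y :=
      (le_mul_of_one_le_right (by linarith) hp2').trans hY
    have hx' : ((∏ v, Fr.sys.nm ((f ρ).2.2 v) : ℕ) : ℝ) ≤
        Y / ((∏ v, Fr.sys.nm ((f ρ).1 v) : ℕ) : ℝ) := by
      rw [le_div_iff₀ (by linarith), mul_comm]
      exact hY
    have h13 := h13d R hRep hS A ρ1 ρ x1 (f ρ).1 hρ1 hρ.1 hrec1 hd.rc hd.cl
    rw [hD, Finset.mem_sigma, Finset.mem_product, hX, Finset.mem_filter,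
      Fintype.mem_piFinset]
    refine ⟨⟨fun v => g13e_bx Fr.sys hx v, hd.rc.1, ?_, h13.1, h13.2, hx⟩, ?_, ?_⟩
    · intro u
      refine Finset.disjoint_left.2 fun p hp hpM => ?_
      exact hd.rc.2.1 u p hp ((hM p).1 hpM).2
    · unfold SysL.asg
      rw [Finset.mem_finsupp_iff]
      exact ⟨hd.zs, fun _ _ => Finset.mem_univ _⟩
    · rw [hZ]
      exact ⟨fun v => g13e_bx Fr.sys hx' v, hd.gd, hd.aw, hx'⟩
  · have hda := hf a ha
    obtain ⟨F, hF'⟩ : ∃ F : (Gm k → VV l C.n) → (Gm k →* G), F = fun c =>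
      if h : ∃ ρ' : Gm k →* G, ∀ σ, ρ' σ = C.nn 0 (c σ) * a σ then h.choose else 1 := ⟨_, rfl⟩
    have hE := g13e_E Fr C.n A
    have hsub : {b | b ∈ HC C Fr R A ρ1 x1 Y ∧ f b = f a} ⊆
        F '' {c : Gm k → VV l C.n | (∀ i, Hm fun σ => c σ i) ∧
          ∀ P, P ∉ Fr.S → P ∉ A → c (T.tau P) = 0} := by
      rintro b ⟨hb, hba⟩
      have hdb := hf b hb
      rw [hba] at hdb
      obtain ⟨c, hc1, hc2⟩ := g13e_diff ha.1.1.2 hb.1.1.2 hda.cl hdb.cl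
      refine ⟨c, ⟨hc1, fun P hP hPA => ?_⟩, ?_⟩
      · have h1 := hc2 (T.tau P)
        rw [← g13e_det hda hdb P hP hPA] at h1
        have h2 : C.nn 0 (c (T.tau P)) = C.nn 0 0 := by
          rw [g13e_nn_zero]
          exact (mul_eq_right.1 h1.symm)
        exact g13e_nn0_inj C h2
      · have h : ∃ ρ' : Gm k →* G, ∀ σ, ρ' σ = C.nn 0 (c σ) * a σ := ⟨b, hc2⟩
        rw [hF']
        simp only [dif_pos h]
        refine MonoidHom.ext fun σ => ?_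
        rw [h.choose_spec σ, hc2 σ]
    have hfin := hE.1.image F
    exact ⟨hfin.subset hsub, (Set.ncard_le_ncard hsub hfin).trans
      ((Set.ncard_image_le hE.1).trans hE.2)⟩

end

end Pool.Agent.H92.EL
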