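import Pool.Agent.H92.EL.GStm
import Pool.Agent.H92.EL.GRel
import Pool.Agent.H92.EL.ZUni

/-!
# Project T4 (MP_a3214d), row G14: the uniform inner statement
-/

set_option autoImplicit false

open scoped BigOperators Topology
open NumberField IsDedekindDomain Filter

namespace Pool.Agent.H92.EL

open Pool.Agent.H98.MF (Gm Dec nrm rdN fld)
open SysL (VV BD)

private theorem g14_pos {k : Type} [Field k] [NumberField k] (P : HeightOneSpectrum (𝓞 k)) :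
    0 < nrm P := by
  have h : nrm P ≠ 0 := by
    unfold nrm
    rw [Ne, Ideal.absNorm_eq_zero_iff]
    exact P.ne_bot
  exact Nat.pos_of_ne_zero h

/-- finitely many primes of bounded norm -/
private theorem g14_fin (k : Type) [Field k] [NumberField k] (N : ℕ) :
    {P : HeightOneSpectrum (𝓞 k) | nrm P ≤ N}.Finite := by
  have h := Ideal.finite_setOfPred_absNorm_le (S := 𝓞 k) N
  refine Set.Finite.of_finite_image (f := fun P : HeightOneSpectrum (𝓞 k) => P.asIdeal)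
    (h.subset ?_) ?_
  · rintro _ ⟨P, hP, rfl⟩
    exact hP
  · intro P _ Q _ h
    exact HeightOneSpectrum.ext h

/-- a power of the number of primes is bounded by a small power of the product of the norms -/
private theorem g14_pow (k : Type) [Field k] [NumberField k] (K η : ℝ) (hK : 1 ≤ K)
    (hη : 0 < η) : ∃ C : ℝ, 0 ≤ C ∧ ∀ A : Finset (HeightOneSpectrum (𝓞 k)),
      K ^ A.card ≤ C * ((∏ P ∈ A, nrm P : ℕ) : ℝ) ^ η := by
  classical
  have hK0 : 0 < K := lt_of_lt_of_le one_pos hK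
  obtain ⟨N, hN⟩ : ∃ N : ℕ, K ^ (1 / η) ≤ N := exists_nat_ge _
  have hF := g14_fin k N
  refine ⟨K ^ hF.toFinset.card, by positivity, fun A => ?_⟩
  have h1 : K ^ A.card = ∏ P ∈ A, K := by rw [Finset.prod_const]
  have h2 : ∀ P ∈ A, K ≤ (if P ∈ hF.toFinset then K else 1) * ((nrm P : ℕ) : ℝ) ^ η := by
    intro P _
    split_ifs with h
    · have h3 : (1 : ℝ) ≤ nrm P := by exact_mod_cast g14_pos P
      have h4 : (1 : ℝ) ≤ (nrm P : ℝ) ^ η := Real.one_le_rpow h3 hη.le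
      nlinarith
    · rw [one_mul]
      have h3 : N ≤ nrm P := by
        by_contra hc
        exact h (hF.mem_toFinset.2 (not_le.1 hc).le)
      have h4 : K ^ (1 / η) ≤ (nrm P : ℝ) := hN.trans (by exact_mod_cast h3)
      have h5 := Real.rpow_le_rpow (by positivity) h4 hη.le
      rwa [← Real.rpow_mul hK0.le, one_div, inv_mul_cancel₀ hη.ne', Real.rpow_one] at h5
  have h3 : ∏ P ∈ A, (if P ∈ hF.toFinset then K else 1) ≤ K ^ hF.toFinset.card := by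
    rw [Finset.prod_ite, Finset.prod_const, Finset.prod_const, one_pow, mul_one]
    refine pow_le_pow_right₀ hK (Finset.card_le_card fun P hP => ?_)
    exact (Finset.mem_filter.1 hP).2
  calc K ^ A.card = ∏ P ∈ A, K := h1
    _ ≤ ∏ P ∈ A, ((if P ∈ hF.toFinset then K else 1) * ((nrm P : ℕ) : ℝ) ^ η) :=
        Finset.prod_le_prod (fun _ _ => hK0.le) h2
    _ = (∏ P ∈ A, (if P ∈ hF.toFinset then K else 1)) * ((∏ P ∈ A, nrm P : ℕ) : ℝ) ^ η := by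
        rw [Finset.prod_mul_distrib, Nat.cast_prod, Real.finsetProd_rpow]
        intro P _
        positivity
    _ ≤ _ := by
        refine mul_le_mul_of_nonneg_right h3 (by positivity)

theorem sinnU
    (h13a : ∀ (k : Type) [Field k] [NumberField k] (l : ℕ) [Fact l.Prime] (T : TM k)
      (G : Type) [Group G] (C : Cd l G) (Fr : FrI k l T.tau T.phi), l ≠ 2 → Nl l G → SG13a C Fr)
    (h13b : ∀ (k : Type) [Field k] [NumberField k] (l : ℕ) [Fact l.Prime] (T : TM k)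
      (G : Type) [Group G] (C : Cd l G) (Fr : FrI k l T.tau T.phi), l ≠ 2 → Nl l G → SG13b C Fr)
    (h13c : ∀ (k : Type) [Field k] [NumberField k] (l : ℕ) [Fact l.Prime] (T : TM k)
      (G : Type) [Group G] (C : Cd l G) (Fr : FrI k l T.tau T.phi), l ≠ 2 → Nl l G → SG13c C Fr)
    (h13e : ∀ (k : Type) [Field k] [NumberField k] (l : ℕ) [Fact l.Prime] (T : TM k)
      (G : Type) [Group G] (C : Cd l G) (Fr : FrI k l T.tau T.phi), l ≠ 2 → Nl l G → SG13e C Fr)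
    (hfr : ∀ (k : Type) [Field k] [NumberField k] (l : ℕ) [Fact l.Prime] (T : TM k), l ≠ 2 →
      SFrI k l T.tau T.phi)
    (hcd : SGCd)
    (h10 : ∀ (k : Type) [Field k] [NumberField k] (l : ℕ) [Fact l.Prime] (G : Type) [Group G]
      (C : Cd l G), l ≠ 2 → Nl l G → SG10 k C)
    (hu : SUnf) : SInnU := by
  intro k _ _ l _ T G _ hl hG b hb
  classical
  have := hG.fin
  obtain ⟨S0, hS0⟩ := ctn_ex k (Nat.card G) Nat.card_pos.ne'
  obtain ⟨Fr, hFr⟩ := hfr k l T hl S0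
  obtain ⟨C⟩ := hcd l hl G hG
  obtain ⟨R, RZ, hR, hRZ, hbb⟩ := h10 k l G C hl hG Fr.sys Fr.e_iff
  have hS : Ctn Fr.S (Nat.card G) := fun P hP => hS0 P fun h => hP (hFr h)
  have hcyc : 0 < Nat.card (cyc k l) := by
    have h1 : (1 : (ZMod l)ˣ) ∈ cyc k l := (Fr.e_iff 1).1 ⟨1, map_one _⟩
    have : Nonempty (cyc k l) := ⟨⟨1, h1⟩⟩
    exact Nat.card_pos
  have hbe : b = C.bb R RZ := Nat.eq_of_mul_eq_mul_right hcyc (hb.trans hbb.symm)
  refine ⟨Fr.S, hS, fun ε hε => ?_⟩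
  have hD : 0 < Fintype.card Fr.sys.D := Fintype.card_pos
  have hD' : (0 : ℝ) < Fintype.card Fr.sys.D := by exact_mod_cast hD
  obtain ⟨ε', hε'⟩ : ∃ ε' : ℝ, ε' = ε / (2 * Fintype.card Fr.sys.D) := ⟨_, rfl⟩
  have hε'0 : 0 < ε' := by rw [hε']; positivity
  obtain ⟨C1, hC1, hU⟩ := hu l Fr.sys C.d C.n C.Bd R RZ ε' hR hRZ C.n_pos hε'0
  obtain ⟨C0, hC0, hW⟩ := h13b k l T G C Fr hl hG R hR hS
  have hl1 : (1 : ℝ) ≤ l := by exact_mod_cast (Fact.out : l.Prime).one_lt.le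
  have hC0' : (1 : ℝ) ≤ C0 := by exact_mod_cast hC0
  obtain ⟨C2, hC2, hP⟩ := g14_pow k ((C0 : ℝ) * (l : ℝ) ^ C.n) (ε / 2)
    (one_le_mul_of_one_le_of_one_le hC0' (one_le_pow₀ hl1)) (by positivity)
  refine ⟨C0 * ((l : ℝ) ^ Fr.U) ^ C.n * C1 * C2, by positivity,
    fun A _ ρ0 _ u Y hY => ?_⟩
  obtain ⟨W, hWc, hW1, hW2⟩ := hW A
  obtain ⟨Q, hQ⟩ : ∃ Q : ℝ, Q = ((∏ P ∈ A, nrm P : ℕ) : ℝ) := ⟨_, rfl⟩
  have hQ1 : 1 ≤ Q := by
    rw [hQ]
    have : 0 < ∏ P ∈ A, nrm P := Finset.prod_pos fun P _ => g14_pos P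
    exact_mod_cast this
  have hQ0 : 0 < Q := lt_of_lt_of_le one_pos hQ1
  obtain ⟨X, hX⟩ : ∃ X : ℝ, X = Y * Real.log Y ^ (b - 1) := ⟨_, rfl⟩
  have hX0 : 0 ≤ X := by
    rw [hX]
    have := Real.log_nonneg (by linarith : (1 : ℝ) ≤ Y)
    positivity
  rw [← hQ, ← hX]
  have hB : ∀ w ∈ W, (HC C Fr R A w.1 w.2 Y).Finite ∧
      ((HC C Fr R A w.1 w.2 Y).ncard : ℝ) ≤
        ((l : ℝ) ^ Fr.U) ^ C.n * ((l : ℝ) ^ C.n) ^ A.card * (C1 * Q ^ (ε / 2) * X) := by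
    intro w hw
    obtain ⟨hw1, hw2⟩ := hW1 w hw
    obtain ⟨M, hM, hst, hnm, hsup, hadc, hgen, hbV⟩ :=
      h13c k l T G C Fr hl hG R hR hS A w.1 w.2 hw1 hw2
    obtain ⟨hf, hle⟩ := h13e k l T G C Fr hl hG R RZ hR hRZ hS A w.1 w.2 M hw1 hw2 hM Y
      (by linarith)
    refine ⟨hf, hle.trans (mul_le_mul_of_nonneg_left ?_ (by positivity))⟩
    have h1 := hU (Fr.oc2 C R w.1 w.2) M (Fr.gen2 C R w.1 w.2) hadc hst hsup hgen Y hY
    rw [hbV] at h1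
    have h2 : ∑ v ∈ R, C.kc v + RZ.card = b := hbe.symm
    rw [h2, ← hX] at h1
    refine h1.trans (mul_le_mul_of_nonneg_right (mul_le_mul_of_nonneg_left ?_ hC1) hX0)
    have h3 : (Fr.sys.nm M : ℝ) ≤ Q ^ Fintype.card Fr.sys.D := by
      rw [hQ]
      exact_mod_cast hnm
    have h4 := Real.rpow_le_rpow (by positivity) h3 hε'0.le
    refine h4.trans (le_of_eq ?_)
    rw [← Real.rpow_natCast Q, ← Real.rpow_mul hQ0.le]
    congr 1
    rw [hε']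
    field_simp
  have h5 := zuni_union W {ρ : Gm k →* G | ρ ∈ Hk k G ∧ Cg l ρ ρ0 ∧ (∀ P ∈ A, ρ (T.tau P) = u P) ∧
      (∀ P, P ∉ Fr.S → P ∉ A → ρ (T.tau P) ^ l = 1) ∧ (nO T (Fr.S ∪ A) ρ : ℝ) ≤ Y}
    (fun w : (Gm k →* G) × (R → Finset Fr.sys.P) => HC C Fr R A w.1 w.2 Y) _
    (fun w hw => (hB w hw).1) (fun w hw => (hB w hw).2) (by
      rintro ρ ⟨h1, -, -, h2, h3⟩
      have h4 : ρ ∈ HkA T G l Fr.S A := ⟨h1, h2⟩
      obtain ⟨x, hx, -⟩ := h13a k l T G C Fr hl hG R hR hS A ρ h4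
      obtain ⟨w, hw, hc⟩ := hW2 ρ h4 x hx
      refine ⟨w, hw, h4, ⟨x, hx, hc⟩, ?_⟩
      convert h3 using 2)
  refine h5.trans ?_
  have h6 : (W.card : ℝ) ≤ (C0 : ℝ) ^ (A.card + 1) := by exact_mod_cast hWc
  have h7 := hP A
  rw [← hQ] at h7
  have h8 : Q ^ ε = Q ^ (ε / 2) * Q ^ (ε / 2) := by
    rw [← Real.rpow_add hQ0]
    congr 1
    ring
  calc (W.card : ℝ) * (((l : ℝ) ^ Fr.U) ^ C.n * ((l : ℝ) ^ C.n) ^ A.card *
        (C1 * Q ^ (ε / 2) * X))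
      ≤ (C0 : ℝ) ^ (A.card + 1) * (((l : ℝ) ^ Fr.U) ^ C.n * ((l : ℝ) ^ C.n) ^ A.card *
        (C1 * Q ^ (ε / 2) * X)) := mul_le_mul_of_nonneg_right h6 (by positivity)
    _ = ((C0 : ℝ) * (l : ℝ) ^ C.n) ^ A.card * (C0 * ((l : ℝ) ^ Fr.U) ^ C.n *
        (C1 * Q ^ (ε / 2) * X)) := by rw [mul_pow, pow_succ]; ring
    _ ≤ (C2 * Q ^ (ε / 2)) * (C0 * ((l : ℝ) ^ Fr.U) ^ C.n * (C1 * Q ^ (ε / 2) * X)) :=
        mul_le_mul_of_nonneg_right h7 (by positivity)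
    _ = C0 * ((l : ℝ) ^ Fr.U) ^ C.n * C1 * C2 * Q ^ ε * X := by rw [h8]; ring

end Pool.Agent.H92.EL
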