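import Pool.Agent.H92.EL.GStm

/-!
# Project T4 (MP_a3214d), row G4: coordinates of a homomorphism to a vector space
-/

set_option autoImplicit false

open scoped BigOperators Topology
open NumberField IsDedekindDomain Filter

namespace Pool.Agent.H92.EL

open Pool.Agent.H98.MF (Gm Dec nrm rdN fld)
open SysL (VV BD)

section

variable {k : Type} [Field k] [NumberField k] {l : ℕ}

private theorem sg4_zero : Hm (k := k) (l := l) fun _ => 0 :=
  ⟨IsLocallyConstant.const 0, fun _ _ => (add_zero _).symm⟩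

private theorem sg4_add {g h : Gm k → ZMod l} (hg : Hm g) (hh : Hm h) :
    Hm fun σ => g σ + h σ :=
  ⟨hg.lc.add hh.lc, fun σ τ => by rw [hg.add, hh.add]; ring⟩

private theorem sg4_mul (c : ZMod l) {h : Gm k → ZMod l} (hh : Hm h) : Hm fun σ => c * h σ :=
  ⟨(IsLocallyConstant.const c).mul hh.lc, fun σ τ => by rw [hh.add]; ring⟩

private theorem sg4_sum {ι : Type*} (s : Finset ι) (f : ι → Gm k → ZMod l)
    (h : ∀ i ∈ s, Hm (f i)) : Hm fun σ => ∑ i ∈ s, f i σ := by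
  classical
  induction s using Finset.induction_on with
  | empty =>
    simp only [Finset.sum_empty]
    exact sg4_zero
  | insert i s hi ih =>
    simp only [Finset.sum_insert hi]
    exact sg4_add (h i (Finset.mem_insert_self i s))
      (ih fun j hj => h j (Finset.mem_insert_of_mem hj))

end

section

variable {k : Type} [Field k] [NumberField k] {l : ℕ} [Fact l.Prime]
  {tau phi : HeightOneSpectrum (𝓞 k) → Gm k} (Fr : FrI k l tau phi)

/-- the ramified part -/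
private noncomputable def sg4R {d : ℕ} {R : Finset (VV l d)} (x : R → Finset Fr.sys.P)
    (σ : Gm k) (i : Fin d) : ZMod l := ∑ v : R, (v : VV l d) i * ∑ p ∈ x v, Fr.al p σ

private theorem sg4_aa {d : ℕ} (R : Finset (VV l d)) (y : Fin d → Fin Fr.U → ZMod l)
    (x : R → Finset Fr.sys.P) (σ : Gm k) (i : Fin d) :
    Fr.aa R y x σ i = Fr.un (y i) σ + sg4R Fr x σ i := rfl

private theorem sg4R_hm {d : ℕ} {R : Finset (VV l d)} {x : R → Finset Fr.sys.P}
    (hx : Fr.sys.Gd x) (i : Fin d) : Hm fun σ => sg4R Fr x σ i :=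
  sg4_sum Finset.univ _ fun v _ => sg4_mul _ (sg4_sum (x v) _ fun p hp =>
    Fr.al_hm p (hx.1 v p hp))

private theorem sg4_ex (p : Fr.sys.P) : ∃ g, Fr.sys.ac g (Fr.bs (Fr.dn p)) = p :=
  (Fr.dn_eq _ _).1 (Fr.bs_dn p)

private theorem sg4_al_ne {p : Fr.sys.P} (hp : Fr.sys.rg p) : Fr.al p (tau (Fr.dn p)) ≠ 0 := by
  obtain ⟨g, hg⟩ := sg4_ex Fr p
  rw [Fr.al_self p hp g hg]
  exact mul_ne_zero (Fr.kt_ne _) (Units.ne_zero _)

/-- the ramified part at a prime without members of the family -/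
private theorem sg4R_zero {d : ℕ} {R : Finset (VV l d)} {x : R → Finset Fr.sys.P}
    (hx : Fr.sys.Gd x) {P : HeightOneSpectrum (𝓞 k)} (hP : P ∉ Fr.S)
    (h : ∀ v : R, ∀ p ∈ x v, Fr.dn p ≠ P) (i : Fin d) : sg4R Fr x (tau P) i = 0 := by
  unfold sg4R
  refine Finset.sum_eq_zero fun v _ => ?_
  rw [Finset.sum_eq_zero, mul_zero]
  intro p hp
  exact Fr.al_tau p (hx.1 v p hp) P hP fun h1 => h v p hp h1.symm

/-- the ramified part at a prime with a member of the family -/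
private theorem sg4R_one {d : ℕ} {R : Finset (VV l d)} {x : R → Finset Fr.sys.P}
    (hx : Fr.sys.Gd x) {v : R} {p : Fr.sys.P} (hp : p ∈ x v) (i : Fin d) :
    sg4R Fr x (tau (Fr.dn p)) i = (v : VV l d) i * Fr.al p (tau (Fr.dn p)) := by
  unfold sg4R
  have h0 : ∀ w : R, ∀ q ∈ x w, (w ≠ v ∨ q ≠ p) → Fr.al q (tau (Fr.dn p)) = 0 := by
    intro w q hq hwq
    refine Fr.al_tau q (hx.1 w q hq) _ (Fr.dn_not p) fun h1 => ?_
    obtain ⟨g, hg⟩ := (Fr.dn_eq p q).1 h1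
    obtain ⟨h2, h3⟩ := hx.2 v w p hp q hq g hg
    rcases hwq with h4 | h4
    · exact h4 h2.symm
    · exact h4 h3.symm
  rw [Finset.sum_eq_single v]
  · congr 1
    refine Finset.sum_eq_single p (fun q hq hqp => h0 v q hq (Or.inr hqp)) fun h1 => ?_
    exact absurd hp h1
  · intro w _ hw
    rw [Finset.sum_eq_zero, mul_zero]
    intro q hq
    exact h0 w q hq (Or.inl hw)
  · intro h1
    exact absurd (Finset.mem_univ v) h1

/-- the prime and the vector are determined -/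
private theorem sg4_un {d : ℕ} {R : Finset (VV l d)} (hR : Fr.sys.Rep R) {u v : R}
    {p q : Fr.sys.P} (hp : Fr.sys.rg p) (hq : Fr.sys.rg q) (hpq : Fr.dn p = Fr.dn q)
    (h : ∀ i, (u : VV l d) i * Fr.al p (tau (Fr.dn p)) =
      (v : VV l d) i * Fr.al q (tau (Fr.dn q))) : u = v ∧ p = q := by
  obtain ⟨g, hg⟩ := sg4_ex Fr p
  obtain ⟨g', hg'⟩ := sg4_ex Fr q
  rw [Fr.al_self p hp g hg, Fr.al_self q hq g' hg', ← hpq] at h
  have h1 : ∀ i, (Fr.sys.e g : ZMod l) * (u : VV l d) i = Fr.sys.e g' * (v : VV l d) i := by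
    intro i
    have h2 := h i
    apply mul_left_cancel₀ (Fr.kt_ne (Fr.dn p))
    linear_combination h2
  have h3 : (u : VV l d) = (Fr.sys.e (g⁻¹ * g') : ZMod l) • (v : VV l d) := by
    ext i
    rw [Pi.smul_apply, smul_eq_mul, map_mul, map_inv, Units.val_mul, mul_assoc, ← h1 i,
      ← mul_assoc, Units.inv_mul, one_mul]
  have h4 : (u : VV l d) = v := hR.un u u.2 v v.2 _ h3
  have h5 : u = v := Subtype.ext h4
  refine ⟨h5, ?_⟩
  have hu : (u : VV l d) ≠ 0 := fun h0 => hR.nz (h0 ▸ u.2)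
  obtain ⟨i, hi⟩ := Function.ne_iff.1 hu
  have h6 := h1 i
  rw [← h4] at h6
  have h7 := mul_right_cancel₀ hi h6
  have h8 : g = g' := Fr.sys.e_inj (Units.ext h7)
  rw [← hg, ← hg', h8, hpq]

private theorem sg4_rg {p : Fr.sys.P} (hp : Fr.sys.rg p) (g : Fr.sys.D) :
    Fr.sys.rg (Fr.sys.ac g p) := by
  intro h h1
  apply hp h
  have h2 : Fr.sys.ac g⁻¹ (Fr.sys.ac h (Fr.sys.ac g p)) = Fr.sys.ac g⁻¹ (Fr.sys.ac g p) := by
    rw [h1]
  rw [← Fr.sys.ac_mul, ← Fr.sys.ac_mul, ← Fr.sys.ac_mul] at h2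
  have h3 : g⁻¹ * h * g = h := by
    rw [mul_assoc, mul_comm h g, inv_mul_cancel_left]
  rw [h3, inv_mul_cancel, Fr.sys.ac_one] at h2
  exact h2

/-- the member of the family at a ramified prime -/
private theorem sg4_mem {d : ℕ} {R : Finset (VV l d)} (hR : Fr.sys.Rep R)
    {a : Gm k → VV l d} (ha : ∀ i, Hm fun σ => a σ i) {P : HeightOneSpectrum (𝓞 k)}
    (hP : P ∉ Fr.S) (h0 : a (tau P) ≠ 0) :
    ∃ (v : R) (p : Fr.sys.P), Fr.sys.rg p ∧ Fr.dn p = P ∧
      ∀ i, a (tau P) i = (v : VV l d) i * Fr.al p (tau P) := by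
  have h1 : ((nrm P : ℕ) : ZMod l) = 1 := by
    by_contra h2
    apply h0
    ext i
    exact Fr.tam _ (ha i) P hP h2
  obtain ⟨q, hq, hqP⟩ := (Fr.dn_ex P hP).2 h1
  obtain ⟨g, hg⟩ := sg4_ex Fr q
  rw [hqP] at hg
  have hb : Fr.sys.rg (Fr.bs P) := by
    have h2 := sg4_rg Fr hq g⁻¹
    rw [← hg, ← Fr.sys.ac_mul, inv_mul_cancel, Fr.sys.ac_one] at h2
    exact h2
  have hdb : Fr.dn (Fr.bs P) = P := by
    have h2 := Fr.bs_dn q
    rw [hqP] at h2
    exact h2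
  have hk := Fr.kt_ne P
  have h3 : (Fr.kt P)⁻¹ • a (tau P) ≠ 0 := smul_ne_zero (inv_ne_zero hk) h0
  obtain ⟨v, hv, h, hh⟩ := hR.ex _ h3
  have hd : Fr.dn (Fr.sys.ac h (Fr.bs P)) = P := by
    have h4 : Fr.dn (Fr.bs P) = Fr.dn (Fr.sys.ac h (Fr.bs P)) := (Fr.dn_eq _ _).2 ⟨h, rfl⟩
    rw [← h4, hdb]
  have hr := sg4_rg Fr hb h
  have hs := Fr.al_self _ hr h (by rw [hd])
  rw [hd] at hs
  refine ⟨⟨v, hv⟩, Fr.sys.ac h (Fr.bs P), hr, hd, fun i => ?_⟩
  rw [hs]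
  have h5 := congrFun hh i
  rw [Pi.smul_apply, Pi.smul_apply, smul_eq_mul, smul_eq_mul] at h5
  have h6 : a (tau P) i = Fr.kt P * ((Fr.kt P)⁻¹ * a (tau P) i) := by
    rw [← mul_assoc, mul_inv_cancel₀ hk, one_mul]
  rw [h6, h5]
  show Fr.kt P * ((Fr.sys.e h : ZMod l) * v i) = v i * (Fr.kt P * (Fr.sys.e h : ZMod l))
  ring

/-- the family of a homomorphism -/
private def sg4X {d : ℕ} {R : Finset (VV l d)} (a : Gm k → VV l d) (v : R) : Set Fr.sys.P :=
  {p | Fr.sys.rg p ∧ a (tau (Fr.dn p)) ≠ 0 ∧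
    ∀ i, a (tau (Fr.dn p)) i = (v : VV l d) i * Fr.al p (tau (Fr.dn p))}

private theorem sg4X_un {d : ℕ} {R : Finset (VV l d)} (hR : Fr.sys.Rep R)
    {a : Gm k → VV l d} {u v : R} {p q : Fr.sys.P} (hp : p ∈ sg4X Fr a u)
    (hq : q ∈ sg4X Fr a v) (hpq : Fr.dn p = Fr.dn q) : u = v ∧ p = q := by
  refine sg4_un Fr hR hp.1 hq.1 hpq fun i => ?_
  rw [← hp.2.2 i, ← hq.2.2 i, hpq]

private theorem sg4X_fin {d : ℕ} {R : Finset (VV l d)} (hR : Fr.sys.Rep R)
    {a : Gm k → VV l d} (ha : ∀ i, Hm fun σ => a σ i) (v : R) : (sg4X Fr a v).Finite := by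
  have h1 : {P | a (tau P) ≠ 0}.Finite := by
    refine (Set.finite_iUnion fun i : Fin d => Fr.fin _ (ha i)).subset fun P hP => ?_
    obtain ⟨i, hi⟩ := Function.ne_iff.1 hP
    exact Set.mem_iUnion.2 ⟨i, hi⟩
  refine Set.Finite.of_injOn (f := Fr.dn) (fun p hp => ?_) (fun p hp q hq hpq => ?_) h1
  · exact hp.2.1
  · exact (sg4X_un Fr hR hp hq hpq).2

end

section

variable {k : Type} [Field k] [NumberField k] {l : ℕ} [Fact l.Prime] {T : TM k}

/-- G4: coordinates of a homomorphism to a vector space -/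
theorem sg4 (Fr : FrI k l T.tau T.phi) : SG4 Fr := by
  classical
  intro d R hR
  refine ⟨fun y x hx i => sg4_add (Fr.un_hm (y i)) (sg4R_hm Fr hx i), ?_⟩
  intro a ha
  -- the family
  let x : R → Finset Fr.sys.P := fun v => (sg4X_fin Fr hR ha v).toFinset
  have hmem : ∀ v p, p ∈ x v ↔ p ∈ sg4X Fr a v := fun v p => Set.Finite.mem_toFinset _
  have hx : Fr.sys.Gd x := by
    refine ⟨fun v p hp => ((hmem v p).1 hp).1, fun u v p hp q hq g hg => ?_⟩
    exact sg4X_un Fr hR ((hmem u p).1 hp) ((hmem v q).1 hq) ((Fr.dn_eq p q).2 ⟨g, hg⟩)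
  -- the ramified part
  have hram : ∀ P, P ∉ Fr.S → ∀ i, a (T.tau P) i = sg4R Fr x (T.tau P) i := by
    intro P hP i
    by_cases h0 : a (T.tau P) = 0
    · rw [h0, sg4R_zero Fr hx hP]
      · rfl
      · intro v p hp h1
        have h2 := ((hmem v p).1 hp).2.1
        rw [h1] at h2
        exact h2 h0
    · obtain ⟨v, p, hp, rfl, h1⟩ := sg4_mem Fr hR ha hP h0
      have h2 : p ∈ x v := (hmem v p).2 ⟨hp, h0, h1⟩
      rw [sg4R_one Fr hx h2, h1 i]
  have hy : ∀ i, ∃ y : Fin Fr.U → ZMod l, ∀ σ, a σ i = Fr.un y σ + sg4R Fr x σ i := by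
    intro i
    have h1 : Hm fun σ => a σ i + (-1) * sg4R Fr x σ i :=
      sg4_add (ha i) (sg4_mul (-1) (sg4R_hm Fr hx i))
    obtain ⟨y, h2⟩ := Fr.un_ex _ h1 fun P hP => by
      show a (T.tau P) i + (-1) * sg4R Fr x (T.tau P) i = 0
      rw [hram P hP i]
      ring
    refine ⟨y, fun σ => ?_⟩
    rw [← h2]
    ring
  choose y hy using hy
  have haa : ∀ σ, a σ = Fr.aa R y x σ := by
    intro σ
    ext i
    rw [sg4_aa, hy i σ]
  refine ⟨y, x, hx, haa, ?_⟩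
  intro y' x' hx' haa'
  -- members of the other family
  have hsub : ∀ v, ∀ p ∈ x' v, p ∈ sg4X Fr a v := by
    intro v p hp
    have h1 : ∀ i, a (T.tau (Fr.dn p)) i = (v : VV l d) i * Fr.al p (T.tau (Fr.dn p)) := by
      intro i
      rw [haa', sg4_aa, Fr.un_tau _ _ (Fr.dn_not p), zero_add, sg4R_one Fr hx' hp]
    refine ⟨hx'.1 v p hp, fun h0 => ?_, h1⟩
    have hv : (v : VV l d) ≠ 0 := fun h2 => hR.nz (h2 ▸ v.2)
    obtain ⟨i, hi⟩ := Function.ne_iff.1 hv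
    have h2 := h1 i
    rw [h0] at h2
    exact mul_ne_zero hi (sg4_al_ne Fr (hx'.1 v p hp)) h2.symm
  have hxx : x' = x := by
    ext v p
    rw [hmem]
    refine ⟨hsub v p, fun hp => ?_⟩
    by_contra hn
    apply hp.2.1
    have h1 : ∀ w : R, ∀ q ∈ x' w, Fr.dn q ≠ Fr.dn p := by
      intro w q hq h2
      obtain ⟨h3, h4⟩ := sg4X_un Fr hR (hsub w q hq) hp h2
      subst h3 h4
      exact hn hq
    ext i
    rw [haa', sg4_aa, Fr.un_tau _ _ (Fr.dn_not p), zero_add,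
      sg4R_zero Fr hx' (Fr.dn_not p) h1]
    rfl
  subst hxx
  refine ⟨?_, rfl⟩
  funext i
  have h1 : Fr.un (y' i - y i) = fun _ => 0 := by
    funext σ
    have h2 := Fr.un_add (y' i - y i) (y i) σ
    rw [sub_add_cancel] at h2
    have h3 : Fr.un (y' i) σ = Fr.un (y i) σ := by
      have h4 := congrFun (haa' σ) i
      rw [sg4_aa, hy i σ] at h4
      exact (add_right_cancel h4).symm
    rw [h3] at h2
    exact (left_eq_add.1 (h2.trans (add_comm _ _)))
  exact sub_eq_zero.1 (Fr.un_inj _ h1)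

end

end Pool.Agent.H92.EL
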