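import Pool.Agent.H92.EL.GStm

/-!
# Project T4 (MP_a3214d), row G5: coordinates of a central homomorphism relative to a good set
-/

set_option autoImplicit false

open scoped BigOperators Topology
open NumberField IsDedekindDomain Filter

namespace Pool.Agent.H92.EL

open Pool.Agent.H98.MF (Gm Dec nrm rdN fld)
open SysL (VV BD)

section

set_option linter.unusedSectionVars false

variable {k : Type} [Field k] [NumberField k] {l : ℕ}

theorem g5_hm_zero : Hm (k := k) (l := l) fun _ => 0 :=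
  ⟨IsLocallyConstant.const 0, fun _ _ => (add_zero 0).symm⟩

theorem g5_hm_add {h h' : Gm k → ZMod l} (a : Hm h) (b : Hm h') : Hm fun σ => h σ + h' σ :=
  ⟨a.lc.add b.lc, fun σ τ => by rw [a.add, b.add]; ring⟩

theorem g5_hm_mul (c : ZMod l) {h : Gm k → ZMod l} (a : Hm h) : Hm fun σ => c * h σ :=
  ⟨a.lc.comp fun x => c * x, fun σ τ => by rw [a.add]; ring⟩

theorem g5_hm_sub {h h' : Gm k → ZMod l} (a : Hm h) (b : Hm h') : Hm fun σ => h σ - h' σ :=
  ⟨a.lc.sub b.lc, fun σ τ => by rw [a.add, b.add]; ring⟩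

theorem g5_hm_sum {ι : Type} (s : Finset ι) (f : ι → Gm k → ZMod l) (hf : ∀ i ∈ s, Hm (f i)) :
    Hm fun σ => ∑ i ∈ s, f i σ := by
  classical
  induction s using Finset.induction_on with
  | empty =>
    simp only [Finset.sum_empty]
    exact g5_hm_zero
  | insert a s ha ih =>
    have h1 := g5_hm_add (hf a (Finset.mem_insert_self a s))
      (ih fun i hi => hf i (Finset.mem_insert_of_mem hi))
    have h2 : (fun σ => ∑ i ∈ insert a s, f i σ) = fun σ => f a σ + ∑ i ∈ s, f i σ := by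
      funext σ
      exact Finset.sum_insert ha
    rw [h2]
    exact h1

end

section

variable {k : Type} [Field k] [NumberField k] {l : ℕ} [Fact l.Prime] {T : TM k}
  (Fr : FrI k l T.tau T.phi)

/-- the value at the tame generator -/
theorem g5_al_ne (p : Fr.sys.P) (hp : Fr.sys.rg p) : Fr.al p (T.tau (Fr.dn p)) ≠ 0 := by
  obtain ⟨g, hg⟩ := (Fr.dn_eq _ _).1 (Fr.bs_dn p)
  rw [Fr.al_self p hp g hg]
  exact mul_ne_zero (Fr.kt_ne _) (Units.ne_zero _)

variable {n : ℕ}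

/-- the part of the assignment -/
theorem g5_cz (RZ : Finset (VV l n)) (u : Fin n → Fin Fr.U → ZMod l)
    (z : Fr.sys.P →₀ VV l n) (x : RZ → Finset Fr.sys.P) (y0 : Finset Fr.sys.P)
    (hz : z.support ⊆ y0) (σ : Gm k) (i : Fin n) :
    Fr.cz RZ u z x σ i = Fr.aa RZ u x σ i + ∑ p ∈ y0, z p i * Fr.al p σ := by
  have h1 : (z.sum fun p v => v i * Fr.al p σ) = ∑ p ∈ y0, z p i * Fr.al p σ := by
    refine Finsupp.sum_of_support_subset z hz _ fun p _ => ?_
    rw [Pi.zero_apply, zero_mul]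
  unfold FrI.cz FrI.aa
  rw [h1]
  ring

theorem g5_hm_z (y0 : Finset Fr.sys.P) (hy : ∀ p ∈ y0, Fr.sys.rg p) (z : Fr.sys.P → ZMod l) :
    Hm fun σ => ∑ p ∈ y0, z p * Fr.al p σ :=
  g5_hm_sum y0 (fun p σ => z p * Fr.al p σ) fun p hp => g5_hm_mul (z p) (Fr.al_hm p (hy p hp))

/-- the value of the part of the assignment at the tame generator of a prime of `y0` -/
theorem g5_val (y0 : Finset Fr.sys.P) (hy : Fr.sys.Gd fun _ : Unit => y0) (z : Fr.sys.P → ZMod l)
    (q : Fr.sys.P) (hq : q ∈ y0) : ∑ p ∈ y0, z p * Fr.al p (T.tau (Fr.dn q)) =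
      z q * Fr.al q (T.tau (Fr.dn q)) := by
  refine Finset.sum_eq_single_of_mem q hq fun p hp hpq => ?_
  rw [Fr.al_tau p (hy.1 () p hp) _ (Fr.dn_not q) (fun h => ?_), mul_zero]
  obtain ⟨g, hg⟩ := (Fr.dn_eq _ _).1 h
  exact hpq (hy.2 () () q hq p hp g hg).2.symm

/-- G5 -/
theorem sg5 (h4 : SG4 Fr) (h4b : SG4b Fr) : SG5 Fr := by
  classical
  intro n RZ hR y0 hy
  refine ⟨fun u z x hx hz i => ?_, fun c hc => ?_⟩
  · have h1 := g5_hm_add ((h4 n RZ hR).1 u x hx i)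
      (g5_hm_z Fr y0 (hy.1 ()) fun p => z p i)
    have h2 : (fun σ => Fr.cz RZ u z x σ i) =
        fun σ => Fr.aa RZ u x σ i + ∑ p ∈ y0, z p i * Fr.al p σ :=
      funext fun σ => g5_cz Fr RZ u z x y0 hz σ i
    rw [h2]
    exact h1
  let z : Fr.sys.P →₀ VV l n := Finsupp.indicator y0 fun p _ i =>
    (Fr.al p (T.tau (Fr.dn p)))⁻¹ * c (T.tau (Fr.dn p)) i
  have hz : ∀ p ∈ y0, ∀ i, z p i = (Fr.al p (T.tau (Fr.dn p)))⁻¹ * c (T.tau (Fr.dn p)) i := by
    intro p hp i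
    show (Finsupp.indicator y0 fun p _ i =>
      (Fr.al p (T.tau (Fr.dn p)))⁻¹ * c (T.tau (Fr.dn p)) i) p i = _
    rw [Finsupp.indicator_of_mem hp]
  have hz0 : z.support ⊆ y0 := Finsupp.support_indicator_subset _ _
  have hc' : ∀ i, Hm fun σ => c σ i - ∑ p ∈ y0, z p i * Fr.al p σ := fun i =>
    g5_hm_sub (hc i) (g5_hm_z Fr y0 (hy.1 ()) fun p => z p i)
  obtain ⟨u, x, hx, hux, hun⟩ := (h4 n RZ hR).2
    (fun σ i => c σ i - ∑ p ∈ y0, z p i * Fr.al p σ) hc'
  obtain ⟨hb1, -, -⟩ := h4b n RZ hR u x hx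
  refine ⟨u, z, x, hx, fun v p hp q hq g hg => ?_, hz0, fun σ => ?_,
    fun u' z' x' hx' ha' hz' hc2 => ?_⟩
  · have hd : Fr.dn p = Fr.dn q := (Fr.dn_eq _ _).2 ⟨g, hg⟩
    obtain ⟨t, ht, h5⟩ := hb1 v p hp
    rw [hd, ← hux] at h5
    have hv : (v : VV l n) ≠ 0 := fun h => hR.nz (h ▸ v.2)
    apply hv
    funext i
    have h6 := congrFun h5 i
    rw [g5_val Fr y0 hy (fun p => z p i) q hq, hz q hq i, mul_comm, ← mul_assoc,
      mul_inv_cancel₀ (g5_al_ne Fr q (hy.1 () q hq)), one_mul, sub_self] at h6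
    have h7 : t * (v : VV l n) i = 0 := h6.symm
    rcases mul_eq_zero.1 h7 with h8 | h8
    · exact absurd h8 ht
    · exact h8
  · funext i
    rw [g5_cz Fr RZ u z x y0 hz0 σ i, ← hux]
    ring
  · obtain ⟨-, hb2, -⟩ := h4b n RZ hR u' x' hx'
    have hzz : z' = z := by
      ext q i
      by_cases hq : q ∈ y0
      · have h5 := congrFun (hc2 (T.tau (Fr.dn q))) i
        rw [g5_cz Fr RZ u' z' x' y0 hz' _ i, hb2 (Fr.dn q) (Fr.dn_not q) (fun v p hp h => ?_),
          g5_val Fr y0 hy (fun p => z' p i) q hq, Pi.zero_apply, zero_add] at h5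
        · rw [hz q hq i, h5, mul_comm (z' q i), ← mul_assoc,
            inv_mul_cancel₀ (g5_al_ne Fr q (hy.1 () q hq)), one_mul]
        · obtain ⟨g, hg⟩ := (Fr.dn_eq _ _).1 h
          exact ha' v p hp q hq g hg
      · rw [Finsupp.notMem_support_iff.1 fun h => hq (hz' h),
          Finsupp.notMem_support_iff.1 fun h => hq (hz0 h)]
    subst hzz
    obtain ⟨h6, h7⟩ := hun u' x' hx' fun σ => by
      funext i
      rw [hc2 σ, g5_cz Fr RZ u' z x' y0 hz' σ i]
      ring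
    exact ⟨h6, rfl, h7⟩

end

end Pool.Agent.H92.EL
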