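import Pool.Agent.H92.EL.GStm

/-!
# Project T4 (MP_a3214d), row G6: homomorphisms with the same image modulo the elements of order
`l`
-/

set_option autoImplicit false

open scoped BigOperators Topology
open NumberField IsDedekindDomain Filter

namespace Pool.Agent.H92.EL

open Pool.Agent.H98.MF (Gm Dec nrm rdN fld)
open SysL (VV BD)

section

variable {l : ℕ} [Fact l.Prime] {G : Type} [Group G] (C : Cd l G)

private theorem g6_mul (v w : VV l C.d) (z y : VV l C.n) (g h : G) :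
    C.nn v z * g * (C.nn w y * h) =
      C.nn (v + w) (z + y + (2 : ZMod l)⁻¹ • C.Bd.B v w + C.bp g w) * (g * h) := by
  have h2 : g * C.nn w y = C.nn w (y + C.bp g w) * g := by
    rw [← C.bp_conj g w y]
    group
  calc C.nn v z * g * (C.nn w y * h) = C.nn v z * (g * C.nn w y) * h := by
        simp only [mul_assoc]
    _ = C.nn v z * C.nn w (y + C.bp g w) * (g * h) := by
        rw [h2]
        simp only [mul_assoc]
    _ = _ := by
        rw [C.nn_mul]
        have h3 : z + (y + C.bp g w) + (2 : ZMod l)⁻¹ • C.Bd.B v w =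
            z + y + (2 : ZMod l)⁻¹ • C.Bd.B v w + C.bp g w := by abel
        rw [h3]

private theorem g6_mem (g : G) : g ∈ Om1 l G ↔ ∃ v z, g = C.nn v z := by
  constructor
  · intro hg
    unfold Om1 at hg
    induction hg using Subgroup.closure_induction with
    | mem x hx => exact (C.nn_iff x).1 hx
    | one => exact (C.nn_iff 1).1 (one_pow l)
    | mul x y _ _ hx hy =>
      obtain ⟨v, z, rfl⟩ := hx
      obtain ⟨w, y, rfl⟩ := hy
      exact ⟨_, _, C.nn_mul v w z y⟩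
    | inv x _ hx =>
      have h1 : x ^ l = 1 := (C.nn_iff x).2 hx
      exact (C.nn_iff x⁻¹).1 (by rw [inv_pow, h1, inv_one])
  · intro hg
    exact Subgroup.subset_closure ((C.nn_iff g).2 hg)

variable {k : Type} [Field k] [NumberField k]

private theorem g6_lc {d : ℕ} (a : Gm k → VV l d) (ha : ∀ i, Hm fun σ => a σ i) :
    IsLocallyConstant a := by
  rw [IsLocallyConstant.iff_eventually_eq]
  intro x
  have h1 : ∀ᶠ y in 𝓝 x, ∀ i, a y i = a x i := by
    rw [Filter.eventually_all]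
    intro i
    exact (IsLocallyConstant.iff_eventually_eq _).1 (ha i).lc x
  exact h1.mono fun y hy => funext hy

private theorem g6_lc2 (ρ0 : Gm k →* G) (a : Gm k → VV l C.d) (c : Gm k → VV l C.n)
    (h0 : IsLocallyConstant ρ0) (ha : ∀ i, Hm fun σ => a σ i) (hc : IsLocallyConstant c) :
    IsLocallyConstant fun σ => C.nn (a σ) (c σ) * ρ0 σ :=
  ((g6_lc a ha).comp₂ hc C.nn).comp₂ h0 fun x y => x * y

private theorem g6_hom (ρ0 : Gm k →* G) (a : Gm k → VV l C.d) (c : Gm k → VV l C.n)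
    (ha : ∀ i, Hm fun σ => a σ i) (hco : Coc C ⊤ ρ0 a c) (σ τ : Gm k) :
    C.nn (a (σ * τ)) (c (σ * τ)) * ρ0 (σ * τ) =
      C.nn (a σ) (c σ) * ρ0 σ * (C.nn (a τ) (c τ) * ρ0 τ) := by
  rw [g6_mul, map_mul, hco σ (Subgroup.mem_top _) τ (Subgroup.mem_top _)]
  have h1 : a (σ * τ) = a σ + a τ := funext fun i => (ha i).add σ τ
  rw [h1]

end

/-- G6: homomorphisms with the same image modulo the elements of order `l` -/
theorem sg6 {l : ℕ} [Fact l.Prime] {G : Type} [Group G] (k : Type) [Field k] [NumberField k]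
    (C : Cd l G) : SG6 k C := by
  intro ρ ρ0 h0
  constructor
  · rintro ⟨h1, h2⟩
    have h3 : ∀ g : G, ∃ x : VV l C.d × VV l C.n, g ∈ Om1 l G → g = C.nn x.1 x.2 := by
      intro g
      by_cases hg : g ∈ Om1 l G
      · obtain ⟨v, z, h4⟩ := (g6_mem C g).1 hg
        exact ⟨(v, z), fun _ => h4⟩
      · exact ⟨(0, 0), fun h => absurd h hg⟩
    choose f hf using h3
    have hlc : IsLocallyConstant fun σ => f (ρ σ * (ρ0 σ)⁻¹) :=
      h1.comp₂ h0 fun x y => f (x * y⁻¹)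
    obtain ⟨a, ha⟩ : ∃ a : Gm k → VV l C.d, a = fun σ => (f (ρ σ * (ρ0 σ)⁻¹)).1 := ⟨_, rfl⟩
    obtain ⟨c, hc⟩ : ∃ c : Gm k → VV l C.n, c = fun σ => (f (ρ σ * (ρ0 σ)⁻¹)).2 := ⟨_, rfl⟩
    have hρ : ∀ σ, ρ σ = C.nn (a σ) (c σ) * ρ0 σ := by
      intro σ
      rw [ha, hc]
      change ρ σ = C.nn (f (ρ σ * (ρ0 σ)⁻¹)).1 (f (ρ σ * (ρ0 σ)⁻¹)).2 * ρ0 σ
      rw [← hf _ (h2 σ), inv_mul_cancel_right]
    have hk : ∀ σ τ, a (σ * τ) = a σ + a τ ∧
        c (σ * τ) = c σ + c τ + (2 : ZMod l)⁻¹ • C.Bd.B (a σ) (a τ) + C.bp (ρ0 σ) (a τ) := by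
      intro σ τ
      have h4 := map_mul ρ σ τ
      rw [hρ, hρ σ, hρ τ, g6_mul, ← map_mul] at h4
      exact C.nn_inj _ _ _ _ (mul_right_cancel h4)
    refine ⟨a, c, fun i => ⟨?_, fun σ τ => ?_⟩, ?_, fun σ _ τ _ => (hk σ τ).2, hρ⟩
    · rw [ha]
      exact hlc.comp fun x => x.1 i
    · rw [(hk σ τ).1]
      rfl
    · rw [hc]
      exact hlc.comp Prod.snd
  · rintro ⟨a, c, ha, hc, hco, hρ⟩
    refine ⟨?_, fun σ => ?_⟩
    · have h1 : (ρ : Gm k → G) = fun σ => C.nn (a σ) (c σ) * ρ0 σ := funext hρ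
      rw [h1]
      exact g6_lc2 C ρ0 a c h0 ha hc
    · rw [hρ, mul_inv_cancel_right]
      exact (g6_mem C _).2 ⟨_, _, rfl⟩

/-- G6b: every cocycle gives a homomorphism -/
theorem sg6b {l : ℕ} [Fact l.Prime] {G : Type} [Group G] (k : Type) [Field k] [NumberField k]
    (C : Cd l G) : SG6b k C := by
  intro ρ0 a c h0 ha hc hco
  exact ⟨MonoidHom.mk' (fun σ => C.nn (a σ) (c σ) * ρ0 σ) (g6_hom C ρ0 a c ha hco),
    g6_lc2 C ρ0 a c h0 ha hc, fun σ => rfl⟩

end Pool.Agent.H92.EL
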