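import Pool.Agent.H92.EL.GStm

/-!
# Project T4 (MP_a3214d): the obstruction (row G7)
-/

set_option autoImplicit false

open scoped BigOperators Topology
open NumberField IsDedekindDomain Filter

namespace Pool.Agent.H92.EL

open Pool.Agent.H98.MF (Gm Dec nrm rdN fld)
open SysL (VV BD)

section

variable {k : Type} [Field k] [NumberField k] {l : ℕ} [Fact l.Prime] {T : TM k}
variable {G : Type} [Group G] (C : Cd l G)

theorem g7_lc {n : ℕ} {f : Gm k → VV l n} (h : ∀ i, IsLocallyConstant fun σ => f σ i) :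
    IsLocallyConstant f := by
  rw [IsLocallyConstant.iff_eventually_eq]
  intro σ
  have h1 : ∀ᶠ τ in 𝓝 σ, ∀ i, f τ i = f σ i := by
    rw [Filter.eventually_all]
    intro i
    exact (IsLocallyConstant.iff_eventually_eq _).1 (h i) σ
  filter_upwards [h1] with τ hτ
  exact funext hτ

theorem g7_bp_zero (g : G) : C.bp g 0 = 0 := by
  have h := C.bp_add g 0 0
  rw [add_zero] at h
  exact left_eq_add.1 h

theorem g7_bp_one (v : VV l C.d) : C.bp 1 v = 0 := by
  have h := C.bp_mul 1 1 v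
  rw [one_mul] at h
  exact left_eq_add.1 h

/-- the pairing as a linear map -/
def g7_lin (g : G) : VV l C.d →ₗ[ZMod l] VV l C.n :=
  AddMonoidHom.toZModLinearMap l
    { toFun := C.bp g
      map_zero' := g7_bp_zero C g
      map_add' := C.bp_add g }

theorem g7_lin_apply (g : G) (v : VV l C.d) : g7_lin C g v = C.bp g v := rfl

theorem g7_smul (g : G) (t : ZMod l) (v : VV l C.d) : C.bp g (t • v) = t • C.bp g v := by
  rw [← g7_lin_apply, ← g7_lin_apply, map_smul]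

variable {C}

theorem g7_skew (v w : VV l C.d) : C.Bd.B v w = - C.Bd.B w v := by
  have h := C.Bd.alt (v + w)
  rw [map_add, map_add C.Bd.B, LinearMap.add_apply, LinearMap.add_apply, C.Bd.alt, C.Bd.alt,
    zero_add, add_zero] at h
  exact eq_neg_of_add_eq_zero_right h

variable {Fr : FrI k l T.tau T.phi}

/-- the key identity -/
theorem g7_key (h4b : SG4b Fr) {R : Finset (VV l C.d)} (hRep : Fr.sys.Rep R)
    {ρ0 : Gm k →* G} (hρ0 : IsLocallyConstant ρ0) (hU : Unr T Fr.S ρ0)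
    (y : Fin C.d → Fin Fr.U → ZMod l) {x : R → Finset Fr.sys.P} (hx : Fr.sys.Gd x) (v : R)
    (q : Fr.sys.P) (hq : q ∈ x v) (ζ : VV l C.n) :
    ∑ w : R, (∑ p ∈ x w, Fr.sys.J p q) * (ζ ⬝ᵥ C.Bd.B w v) +
      Fr.sys.ex (Fr.oc C ρ0 y v ζ) q =
    Fr.cc (Fr.dn q) * (ζ ⬝ᵥ (C.Bd.B (Fr.aa R y x (T.phi (Fr.dn q))) v +
      C.bp (ρ0 (T.phi (Fr.dn q))) v)) := by
  have hun : ∀ σ τ, (fun i => Fr.un (y i) (σ * τ)) =
      (fun i => Fr.un (y i) σ) + fun i => Fr.un (y i) τ := by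
    intro σ τ
    funext i
    exact (Fr.un_hm (y i)).add σ τ
  have hunlc : IsLocallyConstant fun σ => (fun i => Fr.un (y i) σ : VV l C.d) :=
    g7_lc fun i => (Fr.un_hm (y i)).lc
  have hh : Hm fun σ => ζ ⬝ᵥ (C.bp (ρ0 σ) v + C.Bd.B (fun i => Fr.un (y i) σ) v) := by
    constructor
    · have h1 := hρ0.prodMk hunlc
      exact h1.comp fun z => ζ ⬝ᵥ (C.bp z.1 v + C.Bd.B z.2 v)
    · intro σ τ
      rw [hun, map_mul, C.bp_mul, map_add, LinearMap.add_apply, ← dotProduct_add]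
      congr 1
      abel
  have hq1 := hx.1 v q hq
  have htau : ζ ⬝ᵥ (C.bp (ρ0 (T.tau (Fr.dn q))) v +
      C.Bd.B (fun i => Fr.un (y i) (T.tau (Fr.dn q))) v) = 0 := by
    have h1 : (fun i => Fr.un (y i) (T.tau (Fr.dn q))) = (0 : VV l C.d) := by
      funext i
      exact Fr.un_tau (y i) _ (Fr.dn_not q)
    rw [hU _ (Fr.dn_not q), g7_bp_one, h1, map_zero, LinearMap.zero_apply, add_zero,
      dotProduct_zero]
  have hex := Fr.cl_ex _ hh q hq1 htau
  have hoc : Fr.sys.ex (Fr.oc C ρ0 y v ζ) q = Fr.cc (Fr.dn q) *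
      (ζ ⬝ᵥ (C.bp (ρ0 (T.phi (Fr.dn q))) v +
        C.Bd.B (fun i => Fr.un (y i) (T.phi (Fr.dn q))) v)) := hex.symm
  let f : VV l C.d →ₗ[ZMod l] ZMod l :=
    { toFun := fun w => ζ ⬝ᵥ C.Bd.B w v
      map_add' := fun a b => by rw [map_add, LinearMap.add_apply, dotProduct_add]
      map_smul' := fun t a => by
        rw [map_smul, LinearMap.smul_apply, dotProduct_smul]
        rfl }
  have hf : ∀ w, f w = ζ ⬝ᵥ C.Bd.B w v := fun w => rfl
  have h1 := (h4b C.d R hRep y x hx).2.2 v q hq f (by rw [hf, C.Bd.alt, dotProduct_zero])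
  have h2 : ∑ w : R, (∑ p ∈ x w, Fr.sys.J p q) * (ζ ⬝ᵥ C.Bd.B w v) =
      ∑ w : R, f w * ∑ p ∈ x w, Fr.sys.J p q :=
    Finset.sum_congr rfl fun w _ => by rw [hf, mul_comm]
  rw [hoc, h2, dotProduct_add, dotProduct_add]
  rw [hf (Fr.aa R y x (T.phi (Fr.dn q))), hf (fun i => Fr.un (y i) (T.phi (Fr.dn q)))] at h1
  linear_combination -h1

/-- G7: the obstruction -/
theorem sg7 (hl : l ≠ 2) (hG : Nl l G) (C : Cd l G) (Fr : FrI k l T.tau T.phi) (h4 : SG4 Fr)
    (h4b : SG4b Fr) (h6b : SG6b k C) (hK : HasK k l T.tau T.phi) (hR : RelT k T.tau T.phi) :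
    SG7 C Fr := by
  intro R hRep hCtn ρ0 hρ0 hU y x hx
  have aHm := (h4 C.d R hRep).1 y x hx
  have hkey := g7_key (C := C) h4b hRep hρ0 hU y hx
  obtain ⟨hb1, hb2, -⟩ := h4b C.d R hRep y x hx
  set a : Gm k → VV l C.d := Fr.aa R y x with ha
  have hadd : ∀ σ τ, a (σ * τ) = a σ + a τ := fun σ τ => funext fun i => (aHm i).add σ τ
  have halc : IsLocallyConstant a := g7_lc fun i => (aHm i).lc
  haveI := hG.fin
  constructor
  · rintro ⟨c, hc, hcoc⟩
    refine ⟨fun P _ => ⟨c, hc, fun σ _ τ _ => hcoc σ trivial τ trivial⟩, ?_⟩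
    intro v q hq ζ
    obtain ⟨ρ, hρ, hρe⟩ := h6b ρ0 a c hρ0 aHm hc hcoc
    rw [hkey v q hq ζ]
    obtain ⟨t, ht, hat⟩ := hb1 v q hq
    have hP := Fr.dn_not q
    have hnrm : ((nrm (Fr.dn q) : ℕ) : ZMod l) = 1 :=
      (Fr.dn_ex _ hP).1 ⟨q, hx.1 v q hq, rfl⟩
    have h1 := hR G ρ hρ (Fr.dn q) (hCtn _ hP).symm
    have h2 : ρ (T.tau (Fr.dn q)) = C.nn (a (T.tau (Fr.dn q))) (c (T.tau (Fr.dn q))) := by
      rw [hρe, hU _ hP, mul_one]
    have h3 : ρ (T.tau (Fr.dn q)) ^ l = 1 := (C.nn_iff _).2 ⟨_, _, h2⟩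
    have h4 : ρ (T.tau (Fr.dn q)) ^ nrm (Fr.dn q) = ρ (T.tau (Fr.dn q)) := by
      have h5 : nrm (Fr.dn q) ≡ 1 [MOD l] := by
        rw [← ZMod.natCast_eq_natCast_iff, hnrm, Nat.cast_one]
      have h6 : nrm (Fr.dn q) ≡ 1 [MOD orderOf (ρ (T.tau (Fr.dn q)))] :=
        h5.of_dvd (orderOf_dvd_of_pow_eq_one h3)
      have h7 := pow_eq_pow_iff_modEq.2 h6
      rw [h7, pow_one]
    rw [h4, h2, C.bp_conj] at h1
    have h5 := (C.nn_inj _ _ _ _ h1).2
    rw [add_eq_left, hρe, C.bp_mul, C.bp_nn, hat, map_smul, g7_smul, ← smul_add] at h5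
    have h6 := (smul_eq_zero.1 h5).resolve_left ht
    rw [h6, dotProduct_zero, mul_zero]
  · rintro ⟨hloc, hok⟩
    -- the bilinear expression
    let Φ : Gm k → VV l C.d → VV l C.n := fun σ w =>
      (2 : ZMod l)⁻¹ • C.Bd.B (a σ) w + C.bp (ρ0 σ) w
    have hΦ : ∀ σ w i, Φ σ w i = ∑ j, Φ σ (Pi.single j 1) i * w j := by
      intro σ w i
      let L : VV l C.d →ₗ[ZMod l] VV l C.n :=
        (2 : ZMod l)⁻¹ • C.Bd.B (a σ) + g7_lin C (ρ0 σ)
      have hL : ∀ w, L w = Φ σ w := fun w => rfl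
      have h1 : w = ∑ j, w j • (Pi.single j 1 : VV l C.d) := by
        funext s
        rw [Finset.sum_apply]
        simp [Pi.single_apply]
      rw [← hL]
      conv_lhs => rw [h1]
      rw [map_sum, Finset.sum_apply]
      refine Finset.sum_congr rfl fun j _ => ?_
      rw [map_smul, Pi.smul_apply, smul_eq_mul, mul_comm, hL]
    have hΦm : ∀ w i, Hm fun σ => Φ σ w i := by
      intro w i
      constructor
      · have h1 := halc.prodMk hρ0
        exact h1.comp fun z => ((2 : ZMod l)⁻¹ • C.Bd.B z.1 w + C.bp z.2 w) i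
      · intro σ τ
        show ((2 : ZMod l)⁻¹ • C.Bd.B (a (σ * τ)) w + C.bp (ρ0 (σ * τ)) w) i =
          ((2 : ZMod l)⁻¹ • C.Bd.B (a σ) w + C.bp (ρ0 σ) w) i +
            ((2 : ZMod l)⁻¹ • C.Bd.B (a τ) w + C.bp (ρ0 τ) w) i
        rw [hadd, map_mul, C.bp_mul, map_add, LinearMap.add_apply, smul_add]
        simp only [Pi.add_apply]
        ring
    have hglob : ∀ i : Fin C.n, TrH (⊤ : Subgroup (Gm k))
        (fun (j : Fin C.d) σ => Φ σ (Pi.single j 1) i) (fun j σ => a σ j) := by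
      intro i
      refine hK.glob C.d _ _ (fun j => hΦm _ i) aHm fun P => ?_
      by_cases hP : P ∈ Fr.S
      · obtain ⟨c, hc, hcoc⟩ := hloc P hP
        refine ⟨fun σ => c σ i, hc.comp fun z => z i, fun σ hσ τ hτ => ?_⟩
        show c (σ * τ) i = c σ i + c τ i + ∑ j, Φ σ (Pi.single j 1) i * a τ j
        rw [hcoc σ hσ τ hτ, ← hΦ]
        simp only [Pi.add_apply, Φ]
        ring
      · refine hK.loc P (Fr.S_l P hP) C.d _ _ (fun j => hΦm _ i) aHm ?_
        show ∑ j, (Φ (T.phi P) (Pi.single j 1) i * a (T.tau P) j -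
          Φ (T.tau P) (Pi.single j 1) i * a (T.phi P) j) = 0
        rw [Finset.sum_sub_distrib, ← hΦ, ← hΦ]
        have h2 : Φ (T.phi P) (a (T.tau P)) i - Φ (T.tau P) (a (T.phi P)) i =
            (C.Bd.B (a (T.phi P)) (a (T.tau P)) + C.bp (ρ0 (T.phi P)) (a (T.tau P))) i := by
          have h3 : (2 : ZMod l)⁻¹ + (2 : ZMod l)⁻¹ = 1 := by
            have h4 : (2 : ZMod l) ≠ 0 := by
              intro h5
              have h6 : ((2 : ℕ) : ZMod l) = 0 := by exact_mod_cast h5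
              rw [ZMod.natCast_eq_zero_iff] at h6
              exact hl ((Nat.prime_dvd_prime_iff_eq (Fact.out : l.Prime) Nat.prime_two).1 h6)
            rw [← two_mul, mul_inv_cancel₀ h4]
          simp only [Φ]
          rw [hU P hP, g7_bp_one, add_zero, g7_skew (a (T.tau P)) (a (T.phi P))]
          simp only [Pi.add_apply, Pi.smul_apply, Pi.neg_apply, smul_eq_mul]
          linear_combination (C.Bd.B (a (T.phi P)) (a (T.tau P)) i) * h3
        rw [h2]
        by_cases hex : ∀ v : R, ∀ p ∈ x v, Fr.dn p ≠ P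
        · rw [hb2 P hP hex, map_zero, g7_bp_zero, add_zero, Pi.zero_apply]
        · push_neg at hex
          obtain ⟨v, q, hq, rfl⟩ := hex
          obtain ⟨t, ht, hat⟩ := hb1 v q hq
          have h3 := hok v q hq (Pi.single i 1)
          rw [hkey v q hq] at h3
          have h4 := (mul_eq_zero.1 h3).resolve_left (Fr.cc_ne _)
          rw [single_dotProduct, one_mul] at h4
          rw [hat, map_smul, g7_smul, ← smul_add, Pi.smul_apply, h4, smul_zero]
    choose f hf1 hf2 using hglob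
    refine ⟨fun σ i => f i σ, g7_lc hf1, fun σ hσ τ hτ => ?_⟩
    funext i
    have h1 : f i (σ * τ) = f i σ + f i τ + ∑ j, Φ σ (Pi.single j 1) i * a τ j :=
      hf2 i σ hσ τ hτ
    rw [← hΦ] at h1
    show f i (σ * τ) = _
    rw [h1]
    simp only [Pi.add_apply, Φ]
    ring

end

end Pool.Agent.H92.EL
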