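import Pool.Agent.H92.EL.GStm

/-!
# Project T4 (MP_a3214d), row G8a: surjectivity is a condition on the pattern
-/

set_option autoImplicit false

open scoped BigOperators Topology
open NumberField IsDedekindDomain Filter

namespace Pool.Agent.H92.EL

open Pool.Agent.H98.MF (Gm Dec nrm rdN fld)
open SysL (VV BD)

section

variable {k : Type} [Field k] [NumberField k] {l : ℕ} [Fact l.Prime] {T : TM k}
  {G : Type} [Group G]

private theorem sg8a_one (C : Cd l G) : C.nn 0 0 = 1 := by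
  have h := C.nn_mul 0 0 0 0
  simp only [map_zero, smul_zero, add_zero] at h
  exact mul_eq_left.1 h

private theorem sg8a_pow (C : Cd l G) (v : VV l C.d) (n : ℕ) :
    C.nn v 0 ^ n = C.nn ((n : ZMod l) • v) 0 := by
  induction n with
  | zero => simp [sg8a_one]
  | succ n ih =>
    rw [pow_succ, ih, C.nn_mul]
    congr 1
    · push_cast
      rw [add_smul, one_smul]
    · rw [map_smul, LinearMap.smul_apply, C.Bd.alt]
      simp

private theorem sg8a_z (C : Cd l G) (H : Subgroup G) (hZ : ∀ z, C.nn 0 z ∈ H) (v : VV l C.d)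
    (z : VV l C.n) : C.nn v z ∈ H ↔ C.nn v 0 ∈ H := by
  have h : C.nn v z = C.nn v 0 * C.nn 0 z := by
    rw [C.nn_mul]
    simp
  rw [h]
  exact H.mul_mem_cancel_right (hZ z)

private theorem sg8a_add (C : Cd l G) (H : Subgroup G) (hZ : ∀ z, C.nn 0 z ∈ H)
    (v w : VV l C.d) (hv : C.nn v 0 ∈ H) (hw : C.nn w 0 ∈ H) : C.nn (v + w) 0 ∈ H := by
  have h := H.mul_mem hv hw
  rw [C.nn_mul] at h
  exact (sg8a_z C H hZ _ _).1 h

private theorem sg8a_smul (C : Cd l G) (H : Subgroup G) (v : VV l C.d) (t : ZMod l)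
    (hv : C.nn v 0 ∈ H) : C.nn (t • v) 0 ∈ H := by
  haveI : NeZero l := ⟨(Fact.out : l.Prime).ne_zero⟩
  have h := H.pow_mem hv t.val
  rwa [sg8a_pow, ZMod.natCast_zmod_val] at h

private theorem sg8a_sum (C : Cd l G) (H : Subgroup G) (hZ : ∀ z, C.nn 0 z ∈ H) {ι : Type}
    (s : Finset ι) (f : ι → VV l C.d) (hf : ∀ i ∈ s, C.nn (f i) 0 ∈ H) :
    C.nn (∑ i ∈ s, f i) 0 ∈ H := by
  classical
  induction s using Finset.induction_on with
  | empty => simpa using hZ 0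
  | insert a s ha ih =>
    rw [Finset.sum_insert ha]
    exact sg8a_add C H hZ _ _ (hf a (Finset.mem_insert_self a s))
      (ih fun i hi => hf i (Finset.mem_insert_of_mem hi))

/-- G8a -/
theorem sg8a (hG : Nl l G) (C : Cd l G) (Fr : FrI k l T.tau T.phi) (h4b : SG4b Fr) :
    SG8a C Fr := by
  classical
  intro R hR ρ0 ρ _ _ hun y x c hx hρ
  have haa : ∀ σ, Fr.aa R y x σ = (∑ v : R, (∑ p ∈ x v, Fr.al p σ) • (v : VV l C.d)) +
      fun i => Fr.un (y i) σ := by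
    intro σ
    funext i
    rw [Pi.add_apply, Finset.sum_apply, add_comm]
    unfold FrI.aa
    congr 1
    apply Finset.sum_congr rfl
    intro v _
    rw [Pi.smul_apply, smul_eq_mul, mul_comm]
  have hdec : ∀ σ, ∃ z, ρ σ = C.nn (∑ v : R, (∑ p ∈ x v, Fr.al p σ) • (v : VV l C.d)) z *
      (C.nn (fun i => Fr.un (y i) σ) 0 * ρ0 σ) := by
    intro σ
    refine ⟨c σ - (2 : ZMod l)⁻¹ • C.Bd.B (∑ v : R, (∑ p ∈ x v, Fr.al p σ) • (v : VV l C.d))
      (fun i => Fr.un (y i) σ), ?_⟩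
    rw [hρ σ, haa σ, ← mul_assoc, C.nn_mul]
    congr 2
    abel
  -- a criterion for elements
  have hw : ∀ (H : Subgroup G), (∀ z, C.nn 0 z ∈ H) →
      (∀ v ∈ Fr.sys.pat x, C.nn (v : VV l C.d) 0 ∈ H) → ∀ σ z,
      C.nn (∑ v : R, (∑ p ∈ x v, Fr.al p σ) • (v : VV l C.d)) z ∈ H := by
    intro H hZ hv σ z
    rw [sg8a_z C H hZ]
    apply sg8a_sum C H hZ
    intro v _
    by_cases hvx : v ∈ Fr.sys.pat x
    · exact sg8a_smul C H _ _ (hv v hvx)
    · have h0 : x v = ∅ := by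
        by_contra hne
        apply hvx
        unfold SysL.pat
        rw [Finset.mem_filter]
        exact ⟨Finset.mem_univ _, Finset.nonempty_iff_ne_empty.2 hne⟩
      rw [h0, Finset.sum_empty, zero_smul]
      exact hZ 0
  unfold Sur0 FrI.gen
  -- the second subgroup
  have key : Subgroup.closure (Set.range ρ ∪ {g | ∃ z, g = C.nn 0 z}) =
      Subgroup.closure ({g | ∃ σ, g = C.nn (fun i => Fr.un (y i) σ) 0 * ρ0 σ} ∪
        {g | ∃ v ∈ Fr.sys.pat x, g = C.nn (v : VV l C.d) 0} ∪ {g | ∃ z, g = C.nn 0 z}) := by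
    apply le_antisymm
    · rw [Subgroup.closure_le]
      have hZ : ∀ z, C.nn 0 z ∈ Subgroup.closure
          ({g | ∃ σ, g = C.nn (fun i => Fr.un (y i) σ) 0 * ρ0 σ} ∪
          {g | ∃ v ∈ Fr.sys.pat x, g = C.nn (v : VV l C.d) 0} ∪ {g | ∃ z, g = C.nn 0 z}) :=
        fun z => Subgroup.subset_closure (Or.inr ⟨z, rfl⟩)
      rintro g (⟨σ, rfl⟩ | ⟨z, rfl⟩)
      · obtain ⟨z, hz⟩ := hdec σ
        rw [hz]
        refine mul_mem ?_ (Subgroup.subset_closure (Or.inl (Or.inl ⟨σ, rfl⟩)))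
        exact hw _ hZ (fun v hv => Subgroup.subset_closure (Or.inl (Or.inr ⟨v, hv, rfl⟩))) σ z
      · exact hZ z
    · rw [Subgroup.closure_le]
      have hZ : ∀ z, C.nn 0 z ∈ Subgroup.closure (Set.range ρ ∪ {g | ∃ z, g = C.nn 0 z}) :=
        fun z => Subgroup.subset_closure (Or.inr ⟨z, rfl⟩)
      have hr : ∀ σ, ρ σ ∈ Subgroup.closure (Set.range ρ ∪ {g | ∃ z, g = C.nn 0 z}) :=
        fun σ => Subgroup.subset_closure (Or.inl ⟨σ, rfl⟩)
      have hv : ∀ v ∈ Fr.sys.pat x, C.nn (v : VV l C.d) 0 ∈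
          Subgroup.closure (Set.range ρ ∪ {g | ∃ z, g = C.nn 0 z}) := by
        intro v hv
        unfold SysL.pat at hv
        rw [Finset.mem_filter] at hv
        obtain ⟨p, hp⟩ := hv.2
        obtain ⟨t, ht, hta⟩ := (h4b C.d R hR y x hx).1 v p hp
        have h1 := hr (T.tau (Fr.dn p))
        rw [hρ, hun _ (Fr.dn_not p), mul_one, hta, sg8a_z C _ hZ] at h1
        have h2 := sg8a_smul C _ _ t⁻¹ h1
        rwa [smul_smul, inv_mul_cancel₀ ht, one_smul] at h2
      rintro g ((⟨σ, rfl⟩ | ⟨v, hvx, rfl⟩) | ⟨z, rfl⟩)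
      · obtain ⟨z, hz⟩ := hdec σ
        have h1 := hr σ
        rw [hz] at h1
        exact (Subgroup.mul_mem_cancel_left _ (hw _ hZ hv σ z)).1 h1
      · exact hv v hvx
      · exact hZ z
  rw [key]

end

end Pool.Agent.H92.EL
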