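import Pool.Agent.H92.EL.GStm

/-!
# Project T4 (MP_a3214d), row ELL-G8b: the outer characters of a base homomorphism unramified
outside `S`
-/

set_option autoImplicit false

open scoped BigOperators Topology
open NumberField IsDedekindDomain Filter

namespace Pool.Agent.H92.EL

open Pool.Agent.H98.MF (Gm Dec nrm rdN fld)
open SysL (VV BD)

section

variable {k : Type} [Field k] [NumberField k] {l : ℕ} [Fact l.Prime] {T : TM k}
variable {G : Type} [Group G]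

/-- the commutator with the neutral element -/
theorem g8b_bp1 (C : Cd l G) (v : VV l C.d) : C.bp 1 v = 0 := by
  have h := C.bp_mul 1 1 v
  rw [mul_one] at h
  have h2 : C.bp 1 v + 0 = C.bp 1 v + C.bp 1 v := by rw [add_zero]; exact h
  exact (add_left_cancel h2).symm

/-- the commutator with an inverse -/
theorem g8b_bpi (C : Cd l G) (g : G) (v : VV l C.d) : C.bp g⁻¹ v = - C.bp g v := by
  have h := C.bp_mul g⁻¹ g v
  rw [inv_mul_cancel, g8b_bp1] at h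
  exact eq_neg_of_add_eq_zero_left h.symm

/-- the elements with vanishing commutator with `v` after applying `ζ` -/
def g8b_K (C : Cd l G) (v : VV l C.d) (ζ : VV l C.n) : Subgroup G where
  carrier := {g | ζ ⬝ᵥ C.bp g v = 0}
  one_mem' := by
    show ζ ⬝ᵥ C.bp 1 v = 0
    rw [g8b_bp1, dotProduct_zero]
  mul_mem' := by
    intro a b ha hb
    show ζ ⬝ᵥ C.bp (a * b) v = 0
    have ha' : ζ ⬝ᵥ C.bp a v = 0 := ha
    have hb' : ζ ⬝ᵥ C.bp b v = 0 := hb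
    rw [C.bp_mul, dotProduct_add, ha', hb', add_zero]
  inv_mem' := by
    intro a ha
    show ζ ⬝ᵥ C.bp a⁻¹ v = 0
    have ha' : ζ ⬝ᵥ C.bp a v = 0 := ha
    rw [g8b_bpi, dotProduct_neg, ha', neg_zero]

/-- the homomorphism of an outer character -/
noncomputable def g8b_h (C : Cd l G) (Fr : FrI k l T.tau T.phi) (ρ0 : Gm k →* G)
    (y : Fin C.d → Fin Fr.U → ZMod l) (v : VV l C.d) (ζ : VV l C.n) : Gm k → ZMod l :=
  fun σ => ζ ⬝ᵥ (C.bp (ρ0 σ) v + C.Bd.B (fun i => Fr.un (y i) σ) v)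

theorem g8b_hm (C : Cd l G) (Fr : FrI k l T.tau T.phi) (ρ0 : Gm k →* G)
    (hρ : IsLocallyConstant ρ0) (y : Fin C.d → Fin Fr.U → ZMod l) (v : VV l C.d)
    (ζ : VV l C.n) : Hm (g8b_h C Fr ρ0 y v ζ) := by
  constructor
  · have h1 : IsLocallyConstant (fun σ : Gm k => fun i : Fin C.d => Fr.un (y i) σ) := by
      rw [IsLocallyConstant.iff_eventually_eq]
      intro σ
      have h2 : ∀ i : Fin C.d, ∀ᶠ τ in 𝓝 σ, Fr.un (y i) τ = Fr.un (y i) σ := fun i =>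
        (IsLocallyConstant.iff_eventually_eq _).1 (Fr.un_hm (y i)).lc σ
      filter_upwards [eventually_all.2 h2] with τ hτ
      funext i
      exact hτ i
    exact IsLocallyConstant.comp₂ hρ h1 (fun g w => ζ ⬝ᵥ (C.bp g v + C.Bd.B w v))
  · intro σ τ
    have h1 : (fun i => Fr.un (y i) (σ * τ)) =
        (fun i => Fr.un (y i) σ) + (fun i => Fr.un (y i) τ) := by
      funext i
      exact (Fr.un_hm (y i)).add σ τ
    show ζ ⬝ᵥ (C.bp (ρ0 (σ * τ)) v + C.Bd.B (fun i => Fr.un (y i) (σ * τ)) v) =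
      ζ ⬝ᵥ (C.bp (ρ0 σ) v + C.Bd.B (fun i => Fr.un (y i) σ) v) +
        ζ ⬝ᵥ (C.bp (ρ0 τ) v + C.Bd.B (fun i => Fr.un (y i) τ) v)
    rw [h1, map_mul, C.bp_mul, map_add, LinearMap.add_apply, ← dotProduct_add]
    congr 1
    abel

theorem g8b_tau (C : Cd l G) (Fr : FrI k l T.tau T.phi) (ρ0 : Gm k →* G)
    (hu : Unr T Fr.S ρ0) (y : Fin C.d → Fin Fr.U → ZMod l) (v : VV l C.d)
    (ζ : VV l C.n) (P : HeightOneSpectrum (𝓞 k)) (hP : P ∉ Fr.S) :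
    g8b_h C Fr ρ0 y v ζ (T.tau P) = 0 := by
  have h1 : (fun i => Fr.un (y i) (T.tau P)) = (0 : VV l C.d) := by
    funext i
    exact Fr.un_tau (y i) P hP
  show ζ ⬝ᵥ (C.bp (ρ0 (T.tau P)) v + C.Bd.B (fun i => Fr.un (y i) (T.tau P)) v) = 0
  rw [h1, hu P hP, g8b_bp1, map_zero, LinearMap.zero_apply, add_zero, dotProduct_zero]

theorem g8b_cl2 (C : Cd l G) (Fr : FrI k l T.tau T.phi) (ρ0 : Gm k →* G)
    (hρ : IsLocallyConstant ρ0) (hu : Unr T Fr.S ρ0) (y : Fin C.d → Fin Fr.U → ZMod l)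
    (v : VV l C.d) (ζ : VV l C.n) : (Fr.cl (g8b_h C Fr ρ0 y v ζ)).2 = 0 := by
  by_contra hne
  obtain ⟨p, hp⟩ := Finsupp.support_nonempty_iff.2 hne
  exact Fr.cl_sup _ (g8b_hm C Fr ρ0 hρ y v ζ) p hp
    (g8b_tau C Fr ρ0 hu y v ζ (Fr.dn p) (Fr.dn_not p))

theorem g8b_cl0 (Fr : FrI k l T.tau T.phi) : Fr.cl (fun _ => 0) = 0 := by
  have h0 : Hm (fun _ : Gm k => (0 : ZMod l)) :=
    ⟨IsLocallyConstant.const 0, fun _ _ => (add_zero 0).symm⟩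
  have h := Fr.cl_add _ _ h0 h0
  have h2 : (fun σ : Gm k => (fun _ : Gm k => (0 : ZMod l)) σ +
      (fun _ : Gm k => (0 : ZMod l)) σ) = fun _ => 0 := by
    funext σ
    exact add_zero 0
  rw [h2] at h
  have h3 : Fr.cl (fun _ => 0) + 0 = Fr.cl (fun _ => 0) + Fr.cl (fun _ => 0) := by
    rw [add_zero]; exact h
  exact (add_left_cancel h3).symm

/-- the pairing with a dual vector vanishes on the whole group -/
theorem g8b_key (C : Cd l G) (Fr : FrI k l T.tau T.phi) (ρ0 : Gm k →* G)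
    (R : Finset (VV l C.d)) (y : Fin C.d → Fin Fr.U → ZMod l) (v : VV l C.d)
    (ζ : VV l C.n) (hh : ∀ σ, g8b_h C Fr ρ0 y v ζ σ = 0) (U : Finset R)
    (hU : Fr.gen C ρ0 R y U)
    (hw : ∀ w ∈ U, ζ ⬝ᵥ C.Bd.B w v = 0) (g : G) : ζ ⬝ᵥ C.bp g v = 0 := by
  have h1 : Subgroup.closure ({g | ∃ σ, g = C.nn (fun i => Fr.un (y i) σ) 0 * ρ0 σ} ∪
    {g | ∃ v ∈ U, g = C.nn v 0} ∪ {g | ∃ z, g = C.nn 0 z}) ≤ g8b_K C v ζ := by
    rw [Subgroup.closure_le]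
    rintro g ((⟨σ, rfl⟩ | ⟨w, hwU, rfl⟩) | ⟨z, rfl⟩)
    · show ζ ⬝ᵥ C.bp (C.nn (fun i => Fr.un (y i) σ) 0 * ρ0 σ) v = 0
      rw [C.bp_mul, C.bp_nn, add_comm]
      exact hh σ
    · show ζ ⬝ᵥ C.bp (C.nn w 0) v = 0
      rw [C.bp_nn]
      exact hw w hwU
    · show ζ ⬝ᵥ C.bp (C.nn 0 z) v = 0
      rw [C.bp_nn, map_zero, LinearMap.zero_apply, dotProduct_zero]
  have h2 : (⊤ : Subgroup G) ≤ g8b_K C v ζ := by
    rw [← (hU : Subgroup.closure _ = ⊤)]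
    exact h1
  exact h2 (Subgroup.mem_top g)

/-- G8b: the outer characters of a base homomorphism unramified outside `S` -/
theorem sg8b (C : Cd l G) (Fr : FrI k l T.tau T.phi) : SG8b C Fr := by
  classical
  intro R _ ρ0 hρ hu y
  have hcf : ∀ v ζ, Fr.sys.cT (fun v ζ => (Fr.oc C ρ0 y v ζ).1) v ζ = 0 →
      (Fr.cl (g8b_h C Fr ρ0 y v ζ)).1 = 0 := by
    intro v ζ hc
    have h1 : (Fr.sys.cT (fun v ζ => (Fr.oc C ρ0 y v ζ).1) v ζ).1 = (0 : Fr.sys.El).1 := by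
      rw [hc]
    exact h1
  refine ⟨fun v ζ => (Fr.oc C ρ0 y v ζ).1, ?_, ?_, ?_, ?_⟩
  · intro v ζ ζ'
    have h := Fr.cl_add _ _ (g8b_hm C Fr ρ0 hρ y v ζ) (g8b_hm C Fr ρ0 hρ y v ζ')
    have h2 : (fun σ => g8b_h C Fr ρ0 y v ζ σ + g8b_h C Fr ρ0 y v ζ' σ) =
        g8b_h C Fr ρ0 y v (ζ + ζ') := by
      funext σ
      exact (add_dotProduct ζ ζ' _).symm
    rw [h2] at h
    show (Fr.cl (g8b_h C Fr ρ0 y v (ζ + ζ'))).1 = (Fr.cl (g8b_h C Fr ρ0 y v ζ)).1 +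
      (Fr.cl (g8b_h C Fr ρ0 y v ζ')).1
    rw [h]
    rfl
  · funext v ζ
    exact Prod.ext rfl (g8b_cl2 C Fr ρ0 hρ hu y v ζ)
  · intro U hU v _ ζ hc hw w
    have hcl : Fr.cl (g8b_h C Fr ρ0 y v ζ) = 0 :=
      Prod.ext (hcf v ζ hc) (g8b_cl2 C Fr ρ0 hρ hu y v ζ)
    have hz := Fr.cl_inj _ (g8b_hm C Fr ρ0 hρ y v ζ) hcl
    have := g8b_key C Fr ρ0 R y v ζ (fun σ => congrFun hz σ) U hU hw (C.nn w 0)
    rwa [C.bp_nn] at this
  · rintro ⟨U, hU⟩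
    have hun : Fr.gen C ρ0 R y Finset.univ := by
      have h1 : Subgroup.closure ({g | ∃ σ, g = C.nn (fun i => Fr.un (y i) σ) 0 * ρ0 σ} ∪
          {g | ∃ v ∈ U, g = C.nn v 0} ∪ {g | ∃ z, g = C.nn 0 z}) ≤
          Subgroup.closure ({g | ∃ σ, g = C.nn (fun i => Fr.un (y i) σ) 0 * ρ0 σ} ∪
          {g | ∃ v ∈ (Finset.univ : Finset R), g = C.nn v 0} ∪ {g | ∃ z, g = C.nn 0 z}) := by
        apply Subgroup.closure_mono
        rintro g ((⟨σ, rfl⟩ | ⟨w, hwU, rfl⟩) | ⟨z, rfl⟩)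
        · exact Or.inl (Or.inl ⟨σ, rfl⟩)
        · exact Or.inl (Or.inr ⟨w, Finset.mem_univ w, rfl⟩)
        · exact Or.inr ⟨z, rfl⟩
      have h2 : (⊤ : Subgroup G) ≤
          Subgroup.closure ({g | ∃ σ, g = C.nn (fun i => Fr.un (y i) σ) 0 * ρ0 σ} ∪
          {g | ∃ v ∈ (Finset.univ : Finset R), g = C.nn v 0} ∪ {g | ∃ z, g = C.nn 0 z}) := by
        rw [← (hU : Subgroup.closure _ = ⊤)]
        exact h1
      exact top_le_iff.1 h2
    refine ⟨hun, ?_⟩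
    unfold SysL.bV
    apply Finset.sum_congr rfl
    intro v hv
    unfold SysL.nv Cd.kc
    congr 1
    ext ζ
    simp only [Finset.mem_filter, Finset.mem_univ, true_and]
    constructor
    · rintro ⟨hc, hw⟩
      have hcl : Fr.cl (g8b_h C Fr ρ0 y v ζ) = 0 :=
        Prod.ext (hcf v ζ hc) (g8b_cl2 C Fr ρ0 hρ hu y v ζ)
      have hz := Fr.cl_inj _ (g8b_hm C Fr ρ0 hρ y v ζ) hcl
      exact g8b_key C Fr ρ0 R y v ζ (fun σ => congrFun hz σ) U hU (fun w _ => hw w)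
    · intro hg
      have hB : ∀ w, ζ ⬝ᵥ C.Bd.B w v = 0 := by
        intro w
        have := hg (C.nn w 0)
        rwa [C.bp_nn] at this
      refine ⟨?_, hB⟩
      have hz : g8b_h C Fr ρ0 y v ζ = fun _ => 0 := by
        funext σ
        show ζ ⬝ᵥ (C.bp (ρ0 σ) v + C.Bd.B (fun i => Fr.un (y i) σ) v) = 0
        rw [dotProduct_add, hg, hB, add_zero]
      have hcl : Fr.cl (g8b_h C Fr ρ0 y v ζ) = 0 := by
        rw [hz]
        exact g8b_cl0 Fr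
      show ((Fr.cl (g8b_h C Fr ρ0 y v ζ)).1, (0 : Fr.sys.P →₀ ZMod l)) = 0
      rw [hcl]
      rfl

end

end Pool.Agent.H92.EL
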