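import Pool.Agent.H92.EL.GStm

/-!
# Project T4 (MP_a3214d), row G8c: the number of homomorphisms satisfying a local condition
-/

set_option autoImplicit false

open scoped BigOperators Topology
open NumberField IsDedekindDomain Filter

namespace Pool.Agent.H92.EL

open Pool.Agent.H98.MF (Gm Dec nrm rdN fld)
open SysL (VV BD)

/-! ### families of primes -/

section

variable {l : ℕ} [Fact l.Prime] (S : SysL l)

private theorem g8c_mem_un {ι : Type} [Fintype ι] {x : ι → Finset S.P} {p : S.P} :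
    p ∈ S.un x ↔ ∃ u, p ∈ x u := by
  unfold SysL.un
  rw [Finset.mem_biUnion]
  simp

private theorem g8c_nm_un {ι : Type} [Fintype ι] {x : ι → Finset S.P} (hx : S.Gd x) :
    ∏ u, S.nm (x u) = ∏ p ∈ S.un x, S.N p := by
  classical
  unfold SysL.un
  rw [Finset.prod_biUnion]
  · rfl
  · intro u _ v _ huv
    rw [Function.onFun, Finset.disjoint_left]
    intro p hp hq
    exact huv (hx.2 u v p hp p hq 1 (S.ac_one p)).1

private theorem g8c_one_le_nm (x : Finset S.P) : 1 ≤ S.nm x :=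
  Finset.one_le_prod' fun p _ => S.one_le_N p

private theorem g8c_bx {ι : Type} [Fintype ι] {x : ι → Finset S.P} {t : ℝ}
    (h : ((∏ u, S.nm (x u) : ℕ) : ℝ) ≤ t) (u : ι) : x u ∈ S.bx t := by
  classical
  have h1 : S.nm (x u) ≤ ∏ u, S.nm (x u) :=
    Finset.single_le_prod' (f := fun u => S.nm (x u)) (fun u _ => g8c_one_le_nm S _)
      (Finset.mem_univ u)
  have h2 : (S.nm (x u) : ℝ) ≤ t := le_trans (by exact_mod_cast h1) h
  have h0 : 0 ≤ t := (Nat.cast_nonneg _).trans h2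
  unfold Pool.Agent.H98.MF.Pre.bx
  rw [Finset.mem_filter, Finset.mem_powerset]
  refine ⟨fun p hp => ?_, h2⟩
  rw [S.mem_pr h0]
  have h3 : S.N p ≤ S.nm (x u) :=
    Finset.single_le_prod' (f := fun p => S.N p) (fun q _ => S.one_le_N q) hp
  exact le_trans (by exact_mod_cast h3) h2

private theorem g8c_gd_un {ι : Type} [Fintype ι] {x : ι → Finset S.P} (hx : S.Gd x) :
    S.Gd (fun _ : Unit => S.un x) := by
  refine ⟨fun _ p hp => ?_, fun _ _ p hp q hq g hg => ⟨rfl, ?_⟩⟩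
  · obtain ⟨v, hv⟩ := (g8c_mem_un S).1 hp
    exact hx.1 v p hv
  · obtain ⟨v, hv⟩ := (g8c_mem_un S).1 hp
    obtain ⟨w, hw⟩ := (g8c_mem_un S).1 hq
    exact (hx.2 v w p hv q hw g hg).2

end

/-! ### coordinates of the group -/

section

variable {l : ℕ} [Fact l.Prime] {G : Type} [Group G] (C : Cd l G)

private theorem g8c_nn_zero : C.nn 0 0 = 1 := by
  have h := C.nn_mul 0 0 0 0
  rw [map_zero, smul_zero, add_zero, add_zero] at h
  simpa using h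

private theorem g8c_nn_ne {v : VV l C.d} {z : VV l C.n} (h : v ≠ 0 ∨ z ≠ 0) : C.nn v z ≠ 1 := by
  intro h1
  rw [← g8c_nn_zero C] at h1
  obtain ⟨h2, h3⟩ := C.nn_inj _ _ _ _ h1
  rcases h with h | h
  · exact h h2
  · exact h h3

end

/-! ### values at the tame generators and on the decomposition groups -/

section

variable {k : Type} [Field k] [NumberField k] {l : ℕ} [Fact l.Prime] {T : TM k}
  (Fr : FrI k l T.tau T.phi)

/-- the central part at a prime where the assignment does not live -/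
private theorem g8c_cz {n : ℕ} (RZ : Finset (VV l n)) (u : Fin n → Fin Fr.U → ZMod l)
    {z : Fr.sys.P →₀ VV l n} (x : RZ → Finset Fr.sys.P) {P : HeightOneSpectrum (𝓞 k)}
    (hP : P ∉ Fr.S) (hz : ∀ p ∈ z.support, Fr.sys.rg p ∧ Fr.dn p ≠ P) :
    Fr.cz RZ u z x (T.tau P) = Fr.aa RZ u x (T.tau P) := by
  funext i
  unfold FrI.cz FrI.aa
  have h : (z.sum fun p v => v i * Fr.al p (T.tau P)) = 0 := by
    unfold Finsupp.sum
    refine Finset.sum_eq_zero fun p hp => ?_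
    show z p i * Fr.al p (T.tau P) = 0
    rw [Fr.al_tau p (hz p hp).1 P hP (Ne.symm (hz p hp).2), mul_zero]
  rw [h, add_zero]

/-- the central part on the decomposition groups at `S` -/
private theorem g8c_loc {n : ℕ} (RZ : Finset (VV l n)) (u : Fin n → Fin Fr.U → ZMod l)
    {z : Fr.sys.P →₀ VV l n} {x : RZ → Finset Fr.sys.P} {P : HeightOneSpectrum (𝓞 k)}
    (hP : P ∈ Fr.S) (hz : ∀ p ∈ z.support, Fr.sys.rg p) (hx : ∀ v, ∀ p ∈ x v, Fr.sys.rg p)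
    {σ : Gm k} (hσ : σ ∈ Dec P) :
    Fr.cz RZ u z x σ = fun i => Fr.un (u i) σ +
      Fr.lam (Fr.sys.tz RZ z (fun v => Fr.sys.tys (x v)) i) σ := by
  let L0 : Fr.sys.T →+ ZMod l :=
    AddMonoidHom.mk' (fun t => Fr.lam t σ) (fun t t' => Fr.lam_add t t' P hP σ hσ)
  let L : Fr.sys.T →ₗ[ZMod l] ZMod l := L0.toZModLinearMap l
  have hL : ∀ t, Fr.lam t σ = L t := fun _ => rfl
  funext i
  unfold FrI.cz SysL.tz SysL.tys
  rw [hL, map_add, map_sum, add_assoc]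
  congr 2
  · unfold Finsupp.sum
    rw [map_sum]
    refine Finset.sum_congr rfl fun p hp => ?_
    show z p i * Fr.al p σ = L (z p i • Fr.sys.ty p)
    rw [map_smul, smul_eq_mul, ← hL, Fr.al_loc p (hz p hp) P hP σ hσ]
  · refine Finset.sum_congr rfl fun v _ => ?_
    rw [map_smul, smul_eq_mul, map_sum]
    congr 1
    refine Finset.sum_congr rfl fun p hp => ?_
    rw [← hL, Fr.al_loc p (hx v p hp) P hP σ hσ]

/-- the product of the norms of the ramified primes -/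
private theorem g8c_nO {ι ι' : Type} [Fintype ι] [Fintype ι'] {x : ι → Finset Fr.sys.P}
    {x' : ι' → Finset Fr.sys.P} (hx : Fr.sys.Gd x) (hx' : Fr.sys.Gd x')
    (ha : Fr.sys.Awy (Fr.sys.un x) x') {G : Type} [Group G] {ρ : Gm k →* G}
    (h1 : ∀ v, ∀ p ∈ x v, ρ (T.tau (Fr.dn p)) ≠ 1)
    (h2 : ∀ v, ∀ p ∈ x' v, ρ (T.tau (Fr.dn p)) ≠ 1)
    (h3 : ∀ P, P ∉ Fr.S → (∀ v, ∀ p ∈ x v, Fr.dn p ≠ P) → (∀ v, ∀ p ∈ x' v, Fr.dn p ≠ P) →
      ρ (T.tau P) = 1) :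
    nO T Fr.S ρ = (∏ u, Fr.sys.nm (x u)) * (∏ u, Fr.sys.nm (x' u)) := by
  classical
  rw [g8c_nm_un _ hx, g8c_nm_un _ hx']
  have hd : Disjoint (Fr.sys.un x) (Fr.sys.un x') := by
    rw [Finset.disjoint_left]
    intro p hp hp'
    obtain ⟨v, hv⟩ := (g8c_mem_un _).1 hp'
    exact ha v p hv p hp 1 (Fr.sys.ac_one p)
  rw [← Finset.prod_union hd]
  have hrg : ∀ p ∈ Fr.sys.un x ∪ Fr.sys.un x', Fr.sys.rg p := by
    intro p hp
    rcases Finset.mem_union.1 hp with hp | hp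
    · obtain ⟨v, hv⟩ := (g8c_mem_un _).1 hp
      exact hx.1 v p hv
    · obtain ⟨v, hv⟩ := (g8c_mem_un _).1 hp
      exact hx'.1 v p hv
  have hinj : ∀ p ∈ Fr.sys.un x ∪ Fr.sys.un x', ∀ q ∈ Fr.sys.un x ∪ Fr.sys.un x',
      Fr.dn p = Fr.dn q → p = q := by
    intro p hp q hq h
    rcases Finset.mem_union.1 hp with hp | hp <;> rcases Finset.mem_union.1 hq with hq | hq
    · obtain ⟨v, hv⟩ := (g8c_mem_un _).1 hp
      obtain ⟨w, hw⟩ := (g8c_mem_un _).1 hq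
      obtain ⟨g, hg⟩ := (Fr.dn_eq p q).1 h
      exact (hx.2 v w p hv q hw g hg).2
    · obtain ⟨w, hw⟩ := (g8c_mem_un _).1 hq
      obtain ⟨g, hg⟩ := (Fr.dn_eq q p).1 h.symm
      exact absurd hg (ha w q hw p hp g)
    · obtain ⟨v, hv⟩ := (g8c_mem_un _).1 hp
      obtain ⟨g, hg⟩ := (Fr.dn_eq p q).1 h
      exact absurd hg (ha v p hv q hq g)
    · obtain ⟨v, hv⟩ := (g8c_mem_un _).1 hp
      obtain ⟨w, hw⟩ := (g8c_mem_un _).1 hq
      obtain ⟨g, hg⟩ := (Fr.dn_eq p q).1 h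
      exact (hx'.2 v w p hv q hw g hg).2
  have e1 : ∏ p ∈ Fr.sys.un x ∪ Fr.sys.un x', Fr.sys.N p =
      ∏ P ∈ (Fr.sys.un x ∪ Fr.sys.un x').image Fr.dn, nrm P := by
    rw [Finset.prod_image hinj]
    exact Finset.prod_congr rfl fun p hp => Fr.N_eq p (hrg p hp)
  have e2 : {P : HeightOneSpectrum (𝓞 k) | P ∉ Fr.S ∧ ρ (T.tau P) ≠ 1} =
      (((Fr.sys.un x ∪ Fr.sys.un x').image Fr.dn : Finset (HeightOneSpectrum (𝓞 k))) :
        Set (HeightOneSpectrum (𝓞 k))) := by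
    ext P
    rw [Set.mem_ofPred_eq, Finset.mem_coe, Finset.mem_image]
    constructor
    · rintro ⟨hP, hP1⟩
      by_contra hne
      push Not at hne
      exact hP1 (h3 P hP
        (fun v p hp => hne p (Finset.mem_union_left _ ((g8c_mem_un _).2 ⟨v, hp⟩)))
        (fun v p hp => hne p (Finset.mem_union_right _ ((g8c_mem_un _).2 ⟨v, hp⟩))))
    · rintro ⟨p, hp, rfl⟩
      refine ⟨Fr.dn_not p, ?_⟩
      rcases Finset.mem_union.1 hp with hp | hp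
      · obtain ⟨v, hv⟩ := (g8c_mem_un _).1 hp
        exact h1 v p hv
      · obtain ⟨v, hv⟩ := (g8c_mem_un _).1 hp
        exact h2 v p hv
  rw [e1]
  unfold nO
  rw [e2, finprod_mem_coe_finset]

variable {G : Type} [Group G] (C : Cd l G)

/-- the norms of the ramified primes of a homomorphism with given data -/
private theorem g8c_nO' (h4b : SG4b Fr) {R : Finset (VV l C.d)} {RZ : Finset (VV l C.n)}
    (hR : Fr.sys.Rep R) (hRZ : Fr.sys.Rep RZ) {ρ0 : Gm k →* G} (hu : Unr T Fr.S ρ0)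
    {y : Fin C.d → Fin Fr.U → ZMod l} {x : R → Finset Fr.sys.P} {c0 : Gm k → VV l C.n}
    (hz0 : ∀ P, P ∉ Fr.S → (∀ v : R, ∀ p ∈ x v, Fr.dn p ≠ P) → c0 (T.tau P) = 0)
    {u : Fin C.n → Fin Fr.U → ZMod l} {z : Fr.sys.P →₀ VV l C.n} {x' : RZ → Finset Fr.sys.P}
    (hx : Fr.sys.Gd x) (hx' : Fr.sys.Gd x') (haw : Fr.sys.Awy (Fr.sys.un x) x')
    (hsp : z.support ⊆ Fr.sys.un x) {ρ : Gm k →* G}
    (hval : ∀ σ, ρ σ = C.nn (Fr.aa R y x σ) (c0 σ + Fr.cz RZ u z x' σ) * ρ0 σ) :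
    nO T Fr.S ρ = (∏ u, Fr.sys.nm (x u)) * (∏ u, Fr.sys.nm (x' u)) := by
  have hv2 : ∀ P, P ∉ Fr.S → (∀ v : R, ∀ p ∈ x v, Fr.dn p ≠ P) →
      ρ (T.tau P) = C.nn 0 (Fr.aa RZ u x' (T.tau P)) := by
    intro P hP hPx
    rw [hval, hu _ hP, mul_one, (h4b C.d R hR y x hx).2.1 P hP hPx, hz0 P hP hPx, zero_add,
      g8c_cz Fr RZ u x' hP]
    intro p hp
    obtain ⟨v, hv⟩ := (g8c_mem_un _).1 (hsp hp)
    exact ⟨hx.1 v p hv, hPx v p hv⟩
  refine g8c_nO Fr hx hx' haw ?_ ?_ ?_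
  · intro v p hp
    obtain ⟨t, ht, hta⟩ := (h4b C.d R hR y x hx).1 v p hp
    rw [hval, hu _ (Fr.dn_not p), mul_one]
    refine g8c_nn_ne C (Or.inl ?_)
    rw [hta]
    exact smul_ne_zero ht fun h => hR.nz (h ▸ v.2)
  · intro v p hp
    obtain ⟨t, ht, hta⟩ := (h4b C.n RZ hRZ u x' hx').1 v p hp
    rw [hv2 _ (Fr.dn_not p), hta]
    · exact g8c_nn_ne C (Or.inr (smul_ne_zero ht fun h => hRZ.nz (h ▸ v.2)))
    · intro w q hq h
      obtain ⟨g, hg⟩ := (Fr.dn_eq p q).1 h.symm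
      exact haw v p hp q ((g8c_mem_un _).2 ⟨w, hq⟩) g hg
  · intro P hP hP1 hP2
    rw [hv2 P hP hP1, (h4b C.n RZ hRZ u x' hx').2.1 P hP hP2, g8c_nn_zero]

/-- twisting a lift by a homomorphism -/
private theorem g8c_lft {R : Finset (VV l C.d)} {ρ0 : Gm k →* G}
    {y : Fin C.d → Fin Fr.U → ZMod l} {x : R → Finset Fr.sys.P} {c0 : Gm k → VV l C.n}
    (h : Lft C Fr R ρ0 y x c0) {b : Gm k → VV l C.n} (hb : ∀ i, Hm fun σ => b σ i) :
    Lft C Fr R ρ0 y x (fun σ => c0 σ + b σ) := by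
  have hlb : IsLocallyConstant b := by
    refine (IsLocallyConstant.iff_eventually_eq b).2 fun σ => ?_
    have h1 : ∀ᶠ τ in 𝓝 σ, ∀ i, b τ i = b σ i :=
      eventually_all.2 fun i => (IsLocallyConstant.iff_eventually_eq _).1 (hb i).lc σ
    exact h1.mono fun τ hτ => funext hτ
  refine ⟨h.1.comp₂ hlb fun x y => x + y, ?_⟩
  intro σ hσ τ hτ
  have hbm : b (σ * τ) = b σ + b τ := funext fun i => (hb i).add σ τ
  show c0 (σ * τ) + b (σ * τ) = (c0 σ + b σ) + (c0 τ + b τ) +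
      (2 : ZMod l)⁻¹ • C.Bd.B (Fr.aa R y x σ) (Fr.aa R y x τ) + C.bp (ρ0 σ) (Fr.aa R y x τ)
  rw [h.2 σ hσ τ hτ, hbm]
  abel

/-- the data of a homomorphism -/
private theorem g8c_data (h4 : SG4 Fr) (h4b : SG4b Fr) (h5 : SG5 Fr) (h6 : SG6 k C)
    (h7 : SG7 C Fr) (h8a : SG8a C Fr) {R : Finset (VV l C.d)} {RZ : Finset (VV l C.n)}
    (hR : Fr.sys.Rep R) (hRZ : Fr.sys.Rep RZ) (hC : Ctn Fr.S (Nat.card G)) {ρ0 : Gm k →* G}
    (h0 : IsLocallyConstant ρ0) (hu : Unr T Fr.S ρ0)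
    (c0 : (Fin C.d → Fin Fr.U → ZMod l) → (R → Finset Fr.sys.P) → Gm k → VV l C.n)
    (hc0 : ∀ y x, Fr.sys.Gd x → (∃ c, Lft C Fr R ρ0 y x c) → Lft C Fr R ρ0 y x (c0 y x) ∧
      ∀ P, P ∉ Fr.S → (∀ v : R, ∀ p ∈ x v, Fr.dn p ≠ P) → c0 y x (T.tau P) = 0)
    {H : (Gm k →* G) → Prop} {ρ : Gm k →* G} {Y : ℝ} (hρ : ρ ∈ HS C T ρ0 H Fr.S Y) :
    ∃ (y : Fin C.d → Fin Fr.U → ZMod l) (x : R → Finset Fr.sys.P)
      (u : Fin C.n → Fin Fr.U → ZMod l) (z : Fr.sys.P →₀ VV l C.n)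
      (x' : RZ → Finset Fr.sys.P),
      (Fr.sys.Gd x ∧ Fr.sys.okc C.Bd R (Fr.oc C ρ0 y) x ∧
        Fr.gen C ρ0 R y (Fr.sys.pat x)) ∧ (∃ c, Lft C Fr R ρ0 y x c) ∧
      (Fr.sys.Gd x' ∧ Fr.sys.Awy (Fr.sys.un x) x') ∧ z.support ⊆ Fr.sys.un x ∧
      (((∏ u, Fr.sys.nm (x u)) * ∏ u, Fr.sys.nm (x' u) : ℕ) : ℝ) ≤ Y ∧
      ∀ σ, ρ σ = C.nn (Fr.aa R y x σ) (c0 y x σ + Fr.cz RZ u z x' σ) * ρ0 σ := by
  classical
  obtain ⟨hlc, hsur, hcg, hns, hnO⟩ := hρ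
  obtain ⟨a, c, ha, hc, hco, hval⟩ := (h6 ρ ρ0 h0).1 ⟨hlc, hcg⟩
  obtain ⟨y, x, hx, hax, -⟩ := (h4 C.d R hR).2 a ha
  obtain rfl : a = Fr.aa R y x := funext hax
  have hL : Lft C Fr R ρ0 y x c := ⟨hc, hco⟩
  obtain ⟨hL0, hz0⟩ := hc0 y x hx ⟨c, hL⟩
  have hd : ∀ i, Hm fun σ => (fun σ => c σ - c0 y x σ) σ i := by
    intro i
    refine ⟨?_, ?_⟩
    · exact (hc.sub hL0.1).comp (fun v : VV l C.n => v i)
    · intro σ τ
      have e1 := hco σ (Subgroup.mem_top _) τ (Subgroup.mem_top _)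
      have e2 := hL0.2 σ (Subgroup.mem_top _) τ (Subgroup.mem_top _)
      show (c (σ * τ) - c0 y x (σ * τ)) i = (c σ - c0 y x σ) i + (c τ - c0 y x τ) i
      rw [e1, e2]
      simp only [Pi.sub_apply, Pi.add_apply]
      ring
  obtain ⟨u, z, x', hx', haw, hsp, hcz, -⟩ :=
    (h5 C.n RZ hRZ (Fr.sys.un x) (g8c_gd_un _ hx)).2 (fun σ => c σ - c0 y x σ) hd
  have hval' : ∀ σ, ρ σ = C.nn (Fr.aa R y x σ) (c0 y x σ + Fr.cz RZ u z x' σ) * ρ0 σ := by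
    intro σ
    have e1 : c σ - c0 y x σ = Fr.cz RZ u z x' σ := hcz σ
    rw [hval σ, ← e1, add_sub_cancel]
  refine ⟨y, x, u, z, x', ⟨hx, ?_, ?_⟩, ⟨c, hL⟩, ⟨hx', haw⟩, hsp, ?_, hval'⟩
  · exact ((h7 R hR hC ρ0 h0 hu y x hx).1 ⟨c, hc, hco⟩).2
  · exact (h8a R hR ρ0 ρ h0 hlc hu y x c hx hval).1 hsur
  · rw [← g8c_nO' Fr C h4b hR hRZ hu hz0 hx hx' haw hsp hval']
    exact hnO

end

/-- G8c: the number of homomorphisms satisfying a local condition -/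
theorem sg8c {k : Type} [Field k] [NumberField k] {l : ℕ} [Fact l.Prime] {T : TM k}
    {G : Type} [Group G] (_hl : l ≠ 2) (_hG : Nl l G) (C : Cd l G) (Fr : FrI k l T.tau T.phi)
    (h4 : SG4 Fr) (h4b : SG4b Fr) (h5 : SG5 Fr) (h6 : SG6 k C) (h6b : SG6b k C)
    (h7 : SG7 C Fr) (h8a : SG8a C Fr) (h8r : SG8r C Fr) (h8g : SG8g C Fr) : SG8c C Fr := by
  classical
  intro R RZ hR hRZ hC ρ0 h0 hu H hH
  have hch : ∀ (y : Fin C.d → Fin Fr.U → ZMod l) (x : R → Finset Fr.sys.P),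
      ∃ c0 : Gm k → VV l C.n, Fr.sys.Gd x → (∃ c, Lft C Fr R ρ0 y x c) →
        Lft C Fr R ρ0 y x c0 ∧
          ∀ P, P ∉ Fr.S → (∀ v : R, ∀ p ∈ x v, Fr.dn p ≠ P) → c0 (T.tau P) = 0 := by
    intro y x
    by_cases h : Fr.sys.Gd x ∧ ∃ c, Lft C Fr R ρ0 y x c
    · obtain ⟨c, hc⟩ := h8r R hR hC ρ0 h0 hu y x h.1 h.2
      exact ⟨c, fun _ _ => hc⟩
    · exact ⟨0, fun h1 h2 => absurd ⟨h1, h2⟩ h⟩
  choose c0 hc0 using hch
  obtain ⟨g, θ, hg1, hg2, hg3, hg4, hg5, hg6⟩ := h8g R hR hC ρ0 h0 hu H hH c0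
    (fun y x hx hL => (hc0 y x hx hL).1)
  refine ⟨g, θ, hg1, hg2, hg3, hg4, fun Y hY => ?_⟩
  -- the homomorphism of the data
  have hex : ∀ (y : Fin C.d → Fin Fr.U → ZMod l) (x : R → Finset Fr.sys.P)
      (b : Gm k → VV l C.n), Fr.sys.Gd x → (∃ c, Lft C Fr R ρ0 y x c) →
      (∀ i, Hm fun σ => b σ i) → ∃ ρ : Gm k →* G, IsLocallyConstant ρ ∧
        ∀ σ, ρ σ = C.nn (Fr.aa R y x σ) (c0 y x σ + b σ) * ρ0 σ := by
    intro y x b hx hL hb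
    have h1 := g8c_lft Fr C (hc0 y x hx hL).1 hb
    exact h6b ρ0 (Fr.aa R y x) _ h0 ((h4 C.d R hR).1 y x hx) h1.1 h1.2
  let Ψ : (y : Fin C.d → Fin Fr.U → ZMod l) → (x : R → Finset Fr.sys.P) →
      (Gm k → VV l C.n) → (Gm k →* G) := fun y x b =>
    if h : ∃ ρ : Gm k →* G, IsLocallyConstant ρ ∧
      ∀ σ, ρ σ = C.nn (Fr.aa R y x σ) (c0 y x σ + b σ) * ρ0 σ then h.choose else 1
  have hΨ : ∀ (y : Fin C.d → Fin Fr.U → ZMod l) (x : R → Finset Fr.sys.P)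
      (b : Gm k → VV l C.n), Fr.sys.Gd x → (∃ c, Lft C Fr R ρ0 y x c) →
      (∀ i, Hm fun σ => b σ i) → IsLocallyConstant (Ψ y x b) ∧
        ∀ σ, Ψ y x b σ = C.nn (Fr.aa R y x σ) (c0 y x σ + b σ) * ρ0 σ := by
    intro y x b hx hL hb
    have h1 := hex y x b hx hL hb
    have h2 : Ψ y x b = h1.choose := dif_pos h1
    rw [h2]
    exact h1.choose_spec
  have hcz : ∀ (x : R → Finset Fr.sys.P) (u : Fin C.n → Fin Fr.U → ZMod l)
      (z : Fr.sys.P →₀ VV l C.n) (x' : RZ → Finset Fr.sys.P), Fr.sys.Gd x → Fr.sys.Gd x' →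
      z.support ⊆ Fr.sys.un x → ∀ i, Hm fun σ => Fr.cz RZ u z x' σ i :=
    fun x u z x' hx hx' hz =>
      (h5 C.n RZ hRZ (Fr.sys.un x) (g8c_gd_un _ hx)).1 u z x' hx' hz
  -- the finite set of the data
  let D2 : (R → Finset Fr.sys.P) → Finset (RZ → Finset Fr.sys.P) := fun x =>
    (Fintype.piFinset (fun _ : RZ =>
      Fr.sys.bx (Y / (∏ u, Fr.sys.nm (x u) : ℕ)))).filter fun x' =>
        Fr.sys.Gd x' ∧ Fr.sys.Awy (Fr.sys.un x) x' ∧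
          ((∏ u, Fr.sys.nm (x' u) : ℕ) : ℝ) ≤ Y / (∏ u, Fr.sys.nm (x u) : ℕ)
  let D1 : (Fin C.d → Fin Fr.U → ZMod l) → Finset (R → Finset Fr.sys.P) := fun y =>
    (Fintype.piFinset (fun _ : R => Fr.sys.bx Y)).filter fun x =>
      Fr.sys.Gd x ∧ Fr.sys.Off ∅ x ∧ Fr.sys.okc C.Bd R (Fr.oc C ρ0 y) x ∧
        Fr.gen C ρ0 R y (Fr.sys.pat x) ∧ ((∏ u, Fr.sys.nm (x u) : ℕ) : ℝ) ≤ Y
  let D0 : (y : Fin C.d → Fin Fr.U → ZMod l) → (x : R → Finset Fr.sys.P) →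
      (z : Fr.sys.P →₀ VV l C.n) → (x' : RZ → Finset Fr.sys.P) →
      Finset (Fin C.n → Fin Fr.U → ZMod l) := fun y x z x' =>
    Finset.univ.filter fun u => (∃ c, Lft C Fr R ρ0 y x c) ∧ H (Ψ y x (Fr.cz RZ u z x'))
  let D : Finset (Σ _ : Fin C.d → Fin Fr.U → ZMod l, Σ _ : R → Finset Fr.sys.P,
      Σ _ : Fr.sys.P →₀ VV l C.n, Σ _ : RZ → Finset Fr.sys.P, Fin C.n → Fin Fr.U → ZMod l) :=
    (Finset.univ : Finset (Fin C.d → Fin Fr.U → ZMod l)).sigma fun y => (D1 y).sigma fun x =>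
      (Fr.sys.asg C.n (Fr.sys.un x)).sigma fun z => (D2 x).sigma fun x' => D0 y x z x'
  let Φ : (Σ _ : Fin C.d → Fin Fr.U → ZMod l, Σ _ : R → Finset Fr.sys.P,
      Σ _ : Fr.sys.P →₀ VV l C.n, Σ _ : RZ → Finset Fr.sys.P,
      Fin C.n → Fin Fr.U → ZMod l) → (Gm k →* G) := fun w =>
    Ψ w.1 w.2.1 (Fr.cz RZ w.2.2.2.2 w.2.2.1 w.2.2.2.1)
  have hmem : ∀ w, w ∈ D ↔ (w.2.1 ∈ D1 w.1 ∧ w.2.2.1 ∈ Fr.sys.asg C.n (Fr.sys.un w.2.1) ∧
      w.2.2.2.1 ∈ D2 w.2.1 ∧ w.2.2.2.2 ∈ D0 w.1 w.2.1 w.2.2.1 w.2.2.2.1) := by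
    intro w
    simp only [D, Finset.mem_sigma, Finset.mem_univ, true_and]
  have hasg : ∀ (x : R → Finset Fr.sys.P) (z : Fr.sys.P →₀ VV l C.n),
      z ∈ Fr.sys.asg C.n (Fr.sys.un x) ↔ z.support ⊆ Fr.sys.un x := by
    intro x z
    constructor
    · intro h
      exact (Finset.mem_finsupp_iff.1 h).1
    · intro h
      exact Finset.mem_finsupp_iff.2 ⟨h, fun _ _ => Finset.mem_univ _⟩
  have hinj : Set.InjOn Φ (D : Set _) := by
    rintro ⟨y1, x1, z1, x1', u1⟩ hw1 ⟨y2, x2, z2, x2', u2⟩ hw2 h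
    obtain ⟨a1, b1, c1, d1⟩ := (hmem _).1 (Finset.mem_coe.1 hw1)
    obtain ⟨a2, b2, c2, d2⟩ := (hmem _).1 (Finset.mem_coe.1 hw2)
    dsimp only at a1 b1 c1 d1 a2 b2 c2 d2
    have g1 := (Finset.mem_filter.1 a1).2.1
    have g2 := (Finset.mem_filter.1 a2).2.1
    have e1 := (hasg _ _).1 b1
    have e2 := (hasg _ _).1 b2
    have f1 := (Finset.mem_filter.1 c1).2
    have f2 := (Finset.mem_filter.1 c2).2
    have l1 := (Finset.mem_filter.1 d1).2.1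
    have l2 := (Finset.mem_filter.1 d2).2.1
    have v1 := (hΨ y1 x1 _ g1 l1 (hcz x1 u1 z1 x1' g1 f1.1 e1)).2
    have v2 := (hΨ y2 x2 _ g2 l2 (hcz x2 u2 z2 x2' g2 f2.1 e2)).2
    have h' : Ψ y1 x1 (Fr.cz RZ u1 z1 x1') = Ψ y2 x2 (Fr.cz RZ u2 z2 x2') := h
    have h3 : ∀ σ, Fr.aa R y1 x1 σ = Fr.aa R y2 x2 σ ∧
        c0 y1 x1 σ + Fr.cz RZ u1 z1 x1' σ = c0 y2 x2 σ + Fr.cz RZ u2 z2 x2' σ := by
      intro σ
      have h4 := congrArg (fun ρ : Gm k →* G => ρ σ) h'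
      simp only [v1 σ, v2 σ] at h4
      exact C.nn_inj _ _ _ _ (mul_right_cancel h4)
    obtain ⟨y, x, -, -, huniq⟩ := (h4 C.d R hR).2 (Fr.aa R y1 x1) ((h4 C.d R hR).1 y1 x1 g1)
    obtain ⟨hy1, hx1⟩ := huniq y1 x1 g1 fun σ => rfl
    obtain ⟨hy2, hx2⟩ := huniq y2 x2 g2 fun σ => (h3 σ).1
    have hy : y1 = y2 := hy1.trans hy2.symm
    have hx : x1 = x2 := hx1.trans hx2.symm
    subst hy hx
    obtain ⟨u, z, x', -, -, -, -, huniq'⟩ :=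
      (h5 C.n RZ hRZ (Fr.sys.un x1) (g8c_gd_un _ g1)).2 (Fr.cz RZ u1 z1 x1')
        (hcz _ u1 z1 x1' g1 f1.1 e1)
    obtain ⟨p1, p2, p3⟩ := huniq' u1 z1 x1' f1.1 f1.2.1 e1 fun σ => rfl
    obtain ⟨q1, q2, q3⟩ := huniq' u2 z2 x2' f2.1 f2.2.1 e2 fun σ => add_left_cancel (h3 σ).2
    rw [p1, p2, p3, q1, q2, q3]
  have hset : HS C T ρ0 H Fr.S Y = Φ '' (D : Set _) := by
    ext ρ
    constructor
    · intro hρ
      obtain ⟨y, x, u, z, x', ⟨hx, hok, hgen⟩, hL, ⟨hx', haw⟩, hsp, hnm, hval⟩ :=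
        g8c_data Fr C h4 h4b h5 h6 h7 h8a hR hRZ hC h0 hu c0 hc0 hρ
      have n1 : 1 ≤ ∏ u, Fr.sys.nm (x u) := Finset.one_le_prod' fun v _ => g8c_one_le_nm _ _
      have n2 : 1 ≤ ∏ u, Fr.sys.nm (x' u) := Finset.one_le_prod' fun v _ => g8c_one_le_nm _ _
      have m1 : ((∏ u, Fr.sys.nm (x u) : ℕ) : ℝ) ≤ Y := by
        refine le_trans ?_ hnm
        exact_mod_cast Nat.le_mul_of_pos_right _ n2
      have m2 : ((∏ u, Fr.sys.nm (x' u) : ℕ) : ℝ) ≤ Y / (∏ u, Fr.sys.nm (x u) : ℕ) := by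
        rw [le_div_iff₀ (by exact_mod_cast n1), mul_comm]
        exact_mod_cast hnm
      have hv := (hΨ y x _ hx hL (hcz x u z x' hx hx' hsp)).2
      have hρΨ : Ψ y x (Fr.cz RZ u z x') = ρ := by
        ext σ
        rw [hv σ, hval σ]
      refine ⟨⟨y, ⟨x, ⟨z, ⟨x', u⟩⟩⟩⟩, Finset.mem_coe.2 ((hmem _).2 ⟨?_, ?_, ?_, ?_⟩), hρΨ⟩
      · exact Finset.mem_filter.2 ⟨Fintype.mem_piFinset.2 (g8c_bx _ m1), hx,
          fun v => Finset.disjoint_empty_right _, hok, hgen, m1⟩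
      · exact (hasg _ _).2 hsp
      · exact Finset.mem_filter.2 ⟨Fintype.mem_piFinset.2 (g8c_bx _ m2), hx', haw, m2⟩
      · refine Finset.mem_filter.2 ⟨Finset.mem_univ _, hL, ?_⟩
        show H (Ψ y x (Fr.cz RZ u z x'))
        rw [hρΨ]
        exact hρ.2.2.2.1
    · rintro ⟨⟨y, x, z, x', u⟩, hw, rfl⟩
      obtain ⟨a, b, c, d⟩ := (hmem _).1 (Finset.mem_coe.1 hw)
      dsimp only at a b c d
      obtain ⟨hx, -, hok, hgen, hn1⟩ := (Finset.mem_filter.1 a).2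
      obtain ⟨hx', haw, hn2⟩ := (Finset.mem_filter.1 c).2
      obtain ⟨hL, hHΨ⟩ := (Finset.mem_filter.1 d).2
      have hsp := (hasg _ _).1 b
      have hczm := hcz x u z x' hx hx' hsp
      obtain ⟨hlc, hval⟩ := hΨ y x _ hx hL hczm
      obtain ⟨hL0, hz0⟩ := hc0 y x hx hL
      have hLc := g8c_lft Fr C hL0 hczm
      show Ψ y x (Fr.cz RZ u z x') ∈ HS C T ρ0 H Fr.S Y
      refine ⟨hlc, ?_, ?_, hHΨ, ?_⟩
      · exact (h8a R hR ρ0 _ h0 hlc hu y x _ hx hval).2 hgen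
      · exact ((h6 _ ρ0 h0).2 ⟨Fr.aa R y x, _, (h4 C.d R hR).1 y x hx, hLc.1, hLc.2, hval⟩).2
      · have n1 : (0 : ℝ) < (∏ u, Fr.sys.nm (x u) : ℕ) := by
          exact_mod_cast Finset.one_le_prod' fun v _ => g8c_one_le_nm _ _
        rw [g8c_nO' Fr C h4b hR hRZ hu hz0 hx hx' haw hsp hval]
        rw [le_div_iff₀ n1, mul_comm] at hn2
        exact_mod_cast hn2
  refine ⟨hset ▸ (D.finite_toSet.image Φ), ?_⟩
  rw [hset, hinj.ncard_image, Set.ncard_coe_finset]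
  -- the number of twists by units
  have hU : ∀ (y : Fin C.d → Fin Fr.U → ZMod l) (x : R → Finset Fr.sys.P)
      (z : Fr.sys.P →₀ VV l C.n) (x' : RZ → Finset Fr.sys.P), Fr.sys.Gd x → Fr.sys.Gd x' →
      z.support ⊆ Fr.sys.un x → ((D0 y x z x').card : ℝ) =
        ((l : ℝ) ^ Fr.U) ^ C.n * g y x (Fr.sys.tz RZ z (fun v => Fr.sys.tys (x' v))) := by
    intro y x z x' hx hx' hsp
    by_cases hL : ∃ c, Lft C Fr R ρ0 y x c
    · have hb : ∀ u : Fin C.n → Fin Fr.U → ZMod l, ∀ i, Hm fun σ =>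
          (fun (σ : Gm k) (i : Fin C.n) => Fr.un (u i) σ +
            Fr.lam (Fr.sys.tz RZ z (fun v => Fr.sys.tys (x' v)) i) σ) σ i := by
        intro u i
        have h1 := Fr.un_hm (u i)
        have h2 := Fr.lam_hm (Fr.sys.tz RZ z (fun v => Fr.sys.tys (x' v)) i)
        refine ⟨h1.lc.comp₂ h2.lc fun x y => x + y, fun σ τ => ?_⟩
        show Fr.un (u i) (σ * τ) + Fr.lam _ (σ * τ) = (Fr.un (u i) σ + Fr.lam _ σ) +
          (Fr.un (u i) τ + Fr.lam _ τ)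
        rw [h1.add, h2.add]
        exact add_add_add_comm _ _ _ _
      have h3 : ∀ u : Fin C.n → Fin Fr.U → ZMod l, ∃ ρu : Gm k →* G, ∀ σ, ρu σ = C.nn (Fr.aa R y x σ) (c0 y x σ +
          fun i => Fr.un (u i) σ +
            Fr.lam (Fr.sys.tz RZ z (fun v => Fr.sys.tys (x' v)) i) σ) * ρ0 σ := by
        intro u
        obtain ⟨ρu, -, h⟩ := hex y x _ hx hL (hb u)
        exact ⟨ρu, h⟩
      choose ρu hρu using h3
      rw [mul_comm, ← hg6 y x _ hx hL ρu hρu]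
      congr 2
      ext u
      simp only [D0, Finset.mem_filter, Finset.mem_univ, true_and]
      have hv := (hΨ y x _ hx hL (hcz x u z x' hx hx' hsp)).2
      have hloc : ∀ P ∈ Fr.S, ∀ σ ∈ Dec P, Ψ y x (Fr.cz RZ u z x') σ = ρu u σ := by
        intro P hP σ hσ
        rw [hv σ, hρu u σ, g8c_loc Fr RZ u hP (fun p hp => ?_) hx'.1 hσ]
        obtain ⟨v, hv'⟩ := (g8c_mem_un _).1 (hsp hp)
        exact hx.1 v p hv'
      constructor
      · rintro ⟨-, h⟩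
        exact hH _ _ hloc h
      · intro h
        exact ⟨hL, hH _ _ (fun P hP σ hσ => (hloc P hP σ hσ).symm) h⟩
    · rw [hg5 y x _ (fun h => hL h.2), mul_zero]
      have h1 : D0 y x z x' = ∅ := by
        simp only [D0]
        exact Finset.filter_eq_empty_iff.2 fun u _ h => hL h.1
      rw [h1, Finset.card_empty, Nat.cast_zero]
  -- the number of data
  have hCC : ∀ (y : Fin C.d → Fin Fr.U → ZMod l) (x : R → Finset Fr.sys.P)
      (z : Fr.sys.P →₀ VV l C.n), Fr.sys.Gd x → z ∈ Fr.sys.asg C.n (Fr.sys.un x) →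
      ∑ x' ∈ D2 x, ((D0 y x z x').card : ℝ) = ((l : ℝ) ^ Fr.U) ^ C.n *
        Fr.sys.CC (Fr.sys.un x) (fun t : RZ → Fr.sys.T => g y x (Fr.sys.tz RZ z t))
          (Y / (∏ u, Fr.sys.nm (x u) : ℕ)) := by
    intro y x z hx hz
    unfold SysL.CC
    rw [Finset.mul_sum]
    simp only [D2]
    rw [Finset.sum_filter]
    refine Finset.sum_congr (congrArg (fun (i : DecidableEq RZ) => @Fintype.piFinset RZ i _ _
      (fun _ : RZ => Fr.sys.bx (Y / (∏ u, Fr.sys.nm (x u) : ℕ)))) (Subsingleton.elim _ _))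
      fun x' _ => ?_
    by_cases h : Fr.sys.Gd x' ∧ Fr.sys.Awy (Fr.sys.un x) x' ∧
          ((∏ u, Fr.sys.nm (x' u) : ℕ) : ℝ) ≤ Y / (∏ u, Fr.sys.nm (x u) : ℕ)
    · rw [if_pos h, if_pos h, hU y x z x' hx h.1 ((hasg _ _).1 hz)]
    · rw [if_neg h, if_neg h, mul_zero]
  have hNN : ∀ y : Fin C.d → Fin Fr.U → ZMod l,
      ((((D1 y).sigma fun x => (Fr.sys.asg C.n (Fr.sys.un x)).sigma fun z =>
        (D2 x).sigma fun x' => D0 y x z x').card : ℕ) : ℝ) = ((l : ℝ) ^ Fr.U) ^ C.n *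
          Fr.sys.NN C.Bd R RZ (Fr.oc C ρ0 y) ∅ (Fr.gen C ρ0 R y) (g y) Y := by
    intro y
    unfold SysL.NN
    rw [Finset.card_sigma, Nat.cast_sum, Finset.mul_sum]
    simp only [D1]
    rw [Finset.sum_filter]
    refine Finset.sum_congr rfl fun x _ => ?_
    by_cases h : Fr.sys.Gd x ∧ Fr.sys.Off ∅ x ∧ Fr.sys.okc C.Bd R (Fr.oc C ρ0 y) x ∧
        Fr.gen C ρ0 R y (Fr.sys.pat x) ∧ ((∏ u, Fr.sys.nm (x u) : ℕ) : ℝ) ≤ Y
    · rw [if_pos h, if_pos h, Finset.card_sigma, Nat.cast_sum, Finset.mul_sum]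
      refine Finset.sum_congr rfl fun z hz => ?_
      rw [Finset.card_sigma, Nat.cast_sum]
      exact hCC y x z h.1 hz
    · rw [if_neg h, if_neg h, mul_zero]
  rw [Finset.card_sigma, Nat.cast_sum, Finset.mul_sum]
  exact Finset.sum_congr rfl fun y _ => hNN y

end Pool.Agent.H92.EL
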