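import Pool.Agent.H92.EL.GStm

/-!
# Project T4 (MP_a3214d), block (D), G8g: the number of twists by units satisfying a local
condition
-/

set_option autoImplicit false
set_option linter.unusedSectionVars false

open scoped BigOperators Topology
open NumberField IsDedekindDomain Filter

namespace Pool.Agent.H92.EL

open Pool.Agent.H98.MF (Gm Dec nrm rdN fld)
open SysL (VV BD)

section

variable {k : Type} [Field k] [NumberField k] {l : ℕ} [Fact l.Prime] {T : TM k}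

private theorem g8g_hm_add {h h' : Gm k → ZMod l} (a : Hm h) (b : Hm h') :
    Hm fun σ => h σ + h' σ := by
  refine ⟨a.lc.add b.lc, fun σ τ => ?_⟩
  rw [a.add, b.add]
  ring

private theorem g8g_hm_mul (c : ZMod l) {h : Gm k → ZMod l} (a : Hm h) :
    Hm fun σ => c * h σ := by
  refine ⟨a.lc.comp (fun x => c * x), fun σ τ => ?_⟩
  rw [a.add]
  ring

private theorem g8g_hm_zero : Hm (fun _ : Gm k => (0 : ZMod l)) :=
  ⟨IsLocallyConstant.const 0, fun _ _ => by rw [add_zero]⟩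

private theorem g8g_hm_sum {ι : Type} (s : Finset ι) (h : ι → Gm k → ZMod l)
    (a : ∀ i ∈ s, Hm (h i)) : Hm fun σ => ∑ i ∈ s, h i σ := by
  classical
  induction s using Finset.induction_on with
  | empty => simpa using g8g_hm_zero (k := k) (l := l)
  | insert i s hi ih =>
    have e : (fun σ => ∑ j ∈ insert i s, h j σ) = fun σ => h i σ + ∑ j ∈ s, h j σ := by
      funext σ
      rw [Finset.sum_insert hi]
    rw [e]
    exact g8g_hm_add (a i (Finset.mem_insert_self _ _))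
      (ih fun j hj => a j (Finset.mem_insert_of_mem hj))

private theorem g8g_aa_hm (Fr : FrI k l T.tau T.phi) {d : ℕ} (R : Finset (VV l d))
    (y : Fin d → Fin Fr.U → ZMod l) (x : R → Finset Fr.sys.P) (hx : Fr.sys.Gd x) (i : Fin d) :
    Hm fun σ => Fr.aa R y x σ i := by
  refine g8g_hm_add (Fr.un_hm (y i)) (g8g_hm_sum _ _ fun v _ => g8g_hm_mul _ ?_)
  exact g8g_hm_sum _ _ fun p hp => Fr.al_hm p (hx.1 v p hp)

private theorem g8g_lam_zero (Fr : FrI k l T.tau T.phi) (P : HeightOneSpectrum (𝓞 k))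
    (hP : P ∈ Fr.S) (σ : Gm k) (hσ : σ ∈ Dec P) : Fr.lam 0 σ = 0 := by
  have h := Fr.lam_add 0 0 P hP σ hσ
  rw [add_zero] at h
  simpa using h

private theorem g8g_lam_sum (Fr : FrI k l T.tau T.phi) (P : HeightOneSpectrum (𝓞 k))
    (hP : P ∈ Fr.S) (σ : Gm k) (hσ : σ ∈ Dec P) (s : Finset Fr.sys.P)
    (hs : ∀ p ∈ s, Fr.sys.rg p) : ∑ p ∈ s, Fr.al p σ = Fr.lam (Fr.sys.tys s) σ := by
  classical
  induction s using Finset.induction_on with
  | empty =>
    rw [Finset.sum_empty, SysL.tys, Finset.sum_empty, g8g_lam_zero Fr P hP σ hσ]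
  | insert p s hp ih =>
    have e : Fr.sys.tys (insert p s) = Fr.sys.ty p + Fr.sys.tys s := Finset.sum_insert hp
    rw [Finset.sum_insert hp, ih fun q hq => hs q (Finset.mem_insert_of_mem hq), e,
      Fr.lam_add _ _ P hP σ hσ, Fr.al_loc p (hs p (Finset.mem_insert_self _ _)) P hP σ hσ]

private theorem g8g_aa_loc (Fr : FrI k l T.tau T.phi) {d : ℕ} (R : Finset (VV l d))
    (y : Fin d → Fin Fr.U → ZMod l) (x x' : R → Finset Fr.sys.P) (hx : Fr.sys.Gd x)
    (hx' : Fr.sys.Gd x') (ht : ∀ v, Fr.sys.tys (x v) = Fr.sys.tys (x' v))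
    (P : HeightOneSpectrum (𝓞 k)) (hP : P ∈ Fr.S) (σ : Gm k) (hσ : σ ∈ Dec P) :
    Fr.aa R y x σ = Fr.aa R y x' σ := by
  funext i
  show Fr.un (y i) σ + _ = Fr.un (y i) σ + _
  congr 1
  refine Finset.sum_congr rfl fun v _ => ?_
  rw [g8g_lam_sum Fr P hP σ hσ (x v) (hx.1 v), g8g_lam_sum Fr P hP σ hσ (x' v) (hx'.1 v), ht]

private theorem g8g_un_zero (Fr : FrI k l T.tau T.phi) (σ : Gm k) : Fr.un 0 σ = 0 := by
  have h := Fr.un_add 0 0 σ
  rw [add_zero] at h
  simpa using h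

variable {G : Type} [Group G] (C : Cd l G)

private theorem g8g_nn : C.nn 0 0 = 1 := by
  have h := C.nn_mul 0 0 0 0
  rw [map_zero, smul_zero, add_zero, add_zero, add_zero] at h
  exact mul_eq_left.1 h

private theorem g8g_bp (g : G) : C.bp g 0 = 0 := by
  have h := C.bp_add g 0 0
  rw [add_zero] at h
  simpa using h

/-- twisting a cochain by homomorphisms -/
private theorem g8g_coc (D : Subgroup (Gm k)) (ρ0 : Gm k →* G) (a : Gm k → VV l C.d)
    (c : Gm k → VV l C.n) (h : Gm k → VV l C.n) (hc : Coc C D ρ0 a c)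
    (hh : ∀ σ τ, h (σ * τ) = h σ + h τ) : Coc C D ρ0 a (fun σ => c σ + h σ) := by
  intro σ hσ τ hτ
  show c (σ * τ) + h (σ * τ) = (c σ + h σ) + (c τ + h τ) + _ + _
  rw [hc σ hσ τ hτ, hh]
  abel

private theorem g8g_lc (c h : Gm k → VV l C.n) (hc : IsLocallyConstant c)
    (hh : ∀ i, IsLocallyConstant fun σ => h σ i) : IsLocallyConstant fun σ => c σ + h σ := by
  refine hc.add ?_
  rw [IsLocallyConstant.iff_continuous]
  exact continuous_pi fun i => (hh i).continuous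

/-- the twisted homomorphisms exist -/
private theorem g8g_ex (Fr : FrI k l T.tau T.phi) (h6b : SG6b k C) (R : Finset (VV l C.d))
    (ρ0 : Gm k →* G) (hρ0 : IsLocallyConstant ρ0) (y : Fin C.d → Fin Fr.U → ZMod l)
    (x : R → Finset Fr.sys.P) (hx : Fr.sys.Gd x) (c : Gm k → VV l C.n)
    (hc : Lft C Fr R ρ0 y x c) (u : Fin C.n → Fin Fr.U → ZMod l) (t : Fin C.n → Fr.sys.T) :
    ∃ ρ : Gm k →* G, ∀ σ, ρ σ = C.nn (Fr.aa R y x σ)
        (c σ + fun i => Fr.un (u i) σ + Fr.lam (t i) σ) * ρ0 σ := by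
  have hh : ∀ i, Hm fun σ => Fr.un (u i) σ + Fr.lam (t i) σ := fun i =>
    g8g_hm_add (Fr.un_hm (u i)) (Fr.lam_hm (t i))
  obtain ⟨ρ, _, hρ⟩ := h6b ρ0 (Fr.aa R y x)
    (fun σ => c σ + fun i => Fr.un (u i) σ + Fr.lam (t i) σ) hρ0
    (g8g_aa_hm Fr R y x hx)
    (g8g_lc C c (fun σ i => Fr.un (u i) σ + Fr.lam (t i) σ) hc.1 fun i => (hh i).lc)
    (g8g_coc C ⊤ ρ0 _ c (fun σ i => Fr.un (u i) σ + Fr.lam (t i) σ) hc.2 fun σ τ => by
      funext i
      exact (hh i).add σ τ)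
  exact ⟨ρ, hρ⟩

/-- the twisted homomorphism satisfies the condition -/
private def g8A (Fr : FrI k l T.tau T.phi) (R : Finset (VV l C.d)) (ρ0 : Gm k →* G)
    (H : (Gm k →* G) → Prop)
    (c0 : (Fin C.d → Fin Fr.U → ZMod l) → (R → Finset Fr.sys.P) → Gm k → VV l C.n)
    (y : Fin C.d → Fin Fr.U → ZMod l) (x : R → Finset Fr.sys.P) (t : Fin C.n → Fr.sys.T)
    (u : Fin C.n → Fin Fr.U → ZMod l) : Prop :=
  ∃ ρ : Gm k →* G, (∀ σ, ρ σ = C.nn (Fr.aa R y x σ)
        (c0 y x σ + fun i => Fr.un (u i) σ + Fr.lam (t i) σ) * ρ0 σ) ∧ H ρ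

open Classical in
/-- the proportion -/
private noncomputable def g8G (Fr : FrI k l T.tau T.phi) (R : Finset (VV l C.d))
    (ρ0 : Gm k →* G) (H : (Gm k →* G) → Prop)
    (c0 : (Fin C.d → Fin Fr.U → ZMod l) → (R → Finset Fr.sys.P) → Gm k → VV l C.n)
    (y : Fin C.d → Fin Fr.U → ZMod l) (x : R → Finset Fr.sys.P) (t : Fin C.n → Fr.sys.T) : ℝ :=
  if Fr.sys.Gd x ∧ ∃ c, Lft C Fr R ρ0 y x c then
    ((Finset.univ.filter fun u => g8A C Fr R ρ0 H c0 y x t u).card : ℝ) /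
      ((l : ℝ) ^ Fr.U) ^ C.n
  else 0

open Classical in
/-- the mean -/
private noncomputable def g8Th (Fr : FrI k l T.tau T.phi) (R : Finset (VV l C.d))
    (ρ0 : Gm k →* G) (H : (Gm k →* G) → Prop)
    (c0 : (Fin C.d → Fin Fr.U → ZMod l) → (R → Finset Fr.sys.P) → Gm k → VV l C.n)
    (y : Fin C.d → Fin Fr.U → ZMod l) (w : R → Fr.sys.T) : ℝ :=
  if h : ∃ x : R → Finset Fr.sys.P, Fr.sys.Gd x ∧ Fr.sys.okc C.Bd R (Fr.oc C ρ0 y) x ∧
      (fun v => Fr.sys.tys (x v)) = w then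
    (1 / ((l : ℝ) ^ Fr.sys.m) ^ C.n) * ∑ t : Fin C.n → Fr.sys.T, g8G C Fr R ρ0 H c0 y h.choose t
  else 0

theorem sg8g (Fr : FrI k l T.tau T.phi) (h7 : SG7 C Fr) (h6b : SG6b k C) : SG8g C Fr := by
  classical
  intro R hR hS ρ0 hρ0 hun H hH c0 hc0
  have hl : (0 : ℝ) < l := by exact_mod_cast (Fact.out : l.Prime).pos
  have hlU : (0 : ℝ) < ((l : ℝ) ^ Fr.U) ^ C.n := by positivity
  have hlm : (0 : ℝ) < ((l : ℝ) ^ Fr.sys.m) ^ C.n := by positivity
  have hcard : (Fintype.card (Fin C.n → Fin Fr.U → ZMod l) : ℝ) = ((l : ℝ) ^ Fr.U) ^ C.n := by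
    rw [Fintype.card_fun, Fintype.card_fun, ZMod.card, Fintype.card_fin, Fintype.card_fin]
    push_cast
    rfl
  have hg0 : ∀ y x t, 0 ≤ g8G C Fr R ρ0 H c0 y x t := by
    intro y x t
    unfold g8G
    split_ifs
    · positivity
    · exact le_rfl
  have hg1 : ∀ y x t, g8G C Fr R ρ0 H c0 y x t ≤ 1 := by
    intro y x t
    unfold g8G
    split_ifs
    · rw [div_le_one hlU, ← hcard]
      exact_mod_cast Finset.card_le_univ _
    · exact zero_le_one
  -- the mean depends only on the types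
  have hmean : ∀ y x x', Fr.sys.Gd x → Fr.sys.Gd x' → Fr.sys.okc C.Bd R (Fr.oc C ρ0 y) x →
      Fr.sys.okc C.Bd R (Fr.oc C ρ0 y) x' →
      (∀ v, Fr.sys.tys (x v) = Fr.sys.tys (x' v)) →
      ∑ t : Fin C.n → Fr.sys.T, g8G C Fr R ρ0 H c0 y x t =
        ∑ t : Fin C.n → Fr.sys.T, g8G C Fr R ρ0 H c0 y x' t := by
    intro y x x' hx hx' hok hok' ht
    have haa := g8g_aa_loc Fr R y x x' hx hx' ht
    have hcoc : ∀ P ∈ Fr.S, ∀ c, Coc C (Dec P) ρ0 (Fr.aa R y x) c ↔
        Coc C (Dec P) ρ0 (Fr.aa R y x') c := by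
      intro P hP c
      constructor
      · intro h σ hσ τ hτ
        rw [← haa P hP σ hσ, ← haa P hP τ hτ]
        exact h σ hσ τ hτ
      · intro h σ hσ τ hτ
        rw [haa P hP σ hσ, haa P hP τ hτ]
        exact h σ hσ τ hτ
    have hlift : (∃ c, Lft C Fr R ρ0 y x c) ↔ ∃ c, Lft C Fr R ρ0 y x' c := by
      have e1 := h7 R hR hS ρ0 hρ0 hun y x hx
      have e2 := h7 R hR hS ρ0 hρ0 hun y x' hx'
      show (∃ c, IsLocallyConstant c ∧ Coc C ⊤ ρ0 (Fr.aa R y x) c) ↔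
        ∃ c, IsLocallyConstant c ∧ Coc C ⊤ ρ0 (Fr.aa R y x') c
      rw [e1, e2]
      constructor
      · rintro ⟨h, _⟩
        refine ⟨fun P hP => ?_, hok'⟩
        obtain ⟨c, h1, h2⟩ := h P hP
        exact ⟨c, h1, (hcoc P hP c).1 h2⟩
      · rintro ⟨h, _⟩
        refine ⟨fun P hP => ?_, hok⟩
        obtain ⟨c, h1, h2⟩ := h P hP
        exact ⟨c, h1, (hcoc P hP c).2 h2⟩
    by_cases hl1 : ∃ c, Lft C Fr R ρ0 y x c
    · have hl2 := hlift.1 hl1
      have hc := hc0 y x hx hl1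
      have hc' := hc0 y x' hx' hl2
      have hloc : ∀ i : Fin C.n, ∃ (w : Fin Fr.U → ZMod l) (t : Fr.sys.T), ∀ P ∈ Fr.S,
          ∀ σ ∈ Dec P, c0 y x σ i - c0 y x' σ i = Fr.un w σ + Fr.lam t σ := by
        intro i
        refine Fr.loc_ex (fun _ σ => c0 y x σ i - c0 y x' σ i) fun P hP => ⟨?_, ?_⟩
        · exact (hc.1.comp fun v : VV l C.n => v i).sub (hc'.1.comp fun v : VV l C.n => v i)
        · intro σ hσ τ hτ
          have e1 := congrFun (hc.2 σ trivial τ trivial) i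
          have e2 := congrFun (hc'.2 σ trivial τ trivial) i
          rw [← haa P hP σ hσ, ← haa P hP τ hτ] at e2
          simp only [Pi.add_apply] at e1 e2
          rw [e1, e2]
          ring
      choose u' t' hut using hloc
      have hA : ∀ t u, g8A C Fr R ρ0 H c0 y x t u ↔
          g8A C Fr R ρ0 H c0 y x' (t' + t) (u' + u) := by
        intro t u
        obtain ⟨ρ1, hρ1⟩ := g8g_ex C Fr h6b R ρ0 hρ0 y x hx _ hc u t
        obtain ⟨ρ2, hρ2⟩ := g8g_ex C Fr h6b R ρ0 hρ0 y x' hx' _ hc' (u' + u) (t' + t)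
        have hag : ∀ P ∈ Fr.S, ∀ σ ∈ Dec P, ρ1 σ = ρ2 σ := by
          intro P hP σ hσ
          rw [hρ1, hρ2, haa P hP σ hσ]
          congr 2
          funext i
          have e3 := hut i P hP σ hσ
          simp only [Pi.add_apply]
          rw [Fr.un_add, Fr.lam_add _ _ P hP σ hσ]
          linear_combination e3
        constructor
        · rintro ⟨ρ, h1, h2⟩
          have e : ρ = ρ1 := MonoidHom.ext fun σ => by rw [h1, hρ1]
          rw [e] at h2
          exact ⟨ρ2, hρ2, hH ρ1 ρ2 hag h2⟩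
        · rintro ⟨ρ, h1, h2⟩
          have e : ρ = ρ2 := MonoidHom.ext fun σ => by rw [h1, hρ2]
          rw [e] at h2
          exact ⟨ρ1, hρ1, hH ρ2 ρ1 (fun P hP σ hσ => (hag P hP σ hσ).symm) h2⟩
      have hgt : ∀ t, g8G C Fr R ρ0 H c0 y x t = g8G C Fr R ρ0 H c0 y x' (t' + t) := by
        intro t
        unfold g8G
        rw [if_pos ⟨hx, hl1⟩, if_pos ⟨hx', hl2⟩]
        congr 2
        refine Finset.card_bij (fun u _ => u' + u) ?_ ?_ ?_
        · intro u hu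
          rw [Finset.mem_filter] at hu ⊢
          exact ⟨Finset.mem_univ _, (hA t u).1 hu.2⟩
        · intro a _ b _ hab
          exact add_left_cancel hab
        · intro b hb
          rw [Finset.mem_filter] at hb
          refine ⟨-u' + b, ?_, by abel⟩
          rw [Finset.mem_filter]
          refine ⟨Finset.mem_univ _, (hA t _).2 ?_⟩
          rw [add_neg_cancel_left]
          exact hb.2
      rw [Finset.sum_congr rfl fun t _ => hgt t]
      exact Equiv.sum_comp (Equiv.addLeft t') (fun t => g8G C Fr R ρ0 H c0 y x' t)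
    · have hl2 : ¬ ∃ c, Lft C Fr R ρ0 y x' c := fun h => hl1 (hlift.2 h)
      refine Finset.sum_congr rfl fun t _ => ?_
      unfold g8G
      rw [if_neg (fun h => hl1 h.2), if_neg (fun h => hl2 h.2)]
  have hmean2 : ∀ y x, Fr.sys.Gd x → Fr.sys.okc C.Bd R (Fr.oc C ρ0 y) x →
      (1 / ((l : ℝ) ^ Fr.sys.m) ^ C.n) * ∑ t : Fin C.n → Fr.sys.T, g8G C Fr R ρ0 H c0 y x t =
        g8Th C Fr R ρ0 H c0 y (fun v => Fr.sys.tys (x v)) := by
    intro y x hx hok
    have hex : ∃ x' : R → Finset Fr.sys.P, Fr.sys.Gd x' ∧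
        Fr.sys.okc C.Bd R (Fr.oc C ρ0 y) x' ∧
        (fun v => Fr.sys.tys (x' v)) = fun v => Fr.sys.tys (x v) := ⟨x, hx, hok, rfl⟩
    unfold g8Th
    rw [dif_pos hex]
    obtain ⟨h1, h2, h3⟩ := hex.choose_spec
    rw [hmean y x _ hx h1 hok h2 fun v => (congrFun h3 v).symm]
  refine ⟨g8G C Fr R ρ0 H c0, g8Th C Fr R ρ0 H c0, fun y x t => ⟨hg0 y x t, hg1 y x t⟩, ?_,
    hmean2, ?_, ?_, ?_⟩
  · intro y w
    unfold g8Th
    split_ifs
    · exact mul_nonneg (by positivity) (Finset.sum_nonneg fun t _ => hg0 _ _ _)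
    · exact le_rfl
  · intro hH0
    have hx : Fr.sys.Gd (fun _ : R => (∅ : Finset Fr.sys.P)) :=
      ⟨fun u p hp => absurd hp (Finset.notMem_empty _),
        fun u v p hp => absurd hp (Finset.notMem_empty _)⟩
    have hok : Fr.sys.okc C.Bd R (Fr.oc C ρ0 0) (fun _ : R => (∅ : Finset Fr.sys.P)) :=
      fun v p hp => absurd hp (Finset.notMem_empty _)
    have e0 := hmean2 0 _ hx hok
    have e1 : (fun v : R => Fr.sys.tys ((fun _ : R => (∅ : Finset Fr.sys.P)) v)) =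
        fun _ => 0 := by
      funext v
      show ∑ p ∈ (∅ : Finset Fr.sys.P), Fr.sys.ty p = 0
      rw [Finset.sum_empty]
    rw [e1] at e0
    rw [← e0]
    have haa : ∀ σ, Fr.aa R 0 (fun _ : R => (∅ : Finset Fr.sys.P)) σ = 0 := by
      intro σ
      funext i
      show Fr.un ((0 : Fin C.d → Fin Fr.U → ZMod l) i) σ + ∑ v : R, (v : VV l C.d) i *
        ∑ p ∈ (∅ : Finset Fr.sys.P), Fr.al p σ = 0
      rw [Pi.zero_apply, g8g_un_zero]
      simp
    have hlft : ∃ c, Lft C Fr R ρ0 0 (fun _ : R => (∅ : Finset Fr.sys.P)) c := by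
      refine ⟨fun _ => 0, IsLocallyConstant.const 0, fun σ _ τ _ => ?_⟩
      rw [haa, haa, g8g_bp, map_zero, smul_zero]
      simp
    have hc := hc0 0 _ hx hlft
    have hloc : ∀ i : Fin C.n, ∃ (w : Fin Fr.U → ZMod l) (t : Fr.sys.T), ∀ P ∈ Fr.S,
        ∀ σ ∈ Dec P, -(c0 0 (fun _ : R => (∅ : Finset Fr.sys.P)) σ i) =
          Fr.un w σ + Fr.lam t σ := by
      intro i
      refine Fr.loc_ex (fun _ σ => -(c0 0 (fun _ : R => (∅ : Finset Fr.sys.P)) σ i))
        fun P hP => ⟨?_, ?_⟩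
      · exact hc.1.comp fun v : VV l C.n => -(v i)
      · intro σ hσ τ hτ
        have e2 := congrFun (hc.2 σ trivial τ trivial) i
        rw [haa, haa, g8g_bp, map_zero, smul_zero] at e2
        simp only [Pi.add_apply, Pi.zero_apply] at e2
        rw [e2]
        ring
    choose u t hut using hloc
    obtain ⟨ρ, hρ⟩ := g8g_ex C Fr h6b R ρ0 hρ0 0 _ hx _ hc u t
    have hag : ∀ P ∈ Fr.S, ∀ σ ∈ Dec P, ρ0 σ = ρ σ := by
      intro P hP σ hσ
      have e2 : (c0 0 (fun _ : R => (∅ : Finset Fr.sys.P)) σ +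
          fun i => Fr.un (u i) σ + Fr.lam (t i) σ) = 0 := by
        funext i
        have e3 := hut i P hP σ hσ
        simp only [Pi.add_apply, Pi.zero_apply]
        linear_combination -e3
      rw [hρ, haa, e2, g8g_nn, one_mul]
    have hAu : g8A C Fr R ρ0 H c0 0 (fun _ : R => (∅ : Finset Fr.sys.P)) t u :=
      ⟨ρ, hρ, hH ρ0 ρ hag hH0⟩
    refine mul_pos (by positivity) (lt_of_lt_of_le ?_
      (Finset.single_le_sum (fun t _ => hg0 _ _ _) (Finset.mem_univ t)))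
    unfold g8G
    rw [if_pos ⟨hx, hlft⟩]
    refine div_pos ?_ hlU
    have : 0 < (Finset.univ.filter fun u =>
        g8A C Fr R ρ0 H c0 0 (fun _ : R => (∅ : Finset Fr.sys.P)) t u).card :=
      Finset.card_pos.2 ⟨u, Finset.mem_filter.2 ⟨Finset.mem_univ _, hAu⟩⟩
    exact_mod_cast this
  · intro y x t h
    unfold g8G
    rw [if_neg h]
  · intro y x t hx hlift ρu hρu
    unfold g8G
    rw [if_pos ⟨hx, hlift⟩, div_mul_cancel₀ _ hlU.ne']
    congr 2
    refine Finset.filter_congr fun u _ => ?_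
    constructor
    · intro h
      exact ⟨ρu u, hρu u, h⟩
    · rintro ⟨ρ, h1, h2⟩
      have e : ρ = ρu u := MonoidHom.ext fun σ => by rw [h1, hρu]
      rwa [e] at h2

end

end Pool.Agent.H92.EL
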