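import Pool.Agent.H92.EL.GStm

/-!
# Project T4 (MP_a3214d), row G8r: lifts unramified outside `S` and the primes of `x`
-/

set_option autoImplicit false

open scoped BigOperators Topology
open NumberField IsDedekindDomain Filter

namespace Pool.Agent.H92.EL

open Pool.Agent.H98.MF (Gm Dec nrm rdN fld)
open SysL (VV BD)

section

variable {l : ℕ} [Fact l.Prime] {G : Type} [Group G] (C : Cd l G)

private theorem g8r_mul (z y : VV l C.n) : C.nn 0 z * C.nn 0 y = C.nn 0 (z + y) := by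
  rw [C.nn_mul, map_zero, smul_zero, add_zero, add_zero]

private theorem g8r_one : C.nn 0 0 = 1 := by
  have h := g8r_mul C 0 0
  rw [add_zero] at h
  exact mul_eq_left.1 h

private theorem g8r_pow (z : VV l C.n) (m : ℕ) : C.nn 0 z ^ m = C.nn 0 ((m : ZMod l) • z) := by
  induction m with
  | zero => rw [pow_zero, Nat.cast_zero, zero_smul, g8r_one]
  | succ m ih => rw [pow_succ, ih, g8r_mul, Nat.cast_succ, add_smul, one_smul]

private theorem g8r_conj (g : G) (z : VV l C.n) : g * C.nn 0 z * g⁻¹ = C.nn 0 z := by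
  have h1 : C.bp g 0 = 0 := by
    have h := C.bp_add g 0 0
    rw [add_zero] at h
    exact left_eq_add.1 h
  rw [C.bp_conj, h1, add_zero]

private theorem g8r_ne {z : VV l C.n} {g : G} {m : ℕ}
    (h : g * C.nn 0 z * g⁻¹ = C.nn 0 z ^ m) (hz : z ≠ 0) : (m : ZMod l) = 1 := by
  rw [g8r_conj, g8r_pow] at h
  have h1 := (C.nn_inj _ _ _ _ h).2
  have h2 : ((m : ZMod l) - 1) • z = 0 := by
    rw [sub_smul, one_smul, ← h1, sub_self]
  rcases smul_eq_zero.1 h2 with h3 | h3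
  · exact sub_eq_zero.1 h3
  · exact absurd h3 hz

end

section

variable {k : Type} [Field k] [NumberField k] {l : ℕ} [Fact l.Prime]
  {tau phi : HeightOneSpectrum (𝓞 k) → Gm k} (Fr : FrI k l tau phi)

private theorem g8r_sum {k : Type} [Field k] [NumberField k] {l : ℕ} {ι : Type} (s : Finset ι)
    (f : ι → Gm k → ZMod l) (h : ∀ i ∈ s, Hm (f i)) : Hm fun σ => ∑ i ∈ s, f i σ := by
  classical
  induction s using Finset.induction_on with
  | empty =>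
    exact ⟨IsLocallyConstant.const 0, fun _ _ => by simp only [Finset.sum_empty, add_zero]⟩
  | insert j s hj ih =>
    have h1 := ih fun i hi => h i (Finset.mem_insert_of_mem hi)
    have h2 := h j (Finset.mem_insert_self j s)
    simp only [Finset.sum_insert hj]
    refine ⟨h2.lc.comp₂ h1.lc fun x y => x + y, fun σ τ => ?_⟩
    show f j (σ * τ) + ∑ i ∈ s, f i (σ * τ) = (f j σ + ∑ i ∈ s, f i σ) + (f j τ + ∑ i ∈ s, f i τ)
    rw [h2.add, h1.add]
    exact add_add_add_comm _ _ _ _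

private theorem g8r_hm {d : ℕ} (R : Finset (VV l d)) (y : Fin d → Fin Fr.U → ZMod l)
    (x : R → Finset Fr.sys.P) (hx : Fr.sys.Gd x) (i : Fin d) :
    Hm fun σ => Fr.aa R y x σ i := by
  have h1 : Hm fun σ => ∑ v : R, (v : VV l d) i * ∑ p ∈ x v, Fr.al p σ := by
    refine g8r_sum _ (fun (v : R) σ => (v : VV l d) i * ∑ p ∈ x v, Fr.al p σ) fun v _ => ?_
    have h2 : Hm fun σ => ∑ p ∈ x v, Fr.al p σ :=
      g8r_sum _ _ fun p hp => Fr.al_hm p (hx.1 v p hp)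
    refine ⟨h2.lc.comp fun t => (v : VV l d) i * t, fun σ τ => ?_⟩
    show (v : VV l d) i * ∑ p ∈ x v, Fr.al p (σ * τ) = _
    rw [h2.add, mul_add]
  have h3 := Fr.un_hm (y i)
  refine ⟨h3.lc.comp₂ h1.lc fun x y => x + y, fun σ τ => ?_⟩
  show Fr.un (y i) (σ * τ) + ∑ v : R, (v : VV l d) i * ∑ p ∈ x v, Fr.al p (σ * τ) =
    (Fr.un (y i) σ + ∑ v : R, (v : VV l d) i * ∑ p ∈ x v, Fr.al p σ) +
    (Fr.un (y i) τ + ∑ v : R, (v : VV l d) i * ∑ p ∈ x v, Fr.al p τ)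
  rw [h3.add, h1.add]
  exact add_add_add_comm _ _ _ _

/-- a homomorphism ramified at one prime with given value -/
private theorem g8r_one_prime {n : ℕ} (P : HeightOneSpectrum (𝓞 k)) (hP : P ∉ Fr.S)
    (hN : ((nrm P : ℕ) : ZMod l) = 1) (z : VV l n) :
    ∃ b : Gm k → VV l n, IsLocallyConstant b ∧ (∀ σ τ, b (σ * τ) = b σ + b τ) ∧
      b (tau P) = z ∧ ∀ Q, Q ∉ Fr.S → Q ≠ P → b (tau Q) = 0 := by
  obtain ⟨p, hp, hpP⟩ := (Fr.dn_ex P hP).2 hN
  obtain ⟨g, hg⟩ := (Fr.dn_eq (Fr.bs (Fr.dn p)) p).1 (Fr.bs_dn p)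
  have h1 := Fr.al_self p hp g hg
  have h2 : Fr.kt (Fr.dn p) * (Fr.sys.e g : ZMod l) ≠ 0 :=
    mul_ne_zero (Fr.kt_ne _) (Units.ne_zero _)
  rw [← h1, hpP] at h2
  refine ⟨fun σ => (Fr.al p σ * (Fr.al p (tau P))⁻¹) • z, ?_, fun σ τ => ?_, ?_, fun Q hQ hQP => ?_⟩
  · exact (Fr.al_hm p hp).lc.comp fun t : ZMod l => (t * (Fr.al p (tau P))⁻¹) • z
  · show (Fr.al p (σ * τ) * (Fr.al p (tau P))⁻¹) • z = _
    rw [(Fr.al_hm p hp).add σ τ, add_mul, add_smul]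
  · show (Fr.al p (tau P) * (Fr.al p (tau P))⁻¹) • z = z
    rw [mul_inv_cancel₀ h2, one_smul]
  · show (Fr.al p (tau Q) * (Fr.al p (tau P))⁻¹) • z = 0
    rw [Fr.al_tau p hp Q hQ (by rw [hpP]; exact hQP), zero_mul, zero_smul]

/-- a homomorphism with given values at finitely many tame generators -/
private theorem g8r_hom {n : ℕ} (F : Finset (HeightOneSpectrum (𝓞 k)))
    (hF : ∀ P ∈ F, P ∉ Fr.S ∧ ((nrm P : ℕ) : ZMod l) = 1)
    (z : HeightOneSpectrum (𝓞 k) → VV l n) :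
    ∃ b : Gm k → VV l n, IsLocallyConstant b ∧ (∀ σ τ, b (σ * τ) = b σ + b τ) ∧
      (∀ P ∈ F, b (tau P) = z P) ∧ ∀ Q, Q ∉ Fr.S → Q ∉ F → b (tau Q) = 0 := by
  classical
  induction F using Finset.induction_on with
  | empty =>
    refine ⟨fun _ => 0, IsLocallyConstant.const 0, fun _ _ => (add_zero _).symm, ?_,
      fun _ _ _ => rfl⟩
    intro P hP
    exact absurd hP (Finset.notMem_empty P)
  | insert P F hPF ih =>
    obtain ⟨b, h1, h2, h3, h4⟩ := ih fun Q hQ => hF Q (Finset.mem_insert_of_mem hQ)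
    obtain ⟨hPS, hPN⟩ := hF P (Finset.mem_insert_self P F)
    obtain ⟨b', h1', h2', h3', h4'⟩ := g8r_one_prime Fr (n := n) P hPS hPN (z P)
    refine ⟨fun σ => b σ + b' σ, h1.comp₂ h1' fun x y => x + y, fun σ τ => ?_, fun Q hQ => ?_,
      fun Q hQS hQF => ?_⟩
    · show b (σ * τ) + b' (σ * τ) = (b σ + b' σ) + (b τ + b' τ)
      rw [h2, h2']
      exact add_add_add_comm _ _ _ _
    · show b (tau Q) + b' (tau Q) = z Q
      rcases Finset.mem_insert.1 hQ with h | h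
      · rw [h, h4 P hPS hPF, h3', zero_add]
      · have hne : Q ≠ P := fun h0 => hPF (h0 ▸ h)
        rw [h3 Q h, h4' Q (hF Q hQ).1 hne, add_zero]
    · show b (tau Q) + b' (tau Q) = 0
      rw [h4 Q hQS fun h => hQF (Finset.mem_insert_of_mem h),
        h4' Q hQS fun h => hQF (h ▸ Finset.mem_insert_self P F), add_zero]

end

/-- G8r: lifts unramified outside `S` and the primes of `x` -/
theorem sg8r {k : Type} [Field k] [NumberField k] {l : ℕ} [Fact l.Prime] {T : TM k}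
    {G : Type} [Group G] (hG : Nl l G) (C : Cd l G) (Fr : FrI k l T.tau T.phi) (_h5 : SG5 Fr)
    (h4b : SG4b Fr) (h6b : SG6b k C) (hR : RelT k T.tau T.phi) (hF : FinT k T.tau) :
    SG8r C Fr := by
  classical
  intro R hRep hS ρ0 h0 hu y x hx hex
  obtain ⟨c1, hc1, hco⟩ := hex
  have hfin : Finite G := hG.fin
  have ha : ∀ i, Hm fun σ => Fr.aa R y x σ i := fun i => g8r_hm Fr R y x hx i
  obtain ⟨ρ1, hl1, hρ1⟩ := h6b ρ0 _ c1 h0 ha hc1 hco
  have hval : ∀ P, P ∉ Fr.S → (∀ v : R, ∀ p ∈ x v, Fr.dn p ≠ P) →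
      ρ1 (T.tau P) = C.nn 0 (c1 (T.tau P)) := by
    intro P hP hn
    rw [hρ1, (h4b C.d R hRep y x hx).2.1 P hP hn, hu P hP, mul_one]
  have hfin1 : {P | P ∉ Fr.S ∧ (∀ v : R, ∀ p ∈ x v, Fr.dn p ≠ P) ∧ c1 (T.tau P) ≠ 0}.Finite := by
    refine (hF G ρ1 hl1).subset ?_
    rintro P ⟨h1, h2, h3⟩ h5
    rw [hval P h1 h2, ← g8r_one C] at h5
    exact h3 (C.nn_inj _ _ _ _ h5).2
  obtain ⟨b, hb1, hb2, hb3, hb4⟩ := g8r_hom Fr hfin1.toFinset (fun P hP => by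
    obtain ⟨h1, h2, h3⟩ := hfin1.mem_toFinset.1 hP
    refine ⟨h1, ?_⟩
    have h5 := hR G ρ1 hl1 P (hS P h1).symm
    rw [hval P h1 h2] at h5
    exact g8r_ne C h5 h3) (fun P => c1 (T.tau P))
  refine ⟨fun σ => c1 σ - b σ, ⟨hc1.comp₂ hb1 fun x y => x - y, ?_⟩, fun P hP hn => ?_⟩
  · intro σ hσ τ hτ
    show c1 (σ * τ) - b (σ * τ) = (c1 σ - b σ) + (c1 τ - b τ) +
      (2 : ZMod l)⁻¹ • C.Bd.B (Fr.aa R y x σ) (Fr.aa R y x τ) + C.bp (ρ0 σ) (Fr.aa R y x τ)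
    rw [hco σ hσ τ hτ, hb2]
    abel
  · show c1 (T.tau P) - b (T.tau P) = 0
    by_cases hc : c1 (T.tau P) = 0
    · rw [hc, hb4 P hP, sub_zero]
      intro h
      exact (hfin1.mem_toFinset.1 h).2.2 hc
    · rw [hb3 P (hfin1.mem_toFinset.2 ⟨hP, hn, hc⟩), sub_self]

end Pool.Agent.H92.EL
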