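import Pool.Agent.H92.EL.GStm

/-!
# Project T4 (MP_a3214d), homomorphisms for odd `l`: the asymptotic formula for a base
homomorphism unramified outside `S` (row G9)
-/

set_option autoImplicit false

open scoped BigOperators Topology
open NumberField IsDedekindDomain Filter

namespace Pool.Agent.H92.EL

open Pool.Agent.H98.MF (Gm Dec nrm rdN fld)
open SysL (VV BD)

section

variable {k : Type} [Field k] [NumberField k] {l : ℕ} [Fact l.Prime] {T : TM k}
  {G : Type} [Group G]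

private theorem g9_one (C : Cd l G) : C.nn 0 0 = 1 := by
  have h := C.nn_mul 0 0 0 0
  rw [map_zero, smul_zero] at h
  simp only [add_zero] at h
  exact mul_eq_left.1 h

private theorem g9_un (Fr : FrI k l T.tau T.phi) (σ : Gm k) : Fr.un 0 σ = 0 := by
  have h := Fr.un_add 0 0 σ
  rw [add_zero] at h
  exact left_eq_add.1 h

private theorem g9_gen (C : Cd l G) (Fr : FrI k l T.tau T.phi) (R : Finset (VV l C.d))
    (ρ0 : Gm k →* G) (hρ : Function.Surjective ρ0) (U : Finset R) : Fr.gen C ρ0 R 0 U := by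
  unfold FrI.gen
  rw [eq_top_iff]
  intro g _
  obtain ⟨σ, rfl⟩ := hρ g
  refine Subgroup.subset_closure (Or.inl (Or.inl ⟨σ, ?_⟩))
  have h1 : (fun i : Fin C.d => Fr.un ((0 : Fin C.d → Fin Fr.U → ZMod l) i) σ) = 0 := by
    funext i
    exact g9_un Fr σ
  rw [h1, g9_one, one_mul]

/-- the two sets of homomorphisms -/
private theorem g9_set (C : Cd l G) (Fr : FrI k l T.tau T.phi) (h6 : SG6 k C)
    (ρ0 : Gm k →* G) (hρ : IsLocallyConstant ρ0) (hU : Unr T Fr.S ρ0)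
    (H : (Gm k →* G) → Prop) (Y : ℝ) :
    HI T l ρ0 H Fr.S Y ⊆ HS C T ρ0 H Fr.S Y ∧
      HS C T ρ0 H Fr.S Y ⊆ HI T l ρ0 H Fr.S Y ∪
        HS C T ρ0 (fun ρ => ¬ Function.Surjective ρ) Fr.S Y := by
  constructor
  · rintro ρ ⟨⟨h1, h2⟩, h3, h4, -, h5⟩
    refine ⟨h2, ?_, h3, h4, h5⟩
    unfold Sur0
    rw [eq_top_iff]
    intro g _
    obtain ⟨σ, rfl⟩ := h1 g
    exact Subgroup.subset_closure (Or.inl ⟨σ, rfl⟩)
  · rintro ρ ⟨h1, h2, h3, h4, h5⟩
    by_cases hs : Function.Surjective ρ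
    · refine Or.inl ⟨⟨hs, h1⟩, h3, h4, ?_, h5⟩
      intro P hP
      obtain ⟨a, c, -, -, -, h6'⟩ := (h6 ρ ρ0 hρ).1 ⟨h1, h3⟩
      rw [h6' (T.tau P), hU P hP, mul_one]
      exact (C.nn_iff _).2 ⟨_, _, rfl⟩
    · exact Or.inr ⟨h1, h2, h3, hs, h5⟩

/-- G9 -/
theorem sg9 (hl : l ≠ 2) (hG : Nl l G) (C : Cd l G) (Fr : FrI k l T.tau T.phi)
    (h8b : SG8b C Fr) (h8c : SG8c C Fr) (h8d : SG8d C Fr) (h6 : SG6 k C) (hf : SFix)
    (he : SFixE) : SG9 C Fr := by
  have _ := hl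
  have _ := hG
  intro R RZ hR hRZ hS ρ0 hρ0 hU H hH
  obtain ⟨g, θ, hg, hθ, hgθ, hpos, hcnt⟩ := h8c R RZ hR hRZ hS ρ0 hρ0.2 hU H hH
  obtain ⟨g', θ', _, _, _, _, hcnt'⟩ := h8c R RZ hR hRZ hS ρ0 hρ0.2 hU (fun _ => True)
    (fun _ _ _ _ => trivial)
  have hnot := h8d R RZ hR hRZ hS ρ0 hρ0.2 hU
  set b : ℕ := C.bb R RZ - 1 with hb
  set N : ℝ → ℝ := fun Y => Y * Real.log Y ^ b with hN
  set K : ℝ := ((l : ℝ) ^ Fr.U) ^ C.n with hK
  have hK0 : 0 < K := by
    have : (0 : ℝ) < l := by exact_mod_cast (Fact.out : l.Prime).pos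
    positivity
  -- the terms
  have hy : ∀ y : Fin C.d → Fin Fr.U → ZMod l, ∃ L : ℝ, 0 ≤ L ∧
      Tendsto (fun Y : ℝ => Fr.sys.NN C.Bd R RZ (Fr.oc C ρ0 y) ∅ (Fr.gen C ρ0 R y) (g y) Y /
        N Y) atTop (𝓝 L) ∧
      (∀ z0 : RZ, Tendsto (fun Y : ℝ =>
        Fr.sys.NE C.Bd R RZ (Fr.oc C ρ0 y) (Fr.gen C ρ0 R y) z0 Y / N Y) atTop (𝓝 0)) ∧
      (y = 0 → H ρ0 → 0 < L) := by
    intro y
    obtain ⟨c, hc1, hc2, hc3, hc4⟩ := h8b R hR ρ0 hρ0.2 hU y
    by_cases hgen : ∃ U, Fr.gen C ρ0 R y U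
    · obtain ⟨hc5, hc6⟩ := hc4 hgen
      have hbe : b = Fr.sys.bV C.Bd R (Fr.sys.cT c) + RZ.card - 1 := by
        rw [hb, hc6]
        rfl
      obtain ⟨L, hL0, hL1, hL2⟩ := hf l Fr.sys C.d C.n C.Bd R RZ c (Fr.gen C ρ0 R y) (θ y)
        (g y) hR hRZ C.n_pos hc1 hc3 hc5 (fun x t => hg y x t) (fun t => hθ y t)
        (fun x hx hx' => hgθ y x hx (by rw [hc2]; exact hx'))
      have hE := he l Fr.sys C.d C.n C.Bd R RZ c (Fr.gen C ρ0 R y) hR hRZ C.n_pos hc1 hc3 hc5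
      rw [← hbe] at hL1
      refine ⟨L, hL0, ?_, ?_, ?_⟩
      · rw [hc2]
        exact hL1
      · intro z0
        have h := hE z0
        rw [← hbe] at h
        rw [hc2]
        exact h
      · intro hy0 hH0
        refine hL2 ⟨fun _ => ∅, ⟨?_, ?_⟩, ?_, ?_⟩
        · intro u p hp
          exact absurd hp (Finset.notMem_empty p)
        · intro u v p hp
          exact absurd hp (Finset.notMem_empty p)
        · intro v p hp
          exact absurd hp (Finset.notMem_empty p)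
        · have h := hpos hH0
          rw [hy0]
          have h1 : (fun _ : R => Fr.sys.tys ∅) = fun _ => (0 : Fr.sys.T) := by
            funext _
            exact Finset.sum_empty
          rw [h1]
          exact h
    · refine ⟨0, le_refl _, ?_, ?_, ?_⟩
      · have h0 : ∀ Y, Fr.sys.NN C.Bd R RZ (Fr.oc C ρ0 y) ∅ (Fr.gen C ρ0 R y) (g y) Y = 0 := by
          intro Y
          unfold SysL.NN
          refine Finset.sum_eq_zero fun x _ => ?_
          rw [if_neg]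
          rintro ⟨-, -, -, h, -⟩
          exact hgen ⟨_, h⟩
        simp only [h0, zero_div]
        exact tendsto_const_nhds
      · intro z0
        have h0 : ∀ Y, Fr.sys.NE C.Bd R RZ (Fr.oc C ρ0 y) (Fr.gen C ρ0 R y) z0 Y = 0 := by
          intro Y
          unfold SysL.NE
          refine Finset.sum_eq_zero fun x _ => ?_
          rw [if_neg]
          rintro ⟨-, -, h, -⟩
          exact hgen ⟨_, h⟩
        simp only [h0, zero_div]
        exact tendsto_const_nhds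
      · intro hy0 _
        exact absurd ⟨∅, by rw [hy0]; exact g9_gen C Fr R ρ0 hρ0.1 ∅⟩ hgen
  choose L hL0 hL1 hL2 hL3 using hy
  -- the limits
  have hA : Tendsto (fun Y : ℝ => K * ∑ y : Fin C.d → Fin Fr.U → ZMod l,
      Fr.sys.NN C.Bd R RZ (Fr.oc C ρ0 y) ∅ (Fr.gen C ρ0 R y) (g y) Y / N Y) atTop
      (𝓝 (K * ∑ y, L y)) :=
    (tendsto_finsetSum _ fun y _ => hL1 y).const_mul K
  have hE : Tendsto (fun Y : ℝ => K * ∑ y : Fin C.d → Fin Fr.U → ZMod l, ∑ z0 : RZ,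
      Fr.sys.NE C.Bd R RZ (Fr.oc C ρ0 y) (Fr.gen C ρ0 R y) z0 Y / N Y) atTop (𝓝 0) := by
    have h := (tendsto_finsetSum (Finset.univ : Finset (Fin C.d → Fin Fr.U → ZMod l))
      fun y _ => tendsto_finsetSum (Finset.univ : Finset RZ) fun z0 _ => hL2 y z0).const_mul K
    simpa using h
  have hlow : Tendsto (fun Y : ℝ => K * ∑ y : Fin C.d → Fin Fr.U → ZMod l,
      Fr.sys.NN C.Bd R RZ (Fr.oc C ρ0 y) ∅ (Fr.gen C ρ0 R y) (g y) Y / N Y -
      K * ∑ y : Fin C.d → Fin Fr.U → ZMod l, ∑ z0 : RZ,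
      Fr.sys.NE C.Bd R RZ (Fr.oc C ρ0 y) (Fr.gen C ρ0 R y) z0 Y / N Y) atTop
      (𝓝 (K * ∑ y, L y)) := by
    have h := hA.sub hE
    rwa [sub_zero] at h
  have hNpos : ∀ Y : ℝ, 2 ≤ Y → 0 < N Y := by
    intro Y hY
    have h1 : 0 < Real.log Y := Real.log_pos (by linarith)
    have h2 : (0 : ℝ) < Y := by linarith
    exact mul_pos h2 (pow_pos h1 b)
  have hcard : ∀ Y : ℝ, 2 ≤ Y →
      ((HI T l ρ0 H Fr.S Y).ncard : ℝ) ≤ ((HS C T ρ0 H Fr.S Y).ncard : ℝ) ∧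
      ((HS C T ρ0 H Fr.S Y).ncard : ℝ) ≤ ((HI T l ρ0 H Fr.S Y).ncard : ℝ) +
        ((HS C T ρ0 (fun ρ => ¬ Function.Surjective ρ) Fr.S Y).ncard : ℝ) := by
    intro Y hY
    obtain ⟨h1, h2⟩ := g9_set C Fr h6 ρ0 hρ0.2 hU H Y
    have hf1 := (hcnt Y (by linarith)).1
    have hf2 : (HS C T ρ0 (fun ρ => ¬ Function.Surjective ρ) Fr.S Y).Finite :=
      (hcnt' Y (by linarith)).1.subset fun ρ h => ⟨h.1, h.2.1, h.2.2.1, trivial, h.2.2.2.2⟩
    constructor
    · exact_mod_cast Set.ncard_le_ncard h1 hf1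
    · have h3 := Set.ncard_le_ncard h2 ((hf1.subset h1).union hf2)
      have h4 := Set.ncard_union_le (HI T l ρ0 H Fr.S Y)
        (HS C T ρ0 (fun ρ => ¬ Function.Surjective ρ) Fr.S Y)
      exact_mod_cast h3.trans h4
  refine ⟨K * ∑ y, L y, mul_nonneg hK0.le (Finset.sum_nonneg fun y _ => hL0 y), ?_, ?_⟩
  · refine tendsto_of_tendsto_of_tendsto_of_le_of_le' hlow hA ?_ ?_
    · filter_upwards [eventually_ge_atTop (2 : ℝ)] with Y hY
      have h1 := (hcard Y hY).2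
      have h2 := (hcnt Y (by linarith)).2
      have h3 := hnot Y (by linarith)
      have hNp := hNpos Y hY
      rw [← Finset.sum_div]
      simp only [← Finset.sum_div]
      rw [← mul_div_assoc, ← mul_div_assoc, ← sub_div]
      show _ ≤ _ / N Y
      rw [div_le_div_iff_of_pos_right hNp]
      rw [h2] at h1
      linarith
    · filter_upwards [eventually_ge_atTop (2 : ℝ)] with Y hY
      have h1 := (hcard Y hY).1
      have h2 := (hcnt Y (by linarith)).2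
      have hNp := hNpos Y hY
      rw [← Finset.sum_div, ← mul_div_assoc]
      show _ / N Y ≤ _
      rw [div_le_div_iff_of_pos_right hNp, ← h2]
      exact h1
  · intro hH0
    refine mul_pos hK0 ?_
    have h1 : L 0 ≤ ∑ y, L y := Finset.single_le_sum (f := L) (fun y _ => hL0 y)
      (Finset.mem_univ 0)
    exact lt_of_lt_of_le (hL3 0 rfl hH0) h1

end

end Pool.Agent.H92.EL
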