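import Pool.Agent.H92.EL.AAll
import Pool.Agent.H92.EL.BAll
import Pool.Agent.H92.EL.BK10
import Pool.Agent.H92.EL.C3f
import Pool.Agent.H92.EL.CAll
import Pool.Agent.H92.EL.GRel
import Pool.Agent.H92.EL.G1
import Pool.Agent.H92.EL.G4
import Pool.Agent.H92.EL.G4b
import Pool.Agent.H92.EL.G5
import Pool.Agent.H92.EL.G6
import Pool.Agent.H92.EL.G7
import Pool.Agent.H92.EL.G8a
import Pool.Agent.H92.EL.G8b
import Pool.Agent.H92.EL.G8c
import Pool.Agent.H92.EL.G8d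
import Pool.Agent.H92.EL.G8g
import Pool.Agent.H92.EL.G8r
import Pool.Agent.H92.EL.G9
import Pool.Agent.H92.EL.G10
import Pool.Agent.H92.EL.G12
import Pool.Agent.H92.EL.G13a
import Pool.Agent.H92.EL.G13b
import Pool.Agent.H92.EL.G13c
import Pool.Agent.H92.EL.G13d
import Pool.Agent.H92.EL.G13e
import Pool.Agent.H92.EL.G14
import Pool.Agent.H92.EL.DHer
import Pool.Agent.H92.EL.DLoc

/-!
# Project T4 (MP_a3214d): the inner statements for odd primes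
-/

set_option autoImplicit false

open scoped BigOperators Topology
open NumberField IsDedekindDomain Filter

namespace Pool.Agent.H92.EL

section

variable {k : Type} [Field k] [NumberField k] {l : ℕ} [Fact l.Prime] {T : TM k}
  {G : Type} [Group G]

theorem z_c3f : SC3f := sc3f x_c3g

theorem z_frI (hl : l ≠ 2) (T : TM k) : SFrI k l T.tau T.phi := y_frI z_c3f sk10 l hl k T

theorem z_hasK (hl : l ≠ 2) (T : TM k) : HasK k l T.tau T.phi := y_hasK z_c3f l hl k T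

theorem z_5 (Fr : FrI k l T.tau T.phi) : SG5 Fr := sg5 Fr (sg4 Fr) (sg4b Fr)

theorem z_7 (hl : l ≠ 2) (hG : Nl l G) (C : Cd l G) (Fr : FrI k l T.tau T.phi) : SG7 C Fr :=
  sg7 hl hG C Fr (sg4 Fr) (sg4b Fr) (sg6b k C) (z_hasK hl T) (relT T)

theorem z_8a (hG : Nl l G) (C : Cd l G) (Fr : FrI k l T.tau T.phi) : SG8a C Fr :=
  sg8a hG C Fr (sg4b Fr)

theorem z_8r (hG : Nl l G) (C : Cd l G) (Fr : FrI k l T.tau T.phi) : SG8r C Fr :=
  sg8r hG C Fr (z_5 Fr) (sg4b Fr) (sg6b k C) (relT T) (finT T)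

theorem z_8c (hl : l ≠ 2) (hG : Nl l G) (C : Cd l G) (Fr : FrI k l T.tau T.phi) : SG8c C Fr :=
  sg8c hl hG C Fr (sg4 Fr) (sg4b Fr) (z_5 Fr) (sg6 k C) (sg6b k C) (z_7 hl hG C Fr)
    (z_8a hG C Fr) (z_8r hG C Fr) (sg8g C Fr (z_7 hl hG C Fr) (sg6b k C))

theorem z_8d (hl : l ≠ 2) (hG : Nl l G) (C : Cd l G) (Fr : FrI k l T.tau T.phi) : SG8d C Fr :=
  sg8d hG C Fr (sg4 Fr) (sg4b Fr) (z_5 Fr) (sg6 k C) (sg6b k C) (z_7 hl hG C Fr)
    (z_8a hG C Fr) (z_8r hG C Fr)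

theorem z_9 (hl : l ≠ 2) (hG : Nl l G) (C : Cd l G) (Fr : FrI k l T.tau T.phi) : SG9 C Fr :=
  sg9 hl hG C Fr (sg8b C Fr) (z_8c hl hG C Fr) (z_8d hl hG C Fr) (sg6 k C) call_fix call_fixE

theorem z_out : SOut := sout (sher sbdT)

theorem z_13a (hG : Nl l G) (C : Cd l G) (Fr : FrI k l T.tau T.phi) : SG13a C Fr :=
  sg13a hG C Fr (sg4b Fr) (relT T) (finT T)

theorem z_13b (hl : l ≠ 2) (hG : Nl l G) (C : Cd l G) (Fr : FrI k l T.tau T.phi) :
    SG13b C Fr := sg13b hl hG C Fr (sg4 Fr) z_out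

theorem z_13c (hl : l ≠ 2) (hG : Nl l G) (C : Cd l G) (Fr : FrI k l T.tau T.phi) :
    SG13c C Fr := sg13c hl hG C Fr (sg4 Fr) (sg4b Fr)

theorem z_13d (hl : l ≠ 2) (hG : Nl l G) (C : Cd l G) (Fr : FrI k l T.tau T.phi) :
    SG13d C Fr := sg13d hl hG C Fr (sg4 Fr) (sg4b Fr) (relT T)

theorem z_13e (hl : l ≠ 2) (hG : Nl l G) (C : Cd l G) (Fr : FrI k l T.tau T.phi) :
    SG13e C Fr :=
  sg13e hl hG C Fr (sg4 Fr) (sg4b Fr) (z_5 Fr) (z_13a hG C Fr) (z_13d hl hG C Fr) (relT T)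
    (finT T)

end

/-- the inner statement for fixed data, odd primes -/
theorem odd_innF : SInnF :=
  sinnF (fun k _ _ l _ T G _ hl hG C Fr => z_9 hl hG C Fr)
    (fun k _ _ l _ T hl => z_frI hl T) sgCd
    (fun k _ _ l _ G _ hl hG C => sg10 hl hG k C sgCls)

/-- the uniform inner statement, odd primes -/
theorem odd_innU : SInnU :=
  sinnU (fun k _ _ l _ T G _ C Fr _ hG => z_13a hG C Fr)
    (fun k _ _ l _ T G _ C Fr hl hG => z_13b hl hG C Fr)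
    (fun k _ _ l _ T G _ C Fr hl hG => z_13c hl hG C Fr)
    (fun k _ _ l _ T G _ C Fr hl hG => z_13e hl hG C Fr)
    (fun k _ _ l _ T hl => z_frI hl T) sgCd
    (fun k _ _ l _ G _ C hl hG => sg10 hl hG k C sgCls) call_unf

/-- the inner statements for odd primes -/
theorem inn_odd (l : ℕ) (hp : l.Prime) (hl : l ≠ 2) : Inn l := inn_of odd_innF odd_innU l hp hl

end Pool.Agent.H92.EL
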