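import Pool.Agent.H92.EL.AStm
import Pool.Agent.H98.MF.L.ChiB
import Pool.Agent.H98.MF.L.KumA

/-!
# Project ELL (MP_a3214d), block A, row A1: Kummer theory
-/

set_option autoImplicit false

open scoped BigOperators Pointwise
open NumberField IsDedekindDomain Filter Topology

namespace Pool.Agent.H92.EL

open Pool.Agent.H98.MF (Om Gm ord Dec US PrS SUn mS nrm gen FixD)

section

variable {l : ℕ} {F : Type} [Field F]

/-- powers of a root of unity -/
noncomputable def kuz (w : F) (c : ZMod l) : F := w ^ c.val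

theorem kuz_zero (w : F) : kuz w (0 : ZMod l) = 1 := by
  unfold kuz
  rw [ZMod.val_zero, pow_zero]

theorem kuz_add [NeZero l] {w : F} (hw : w ^ l = 1) (c d : ZMod l) :
    kuz w (c + d) = kuz w c * kuz w d := by
  unfold kuz
  rw [ZMod.val_add, ← pow_add]
  exact (pow_eq_pow_mod _ hw).symm

theorem kuz_inj [NeZero l] {w : F} (hw : IsPrimitiveRoot w l) {c d : ZMod l}
    (h : kuz w c = kuz w d) : c = d :=
  ZMod.val_injective l (hw.pow_inj (ZMod.val_lt c) (ZMod.val_lt d) h)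

theorem kuz_neg [NeZero l] {w : F} (hw : w ^ l = 1) (c : ZMod l) :
    kuz w (-c) * kuz w c = 1 := by
  rw [← kuz_add hw, neg_add_cancel, kuz_zero]

theorem kuz_ne [NeZero l] {w : F} (hw : w ^ l = 1) (c : ZMod l) : kuz w c ≠ 0 := by
  intro h
  have h1 := kuz_neg hw c
  rw [h, mul_zero] at h1
  exact zero_ne_one h1

theorem kuz_pow [NeZero l] {w : F} (hw : w ^ l = 1) (c : ZMod l) : kuz w c ^ l = 1 := by
  unfold kuz
  rw [← pow_mul, mul_comm, pow_mul, hw, one_pow]

theorem kuz_ex [NeZero l] {w x : F} (hw : IsPrimitiveRoot w l) (hx : x ^ l = 1) :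
    ∃ i : ZMod l, x = kuz w i := by
  obtain ⟨i, hi, h⟩ := hw.eq_pow_of_pow_eq_one hx
  refine ⟨(i : ZMod l), ?_⟩
  unfold kuz
  rw [ZMod.val_natCast, Nat.mod_eq_of_lt hi, h]

theorem kuz_map {E : Type} [Field E] (f : F →+* E) (w : F) (c : ZMod l) :
    f (kuz w c) = kuz (f w) c := by
  unfold kuz
  rw [map_pow]

end

section

variable {l : ℕ} [NeZero l] {K : Type} [Field K] [NumberField K]

theorem ku_rt (a : K) : rt l a ^ l = algebraMap K (Om K) a := by
  have h : ∃ y : Om K, y ^ l = algebraMap K (Om K) a :=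
    IsAlgClosed.exists_pow_nat_eq _ (Nat.pos_of_ne_zero (NeZero.ne l))
  unfold rt
  rw [dif_pos h]
  exact h.choose_spec

theorem ku_ne {a : K} (ha : a ≠ 0) {y : Om K} (hy : y ^ l = algebraMap K (Om K) a) : y ≠ 0 := by
  rintro rfl
  rw [zero_pow (NeZero.ne l)] at hy
  exact (map_ne_zero (algebraMap K (Om K))).2 ha hy.symm

theorem ku_w {z : K} (hz : IsPrimitiveRoot z l) :
    IsPrimitiveRoot (algebraMap K (Om K) z) l := hz.map_of_injective (algebraMap K (Om K)).injective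

theorem ku_fix (z : K) (σ : Gm K) (c : ZMod l) :
    σ (kuz (algebraMap K (Om K) z) c) = kuz (algebraMap K (Om K) z) c := by
  unfold kuz
  rw [map_pow, σ.commutes]

theorem ku_two {z : K} (hz : IsPrimitiveRoot z l) {a : K} (ha : a ≠ 0) {x y : Om K}
    (hx : x ^ l = algebraMap K (Om K) a) (hy : y ^ l = algebraMap K (Om K) a) :
    ∃ i : ZMod l, y = kuz (algebraMap K (Om K) z) i * x := by
  have hx0 := ku_ne ha hx
  obtain ⟨i, hi⟩ := kuz_ex (ku_w hz) (x := y / x) (by
    rw [div_pow, hx, hy, div_self]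
    exact (map_ne_zero (algebraMap K (Om K))).2 ha)
  exact ⟨i, by rw [← hi, div_mul_cancel₀ _ hx0]⟩

theorem ku_spec {z : K} (hz : IsPrimitiveRoot z l) {a : K} (ha : a ≠ 0) (σ : Gm K) :
    σ (rt l a) = kuz (algebraMap K (Om K) z) (chl l z a σ) * rt l a := by
  have h : ∃ i : ZMod l, σ (rt l a) = algebraMap K (Om K) z ^ i.val * rt l a :=
    ku_two hz ha (ku_rt a) (by rw [← map_pow, ku_rt, σ.commutes])
  unfold kuz chl
  rw [dif_pos h]
  exact h.choose_spec

theorem ku_root {z : K} (hz : IsPrimitiveRoot z l) {a : K} (ha : a ≠ 0) {y : Om K}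
    (hy : y ^ l = algebraMap K (Om K) a) (σ : Gm K) :
    σ y = kuz (algebraMap K (Om K) z) (chl l z a σ) * y := by
  obtain ⟨j, rfl⟩ := ku_two hz ha (ku_rt a) hy
  rw [map_mul, ku_fix, ku_spec hz ha]
  ring

theorem ku_uniq {z : K} (hz : IsPrimitiveRoot z l) {a : K} (ha : a ≠ 0) {y : Om K}
    (hy : y ^ l = algebraMap K (Om K) a) (σ : Gm K) {i : ZMod l}
    (h : σ y = kuz (algebraMap K (Om K) z) i * y) : chl l z a σ = i := by
  rw [ku_root hz ha hy] at h
  exact kuz_inj (ku_w hz) (mul_right_cancel₀ (ku_ne ha hy) h)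

theorem ku_hom {z : K} (hz : IsPrimitiveRoot z l) {a : K} (ha : a ≠ 0) (σ τ : Gm K) :
    chl l z a (σ * τ) = chl l z a σ + chl l z a τ := by
  refine ku_uniq hz ha (ku_rt a) _ ?_
  rw [AlgEquiv.mul_apply, ku_spec hz ha τ, map_mul, ku_fix, ku_spec hz ha σ,
    kuz_add (ku_w hz).pow_eq_one]
  ring

theorem ku_mul {z : K} (hz : IsPrimitiveRoot z l) {a b : K} (ha : a ≠ 0) (hb : b ≠ 0)
    (σ : Gm K) : chl l z (a * b) σ = chl l z a σ + chl l z b σ := by
  refine ku_uniq hz (mul_ne_zero ha hb) (y := rt l a * rt l b) ?_ _ ?_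
  · rw [mul_pow, ku_rt, ku_rt, map_mul]
  · rw [map_mul, ku_spec hz ha, ku_spec hz hb, kuz_add (ku_w hz).pow_eq_one]
    ring

theorem ku_ev {z : K} (hz : IsPrimitiveRoot z l) {a : K} (ha : a ≠ 0) (σ : Gm K) :
    ∀ᶠ τ in 𝓝 σ, chl l z a τ = chl l z a σ := by
  have hint : IsIntegral K (rt l a) := Algebra.IsIntegral.isIntegral _
  have hfin : FiniteDimensional K (IntermediateField.adjoin K ({rt l a} : Set (Om K))) :=
    IntermediateField.adjoin.finiteDimensional hint
  have hopen : IsOpen ((IntermediateField.adjoin K ({rt l a} : Set (Om K))).fixingSubgroup :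
      Set (Gm K)) := IntermediateField.fixingSubgroup_isOpen _
  have h1 : IsOpen ((fun τ : Gm K => σ⁻¹ * τ) ⁻¹'
      ((IntermediateField.adjoin K ({rt l a} : Set (Om K))).fixingSubgroup : Set (Gm K))) :=
    hopen.preimage (continuous_const.mul continuous_id)
  have h2 : σ ∈ (fun τ : Gm K => σ⁻¹ * τ) ⁻¹'
      ((IntermediateField.adjoin K ({rt l a} : Set (Om K))).fixingSubgroup : Set (Gm K)) := by
    rw [Set.mem_preimage, inv_mul_cancel]
    exact one_mem _
  filter_upwards [h1.mem_nhds h2] with τ hτ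
  have h3 : (σ⁻¹ * τ) (rt l a) = rt l a := by
    have h4 : σ⁻¹ * τ ∈ (IntermediateField.adjoin K ({rt l a} : Set (Om K))).fixingSubgroup := hτ
    rw [IntermediateField.mem_fixingSubgroup_iff] at h4
    exact h4 _ (IntermediateField.mem_adjoin_simple_self K (rt l a))
  have h5 : chl l z a (σ⁻¹ * τ) = 0 :=
    ku_uniq hz ha (ku_rt a) _ (by rw [h3, kuz_zero, one_mul])
  have h6 : τ = σ * (σ⁻¹ * τ) := by rw [mul_inv_cancel_left]
  rw [h6, ku_hom hz ha, h5, add_zero]

/-- Kummer theory for homomorphisms on a subgroup -/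
theorem ku_dec {z : K} (hz : IsPrimitiveRoot z l) (D : Subgroup (Gm K)) (h : Gm K → ZMod l)
    (hc : IsLocallyConstant h) (hh : ∀ σ ∈ D, ∀ τ ∈ D, h (σ * τ) = h σ + h τ) :
    ∃ y : Om K, y ≠ 0 ∧ ∀ σ ∈ D, σ y = kuz (algebraMap K (Om K) z) (h σ) * y := by
  classical
  obtain ⟨E, hE, hN, hE'⟩ := Pool.Agent.H98.MF.lc_unifE h hc
  let r : Gm K →* (E ≃ₐ[K] E) := AlgEquiv.restrictNormalHom E
  have hr : ∀ (σ : Gm K) (x : E), ((r σ x : E) : Om K) = σ (x : Om K) := fun σ x =>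
    AlgEquiv.restrictNormal_commutes σ E x
  have hker : ∀ σ : Gm K, r σ = 1 → σ ∈ E.fixingSubgroup := by
    intro σ hσ
    rw [IntermediateField.mem_fixingSubgroup_iff]
    intro x hx
    have := hr σ ⟨x, hx⟩
    rw [hσ] at this
    exact this.symm
  obtain ⟨w, hw⟩ : ∃ w : E, w = algebraMap K E z := ⟨_, rfl⟩
  have hw1 : w ^ l = 1 := by rw [hw, ← map_pow, hz.pow_eq_one, map_one]
  have hft : Fintype (D.map r) := Fintype.ofFinite _
  have hlift : ∀ τ : D.map r, ∃ σ : Gm K, σ ∈ D ∧ r σ = τ.1 := by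
    rintro ⟨τ, hτ⟩
    obtain ⟨σ, h1, h2⟩ := Subgroup.mem_map.1 hτ
    exact ⟨σ, h1, h2⟩
  choose l' hlD hlr using hlift
  let c : D.map r → ZMod l := fun τ => h (l' τ)
  have hcs : ∀ (σ : Gm K) (hσ : σ ∈ D) (τ : D.map r),
      c (⟨r σ, Subgroup.mem_map_of_mem r hσ⟩ * τ) = h σ + c τ := by
    intro σ hσ τ
    set τ' : D.map r := ⟨r σ, Subgroup.mem_map_of_mem r hσ⟩ * τ with hτ'
    have h1 : r ((σ * l' τ)⁻¹ * l' τ') = 1 := by
      rw [map_mul, map_inv, map_mul, hlr, hlr, hτ']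
      exact inv_mul_cancel (r σ * τ.1)
    have h2 := hE' (σ * l' τ) _ (hker _ h1)
    rw [mul_inv_cancel_left] at h2
    show h (l' τ') = h σ + h (l' τ)
    rw [h2, hh σ hσ _ (hlD τ)]
  -- independence of characters
  have hind : LinearIndependent E (fun τ : D.map r => ((τ.1 : E →* E) : E → E)) := by
    have h1 := linearIndependent_monoidHom E E
    refine h1.comp (fun τ : D.map r => (τ.1 : E →* E)) ?_
    intro τ τ' heq
    apply Subtype.ext
    apply AlgEquiv.ext
    intro x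
    exact DFunLike.congr_fun heq x
  obtain ⟨θ, hθ⟩ : ∃ θ : E, ∑ τ : D.map r, kuz w (-(c τ)) * (τ.1 θ) ≠ 0 := by
    by_contra hcon
    push Not at hcon
    have h1 := (Fintype.linearIndependent_iff.1 hind) (fun τ => kuz w (-(c τ))) (by
      funext θ
      simp only [Finset.sum_apply, Pi.smul_apply, smul_eq_mul, Pi.zero_apply]
      exact hcon θ)
    exact kuz_ne hw1 _ (h1 1)
  set s : E := ∑ τ : D.map r, kuz w (-(c τ)) * (τ.1 θ) with hs
  have hact : ∀ σ ∈ D, r σ s = kuz w (h σ) * s := by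
    intro σ hσ
    rw [hs, map_sum, Finset.mul_sum]
    refine Fintype.sum_equiv
      (Equiv.mulLeft (⟨r σ, Subgroup.mem_map_of_mem r hσ⟩ : D.map r)) _ _ ?_
    intro τ
    rw [Equiv.coe_mulLeft, hcs σ hσ τ, map_mul]
    have h1 : r σ (kuz w (-(c τ))) = kuz w (-(c τ)) := by
      rw [hw]
      unfold kuz
      rw [map_pow, (r σ).commutes]
    have h2 := kuz_neg hw1 (h σ)
    have h3 : kuz w (-(h σ + c τ)) = kuz w (-(h σ)) * kuz w (-(c τ)) := by
      rw [neg_add, kuz_add hw1]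
    rw [h1, h3]
    show kuz w (-(c τ)) * (r σ) (τ.1 θ) =
      kuz w (h σ) * (kuz w (-(h σ)) * kuz w (-(c τ)) * (r σ * τ.1) θ)
    rw [AlgEquiv.mul_apply]
    calc kuz w (-(c τ)) * (r σ) (τ.1 θ) = 1 * (kuz w (-(c τ)) * (r σ) (τ.1 θ)) :=
          (one_mul _).symm
      _ = _ := by rw [← h2]; ring
  refine ⟨(s : Om K), fun h0 => hθ (by exact_mod_cast h0), fun σ hσ => ?_⟩
  rw [← hr σ s, hact σ hσ, hw]
  have h1 : ((kuz (algebraMap K E z) (h σ) : E) : Om K) = kuz (algebraMap K (Om K) z) (h σ) :=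
    kuz_map (algebraMap E (Om K)) _ (h σ)
  rw [← h1]
  rfl

end

/-- Kummer theory -/
theorem sku : SKu := by
  intro l hl K _ _ z hz
  haveI : NeZero l := ⟨hl.ne_zero⟩
  have hw := ku_w hz
  refine ⟨?_, ?_, ?_, ?_, ?_, ?_⟩
  · intro a y hy σ
    exact ku_root hz a.ne_zero hy σ
  · intro a σ τ
    exact ku_hom hz a.ne_zero σ τ
  · intro a b σ
    rw [Units.val_mul]
    exact ku_mul hz a.ne_zero b.ne_zero σ
  · intro a
    exact (IsLocallyConstant.iff_eventually_eq _).mpr (ku_ev hz a.ne_zero)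
  · intro a
    constructor
    · intro h
      have h1 : ∀ σ : Gm K, σ (rt l (a : K)) = rt l (a : K) := fun σ => by
        rw [ku_spec hz a.ne_zero, h σ, kuz_zero, one_mul]
      have hgal := Pool.Agent.H98.MF.om_galois (k := K)
      obtain ⟨q, hq⟩ := (InfiniteGalois.mem_range_algebraMap_iff_fixed (rt l (a : K))).mpr h1
      have h3 : q ^ l = (a : K) := by
        apply (algebraMap K (Om K)).injective
        rw [map_pow, hq, ku_rt]
      have hq0 : q ≠ 0 := by
        rintro rfl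
        rw [zero_pow hl.ne_zero] at h3
        exact a.ne_zero h3.symm
      refine Subgroup.mem_map.2 ⟨Units.mk0 q hq0, Subgroup.mem_top _, ?_⟩
      apply Units.ext
      rw [powMonoidHom_apply, Units.val_pow_eq_pow_val, Units.val_mk0, h3]
    · intro h σ
      obtain ⟨c, -, hc⟩ := Subgroup.mem_map.1 h
      rw [powMonoidHom_apply] at hc
      refine ku_uniq hz a.ne_zero (y := algebraMap K (Om K) (c : K)) ?_ σ ?_
      · rw [← map_pow, ← Units.val_pow_eq_pow_val, hc]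
      · rw [σ.commutes, kuz_zero, one_mul]
  · intro h hc hh
    obtain ⟨y, hy0, hy⟩ := ku_dec hz ⊤ h hc fun σ _ τ _ => hh σ τ
    have h1 : ∀ σ : Gm K, σ (y ^ l) = y ^ l := fun σ => by
      rw [map_pow, hy σ (Subgroup.mem_top σ), mul_pow, kuz_pow hw.pow_eq_one, one_mul]
    have hgal := Pool.Agent.H98.MF.om_galois (k := K)
    obtain ⟨q, hq⟩ := (InfiniteGalois.mem_range_algebraMap_iff_fixed (y ^ l)).mpr h1
    have hq0 : q ≠ 0 := by
      rintro rfl
      rw [map_zero] at hq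
      exact pow_ne_zero l hy0 hq.symm
    refine ⟨Units.mk0 q hq0, fun σ => ?_⟩
    rw [Units.val_mk0]
    exact (ku_uniq hz hq0 hq.symm σ (hy σ (Subgroup.mem_top σ))).symm

end Pool.Agent.H92.EL
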