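import Pool.Agent.H92.EL.AStm
import Pool.Agent.H98.MF.NSplA

/-!
# Project ELL (MP_a3214d), block A: the analytic facts hold
-/

set_option autoImplicit false

open scoped BigOperators Pointwise
open NumberField IsDedekindDomain

namespace Pool.Agent.H92.EL

open Pool.Agent.H98.MF (ord nrm gen Om Gm)

open IntermediateField in
/-- an extension of degree `l` with an `l`-th root is Galois -/
private theorem an_gal {l : ℕ} (hl : l.Prime) {K L : Type} [Field K] [NumberField K] [Field L]
    [NumberField L] [Algebra K L] {z : K} (hz : IsPrimitiveRoot z l) {a : Kˣ} {α : L}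
    (h : KE l a α) : IsGalois K L := by
  have hdeg := h.deg
  have htop : K⟮α⟯ = ⊤ := by
    have h1 := Module.finrank_mul_finrank K K⟮α⟯ L
    rw [hdeg] at h1
    rcases (Nat.dvd_prime hl).1 (Dvd.intro _ h1) with h2 | h2
    · exfalso
      rw [IntermediateField.finrank_eq_one_iff] at h2
      have h3 : α ∈ K⟮α⟯ := IntermediateField.mem_adjoin_simple_self K α
      rw [h2, IntermediateField.mem_bot] at h3
      obtain ⟨c, hc⟩ := h3
      have h4 : c ^ l = (a : K) := by
        apply (algebraMap K L).injective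
        rw [map_pow, hc, h.pow]
      have hc0 : c ≠ 0 := by
        rintro rfl
        rw [zero_pow hl.ne_zero] at h4
        exact a.ne_zero h4.symm
      refine h.npw ⟨Units.mk0 c hc0, Subgroup.mem_top _, ?_⟩
      apply Units.ext
      rw [powMonoidHom_apply, Units.val_pow_eq_pow_val, Units.val_mk0, h4]
    · rw [h2] at h1
      have h3 : Module.finrank K⟮α⟯ L = 1 := by
        have h4 : l * Module.finrank K⟮α⟯ L = l * 1 := by rw [h1, mul_one]
        exact Nat.eq_of_mul_eq_mul_left hl.pos h4
      exact IntermediateField.finrank_eq_one_iff_eq_top.1 h3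
  have hr : (primitiveRoots (Module.finrank K L) K).Nonempty := by
    refine ⟨z, ?_⟩
    rw [hdeg]
    exact (mem_primitiveRoots hl.pos).2 hz
  have hα : α ^ (Module.finrank K L) = algebraMap K L a := by rw [hdeg, h.pow]
  have h1 := irreducible_X_pow_sub_C_of_root_adjoin_eq_top hα htop
  have h2 := isSplittingField_X_pow_sub_C_of_root_adjoin_eq_top hr hα htop
  exact isGalois_of_isSplittingField_X_pow_sub_C hr h1 L

/-- sums over equal sets -/
private theorem an_sum {K : Type} [Field K] [NumberField K]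
    {p q : HeightOneSpectrum (𝓞 K) → Prop} (h : ∀ P, p P ↔ q P)
    (f : HeightOneSpectrum (𝓞 K) → ℝ) :
    ∑' Q : {Q : HeightOneSpectrum (𝓞 K) // p Q}, f Q.1 =
      ∑' Q : {Q : HeightOneSpectrum (𝓞 K) // q Q}, f Q.1 := by
  obtain rfl : p = q := funext fun P => propext (h P)
  rfl

/-- the analytic facts -/
theorem san (h2 : SN2) (hS : SSp) (hE : SKE) (hb : SC3b) (hg : SC3g) : SAn := by
  intro l hlF _ K _ _ z hz
  have hl : l.Prime := hlF.out
  refine ⟨?_, ?_, ?_, ?_, ?_⟩
  · exact Pool.Agent.H98.MF.summable_nrm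
  · exact Pool.Agent.H98.MF.prm0_k
  · intro a ha
    obtain ⟨L, _, _, _, α, hα⟩ := (hE l hl K z hz).1 a ha
    haveI := an_gal hl hz hα
    obtain ⟨C, hC⟩ := hS K L
    refine ⟨C, fun s h1 h3 => ?_⟩
    have h4 := hC s h1 h3
    rw [hα.deg] at h4
    rw [← an_sum (p := fun P => Nat.card {Q : HeightOneSpectrum (𝓞 L) // OvP P Q} = l) ?_
      (fun Q => (nrm Q : ℝ) ^ (-s))]
    · exact h4
    · intro P
      constructor
      · intro h5
        by_contra h6
        rw [(hb l hl K L z hz a α hα P).2 h6] at h5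
        exact hl.one_lt.ne h5
      · exact (hb l hl K L z hz a α hα P).1
  · intro a a' hI
    obtain ⟨L, _, _, _, α, α', hα⟩ := (hE l hl K z hz).2 a a' hI
    obtain ⟨hG, hP⟩ := hg l hl K L z hz a a' α α' hI hα
    obtain ⟨C, hC⟩ := hS K L
    refine ⟨C, fun s h1 h3 => ?_⟩
    have h4 := hC s h1 h3
    rw [hα.deg] at h4
    push_cast at h4
    rw [← an_sum (p := fun P => Nat.card {Q : HeightOneSpectrum (𝓞 L) // OvP P Q} = l ^ 2) hP
      (fun Q => (nrm Q : ℝ) ^ (-s))]
    exact h4
  · intro S hS' ψ hψ hne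
    exact h2 l K S hS' ψ hψ hne

end Pool.Agent.H92.EL
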