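import Pool.Agent.H92.EL.AStm
import Pool.Agent.H98.MF.L.Top

/-!
# Project ELL (MP_a3214d), row A12: an open subgroup is the Galois group of its fixed field
-/

set_option autoImplicit false

open scoped BigOperators Pointwise Topology
open NumberField IsDedekindDomain Filter

namespace Pool.Agent.H92.EL

open Pool.Agent.H98.MF (Om Gm Dec fld top low nf_of_fd low_prime low_comap low_ne_bot top_prime
  top_comap tp_trans)

section

variable {F : Type} [Field F] [NumberField F]

omit [NumberField F] in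
private lemma br_adj {S : Set (Om F)} {u : Gm F} (h : ∀ s ∈ S, u s = s) {z : Om F}
    (hz : z ∈ IntermediateField.adjoin F S) : u z = z := by
  induction hz using IntermediateField.adjoin_induction with
  | mem x hx => exact h x hx
  | algebraMap x => exact u.commutes x
  | add x y _ _ hx hy => rw [map_add, hx, hy]
  | mul x y _ _ hx hy => rw [map_mul, hx, hy]
  | inv x _ hx => rw [map_inv₀, hx]

/-- the stabiliser of finitely many elements is open -/
private lemma br_open (S : Finset (Om F)) : IsOpen {u : Gm F | ∀ s ∈ S, u s = s} := by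
  have hfin : FiniteDimensional F (IntermediateField.adjoin F (S : Set (Om F))) :=
    IntermediateField.finiteDimensional_adjoin (fun x _ => Algebra.IsIntegral.isIntegral _)
  have h1 : IsOpen ((IntermediateField.adjoin F (S : Set (Om F))).fixingSubgroup :
      Set (Gm F)) := IntermediateField.fixingSubgroup_isOpen _
  convert h1 using 1
  ext u
  constructor
  · intro hu
    show u ∈ (IntermediateField.adjoin F (S : Set (Om F))).fixingSubgroup
    rw [IntermediateField.mem_fixingSubgroup_iff]
    intro x hx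
    exact br_adj hu hx
  · intro hu s hs
    have hu' : u ∈ (IntermediateField.adjoin F (S : Set (Om F))).fixingSubgroup := hu
    rw [IntermediateField.mem_fixingSubgroup_iff] at hu'
    exact hu' s (IntermediateField.subset_adjoin F _ hs)

/-- a neighbourhood of the identity contains such a stabiliser -/
private lemma br_nhds {T : Set (Gm F)} (hT : T ∈ 𝓝 (1 : Gm F)) :
    ∃ S : Finset (Om F), {u : Gm F | ∀ s ∈ S, u s = s} ⊆ T := by
  obtain ⟨E, hE, hET⟩ := (krullTopology_mem_nhds_one_iff F (Om F) T).1 hT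
  obtain ⟨S, hS⟩ := E.fg_of_fg_toSubalgebra (Subalgebra.fg_of_fg_toSubmodule
    (Module.Finite.iff_fg.1 hE))
  refine ⟨S, fun u hu => hET ?_⟩
  show u ∈ E.fixingSubgroup
  rw [IntermediateField.mem_fixingSubgroup_iff]
  intro x hx
  rw [← hS] at hx
  exact br_adj hu hx

end

section

variable {K : Type} [Field K] [NumberField K]

/-- the prime below, as a prime of the layer -/
private noncomputable def brQ (P : HeightOneSpectrum (𝓞 K)) (E : IntermediateField K (Om K)) :
    HeightOneSpectrum (𝓞 E) := ⟨low P E, low_prime P E, low_ne_bot P E⟩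

/-- an isomorphism of algebraic closures that respects the chosen primes -/
private lemma br_iso (P : HeightOneSpectrum (𝓞 K)) (E : IntermediateField K (Om K))
    [NumberField E] :
    ∃ j : Om E ≃+* Om K, (∀ x : E, j (algebraMap E (Om E) x) = (x : Om K)) ∧
      ∀ x : 𝓞 (Om E), x ∈ top (brQ P E) ↔ RingOfIntegers.mapRingEquiv j x ∈ top P := by
  have h1 : Algebra.IsAlgebraic E (Om K) := Algebra.IsAlgebraic.tower_top (K := K) E
  have h2 : IsAlgClosure E (Om K) := ⟨inferInstance, h1⟩
  let Φ : Om E ≃ₐ[E] Om K := IsAlgClosure.equiv E (Om E) (Om K)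
  let M : 𝓞 (Om E) ≃+* 𝓞 (Om K) := RingOfIntegers.mapRingEquiv Φ.toRingEquiv
  have hM : ∀ x : 𝓞 (Om E), ((M x : 𝓞 (Om K)) : Om K) = Φ (x : Om E) := fun x => rfl
  have hMs : ∀ x : 𝓞 (Om K), ((M.symm x : 𝓞 (Om E)) : Om E) = Φ.symm (x : Om K) := fun x => rfl
  let T : Ideal (𝓞 (Om K)) := (top (brQ P E)).comap (M.symm : 𝓞 (Om K) →+* 𝓞 (Om E))
  haveI := top_prime (brQ P E)
  have hT : T.IsPrime := Ideal.comap_isPrime _ _
  have hcomap : T.comap (algebraMap (𝓞 E) (𝓞 (Om K)))
      = (top P).comap (algebraMap (𝓞 E) (𝓞 (Om K))) := by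
    have e0 : (top (brQ P E)).comap (algebraMap (𝓞 E) (𝓞 (Om E))) = low P E :=
      top_comap (brQ P E)
    have e1 : low P E = (top P).comap (algebraMap (𝓞 E) (𝓞 (Om K))) := rfl
    rw [← e1, ← e0]
    ext x
    rw [Ideal.mem_comap, Ideal.mem_comap]
    show M.symm (algebraMap (𝓞 E) (𝓞 (Om K)) x) ∈ top (brQ P E) ↔ _
    have e2 : M.symm (algebraMap (𝓞 E) (𝓞 (Om K)) x) = algebraMap (𝓞 E) (𝓞 (Om E)) x := by
      apply RingOfIntegers.coe_injective
      exact Φ.symm.commutes (x : E)
    rw [e2, Ideal.mem_comap]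
  obtain ⟨τ, hτ⟩ := tp_trans E T (top P) hT (top_prime P) hcomap
  refine ⟨(Φ.trans τ).toRingEquiv, fun x => (Φ.trans τ).commutes x, fun x => ?_⟩
  rw [hτ, Ideal.mem_pointwise_smul_iff_inv_smul_mem]
  show _ ↔ M.symm (τ⁻¹ • RingOfIntegers.mapRingEquiv (Φ.trans τ).toRingEquiv x) ∈ top (brQ P E)
  have e3 : M.symm (τ⁻¹ • RingOfIntegers.mapRingEquiv (Φ.trans τ).toRingEquiv x) = x := by
    apply RingOfIntegers.coe_injective
    show Φ.symm (τ⁻¹ (τ (Φ (x : Om E)))) = (x : Om E)
    have e4 : τ⁻¹ (τ (Φ (x : Om E))) = Φ (x : Om E) := τ.symm_apply_apply _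
    rw [e4]
    exact Φ.symm_apply_apply _
  rw [e3]

end

/-- row A12 -/
theorem sbr : SBr := by
  intro K _ _ U hU P
  have hfix : (fld K U).fixingSubgroup = U :=
    InfiniteGalois.fixingSubgroup_fixedField (⟨U, U.isClosed_of_isOpen hU⟩ : ClosedSubgroup (Gm K))
  have hfd : FiniteDimensional K (fld K U) := by
    rw [← InfiniteGalois.isOpen_iff_finite, hfix]
    exact hU
  haveI : NumberField (fld K U) := nf_of_fd _
  obtain ⟨j, hj, hjP⟩ := br_iso P (fld K U)
  have hE : ∀ (g : Gm K), g ∈ U → ∀ x : fld K U, g (x : Om K) = x := by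
    intro g hg x
    rw [← hfix, IntermediateField.mem_fixingSubgroup_iff] at hg
    exact hg _ x.2
  have hjK : ∀ x : K, j (algebraMap (fld K U) (Om (fld K U)) (algebraMap K (fld K U) x))
      = algebraMap K (Om K) x := fun x => hj _
  -- the map
  let up : Gm (fld K U) → Gm K := fun σ =>
    AlgEquiv.ofRingEquiv (f := (j.symm.trans σ.toRingEquiv).trans j) (fun c => by
      show j (σ (j.symm (algebraMap K (Om K) c))) = algebraMap K (Om K) c
      rw [← hjK, RingEquiv.symm_apply_apply, σ.commutes])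
  have hup : ∀ σ x, up σ x = j (σ (j.symm x)) := fun σ x => rfl
  have hupU : ∀ σ, up σ ∈ U := by
    intro σ
    rw [← hfix, IntermediateField.mem_fixingSubgroup_iff]
    intro x hx
    have e : x = j (algebraMap (fld K U) (Om (fld K U)) ⟨x, hx⟩) := (hj ⟨x, hx⟩).symm
    rw [hup, e, RingEquiv.symm_apply_apply, σ.commutes]
  let dn : U → Gm (fld K U) := fun g =>
    AlgEquiv.ofRingEquiv (f := (j.trans (g : Gm K).toRingEquiv).trans j.symm) (fun c => by
      show j.symm ((g : Gm K) (j (algebraMap (fld K U) (Om (fld K U)) c))) = _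
      rw [hj, hE _ g.2, ← hj, RingEquiv.symm_apply_apply])
  have hdn : ∀ g x, dn g x = j.symm ((g : Gm K) (j x)) := fun g x => rfl
  let Θ : Gm (fld K U) ≃* U :=
    { toFun := fun σ => ⟨up σ, hupU σ⟩
      invFun := dn
      left_inv := fun σ => by
        refine AlgEquiv.ext fun x => ?_
        rw [hdn, hup, RingEquiv.symm_apply_apply, RingEquiv.symm_apply_apply]
      right_inv := fun g => by
        apply Subtype.ext
        refine AlgEquiv.ext fun x => ?_
        show up (dn g) x = _
        rw [hup, hdn, RingEquiv.apply_symm_apply, RingEquiv.apply_symm_apply]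
      map_mul' := fun σ τ => by
        apply Subtype.ext
        refine AlgEquiv.ext fun x => ?_
        show j ((σ * τ) (j.symm x)) = j (σ (j.symm (j (τ (j.symm x)))))
        rw [RingEquiv.symm_apply_apply]
        rfl }
  have hΘ : ∀ σ, ((Θ σ : U) : Gm K) = up σ := fun σ => rfl
  have hΘs : ∀ g, Θ.symm g = dn g := fun g => rfl
  have hev : ∀ (σ : Gm (fld K U)) (x : Om (fld K U)), j (σ x) = ((Θ σ : U) : Gm K) (j x) := by
    intro σ x
    rw [hΘ, hup, RingEquiv.symm_apply_apply]
  refine ⟨fld K U, inferInstance, inferInstance, inferInstance, brQ P (fld K U), j, Θ, hjK, ?_,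
    low_comap P (fld K U), ?_, ?_, hev, ?_⟩
  · rw [IntermediateField.finrank_eq_fixingSubgroup_index, hfix]
  · -- continuity of `Θ`
    apply continuous_of_continuousAt_one Θ
    rw [ContinuousAt, map_one]
    intro T hT
    obtain ⟨T', hT', hTT⟩ := (mem_nhds_subtype _ _ _).1 hT
    obtain ⟨S, hS⟩ := br_nhds hT'
    classical
    have h1 : {u : Gm (fld K U) | ∀ s ∈ S.image j.symm, u s = s} ∈ 𝓝 (1 : Gm (fld K U)) :=
      (br_open (S.image j.symm)).mem_nhds (fun s _ => rfl)
    rw [Filter.mem_map]
    refine Filter.mem_of_superset h1 ?_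
    intro u hu
    apply hTT
    apply hS
    intro s hs
    have h2 : u (j.symm s) = j.symm s := hu _ (Finset.mem_image_of_mem _ hs)
    show up u s = s
    rw [hup, h2, RingEquiv.apply_symm_apply]
  · -- continuity of the inverse
    apply continuous_of_continuousAt_one Θ.symm
    rw [ContinuousAt, map_one]
    intro T hT
    obtain ⟨S, hS⟩ := br_nhds hT
    classical
    have h1 : {g : Gm K | ∀ s ∈ S.image j, g s = s} ∈ 𝓝 (1 : Gm K) :=
      (br_open (S.image j)).mem_nhds (fun s _ => rfl)
    have h2 : (Subtype.val : U → Gm K) ⁻¹' {g : Gm K | ∀ s ∈ S.image j, g s = s} ∈ 𝓝 (1 : U) :=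
      continuous_subtype_val.continuousAt.preimage_mem_nhds h1
    rw [Filter.mem_map]
    refine Filter.mem_of_superset h2 ?_
    intro g hg
    apply hS
    intro s hs
    have h3 : (g : Gm K) (j s) = j s := hg _ (Finset.mem_image_of_mem _ hs)
    rw [hΘs, hdn, h3, RingEquiv.symm_apply_apply]
  · -- decomposition groups
    intro σ
    have hM : ∀ x : 𝓞 (Om (fld K U)), RingOfIntegers.mapRingEquiv j (σ⁻¹ • x)
        = ((Θ σ : U) : Gm K)⁻¹ • RingOfIntegers.mapRingEquiv j x := by
      intro x
      apply RingOfIntegers.coe_injective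
      show j (σ⁻¹ (x : Om (fld K U))) = ((Θ σ : U) : Gm K)⁻¹ (j (x : Om (fld K U)))
      rw [hev, map_inv]
      rfl
    have key : ∀ x : 𝓞 (Om (fld K U)), x ∈ σ • top (brQ P (fld K U)) ↔
        RingOfIntegers.mapRingEquiv j x ∈ ((Θ σ : U) : Gm K) • top P := by
      intro x
      rw [Ideal.mem_pointwise_smul_iff_inv_smul_mem, Ideal.mem_pointwise_smul_iff_inv_smul_mem,
        hjP, hM]
    constructor
    · intro h
      have h0 : σ • top (brQ P (fld K U)) = top (brQ P (fld K U)) := h
      show ((Θ σ : U) : Gm K) • top P = top P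
      ext y
      obtain ⟨x, rfl⟩ := (RingOfIntegers.mapRingEquiv j).surjective y
      rw [← key, h0, hjP]
    · intro h
      have h0 : ((Θ σ : U) : Gm K) • top P = top P := h
      show σ • top (brQ P (fld K U)) = top (brQ P (fld K U))
      ext x
      rw [key, h0, hjP]

end Pool.Agent.H92.EL
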