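import Pool.Agent.H92.EL.AStm
import Pool.Agent.H98.MF.C.Bas

/-!
# Project ELL (MP_a3214d), block A, row A30: the first inequality
-/

set_option autoImplicit false

open scoped BigOperators Pointwise
open NumberField IsDedekindDomain

namespace Pool.Agent.H92.EL

open Pool.Agent.H98.MF (Om Gm ord Dec US PrS SUn mS nrm gen FixD)

/-- the first inequality -/
theorem sc3 (h1 : SC1) (hd : SC3d) (he : SC3e) (hf : SC3f) (hP : SPu) (hE : SKE) : SC3 := by
  classical
  intro l hl hl2 K _ _ z hz T A hA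
  have hone : ∀ a : Kˣ, ∃ Ta : Finset (HeightOneSpectrum (𝓞 K)),
      a ∉ pw l (⊤ : Subgroup Kˣ) → ∀ S : Finset (HeightOneSpectrum (𝓞 K)), Ta ⊆ S →
        AdmL l S → GdL l S a := by
    intro a
    by_cases ha : a ∈ pw l (⊤ : Subgroup Kˣ)
    · exact ⟨∅, fun h => absurd ha h⟩
    obtain ⟨L, iL, nL, aL, α, hα⟩ := (hE l hl K z hz).1 a ha
    obtain ⟨T1, hT1⟩ := hP K L
    obtain ⟨S0, hS0⟩ := Pool.Agent.H98.MF.B.exists_mem_US ({a} : Finset Kˣ)
    refine ⟨T1 ∪ S0, fun _ S hS hadm => ?_⟩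
    obtain ⟨S', hov, hpr⟩ := hT1 S (Finset.union_subset_left hS)
    have haS : a ∈ US S := Pool.Agent.H98.MF.B.US_mono (Finset.union_subset_right hS)
      (hS0 a (Finset.mem_singleton_self a))
    obtain ⟨hi1, hi2, hi3⟩ := hd l hl hl2 K L z hz a α hα S S' hov hadm haS hpr
    exact ⟨hadm, haS, he l hl K L z hz a α hα S S' hov hadm haS hpr,
      ⟨(US S').map (nuL K L), hi2, hi3, hi1⟩⟩
  have htwo : ∀ a a' : Kˣ, ∃ Ta : Finset (HeightOneSpectrum (𝓞 K)),
      Ind2 l a a' → ∀ S : Finset (HeightOneSpectrum (𝓞 K)), Ta ⊆ S →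
        AdmL l S → a ∈ US S → a' ∈ US S → NPL2 l S a a' := by
    intro a a'
    by_cases ha : Ind2 l a a'
    · obtain ⟨L, iL, nL, aL, α, α', hα⟩ := (hE l hl K z hz).2 a a' ha
      obtain ⟨T1, hT1⟩ := hP K L
      refine ⟨T1, fun _ S hS hadm h h' => ?_⟩
      obtain ⟨S', hov, hpr⟩ := hT1 S hS
      exact hf l hl K L z hz a a' α α' ha hα S S' hov hadm h h' hpr
    · exact ⟨∅, fun h => absurd h ha⟩
  choose T1 hT1 using hone
  choose T2 hT2 using htwo
  obtain ⟨S, hS, hadm⟩ := h1 l hl K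
    (T ∪ (A.biUnion T1 ∪ A.biUnion fun a => A.biUnion fun a' => T2 a a'))
  have hST : T ⊆ S := Finset.union_subset_left hS
  have hS1 : A.biUnion T1 ⊆ S := Finset.union_subset_left (Finset.union_subset_right hS)
  have hS2 : (A.biUnion fun a => A.biUnion fun a' => T2 a a') ⊆ S :=
    Finset.union_subset_right (Finset.union_subset_right hS)
  have hgd : ∀ a ∈ A, GdL l S a := fun a ha =>
    hT1 a (hA a ha) S ((Finset.subset_biUnion_of_mem T1 ha).trans hS1) hadm
  refine ⟨S, hST, hgd, fun a ha a' ha' hind => ?_⟩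
  refine hT2 a a' hind S ?_ hadm (hgd a ha).mem (hgd a' ha').mem
  intro P hP
  exact hS2 (Finset.mem_biUnion.2 ⟨a, ha, Finset.mem_biUnion.2 ⟨a', ha', hP⟩⟩)

end Pool.Agent.H92.EL
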