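import Pool.Agent.H92.EL.AStm
import Mathlib.FieldTheory.KummerExtension

/-!
# Project ELL (MP_a3214d), block A, row A14: primes in an extension of degree `l`
-/

set_option autoImplicit false

open scoped BigOperators Pointwise Polynomial
open NumberField IsDedekindDomain IntermediateField

namespace Pool.Agent.H92.EL

open Pool.Agent.H98.MF (Om Gm ord Dec US PrS SUn mS nrm gen FixD)

section

variable {l : ℕ} {K L : Type} [Field K] [NumberField K] [Field L] [NumberField L] [Algebra K L]

omit [NumberField K] [NumberField L] in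
private theorem c3b_fin (hl : l.Prime) {a : Kˣ} {α : L} (h : KE l a α) :
    FiniteDimensional K L :=
  Module.finite_of_finrank_pos (by rw [h.deg]; exact hl.pos)

omit [NumberField K] [NumberField L] in
private theorem c3b_top (hl : l.Prime) {a : Kˣ} {α : L} (h : KE l a α) : K⟮α⟯ = ⊤ := by
  haveI := c3b_fin hl h
  have h1 := Module.finrank_mul_finrank K K⟮α⟯ L
  rw [h.deg] at h1
  have h2 : Module.finrank K K⟮α⟯ ∣ l := ⟨_, h1.symm⟩
  rcases (Nat.dvd_prime hl).1 h2 with h3 | h3
  · exfalso
    rw [IntermediateField.finrank_eq_one_iff, IntermediateField.adjoin_simple_eq_bot_iff,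
      IntermediateField.mem_bot] at h3
    obtain ⟨c, hc⟩ := h3
    apply h.npw
    have hc0 : c ≠ 0 := by
      rintro rfl
      have h4 := h.pow
      rw [← hc, map_zero, zero_pow hl.ne_zero] at h4
      exact a.ne_zero ((map_eq_zero (algebraMap K L)).1 h4.symm)
    have h5 : c ^ l = (a : K) := by
      apply (algebraMap K L).injective
      rw [map_pow, hc, h.pow]
    exact ⟨Units.mk0 c hc0, trivial, Units.ext h5⟩
  · rw [h3] at h1
    have h4 : Module.finrank K⟮α⟯ L = 1 :=
      Nat.eq_of_mul_eq_mul_left hl.pos (by rw [h1, mul_one])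
    exact IntermediateField.finrank_eq_one_iff_eq_top.1 h4

omit [NumberField K] [NumberField L] in
private theorem c3b_gal (hl : l.Prime) {z : K} (hz : IsPrimitiveRoot z l) {a : Kˣ} {α : L}
    (h : KE l a α) : IsGalois K L := by
  haveI := c3b_fin hl h
  have ht := c3b_top hl h
  have hdeg : Module.finrank K L = l := h.deg
  have hp : α ^ Module.finrank K L = algebraMap K L (a : K) := by rw [hdeg]; exact h.pow
  have hr : (primitiveRoots (Module.finrank K L) K).Nonempty := by
    rw [hdeg]
    exact ⟨z, (mem_primitiveRoots hl.pos).2 hz⟩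
  haveI := isSplittingField_X_pow_sub_C_of_root_adjoin_eq_top hr hp ht
  exact isGalois_of_isSplittingField_X_pow_sub_C hr
    (irreducible_X_pow_sub_C_of_root_adjoin_eq_top hp ht) L

omit [NumberField K] [NumberField L] in
private theorem c3b_fix (hl : l.Prime) {a : Kˣ} {α : L} (h : KE l a α) (ι : L →ₐ[K] Om K)
    (σ : Gm K) (hσ : σ (ι α) = ι α) (x : L) : σ (ι x) = ι x := by
  have hx : x ∈ K⟮α⟯ := by rw [c3b_top hl h]; exact IntermediateField.mem_top
  induction hx using IntermediateField.adjoin_induction with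
  | mem y hy =>
    rw [Set.mem_singleton_iff.1 hy]
    exact hσ
  | algebraMap y =>
    rw [ι.commutes, σ.commutes]
  | add x y _ _ hx hy => rw [map_add, map_add, hx, hy]
  | inv x _ hx => rw [map_inv₀, map_inv₀, hx]
  | mul x y _ _ hx hy => rw [map_mul, map_mul, hx, hy]

end

/-- primes in an extension of degree `l` -/
theorem sc3b (hK : SKu) (h1 : SOne) (hS : SSd) : SC3b := by
  intro l hl K L _ _ _ _ _ z hz a α h P
  haveI := c3b_fin hl h
  haveI := c3b_gal hl hz h
  have hku : KuF l K z := hK l hl K z hz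
  let ι : L →ₐ[K] Om K := IsAlgClosed.lift
  have hy : ι α ^ l = algebraMap K (Om K) (a : K) := by
    rw [← map_pow, h.pow, ι.commutes]
  have hy0 : ι α ≠ 0 := by
    intro h0
    rw [h0, zero_pow hl.ne_zero] at hy
    exact a.ne_zero ((map_eq_zero (algebraMap K (Om K))).1 hy.symm)
  haveI : NeZero l := ⟨hl.ne_zero⟩
  have key : (∀ σ ∈ Dec P, ∀ x : L, σ (ι x) = ι x) ↔ LocW l P (a : K) := by
    rw [← (h1 l hl K z hz P).1 a]
    constructor
    · intro hf σ hσ
      have h2 := hku.root a (ι α) hy σ
      rw [hf σ hσ α] at h2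
      have h3 : algebraMap K (Om K) z ^ (chl l z (a : K) σ).val = 1 := by
        have h4 : (algebraMap K (Om K) z ^ (chl l z (a : K) σ).val - 1) * ι α = 0 := by
          rw [sub_mul, one_mul, ← h2, sub_self]
        rcases mul_eq_zero.1 h4 with h5 | h5
        · exact sub_eq_zero.1 h5
        · exact absurd h5 hy0
      have h4 : z ^ (chl l z (a : K) σ).val = 1 := by
        apply (algebraMap K (Om K)).injective
        rw [map_pow, h3, map_one]
      have h5 := hz.dvd_of_pow_eq_one _ h4
      have h6 := Nat.eq_zero_of_dvd_of_lt h5 (ZMod.val_lt _)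
      exact (ZMod.val_eq_zero _).1 h6
    · intro hf σ hσ x
      refine c3b_fix hl h ι σ ?_ x
      rw [hku.root a (ι α) hy σ, hf σ hσ, ZMod.val_zero, pow_zero, one_mul]
  obtain ⟨hs1, hs2⟩ := hS K L ι P
  rw [h.deg] at hs1 hs2
  constructor
  · intro hL
    exact hs1.2 (key.2 hL)
  · intro hL
    rcases (Nat.dvd_prime hl).1 hs2 with h3 | h3
    · exact h3
    · exact absurd (key.1 (hs1.1 h3)) hL

end Pool.Agent.H92.EL
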