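import Pool.Agent.H92.EL.AStm

/-!
# Project ELL (MP_a3214d), row A24: the number of places of an extension of degree `l`
-/

set_option autoImplicit false

open scoped BigOperators Pointwise
open NumberField IsDedekindDomain

namespace Pool.Agent.H92.EL

open Pool.Agent.H98.MF (Om Gm ord Dec US PrS SUn mS nrm gen FixD)

theorem sc3c (hb : SC3b) : SC3c := by
  classical
  intro l hl hl2 K L _ _ _ _ _ z hz a α hE S S' hS
  have h2l : 2 < l := by
    have := hl.two_le
    omega
  have h1 : S' = S.biUnion fun P => S'.filter fun Q => OvP P Q := by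
    ext Q
    rw [Finset.mem_biUnion]
    constructor
    · intro h
      obtain ⟨P, hP, h2⟩ := (hS Q).1 h
      exact ⟨P, hP, Finset.mem_filter.2 ⟨h, h2⟩⟩
    · rintro ⟨P, _, h2⟩
      exact (Finset.mem_filter.1 h2).1
  have h2 : ∀ P ∈ S, (S'.filter fun Q : HeightOneSpectrum (𝓞 L) => OvP P Q).card +
      (l - 1) * (if ¬ LocW l P (a : K) then 1 else 0) = l := by
    intro P hP
    have h3 : Nat.card {Q : HeightOneSpectrum (𝓞 L) // OvP P Q} =
        (S'.filter fun Q : HeightOneSpectrum (𝓞 L) => OvP P Q).card := by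
      rw [Nat.subtype_card]
      intro Q
      rw [Finset.mem_filter]
      exact ⟨fun h => h.2, fun h => ⟨(hS Q).2 ⟨P, hP, h⟩, h⟩⟩
    rw [← h3]
    by_cases h4 : LocW l P (a : K)
    · rw [(hb l hl K L z hz a α hE P).1 h4, if_neg (not_not.2 h4), mul_zero, add_zero]
    · rw [(hb l hl K L z hz a α hE P).2 h4, if_pos h4, mul_one]
      omega
  have h5 : S'.card = ∑ P ∈ S, (S'.filter fun Q : HeightOneSpectrum (𝓞 L) => OvP P Q).card := by
    conv_lhs => rw [h1]
    refine Finset.card_biUnion ?_
    intro P _ P' _ hne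
    rw [Function.onFun, Finset.disjoint_left]
    intro Q hQ1 hQ2
    refine hne (HeightOneSpectrum.ext ?_)
    have e1 : Q.asIdeal.comap (algebraMap (𝓞 K) (𝓞 L)) = P.asIdeal := (Finset.mem_filter.1 hQ1).2
    have e2 : Q.asIdeal.comap (algebraMap (𝓞 K) (𝓞 L)) = P'.asIdeal := (Finset.mem_filter.1 hQ2).2
    rw [← e1, ← e2]
  have h6 : S'.card + (l - 1) * sL l S a = l * S.card := by
    have h8 : sL l S a = ∑ P ∈ S, if ¬ LocW l P (a : K) then 1 else 0 := by
      rw [sL, Finset.card_filter]
    rw [h5, h8, Finset.mul_sum, ← Finset.sum_add_distrib, Finset.sum_congr rfl h2,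
      Finset.sum_const, smul_eq_mul, mul_comm]
  -- the infinite places
  have hzL : IsPrimitiveRoot (algebraMap K L z) l :=
    hz.map_of_injective (algebraMap K L).injective
  have hK0 : InfinitePlace.nrRealPlaces K = 0 := NumberField.InfinitePlace.IsPrimitiveRoot.nrRealPlaces_eq_zero_of_two_lt h2l hz
  have hL0 : InfinitePlace.nrRealPlaces L = 0 := NumberField.InfinitePlace.IsPrimitiveRoot.nrRealPlaces_eq_zero_of_two_lt h2l hzL
  have hK1 := InfinitePlace.card_add_two_mul_card_eq_rank K
  have hL1 := InfinitePlace.card_add_two_mul_card_eq_rank L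
  have hdeg : Module.finrank ℚ L = l * Module.finrank ℚ K := by
    rw [← Module.finrank_mul_finrank ℚ K L, hE.deg, mul_comm]
  rw [hK0, zero_add] at hK1
  rw [hL0, zero_add, hdeg, ← hK1] at hL1
  have h7 : InfinitePlace.nrComplexPlaces L = l * InfinitePlace.nrComplexPlaces K := by
    have h9 : l * (2 * InfinitePlace.nrComplexPlaces K) =
        2 * (l * InfinitePlace.nrComplexPlaces K) := by ring
    omega
  unfold mS
  rw [hK0, hL0, h7, add_zero, add_zero, mul_add, ← h6]
  ring

end Pool.Agent.H92.EL
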