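import Pool.Agent.H92.EL.AStm
import Pool.Agent.H98.MF.C.C3d
import Pool.Agent.H98.MF.L.WApx

/-!
# Project ELL (MP_a3214d), block A, row A25: the index of the norms of `S`-units (helper21)
-/

set_option autoImplicit false

open scoped BigOperators Pointwise
open NumberField IsDedekindDomain

namespace Pool.Agent.H92.EL

open Pool.Agent.H98.MF (Om Gm ord Dec US PrS SUn mS nrm gen)
open Pool.Agent.H98.MF.B (mem_US c3d_below c3d_above c3d_ord c3d_cj c3d_ord_int gen_spec)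

section

variable {K L : Type} [Field K] [NumberField K] [Field L] [NumberField L] [Algebra K L]

/-- the polynomial is irreducible -/
theorem c3dl_irr {l : ℕ} (hl : l.Prime) {a : Kˣ} (ha : a ∉ pw l (⊤ : Subgroup Kˣ)) :
    Irreducible (Polynomial.X ^ l - Polynomial.C (a : K)) := by
  refine X_pow_sub_C_irreducible_of_prime hl fun b hb => ha ?_
  have hb0 : b ≠ 0 := by
    rintro rfl
    rw [zero_pow hl.ne_zero] at hb
    exact a.ne_zero hb.symm
  refine ⟨Units.mk0 b hb0, Subgroup.mem_top _, ?_⟩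
  apply Units.ext
  simpa using hb

theorem c3dl_split {l : ℕ} (hl : l.Prime) {z : K} (hz : IsPrimitiveRoot z l) {a : Kˣ} {α : L}
    (h : KE l a α) : Polynomial.IsSplittingField K L (Polynomial.X ^ l - Polynomial.C (a : K)) := by
  have hirr := c3dl_irr hl h.npw
  have hmin : minpoly K α = Polynomial.X ^ l - Polynomial.C (a : K) := by
    refine (minpoly.eq_of_irreducible_of_monic hirr ?_ (Polynomial.monic_X_pow_sub_C _ hl.ne_zero)).symm
    simp [h.pow]
  have htop : IntermediateField.adjoin K {α} = ⊤ := by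
    rw [Field.primitive_element_iff_minpoly_natDegree_eq, hmin, Polynomial.natDegree_X_pow_sub_C,
      h.deg]
  have hK : (primitiveRoots (Module.finrank K L) K).Nonempty := by
    rw [h.deg]
    exact ⟨z, (mem_primitiveRoots hl.pos).2 hz⟩
  have hp : α ^ (Module.finrank K L) = algebraMap K L (a : K) := by rw [h.deg, h.pow]
  have h1 := isSplittingField_X_pow_sub_C_of_root_adjoin_eq_top hK hp htop
  rwa [h.deg] at h1

/-- the Galois group of an extension by an `l`-th root -/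
theorem c3dl_gal {l : ℕ} (hl : l.Prime) {z : K} (hz : IsPrimitiveRoot z l) {a : Kˣ} {α : L}
    (h : KE l a α) : IsGalois K L ∧ ∃ σ : Gal(L/K), (∀ τ, τ ∈ Subgroup.zpowers σ) ∧
      Nat.card Gal(L/K) = l ∧ σ α = algebraMap K L z * α := by
  have hirr := c3dl_irr hl h.npw
  have hsp := c3dl_split hl hz h
  have hne : (primitiveRoots l K).Nonempty := ⟨z, (mem_primitiveRoots hl.pos).2 hz⟩
  have hg : IsGalois K L := isGalois_of_isSplittingField_X_pow_sub_C hne hirr L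
  haveI : NeZero l := ⟨hl.ne_zero⟩
  refine ⟨hg, (autEquivZmod hirr L hz).symm (Multiplicative.ofAdd ((1 : ℕ) : ZMod l)), ?_, ?_, ?_⟩
  · intro τ
    obtain ⟨m, rfl⟩ := (autEquivZmod hirr L hz).symm.surjective τ
    refine ⟨((Multiplicative.toAdd m).val : ℤ), ?_⟩
    show _ ^ ((Multiplicative.toAdd m).val : ℤ) = _
    rw [zpow_natCast, ← map_pow, ← ofAdd_nsmul]
    congr 1
    simp
  · rw [IsGalois.card_aut_eq_finrank, h.deg]
  · rw [autEquivZmod_symm_apply_natCast hirr L h.pow hz, pow_one, Algebra.smul_def]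

/-- the norm as a product -/
theorem c3dl_norm [IsGalois K L] {l : ℕ} {σ : Gal(L/K)} (hσ : ∀ τ, τ ∈ Subgroup.zpowers σ)
    (hc : Nat.card Gal(L/K) = l) (x : L) :
    algebraMap K L (Algebra.norm K x) = ∏ i ∈ Finset.range l, (σ ^ i) x := by
  classical
  rw [Algebra.norm_eq_prod_automorphisms, ← IsCyclic.image_range_card hσ, hc,
    Finset.prod_image]
  intro i hi j hj hij
  have ho : orderOf σ = l := by rw [orderOf_eq_card_of_forall_mem_zpowers hσ, hc]
  have hi' : i < orderOf σ := by rw [ho]; simpa using hi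
  have hj' : j < orderOf σ := by rw [ho]; simpa using hj
  exact pow_injOn_Iio_orderOf hi' hj' hij

/-- the norms from the two descriptions of the field -/
theorem c3dl_ngl {l : ℕ} (hl : l.Prime) {z : K} (hz : IsPrimitiveRoot z l) {a : Kˣ} {α : L}
    (h : KE l a α) : (nuL K L).range ≤ NGL l a := by
  have hirr := c3dl_irr hl h.npw
  have hsp := c3dl_split hl hz h
  have hne : (primitiveRoots l K).Nonempty := ⟨z, (mem_primitiveRoots hl.pos).2 hz⟩
  haveI := Fact.mk hirr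
  let e := adjoinRootXPowSubCEquiv hne hirr h.pow
  rintro _ ⟨x, rfl⟩
  refine ⟨Units.map (e.symm : L →* _) x, ?_⟩
  apply Units.ext
  show Algebra.norm K (e.symm (x : L)) = Algebra.norm K (x : L)
  exact Algebra.norm_eq_of_algEquiv e.symm (x : L)

/-- the Galois group permutes the primes above a prime transitively -/
theorem c3dl_trans [IsGalois K L] {P : HeightOneSpectrum (𝓞 K)} {Q Q' : HeightOneSpectrum (𝓞 L)}
    (hQ : OvP P Q) (hQ' : OvP P Q') : ∃ τ : Gal(L/K), ∀ w : L, ord Q' w = ord Q (τ w) := by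
  have h1 : Q.asIdeal.LiesOver P.asIdeal := ⟨hQ.symm⟩
  have h2 : Q'.asIdeal.LiesOver P.asIdeal := ⟨hQ'.symm⟩
  haveI := Q.isPrime
  haveI := Q'.isPrime
  obtain ⟨τ, hτ⟩ := Ideal.exists_smul_eq_of_isGaloisGroup P.asIdeal Q.asIdeal Q'.asIdeal Gal(L/K)
  obtain ⟨Q2, -, hQ2⟩ := c3d_cj τ⁻¹ Q
  refine ⟨τ⁻¹, fun w => ?_⟩
  rw [hQ2]
  suffices h3 : Q' = Q2 by rw [h3]
  apply HeightOneSpectrum.ext
  refine Q'.isMaximal.eq_of_le Q2.isPrime.ne_top fun x hx => ?_
  by_cases hx0 : x = 0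
  · rw [hx0]
    exact Q2.asIdeal.zero_mem
  rw [← hτ, Ideal.mem_pointwise_smul_iff_inv_smul_mem] at hx
  have hx1 : τ⁻¹ • x ≠ 0 := by
    intro h0
    apply hx0
    have h4 := congrArg (fun y => τ • y) h0
    simpa using h4
  have h4 := (c3d_ord_int Q (τ⁻¹ • x) 1 hx1).2 (by rwa [pow_one])
  have h5 : ((τ⁻¹ • x : 𝓞 L) : L) = τ⁻¹ (x : L) := rfl
  rw [h5, hQ2] at h4
  have h6 := (c3d_ord_int Q2 x 1 hx0).1 h4
  rwa [pow_one] at h6

/-- elements with given exponents one -/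
theorem c3dl_unif (T : Finset (HeightOneSpectrum (𝓞 L))) : ∃ w : L, w ≠ 0 ∧ ∀ Q ∈ T, ord Q w = 1 := by
  choose π hπ using fun Q : HeightOneSpectrum (𝓞 L) => Pool.Agent.H98.MF.exists_unif Q
  obtain ⟨w, hw, h1, -⟩ := Pool.Agent.H98.MF.weak_sq T (fun Q => (π Q : L)) (by
    intro Q _ h0
    have h2 := hπ Q
    rw [h0, Pool.Agent.H98.MF.ord_zero] at h2
    exact zero_ne_one h2) (fun _ => True)
  exact ⟨w, hw, fun Q hQ => by rw [(h1 Q hQ).2, hπ]⟩

/-- elements fixed by the generator -/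
theorem c3dl_fix [IsGalois K L] {σ : Gal(L/K)} (hσ : ∀ τ, τ ∈ Subgroup.zpowers σ) {y : L}
    (hy : σ y = y) : ∃ x : K, algebraMap K L x = y := by
  have h1 := (IsGalois.mem_range_algebraMap_iff_fixed (F := K) y).2 (by
    intro τ
    have h2 : Subgroup.zpowers σ ≤ MulAction.stabilizer Gal(L/K) y := by
      rw [Subgroup.zpowers_le]
      exact hy
    exact h2 (hσ τ))
  obtain ⟨x, hx⟩ := h1
  exact ⟨x, hx⟩

/-- sums of elements with large exponents -/
theorem c3dl_sum (Q : HeightOneSpectrum (𝓞 L)) (n : ℤ) (s : Finset ℕ) (f : ℕ → L)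
    (hf : ∀ i ∈ s, f i = 0 ∨ n ≤ ord Q (f i)) :
    ∑ i ∈ s, f i = 0 ∨ n ≤ ord Q (∑ i ∈ s, f i) := by
  classical
  induction s using Finset.induction_on with
  | empty => exact Or.inl (by simp)
  | insert i s hi ih =>
    rw [Finset.sum_insert hi]
    exact Pool.Agent.H98.MF.le_ord_add Q n (hf i (Finset.mem_insert_self _ _))
      (ih fun j hj => hf j (Finset.mem_insert_of_mem hj))

/-- primes outside `S` are unramified -/
theorem c3dl_unram {l : ℕ} (hl : l.Prime) {z : K} (hz : IsPrimitiveRoot z l) {a : Kˣ} {α : L}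
    (h : KE l a α) {P : HeightOneSpectrum (𝓞 K)} {Q : HeightOneSpectrum (𝓞 L)} (hQ : OvP P Q)
    (hlP : ord P (l : K) = 0) (ha : ord P (a : K) = 0) (x : Kˣ) :
    ord Q (algebraMap K L (x : K)) = ord P (x : K) := by
  classical
  obtain ⟨hg, σ, hσ, hcard, hσα⟩ := c3dl_gal hl hz h
  obtain ⟨e, he1, he⟩ := c3d_ord hQ
  suffices h1 : e = 1 by
    rw [he x, h1]
    simp
  by_contra hne
  have he2 : 2 ≤ e := by omega
  have hl0 : (l : L) ≠ 0 := by exact_mod_cast hl.ne_zero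
  have hQl : ord Q (l : L) = 0 := by
    have h3 := he (Units.mk0 (l : K) (by exact_mod_cast hl.ne_zero))
    rw [Units.val_mk0, hlP, mul_zero, map_natCast] at h3
    exact h3
  have hα0 : α ≠ 0 := by
    rintro rfl
    have h5 := h.pow
    rw [zero_pow hl.ne_zero] at h5
    exact a.ne_zero ((map_eq_zero (algebraMap K L)).1 h5.symm)
  have hQα : ord Q α = 0 := by
    have h3 := Pool.Agent.H98.MF.B.ord_pow Q α l
    rw [h.pow, he a, ha, mul_zero] at h3
    have h4 : (l : ℤ) ≠ 0 := by exact_mod_cast hl.ne_zero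
    exact (mul_eq_zero.1 h3.symm).resolve_left h4
  choose Qi hQi1 hQi2 using fun i : ℕ => c3d_cj (σ ^ i) Q
  obtain ⟨w, hw0, hw⟩ := c3dl_unif (insert Q ((Finset.range l).image Qi))
  -- the resolvents
  set ζ : L := algebraMap K L z with hζ
  have hζl : ζ ^ l = 1 := by rw [hζ, ← map_pow, hz.pow_eq_one, map_one]
  have hζ0 : ζ ≠ 0 := by
    intro h0
    rw [h0, zero_pow hl.ne_zero] at hζl
    exact zero_ne_one hζl
  have hζp : IsPrimitiveRoot ζ⁻¹ l := (hz.map_of_injective (algebraMap K L).injective).inv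
  have hQζ : ord Q ζ⁻¹ = 0 := by
    have h3 := Pool.Agent.H98.MF.B.ord_pow Q ζ⁻¹ l
    rw [inv_pow, hζl, inv_one, Pool.Agent.H98.MF.B.ord_one] at h3
    have h4 : (l : ℤ) ≠ 0 := by exact_mod_cast hl.ne_zero
    exact (mul_eq_zero.1 h3.symm).resolve_left h4
  have hσζ : σ ζ = ζ := AlgEquiv.commutes σ z
  have hσl : σ ^ l = 1 := by rw [← hcard]; exact pow_card_eq_one'
  let t : ℕ → ℕ → L := fun j i => ζ⁻¹ ^ (i * j) * (σ ^ i) w
  let R : ℕ → L := fun j => ∑ i ∈ Finset.range l, t j i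
  have hR : ∀ j, R j = ∑ i ∈ Finset.range l, t j i := fun _ => rfl
  have ht1 : ∀ j i, σ (t j i) = ζ ^ j * t j (i + 1) := by
    intro j i
    show σ (ζ⁻¹ ^ (i * j) * (σ ^ i) w) = ζ ^ j * (ζ⁻¹ ^ ((i + 1) * j) * (σ ^ (i + 1)) w)
    rw [map_mul, map_pow, map_inv₀, hσζ, pow_succ' σ, AlgEquiv.mul_apply, add_mul, one_mul,
      pow_add, mul_comm (ζ⁻¹ ^ (i * j)) (ζ⁻¹ ^ j), ← mul_assoc, ← mul_assoc, ← mul_pow,
      mul_inv_cancel₀ hζ0, one_pow, one_mul]
  have ht2 : ∀ j, t j l = t j 0 := by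
    intro j
    show ζ⁻¹ ^ (l * j) * (σ ^ l) w = ζ⁻¹ ^ (0 * j) * (σ ^ 0) w
    rw [hσl, pow_mul, inv_pow, hζl]
    simp
  have hσR : ∀ j, σ (R j) = ζ ^ j * R j := by
    intro j
    rw [hR, map_sum]
    simp only [ht1]
    rw [← Finset.mul_sum]
    congr 1
    have h3 := Finset.sum_range_succ (t j) l
    have h4 := Finset.sum_range_succ' (t j) l
    rw [ht2] at h3
    exact add_right_cancel (h4.symm.trans h3)
  have hRval : ∀ j, R j = 0 ∨ 1 ≤ ord Q (R j) := by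
    intro j
    refine c3dl_sum Q 1 _ _ fun i hi => Or.inr ?_
    show 1 ≤ ord Q (ζ⁻¹ ^ (i * j) * (σ ^ i) w)
    rw [Pool.Agent.H98.MF.B.ord_mul Q (pow_ne_zero _ (inv_ne_zero hζ0))
      ((map_ne_zero (σ ^ i)).2 hw0),
      Pool.Agent.H98.MF.B.ord_pow, hQζ, mul_zero, zero_add, hQi2, hw (Qi i)
      (Finset.mem_insert_of_mem (Finset.mem_image_of_mem _ hi))]
  have hRval2 : ∀ j, R j = 0 ∨ 2 ≤ ord Q (R j) := by
    intro j
    by_cases hR0 : R j = 0
    · exact Or.inl hR0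
    right
    have h3 := (hRval j).resolve_left hR0
    obtain ⟨y, hy⟩ := c3dl_fix hσ (y := R j / α ^ j) (by
      rw [map_div₀, hσR, map_pow, hσα, mul_pow]
      exact mul_div_mul_left _ _ (pow_ne_zero _ hζ0))
    have hy0 : y ≠ 0 := by
      rintro rfl
      rw [map_zero] at hy
      exact div_ne_zero hR0 (pow_ne_zero _ hα0) hy.symm
    have h4 : ord Q (algebraMap K L y) = ord Q (R j) := by
      rw [hy, Pool.Agent.H98.MF.B.ord_div Q hR0 (pow_ne_zero _ hα0),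
        Pool.Agent.H98.MF.B.ord_pow, hQα, mul_zero, sub_zero]
    have h5 := he (Units.mk0 y hy0)
    rw [Units.val_mk0, h4] at h5
    rw [h5] at h3 ⊢
    have h6 : 0 < ord P y := by
      by_contra h7
      push Not at h7
      have : (e : ℤ) * ord P y ≤ 0 := mul_nonpos_of_nonneg_of_nonpos (by positivity) h7
      omega
    have h7 : (2 : ℤ) ≤ e := by exact_mod_cast he2
    nlinarith
  have hsum : ∑ j ∈ Finset.range l, R j = (l : L) * w := by
    simp only [hR]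
    rw [Finset.sum_comm, Finset.sum_eq_single 0]
    · show ∑ j ∈ Finset.range l, ζ⁻¹ ^ (0 * j) * (σ ^ 0) w = (l : L) * w
      simp
    · intro i hi hi0
      show ∑ j ∈ Finset.range l, ζ⁻¹ ^ (i * j) * (σ ^ i) w = 0
      rw [← Finset.sum_mul]
      have h3 : (ζ⁻¹ ^ i) ≠ 1 := hζp.pow_ne_one_of_pos_of_lt hi0 (Finset.mem_range.1 hi)
      have h4 : ∑ j ∈ Finset.range l, ζ⁻¹ ^ (i * j) = 0 := by
        have h5 := geom_sum_eq h3 l
        rw [← pow_mul, mul_comm i l, pow_mul, hζp.pow_eq_one, one_pow, sub_self, zero_div] at h5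
        rw [← h5]
        exact Finset.sum_congr rfl fun j _ => pow_mul _ _ _
      rw [h4, zero_mul]
    · intro h3
      exact absurd (Finset.mem_range.2 hl.pos) h3
  have h3 := c3dl_sum Q 2 (Finset.range l) R fun j _ => hRval2 j
  rw [hsum, Pool.Agent.H98.MF.B.ord_mul Q hl0 hw0, hQl, hw Q (Finset.mem_insert_self _ _)] at h3
  rcases h3 with h3 | h3
  · exact mul_ne_zero hl0 hw0 h3
  · norm_num at h3

/-- elements with given exponents outside `S` -/
theorem c3dl_pres {S : Finset (HeightOneSpectrum (𝓞 K))} (hS : PrS S)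
    (n : HeightOneSpectrum (𝓞 K) → ℤ) (hn : {P | n P ≠ 0}.Finite) :
    ∃ b : Kˣ, ∀ P : HeightOneSpectrum (𝓞 K), P ∉ S → ord P (b : K) = n P := by
  classical
  refine ⟨∏ P ∈ hn.toFinset.filter (fun P => P ∉ S), gen S P ^ n P, fun R hR => ?_⟩
  rw [Pool.Agent.H98.MF.B.ord_prod]
  have h0 : ∀ y : Kˣ, ∀ n : ℤ, ord R ((y ^ n : Kˣ) : K) = n * ord R (y : K) := fun y n => by
    rw [Units.val_zpow_eq_zpow_val, Pool.Agent.H98.MF.B.ord_zpow]
  simp only [h0]
  by_cases hRT : R ∈ hn.toFinset.filter (fun P => P ∉ S)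
  · rw [Finset.sum_eq_single R]
    · rw [(gen_spec hS hR).1, mul_one]
    · intro Q hQ hne
      rw [(gen_spec hS (Finset.mem_filter.1 hQ).2).2 R hR (Ne.symm hne), mul_zero]
    · intro h
      exact absurd hRT h
  · have h1 : n R = 0 := by
      by_contra h2
      exact hRT (Finset.mem_filter.2 ⟨(Set.Finite.mem_toFinset _).2 h2, hR⟩)
    rw [h1, Finset.sum_eq_zero]
    intro Q hQ
    rw [(gen_spec hS (Finset.mem_filter.1 hQ).2).2 R hR (fun h => hRT (h ▸ hQ)), mul_zero]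

/-- Hilbert 90 for `S`-units -/
theorem c3dl_h90 {l : ℕ} (hl : l.Prime) {z : K} (hz : IsPrimitiveRoot z l) {a : Kˣ} {α : L}
    (h : KE l a α) {σ : Gal(L/K)} (hσ : ∀ τ, τ ∈ Subgroup.zpowers σ)
    {S : Finset (HeightOneSpectrum (𝓞 K))} {S' : Finset (HeightOneSpectrum (𝓞 L))}
    (hSS : OvS S S') (hadm : AdmL l S) (ha : a ∈ US S) (β : Lˣ) (hβ : β ∈ US S')
    (hN : Algebra.norm K (β : L) = 1) : ∃ u ∈ US S', (β : L) = σ (u : L) / (u : L) := by
  classical
  obtain ⟨hg, -⟩ := c3dl_gal hl hz h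
  haveI : IsCyclic Gal(L/K) := ⟨σ, hσ⟩
  obtain ⟨y, hy⟩ := groupCohomology.exists_div_of_norm_eq_one hσ hN
  have hσy : σ (y : L) ≠ 0 := (map_ne_zero σ).2 y.ne_zero
  -- primes outside
  have hout : ∀ (Q : HeightOneSpectrum (𝓞 L)) (P : HeightOneSpectrum (𝓞 K)),
      OvP P Q → (Q ∈ S' ↔ P ∈ S) := by
    intro Q P hQP
    rw [hSS Q]
    constructor
    · rintro ⟨P', hP', h1⟩
      have h3 : P = P' := HeightOneSpectrum.ext (by rw [← hQP, ← h1])
      rw [h3]
      exact hP'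
    · intro hP
      exact ⟨P, hP, hQP⟩
  have hcj : ∀ (τ : Gal(L/K)) (Q : HeightOneSpectrum (𝓞 L)), Q ∉ S' →
      ∃ Q' : HeightOneSpectrum (𝓞 L), Q' ∉ S' ∧ ∀ w : L, ord Q (τ w) = ord Q' w := by
    intro τ Q hQ
    obtain ⟨Q', hQ', h1⟩ := c3d_cj τ Q
    obtain ⟨P, hP⟩ := c3d_below (k := K) Q
    refine ⟨Q', fun h2 => hQ ?_, h1⟩
    rw [hout Q P hP]
    exact (hout Q' P (hQ'.trans hP)).1 h2
  have h1 : ∀ Q : HeightOneSpectrum (𝓞 L), Q ∉ S' → ord Q (σ (y : L)) = ord Q (y : L) := by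
    intro Q hQ
    have h2 := mem_US.1 hβ Q hQ
    rw [← hy, Pool.Agent.H98.MF.B.ord_div Q y.ne_zero hσy] at h2
    linarith
  have h2 : ∀ (i : ℕ) (Q : HeightOneSpectrum (𝓞 L)), Q ∉ S' →
      ord Q ((σ ^ i) (y : L)) = ord Q (y : L) := by
    intro i
    induction i with
    | zero => intro Q _; simp
    | succ i ih =>
      intro Q hQ
      obtain ⟨Q', hQ', h3⟩ := hcj σ Q hQ
      rw [pow_succ' σ, AlgEquiv.mul_apply, h3, ih Q' hQ', ← h3, h1 Q hQ]
  have h3 : ∀ (τ : Gal(L/K)) (Q : HeightOneSpectrum (𝓞 L)), Q ∉ S' →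
      ord Q (τ (y : L)) = ord Q (y : L) := by
    intro τ Q hQ
    have h4 := hσ τ
    rw [← mem_powers_iff_mem_zpowers] at h4
    obtain ⟨i, rfl⟩ := h4
    exact h2 i Q hQ
  choose Qc hQc using fun P : HeightOneSpectrum (𝓞 K) => c3d_above (L := L) P
  obtain ⟨b, hb⟩ := c3dl_pres hadm.prS (fun P => ord (Qc P) (y : L)) (by
    have h4 := Pool.Agent.H98.MF.B.ord_finite (y : L) y.ne_zero
    refine Set.Finite.preimage (f := Qc) (fun P _ P' _ hPP => ?_) h4
    apply HeightOneSpectrum.ext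
    rw [← hQc P, ← hQc P', hPP])
  let io : Kˣ →* Lˣ := Units.map ((algebraMap K L : K →+* L) : K →* L)
  have hio : ∀ x : Kˣ, ((io x : Lˣ) : L) = algebraMap K L (x : K) := fun x => rfl
  refine ⟨y⁻¹ * io b, mem_US.2 fun Q hQ => ?_, ?_⟩
  · obtain ⟨P, hP⟩ := c3d_below (k := K) Q
    have hPS : P ∉ S := fun h4 => hQ ((hout Q P hP).2 h4)
    have hlP : ord P (l : K) = 0 := by
      have h4 : ¬ 0 < ord P (l : K) := fun h4 => hPS (hadm.mem P h4)
      have h5 : 0 ≤ ord P (l : K) := by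
        have := Pool.Agent.H98.MF.B.ord_alg_nonneg P (l : 𝓞 K)
        rwa [map_natCast] at this
      omega
    rw [Units.val_mul, Pool.Agent.H98.MF.B.ord_mul Q (Units.ne_zero _) (Units.ne_zero _), hio,
      c3dl_unram hl hz h hP hlP (mem_US.1 ha P hPS), hb P hPS, Units.val_inv_eq_inv_val,
      Pool.Agent.H98.MF.B.ord_inv]
    obtain ⟨τ, hτ⟩ := c3dl_trans (hQc P) hP
    have h4 := hτ (y : L)
    have h5 : Qc P ∉ S' := fun h6 => hPS ((hout _ P (hQc P)).1 h6)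
    rw [h3 τ (Qc P) h5] at h4
    show -ord Q (y : L) + ord (Qc P) (y : L) = 0
    rw [h4]
    ring
  · rw [Units.val_mul, hio, map_mul, AlgEquiv.commutes, Units.val_inv_eq_inv_val, map_inv₀, ← hy]
    have h4 : algebraMap K L (b : K) ≠ 0 := (map_ne_zero _).2 b.ne_zero
    rw [mul_div_mul_right _ _ h4]
    field_simp

theorem c3dl_mem_pw {G : Type} [CommGroup G] {l : ℕ} {H : Subgroup G} {x : G} :
    x ∈ pw l H ↔ ∃ y ∈ H, y ^ l = x := by
  unfold pw
  rw [Subgroup.mem_map]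
  rfl

theorem c3dl_pw_map {G G' : Type} [CommGroup G] [CommGroup G'] (l : ℕ) (f : G →* G')
    (H : Subgroup G) : (pw l H).map f = pw l (H.map f) := by
  ext x
  rw [c3dl_mem_pw, Subgroup.mem_map]
  constructor
  · rintro ⟨y, hy, rfl⟩
    obtain ⟨w, hw, rfl⟩ := c3dl_mem_pw.1 hy
    exact ⟨f w, ⟨w, hw, rfl⟩, (map_pow f w l).symm⟩
  · rintro ⟨_, ⟨w, hw, rfl⟩, rfl⟩
    exact ⟨w ^ l, c3dl_mem_pw.2 ⟨w, hw, rfl⟩, map_pow f w l⟩

/-- the number of roots of unity -/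
theorem c3dl_tors {l : ℕ} (hl : l.Prime) {ζ : L} (hζ : IsPrimitiveRoot ζ l) (B : Subgroup Lˣ)
    (hB : ∀ x : Lˣ, x ^ l = 1 → x ∈ B) (H : Subgroup B) (hH : ∀ x : B, x ^ l = 1 → x ∈ H) :
    Nat.card {x : B // x ∈ H ∧ x ^ l = 1} = l := by
  haveI : NeZero l := ⟨hl.ne_zero⟩
  have h1 : Nat.card (rootsOfUnity l L) = l := hζ.card_rootsOfUnity
  refine (Nat.card_congr ?_).trans h1
  refine ⟨fun x => ⟨(x.1 : Lˣ), ?_⟩, fun x => ⟨⟨(x : Lˣ), ?_⟩, ?_⟩, ?_, ?_⟩
  · rw [mem_rootsOfUnity]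
    have h2 := x.2.2
    exact congrArg (fun y : B => (y : Lˣ)) h2
  · exact hB _ ((mem_rootsOfUnity _ _).1 x.2)
  · have h2 : (⟨(x : Lˣ), hB _ ((mem_rootsOfUnity _ _).1 x.2)⟩ : B) ^ l = 1 :=
      Subtype.ext ((mem_rootsOfUnity _ _).1 x.2)
    exact ⟨hH _ h2, h2⟩
  · intro x
    rfl
  · intro x
    rfl

/-- the arithmetic -/
theorem c3dl_arith {l : ℕ} (hl : l.Prime) {h m m' s : ℕ}
    (h1 : (h : ℚ) ^ (l - 1) * ((l ^ m' : ℕ) / (l : ℚ)) = ((l ^ m : ℕ) / (l : ℚ)) ^ l)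
    (h2 : m' + (l - 1) * s = l * m) : h * l = l ^ s := by
  have hl0 : (l : ℚ) ≠ 0 := by exact_mod_cast hl.ne_zero
  have h3 : ((h * l : ℕ) : ℚ) ^ (l - 1) = ((l ^ s : ℕ) : ℚ) ^ (l - 1) := by
    have h4 : (l : ℚ) ^ l = (l : ℚ) ^ (l - 1) * l := by
      rw [← pow_succ, Nat.sub_add_cancel hl.one_le]
    have h5 : (l : ℚ) ^ m' ≠ 0 := pow_ne_zero _ hl0
    have h6 : (((l : ℚ) ^ m) ^ l) = (l : ℚ) ^ m' * ((l : ℚ) ^ s) ^ (l - 1) := by
      rw [← pow_mul, ← pow_mul, ← pow_add, mul_comm s, h2, mul_comm]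
    push_cast at h1 ⊢
    rw [div_pow, h6, h4] at h1
    have h7 : (h : ℚ) ^ (l - 1) * (l : ℚ) ^ (l - 1) * ((l : ℚ) ^ m') =
        ((l : ℚ) ^ s) ^ (l - 1) * (l : ℚ) ^ m' := by
      have h8 : (l : ℚ) ^ (l - 1) ≠ 0 := pow_ne_zero _ hl0
      field_simp at h1
      rw [h1]
    rw [mul_pow]
    exact mul_right_cancel₀ h5 h7
  have h4 : (h * l) ^ (l - 1) = (l ^ s) ^ (l - 1) := by exact_mod_cast h3
  have h5 : l - 1 ≠ 0 := by
    have := hl.two_le
    omega
  exact Nat.pow_left_injective h5 h4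

end

/-- the index of the norms of `S`-units -/
theorem sc3d (hK : SKu) (h2 : SC2) (hc : SC3c) (hHb : SHb) (hN : SNG) : SC3d := by
  intro l hl hl2 K L _ _ _ _ _ z hz a α h S S' hSS hadm ha hS'
  classical
  obtain ⟨hg, σ, hσ, hcard, hσα⟩ := c3dl_gal hl hz h
  have hσl : σ ^ l = 1 := by rw [← hcard]; exact pow_card_eq_one'
  have hz' : IsPrimitiveRoot (algebraMap K L z) l := hz.map_of_injective (algebraMap K L).injective
  let io : Kˣ →* Lˣ := Units.map ((algebraMap K L : K →+* L) : K →* L)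
  have hio : ∀ x : Kˣ, ((io x : Lˣ) : L) = algebraMap K L (x : K) := fun x => rfl
  have hioinj : Function.Injective io := by
    intro x y hxy
    have h1 := congrArg (fun u : Lˣ => (u : L)) hxy
    exact Units.ext ((algebraMap K L).injective h1)
  let sg : Lˣ →* Lˣ := Units.map ((σ : L →+* L) : L →* L)
  have hsg : ∀ x : Lˣ, ((sg x : Lˣ) : L) = σ (x : L) := fun x => rfl
  have hν : ∀ x : Lˣ, ((io (nuL K L x) : Lˣ) : L) = ∏ i ∈ Finset.range l, (σ ^ i) (x : L) :=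
    fun x => c3dl_norm hσ hcard (x : L)
  -- primes
  have hout : ∀ (Q : HeightOneSpectrum (𝓞 L)) (P : HeightOneSpectrum (𝓞 K)),
      OvP P Q → (Q ∈ S' ↔ P ∈ S) := by
    intro Q P hQP
    rw [hSS Q]
    constructor
    · rintro ⟨P', hP', h1⟩
      have h3 : P = P' := HeightOneSpectrum.ext (by rw [← hQP, ← h1])
      rw [h3]
      exact hP'
    · intro hP
      exact ⟨P, hP, hQP⟩
  have hcj : ∀ (τ : Gal(L/K)) (Q : HeightOneSpectrum (𝓞 L)), Q ∉ S' →
      ∃ Q' : HeightOneSpectrum (𝓞 L), Q' ∉ S' ∧ ∀ w : L, ord Q (τ w) = ord Q' w := by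
    intro τ Q hQ
    obtain ⟨Q', hQ', h1⟩ := c3d_cj τ Q
    obtain ⟨P, hP⟩ := c3d_below (k := K) Q
    refine ⟨Q', fun h2 => hQ ?_, h1⟩
    rw [hout Q P hP]
    exact (hout Q' P (hQ'.trans hP)).1 h2
  have hA : ∀ x ∈ US S, io x ∈ US S' := by
    intro x hx
    refine mem_US.2 fun Q hQ => ?_
    obtain ⟨P, hP⟩ := c3d_below (k := K) Q
    obtain ⟨e, -, he⟩ := c3d_ord hP
    rw [hio, he x, mem_US.1 hx P (fun hPS => hQ ((hout Q P hP).2 hPS)), mul_zero]
  have hA' : ∀ x, io x ∈ US S' → x ∈ US S := by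
    intro x hx
    refine mem_US.2 fun P hP => ?_
    obtain ⟨Q, hQ⟩ := c3d_above (L := L) P
    obtain ⟨e, he1, he⟩ := c3d_ord hQ
    have h3 := mem_US.1 hx Q (fun h4 => hP ((hout Q P hQ).1 h4))
    rw [hio, he x] at h3
    rcases mul_eq_zero.1 h3 with h4 | h4
    · exfalso
      have : e = 0 := by exact_mod_cast h4
      omega
    · exact h4
  have hσS : ∀ (τ : Gal(L/K)), ∀ x ∈ US S', ∀ Q : HeightOneSpectrum (𝓞 L), Q ∉ S' →
      ord Q (τ (x : L)) = 0 := by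
    intro τ x hx Q hQ
    obtain ⟨Q', hQ', h1⟩ := hcj τ Q hQ
    rw [h1]
    exact mem_US.1 hx Q' hQ'
  have hB : ∀ x ∈ US S', nuL K L x ∈ US S := by
    intro x hx
    apply hA'
    refine mem_US.2 fun Q hQ => ?_
    rw [hν]
    have h1 : ∏ i ∈ Finset.range l, (σ ^ i) (x : L) =
        ((∏ i ∈ Finset.range l, Units.map (((σ ^ i : Gal(L/K)) : L →+* L) : L →* L) x : Lˣ) : L) := by
      rw [Units.coe_prod]
      rfl
    rw [h1, Pool.Agent.H98.MF.B.ord_prod]
    exact Finset.sum_eq_zero fun i _ => hσS (σ ^ i) x hx Q hQ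
  have hsgS : ∀ x : US S', sg (x : Lˣ) ∈ US S' := fun x =>
    mem_US.2 fun Q hQ => hσS σ x x.2 Q hQ
  let sgA : US S' →* US S' := (sg.comp (US S').subtype).codRestrict (US S') hsgS
  have hsgA : ∀ x : US S', (((sgA x : US S') : Lˣ) : L) = σ ((x : Lˣ) : L) := fun x => rfl
  have hitr : ∀ (n : ℕ) (x : US S'), (((itr sgA n x : US S') : Lˣ) : L) = (σ ^ n) ((x : Lˣ) : L) := by
    intro n
    induction n with
    | zero => intro x; simp [itr]
    | succ n ih =>
      intro x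
      show (((itr sgA n (sgA x) : US S') : Lˣ) : L) = _
      rw [ih, hsgA, pow_succ, AlgEquiv.mul_apply]
  have hid : itr sgA l = MonoidHom.id (US S') := by
    ext x
    show (((itr sgA l x : US S') : Lˣ) : L) = ((x : Lˣ) : L)
    rw [hitr, hσl]
    rfl
  have hnl : ∀ x : US S', ((nl l sgA x : US S') : Lˣ) = io (nuL K L (x : Lˣ)) := by
    intro x
    apply Units.ext
    rw [hν]
    have h1 : nl l sgA x = ∏ i ∈ Finset.range l, itr sgA i x := by
      unfold nl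
      rw [MonoidHom.finsetProd_apply]
    rw [h1]
    have h3 := map_prod ((Units.coeHom L).comp (US S').subtype) (fun i => itr sgA i x)
      (Finset.range l)
    refine h3.trans (Finset.prod_congr rfl fun i _ => hitr i x)
  have hdl : ∀ x : US S', ((dl sgA x : US S') : Lˣ) = sg (x : Lˣ) / (x : Lˣ) := fun x => rfl
  have hker : (nl l sgA).ker ≤ (dl sgA).range := by
    intro x hx
    have h1 : io (nuL K L (x : Lˣ)) = io 1 := by
      rw [← hnl, MonoidHom.mem_ker.1 hx, map_one]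
      rfl
    have h3 : Algebra.norm K ((x : Lˣ) : L) = 1 := by
      have h4 := congrArg (fun u : Kˣ => (u : K)) (hioinj h1)
      exact h4
    obtain ⟨u, hu, hu2⟩ := c3dl_h90 hl hz h hσ hSS hadm ha (x : Lˣ) x.2 h3
    refine ⟨⟨u, hu⟩, ?_⟩
    apply Subtype.ext
    rw [hdl]
    apply Units.ext
    rw [Units.val_div_eq_div_val, hu2]
    rfl
  -- torsion
  have htorS : ∀ x : Lˣ, x ^ l = 1 → x ∈ US S' := by
    intro x hx
    refine mem_US.2 fun Q _ => ?_
    have h3 := Pool.Agent.H98.MF.B.ord_pow Q (x : L) l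
    rw [← Units.val_pow_eq_pow_val, hx, Units.val_one, Pool.Agent.H98.MF.B.ord_one] at h3
    have h4 : (l : ℤ) ≠ 0 := by exact_mod_cast hl.ne_zero
    exact (mul_eq_zero.1 h3.symm).resolve_left h4
  have htorK : ∀ x : US S', x ^ l = 1 → x ∈ (dl sgA).ker := by
    intro x hx
    have h1 : ((x : Lˣ) : L) ^ l = 1 := by
      have h3 := congrArg (fun u : US S' => (((u : US S') : Lˣ) : L)) hx
      exact h3
    haveI : NeZero l := ⟨hl.ne_zero⟩
    obtain ⟨i, -, hi⟩ := hz'.eq_pow_of_pow_eq_one h1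
    rw [MonoidHom.mem_ker]
    apply Subtype.ext
    rw [hdl]
    apply Units.ext
    rw [Units.val_div_eq_div_val, hsg, ← hi, map_pow, AlgEquiv.commutes]
    exact div_self (pow_ne_zero _ (hz'.ne_zero hl.ne_zero))
  have hcT : Nat.card {x : US S' // x ∈ (⊤ : Subgroup (US S')) ∧ x ^ l = 1} = l :=
    c3dl_tors hl hz' (US S') htorS ⊤ fun x _ => Subgroup.mem_top x
  have hcK : Nat.card {x : US S' // x ∈ (dl sgA).ker ∧ x ^ l = 1} = l :=
    c3dl_tors hl hz' (US S') htorS (dl sgA).ker htorK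
  have hfin : {x : US S' | x ^ l = 1}.Finite := by
    have h1 : Finite {x : US S' // x ∈ (⊤ : Subgroup (US S')) ∧ x ^ l = 1} :=
      Nat.finite_of_card_ne_zero (by rw [hcT]; exact hl.ne_zero)
    refine (Set.finite_range (fun x : {x : US S' // x ∈ (⊤ : Subgroup (US S')) ∧ x ^ l = 1} =>
      (x : US S'))).subset fun x hx => ?_
    exact ⟨⟨x, Subgroup.mem_top x, hx⟩, rfl⟩
  -- the subgroups
  have hι : Function.Injective (US S').subtype := (US S').subtype_injective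
  have hmT : (⊤ : Subgroup (US S')).map (US S').subtype = US S' := by
    rw [← MonoidHom.range_eq_map, Subgroup.range_subtype]
  have hmK : (dl sgA).ker.map (US S').subtype = (US S).map io := by
    ext x
    rw [Subgroup.mem_map, Subgroup.mem_map]
    constructor
    · rintro ⟨y, hy, rfl⟩
      have h1 : σ ((y : Lˣ) : L) = ((y : Lˣ) : L) := by
        have h3 := congrArg (fun u : US S' => (u : Lˣ)) (MonoidHom.mem_ker.1 hy)
        have h4 : sg (y : Lˣ) / (y : Lˣ) = 1 := h3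
        rw [div_eq_one] at h4
        exact congrArg (fun u : Lˣ => (u : L)) h4
      obtain ⟨c, hc⟩ := c3dl_fix hσ h1
      have hc0 : c ≠ 0 := by
        rintro rfl
        rw [map_zero] at hc
        exact (y : Lˣ).ne_zero hc.symm
      have h3 : io (Units.mk0 c hc0) = (y : Lˣ) := Units.ext hc
      refine ⟨Units.mk0 c hc0, hA' _ ?_, h3⟩
      rw [h3]
      exact y.2
    · rintro ⟨c, hc, rfl⟩
      refine ⟨⟨io c, hA c hc⟩, ?_, rfl⟩
      rw [MonoidHom.mem_ker]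
      apply Subtype.ext
      rw [hdl]
      show sg (io c) / io c = 1
      rw [div_eq_one]
      apply Units.ext
      rw [hsg, hio, AlgEquiv.commutes]
  have hmN : (nl l sgA).range.map (US S').subtype = ((US S').map (nuL K L)).map io := by
    ext x
    rw [Subgroup.mem_map, Subgroup.mem_map]
    constructor
    · rintro ⟨_, ⟨y, rfl⟩, rfl⟩
      exact ⟨nuL K L (y : Lˣ), ⟨(y : Lˣ), y.2, rfl⟩, (hnl y).symm⟩
    · rintro ⟨_, ⟨y, hy, rfl⟩, rfl⟩
      exact ⟨nl l sgA ⟨y, hy⟩, ⟨_, rfl⟩, hnl ⟨y, hy⟩⟩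
  have e1 : (nl l sgA).range.relIndex (dl sgA).ker =
      ((US S').map (nuL K L)).relIndex (US S) := by
    rw [← Subgroup.relIndex_map_map_of_injective _ _ hι, hmN, hmK,
      Subgroup.relIndex_map_map_of_injective _ _ hioinj]
  have e2 : (pw l (⊤ : Subgroup (US S'))).relIndex ⊤ = l ^ mS S' := by
    rw [← Subgroup.relIndex_map_map_of_injective _ _ hι, c3dl_pw_map, hmT]
    exact h2 l hl L _ hz' S'
  have e3 : (pw l (dl sgA).ker).relIndex (dl sgA).ker = l ^ mS S := by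
    rw [← Subgroup.relIndex_map_map_of_injective _ _ hι, c3dl_pw_map, hmK, ← c3dl_pw_map,
      Subgroup.relIndex_map_map_of_injective _ _ hioinj]
    exact h2 l hl K _ hz S
  obtain ⟨-, h3⟩ := hHb l hl (US S') sgA hid (by
    rw [← Subgroup.relIndex_top_right, e2]
    exact pow_ne_zero _ hl.ne_zero) hfin hker
  unfold qH at h3
  rw [e1, e2, e3, hcT, hcK] at h3
  refine ⟨c3dl_arith hl h3 (hc l hl hl2 K L z hz a α h S S' hSS), ?_, ?_⟩
  · rintro _ ⟨x, hx, rfl⟩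
    exact hB x hx
  · rintro _ ⟨x, hx, rfl⟩
    exact c3dl_ngl hl hz h ⟨x, rfl⟩

end Pool.Agent.H92.EL
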