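import Pool.Agent.H92.EL.AStm
import Pool.Agent.H98.MF.C.C3e

/-!
# Project ELL (MP_a3214d), block A: split primes are generated by norms
-/

set_option autoImplicit false

open scoped BigOperators Pointwise Polynomial
open NumberField IsDedekindDomain

namespace Pool.Agent.H92.EL

open Pool.Agent.H98.MF (Om Gm ord Dec US PrS SUn mS nrm gen)
open Pool.Agent.H98.MF.B (conjP c3e_ord_conj c3e_ord_up)

section

variable {K L : Type} [Field K] [NumberField K] [Field L] [NumberField L] [Algebra K L]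

omit [NumberField K] in
private theorem ce_irr {l : ℕ} (hl : l.Prime) {a : Kˣ} (h : a ∉ pw l (⊤ : Subgroup Kˣ)) :
    Irreducible ((Polynomial.X : K[X]) ^ l - Polynomial.C (a : K)) := by
  refine X_pow_sub_C_irreducible_of_prime hl fun b hb => h ?_
  have hb0 : b ≠ 0 := by
    rintro rfl
    rw [zero_pow hl.ne_zero] at hb
    exact a.ne_zero hb.symm
  unfold pw
  rw [Subgroup.mem_map]
  refine ⟨Units.mk0 b hb0, Subgroup.mem_top _, ?_⟩
  rw [powMonoidHom_apply]
  apply Units.ext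
  rw [Units.val_pow_eq_pow_val, Units.val_mk0, hb]

private theorem ce_equiv {l : ℕ} (hl : l.Prime) {a : Kˣ} {α : L} (h : KE l a α) :
    Nonempty (AdjoinRoot ((Polynomial.X : K[X]) ^ l - Polynomial.C (a : K)) ≃ₐ[K] L) := by
  have hirr := ce_irr hl h.npw
  have := Fact.mk hirr
  have hne : ((Polynomial.X : K[X]) ^ l - Polynomial.C (a : K)) ≠ 0 := hirr.ne_zero
  let f : AdjoinRoot ((Polynomial.X : K[X]) ^ l - Polynomial.C (a : K)) →ₐ[K] L :=
    AdjoinRoot.liftAlgHom _ (Algebra.ofId K L) α (by simp [h.pow])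
  have hfin : Module.Finite K (AdjoinRoot ((Polynomial.X : K[X]) ^ l - Polynomial.C (a : K))) :=
    (AdjoinRoot.powerBasis hne).finite
  have hfr : Module.finrank K
      (AdjoinRoot ((Polynomial.X : K[X]) ^ l - Polynomial.C (a : K))) = l := by
    rw [(AdjoinRoot.powerBasis hne).finrank, AdjoinRoot.powerBasis_dim,
      Polynomial.natDegree_X_pow_sub_C]
  have hL : Module.Finite K L := Module.finite_of_finrank_pos (by rw [h.deg]; exact hl.pos)
  have hinj : Function.Injective f := f.toRingHom.injective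
  refine ⟨AlgEquiv.ofBijective f ⟨hinj, ?_⟩⟩
  have h2 := LinearMap.injective_iff_surjective_of_finrank_eq_finrank
    (f := f.toLinearMap) (by rw [hfr, h.deg])
  exact h2.1 hinj

private theorem ce_gal {l : ℕ} (hl : l.Prime) {z : K} (hz : IsPrimitiveRoot z l) {a : Kˣ}
    {α : L} (h : KE l a α) : IsGalois K L := by
  have hirr := ce_irr hl h.npw
  have := Fact.mk hirr
  have hζ : (primitiveRoots l K).Nonempty := ⟨z, (mem_primitiveRoots hl.pos).2 hz⟩
  have h1 := isSplittingField_AdjoinRoot_X_pow_sub_C hζ hirr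
  have h2 : IsGalois K (AdjoinRoot ((Polynomial.X : K[X]) ^ l - Polynomial.C (a : K))) :=
    isGalois_of_isSplittingField_X_pow_sub_C hζ hirr _
  obtain ⟨e⟩ := ce_equiv hl h
  exact IsGalois.of_algEquiv e

private theorem ce_inv [IsGalois K L] : Algebra.IsInvariant (𝓞 K) (𝓞 L) (L ≃ₐ[K] L) := by
  constructor
  intro b hb
  have h1 : (b : L) ∈ (⊥ : IntermediateField K L) := by
    rw [IsGalois.mem_bot_iff_fixed]
    intro σ
    have h2 : ((σ • b : 𝓞 L) : L) = b := by rw [hb σ]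
    exact h2
  obtain ⟨a, ha⟩ := IntermediateField.mem_bot.1 h1
  have h2 : IsIntegral ℤ a := by
    have h3 : IsIntegral ℤ (algebraMap K L a) := by rw [ha]; exact b.2
    exact (isIntegral_algebraMap_iff (algebraMap K L).injective).1 h3
  refine ⟨⟨a, h2⟩, ?_⟩
  exact RingOfIntegers.coe_injective ha

/-- conjugate primes lie over the same prime -/
private theorem ce_over (σ : L ≃ₐ[K] L) (R : HeightOneSpectrum (𝓞 L)) :
    (conjP σ.toRingEquiv R).asIdeal.comap (algebraMap (𝓞 K) (𝓞 L)) =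
      R.asIdeal.comap (algebraMap (𝓞 K) (𝓞 L)) := by
  ext c
  rw [Ideal.mem_comap, Ideal.mem_comap]
  show RingOfIntegers.mapRingEquiv σ.toRingEquiv (algebraMap (𝓞 K) (𝓞 L) c) ∈ R.asIdeal ↔ _
  have : RingOfIntegers.mapRingEquiv σ.toRingEquiv (algebraMap (𝓞 K) (𝓞 L) c) =
      algebraMap (𝓞 K) (𝓞 L) c := by
    apply RingOfIntegers.ext
    exact σ.commutes (c : K)
  rw [this]

/-- the Galois group is transitive on the primes above -/
private theorem ce_trans [IsGalois K L] (Q R : HeightOneSpectrum (𝓞 L))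
    (h : Q.asIdeal.comap (algebraMap (𝓞 K) (𝓞 L)) =
      R.asIdeal.comap (algebraMap (𝓞 K) (𝓞 L))) :
    ∃ σ : L ≃ₐ[K] L, conjP σ.toRingEquiv Q = R := by
  have hinv := ce_inv (K := K) (L := L)
  have h1 : SMulCommClass (L ≃ₐ[K] L) (𝓞 K) (𝓞 L) := by
    constructor
    intro σ c x
    rw [Algebra.smul_def, Algebra.smul_def]
    apply RingOfIntegers.coe_injective
    show σ (algebraMap K L (c : K) * (x : L)) = algebraMap K L (c : K) * σ (x : L)
    rw [map_mul, σ.commutes]
  have hQ := Q.isPrime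
  have hR := R.isPrime
  obtain ⟨g, hg⟩ := Algebra.IsInvariant.exists_smul_of_under_eq (𝓞 K) (𝓞 L) (L ≃ₐ[K] L)
    Q.asIdeal R.asIdeal h
  refine ⟨g⁻¹, HeightOneSpectrum.ext ?_⟩
  rw [hg]
  ext x
  rw [Ideal.mem_pointwise_smul_iff_inv_smul_mem]
  rfl

end

/-- split primes are generated by norms -/
theorem sc3e (hb : SC3b) : SC3e := by
  intro l hl K L _ _ _ _ _ z hz a α hα S S' hS hadm haS hpr P hP hloc
  have hgal := ce_gal hl hz hα
  have hfin : Finite (L ≃ₐ[K] L) := Nat.finite_of_card_ne_zero (by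
    rw [IsGalois.card_aut_eq_finrank, hα.deg]; exact hl.ne_zero)
  -- primes over a prime outside `S` are outside `S'`
  have hout : ∀ (P' : HeightOneSpectrum (𝓞 K)) (R : HeightOneSpectrum (𝓞 L)), P' ∉ S →
      OvP P' R → R ∉ S' := by
    intro P' R h1 h2 h3
    obtain ⟨P'', h4, h5⟩ := (hS R).1 h3
    apply h1
    have : P' = P'' := HeightOneSpectrum.ext (h2.symm.trans h5)
    rw [this]
    exact h4
  have hcard := (hb l hl K L z hz a α hα P).1 hloc
  have hfQ : Finite {Q : HeightOneSpectrum (𝓞 L) // OvP P Q} :=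
    Nat.finite_of_card_ne_zero (by rw [hcard]; exact hl.ne_zero)
  obtain ⟨⟨Q0, hQ0⟩⟩ : Nonempty {Q : HeightOneSpectrum (𝓞 L) // OvP P Q} := by
    by_contra h
    rw [not_nonempty_iff] at h
    rw [Nat.card_of_isEmpty] at hcard
    exact hl.ne_zero hcard.symm
  -- the conjugates are distinct
  let F : (L ≃ₐ[K] L) → {Q : HeightOneSpectrum (𝓞 L) // OvP P Q} :=
    fun σ => ⟨conjP σ.toRingEquiv Q0, (ce_over σ Q0).trans hQ0⟩
  have hFs : Function.Surjective F := by
    rintro ⟨R, hR⟩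
    obtain ⟨σ, hσ⟩ := ce_trans (K := K) Q0 R (hQ0.trans hR.symm)
    exact ⟨σ, Subtype.ext hσ⟩
  have hFb : Function.Bijective F := by
    rw [Nat.bijective_iff_surjective_and_card]
    exact ⟨hFs, by rw [IsGalois.card_aut_eq_finrank, hα.deg, hcard]⟩
  have hQ1 : conjP (1 : L ≃ₐ[K] L).toRingEquiv Q0 = Q0 := by
    apply HeightOneSpectrum.ext
    ext x
    exact Iff.rfl
  obtain ⟨β, hβ0, hβ1, hβ2⟩ := hpr Q0 (hout P Q0 hP hQ0)
  obtain ⟨e⟩ := ce_equiv hl hα
  have hN0 : Algebra.norm K β ≠ 0 := by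
    have hL : Module.Finite K L :=
      Module.finite_of_finrank_pos (by rw [hα.deg]; exact hl.pos)
    exact Algebra.norm_ne_zero_iff.2 hβ0
  have hσ0 : ∀ σ : L ≃ₐ[K] L, σ β ≠ 0 := fun σ => (map_ne_zero_iff _ σ.injective).2 hβ0
  -- exponents of the norm
  have hup : ∀ R : HeightOneSpectrum (𝓞 L), ord R (algebraMap K L (Algebra.norm K β)) =
      ∑ σ : L ≃ₐ[K] L, ord (conjP σ.toRingEquiv R) β := by
    intro R
    have hfd : FiniteDimensional K L :=
      Module.finite_of_finrank_pos (by rw [hα.deg]; exact hl.pos)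
    rw [Algebra.norm_eq_prod_automorphisms]
    have h1 : (∏ σ : L ≃ₐ[K] L, σ β) =
        ((∏ σ : L ≃ₐ[K] L, Units.mk0 (σ β) (hσ0 σ) : Lˣ) : L) := by
      rw [Units.coe_prod]
      exact Finset.prod_congr rfl fun σ _ => (Units.val_mk0 (hσ0 σ)).symm
    rw [h1, Pool.Agent.H98.MF.B.ord_prod]
    refine Finset.sum_congr rfl fun σ _ => ?_
    rw [Units.val_mk0]
    exact c3e_ord_conj σ.toRingEquiv R hβ0
  refine ⟨Units.mk0 _ hN0, ?_, ?_, ?_⟩
  · unfold NGL
    have hβ' : e.symm β ≠ 0 := (map_ne_zero_iff _ e.symm.injective).2 hβ0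
    have hunit : e.symm β * e.symm β⁻¹ = 1 := by
      rw [← map_mul, mul_inv_cancel₀ hβ0, map_one]
    have hunit' : e.symm β⁻¹ * e.symm β = 1 := by
      rw [← map_mul, inv_mul_cancel₀ hβ0, map_one]
    refine ⟨⟨e.symm β, e.symm β⁻¹, hunit, hunit'⟩, ?_⟩
    apply Units.ext
    rw [Units.coe_map, Units.val_mk0]
    exact Algebra.norm_eq_of_algEquiv e.symm β
  · rw [Units.val_mk0]
    obtain ⟨n, hn, hord⟩ := c3e_ord_up P Q0 hQ0
    have h1 := hup Q0
    rw [hord _ hN0, Finset.sum_eq_single_of_mem (1 : L ≃ₐ[K] L) (Finset.mem_univ _), hQ1,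
      hβ1] at h1
    · have hn' : (1 : ℤ) ≤ n := by exact_mod_cast hn
      have hpos : 0 < ord P (Algebra.norm K β) := by
        by_contra hneg
        push Not at hneg
        nlinarith
      nlinarith
    · intro σ _ hσ
      refine hβ2 _ (hout P _ hP ((ce_over σ Q0).trans hQ0)) fun h => hσ ?_
      apply hFb.1
      apply Subtype.ext
      show conjP σ.toRingEquiv Q0 = conjP (1 : L ≃ₐ[K] L).toRingEquiv Q0
      rw [h, hQ1]
  · intro P' hP' hPP'
    rw [Units.val_mk0]
    obtain ⟨R, hRo⟩ : ∃ R : HeightOneSpectrum (𝓞 L), OvP P' R := by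
      have hPm := P'.isMaximal
      obtain ⟨J, hJ1, hJ2⟩ :=
        Ideal.exists_maximal_ideal_liesOver_of_isIntegral P'.asIdeal (S := 𝓞 L)
      refine ⟨⟨J, hJ1.isPrime, ?_⟩, hJ2.over.symm⟩
      intro hJ
      apply P'.ne_bot
      rw [hJ2.over, hJ]
      exact Ideal.comap_bot_of_injective _ (FaithfulSMul.algebraMap_injective (𝓞 K) (𝓞 L))
    obtain ⟨n, hn, hord⟩ := c3e_ord_up P' R hRo
    have h1 := hup R
    rw [hord _ hN0, Finset.sum_eq_zero] at h1
    · have hn' : (n : ℤ) ≠ 0 := by exact_mod_cast hn.ne'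
      exact (mul_eq_zero.1 h1).resolve_left hn'
    · intro σ _
      refine hβ2 _ (hout P' _ hP' ((ce_over σ R).trans hRo)) fun h => hPP' ?_
      apply HeightOneSpectrum.ext
      have h2 := (ce_over σ R).trans hRo
      rw [h] at h2
      exact h2.symm.trans hQ0

end Pool.Agent.H92.EL
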