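import Pool.Agent.H92.EL.AStm
import Pool.Agent.H98.MF.L.Fld

/-!
# Project ELL (MP_a3214d), block A, row A15: complete splitting in an extension of degree `l ^ 2`
-/

set_option autoImplicit false

open scoped BigOperators Pointwise
open NumberField IsDedekindDomain

namespace Pool.Agent.H92.EL

open Pool.Agent.H98.MF (Om Gm ord Dec US PrS SUn mS nrm gen FixD omK_galois ker_openK)

section

variable {l : ℕ} {K : Type} [Field K] [NumberField K] {z : K}

private theorem c3g_one (ku : KuF l K z) (σ : Gm K) : chl l z ((1 : Kˣ) : K) σ = 0 :=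
  (ku.zero 1).2 (one_mem _) σ

private theorem c3g_pow (ku : KuF l K z) (a : Kˣ) (σ : Gm K) (n : ℕ) :
    chl l z ((a ^ n : Kˣ) : K) σ = n * chl l z (a : K) σ := by
  induction n with
  | zero => rw [pow_zero, c3g_one ku, Nat.cast_zero, zero_mul]
  | succ n ih => rw [pow_succ, ku.mul, ih, Nat.cast_succ]; ring

/-- the joint character -/
private noncomputable def c3g_f (ku : KuF l K z) (a a' : Kˣ) :
    Gm K →* Multiplicative (ZMod l × ZMod l) :=
  MonoidHom.mk' (fun σ => Multiplicative.ofAdd (chl l z (a : K) σ, chl l z (a' : K) σ))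
    (fun σ τ => by
      rw [ku.hom, ku.hom, ← ofAdd_add, Prod.mk_add_mk])

private theorem c3g_mem (ku : KuF l K z) (a a' : Kˣ) (σ : Gm K) :
    σ ∈ (c3g_f ku a a').ker ↔ chl l z (a : K) σ = 0 ∧ chl l z (a' : K) σ = 0 := by
  rw [MonoidHom.mem_ker]
  show Multiplicative.ofAdd (chl l z (a : K) σ, chl l z (a' : K) σ) = 1 ↔ _
  rw [ofAdd_eq_one, Prod.mk_eq_zero]

private theorem c3g_lc (ku : KuF l K z) (a a' : Kˣ) : IsLocallyConstant (c3g_f ku a a') :=
  (ku.lc a).comp₂ (ku.lc a') (fun x y => Multiplicative.ofAdd (x, y))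

private theorem c3g_surj (hl : l.Prime) (ku : KuF l K z) (a a' : Kˣ) (hI : Ind2 l a a') :
    Function.Surjective (c3g_f ku a a') := by
  have : Fact l.Prime := ⟨hl⟩
  let A : AddSubgroup (ZMod l × ZMod l) :=
    { carrier := {v | ∃ σ, (chl l z (a : K) σ, chl l z (a' : K) σ) = v}
      add_mem' := by
        rintro v w ⟨σ, rfl⟩ ⟨τ, rfl⟩
        refine ⟨σ * τ, ?_⟩
        rw [ku.hom, ku.hom, Prod.mk_add_mk]
      zero_mem' := by
        refine ⟨1, ?_⟩
        have h1 : ∀ b : Kˣ, chl l z (b : K) 1 = 0 := by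
          intro b
          have h2 := ku.hom b 1 1
          rw [mul_one] at h2
          exact left_eq_add.1 h2
        rw [h1, h1]
        rfl
      neg_mem' := by
        rintro v ⟨σ, rfl⟩
        refine ⟨σ⁻¹, ?_⟩
        have h1 : ∀ b : Kˣ, chl l z (b : K) σ⁻¹ = -chl l z (b : K) σ := by
          intro b
          have h2 := ku.hom b 1 1
          rw [mul_one] at h2
          have h3 := ku.hom b σ σ⁻¹
          rw [mul_inv_cancel, left_eq_add.1 h2] at h3
          exact (neg_eq_of_add_eq_zero_right h3.symm).symm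
        rw [h1, h1]
        rfl }
  have hA : ∀ v, v ∈ A ↔ ∃ σ, (chl l z (a : K) σ, chl l z (a' : K) σ) = v := fun v => Iff.rfl
  have htop : AddSubgroup.toZModSubmodule l A = ⊤ := by
    by_contra hne
    obtain ⟨g, hg0, hg⟩ := Submodule.exists_le_ker_of_lt_top _ (lt_top_iff_ne_top.2 hne)
    have hlin : ∀ x y : ZMod l, g (x, y) = x * g (1, 0) + y * g (0, 1) := by
      intro x y
      have h1 : ((x, y) : ZMod l × ZMod l) = x • (1, 0) + y • (0, 1) := by
        rw [Prod.smul_mk, Prod.smul_mk, Prod.mk_add_mk, smul_eq_mul, smul_eq_mul, smul_eq_mul,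
          smul_eq_mul, mul_one, mul_zero, mul_zero, mul_one, add_zero, zero_add]
      rw [h1, map_add, map_smul, map_smul, smul_eq_mul, smul_eq_mul]
    have hz : ∀ σ : Gm K, chl l z (a : K) σ * g (1, 0) + chl l z (a' : K) σ * g (0, 1) = 0 := by
      intro σ
      rw [← hlin]
      have h1 : (chl l z (a : K) σ, chl l z (a' : K) σ) ∈ AddSubgroup.toZModSubmodule l A := by
        rw [AddSubgroup.mem_toZModSubmodule, hA]
        exact ⟨σ, rfl⟩
      exact LinearMap.mem_ker.1 (hg h1)
    have h2 := hI (g (1, 0)) (g (0, 1)) ((ku.zero _).1 (fun σ => by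
      rw [ku.mul, c3g_pow ku, c3g_pow ku, ZMod.natCast_zmod_val, ZMod.natCast_zmod_val]
      linear_combination hz σ))
    apply hg0
    apply LinearMap.ext
    rintro ⟨x, y⟩
    rw [hlin, h2.1, h2.2, mul_zero, mul_zero, add_zero]
    rfl
  intro v
  have h1 : Multiplicative.toAdd v ∈ AddSubgroup.toZModSubmodule l A := by
    rw [htop]
    exact Submodule.mem_top
  rw [AddSubgroup.mem_toZModSubmodule, hA] at h1
  obtain ⟨σ, hσ⟩ := h1
  exact ⟨σ, congrArg Multiplicative.ofAdd hσ⟩

private theorem c3g_index (hl : l.Prime) (ku : KuF l K z) (a a' : Kˣ) (hI : Ind2 l a a') :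
    (c3g_f ku a a').ker.index = l ^ 2 := by
  have : NeZero l := ⟨hl.ne_zero⟩
  rw [Subgroup.index_ker, MonoidHom.range_eq_top.2 (c3g_surj hl ku a a' hI)]
  have h1 : Nat.card (⊤ : Subgroup (Multiplicative (ZMod l × ZMod l))) =
      Nat.card (ZMod l × ZMod l) := Nat.card_congr Subgroup.topEquiv.toEquiv
  rw [h1, Nat.card_prod, Nat.card_zmod, pow_two]

end

/-- complete splitting in an extension of degree `l ^ 2` -/
theorem sc3g (hK : SKu) (h1 : SOne) (hS : SSd) : SC3g := by
  intro l hl K L _ _ _ _ _ z hz a a' α α' hI hE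
  have hne : NeZero l := ⟨hl.ne_zero⟩
  have ku := hK l hl K z hz
  have hfin : FiniteDimensional K L := Module.finite_of_finrank_pos (by
    rw [hE.deg]
    exact pow_pos hl.pos 2)
  have hZp : IsPrimitiveRoot (algebraMap K (Om K) z) l :=
    hz.map_of_injective (algebraMap K (Om K)).injective
  let ι : L →ₐ[K] Om K := IsAlgClosed.lift
  have hfix : ∀ (b : Kˣ) (β : L), β ^ l = algebraMap K L b → ∀ σ : Gm K, σ (ι β) = ι β →
      chl l z (b : K) σ = 0 := by
    intro b β hβ σ hσ
    have h2 : (ι β) ^ l = algebraMap K (Om K) b := by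
      rw [← map_pow, hβ, ι.commutes]
    have h3 := ku.root b (ι β) h2 σ
    rw [hσ] at h3
    have h4 : ι β ≠ 0 := by
      intro h0
      rw [h0, zero_pow hl.ne_zero] at h2
      exact b.ne_zero ((map_eq_zero _).1 h2.symm)
    have h5 : algebraMap K (Om K) z ^ (chl l z (b : K) σ).val = 1 :=
      mul_right_cancel₀ h4 (by rw [← h3, one_mul])
    have h6 := hZp.pow_inj (ZMod.val_lt (chl l z (b : K) σ)) hl.pos (by rw [h5, pow_zero])
    exact (ZMod.val_eq_zero _).1 h6
  have hle : ι.fieldRange.fixingSubgroup ≤ (c3g_f ku a a').ker := by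
    intro σ hσ
    rw [IntermediateField.mem_fixingSubgroup_iff] at hσ
    rw [c3g_mem]
    exact ⟨hfix a α hE.pow σ (hσ _ ⟨α, rfl⟩), hfix a' α' hE.pow' σ (hσ _ ⟨α', rfl⟩)⟩
  have hrank : Module.finrank K ι.fieldRange = l ^ 2 := by
    rw [← hE.deg]
    exact ((AlgEquiv.ofInjectiveField ι).toLinearEquiv.finrank_eq).symm
  have hidx : ι.fieldRange.fixingSubgroup.index = l ^ 2 := by
    rw [← IntermediateField.finrank_eq_fixingSubgroup_index (Om K) ι.fieldRange, hrank]
  have heq : ι.fieldRange.fixingSubgroup = (c3g_f ku a a').ker := by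
    refine le_antisymm hle ?_
    have h2 := Subgroup.relIndex_mul_index hle
    rw [hidx, c3g_index hl ku a a' hI] at h2
    have h3 : 0 < l ^ 2 := pow_pos hl.pos 2
    have h4 : ι.fieldRange.fixingSubgroup.relIndex (c3g_f ku a a').ker = 1 := by
      apply Nat.eq_of_mul_eq_mul_right h3
      rw [h2, one_mul]
    exact Subgroup.relIndex_eq_one.1 h4
  have hgE : IsGalois K ι.fieldRange := by
    refine (InfiniteGalois.normal_iff_isGalois ι.fieldRange).1 ?_
    rw [heq]
    infer_instance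
  let e : L ≃ₐ[K] ι.fieldRange := AlgEquiv.ofInjectiveField ι
  have hgL : IsGalois K L := IsGalois.of_algEquiv e.symm
  refine ⟨hgL, fun P => ?_⟩
  have h2 := (hS K L ι P).1
  rw [hE.deg] at h2
  rw [h2, ← (h1 l hl K z hz P).1 a, ← (h1 l hl K z hz P).1 a']
  constructor
  · intro h
    have h3 : ∀ σ ∈ Dec P, σ ∈ (c3g_f ku a a').ker := by
      intro σ hσ
      rw [← heq, IntermediateField.mem_fixingSubgroup_iff]
      rintro _ ⟨x, rfl⟩
      exact h σ hσ x
    exact ⟨fun σ hσ => ((c3g_mem ku a a' σ).1 (h3 σ hσ)).1,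
      fun σ hσ => ((c3g_mem ku a a' σ).1 (h3 σ hσ)).2⟩
  · rintro ⟨h3, h4⟩ σ hσ x
    have h5 : σ ∈ ι.fieldRange.fixingSubgroup := by
      rw [heq, c3g_mem]
      exact ⟨h3 σ hσ, h4 σ hσ⟩
    exact (IntermediateField.mem_fixingSubgroup_iff _ _).1 h5 _ ⟨x, rfl⟩

end Pool.Agent.H92.EL
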