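import Pool.Agent.H92.EL.AStm
import Pool.Agent.H98.MF.C.CI

/-!
# Project ELL (MP_a3214d), block A: the index of the elements that are local powers at `S`
-/

set_option autoImplicit false

open scoped BigOperators Pointwise nonZeroDivisors
open NumberField IsDedekindDomain

namespace Pool.Agent.H92.EL

open Pool.Agent.H98.MF (ord mS nrm)
open Pool.Agent.H98.MF.B (ci_index_iInf ci_ord_eq)

section

variable {K : Type} [Field K] [NumberField K]

/-- the product formula for `l` -/
private theorem ci_prod_l (l : ℕ) (hl : l.Prime) (S : Finset (HeightOneSpectrum (𝓞 K)))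
    (hS : ∀ P : HeightOneSpectrum (𝓞 K), 0 < ord P (l : K) → P ∈ S) :
    ∏ P ∈ S, nrm P ^ (ord P (l : K)).toNat = l ^ Module.finrank ℚ K := by
  classical
  have h2 : (l : 𝓞 K) ≠ 0 := Nat.cast_ne_zero.2 hl.ne_zero
  have hspan : (Ideal.span {(l : 𝓞 K)}) ≠ 0 := by
    rwa [Ne, Ideal.zero_eq_bot, Ideal.span_singleton_eq_bot]
  have hord : ∀ P : HeightOneSpectrum (𝓞 K), ord P (l : K) = (Associates.mk P.asIdeal).count
      (Associates.mk (Ideal.span {(l : 𝓞 K)})).factors := fun P => by
    rw [← ci_ord_eq P (l : 𝓞 K) h2]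
    congr 1
  have h1 := Ideal.finprod_heightOneSpectrum_factorization hspan
  have h3 : Ideal.absNorm (Ideal.span {(l : 𝓞 K)}) = l ^ Module.finrank ℚ K := by
    rw [Ideal.absNorm_span_singleton]
    have : (l : 𝓞 K) = algebraMap ℤ (𝓞 K) (l : ℤ) := by simp
    rw [this, Algebra.norm_algebraMap, Int.natAbs_pow, Int.natAbs_natCast]
    congr 1
    exact RingOfIntegers.rank K
  have h4 : ∏ᶠ v : HeightOneSpectrum (𝓞 K), v.maxPowDividing (Ideal.span {(l : 𝓞 K)}) =
      ∏ P ∈ S, P.maxPowDividing (Ideal.span {(l : 𝓞 K)}) := by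
    apply finprod_eq_prod_of_mulSupport_subset
    intro P hP
    rw [Function.mem_mulSupport] at hP
    apply hS
    rw [hord]
    by_contra hcon
    apply hP
    have : (Associates.mk P.asIdeal).count
      (Associates.mk (Ideal.span {(l : 𝓞 K)})).factors = 0 := by omega
    rw [HeightOneSpectrum.maxPowDividing, this, pow_zero]
  rw [← h3]
  conv_rhs => rw [← h1, h4, map_prod]
  refine Finset.prod_congr rfl fun P _ => ?_
  rw [HeightOneSpectrum.maxPowDividing, map_pow, nrm, hord, Int.toNat_natCast]

/-- a field with a primitive root of unity of odd prime order has no real place -/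
private theorem ci_real (l : ℕ) (hl : l.Prime) (hl2 : l ≠ 2) (z : K)
    (hz : IsPrimitiveRoot z l) : InfinitePlace.nrRealPlaces K = 0 := by
  classical
  have h0 : IsEmpty {w : InfinitePlace K // w.IsReal} := by
    constructor
    rintro ⟨w, hw⟩
    have h1 : (InfinitePlace.embedding_of_isReal hw z) ^ l = 1 := by
      rw [← map_pow, hz.pow_eq_one, map_one]
    have hodd : Odd l := hl.odd_of_ne_two hl2
    have h2 : InfinitePlace.embedding_of_isReal hw z = 1 := by
      have h3 := hodd.strictMono_pow (R := ℝ)
      apply h3.injective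
      simpa using h1
    have h4 : z = 1 := by
      apply (InfinitePlace.embedding_of_isReal hw).injective
      rw [h2, map_one]
    rw [h4] at hz
    have h5 := hz.unique IsPrimitiveRoot.one
    exact hl.one_lt.ne' h5
  unfold InfinitePlace.nrRealPlaces
  exact Fintype.card_eq_zero

end

/-- the index of the elements that are local powers at `S` -/
theorem sci (_hM : SMem) (hX : SIdx) (hW : SWk) : SCI := by
  classical
  intro l hl hl2 K _ _ z hz S hS
  unfold KW
  rw [ci_index_iInf S (fun P : HeightOneSpectrum (𝓞 K) => WS l P) (hW l hl K S)]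
  simp only [hX l hl K z hz]
  rw [Finset.prod_mul_distrib, Finset.prod_const, ci_prod_l l hl S hS,
    ← InfinitePlace.card_add_two_mul_card_eq_rank K]
  unfold mS
  rw [ci_real l hl hl2 z hz, ← pow_mul, ← pow_add]
  congr 1
  ring

end Pool.Agent.H92.EL
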