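import Pool.Agent.H92.EL.Ku
import Pool.Agent.H98.MF.L.CobN

/-!
# Project ELL (MP_a3214d), block A, row A10: cup products and norms
-/

set_option autoImplicit false
set_option linter.unusedSectionVars false

open scoped BigOperators Pointwise
open NumberField IsDedekindDomain Filter Topology

namespace Pool.Agent.H92.EL

open Pool.Agent.H98.MF (Om Gm cn_ev)

section

variable {l : ℕ} [NeZero l] {F : Type} [Field F]

theorem cn_kuz_nat {w : F} (hw : w ^ l = 1) (c : ZMod l) (n : ℕ) :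
    kuz w (c * (n : ZMod l)) = kuz w c ^ n := by
  induction n with
  | zero => rw [Nat.cast_zero, mul_zero, kuz_zero, pow_zero]
  | succ n ih => rw [Nat.cast_succ, mul_add, mul_one, kuz_add hw, ih, pow_succ]

theorem cn_kuz_one {w : F} (hw : w ^ l = 1) (n : ℕ) : kuz w (n : ZMod l) = w ^ n := by
  unfold kuz
  rw [ZMod.val_natCast]
  exact (pow_eq_pow_mod _ hw).symm

theorem cn_root {w : F} (hw : IsPrimitiveRoot w l) {x y : F} (hy : y ≠ 0)
    (h : x ^ l = y ^ l) : ∃ e : ZMod l, x = kuz w e * y := by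
  obtain ⟨e, he⟩ := kuz_ex hw (x := x / y) (by
    rw [div_pow, h, div_self (pow_ne_zero _ hy)])
  exact ⟨e, by rw [← he, div_mul_cancel₀ _ hy]⟩

end

section

variable {l : ℕ} [NeZero l] {K : Type} [Field K] [NumberField K]

/-- symmetry of the coboundary condition -/
theorem cbl_swap {z : K} (hz : IsPrimitiveRoot z l) (D : Subgroup (Gm K)) (a b : Kˣ)
    (h : CbL l z D (a : K) (b : K)) : CbL l z D (b : K) (a : K) := by
  obtain ⟨f, hf, hc⟩ := h
  have hlc : ∀ c : Kˣ, IsLocallyConstant (chl l z (c : K)) := fun c =>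
    (IsLocallyConstant.iff_eventually_eq _).mpr (ku_ev hz c.ne_zero)
  refine ⟨fun σ => chl l z (a : K) σ * chl l z (b : K) σ - f σ,
    ((hlc a).mul (hlc b)).sub hf, fun σ hσ τ hτ => ?_⟩
  simp only
  rw [hc σ hσ τ hτ, ku_hom hz a.ne_zero, ku_hom hz b.ne_zero]
  ring

theorem cn_chl_pow {z : K} (hz : IsPrimitiveRoot z l) (a : Kˣ) (s : Gm K) (n : ℕ) :
    chl l z (a : K) (s ^ n) = (n : ZMod l) * chl l z (a : K) s := by
  induction n with
  | zero =>
    have h1 := ku_hom hz a.ne_zero (1 : Gm K) 1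
    rw [mul_one] at h1
    have h2 : chl l z (a : K) (1 : Gm K) = 0 := left_eq_add.1 h1
    rw [pow_zero, h2, Nat.cast_zero, zero_mul]
  | succ n ih =>
    rw [pow_succ, ku_hom hz a.ne_zero, ih, Nat.cast_succ]
    ring

theorem cn_chl_inv {z : K} (hz : IsPrimitiveRoot z l) (a : Kˣ) (s : Gm K) :
    chl l z (a : K) s⁻¹ = - chl l z (a : K) s := by
  have h1 := ku_hom hz a.ne_zero s s⁻¹
  have h0 := cn_chl_pow hz a s 0
  rw [pow_zero, Nat.cast_zero, zero_mul] at h0
  rw [mul_inv_cancel, h0] at h1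
  exact (neg_eq_of_add_eq_zero_right h1.symm).symm

/-- norms give coboundaries -/
theorem cn_of_norm {z : K} (hz : IsPrimitiveRoot z l) (D : Subgroup (Gm K)) (a b : Kˣ)
    {s : Gm K} (hs : s ∈ D) (hsa : chl l z (a : K) s = 1) {g : Om K}
    (hg : ∀ σ ∈ D, chl l z (a : K) σ = 0 → σ g = g)
    (hN : ∏ i ∈ Finset.range l, (s ^ i) g = algebraMap K (Om K) (b : K)) :
    CbL l z D (b : K) (a : K) := by
  classical
  have hl0 : 0 < l := Nat.pos_of_ne_zero (NeZero.ne l)
  set W : Om K := algebraMap K (Om K) z with hWdef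
  have hW : IsPrimitiveRoot W l := ku_w hz
  have hW1 : W ^ l = 1 := hW.pow_eq_one
  set B0 : Om K := algebraMap K (Om K) (b : K) with hB0def
  have hB0 : B0 ≠ 0 := (map_ne_zero (algebraMap K (Om K))).2 b.ne_zero
  -- powers of `s`
  have hsn : ∀ n : ℕ, chl l z (a : K) (s ^ n) = (n : ZMod l) := by
    intro n
    rw [cn_chl_pow hz, hsa, mul_one]
  have hsD : ∀ n : ℕ, s ^ n ∈ D := fun n => D.pow_mem hs n
  have hmul : ∀ (m n : ℕ) (x : Om K), (s ^ (m + n)) x = (s ^ m) ((s ^ n) x) := by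
    intro m n x
    rw [pow_add, AlgEquiv.mul_apply]
  have hinj : ∀ (σ : Gm K) {x : Om K}, x ≠ 0 → σ x ≠ 0 := fun σ x hx => (map_ne_zero σ).2 hx
  -- elements fixed by the kernel
  let Fx : Om K → Prop := fun x => ∀ σ ∈ D, chl l z (a : K) σ = 0 → σ x = x
  have Fx_mul : ∀ x y, Fx x → Fx y → Fx (x * y) := by
    intro x y hx hy σ hσ h0
    rw [map_mul, hx σ hσ h0, hy σ hσ h0]
  have Fx_inv : ∀ x, Fx x → Fx x⁻¹ := by
    intro x hx σ hσ h0
    rw [map_inv₀, hx σ hσ h0]
  have Fx_pow : ∀ x (n : ℕ), Fx x → Fx (x ^ n) := by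
    intro x n hx σ hσ h0
    rw [map_pow, hx σ hσ h0]
  have Fx_alg : ∀ c : K, Fx (algebraMap K (Om K) c) := by
    intro c σ _ _
    exact σ.commutes c
  have Fx_act : ∀ (t : Gm K), t ∈ D → ∀ x, Fx x → Fx (t x) := by
    intro t ht x hx σ hσ h0
    have h1 : t⁻¹ * σ * t ∈ D := D.mul_mem (D.mul_mem (D.inv_mem ht) hσ) ht
    have h2 : chl l z (a : K) (t⁻¹ * σ * t) = 0 := by
      rw [ku_hom hz a.ne_zero, ku_hom hz a.ne_zero, cn_chl_inv hz, h0]
      ring
    have h3 := hx _ h1 h2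
    calc σ (t x) = t ((t⁻¹ * σ * t) x) := by
          rw [← AlgEquiv.mul_apply, ← AlgEquiv.mul_apply]
          congr 1
          group
      _ = t x := by rw [h3]
  have hkey : ∀ x ∈ D, ∀ y, Fx y → x y = (s ^ (chl l z (a : K) x).val) y := by
    intro x hx y hy
    set i : ℕ := (chl l z (a : K) x).val with hi
    have h1 : (s ^ i)⁻¹ * x ∈ D := D.mul_mem (D.inv_mem (hsD i)) hx
    have h2 : chl l z (a : K) ((s ^ i)⁻¹ * x) = 0 := by
      rw [ku_hom hz a.ne_zero, cn_chl_inv hz, hsn, hi, ZMod.natCast_zmod_val]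
      ring
    have h3 := hy _ h1 h2
    calc x y = (s ^ i) (((s ^ i)⁻¹ * x) y) := by
          rw [← AlgEquiv.mul_apply, mul_inv_cancel_left]
      _ = (s ^ i) y := by rw [h3]
  have hsl : ∀ y, Fx y → (s ^ l) y = y := by
    intro y hy
    exact hy _ (hsD l) (by rw [hsn, ZMod.natCast_self])
  -- the partial norms
  set G : ℕ → Om K := fun n => ∏ i ∈ Finset.range n, (s ^ i) g with hG
  have hg0 : g ≠ 0 := by
    rintro rfl
    apply hB0
    rw [← hN]
    exact Finset.prod_eq_zero (Finset.mem_range.2 hl0) (map_zero _)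
  have hG0 : ∀ n, G n ≠ 0 := fun n => Finset.prod_ne_zero_iff.2 fun i _ => hinj _ hg0
  have hGadd : ∀ i j : ℕ, G (i + j) = G i * (s ^ i) (G j) := by
    intro i j
    rw [hG]
    simp only
    rw [Finset.prod_range_add, map_prod]
    congr 1
    exact Finset.prod_congr rfl fun x _ => hmul i x g
  have hGl : G l = B0 := hN
  have hG1 : ∀ i, G (i + 1) = g * s (G i) := by
    intro i
    rw [add_comm, hGadd, pow_one]
    congr 1
    rw [hG]
    simp
  have hFG : ∀ n, Fx (G n) := by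
    intro n
    induction n with
    | zero =>
      intro σ _ _
      rw [hG]
      simp
    | succ n ih =>
      rw [hG1]
      exact Fx_mul _ _ hg (Fx_act s hs _ ih)
  -- the cocycle
  set C : ℕ → Om K := fun i => B0 ^ i * (G i ^ l)⁻¹ with hC
  have hsB0 : ∀ σ : Gm K, σ B0 = B0 := fun σ => σ.commutes _
  set c : Om K := B0 * (g ^ l)⁻¹ with hc
  have hc0 : c ≠ 0 := mul_ne_zero hB0 (inv_ne_zero (pow_ne_zero _ hg0))
  have hC1 : ∀ i, C (i + 1) = c * s (C i) := by
    intro i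
    rw [hC]
    simp only
    rw [hG1, map_mul, map_pow, map_inv₀, map_pow, hsB0, hc, mul_pow, mul_inv]
    ring
  have hCz : C 0 = 1 := by
    rw [hC, hG]
    simp
  have hCl : C l = 1 := by
    rw [hC]
    simp only
    rw [hGl]
    exact mul_inv_cancel₀ (pow_ne_zero _ hB0)
  have hFC : ∀ n, Fx (C n) := fun n =>
    Fx_mul _ _ (Fx_pow _ _ (Fx_alg _)) (Fx_inv _ (Fx_pow _ _ (hFG n)))
  -- the root of `a`
  set α : Om K := rt l (a : K) with hα
  have hαl : α ^ l = algebraMap K (Om K) (a : K) := ku_rt (a : K)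
  have hα0 : α ≠ 0 := ku_ne a.ne_zero hαl
  have hFα : Fx α := by
    intro σ _ h0
    rw [ku_root hz a.ne_zero hαl, h0, kuz_zero, one_mul]
  have hsα : ∀ i : ℕ, (s ^ i) α = W ^ i * α := by
    intro i
    rw [ku_root hz a.ne_zero hαl, hsn, cn_kuz_one hW1]
  -- the resolvents
  let R : ℕ → Om K := fun j => ∑ i ∈ Finset.range l, C i * (s ^ i) (α ^ j)
  have hR : ∃ j, R j ≠ 0 := by
    by_contra hcon
    push Not at hcon
    have h1 : ∑ j ∈ Finset.range l, R j * (α ^ j)⁻¹ = 0 :=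
      Finset.sum_eq_zero fun j _ => by rw [hcon j, zero_mul]
    have h2 : ∑ j ∈ Finset.range l, R j * (α ^ j)⁻¹ =
        ∑ i ∈ Finset.range l, C i * ∑ j ∈ Finset.range l, (W ^ i) ^ j := by
      simp only [R, Finset.sum_mul, Finset.mul_sum]
      rw [Finset.sum_comm]
      refine Finset.sum_congr rfl fun i _ => Finset.sum_congr rfl fun j _ => ?_
      rw [map_pow, hsα, mul_pow]
      have h3 : α ^ j ≠ 0 := pow_ne_zero _ hα0
      field_simp
    have h3 : ∑ i ∈ Finset.range l, C i * ∑ j ∈ Finset.range l, (W ^ i) ^ j =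
        C 0 * ∑ j ∈ Finset.range l, (W ^ 0) ^ j := by
      refine Finset.sum_eq_single_of_mem 0 (Finset.mem_range.2 hl0) fun i hi hi0 => ?_
      have h4 : W ^ i ≠ 1 := hW.pow_ne_one_of_pos_of_lt hi0 (Finset.mem_range.1 hi)
      have h5 : (∑ j ∈ Finset.range l, (W ^ i) ^ j) * (W ^ i - 1) = 0 := by
        rw [geom_sum_mul, ← pow_mul, mul_comm i l, pow_mul, hW1, one_pow, sub_self]
      rw [(mul_eq_zero.1 h5).resolve_right (sub_ne_zero.2 h4), mul_zero]
    rw [h2, h3, hCz, pow_zero, one_mul] at h1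
    simp only [one_pow, Finset.sum_const, Finset.card_range, nsmul_eq_mul, mul_one] at h1
    exact (Nat.cast_ne_zero.2 (NeZero.ne l)) h1
  obtain ⟨j, hj⟩ := hR
  have hRs : c * s (R j) = R j := by
    have h1 : c * s (R j) = ∑ i ∈ Finset.range l, C (i + 1) * (s ^ (i + 1)) (α ^ j) := by
      show c * s (∑ i ∈ Finset.range l, C i * (s ^ i) (α ^ j)) = _
      rw [map_sum, Finset.mul_sum]
      refine Finset.sum_congr rfl fun i _ => ?_
      rw [hC1, map_mul, pow_succ', AlgEquiv.mul_apply]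
      ring
    have h2 := Finset.sum_range_succ' (fun i => C i * (s ^ i) (α ^ j)) l
    have h3 := Finset.sum_range_succ (fun i => C i * (s ^ i) (α ^ j)) l
    have h4 : C l * (s ^ l) (α ^ j) = C 0 * (s ^ 0) (α ^ j) := by
      rw [hCl, hCz, hsl _ (Fx_pow _ _ hFα), pow_zero, AlgEquiv.one_apply]
    rw [h3] at h2
    rw [h4] at h2
    rw [h1]
    exact (add_right_cancel h2).symm
  have hFR : Fx (R j) := by
    intro σ hσ h0
    show σ (∑ i ∈ Finset.range l, C i * (s ^ i) (α ^ j)) = _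
    rw [map_sum]
    refine Finset.sum_congr rfl fun i _ => ?_
    exact Fx_mul _ _ (hFC i) (Fx_act _ (hsD i) _ (Fx_pow _ _ hFα)) σ hσ h0
  set β : Om K := (R j)⁻¹ with hβ
  have hβ0 : β ≠ 0 := inv_ne_zero hj
  have hFβ : Fx β := Fx_inv _ hFR
  have hsβ : s β = c * β := by
    have h1 : s (R j) ≠ 0 := hinj s hj
    have h2 : (R j)⁻¹ = c⁻¹ * (s (R j))⁻¹ := by
      rw [← mul_inv, hRs]
    rw [hβ, map_inv₀, h2, mul_inv_cancel_left₀ hc0]
  have hsβn : ∀ i : ℕ, (s ^ i) β = β * C i := by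
    intro i
    induction i with
    | zero => rw [pow_zero, AlgEquiv.one_apply, hCz, mul_one]
    | succ i ih =>
      rw [pow_succ', AlgEquiv.mul_apply, ih, map_mul, hsβ, hC1]
      ring
  obtain ⟨B, hB⟩ := IsAlgClosed.exists_pow_nat_eq β hl0
  have hBz : B ≠ 0 := by
    rintro rfl
    rw [zero_pow hl0.ne'] at hB
    exact hβ0 hB.symm
  set b1 : Om K := rt l (b : K) with hb1
  have hb1l : b1 ^ l = B0 := ku_rt (b : K)
  have hb10 : b1 ≠ 0 := ku_ne b.ne_zero hb1l
  set V : ℕ → Om K := fun n => b1 ^ n * (G n)⁻¹ with hV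
  have hV0 : ∀ n, V n ≠ 0 := fun n => mul_ne_zero (pow_ne_zero _ hb10) (inv_ne_zero (hG0 n))
  have hVl : ∀ n, V n ^ l = C n := by
    intro n
    rw [hV, hC]
    simp only
    rw [mul_pow, ← pow_mul, mul_comm n l, pow_mul, hb1l, inv_pow]
  have hVp : Function.Periodic V l := by
    intro n
    rw [hV]
    simp only
    rw [add_comm n l, hGadd, hsl _ (hFG n), hGl, pow_add, hb1l, mul_inv]
    field_simp
  have hVmod : ∀ n, V n = V (n % l) := fun n => (hVp.map_mod_nat n).symm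
  -- the function
  let Φ : Om K × ZMod l → ZMod l := fun p =>
    if h : ∃ e : ZMod l, p.1 = kuz W e * (B * V p.2.val) then h.choose else 0
  let f : Gm K → ZMod l := fun σ => Φ (σ B, chl l z (a : K) σ)
  have hf : ∀ σ ∈ D, σ B = kuz W (f σ) * (B * V (chl l z (a : K) σ).val) := by
    intro σ hσ
    have hex : ∃ e : ZMod l, σ B = kuz W e * (B * V (chl l z (a : K) σ).val) := by
      refine cn_root hW (mul_ne_zero hBz (hV0 _)) ?_
      rw [← map_pow, hB, mul_pow, hB, hVl, hkey σ hσ β hFβ, hsβn]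
    have h1 : f σ = hex.choose := dif_pos hex
    rw [h1]
    exact hex.choose_spec
  have hlc : IsLocallyConstant f := by
    have h1 : IsLocallyConstant (chl l z (a : K)) :=
      (IsLocallyConstant.iff_eventually_eq _).mpr (ku_ev hz a.ne_zero)
    exact ((cn_ev B).prodMk h1).comp Φ
  refine ⟨f, hlc, fun σ hσ τ hτ => ?_⟩
  set i : ℕ := (chl l z (a : K) σ).val with hi
  set m : ℕ := (chl l z (a : K) τ).val with hm
  have h1 := hf (σ * τ) (D.mul_mem hσ hτ)
  have h2 : (chl l z (a : K) (σ * τ)).val = (i + m) % l := by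
    rw [ku_hom hz a.ne_zero, ZMod.val_add]
  have h3 : σ (V m) = kuz W (chl l z (b : K) σ * chl l z (a : K) τ) *
      (b1 ^ m * ((s ^ i) (G m))⁻¹) := by
    rw [hV]
    simp only
    rw [map_mul, map_pow, map_inv₀, hkey σ hσ _ (hFG m), ku_root hz b.ne_zero hb1l, mul_pow]
    have h4 : chl l z (a : K) τ = ((m : ℕ) : ZMod l) := by
      rw [hm, ZMod.natCast_zmod_val]
    rw [h4, cn_kuz_nat hW1]
    ring
  have h5 : V i * (b1 ^ m * ((s ^ i) (G m))⁻¹) = V (i + m) := by
    rw [hV]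
    simp only
    rw [hGadd, pow_add, mul_inv]
    ring
  rw [h2, ← hVmod, AlgEquiv.mul_apply, hf τ hτ, map_mul, map_mul, ku_fix, ← hm, h3, hf σ hσ,
    ← hi, ← h5] at h1
  have h6 : kuz W (f σ + f τ + chl l z (b : K) σ * chl l z (a : K) τ) *
      (B * (V i * (b1 ^ m * ((s ^ i) (G m))⁻¹))) =
      kuz W (f (σ * τ)) * (B * (V i * (b1 ^ m * ((s ^ i) (G m))⁻¹))) := by
    rw [← h1, kuz_add hW1, kuz_add hW1]
    ring
  have h7 : B * (V i * (b1 ^ m * ((s ^ i) (G m))⁻¹)) ≠ 0 := by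
    rw [h5]
    exact mul_ne_zero hBz (hV0 _)
  exact (kuz_inj hW (mul_right_cancel₀ h7 h6)).symm

/-- the sum of the residues modulo an odd prime -/
theorem cn_sum (hl : l.Prime) (hl2 : l ≠ 2) : ∑ i ∈ Finset.range l, (i : ZMod l) = 0 := by
  haveI : Fact l.Prime := ⟨hl⟩
  have h1 := Finset.sum_range_id_mul_two l
  have h2 : (∑ i ∈ Finset.range l, (i : ZMod l)) * 2 = 0 := by
    have h3 := congrArg (fun n : ℕ => (n : ZMod l)) h1
    simp only [Nat.cast_mul, Nat.cast_sum, Nat.cast_ofNat, ZMod.natCast_self, zero_mul] at h3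
    exact h3
  have h4 : (2 : ZMod l) ≠ 0 := by
    intro h
    have h5 : ((2 : ℕ) : ZMod l) = 0 := by exact_mod_cast h
    rw [ZMod.natCast_eq_zero_iff] at h5
    exact hl2 ((Nat.prime_dvd_prime_iff_eq hl Nat.prime_two).1 h5)
  exact (mul_eq_zero.1 h2).resolve_right h4

/-- coboundaries give norms -/
theorem cn_norm {z : K} (hl : l.Prime) (hl2 : l ≠ 2) (hz : IsPrimitiveRoot z l)
    (D : Subgroup (Gm K)) (a b : Kˣ) {s : Gm K} (hs : s ∈ D) (hsa : chl l z (a : K) s = 1)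
    (h : CbL l z D (b : K) (a : K)) :
    ∃ y : Om K, (∀ σ ∈ D, chl l z (a : K) σ = 0 → σ y = y) ∧
      ∏ i ∈ Finset.range l, (s ^ i) y = algebraMap K (Om K) (b : K) := by
  obtain ⟨f, hf, hc⟩ := h
  set W : Om K := algebraMap K (Om K) z with hWdef
  have hW : IsPrimitiveRoot W l := ku_w hz
  have hW1 : W ^ l = 1 := hW.pow_eq_one
  have hsn : ∀ n : ℕ, chl l z (a : K) (s ^ n) = (n : ZMod l) := by
    intro n
    rw [cn_chl_pow hz, hsa, mul_one]
  have hsD : ∀ n : ℕ, s ^ n ∈ D := fun n => D.pow_mem hs n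
  have hinj : ∀ (σ : Gm K) {x : Om K}, x ≠ 0 → σ x ≠ 0 := fun σ x hx => (map_ne_zero σ).2 hx
  have h10 : chl l z (a : K) (1 : Gm K) = 0 := by
    have h1 := hsn 0
    rwa [pow_zero, Nat.cast_zero] at h1
  -- the kernel
  let H : Subgroup (Gm K) :=
    { carrier := {σ | σ ∈ D ∧ chl l z (a : K) σ = 0}
      one_mem' := ⟨D.one_mem, h10⟩
      mul_mem' := fun {x y} hx hy => ⟨D.mul_mem hx.1 hy.1, by
        rw [ku_hom hz a.ne_zero, hx.2, hy.2, add_zero]⟩
      inv_mem' := fun {x} hx => ⟨D.inv_mem hx.1, by rw [cn_chl_inv hz, hx.2, neg_zero]⟩ }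
  have hHf : ∀ σ ∈ H, ∀ τ ∈ H, f (σ * τ) = f σ + f τ := by
    intro σ hσ τ hτ
    rw [hc σ hσ.1 τ hτ.1, hτ.2, mul_zero, add_zero]
  obtain ⟨B, hB0, hBz⟩ := ku_dec hz H f hf hHf
  have hB : ∀ σ ∈ H, σ B = kuz W (f σ) * B := hBz
  set b1 : Om K := rt l (b : K) with hb1
  have hb1l : b1 ^ l = algebraMap K (Om K) (b : K) := ku_rt (b : K)
  have hb10 : b1 ≠ 0 := ku_ne b.ne_zero hb1l
  have hsb : ∀ σ : Gm K, σ b1 = kuz W (chl l z (b : K) σ) * b1 := fun σ =>
    ku_root hz b.ne_zero hb1l σ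
  have hsB : s B ≠ 0 := hinj s hB0
  have hconj : ∀ σ ∈ H, σ (s B) = kuz W (f σ + chl l z (b : K) σ) * s B := by
    intro σ hσ
    have h1 : s⁻¹ * σ * s ∈ H := by
      refine ⟨D.mul_mem (D.mul_mem (D.inv_mem hs) hσ.1) hs, ?_⟩
      rw [ku_hom hz a.ne_zero, ku_hom hz a.ne_zero, cn_chl_inv hz, hσ.2]
      ring
    have h2 : f (s⁻¹ * σ * s) = f σ + chl l z (b : K) σ := by
      have e1 := hc s hs (s⁻¹ * σ * s) h1.1
      have e2 := hc σ hσ.1 s hs
      have e3 : s * (s⁻¹ * σ * s) = σ * s := by group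
      rw [e3, e2, h1.2, hsa, mul_zero, mul_one, add_zero] at e1
      linear_combination -e1
    have h3 := hB _ h1
    calc σ (s B) = s ((s⁻¹ * σ * s) B) := by
          rw [← AlgEquiv.mul_apply, ← AlgEquiv.mul_apply]
          congr 1
          group
      _ = kuz W (f σ + chl l z (b : K) σ) * s B := by
          rw [h3, h2, map_mul, ku_fix]
  refine ⟨B * b1 * (s B)⁻¹, fun σ hσ h0 => ?_, ?_⟩
  · have hσH : σ ∈ H := ⟨hσ, h0⟩
    rw [map_mul, map_mul, map_inv₀, hconj σ hσH, hB σ hσH, hsb,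
      kuz_add hW1, mul_inv, mul_inv]
    have h1 : kuz W (f σ) ≠ 0 := kuz_ne hW1 _
    have h2 : kuz W (chl l z (b : K) σ) ≠ 0 := kuz_ne hW1 _
    field_simp
  · have hprod : ∀ n : ℕ, ∏ i ∈ Finset.range n, (s ^ i) (B * b1 * (s B)⁻¹) =
        B * b1 ^ n * kuz W (chl l z (b : K) s * ∑ i ∈ Finset.range n, (i : ZMod l)) *
          ((s ^ n) B)⁻¹ := by
      intro n
      induction n with
      | zero =>
        rw [Finset.prod_range_zero, Finset.sum_range_zero, mul_zero, kuz_zero, pow_zero, pow_zero,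
          AlgEquiv.one_apply]
        field_simp
      | succ n ih =>
        have h1 : (s ^ n) B ≠ 0 := hinj _ hB0
        have h2 : (s ^ (n + 1)) B = (s ^ n) (s B) := by
          rw [pow_succ, AlgEquiv.mul_apply]
        have h3 : (s ^ n) (s B) ≠ 0 := hinj _ hsB
        rw [Finset.prod_range_succ, ih, Finset.sum_range_succ, mul_add, kuz_add hW1, map_mul,
          map_mul, map_inv₀, hsb, cn_chl_pow hz, h2,
          mul_comm ((n : ℕ) : ZMod l)]
        field_simp
        ring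
    have hfn : ∀ n : ℕ, f (s ^ n) = n * f s + chl l z (b : K) s *
        ∑ i ∈ Finset.range n, (i : ZMod l) := by
      intro n
      induction n with
      | zero =>
        have e1 := hc 1 D.one_mem 1 D.one_mem
        rw [mul_one, h10, mul_zero, add_zero] at e1
        rw [pow_zero, left_eq_add.1 e1, Nat.cast_zero, Finset.sum_range_zero]
        ring
      | succ n ih =>
        rw [pow_succ, hc _ (hsD n) _ hs, ih, hsa, cn_chl_pow hz, Finset.sum_range_succ,
          Nat.cast_succ]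
        ring
    have hlH : s ^ l ∈ H := ⟨hsD l, by rw [hsn, ZMod.natCast_self]⟩
    rw [hprod l, hB _ hlH, hfn l, cn_sum hl hl2, ZMod.natCast_self, mul_zero, zero_mul, add_zero,
      kuz_zero, hb1l]
    field_simp

end

/-- a cup product is a coboundary exactly for norms -/
theorem scn (_hK : SKu) (_hD : SKuD) : SCN := by
  intro l hl hl2 K _ _ z hz D _ a b s hs hsa
  haveI : NeZero l := ⟨hl.ne_zero⟩
  constructor
  · intro h
    exact cn_norm hl hl2 hz D a b hs hsa (cbl_swap hz D a b h)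
  · rintro ⟨y, hy, hN⟩
    exact cbl_swap hz D b a (cn_of_norm hz D a b hs hsa hy hN)

end Pool.Agent.H92.EL
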