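import Pool.Agent.H92.EL.AStm
import Pool.Agent.H98.MF.L.QuadY

/-!
# Project ELL (MP_a3214d), row A16: local degrees in an extension of degree `l`
-/

set_option autoImplicit false

open scoped BigOperators Pointwise
open NumberField IsDedekindDomain

namespace Pool.Agent.H92.EL

open Pool.Agent.H98.MF (Om Gm ord Dec US PrS SUn mS nrm gen FixD Over)

theorem sdg (hb : SC3b) : SDg := by
  intro l hl K L _ _ _ _ _ z hz a α hE P hP Q hQ
  have h : Over P Q := hQ
  have hcard := (hb l hl K L z hz a α hE P).2 hP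
  have hu : ∀ Q' : HeightOneSpectrum (𝓞 L), Over P Q' → Q' = Q := by
    intro Q' hQ'
    have hs := (Nat.card_eq_one_iff_unique.1 hcard).1
    have := hs.elim (⟨Q', hQ'⟩ : {Q : HeightOneSpectrum (𝓞 L) // OvP P Q}) ⟨Q, hQ⟩
    exact congrArg Subtype.val this
  have hm := P.isMaximal
  have h1 := Ideal.sum_ramification_inertia (𝓞 L) K L P.ne_bot
  rw [hE.deg] at h1
  have h2 : IsDedekindDomain.primesOverFinset P.asIdeal (𝓞 L) = {Q.asIdeal} := by
    ext I
    rw [IsDedekindDomain.mem_primesOverFinset_iff P.ne_bot, Finset.mem_singleton]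
    constructor
    · rintro ⟨hI1, hI2⟩
      have hne : I ≠ ⊥ := by
        have := hI2
        exact Ideal.ne_bot_of_liesOver_of_ne_bot P.ne_bot I
      have := hu ⟨I, hI1, hne⟩ hI2.over.symm
      rw [← this]
    · rintro rfl
      exact ⟨Q.isPrime, h.liesOver⟩
  rw [h2, Finset.sum_singleton] at h1
  exact ⟨P.asIdeal.ramificationIdx' Q.asIdeal, P.asIdeal.inertiaDeg' Q.asIdeal, h1,
    fun x => h.ord_map x, Pool.Agent.H98.MF.over_absNorm h⟩

end Pool.Agent.H92.EL
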