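import Pool.Agent.H92.EL.AStm
import Pool.Agent.H98.MF.C.C9

/-!
# Project ELL (MP_a3214d), block A, row A45: prime elements in given classes
-/

set_option autoImplicit false

open scoped BigOperators Pointwise
open NumberField IsDedekindDomain

namespace Pool.Agent.H92.EL

open Pool.Agent.H98.MF (Om Gm ord Dec US PrS SUn mS nrm gen)
open Pool.Agent.H98.MF.B (gen_spec mem_US)

section

variable {l : ℕ} [Fact l.Prime]

private theorem g2l_dual {V : Type} [AddCommGroup V] [Module (ZMod l) V] (v : V)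
    (hv : v ≠ 0) : ∃ φ : V →+ ZMod l, φ v ≠ 0 := by
  have hp : Module.Projective (ZMod l) V := inferInstance
  obtain ⟨φ, hφ⟩ := hp.exists_dual_ne_zero (ZMod l) hv
  exact ⟨φ.toAddMonoidHom, hφ⟩

/-- a functional modulo `l` separating an element from a subgroup that contains the powers -/
private theorem g2l_separate {G : Type} [CommGroup G] (hG : ∀ x : G, x ^ l = 1) (x : G)
    (hx : x ≠ 1) : ∃ ψ : G →* Multiplicative (ZMod l), ψ x ≠ 1 := by
  have h2 : ∀ v : Additive G, l • v = 0 := by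
    intro v
    have h3 : v = Additive.ofMul v.toMul := rfl
    rw [h3, ← ofMul_pow, hG]
    rfl
  have hv : (Additive.ofMul x) ≠ 0 := fun h => hx (Additive.ofMul.injective h)
  obtain ⟨φ, hφ⟩ := @g2l_dual l _ (Additive G) _ (AddCommGroup.zmodModule h2)
    (Additive.ofMul x) hv
  refine ⟨MonoidHom.mk' (fun g => Multiplicative.ofAdd (φ (Additive.ofMul g))) fun a b => ?_, ?_⟩
  · rw [ofMul_mul, map_add, ofAdd_add]
  · intro h
    exact hφ (Multiplicative.ofAdd.injective h)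

/-- orthogonality -/
private theorem g2l_orth {G : Type} [CommGroup G] [Fintype (G →* Multiplicative (ZMod l))]
    (hG : ∀ x : G, x ^ l = 1) (x : G) (hx : x ≠ 1) :
    ∑ χ : G →* Multiplicative (ZMod l), ZMod.stdAddChar (Multiplicative.toAdd (χ x)) =
      (0 : ℂ) := by
  obtain ⟨ψ, hψ⟩ := g2l_separate hG x hx
  let f : (G →* Multiplicative (ZMod l)) →* ℂ :=
    { toFun := fun χ => ZMod.stdAddChar (Multiplicative.toAdd (χ x))
      map_one' := by
        rw [MonoidHom.one_apply, toAdd_one, AddChar.map_zero_eq_one]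
      map_mul' := fun a b => by
        rw [MonoidHom.mul_apply, toAdd_mul, AddChar.map_add_eq_mul] }
  refine sum_hom_units_eq_zero f fun h => hψ ?_
  have h1 : ZMod.stdAddChar (N := l) (Multiplicative.toAdd (ψ x)) = 1 := DFunLike.congr_fun h ψ
  have h2 : ZMod.stdAddChar (N := l) (Multiplicative.toAdd (ψ x)) =
      ZMod.stdAddChar (N := l) 0 := by
    rw [h1, AddChar.map_zero_eq_one]
  have h3 := ZMod.injective_stdAddChar h2
  exact Multiplicative.toAdd.injective h3

end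

section

variable {K : Type} [Field K] [NumberField K]

private theorem g2l_one_le (Q : HeightOneSpectrum (𝓞 K)) : (1 : ℝ) ≤ nrm Q := by
  have h : nrm Q ≠ 0 := by
    unfold Pool.Agent.H98.MF.nrm
    rw [Ne, Ideal.absNorm_eq_zero_iff]
    exact Q.ne_bot
  exact_mod_cast Nat.one_le_iff_ne_zero.2 h

private theorem g2l_pos (Q : HeightOneSpectrum (𝓞 K)) (s : ℝ) : 0 < (nrm Q : ℝ) ^ (-s) :=
  Real.rpow_pos_of_pos (lt_of_lt_of_le one_pos (g2l_one_le Q)) _

private theorem g2l_le (Q : HeightOneSpectrum (𝓞 K)) {s : ℝ} (hs : 0 ≤ s) :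
    (nrm Q : ℝ) ^ (-s) ≤ 1 :=
  Real.rpow_le_one_of_one_le_of_nonpos (g2l_one_le Q) (by linarith)

private theorem g2l_pw (l : ℕ) (S : Finset (HeightOneSpectrum (𝓞 K))) (x : Kˣ) :
    x ^ l ∈ KW l S := by
  unfold KW
  rw [Subgroup.mem_iInf]
  intro P
  rw [Subgroup.mem_iInf]
  intro _
  refine Subgroup.subset_closure fun n => ⟨((x⁻¹ : Kˣ) : K), Or.inl ?_⟩
  rw [← Units.val_pow_eq_pow_val, ← Units.val_mul, inv_pow, mul_inv_cancel, Units.val_one]

end

theorem g2_of (hA : SAn) (hI : SCI) (l : ℕ) [Fact l.Prime] (hl : l ≠ 2) (K : Type) [Field K]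
    [NumberField K] (z : K) (hz : IsPrimitiveRoot z l)
    (hprm : ∀ S : Finset (HeightOneSpectrum (𝓞 K)), AdmL l S →
      ∀ ψ : Kˣ →* Multiplicative (ZMod l), FnL l S ψ → ψ ≠ 1 →
      ∃ C : ℝ, ∀ s : ℝ, 1 < s → s ≤ 2 →
        ‖∑' Q : {Q : HeightOneSpectrum (𝓞 K) // Q ∉ S},
          ZMod.stdAddChar (vl l ψ (gen S Q.1)) * (((nrm Q.1 : ℝ) ^ (-s) : ℝ) : ℂ)‖ ≤ C) :
    ∀ S : Finset (HeightOneSpectrum (𝓞 K)), AdmL l S → ∀ γ : Kˣ,
      ∃ (Q : HeightOneSpectrum (𝓞 K)) (q : Kˣ), Q ∉ S ∧ ord Q (q : K) = 1 ∧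
      (∀ R : HeightOneSpectrum (𝓞 K), R ∉ S → R ≠ Q → ord R (q : K) = 0) ∧
      ∀ P ∈ S, q / γ ∈ WS l P := by
  classical
  intro S hS γ
  have hAn := hA l hl K z hz
  let H : Subgroup Kˣ := US S ⊔ KW l S
  -- a prime in the class
  have key : ∃ Q : HeightOneSpectrum (𝓞 K), Q ∉ S ∧ gen S Q / γ ∈ H := by
    by_contra hcon
    push Not at hcon
    have hidx : (KW l S).index ≠ 0 := by
      rw [hI l (Fact.out) hl K z hz S hS.mem]
      exact pow_ne_zero _ (Fact.out : l.Prime).ne_zero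
    have hHidx : H.index ≠ 0 := by
      intro h0
      exact hidx (Nat.eq_zero_of_zero_dvd (h0 ▸ Subgroup.index_dvd_of_le
        (le_sup_right : KW l S ≤ H)))
    have _ : Finite (Kˣ ⧸ H) := Nat.finite_of_card_ne_zero hHidx
    have hX : ∀ x : Kˣ ⧸ H, x ^ l = 1 := by
      intro x
      obtain ⟨g, rfl⟩ := QuotientGroup.mk_surjective x
      rw [← QuotientGroup.mk_pow, QuotientGroup.eq_one_iff]
      exact Subgroup.mem_sup_right (g2l_pw l S g)
    have _ : Finite (Multiplicative (ZMod l)) := inferInstanceAs (Finite (ZMod l))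
    have _ : Finite ((Kˣ ⧸ H) →* Multiplicative (ZMod l)) :=
      Finite.of_injective (fun χ => (χ : (Kˣ ⧸ H) → Multiplicative (ZMod l)))
        DFunLike.coe_injective
    let _ : Fintype ((Kˣ ⧸ H) →* Multiplicative (ZMod l)) := Fintype.ofFinite _
    have hfn : ∀ χ : (Kˣ ⧸ H) →* Multiplicative (ZMod l),
        FnL l S (χ.comp (QuotientGroup.mk' H)) := by
      intro χ
      refine ⟨fun a ha => ?_, fun a ha => ?_⟩
      · rw [MonoidHom.comp_apply, QuotientGroup.mk'_apply,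
          (QuotientGroup.eq_one_iff a).2 (Subgroup.mem_sup_left ha), map_one]
      · rw [MonoidHom.comp_apply, QuotientGroup.mk'_apply,
          (QuotientGroup.eq_one_iff a).2 (Subgroup.mem_sup_right ha), map_one]
    have hbd : ∀ χ : (Kˣ ⧸ H) →* Multiplicative (ZMod l), ∃ C : ℝ, χ ≠ 1 →
        ∀ s : ℝ, 1 < s → s ≤ 2 →
        ‖∑' Q : {Q : HeightOneSpectrum (𝓞 K) // Q ∉ S},
          ZMod.stdAddChar (vl l (χ.comp (QuotientGroup.mk' H)) (gen S Q.1)) *
            (((nrm Q.1 : ℝ) ^ (-s) : ℝ) : ℂ)‖ ≤ C := by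
      intro χ
      by_cases h1 : χ = 1
      · exact ⟨0, fun h => absurd h1 h⟩
      · have h2 : χ.comp (QuotientGroup.mk' H) ≠ 1 := by
          intro h3
          apply h1
          ext x
          exact DFunLike.congr_fun h3 x
        obtain ⟨C, hC⟩ := hprm S hS _ (hfn χ) h2
        exact ⟨C, fun _ => hC⟩
    choose C hC using hbd
    obtain ⟨C0, hC0⟩ := hAn.n4
    set B : ℝ := ∑ χ ∈ (Finset.univ : Finset ((Kˣ ⧸ H) →* Multiplicative (ZMod l))).erase 1,
      C χ with hB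
    have hmain : ∀ s : ℝ, 1 < s → s ≤ 2 → Real.log (1 / (s - 1)) ≤ B + C0 + S.card := by
      intro s hs hs2
      let D : {Q : HeightOneSpectrum (𝓞 K) // Q ∉ S} → ℂ :=
        fun Q => (((nrm Q.1 : ℝ) ^ (-s) : ℝ) : ℂ)
      let E : ((Kˣ ⧸ H) →* Multiplicative (ZMod l)) → Kˣ → ℂ :=
        fun χ x => ZMod.stdAddChar (vl l (χ.comp (QuotientGroup.mk' H)) x)
      have hEn : ∀ χ x, ‖E χ x‖ = 1 := fun χ x => AddChar.norm_apply _ _
      have hsm := hAn.sm s hs
      have hsmS : Summable fun Q : {Q : HeightOneSpectrum (𝓞 K) // Q ∉ S} =>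
          (nrm Q.1 : ℝ) ^ (-s) := hsm.subtype _
      have hDn : ∀ Q, ‖D Q‖ = (nrm Q.1 : ℝ) ^ (-s) := by
        intro Q
        show ‖(((nrm Q.1 : ℝ) ^ (-s) : ℝ) : ℂ)‖ = _
        rw [Complex.norm_real, Real.norm_eq_abs, abs_of_pos (g2l_pos Q.1 s)]
      have hsumE : ∀ χ, Summable fun Q => E χ (gen S Q.1) * D Q := by
        intro χ
        refine Summable.of_norm_bounded hsmS fun Q => ?_
        rw [norm_mul, hEn, one_mul, hDn]
      -- total
      have htot : ∑ χ, E χ γ⁻¹ * ∑' Q, E χ (gen S Q.1) * D Q = 0 := by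
        have e1 : ∀ χ, E χ γ⁻¹ * ∑' Q, E χ (gen S Q.1) * D Q =
            ∑' Q, E χ γ⁻¹ * (E χ (gen S Q.1) * D Q) := fun χ => tsum_mul_left.symm
        rw [Finset.sum_congr rfl fun χ _ => e1 χ, ← Summable.tsum_finsetSum]
        · have e2 : ∀ Q : {Q : HeightOneSpectrum (𝓞 K) // Q ∉ S},
              ∑ χ, E χ γ⁻¹ * (E χ (gen S Q.1) * D Q) = 0 := by
            intro Q
            have e3 : ∀ χ, E χ γ⁻¹ * (E χ (gen S Q.1) * D Q) =
                ZMod.stdAddChar (Multiplicative.toAdd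
                  (χ ((gen S Q.1 / γ : Kˣ) : Kˣ ⧸ H))) * D Q := by
              intro χ
              rw [← mul_assoc]
              congr 1
              have e4 : χ ((gen S Q.1 / γ : Kˣ) : Kˣ ⧸ H) =
                  (χ.comp (QuotientGroup.mk' H)) γ⁻¹ *
                    (χ.comp (QuotientGroup.mk' H)) (gen S Q.1) := by
                rw [← map_mul, div_eq_mul_inv, mul_comm (gen S Q.1)]
                rfl
              rw [e4, toAdd_mul, AddChar.map_add_eq_mul]
              rfl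
            rw [Finset.sum_congr rfl fun χ _ => e3 χ, ← Finset.sum_mul,
              g2l_orth (G := Kˣ ⧸ H) hX, zero_mul]
            intro h1
            exact hcon Q.1 Q.2 ((QuotientGroup.eq_one_iff _).1 h1)
          rw [tsum_congr e2, tsum_zero]
        · intro χ _
          exact (hsumE χ).mul_left _
      rw [← Finset.add_sum_erase _ _ (Finset.mem_univ
        (1 : (Kˣ ⧸ H) →* Multiplicative (ZMod l)))] at htot
      have hE1 : ∀ x, E 1 x = 1 := by
        intro x
        show ZMod.stdAddChar (N := l) (Multiplicative.toAdd 1) = 1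
        rw [toAdd_one, AddChar.map_zero_eq_one]
      have h1 : ∑' Q, E 1 (gen S Q.1) * D Q = ∑' Q, D Q := by
        refine tsum_congr fun Q => ?_
        rw [hE1, one_mul]
      rw [hE1, one_mul, h1] at htot
      have h2 : ‖∑' Q, D Q‖ ≤ B := by
        rw [eq_neg_of_add_eq_zero_left htot, norm_neg]
        refine (norm_sum_le _ _).trans (Finset.sum_le_sum fun χ hχ => ?_)
        rw [norm_mul, hEn, one_mul]
        exact hC χ (Finset.ne_of_mem_erase hχ) s hs hs2
      have h3 : ∑' Q, D Q = ((∑' Q : {Q : HeightOneSpectrum (𝓞 K) // Q ∉ S},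
          (nrm Q.1 : ℝ) ^ (-s) : ℝ) : ℂ) := (Complex.ofReal_tsum _).symm
      rw [h3, Complex.norm_real, Real.norm_eq_abs] at h2
      have h4 := (le_abs_self _).trans h2
      have h5 : ∑ Q ∈ S, (nrm Q : ℝ) ^ (-s) + ∑' Q : {Q : HeightOneSpectrum (𝓞 K) // Q ∉ S},
          (nrm Q.1 : ℝ) ^ (-s) = ∑' Q : HeightOneSpectrum (𝓞 K), (nrm Q : ℝ) ^ (-s) :=
        hsm.sum_add_tsum_compl (s := S)
      have h6 : ∑ Q ∈ S, (nrm Q : ℝ) ^ (-s) ≤ S.card := by
        calc ∑ Q ∈ S, (nrm Q : ℝ) ^ (-s) ≤ ∑ _Q ∈ S, (1 : ℝ) :=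
              Finset.sum_le_sum fun Q _ => g2l_le Q (by linarith)
          _ = S.card := by simp
      have h7 := hC0 s hs hs2
      rw [abs_le] at h7
      linarith [h7.1, h7.2]
    set M : ℝ := B + C0 + S.card with hM
    have hM' : 0 ≤ M + 1 := by
      have h8 := hmain 2 (by norm_num) le_rfl
      norm_num at h8
      linarith
    have h9 := hmain (1 + Real.exp (-(M + 1))) (by linarith [Real.exp_pos (-(M + 1))]) (by
      have : Real.exp (-(M + 1)) ≤ 1 := Real.exp_le_one_iff.2 (by linarith)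
      linarith)
    rw [add_sub_cancel_left, one_div, ← Real.exp_neg, neg_neg, Real.log_exp] at h9
    linarith
  obtain ⟨Q, hQ, hq⟩ := key
  obtain ⟨ho, ho'⟩ := gen_spec hS.prS hQ
  obtain ⟨u, hu, κ, hκ, huκ⟩ := Subgroup.mem_sup.1 hq
  refine ⟨Q, gen S Q / u, hQ, ?_, ?_, ?_⟩
  · rw [Units.val_div_eq_div_val, Pool.Agent.H98.MF.B.ord_div Q (Units.ne_zero _) u.ne_zero, ho,
      mem_US.1 hu Q hQ, sub_zero]
  · intro R hR hne
    rw [Units.val_div_eq_div_val, Pool.Agent.H98.MF.B.ord_div R (Units.ne_zero _) u.ne_zero,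
      ho' R hR hne, mem_US.1 hu R hR, sub_zero]
  · intro P hP
    have h10 : gen S Q / u / γ = κ := by
      rw [div_right_comm, ← huκ, mul_div_cancel_left]
    rw [h10]
    unfold KW at hκ
    rw [Subgroup.mem_iInf] at hκ
    have h11 := hκ P
    rw [Subgroup.mem_iInf] at h11
    exact h11 hP

end Pool.Agent.H92.EL
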