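import Pool.Agent.H92.EL.AStm

/-!
# Project ELL (MP_a3214d), block A: the global theorems together (row A47)
-/

set_option autoImplicit false

open scoped BigOperators Pointwise
open NumberField IsDedekindDomain

namespace Pool.Agent.H92.EL

open Pool.Agent.H98.MF (Om Gm ord Dec US PrS SUn mS nrm gen FixD)

/-! ### the fields of `GlF` as statements -/

/-- the field `hn` -/
def GlHn : Prop := ∀ (l : ℕ) [Fact l.Prime], l ≠ 2 → ∀ (K : Type) [Field K] [NumberField K]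
  (z : K), IsPrimitiveRoot z l → ∀ G : GSy l K z, ∀ a b : Kˣ, (∀ P, G.hs P a b = 0) →
    b ∈ NGL l a

/-- the field `inj` -/
def GlInj : Prop := ∀ (l : ℕ) [Fact l.Prime], l ≠ 2 → ∀ (K : Type) [Field K] [NumberField K]
  (z : K), IsPrimitiveRoot z l → ∀ _G : GSy l K z, ∀ S : Finset (HeightOneSpectrum (𝓞 K)),
    AdmL l S → ∀ a ∈ US S, a ∈ KW l S → a ∈ pw l (US S)

/-- the field `du` -/
def GlDu : Prop := ∀ (l : ℕ) [Fact l.Prime], l ≠ 2 → ∀ (K : Type) [Field K] [NumberField K]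
  (z : K), IsPrimitiveRoot z l → ∀ G : GSy l K z, ∀ S : Finset (HeightOneSpectrum (𝓞 K)),
    AdmL l S → ∀ ψ : Kˣ →* Multiplicative (ZMod l), FnL l S ψ → ∃ a ∈ US S, ∀ x : Kˣ,
      vl l ψ x = ∑ P ∈ S, G.hs P a x

/-- the field `uq` -/
def GlUq : Prop := ∀ (l : ℕ) [Fact l.Prime], l ≠ 2 → ∀ (K : Type) [Field K] [NumberField K]
  (z : K), IsPrimitiveRoot z l → ∀ G : GSy l K z, ∀ c : HeightOneSpectrum (𝓞 K) → ZMod l,
    (∀ S : Finset (HeightOneSpectrum (𝓞 K)),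
      (∀ P : HeightOneSpectrum (𝓞 K), 0 < ord P (l : K) → P ∈ S) →
      ∀ a ∈ US S, ∀ b ∈ US S, ∑ P ∈ S, c P * G.hs P a b = 0) → ∃ t : ZMod l, ∀ P, c P = t

/-- the field `prm` -/
def GlPrm : Prop := ∀ (l : ℕ) [Fact l.Prime], l ≠ 2 → ∀ (K : Type) [Field K] [NumberField K]
  (z : K), IsPrimitiveRoot z l → ∀ _G : GSy l K z, ∀ S : Finset (HeightOneSpectrum (𝓞 K)),
    AdmL l S → ∀ ψ : Kˣ →* Multiplicative (ZMod l), FnL l S ψ → ψ ≠ 1 → ∃ C : ℝ,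
      ∀ s : ℝ, 1 < s → s ≤ 2 → ‖∑' Q : {Q : HeightOneSpectrum (𝓞 K) // Q ∉ S},
        ZMod.stdAddChar (vl l ψ (gen S Q.1)) * (((nrm Q.1 : ℝ) ^ (-s) : ℝ) : ℂ)‖ ≤ C

/-- the field `g2` -/
def GlG2 : Prop := ∀ (l : ℕ) [Fact l.Prime], l ≠ 2 → ∀ (K : Type) [Field K] [NumberField K]
  (z : K), IsPrimitiveRoot z l → ∀ _G : GSy l K z, ∀ S : Finset (HeightOneSpectrum (𝓞 K)),
    AdmL l S → ∀ γ : Kˣ, ∃ (Q : HeightOneSpectrum (𝓞 K)) (q : Kˣ), Q ∉ S ∧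
    ord Q (q : K) = 1 ∧
    (∀ R : HeightOneSpectrum (𝓞 K), R ∉ S → R ≠ Q → ord R (q : K) = 0) ∧
    ∀ P ∈ S, q / γ ∈ WS l P

/-- the field `hp` -/
def GlHp : Prop := ∀ (l : ℕ) [Fact l.Prime], l ≠ 2 → ∀ (K : Type) [Field K] [NumberField K]
  (z : K), IsPrimitiveRoot z l → ∀ _G : GSy l K z, ∀ (r : ℕ) (a b : Fin r → Kˣ),
    (∀ P : HeightOneSpectrum (𝓞 K), TrL l z (Dec P) (fun i => (a i : K))
      (fun i => (b i : K))) →
    TrL l z (⊤ : Subgroup (Gm K)) (fun i => (a i : K)) (fun i => (b i : K))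

/-- the global theorems hold, from the seven fields -/
theorem sgl_of (h1 : GlHn) (h2 : GlInj) (h3 : GlDu) (h4 : GlUq) (h5 : GlPrm) (h6 : GlG2)
    (h7 : GlHp) : SGl := by
  intro l _ hl K _ _ z hz G
  exact ⟨h1 l hl K z hz G, h2 l hl K z hz G, h3 l hl K z hz G, h4 l hl K z hz G,
    h5 l hl K z hz G, h6 l hl K z hz G, h7 l hl K z hz G⟩

end Pool.Agent.H92.EL
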