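import Pool.Agent.H92.EL.AStm

/-!
# Project ELL (MP_a3214d), row A40: symbols with product formula exist
-/

set_option autoImplicit false

open scoped BigOperators Pointwise
open NumberField IsDedekindDomain

namespace Pool.Agent.H92.EL

open Pool.Agent.H98.MF (Om Gm ord Dec US PrS SUn mS nrm gen)

/-- local symbols multiplied by nonzero constants -/
def gsMul {l : ℕ} [Fact l.Prime] {K : Type} [Field K] [NumberField K] {z : K} (Y : LSy l K z)
    (c : HeightOneSpectrum (𝓞 K) → ZMod l) (hc : ∀ P, c P ≠ 0) : LSy l K z where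
  hs P a b := c P * Y.hs P a b
  cc P := c P * Y.cc P
  cc_ne P := mul_ne_zero (hc P) (Y.cc_ne P)
  mulL P a b d := by rw [Y.mulL, mul_add]
  mulR P a b d := by rw [Y.mulR, mul_add]
  alt P a := by rw [Y.alt, mul_zero]
  nd P a := by
    rw [← Y.nd P a]
    constructor
    · intro h b
      exact (mul_eq_zero.1 (h b)).resolve_left (hc P)
    · intro h b
      rw [h b, mul_zero]
  nm P a b h := by rw [Y.nm P a b h, mul_zero]
  unit P a b h1 h2 := by rw [Y.unit P a b h1 h2, mul_assoc]
  triv P r a b := by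
    rw [Y.triv P a b, ← Finset.mul_sum]
    constructor
    · intro h
      rw [h, mul_zero]
    · intro h
      exact (mul_eq_zero.1 h).resolve_left (hc P)

theorem sgs (hL : SLs) (h4 : SR4) (h5 : SR5) : SGs := by
  intro l hlp hl K _ _ z hz
  obtain ⟨Y⟩ := hL l hlp.out hl K z hz
  obtain ⟨c, h1, h2⟩ := h4 l hl K z hz Y
  have hc := h5 l hl K z hz Y c h1 h2
  exact ⟨{ gsMul Y c hc with prd := fun S hS a ha b hb => h1 S hS a ha b hb }⟩

end Pool.Agent.H92.EL
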