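import Pool.Agent.H92.EL.AStm

/-!
# Project ELL (MP_a3214d), row A17: Herbrand quotients
-/

set_option autoImplicit false

open scoped BigOperators

namespace Pool.Agent.H92.EL

namespace Hb

variable {A : Type} [CommGroup A]

/-- the index of the image -/
noncomputable def ix (f : A →* A) (B : Subgroup A) : ℕ := (B.map f).relIndex B

/-- the order of the kernel -/
noncomputable def kr (f : A →* A) (B : Subgroup A) : ℕ := Nat.card (B ⊓ f.ker : Subgroup A)

theorem hb_E (f : A →* A) {B' B : Subgroup A} (h : B' ≤ B) :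
    (B'.map f).relIndex (B.map f) = (B' ⊔ (B ⊓ f.ker)).relIndex B := by
  have h1 : B ⊔ f.ker = B ⊔ (B' ⊔ f.ker) := by rw [← sup_assoc, sup_eq_left.2 h]
  rw [Subgroup.relIndex_map_map, h1, Subgroup.relIndex_sup_right, ← Subgroup.inf_relIndex_right]
  congr 1
  rw [sup_inf_assoc_of_le _ h, inf_comm]

theorem hb_M (f : A →* A) {B' B : Subgroup A} (h : B' ≤ B) :
    (B'.map f).relIndex (B.map f) * (B' ⊓ f.ker).relIndex (B ⊓ f.ker) = B'.relIndex B := by
  rw [hb_E f h]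
  have e2 : (B' ⊓ f.ker).relIndex (B ⊓ f.ker) = B'.relIndex (B' ⊔ (B ⊓ f.ker)) := by
    have h3 : B' ⊓ f.ker = B' ⊓ (B ⊓ f.ker) := by
      rw [← inf_assoc, inf_eq_left.2 h]
    rw [sup_comm, Subgroup.relIndex_sup_right, h3, Subgroup.inf_relIndex_right]
  rw [e2, mul_comm]
  exact Subgroup.relIndex_mul_relIndex _ _ _ le_sup_left (sup_le h inf_le_left)

theorem hb_K (f : A →* A) (B : Subgroup A) :
    Nat.card (B.map f : Subgroup A) * kr f B = Nat.card B := by
  have h := hb_M f (bot_le : (⊥ : Subgroup A) ≤ B)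
  rw [Subgroup.map_bot, bot_inf_eq, Subgroup.relIndex_bot_left, Subgroup.relIndex_bot_left,
    Subgroup.relIndex_bot_left] at h
  exact h

theorem kr_mul (f : A →* A) {B' B : Subgroup A} (h : B' ≤ B) :
    kr f B' * (B' ⊓ f.ker).relIndex (B ⊓ f.ker) = kr f B := by
  unfold kr
  rw [← Subgroup.relIndex_bot_left, ← Subgroup.relIndex_bot_left]
  exact Subgroup.relIndex_mul_relIndex _ _ _ bot_le (inf_le_inf_right _ h)

theorem kr_comp (f g : A →* A) (B : Subgroup A) :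
    kr (f.comp g) B = kr f (B.map g) * kr g B := by
  have h := hb_K g (B ⊓ (f.comp g).ker)
  have e1 : (B ⊓ (f.comp g).ker).map g = B.map g ⊓ f.ker := by
    ext y
    simp only [Subgroup.mem_map, Subgroup.mem_inf, MonoidHom.mem_ker, MonoidHom.comp_apply]
    constructor
    · rintro ⟨x, ⟨hx, hx'⟩, rfl⟩
      exact ⟨⟨x, hx, rfl⟩, hx'⟩
    · rintro ⟨⟨x, hx, rfl⟩, hx'⟩
      exact ⟨x, ⟨hx, hx'⟩, rfl⟩
  have e2 : kr g (B ⊓ (f.comp g).ker) = kr g B := by
    unfold kr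
    congr 2
    ext y
    simp only [Subgroup.mem_inf, MonoidHom.mem_ker, MonoidHom.comp_apply]
    constructor
    · rintro ⟨⟨hx, -⟩, hy⟩
      exact ⟨hx, hy⟩
    · rintro ⟨hx, hy⟩
      exact ⟨⟨hx, by rw [hy, map_one]⟩, hy⟩
  rw [e1, e2] at h
  exact h.symm

theorem hb_comp (f g : A →* A) {B : Subgroup A} (hf : B.map f ≤ B) (hg : B.map g ≤ B) :
    ix (f.comp g) B * (kr f B * kr g B) = ix f B * ix g B * kr (f.comp g) B := by
  have a1 : ix (f.comp g) B = ((B.map g).map f).relIndex (B.map f) * ix f B := by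
    unfold ix
    rw [← Subgroup.map_map]
    exact (Subgroup.relIndex_mul_relIndex _ _ _ (Subgroup.map_mono hg) hf).symm
  have a2 := hb_M f hg
  have a3 := kr_mul f hg
  rw [a1, kr_comp, ← a3]
  change _ = _ * (B.map g).relIndex B * _
  rw [← a2]
  ring

theorem hb_exact (f g : A →* A) (hc : ∀ x, f (g x) = g (f x)) {B : Subgroup A}
    (hf : B.map f ≤ B) :
    ix f B * (kr f (B ⊓ g.ker) * kr f (B.map g)) =
      ix f (B ⊓ g.ker) * ix f (B.map g) * kr f B := by
  have a1 := hb_M g hf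
  have e0 : (B.map f).map g = (B.map g).map f := by
    rw [Subgroup.map_map, Subgroup.map_map]
    congr 1
    ext x
    exact (hc x).symm
  rw [e0] at a1
  have c1 : (B ⊓ g.ker).map f ≤ B.map f ⊓ g.ker := by
    rintro y ⟨x, hx, rfl⟩
    have hx1 : x ∈ B := (Subgroup.mem_inf.1 hx).1
    have hx2 : g x = 1 := (Subgroup.mem_inf.1 hx).2
    refine Subgroup.mem_inf.2 ⟨⟨x, hx1, rfl⟩, ?_⟩
    rw [MonoidHom.mem_ker, ← hc, hx2, map_one]
  have a2 := Subgroup.relIndex_mul_relIndex _ _ _ c1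
    (inf_le_inf_right g.ker hf : B.map f ⊓ g.ker ≤ B ⊓ g.ker)
  have a3 := hb_K g (B ⊓ f.ker)
  have e3 : kr g (B ⊓ f.ker) = kr f (B ⊓ g.ker) := by
    unfold kr
    rw [inf_right_comm]
  rw [e3] at a3
  have d1 : (B ⊓ f.ker).map g ≤ B.map g ⊓ f.ker := by
    rintro y ⟨x, hx, rfl⟩
    have hx1 : x ∈ B := (Subgroup.mem_inf.1 hx).1
    have hx2 : f x = 1 := (Subgroup.mem_inf.1 hx).2
    refine Subgroup.mem_inf.2 ⟨⟨x, hx1, rfl⟩, ?_⟩
    rw [MonoidHom.mem_ker, hc, hx2, map_one]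
  have a4 := Subgroup.relIndex_mul_relIndex ⊥ _ _ bot_le d1
  rw [Subgroup.relIndex_bot_left, Subgroup.relIndex_bot_left] at a4
  -- the connecting isomorphism
  have e1 : (B ⊓ (f.comp g).ker).map g = B.map g ⊓ f.ker := by
    ext y
    simp only [Subgroup.mem_map, Subgroup.mem_inf, MonoidHom.mem_ker, MonoidHom.comp_apply]
    constructor
    · rintro ⟨x, ⟨hx, hx'⟩, rfl⟩
      exact ⟨⟨x, hx, rfl⟩, hx'⟩
    · rintro ⟨⟨x, hx, rfl⟩, hx'⟩
      exact ⟨x, ⟨hx, hx'⟩, rfl⟩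
  have e2 : (B ⊓ (f.comp g).ker).map f = B.map f ⊓ g.ker := by
    ext y
    simp only [Subgroup.mem_map, Subgroup.mem_inf, MonoidHom.mem_ker, MonoidHom.comp_apply, hc]
    constructor
    · rintro ⟨x, ⟨hx, hx'⟩, rfl⟩
      exact ⟨⟨x, hx, rfl⟩, hx'⟩
    · rintro ⟨⟨x, hx, rfl⟩, hx'⟩
      exact ⟨x, ⟨hx, hx'⟩, rfl⟩
  have f1 : B ⊓ (f.comp g).ker ⊓ g.ker = B ⊓ g.ker := by
    ext y
    simp only [Subgroup.mem_inf, MonoidHom.mem_ker, MonoidHom.comp_apply]
    constructor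
    · rintro ⟨⟨hx, -⟩, hy⟩
      exact ⟨hx, hy⟩
    · rintro ⟨hx, hy⟩
      exact ⟨⟨hx, by rw [hy, map_one]⟩, hy⟩
  have f2 : B ⊓ (f.comp g).ker ⊓ f.ker = B ⊓ f.ker := by
    ext y
    simp only [Subgroup.mem_inf, MonoidHom.mem_ker, MonoidHom.comp_apply, hc]
    constructor
    · rintro ⟨⟨hx, -⟩, hy⟩
      exact ⟨hx, hy⟩
    · rintro ⟨hx, hy⟩
      exact ⟨⟨hx, by rw [hy, map_one]⟩, hy⟩
  have g1 : B ⊓ f.ker ≤ B ⊓ (f.comp g).ker := by
    rw [← f2]
    exact inf_le_left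
  have g2 : B ⊓ g.ker ≤ B ⊓ (f.comp g).ker := by
    rw [← f1]
    exact inf_le_left
  have a5 : ((B ⊓ f.ker).map g).relIndex (B.map g ⊓ f.ker) =
      ((B ⊓ g.ker).map f).relIndex (B.map f ⊓ g.ker) := by
    rw [← e1, ← e2, hb_E g g1, hb_E f g2, f1, f2, sup_comm]
  rw [a5] at a4
  -- conclusion
  have b1 : ix f B = ix f (B.map g) * (B.map f ⊓ g.ker).relIndex (B ⊓ g.ker) := a1.symm
  have b2 : ix f (B ⊓ g.ker) = ((B ⊓ g.ker).map f).relIndex (B.map f ⊓ g.ker) *
      (B.map f ⊓ g.ker).relIndex (B ⊓ g.ker) := a2.symm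
  have b3 : kr f B = Nat.card ((B ⊓ f.ker).map g : Subgroup A) * kr f (B ⊓ g.ker) := a3.symm
  have b4 : kr f (B.map g) = Nat.card ((B ⊓ f.ker).map g : Subgroup A) *
      ((B ⊓ g.ker).map f).relIndex (B.map f ⊓ g.ker) := a4.symm
  rw [b1, b2, b3, b4]
  ring

theorem hb_fin (f : A →* A) {B' B : Subgroup A} (h : B' ≤ B) (hn : B'.relIndex B ≠ 0)
    (hf : B.map f ≤ B) (hf' : B'.map f ≤ B') : ix f B' * kr f B = ix f B * kr f B' := by
  have a1 := Subgroup.relIndex_mul_relIndex _ _ _ hf' h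
  have a1' := Subgroup.relIndex_mul_relIndex _ _ _ (Subgroup.map_mono (f := f) h) hf
  have a2 := hb_M f h
  have a3 := kr_mul f h
  have b1 : ix f B' * B'.relIndex B = (B'.map f).relIndex (B.map f) * ix f B :=
    a1.trans a1'.symm
  refine Nat.eq_of_mul_eq_mul_right (Nat.pos_of_ne_zero hn) ?_
  calc ix f B' * kr f B * B'.relIndex B = (ix f B' * B'.relIndex B) * kr f B := by ring
    _ = ((B'.map f).relIndex (B.map f) * ix f B) * (kr f B' *
        (B' ⊓ f.ker).relIndex (B ⊓ f.ker)) := by rw [b1, a3]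
    _ = ix f B * kr f B' * ((B'.map f).relIndex (B.map f) *
        (B' ⊓ f.ker).relIndex (B ⊓ f.ker)) := by ring
    _ = ix f B * kr f B' * B'.relIndex B := by rw [a2]

/-! ### iterates -/

theorem itr_succ (σ : A →* A) (n : ℕ) (x : A) : itr σ (n + 1) x = itr σ n (σ x) := rfl

theorem itr_succ' (σ : A →* A) (n : ℕ) (x : A) : itr σ (n + 1) x = σ (itr σ n x) := by
  induction n generalizing x with
  | zero => rfl
  | succ n ih => rw [itr_succ, ih, itr_succ]

theorem itr_add (σ : A →* A) (m n : ℕ) (x : A) : itr σ (m + n) x = itr σ m (itr σ n x) := by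
  induction m with
  | zero => rw [zero_add]; rfl
  | succ m ih => rw [Nat.succ_add, itr_succ', ih, itr_succ']

theorem itr_mul (σ : A →* A) (m n : ℕ) (x : A) : itr σ (m * n) x = itr (itr σ m) n x := by
  induction n generalizing x with
  | zero => rfl
  | succ n ih => rw [Nat.mul_succ, itr_add, ih, itr_succ]

theorem dl_apply (σ : A →* A) (x : A) : dl σ x = σ x / x := rfl

theorem nl_apply (n : ℕ) (σ : A →* A) (x : A) : nl n σ x = ∏ i ∈ Finset.range n, itr σ i x := by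
  unfold nl
  rw [MonoidHom.finsetProd_apply]

theorem tel (σ : A →* A) (n : ℕ) (x : A) : dl σ (nl n σ x) = itr σ n x / x := by
  rw [nl_apply]
  induction n with
  | zero =>
    rw [Finset.range_zero, Finset.prod_empty, map_one]
    exact (div_self' x).symm
  | succ n ih =>
    rw [Finset.prod_range_succ, map_mul, ih, dl_apply, ← itr_succ']
    exact div_mul_div_cancel' _ _ _

theorem tel' (σ : A →* A) (n : ℕ) (x : A) : nl n σ (dl σ x) = itr σ n x / x := by
  rw [nl_apply]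
  induction n with
  | zero =>
    rw [Finset.range_zero, Finset.prod_empty]
    exact (div_self' x).symm
  | succ n ih =>
    rw [Finset.prod_range_succ, ih, dl_apply, map_div, ← itr_succ]
    exact div_mul_div_cancel' _ _ _

theorem itr_id {σ : A →* A} {l : ℕ} (h : itr σ l = MonoidHom.id A) (n : ℕ) (x : A) :
    itr σ (l * n) x = x := by
  rw [itr_mul, h]
  induction n with
  | zero => rfl
  | succ n ih => rw [itr_succ]; exact ih

theorem itr_fix {σ : A →* A} {x : A} (h : σ x = x) (n : ℕ) : itr σ n x = x := by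
  induction n with
  | zero => rfl
  | succ n ih => rw [itr_succ, h, ih]

theorem nl_fix {σ : A →* A} {x : A} (h : σ x = x) (n : ℕ) : nl n σ x = x ^ n := by
  rw [nl_apply, Finset.prod_congr rfl fun i _ => itr_fix h i, Finset.prod_const,
    Finset.card_range]

/-! ### inverses -/

theorem map_invHom (f : A →* A) (B : Subgroup A) : B.map f⁻¹ = B.map f := by
  ext y
  constructor
  · rintro ⟨x, hx, rfl⟩
    exact ⟨x⁻¹, B.inv_mem hx, by rw [map_inv]; rfl⟩
  · rintro ⟨x, hx, rfl⟩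
    refine ⟨x⁻¹, B.inv_mem hx, ?_⟩
    rw [map_inv, MonoidHom.inv_apply, inv_inv]

theorem ker_invHom (f : A →* A) : f⁻¹.ker = f.ker := by
  ext y
  rw [MonoidHom.mem_ker, MonoidHom.mem_ker, MonoidHom.inv_apply, inv_eq_one]

/-! ### the polynomial identity -/

open Polynomial in
theorem poly (n : ℕ) (hl : (n + 1).Prime) : (∑ i ∈ Finset.range (n + 1), (X : ℤ[X]) ^ i) ∣
    ∏ k ∈ Finset.range n, (1 - (X : ℤ[X]) ^ (k + 1)) - ((n + 1 : ℕ) : ℤ[X]) := by
  haveI : Fact (n + 1).Prime := ⟨hl⟩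
  have hz : IsPrimitiveRoot (Complex.exp (2 * Real.pi * Complex.I / (n + 1 : ℕ))) (n + 1) :=
    Complex.isPrimitiveRoot_exp _ hl.ne_zero
  set z : ℂ := Complex.exp (2 * Real.pi * Complex.I / (n + 1 : ℕ)) with hz'
  rw [← cyclotomic_prime, cyclotomic_eq_minpoly hz hl.pos]
  refine minpoly.isIntegrallyClosed_dvd (hz.isIntegral hl.pos) ?_
  have h1 := hz.prod_one_sub_pow_eq_order
  simp only [map_sub, map_prod, map_one, map_pow, aeval_X, map_natCast]
  rw [h1]
  push_cast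
  ring

section poly

open Polynomial

/-- evaluation of a polynomial at an endomorphism -/
noncomputable def T (σ : A →* A) (P : ℤ[X]) (x : A) : A :=
  Additive.toMul ((aeval (R := ℤ) (A := AddMonoid.End (Additive A)) (MonoidHom.toAdditive σ) P)
    (Additive.ofMul x))

theorem T_one (σ : A →* A) (x : A) : T σ 1 x = x := by
  unfold T
  rw [map_one]
  rfl

theorem T_X (σ : A →* A) (x : A) : T σ X x = σ x := by
  unfold T
  rw [aeval_X]
  rfl

theorem T_mul (σ : A →* A) (P Q : ℤ[X]) (x : A) : T σ (P * Q) x = T σ P (T σ Q x) := by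
  unfold T
  rw [map_mul]
  rfl

theorem T_add (σ : A →* A) (P Q : ℤ[X]) (x : A) : T σ (P + Q) x = T σ P x * T σ Q x := by
  unfold T
  rw [map_add]
  rfl

theorem T_sub (σ : A →* A) (P Q : ℤ[X]) (x : A) : T σ (P - Q) x = T σ P x / T σ Q x := by
  unfold T
  rw [map_sub]
  rfl

theorem T_zero (σ : A →* A) (x : A) : T σ 0 x = 1 := by
  unfold T
  rw [map_zero]
  rfl

theorem T_at_one (σ : A →* A) (P : ℤ[X]) : T σ P 1 = 1 := by
  unfold T
  rw [ofMul_one, map_zero]
  rfl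

theorem T_pow (σ : A →* A) (n : ℕ) (x : A) : T σ (X ^ n) x = itr σ n x := by
  induction n generalizing x with
  | zero => rw [pow_zero, T_one]; rfl
  | succ n ih => rw [pow_succ, T_mul, T_X, ih, itr_succ]

theorem T_natCast (σ : A →* A) (n : ℕ) (x : A) : T σ (n : ℤ[X]) x = x ^ n := by
  induction n with
  | zero => rw [Nat.cast_zero, T_zero, pow_zero]
  | succ n ih => rw [Nat.cast_succ, T_add, ih, T_one, pow_succ]

theorem T_geom (σ : A →* A) (n : ℕ) (x : A) :
    T σ (∑ i ∈ Finset.range n, X ^ i) x = nl n σ x := by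
  rw [nl_apply]
  induction n with
  | zero => rw [Finset.sum_range_zero, T_zero, Finset.prod_range_zero]
  | succ n ih => rw [Finset.sum_range_succ, T_add, ih, T_pow, Finset.prod_range_succ]

/-- the composition of the `1 - σ ^ k` -/
noncomputable def cmp (σ : A →* A) : ℕ → (A →* A)
  | 0 => MonoidHom.id A
  | n + 1 => (cmp σ n).comp (dl (itr σ (n + 1)))⁻¹

theorem T_cmp (σ : A →* A) (n : ℕ) (x : A) :
    T σ (∏ k ∈ Finset.range n, (1 - X ^ (k + 1))) x = cmp σ n x := by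
  induction n generalizing x with
  | zero => rw [Finset.prod_range_zero, T_one]; rfl
  | succ n ih =>
    rw [Finset.prod_range_succ, T_mul, ih, T_sub, T_one, T_pow]
    change _ = cmp σ n ((dl (itr σ (n + 1)))⁻¹ x)
    rw [MonoidHom.inv_apply, dl_apply, inv_div]

theorem cmp_eq (σ : A →* A) (n : ℕ) (hl : (n + 1).Prime) (x : A) (hx : nl (n + 1) σ x = 1) :
    cmp σ n x = x ^ (n + 1) := by
  obtain ⟨Q, hQ⟩ := poly n hl
  have h1 : T σ (∏ k ∈ Finset.range n, (1 - (X : ℤ[X]) ^ (k + 1)) - ((n + 1 : ℕ) : ℤ[X])) x = 1 := by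
    rw [hQ, mul_comm, T_mul, T_geom, hx, T_at_one]
  rw [T_sub, T_cmp, T_natCast, div_eq_one] at h1
  exact h1

end poly

/-! ### the quotients of `ker N` -/

theorem stab_itr {σ : A →* A} {B : Subgroup A} (h : ∀ x ∈ B, σ x ∈ B) (n : ℕ) :
    ∀ x ∈ B, itr σ n x ∈ B := by
  induction n with
  | zero => exact fun x hx => hx
  | succ n ih => exact fun x hx => ih _ (h x hx)

theorem stab_nl {σ : A →* A} {B : Subgroup A} (h : ∀ x ∈ B, σ x ∈ B) (n : ℕ) :
    ∀ x ∈ B, nl n σ x ∈ B := by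
  intro x hx
  rw [nl_apply]
  exact B.prod_mem fun i _ => stab_itr h i x hx

theorem stab_dl {σ : A →* A} {B : Subgroup A} (h : ∀ x ∈ B, σ x ∈ B) :
    ∀ x ∈ B, dl σ x ∈ B := fun x hx => B.div_mem (h x hx) hx

theorem map_dl_itr {σ : A →* A} {l : ℕ} (hl : l.Prime) (hσ : itr σ l = MonoidHom.id A)
    {B : Subgroup A} (h : ∀ x ∈ B, σ x ∈ B) {k : ℕ} (h1 : 1 ≤ k) (h2 : k < l) :
    B.map (dl (itr σ k)) = B.map (dl σ) ∧ B ⊓ (dl (itr σ k)).ker = B ⊓ (dl σ).ker := by
  -- an inverse of `k` modulo `l`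
  have hco : Nat.Coprime k l := ((Nat.Prime.coprime_iff_not_dvd hl).2
    (Nat.not_dvd_of_pos_of_lt h1 h2)).symm
  obtain ⟨j, m, hj⟩ : ∃ j m : ℕ, k * j = l * m + 1 := by
    obtain ⟨j, -, hj⟩ := Nat.exists_mul_mod_eq_one_of_coprime hco hl.one_lt
    refine ⟨j, k * j / l, ?_⟩
    have := Nat.div_add_mod (k * j) l
    rw [hj] at this
    exact this.symm
  have hit : ∀ x, itr (itr σ k) j x = σ x := by
    intro x
    rw [← itr_mul, hj, itr_succ, itr_id hσ]
  constructor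
  · apply le_antisymm
    · rintro y ⟨x, hx, rfl⟩
      refine ⟨nl k σ x, stab_nl h k x hx, ?_⟩
      exact tel σ k x
    · rintro y ⟨x, hx, rfl⟩
      refine ⟨nl j (itr σ k) x, stab_nl (stab_itr h k) j x hx, ?_⟩
      rw [tel, hit]
      rfl
  · ext x
    rw [Subgroup.mem_inf, Subgroup.mem_inf, MonoidHom.mem_ker, MonoidHom.mem_ker, dl_apply,
      dl_apply, div_eq_one, div_eq_one]
    refine and_congr_right fun _ => ⟨fun hx => ?_, fun hx => itr_fix hx k⟩
    rw [← hit x]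
    exact itr_fix hx j

theorem kr_ne_zero {f : A →* A} {B : Subgroup A} (h : (f.ker : Set A).Finite) : kr f B ≠ 0 := by
  unfold kr
  haveI : Finite (B ⊓ f.ker : Subgroup A) :=
    Set.Finite.subset h (fun x hx => (Subgroup.mem_inf.1 hx).2)
  exact Nat.card_pos.ne'

theorem cmp_quot {σ : A →* A} {l : ℕ} (hl : l.Prime) (hσ : itr σ l = MonoidHom.id A)
    {B : Subgroup A} (h : ∀ x ∈ B, σ x ∈ B) (hk : kr (dl σ) B ≠ 0) :
    ∀ n, n < l → (∀ x ∈ B, cmp σ n x ∈ B) ∧ kr (cmp σ n) B ≠ 0 ∧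
      ix (cmp σ n) B * kr (dl σ) B ^ n = ix (dl σ) B ^ n * kr (cmp σ n) B := by
  intro n
  induction n with
  | zero =>
    intro _
    have e1 : kr (cmp σ 0) B = 1 := by
      unfold kr cmp
      rw [MonoidHom.ker_id, inf_bot_eq]
      exact Nat.card_unique
    have e2 : ix (cmp σ 0) B = 1 := by
      unfold ix cmp
      rw [Subgroup.map_id]
      exact Subgroup.relIndex_self _
    refine ⟨fun x hx => hx, by rw [e1]; exact one_ne_zero, ?_⟩
    rw [e1, e2, pow_zero, pow_zero]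
  | succ n ih =>
    intro hn
    obtain ⟨i1, i2, i3⟩ := ih (by omega)
    obtain ⟨j1, j2⟩ := map_dl_itr hl hσ h (k := n + 1) (by omega) hn
    have hE : ∀ x ∈ B, (dl (itr σ (n + 1)))⁻¹ x ∈ B := fun x hx =>
      B.inv_mem (stab_dl (stab_itr h (n + 1)) x hx)
    have m1 : B.map (cmp σ n) ≤ B := by
      rintro y ⟨x, hx, rfl⟩
      exact i1 x hx
    have m2 : B.map (dl (itr σ (n + 1)))⁻¹ ≤ B := by
      rintro y ⟨x, hx, rfl⟩
      exact hE x hx
    have q1 : ix (dl (itr σ (n + 1)))⁻¹ B = ix (dl σ) B := by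
      unfold ix
      rw [map_invHom, j1]
    have q2 : kr (dl (itr σ (n + 1)))⁻¹ B = kr (dl σ) B := by
      unfold kr
      rw [ker_invHom, j2]
    have hcomp := hb_comp (cmp σ n) (dl (itr σ (n + 1)))⁻¹ m1 m2
    have hkc := kr_comp (cmp σ n) (dl (itr σ (n + 1)))⁻¹ B
    rw [q1, q2] at hcomp
    rw [q2] at hkc
    have hc : cmp σ (n + 1) = (cmp σ n).comp (dl (itr σ (n + 1)))⁻¹ := rfl
    rw [← hc] at hcomp hkc
    refine ⟨fun x hx => i1 _ (hE x hx), ?_, ?_⟩
    · rw [hkc]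
      refine mul_ne_zero ?_ hk
      intro h0
      have h1 := kr_mul (cmp σ n) m2
      rw [h0, zero_mul] at h1
      exact i2 h1.symm
    · refine Nat.eq_of_mul_eq_mul_right (Nat.pos_of_ne_zero i2) ?_
      calc ix (cmp σ (n + 1)) B * kr (dl σ) B ^ (n + 1) * kr (cmp σ n) B
          = ix (cmp σ (n + 1)) B * (kr (cmp σ n) B * kr (dl σ) B) * kr (dl σ) B ^ n := by ring
        _ = ix (cmp σ n) B * ix (dl σ) B * kr (cmp σ (n + 1)) B * kr (dl σ) B ^ n := by
            rw [hcomp]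
        _ = (ix (cmp σ n) B * kr (dl σ) B ^ n) * ix (dl σ) B * kr (cmp σ (n + 1)) B := by ring
        _ = (ix (dl σ) B ^ n * kr (cmp σ n) B) * ix (dl σ) B * kr (cmp σ (n + 1)) B := by
            rw [i3]
        _ = _ := by ring

theorem qH_eq (l : ℕ) (H : Subgroup A) :
    qH l H = (ix (powMonoidHom l) H : ℚ) / (kr (powMonoidHom l) H : ℚ) := by
  unfold qH ix kr pw
  congr 2

end Hb

open Hb in
theorem shb : SHb := by
  intro l hl A _ σ hσ hi hfin hker
  obtain ⟨n, rfl⟩ : ∃ n, l = n + 1 := ⟨l - 1, by have := hl.pos; omega⟩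
  set P : A →* A := powMonoidHom (n + 1) with hP
  set N : A →* A := nl (n + 1) σ with hN
  set D : A →* A := dl σ with hD
  set F : Subgroup A := D.ker with hF
  set A0 : Subgroup A := N.ker with hA0
  set R : Subgroup A := N.range with hR
  -- fixed points
  have hFix : ∀ x, x ∈ F ↔ σ x = x := by
    intro x
    rw [hF, MonoidHom.mem_ker, hD, dl_apply, div_eq_one]
  have hA0D : A0 = D.range := by
    refine le_antisymm hker ?_
    rintro y ⟨x, rfl⟩
    rw [hA0, MonoidHom.mem_ker, hN, hD, tel', hσ]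
    exact div_self' x
  have hRF : R ≤ F := by
    rintro y ⟨x, rfl⟩
    rw [hF, MonoidHom.mem_ker, hN, hD, tel, hσ]
    exact div_self' x
  have hNF : ∀ x ∈ F, N x = P x := fun x hx => nl_fix ((hFix x).1 hx) (n + 1)
  have hPker : (P.ker : Set A).Finite := hfin
  have hkP : ∀ B : Subgroup A, kr P B ≠ 0 := fun B => kr_ne_zero hPker
  -- (c)
  have hmapF : F.map N = F.map P := by
    ext y
    constructor
    · rintro ⟨x, hx, rfl⟩
      exact ⟨x, hx, (hNF x hx).symm⟩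
    · rintro ⟨x, hx, rfl⟩
      exact ⟨x, hx, hNF x hx⟩
  have c1 : ix D A0 = (F.map N).relIndex R := by
    unfold ix
    have e1 : (A0.map D).relIndex A0 = (A0.map D).relIndex ((⊤ : Subgroup A).map D) := by
      rw [← MonoidHom.range_eq_map, ← hA0D]
    have e2 : (F.map N).relIndex R = (F.map N).relIndex ((⊤ : Subgroup A).map N) := by
      rw [← MonoidHom.range_eq_map]
    rw [e1, e2, hb_E D le_top, hb_E N le_top, top_inf_eq, top_inf_eq, sup_comm]
  have c2 : ix D A0 * R.relIndex F = ix P F := by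
    rw [c1]
    unfold ix
    rw [← hmapF]
    refine Subgroup.relIndex_mul_relIndex _ _ _ ?_ hRF
    rintro y ⟨x, -, rfl⟩
    exact ⟨x, rfl⟩
  have c3 : kr D A0 = kr P F := by
    unfold kr
    congr 2
    ext x
    rw [Subgroup.mem_inf, Subgroup.mem_inf, MonoidHom.mem_ker, ← hF]
    constructor
    · rintro ⟨h1, h2⟩
      have h3 : N x = 1 := h1
      exact ⟨h2, by rw [MonoidHom.mem_ker, ← hNF x h2, h3]⟩
    · rintro ⟨h1, h2⟩
      refine ⟨?_, h1⟩
      change N x = 1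
      rw [hNF x h1]
      exact h2
  -- exact sequences
  have hPtop : (⊤ : Subgroup A).map P ≤ ⊤ := le_top
  have hitop : ix P (⊤ : Subgroup A) ≠ 0 := by
    unfold ix
    rw [Subgroup.relIndex_top_right]
    exact hi
  have x1 := hb_exact P N (fun x => (map_pow N x (n + 1)).symm) hPtop
  rw [top_inf_eq, ← MonoidHom.range_eq_map, ← hA0, ← hR] at x1
  have x2 := hb_exact P D (fun x => (map_pow D x (n + 1)).symm) hPtop
  rw [top_inf_eq, ← MonoidHom.range_eq_map, ← hA0D, ← hF] at x2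
  have hne : ix P F * ix P A0 * kr P (⊤ : Subgroup A) ≠ 0 := by
    rw [← x2]
    exact mul_ne_zero hitop (mul_ne_zero (hkP _) (hkP _))
  have hiF : ix P F ≠ 0 := fun h => hne (by rw [h]; ring)
  have hh : R.relIndex F ≠ 0 := fun h => hiF (by rw [← c2, h, mul_zero])
  -- finite index
  have pst : ∀ B : Subgroup A, B.map P ≤ B := by
    rintro B y ⟨x, hx, rfl⟩
    exact B.pow_mem hx _
  have x3 := hb_fin P hRF hh (pst F) (pst R)
  -- (d)
  have stA0 : ∀ x ∈ A0, σ x ∈ A0 := by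
    intro x hx
    rw [hA0D] at hx ⊢
    obtain ⟨y, rfl⟩ := hx
    refine ⟨σ y, ?_⟩
    rw [hD, dl_apply, dl_apply, map_div]
  obtain ⟨-, -, x4⟩ := cmp_quot hl hσ stA0 (by rw [← hD, c3]; exact hkP F) n (Nat.lt_succ_self n)
  have hcmp : ∀ x ∈ A0, cmp σ n x = P x := fun x hx => cmp_eq σ n hl x hx
  have d1 : ix (cmp σ n) A0 = ix P A0 := by
    unfold ix
    congr 1
    ext y
    constructor
    · rintro ⟨x, hx, rfl⟩
      exact ⟨x, hx, (hcmp x hx).symm⟩
    · rintro ⟨x, hx, rfl⟩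
      exact ⟨x, hx, hcmp x hx⟩
  have d2 : kr (cmp σ n) A0 = kr P A0 := by
    unfold kr
    congr 2
    ext x
    rw [Subgroup.mem_inf, Subgroup.mem_inf]
    refine and_congr_right fun hx => ?_
    rw [MonoidHom.mem_ker, MonoidHom.mem_ker, hcmp x hx]
  rw [← hD, d1, d2, c3] at x4
  refine ⟨hh, ?_⟩
  rw [qH_eq, qH_eq, ← hP, Nat.add_sub_cancel]
  have k1 : (kr P (⊤ : Subgroup A) : ℚ) ≠ 0 := Nat.cast_ne_zero.2 (hkP _)
  have k2 : (kr P F : ℚ) ≠ 0 := Nat.cast_ne_zero.2 (hkP _)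
  have k3 : (kr P A0 : ℚ) ≠ 0 := Nat.cast_ne_zero.2 (hkP _)
  have k4 : (kr P R : ℚ) ≠ 0 := Nat.cast_ne_zero.2 (hkP _)
  have y1 : (ix P (⊤ : Subgroup A) : ℚ) * (kr P A0 * kr P R) =
      ix P A0 * ix P R * kr P (⊤ : Subgroup A) := by exact_mod_cast x1
  have y2 : (ix D A0 : ℚ) * (R.relIndex F : ℕ) = ix P F := by exact_mod_cast c2
  have y3 : (ix P R : ℚ) * kr P F = ix P F * kr P R := by exact_mod_cast x3
  have y4 : (ix P A0 : ℚ) * (kr P F : ℚ) ^ n = (ix D A0 : ℚ) ^ n * kr P A0 := by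
    exact_mod_cast x4
  have z1 : (ix P (⊤ : Subgroup A) : ℚ) / kr P (⊤ : Subgroup A) =
      (ix P A0 / kr P A0) * (ix P R / kr P R) := by
    field_simp
    linear_combination y1
  have z2 : (ix P R : ℚ) / kr P R = ix P F / kr P F := by
    field_simp
    linear_combination y3
  have z3 : (ix P A0 : ℚ) / kr P A0 = (ix D A0 / kr P F) ^ n := by
    rw [div_pow, div_eq_div_iff k3 (pow_ne_zero _ k2)]
    exact y4
  rw [z1, z2, z3, pow_succ, ← y2, ← mul_assoc, ← mul_pow]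
  congr 2
  ring

end Pool.Agent.H92.EL
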