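import Pool.Agent.H92.EL.AStm
import Pool.Agent.H98.MF.C.Bas

/-!
# Project ELL (MP_a3214d), row A41: the Hasse norm theorem
-/

set_option autoImplicit false

open scoped BigOperators Pointwise
open NumberField IsDedekindDomain

namespace Pool.Agent.H92.EL

open Pool.Agent.H98.MF (Om Gm ord Dec US PrS SUn mS nrm gen)
open Pool.Agent.H98.MF.B (mem_US exists_mem_US)

/-- every element is a norm from the algebra of an `l`-th power -/
theorem hn_pw (hK : SKu) (hN : SNG) (l : ℕ) [Fact l.Prime] (hl : l ≠ 2) (K : Type) [Field K]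
    [NumberField K] (z : K) (hz : IsPrimitiveRoot z l) (a b : Kˣ)
    (ha : a ∈ pw l (⊤ : Subgroup Kˣ)) : b ∈ NGL l a := by
  rw [hN l Fact.out hl K z hz a b]
  have h1 := ((hK l Fact.out K z hz).zero a).2 ha
  refine ⟨fun _ => 0, IsLocallyConstant.const 0, fun σ _ τ _ => ?_⟩
  rw [h1 σ]
  ring

theorem hn_of (hA : SAn) (h3 : SC3) (hr1 : SR1) (hK : SKu) (hN : SNG) :
    ∀ (l : ℕ) [Fact l.Prime], l ≠ 2 → ∀ (K : Type) [Field K] [NumberField K] (z : K),
      IsPrimitiveRoot z l → ∀ G : GSy l K z, ∀ a b : Kˣ,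
        (∀ P, G.hs P a b = 0) → b ∈ NGL l a := by
  intro l hlp hl K _ _ z hz G a b hab
  by_cases ha : a ∈ pw l (⊤ : Subgroup Kˣ)
  · exact hn_pw hK hN l hl K z hz a b ha
  · obtain ⟨T, hT⟩ := exists_mem_US ({b} : Finset Kˣ)
    obtain ⟨S, hTS, hS, _⟩ := h3 l hlp.out hl K z hz T {a} fun a' ha' => by
      rw [Finset.mem_singleton.1 ha']
      exact ha
    refine (hr1 l hl K z hz G.toLSy (hA l hl K z hz) S a ha
      (hS a (Finset.mem_singleton_self a))).2.1 b ?_ fun P _ => hab P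
    have h1 := mem_US.1 (hT b (Finset.mem_singleton_self b))
    exact mem_US.2 fun Q hQ => h1 Q fun h => hQ (hTS h)

end Pool.Agent.H92.EL
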