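import Pool.Agent.H92.EL.AStm
import Pool.Agent.H98.MF.L.Ord

/-!
# Project ELL (MP_a3214d), block A: the Hasse principle for sums of symbols (row A46)
-/

set_option autoImplicit false

open scoped BigOperators Pointwise
open NumberField IsDedekindDomain

namespace Pool.Agent.H92.EL

open Pool.Agent.H98.MF (Om Gm ord Dec US PrS SUn mS nrm gen FixD)

section

variable {l : ℕ} [Fact l.Prime] {K : Type} [Field K] [NumberField K] {z : K} (G : GSy l K z)

/-! ### calculus of the symbols -/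

theorem hp_anti (P : HeightOneSpectrum (𝓞 K)) (a b : Kˣ) : G.hs P a b = -G.hs P b a := by
  have h := G.alt P (a * b)
  rw [G.mulL, G.mulR, G.mulR, G.alt, G.alt] at h
  linear_combination h

theorem hp_one_right (P : HeightOneSpectrum (𝓞 K)) (a : Kˣ) : G.hs P a 1 = 0 := by
  have h := G.mulR P a 1 1
  rw [mul_one] at h
  linear_combination -h

theorem hp_one_left (P : HeightOneSpectrum (𝓞 K)) (b : Kˣ) : G.hs P 1 b = 0 := by
  rw [hp_anti, hp_one_right, neg_zero]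

theorem hp_inv_right (P : HeightOneSpectrum (𝓞 K)) (a b : Kˣ) :
    G.hs P a b⁻¹ = -G.hs P a b := by
  have h := G.mulR P a b b⁻¹
  rw [mul_inv_cancel, hp_one_right] at h
  linear_combination -h

theorem hp_div_right (P : HeightOneSpectrum (𝓞 K)) (a b c : Kˣ) :
    G.hs P a (b / c) = G.hs P a b - G.hs P a c := by
  rw [div_eq_mul_inv, G.mulR, hp_inv_right, sub_eq_add_neg]

theorem hp_div_left (P : HeightOneSpectrum (𝓞 K)) (a b c : Kˣ) :
    G.hs P (a / b) c = G.hs P a c - G.hs P b c := by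
  rw [hp_anti, hp_div_right, hp_anti G P c a, hp_anti G P c b]
  ring

theorem hp_pow_right (P : HeightOneSpectrum (𝓞 K)) (a b : Kˣ) (n : ℕ) :
    G.hs P a (b ^ n) = n * G.hs P a b := by
  induction n with
  | zero => rw [pow_zero, hp_one_right, Nat.cast_zero, zero_mul]
  | succ n ih =>
    rw [pow_succ, G.mulR, ih]
    push_cast
    ring

theorem hp_W (hM : SMem) {P : HeightOneSpectrum (𝓞 K)} {x y : Kˣ} (h : x / y ∈ WS l P)
    (b : Kˣ) : G.hs P x b = G.hs P y b := by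
  have h1 := (G.nd P (x / y)).2 ((hM l Fact.out K P (x / y)).1 h) b
  rw [hp_div_left] at h1
  exact sub_eq_zero.1 h1

/-! ### local choices -/

theorem hp_gam (P : HeightOneSpectrum (𝓞 K)) (a c : Kˣ) : ∃ γ : Kˣ,
    (¬ LocW l P (a : K) → G.hs P a γ ≠ 0) ∧ (¬ LocW l P (c : K) → G.hs P c γ ≠ 0) := by
  by_cases ha : LocW l P (a : K)
  · by_cases hc : LocW l P (c : K)
    · exact ⟨1, fun h => absurd ha h, fun h => absurd hc h⟩
    · have h1 : ¬ ∀ b, G.hs P c b = 0 := fun h => hc ((G.nd P c).1 h)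
      obtain ⟨b, hb⟩ := not_forall.1 h1
      exact ⟨b, fun h => absurd ha h, fun _ => hb⟩
  · have h1 : ¬ ∀ b, G.hs P a b = 0 := fun h => ha ((G.nd P a).1 h)
    obtain ⟨b, hb⟩ := not_forall.1 h1
    by_cases hc : LocW l P (c : K)
    · exact ⟨b, fun _ => hb, fun h => absurd hc h⟩
    · have h2 : ¬ ∀ b, G.hs P c b = 0 := fun h => hc ((G.nd P c).1 h)
      obtain ⟨d, hd⟩ := not_forall.1 h2
      by_cases h3 : G.hs P c b = 0
      · by_cases h4 : G.hs P a d = 0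
        · refine ⟨b * d, fun _ => ?_, fun _ => ?_⟩
          · rw [G.mulR, h4, add_zero]
            exact hb
          · rw [G.mulR, h3, zero_add]
            exact hd
        · exact ⟨d, fun _ => h4, fun _ => hd⟩
      · exact ⟨b, fun _ => hb, fun _ => h3⟩

theorem hp_x (P : HeightOneSpectrum (𝓞 K)) (a q b : Kˣ)
    (h : ¬ LocW l P (a : K) → G.hs P a q ≠ 0) :
    ∃ x : Kˣ, G.hs P a x = G.hs P a b ∧ G.hs P q x = G.hs P a b := by
  haveI : NeZero l := ⟨(Fact.out : l.Prime).ne_zero⟩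
  by_cases ha : LocW l P (a : K)
  · have h1 := (G.nd P a).2 ha b
    refine ⟨1, ?_, ?_⟩
    · rw [hp_one_right, h1]
    · rw [hp_one_right, h1]
  · have h0 := h ha
    set s := G.hs P a b
    set t := G.hs P a q with ht
    refine ⟨q ^ (s * t⁻¹).val * a ^ (-(s * t⁻¹)).val, ?_, ?_⟩
    · rw [G.mulR, hp_pow_right, hp_pow_right, G.alt, mul_zero, add_zero,
        ZMod.natCast_zmod_val, ← ht]
      field_simp
    · rw [G.mulR, hp_pow_right, hp_pow_right, G.alt, mul_zero, zero_add,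
        ZMod.natCast_zmod_val, hp_anti G P q a, ← ht]
      field_simp

/-! ### units -/

theorem hp_ordl {S : Finset (HeightOneSpectrum (𝓞 K))} (hS : AdmL l S)
    {P : HeightOneSpectrum (𝓞 K)} (hP : P ∉ S) : ord P (l : K) = 0 := by
  have h1 := Pool.Agent.H98.MF.ord_int_nonneg P ((l : ℕ) : 𝓞 K)
  have e : (((l : ℕ) : 𝓞 K) : K) = (l : K) := map_natCast (algebraMap (𝓞 K) K) l
  rw [e] at h1
  by_contra h2
  exact hP (hS.mem P (lt_of_le_of_ne h1 (Ne.symm h2)))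

theorem hp_unit {P : HeightOneSpectrum (𝓞 K)} (hl : ord P (l : K) = 0) {a b : Kˣ}
    (ha : ord P (a : K) = 0) (hb : ord P (b : K) = 0) : G.hs P a b = 0 := by
  rw [G.unit P a b hl ha, hb]
  simp

theorem hp_US {S : Finset (HeightOneSpectrum (𝓞 K))} {a : Kˣ}
    (h : ∀ Q : HeightOneSpectrum (𝓞 K), Q ∉ S → ord Q (a : K) = 0) : a ∈ US S :=
  Subgroup.subset_closure ⟨a.ne_zero, h⟩

theorem hp_adm {S S' : Finset (HeightOneSpectrum (𝓞 K))} (hS : AdmL l S) (h : S ⊆ S') :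
    AdmL l S' where
  mem := fun P hP => h (hS.mem P hP)
  prS := fun P hP => by
    obtain ⟨a, h1, h2, h3⟩ := hS.prS P fun h4 => hP (h h4)
    exact ⟨a, h1, h2, fun Q hQ hne => h3 Q (fun h4 => hQ (h h4)) hne⟩

/-! ### changing one term -/

/-- prime elements with given classes -/
def HpG2 (l : ℕ) (K : Type) [Field K] [NumberField K] : Prop :=
  ∀ S : Finset (HeightOneSpectrum (𝓞 K)), AdmL l S → ∀ γ : Kˣ,
    ∃ (Q : HeightOneSpectrum (𝓞 K)) (q : Kˣ), Q ∉ S ∧ ord Q (q : K) = 1 ∧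
    (∀ R : HeightOneSpectrum (𝓞 K), R ∉ S → R ≠ Q → ord R (q : K) = 0) ∧
    ∀ P ∈ S, q / γ ∈ WS l P

theorem hp_term (hM : SMem) (hW : SWk) (g2 : HpG2 l K)
    {S : Finset (HeightOneSpectrum (𝓞 K))} (hS : AdmL l S) {Q : HeightOneSpectrum (𝓞 K)}
    (hQ : Q ∉ S) {a b q : Kˣ}
    (ha : ∀ R : HeightOneSpectrum (𝓞 K), R ∉ S → ord R (a : K) = 0)
    (hb : ∀ R : HeightOneSpectrum (𝓞 K), R ∉ S → ord R (b : K) = 0)
    (hq : ∀ R : HeightOneSpectrum (𝓞 K), R ∉ S → R ≠ Q → ord R (q : K) = 0)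
    (hloc : ∀ P ∈ S, ¬ LocW l P (a : K) → G.hs P a q ≠ 0) :
    ∃ b₁ : Kˣ, ∀ P : HeightOneSpectrum (𝓞 K), G.hs P a b₁ = G.hs P a b ∧
      G.hs P q b₁ = G.hs P a b := by
  classical
  have hex : ∀ P : HeightOneSpectrum (𝓞 K), ∃ x : Kˣ, (P ∈ S → G.hs P a x = G.hs P a b ∧
      G.hs P q x = G.hs P a b) ∧ (P ∉ S → x = 1) := by
    intro P
    by_cases hP : P ∈ S
    · obtain ⟨x, hx⟩ := hp_x G P a q b (hloc P hP)
      exact ⟨x, fun _ => hx, fun h => absurd hP h⟩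
    · exact ⟨1, fun h => absurd h hP, fun _ => rfl⟩
  choose x hx1 hx2 using hex
  have hS' : AdmL l (insert Q S) := hp_adm hS (Finset.subset_insert _ _)
  obtain ⟨γ, hγ⟩ := hW l Fact.out K (insert Q S) x
  obtain ⟨Q₁, b₁, hQ₁, ho, hoth, hcl⟩ := g2 (insert Q S) hS' γ
  have hcls : ∀ P ∈ insert Q S, b₁ / x P ∈ WS l P := by
    intro P hP
    have h1 := (WS l P).mul_mem (hcl P hP) (hγ P hP)
    rwa [div_mul_div_cancel] at h1
  have hsym : ∀ P ∈ insert Q S, ∀ c : Kˣ, G.hs P c b₁ = G.hs P c (x P) := by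
    intro P hP c
    rw [hp_anti G P c b₁, hp_W G hM (hcls P hP) c, ← hp_anti G P c (x P)]
  have hQ₁' : Q₁ ≠ Q ∧ Q₁ ∉ S := by
    rw [Finset.mem_insert, not_or] at hQ₁
    exact hQ₁
  have hin : ∀ P ∈ insert Q S, G.hs P a b₁ = G.hs P a b ∧ G.hs P q b₁ = G.hs P a b := by
    intro P hP
    rw [hsym P hP, hsym P hP]
    by_cases hPS : P ∈ S
    · exact hx1 P hPS
    · have hl := hp_ordl hS hPS
      rw [hx2 P hPS, hp_one_right, hp_one_right, hp_unit G hl (ha P hPS) (hb P hPS)]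
      exact ⟨rfl, rfl⟩
  have hout : ∀ P, P ∉ insert Q S → P ≠ Q₁ →
      G.hs P a b₁ = G.hs P a b ∧ G.hs P q b₁ = G.hs P a b := by
    intro P hP hne
    have hP' : P ≠ Q ∧ P ∉ S := by
      rw [Finset.mem_insert, not_or] at hP
      exact hP
    have hl := hp_ordl hS hP'.2
    have h1 := hoth P hP hne
    rw [hp_unit G hl (ha P hP'.2) h1, hp_unit G hl (ha P hP'.2) (hb P hP'.2),
      hp_unit G hl (hq P hP'.2 hP'.1) h1]
    exact ⟨rfl, rfl⟩
  have hprod : ∀ u v : Kˣ, (∀ R : HeightOneSpectrum (𝓞 K), R ∉ insert Q₁ (insert Q S) →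
      ord R (u : K) = 0) → (∀ R : HeightOneSpectrum (𝓞 K), R ∉ insert Q₁ (insert Q S) →
      ord R (v : K) = 0) → G.hs Q₁ u v = -∑ P ∈ insert Q S, G.hs P u v := by
    intro u v hu hv
    have h1 := G.prd (insert Q₁ (insert Q S))
      (fun P hP => Finset.mem_insert_of_mem (hS'.mem P hP)) u (hp_US hu) v (hp_US hv)
    rw [Finset.sum_insert hQ₁] at h1
    linear_combination h1
  have hU : ∀ u : Kˣ, (∀ R : HeightOneSpectrum (𝓞 K), R ∉ S → ord R (u : K) = 0) →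
      ∀ R : HeightOneSpectrum (𝓞 K), R ∉ insert Q₁ (insert Q S) → ord R (u : K) = 0 := by
    intro u hu R hR
    exact hu R fun h => hR (Finset.mem_insert_of_mem (Finset.mem_insert_of_mem h))
  have hb₁ : ∀ R : HeightOneSpectrum (𝓞 K), R ∉ insert Q₁ (insert Q S) →
      ord R (b₁ : K) = 0 := by
    intro R hR
    rw [Finset.mem_insert, not_or] at hR
    exact hoth R hR.2 hR.1
  have hqU : ∀ R : HeightOneSpectrum (𝓞 K), R ∉ insert Q₁ (insert Q S) →
      ord R (q : K) = 0 := by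
    intro R hR
    rw [Finset.mem_insert, Finset.mem_insert, not_or, not_or] at hR
    exact hq R hR.2.2 hR.2.1
  refine ⟨b₁, fun P => ?_⟩
  by_cases hP : P ∈ insert Q S
  · exact hin P hP
  · by_cases hne : P = Q₁
    · subst hne
      rw [hprod a b₁ (hU a ha) hb₁, hprod a b (hU a ha) (hU b hb), hprod q b₁ hqU hb₁,
        Finset.sum_congr rfl fun P hP => (hin P hP).1,
        Finset.sum_congr rfl fun P hP => (hin P hP).2]
      exact ⟨rfl, rfl⟩
    · exact hout P hP hne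

/-! ### coboundaries -/

/-- coboundaries -/
def HpC (l : ℕ) {K : Type} [Field K] [NumberField K] (c : Gm K → Gm K → ZMod l) : Prop :=
  ∃ f : Gm K → ZMod l, IsLocallyConstant f ∧ ∀ σ τ, f (σ * τ) = f σ + f τ + c σ τ

/-- the cup product -/
noncomputable def hpU (l : ℕ) {K : Type} [Field K] [NumberField K] (z : K) (a b : Kˣ)
    (σ τ : Gm K) : ZMod l := chl l z (a : K) σ * chl l z (b : K) τ

theorem HpC.zero : HpC (K := K) l (fun _ _ => 0) :=
  ⟨fun _ => 0, IsLocallyConstant.const 0, fun _ _ => by ring⟩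

theorem HpC.add {c c' : Gm K → Gm K → ZMod l} (h : HpC l c) (h' : HpC l c') :
    HpC l (fun σ τ => c σ τ + c' σ τ) := by
  obtain ⟨f, hf, h1⟩ := h
  obtain ⟨f', hf', h1'⟩ := h'
  refine ⟨fun σ => f σ + f' σ, hf.add hf', fun σ τ => ?_⟩
  beta_reduce
  rw [h1, h1']
  ring

theorem HpC.congr {c c' : Gm K → Gm K → ZMod l} (h : HpC l c) (h' : ∀ σ τ, c' σ τ = c σ τ) :
    HpC l c' := by
  obtain ⟨f, hf, h1⟩ := h
  exact ⟨f, hf, fun σ τ => by rw [h1, h']⟩

variable (hz : IsPrimitiveRoot z l) (hl2 : l ≠ 2)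
  (hn : ∀ a b : Kˣ, (∀ P, G.hs P a b = 0) → b ∈ NGL l a)

include hz hl2 hn in
theorem hp_cup (hN : SNG) {a b : Kˣ} (h : ∀ P, G.hs P a b = 0) : HpC l (hpU l z a b) := by
  obtain ⟨f, hf, h1⟩ := (hN l Fact.out hl2 K z hz a b).1 (hn a b h)
  exact ⟨f, hf, fun σ τ => h1 σ (Subgroup.mem_top σ) τ (Subgroup.mem_top τ)⟩

include hz in
theorem hp_mulR (hK : SKu) (a b c : Kˣ) (σ τ : Gm K) :
    hpU l z a (b * c) σ τ = hpU l z a b σ τ + hpU l z a c σ τ := by
  unfold hpU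
  rw [(hK l Fact.out K z hz).mul]
  ring

include hz in
theorem hp_mulL (hK : SKu) (a b c : Kˣ) (σ τ : Gm K) :
    hpU l z (a * b) c σ τ = hpU l z a c σ τ + hpU l z b c σ τ := by
  unfold hpU
  rw [(hK l Fact.out K z hz).mul]
  ring

include hz hl2 hn in
/-- the second slot -/
theorem hp_chR (hK : SKu) (hN : SNG) {a b b' : Kˣ} (h : ∀ P, G.hs P a b' = G.hs P a b) :
    HpC l (fun σ τ => hpU l z a b σ τ - hpU l z a b' σ τ) := by
  have h1 : HpC l (hpU l z a (b / b')) := hp_cup G hz hl2 hn hN fun P => by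
    rw [hp_div_right, h P, sub_self]
  refine h1.congr fun σ τ => ?_
  have h2 := hp_mulR hz hK a (b / b') b' σ τ
  rw [div_mul_cancel] at h2
  rw [h2]
  ring

include hz hl2 hn in
/-- the first slot -/
theorem hp_chL (hK : SKu) (hN : SNG) {a a' b : Kˣ} (h : ∀ P, G.hs P a' b = G.hs P a b) :
    HpC l (fun σ τ => hpU l z a b σ τ - hpU l z a' b σ τ) := by
  have h1 : HpC l (hpU l z (a / a') b) := hp_cup G hz hl2 hn hN fun P => by
    rw [hp_div_left, h P, sub_self]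
  refine h1.congr fun σ τ => ?_
  have h2 := hp_mulL hz hK (a / a') a' b σ τ
  rw [div_mul_cancel] at h2
  rw [h2]
  ring

include hz hl2 hn in
/-- two terms -/
theorem hp_two (hK : SKu) (hN : SNG) (hM : SMem) (hW : SWk) (h1 : SC1) (g2 : HpG2 l K)
    (a b c d : Kˣ) : ∃ q e : Kˣ,
      HpC l (fun σ τ => hpU l z a b σ τ + hpU l z c d σ τ - hpU l z q e σ τ) ∧
      ∀ P, G.hs P a b + G.hs P c d = G.hs P q e := by
  classical
  have hfin : ∀ x : Kˣ, {P : HeightOneSpectrum (𝓞 K) | ord P (x : K) ≠ 0}.Finite :=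
    fun x => Pool.Agent.H98.MF.ord_finite x.ne_zero
  obtain ⟨S, hTS, hS⟩ := h1 l Fact.out K ((hfin a).toFinset ∪ (hfin b).toFinset ∪
    (hfin c).toFinset ∪ (hfin d).toFinset)
  have hun : ∀ x : Kˣ, (hfin x).toFinset ⊆ S →
      ∀ R : HeightOneSpectrum (𝓞 K), R ∉ S → ord R (x : K) = 0 := by
    intro x hx R hR
    by_contra h
    exact hR (hx ((hfin x).mem_toFinset.2 h))
  have ha := hun a (fun P hP => hTS (by simp only [Finset.mem_union]; tauto))
  have hb := hun b (fun P hP => hTS (by simp only [Finset.mem_union]; tauto))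
  have hc := hun c (fun P hP => hTS (by simp only [Finset.mem_union]; tauto))
  have hd := hun d (fun P hP => hTS (by simp only [Finset.mem_union]; tauto))
  choose g hg1 hg2 using fun P : HeightOneSpectrum (𝓞 K) => hp_gam G P a c
  obtain ⟨γ, hγ⟩ := hW l Fact.out K S g
  obtain ⟨Q, q, hQ, -, hoth, hcl⟩ := g2 S hS γ
  have hsym : ∀ P ∈ S, ∀ x : Kˣ, G.hs P x q = G.hs P x (g P) := by
    intro P hP x
    have h3 : q / g P ∈ WS l P := by
      have h4 := (WS l P).mul_mem (hcl P hP) (hγ P hP)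
      rwa [div_mul_div_cancel] at h4
    rw [hp_anti G P x q, hp_W G hM h3 x, ← hp_anti G P x (g P)]
  obtain ⟨b₁, hb₁⟩ := hp_term G hM hW g2 hS hQ ha hb hoth (fun P hP hnl => by
    rw [hsym P hP]
    exact hg1 P hnl)
  obtain ⟨d₁, hd₁⟩ := hp_term G hM hW g2 hS hQ hc hd hoth (fun P hP hnl => by
    rw [hsym P hP]
    exact hg2 P hnl)
  refine ⟨q, b₁ * d₁, ?_, fun P => ?_⟩
  · have e1 := hp_chR G hz hl2 hn hK hN (a := a) (b := b) (b' := b₁) fun P => (hb₁ P).1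
    have e2 := hp_chL G hz hl2 hn hK hN (a := a) (a' := q) (b := b₁) fun P =>
      (hb₁ P).2.trans (hb₁ P).1.symm
    have e3 := hp_chR G hz hl2 hn hK hN (a := c) (b := d) (b' := d₁) fun P => (hd₁ P).1
    have e4 := hp_chL G hz hl2 hn hK hN (a := c) (a' := q) (b := d₁) fun P =>
      (hd₁ P).2.trans (hd₁ P).1.symm
    refine (((e1.add e2).add e3).add e4).congr fun σ τ => ?_
    rw [hp_mulR hz hK]
    ring
  · rw [G.mulR, (hb₁ P).2, (hd₁ P).2]

include hz hl2 hn in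
/-- all sums are equivalent to one term -/
theorem hp_all (hK : SKu) (hN : SNG) (hM : SMem) (hW : SWk) (h1 : SC1) (g2 : HpG2 l K)
    (r : ℕ) (a b : Fin r → Kˣ) : ∃ q e : Kˣ,
      HpC l (fun σ τ => ∑ i, hpU l z (a i) (b i) σ τ - hpU l z q e σ τ) ∧
      ∀ P, ∑ i, G.hs P (a i) (b i) = G.hs P q e := by
  induction r with
  | zero =>
    refine ⟨1, 1, ?_, fun P => ?_⟩
    · refine HpC.zero.congr fun σ τ => ?_
      have h2 := hp_mulR hz hK 1 1 1 σ τ
      rw [mul_one] at h2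
      rw [Fin.sum_univ_zero]
      linear_combination h2
    · rw [Fin.sum_univ_zero, hp_one_right]
  | succ r ih =>
    obtain ⟨q, e, h2, h3⟩ := ih (fun i => a i.castSucc) (fun i => b i.castSucc)
    obtain ⟨q', e', h4, h5⟩ := hp_two G hz hl2 hn hK hN hM hW h1 g2 q e (a (Fin.last r))
      (b (Fin.last r))
    refine ⟨q', e', ?_, fun P => ?_⟩
    · refine (h2.add h4).congr fun σ τ => ?_
      rw [Fin.sum_univ_castSucc]
      ring
    · rw [Fin.sum_univ_castSucc, h3, h5]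

include hz hl2 hn in
/-- the Hasse principle for sums of symbols -/
theorem hp_of (g2 : ∀ S : Finset (HeightOneSpectrum (𝓞 K)), AdmL l S → ∀ γ : Kˣ,
      ∃ (Q : HeightOneSpectrum (𝓞 K)) (q : Kˣ), Q ∉ S ∧ ord Q (q : K) = 1 ∧
      (∀ R : HeightOneSpectrum (𝓞 K), R ∉ S → R ≠ Q → ord R (q : K) = 0) ∧
      ∀ P ∈ S, q / γ ∈ WS l P)
    (hK : SKu) (hN : SNG) (hM : SMem) (hW : SWk) (h1 : SC1) :
    ∀ (r : ℕ) (a b : Fin r → Kˣ),
      (∀ P : HeightOneSpectrum (𝓞 K), TrL l z (Dec P) (fun i => (a i : K))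
        (fun i => (b i : K))) →
      TrL l z (⊤ : Subgroup (Gm K)) (fun i => (a i : K)) (fun i => (b i : K)) := by
  intro r a b h
  obtain ⟨q, e, h2, h3⟩ := hp_all G hz hl2 hn hK hN hM hW h1 g2 r a b
  have h4 : ∀ P, G.hs P q e = 0 := fun P => by
    rw [← h3 P]
    exact (G.triv P a b).1 (h P)
  obtain ⟨f, hf, h5⟩ := h2.add (hp_cup G hz hl2 hn hN h4)
  refine ⟨f, hf, fun σ _ τ _ => ?_⟩
  rw [h5 σ τ]
  unfold hpU
  ring

end

end Pool.Agent.H92.EL
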