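import Pool.Agent.H92.EL.Mem
import Pool.Agent.H98.MF.L.Cnt

/-!
# Project ELL (MP_a3214d), block A: the number of local `l`-th power classes
-/

set_option autoImplicit false

open scoped BigOperators Pointwise
open NumberField IsDedekindDomain

namespace Pool.Agent.H92.EL

open Pool.Agent.H98.MF (ord nrm le_ord_add le_ord_iff ord_int_nonneg ord_mul ord_pow ord_one
  ord_inv ord_zero ord_neg ord_unit ord_apx exists_unif sqr_prod sqr_mono sqr_iff sqr_unit
  cnt_coe_ne CB crep crep_spec crep_notMem cnt_unit_iff cnt_card_J)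

section

variable {K : Type} [Field K] [NumberField K]

private theorem idx_nat (P : HeightOneSpectrum (𝓞 K)) (m : ℕ) :
    (m : K) = 0 ∨ (0 : ℤ) ≤ ord P (m : K) := by
  right
  have e0 : ((m : 𝓞 K) : K) = m := map_natCast (algebraMap (𝓞 K) K) m
  rw [← e0]
  exact ord_int_nonneg P _

/-- powers of `1 + x` -/
private theorem idx_exp (P : HeightOneSpectrum (𝓞 K)) {x : K} (hx : x = 0 ∨ (0 : ℤ) ≤ ord P x)
    (m : ℕ) : ∃ w : K, (w = 0 ∨ (0 : ℤ) ≤ ord P w) ∧ (1 + x) ^ m = 1 + m * x + x ^ 2 * w := by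
  induction m with
  | zero => exact ⟨0, Or.inl rfl, by simp⟩
  | succ m ih =>
    obtain ⟨w, hw, h⟩ := ih
    refine ⟨w + m + x * w, ?_, ?_⟩
    · have h1 := sqr_prod P hx hw
      rw [add_zero] at h1
      exact le_ord_add P 0 (le_ord_add P 0 hw (idx_nat P m)) h1
    · rw [pow_succ, h]
      push_cast
      ring

/-- differences of powers -/
private theorem idx_sub (P : HeightOneSpectrum (𝓞 K)) {x y : K} {n : ℤ}
    (hx : x = 0 ∨ (0 : ℤ) ≤ ord P x) (hy : y = 0 ∨ (0 : ℤ) ≤ ord P y)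
    (h : x - y = 0 ∨ n ≤ ord P (x - y)) (m : ℕ) :
    (x ^ m = 0 ∨ (0 : ℤ) ≤ ord P (x ^ m)) ∧ (x ^ m - y ^ m = 0 ∨ n ≤ ord P (x ^ m - y ^ m)) := by
  induction m with
  | zero =>
    refine ⟨Or.inr ?_, Or.inl (by simp)⟩
    rw [pow_zero, ord_one]
  | succ m ih =>
    have h0 := sqr_prod P ih.1 hx
    rw [add_zero, ← pow_succ] at h0
    refine ⟨h0, ?_⟩
    have h1 := sqr_prod P ih.1 h
    have h2 := sqr_prod P ih.2 hy
    rw [zero_add] at h1
    rw [add_zero] at h2
    have h3 := le_ord_add P n h1 h2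
    have h4 : x ^ m * (x - y) + (x ^ m - y ^ m) * y = x ^ (m + 1) - y ^ (m + 1) := by ring
    rwa [h4] at h3

private theorem idx_pow {l : ℕ} (P : HeightOneSpectrum (𝓞 K)) {c : K} (hc : c ≠ 0) :
    LocW l P (c ^ l) := by
  intro n
  refine ⟨c⁻¹, Or.inl ?_⟩
  rw [inv_pow]
  exact mul_inv_cancel₀ (pow_ne_zero _ hc)

private theorem idx_ne {l : ℕ} {P : HeightOneSpectrum (𝓞 K)} {a : K}
    (h : LocW l P a) : a ≠ 0 := by
  intro ha
  obtain ⟨c, hc⟩ := h 1
  have h1 := (sqr_unit P (by norm_num) hc).1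
  exact h1 (by rw [ha, zero_mul])

private theorem idx_dvd {l : ℕ} (hl : l ≠ 0) {P : HeightOneSpectrum (𝓞 K)} {a : K}
    (h : LocW l P a) : (l : ℤ) ∣ ord P a := by
  obtain ⟨c, hc⟩ := h 1
  obtain ⟨h1, h2⟩ := sqr_unit P (by norm_num) hc
  have h3 : c ≠ 0 := by
    intro h4
    exact h1 (by rw [h4, zero_pow hl, mul_zero])
  rw [ord_mul P (idx_ne h) (pow_ne_zero _ h3), ord_pow] at h2
  exact ⟨- ord P c, by linarith⟩

/-- elements close to one are local powers -/
private theorem idx_one_add {l e : ℕ} (hl : l ≠ 0) (P : HeightOneSpectrum (𝓞 K))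
    (he : ord P (l : K) = e) {t : K} (ht : t = 0 ∨ ((2 * e + 1 : ℕ) : ℤ) ≤ ord P t) :
    LocW l P (1 + t) := by
  have hl0 : (l : K) ≠ 0 := Nat.cast_ne_zero.2 hl
  have key : ∀ j : ℕ, ∃ c : K, (1 + t) * c ^ l - 1 = 0 ∨
      ((2 * e + 1 : ℕ) : ℤ) + (j : ℤ) ≤ ord P ((1 + t) * c ^ l - 1) := by
    intro j
    induction j with
    | zero =>
      refine ⟨1, ?_⟩
      rw [one_pow, mul_one, add_sub_cancel_left]
      exact sqr_mono P (by push_cast; omega) ht
    | succ j ih =>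
      obtain ⟨d, hd⟩ := ih
      set s : K := (1 + t) * d ^ l - 1 with hs
      have hi : (l : K)⁻¹ = 0 ∨ -(e : ℤ) ≤ ord P ((l : K)⁻¹) := by
        right
        rw [ord_inv, he]
      have hq := sqr_prod P hd hi
      have hq0 : -(s * (l : K)⁻¹) = 0 ∨ ((e : ℤ) + 1 + j) ≤ ord P (-(s * (l : K)⁻¹)) := by
        rw [ord_neg, neg_eq_zero]
        exact sqr_mono P (by push_cast; omega) hq
      obtain ⟨w, hw, h1⟩ := idx_exp P (sqr_mono P (m := 0) (by omega) hq0) l
      refine ⟨d * (1 + -(s * (l : K)⁻¹)), ?_⟩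
      have e1 : (1 + t) * (d * (1 + -(s * (l : K)⁻¹))) ^ l - 1 =
          -(s * s) + (1 + s) * ((-(s * (l : K)⁻¹)) ^ 2 * w) := by
        have e2 : (1 + t) * (d * (1 + -(s * (l : K)⁻¹))) ^ l =
            (1 + s) * (1 + -(s * (l : K)⁻¹)) ^ l := by
          rw [hs, mul_pow]
          ring
        have e3 : (l : K) * -(s * (l : K)⁻¹) = -s := by
          field_simp
        rw [e2, h1, e3]
        ring
      rw [e1]
      have h2 := sqr_prod P hd hd
      have h3 : -(s * s) = 0 ∨ ((2 * e + 1 : ℕ) : ℤ) + ((j + 1 : ℕ) : ℤ) ≤ ord P (-(s * s)) := by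
        rw [ord_neg, neg_eq_zero]
        exact sqr_mono P (by push_cast; omega) h2
      have h4 : (1 + s) = 0 ∨ (0 : ℤ) ≤ ord P (1 + s) :=
        le_ord_add P 0 (Or.inr (by rw [ord_one])) (sqr_mono P (by omega) hd)
      have h5 := sqr_prod P h4 (sqr_prod P (sqr_prod P hq0 hq0) hw)
      rw [← pow_two] at h5
      exact le_ord_add P _ h3 (sqr_mono P (by push_cast; omega) h5)
  intro n
  obtain ⟨d, hd⟩ := key n
  refine ⟨d, ?_⟩
  rw [sqr_iff]
  exact sqr_mono P (by omega) hd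

private theorem idx_le {l e : ℕ} (hl : l ≠ 0) (P : HeightOneSpectrum (𝓞 K))
    (he : ord P (l : K) = e) (n : ℕ) : (l : 𝓞 K) ∈ P.asIdeal ^ n ↔ n ≤ e := by
  rw [← le_ord_iff]
  have e0 : ((l : 𝓞 K) : K) = l := map_natCast (algebraMap (𝓞 K) K) l
  rw [e0, he]
  have h2 : (l : 𝓞 K) ≠ 0 := Nat.cast_ne_zero.2 hl
  simp only [h2, false_or]
  exact_mod_cast Iff.rfl

/-- the exponent of a product -/
private theorem idx_prod (P : HeightOneSpectrum (𝓞 K)) (s : Finset (𝓞 K)) (f : 𝓞 K → 𝓞 K)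
    (hf : ∀ i ∈ s, f i ≠ 0) : ord P ((∏ i ∈ s, f i : 𝓞 K) : K) = ∑ i ∈ s, ord P (f i : K) := by
  classical
  induction s using Finset.induction_on with
  | empty =>
    rw [Finset.prod_empty, Finset.sum_empty]
    have : ((1 : 𝓞 K) : K) = 1 := map_one (algebraMap (𝓞 K) K)
    rw [this, ord_one]
  | insert a s ha ih =>
    rw [Finset.prod_insert ha, Finset.sum_insert ha,
      ← ih fun i hi => hf i (Finset.mem_insert_of_mem hi)]
    have h1 : ((f a * ∏ i ∈ s, f i : 𝓞 K) : K) = (f a : K) * ((∏ i ∈ s, f i : 𝓞 K) : K) :=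
      map_mul (algebraMap (𝓞 K) K) _ _
    rw [h1, ord_mul]
    · intro h0
      exact hf a (Finset.mem_insert_self _ _) (by exact_mod_cast h0)
    · intro h0
      have h2 : (∏ i ∈ s, f i : 𝓞 K) = 0 := by exact_mod_cast h0
      obtain ⟨i, hi, hi0⟩ := Finset.prod_eq_zero_iff.1 h2
      exact hf i (Finset.mem_insert_of_mem hi) hi0

open Polynomial in
/-- the different of the roots of unity -/
private theorem idx_diff {l : ℕ} (hl : 0 < l) {z : 𝓞 K} (hz : IsPrimitiveRoot z l)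
    {ζ : 𝓞 K} (hζ : ζ ∈ nthRootsFinset l (1 : 𝓞 K)) [DecidableEq (𝓞 K)] :
    ∏ ξ ∈ (nthRootsFinset l (1 : 𝓞 K)).erase ζ, (ζ - ξ) = l * ζ ^ (l - 1) := by
  have h1 := X_pow_sub_one_eq_prod hl hz
  rw [← Finset.mul_prod_erase _ _ hζ] at h1
  have h2 := congrArg (fun p : (𝓞 K)[X] => eval ζ (derivative p)) h1
  simp only [derivative_sub, derivative_X_pow, derivative_one, sub_zero, derivative_mul,
    derivative_X, derivative_C, eval_add, eval_mul, eval_sub, eval_X, eval_C, sub_self, zero_mul,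
    add_zero, eval_prod, one_mul, eval_pow] at h2
  rw [← h2]

/-- an element with `r ^ l` close to one is close to a root of unity -/
private theorem idx_dich {l e : ℕ} (hl : 0 < l) {z : 𝓞 K} (hz : IsPrimitiveRoot z l)
    (P : HeightOneSpectrum (𝓞 K)) (he : ord P (l : K) = e) {r : 𝓞 K}
    (h : r ^ l - 1 ∈ P.asIdeal ^ (2 * e + 1)) :
    ∃ ζ ∈ Polynomial.nthRootsFinset l (1 : 𝓞 K), r - ζ ∈ P.asIdeal ^ (e + 1) := by
  classical
  set T := Polynomial.nthRootsFinset l (1 : 𝓞 K) with hT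
  by_cases hr : r ^ l = 1
  · refine ⟨r, (Polynomial.mem_nthRootsFinset hl 1).2 hr, ?_⟩
    rw [sub_self]
    exact zero_mem _
  have hne : ∀ ξ ∈ T, r - ξ ≠ 0 := by
    intro ξ hξ h0
    rw [sub_eq_zero] at h0
    exact hr (by rw [h0]; exact (Polynomial.mem_nthRootsFinset hl 1).1 hξ)
  have hTn : T.Nonempty := ⟨1, (Polynomial.mem_nthRootsFinset hl 1).2 (one_pow l)⟩
  obtain ⟨ζ, hζ, hmax⟩ := T.exists_max_image (fun ξ => ord P ((r - ξ : 𝓞 K) : K)) hTn
  refine ⟨ζ, hζ, ?_⟩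
  have hprod : r ^ l - 1 = ∏ ξ ∈ T, (r - ξ) := by
    have h1 := hz.pow_sub_pow_eq_prod_sub_mul r 1 hl
    rw [one_pow] at h1
    rw [h1]
    refine Finset.prod_congr rfl fun ξ _ => ?_
    rw [mul_one]
  have h1 : ((2 * e + 1 : ℕ) : ℤ) ≤ ord P ((r ^ l - 1 : 𝓞 K) : K) :=
    ((le_ord_iff P _ _).2 h).resolve_left (sub_ne_zero.2 hr)
  rw [hprod, idx_prod P T _ hne, ← Finset.add_sum_erase T _ hζ] at h1
  have hζ1 : ζ ^ l = 1 := (Polynomial.mem_nthRootsFinset hl 1).1 hζ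
  have h2 : ∑ ξ ∈ T.erase ζ, ord P ((r - ξ : 𝓞 K) : K) ≤
      ∑ ξ ∈ T.erase ζ, ord P ((ζ - ξ : 𝓞 K) : K) := by
    refine Finset.sum_le_sum fun ξ hξ => ?_
    rw [Finset.mem_erase] at hξ
    have h3 : ((r - ξ : 𝓞 K) : K) + -((r - ζ : 𝓞 K) : K) = ((ζ - ξ : 𝓞 K) : K) := by
      push_cast
      ring
    have h4 := le_ord_add P (ord P ((r - ξ : 𝓞 K) : K)) (a := ((r - ξ : 𝓞 K) : K))
      (b := -((r - ζ : 𝓞 K) : K)) (Or.inr le_rfl) (Or.inr (by
        rw [ord_neg]
        exact hmax ξ hξ.2))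
    rw [h3] at h4
    refine h4.resolve_left fun h0 => hξ.1 ?_
    have h5 : ζ - ξ = 0 := by exact_mod_cast h0
    exact (sub_eq_zero.1 h5).symm
  have h3 : ∑ ξ ∈ T.erase ζ, ord P ((ζ - ξ : 𝓞 K) : K) = e := by
    rw [← idx_prod P (T.erase ζ) (fun ξ => ζ - ξ), idx_diff hl hz hζ]
    · have e0 : ((l * ζ ^ (l - 1) : 𝓞 K) : K) = (l : K) * (ζ : K) ^ (l - 1) := by
        push_cast
        rfl
      have e1 : (ζ : K) ≠ 0 := by
        intro h0
        have h5 : ζ = 0 := by exact_mod_cast h0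
        rw [h5, zero_pow hl.ne'] at hζ1
        exact zero_ne_one hζ1
      have e2 : ord P (ζ : K) = 0 := by
        have h5 := ord_pow P (ζ : K) l
        have h6 : (ζ : K) ^ l = 1 := by
          have := congrArg (fun x : 𝓞 K => (x : K)) hζ1
          simpa using this
        rw [h6, ord_one] at h5
        have h7 : (l : ℤ) ≠ 0 := by exact_mod_cast hl.ne'
        rcases mul_eq_zero.1 h5.symm with h8 | h8
        · exact absurd h8 h7
        · exact h8
      rw [e0, ord_mul P (Nat.cast_ne_zero.2 hl.ne') (pow_ne_zero _ e1), ord_pow, e2, he]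
      ring
    · intro ξ hξ h0
      exact (Finset.mem_erase.1 hξ).1 (sub_eq_zero.1 h0).symm
  rw [← le_ord_iff]
  right
  push_cast at h1 ⊢
  push_cast at h2 h3
  linarith

/-- distinct roots of unity are not too close -/
private theorem idx_sep {l e : ℕ} (hl : 0 < l) {z : 𝓞 K} (hz : IsPrimitiveRoot z l)
    (P : HeightOneSpectrum (𝓞 K)) (he : ord P (l : K) = e) {ζ ξ : 𝓞 K}
    (hζ : ζ ∈ Polynomial.nthRootsFinset l (1 : 𝓞 K))
    (hξ : ξ ∈ Polynomial.nthRootsFinset l (1 : 𝓞 K)) (h : ζ - ξ ∈ P.asIdeal ^ (e + 1)) :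
    ζ = ξ := by
  classical
  by_contra hne
  have h1 : (l : 𝓞 K) ∈ P.asIdeal ^ (e + 1) := by
    have h2 := idx_diff hl hz hζ
    have h3 : (l : 𝓞 K) * ζ ^ (l - 1) ∈ P.asIdeal ^ (e + 1) := by
      rw [← h2, ← Finset.mul_prod_erase _ _ (Finset.mem_erase.2 ⟨fun h0 => hne h0.symm, hξ⟩)]
      exact Ideal.mul_mem_right _ _ h
    have h4 : (l : 𝓞 K) * ζ ^ (l - 1) * ζ = l := by
      rw [mul_assoc, ← pow_succ, Nat.sub_add_cancel hl, (Polynomial.mem_nthRootsFinset hl 1).1 hζ,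
        mul_one]
    rw [← h4]
    exact Ideal.mul_mem_right _ _ h3
  rw [idx_le hl.ne' P he] at h1
  omega

/-- the number of `l`-th roots of one modulo a power of `P` -/
private theorem idx_root_card {l e : ℕ} (hl : 0 < l) {z : 𝓞 K} (hz : IsPrimitiveRoot z l)
    (P : HeightOneSpectrum (𝓞 K)) (he : ord P (l : K) = e) :
    Nat.card {b : (𝓞 K) ⧸ P.asIdeal ^ (2 * e + 1) // b ^ l = 1} =
      l * Ideal.absNorm P.asIdeal ^ e := by
  have hle : P.asIdeal ^ (2 * e + 1) ≤ P.asIdeal ^ (e + 1) := Ideal.pow_le_pow_right (by omega)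
  rw [← cnt_card_J P e hle]
  have hlm : (l : 𝓞 K) ∈ P.asIdeal ^ e := (idx_le hl.ne' P he e).2 le_rfl
  have hdich := fun r => idx_dich hl hz P he (r := r)
  have hsep := fun ζ ξ => idx_sep hl hz P he (ζ := ζ) (ξ := ξ)
  generalize P.asIdeal = I at hle hlm hdich hsep ⊢
  set f := Ideal.Quotient.factor hle with hf
  set T := Polynomial.nthRootsFinset l (1 : 𝓞 K) with hT
  have hTm : ∀ ζ ∈ T, ζ ^ l = 1 := fun ζ hζ => (Polynomial.mem_nthRootsFinset hl 1).1 hζ
  have hmk : ∀ r : 𝓞 K, Ideal.Quotient.mk (I ^ (2 * e + 1)) r ∈ RingHom.ker f ↔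
      r ∈ I ^ (e + 1) := by
    intro r
    rw [RingHom.mem_ker, hf, Ideal.Quotient.factor_mk, Ideal.Quotient.eq_zero_iff_mem]
  have hsq : ∀ (s : 𝓞 K) (j : RingHom.ker f), s ^ l = 1 →
      (Ideal.Quotient.mk (I ^ (2 * e + 1)) s + (j : (𝓞 K) ⧸ I ^ (2 * e + 1))) ^ l = 1 := by
    rintro s ⟨j, hj⟩ hs
    obtain ⟨r, rfl⟩ := Ideal.Quotient.mk_surjective j
    rw [hmk] at hj
    have h1 : (s + r) ^ l - 1 ∈ I ^ (2 * e + 1) := by
      obtain ⟨w, hw⟩ := Polynomial.powAddExpansion s r l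
      rw [hw, hs]
      have h3 : 1 + (l : 𝓞 K) * s ^ (l - 1) * r + w * r ^ 2 - 1 =
          (l * r) * s ^ (l - 1) + w * (r * r) := by ring
      rw [h3]
      refine Ideal.add_mem _ (Ideal.mul_mem_right _ _ ?_) (Ideal.mul_mem_left _ _ ?_)
      · have h4 := Ideal.mul_mem_mul hlm hj
        rw [← pow_add] at h4
        have h5 : e + (e + 1) = 2 * e + 1 := by omega
        rwa [h5] at h4
      · have h4 := Ideal.mul_mem_mul hj hj
        rw [← pow_add] at h4
        exact Ideal.pow_le_pow_right (by omega) h4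
    have h2 := (Ideal.Quotient.eq (I := I ^ (2 * e + 1)) (x := (s + r) ^ l) (y := 1)).2 h1
    rw [map_pow, map_add, map_one] at h2
    exact h2
  have hcard : Nat.card (T × RingHom.ker f) =
      Nat.card {b : (𝓞 K) ⧸ I ^ (2 * e + 1) // b ^ l = 1} := by
    refine Nat.card_congr (Equiv.ofBijective (fun p =>
      ⟨Ideal.Quotient.mk (I ^ (2 * e + 1)) (p.1 : 𝓞 K) + (p.2 : (𝓞 K) ⧸ I ^ (2 * e + 1)),
        hsq p.1 p.2 (hTm p.1 p.1.2)⟩) ⟨?_, ?_⟩)
    · rintro ⟨⟨b, hb⟩, j⟩ ⟨⟨b', hb'⟩, j'⟩ h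
      have h1 : Ideal.Quotient.mk (I ^ (2 * e + 1)) b + (j : (𝓞 K) ⧸ I ^ (2 * e + 1)) =
          Ideal.Quotient.mk (I ^ (2 * e + 1)) b' + (j' : (𝓞 K) ⧸ I ^ (2 * e + 1)) :=
        congrArg Subtype.val h
      have h2 : Ideal.Quotient.mk (I ^ (2 * e + 1)) (b - b') ∈ RingHom.ker f := by
        rw [map_sub]
        have h3 : Ideal.Quotient.mk (I ^ (2 * e + 1)) b -
            Ideal.Quotient.mk (I ^ (2 * e + 1)) b' =
            (j' : (𝓞 K) ⧸ I ^ (2 * e + 1)) - (j : (𝓞 K) ⧸ I ^ (2 * e + 1)) := by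
          linear_combination h1
        rw [h3]
        exact Ideal.sub_mem _ j'.2 j.2
      rw [hmk] at h2
      have hbb : b = b' := hsep b b' hb hb' h2
      subst hbb
      have h3 : j = j' := Subtype.ext (add_left_cancel h1)
      rw [h3]
    · rintro ⟨b, hb⟩
      obtain ⟨r, rfl⟩ := Ideal.Quotient.mk_surjective b
      have h1 : r ^ l - 1 ∈ I ^ (2 * e + 1) := by
        rw [← Ideal.Quotient.eq, map_pow, map_one]
        exact hb
      obtain ⟨ζ, hζ, h2⟩ := hdich _ h1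
      refine ⟨(⟨ζ, hζ⟩, ⟨Ideal.Quotient.mk _ (r - ζ), (hmk _).2 h2⟩), ?_⟩
      apply Subtype.ext
      show Ideal.Quotient.mk (I ^ (2 * e + 1)) ζ + Ideal.Quotient.mk _ (r - ζ) = _
      rw [← map_add]
      congr 1
      ring
  rw [← hcard, Nat.card_prod]
  congr 1
  rw [Nat.card_eq_fintype_card, Fintype.card_coe, hT, hz.card_nthRootsFinset]

private theorem idx_ker {l e : ℕ} (hl : 0 < l) {z : 𝓞 K} (hz : IsPrimitiveRoot z l)
    (P : HeightOneSpectrum (𝓞 K)) (he : ord P (l : K) = e) :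
    Nat.card (powMonoidHom l : (CB P e)ˣ →* (CB P e)ˣ).ker = l * Ideal.absNorm P.asIdeal ^ e := by
  rw [← idx_root_card hl hz P he]
  have hs : ∀ b : CB P e, b ^ l = 1 → b * b ^ (l - 1) = 1 ∧ b ^ (l - 1) * b = 1 := by
    intro b hb
    constructor
    · rw [← pow_succ', Nat.sub_add_cancel hl, hb]
    · rw [← pow_succ, Nat.sub_add_cancel hl, hb]
  refine Nat.card_congr ⟨fun x => ⟨((x : (CB P e)ˣ) : CB P e), ?_⟩,
    fun b => ⟨⟨b.1, b.1 ^ (l - 1), (hs b.1 b.2).1, (hs b.1 b.2).2⟩, ?_⟩, ?_, ?_⟩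
  · have h := x.2
    rw [MonoidHom.mem_ker, powMonoidHom_apply] at h
    have h1 := congrArg (fun u : (CB P e)ˣ => (u : CB P e)) h
    simpa using h1
  · rw [MonoidHom.mem_ker, powMonoidHom_apply]
    apply Units.ext
    rw [Units.val_pow_eq_pow_val, Units.val_one]
    exact b.2
  · intro x
    apply Subtype.ext
    apply Units.ext
    rfl
  · intro b
    rfl

/-- the element is close to one -/
private theorem idx_wd {l e : ℕ} (hl : l ≠ 0) (P : HeightOneSpectrum (𝓞 K))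
    (he : ord P (l : K) = e) {x y : K}
    (hx : x ≠ 0) (hx0 : ord P x = 0) (h : x - y = 0 ∨ ((2 * e + 1 : ℕ) : ℤ) ≤ ord P (x - y)) :
    LocW l P (x⁻¹ * y) := by
  have h1 : x⁻¹ * y = 1 + -(x - y) * x⁻¹ := by
    field_simp
    ring
  rw [h1]
  refine idx_one_add hl P he ?_
  have h2 : -(x - y) = 0 ∨ ((2 * e + 1 : ℕ) : ℤ) ≤ ord P (-(x - y)) := by
    rw [ord_neg, neg_eq_zero]
    exact h
  have h3 : x⁻¹ = 0 ∨ (0 : ℤ) ≤ ord P x⁻¹ := by
    right
    rw [ord_inv, hx0, neg_zero]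
  have h4 := sqr_prod P h2 h3
  rwa [add_zero] at h4

/-- the class modulo local powers of an integer prime to `P` -/
private noncomputable def icl (l : ℕ) (P : HeightOneSpectrum (𝓞 K)) {r : 𝓞 K}
    (hr : r ∉ P.asIdeal) : Kˣ ⧸ (WS l P : Subgroup Kˣ) :=
  QuotientGroup.mk (Units.mk0 (r : K) (cnt_coe_ne P hr))

private theorem icl_eq {l e : ℕ} (hl : l.Prime) (P : HeightOneSpectrum (𝓞 K))
    (he : ord P (l : K) = e) {r s : 𝓞 K} (hr : r ∉ P.asIdeal) (hs : s ∉ P.asIdeal)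
    (h : Ideal.Quotient.mk (P.asIdeal ^ (2 * e + 1)) r =
      Ideal.Quotient.mk (P.asIdeal ^ (2 * e + 1)) s) : icl l P hr = icl l P hs := by
  unfold icl
  rw [QuotientGroup.eq, smem l hl K P]
  have h1 : (((Units.mk0 (r : K) (cnt_coe_ne P hr))⁻¹ * Units.mk0 (s : K) (cnt_coe_ne P hs) : Kˣ) : K) =
      (r : K)⁻¹ * (s : K) := by
    rw [Units.val_mul, Units.val_inv_eq_inv_val, Units.val_mk0, Units.val_mk0]
  rw [h1]
  refine idx_wd hl.ne_zero P he (cnt_coe_ne P hr) (ord_unit P hr) ?_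
  have h2 := (le_ord_iff P (r - s) (2 * e + 1)).2 ((Ideal.Quotient.eq).1 h)
  have h3 : ((r - s : 𝓞 K) : K) = (r : K) - (s : K) := map_sub (algebraMap (𝓞 K) K) r s
  rcases h2 with h2 | h2
  · left
    rw [← h3, h2]
    exact map_zero (algebraMap (𝓞 K) K)
  · right
    rwa [h3] at h2

private theorem idx_pow_one {l : ℕ} (hl : l.Prime) (P : HeightOneSpectrum (𝓞 K))
    (g : Kˣ ⧸ (WS l P : Subgroup Kˣ)) : g ^ l = 1 := by
  obtain ⟨a, rfl⟩ := QuotientGroup.mk_surjective g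
  rw [← QuotientGroup.mk_pow, QuotientGroup.eq_one_iff, smem l hl K P, Units.val_pow_eq_pow_val]
  exact idx_pow P a.ne_zero

/-- the map from the units modulo a power of `P` -/
private noncomputable def ipsi {l e : ℕ} (hl : l.Prime) (P : HeightOneSpectrum (𝓞 K))
    (he : ord P (l : K) = e) : (CB P e)ˣ →* Kˣ ⧸ (WS l P : Subgroup Kˣ) where
  toFun x := icl l P (crep_notMem P e x)
  map_one' := by
    have h1 : (1 : 𝓞 K) ∉ P.asIdeal := (Ideal.ne_top_iff_one _).1 P.isPrime.ne_top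
    have h2 : icl l P (crep_notMem P e 1) = icl l P h1 := by
      refine icl_eq hl P he _ _ ?_
      rw [crep_spec, Units.val_one, map_one]
    rw [h2]
    unfold icl
    rw [QuotientGroup.eq_one_iff, smem l hl K P, Units.val_mk0]
    have h3 : ((1 : 𝓞 K) : K) = 1 ^ l := by simp
    rw [h3]
    exact idx_pow P one_ne_zero
  map_mul' := by
    intro x y
    have h1 : crep P e x * crep P e y ∉ P.asIdeal := by
      intro h
      rcases P.isPrime.mem_or_mem h with h | h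
      · exact crep_notMem P e x h
      · exact crep_notMem P e y h
    have h2 : icl l P (crep_notMem P e (x * y)) = icl l P h1 := by
      refine icl_eq hl P he _ _ ?_
      rw [crep_spec, Units.val_mul, map_mul, crep_spec, crep_spec]
    rw [h2]
    unfold icl
    rw [← QuotientGroup.mk_mul]
    congr 1
    apply Units.ext
    rw [Units.val_mul, Units.val_mk0, Units.val_mk0, Units.val_mk0]
    exact map_mul (algebraMap (𝓞 K) K) _ _

private theorem ipsi_apply {l e : ℕ} (hl : l.Prime) (P : HeightOneSpectrum (𝓞 K))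
    (he : ord P (l : K) = e) (x : (CB P e)ˣ) {r : 𝓞 K} (hr : r ∉ P.asIdeal)
    (h : Ideal.Quotient.mk (P.asIdeal ^ (2 * e + 1)) r = (x : CB P e)) :
    ipsi hl P he x = icl l P hr := by
  refine icl_eq hl P he (crep_notMem P e x) hr ?_
  rw [crep_spec, h]

private theorem ipsi_ker {l e : ℕ} (hl : l.Prime) (P : HeightOneSpectrum (𝓞 K))
    (he : ord P (l : K) = e) :
    (ipsi hl P he).ker = (powMonoidHom l : (CB P e)ˣ →* (CB P e)ˣ).range := by
  ext x
  constructor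
  · intro hx
    have h1 : icl l P (crep_notMem P e x) = 1 := hx
    unfold icl at h1
    rw [QuotientGroup.eq_one_iff, smem l hl K P, Units.val_mk0] at h1
    set r := crep P e x with hr
    have hrn : r ∉ P.asIdeal := crep_notMem P e x
    obtain ⟨c, hc⟩ := h1 (2 * e + 1)
    obtain ⟨h2, h3⟩ := sqr_unit P (n := ((2 * e + 1 : ℕ) : ℤ)) (by positivity) hc
    rw [sqr_iff] at hc
    have hc0 : c ≠ 0 := by
      rintro rfl
      exact h2 (by rw [zero_pow hl.ne_zero, mul_zero])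
    have hcu : ord P c = 0 := by
      rw [ord_mul P (cnt_coe_ne P hrn) (pow_ne_zero _ hc0), ord_unit P hrn, ord_pow,
        zero_add] at h3
      rcases mul_eq_zero.1 h3 with h4 | h4
      · exact absurd (by exact_mod_cast h4) hl.ne_zero
      · exact h4
    obtain ⟨b, hb⟩ := ord_apx P hcu.ge (2 * e + 1)
    have hb' : c - b = 0 ∨ ((2 * e + 1 : ℕ) : ℤ) ≤ ord P (c - b) := by
      rw [sub_eq_zero]
      exact hb
    have hbn : (b : K) = 0 ∨ (0 : ℤ) ≤ ord P (b : K) := Or.inr (ord_int_nonneg P b)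
    have hrr : (r : K) = 0 ∨ (0 : ℤ) ≤ ord P (r : K) := Or.inr (ord_int_nonneg P r)
    have hcc : c = 0 ∨ (0 : ℤ) ≤ ord P c := Or.inr hcu.ge
    have h5 := sqr_prod P hrr (idx_sub P hcc hbn hb' l).2
    rw [zero_add] at h5
    have h6 : -((r : K) * (c ^ l - (b : K) ^ l)) = 0 ∨
        ((2 * e + 1 : ℕ) : ℤ) ≤ ord P (-((r : K) * (c ^ l - (b : K) ^ l))) := by
      rw [ord_neg, neg_eq_zero]
      exact h5
    have h7 := le_ord_add P ((2 * e + 1 : ℕ) : ℤ) hc h6
    have h8 : (r : K) * c ^ l - 1 + -((r : K) * (c ^ l - (b : K) ^ l)) =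
        ((r * b ^ l - 1 : 𝓞 K) : K) := by
      have e1 : ((r * b ^ l - 1 : 𝓞 K) : K) = (r : K) * (b : K) ^ l - 1 := by
        push_cast
        ring
      rw [e1]
      ring
    rw [h8] at h7
    have h9 : r * b ^ l - 1 ∈ P.asIdeal ^ (2 * e + 1) := by
      rw [← le_ord_iff]
      rcases h7 with h7 | h7
      · left
        exact_mod_cast h7
      · right
        exact h7
    have h10 := (Ideal.Quotient.eq (I := P.asIdeal ^ (2 * e + 1)) (x := r * b ^ l) (y := 1)).2 h9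
    rw [map_mul, map_pow, map_one, hr, crep_spec] at h10
    set β : CB P e := Ideal.Quotient.mk (P.asIdeal ^ (2 * e + 1)) b with hβ
    have hl1 : β ^ l = β * β ^ (l - 1) := by
      rw [← pow_succ', Nat.sub_add_cancel hl.pos]
    have hy1 : β * ((x : CB P e) * β ^ (l - 1)) = 1 := by
      rw [← h10, hl1]
      ring
    have hy2 : (x : CB P e) * β ^ (l - 1) * β = 1 := by
      rw [← h10, hl1]
      ring
    set B : (CB P e)ˣ := ⟨β, (x : CB P e) * β ^ (l - 1), hy1, hy2⟩ with hB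
    have h11 : x * B ^ l = 1 := by
      apply Units.ext
      rw [Units.val_mul, Units.val_pow_eq_pow_val, Units.val_one]
      exact h10
    refine ⟨B⁻¹, ?_⟩
    rw [powMonoidHom_apply, inv_pow]
    exact (eq_inv_of_mul_eq_one_left h11).symm
  · rintro ⟨y, rfl⟩
    rw [MonoidHom.mem_ker, powMonoidHom_apply, map_pow]
    exact idx_pow_one hl P _

/-- the exponent modulo `l` -/
private noncomputable def ipar (l : ℕ) (P : HeightOneSpectrum (𝓞 K)) :
    Kˣ →* Multiplicative (ZMod l) where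
  toFun a := Multiplicative.ofAdd ((ord P (a : K) : ℤ) : ZMod l)
  map_one' := by
    rw [Units.val_one, ord_one]
    simp
  map_mul' := by
    intro a b
    rw [Units.val_mul, ord_mul P a.ne_zero b.ne_zero, ← ofAdd_add]
    push_cast
    rfl

private theorem ipar_mem (l : ℕ) (P : HeightOneSpectrum (𝓞 K)) (a : Kˣ) :
    a ∈ (ipar l P).ker ↔ (l : ℤ) ∣ ord P (a : K) := by
  rw [MonoidHom.mem_ker]
  show Multiplicative.ofAdd ((ord P (a : K) : ℤ) : ZMod l) = 1 ↔ _
  rw [ofAdd_eq_one]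
  exact ZMod.intCast_zmod_eq_zero_iff_dvd _ l

private theorem idx_unif (P : HeightOneSpectrum (𝓞 K)) :
    ∃ p : Kˣ, ∀ n : ℤ, ord P ((p ^ n : Kˣ) : K) = n := by
  obtain ⟨π, hπ⟩ := exists_unif P
  have hπ0 : (π : K) ≠ 0 := by
    intro h0
    rw [h0, ord_zero] at hπ
    exact zero_ne_one hπ
  refine ⟨Units.mk0 (π : K) hπ0, ?_⟩
  intro n
  obtain ⟨j, rfl | rfl⟩ := n.eq_nat_or_neg
  · rw [zpow_natCast, Units.val_pow_eq_pow_val, ord_pow, Units.val_mk0, hπ, mul_one]
  · rw [zpow_neg, zpow_natCast, Units.val_inv_eq_inv_val, ord_inv, Units.val_pow_eq_pow_val,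
      ord_pow, Units.val_mk0, hπ, mul_one]

private theorem ipar_index {l : ℕ} (hl : l.Prime) (P : HeightOneSpectrum (𝓞 K)) :
    (ipar l P).ker.index = l := by
  haveI : NeZero l := ⟨hl.ne_zero⟩
  rw [Subgroup.index_ker]
  have h : (ipar l P).range = ⊤ := by
    rw [MonoidHom.range_eq_top]
    obtain ⟨p, hp⟩ := idx_unif P
    intro z
    refine ⟨p ^ ((Multiplicative.toAdd z).val : ℤ), ?_⟩
    show Multiplicative.ofAdd ((ord P ((p ^ ((Multiplicative.toAdd z).val : ℤ) : Kˣ) : K) : ℤ) :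
      ZMod l) = _
    rw [hp]
    have h2 : (((Multiplicative.toAdd z).val : ℤ) : ZMod l) = Multiplicative.toAdd z := by
      rw [Int.cast_natCast, ZMod.natCast_zmod_val]
    rw [h2]
    rfl
  rw [h]
  rw [Nat.card_congr (Subgroup.topEquiv).toEquiv]
  show Nat.card (ZMod l) = l
  exact Nat.card_zmod l

private theorem ipsi_range {l e : ℕ} (hl : l.Prime) (P : HeightOneSpectrum (𝓞 K))
    (he : ord P (l : K) = e) :
    (ipsi hl P he).range = (ipar l P).ker.map (QuotientGroup.mk' (WS l P : Subgroup Kˣ)) := by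
  ext g
  constructor
  · rintro ⟨x, rfl⟩
    refine ⟨Units.mk0 (crep P e x : K) (cnt_coe_ne P (crep_notMem P e x)), ?_, rfl⟩
    show _ ∈ (ipar l P).ker
    rw [ipar_mem, Units.val_mk0, ord_unit P (crep_notMem P e x)]
    exact dvd_zero _
  · rintro ⟨a, ha, rfl⟩
    obtain ⟨m, hm⟩ := (ipar_mem l P a).1 ha
    obtain ⟨p, hpz⟩ := idx_unif P
    set u : Kˣ := a * (p ^ (-m)) ^ l with hu
    have hu0 : ord P (u : K) = 0 := by
      rw [hu, Units.val_mul, ord_mul P a.ne_zero (Units.ne_zero _), Units.val_pow_eq_pow_val,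
        ord_pow, hpz, hm]
      ring
    obtain ⟨b, hb⟩ := ord_apx P hu0.ge (2 * e + 1)
    have hb' : (u : K) - b = 0 ∨ ((2 * e + 1 : ℕ) : ℤ) ≤ ord P ((u : K) - b) := by
      rw [sub_eq_zero]
      exact hb
    have hbI : b ∉ P.asIdeal := by
      intro hmem
      have h1 := (le_ord_iff P b 1).2 (by rwa [pow_one])
      have h2 : (b : K) = 0 ∨ (1 : ℤ) ≤ ord P (b : K) := by
        rcases h1 with h1 | h1
        · left
          rw [h1]
          exact map_zero (algebraMap (𝓞 K) K)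
        · right
          exact_mod_cast h1
      have h3 := le_ord_add P (1 : ℤ) (sqr_mono P (by push_cast; omega) hb') h2
      rw [sub_add_cancel] at h3
      rcases h3 with h3 | h3
      · exact u.ne_zero h3
      · rw [hu0] at h3
        norm_num at h3
    have hun : IsUnit (Ideal.Quotient.mk (P.asIdeal ^ (2 * e + 1)) b) := (cnt_unit_iff P e b).2 hbI
    obtain ⟨x, hx⟩ := hun
    refine ⟨x, ?_⟩
    rw [ipsi_apply hl P he x hbI hx.symm]
    have h4 : (QuotientGroup.mk u : Kˣ ⧸ (WS l P : Subgroup Kˣ)) = icl l P hbI := by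
      unfold icl
      rw [QuotientGroup.eq, smem l hl K P, Units.val_mul, Units.val_inv_eq_inv_val, Units.val_mk0]
      exact idx_wd hl.ne_zero P he u.ne_zero hu0 hb'
    rw [← h4]
    have h5 : (QuotientGroup.mk' (WS l P : Subgroup Kˣ)) u =
        (QuotientGroup.mk' (WS l P : Subgroup Kˣ)) a := by
      rw [hu, map_mul, map_pow, idx_pow_one hl]
      exact mul_one ((QuotientGroup.mk' (WS l P : Subgroup Kˣ)) a)
    exact h5

end

/-- the number of local power classes -/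
theorem sidx : SIdx := by
  intro l hl K _ _ z hz P
  haveI : NeZero l := ⟨hl.ne_zero⟩
  have hz' : IsPrimitiveRoot hz.toInteger l := hz.toInteger_isPrimitiveRoot
  have he0 : 0 ≤ ord P (l : K) := by
    have e0 : ((l : 𝓞 K) : K) = l := map_natCast (algebraMap (𝓞 K) K) l
    have h1 := ord_int_nonneg P (l : 𝓞 K)
    rwa [e0] at h1
  obtain ⟨e, he⟩ := Int.eq_ofNat_of_zero_le he0
  rw [he, Int.toNat_natCast]
  have hle : (WS l P : Subgroup Kˣ) ≤ (ipar l P).ker := by
    intro a ha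
    rw [ipar_mem]
    exact idx_dvd hl.ne_zero ((smem l hl K P a).1 ha)
  rw [← Subgroup.relIndex_mul_index hle, ipar_index hl]
  have h1 : (WS l P : Subgroup Kˣ).relIndex (ipar l P).ker =
      Nat.card ((ipar l P).ker.map (QuotientGroup.mk' (WS l P : Subgroup Kˣ))) := by
    rw [← Subgroup.relIndex_ker, QuotientGroup.ker_mk']
  haveI : Finite (CB P e) := by
    have h2 : Nat.card (CB P e) ≠ 0 := by
      have h3 : Nat.card (CB P e) = Ideal.absNorm P.asIdeal ^ (2 * e + 1) := by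
        rw [← map_pow, Ideal.absNorm_apply, Submodule.cardQuot_apply]
      rw [h3]
      refine pow_ne_zero _ ?_
      intro h
      rw [Ideal.absNorm_eq_zero_iff] at h
      exact P.ne_bot h
    exact Nat.finite_of_card_ne_zero h2
  haveI : Finite (CB P e)ˣ := inferInstance
  have h2 : (ipsi hl P he).ker.index = l * Ideal.absNorm P.asIdeal ^ e := by
    rw [ipsi_ker, Subgroup.index_range]
    exact idx_ker hl.pos hz' P he
  rw [h1, ← ipsi_range hl P he, ← Subgroup.index_ker, h2]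
  unfold nrm
  ring

end Pool.Agent.H92.EL
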