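import Pool.Agent.H92.EL.IjB

/-!
# Project ELL (MP_a3214d), block A, row A42: injectivity and duality
-/

set_option autoImplicit false

open scoped BigOperators Pointwise
open NumberField IsDedekindDomain

namespace Pool.Agent.H92.EL

open Pool.Agent.H98.MF (Om Gm ord Dec US PrS SUn mS nrm gen FixD)
open Pool.Agent.H98.MF.B (mem_US US_mono gen_spec)

section

variable {l : ℕ} [Fact l.Prime] {K : Type} [Field K] [NumberField K] {z : K}

/-- an `S`-unit which is a local power at `S` is a local power everywhere -/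
theorem ij_loc (hM : SMem) (G : GSy l K z) {S : Finset (HeightOneSpectrum (𝓞 K))}
    (hS : AdmL l S) {a : Kˣ} (ha : a ∈ US S) (hK : a ∈ KW l S) (P : HeightOneSpectrum (𝓞 K)) :
    LocW l P (a : K) := by
  classical
  by_cases hP : P ∈ S
  · exact (hM l Fact.out K P a).1 (ij_mem_KW.1 hK P hP)
  · have hg := gen_spec hS.prS hP
    have hb : gen S P ∈ US (insert P S) := mem_US.2 fun Q hQ =>
      hg.2 Q (fun h => hQ (Finset.mem_insert_of_mem h))
        (fun h => hQ (h ▸ Finset.mem_insert_self _ _))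
    have h1 := G.prd (insert P S) (fun Q hQ => Finset.mem_insert_of_mem (hS.mem Q hQ)) a
      (US_mono (Finset.subset_insert _ _) ha) (gen S P) hb
    rw [Finset.sum_insert hP, Finset.sum_eq_zero fun Q hQ => (G.nd Q a).2
      ((hM l Fact.out K Q a).1 (ij_mem_KW.1 hK Q hQ)) (gen S P), add_zero] at h1
    have hl0 := ij_ordl0 hS.mem hP
    have ha0 := mem_US.1 ha P hP
    rw [G.unit P a _ hl0 ha0, hg.1, Int.cast_one, one_mul] at h1
    have h2 : lgs l z P (a : K) = 0 := (mul_eq_zero.1 h1).resolve_left (G.cc_ne P)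
    refine (G.nd P a).1 fun b => ?_
    rw [G.unit P a b hl0 ha0, h2, mul_zero, mul_zero]

end

/-- Row A42, first part: the field `inj` of `GlF`. -/
theorem inj_of (hM : SMem) (hA : SAn) :
    ∀ (l : ℕ) [Fact l.Prime], l ≠ 2 → ∀ (K : Type) [Field K] [NumberField K] (z : K),
      IsPrimitiveRoot z l → ∀ _G : GSy l K z, ∀ S : Finset (HeightOneSpectrum (𝓞 K)),
        AdmL l S → ∀ a ∈ US S, a ∈ KW l S → a ∈ pw l (US S) := by
  intro l _ hl K _ _ z hz G S hS a ha hK
  exact ij_pw_US ha (ij_dens (hA l hl K z hz) ∅ fun P _ => ij_loc hM G hS ha hK P)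

/-- Row A42, second part: the field `du` of `GlF`. -/
theorem du_of (hM : SMem) (hW : SWk) (hA : SAn) (hI : SCI) (h2 : SC2) :
    ∀ (l : ℕ) [Fact l.Prime], l ≠ 2 → ∀ (K : Type) [Field K] [NumberField K] (z : K),
      IsPrimitiveRoot z l → ∀ G : GSy l K z, ∀ S : Finset (HeightOneSpectrum (𝓞 K)),
        AdmL l S → ∀ ψ : Kˣ →* Multiplicative (ZMod l), FnL l S ψ → ∃ a ∈ US S, ∀ x : Kˣ,
          vl l ψ x = ∑ P ∈ S, G.hs P a x := by
  intro l _ hl K _ _ z hz G S hS ψ hψ
  have hin := inj_of hM hA l hl K z hz G S hS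
  obtain ⟨a, ha, h⟩ := ij_du G.toLSy h2 hI hl hz hS.mem hin hM (fun _ => 1)
    (fun a ha b hb => by
      rw [← G.prd S hS.mem a ha b hb]
      exact Finset.sum_congr rfl fun P _ => one_mul _)
    (fun a ha h => by
      refine hin a ha (ij_mem_KW.2 fun P hP => (hM l Fact.out K P a).2
        ((G.nd P a).1 fun b => ?_))
      obtain ⟨g, hg⟩ := ij_eval G.toLSy hM hW hP b
      have h1 := hg (fun _ => 1) a
      rw [h g, one_mul] at h1
      exact h1.symm) ψ hψ
  refine ⟨a, ha, fun x => ?_⟩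
  rw [h x]
  exact Finset.sum_congr rfl fun P _ => one_mul _

end Pool.Agent.H92.EL
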