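import Pool.Agent.H92.EL.AStm
import Pool.Agent.H92.EL.Hb
import Pool.Agent.H98.MF.L.Top
import Pool.Agent.H98.MF.L.Ord

/-!
# Project ELL (MP_a3214d), block A, row A18: the local norm index is `l`

`D` is the decomposition group at `P`, `s ∈ D` has Kummer character `1` at `a`. The Herbrand
quotient of the multiplicative group of the fixed field of `D ∩ ker χ_a` is computed from the
local indices of `K` and of the extension of degree `l`.
-/

set_option autoImplicit false
set_option linter.unusedSectionVars false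

open scoped BigOperators Pointwise
open NumberField IsDedekindDomain

namespace Pool.Agent.H92.EL

open Pool.Agent.H98.MF (Om Gm ord Dec nrm FixD dec_closed)

private theorem in_mem_pw {G : Type} [CommGroup G] {l : ℕ} {H : Subgroup G} {x : G} :
    x ∈ pw l H ↔ ∃ y ∈ H, y ^ l = x := by
  unfold pw
  rw [Subgroup.mem_map]
  rfl

private theorem in_pw_map {G G' : Type} [CommGroup G] [CommGroup G'] (l : ℕ) (f : G →* G')
    (H : Subgroup G) : (pw l H).map f = pw l (H.map f) := by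
  ext x
  rw [in_mem_pw, Subgroup.mem_map]
  constructor
  · rintro ⟨y, hy, rfl⟩
    obtain ⟨w, hw, rfl⟩ := in_mem_pw.1 hy
    exact ⟨f w, ⟨w, hw, rfl⟩, (map_pow f w l).symm⟩
  · rintro ⟨_, ⟨w, hw, rfl⟩, rfl⟩
    exact ⟨w ^ l, in_mem_pw.2 ⟨w, hw, rfl⟩, map_pow f w l⟩

/-- the number of roots of unity -/
private theorem in_tors {l : ℕ} (hl : l.Prime) {F : Type} [Field F] {ζ : F}
    (hζ : IsPrimitiveRoot ζ l) (B : Subgroup Fˣ) (hB : ∀ x : Fˣ, x ^ l = 1 → x ∈ B)
    (H : Subgroup B) (hH : ∀ x : B, x ^ l = 1 → x ∈ H) :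
    Nat.card {x : B // x ∈ H ∧ x ^ l = 1} = l := by
  have : NeZero l := ⟨hl.ne_zero⟩
  have h1 : Nat.card (rootsOfUnity l F) = l := hζ.card_rootsOfUnity
  refine (Nat.card_congr ?_).trans h1
  refine ⟨fun x => ⟨(x.1 : Fˣ), ?_⟩, fun x => ⟨⟨(x : Fˣ), ?_⟩, ?_⟩, ?_, ?_⟩
  · rw [mem_rootsOfUnity]
    have h2 := x.2.2
    exact congrArg (fun y : B => (y : Fˣ)) h2
  · exact hB _ ((mem_rootsOfUnity _ _).1 x.2)
  · have h2 : (⟨(x : Fˣ), hB _ ((mem_rootsOfUnity _ _).1 x.2)⟩ : B) ^ l = 1 :=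
      Subtype.ext ((mem_rootsOfUnity _ _).1 x.2)
    exact ⟨hH _ h2, h2⟩
  · intro x
    rfl
  · intro x
    rfl

/-- a generalised geometric sum -/
private theorem in_geom {F : Type} [Field F] {l : ℕ} {Z : F} (hZ : IsPrimitiveRoot Z l) {i : ℕ}
    (hi : i < l) (h0 : i ≠ 0) : ∑ k ∈ Finset.range l, (Z ^ i) ^ k = 0 := by
  have h1 : (∑ k ∈ Finset.range l, (Z ^ i) ^ k) * (Z ^ i - 1) = (Z ^ i) ^ l - 1 :=
    geom_sum_mul _ _
  have h2 : (Z ^ i) ^ l = 1 := by
    rw [← pow_mul, mul_comm, pow_mul, hZ.pow_eq_one, one_pow]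
  rw [h2, sub_self] at h1
  rcases mul_eq_zero.1 h1 with h3 | h3
  · exact h3
  · exfalso
    have h4 : Z ^ i = 1 := sub_eq_zero.1 h3
    exact h0 (Nat.eq_zero_of_dvd_of_lt ((hZ.pow_eq_one_iff_dvd i).1 h4) hi)

section

variable {K : Type} [Field K] [NumberField K]

/-- the units fixed by a subgroup -/
private def fxU (D : Subgroup (Gm K)) : Subgroup (Om K)ˣ where
  carrier := {x | FixD D (x : Om K)}
  mul_mem' := by
    intro x y hx hy σ hσ
    rw [Units.val_mul, map_mul, hx σ hσ, hy σ hσ]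
  one_mem' := by
    intro σ _
    rw [Units.val_one, map_one]
  inv_mem' := by
    intro x hx σ hσ
    rw [Units.val_inv_eq_inv_val, map_inv₀, hx σ hσ]

private theorem mem_fxU {D : Subgroup (Gm K)} {x : (Om K)ˣ} :
    x ∈ fxU D ↔ ∀ σ ∈ D, σ (x : Om K) = x := Iff.rfl

private theorem in_rt {l : ℕ} (hl : l.Prime) (a : K) : rt l a ^ l = algebraMap K (Om K) a := by
  have h : ∃ y : Om K, y ^ l = algebraMap K (Om K) a :=
    IsAlgClosed.exists_pow_nat_eq _ hl.pos
  unfold rt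
  rw [dif_pos h]
  exact h.choose_spec

private theorem in_rt_ne {l : ℕ} (hl : l.Prime) (a : Kˣ) : rt l (a : K) ≠ 0 := by
  intro h
  have h1 := in_rt hl (a : K)
  rw [h, zero_pow hl.ne_zero] at h1
  exact (map_ne_zero (algebraMap K (Om K))).2 a.ne_zero h1.symm

private theorem in_val {l : ℕ} (hl : l.Prime) {F : Type} [Field F] {Z : F}
    (hZ : IsPrimitiveRoot Z l) {c : ZMod l} (h : Z ^ c.val = 1) : c = 0 := by
  have : NeZero l := ⟨hl.ne_zero⟩
  have h1 := (hZ.pow_eq_one_iff_dvd c.val).1 h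
  have h2 := Nat.eq_zero_of_dvd_of_lt h1 (ZMod.val_lt c)
  exact (ZMod.val_eq_zero c).1 h2

/-- the embedding -/
private noncomputable def emU (K : Type) [Field K] [NumberField K] : Kˣ →* (Om K)ˣ :=
  Units.map ((algebraMap K (Om K) : K →+* Om K) : K →* Om K)

private theorem emU_coe (c : Kˣ) : ((emU K c : (Om K)ˣ) : Om K) = algebraMap K (Om K) (c : K) :=
  rfl

private theorem emU_le (D : Subgroup (Gm K)) : (emU K).range ≤ fxU D := by
  rintro _ ⟨c, rfl⟩ σ _
  rw [emU_coe, σ.commutes]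

private theorem pw_le {G : Type} [CommGroup G] {l : ℕ} (H : Subgroup G) : pw l H ≤ H := by
  intro x hx
  obtain ⟨y, hy, rfl⟩ := in_mem_pw.1 hx
  exact H.pow_mem hy l

/-- the elements of the decomposition field -/
private theorem in_sup {l : ℕ} (hl : l.Prime) {z : K} (hz : IsPrimitiveRoot z l) (h1 : SOne)
    (P : HeightOneSpectrum (𝓞 K)) :
    (emU K).range ⊔ pw l (fxU (Dec P)) = fxU (Dec P) := by
  apply le_antisymm (sup_le (emU_le _) (pw_le _))
  intro x hx
  obtain ⟨c, y, hy, hxy⟩ := (h1 l hl K z hz P).2 (x : Om K) x.ne_zero hx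
  have hy0 : y ≠ 0 := by
    rintro rfl
    rw [zero_pow hl.ne_zero, mul_zero] at hxy
    exact x.ne_zero hxy
  have h2 : x = emU K c * (Units.mk0 y hy0) ^ l := Units.ext (by
    rw [Units.val_mul, Units.val_pow_eq_pow_val, emU_coe, Units.val_mk0]
    exact hxy)
  rw [h2]
  exact Subgroup.mul_mem_sup ⟨c, rfl⟩ (in_mem_pw.2 ⟨Units.mk0 y hy0, hy, rfl⟩)

/-- the index of the powers in the decomposition field -/
private theorem in_idx {l : ℕ} (hl : l.Prime) {z : K} (hz : IsPrimitiveRoot z l) (hK : SKu)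
    (hM : SMem) (hX : SIdx) (h1 : SOne) (P : HeightOneSpectrum (𝓞 K)) :
    (pw l (fxU (Dec P))).relIndex (fxU (Dec P)) = l ^ 2 * nrm P ^ (ord P (l : K)).toNat := by
  have : NeZero l := ⟨hl.ne_zero⟩
  have hKu := hK l hl K z hz
  have hZ : IsPrimitiveRoot (algebraMap K (Om K) z) l :=
    hz.map_of_injective (algebraMap K (Om K)).injective
  have hcm : (pw l (fxU (Dec P))).comap (emU K) = WS l P := by
    ext c
    rw [Subgroup.mem_comap, in_mem_pw, hM l hl K P c, ← (h1 l hl K z hz P).1 c]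
    constructor
    · rintro ⟨y, hy, hyc⟩ σ hσ
      have h2 : (y : Om K) ^ l = algebraMap K (Om K) (c : K) := by
        rw [← emU_coe, ← hyc, Units.val_pow_eq_pow_val]
      have h3 := hKu.root c _ h2 σ
      rw [hy σ hσ] at h3
      have h4 := mul_right_cancel₀ y.ne_zero ((one_mul (y : Om K)).trans h3)
      exact in_val hl hZ h4.symm
    · intro h
      refine ⟨Units.mk0 (rt l (c : K)) (in_rt_ne hl c), fun σ hσ => ?_, Units.ext ?_⟩
      · rw [Units.val_mk0, hKu.root c _ (in_rt hl (c : K)) σ, h σ hσ, ZMod.val_zero, pow_zero,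
          one_mul]
      · rw [Units.val_pow_eq_pow_val, Units.val_mk0, in_rt hl, emU_coe]
  calc (pw l (fxU (Dec P))).relIndex (fxU (Dec P))
      = (pw l (fxU (Dec P))).relIndex ((emU K).range ⊔ pw l (fxU (Dec P))) := by
        rw [in_sup hl hz h1 P]
    _ = (pw l (fxU (Dec P))).relIndex (emU K).range := Subgroup.relIndex_sup_right _ _
    _ = ((pw l (fxU (Dec P))).comap (emU K)).index := (Subgroup.index_comap _ _).symm
    _ = _ := by rw [hcm, hX l hl K z hz P]

private theorem fix_pow {D : Subgroup (Gm K)} {s : Gm K}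
    (hst : ∀ w : Om K, FixD D w → FixD D (s w)) {w : Om K} (hw : FixD D w) (i : ℕ) :
    FixD D ((s ^ i) w) := by
  induction i with
  | zero => simpa using hw
  | succ i ih =>
    rw [pow_succ', AlgEquiv.mul_apply]
    exact hst _ ih

/-- Hilbert 90 -/
private theorem in_h90 {l : ℕ} (hl : l.Prime) {z : K} (hz : IsPrimitiveRoot z l)
    (hKu : KuF l K z) (a : Kˣ) {s : Gm K} (hs : chl l z (a : K) s = 1) {D : Subgroup (Gm K)}
    (hD : ∀ σ ∈ D, chl l z (a : K) σ = 0) (hst : ∀ w : Om K, FixD D w → FixD D (s w))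
    (x : (Om K)ˣ) (hx : FixD D (x : Om K))
    (hN : ∏ i ∈ Finset.range l, (s ^ i) (x : Om K) = 1) :
    ∃ u ∈ fxU D, (x : Om K) = s (u : Om K) / (u : Om K) := by
  classical
  have hf : Fact (1 < l) := ⟨hl.one_lt⟩
  set Z : Om K := algebraMap K (Om K) z with hZd
  have hZ : IsPrimitiveRoot Z l := hz.map_of_injective (algebraMap K (Om K)).injective
  set r : Om K := rt l (a : K) with hr
  have hr0 : r ≠ 0 := in_rt_ne hl a
  have hsr : s r = Z * r := by
    have h1 := hKu.root a r (in_rt hl (a : K)) s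
    rwa [hs, ZMod.val_one, pow_one] at h1
  have hsi : ∀ i : ℕ, (s ^ i) r = Z ^ i * r := by
    intro i
    induction i with
    | zero => simp
    | succ i ih =>
      rw [pow_succ' s, AlgEquiv.mul_apply, ih, map_mul, hsr, map_pow, hZd, s.commutes, pow_succ]
      ring
  have hDr : ∀ k : ℕ, FixD D (r ^ k) := by
    intro k σ hσ
    have h1 := hKu.root a r (in_rt hl (a : K)) σ
    rw [hD σ hσ, ZMod.val_zero, pow_zero, one_mul] at h1
    rw [map_pow, h1]
  set c : ℕ → Om K := fun i => ∏ k ∈ Finset.range i, (s ^ k) (x : Om K) with hc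
  have hcs : ∀ i, (x : Om K) * s (c i) = c (i + 1) := by
    intro i
    rw [hc]
    simp only
    rw [Finset.prod_range_succ', map_prod, mul_comm]
    congr 1
    · exact Finset.prod_congr rfl fun k _ => by rw [pow_succ', AlgEquiv.mul_apply]
  have hDc : ∀ i, FixD D (c i) := by
    intro i σ hσ
    rw [hc]
    simp only
    rw [map_prod]
    exact Finset.prod_congr rfl fun k _ => fix_pow hst hx k σ hσ
  set y : ℕ → Om K := fun k => ∑ i ∈ Finset.range l, c i * (s ^ i) (r ^ k) with hy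
  have hxy : ∀ k, (x : Om K) * s (y k) = y k := by
    intro k
    have h1 : (x : Om K) * s (y k) =
        ∑ i ∈ Finset.range l, c (i + 1) * (s ^ (i + 1)) (r ^ k) := by
      rw [hy]
      simp only
      rw [map_sum, Finset.mul_sum]
      refine Finset.sum_congr rfl fun i _ => ?_
      rw [map_mul, ← mul_assoc, hcs, pow_succ' s i, AlgEquiv.mul_apply]
    have h2 := Finset.sum_range_succ (fun i => c i * (s ^ i) (r ^ k)) l
    have h3 := Finset.sum_range_succ' (fun i => c i * (s ^ i) (r ^ k)) l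
    have h4 : c l * (s ^ l) (r ^ k) = c 0 * (s ^ 0) (r ^ k) := by
      have h5 : c l = 1 := hN
      have h6 : c 0 = 1 := by rw [hc]; simp
      rw [h5, h6, map_pow, hsi, hZ.pow_eq_one]
      simp
    rw [h1]
    rw [h3, h4] at h2
    exact add_right_cancel h2
  obtain ⟨k, hk⟩ : ∃ k, y k ≠ 0 := by
    by_contra hcon
    push Not at hcon
    have h1 : ∑ k ∈ Finset.range l, y k * (r ^ k)⁻¹ = (l : Om K) := by
      have h2 : ∀ k, y k * (r ^ k)⁻¹ = ∑ i ∈ Finset.range l, c i * (Z ^ i) ^ k := by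
        intro k
        rw [hy]
        simp only
        rw [Finset.sum_mul]
        refine Finset.sum_congr rfl fun i _ => ?_
        rw [map_pow, hsi, mul_pow, mul_assoc, mul_assoc,
          mul_inv_cancel₀ (pow_ne_zero k hr0), mul_one]
      rw [Finset.sum_congr rfl fun k _ => h2 k, Finset.sum_comm]
      rw [Finset.sum_eq_single 0]
      · rw [← Finset.mul_sum]
        simp [hc]
      · intro i hi h0
        rw [← Finset.mul_sum, in_geom hZ (Finset.mem_range.1 hi) h0, mul_zero]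
      · intro h
        exact absurd (Finset.mem_range.2 hl.pos) h
    rw [Finset.sum_eq_zero fun k _ => by rw [hcon k, zero_mul]] at h1
    have h3 : (l : Om K) ≠ 0 := Nat.cast_ne_zero.2 hl.ne_zero
    exact h3 h1.symm
  have hDy : FixD D (y k) := by
    intro σ hσ
    rw [hy]
    simp only
    rw [map_sum]
    exact Finset.sum_congr rfl fun i _ => by
      rw [map_mul, hDc i σ hσ, fix_pow hst (hDr k) i σ hσ]
  refine ⟨(Units.mk0 (y k) hk)⁻¹, (fxU D).inv_mem (show Units.mk0 (y k) hk ∈ fxU D from hDy), ?_⟩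
  have hsy : s (y k) ≠ 0 := (map_ne_zero s).2 hk
  rw [Units.val_inv_eq_inv_val, Units.val_mk0, map_inv₀, eq_div_iff (inv_ne_zero hk)]
  have h1 := hxy k
  field_simp
  exact h1

end

/-- the arithmetic -/
private theorem in_arith {l : ℕ} (hl : l.Prime) {h N m N' : ℕ} (hN : N ≠ 0)
    (h1 : (h : ℚ) ^ (l - 1) * (((l ^ 2 * N' : ℕ) : ℚ) / (l : ℚ)) =
      (((l ^ 2 * N ^ m : ℕ) : ℚ) / (l : ℚ)) ^ l) (h2 : N' = N ^ (l * m)) : h = l := by
  have hl0 : (l : ℚ) ≠ 0 := by exact_mod_cast hl.ne_zero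
  have hN0 : (N : ℚ) ≠ 0 := by exact_mod_cast hN
  have e1 : ((l ^ 2 * N' : ℕ) : ℚ) / (l : ℚ) = l * (N : ℚ) ^ (l * m) := by
    rw [h2]
    push_cast
    field_simp
  have e2 : ((l ^ 2 * N ^ m : ℕ) : ℚ) / (l : ℚ) = l * (N : ℚ) ^ m := by
    push_cast
    field_simp
  have h3 : (l : ℚ) ^ l = (l : ℚ) ^ (l - 1) * l := by
    rw [← pow_succ, Nat.sub_add_cancel hl.one_le]
  have h4 : (h : ℚ) ^ (l - 1) = (l : ℚ) ^ (l - 1) := by
    rw [e1, e2, mul_pow, h3, ← pow_mul, mul_comm m l, ← mul_assoc] at h1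
    exact mul_right_cancel₀ hl0 (mul_right_cancel₀ (pow_ne_zero _ hN0) h1)
  have h5 : h ^ (l - 1) = l ^ (l - 1) := by exact_mod_cast h4
  have h6 : l - 1 ≠ 0 := by
    have := hl.two_le
    omega
  exact Nat.pow_left_injective h6 h5

/-- the local norm index -/
theorem sin_of (hK : SKu) (_hD : SKuD) (hM : SMem) (hX : SIdx) (h1 : SOne) (hC : SCN)
    (hBr : SBr) (hDg : SDg) (hHb : SHb) : SIn := by
  intro l hl hl2 K _ _ z hz P a ha
  classical
  have hf : Fact (1 < l) := ⟨hl.one_lt⟩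
  have hlz : NeZero l := ⟨hl.ne_zero⟩
  have hlp : Fact l.Prime := ⟨hl⟩
  have hKu := hK l hl K z hz
  set Z : Om K := algebraMap K (Om K) z with hZd
  have hZ : IsPrimitiveRoot Z l := hz.map_of_injective (algebraMap K (Om K)).injective
  -- the Kummer character
  let X : Gm K →* Multiplicative (ZMod l) :=
    MonoidHom.mk' (fun σ => Multiplicative.ofAdd (chl l z (a : K) σ)) fun σ τ => by
      rw [hKu.hom]
      rfl
  have hX1 : ∀ σ, X σ = Multiplicative.ofAdd (chl l z (a : K) σ) := fun σ => rfl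
  have hXk : ∀ σ, σ ∈ X.ker ↔ chl l z (a : K) σ = 0 := by
    intro σ
    rw [MonoidHom.mem_ker, hX1]
    exact Iff.rfl
  have hpow : ∀ (σ : Gm K) (n : ℕ), chl l z (a : K) (σ ^ n) = n * chl l z (a : K) σ := by
    intro σ n
    have h2 := map_pow X σ n
    rw [hX1, hX1, ← ofAdd_nsmul, nsmul_eq_mul] at h2
    exact Multiplicative.ofAdd.injective h2
  obtain ⟨s, hsD, hs⟩ : ∃ s ∈ Dec P, chl l z (a : K) s = 1 := by
    by_contra hcon
    apply ha
    rw [← (h1 l hl K z hz P).1 a]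
    intro σ hσ
    by_contra h0
    refine hcon ⟨σ ^ ((chl l z (a : K) σ)⁻¹).val, (Dec P).pow_mem hσ _, ?_⟩
    rw [hpow, ZMod.natCast_zmod_val, inv_mul_cancel₀ h0]
  have hXsur : Function.Surjective X := by
    intro x
    refine ⟨s ^ (Multiplicative.toAdd x).val, ?_⟩
    rw [hX1, hpow, hs, mul_one, ZMod.natCast_zmod_val]
    rfl
  have hUi : X.ker.index = l := by
    rw [Subgroup.index_ker, MonoidHom.range_eq_top.2 hXsur]
    have e : Nat.card (⊤ : Subgroup (Multiplicative (ZMod l))) = Nat.card (ZMod l) :=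
      Subgroup.card_top
    rw [e, Nat.card_zmod]
  have hUo : IsOpen (X.ker : Set (Gm K)) := by
    have h2 : (X.ker : Set (Gm K)) = (chl l z (a : K)) ⁻¹' {0} := by
      ext σ
      exact hXk σ
    rw [h2]
    exact (hKu.lc a).isOpen_fiber 0
  -- the group
  set D' : Subgroup (Gm K) := Dec P ⊓ X.ker with hD'
  have hD'0 : ∀ σ ∈ D', chl l z (a : K) σ = 0 := fun σ hσ => (hXk σ).1 hσ.2
  have hst : ∀ w : Om K, FixD D' w → FixD D' (s w) := by
    intro w hw τ hτ
    have h2 : s⁻¹ * τ * s ∈ D' := ⟨(Dec P).mul_mem ((Dec P).mul_mem ((Dec P).inv_mem hsD) hτ.1) hsD,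
      (MonoidHom.normal_ker X).conj_mem' τ hτ.2 s⟩
    have h3 := congrArg s (hw _ h2)
    rw [← AlgEquiv.mul_apply, mul_assoc, mul_inv_cancel_left, AlgEquiv.mul_apply] at h3
    exact h3
  let sU : (Om K)ˣ →* (Om K)ˣ := Units.map ((s : Om K →+* Om K) : Om K →* Om K)
  have hsU : ∀ x : (Om K)ˣ, ((sU x : (Om K)ˣ) : Om K) = s (x : Om K) := fun x => rfl
  let A : Subgroup (Om K)ˣ := fxU D'
  let sA : A →* A := (sU.comp A.subtype).codRestrict A fun x => hst _ x.2
  have hsA : ∀ x : A, (((sA x : A) : (Om K)ˣ) : Om K) = s ((x : (Om K)ˣ) : Om K) := fun x => rfl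
  have hitr : ∀ (n : ℕ) (x : A),
      (((itr sA n x : A) : (Om K)ˣ) : Om K) = (s ^ n) ((x : (Om K)ˣ) : Om K) := by
    intro n
    induction n with
    | zero => intro x; simp [itr]
    | succ n ih =>
      intro x
      show (((itr sA n (sA x) : A) : (Om K)ˣ) : Om K) = _
      rw [ih, hsA, pow_succ, AlgEquiv.mul_apply]
  have hsl : s ^ l ∈ D' := by
    refine ⟨(Dec P).pow_mem hsD l, (hXk _).2 ?_⟩
    rw [hpow, ZMod.natCast_self, zero_mul]
  have hid : itr sA l = MonoidHom.id A := by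
    ext x
    show (((itr sA l x : A) : (Om K)ˣ) : Om K) = ((x : (Om K)ˣ) : Om K)
    rw [hitr]
    exact x.2 _ hsl
  have hnl : ∀ x : A, (((nl l sA x : A) : (Om K)ˣ) : Om K) =
      ∏ i ∈ Finset.range l, (s ^ i) ((x : (Om K)ˣ) : Om K) := by
    intro x
    have h2 : nl l sA x = ∏ i ∈ Finset.range l, itr sA i x := by
      unfold nl
      rw [MonoidHom.finsetProd_apply]
    rw [h2]
    have h3 := map_prod ((Units.coeHom (Om K)).comp A.subtype) (fun i => itr sA i x)
      (Finset.range l)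
    exact h3.trans (Finset.prod_congr rfl fun i _ => hitr i x)
  have hdl : ∀ x : A, ((dl sA x : A) : (Om K)ˣ) = sU (x : (Om K)ˣ) / (x : (Om K)ˣ) := fun x => rfl
  have hdk : ∀ x : A, x ∈ (dl sA).ker ↔ s ((x : (Om K)ˣ) : Om K) = ((x : (Om K)ˣ) : Om K) := by
    intro x
    rw [MonoidHom.mem_ker]
    constructor
    · intro h
      have h3 := congrArg (fun u : A => (u : (Om K)ˣ)) h
      have h4 : sU (x : (Om K)ˣ) / (x : (Om K)ˣ) = 1 := h3
      rw [div_eq_one] at h4
      exact congrArg (fun u : (Om K)ˣ => (u : Om K)) h4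
    · intro h
      apply Subtype.ext
      rw [hdl]
      show sU (x : (Om K)ˣ) / (x : (Om K)ˣ) = 1
      rw [div_eq_one]
      exact Units.ext h
  have hker : (nl l sA).ker ≤ (dl sA).range := by
    intro x hx
    have h3 : ∏ i ∈ Finset.range l, (s ^ i) ((x : (Om K)ˣ) : Om K) = 1 := by
      rw [← hnl, MonoidHom.mem_ker.1 hx]
      rfl
    obtain ⟨u, hu, hu2⟩ := in_h90 hl hz hKu a hs hD'0 hst (x : (Om K)ˣ) x.2 h3
    refine ⟨⟨u, hu⟩, ?_⟩
    apply Subtype.ext
    rw [hdl]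
    apply Units.ext
    rw [Units.val_div_eq_div_val, hu2]
    rfl
  -- torsion
  have htorZ : ∀ x : Om K, x ^ l = 1 → ∀ σ : Gm K, σ x = x := by
    intro x hx σ
    obtain ⟨i, -, hi⟩ := hZ.eq_pow_of_pow_eq_one hx
    rw [← hi, map_pow, hZd, σ.commutes]
  have htorA : ∀ x : (Om K)ˣ, x ^ l = 1 → x ∈ A := by
    intro x hx σ _
    refine htorZ _ ?_ σ
    rw [← Units.val_pow_eq_pow_val, hx, Units.val_one]
  have htorK : ∀ x : A, x ^ l = 1 → x ∈ (dl sA).ker := by
    intro x hx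
    rw [hdk]
    refine htorZ _ ?_ s
    exact congrArg (fun u : A => (((u : A) : (Om K)ˣ) : Om K)) hx
  have hcT : Nat.card {x : A // x ∈ (⊤ : Subgroup A) ∧ x ^ l = 1} = l :=
    in_tors hl hZ A htorA ⊤ fun x _ => Subgroup.mem_top x
  have hcK : Nat.card {x : A // x ∈ (dl sA).ker ∧ x ^ l = 1} = l :=
    in_tors hl hZ A htorA (dl sA).ker htorK
  have hfin : {x : A | x ^ l = 1}.Finite := by
    have h1 : Finite {x : A // x ∈ (⊤ : Subgroup A) ∧ x ^ l = 1} :=
      Nat.finite_of_card_ne_zero (by rw [hcT]; exact hl.ne_zero)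
    refine (Set.finite_range (fun x : {x : A // x ∈ (⊤ : Subgroup A) ∧ x ^ l = 1} =>
      (x : A))).subset fun x hx => ?_
    exact ⟨⟨x, Subgroup.mem_top x, hx⟩, rfl⟩
  -- the subgroups
  have hι : Function.Injective A.subtype := A.subtype_injective
  have hmT : (⊤ : Subgroup A).map A.subtype = A := by
    rw [← MonoidHom.range_eq_map, Subgroup.range_subtype]
  have hmK : (dl sA).ker.map A.subtype = fxU (Dec P) := by
    ext x
    rw [Subgroup.mem_map]
    constructor
    · rintro ⟨y, hy, rfl⟩ τ hτ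
      have h2 : s ((y : (Om K)ˣ) : Om K) = ((y : (Om K)ˣ) : Om K) := (hdk y).1 hy
      have h3 : ∀ n : ℕ, (s ^ n) ((y : (Om K)ˣ) : Om K) = ((y : (Om K)ˣ) : Om K) := by
        intro n
        induction n with
        | zero => simp
        | succ n ih => rw [pow_succ, AlgEquiv.mul_apply, h2, ih]
      set n := (chl l z (a : K) τ).val with hn
      have h4 : (s ^ n)⁻¹ * τ ∈ D' := by
        refine ⟨(Dec P).mul_mem ((Dec P).inv_mem ((Dec P).pow_mem hsD n)) hτ, ?_⟩
        show _ ∈ X.ker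
        rw [MonoidHom.mem_ker, map_mul, map_inv, hX1, hX1, hpow, hs, mul_one, hn,
          ZMod.natCast_zmod_val, inv_mul_cancel]
      have h5 := congrArg (s ^ n) (y.2 _ h4)
      rw [← AlgEquiv.mul_apply, mul_inv_cancel_left, h3] at h5
      exact h5
    · intro hx
      refine ⟨⟨x, fun σ hσ => hx σ hσ.1⟩, ?_, rfl⟩
      rw [hdk]
      exact hx s hsD
  -- the extension of degree `l`
  obtain ⟨L, iL1, iL2, iL3, Q, j, Θ, hj, hdeg, hOv, -, -, hjσ, hDec⟩ := hBr K X.ker hUo P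
  rw [hUi] at hdeg
  have hzL : IsPrimitiveRoot (algebraMap K L z) l :=
    hz.map_of_injective (algebraMap K L).injective
  let jU : (Om L)ˣ →* (Om K)ˣ := Units.map ((j : Om L →+* Om K) : Om L →* Om K)
  have hjU : ∀ x : (Om L)ˣ, ((jU x : (Om K)ˣ) : Om K) = j (x : Om L) := fun x => rfl
  have hjinj : Function.Injective jU := by
    intro x y hxy
    have h2 := congrArg (fun u : (Om K)ˣ => (u : Om K)) hxy
    exact Units.ext (j.injective h2)
  have hmA : (fxU (Dec Q)).map jU = A := by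
    ext x
    rw [Subgroup.mem_map]
    constructor
    · rintro ⟨y, hy, rfl⟩ τ hτ
      have h2 : (Θ (Θ.symm ⟨τ, hτ.2⟩) : Gm K) = τ := by rw [MulEquiv.apply_symm_apply]
      have h3 : Θ.symm ⟨τ, hτ.2⟩ ∈ Dec Q := by
        rw [hDec, h2]
        exact hτ.1
      have h4 := hjσ (Θ.symm ⟨τ, hτ.2⟩) (y : Om L)
      rw [h2, hy _ h3] at h4
      rw [hjU]
      exact h4.symm
    · intro hx
      have hx0 : j.symm (x : Om K) ≠ 0 := (map_ne_zero j.symm).2 x.ne_zero
      refine ⟨Units.mk0 _ hx0, fun σ hσ => ?_, Units.ext ?_⟩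
      · apply j.injective
        rw [Units.val_mk0, hjσ, RingEquiv.apply_symm_apply]
        exact hx _ ⟨(hDec σ).1 hσ, (Θ σ).2⟩
      · rw [hjU, Units.val_mk0, RingEquiv.apply_symm_apply]
  have e1 : (pw l (⊤ : Subgroup A)).relIndex ⊤ = l ^ 2 * nrm Q ^ (ord Q (l : L)).toNat := by
    rw [← Subgroup.relIndex_map_map_of_injective _ _ hι, in_pw_map, hmT, ← hmA, ← in_pw_map,
      Subgroup.relIndex_map_map_of_injective _ _ hjinj]
    exact in_idx hl hzL hK hM hX h1 Q
  have e2 : (pw l (dl sA).ker).relIndex (dl sA).ker = l ^ 2 * nrm P ^ (ord P (l : K)).toNat := by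
    rw [← Subgroup.relIndex_map_map_of_injective _ _ hι, in_pw_map, hmK]
    exact in_idx hl hz hK hM hX h1 P
  -- the local degrees
  have hnp : a ∉ pw l (⊤ : Subgroup Kˣ) := by
    intro h2
    have h3 := (hKu.zero a).2 h2 s
    rw [hs] at h3
    exact one_ne_zero h3
  obtain ⟨α, hα⟩ : ∃ α : L, KE l a α := by
    set r : Om K := rt l (a : K) with hr
    have h2 : ∀ σ : Gm L, σ (j.symm r) = j.symm r := by
      intro σ
      apply j.injective
      rw [hjσ, RingEquiv.apply_symm_apply, hKu.root a r (in_rt hl (a : K)),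
        (hXk _).1 (Θ σ).2, ZMod.val_zero, pow_zero, one_mul]
    have h3 : j.symm r ∈ (⊥ : IntermediateField L (Om L)) :=
      (InfiniteGalois.mem_bot_iff_fixed _).2 h2
    obtain ⟨α, hα⟩ := IntermediateField.mem_bot.1 h3
    refine ⟨α, hdeg, ?_, hnp⟩
    apply (algebraMap L (Om L)).injective
    apply j.injective
    rw [map_pow, hα, map_pow, RingEquiv.apply_symm_apply, hr, in_rt hl, hj]
  obtain ⟨e, f, hef, hord, hnrm⟩ := hDg l hl K L z hz a α hα P ha Q hOv
  have hP0 : 0 ≤ ord P (l : K) := by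
    have h2 := Pool.Agent.H98.MF.ord_int_nonneg P (l : 𝓞 K)
    have h3 : ((l : 𝓞 K) : K) = (l : K) := map_natCast (algebraMap (𝓞 K) K) l
    rwa [h3] at h2
  have hQl : (ord Q (l : L)).toNat = e * (ord P (l : K)).toNat := by
    have h2 := hord (l : K)
    rw [map_natCast] at h2
    rw [h2]
    obtain ⟨m, hm⟩ := Int.eq_ofNat_of_zero_le hP0
    rw [hm, ← Nat.cast_mul, Int.toNat_natCast, Int.toNat_natCast]
  have hN0 : nrm P ≠ 0 := by
    unfold nrm
    rw [Ne, Ideal.absNorm_eq_zero_iff]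
    exact P.ne_bot
  have hh : (nl l sA).range.relIndex (dl sA).ker = l := by
    obtain ⟨-, h3⟩ := hHb l hl A sA hid (by
      rw [← Subgroup.relIndex_top_right, e1]
      refine mul_ne_zero (pow_ne_zero _ hl.ne_zero) (pow_ne_zero _ ?_)
      unfold nrm
      rw [Ne, Ideal.absNorm_eq_zero_iff]
      exact Q.ne_bot) hfin hker
    unfold qH at h3
    rw [e1, e2, hcT, hcK] at h3
    refine in_arith hl hN0 h3 ?_
    rw [hnrm, hQl, ← pow_mul, ← mul_assoc, mul_comm f e, hef]
  -- the norm group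
  have hrk : (nl l sA).range ≤ (dl sA).ker := by
    rintro _ ⟨x, rfl⟩
    rw [MonoidHom.mem_ker, Hb.tel, hid]
    exact div_self' _
  set N : Subgroup (Om K)ˣ := (nl l sA).range.map A.subtype with hN
  have hNle : N ≤ fxU (Dec P) := by
    rw [← hmK]
    exact Subgroup.map_mono hrk
  have hsupN : (emU K).range ⊔ N = fxU (Dec P) := by
    apply le_antisymm (sup_le (emU_le _) hNle)
    rw [← in_sup hl hz h1 P]
    apply sup_le_sup_left
    intro x hx
    obtain ⟨y, hy, rfl⟩ := in_mem_pw.1 hx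
    have hy' : y ∈ A := fun σ hσ => hy σ hσ.1
    have h2 : sA ⟨y, hy'⟩ = ⟨y, hy'⟩ := Subtype.ext (Units.ext (hy s hsD))
    exact ⟨nl l sA ⟨y, hy'⟩, ⟨_, rfl⟩, by rw [Hb.nl_fix h2]; rfl⟩
  refine ⟨N.comap (emU K), fun b => ?_, ?_⟩
  · rw [hC l hl hl2 K z hz (Dec P) (dec_closed P) a b s hsD hs, Subgroup.mem_comap]
    constructor
    · rintro ⟨_, ⟨y, rfl⟩, hy⟩
      refine ⟨((y : (Om K)ˣ) : Om K), fun σ hσ h0 => y.2 σ ⟨hσ, (hXk σ).2 h0⟩, ?_⟩
      rw [← hnl, ← emU_coe, ← hy]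
      rfl
    · rintro ⟨y, hy, hyb⟩
      have hy0 : y ≠ 0 := by
        rintro rfl
        have h2 : algebraMap K (Om K) (b : K) = 0 := by
          rw [← hyb]
          exact Finset.prod_eq_zero (Finset.mem_range.2 hl.pos) (map_zero _)
        exact (map_ne_zero (algebraMap K (Om K))).2 b.ne_zero h2
      have hyA : Units.mk0 y hy0 ∈ A := fun σ hσ => hy σ hσ.1 ((hXk σ).1 hσ.2)
      refine ⟨nl l sA ⟨Units.mk0 y hy0, hyA⟩, ⟨_, rfl⟩, Units.ext ?_⟩
      rw [emU_coe, ← hyb]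
      exact hnl ⟨Units.mk0 y hy0, hyA⟩
  · calc (N.comap (emU K)).index = N.relIndex (emU K).range := Subgroup.index_comap _ _
      _ = N.relIndex ((emU K).range ⊔ N) := (Subgroup.relIndex_sup_right _ _).symm
      _ = N.relIndex ((dl sA).ker.map A.subtype) := by rw [hsupN, hmK]
      _ = (nl l sA).range.relIndex (dl sA).ker := by
        rw [hN, Subgroup.relIndex_map_map_of_injective _ _ hι]
      _ = l := hh

end Pool.Agent.H92.EL
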