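import Pool.Agent.H92.EL.AStm
import Pool.Agent.H98.MF.L.Fld

/-!
# Project ELL (MP_a3214d), block A, row A29: fields with roots exist
(helper30)
-/

set_option autoImplicit false

open scoped BigOperators Pointwise
open NumberField IsDedekindDomain

namespace Pool.Agent.H92.EL

open Pool.Agent.H98.MF (Om Gm fld fldK_nf fldK_finrank)

section

variable {l : ℕ} {K : Type} [Field K] [NumberField K] {z : K}

private theorem ke_one (h : KuF l K z) (σ : Gm K) : chl l z ((1 : Kˣ) : K) σ = 0 := by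
  have h1 := h.mul 1 1 σ
  rw [one_mul] at h1
  exact left_eq_add.1 h1

private theorem ke_pow (h : KuF l K z) (a : Kˣ) (n : ℕ) (σ : Gm K) :
    chl l z ((a ^ n : Kˣ) : K) σ = n * chl l z (a : K) σ := by
  induction n with
  | zero => rw [pow_zero, ke_one h, Nat.cast_zero, zero_mul]
  | succ n ih => rw [pow_succ, h.mul, ih, Nat.cast_succ, add_mul, one_mul]

private theorem ke_prod (h : KuF l K z) {r : ℕ} (b : Fin r → Kˣ) (s : Finset (Fin r))
    (σ : Gm K) : chl l z ((∏ i ∈ s, b i : Kˣ) : K) σ = ∑ i ∈ s, chl l z (b i : K) σ := by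
  classical
  induction s using Finset.induction_on with
  | empty => rw [Finset.prod_empty, Finset.sum_empty, ke_one h]
  | insert i s hi ih => rw [Finset.prod_insert hi, Finset.sum_insert hi, h.mul, ih]

private theorem ke_hom_one (h : KuF l K z) (a : Kˣ) : chl l z (a : K) 1 = 0 := by
  have h1 := h.hom a 1 1
  rw [one_mul] at h1
  exact left_eq_add.1 h1

/-- the joint character -/
private noncomputable def keR (h : KuF l K z) {r : ℕ} (a : Fin r → Kˣ) :
    Gm K →* Multiplicative (Fin r → ZMod l) where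
  toFun σ := Multiplicative.ofAdd fun i => chl l z (a i : K) σ
  map_one' := by
    rw [← ofAdd_zero]
    congr 1
    funext i
    exact ke_hom_one h (a i)
  map_mul' σ τ := by
    rw [← ofAdd_add]
    congr 1
    funext i
    exact h.hom (a i) σ τ

private theorem ke_mem (h : KuF l K z) {r : ℕ} (a : Fin r → Kˣ) (σ : Gm K) :
    σ ∈ (keR h a).ker ↔ ∀ i, chl l z (a i : K) σ = 0 := by
  rw [MonoidHom.mem_ker]
  constructor
  · intro hh i
    exact congrFun (congrArg Multiplicative.toAdd hh) i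
  · intro hh
    have h1 : (fun i => chl l z (a i : K) σ) = (0 : Fin r → ZMod l) := funext hh
    show Multiplicative.ofAdd (fun i => chl l z (a i : K) σ) = 1
    rw [h1]
    rfl

private theorem ke_open (h : KuF l K z) {r : ℕ} (a : Fin r → Kˣ) :
    IsOpen ((keR h a).ker : Set (Gm K)) := by
  have h1 : ((keR h a).ker : Set (Gm K)) = ⋂ i, (chl l z (a i : K)) ⁻¹' {0} := by
    ext σ
    rw [SetLike.mem_coe, ke_mem, Set.mem_iInter]
    exact Iff.rfl
  rw [h1]
  exact isOpen_iInter_of_finite fun i => h.lc (a i) {0}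

private theorem ke_surj [Fact l.Prime] (h : KuF l K z) {r : ℕ} (a : Fin r → Kˣ)
    (hi : ∀ c : Fin r → ZMod l, ∏ i, a i ^ (c i).val ∈ pw l (⊤ : Subgroup Kˣ) → c = 0) :
    Function.Surjective (keR h a) := by
  classical
  let W : AddSubgroup (Fin r → ZMod l) :=
    { carrier := Set.range fun σ : Gm K => fun i => chl l z (a i : K) σ
      zero_mem' := ⟨1, funext fun i => ke_hom_one h (a i)⟩
      add_mem' := by
        rintro _ _ ⟨σ, rfl⟩ ⟨τ, rfl⟩
        exact ⟨σ * τ, funext fun i => h.hom (a i) σ τ⟩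
      neg_mem' := by
        rintro _ ⟨σ, rfl⟩
        refine ⟨σ⁻¹, funext fun i => ?_⟩
        have h1 := h.hom (a i) σ⁻¹ σ
        rw [inv_mul_cancel, ke_hom_one h] at h1
        exact eq_neg_of_add_eq_zero_left h1.symm }
  let V : Submodule (ZMod l) (Fin r → ZMod l) := AddSubgroup.toZModSubmodule l W
  have hV : ∀ v, v ∈ V ↔ ∃ σ : Gm K, (fun i => chl l z (a i : K) σ) = v := fun v => Iff.rfl
  by_cases ht : V = ⊤
  · intro v
    have h1 : Multiplicative.toAdd v ∈ V := by rw [ht]; exact Submodule.mem_top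
    obtain ⟨σ, hσ⟩ := (hV _).1 h1
    exact ⟨σ, congrArg Multiplicative.ofAdd hσ⟩
  · exfalso
    obtain ⟨f, hf, hle⟩ := Submodule.exists_le_ker_of_lt_top V (lt_top_iff_ne_top.2 ht)
    apply hf
    have hsum : ∀ v : Fin r → ZMod l,
        f v = ∑ i, v i * f (fun j => if i = j then 1 else 0) := by
      intro v
      rw [LinearMap.pi_apply_eq_sum_univ f v]
      rfl
    have h0 := hi (fun i => f (fun j => if i = j then 1 else 0)) ((h.zero _).1 fun σ => by
      rw [ke_prod h]
      have h1 : f (fun i => chl l z (a i : K) σ) = 0 := hle ((hV _).2 ⟨σ, rfl⟩)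
      rw [hsum] at h1
      refine Eq.trans (Finset.sum_congr rfl fun i _ => ?_) h1
      rw [ke_pow h, ZMod.natCast_zmod_val, mul_comm])
    ext v
    simp only [LinearMap.coe_comp, LinearMap.coe_single, Function.comp_apply, LinearMap.zero_apply]
    rw [hsum]
    refine Finset.sum_eq_zero fun i _ => ?_
    rw [congrFun h0 i, Pi.zero_apply, mul_zero]

private theorem ke_gen (hl : l.Prime) (h : KuF l K z) {r : ℕ} (a : Fin r → Kˣ)
    (hi : ∀ c : Fin r → ZMod l, ∏ i, a i ^ (c i).val ∈ pw l (⊤ : Subgroup Kˣ) → c = 0) :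
    ∃ (L : Type) (_ : Field L) (_ : NumberField L) (_ : Algebra K L) (α : Fin r → L),
      Module.finrank K L = l ^ r ∧ ∀ i, α i ^ l = algebraMap K L (a i) := by
  haveI : Fact l.Prime := ⟨hl⟩
  have hU := ke_open h a
  have hroot : ∀ i, ∃ y : Om K, y ^ l = algebraMap K (Om K) (a i) :=
    fun i => IsAlgClosed.exists_pow_nat_eq _ hl.pos
  choose y hy using hroot
  have hmem : ∀ i, y i ∈ fld K (keR h a).ker := by
    intro i
    unfold fld
    rw [IntermediateField.mem_fixedField_iff]
    intro σ hσ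
    have h1 := h.root (a i) (y i) (hy i) σ
    rw [(ke_mem h a σ).1 hσ i, ZMod.val_zero, pow_zero, one_mul] at h1
    exact h1
  refine ⟨fld K (keR h a).ker, inferInstance, fldK_nf _ hU, inferInstance,
    fun i => ⟨y i, hmem i⟩, ?_, ?_⟩
  · rw [fldK_finrank _ hU, Subgroup.index_ker, MonoidHom.range_eq_top.2 (ke_surj h a hi)]
    rw [Nat.card_congr (Subgroup.topEquiv (G := Multiplicative (Fin r → ZMod l))).toEquiv,
      Nat.card_congr Multiplicative.toAdd, Nat.card_eq_fintype_card, Fintype.card_pi]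
    simp only [ZMod.card, Finset.prod_const, Finset.card_univ, Fintype.card_fin]
  · intro i
    apply Subtype.ext
    exact hy i

end

/-- **Row A29**: fields with roots exist. -/
theorem ske (hK : SKu) : SKE := by
  intro l hl K _ _ z hz
  have h := hK l hl K z hz
  haveI : Fact l.Prime := ⟨hl⟩
  refine ⟨fun a ha => ?_, fun a a' hi => ?_⟩
  · obtain ⟨L, i1, i2, i3, α, h1, h2⟩ := ke_gen hl h (fun _ : Fin 1 => a) (by
      intro c hc
      rw [Fin.prod_univ_one] at hc
      by_contra h0
      have hc0 : c 0 ≠ 0 := fun h3 => h0 (funext fun i => by rw [Subsingleton.elim i 0, h3]; rfl)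
      obtain ⟨b, -, hb⟩ := hc
      have hb' : b ^ l = a ^ (c 0).val := hb
      have hv : (c 0).val < l := ZMod.val_lt _
      have hv0 : (c 0).val ≠ 0 := fun h3 => hc0 ((ZMod.val_eq_zero _).1 h3)
      have hcop : Nat.Coprime (c 0).val l := by
        have h7 := Nat.coprime_of_lt_prime hv0 hv hl
        first
          | exact h7
          | exact h7.symm
      apply ha
      have hbz : (1 : ℤ) = (c 0).val * Nat.gcdA (c 0).val l + l * Nat.gcdB (c 0).val l := by
        have h3 := Nat.gcd_eq_gcd_ab (c 0).val l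
        rw [hcop.gcd_eq_one] at h3
        exact_mod_cast h3
      refine ⟨b ^ Nat.gcdA (c 0).val l * a ^ Nat.gcdB (c 0).val l, Subgroup.mem_top _, ?_⟩
      show (b ^ Nat.gcdA (c 0).val l * a ^ Nat.gcdB (c 0).val l) ^ l = a
      have h4 : (b ^ Nat.gcdA (c 0).val l) ^ l = (b ^ l) ^ Nat.gcdA (c 0).val l := by
        rw [← zpow_natCast, ← zpow_natCast, ← zpow_mul, ← zpow_mul, mul_comm]
      rw [mul_pow, h4, hb', ← zpow_natCast, ← zpow_natCast, ← zpow_mul, ← zpow_mul, ← zpow_add]
      have h5 : ((c 0).val : ℤ) * Nat.gcdA (c 0).val l + Nat.gcdB (c 0).val l * (l : ℤ) = 1 := by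
        rw [hbz]
        ring
      rw [h5, zpow_one])
    exact ⟨L, i1, i2, i3, α 0, ⟨by rw [h1, pow_one], h2 0, ha⟩⟩
  · obtain ⟨L, i1, i2, i3, α, h1, h2⟩ := ke_gen hl h ![a, a'] (by
      intro c hc
      rw [Fin.prod_univ_two] at hc
      obtain ⟨h3, h4⟩ := hi (c 0) (c 1) hc
      funext i
      fin_cases i
      · exact h3
      · exact h4)
    exact ⟨L, i1, i2, i3, α 0, α 1, ⟨h1, h2 0, h2 1⟩⟩

end Pool.Agent.H92.EL
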