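import Pool.Agent.H92.EL.AStm
import Pool.Agent.H98.MF.L.KumA

/-!
# Project ELL (MP_a3214d), block A: Kummer theory for homomorphisms on a closed subgroup
-/

set_option autoImplicit false

open scoped BigOperators Pointwise
open NumberField IsDedekindDomain

namespace Pool.Agent.H92.EL

open Pool.Agent.H98.MF (Om Gm lc_unifE)

private theorem kud_pow {l : ℕ} [NeZero l] {F : Type} [Monoid F] {z : F} (hz : z ^ l = 1)
    (c d : ZMod l) : z ^ (c + d).val = z ^ c.val * z ^ d.val := by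
  rw [ZMod.val_add, ← pow_add]
  conv_rhs => rw [← Nat.mod_add_div (c.val + d.val) l, pow_add, pow_mul, hz, one_pow, mul_one]

/-- Kummer theory for closed subgroups -/
theorem skuD : SKuD := by
  intro l hl K _ _ z hz D _ h hc hh
  classical
  have hl0 : NeZero l := ⟨hl.ne_zero⟩
  obtain ⟨E, hE, hN, hE'⟩ := lc_unifE h hc
  let r : Gm K →* (E ≃ₐ[K] E) := AlgEquiv.restrictNormalHom E
  have hr : ∀ (σ : Gm K) (x : E), ((r σ x : E) : Om K) = σ (x : Om K) := fun σ x =>
    AlgEquiv.restrictNormal_commutes σ E x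
  have hker : ∀ σ : Gm K, r σ = 1 → σ ∈ E.fixingSubgroup := by
    intro σ hσ
    rw [IntermediateField.mem_fixingSubgroup_iff]
    intro x hx
    have := hr σ ⟨x, hx⟩
    rw [hσ] at this
    exact this.symm
  have hfin : Finite (E ≃ₐ[K] E) := inferInstance
  have hft : Fintype (D.map r) := Fintype.ofFinite _
  have hlift : ∀ τ : D.map r, ∃ σ : Gm K, σ ∈ D ∧ r σ = τ.1 := by
    rintro ⟨τ, hτ⟩
    obtain ⟨σ, h1, h2⟩ := Subgroup.mem_map.1 hτ
    exact ⟨σ, h1, h2⟩
  choose m hlD hlr using hlift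
  let c : D.map r → ZMod l := fun τ => h (m τ)
  have hcs : ∀ (σ : Gm K) (hσ : σ ∈ D) (τ : D.map r),
      c (⟨r σ, Subgroup.mem_map_of_mem r hσ⟩ * τ) = h σ + c τ := by
    intro σ hσ τ
    set τ' : D.map r := ⟨r σ, Subgroup.mem_map_of_mem r hσ⟩ * τ with hτ'
    have h1 : r ((σ * m τ)⁻¹ * m τ') = 1 := by
      rw [map_mul, map_inv, map_mul, hlr, hlr, hτ']
      exact inv_mul_cancel (r σ * τ.1)
    have h2 := hE' (σ * m τ) _ (hker _ h1)
    rw [mul_inv_cancel_left] at h2
    show h (m τ') = h σ + h (m τ)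
    rw [h2, hh σ hσ _ (hlD τ)]
  -- independence of characters
  have hind : LinearIndependent E (fun τ : D.map r => ((τ.1 : E →* E) : E → E)) := by
    have h1 := linearIndependent_monoidHom E E
    refine h1.comp (fun τ : D.map r => (τ.1 : E →* E)) ?_
    intro τ τ' heq
    apply Subtype.ext
    apply AlgEquiv.ext
    intro x
    exact DFunLike.congr_fun heq x
  set w : E := algebraMap K E z with hw
  have hw1 : w ^ l = 1 := by
    rw [hw, ← map_pow, hz.pow_eq_one, map_one]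
  have hw0 : w ≠ 0 := by
    intro h0
    rw [h0, zero_pow hl.ne_zero] at hw1
    exact zero_ne_one hw1
  obtain ⟨θ, hθ⟩ : ∃ θ : E, ∑ τ : D.map r, w ^ (-(c τ)).val * (τ.1 θ) ≠ 0 := by
    by_contra hcon
    push Not at hcon
    have h1 := (Fintype.linearIndependent_iff.1 hind) (fun τ => w ^ (-(c τ)).val) (by
      funext θ
      simp only [Finset.sum_apply, Pi.smul_apply, smul_eq_mul, Pi.zero_apply]
      exact hcon θ)
    exact pow_ne_zero _ hw0 (h1 1)
  set s : E := ∑ τ : D.map r, w ^ (-(c τ)).val * (τ.1 θ) with hs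
  have hact : ∀ σ ∈ D, r σ s = w ^ (h σ).val * s := by
    intro σ hσ
    rw [hs, map_sum, Finset.mul_sum]
    refine Fintype.sum_equiv (Equiv.mulLeft (⟨r σ, Subgroup.mem_map_of_mem r hσ⟩ : D.map r)) _ _ ?_
    intro τ
    rw [Equiv.coe_mulLeft, hcs σ hσ τ, map_mul, map_pow]
    have h1 : r σ w = w := (r σ).commutes z
    rw [h1]
    show w ^ (-(c τ)).val * (r σ) (τ.1 θ) =
      w ^ (h σ).val * (w ^ (-(h σ + c τ)).val * (r σ * τ.1) θ)
    rw [AlgEquiv.mul_apply, ← mul_assoc, ← kud_pow hw1]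
    congr 3
    ring
  refine ⟨(s : Om K), fun h0 => hθ (by exact_mod_cast h0), fun σ hσ => ?_⟩
  rw [← hr σ s, hact σ hσ, hw]
  rfl

end Pool.Agent.H92.EL
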