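import Pool.Agent.H92.EL.AStm

/-!
# Project ELL (MP_a3214d), block A: a bilinear map with lines as values
-/

set_option autoImplicit false

namespace Pool.Agent.H92.EL

section

variable {l : ℕ} [Fact l.Prime] {G H : Type} [CommGroup G] [AddCommGroup H] [Module (ZMod l) H]
  {c : G → G → H}

omit [Module (ZMod l) H] in
theorem ln_zpow (h2 : ∀ a b d, c a (b * d) = c a b + c a d) (a b : G) (n : ℤ) :
    c a (b ^ n) = n • c a b := by
  let f : G →* Multiplicative H :=
    MonoidHom.mk' (fun x => Multiplicative.ofAdd (c a x)) (fun x y => by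
      rw [h2]
      rfl)
  have h3 : f (b ^ n) = f b ^ n := map_zpow f b n
  exact h3

theorem ln_line (h2 : ∀ a b d, c a (b * d) = c a b + c a d)
    (hN : ∀ a, (∀ b, c a b = 0) ∨ ∃ N : Subgroup G, (∀ b, b ∈ N ↔ c a b = 0) ∧ N.index = l)
    {a b : G} (h : c a b ≠ 0) (x : G) : ∃ t : ZMod l, c a x = t • c a b := by
  rcases hN a with h3 | ⟨N, hN1, hN2⟩
  · exact absurd (h3 b) h
  · have h4 : Nat.card (G ⧸ N) = l := hN2
    have h5 : ((b : G) : G ⧸ N) ≠ 1 := by
      rw [Ne, QuotientGroup.eq_one_iff, hN1]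
      exact h
    obtain ⟨n, hn⟩ := mem_zpowers_of_prime_card (g' := ((x : G) : G ⧸ N)) h4 h5
    have h6 : ((b ^ n : G) : G ⧸ N) = ((x : G) : G ⧸ N) := hn
    have h7 : (b ^ n)⁻¹ * x ∈ N := QuotientGroup.eq.1 h6
    refine ⟨((n : ℤ) : ZMod l), ?_⟩
    have h8 : x = b ^ n * ((b ^ n)⁻¹ * x) := by group
    rw [h8, h2, (hN1 _).1 h7, add_zero, ln_zpow h2]
    exact (Int.cast_smul_eq_zsmul (ZMod l) n (c a b)).symm

omit [Module (ZMod l) H] in
theorem ln_alt (h1 : ∀ a b d, c (a * b) d = c a d + c b d)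
    (h2 : ∀ a b d, c a (b * d) = c a b + c a d) (h0 : ∀ a, c a a = 0) (a b : G) :
    c a b = - c b a := by
  have h3 := h0 (a * b)
  rw [h1, h2, h2, h0, h0, zero_add, add_zero] at h3
  exact eq_neg_of_add_eq_zero_left h3

end

theorem sln : SLn := by
  intro l hl G H _ _ _ c h1 h2 h0 _ hN
  by_cases hz : ∀ a b, c a b = 0
  · refine ⟨fun _ _ => 0, 0, ?_, ?_, ?_, ?_, ?_⟩
    · intro a b
      rw [hz a b, smul_zero]
    · intro a b d
      exact (add_zero _).symm
    · intro a b d
      exact (add_zero _).symm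
    · intro t _
      exact Or.inr hz
    · intro _ a b
      rfl
  · push Not at hz
    obtain ⟨a0, b0, he⟩ := hz
    have key : ∀ a b, ∃ t : ZMod l, c a b = t • c a0 b0 := by
      intro a b
      by_cases hab : c a b = 0
      · exact ⟨0, by rw [hab, zero_smul]⟩
      · have hd : ∃ d, c a d ≠ 0 ∧ c a0 d ≠ 0 := by
          by_cases e1 : c a0 b = 0
          · by_cases e2 : c a b0 = 0
            · refine ⟨b * b0, ?_, ?_⟩
              · rw [h2, e2, add_zero]
                exact hab
              · rw [h2, e1, zero_add]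
                exact he
            · exact ⟨b0, e2, he⟩
          · exact ⟨b, hab, e1⟩
        obtain ⟨d, hd1, hd2⟩ := hd
        obtain ⟨t1, e1⟩ := ln_line h2 hN hd1 b
        have hd3 : c d a0 ≠ 0 := by
          rw [ln_alt h1 h2 h0 d a0]
          exact neg_ne_zero.2 hd2
        obtain ⟨t2, e2⟩ := ln_line h2 hN hd3 a
        obtain ⟨t3, e3⟩ := ln_line h2 hN he d
        refine ⟨t1 * t2 * t3, ?_⟩
        rw [e1, ln_alt h1 h2 h0 a d, e2, ln_alt h1 h2 h0 d a0, smul_neg, smul_neg, smul_neg,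
          neg_neg, e3, smul_smul, smul_smul]
    have h3 : ∀ t : ZMod l, t • c a0 b0 = 0 → t = 0 := by
      intro t ht
      rcases smul_eq_zero.1 ht with h | h
      · exact h
      · exact absurd h he
    have h4 : ∀ t u : ZMod l, t • c a0 b0 = u • c a0 b0 → t = u := by
      intro t u htu
      have h5 := h3 (t - u) (by rw [sub_smul, htu, sub_self])
      exact sub_eq_zero.1 h5
    choose B hB using key
    refine ⟨B, c a0 b0, hB, ?_, ?_, ?_, ?_⟩
    · intro a b d
      apply h4
      rw [add_smul, ← hB, ← hB, ← hB, h1]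
    · intro a b d
      apply h4
      rw [add_smul, ← hB, ← hB, ← hB, h2]
    · intro t ht
      exact Or.inl (h3 t ht)
    · intro hall
      exact absurd (hall a0 b0) he

end Pool.Agent.H92.EL
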