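import Pool.Agent.H92.EL.AStm
import Pool.Agent.H98.MF.L.Ord
import Pool.Agent.H98.MF.C.Bas

/-!
# Project ELL (MP_a3214d), A20: local symbols modulo `l` exist
-/

set_option autoImplicit false

open scoped BigOperators Pointwise
open NumberField IsDedekindDomain

namespace Pool.Agent.H92.EL

open Pool.Agent.H98.MF (Om Gm ord Dec US PrS SUn mS nrm gen FixD)

section

variable {l : ℕ} {K : Type} [Field K] [NumberField K]

/-- the functions on `D × D` that are coboundaries -/
private def lsN (l : ℕ) {K : Type} [Field K] [NumberField K] (D : Subgroup (Gm K)) :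
    Submodule (ZMod l) (Gm K → Gm K → ZMod l) where
  carrier := {F | ∃ f : Gm K → ZMod l, IsLocallyConstant f ∧ ∀ σ ∈ D, ∀ τ ∈ D,
    f (σ * τ) = f σ + f τ + F σ τ}
  add_mem' := by
    rintro F G ⟨f, hf, h⟩ ⟨g, hg, h'⟩
    refine ⟨f + g, hf.add hg, fun σ hσ τ hτ => ?_⟩
    rw [Pi.add_apply, Pi.add_apply, Pi.add_apply, Pi.add_apply, Pi.add_apply,
      h σ hσ τ hτ, h' σ hσ τ hτ]
    ring
  zero_mem' := by
    refine ⟨0, IsLocallyConstant.const _, fun σ _ τ _ => ?_⟩
    simp
  smul_mem' := by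
    rintro t F ⟨f, hf, h⟩
    refine ⟨fun σ => t * f σ, hf.comp (fun x => t * x), fun σ hσ τ hτ => ?_⟩
    rw [Pi.smul_apply, Pi.smul_apply, smul_eq_mul]
    simp only [h σ hσ τ hτ]
    ring

/-- the cup product -/
private noncomputable def lsF (l : ℕ) {K : Type} [Field K] [NumberField K] (z : K) (a b : Kˣ) :
    Gm K → Gm K → ZMod l :=
  fun σ τ => chl l z (a : K) σ * chl l z (b : K) τ

/-- its class -/
private noncomputable def lsC (l : ℕ) {K : Type} [Field K] [NumberField K] (z : K)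
    (D : Subgroup (Gm K)) (a b : Kˣ) : (Gm K → Gm K → ZMod l) ⧸ lsN l D :=
  (lsN l D).mkQ (lsF l z a b)

private theorem lsC_zero {z : K} {D : Subgroup (Gm K)} {a b : Kˣ} :
    lsC l z D a b = 0 ↔ CbL l z D (a : K) (b : K) := by
  unfold lsC
  rw [Submodule.mkQ_apply, Submodule.Quotient.mk_eq_zero]
  exact Iff.rfl

private theorem lsC_tr {z : K} {D : Subgroup (Gm K)} {r : ℕ} {a b : Fin r → Kˣ} :
    ∑ i, lsC l z D (a i) (b i) = 0 ↔
      TrL l z D (fun i => (a i : K)) (fun i => (b i : K)) := by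
  have h : ∑ i, lsC l z D (a i) (b i) = (lsN l D).mkQ (∑ i, lsF l z (a i) (b i)) := by
    rw [map_sum]
    rfl
  rw [h, Submodule.mkQ_apply, Submodule.Quotient.mk_eq_zero]
  have h2 : ∀ σ τ, (∑ i, lsF l z (a i) (b i)) σ τ =
      ∑ i, chl l z (a i : K) σ * chl l z (b i : K) τ := by
    intro σ τ
    rw [Finset.sum_apply, Finset.sum_apply]
    rfl
  constructor
  · rintro ⟨f, hf, h3⟩
    exact ⟨f, hf, fun σ hσ τ hτ => by rw [h3 σ hσ τ hτ, h2]⟩
  · rintro ⟨f, hf, h3⟩
    exact ⟨f, hf, fun σ hσ τ hτ => by rw [h3 σ hσ τ hτ, h2]⟩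

variable [Fact l.Prime]

/-- the symbol at one place -/
private theorem ls_loc (hl2 : l ≠ 2) {z : K} (hz : IsPrimitiveRoot z l)
    (hK : SKu) (h1 : SOne) (hL : SLg) (hU : SUU) (hI : SIn) (hN : SNG)
    (hl : SLn) (P : HeightOneSpectrum (𝓞 K)) :
    ∃ (B : Kˣ → Kˣ → ZMod l) (c : ZMod l), c ≠ 0 ∧
      (∀ a b d, B (a * b) d = B a d + B b d) ∧ (∀ a b d, B a (b * d) = B a b + B a d) ∧
      (∀ a, B a a = 0) ∧ (∀ a : Kˣ, (∀ b, B a b = 0) ↔ LocW l P (a : K)) ∧
      (∀ a b : Kˣ, b ∈ NGL l a → B a b = 0) ∧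
      (∀ a b : Kˣ, ord P (l : K) = 0 → ord P (a : K) = 0 →
        B a b = c * ((ord P (b : K) : ZMod l) * lgs l z P (a : K))) ∧
      ∀ {r : ℕ} (a b : Fin r → Kˣ),
        TrL l z (Dec P) (fun i => (a i : K)) (fun i => (b i : K)) ↔
          ∑ i, B (a i) (b i) = 0 := by
  have hlp : l.Prime := Fact.out
  have hl3 : 2 < l := lt_of_le_of_ne hlp.two_le (Ne.symm hl2)
  have hKu := hK l hlp K z hz
  have hOne := (h1 l hlp K z hz P).1
  have two_ne : (2 : ZMod l) ≠ 0 := by
    intro h
    have h' : ((2 : ℕ) : ZMod l) = 0 := by exact_mod_cast h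
    rw [ZMod.natCast_eq_zero_iff] at h'
    exact absurd (Nat.le_of_dvd (by norm_num) h') (by omega)
  -- local powers pair to zero
  have hzero : ∀ a : Kˣ, LocW l P (a : K) → ∀ b : Kˣ, lsC l z (Dec P) a b = 0 := by
    intro a ha b
    rw [lsC_zero]
    refine ⟨0, IsLocallyConstant.const _, fun σ hσ τ _ => ?_⟩
    rw [(hOne a).2 ha σ hσ]
    simp
  obtain ⟨B, e, hB, hBl, hBr, he, hB0⟩ := hl l Kˣ _ (lsC l z (Dec P))
    (by
      intro a b d
      unfold lsC
      rw [← map_add]
      congr 1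
      funext σ τ
      rw [Pi.add_apply, Pi.add_apply]
      unfold lsF
      rw [hKu.mul]
      ring)
    (by
      intro a b d
      unfold lsC
      rw [← map_add]
      congr 1
      funext σ τ
      rw [Pi.add_apply, Pi.add_apply]
      unfold lsF
      rw [hKu.mul]
      ring)
    (by
      intro a
      rw [lsC_zero]
      refine ⟨fun σ => (chl l z (a : K) σ) ^ 2 / 2, (hKu.lc a).comp (fun x => x ^ 2 / 2),
        fun σ _ τ _ => ?_⟩
      simp only [hKu.hom]
      field_simp
      ring)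
    hl3
    (by
      intro a
      by_cases ha : LocW l P (a : K)
      · exact Or.inl (hzero a ha)
      · right
        obtain ⟨H, hH, hHi⟩ := hI l hlp hl2 K z hz P a ha
        exact ⟨H, fun b => by rw [hH, lsC_zero], hHi⟩)
  have hiff : ∀ a b, B a b = 0 ↔ lsC l z (Dec P) a b = 0 := by
    intro a b
    constructor
    · intro h
      rw [hB, h, zero_smul]
    · intro h
      rw [hB] at h
      rcases he _ h with h | h
      · exact h
      · exact hB0 h a b
  have hnd : ∀ a : Kˣ, (∀ b, B a b = 0) ↔ LocW l P (a : K) := by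
    intro a
    constructor
    · intro h
      by_contra ha
      obtain ⟨H, hH, hHi⟩ := hI l hlp hl2 K z hz P a ha
      have hT : H = ⊤ := by
        rw [Subgroup.eq_top_iff']
        intro b
        rw [hH, ← lsC_zero]
        exact (hiff a b).1 (h b)
      rw [hT, Subgroup.index_top] at hHi
      exact hlp.one_lt.ne hHi
    · intro ha b
      exact (hiff a b).2 (hzero a ha b)
  -- integral powers
  let φ : Kˣ → Kˣ →* Multiplicative (ZMod l) := fun a =>
    { toFun := fun b => Multiplicative.ofAdd (B a b)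
      map_one' := by
        have h := hBr a 1 1
        rw [mul_one] at h
        have h' : B a 1 = 0 := by
          have h2 : B a 1 + 0 = B a 1 + B a 1 := by rw [add_zero]; exact h
          exact (add_left_cancel h2).symm
        rw [h']
        rfl
      map_mul' := fun b d => by rw [hBr]; rfl }
  have hzp : ∀ (a b : Kˣ) (m : ℤ), B a (b ^ m) = (m : ZMod l) * B a b := by
    intro a b m
    have h := map_zpow (φ a) b m
    have h2 := congrArg Multiplicative.toAdd h
    rw [toAdd_zpow] at h2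
    change B a (b ^ m) = m • B a b at h2
    rw [h2, zsmul_eq_mul]
  have hpw : ∀ (a b : Kˣ) (n : ℕ), B (a ^ n) b = (n : ZMod l) * B a b := by
    intro a b n
    induction n with
    | zero =>
      have h := hBl 1 1 b
      rw [mul_one] at h
      rw [pow_zero, Nat.cast_zero, zero_mul]
      have h2 : B 1 b + 0 = B 1 b + B 1 b := by rw [add_zero]; exact h
      exact (add_left_cancel h2).symm
    | succ n ih =>
      rw [pow_succ, hBl, ih]
      push_cast
      ring
  have htr : ∀ {r : ℕ} (a b : Fin r → Kˣ),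
      TrL l z (Dec P) (fun i => (a i : K)) (fun i => (b i : K)) ↔
        ∑ i, B (a i) (b i) = 0 := by
    intro r a b
    rw [← lsC_tr]
    have h2 : ∑ i, lsC l z (Dec P) (a i) (b i) = (∑ i, B (a i) (b i)) • e := by
      rw [Finset.sum_smul]
      exact Finset.sum_congr rfl fun i _ => hB _ _
    rw [h2]
    constructor
    · intro h
      rcases he _ h with h | h
      · exact h
      · exact Finset.sum_eq_zero fun i _ => hB0 h _ _
    · intro h
      rw [h, zero_smul]
  have hnm : ∀ a b : Kˣ, b ∈ NGL l a → B a b = 0 := by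
    intro a b hb
    rw [hiff, lsC_zero]
    obtain ⟨f, hf, h⟩ := (hN l hlp hl2 K z hz a b).1 hb
    exact ⟨f, hf, fun σ _ τ _ => h σ (Subgroup.mem_top σ) τ (Subgroup.mem_top τ)⟩
  have halt : ∀ a, B a a = 0 := by
    intro a
    rw [hiff, lsC_zero]
    refine ⟨fun σ => (chl l z (a : K) σ) ^ 2 / 2, (hKu.lc a).comp (fun x => x ^ 2 / 2),
      fun σ _ τ _ => ?_⟩
    simp only [hKu.hom]
    field_simp
    ring
  by_cases hP : ord P (l : K) = 0
  · -- a uniformizer
    obtain ⟨π0, hπ0⟩ := Pool.Agent.H98.MF.exists_unif P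
    have hπne : (π0 : K) ≠ 0 := by
      intro h
      rw [h, Pool.Agent.H98.MF.ord_zero] at hπ0
      exact zero_ne_one hπ0
    let π : Kˣ := Units.mk0 (π0 : K) hπne
    have hπ : ord P (π : K) = 1 := hπ0
    obtain ⟨-, hadd, hlw, u, hu0, hu1⟩ := hL l hlp K z hz P hP
    have hUU := hU l hlp hl2 K z hz P hP
    have hdec : ∀ b : Kˣ, ∃ v : Kˣ, ord P (v : K) = 0 ∧ b = π ^ (ord P (b : K)) * v := by
      intro b
      refine ⟨(π ^ (ord P (b : K)))⁻¹ * b, ?_, by rw [mul_inv_cancel_left]⟩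
      rw [Units.val_mul, Units.val_inv_eq_inv_val, Units.val_zpow_eq_zpow_val,
        Pool.Agent.H98.MF.ord_mul P (inv_ne_zero (zpow_ne_zero _ π.ne_zero)) b.ne_zero,
        Pool.Agent.H98.MF.ord_inv, Pool.Agent.H98.MF.B.ord_zpow, hπ]
      ring
    have hval : ∀ a b : Kˣ, ord P (a : K) = 0 →
        B a b = (ord P (b : K) : ZMod l) * B a π := by
      intro a b ha
      obtain ⟨v, hv, hb⟩ := hdec b
      have h0 : B a v = 0 := by
        rw [hiff, lsC_zero]
        exact hUU a v ha hv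
      conv_lhs => rw [hb]
      rw [hBr, hzp, h0, add_zero]
    have hc : B u π ≠ 0 := by
      intro h
      have h3 : LocW l P (u : K) := by
        rw [← hnd]
        intro b
        rw [hval u b hu0, h, mul_zero]
      rw [← hlw u hu0, hu1] at h3
      exact one_ne_zero h3
    refine ⟨B, B u π, hc, hBl, hBr, halt, hnd, hnm, ?_, htr⟩
    intro a b _ ha
    set i := lgs l z P (a : K) with hi
    have hupow : ∀ n : ℕ, ord P ((u ^ n : Kˣ) : K) = 0 ∧
        lgs l z P ((u ^ n : Kˣ) : K) = n := by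
      intro n
      induction n with
      | zero =>
        have h1 : ord P ((u ^ 0 : Kˣ) : K) = 0 := by
          rw [pow_zero, Units.val_one, Pool.Agent.H98.MF.ord_one]
        refine ⟨h1, ?_⟩
        have h2 := hadd (u ^ 0) (u ^ 0) h1 h1
        have h3 : (u ^ 0 * u ^ 0 : Kˣ) = u ^ 0 := by simp
        rw [h3] at h2
        have h4 : lgs l z P ((u ^ 0 : Kˣ) : K) + 0 =
            lgs l z P ((u ^ 0 : Kˣ) : K) + lgs l z P ((u ^ 0 : Kˣ) : K) := by
          rw [add_zero]; exact h2
        rw [Nat.cast_zero]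
        exact (add_left_cancel h4).symm
      | succ n ih =>
        have h1 : ord P ((u ^ (n + 1) : Kˣ) : K) = 0 := by
          rw [pow_succ, Units.val_mul,
            Pool.Agent.H98.MF.ord_mul P (Units.ne_zero _) u.ne_zero, ih.1, hu0, add_zero]
        refine ⟨h1, ?_⟩
        rw [pow_succ, hadd _ _ ih.1 hu0, ih.2, hu1]
        push_cast
        rfl
    have hw0 : ord P (((u ^ i.val)⁻¹ * a : Kˣ) : K) = 0 := by
      rw [Units.val_mul, Units.val_inv_eq_inv_val,
        Pool.Agent.H98.MF.ord_mul P (inv_ne_zero (Units.ne_zero _)) a.ne_zero,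
        Pool.Agent.H98.MF.ord_inv, (hupow i.val).1, ha]
      rfl
    have hw1 : lgs l z P (((u ^ i.val)⁻¹ * a : Kˣ) : K) = 0 := by
      have h2 := hadd (u ^ i.val) ((u ^ i.val)⁻¹ * a) (hupow i.val).1 hw0
      rw [mul_inv_cancel_left, (hupow i.val).2, ZMod.natCast_zmod_val, ← hi] at h2
      have h4 : i + 0 = i + lgs l z P (((u ^ i.val)⁻¹ * a : Kˣ) : K) := by
        rw [add_zero]; exact h2
      exact (add_left_cancel h4).symm
    have hw2 : LocW l P (((u ^ i.val)⁻¹ * a : Kˣ) : K) := (hlw _ hw0).1 hw1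
    have hw3 := (hnd ((u ^ i.val)⁻¹ * a)).2 hw2 b
    have h5 : B a b = B (u ^ i.val) b + B ((u ^ i.val)⁻¹ * a) b := by
      rw [← hBl, mul_inv_cancel_left]
    rw [h5, hw3, add_zero, hpw, ZMod.natCast_zmod_val, hval u b hu0]
    ring
  · exact ⟨B, 1, one_ne_zero, hBl, hBr, halt, hnd, hnm, fun _ _ h => absurd h hP, htr⟩

end

theorem sls (hK : SKu) (_hM : SMem) (h1 : SOne) (_hT : STwo) (hL : SLg) (hU : SUU) (hI : SIn)
    (hN : SNG) (hl : SLn) : SLs := by
  intro l hlp hl2 K _ _ z hz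
  have : Fact l.Prime := ⟨hlp⟩
  choose B c hc hBl hBr halt hnd hnm hun htr using
    fun P : HeightOneSpectrum (𝓞 K) => ls_loc hl2 hz hK h1 hL hU hI hN hl P
  exact ⟨{
    hs := B
    cc := c
    cc_ne := hc
    mulL := hBl
    mulR := hBr
    alt := halt
    nd := hnd
    nm := hnm
    unit := hun
    triv := fun P _ a b => htr P a b }⟩

end Pool.Agent.H92.EL
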