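import Pool.Agent.H92.EL.AStm
import Pool.Agent.H92.EL.N2x
import Pool.Agent.H98.MF.NIdf
import Pool.Agent.H98.MF.NCntS
import Pool.Agent.H98.MF.C.Bas

/-!
# Project ELL (MP_a3214d), row A33: the logarithm of the `L`-series of a character
-/

set_option autoImplicit false

open scoped BigOperators Pointwise nonZeroDivisors
open NumberField IsDedekindDomain

namespace Pool.Agent.H92.EL

open Pool.Agent.H98.MF

section

variable {K : Type} [Field K] [NumberField K]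

theorem n2_sum_idl (S : Finset (HeightOneSpectrum (𝓞 K))) (G : Ideal (𝓞 K) → ℂ)
    (hG : ∀ I : Ideal (𝓞 K), I ≠ ⊥ → (¬ ∀ Q ∈ S, ¬ I ≤ Q.asIdeal) → G I = 0) (X : ℝ) :
    ∑ f ∈ (preK S).idl X, G (idf S f) =
      ∑ᶠ I ∈ {I : Ideal (𝓞 K) | I ≠ ⊥ ∧ (Ideal.absNorm I : ℝ) ≤ X}, G I := by
  classical
  have h1 : ∑ f ∈ (preK S).idl X, G (idf S f) =
      ∑ᶠ I ∈ {I ∈ IdLe K X | ∀ Q ∈ S, ¬ I ≤ Q.asIdeal}, G I := by
    rw [← finsum_mem_coe_finset]
    refine finsum_mem_eq_of_bijOn (idf S) ⟨?_, ?_, ?_⟩ fun f _ => rfl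
    · intro f hf
      have hf' := (preK S).mem_idl.1 (Finset.mem_coe.1 hf)
      refine ⟨⟨idf_ne_bot S f, ?_⟩, (idf_surj S _ (idf_ne_bot S f)).1 ⟨f, rfl⟩⟩
      rw [absNorm_idf]
      exact hf'
    · exact (idf_injective S).injOn
    · rintro I ⟨⟨hI, hX⟩, hS⟩
      obtain ⟨f, rfl⟩ := (idf_surj S I hI).2 hS
      refine ⟨f, ?_, rfl⟩
      rw [Finset.mem_coe, Pre.mem_idl, ← absNorm_idf]
      exact hX
  rw [h1]
  refine finsum_congr fun I => ?_
  by_cases h3 : I ∈ IdLe K X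
  · have h4 : I ∈ {I : Ideal (𝓞 K) | I ≠ ⊥ ∧ (Ideal.absNorm I : ℝ) ≤ X} := h3
    by_cases h2 : ∀ Q ∈ S, ¬ I ≤ Q.asIdeal
    · rw [finsum_eq_if, finsum_eq_if, if_pos h4, if_pos ⟨h3, h2⟩]
    · rw [finsum_eq_if, finsum_eq_if, if_pos h4, if_neg fun h5 => h2 h5.2, hG I h3.1 h2]
  · have h4 : I ∉ {I : Ideal (𝓞 K) | I ≠ ⊥ ∧ (Ideal.absNorm I : ℝ) ≤ X} := h3
    rw [finsum_eq_if, finsum_eq_if, if_neg h4, if_neg fun h5 => h3 h5.1]

theorem n2_vl_mul {l : ℕ} {G : Type} [Group G] (ψ : G →* Multiplicative (ZMod l)) (a b : G) :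
    vl l ψ (a * b) = vl l ψ a + vl l ψ b := by
  unfold vl
  rw [map_mul, toAdd_mul]

theorem n2_vl_unit {l : ℕ} {S : Finset (HeightOneSpectrum (𝓞 K))}
    {ψ : Kˣ →* Multiplicative (ZMod l)} (hψ : FnL l S ψ) {a b : Kˣ}
    (h : ∀ Q : HeightOneSpectrum (𝓞 K), Q ∉ S → ord Q (a : K) = ord Q (b : K)) :
    vl l ψ a = vl l ψ b := by
  have h1 : a * b⁻¹ ∈ US S := by
    refine B.mem_US.2 fun Q hQ => ?_
    rw [Units.val_mul, B.ord_mul Q a.ne_zero (Units.ne_zero _), Units.val_inv_eq_inv_val,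
      B.ord_inv, h Q hQ, add_neg_cancel]
  have h2 : a = (a * b⁻¹) * b := by rw [inv_mul_cancel_right]
  rw [h2, n2_vl_mul]
  unfold vl
  rw [hψ.unit _ h1, toAdd_one, zero_add]

/-- the element with the exponents `f` -/
noncomputable def n2_el (S : Finset (HeightOneSpectrum (𝓞 K))) (f : (preK S).P →₀ ℕ) : Kˣ :=
  ∏ Q ∈ f.support, gen S Q.1 ^ f Q

theorem n2_gen {S : Finset (HeightOneSpectrum (𝓞 K))} (hS : PrS S)
    (P Q : (preK S).P) : ord P.1 (gen S Q.1 : K) = if P = Q then 1 else 0 := by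
  obtain ⟨h1, h2⟩ := B.gen_spec hS Q.2
  split_ifs with h
  · rw [h]
    exact h1
  · exact h2 P.1 P.2 fun h3 => h (Subtype.ext h3)

theorem n2_ord_el {S : Finset (HeightOneSpectrum (𝓞 K))} (hS : PrS S) (f : (preK S).P →₀ ℕ)
    (P : (preK S).P) : ord P.1 (n2_el S f : K) = f P := by
  classical
  unfold n2_el
  rw [B.ord_prod]
  have h1 : ∀ Q ∈ f.support, ord P.1 ((gen S Q.1 ^ f Q : Kˣ) : K) =
      if P = Q then (f P : ℤ) else 0 := by
    intro Q _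
    rw [Units.val_pow_eq_pow_val, B.ord_pow, n2_gen hS]
    split_ifs with h
    · rw [h, mul_one]
    · rw [mul_zero]
  rw [Finset.sum_congr rfl h1, Finset.sum_ite_eq]
  split_ifs with h
  · rfl
  · rw [Finsupp.notMem_support_iff.1 h]
    rfl

theorem n2_count (S : Finset (HeightOneSpectrum (𝓞 K))) (f : (preK S).P →₀ ℕ)
    (P : (preK S).P) : ((Associates.mk P.1.asIdeal).count (Associates.mk (idf S f)).factors : ℤ) =
      f P := by
  classical
  have h1 := NIdfA.cn_idf S f P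
  unfold NIdfA.cn at h1
  rw [FractionalIdeal.count_coe K P.1 (idf_ne_bot S f)] at h1
  exact h1

theorem n2_char_sum {ι A : Type*} [AddCommMonoid A] (χ : AddChar A ℂ) (s : Finset ι) (f : ι → A) :
    χ (∑ i ∈ s, f i) = ∏ i ∈ s, χ (f i) := by
  classical
  induction s using Finset.induction_on with
  | empty => simp
  | insert a s ha ih => rw [Finset.sum_insert ha, Finset.prod_insert ha, AddChar.map_add_eq_mul, ih]

theorem n2_chI (l : ℕ) [NeZero l] {S : Finset (HeightOneSpectrum (𝓞 K))} (hS : PrS S)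
    {ψ : Kˣ →* Multiplicative (ZMod l)} (hψ : FnL l S ψ) (f : (preK S).P →₀ ℕ) :
    chI l S ψ (idf S f) =
      f.prod fun Q n => (ZMod.stdAddChar (vl l ψ (gen S Q.1)) : ℂ) ^ n := by
  classical
  have h1 : ∀ P ∈ S, ¬ idf S f ≤ P.asIdeal := (idf_surj S _ (idf_ne_bot S f)).1 ⟨f, rfl⟩
  have hex : ∃ x : Kˣ, ∀ Q : HeightOneSpectrum (𝓞 K), Q ∉ S →
      ord Q (x : K) = ((Associates.mk Q.asIdeal).count (Associates.mk (idf S f)).factors : ℤ) :=
    ⟨n2_el S f, fun Q hQ => (n2_ord_el hS f ⟨Q, hQ⟩).trans (n2_count S f ⟨Q, hQ⟩).symm⟩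
  have h2 : vl l ψ (xI S (idf S f)) = vl l ψ (n2_el S f) := by
    refine n2_vl_unit hψ fun Q hQ => ?_
    unfold xI
    rw [dif_pos hex, hex.choose_spec Q hQ]
    exact (n2_count S f ⟨Q, hQ⟩).trans (n2_ord_el hS f ⟨Q, hQ⟩).symm
  have h3 : vl l ψ (n2_el S f) = ∑ Q ∈ f.support, (f Q) • vl l ψ (gen S Q.1) := by
    unfold vl n2_el
    rw [map_prod, toAdd_prod]
    refine Finset.sum_congr rfl fun Q _ => ?_
    rw [map_pow, toAdd_pow]
  unfold chI
  rw [if_pos h1, h2, h3, n2_char_sum]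
  unfold Finsupp.prod
  refine Finset.prod_congr rfl fun Q _ => ?_
  rw [AddChar.map_nsmul_eq_pow]

end

theorem sn2 (h : SN2a) : SN2 := by
  intro l _ K _ _ S hS ψ hψ hne
  classical
  have : NeZero l := ⟨(Fact.out : l.Prime).ne_zero⟩
  obtain ⟨C, δ, hδ, hb⟩ := h l K S hS ψ hψ hne
  obtain ⟨κ, hκ, C', hC', hcnt⟩ := cnt_S S
  have hd1 : (1 : ℝ) ≤ Module.finrank ℚ K := by exact_mod_cast Module.finrank_pos
  have hC0 : ∀ X : ℝ, 1 ≤ X → (((preK S).idl X).card : ℝ) ≤ (κ + C') * X := by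
    intro X hX
    have h1 := (abs_le.1 (hcnt X hX)).2
    have h0 : 0 ≤ 1 / (Module.finrank ℚ K : ℝ) := by positivity
    have h2 : X ^ (1 - 1 / (Module.finrank ℚ K : ℝ)) ≤ X := by
      have h3 : X ^ (1 - 1 / (Module.finrank ℚ K : ℝ)) ≤ X ^ (1 : ℝ) :=
        Real.rpow_le_rpow_of_exponent_le hX (by linarith)
      rwa [Real.rpow_one] at h3
    have h4 := mul_le_mul_of_nonneg_left h2 hC'
    linarith
  obtain ⟨Lf, g, h1, h2, h3⟩ := n2x_main (preK S) (κ + C') hC0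
    (fun Q => (ZMod.stdAddChar (vl l ψ (gen S Q.1)) : ℂ))
    (fun Q => le_of_eq (AddChar.norm_apply _ _)) C δ hδ (fun X hX => by
      have h4 := hb X hX
      rw [← n2_sum_idl S (chI l S ψ) (fun I _ hI => by
        unfold chI
        rw [if_neg hI]) X] at h4
      simp only [n2_chI l hS.prS hψ] at h4
      exact h4)
  exact ⟨Lf, g, h1, h2, fun s hs hs2 => h3 s hs hs2⟩

end Pool.Agent.H92.EL
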