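import Pool.Agent.H92.EL.N2aA
import Pool.Agent.H98.MF.NMain
import Pool.Agent.H98.MF.NFin

/-!
# Project ELL (MP_a3214d), block A, A32: character sums over ideals
-/

set_option autoImplicit false

open scoped BigOperators Pointwise NNReal nonZeroDivisors
open NumberField IsDedekindDomain

namespace Pool.Agent.H92.EL

open Pool.Agent.H98.MF (ord US PrS gen le_ord_iff_valuation PER cof sgnN CoP Reps reps_exist
  ord_quot IdLe finite_IdLe main_count)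

variable {K : Type} [Field K] [NumberField K]

/-! ### periodicity -/

/-- the modulus -/
noncomputable def n2a_M (l : ℕ) (S : Finset (HeightOneSpectrum (𝓞 K))) : Ideal (𝓞 K) :=
  ∏ Q ∈ S, Q.asIdeal ^ ((2 * ord Q (l : K) + 1).toNat + 1)

theorem n2a_M_ne (l : ℕ) (S : Finset (HeightOneSpectrum (𝓞 K))) : n2a_M l S ≠ ⊥ :=
  Finset.prod_ne_zero_iff.2 fun Q _ => pow_ne_zero _ Q.ne_bot

private theorem n2a_cof (J : Ideal (𝓞 K)) (α : 𝓞 K) (hα : α ∈ J) :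
    Ideal.span {α} = cof J α * J := by
  have h : ∃ I : Ideal (𝓞 K), Ideal.span {α} = I * J := by
    have h1 : J ∣ Ideal.span {α} := by
      rw [Ideal.dvd_span_singleton]
      exact hα
    obtain ⟨I, hI⟩ := h1
    exact ⟨I, by rw [hI, mul_comm]⟩
  unfold cof
  rw [dif_pos h]
  exact h.choose_spec

theorem n2a_per {l : ℕ} [NeZero l] (S : Finset (HeightOneSpectrum (𝓞 K)))
    {ψ : Kˣ →* Multiplicative (ZMod l)} (hψ : FnL l S ψ) (J : Ideal (𝓞 K)) (hJ : J ≠ ⊥)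
    (hJS : ∀ Q : HeightOneSpectrum (𝓞 K), Q ∉ S → ¬ J ≤ Q.asIdeal) (α β : 𝓞 K) (hα : α ≠ 0)
    (hβ : β ≠ 0) (hαJ : α ∈ J) (hαβ : α - β ∈ n2a_M l S * J) :
    chI l S ψ (cof J α) = chI l S ψ (cof J β) := by
  classical
  have hl : l ≠ 0 := NeZero.ne l
  have hα' : (α : K) ≠ 0 := fun h => hα (RingOfIntegers.coe_eq_zero_iff.1 h)
  have hβ' : (β : K) ≠ 0 := fun h => hβ (RingOfIntegers.coe_eq_zero_iff.1 h)
  have hβJ : β ∈ J := by
    have h0 : n2a_M l S * J ≤ J := Ideal.mul_le_right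
    have h1 : α - β ∈ J := h0 hαβ
    have h2 : α - (α - β) ∈ J := J.sub_mem hαJ h1
    rwa [sub_sub_cancel] at h2
  have hcα := n2a_cof J α hαJ
  have hcβ := n2a_cof J β hβJ
  have hneα : cof J α ≠ ⊥ := by
    intro h0
    rw [h0, Ideal.bot_mul] at hcα
    exact hα (Ideal.span_singleton_eq_bot.1 hcα)
  have hneβ : cof J β ≠ ⊥ := by
    intro h0
    rw [h0, Ideal.bot_mul] at hcβ
    exact hβ (Ideal.span_singleton_eq_bot.1 hcβ)
  have hle : ∀ (I P : Ideal (𝓞 K)), I * J ≤ P * J ↔ I ≤ P := by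
    intro I P
    rw [← Ideal.dvd_iff_le, ← Ideal.dvd_iff_le]
    exact mul_dvd_mul_iff_right hJ
  have hcong : ∀ Q ∈ S, (cof J α ≤ Q.asIdeal ↔ cof J β ≤ Q.asIdeal) ∧
      (¬ cof J β ≤ Q.asIdeal →
        ((α : K) / (β : K) = 1 ∨
          (((2 * ord Q (l : K) + 1).toNat + 1 : ℕ) : ℤ) ≤ ord Q ((α : K) / (β : K) - 1))) := by
    intro Q hQ
    have hM : n2a_M l S ≤ Q.asIdeal ^ ((2 * ord Q (l : K) + 1).toNat + 1) := by
      rw [← Ideal.dvd_iff_le]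
      exact Finset.dvd_prod_of_mem
        (fun Q : HeightOneSpectrum (𝓞 K) => Q.asIdeal ^ ((2 * ord Q (l : K) + 1).toNat + 1)) hQ
    have h0 : n2a_M l S * J ≤ Q.asIdeal ^ ((2 * ord Q (l : K) + 1).toNat + 1) * J :=
      Ideal.mul_mono_left hM
    have h1 := ord_quot Q ((2 * ord Q (l : K) + 1).toNat + 1) (by omega) J hJ α β hα hβ hαJ
      (h0 hαβ)
    rw [hcα, hcβ, hle, hle] at h1
    exact h1
  by_cases hA : ∀ Q ∈ S, ¬ cof J α ≤ Q.asIdeal
  · have hB : ∀ Q ∈ S, ¬ cof J β ≤ Q.asIdeal := fun Q hQ h0 => hA Q hQ (((hcong Q hQ).1).2 h0)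
    rw [n2a_chI hψ hneα hJ hJS hA hα' hcα, n2a_chI hψ hneβ hJ hJS hB hβ' hcβ]
    have h1 : Units.mk0 (α : K) hα' / Units.mk0 (β : K) hβ' ∈ KW l S := by
      unfold KW
      rw [Subgroup.mem_iInf]
      intro Q
      rw [Subgroup.mem_iInf]
      intro hQ
      refine Subgroup.subset_closure ?_
      show LocW l Q ((Units.mk0 (α : K) hα' / Units.mk0 (β : K) hβ' : Kˣ) : K)
      rw [Units.val_div_eq_div_val, Units.val_mk0, Units.val_mk0]
      refine n2a_hensel Q l hl _ ?_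
      rw [← le_ord_iff_valuation, sub_eq_zero]
      rcases (hcong Q hQ).2 (hB Q hQ) with h | h
      · exact Or.inl h
      · right
        push_cast at h
        have := Int.self_le_toNat (2 * ord Q (l : K) + 1)
        omega
    have h2 := hψ.loc _ h1
    rw [map_div, div_eq_one] at h2
    unfold vl
    rw [h2]
  · have hB : ¬ ∀ Q ∈ S, ¬ cof J β ≤ Q.asIdeal := by
      intro h0
      exact hA fun Q hQ h1 => h0 Q hQ (((hcong Q hQ).1).1 h1)
    rw [n2a_chI_zero hA, n2a_chI_zero hB]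

/-! ### sums -/

private theorem n2a_norm_pos {B : Ideal (𝓞 K)} (hB : B ≠ ⊥) :
    (0 : ℝ) < (Ideal.absNorm B : ℝ) := by
  have h : Ideal.absNorm B ≠ 0 := by
    rw [Ne, Ideal.absNorm_eq_zero_iff]
    exact hB
  exact_mod_cast Nat.pos_of_ne_zero h

private theorem n2a_image (B : Ideal (𝓞 K)) (hB : B ≠ ⊥) (X : ℝ) :
    {I ∈ IdLe K X | B ∣ I} = (fun I => B * I) '' IdLe K (X / Ideal.absNorm B) := by
  have hN := n2a_norm_pos hB
  ext I
  constructor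
  · rintro ⟨⟨h1, h2⟩, J, rfl⟩
    refine ⟨J, ⟨?_, ?_⟩, rfl⟩
    · rintro rfl
      exact h1 (by simp)
    · rw [le_div_iff₀ hN]
      rw [map_mul] at h2
      push_cast at h2
      linarith
  · rintro ⟨J, ⟨h1, h2⟩, rfl⟩
    refine ⟨⟨?_, ?_⟩, dvd_mul_right _ _⟩
    · exact mul_ne_zero hB h1
    · rw [le_div_iff₀ hN] at h2
      simp only [map_mul]
      push_cast
      linarith

/-- a linear function bounded by a smaller power vanishes -/
private theorem n2a_zero (c : ℂ) (C X₀ : ℝ) (d : ℕ) (hd : 0 < d)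
    (h : ∀ X : ℝ, X₀ ≤ X → 1 ≤ X → ‖c * (X : ℂ)‖ ≤ C * X ^ (1 - 1 / (d : ℝ))) : c = 0 := by
  by_contra hc
  have hc' : 0 < ‖c‖ := norm_pos_iff.2 hc
  have hd' : (0 : ℝ) < 1 / (d : ℝ) := by positivity
  have h1 : ∀ X : ℝ, X₀ ≤ X → 1 ≤ X → X ^ (1 / (d : ℝ)) ≤ C / ‖c‖ := by
    intro X hX0 hX
    have hXp : 0 < X := by linarith
    have h2 := h X hX0 hX
    have h3 : X ^ (1 - 1 / (d : ℝ)) * X ^ (1 / (d : ℝ)) = X := by
      rw [← Real.rpow_add hXp]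
      simp
    have h4 : 0 < X ^ (1 - 1 / (d : ℝ)) := Real.rpow_pos_of_pos hXp _
    rw [norm_mul, Complex.norm_real, Real.norm_eq_abs, abs_of_pos hXp] at h2
    rw [le_div_iff₀ hc']
    have h5 : X ^ (1 - 1 / (d : ℝ)) * (X ^ (1 / (d : ℝ)) * ‖c‖) ≤ X ^ (1 - 1 / (d : ℝ)) * C := by
      calc X ^ (1 - 1 / (d : ℝ)) * (X ^ (1 / (d : ℝ)) * ‖c‖)
          = (X ^ (1 - 1 / (d : ℝ)) * X ^ (1 / (d : ℝ))) * ‖c‖ := by ring
        _ = X * ‖c‖ := by rw [h3]
        _ ≤ X ^ (1 - 1 / (d : ℝ)) * C := by linarith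
    exact le_of_mul_le_mul_left h5 h4
  have h2 := (tendsto_rpow_atTop hd').eventually (Filter.eventually_gt_atTop (C / ‖c‖))
  obtain ⟨X, ⟨h3, h4⟩, h5⟩ :=
    ((h2.and (Filter.eventually_ge_atTop X₀)).and (Filter.eventually_ge_atTop (1 : ℝ))).exists
  exact absurd (h1 X h4 h5) (not_le.2 h3)

/-- a complex number with small real and imaginary part -/
private theorem n2a_re_im {z : ℂ} {c : ℝ} (h1 : |z.re| ≤ c) (h2 : |z.im| ≤ c) : ‖z‖ ≤ 2 * c := by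
  have h := Complex.norm_le_abs_re_add_abs_im z
  linarith

/-- the sums of a periodic function -/
private theorem n2a_count (R : Finset (Ideal (𝓞 K))) (hR : Reps R) (M : Ideal (𝓞 K))
    (hM : M ≠ ⊥) (F : Ideal (𝓞 K) → ℂ) (hF : ∀ I, ‖F I‖ ≤ 1)
    (hP : ∀ J ∈ R, ∀ α β : 𝓞 K, α ≠ 0 → β ≠ 0 → α ∈ J → α - β ∈ M * J →
      F (cof J α) = F (cof J β)) :
    ∃ (A : ℂ) (C : ℝ), 0 ≤ C ∧ ∀ (B : Ideal (𝓞 K)), B ≠ ⊥ → IsCoprime B M →
      ∀ X : ℝ, 1 ≤ X → ‖∑ᶠ I ∈ {I ∈ IdLe K X | B ∣ I}, F I - A * X / Ideal.absNorm B‖ ≤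
        C * ((Ideal.absNorm B : ℝ)) ^ (Module.finrank ℚ K + 1) *
          X ^ (1 - 1 / (Module.finrank ℚ K : ℝ)) := by
  obtain ⟨C, hC, h⟩ := main_count K R hR
  obtain ⟨A₁, h1⟩ := h M hM (fun I => (F I).re)
    (fun I => (Complex.abs_re_le_norm _).trans (hF I))
    (fun J hJ α β hα hβ hαJ hαβ _ => by
      show (F (cof J α)).re = (F (cof J β)).re
      rw [hP J hJ α β hα hβ hαJ hαβ])
  obtain ⟨A₂, h2⟩ := h M hM (fun I => (F I).im)
    (fun I => (Complex.abs_im_le_norm _).trans (hF I))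
    (fun J hJ α β hα hβ hαJ hαβ _ => by
      show (F (cof J α)).im = (F (cof J β)).im
      rw [hP J hJ α β hα hβ hαJ hαβ])
  refine ⟨⟨A₁, A₂⟩, 2 * (C * (Ideal.absNorm M : ℝ) ^ (Module.finrank ℚ K + 1)),
    by positivity, fun B hB hBM X hX => ?_⟩
  have hfin : {I ∈ IdLe K X | B ∣ I}.Finite := (finite_IdLe K X).subset fun I h => h.1
  have e0 : (⟨A₁, A₂⟩ : ℂ) * (X : ℂ) / ((Ideal.absNorm B : ℕ) : ℂ) =
      ⟨A₁ * X / (Ideal.absNorm B : ℝ), A₂ * X / (Ideal.absNorm B : ℝ)⟩ := by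
    have h0 : ((Ideal.absNorm B : ℕ) : ℂ) = (((Ideal.absNorm B : ℕ) : ℝ) : ℂ) := by push_cast; rfl
    rw [h0, mul_div_assoc, ← Complex.ofReal_div]
    apply Complex.ext
    · rw [Complex.mul_re, Complex.ofReal_re, Complex.ofReal_im]
      simp only
      ring
    · rw [Complex.mul_im, Complex.ofReal_re, Complex.ofReal_im]
      simp only
      ring
  have e1 : (∑ᶠ I ∈ {I ∈ IdLe K X | B ∣ I}, F I).re =
      ∑ᶠ I ∈ {I ∈ IdLe K X | B ∣ I}, (F I).re :=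
    Complex.reAddGroupHom.map_finsum_mem F hfin
  have e2 : (∑ᶠ I ∈ {I ∈ IdLe K X | B ∣ I}, F I).im =
      ∑ᶠ I ∈ {I ∈ IdLe K X | B ∣ I}, (F I).im :=
    Complex.imAddGroupHom.map_finsum_mem F hfin
  have h3 := h1 B hB hBM X hX
  have h4 := h2 B hB hBM X hX
  refine (n2a_re_im (c := C * ((Ideal.absNorm B : ℝ) * Ideal.absNorm M) ^
    (Module.finrank ℚ K + 1) * X ^ (1 - 1 / (Module.finrank ℚ K : ℝ))) ?_ ?_).trans
    (le_of_eq ?_)
  · rw [Complex.sub_re, e0, e1]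
    exact h3
  · rw [Complex.sub_im, e0, e2]
    exact h4
  · rw [mul_pow]
    ring

/-- cancellation for completely multiplicative functions -/
private theorem n2a_vanish (R : Finset (Ideal (𝓞 K))) (hR : Reps R) (M : Ideal (𝓞 K))
    (hM : M ≠ ⊥) (F : Ideal (𝓞 K) → ℂ) (hF : ∀ I, ‖F I‖ ≤ 1)
    (hP : ∀ J ∈ R, ∀ α β : 𝓞 K, α ≠ 0 → β ≠ 0 → α ∈ J → α - β ∈ M * J →
      F (cof J α) = F (cof J β))
    (hmul : ∀ I I' : Ideal (𝓞 K), I ≠ ⊥ → I' ≠ ⊥ → F (I * I') = F I * F I')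
    (hB : ∃ B : Ideal (𝓞 K), B ≠ ⊥ ∧ IsCoprime B M ∧ F B ≠ 1) :
    ∃ C : ℝ, ∀ X : ℝ, 1 ≤ X → ‖∑ᶠ I ∈ IdLe K X, F I‖ ≤
      C * X ^ (1 - 1 / (Module.finrank ℚ K : ℝ)) := by
  obtain ⟨B, hB, hBM, hFB⟩ := hB
  obtain ⟨A, C, hC0, hA⟩ := n2a_count R hR M hM F hF hP
  have hN := n2a_norm_pos hB
  have hN1 : (1 : ℝ) ≤ Ideal.absNorm B := by
    have : 0 < Ideal.absNorm B := by exact_mod_cast hN
    exact_mod_cast this
  have htop : IsCoprime (⊤ : Ideal (𝓞 K)) M := by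
    rw [Ideal.isCoprime_iff_sup_eq]
    simp
  have hset : ∀ Y : ℝ, {I ∈ IdLe K Y | (⊤ : Ideal (𝓞 K)) ∣ I} = IdLe K Y := by
    intro Y
    ext I
    constructor
    · intro h
      exact h.1
    · intro h
      refine ⟨h, ?_⟩
      rw [← Ideal.one_eq_top]
      exact one_dvd I
  have hT : ∀ Y : ℝ, 1 ≤ Y → ‖∑ᶠ I ∈ IdLe K Y, F I - A * Y‖ ≤
      C * Y ^ (1 - 1 / (Module.finrank ℚ K : ℝ)) := by
    intro Y hY
    have h := hA ⊤ top_ne_bot htop Y hY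
    rw [hset] at h
    simpa using h
  have hd : 0 < Module.finrank ℚ K := Module.finrank_pos
  have hexp : (0 : ℝ) ≤ 1 - 1 / (Module.finrank ℚ K : ℝ) := by
    have h1 : (1 : ℝ) ≤ Module.finrank ℚ K := by exact_mod_cast hd
    have h2 : 1 / (Module.finrank ℚ K : ℝ) ≤ 1 := by
      rw [div_le_one (by linarith)]
      exact h1
    linarith
  have hS : ∀ Y : ℝ, ∑ᶠ I ∈ {I ∈ IdLe K Y | B ∣ I}, F I =
      F B * ∑ᶠ I ∈ IdLe K (Y / Ideal.absNorm B), F I := by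
    intro Y
    rw [n2a_image B hB, finsum_mem_image, mul_finsum_mem]
    · refine finsum_mem_congr rfl fun I hI => ?_
      exact hmul B I hB hI.1
    · intro I _ I' _ h
      exact mul_left_cancel₀ hB h
  have hA0 : A = 0 := by
    have h1 : A * (1 - F B) / (Ideal.absNorm B : ℂ) = 0 := by
      refine n2a_zero _ (C * (Ideal.absNorm B : ℝ) ^ (Module.finrank ℚ K + 1) + C)
        (Ideal.absNorm B) (Module.finrank ℚ K) hd ?_
      intro Y hY0 hY
      have hY1 : 1 ≤ Y / Ideal.absNorm B := by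
        rw [le_div_iff₀ hN]
        linarith
      have h2 := hA B hB hBM Y hY
      have h3 := hT (Y / Ideal.absNorm B) hY1
      rw [hS] at h2
      have h4 : ‖F B * (∑ᶠ I ∈ IdLe K (Y / Ideal.absNorm B), F I -
          A * ((Y / Ideal.absNorm B : ℝ) : ℂ))‖ ≤ C *
            (Y / Ideal.absNorm B) ^ (1 - 1 / (Module.finrank ℚ K : ℝ)) := by
        rw [norm_mul]
        calc _ ≤ 1 * _ := mul_le_mul_of_nonneg_right (hF B) (norm_nonneg _)
          _ ≤ _ := by rw [one_mul]; exact h3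
      have h5 : (Y / Ideal.absNorm B) ^ (1 - 1 / (Module.finrank ℚ K : ℝ)) ≤
          Y ^ (1 - 1 / (Module.finrank ℚ K : ℝ)) := by
        refine Real.rpow_le_rpow (by positivity) ?_ hexp
        exact div_le_self (by linarith) hN1
      have h6 : C * (Y / Ideal.absNorm B) ^ (1 - 1 / (Module.finrank ℚ K : ℝ)) ≤
          C * Y ^ (1 - 1 / (Module.finrank ℚ K : ℝ)) :=
        mul_le_mul_of_nonneg_left h5 hC0
      have hNC : ((Ideal.absNorm B : ℕ) : ℂ) ≠ 0 := by exact_mod_cast hN.ne'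
      have h7 : A * (1 - F B) / (Ideal.absNorm B : ℂ) * (Y : ℂ) =
          F B * (∑ᶠ I ∈ IdLe K (Y / Ideal.absNorm B), F I -
            A * ((Y / Ideal.absNorm B : ℝ) : ℂ)) -
          (F B * ∑ᶠ I ∈ IdLe K (Y / Ideal.absNorm B), F I -
            A * Y / (Ideal.absNorm B : ℂ)) := by
        push_cast
        field_simp
        ring
      rw [h7]
      refine (norm_sub_le _ _).trans ?_
      have := add_le_add (h4.trans h6) h2
      rw [add_mul]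
      linarith
    have hNC : ((Ideal.absNorm B : ℕ) : ℂ) ≠ 0 := by exact_mod_cast hN.ne'
    have h2 : A * (1 - F B) = 0 := by
      rcases div_eq_zero_iff.1 h1 with h | h
      · exact h
      · exact absurd h hNC
    rcases mul_eq_zero.1 h2 with h | h
    · exact h
    · exact absurd (sub_eq_zero.1 h).symm hFB
  refine ⟨C, fun X hX => ?_⟩
  have h := hT X hX
  rw [hA0, zero_mul, sub_zero] at h
  exact h

/-- A32 -/
theorem sn2a : SN2a := by
  intro l _ K _ _ S hS ψ hψ hne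
  have hl : l ≠ 0 := (Fact.out : l.Prime).ne_zero
  obtain ⟨R, hR, hRS⟩ := reps_exist K S hS.prS
  obtain ⟨P, hP, hPψ⟩ := n2a_prime hS.prS hψ hne
  obtain ⟨C, hC⟩ := n2a_vanish R hR (n2a_M l S) (n2a_M_ne l S) (chI l S ψ)
    (fun I => n2a_norm I)
    (fun J hJ α β hα hβ hαJ hαβ => n2a_per S hψ J (hR.1 J hJ) (hRS J hJ) α β hα hβ hαJ hαβ)
    (fun I I' hI hI' => n2a_mul hS.prS hψ hI hI')
    ⟨P.asIdeal, P.ne_bot, IsCoprime.prod_right fun Q hQ => IsCoprime.pow_right (by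
      have h1 := P.isMaximal
      have h2 := Q.isMaximal
      exact Ideal.isCoprime_of_isMaximal fun h3 => hP (HeightOneSpectrum.ext h3 ▸ hQ)),
      n2a_single hS.prS hψ hP hPψ⟩
  have hd : (0 : ℝ) < Module.finrank ℚ K := by exact_mod_cast Module.finrank_pos
  exact ⟨C, 1 / (Module.finrank ℚ K : ℝ), by positivity, fun X hX => hC X hX⟩

end Pool.Agent.H92.EL
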