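import Pool.Agent.H92.EL.AStm
import Pool.Agent.H98.MF.L.Fld

/-!
# Project ELL (MP_a3214d), block A: global norms and cup products
-/

set_option autoImplicit false

open scoped BigOperators Pointwise
open NumberField IsDedekindDomain

namespace Pool.Agent.H92.EL

open Pool.Agent.H98.MF (Om Gm ord Dec FixD)

section

variable {l : ℕ} {K : Type} [Field K] [NumberField K]

open Polynomial in
/-- the norm is surjective if `a` is an `l`-th power -/
private theorem ng_pow (hl : l.Prime) (d b : Kˣ) : b ∈ NGL l (d ^ l) := by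
  have hm : ((X : K[X]) ^ l - C ((d ^ l : Kˣ) : K)).Monic := monic_X_pow_sub_C _ hl.ne_zero
  have hfin : Module.Finite K (AdjoinRoot ((X : K[X]) ^ l - C ((d ^ l : Kˣ) : K))) :=
    (AdjoinRoot.powerBasis' hm).finite
  set θ : AdjoinRoot ((X : K[X]) ^ l - C ((d ^ l : Kˣ) : K)) := AdjoinRoot.root _ with hθd
  have hθ : θ ^ l = algebraMap K _ ((d : K) ^ l) := by
    have h := AdjoinRoot.eval₂_root ((X : K[X]) ^ l - C ((d ^ l : Kˣ) : K))
    rw [eval₂_sub, eval₂_X_pow, eval₂_C, sub_eq_zero] at h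
    rw [hθd, h, Units.val_pow_eq_pow_val]
    rfl
  have hd : (d : K) ≠ 0 := d.ne_zero
  have hl0 : (l : K) ≠ 0 := by exact_mod_cast hl.ne_zero
  set η := algebraMap K (AdjoinRoot ((X : K[X]) ^ l - C ((d ^ l : Kˣ) : K))) (d : K)⁻¹ * θ
    with hη
  have hη1 : η ^ l = 1 := by
    rw [hη, mul_pow, hθ, ← map_pow, ← map_mul, inv_pow, inv_mul_cancel₀ (pow_ne_zero l hd),
      map_one]
  set E := algebraMap K (AdjoinRoot ((X : K[X]) ^ l - C ((d ^ l : Kˣ) : K))) (l : K)⁻¹ *
    ∑ i ∈ Finset.range l, η ^ i with hE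
  have hηE : η * E = E := by
    have h1 : η * ∑ i ∈ Finset.range l, η ^ i = ∑ i ∈ Finset.range l, η ^ i := by
      have h2 := Finset.sum_range_succ (fun i => η ^ i) l
      have h3 := Finset.sum_range_succ' (fun i => η ^ i) l
      rw [h2, hη1, pow_zero] at h3
      have h4 := add_right_cancel h3
      conv_rhs => rw [h4]
      rw [Finset.mul_sum]
      exact Finset.sum_congr rfl fun i _ => (pow_succ' η i).symm
    rw [hE, mul_left_comm, h1]
  have hθE : θ * E = algebraMap K _ (d : K) * E := by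
    have h1 : algebraMap K (AdjoinRoot ((X : K[X]) ^ l - C ((d ^ l : Kˣ) : K))) (d : K) * η =
        θ := by
      rw [hη, ← mul_assoc, ← map_mul, mul_inv_cancel₀ hd, map_one, one_mul]
    rw [← h1, mul_assoc, hηE]
  have hroot : ((X : K[X]) ^ l - C ((d ^ l : Kˣ) : K)).eval₂
      (Algebra.ofId K K : K →+* K) (d : K) = 0 := by
    rw [eval₂_sub, eval₂_X_pow, eval₂_C, Units.val_pow_eq_pow_val]
    exact sub_self _
  set φ : AdjoinRoot ((X : K[X]) ^ l - C ((d ^ l : Kˣ) : K)) →ₐ[K] K :=
    AdjoinRoot.liftAlgHom _ (Algebra.ofId K K) (d : K) hroot with hφ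
  have hφθ : φ θ = (d : K) := AdjoinRoot.liftAlgHom_root _ _ _ _
  have hφη : φ η = 1 := by
    rw [hη, map_mul, hφθ, AlgHom.commutes]
    exact inv_mul_cancel₀ hd
  have hφE : φ E = 1 := by
    rw [hE, map_mul, AlgHom.commutes, map_sum]
    simp only [map_pow, hφη, one_pow, Finset.sum_const, Finset.card_range, nsmul_eq_mul, mul_one]
    exact inv_mul_cancel₀ hl0
  have hpw : ∀ n : ℕ, θ ^ n * E = algebraMap K _ ((d : K) ^ n) * E := by
    intro n
    induction n with
    | zero => rw [pow_zero, pow_zero, map_one]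
    | succ n ih =>
      rw [pow_succ, mul_assoc, hθE, mul_left_comm, ih, ← mul_assoc, ← map_mul, ← pow_succ']
  have hall : ∀ v, v * E = algebraMap K _ (φ v) * E := by
    intro v
    induction v using AdjoinRoot.induction_on with
    | ih p =>
      induction p using Polynomial.induction_on' with
      | add p q hp hq => rw [map_add, add_mul, hp, hq, map_add, map_add, add_mul]
      | monomial n c =>
        have h1 : AdjoinRoot.mk ((X : K[X]) ^ l - C ((d ^ l : Kˣ) : K)) (monomial n c) =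
            algebraMap K _ c * θ ^ n := by
          rw [← C_mul_X_pow_eq_monomial, map_mul, map_pow, AdjoinRoot.mk_C, AdjoinRoot.mk_X]
          rfl
        have h2 : φ (algebraMap K _ c * θ ^ n) = c * (d : K) ^ n := by
          rw [map_mul, map_pow, hφθ, AlgHom.commutes]
          rfl
        rw [h1, h2, mul_assoc, hpw, ← mul_assoc, ← map_mul]
  have hEE : E * E = E := by
    rw [hall E, hφE, map_one, one_mul]
  have hnorm : Algebra.norm K (1 + algebraMap K _ ((b : K) - 1) * E) = (b : K) := by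
    rw [Algebra.norm_apply]
    have h1 : Algebra.lmul K (AdjoinRoot ((X : K[X]) ^ l - C ((d ^ l : Kˣ) : K)))
        (1 + algebraMap K _ ((b : K) - 1) * E) =
        LinearMap.transvection φ.toLinearMap (((b : K) - 1) • E) := by
      refine LinearMap.ext fun v => ?_
      show (1 + algebraMap K _ ((b : K) - 1) * E) * v = v + φ v • (((b : K) - 1) • E)
      rw [add_mul, one_mul, mul_assoc, mul_comm E v, hall v, Algebra.smul_def, Algebra.smul_def]
      ring
    rw [h1, LinearMap.transvection.det]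
    show 1 + φ (((b : K) - 1) • E) = b
    rw [map_smul, hφE, smul_eq_mul]
    ring
  have hb : (b : K) ≠ 0 := b.ne_zero
  have hinv : (1 + algebraMap K _ ((b : K) - 1) * E) *
      (1 + algebraMap K _ ((b : K)⁻¹ - 1) * E) = 1 := by
    have h1 : (1 + algebraMap K _ ((b : K) - 1) * E) *
        (1 + algebraMap K _ ((b : K)⁻¹ - 1) * E) = 1 + (algebraMap K _ ((b : K) - 1) +
          algebraMap K _ ((b : K)⁻¹ - 1)) * E + algebraMap K _ ((b : K) - 1) *
          algebraMap K _ ((b : K)⁻¹ - 1) * (E * E) := by ring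
    rw [h1, hEE, ← map_mul, ← map_add, add_assoc, ← add_mul, ← map_add]
    have h2 : (b : K) - 1 + ((b : K)⁻¹ - 1) + ((b : K) - 1) * ((b : K)⁻¹ - 1) = 0 := by
      field_simp
      ring
    rw [h2, map_zero, zero_mul, add_zero]
  refine ⟨⟨1 + algebraMap K _ ((b : K) - 1) * E, 1 + algebraMap K _ ((b : K)⁻¹ - 1) * E,
    hinv, by rw [mul_comm, hinv]⟩, ?_⟩
  apply Units.ext
  rw [Units.coe_map]
  exact hnorm

omit [NumberField K] in
private theorem ng_rt (hl : l.Prime) (a : Kˣ) : rt l (a : K) ^ l = algebraMap K (Om K) a := by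
  have h : ∃ y : Om K, y ^ l = algebraMap K (Om K) (a : K) :=
    IsAlgClosed.exists_pow_nat_eq _ hl.pos
  unfold rt
  rw [dif_pos h]
  exact h.choose_spec

private theorem ng_chl_pow {z : K} (ku : KuF l K z) (a : Kˣ) (σ : Gm K) (n : ℕ) :
    chl l z (a : K) (σ ^ n) = n * chl l z (a : K) σ := by
  induction n with
  | zero =>
    have h := ku.hom a 1 1
    rw [mul_one] at h
    rw [pow_zero, Nat.cast_zero, zero_mul]
    exact left_eq_add.1 h
  | succ n ih => rw [pow_succ, ku.hom, ih, Nat.cast_succ, add_mul, one_mul]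

open Polynomial in
private theorem ng_emb (hl : l.Prime) {z : K} (hz : IsPrimitiveRoot z l) (ku : KuF l K z)
    (a b : Kˣ) (ha : a ∉ pw l (⊤ : Subgroup Kˣ)) (s : Gm K) (hs : chl l z (a : K) s = 1) :
    b ∈ NGL l a ↔ ∃ y : Om K,
      (∀ σ ∈ (⊤ : Subgroup (Gm K)), chl l z (a : K) σ = 0 → σ y = y) ∧
      ∏ i ∈ Finset.range l, (s ^ i) y = algebraMap K (Om K) (b : K) := by
  have hl0 : NeZero l := ⟨hl.ne_zero⟩
  set Z : Om K := algebraMap K (Om K) z with hZ
  have hZp : IsPrimitiveRoot Z l := hz.map_of_injective (algebraMap K (Om K)).injective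
  have hirr : Irreducible ((X : K[X]) ^ l - C (a : K)) := by
    refine X_pow_sub_C_irreducible_of_prime hl fun c hc => ha ?_
    have hc0 : c ≠ 0 := by
      rintro rfl
      rw [zero_pow hl.ne_zero] at hc
      exact a.ne_zero hc.symm
    refine Subgroup.mem_map.2 ⟨Units.mk0 c hc0, Subgroup.mem_top _, ?_⟩
    apply Units.ext
    exact hc
  have hF : Fact (Irreducible ((X : K[X]) ^ l - C (a : K))) := ⟨hirr⟩
  have hfin : FiniteDimensional K (AdjoinRoot ((X : K[X]) ^ l - C (a : K))) :=
    (AdjoinRoot.powerBasis hirr.ne_zero).finite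
  have hrank : Module.finrank K (AdjoinRoot ((X : K[X]) ^ l - C (a : K))) = l := by
    rw [(AdjoinRoot.powerBasis hirr.ne_zero).finrank, AdjoinRoot.powerBasis_dim,
      natDegree_X_pow_sub_C]
  set α : Om K := rt l (a : K) with hα
  have hαl : α ^ l = algebraMap K (Om K) (a : K) := ng_rt hl a
  have hα0 : α ≠ 0 := by
    intro h0
    rw [h0, zero_pow hl.ne_zero] at hαl
    exact a.ne_zero ((map_eq_zero (algebraMap K (Om K))).1 hαl.symm)
  have hroot : ((X : K[X]) ^ l - C (a : K)).eval₂ (Algebra.ofId K (Om K) : K →+* Om K) α = 0 := by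
    rw [eval₂_sub, eval₂_X_pow, eval₂_C, hαl]
    exact sub_self _
  set j : AdjoinRoot ((X : K[X]) ^ l - C (a : K)) →ₐ[K] Om K :=
    AdjoinRoot.liftAlgHom _ (Algebra.ofId K (Om K)) α hroot with hj
  have hjr : j (AdjoinRoot.root _) = α := AdjoinRoot.liftAlgHom_root _ _ _ _
  have hact : ∀ i : ℕ, i < l → (s ^ i) α = Z ^ i * α := by
    intro i hi
    rw [ku.root a α hαl (s ^ i), ng_chl_pow ku, hs, mul_one, ZMod.val_natCast_of_lt hi]
  -- the embeddings
  let Φ : Fin l → (AdjoinRoot ((X : K[X]) ^ l - C (a : K)) →ₐ[K] Om K) :=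
    fun i => ((s ^ (i : ℕ) : Gm K) : Om K →ₐ[K] Om K).comp j
  have hΦa : ∀ i x, Φ i x = (s ^ (i : ℕ)) (j x) := fun i x => rfl
  have hinj : Function.Injective Φ := by
    intro i i' h
    have h1 := congrArg (fun ψ => ψ (AdjoinRoot.root _)) h
    simp only [hΦa, hjr] at h1
    rw [hact i i.2, hact i' i'.2] at h1
    exact Fin.ext (hZp.pow_inj i.2 i'.2 (mul_right_cancel₀ hα0 h1))
  have hbij : Function.Bijective Φ := by
    rw [Fintype.bijective_iff_injective_and_card]
    refine ⟨hinj, ?_⟩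
    rw [Fintype.card_fin, AlgHom.card, hrank]
  have hnorm : ∀ x : AdjoinRoot ((X : K[X]) ^ l - C (a : K)),
      algebraMap K (Om K) (Algebra.norm K x) = ∏ i ∈ Finset.range l, (s ^ i) (j x) := by
    intro x
    rw [Algebra.norm_eq_prod_embeddings K (Om K) x,
      ← Fin.prod_univ_eq_prod_range (fun i => (s ^ i) (j x)) l]
    exact (Fintype.prod_bijective Φ hbij _ _ fun i => (hΦa i x).symm).symm
  constructor
  · rintro ⟨x, hx⟩
    refine ⟨j (x : AdjoinRoot ((X : K[X]) ^ l - C (a : K))), fun σ _ hσ => ?_, ?_⟩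
    · have h1 : σ α = α := by
        rw [ku.root a α hαl σ, hσ, ZMod.val_zero, pow_zero, one_mul]
      have h2 : ((σ : Gm K) : Om K →ₐ[K] Om K).comp j = j := by
        apply AdjoinRoot.algHom_ext
        show σ (j (AdjoinRoot.root _)) = j (AdjoinRoot.root _)
        rw [hjr, h1]
      exact DFunLike.congr_fun h2 _
    · rw [← hnorm]
      have h3 : Algebra.norm K (x : AdjoinRoot ((X : K[X]) ^ l - C (a : K))) = (b : K) :=
        congrArg Units.val hx
      rw [h3]
  · rintro ⟨y, hy, hprod⟩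
    have hmem : y ∈ j.fieldRange := by
      have h1 : IntermediateField.fixedField j.fieldRange.fixingSubgroup = j.fieldRange :=
        InfiniteGalois.fixedField_fixingSubgroup j.fieldRange
      rw [← h1, IntermediateField.mem_fixedField_iff]
      intro σ hσ
      rw [IntermediateField.mem_fixingSubgroup_iff] at hσ
      refine hy σ (Subgroup.mem_top σ) ?_
      have h2 := hσ α ⟨AdjoinRoot.root _, hjr⟩
      have h3 := ku.root a α hαl σ
      rw [h2] at h3
      have h4 : Z ^ (chl l z (a : K) σ).val = Z ^ 0 := by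
        rw [pow_zero]
        exact (mul_right_cancel₀ hα0 (by rw [one_mul]; exact h3)).symm
      have h5 := hZp.pow_inj (ZMod.val_lt _) hl.pos h4
      exact (ZMod.val_eq_zero _).1 h5
    obtain ⟨x, rfl⟩ := hmem
    have h6 := hnorm x
    rw [show (∏ i ∈ Finset.range l, (s ^ i) (j x)) = algebraMap K (Om K) (b : K) from hprod] at h6
    have h7 : Algebra.norm K x = (b : K) := (algebraMap K (Om K)).injective h6
    have hx0 : x ≠ 0 := by
      rintro rfl
      have h8 : Algebra.norm K (0 : AdjoinRoot ((X : K[X]) ^ l - C (a : K))) = 0 :=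
        Algebra.norm_zero
      rw [h8] at h7
      exact b.ne_zero h7.symm
    refine ⟨Units.mk0 x hx0, ?_⟩
    apply Units.ext
    rw [Units.coe_map]
    exact h7

end

/-- global norms and cup products -/
theorem sng (hK : SKu) (hC : SCN) : SNG := by
  intro l hl hl2 K _ _ z hz a b
  have ku := hK l hl K z hz
  have hF : Fact l.Prime := ⟨hl⟩
  by_cases ha : a ∈ pw l (⊤ : Subgroup Kˣ)
  · constructor
    · intro _
      refine ⟨fun _ => 0, IsLocallyConstant.const 0, fun σ _ τ _ => ?_⟩
      rw [(ku.zero a).2 ha σ, zero_mul, add_zero, add_zero]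
    · intro _
      obtain ⟨d, -, rfl⟩ := Subgroup.mem_map.1 ha
      exact ng_pow hl d b
  · have h1 : ∃ σ : Gm K, chl l z (a : K) σ ≠ 0 := by
      by_contra h
      push Not at h
      exact ha ((ku.zero a).1 h)
    obtain ⟨σ, hσ⟩ := h1
    have hs : chl l z (a : K) (σ ^ ((chl l z (a : K) σ)⁻¹).val) = 1 := by
      rw [ng_chl_pow ku, ZMod.natCast_zmod_val, inv_mul_cancel₀ hσ]
    rw [hC l hl hl2 K z hz ⊤ isClosed_univ a b _ (Subgroup.mem_top _) hs]
    exact ng_emb hl hz ku a b ha _ hs

end Pool.Agent.H92.EL
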