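import Pool.Agent.H92.EL.AStm
import Pool.Agent.H98.MF.L.Apx

/-!
# Project ELL (MP_a3214d), block A: the decomposition field and local `l`-th powers

After Pool/Agent/H98/MF/L/SqD.lean.
-/

set_option autoImplicit false

open scoped BigOperators Pointwise
open NumberField IsDedekindDomain

namespace Pool.Agent.H92.EL

open Pool.Agent.H98.MF

section

variable {K : Type} [Field K] [NumberField K]

/-- two elements with sum one are not both small -/
private theorem on_add (P : HeightOneSpectrum (𝓞 K)) {a b : Om K} (h : a + b = 1) :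
    (a ≠ 0 ∧ InV P a⁻¹) ∨ (b ≠ 0 ∧ InV P b⁻¹) := by
  by_cases ha : a = 0
  · right
    rw [ha, zero_add] at h
    rw [h, inv_one]
    exact ⟨one_ne_zero, InV.one P⟩
  by_cases hb : b = 0
  · left
    rw [hb, add_zero] at h
    rw [h, inv_one]
    exact ⟨one_ne_zero, InV.one P⟩
  rcases InV.total P (div_ne_zero ha hb) with h1 | h1
  · right
    refine ⟨hb, ?_⟩
    have e : b⁻¹ = a / b + 1 := by
      field_simp
      exact h.symm
    rw [e]
    exact h1.add (InV.one P)
  · left
    refine ⟨ha, ?_⟩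
    have e : a⁻¹ = 1 + (a / b)⁻¹ := by
      rw [inv_div]
      field_simp
      exact h.symm
    rw [e]
    exact (InV.one P).add h1

private theorem on_sum (P : HeightOneSpectrum (𝓞 K)) {ι : Type} (s : Finset ι) (f : ι → Om K)
    (h : ∀ i ∈ s, InV P (f i)) : InV P (∑ i ∈ s, f i) := by
  classical
  induction s using Finset.induction_on with
  | empty => rw [Finset.sum_empty]; exact InV.zero P
  | insert i s hi ih =>
    rw [Finset.sum_insert hi]
    exact (h i (Finset.mem_insert_self i s)).add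
      (ih fun j hj => h j (Finset.mem_insert_of_mem hj))

private theorem on_prod (P : HeightOneSpectrum (𝓞 K)) {ι : Type} (s : Finset ι) (f : ι → Om K)
    (h : ∀ i ∈ s, InV P (f i)) : InV P (∏ i ∈ s, f i) := by
  classical
  induction s using Finset.induction_on with
  | empty => rw [Finset.prod_empty]; exact InV.one P
  | insert i s hi ih =>
    rw [Finset.prod_insert hi]
    exact (h i (Finset.mem_insert_self i s)).mul
      (ih fun j hj => h j (Finset.mem_insert_of_mem hj))

private theorem on_pow (P : HeightOneSpectrum (𝓞 K)) {x : Om K} (h : InV P x) (n : ℕ) :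
    InV P (x ^ n) := by
  induction n with
  | zero => rw [pow_zero]; exact InV.one P
  | succ n ih => rw [pow_succ]; exact ih.mul h

omit [NumberField K] in
private theorem on_map_ne {d : K} (h : d ≠ 0) : algebraMap K (Om K) d ≠ 0 := by
  rw [Ne, map_eq_zero]
  exact h

/-- roots of unity are integral -/
private theorem on_unity (P : HeightOneSpectrum (𝓞 K)) {l : ℕ} (hl : l ≠ 0) {w : Om K}
    (h : w ^ l = 1) : InV P w :=
  inV_pow hl (by rw [h]; exact InV.one P)

/-- `w - 1` divides `l` -/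
private theorem on_dvd (P : HeightOneSpectrum (𝓞 K)) {l : ℕ} (hl : l ≠ 0) {w : Om K}
    (h : w ^ l = 1) (h1 : w ≠ 1) : InV P ((l : Om K) / (w - 1)) := by
  have hw : w - 1 ≠ 0 := sub_ne_zero.2 h1
  have h0 : ∑ j ∈ Finset.range l, w ^ j = 0 := by
    have h2 := geom_sum_mul w l
    rw [h, sub_self] at h2
    exact (mul_eq_zero.1 h2).resolve_right hw
  have h3 : (∑ j ∈ Finset.range l, ∑ m ∈ Finset.range j, w ^ m) * (w - 1) = -(l : Om K) := by
    rw [Finset.sum_mul]
    have h4 : ∀ j ∈ Finset.range l, (∑ m ∈ Finset.range j, w ^ m) * (w - 1) = w ^ j - 1 :=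
      fun j _ => geom_sum_mul w j
    rw [Finset.sum_congr rfl h4, Finset.sum_sub_distrib, h0, Finset.sum_const,
      Finset.card_range, nsmul_eq_mul, mul_one, zero_sub]
  have h5 : (l : Om K) / (w - 1) =
      -(∑ j ∈ Finset.range l, ∑ m ∈ Finset.range j, w ^ m) := by
    rw [div_eq_iff hw, neg_mul, h3, neg_neg]
  rw [h5]
  exact (on_sum P _ _ fun j _ => on_sum P _ _ fun m _ =>
    on_pow P (on_unity P hl h) m).neg

/-- the root nearest to one lies in the decomposition field -/
private theorem on_root {l : ℕ} (hl : l.Prime) {z : K} (hz : IsPrimitiveRoot z l)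
    (P : HeightOneSpectrum (𝓞 K)) {x : Om K} (hfix : FixD (Dec P) x) {d : K} (hd0 : d ≠ 0)
    (hd : (l : ℤ) * ord P (l : K) + 1 ≤ ord P d)
    (hx : InV P ((x - 1) / algebraMap K (Om K) d)) :
    ∃ y : Om K, FixD (Dec P) y ∧ y ^ l = x := by
  classical
  have hl0 : l ≠ 0 := hl.ne_zero
  have hD : algebraMap K (Om K) d ≠ 0 := on_map_ne hd0
  set Z : Om K := algebraMap K (Om K) z with hZd
  have hZ : IsPrimitiveRoot Z l := hz.map_of_injective (algebraMap K (Om K)).injective
  have hZ1 : ∀ i, 0 < i → i < l → Z ^ i ≠ 1 := fun i h1 h2 =>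
    hZ.pow_ne_one_of_pos_of_lt h1.ne' h2
  have hZl : ∀ i, (Z ^ i) ^ l = 1 := fun i => by
    rw [← pow_mul, mul_comm, pow_mul, hZ.pow_eq_one, one_pow]
  have key : ∃ y : Om K, y ^ l = x ∧ ∀ i, 0 < i → i < l →
      ¬ ((1 - y) / (Z ^ i - 1) ≠ 0 ∧ InV P ((1 - y) / (Z ^ i - 1))⁻¹) := by
    by_contra hcon
    push Not at hcon
    obtain ⟨y, hy⟩ := IsAlgClosed.exists_pow_nat_eq x (n := l) hl.pos
    have hA : ∀ ζ ∈ Polynomial.nthRootsFinset l (1 : Om K),
        1 - ζ * y ≠ 0 ∧ InV P ((l : Om K) / (1 - ζ * y)) := by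
      intro ζ hζ
      have hζl : ζ ^ l = 1 := (Polynomial.mem_nthRootsFinset hl.pos (1 : Om K)).1 hζ
      obtain ⟨i, hi0, hil, hne, hV⟩ := hcon (ζ * y) (by rw [mul_pow, hζl, one_mul, hy])
      have hw : Z ^ i - 1 ≠ 0 := sub_ne_zero.2 (hZ1 i hi0 hil)
      have h1 : 1 - ζ * y ≠ 0 := fun h => hne (by rw [h, zero_div])
      refine ⟨h1, ?_⟩
      have h2 := (on_dvd P hl0 (hZl i) (hZ1 i hi0 hil)).mul hV
      have h3 : (l : Om K) / (Z ^ i - 1) * ((1 - ζ * y) / (Z ^ i - 1))⁻¹ =
          (l : Om K) / (1 - ζ * y) := by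
        field_simp
      rwa [h3] at h2
    have hB := on_prod P _ _ fun ζ hζ => (hA ζ hζ).2
    have hP : ∏ ζ ∈ Polynomial.nthRootsFinset l (1 : Om K), (1 - ζ * y) = 1 - x := by
      have h4 := hZ.pow_sub_pow_eq_prod_sub_mul (1 : Om K) y hl.pos
      rw [one_pow, hy] at h4
      exact h4.symm
    have hne : (1 : Om K) - x ≠ 0 := by
      rw [← hP]
      exact Finset.prod_ne_zero_iff.2 fun ζ hζ => (hA ζ hζ).1
    rw [Finset.prod_div_distrib, hP, Finset.prod_const, hZ.card_nthRootsFinset] at hB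
    have h5 := (hB.mul hx).neg
    have h6 : -((l : Om K) ^ l / (1 - x) * ((x - 1) / algebraMap K (Om K) d)) =
        algebraMap K (Om K) ((l : K) ^ l * d⁻¹) := by
      rw [map_mul, map_pow, map_natCast, map_inv₀]
      field_simp
      ring
    rw [h6, inV_base, ord_mul P (pow_ne_zero l (Nat.cast_ne_zero.2 hl0)) (inv_ne_zero hd0),
      ord_pow, ord_inv] at h5
    omega
  obtain ⟨y, hy, hsm⟩ := key
  refine ⟨y, ?_, hy⟩
  intro σ hσ
  have h4 : (σ y) ^ l = y ^ l := by
    rw [← map_pow, hy, hfix σ hσ]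
  by_cases hy0 : y = 0
  · rw [hy0, map_zero]
  have h5 : (σ y / y) ^ l = 1 := by
    rw [div_pow, h4, div_self (pow_ne_zero l hy0)]
  have : NeZero l := ⟨hl0⟩
  obtain ⟨i, hil, hi⟩ := hZ.eq_pow_of_pow_eq_one h5
  have h6 : σ y = Z ^ i * y := by
    rw [hi, div_mul_cancel₀ _ hy0]
  rcases Nat.eq_zero_or_pos i with h0 | h0
  · rw [h6, h0, pow_zero, one_mul]
  exfalso
  have hw : Z ^ i - 1 ≠ 0 := sub_ne_zero.2 (hZ1 i h0 hil)
  have hσZ : σ (Z ^ i - 1) = Z ^ i - 1 := by
    rw [map_sub, map_pow, hZd, σ.commutes, map_one]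
  have h7 : Z ^ i * ((1 - y) / (Z ^ i - 1)) + -σ ((1 - y) / (Z ^ i - 1)) = 1 := by
    rw [map_div₀, hσZ, map_sub, map_one, h6]
    field_simp
    ring
  rcases on_add P h7 with ⟨h8, h9⟩ | ⟨h8, h9⟩
  · refine hsm i h0 hil ⟨fun h => h8 (by rw [h, mul_zero]), ?_⟩
    have hZi : Z ^ i ≠ 0 := pow_ne_zero i (hZ.ne_zero hl0)
    have h10 : ((1 - y) / (Z ^ i - 1))⁻¹ = Z ^ i * (Z ^ i * ((1 - y) / (Z ^ i - 1)))⁻¹ := by
      rw [mul_inv, mul_inv_cancel_left₀ hZi]
    rw [h10]
    exact (on_unity P hl0 (hZl i)).mul h9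
  · refine hsm i h0 hil ⟨fun h => h8 (by rw [h, map_zero, neg_zero]), ?_⟩
    rw [inv_neg] at h9
    have h10 := h9.neg
    rw [neg_neg, ← map_inv₀, inV_dec hσ] at h10
    exact h10

private theorem on_fix_map (P : HeightOneSpectrum (𝓞 K)) (a : K) :
    FixD (Dec P) (algebraMap K (Om K) a) := fun σ _ => σ.commutes a

private theorem on_fix_div {D : Subgroup (Gm K)} {x y : Om K} (hx : FixD D x) (hy : FixD D y) :
    FixD D (x / y) := fun σ hσ => by rw [map_div₀, hx σ hσ, hy σ hσ]

/-- elements of the decomposition field modulo powers -/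
private theorem on_class {l : ℕ} (hl : l.Prime) {z : K} (hz : IsPrimitiveRoot z l)
    (P : HeightOneSpectrum (𝓞 K)) {x : Om K} (hx : x ≠ 0) (hfix : FixD (Dec P) x) :
    ∃ (c : Kˣ) (y : Om K), FixD (Dec P) y ∧ x = algebraMap K (Om K) c * y ^ l := by
  obtain ⟨c, d, hc, hd, hn, hV⟩ := dec_apx P hx hfix ((l : ℤ) * ord P (l : K) + 1).toNat
  have hd' : (l : ℤ) * ord P (l : K) + 1 ≤ ord P d := (Int.self_le_toNat _).trans hn
  obtain ⟨y, hy, hy2⟩ := on_root hl hz P (on_fix_div hfix (on_fix_map P c)) hd hd' hV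
  refine ⟨Units.mk0 c hc, y, hy, ?_⟩
  rw [hy2, Units.val_mk0]
  have hC := on_map_ne hc
  field_simp

/-- local powers are powers in the decomposition field -/
private theorem on_loc {l : ℕ} (hl : l.Prime) {z : K} (hz : IsPrimitiveRoot z l)
    (P : HeightOneSpectrum (𝓞 K)) {a : K} (ha : a ≠ 0) :
    LocW l P a ↔ ∃ y : Om K, FixD (Dec P) y ∧ y ^ l = algebraMap K (Om K) a := by
  have hl0 : l ≠ 0 := hl.ne_zero
  constructor
  · intro h
    obtain ⟨c, hc⟩ := h ((l : ℤ) * ord P (l : K) + 1).toNat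
    rcases hc with hc | hc
    · refine ⟨algebraMap K (Om K) c⁻¹, on_fix_map P _, ?_⟩
      rw [← map_pow, inv_pow]
      congr 1
      exact (eq_inv_of_mul_eq_one_left hc).symm
    · have hc1 : (l : ℤ) * ord P (l : K) + 1 ≤ ord P (a * c ^ l - 1) :=
        (Int.self_le_toNat _).trans hc
      by_cases ht : a * c ^ l - 1 = 0
      · refine ⟨algebraMap K (Om K) c⁻¹, on_fix_map P _, ?_⟩
        rw [← map_pow, inv_pow]
        congr 1
        exact (eq_inv_of_mul_eq_one_left (sub_eq_zero.1 ht)).symm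
      have hc0 : c ≠ 0 := by
        intro h0
        rw [h0, zero_pow hl0, mul_zero, zero_sub, ord_neg, ord_one] at hc1
        have h2 : 0 ≤ ord P (l : K) := by
          have h3 := ord_int_nonneg P (l : 𝓞 K)
          have e : ((l : 𝓞 K) : K) = (l : K) := map_natCast (algebraMap (𝓞 K) K) l
          rwa [e] at h3
        have h4 : (0 : ℤ) ≤ (l : ℤ) * ord P (l : K) := mul_nonneg (Int.natCast_nonneg l) h2
        omega
      have hV : InV P ((algebraMap K (Om K) (a * c ^ l) - 1) /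
          algebraMap K (Om K) (a * c ^ l - 1)) := by
        have e : algebraMap K (Om K) (a * c ^ l) - 1 = algebraMap K (Om K) (a * c ^ l - 1) := by
          rw [map_sub, map_one]
        rw [e, div_self (on_map_ne ht)]
        exact InV.one P
      obtain ⟨y, hy, hy2⟩ := on_root hl hz P (on_fix_map P (a * c ^ l)) ht hc1 hV
      refine ⟨y / algebraMap K (Om K) c, on_fix_div hy (on_fix_map P c), ?_⟩
      have hC := on_map_ne hc0
      rw [div_pow, hy2, map_mul, map_pow]
      field_simp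
  · rintro ⟨y, hy, hy2⟩ n
    have hy0 : y ≠ 0 := by
      intro h
      rw [h, zero_pow hl0] at hy2
      exact on_map_ne ha hy2.symm
    obtain ⟨c, d, hc, hd, hn, hV⟩ := dec_apx P hy0 hy n
    have hC := on_map_ne hc
    have hD := on_map_ne hd
    set t := (y / algebraMap K (Om K) c - 1) / algebraMap K (Om K) d with ht
    have hd0 : 0 ≤ ord P d := (Int.natCast_nonneg n).trans hn
    have e1 : y / algebraMap K (Om K) c = 1 + algebraMap K (Om K) d * t := by
      rw [ht]; field_simp; ring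
    have hq : InV P (1 + algebraMap K (Om K) d * t) :=
      (InV.one P).add ((inV_base.2 hd0).mul hV)
    have h3 : InV P ((∑ j ∈ Finset.range l, (1 + algebraMap K (Om K) d * t) ^ j) * t) :=
      (on_sum P _ _ fun j _ => on_pow P hq j).mul hV
    have e2 : (∑ j ∈ Finset.range l, (1 + algebraMap K (Om K) d * t) ^ j) * t =
        algebraMap K (Om K) ((a * c⁻¹ ^ l - 1) * d⁻¹) := by
      have h4 := geom_sum_mul (1 + algebraMap K (Om K) d * t) l
      rw [add_sub_cancel_left] at h4
      rw [map_mul, map_sub, map_one, map_mul, map_pow, map_inv₀, map_inv₀, ← hy2,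
        ← mul_pow, ← div_eq_mul_inv y, e1, ← h4]
      field_simp
    rw [e2, inV_base] at h3
    refine ⟨c⁻¹, ?_⟩
    by_cases h4 : a * c⁻¹ ^ l - 1 = 0
    · left
      exact sub_eq_zero.1 h4
    · right
      rw [ord_mul P h4 (inv_ne_zero hd), ord_inv] at h3
      omega

end

/-- the decomposition field -/
theorem sone (hK : SKu) : SOne := by
  intro l hl K _ _ z hz P
  have hKu := hK l hl K z hz
  refine ⟨fun a => ?_, fun x hx hfix => on_class hl hz P hx hfix⟩
  rw [on_loc hl hz P a.ne_zero]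
  have hZ : IsPrimitiveRoot (algebraMap K (Om K) z) l :=
    hz.map_of_injective (algebraMap K (Om K)).injective
  constructor
  · intro h
    obtain ⟨y, hy⟩ := IsAlgClosed.exists_pow_nat_eq (algebraMap K (Om K) (a : K)) (n := l) hl.pos
    refine ⟨y, fun σ hσ => ?_, hy⟩
    rw [hKu.root a y hy σ, h σ hσ, ZMod.val_zero, pow_zero, one_mul]
  · rintro ⟨y, hy, hy2⟩ σ hσ
    have : NeZero l := ⟨hl.ne_zero⟩
    have hy0 : y ≠ 0 := by
      intro h
      rw [h, zero_pow hl.ne_zero] at hy2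
      exact on_map_ne a.ne_zero hy2.symm
    have h1 := hKu.root a y hy2 σ
    rw [hy σ hσ] at h1
    have h2 : algebraMap K (Om K) z ^ (chl l z (a : K) σ).val = 1 :=
      (mul_eq_right₀ hy0).1 h1.symm
    have h3 : l ∣ (chl l z (a : K) σ).val := hZ.dvd_of_pow_eq_one _ h2
    have h4 := Nat.eq_zero_of_dvd_of_lt h3 (ZMod.val_lt _)
    exact (ZMod.val_eq_zero _).1 h4

end Pool.Agent.H92.EL
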