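import Mathlib

/-!
# Project ELL (MP_a3214d), row A44: logarithms of Dirichlet series, analysis
-/

set_option autoImplicit false

open scoped BigOperators Topology
open Filter Set

namespace Pool.Agent.H92.EL

section

variable {ι : Type} (c : ι → ℂ) (N : ι → ℝ)

/-- the series -/
noncomputable def pmF (s : ℝ) : ℂ := ∑' i, c i * ((N i ^ (-s) : ℝ) : ℂ)

variable {c N} (hN : ∀ i, 1 ≤ N i) (hc : ∀ i, ‖c i‖ ≤ 1)
  (hs : ∀ s : ℝ, 1 < s → Summable fun i => N i ^ (-s))

include hN hc in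
theorem pm_le (s : ℝ) (i : ι) : ‖c i * ((N i ^ (-s) : ℝ) : ℂ)‖ ≤ N i ^ (-s) := by
  have h0 : (0 : ℝ) ≤ N i ^ (-s) := Real.rpow_nonneg (by linarith [hN i]) _
  rw [norm_mul, Complex.norm_real, Real.norm_of_nonneg h0]
  exact mul_le_of_le_one_left h0 (hc i)

include hN hc hs in
theorem pm_summable {s : ℝ} (h : 1 < s) : Summable fun i => c i * ((N i ^ (-s) : ℝ) : ℂ) :=
  Summable.of_norm_bounded (hs s h) (pm_le hN hc s)

include hN hc hs in
theorem pm_norm {t s : ℝ} (ht : 1 < t) (h : t ≤ s) : ‖pmF c N s‖ ≤ ∑' i, N i ^ (-t) := by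
  refine tsum_of_norm_bounded (hs t ht).hasSum fun i => ?_
  exact (pm_le hN hc s i).trans (Real.rpow_le_rpow_of_exponent_le (hN i) (by linarith))

include hN hc hs in
theorem pm_cont {t : ℝ} (ht : 1 < t) : ContinuousOn (pmF c N) (Ici t) := by
  unfold pmF
  refine continuousOn_tsum (u := fun i => N i ^ (-t)) (fun i => ?_) (hs t ht) fun i x hx => ?_
  · refine Continuous.continuousOn ?_
    have hi : N i ≠ 0 := by linarith [hN i]
    refine continuous_const.mul (Complex.continuous_ofReal.comp ?_)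
    exact (Real.continuous_const_rpow hi).comp continuous_neg
  · exact (pm_le hN hc x i).trans
      (Real.rpow_le_rpow_of_exponent_le (hN i) (by linarith [mem_Ici.1 hx]))

variable {Lf g : ℝ → ℂ} (hL : ContinuousOn Lf (Icc 1 2)) (hg : ContinuousOn g (Icc 1 2))
  (he : ∀ s : ℝ, 1 < s → s ≤ 2 → Lf s = Complex.exp (pmF c N s + g s))

include hL hg he in
/-- upper bound for the real part -/
theorem pm_up : ∃ B : ℝ, ∀ s : ℝ, 1 < s → s ≤ 2 → (pmF c N s).re ≤ B := by
  obtain ⟨M, hM⟩ := isCompact_Icc.exists_bound_of_continuousOn hL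
  obtain ⟨R, hR⟩ := isCompact_Icc.exists_bound_of_continuousOn hg
  refine ⟨Real.log (max M 1) + R, fun s h1 h2 => ?_⟩
  have hs' : s ∈ Icc (1 : ℝ) 2 := ⟨h1.le, h2⟩
  have h3 := hM s hs'
  rw [he s h1 h2, Complex.norm_exp, Complex.add_re] at h3
  have h4 : 0 < max M 1 := lt_of_lt_of_le one_pos (le_max_right _ _)
  have h5 : (pmF c N s).re + (g s).re ≤ Real.log (max M 1) := by
    rw [Real.le_log_iff_exp_le h4]
    exact h3.trans (le_max_left _ _)
  have h6 := (Complex.abs_re_le_norm (g s)).trans (hR s hs')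
  have h7 := (abs_le.1 h6).1
  linarith

include hN hc hs hL hg he in
/-- the logarithm is bounded if its real part is bounded below -/
theorem pm_an (hlow : ∃ B : ℝ, ∀ s : ℝ, 1 < s → s ≤ 2 → -B ≤ (pmF c N s).re) :
    ∃ C : ℝ, ∀ s : ℝ, 1 < s → s ≤ 2 → ‖pmF c N s‖ ≤ C := by
  obtain ⟨B, hB⟩ := hlow
  obtain ⟨B', hB'⟩ := pm_up hL hg he
  obtain ⟨R, hR⟩ := isCompact_Icc.exists_bound_of_continuousOn hg
  -- `Lf 1` is not zero
  obtain ⟨e, he0, hee⟩ : ∃ e : ℝ, 0 < e ∧ ∀ s : ℝ, 1 < s → s ≤ 2 → e ≤ ‖Lf s‖ := by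
    refine ⟨Real.exp (-B - R), Real.exp_pos _, fun s h1 h2 => ?_⟩
    rw [he s h1 h2, Complex.norm_exp, Complex.add_re, Real.exp_le_exp]
    have h6 := (Complex.abs_re_le_norm (g s)).trans (hR s ⟨h1.le, h2⟩)
    have h7 := (abs_le.1 h6).1
    have h8 := hB s h1 h2
    linarith
  have h1c : ContinuousWithinAt Lf (Icc 1 2) 1 := hL 1 ⟨le_rfl, by norm_num⟩
  have hL1 : e ≤ ‖Lf 1‖ := by
    have h1 : Tendsto (fun s => ‖Lf s‖) (𝓝[Ioc (1 : ℝ) 2] 1) (𝓝 ‖Lf 1‖) :=
      (h1c.mono Ioc_subset_Icc_self).norm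
    have h2 : (𝓝[Ioc (1 : ℝ) 2] 1).NeBot := by
      rw [← mem_closure_iff_nhdsWithin_neBot, closure_Ioc (by norm_num)]
      exact ⟨le_rfl, by norm_num⟩
    refine ge_of_tendsto h1 ?_
    filter_upwards [self_mem_nhdsWithin] with s hs1
    exact hee s hs1.1 hs1.2
  have hL0 : Lf 1 ≠ 0 := by
    intro h
    rw [h, norm_zero] at hL1
    linarith
  -- near `1`
  obtain ⟨δ, hδ0, hδ⟩ := Metric.continuousWithinAt_iff.1 h1c (e / 2) (by positivity)
  obtain ⟨t, ht1, ht2, htδ⟩ : ∃ t : ℝ, 1 < t ∧ t ≤ 2 ∧ t < 1 + δ := by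
    refine ⟨1 + min (δ / 2) 1, ?_, ?_, ?_⟩
    · have : 0 < min (δ / 2) 1 := lt_min (by positivity) one_pos
      linarith
    · have := min_le_right (δ / 2) 1
      linarith
    · have := min_le_left (δ / 2) 1
      linarith
  set w : ℂ := Complex.log (Lf 1) with hw
  have hew : Complex.exp w = Lf 1 := Complex.exp_log hL0
  set h : ℝ → ℂ := fun s => pmF c N s + g s - w with hh
  have hexp : ∀ s : ℝ, 1 < s → s ≤ 2 → Complex.exp (h s) = Lf s / Lf 1 := by
    intro s h1 h2
    rw [hh]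
    beta_reduce
    rw [Complex.exp_sub, hew, he s h1 h2]
  have hcos : ∀ s : ℝ, 1 < s → s ≤ t → 0 < Real.cos (h s).im := by
    intro s h1 h2
    have h3 := hδ (x := s) ⟨h1.le, h2.trans ht2⟩ (by
      rw [Real.dist_eq, abs_of_nonneg (by linarith)]
      linarith)
    rw [dist_eq_norm] at h3
    have h4 : Lf s / Lf 1 - 1 = (Lf s - Lf 1) / Lf 1 := by
      rw [sub_div, div_self hL0]
    have h5 : ‖Complex.exp (h s) - 1‖ < 1 := by
      rw [hexp s h1 (h2.trans ht2), h4, norm_div, div_lt_one (lt_of_lt_of_le he0 hL1)]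
      linarith
    have h6 : 0 < (Complex.exp (h s)).re := by
      have h7 := (Complex.abs_re_le_norm (Complex.exp (h s) - 1)).trans_lt h5
      rw [Complex.sub_re, Complex.one_re] at h7
      linarith [(abs_lt.1 h7).1]
    rw [Complex.exp_re] at h6
    exact (pos_iff_pos_of_mul_pos h6).1 (Real.exp_pos _)
  have hhc : ∀ s : ℝ, 1 < s → ContinuousOn (fun x => (h x).im) (Icc s t) := by
    intro s h1
    have h2 : ContinuousOn h (Icc s t) := by
      rw [hh]
      refine (ContinuousOn.add ?_ ?_).sub continuousOn_const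
      · exact (pm_cont hN hc hs h1).mono fun x hx => hx.1
      · exact hg.mono fun x hx => ⟨h1.le.trans hx.1, hx.2.trans ht2⟩
    exact Complex.continuous_im.comp_continuousOn h2
  have him : ∀ s : ℝ, 1 < s → s ≤ t → |(h s).im - (h t).im| < Real.pi := by
    intro s h1 h2
    by_contra hcon
    rw [not_lt] at hcon
    have hpi := Real.pi_pos
    have h3 := intermediate_value_uIcc (f := fun x => (h x).im) (a := s) (b := t)
      (by rw [uIcc_of_le h2]; exact hhc s h1)
    have h4 : ∃ y ∈ uIcc (h s).im (h t).im, Real.cos y < 0 := by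
      have h5 := hcos t ht1 le_rfl
      rcases le_or_gt (h t).im (h s).im with h6 | h6
      · rw [abs_of_nonneg (by linarith)] at hcon
        refine ⟨(h t).im + Real.pi, ?_, ?_⟩
        · rw [uIcc_of_ge h6]
          exact ⟨by linarith, by linarith⟩
        · rw [Real.cos_add_pi]
          linarith
      · rw [abs_of_neg (by linarith)] at hcon
        refine ⟨(h t).im - Real.pi, ?_, ?_⟩
        · rw [uIcc_of_le h6.le]
          exact ⟨by linarith, by linarith⟩
        · rw [Real.cos_sub_pi]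
          linarith
    obtain ⟨y, hy, hy0⟩ := h4
    obtain ⟨x, hx, hxy⟩ := h3 hy
    rw [uIcc_of_le h2] at hx
    have h5 := hcos x (h1.trans_le hx.1) hx.2
    beta_reduce at hxy
    rw [hxy] at h5
    linarith
  refine ⟨max (|B| + |B'| + (|(h t).im| + Real.pi + R + ‖w‖)) (∑' i, N i ^ (-t)),
    fun s h1 h2 => ?_⟩
  rcases le_or_gt s t with h3 | h3
  · refine le_trans ?_ (le_max_left _ _)
    have h4 : |(pmF c N s).re| ≤ |B| + |B'| := by
      have e1 := hB s h1 h2
      have e2 := hB' s h1 h2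
      have e3 := le_abs_self B
      have e4 := le_abs_self B'
      have e5 := abs_nonneg B
      have e6 := abs_nonneg B'
      rw [abs_le]
      constructor <;> linarith
    have h5 : |(pmF c N s).im| ≤ |(h t).im| + Real.pi + R + ‖w‖ := by
      have e0 : (h s).im = (pmF c N s).im + (g s).im - w.im := rfl
      have e1 := (abs_lt.1 (him s h1 h3))
      have e2 := abs_le.1 ((Complex.abs_im_le_norm (g s)).trans (hR s ⟨h1.le, h2⟩))
      have e3 := abs_le.1 (Complex.abs_im_le_norm w)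
      have e4 := abs_le.1 (le_refl |(h t).im|)
      rw [abs_le]
      constructor <;> linarith [e1.1, e1.2, e2.1, e2.2, e3.1, e3.2, e4.1, e4.2]
    have h6 := Complex.norm_le_abs_re_add_abs_im (pmF c N s)
    linarith
  · exact (pm_norm hN hc hs ht1 h3.le).trans (le_max_right _ _)

end

end Pool.Agent.H92.EL
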