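import Pool.Agent.H92.EL.Gl
import Pool.Agent.H92.EL.PmAn
import Pool.Agent.H98.MF.C.Val

/-!
# Project ELL (MP_a3214d), row A44: the prime sums of the characters are bounded
-/

set_option autoImplicit false

open scoped BigOperators Topology
open NumberField IsDedekindDomain Filter

namespace Pool.Agent.H92.EL

open Pool.Agent.H98.MF (Om Gm ord Dec US PrS SUn mS nrm gen FixD)
open Pool.Agent.H98.MF.B (mem_US US_mono gen_spec ord_alg_nonneg)

section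

variable {l : ℕ} [Fact l.Prime] {K : Type} [Field K] [NumberField K] {z : K}

omit [Fact l.Prime] in
theorem pm_ordl {S : Finset (HeightOneSpectrum (𝓞 K))} (hS : AdmL l S)
    {Q : HeightOneSpectrum (𝓞 K)} (hQ : Q ∉ S) : ord Q (l : K) = 0 := by
  have h1 := ord_alg_nonneg Q (l : 𝓞 K)
  rw [map_natCast] at h1
  have h2 : ¬ 0 < ord Q (l : K) := fun h => hQ (hS.mem Q h)
  omega

/-- the value of the functional at the generators -/
theorem pm_val (G : GSy l K z) {S : Finset (HeightOneSpectrum (𝓞 K))} (hS : AdmL l S)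
    {a : Kˣ} (ha : a ∈ US S) {ψ : Kˣ →* Multiplicative (ZMod l)}
    (hψ : ∀ x : Kˣ, vl l ψ x = ∑ P ∈ S, G.hs P a x) {Q : HeightOneSpectrum (𝓞 K)}
    (hQ : Q ∉ S) : vl l ψ (gen S Q) = 0 ↔ LocW l Q (a : K) := by
  classical
  obtain ⟨h1, h2⟩ := gen_spec hS.prS hQ
  have hl := pm_ordl hS hQ
  have ha0 : ord Q (a : K) = 0 := mem_US.1 ha Q hQ
  have hp := G.prd (insert Q S) (fun P hP => Finset.mem_insert_of_mem (hS.mem P hP)) a
    (US_mono (Finset.subset_insert _ _) ha) (gen S Q)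
    (mem_US.2 fun R hR => h2 R (fun h => hR (Finset.mem_insert_of_mem h))
      (fun h => hR (h ▸ Finset.mem_insert_self _ _)))
  rw [Finset.sum_insert hQ, ← hψ] at hp
  have hu := G.unit Q a (gen S Q) hl ha0
  rw [h1, Int.cast_one, one_mul] at hu
  have hv : vl l ψ (gen S Q) = - (G.cc Q * lgs l z Q (a : K)) := by
    linear_combination hp - hu
  have hn := G.nd Q a
  constructor
  · intro h
    rw [← hn]
    intro b
    rw [G.unit Q a b hl ha0]
    have h3 : G.cc Q * lgs l z Q (a : K) = 0 := by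
      rw [hv, neg_eq_zero] at h
      exact h
    have h4 := (mul_eq_zero.1 h3).resolve_left (G.cc_ne Q)
    rw [h4, mul_zero, mul_zero]
  · intro h
    have h3 := (hn.2 h) (gen S Q)
    rw [hu] at h3
    rw [hv, h3, neg_zero]

theorem pm_one (Y : LSy l K z) (P : HeightOneSpectrum (𝓞 K)) (x : Kˣ) : Y.hs P 1 x = 0 := by
  have h := Y.mulL P 1 1 x
  rw [mul_one] at h
  linear_combination -h

theorem pm_pow (Y : LSy l K z) (P : HeightOneSpectrum (𝓞 K)) (b x : Kˣ) (n : ℕ) :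
    Y.hs P (b ^ n) x = n * Y.hs P b x := by
  induction n with
  | zero => rw [pow_zero, pm_one, Nat.cast_zero, zero_mul]
  | succ n ih =>
    rw [pow_succ, Y.mulL, ih]
    push_cast
    ring

omit [NumberField K] in
theorem pm_eq_one {ψ : Kˣ →* Multiplicative (ZMod l)} (h : ∀ x, vl l ψ x = 0) : ψ = 1 :=
  MonoidHom.ext fun x => Multiplicative.toAdd.injective (h x)

theorem pm_npw (G : GSy l K z) {S : Finset (HeightOneSpectrum (𝓞 K))}
    {a : Kˣ} {ψ : Kˣ →* Multiplicative (ZMod l)}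
    (hψ : ∀ x : Kˣ, vl l ψ x = ∑ P ∈ S, G.hs P a x) (h1 : ψ ≠ 1) :
    a ∉ pw l (⊤ : Subgroup Kˣ) := by
  rintro ⟨b, -, hb⟩
  apply h1
  refine pm_eq_one fun x => ?_
  rw [hψ]
  refine Finset.sum_eq_zero fun P _ => ?_
  have hb' : b ^ l = a := hb
  rw [← hb', pm_pow, ZMod.natCast_self, zero_mul]

omit [NumberField K] in
theorem pm_vlpow (ψ : Kˣ →* Multiplicative (ZMod l)) (n : ℕ) (x : Kˣ) :
    vl l (ψ ^ n) x = n * vl l ψ x := by
  unfold vl
  rw [MonoidHom.pow_apply, toAdd_pow, nsmul_eq_mul]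

/-- powers of a functional -/
theorem pm_fnl {S : Finset (HeightOneSpectrum (𝓞 K))} {ψ : Kˣ →* Multiplicative (ZMod l)}
    (h : FnL l S ψ) (h1 : ψ ≠ 1) {j : ZMod l} (hj : j ≠ 0) :
    FnL l S (ψ ^ j.val) ∧ ψ ^ j.val ≠ 1 := by
  refine ⟨⟨fun a ha => ?_, fun a ha => ?_⟩, fun h2 => h1 (pm_eq_one fun x => ?_)⟩
  · rw [MonoidHom.pow_apply, h.unit a ha, one_pow]
  · rw [MonoidHom.pow_apply, h.loc a ha, one_pow]
  · have h3 := pm_vlpow ψ j.val x
    have h4 : vl l (ψ ^ j.val) x = 0 := by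
      rw [h2]
      rfl
    rw [h4, ZMod.natCast_zmod_val] at h3
    exact (mul_eq_zero.1 h3.symm).resolve_left hj

theorem pm_nrm (Q : HeightOneSpectrum (𝓞 K)) : (1 : ℝ) ≤ nrm Q := by
  have h1 : nrm Q ≠ 0 := by
    unfold Pool.Agent.H98.MF.nrm
    exact fun h => Q.ne_bot (Ideal.absNorm_eq_zero_iff.1 h)
  exact_mod_cast Nat.one_le_iff_ne_zero.2 h1

/-- comparison of the sums -/
theorem pm_cmp (hA : AnL l K) (S : Finset (HeightOneSpectrum (𝓞 K))) (a : Kˣ)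
    (v : HeightOneSpectrum (𝓞 K) → ZMod l) (hv : ∀ Q, Q ∉ S → LocW l Q (a : K) → v Q = 0)
    {s : ℝ} (hs : 1 < s) :
    ∑' Q : {Q : HeightOneSpectrum (𝓞 K) // LocW l Q (a : K)}, (nrm Q.1 : ℝ) ^ (-s) ≤
      (∑' Q : {Q : HeightOneSpectrum (𝓞 K) // Q ∉ S}, (if v Q.1 = 0 then 1 else 0) *
        (nrm Q.1 : ℝ) ^ (-s)) + S.card := by
  classical
  have hsm := hA.sm s hs
  have hf0 : ∀ Q : HeightOneSpectrum (𝓞 K), 0 ≤ (nrm Q : ℝ) ^ (-s) := fun Q =>
    Real.rpow_nonneg (Nat.cast_nonneg _) _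
  have hf1 : ∀ Q : HeightOneSpectrum (𝓞 K), (nrm Q : ℝ) ^ (-s) ≤ 1 := fun Q =>
    Real.rpow_le_one_of_one_le_of_nonpos (pm_nrm Q) (by linarith)
  have e1 : ∑' Q : {Q : HeightOneSpectrum (𝓞 K) // LocW l Q (a : K)}, (nrm Q.1 : ℝ) ^ (-s) =
      ∑' Q, Set.indicator {Q : HeightOneSpectrum (𝓞 K) | LocW l Q (a : K)}
        (fun Q => (nrm Q : ℝ) ^ (-s)) Q :=
    tsum_subtype {Q : HeightOneSpectrum (𝓞 K) | LocW l Q (a : K)}
      (fun Q => (nrm Q : ℝ) ^ (-s))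
  have e2 : ∑' Q : {Q : HeightOneSpectrum (𝓞 K) // Q ∉ S}, (if v Q.1 = 0 then (1 : ℝ) else 0) *
        (nrm Q.1 : ℝ) ^ (-s) = ∑' Q, Set.indicator {Q : HeightOneSpectrum (𝓞 K) | Q ∉ S}
        (fun Q => (if v Q = 0 then (1 : ℝ) else 0) * (nrm Q : ℝ) ^ (-s)) Q :=
    tsum_subtype {Q : HeightOneSpectrum (𝓞 K) | Q ∉ S}
      (fun Q => (if v Q = 0 then (1 : ℝ) else 0) * (nrm Q : ℝ) ^ (-s))
  have e3 : ∑' Q : HeightOneSpectrum (𝓞 K), (if Q ∈ S then (1 : ℝ) else 0) = S.card := by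
    rw [tsum_eq_sum (s := S) fun Q hQ => if_neg hQ, Finset.sum_congr rfl fun Q hQ => if_pos hQ,
      Finset.sum_const, nsmul_eq_mul, mul_one]
  have s3 : Summable fun Q : HeightOneSpectrum (𝓞 K) => (if Q ∈ S then (1 : ℝ) else 0) :=
    summable_of_ne_finset_zero (s := S) fun Q hQ => if_neg hQ
  have s2 : Summable (Set.indicator {Q : HeightOneSpectrum (𝓞 K) | Q ∉ S}
        (fun Q => (if v Q = 0 then (1 : ℝ) else 0) * (nrm Q : ℝ) ^ (-s))) := by
    refine Summable.indicator ?_ _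
    refine Summable.of_nonneg_of_le (fun Q => ?_) (fun Q => ?_) hsm
    · split_ifs
      · rw [one_mul]; exact hf0 Q
      · rw [zero_mul]
    · split_ifs
      · rw [one_mul]
      · rw [zero_mul]; exact hf0 Q
  rw [e1, e2, ← e3, ← s2.tsum_add s3]
  refine (hsm.indicator _).tsum_le_tsum (fun Q => ?_) (s2.add s3)
  by_cases hQ : Q ∈ S
  · rw [if_pos hQ]
    have h1 : Set.indicator {Q : HeightOneSpectrum (𝓞 K) | Q ∉ S}
        (fun Q => (if v Q = 0 then (1 : ℝ) else 0) * (nrm Q : ℝ) ^ (-s)) Q = 0 :=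
      Set.indicator_of_notMem (show Q ∉ {Q : HeightOneSpectrum (𝓞 K) | Q ∉ S} from
        fun h => h hQ) _
    rw [h1, zero_add]
    refine (Set.indicator_le_self' (fun _ _ => hf0 _) Q).trans (hf1 Q)
  · rw [if_neg hQ, add_zero]
    have h1 : Set.indicator {Q : HeightOneSpectrum (𝓞 K) | Q ∉ S}
        (fun Q => (if v Q = 0 then (1 : ℝ) else 0) * (nrm Q : ℝ) ^ (-s)) Q =
          (if v Q = 0 then (1 : ℝ) else 0) * (nrm Q : ℝ) ^ (-s) :=
      Set.indicator_of_mem (show Q ∈ {Q : HeightOneSpectrum (𝓞 K) | Q ∉ S} from hQ) _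
    rw [h1]
    by_cases hw : LocW l Q (a : K)
    · rw [if_pos (hv Q hQ hw), one_mul]
      exact Set.indicator_le_self' (fun _ _ => hf0 _) Q
    · rw [Set.indicator_of_notMem (show Q ∉ {Q | LocW l Q (a : K)} from hw)]
      split_ifs
      · rw [one_mul]; exact hf0 Q
      · rw [zero_mul]

end

/-- the field `prm` -/
theorem prm_of (hA : SAn) (hD : GlDu) : GlPrm := by
  classical
  intro l _ hl K _ _ z hz G S hS ψ hψ hψ1
  obtain ⟨a, ha, hdu⟩ := hD l hl K z hz G S hS ψ hψ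
  have hAn : AnL l K := hA l hl K z hz
  have hnp := pm_npw G hdu hψ1
  obtain ⟨C4, hC4⟩ := hAn.n4
  obtain ⟨Ca, hCa⟩ := hAn.n4a a hnp
  obtain ⟨v, hv⟩ : ∃ v : HeightOneSpectrum (𝓞 K) → ZMod l, v = fun Q => vl l ψ (gen S Q) :=
    ⟨_, rfl⟩
  obtain ⟨c, hc⟩ : ∃ c : ZMod l → {Q : HeightOneSpectrum (𝓞 K) // Q ∉ S} → ℂ,
      c = fun j Q => ZMod.stdAddChar (j * v Q.1) := ⟨_, rfl⟩
  obtain ⟨N, hN⟩ : ∃ N : {Q : HeightOneSpectrum (𝓞 K) // Q ∉ S} → ℝ,
      N = fun Q => (nrm Q.1 : ℝ) := ⟨_, rfl⟩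
  have hN1 : ∀ Q, 1 ≤ N Q := fun Q => by rw [hN]; exact pm_nrm Q.1
  have hc1 : ∀ j Q, ‖c j Q‖ ≤ 1 := fun j Q => by rw [hc]; exact (AddChar.norm_apply _ _).le
  have hsN : ∀ s : ℝ, 1 < s → Summable fun Q => N Q ^ (-s) := fun s hs => by
    rw [hN]
    exact (hAn.sm s hs).comp_injective Subtype.val_injective
  -- upper bounds
  have hup : ∀ j : ZMod l, ∃ B : ℝ, j ≠ 0 → ∀ s : ℝ, 1 < s → s ≤ 2 →
      (pmF (c j) N s).re ≤ B := by
    intro j
    by_cases hj : j = 0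
    · exact ⟨0, fun h => absurd hj h⟩
    · obtain ⟨h1, h2⟩ := pm_fnl hψ hψ1 hj
      obtain ⟨Lf, g, hL, hg, he⟩ := hAn.n2 S hS _ h1 h2
      obtain ⟨B, hB⟩ := pm_up (c := c j) (N := N) hL hg (fun s h3 h4 => by
        rw [he s h3 h4, hc, hN]
        unfold pmF
        congr 2
        refine tsum_congr fun Q => ?_
        rw [pm_vlpow, ZMod.natCast_zmod_val, hv])
      exact ⟨B, fun _ => hB⟩
  choose B hB using hup
  obtain ⟨Lf, g, hL, hg, he⟩ := hAn.n2 S hS ψ hψ hψ1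
  have hc1' : ∀ Q, c 1 Q = ZMod.stdAddChar (vl l ψ (gen S Q.1)) := fun Q => by
    rw [hc, hv]
    beta_reduce
    rw [one_mul]
  have he1 : ∀ s : ℝ, 1 < s → s ≤ 2 → Lf s = Complex.exp (pmF (c 1) N s + g s) := by
    intro s h3 h4
    rw [he s h3 h4, hN]
    unfold pmF
    congr 2
    exact tsum_congr fun Q => by rw [hc1']
  -- the sum over all characters
  have hall : ∀ s : ℝ, 1 < s → ∑ j : ZMod l, (pmF (c j) N s).re =
      l * ∑' Q : {Q : HeightOneSpectrum (𝓞 K) // Q ∉ S}, (if v Q.1 = 0 then (1 : ℝ) else 0) *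
        (nrm Q.1 : ℝ) ^ (-s) := by
    intro s hs
    rw [← Complex.re_sum]
    unfold pmF
    rw [← Summable.tsum_finsetSum fun j _ => pm_summable hN1 (hc1 j) hsN hs]
    have h1 : ∀ Q : {Q : HeightOneSpectrum (𝓞 K) // Q ∉ S},
        ∑ j : ZMod l, c j Q * ((N Q ^ (-s) : ℝ) : ℂ) =
          (((l * ((if v Q.1 = 0 then (1 : ℝ) else 0) * (nrm Q.1 : ℝ) ^ (-s)) : ℝ)) : ℂ) := by
      intro Q
      rw [← Finset.sum_mul, hc, hN]
      beta_reduce
      rw [AddChar.sum_mulShift _ (ZMod.isPrimitive_stdAddChar l), ZMod.card]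
      split_ifs <;> push_cast <;> ring
    rw [tsum_congr h1, ← Complex.ofReal_tsum, Complex.ofReal_re, tsum_mul_left]
  have hzero : ∀ s : ℝ, 1 < s → (pmF (c 0) N s).re ≤
      ∑' Q : HeightOneSpectrum (𝓞 K), (nrm Q : ℝ) ^ (-s) := by
    intro s hs
    have h1 := pm_norm hN1 (hc1 0) hsN hs le_rfl
    have h2 := (Complex.re_le_norm (pmF (c 0) N s)).trans h1
    refine h2.trans ?_
    rw [hN]
    have hsm := hAn.sm s hs
    have hf0 : ∀ Q : HeightOneSpectrum (𝓞 K), 0 ≤ (nrm Q : ℝ) ^ (-s) := fun Q =>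
      Real.rpow_nonneg (Nat.cast_nonneg _) _
    exact hsm.tsum_subtype_le _ {Q | Q ∉ S} hf0
  have hlow : ∃ B' : ℝ, ∀ s : ℝ, 1 < s → s ≤ 2 → -B' ≤ (pmF (c 1) N s).re := by
    refine ⟨l * Ca + l * S.card + C4 + ∑ j ∈ (Finset.univ.erase (0 : ZMod l)).erase 1, B j,
      fun s h1 h2 => ?_⟩
    have e1 := hall s h1
    have e2 := pm_cmp hAn S a v (fun Q hQ hw => by
      rw [hv]
      exact (pm_val G hS ha hdu hQ).2 hw) h1
    have e3 := abs_le.1 (hC4 s h1 h2)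
    have e4 := abs_le.1 (hCa s h1 h2)
    have e5 := hzero s h1
    have h01 : (1 : ZMod l) ∈ Finset.univ.erase (0 : ZMod l) :=
      Finset.mem_erase.2 ⟨one_ne_zero, Finset.mem_univ _⟩
    rw [← Finset.add_sum_erase _ _ (Finset.mem_univ (0 : ZMod l)),
      ← Finset.add_sum_erase _ _ h01] at e1
    have e6 : ∑ j ∈ (Finset.univ.erase (0 : ZMod l)).erase 1, (pmF (c j) N s).re ≤
        ∑ j ∈ (Finset.univ.erase (0 : ZMod l)).erase 1, B j := by
      refine Finset.sum_le_sum fun j hj => hB j ?_ s h1 h2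
      exact (Finset.mem_erase.1 (Finset.mem_erase.1 hj).2).1
    have hl0 : (0 : ℝ) < l := by exact_mod_cast (Fact.out : l.Prime).pos
    have e7 := mul_le_mul_of_nonneg_left e2 hl0.le
    have e8 := mul_le_mul_of_nonneg_left e4.1 hl0.le
    have e9 : (l : ℝ) * (1 / l * Real.log (1 / (s - 1))) = Real.log (1 / (s - 1)) := by
      field_simp
    rw [mul_sub, e9] at e8
    linarith [e3.1, e3.2]
  obtain ⟨C, hC⟩ := pm_an hN1 (hc1 1) hsN hL hg he1 hlow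
  refine ⟨C, fun s h1 h2 => ?_⟩
  have h3 := hC s h1 h2
  unfold pmF at h3
  rw [hN] at h3
  have h4 : ∑' Q : {Q : HeightOneSpectrum (𝓞 K) // Q ∉ S},
      ZMod.stdAddChar (vl l ψ (gen S Q.1)) * (((nrm Q.1 : ℝ) ^ (-s) : ℝ) : ℂ) =
      ∑' Q : {Q : HeightOneSpectrum (𝓞 K) // Q ∉ S},
        c 1 Q * (((nrm Q.1 : ℝ) ^ (-s) : ℝ) : ℂ) :=
    tsum_congr fun Q => by rw [hc1']
  rw [h4]
  exact h3

end Pool.Agent.H92.EL
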