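import Pool.Agent.H92.EL.AStm
import Pool.Agent.H98.MF.C.Bas

/-!
# Project ELL (MP_a3214d), block A: the functional of one element (second inequality)
-/

set_option autoImplicit false
set_option linter.unusedSectionVars false

open scoped BigOperators Pointwise
open NumberField IsDedekindDomain

namespace Pool.Agent.H92.EL

open Pool.Agent.H98.MF (Om Gm ord Dec US PrS SUn mS nrm gen FixD)
open Pool.Agent.H98.MF.B (mem_US US_mono exists_mem_US gen_spec)

section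

variable {l : ℕ} [Fact l.Prime]

/-! ### groups -/

private theorem r1_tor {G : Type} [CommGroup G] (H : Subgroup G) (hH : ∀ x : G, x ^ l ∈ H)
    (v : Additive (G ⧸ H)) : l • v = 0 := by
  obtain ⟨q, rfl⟩ := Additive.ofMul.surjective v
  obtain ⟨x, rfl⟩ := QuotientGroup.mk_surjective q
  rw [← ofMul_pow, ← QuotientGroup.mk_pow, ofMul_eq_zero, QuotientGroup.eq_one_iff]
  exact hH x

private def r1_hom {G : Type} [CommGroup G] (H : Subgroup G) (f : Additive (G ⧸ H) →+ ZMod l) :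
    G →* Multiplicative (ZMod l) where
  toFun g := Multiplicative.ofAdd (f (Additive.ofMul (g : G ⧸ H)))
  map_one' := by simp
  map_mul' x y := by
    rw [QuotientGroup.mk_mul, ofMul_mul, map_add, ofAdd_add]

private theorem r1_dual {k V : Type} [Field k] [AddCommGroup V] [Module k V] {v : V}
    (hv : v ≠ 0) : ∃ f : V →+ k, f v ≠ 0 := by
  by_contra h
  push Not at h
  exact hv ((Module.forall_dual_apply_eq_zero_iff k v).1 fun φ => h φ.toAddMonoidHom)

/-- homomorphisms to `ZMod l` separate a subgroup containing the `l`-th powers -/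
private theorem r1_sep {G : Type} [CommGroup G] (H : Subgroup G) (hH : ∀ x : G, x ^ l ∈ H) (x : G)
    (hx : x ∉ H) : ∃ ψ : G →* Multiplicative (ZMod l), (∀ y ∈ H, ψ y = 1) ∧ ψ x ≠ 1 := by
  let _ : Module (ZMod l) (Additive (G ⧸ H)) := AddCommGroup.zmodModule (r1_tor H hH)
  have h1 : (Additive.ofMul (x : G ⧸ H)) ≠ 0 := by
    rw [Ne, ofMul_eq_zero, QuotientGroup.eq_one_iff]
    exact hx
  obtain ⟨φ, hφ⟩ := r1_dual (k := ZMod l) h1
  refine ⟨r1_hom H φ, fun y hy => ?_, fun h => hφ ?_⟩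
  · change Multiplicative.ofAdd (φ (Additive.ofMul (y : G ⧸ H))) = 1
    rw [(QuotientGroup.eq_one_iff y).2 hy, ofMul_one, map_zero, ofAdd_zero]
  · exact ofAdd_eq_one.1 h

private theorem r1_vl1 {G : Type} [Group G] {ω : G →* Multiplicative (ZMod l)} {x : G} :
    vl l ω x = 0 ↔ ω x = 1 :=
  ⟨fun h => congrArg Multiplicative.ofAdd h, fun h => congrArg Multiplicative.toAdd h⟩

private theorem r1_ne {G : Type} [Group G] {ω : G →* Multiplicative (ZMod l)} (h : ω ≠ 1) :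
    ∃ x, vl l ω x ≠ 0 := by
  by_contra hc
  push Not at hc
  apply h
  ext x
  exact congrArg Multiplicative.ofAdd (hc x)

private theorem r1_pow {G : Type} [CommGroup G] (ω : G →* Multiplicative (ZMod l)) (n : ℕ)
    (x : G) : vl l (ω ^ n) x = n * vl l ω x := by
  unfold vl
  rw [MonoidHom.pow_apply, toAdd_pow, nsmul_eq_mul]

private theorem r1_mul {G : Type} [CommGroup G] (ω ψ : G →* Multiplicative (ZMod l))
    (x : G) : vl l (ω * ψ) x = vl l ω x + vl l ψ x := by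
  unfold vl
  rw [MonoidHom.mul_apply, toAdd_mul]

end

section

variable {l : ℕ} [Fact l.Prime] {K : Type} [Field K] [NumberField K] {z : K} (Y : LSy l K z)

private theorem r1_anti (P : HeightOneSpectrum (𝓞 K)) (a b : Kˣ) : Y.hs P a b = - Y.hs P b a := by
  have h := Y.alt P (a * b)
  rw [Y.mulL, Y.mulR, Y.mulR, Y.alt, Y.alt] at h
  linear_combination h

private theorem r1_oneR (P : HeightOneSpectrum (𝓞 K)) (a : Kˣ) : Y.hs P a 1 = 0 := by
  have h := Y.mulR P a 1 1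
  rw [mul_one] at h
  linear_combination -h

private theorem r1_powR (P : HeightOneSpectrum (𝓞 K)) (a b : Kˣ) (n : ℕ) :
    Y.hs P a (b ^ n) = n * Y.hs P a b := by
  induction n with
  | zero => rw [pow_zero, r1_oneR]; simp
  | succ n ih => rw [pow_succ, Y.mulR, ih]; push_cast; ring

private theorem r1_locR {P : HeightOneSpectrum (𝓞 K)} {b : Kˣ} (a : Kˣ)
    (h : LocW l P (b : K)) : Y.hs P a b = 0 := by
  rw [r1_anti, (Y.nd P b).2 h, neg_zero]

private theorem r1_congr (hM : SMem) {P : HeightOneSpectrum (𝓞 K)} {x c : Kˣ} (a : Kˣ)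
    (h : x / c ∈ WS l P) : Y.hs P a x = Y.hs P a c := by
  have h1 : Y.hs P a (x / c) = 0 := r1_locR Y a ((hM l (Fact.out) K P _).1 h)
  have h2 : x = x / c * c := by rw [div_mul_cancel]
  rw [h2, Y.mulR, h1, zero_add]

/-- the symbol as a homomorphism -/
private def r1_hs (P : HeightOneSpectrum (𝓞 K)) (a : Kˣ) : Kˣ →* Multiplicative (ZMod l) where
  toFun b := Multiplicative.ofAdd (Y.hs P a b)
  map_one' := by rw [r1_oneR]; rfl
  map_mul' b c := by rw [Y.mulR]; rfl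

/-- the elements pairing to zero with `a` at `S` -/
private def r1H (S : Finset (HeightOneSpectrum (𝓞 K))) (a : Kˣ) : Subgroup Kˣ :=
  ⨅ P ∈ S, (r1_hs Y P a).ker

private theorem r1_memH {S : Finset (HeightOneSpectrum (𝓞 K))} {a b : Kˣ} :
    b ∈ r1H Y S a ↔ ∀ P ∈ S, Y.hs P a b = 0 := by
  unfold r1H
  simp only [Subgroup.mem_iInf, MonoidHom.mem_ker]
  refine forall_congr' fun P => forall_congr' fun _ => ?_
  exact ⟨fun h => congrArg Multiplicative.toAdd h, fun h => congrArg Multiplicative.ofAdd h⟩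

private theorem r1_powH (S : Finset (HeightOneSpectrum (𝓞 K))) (a x : Kˣ) :
    x ^ l ∈ r1H Y S a := by
  rw [r1_memH]
  intro P _
  rw [r1_powR]
  simp

/-- prescribed symbols -/
private theorem r1_surj (hM : SMem) (hW : SWk) (S : Finset (HeightOneSpectrum (𝓞 K))) (a : Kˣ)
    (g : HeightOneSpectrum (𝓞 K) → ZMod l) :
    ∃ b : Kˣ, ∀ P ∈ S, ¬ LocW l P (a : K) → Y.hs P a b = g P := by
  have h1 : ∀ P : HeightOneSpectrum (𝓞 K), ∃ x : Kˣ, ¬ LocW l P (a : K) → Y.hs P a x = g P := by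
    intro P
    by_cases ha : LocW l P (a : K)
    · exact ⟨1, fun h => absurd ha h⟩
    · have h2 : ¬ ∀ b : Kˣ, Y.hs P a b = 0 := fun h => ha ((Y.nd P a).1 h)
      push Not at h2
      obtain ⟨b, hb⟩ := h2
      refine ⟨b ^ (g P / Y.hs P a b).val, fun _ => ?_⟩
      rw [r1_powR, ZMod.natCast_zmod_val, div_mul_cancel₀ _ hb]
  choose x hx using h1
  obtain ⟨b, hb⟩ := hW l Fact.out K S x
  refine ⟨b, fun P hP hP' => ?_⟩
  rw [r1_congr Y hM a (hb P hP)]
  exact hx P hP'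

open Classical in
/-- the vector of symbols -/
private noncomputable def r1F (S : Finset (HeightOneSpectrum (𝓞 K))) (a : Kˣ) :
    Kˣ →* ({P // P ∈ S.filter fun P => ¬ LocW l P (a : K)} → Multiplicative (ZMod l)) :=
  MonoidHom.pi (fun v => r1_hs Y v.1 a)

private theorem r1F_ker (S : Finset (HeightOneSpectrum (𝓞 K))) (a : Kˣ) :
    (r1F Y S a).ker = r1H Y S a := by
  classical
  ext b
  rw [MonoidHom.mem_ker, r1_memH]
  constructor
  · intro h P hP
    by_cases hL : LocW l P (a : K)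
    · exact (Y.nd P a).2 hL b
    · have h1 := congrFun h ⟨P, Finset.mem_filter.2 ⟨hP, hL⟩⟩
      exact congrArg Multiplicative.toAdd h1
  · intro h
    funext v
    have h1 := h v.1 (Finset.mem_filter.1 v.2).1
    exact congrArg Multiplicative.ofAdd h1

private theorem r1F_onto (hM : SMem) (hW : SWk) (S : Finset (HeightOneSpectrum (𝓞 K))) (a : Kˣ) :
    Function.Surjective (r1F Y S a) := by
  classical
  intro g
  obtain ⟨b, hb⟩ := r1_surj Y hM hW S a (fun P =>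
    if h : P ∈ S.filter fun P => ¬ LocW l P (a : K) then Multiplicative.toAdd (g ⟨P, h⟩) else 0)
  refine ⟨b, ?_⟩
  funext v
  have h0 := Finset.mem_filter.1 v.2
  have h1 := hb v.1 h0.1 h0.2
  rw [dif_pos v.2] at h1
  exact congrArg Multiplicative.ofAdd h1

private theorem r1H_index (hM : SMem) (hW : SWk) (S : Finset (HeightOneSpectrum (𝓞 K)))
    (a : Kˣ) : (r1H Y S a).index = l ^ sL l S a := by
  classical
  rw [← r1F_ker, Subgroup.index_ker, MonoidHom.range_eq_top_of_surjective _ (r1F_onto Y hM hW S a),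
    Subgroup.card_top, Nat.card_fun]
  congr 1
  · rw [Nat.card_eq_fintype_card, Fintype.card_multiplicative, ZMod.card]
  · rw [Nat.card_eq_fintype_card, Fintype.card_coe]
    unfold sL
    congr

/-- the index of the group of `S`-units and elements pairing to zero, and the norms -/
private theorem r1_idx (hM : SMem) (hW : SWk) {S : Finset (HeightOneSpectrum (𝓞 K))} {a : Kˣ}
    (hG : GdL l S a) : ∃ N : Subgroup Kˣ, N ≤ NGL l a ∧ N ≤ r1H Y S a ⊓ US S ∧
      (US S ⊔ r1H Y S a).index = N.relIndex (r1H Y S a ⊓ US S) * l ∧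
      N.relIndex (r1H Y S a ⊓ US S) ≠ 0 := by
  obtain ⟨N, h1, h2, h3⟩ := hG.idx
  have hl : 0 < l := (Fact.out : l.Prime).pos
  have hNH : N ≤ r1H Y S a ⊓ US S := le_inf (fun b hb => (r1_memH Y).2 fun P _ =>
    Y.nm P a b (h2 hb)) h1
  have e1 := Subgroup.relIndex_mul_relIndex N (r1H Y S a ⊓ US S) (US S) hNH inf_le_right
  rw [Subgroup.inf_relIndex_right] at e1
  have e2 := Subgroup.relIndex_mul_index (H := r1H Y S a) (K := US S ⊔ r1H Y S a) le_sup_right
  rw [Subgroup.relIndex_sup_right, r1H_index Y hM hW] at e2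
  have hpos : 0 < l ^ sL l S a := pow_pos hl _
  have e3 : 0 < (r1H Y S a).relIndex (US S) := by
    rcases Nat.eq_zero_or_pos ((r1H Y S a).relIndex (US S)) with h | h
    · rw [h, zero_mul] at e2
      omega
    · exact h
  refine ⟨N, h2, hNH, ?_, ?_⟩
  · apply Nat.eq_of_mul_eq_mul_left e3
    rw [e2, ← h3, ← e1]
    ring
  · intro h
    rw [h, zero_mul] at e1
    rw [← e1, zero_mul] at h3
    omega

private theorem r1_Fna_of {S : Finset (HeightOneSpectrum (𝓞 K))} {a : Kˣ}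
    {ψ : Kˣ →* Multiplicative (ZMod l)} (h : ∀ y ∈ US S ⊔ r1H Y S a, ψ y = 1) : Fna Y S a ψ :=
  ⟨fun u hu => h u (Subgroup.mem_sup_left hu),
    fun b hb => h b (Subgroup.mem_sup_right ((r1_memH Y).2 hb))⟩

private theorem r1_Fna_ker {S : Finset (HeightOneSpectrum (𝓞 K))} {a : Kˣ}
    {ψ : Kˣ →* Multiplicative (ZMod l)} (h : Fna Y S a ψ) : US S ⊔ r1H Y S a ≤ ψ.ker :=
  sup_le (fun u hu => h.unit u hu) (fun b hb => h.loc b ((r1_memH Y).1 hb))

private theorem r1_FnL (hM : SMem) {S : Finset (HeightOneSpectrum (𝓞 K))} {a : Kˣ}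
    {ψ : Kˣ →* Multiplicative (ZMod l)} (h : Fna Y S a ψ) : FnL l S ψ := by
  refine ⟨h.unit, fun b hb => h.loc b fun P hP => r1_locR Y a ?_⟩
  rw [← hM l Fact.out K P b]
  unfold KW at hb
  simp only [Subgroup.mem_iInf] at hb
  exact hb P hP

private theorem r1_comb {S : Finset (HeightOneSpectrum (𝓞 K))} {a : Kˣ}
    {ω ψ : Kˣ →* Multiplicative (ZMod l)} (h : Fna Y S a ω) (h' : Fna Y S a ψ) (i j : ℕ) :
    Fna Y S a (ω ^ i * ψ ^ j) := by
  constructor
  · intro u hu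
    rw [MonoidHom.mul_apply, MonoidHom.pow_apply, MonoidHom.pow_apply, h.unit u hu, h'.unit u hu]
    simp
  · intro u hu
    rw [MonoidHom.mul_apply, MonoidHom.pow_apply, MonoidHom.pow_apply, h.loc u hu, h'.loc u hu]
    simp

/-- functionals vanish at the generators of split primes -/
private theorem r1_split {S : Finset (HeightOneSpectrum (𝓞 K))} {a : Kˣ}
    (hG : GdL l S a) {ψ : Kˣ →* Multiplicative (ZMod l)} (h : Fna Y S a ψ)
    {Q : HeightOneSpectrum (𝓞 K)} (hQ : Q ∉ S) (hL : LocW l Q (a : K)) :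
    vl l ψ (gen S Q) = 0 := by
  obtain ⟨b, hb1, hb2, hb3⟩ := hG.split Q hQ hL
  obtain ⟨g1, g2⟩ := gen_spec hG.adm.prS hQ
  have hu : b⁻¹ * gen S Q ∈ US S := by
    rw [mem_US]
    intro R hR
    rw [Units.val_mul, Pool.Agent.H98.MF.B.ord_mul R (Units.ne_zero _) (Units.ne_zero _),
      Units.val_inv_eq_inv_val, Pool.Agent.H98.MF.B.ord_inv]
    by_cases hRQ : R = Q
    · subst hRQ
      rw [hb2, g1]; norm_num
    · rw [hb3 R hR hRQ, g2 R hR hRQ]; norm_num
  have h1 := h.unit _ hu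
  have h2 := h.loc b fun P _ => Y.nm P a b hb1
  rw [map_mul, map_inv, h2, inv_one, one_mul] at h1
  exact r1_vl1.2 h1

/-! ### sums over primes -/

variable (l K) in
private noncomputable def r1w (s : ℝ) (Q : HeightOneSpectrum (𝓞 K)) : ℝ := (nrm Q : ℝ) ^ (-s)

private theorem r1_w0 (s : ℝ) (Q : HeightOneSpectrum (𝓞 K)) : 0 ≤ r1w K s Q :=
  Real.rpow_nonneg (Nat.cast_nonneg _) _

private theorem r1_w1 {s : ℝ} (hs : 1 < s) (Q : HeightOneSpectrum (𝓞 K)) : r1w K s Q ≤ 1 := by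
  apply Real.rpow_le_one_of_one_le_of_nonpos
  · have : 1 ≤ nrm Q := by
      unfold nrm
      rw [Nat.one_le_iff_ne_zero, Ne, Ideal.absNorm_eq_zero_iff]
      exact Q.ne_bot
    exact_mod_cast this
  · linarith

/-- real part of the character -/
private noncomputable def r1e (x : ZMod l) : ℝ := (ZMod.stdAddChar x : ℂ).re

private theorem r1_e0 : r1e (0 : ZMod l) = 1 := by
  unfold r1e
  rw [AddChar.map_zero_eq_one]
  rfl

private theorem r1_norm (x : ZMod l) : ‖(ZMod.stdAddChar x : ℂ)‖ = 1 := by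
  rw [ZMod.stdAddChar_apply]
  exact Circle.norm_coe _

private theorem r1_e1 (x : ZMod l) : |r1e x| ≤ 1 := by
  unfold r1e
  exact (Complex.abs_re_le_norm _).trans (r1_norm x).le

open Classical in
private theorem r1_trig (x : ZMod l) :
    ∑ i : ZMod l, r1e (i * x) = if x = 0 then (l : ℝ) else 0 := by
  have h := AddChar.sum_mulShift (R := ZMod l) (R' := ℂ) x (ZMod.isPrimitive_stdAddChar l)
  have h1 := congrArg Complex.re h
  rw [Complex.re_sum] at h1
  unfold r1e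
  rw [h1, ZMod.card]
  split_ifs <;> simp

open Classical in
private theorem r1_trig2 (x y : ZMod l) :
    ∑ i : ZMod l, ∑ j : ZMod l, r1e (i * x + j * y) =
      if x = 0 ∧ y = 0 then (l : ℝ) ^ 2 else 0 := by
  have h := AddChar.sum_mulShift (R := ZMod l) (R' := ℂ) x (ZMod.isPrimitive_stdAddChar l)
  have h' := AddChar.sum_mulShift (R := ZMod l) (R' := ℂ) y (ZMod.isPrimitive_stdAddChar l)
  have h2 : ∑ i : ZMod l, ∑ j : ZMod l, (ZMod.stdAddChar (i * x + j * y) : ℂ) =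
      (∑ i : ZMod l, (ZMod.stdAddChar (i * x) : ℂ)) *
        ∑ j : ZMod l, (ZMod.stdAddChar (j * y) : ℂ) := by
    rw [Finset.sum_mul_sum]
    refine Finset.sum_congr rfl fun i _ => Finset.sum_congr rfl fun j _ => ?_
    rw [AddChar.map_add_eq_mul]
  have h1 := congrArg Complex.re h2
  rw [Complex.re_sum] at h1
  simp only [Complex.re_sum] at h1
  unfold r1e
  rw [h1, h, h', ZMod.card]
  by_cases hx : x = 0 <;> by_cases hy : y = 0 <;> simp [hx, hy, pow_two]

private theorem r1_sub (p : HeightOneSpectrum (𝓞 K) → Prop) [DecidablePred p]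
    (f : HeightOneSpectrum (𝓞 K) → ℝ) :
    ∑' Q : {Q : HeightOneSpectrum (𝓞 K) // p Q}, f Q.1 =
      ∑' Q : HeightOneSpectrum (𝓞 K), if p Q then f Q else 0 := by
  have h := tsum_subtype {Q : HeightOneSpectrum (𝓞 K) | p Q} f
  rw [show (∑' Q : {Q : HeightOneSpectrum (𝓞 K) // p Q}, f Q.1) =
    ∑' Q : ({Q : HeightOneSpectrum (𝓞 K) | p Q} : Set (HeightOneSpectrum (𝓞 K))), f Q from rfl, h]
  refine tsum_congr fun Q => ?_
  by_cases hQ : p Q
  · rw [if_pos hQ, Set.indicator_of_mem (show Q ∈ {Q | p Q} from hQ)]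
  · rw [if_neg hQ, Set.indicator_of_notMem (show Q ∉ {Q | p Q} from hQ)]

private theorem r1_sum (hA : AnL l K) {s : ℝ} (hs : 1 < s)
    (p : HeightOneSpectrum (𝓞 K) → Prop) [DecidablePred p] :
    Summable (fun Q : HeightOneSpectrum (𝓞 K) => if p Q then r1w K s Q else 0) := by
  refine Summable.of_nonneg_of_le (fun Q => ?_) (fun Q => ?_) (hA.sm s hs)
  · split_ifs
    · exact r1_w0 s Q
    · exact le_refl _
  · split_ifs
    · exact le_refl _
    · exact r1_w0 s Q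

private theorem r1_fin {s : ℝ} (hs : 1 < s) (S : Finset (HeightOneSpectrum (𝓞 K)))
    [DecidablePred (· ∈ S)] :
    ∑' Q : HeightOneSpectrum (𝓞 K), (if Q ∈ S then r1w K s Q else 0) ≤ (S.card : ℝ) := by
  rw [tsum_eq_sum (s := S) (fun Q hQ => if_neg hQ)]
  calc ∑ Q ∈ S, (if Q ∈ S then r1w K s Q else 0) ≤ ∑ Q ∈ S, (1 : ℝ) := by
        refine Finset.sum_le_sum (fun Q hQ => ?_)
        rw [if_pos hQ]
        exact r1_w1 hs Q
    _ = (S.card : ℝ) := by simp

private theorem r1_sums (hA : AnL l K) {s : ℝ} (hs : 1 < s)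
    (S : Finset (HeightOneSpectrum (𝓞 K))) [DecidablePred (· ∈ S)]
    (f : HeightOneSpectrum (𝓞 K) → ZMod l) :
    Summable (fun Q : HeightOneSpectrum (𝓞 K) =>
      if Q ∈ S then 0 else r1e (f Q) * r1w K s Q) := by
  refine Summable.of_norm_bounded (hA.sm s hs) (fun Q => ?_)
  split_ifs
  · rw [norm_zero]
    exact r1_w0 s Q
  · rw [norm_mul, Real.norm_of_nonneg (r1_w0 s Q)]
    calc ‖r1e (f Q)‖ * r1w K s Q ≤ 1 * r1w K s Q :=
          mul_le_mul_of_nonneg_right (r1_e1 (f Q)) (r1_w0 s Q)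
      _ = _ := one_mul _

private theorem r1_pt0 {w : ℝ} (hw : 0 ≤ w) (q p : Prop) [Decidable q] [Decidable p] :
    (if p then w else 0) ≤ (if ¬ q ∧ p then w else 0) + (if q then w else 0) := by
  by_cases hq : q <;> by_cases hp : p <;> simp [hq, hp, hw]

private theorem r1_pt2 {w : ℝ} (hw : 0 ≤ w) (q p : Prop) [Decidable q] [Decidable p]
    {x y : ZMod l} {f : ZMod l × ZMod l → ZMod l} (hf : ∀ ij, f ij = ij.1 * x + ij.2 * y)
    (h : ¬ q → p → x = 0 ∧ y = 0) :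
    (l : ℝ) ^ 2 * (if ¬ q ∧ p then w else 0) ≤
      ∑ ij : ZMod l × ZMod l, (if q then 0 else r1e (f ij) * w) := by
  by_cases hq : q
  · simp [hq]
  · simp only [hq, if_false, not_false_eq_true, true_and]
    rw [← Finset.sum_mul]
    simp only [hf]
    rw [Fintype.sum_prod_type, r1_trig2]
    by_cases hp : p
    · rw [if_pos hp, if_pos (h hq hp)]
    · rw [if_neg hp, mul_zero]
      refine mul_nonneg ?_ hw
      split_ifs
      · positivity
      · exact le_rfl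

private theorem r1_pt1 {w : ℝ} (_ : 0 ≤ w) (q p r : Prop) [Decidable q] [Decidable p]
    [Decidable r] {x : ZMod l} {f : ZMod l → ZMod l} (hf : ∀ i, f i = i * x)
    (h : ¬ q → p → x = 0) (hr : r ↔ x = 0) :
    (l : ℝ) * ((if ¬ q ∧ p then w else 0) + (if ¬ q ∧ r ∧ ¬ p then w else 0)) ≤
      ∑ i : ZMod l, (if q then 0 else r1e (f i) * w) := by
  by_cases hq : q
  · simp [hq]
  · simp only [hq, if_false, not_false_eq_true, true_and]
    rw [← Finset.sum_mul]
    simp only [hf]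
    rw [r1_trig]
    by_cases hp : p
    · rw [if_pos hp, if_pos (h hq hp), if_neg (fun h' => h'.2 hp), add_zero]
    · rw [if_neg hp]
      by_cases hx : x = 0
      · rw [if_pos ⟨hr.2 hx, hp⟩, if_pos hx, zero_add]
      · rw [if_neg (fun h' => hx (hr.1 h'.1)), if_neg hx]
        simp

private theorem r1_unb {c B : ℝ} (hc : 0 < c)
    (h : ∀ s : ℝ, 1 < s → s ≤ 2 → c * Real.log (1 / (s - 1)) ≤ B) : False := by
  set M : ℝ := (|B| + 1) / c with hM
  have hM0 : 0 < M := by positivity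
  have h1 := h (1 + Real.exp (-M)) (by linarith [Real.exp_pos (-M)]) (by
    have : Real.exp (-M) ≤ 1 := Real.exp_le_one_iff.2 (by linarith)
    linarith)
  have h2 : Real.log (1 / (1 + Real.exp (-M) - 1)) = M := by
    rw [add_sub_cancel_left, one_div, Real.log_inv, Real.log_exp, neg_neg]
  rw [h2, hM, mul_div_cancel₀ _ hc.ne'] at h1
  linarith [le_abs_self B]

open Classical in
/-- the sum of a functional over the primes outside `S` -/
private noncomputable def r1B (S : Finset (HeightOneSpectrum (𝓞 K)))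
    (χ : Kˣ →* Multiplicative (ZMod l)) (s : ℝ) : ℝ :=
  ∑' Q : HeightOneSpectrum (𝓞 K), if Q ∈ S then 0 else r1e (vl l χ (gen S Q)) * r1w K s Q

open Classical in
private theorem r1_sumB (hA : AnL l K) (S : Finset (HeightOneSpectrum (𝓞 K))) {ι : Type}
    [Fintype ι] (χ : ι → Kˣ →* Multiplicative (ZMod l)) {s : ℝ} (hs : 1 < s)
    {F : HeightOneSpectrum (𝓞 K) → ℝ} (hF : Summable F) {c : ℝ}
    (h : ∀ Q, c * F Q ≤
      ∑ i, (if Q ∈ S then 0 else r1e (vl l (χ i) (gen S Q)) * r1w K s Q)) :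
    c * ∑' Q, F Q ≤ ∑ i, r1B S (χ i) s := by
  classical
  have h1 : ∀ i, Summable (fun Q : HeightOneSpectrum (𝓞 K) =>
      if Q ∈ S then 0 else r1e (vl l (χ i) (gen S Q)) * r1w K s Q) := fun i =>
    r1_sums hA hs S _
  have h2 : ∑ i, r1B S (χ i) s = ∑' Q : HeightOneSpectrum (𝓞 K), ∑ i,
      (if Q ∈ S then 0 else r1e (vl l (χ i) (gen S Q)) * r1w K s Q) :=
    (Summable.tsum_finsetSum (s := Finset.univ) (f := fun i (Q : HeightOneSpectrum (𝓞 K)) =>
      if Q ∈ S then 0 else r1e (vl l (χ i) (gen S Q)) * r1w K s Q) fun i _ => h1 i).symm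
  rw [h2, ← tsum_mul_left]
  exact Summable.tsum_le_tsum (fun Q => h Q) (hF.mul_left c) (summable_sum fun i _ => h1 i)

/-- the sum of a nontrivial functional is bounded above -/
private theorem r1_up (hA : AnL l K) {S : Finset (HeightOneSpectrum (𝓞 K))} (hS : AdmL l S)
    {χ : Kˣ →* Multiplicative (ZMod l)} (h : FnL l S χ) (hne : χ ≠ 1) :
    ∃ C : ℝ, ∀ s : ℝ, 1 < s → s ≤ 2 → r1B S χ s ≤ C := by
  classical
  obtain ⟨Lf, g, h1, h2, h3⟩ := hA.n2 S hS χ h hne
  obtain ⟨M1, hM1⟩ := isCompact_Icc.exists_bound_of_continuousOn h1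
  obtain ⟨M2, hM2⟩ := isCompact_Icc.exists_bound_of_continuousOn h2
  refine ⟨Real.log (max M1 1) + M2, fun s hs hs2 => ?_⟩
  have hmem : s ∈ Set.Icc (1 : ℝ) 2 := ⟨hs.le, hs2⟩
  have e1 := hM1 s hmem
  have e2 := hM2 s hmem
  rw [h3 s hs hs2, Complex.norm_exp, Complex.add_re] at e1
  set T : ℂ := ∑' Q : {Q : HeightOneSpectrum (𝓞 K) // Q ∉ S},
    ZMod.stdAddChar (vl l χ (gen S Q.1)) * (((nrm Q.1 : ℝ) ^ (-s) : ℝ) : ℂ) with hT
  have hsm : Summable fun Q : {Q : HeightOneSpectrum (𝓞 K) // Q ∉ S} =>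
      ZMod.stdAddChar (vl l χ (gen S Q.1)) * (((nrm Q.1 : ℝ) ^ (-s) : ℝ) : ℂ) := by
    refine Summable.of_norm_bounded (g := fun Q : {Q : HeightOneSpectrum (𝓞 K) // Q ∉ S} =>
      (nrm Q.1 : ℝ) ^ (-s)) ((hA.sm s hs).subtype _) fun Q => ?_
    rw [norm_mul, r1_norm, one_mul, Complex.norm_real,
      Real.norm_of_nonneg (Real.rpow_nonneg (Nat.cast_nonneg _) _)]
  have hre : T.re = r1B S χ s := by
    rw [hT, Complex.re_tsum hsm]
    unfold r1B
    have h4 : ∑' Q : HeightOneSpectrum (𝓞 K),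
        (if Q ∈ S then 0 else r1e (vl l χ (gen S Q)) * r1w K s Q) =
        ∑' Q : {Q : HeightOneSpectrum (𝓞 K) // Q ∉ S},
          r1e (vl l χ (gen S Q.1)) * r1w K s Q.1 := by
      rw [r1_sub (fun Q => Q ∉ S) (fun Q => r1e (vl l χ (gen S Q)) * r1w K s Q)]
      refine tsum_congr fun Q => ?_
      by_cases hQ : Q ∈ S
      · rw [if_pos hQ, if_neg (not_not.2 hQ)]
      · rw [if_neg hQ, if_pos hQ]
    rw [h4]
    refine tsum_congr fun Q => ?_
    rw [Complex.re_mul_ofReal]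
    rfl
  rw [hre] at e1
  have e3 : r1B S χ s + (g s).re ≤ Real.log (max M1 1) := by
    rw [← Real.exp_le_exp, Real.exp_log (by positivity)]
    exact e1.trans (le_max_left _ _)
  have e4 : -M2 ≤ (g s).re := by
    have := (Complex.abs_re_le_norm (g s)).trans e2
    exact (abs_le.1 this).1
  linarith

/-- the trivial functional -/
private theorem r1_triv (hA : AnL l K) (S : Finset (HeightOneSpectrum (𝓞 K))) :
    ∃ C : ℝ, ∀ s : ℝ, 1 < s → s ≤ 2 → ∀ χ : Kˣ →* Multiplicative (ZMod l),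
      (∀ x, vl l χ x = 0) → r1B S χ s ≤ Real.log (1 / (s - 1)) + C := by
  classical
  obtain ⟨C, hC⟩ := hA.n4
  refine ⟨C, fun s hs hs2 χ hχ => ?_⟩
  have h1 := (abs_le.1 (hC s hs hs2)).2
  have h2 : r1B S χ s ≤ ∑' Q : HeightOneSpectrum (𝓞 K), (nrm Q : ℝ) ^ (-s) := by
    unfold r1B
    refine Summable.tsum_le_tsum (fun Q => ?_) (r1_sums hA hs S _) (hA.sm s hs)
    split_ifs
    · exact r1_w0 s Q
    · rw [hχ, r1_e0, one_mul]
      exact le_rfl
  linarith

open Classical in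
/-- the split primes outside `S` -/
private theorem r1_spl (hA : AnL l K) (S : Finset (HeightOneSpectrum (𝓞 K))) {a : Kˣ}
    (ha : a ∉ pw l (⊤ : Subgroup Kˣ)) : ∃ C : ℝ, ∀ s : ℝ, 1 < s → s ≤ 2 →
      (1 / l : ℝ) * Real.log (1 / (s - 1)) - C ≤
        ∑' Q : HeightOneSpectrum (𝓞 K), if Q ∉ S ∧ LocW l Q (a : K) then r1w K s Q else 0 := by
  obtain ⟨C, hC⟩ := hA.n4a a ha
  refine ⟨C + S.card, fun s hs hs2 => ?_⟩
  have h1 := (abs_le.1 (hC s hs hs2)).1
  have h2 := r1_fin (K := K) hs S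
  have h3 : ∑' Q : {Q : HeightOneSpectrum (𝓞 K) // LocW l Q (a : K)}, (nrm Q.1 : ℝ) ^ (-s) ≤
      ∑' Q : HeightOneSpectrum (𝓞 K), ((if Q ∉ S ∧ LocW l Q (a : K) then r1w K s Q else 0) +
        (if Q ∈ S then r1w K s Q else 0)) := by
    rw [r1_sub (K := K) (fun Q => LocW l Q (a : K)) (fun Q => (nrm Q : ℝ) ^ (-s))]
    refine Summable.tsum_le_tsum (fun Q => ?_) (r1_sum hA hs (fun Q => LocW l Q (a : K)))
      ((r1_sum hA hs (fun Q => Q ∉ S ∧ LocW l Q (a : K))).add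
        (r1_sum hA hs (fun Q => Q ∈ S)))
    exact r1_pt0 (r1_w0 (K := K) s Q) (Q ∈ S) (LocW l Q (a : K))
  rw [Summable.tsum_add (r1_sum hA hs (fun Q => Q ∉ S ∧ LocW l Q (a : K)))
    (r1_sum hA hs (fun Q => Q ∈ S))] at h3
  linarith

/-- two functionals are dependent -/
private theorem r1_dep (hM : SMem) (hA : AnL l K) {S : Finset (HeightOneSpectrum (𝓞 K))} {a : Kˣ}
    (ha : a ∉ pw l (⊤ : Subgroup Kˣ)) (hG : GdL l S a) {ω ψ : Kˣ →* Multiplicative (ZMod l)}
    (hω : Fna Y S a ω) (hψ : Fna Y S a ψ)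
    (h : ∀ i j : ZMod l, (i, j) ≠ (0, 0) → ω ^ i.val * ψ ^ j.val ≠ 1) : False := by
  classical
  have hl : (2 : ℝ) ≤ l := by exact_mod_cast (Fact.out : l.Prime).two_le
  have hv : ∀ (i j : ZMod l) (x : Kˣ), vl l (ω ^ i.val * ψ ^ j.val) x =
      i * vl l ω x + j * vl l ψ x := by
    intro i j x
    rw [r1_mul, r1_pow, r1_pow, ZMod.natCast_zmod_val, ZMod.natCast_zmod_val]
  have hC1 : ∀ ij : ZMod l × ZMod l, ∃ C : ℝ, ∀ s : ℝ, 1 < s → s ≤ 2 →
      r1B S (ω ^ ij.1.val * ψ ^ ij.2.val) s ≤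
        (if ij = (0, 0) then Real.log (1 / (s - 1)) else 0) + C := by
    intro ij
    by_cases h0 : ij = (0, 0)
    · obtain ⟨C, hC⟩ := r1_triv (l := l) hA S
      refine ⟨C, fun s hs hs2 => ?_⟩
      rw [if_pos h0]
      refine hC s hs hs2 _ fun x => ?_
      rw [hv, h0]
      simp
    · obtain ⟨C, hC⟩ := r1_up hA hG.adm (r1_FnL Y hM (r1_comb Y hω hψ ij.1.val ij.2.val))
        (h ij.1 ij.2 h0)
      refine ⟨C, fun s hs hs2 => ?_⟩
      rw [if_neg h0, zero_add]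
      exact hC s hs hs2
  choose C1 hC1 using hC1
  obtain ⟨C2, hC2⟩ := r1_spl hA S ha
  refine r1_unb (c := (l : ℝ) - 1) (B := ∑ ij, C1 ij + (l : ℝ) ^ 2 * C2) (by linarith)
    fun s hs hs2 => ?_
  have h1 : ∑ ij : ZMod l × ZMod l, r1B S (ω ^ ij.1.val * ψ ^ ij.2.val) s ≤
      Real.log (1 / (s - 1)) + ∑ ij, C1 ij := by
    refine (Finset.sum_le_sum fun ij _ => hC1 ij s hs hs2).trans ?_
    rw [Finset.sum_add_distrib, Finset.sum_ite_eq' Finset.univ, if_pos (Finset.mem_univ _)]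
  have h3 := r1_sumB hA S (fun ij : ZMod l × ZMod l => ω ^ ij.1.val * ψ ^ ij.2.val) hs
    (r1_sum hA hs (fun Q => Q ∉ S ∧ LocW l Q (a : K))) (c := (l : ℝ) ^ 2) (fun Q =>
      r1_pt2 (r1_w0 (K := K) s Q) (Q ∈ S) (LocW l Q (a : K))
        (f := fun ij => vl l (ω ^ ij.1.val * ψ ^ ij.2.val) (gen S Q))
        (fun ij => hv ij.1 ij.2 (gen S Q))
        (fun hQ hL => ⟨r1_split Y hG hω hQ hL, r1_split Y hG hψ hQ hL⟩))
  have h4 := mul_le_mul_of_nonneg_left (hC2 s hs hs2) (show (0 : ℝ) ≤ (l : ℝ) ^ 2 by positivity)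
  have h5 : (l : ℝ) ^ 2 * ((1 / l : ℝ) * Real.log (1 / (s - 1)) - C2) =
      l * Real.log (1 / (s - 1)) - (l : ℝ) ^ 2 * C2 := by
    field_simp
  rw [h5] at h4
  linarith

/-- every functional is a multiple of a nontrivial one -/
private theorem r1_mult (hM : SMem) (hA : AnL l K) {S : Finset (HeightOneSpectrum (𝓞 K))}
    {a : Kˣ} (ha : a ∉ pw l (⊤ : Subgroup Kˣ)) (hG : GdL l S a)
    {ω ψ : Kˣ →* Multiplicative (ZMod l)} (hω : Fna Y S a ω) (hψ : Fna Y S a ψ) (hne : ω ≠ 1) :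
    ∃ t : ZMod l, ∀ x, vl l ψ x = t * vl l ω x := by
  by_contra hcon
  push Not at hcon
  refine r1_dep Y hM hA ha hG hω hψ fun i j hij h1 => ?_
  have h2 : ∀ x, i * vl l ω x + j * vl l ψ x = 0 := by
    intro x
    have h3 : vl l (ω ^ i.val * ψ ^ j.val) x = 0 := by rw [h1]; rfl
    rwa [r1_mul, r1_pow, r1_pow, ZMod.natCast_zmod_val, ZMod.natCast_zmod_val] at h3
  by_cases hj : j = 0
  · obtain ⟨x, hx⟩ := r1_ne hne
    have h3 := h2 x
    rw [hj, zero_mul, add_zero] at h3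
    have hi : i = 0 := (mul_eq_zero.1 h3).resolve_right hx
    exact hij (by rw [hi, hj])
  · obtain ⟨x, hx⟩ := hcon (-(i / j))
    apply hx
    have h3 := h2 x
    field_simp
    linear_combination h3

/-- the primes where a functional is trivial -/
private theorem r1_tail (hM : SMem) (hA : AnL l K) {S : Finset (HeightOneSpectrum (𝓞 K))}
    {a : Kˣ} (ha : a ∉ pw l (⊤ : Subgroup Kˣ)) (hG : GdL l S a)
    {ω : Kˣ →* Multiplicative (ZMod l)} (hω : Fna Y S a ω) (hne : ω ≠ 1) :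
    ∃ C : ℝ, ∀ s : ℝ, 1 < s → s ≤ 2 →
      ∑' Q : {Q : HeightOneSpectrum (𝓞 K) // Q ∉ S ∧ ω (gen S Q) = 1 ∧ ¬ LocW l Q (a : K)},
        (nrm Q.1 : ℝ) ^ (-s) ≤ C := by
  classical
  have hl : (2 : ℝ) ≤ l := by exact_mod_cast (Fact.out : l.Prime).two_le
  have hv : ∀ (i : ZMod l) (x : Kˣ), vl l (ω ^ i.val * ω ^ 0) x = i * vl l ω x := by
    intro i x
    rw [r1_mul, r1_pow, r1_pow, ZMod.natCast_zmod_val]
    simp
  have hC1 : ∀ i : ZMod l, ∃ C : ℝ, ∀ s : ℝ, 1 < s → s ≤ 2 →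
      r1B S (ω ^ i.val * ω ^ 0) s ≤ (if i = 0 then Real.log (1 / (s - 1)) else 0) + C := by
    intro i
    by_cases h0 : i = 0
    · obtain ⟨C, hC⟩ := r1_triv (l := l) hA S
      refine ⟨C, fun s hs hs2 => ?_⟩
      rw [if_pos h0]
      refine hC s hs hs2 _ fun x => ?_
      rw [hv, h0]
      simp
    · obtain ⟨C, hC⟩ := r1_up hA hG.adm (r1_FnL Y hM (r1_comb Y hω hω i.val 0)) (by
        intro h1
        obtain ⟨x, hx⟩ := r1_ne hne
        have h2 : vl l (ω ^ i.val * ω ^ 0) x = 0 := by rw [h1]; rfl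
        rw [hv] at h2
        rcases mul_eq_zero.1 h2 with h3 | h3
        · exact h0 h3
        · exact hx h3)
      refine ⟨C, fun s hs hs2 => ?_⟩
      rw [if_neg h0, zero_add]
      exact hC s hs hs2
  choose C1 hC1 using hC1
  obtain ⟨C2, hC2⟩ := r1_spl hA S ha
  refine ⟨(∑ i, C1 i + l * C2) / l, fun s hs hs2 => ?_⟩
  have h1 : ∑ i : ZMod l, r1B S (ω ^ i.val * ω ^ 0) s ≤
      Real.log (1 / (s - 1)) + ∑ i, C1 i := by
    refine (Finset.sum_le_sum fun i _ => hC1 i s hs hs2).trans ?_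
    rw [Finset.sum_add_distrib, Finset.sum_ite_eq' Finset.univ, if_pos (Finset.mem_univ _)]
  rw [r1_sub (K := K) (fun Q => Q ∉ S ∧ ω (gen S Q) = 1 ∧ ¬ LocW l Q (a : K))
    (fun Q => (nrm Q : ℝ) ^ (-s))]
  have h3 := r1_sumB hA S (fun i : ZMod l => ω ^ i.val * ω ^ 0) hs
    ((r1_sum hA hs (fun Q => Q ∉ S ∧ LocW l Q (a : K))).add
      (r1_sum hA hs (fun Q => Q ∉ S ∧ ω (gen S Q) = 1 ∧ ¬ LocW l Q (a : K)))) (c := (l : ℝ))
    (fun Q => r1_pt1 (r1_w0 (K := K) s Q) (Q ∈ S) (LocW l Q (a : K)) (ω (gen S Q) = 1)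
      (f := fun i => vl l (ω ^ i.val * ω ^ 0) (gen S Q))
      (fun i => hv i (gen S Q))
      (fun hQ hL => r1_split Y hG hω hQ hL) r1_vl1.symm)
  rw [Summable.tsum_add (r1_sum hA hs (fun Q => Q ∉ S ∧ LocW l Q (a : K)))
    (r1_sum hA hs (fun Q => Q ∉ S ∧ ω (gen S Q) = 1 ∧ ¬ LocW l Q (a : K)))] at h3
  have h4 := hC2 s hs hs2
  have h8 : (0 : ℝ) < l := by linarith
  rw [le_div_iff₀ h8]
  have h5 : (l : ℝ) * ((1 / l : ℝ) * Real.log (1 / (s - 1)) - C2) =
      Real.log (1 / (s - 1)) - l * C2 := by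
    field_simp
  have h9 := mul_le_mul_of_nonneg_left h4 h8.le
  rw [h5] at h9
  change (∑' Q : HeightOneSpectrum (𝓞 K),
    if Q ∉ S ∧ ω (gen S Q) = 1 ∧ ¬ LocW l Q (a : K) then r1w K s Q else 0) * l ≤ _
  linarith

end

/-- the functional of one element -/
theorem sr1 (hM : SMem) (hW : SWk) : SR1 := by
  intro l _ _ K _ _ z _ Y hA S a ha hG
  have hl : 0 < l := (Fact.out : l.Prime).pos
  have hl1 : 1 < l := (Fact.out : l.Prime).one_lt
  obtain ⟨N, hN1, hN2, hN3, hN4⟩ := r1_idx Y hM hW hG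
  have hpw : ∀ x : Kˣ, x ^ l ∈ US S ⊔ r1H Y S a := fun x =>
    Subgroup.mem_sup_right (r1_powH Y S a x)
  have hex : ∃ ω : Kˣ →* Multiplicative (ZMod l), Fna Y S a ω ∧ ω ≠ 1 := by
    have h1 : US S ⊔ r1H Y S a ≠ ⊤ := by
      intro h
      rw [h, Subgroup.index_top] at hN3
      have h2 : 1 ≤ N.relIndex (r1H Y S a ⊓ US S) := Nat.one_le_iff_ne_zero.2 hN4
      have h3 := Nat.mul_le_mul_right l h2
      omega
    obtain ⟨x, hx⟩ : ∃ x, x ∉ US S ⊔ r1H Y S a := by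
      by_contra hc
      push Not at hc
      exact h1 ((Subgroup.eq_top_iff' _).2 hc)
    obtain ⟨ω, h2, h3⟩ := r1_sep (US S ⊔ r1H Y S a) hpw x hx
    refine ⟨ω, r1_Fna_of Y h2, ?_⟩
    rintro rfl
    exact h3 rfl
  obtain ⟨ω, hω, hω1⟩ := hex
  have hmul : ∀ ψ : Kˣ →* Multiplicative (ZMod l), Fna Y S a ψ →
      ∃ t : ZMod l, ∀ x, vl l ψ x = t * vl l ω x := fun ψ hψ =>
    r1_mult Y hM hA ha hG hω hψ hω1
  refine ⟨⟨ω, hω, hω1, hmul⟩, ?_, fun ω' hω' hne => r1_tail Y hM hA ha hG hω' hne⟩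
  have hker : ω.ker ≤ US S ⊔ r1H Y S a := by
    intro x hx
    by_contra hx'
    obtain ⟨ψ, h2, h3⟩ := r1_sep (US S ⊔ r1H Y S a) hpw x hx'
    obtain ⟨t, ht⟩ := hmul ψ (r1_Fna_of Y h2)
    apply h3
    rw [← r1_vl1, ht, r1_vl1.2 (MonoidHom.mem_ker.1 hx), mul_zero]
  have hle : (US S ⊔ r1H Y S a).index ≤ l := by
    have h1 := Subgroup.index_dvd_of_le hker
    have h2 : ω.ker.index ≤ l := by
      rw [Subgroup.index_ker]
      have h3 : Nat.card (Multiplicative (ZMod l)) = l := by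
        rw [Nat.card_eq_fintype_card, Fintype.card_multiplicative, ZMod.card]
      calc Nat.card ω.range ≤ Nat.card (Multiplicative (ZMod l)) :=
            Nat.card_le_card_of_injective _ Subtype.val_injective
        _ = l := h3
    have h4 : 0 < ω.ker.index := by
      rw [Subgroup.index_ker]
      exact Nat.card_pos
    exact (Nat.le_of_dvd h4 h1).trans h2
  have hone : N.relIndex (r1H Y S a ⊓ US S) = 1 := by
    rw [hN3] at hle
    have h1 : N.relIndex (r1H Y S a ⊓ US S) ≤ 1 := by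
      by_contra hc
      have h2 : 2 ≤ N.relIndex (r1H Y S a ⊓ US S) := by omega
      have h3 := Nat.mul_le_mul_right l h2
      omega
    omega
  intro u hu hu2
  exact hN1 ((Subgroup.relIndex_eq_one.1 hone) ⟨(r1_memH Y).2 hu2, hu⟩)

end Pool.Agent.H92.EL
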