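import Pool.Agent.H92.EL.AStm
import Pool.Agent.H98.MF.C.Bas

/-!
# Project ELL (MP_a3214d), block A: the relation of the functionals of two elements
-/

set_option autoImplicit false
set_option linter.unusedSectionVars false

open scoped BigOperators Pointwise
open NumberField IsDedekindDomain

namespace Pool.Agent.H92.EL

open Pool.Agent.H98.MF (Om Gm ord Dec US PrS SUn mS nrm gen FixD)
open Pool.Agent.H98.MF.B (mem_US gen_spec)

/-! ### independence modulo powers -/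

section Pw

variable {l : ℕ} [Fact l.Prime] {K : Type} [Field K] [NumberField K]

private theorem r3_nat {a a' : Kˣ} (h : Ind2 l a a') (m n : ℕ)
    (hmn : a ^ m * a' ^ n ∈ pw l (⊤ : Subgroup Kˣ)) : l ∣ m ∧ l ∣ n := by
  have hp : ∀ c : Kˣ, c ^ l ∈ pw l (⊤ : Subgroup Kˣ) := fun c =>
    Subgroup.mem_map.2 ⟨c, Subgroup.mem_top c, rfl⟩
  have e : ∀ (c : Kˣ) (n : ℕ), c ^ n = c ^ ((n : ZMod l)).val * (c ^ (n / l)) ^ l := by
    intro c n
    rw [ZMod.val_natCast, ← pow_mul, ← pow_add]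
    congr 1
    rw [mul_comm]
    exact (Nat.mod_add_div n l).symm
  have h1 : a ^ ((m : ZMod l)).val * a' ^ ((n : ZMod l)).val ∈ pw l (⊤ : Subgroup Kˣ) := by
    have h2 : a ^ ((m : ZMod l)).val * a' ^ ((n : ZMod l)).val =
        (a ^ m * a' ^ n) * (((a ^ (m / l)) ^ l)⁻¹ * ((a' ^ (n / l)) ^ l)⁻¹) := by
      have e1 := e a m
      have e2 := e a' n
      rw [mul_mul_mul_comm, ← eq_mul_inv_of_mul_eq e1.symm, ← eq_mul_inv_of_mul_eq e2.symm]
    rw [h2]
    exact mul_mem hmn (mul_mem (inv_mem (hp _)) (inv_mem (hp _)))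
  obtain ⟨h3, h4⟩ := h _ _ h1
  exact ⟨(ZMod.natCast_eq_zero_iff m l).1 h3, (ZMod.natCast_eq_zero_iff n l).1 h4⟩

private theorem r3_val {j : ZMod l} (h : l ∣ j.val) : j = 0 := by
  have h1 := Nat.eq_zero_of_dvd_of_lt h (ZMod.val_lt j)
  exact (ZMod.val_eq_zero j).1 h1

private theorem r3_ind1 {a a' : Kˣ} (h : Ind2 l a a') : Ind2 l a (a * a') := by
  intro i j hij
  have h1 : a ^ (i.val + j.val) * a' ^ j.val ∈ pw l (⊤ : Subgroup Kˣ) := by
    have h2 : a ^ (i.val + j.val) * a' ^ j.val = a ^ i.val * (a * a') ^ j.val := by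
      rw [pow_add, mul_pow, mul_assoc]
    rw [h2]
    exact hij
  obtain ⟨h2, h3⟩ := r3_nat h _ _ h1
  exact ⟨r3_val ((Nat.dvd_add_left h3).1 h2), r3_val h3⟩

private theorem r3_ind2 {a a' : Kˣ} (h : Ind2 l a a') : Ind2 l a' (a * a') := by
  intro i j hij
  have h1 : a ^ j.val * a' ^ (i.val + j.val) ∈ pw l (⊤ : Subgroup Kˣ) := by
    have h2 : a ^ j.val * a' ^ (i.val + j.val) = a' ^ i.val * (a * a') ^ j.val := by
      rw [pow_add, mul_pow, mul_left_comm]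
    rw [h2]
    exact hij
  obtain ⟨h2, h3⟩ := r3_nat h _ _ h1
  exact ⟨r3_val ((Nat.dvd_add_left h2).1 h3), r3_val h2⟩

private theorem r3_ndvd : ¬ l ∣ 1 := by
  intro h
  exact (Fact.out : l.Prime).one_lt.ne' (Nat.dvd_one.1 h)

private theorem r3_npw {a a' : Kˣ} (h : Ind2 l a a') : a ∉ pw l (⊤ : Subgroup Kˣ) ∧
    a' ∉ pw l (⊤ : Subgroup Kˣ) ∧ a * a' ∉ pw l (⊤ : Subgroup Kˣ) := by
  refine ⟨fun h1 => ?_, fun h1 => ?_, fun h1 => ?_⟩
  · exact r3_ndvd (r3_nat h 1 0 (by rwa [pow_one, pow_zero, mul_one])).1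
  · exact r3_ndvd (r3_nat h 0 1 (by rwa [pow_one, pow_zero, one_mul])).2
  · exact r3_ndvd (r3_nat h 1 1 (by rwa [pow_one, pow_one])).1

end Pw

/-! ### sums over primes -/

section An

variable {l : ℕ} [Fact l.Prime] {K : Type} [Field K] [NumberField K]

private theorem r3_w0 (s : ℝ) (Q : HeightOneSpectrum (𝓞 K)) : 0 ≤ (nrm Q : ℝ) ^ (-s) :=
  Real.rpow_nonneg (Nat.cast_nonneg _) _

private theorem r3_w1 {s : ℝ} (hs : 1 < s) (Q : HeightOneSpectrum (𝓞 K)) :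
    (nrm Q : ℝ) ^ (-s) ≤ 1 := by
  apply Real.rpow_le_one_of_one_le_of_nonpos
  · have h : 1 ≤ nrm Q := by
      unfold nrm
      rw [Nat.one_le_iff_ne_zero, Ne, Ideal.absNorm_eq_zero_iff]
      exact Q.ne_bot
    exact_mod_cast h
  · linarith

open Classical in
/-- the weight of a prime, restricted to a set of primes -/
private noncomputable def r3i (s : ℝ) (p : HeightOneSpectrum (𝓞 K) → Prop)
    (Q : HeightOneSpectrum (𝓞 K)) : ℝ := if p Q then (nrm Q : ℝ) ^ (-s) else 0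

private theorem r3i_pos {s : ℝ} {p : HeightOneSpectrum (𝓞 K) → Prop}
    {Q : HeightOneSpectrum (𝓞 K)} (h : p Q) : r3i s p Q = (nrm Q : ℝ) ^ (-s) := if_pos h

private theorem r3i_neg {s : ℝ} {p : HeightOneSpectrum (𝓞 K) → Prop}
    {Q : HeightOneSpectrum (𝓞 K)} (h : ¬ p Q) : r3i s p Q = 0 := if_neg h

private theorem r3i_nn (s : ℝ) (p : HeightOneSpectrum (𝓞 K) → Prop)
    (Q : HeightOneSpectrum (𝓞 K)) : 0 ≤ r3i s p Q := by
  by_cases h : p Q
  · rw [r3i_pos h]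
    exact r3_w0 s Q
  · rw [r3i_neg h]

private theorem r3i_le (s : ℝ) (p : HeightOneSpectrum (𝓞 K) → Prop)
    (Q : HeightOneSpectrum (𝓞 K)) : r3i s p Q ≤ (nrm Q : ℝ) ^ (-s) := by
  by_cases h : p Q
  · rw [r3i_pos h]
  · rw [r3i_neg h]
    exact r3_w0 s Q

private theorem r3_sub (s : ℝ) (p : HeightOneSpectrum (𝓞 K) → Prop) :
    ∑' Q : {Q // p Q}, (nrm Q.1 : ℝ) ^ (-s) = ∑' Q, r3i s p Q := by
  classical
  have h := tsum_subtype {Q | p Q} (fun Q : HeightOneSpectrum (𝓞 K) => (nrm Q : ℝ) ^ (-s))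
  refine h.trans (tsum_congr fun Q => ?_)
  by_cases hp : p Q
  · rw [r3i_pos hp, Set.indicator_of_mem (show Q ∈ {Q | p Q} from hp)]
  · rw [r3i_neg hp, Set.indicator_of_notMem (show Q ∉ {Q | p Q} from hp)]

private theorem r3_sum (hA : AnL l K) {s : ℝ} (hs : 1 < s)
    (p : HeightOneSpectrum (𝓞 K) → Prop) :
    Summable (r3i s p) :=
  Summable.of_nonneg_of_le (r3i_nn s p) (r3i_le s p) (hA.sm s hs)

private theorem r3_fin {s : ℝ} (hs : 1 < s) (S : Finset (HeightOneSpectrum (𝓞 K))) :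
    ∑' Q : HeightOneSpectrum (𝓞 K), r3i s (fun Q => Q ∈ S) Q ≤ (S.card : ℝ) := by
  rw [tsum_eq_sum (s := S) (fun Q hQ => r3i_neg hQ)]
  calc ∑ Q ∈ S, r3i s (fun Q => Q ∈ S) Q ≤ ∑ Q ∈ S, (1 : ℝ) :=
        Finset.sum_le_sum (fun Q _ => (r3i_le s _ Q).trans (r3_w1 hs Q))
    _ = (S.card : ℝ) := by simp

/-- the logarithm is unbounded -/
private theorem r3_unb {c C : ℝ} (hc : 0 < c)
    (h : ∀ s : ℝ, 1 < s → s ≤ 2 → c * Real.log (1 / (s - 1)) ≤ C) : False := by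
  set M : ℝ := (|C| + 1) / c with hM
  have hM0 : 0 < M := by positivity
  have h1 := h (1 + Real.exp (-M)) (by linarith [Real.exp_pos (-M)]) (by
    have : Real.exp (-M) ≤ 1 := Real.exp_le_one_iff.2 (by linarith)
    linarith)
  have h2 : Real.log (1 / (1 + Real.exp (-M) - 1)) = M := by
    rw [add_sub_cancel_left, one_div, Real.log_inv, Real.log_exp, neg_neg]
  rw [h2, hM, mul_div_cancel₀ _ hc.ne'] at h1
  linarith [le_abs_self C]

/-- a functional that vanishes at the primes split for `b` is not the functional of `b'` -/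
private theorem r3_sep (hA : AnL l K) (S : Finset (HeightOneSpectrum (𝓞 K))) {b b' : Kˣ}
    (hI : Ind2 l b b') (p : HeightOneSpectrum (𝓞 K) → Prop)
    (hp : ∀ Q, Q ∉ S → LocW l Q (b : K) → p Q)
    (hC : ∃ C : ℝ, ∀ s : ℝ, 1 < s → s ≤ 2 →
      ∑' Q : {Q : HeightOneSpectrum (𝓞 K) // Q ∉ S ∧ p Q ∧ ¬ LocW l Q (b' : K)},
        (nrm Q.1 : ℝ) ^ (-s) ≤ C) : False := by
  classical
  obtain ⟨C, hC⟩ := hC
  obtain ⟨C1, h1⟩ := hA.n4a b (r3_npw hI).1
  obtain ⟨C2, h2⟩ := hA.n4b b b' hI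
  have hl : (2 : ℝ) ≤ l := by exact_mod_cast (Fact.out : l.Prime).two_le
  have hc : (0 : ℝ) < 1 / l - 1 / l ^ 2 := by
    rw [div_sub_div _ _ (by positivity) (by positivity)]
    apply div_pos _ (by positivity)
    nlinarith
  refine r3_unb (C := C1 + C2 + C + S.card) hc fun s hs hs2 => ?_
  have a1 := hC s hs hs2
  have a2 := h1 s hs hs2
  have a3 := h2 s hs hs2
  have a4 := r3_fin (K := K) hs S
  rw [r3_sub s (fun Q => Q ∉ S ∧ p Q ∧ ¬ LocW l Q (b' : K))] at a1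
  rw [r3_sub s (fun Q => LocW l Q (b : K))] at a2
  rw [r3_sub s (fun Q => LocW l Q (b : K) ∧ LocW l Q (b' : K))] at a3
  have s1 := r3_sum hA hs (fun Q => Q ∉ S ∧ p Q ∧ ¬ LocW l Q (b' : K))
  have s2 := r3_sum hA hs (fun Q => LocW l Q (b : K))
  have s3 := r3_sum hA hs (fun Q => LocW l Q (b : K) ∧ LocW l Q (b' : K))
  have s4 := r3_sum hA hs (fun Q => Q ∈ S)
  have key : ∑' Q : HeightOneSpectrum (𝓞 K), r3i s (fun Q => LocW l Q (b : K)) Q ≤
      ∑' Q : HeightOneSpectrum (𝓞 K),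
        ((r3i s (fun Q => LocW l Q (b : K) ∧ LocW l Q (b' : K)) Q +
        r3i s (fun Q => Q ∉ S ∧ p Q ∧ ¬ LocW l Q (b' : K)) Q) +
        r3i s (fun Q => Q ∈ S) Q) := by
    refine s2.tsum_le_tsum (fun Q => ?_) ((s3.add s1).add s4)
    have hw := r3_w0 s Q
    have n1 := r3i_nn s (fun Q => LocW l Q (b : K) ∧ LocW l Q (b' : K)) Q
    have n2 := r3i_nn s (fun Q => Q ∉ S ∧ p Q ∧ ¬ LocW l Q (b' : K)) Q
    have n3 := r3i_nn s (fun Q => Q ∈ S) Q
    by_cases hb : LocW l Q (b : K)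
    · have m0 : r3i s (fun Q => LocW l Q (b : K)) Q = (nrm Q : ℝ) ^ (-s) := r3i_pos hb
      by_cases hQ : Q ∈ S
      · have m1 : r3i s (fun Q => Q ∈ S) Q = (nrm Q : ℝ) ^ (-s) := r3i_pos hQ
        linarith
      · by_cases hb' : LocW l Q (b' : K)
        · have m1 : r3i s (fun Q => LocW l Q (b : K) ∧ LocW l Q (b' : K)) Q =
            (nrm Q : ℝ) ^ (-s) := r3i_pos ⟨hb, hb'⟩
          linarith
        · have m1 : r3i s (fun Q => Q ∉ S ∧ p Q ∧ ¬ LocW l Q (b' : K)) Q =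
            (nrm Q : ℝ) ^ (-s) := r3i_pos ⟨hQ, hp Q hQ hb, hb'⟩
          linarith
    · have m0 : r3i s (fun Q => LocW l Q (b : K)) Q = 0 := r3i_neg hb
      linarith
  rw [(s3.add s1).tsum_add s4, s3.tsum_add s1] at key
  have b1 := (abs_le.1 a2).1
  have b2 := (abs_le.1 a3).2
  have b3 : ((1 : ℝ) / l - 1 / l ^ 2) * Real.log (1 / (s - 1)) =
      1 / l * Real.log (1 / (s - 1)) - 1 / l ^ 2 * Real.log (1 / (s - 1)) := by ring
  rw [b3]
  linarith

/-- the real part of the sum of a character is bounded above -/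
private theorem r3_re (hA : AnL l K) {S : Finset (HeightOneSpectrum (𝓞 K))} (hS : AdmL l S)
    (ψ : Kˣ →* Multiplicative (ZMod l)) (hψ : FnL l S ψ) (hne : ψ ≠ 1) :
    ∃ C : ℝ, 0 ≤ C ∧ ∀ s : ℝ, 1 < s → s ≤ 2 →
      ∑' Q : {Q : HeightOneSpectrum (𝓞 K) // Q ∉ S},
        (ZMod.stdAddChar (vl l ψ (gen S Q.1)) : ℂ).re * (nrm Q.1 : ℝ) ^ (-s) ≤ C := by
  obtain ⟨Lf, g, hL, hg, h⟩ := hA.n2 S hS ψ hψ hne
  obtain ⟨A, hA1⟩ := isCompact_Icc.exists_bound_of_continuousOn hL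
  obtain ⟨B, hB1⟩ := isCompact_Icc.exists_bound_of_continuousOn hg
  refine ⟨|Real.log (max A 1)| + |B|, by positivity, fun s hs hs2 => ?_⟩
  have hm : s ∈ Set.Icc (1 : ℝ) 2 := ⟨hs.le, hs2⟩
  have h1 := hA1 s hm
  rw [h s hs hs2, Complex.norm_exp, Complex.add_re] at h1
  have h2 : (∑' Q : {Q : HeightOneSpectrum (𝓞 K) // Q ∉ S},
      ZMod.stdAddChar (vl l ψ (gen S Q.1)) * (((nrm Q.1 : ℝ) ^ (-s) : ℝ) : ℂ)).re =
      ∑' Q : {Q : HeightOneSpectrum (𝓞 K) // Q ∉ S},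
        (ZMod.stdAddChar (vl l ψ (gen S Q.1)) : ℂ).re * (nrm Q.1 : ℝ) ^ (-s) := by
    rw [Complex.re_tsum]
    · refine tsum_congr fun Q => ?_
      rw [Complex.re_mul_ofReal]
    · refine Summable.of_norm_bounded
        (g := fun Q : {Q : HeightOneSpectrum (𝓞 K) // Q ∉ S} => (nrm Q.1 : ℝ) ^ (-s))
        ((hA.sm s hs).subtype _) (fun Q => ?_)
      rw [norm_mul, AddChar.norm_apply, one_mul, Complex.norm_real,
        Real.norm_of_nonneg (r3_w0 s Q.1)]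
  rw [h2] at h1
  have h3 := (h1.trans (le_max_left A 1))
  have h4 : (0 : ℝ) < max A 1 := lt_max_of_lt_right one_pos
  have h5 := (Real.le_log_iff_exp_le h4).2 h3
  have h6 : |(g s).re| ≤ B := (Complex.abs_re_le_norm _).trans (hB1 s hm)
  have h7 := (abs_le.1 h6).1
  have h8 := le_abs_self (Real.log (max A 1))
  have h9 := le_abs_self B
  linarith

/-- linear combinations of functionals -/
private noncomputable def r3c (ω : Fin 3 → (Kˣ →* Multiplicative (ZMod l)))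
    (x : Fin 3 → ZMod l) : Kˣ →* Multiplicative (ZMod l) :=
  MonoidHom.mk' (fun g => Multiplicative.ofAdd (∑ i, x i * vl l (ω i) g)) (fun g h => by
    rw [← ofAdd_add, ← Finset.sum_add_distrib]
    congr 1
    refine Finset.sum_congr rfl fun i _ => ?_
    rw [← mul_add]
    congr 1
    unfold vl
    rw [map_mul, toAdd_mul])

private theorem r3c_vl (ω : Fin 3 → (Kˣ →* Multiplicative (ZMod l))) (x : Fin 3 → ZMod l)
    (g : Kˣ) : vl l (r3c ω x) g = ∑ i, x i * vl l (ω i) g := rfl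

/-- the sum of the characters of a product of three groups -/
private theorem r3_char (c : Fin 3 → ZMod l) :
    ∑ x : Fin 3 → ZMod l, (ZMod.stdAddChar (∑ i, x i * c i) : ℂ).re =
      if c = 0 then (l : ℝ) ^ 3 else 0 := by
  classical
  have h1 : ∀ x : Fin 3 → ZMod l, (ZMod.stdAddChar (∑ i, x i * c i) : ℂ) =
      ∏ i, (ZMod.stdAddChar (x i * c i) : ℂ) := by
    intro x
    rw [Fin.sum_univ_three, Fin.prod_univ_three, AddChar.map_add_eq_mul,
      AddChar.map_add_eq_mul]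
  have h2 : ∑ x : Fin 3 → ZMod l, (ZMod.stdAddChar (∑ i, x i * c i) : ℂ) =
      ∏ i, ∑ t : ZMod l, (ZMod.stdAddChar (t * c i) : ℂ) := by
    rw [Finset.prod_univ_sum, Fintype.piFinset_univ]
    exact Finset.sum_congr rfl fun x _ => h1 x
  have h3 : ∀ i, ∑ t : ZMod l, (ZMod.stdAddChar (t * c i) : ℂ) =
      ((if c i = 0 then l else 0 : ℕ) : ℂ) := by
    intro i
    have := AddChar.sum_mulShift (c i) (ZMod.isPrimitive_stdAddChar l)
    rw [ZMod.card] at this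
    exact this
  rw [← Complex.re_sum, h2, Finset.prod_congr rfl fun i _ => h3 i]
  by_cases hc : c = 0
  · subst hc
    rw [if_pos rfl, Fin.prod_univ_three]
    simp only [Pi.zero_apply, if_true]
    have h4 : ((l : ℕ) : ℂ) * (l : ℂ) * (l : ℂ) = (((l : ℝ) ^ 3 : ℝ) : ℂ) := by
      push_cast
      ring
    rw [h4, Complex.ofReal_re]
  · rw [if_neg hc]
    obtain ⟨i, hi⟩ : ∃ i, c i ≠ 0 := by
      by_contra h
      push Not at h
      exact hc (funext h)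
    rw [Finset.prod_eq_zero (Finset.mem_univ i)]
    · exact Complex.zero_re
    · rw [if_neg hi, Nat.cast_zero]

/-- three functionals that vanish at the primes split for `a` and `a'` are dependent -/
private theorem r3_dep (hA : AnL l K) {S : Finset (HeightOneSpectrum (𝓞 K))} (hS : AdmL l S)
    {a a' : Kˣ} (hI : Ind2 l a a') (ω : Fin 3 → (Kˣ →* Multiplicative (ZMod l)))
    (hF : ∀ x : Fin 3 → ZMod l, FnL l S (r3c ω x))
    (hsp : ∀ Q : HeightOneSpectrum (𝓞 K), Q ∉ S → LocW l Q (a : K) → LocW l Q (a' : K) →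
      ∀ i, vl l (ω i) (gen S Q) = 0) :
    ∃ x : Fin 3 → ZMod l, x ≠ 0 ∧ ∀ g, ∑ i, x i * vl l (ω i) g = 0 := by
  classical
  by_contra hcon
  have hne : ∀ x : Fin 3 → ZMod l, x ≠ 0 → r3c ω x ≠ 1 := by
    intro x hx h1
    refine hcon ⟨x, hx, fun g => ?_⟩
    rw [← r3c_vl, h1]
    rfl
  have hb : ∀ x : Fin 3 → ZMod l, ∃ C : ℝ, 0 ≤ C ∧ (x ≠ 0 → ∀ s : ℝ, 1 < s → s ≤ 2 →
      ∑' Q : {Q : HeightOneSpectrum (𝓞 K) // Q ∉ S},
        (ZMod.stdAddChar (vl l (r3c ω x) (gen S Q.1)) : ℂ).re * (nrm Q.1 : ℝ) ^ (-s) ≤ C) := by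
    intro x
    by_cases hx : x = 0
    · exact ⟨0, le_rfl, fun h => absurd hx h⟩
    · obtain ⟨C, hC0, hC⟩ := r3_re hA hS (r3c ω x) (hF x) (hne x hx)
      exact ⟨C, hC0, fun _ => hC⟩
  choose C hC0 hC using hb
  obtain ⟨C2, h2⟩ := hA.n4b a a' hI
  obtain ⟨C4, h4⟩ := hA.n4
  have hl : (2 : ℝ) ≤ l := by exact_mod_cast (Fact.out : l.Prime).two_le
  refine r3_unb (c := (l : ℝ) - 1) (C := (l : ℝ) ^ 3 * (C2 + S.card) + C4 + ∑ x, C x)
    (by linarith) fun s hs hs2 => ?_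
  set Lg := Real.log (1 / (s - 1)) with hLg
  have hw : ∀ Q : HeightOneSpectrum (𝓞 K), 0 ≤ (nrm Q : ℝ) ^ (-s) := r3_w0 s
  -- the sums over the characters
  set T : (Fin 3 → ZMod l) → ℝ := fun x => ∑' Q : {Q : HeightOneSpectrum (𝓞 K) // Q ∉ S},
    (ZMod.stdAddChar (vl l (r3c ω x) (gen S Q.1)) : ℂ).re * (nrm Q.1 : ℝ) ^ (-s) with hT
  have hsm : Summable fun Q : {Q : HeightOneSpectrum (𝓞 K) // Q ∉ S} =>
      (nrm Q.1 : ℝ) ^ (-s) := (hA.sm s hs).subtype _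
  have hsT : ∀ x, Summable fun Q : {Q : HeightOneSpectrum (𝓞 K) // Q ∉ S} =>
      (ZMod.stdAddChar (vl l (r3c ω x) (gen S Q.1)) : ℂ).re * (nrm Q.1 : ℝ) ^ (-s) := by
    intro x
    refine Summable.of_norm_bounded hsm fun Q => ?_
    rw [norm_mul, Real.norm_of_nonneg (hw Q.1)]
    refine mul_le_of_le_one_left (hw Q.1) ?_
    refine (Complex.abs_re_le_norm _).trans ?_
    rw [AddChar.norm_apply]
  have hT1 : ∀ x, T x ≤ (if x = 0 then Lg + C4 else 0) + C x := by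
    intro x
    by_cases hx : x = 0
    · subst hx
      rw [if_pos rfl]
      have e1 : T 0 = ∑' Q : {Q : HeightOneSpectrum (𝓞 K) // Q ∉ S}, (nrm Q.1 : ℝ) ^ (-s) := by
        rw [hT]
        refine tsum_congr fun Q => ?_
        rw [r3c_vl]
        simp
      have e2 : ∑' Q : {Q : HeightOneSpectrum (𝓞 K) // Q ∉ S}, (nrm Q.1 : ℝ) ^ (-s) ≤
          ∑' Q : HeightOneSpectrum (𝓞 K), (nrm Q : ℝ) ^ (-s) :=
        Summable.tsum_subtype_le (fun Q : HeightOneSpectrum (𝓞 K) => (nrm Q : ℝ) ^ (-s))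
          {Q | Q ∉ S} (fun Q => hw Q) (hA.sm s hs)
      have e3 := (abs_le.1 (h4 s hs hs2)).2
      have e4 := hC0 0
      rw [e1]
      linarith
    · rw [if_neg hx, zero_add]
      exact hC x hx s hs hs2
  have hT2 : ∑ x, T x ≤ Lg + C4 + ∑ x, C x := by
    refine (Finset.sum_le_sum fun x _ => hT1 x).trans (le_of_eq ?_)
    rw [Finset.sum_add_distrib, Finset.sum_ite_eq' Finset.univ (0 : Fin 3 → ZMod l),
      if_pos (Finset.mem_univ _)]
  have hT3 : ∑ x, T x = ∑' Q : {Q : HeightOneSpectrum (𝓞 K) // Q ∉ S},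
      (if (fun i => vl l (ω i) (gen S Q.1)) = (0 : Fin 3 → ZMod l) then (l : ℝ) ^ 3 else 0) *
        (nrm Q.1 : ℝ) ^ (-s) := by
    rw [hT, ← Summable.tsum_finsetSum fun x _ => hsT x]
    refine tsum_congr fun Q => ?_
    rw [← Finset.sum_mul, ← r3_char]
    rfl
  -- the lower bound
  have hs5 : Summable fun Q : {Q : HeightOneSpectrum (𝓞 K) // Q ∉ S} =>
      (if (fun i => vl l (ω i) (gen S Q.1)) = (0 : Fin 3 → ZMod l) then (l : ℝ) ^ 3 else 0) *
        (nrm Q.1 : ℝ) ^ (-s) := by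
    refine Summable.of_nonneg_of_le (fun Q => ?_) (fun Q => ?_) (hsm.mul_left ((l : ℝ) ^ 3))
    · exact mul_nonneg (by split_ifs <;> positivity) (hw Q.1)
    · refine mul_le_mul_of_nonneg_right ?_ (hw Q.1)
      split_ifs
      · exact le_rfl
      · positivity
  have hs6 : Summable fun Q : {Q : HeightOneSpectrum (𝓞 K) // Q ∉ S} =>
      r3i s (fun Q => LocW l Q (a : K) ∧ LocW l Q (a' : K)) Q.1 :=
    (r3_sum hA hs (fun Q => LocW l Q (a : K) ∧ LocW l Q (a' : K))).subtype _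
  have hlow : (l : ℝ) ^ 3 * ∑' Q : {Q : HeightOneSpectrum (𝓞 K) // Q ∉ S},
      r3i s (fun Q => LocW l Q (a : K) ∧ LocW l Q (a' : K)) Q.1 ≤ ∑ x, T x := by
    rw [hT3, ← tsum_mul_left]
    refine (hs6.mul_left _).tsum_le_tsum (fun Q => ?_) hs5
    by_cases h : LocW l Q.1 (a : K) ∧ LocW l Q.1 (a' : K)
    · have m1 : r3i s (fun Q => LocW l Q (a : K) ∧ LocW l Q (a' : K)) Q.1 =
        (nrm Q.1 : ℝ) ^ (-s) := r3i_pos h
      have m2 : (fun i => vl l (ω i) (gen S Q.1)) = (0 : Fin 3 → ZMod l) :=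
        funext fun i => hsp Q.1 Q.2 h.1 h.2 i
      rw [m1, if_pos m2]
    · have m1 : r3i s (fun Q => LocW l Q (a : K) ∧ LocW l Q (a' : K)) Q.1 = 0 := r3i_neg h
      rw [m1, mul_zero]
      exact mul_nonneg (by split_ifs <;> positivity) (hw Q.1)
  have hsplit : ∑' Q : {Q : HeightOneSpectrum (𝓞 K) //
        LocW l Q (a : K) ∧ LocW l Q (a' : K)}, (nrm Q.1 : ℝ) ^ (-s) ≤
      ∑' Q : {Q : HeightOneSpectrum (𝓞 K) // Q ∉ S},
        r3i s (fun Q => LocW l Q (a : K) ∧ LocW l Q (a' : K)) Q.1 + S.card := by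
    rw [r3_sub s (fun Q => LocW l Q (a : K) ∧ LocW l Q (a' : K))]
    have s3 := r3_sum hA hs (fun Q => LocW l Q (a : K) ∧ LocW l Q (a' : K))
    have e0 := s3.tsum_subtype_add_tsum_subtype_compl {Q | Q ∉ S}
    have e2 := r3_fin (K := K) hs S
    have e1 : ∑' Q : ↥({Q : HeightOneSpectrum (𝓞 K) | Q ∉ S}ᶜ),
        r3i s (fun Q => LocW l Q (a : K) ∧ LocW l Q (a' : K)) Q.1 ≤ S.card := by
      refine le_trans ?_ e2
      rw [tsum_subtype ({Q : HeightOneSpectrum (𝓞 K) | Q ∉ S}ᶜ)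
        (r3i s (fun Q => LocW l Q (a : K) ∧ LocW l Q (a' : K)))]
      refine (s3.indicator _).tsum_le_tsum (fun Q => ?_) (r3_sum hA hs (fun Q => Q ∈ S))
      by_cases hQ : Q ∈ S
      · have m1 : r3i s (fun Q => Q ∈ S) Q = (nrm Q : ℝ) ^ (-s) := r3i_pos hQ
        rw [m1]
        refine (Set.indicator_le_self' (fun _ _ => r3i_nn s _ _) Q).trans (r3i_le s _ Q)
      · have m1 : Q ∉ ({Q : HeightOneSpectrum (𝓞 K) | Q ∉ S}ᶜ : Set _) := fun h => h hQ
        rw [Set.indicator_of_notMem m1]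
        exact r3i_nn s _ Q
    rw [← e0]
    exact add_le_add le_rfl e1
  have e5 := (abs_le.1 (h2 s hs hs2)).1
  have e6 : (l : ℝ) ^ 3 * (1 / l ^ 2 * Lg - C2 - S.card) ≤ ∑ x, T x := by
    refine le_trans (mul_le_mul_of_nonneg_left ?_ (by positivity)) hlow
    linarith
  have e7 : (l : ℝ) ^ 3 * (1 / l ^ 2 * Lg - C2 - S.card) =
      l * Lg - (l : ℝ) ^ 3 * (C2 + S.card) := by
    field_simp
    ring
  rw [e7] at e6
  linarith

end An

/-! ### the relation -/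

section Rel

variable {l : ℕ} [Fact l.Prime] {K : Type} [Field K] [NumberField K] {z : K} (Y : LSy l K z)

private theorem r3_anti (P : HeightOneSpectrum (𝓞 K)) (a b : Kˣ) :
    Y.hs P a b = - Y.hs P b a := by
  have h := Y.alt P (a * b)
  rw [Y.mulL, Y.mulR, Y.mulR, Y.alt, Y.alt] at h
  linear_combination h

private theorem r3_vl1 {ω : Kˣ →* Multiplicative (ZMod l)} {x : Kˣ} :
    vl l ω x = 0 ↔ ω x = 1 :=
  ⟨fun h => congrArg Multiplicative.ofAdd h, fun h => congrArg Multiplicative.toAdd h⟩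

/-- a functional trivial on the `S`-units and on `b` is trivial on the generator -/
private theorem r3_gen {S : Finset (HeightOneSpectrum (𝓞 K))} (hS : AdmL l S)
    {ψ : Kˣ →* Multiplicative (ZMod l)} (hu : ∀ u ∈ US S, ψ u = 1)
    {Q : HeightOneSpectrum (𝓞 K)} (hQ : Q ∉ S) {b : Kˣ} (hb1 : ord Q (b : K) = 1)
    (hb2 : ∀ R : HeightOneSpectrum (𝓞 K), R ∉ S → R ≠ Q → ord R (b : K) = 0) (hb : ψ b = 1) :
    ψ (gen S Q) = 1 := by
  obtain ⟨g1, g2⟩ := gen_spec hS.prS hQ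
  have h1 : gen S Q * b⁻¹ ∈ US S := by
    rw [mem_US]
    intro R hR
    have h2 : ord R ((gen S Q * b⁻¹ : Kˣ) : K) = ord R (gen S Q : K) - ord R (b : K) := by
      rw [Units.val_mul, Pool.Agent.H98.MF.B.ord_mul R (Units.ne_zero _) (Units.ne_zero _),
        Units.val_inv_eq_inv_val, Pool.Agent.H98.MF.B.ord_inv, sub_eq_add_neg]
    rw [h2]
    by_cases h : R = Q
    · subst h
      rw [g1, hb1, sub_self]
    · rw [g2 R hR h, hb2 R hR h, sub_self]
  have h3 := hu _ h1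
  rw [map_mul, map_inv, hb, inv_one, mul_one] at h3
  exact h3

private theorem r3_split {S : Finset (HeightOneSpectrum (𝓞 K))} {b : Kˣ} (hG : GdL l S b)
    {ω : Kˣ →* Multiplicative (ZMod l)} (hω : Fna Y S b ω) {Q : HeightOneSpectrum (𝓞 K)}
    (hQ : Q ∉ S) (hb : LocW l Q (b : K)) : ω (gen S Q) = 1 := by
  obtain ⟨c, hc, hc1, hc2⟩ := hG.split Q hQ hb
  exact r3_gen hG.adm hω.unit hQ hc1 hc2 (hω.loc c fun P _ => Y.nm P b c hc)

/-- a functional is not determined by the kernel of another one -/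
private theorem r3_ker (h1 : SR1) (hl : l ≠ 2) (hz : IsPrimitiveRoot z l) (hA : AnL l K)
    {S : Finset (HeightOneSpectrum (𝓞 K))} {b b' : Kˣ} (hI : Ind2 l b b')
    (hG : GdL l S b) (hG' : GdL l S b') {ω ω' : Kˣ →* Multiplicative (ZMod l)}
    (hω : Fna Y S b ω) (hω' : Fna Y S b' ω') (hne : ω' ≠ 1)
    (hk : ∀ g, ω g = 1 → ω' g = 1) : False := by
  obtain ⟨-, -, h3⟩ := h1 l hl K z hz Y hA S b' (r3_npw hI).2.1 hG'
  refine r3_sep hA S hI (fun Q => ω' (gen S Q) = 1) (fun Q hQ hb => ?_) (h3 ω' hω' hne)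
  exact hk _ (r3_split Y hG hω hQ hb)

end Rel

/-- R3: the relation of the functionals of two elements. -/
theorem sr3 (hM : SMem) (_hW : SWk) (h1 : SR1) : SR3 := by
  intro l _ hl K _ _ z hz Y hA S a a' hI hG hG' hG'' hN ω ω' ω'' hω hω' hω'' hn hn' hn''
  have hlp : l.Prime := Fact.out
  -- the three functionals vanish on the elements orthogonal to `a` and `a'`
  have hV : ∀ b : Kˣ, (∀ P ∈ S, Y.hs P a b = 0) → (∀ P ∈ S, Y.hs P a' b = 0) →
      ω b = 1 ∧ ω' b = 1 ∧ ω'' b = 1 := by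
    intro b h2 h3
    refine ⟨hω.loc b h2, hω'.loc b h3, hω''.loc b fun P hP => ?_⟩
    rw [Y.mulL, h2 P hP, h3 P hP, add_zero]
  set Ω : Fin 3 → (Kˣ →* Multiplicative (ZMod l)) := ![ω, ω', ω''] with hΩ
  have hVi : ∀ b : Kˣ, (∀ P ∈ S, Y.hs P a b = 0) → (∀ P ∈ S, Y.hs P a' b = 0) →
      ∀ i, vl l (Ω i) b = 0 := by
    intro b h2 h3 i
    obtain ⟨e1, e2, e3⟩ := hV b h2 h3
    rw [r3_vl1]
    fin_cases i
    · exact e1
    · exact e2
    · exact e3
  have hUi : ∀ u ∈ US S, ∀ i, vl l (Ω i) u = 0 := by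
    intro u hu i
    rw [r3_vl1]
    fin_cases i
    · exact hω.unit u hu
    · exact hω'.unit u hu
    · exact hω''.unit u hu
  have hF : ∀ x : Fin 3 → ZMod l, FnL l S (r3c Ω x) := by
    intro x
    constructor
    · intro u hu
      rw [← r3_vl1, r3c_vl]
      exact Finset.sum_eq_zero fun i _ => by rw [hUi u hu i, mul_zero]
    · intro b hb
      have hloc : ∀ P ∈ S, ∀ c : Kˣ, Y.hs P c b = 0 := by
        intro P hP c
        have h2 : b ∈ WS l P := (Subgroup.mem_iInf.1 (Subgroup.mem_iInf.1 hb P)) hP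
        rw [r3_anti, (Y.nd P b).2 ((hM l hlp K P b).1 h2) c, neg_zero]
      rw [← r3_vl1, r3c_vl]
      exact Finset.sum_eq_zero fun i _ => by
        rw [hVi b (fun P hP => hloc P hP a) (fun P hP => hloc P hP a') i, mul_zero]
  have hsp : ∀ Q : HeightOneSpectrum (𝓞 K), Q ∉ S → LocW l Q (a : K) → LocW l Q (a' : K) →
      ∀ i, vl l (Ω i) (gen S Q) = 0 := by
    intro Q hQ ha ha' i
    obtain ⟨c, hc, hc', hc1, hc2⟩ := hN Q hQ ha ha'
    rw [r3_vl1]
    refine r3_gen hG.adm (fun u hu => r3_vl1.1 (hUi u hu i)) hQ hc1 hc2 ?_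
    exact r3_vl1.1 (hVi c (fun P _ => Y.nm P a c hc) (fun P _ => Y.nm P a' c hc') i)
  obtain ⟨x, hx0, hx⟩ := r3_dep hA hG.adm hI Ω hF hsp
  have hx' : ∀ g, x 0 * vl l ω g + x 1 * vl l ω' g + x 2 * vl l ω'' g = 0 := by
    intro g
    have := hx g
    rw [Fin.sum_univ_three] at this
    exact this
  have hx2 : x 2 ≠ 0 := by
    intro h2
    by_cases h3 : x 1 = 0
    · have h4 : x 0 ≠ 0 := by
        intro h4
        apply hx0
        funext i
        fin_cases i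
        · exact h4
        · exact h3
        · exact h2
      apply hn
      ext g
      have h5 := hx' g
      rw [h2, h3, zero_mul, zero_mul, add_zero, add_zero] at h5
      exact congrArg _ (r3_vl1.1 ((mul_eq_zero.1 h5).resolve_left h4))
    · refine r3_ker Y h1 hl hz hA hI hG hG' hω hω' hn' fun g hg => ?_
      have h5 := hx' g
      rw [h2, zero_mul, add_zero, r3_vl1.2 hg, mul_zero, zero_add] at h5
      exact r3_vl1.1 ((mul_eq_zero.1 h5).resolve_left h3)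
  have hrel : ∀ g, vl l ω'' g = -(x 0 / x 2) * vl l ω g + -(x 1 / x 2) * vl l ω' g := by
    intro g
    have h5 := hx' g
    field_simp
    linear_combination h5
  refine ⟨-(x 0 / x 2), -(x 1 / x 2), fun h => ?_, fun h => ?_, hrel⟩
  · refine r3_ker Y h1 hl hz hA (r3_ind2 hI) hG' hG'' hω' hω'' hn'' fun g hg => ?_
    have h5 := hrel g
    rw [h, zero_mul, zero_add, r3_vl1.2 hg, mul_zero] at h5
    exact r3_vl1.1 h5
  · refine r3_ker Y h1 hl hz hA (r3_ind1 hI) hG hG'' hω hω'' hn'' fun g hg => ?_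
    have h5 := hrel g
    rw [h, zero_mul, add_zero, r3_vl1.2 hg, mul_zero] at h5
    exact r3_vl1.1 h5

end Pool.Agent.H92.EL
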