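import Pool.Agent.H92.EL.AStm
import Pool.Agent.H98.MF.C.Bas

/-!
# Project ELL (MP_a3214d), block A: the global constants
-/

set_option autoImplicit false
set_option linter.unusedSectionVars false

open scoped BigOperators Pointwise
open NumberField IsDedekindDomain

namespace Pool.Agent.H92.EL

open Pool.Agent.H98.MF (Om Gm ord Dec US PrS SUn mS nrm gen FixD)
open Pool.Agent.H98.MF.B (mem_US US_mono exists_mem_US gen_spec)

section

variable {l : ℕ} [Fact l.Prime] {K : Type} [Field K] [NumberField K] {z : K} (Y : LSy l K z)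

private theorem r4_anti (P : HeightOneSpectrum (𝓞 K)) (a b : Kˣ) : Y.hs P a b = - Y.hs P b a := by
  have h := Y.alt P (a * b)
  rw [Y.mulL, Y.mulR, Y.mulR, Y.alt, Y.alt] at h
  linear_combination h

private theorem r4_oneR (P : HeightOneSpectrum (𝓞 K)) (a : Kˣ) : Y.hs P a 1 = 0 := by
  have h := Y.mulR P a 1 1
  rw [mul_one] at h
  linear_combination -h

private theorem r4_powR (P : HeightOneSpectrum (𝓞 K)) (a b : Kˣ) (n : ℕ) :
    Y.hs P a (b ^ n) = n * Y.hs P a b := by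
  induction n with
  | zero => rw [pow_zero, r4_oneR]; simp
  | succ n ih => rw [pow_succ, Y.mulR, ih]; push_cast; ring

private theorem r4_powL (P : HeightOneSpectrum (𝓞 K)) (a b : Kˣ) (n : ℕ) :
    Y.hs P (a ^ n) b = n * Y.hs P a b := by
  rw [r4_anti, r4_powR, r4_anti Y P b a]; ring

private theorem r4_locR {P : HeightOneSpectrum (𝓞 K)} {b : Kˣ} (a : Kˣ)
    (h : LocW l P (b : K)) : Y.hs P a b = 0 := by
  rw [r4_anti, (Y.nd P b).2 h, neg_zero]

private theorem r4_not {P : HeightOneSpectrum (𝓞 K)} {a b : Kˣ} (h : Y.hs P a b ≠ 0) :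
    ¬ LocW l P (a : K) := fun h' => h ((Y.nd P a).2 h' b)

private theorem r4_congr (hM : SMem) {P : HeightOneSpectrum (𝓞 K)} {x c : Kˣ} (a : Kˣ)
    (h : x / c ∈ WS l P) : Y.hs P a x = Y.hs P a c := by
  have h1 : Y.hs P a (x / c) = 0 := r4_locR Y a ((hM l (Fact.out) K P _).1 h)
  have h2 : x = x / c * c := by rw [div_mul_cancel]
  rw [h2, Y.mulR, h1, zero_add]

private theorem r4_uu {P : HeightOneSpectrum (𝓞 K)} {a b : Kˣ} (hl : ord P (l : K) = 0)
    (ha : ord P (a : K) = 0) (hb : ord P (b : K) = 0) : Y.hs P a b = 0 := by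
  rw [Y.unit P a b hl ha, hb]
  simp

private theorem r4_pw {a : Kˣ} (h : a ∈ pw l (⊤ : Subgroup Kˣ)) (P : HeightOneSpectrum (𝓞 K))
    (b : Kˣ) : Y.hs P a b = 0 := by
  obtain ⟨w, -, hw⟩ := Subgroup.mem_map.1 h
  have hw' : w ^ l = a := hw
  rw [← hw', r4_powL]
  simp

include Y in
private theorem r4_npw {P : HeightOneSpectrum (𝓞 K)} {a : Kˣ} (h : ¬ LocW l P (a : K)) :
    a ∉ pw l (⊤ : Subgroup Kˣ) := fun h' => h ((Y.nd P a).1 fun b => r4_pw Y h' P b)

private theorem r4_ind {P : HeightOneSpectrum (𝓞 K)} {a b : Kˣ} (h : Y.hs P a b ≠ 0) :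
    Ind2 l a b := by
  intro i j hij
  have h1 := r4_pw Y hij P a
  have h2 := r4_pw Y hij P b
  rw [Y.mulL, r4_powL, r4_powL, Y.alt, mul_zero, zero_add, r4_anti] at h1
  rw [Y.mulL, r4_powL, r4_powL, Y.alt, mul_zero, add_zero] at h2
  rw [ZMod.natCast_zmod_val] at h1 h2
  constructor
  · exact (mul_eq_zero.1 h2).resolve_right h
  · rcases mul_eq_zero.1 h1 with h3 | h3
    · exact h3
    · exact absurd (neg_eq_zero.1 h3) h

private theorem r4_ordl (P : HeightOneSpectrum (𝓞 K)) : 0 ≤ ord P (l : K) := by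
  unfold ord
  have h : FractionalIdeal.spanSingleton (nonZeroDivisors (𝓞 K)) (l : K) =
      ((Ideal.span {(l : 𝓞 K)} : Ideal (𝓞 K)) : FractionalIdeal (nonZeroDivisors (𝓞 K)) K) := by
    rw [FractionalIdeal.coeIdeal_span_singleton, map_natCast]
  rw [h]
  exact FractionalIdeal.count_coe_nonneg K P _

private theorem r4_ordl0 {S : Finset (HeightOneSpectrum (𝓞 K))}
    (hS : ∀ P : HeightOneSpectrum (𝓞 K), 0 < ord P (l : K) → P ∈ S)
    {P : HeightOneSpectrum (𝓞 K)} (hP : P ∉ S) : ord P (l : K) = 0 := by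
  have h1 := r4_ordl (l := l) P
  by_contra h
  exact hP (hS P (by omega))

/-- evaluation at one place -/
private theorem r4_eval (hM : SMem) (hW : SWk) {S : Finset (HeightOneSpectrum (𝓞 K))}
    {P : HeightOneSpectrum (𝓞 K)} (hP : P ∈ S) (b : Kˣ) :
    ∃ g : Kˣ, ∀ (f : HeightOneSpectrum (𝓞 K) → ZMod l) (a : Kˣ),
      ∑ Q ∈ S, f Q * Y.hs Q a g = f P * Y.hs P a b := by
  classical
  obtain ⟨g, hg⟩ := hW l Fact.out K S (fun Q => if Q = P then b else 1)
  refine ⟨g, fun f a => ?_⟩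
  have h1 : ∀ Q ∈ S, f Q * Y.hs Q a g = if Q = P then f P * Y.hs P a b else 0 := by
    intro Q hQ
    rw [r4_congr Y hM a (hg Q hQ)]
    by_cases h : Q = P
    · subst h; simp
    · simp only [h, if_false]
      rw [r4_oneR, mul_zero]
  rw [Finset.sum_congr rfl h1, Finset.sum_ite_eq' S P, if_pos hP]

/-- the coefficients of the functional of `a` at `S` -/
private structure R4c (S : Finset (HeightOneSpectrum (𝓞 K))) (a : Kˣ)
    (c : HeightOneSpectrum (𝓞 K) → ZMod l) : Prop where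
  good : GdL l S a
  zero : ∀ P, LocW l P (a : K) → c P = 0
  ex : ∃ ω : Kˣ →* Multiplicative (ZMod l), Fna Y S a ω ∧ ω ≠ 1 ∧
    ∀ x, vl l ω x = ∑ P ∈ S, c P * Y.hs P a x

private theorem r4_ne {ω : Kˣ →* Multiplicative (ZMod l)} (h : ω ≠ 1) : ∃ x, vl l ω x ≠ 0 := by
  by_contra hc
  push Not at hc
  apply h
  ext x
  exact congrArg Multiplicative.ofAdd (hc x)

private theorem r4_ne' {ω : Kˣ →* Multiplicative (ZMod l)} {x : Kˣ} (h : vl l ω x ≠ 0) :
    ω ≠ 1 := by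
  rintro rfl
  exact h rfl

private theorem r4_vl1 {ω : Kˣ →* Multiplicative (ZMod l)} {x : Kˣ} :
    vl l ω x = 0 ↔ ω x = 1 :=
  ⟨fun h => congrArg Multiplicative.ofAdd h, fun h => congrArg Multiplicative.toAdd h⟩

variable {Y}

private theorem R4c.exists_ne {S : Finset (HeightOneSpectrum (𝓞 K))} {a : Kˣ}
    {c : HeightOneSpectrum (𝓞 K) → ZMod l} (h : R4c Y S a c) :
    ∃ P ∈ S, c P ≠ 0 ∧ ¬ LocW l P (a : K) := by
  obtain ⟨ω, h1, h2, h3⟩ := h.ex
  obtain ⟨x, hx⟩ := r4_ne h2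
  rw [h3] at hx
  obtain ⟨P, hP, hne⟩ := Finset.exists_ne_zero_of_sum_ne_zero hx
  exact ⟨P, hP, left_ne_zero_of_mul hne, r4_not Y (right_ne_zero_of_mul hne)⟩

variable (Y)

/-- existence of the coefficients -/
private theorem r4_ex (hr1 : SR1) (hr2 : SR2) (hl : l ≠ 2) (hz : IsPrimitiveRoot z l)
    (hA : AnL l K) {S : Finset (HeightOneSpectrum (𝓞 K))} {a : Kˣ} (hg : GdL l S a)
    (ha : a ∉ pw l (⊤ : Subgroup Kˣ)) : ∃ c, R4c Y S a c := by
  obtain ⟨⟨ω, h1, h2, -⟩, -, -⟩ := hr1 l hl K z hz Y hA S a ha hg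
  obtain ⟨c, hc1, hc2⟩ := hr2 l K z Y S a ω h1
  exact ⟨c, hg, hc1, ω, h1, h2, hc2⟩

/-- uniqueness of the coefficients -/
private theorem r4_uniq (hM : SMem) (hW : SWk) (hr1 : SR1) (hl : l ≠ 2)
    (hz : IsPrimitiveRoot z l)
    (hA : AnL l K) {S : Finset (HeightOneSpectrum (𝓞 K))} {a : Kˣ}
    {c c' : HeightOneSpectrum (𝓞 K) → ZMod l} (h : R4c Y S a c) (h' : R4c Y S a c') :
    ∃ t : ZMod l, t ≠ 0 ∧ ∀ P ∈ S, c' P = t * c P := by
  obtain ⟨P0, hP0, hcP0, hL0⟩ := h.exists_ne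
  obtain ⟨⟨ω, h1, h2, h3⟩, -, -⟩ := hr1 l hl K z hz Y hA S a (r4_npw Y hL0) h.good
  obtain ⟨ψ, k1, k2, k3⟩ := h.ex
  obtain ⟨ψ', k1', k2', k3'⟩ := h'.ex
  obtain ⟨t, ht⟩ := h3 ψ k1
  obtain ⟨t', ht'⟩ := h3 ψ' k1'
  have ht0 : t ≠ 0 := by
    rintro rfl
    obtain ⟨x, hx⟩ := r4_ne k2
    exact hx (by rw [ht, zero_mul])
  have ht0' : t' ≠ 0 := by
    rintro rfl
    obtain ⟨x, hx⟩ := r4_ne k2'
    exact hx (by rw [ht', zero_mul])
  refine ⟨t' / t, div_ne_zero ht0' ht0, fun P hP => ?_⟩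
  by_cases hL : LocW l P (a : K)
  · rw [h.zero P hL, h'.zero P hL, mul_zero]
  · have h5 : ∃ b, Y.hs P a b ≠ 0 := by
      by_contra hc
      push Not at hc
      exact hL ((Y.nd P a).1 hc)
    obtain ⟨b, hb⟩ := h5
    obtain ⟨g, hg⟩ := r4_eval Y hM hW hP b
    have e1 : t * vl l ω g = c P * Y.hs P a b := by rw [← ht, k3, hg c a]
    have e2 : t' * vl l ω g = c' P * Y.hs P a b := by rw [← ht', k3', hg c' a]
    have e3 : t * (c' P * Y.hs P a b) = t' * (c P * Y.hs P a b) := by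
      rw [← e1, ← e2]; ring
    have e4 : t * c' P = t' * c P := by
      apply mul_right_cancel₀ hb
      linear_combination e3
    rw [div_mul_eq_mul_div, eq_div_iff ht0, ← e4]
    ring

/-- change of `S` -/
private theorem r4_res (hM : SMem) (hW : SWk)
    {S S' : Finset (HeightOneSpectrum (𝓞 K))} {a : Kˣ}
    {c : HeightOneSpectrum (𝓞 K) → ZMod l} (hSS : S ⊆ S') (h : R4c Y S' a c)
    (hg : GdL l S a) : R4c Y S a c := by
  classical
  obtain ⟨ω, h1, h2, h3⟩ := h.ex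
  -- splitting the sum
  have hsp : ∀ x, vl l ω x = ∑ P ∈ S, c P * Y.hs P a x + ∑ P ∈ S' \ S, c P * Y.hs P a x := by
    intro x
    rw [h3, ← Finset.sum_union Finset.disjoint_sdiff, Finset.union_sdiff_of_subset hSS]
  have hout : ∀ P, P ∉ S → ord P (l : K) = 0 ∧ ord P (a : K) = 0 := fun P hP =>
    ⟨r4_ordl0 hg.adm.mem hP, mem_US.1 hg.mem P hP⟩
  let ψ : Kˣ →* Multiplicative (ZMod l) :=
    { toFun := fun x => Multiplicative.ofAdd (∑ P ∈ S, c P * Y.hs P a x)
      map_one' := by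
        rw [Finset.sum_eq_zero fun P _ => by rw [r4_oneR, mul_zero]]
        rfl
      map_mul' := fun x y => by
        rw [← ofAdd_add, ← Finset.sum_add_distrib]
        congr 1
        refine Finset.sum_congr rfl fun P _ => ?_
        rw [Y.mulR]; ring }
  have hψ : ∀ x, vl l ψ x = ∑ P ∈ S, c P * Y.hs P a x := fun x => rfl
  refine ⟨hg, h.zero, ψ, ⟨?_, ?_⟩, ?_, hψ⟩
  · intro u hu
    rw [← r4_vl1, hψ]
    have e1 : vl l ω u = 0 := r4_vl1.2 (h1.unit u (US_mono hSS hu))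
    rw [hsp] at e1
    rw [Finset.sum_eq_zero (s := S' \ S)] at e1
    · rw [add_zero] at e1; exact e1
    · intro P hP
      have hPS : P ∉ S := (Finset.mem_sdiff.1 hP).2
      rw [r4_uu Y (hout P hPS).1 (hout P hPS).2 (mem_US.1 hu P hPS), mul_zero]
  · intro b hb
    rw [← r4_vl1, hψ]
    exact Finset.sum_eq_zero fun P hP => by rw [hb P hP, mul_zero]
  · intro hψ1
    -- then all coefficients vanish
    have hz0 : ∀ P ∈ S', ∀ b, c P * Y.hs P a b = 0 := by
      intro P hP b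
      by_cases hPS : P ∈ S
      · obtain ⟨g, hg'⟩ := r4_eval Y hM hW hPS b
        rw [← hg' c a, ← hψ, hψ1]
        rfl
      · obtain ⟨q1, q2⟩ := gen_spec hg.adm.prS hPS
        have e1 : vl l ω (gen S P) = 0 := by
          refine r4_vl1.2 (h1.unit _ (mem_US.2 fun Q hQ => ?_))
          exact q2 Q (fun h' => hQ (hSS h')) (fun h' => hQ (h' ▸ hP))
        rw [hsp, ← hψ, hψ1] at e1
        rw [Finset.sum_eq_single P] at e1
        · have e2 : c P * Y.hs P a (gen S P) = 0 := by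
            have e3 : vl l (1 : Kˣ →* Multiplicative (ZMod l)) (gen S P) = 0 := rfl
            rw [e3, zero_add] at e1
            exact e1
          rw [Y.unit P a _ (hout P hPS).1 (hout P hPS).2, q1] at e2
          rw [Y.unit P a b (hout P hPS).1 (hout P hPS).2]
          push_cast at e2
          linear_combination (ord P (b : K) : ZMod l) * e2
        · intro Q hQ hne
          have hQS := (Finset.mem_sdiff.1 hQ).2
          rw [Y.unit Q a _ (hout Q hQS).1 (hout Q hQS).2, q2 Q hQS hne]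
          simp
        · intro h'
          exact absurd (Finset.mem_sdiff.2 ⟨hP, hPS⟩) h'
    apply h2
    obtain h4 | ⟨x, hx⟩ := em (ω = 1) |>.imp id r4_ne
    · exact h4
    · exact absurd (by rw [h3]; exact Finset.sum_eq_zero fun P hP => hz0 P hP x) hx

/-- the values of the sums for one element at one place -/
private theorem r4_val (hM : SMem) (hW : SWk) {S : Finset (HeightOneSpectrum (𝓞 K))}
    {a b : Kˣ}
    (hg : GdL l S a) (hg' : GdL l S b) (hgg : GdL l S (a * b)) (hn : NPL2 l S a b)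
    (hr3 : SR3) (hl : l ≠ 2) (hz : IsPrimitiveRoot z l) (hA : AnL l K)
    (hI : Ind2 l a b) {c c' c'' : HeightOneSpectrum (𝓞 K) → ZMod l}
    (h : R4c Y S a c) (h' : R4c Y S b c') (h'' : R4c Y S (a * b) c'') :
    ∃ x y : ZMod l, x ≠ 0 ∧ y ≠ 0 ∧ ∀ P ∈ S, ∀ g, c'' P * Y.hs P (a * b) g =
      x * (c P * Y.hs P a g) + y * (c' P * Y.hs P b g) := by
  obtain ⟨ω, k1, k2, k3⟩ := h.ex
  obtain ⟨ω', k1', k2', k3'⟩ := h'.ex
  obtain ⟨ω'', k1'', k2'', k3''⟩ := h''.ex
  obtain ⟨x, y, hx, hy, hxy⟩ := hr3 l hl K z hz Y hA S a b hI hg hg' hgg hn ω ω' ω'' k1 k1' k1''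
    k2 k2' k2''
  refine ⟨x, y, hx, hy, fun P hP g => ?_⟩
  obtain ⟨g', hg'⟩ := r4_eval Y hM hW hP g
  have e := hxy g'
  rw [k3, k3', k3'', hg' c a, hg' c' b, hg' c'' (a * b)] at e
  exact e

/-- the relation of two elements -/
private theorem r4_pair (hM : SMem) (hW : SWk) (hr1 : SR1) (hr2 : SR2) (hr3 : SR3)
    (hl : l ≠ 2) (hz : IsPrimitiveRoot z l) (hA : AnL l K)
    {S : Finset (HeightOneSpectrum (𝓞 K))} {P Q : HeightOneSpectrum (𝓞 K)} (hP : P ∈ S)
    (hQ : Q ∈ S) {a b : Kˣ}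
    (hg : GdL l S a) (hg' : GdL l S b) (hgg : GdL l S (a * b)) (hn : NPL2 l S a b)
    (hab : Y.hs P a b ≠ 0) (hab' : Y.hs Q a b ≠ 0)
    {c c' : HeightOneSpectrum (𝓞 K) → ZMod l} (h : R4c Y S a c) (h' : R4c Y S b c') :
    ∃ x y : ZMod l, x ≠ 0 ∧ y ≠ 0 ∧ x * c P = y * c' P ∧ x * c Q = y * c' Q := by
  have hI : Ind2 l a b := r4_ind Y hab
  have hnp : a * b ∉ pw l (⊤ : Subgroup Kˣ) := by
    intro hc
    have e := r4_pw Y hc P b
    rw [Y.mulL, Y.alt, add_zero] at e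
    exact hab e
  obtain ⟨c'', h''⟩ := r4_ex Y hr1 hr2 hl hz hA hgg hnp
  obtain ⟨x, y, hx, hy, hxy⟩ := r4_val Y hM hW hg hg' hgg hn hr3 hl hz hA hI h h' h''
  have key : ∀ R ∈ S, Y.hs R a b ≠ 0 → x * c R = y * c' R := by
    intro R hR hne
    have e1 := hxy R hR b
    have e2 := hxy R hR a
    rw [Y.mulL, Y.alt] at e1 e2
    rw [r4_anti Y R b a] at e2
    apply mul_right_cancel₀ hne
    linear_combination -e1 - e2
  exact ⟨x, y, hx, hy, key P hP hab, key Q hQ hab'⟩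

/-- two proper subgroups do not cover -/
private theorem r4_two {P : HeightOneSpectrum (𝓞 K)} {a b : Kˣ} (ha : ¬ LocW l P (a : K))
    (hb : ¬ LocW l P (b : K)) : ∃ e, Y.hs P a e ≠ 0 ∧ Y.hs P b e ≠ 0 := by
  have h1 : ∃ e, Y.hs P a e ≠ 0 := by
    by_contra hc
    push Not at hc
    exact ha ((Y.nd P a).1 hc)
  have h2 : ∃ e, Y.hs P b e ≠ 0 := by
    by_contra hc
    push Not at hc
    exact hb ((Y.nd P b).1 hc)
  obtain ⟨x, hx⟩ := h1
  obtain ⟨y, hy⟩ := h2
  by_cases h3 : Y.hs P b x = 0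
  · by_cases h4 : Y.hs P a y = 0
    · refine ⟨x * y, ?_, ?_⟩
      · rw [Y.mulR, h4, add_zero]; exact hx
      · rw [Y.mulR, h3, zero_add]; exact hy
    · exact ⟨y, h4, hy⟩
  · exact ⟨x, hx, h3⟩

/-- the cross ratio -/
private theorem r4_cross (hM : SMem) (hW : SWk) (h3 : SC3) (hr1 : SR1) (hr2 : SR2) (hr3 : SR3)
    (hl : l ≠ 2) (hz : IsPrimitiveRoot z l) (hA : AnL l K)
    {S S' : Finset (HeightOneSpectrum (𝓞 K))} {P Q : HeightOneSpectrum (𝓞 K)} (hP : P ∈ S)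
    (hQ : Q ∈ S) (hP' : P ∈ S') (hQ' : Q ∈ S') {a b : Kˣ}
    {c c' : HeightOneSpectrum (𝓞 K) → ZMod l} (h : R4c Y S a c) (h' : R4c Y S' b c')
    (haP : ¬ LocW l P (a : K)) (haQ : ¬ LocW l Q (a : K)) (hbP : ¬ LocW l P (b : K))
    (hbQ : ¬ LocW l Q (b : K)) :
    ∃ x y : ZMod l, x ≠ 0 ∧ y ≠ 0 ∧ x * c P = y * c' P ∧ x * c Q = y * c' Q := by
  classical
  -- an auxiliary element
  obtain ⟨eP, heP1, heP2⟩ := r4_two Y haP hbP
  obtain ⟨eQ, heQ1, heQ2⟩ := r4_two Y haQ hbQ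
  obtain ⟨e, he⟩ := hW l Fact.out K {P, Q} (fun R => if R = P then eP else eQ)
  have hce : ∀ d : Kˣ, Y.hs P d eP ≠ 0 → Y.hs Q d eQ ≠ 0 →
      Y.hs P d e ≠ 0 ∧ Y.hs Q d e ≠ 0 := by
    intro d hd1 hd2
    have k1 := r4_congr Y hM d (he P (by simp))
    have k2 := r4_congr Y hM d (he Q (by simp))
    rw [k1, k2]
    by_cases hPQ : Q = P
    · subst hPQ
      simp only [if_true]
      exact ⟨hd1, hd1⟩
    · simp only [if_true, if_neg hPQ]
      exact ⟨hd1, hd2⟩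
  obtain ⟨ha1, ha2⟩ := hce a heP1 heQ1
  obtain ⟨hb1, hb2⟩ := hce b heP2 heQ2
  have hnpm : ∀ d : Kˣ, Y.hs P d e ≠ 0 → d * e ∉ pw l (⊤ : Subgroup Kˣ) := by
    intro d hd hc
    have e1 := r4_pw Y hc P e
    rw [Y.mulL, Y.alt, add_zero] at e1
    exact hd e1
  have hnpe : e ∉ pw l (⊤ : Subgroup Kˣ) := by
    intro hc
    have e1 := r4_pw Y hc P a
    rw [r4_anti] at e1
    exact ha1 (neg_eq_zero.1 e1)
  obtain ⟨T, hT1, hT2, hT3⟩ := h3 l Fact.out hl K z hz (S ∪ S') {a, b, e, a * e, b * e} (by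
    intro d hd
    simp only [Finset.mem_insert, Finset.mem_singleton] at hd
    rcases hd with rfl | rfl | rfl | rfl | rfl
    · exact r4_npw Y haP
    · exact r4_npw Y hbP
    · exact hnpe
    · exact hnpm _ ha1
    · exact hnpm _ hb1)
  have hST : S ⊆ T := Finset.subset_union_left.trans hT1
  have hST' : S' ⊆ T := Finset.subset_union_right.trans hT1
  have g1 : GdL l T a := hT2 a (by simp)
  have g2 : GdL l T b := hT2 b (by simp)
  have g3 : GdL l T e := hT2 e (by simp)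
  have g4 : GdL l T (a * e) := hT2 (a * e) (by simp)
  have g5 : GdL l T (b * e) := hT2 (b * e) (by simp)
  have n1 : NPL2 l T a e := hT3 a (by simp) e (by simp) (r4_ind Y ha1)
  have n2 : NPL2 l T b e := hT3 b (by simp) e (by simp) (r4_ind Y hb1)
  obtain ⟨ca, hca⟩ := r4_ex Y hr1 hr2 hl hz hA g1 (r4_npw Y haP)
  obtain ⟨cb, hcb⟩ := r4_ex Y hr1 hr2 hl hz hA g2 (r4_npw Y hbP)
  obtain ⟨ce, hce'⟩ := r4_ex Y hr1 hr2 hl hz hA g3 hnpe
  obtain ⟨x, y, hx, hy, hxy1, hxy2⟩ := r4_pair Y hM hW hr1 hr2 hr3 hl hz hA (hST hP) (hST hQ)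
    g1 g3 g4 n1 ha1 ha2 hca hce'
  obtain ⟨x', y', hx', hy', hxy1', hxy2'⟩ := r4_pair Y hM hW hr1 hr2 hr3 hl hz hA (hST hP)
    (hST hQ) g2 g3 g5 n2 hb1 hb2 hcb hce'
  obtain ⟨t, ht, htc⟩ := r4_uniq Y hM hW hr1 hl hz hA h (r4_res Y hM hW hST hca h.good)
  obtain ⟨t', ht', htc'⟩ := r4_uniq Y hM hW hr1 hl hz hA h' (r4_res Y hM hW hST' hcb h'.good)
  rw [htc P hP] at hxy1
  rw [htc Q hQ] at hxy2
  rw [htc' P hP'] at hxy1'
  rw [htc' Q hQ'] at hxy2'
  refine ⟨y' * x * t, y * x' * t', mul_ne_zero (mul_ne_zero hy' hx) ht,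
    mul_ne_zero (mul_ne_zero hy hx') ht', ?_, ?_⟩
  · linear_combination y' * hxy1 - y * hxy1'
  · linear_combination y' * hxy2 - y * hxy2'

/-- an element which is not a power at two places -/
private theorem r4_both (hM : SMem) {P Q : HeightOneSpectrum (𝓞 K)} {a b : Kˣ}
    (ha : ¬ LocW l P (a : K)) (hb : ¬ LocW l Q (b : K)) :
    ∃ e : Kˣ, ¬ LocW l P (e : K) ∧ ¬ LocW l Q (e : K) := by
  have hp := Fact.out (p := l.Prime)
  rw [← hM l hp K] at ha hb
  simp only [← hM l hp K]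
  by_cases h1 : a ∈ WS l Q
  · by_cases h2 : b ∈ WS l P
    · refine ⟨a * b, ?_, ?_⟩
      · rwa [Subgroup.mul_mem_cancel_right _ h2]
      · rwa [Subgroup.mul_mem_cancel_left _ h1]
    · exact ⟨b, h2, hb⟩
  · exact ⟨a, ha, h1⟩

end

/-- the global constants -/
theorem sr4 (hM : SMem) (hW : SWk) (hA : SAn) (h3 : SC3) (hr1 : SR1) (hr2 : SR2) (hr3 : SR3) :
    SR4 := by
  classical
  intro l _ hl K _ _ z hz Y
  have hp : l.Prime := Fact.out
  have hAn : AnL l K := hA l hl K z hz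
  by_cases hex : ∃ e0 : Kˣ, e0 ∉ pw l (⊤ : Subgroup Kˣ)
  swap
  · push Not at hex
    exact ⟨fun _ => 0, fun S _ a _ b _ => by simp, fun a ha => absurd (hex a) ha⟩
  obtain ⟨e0, he0⟩ := hex
  have hgood : ∀ (T : Finset (HeightOneSpectrum (𝓞 K))) (a : Kˣ),
      a ∉ pw l (⊤ : Subgroup Kˣ) → ∃ S, T ⊆ S ∧ GdL l S a ∧ ∃ c, R4c Y S a c := by
    intro T a ha
    obtain ⟨S, h1, h2, -⟩ := h3 l hp hl K z hz T {a} (by
      intro d hd
      rw [Finset.mem_singleton] at hd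
      rw [hd]; exact ha)
    have hg := h2 a (by simp)
    exact ⟨S, h1, hg, r4_ex Y hr1 hr2 hl hz hAn hg ha⟩
  obtain ⟨S0, -, -, c0, hc0⟩ := hgood ∅ e0 he0
  obtain ⟨v0, hv0, hcv0, hLv0⟩ := hc0.exists_ne
  -- the coefficient at the fixed place does not vanish
  have hcn : ∀ (e : Kˣ) (S : Finset (HeightOneSpectrum (𝓞 K)))
      (c : HeightOneSpectrum (𝓞 K) → ZMod l), ¬ LocW l v0 (e : K) → v0 ∈ S → R4c Y S e c →
      c v0 ≠ 0 := by
    intro e S c he hv hc h0
    obtain ⟨x, y, hx, hy, h1, -⟩ := r4_cross Y hM hW h3 hr1 hr2 hr3 hl hz hAn hv0 hv0 hv hv hc0 hc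
      hLv0 hLv0 he he
    rw [h0, mul_zero] at h1
    exact mul_ne_zero hx hcv0 h1
  -- the constants
  have hcon : ∀ P : HeightOneSpectrum (𝓞 K), ∃ t : ZMod l, ∀ (e : Kˣ)
      (S : Finset (HeightOneSpectrum (𝓞 K))) (c : HeightOneSpectrum (𝓞 K) → ZMod l),
      ¬ LocW l v0 (e : K) → ¬ LocW l P (e : K) → v0 ∈ S → P ∈ S → R4c Y S e c →
      c P = c v0 * t := by
    intro P
    by_cases hP : ∃ e1 : Kˣ, ¬ LocW l P (e1 : K)
    swap
    · push Not at hP
      exact ⟨0, fun e S c _ h2 => absurd (hP e) h2⟩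
    obtain ⟨e1, he1⟩ := hP
    obtain ⟨e, heP, hev⟩ := r4_both (l := l) hM he1 hLv0
    obtain ⟨S, hS1, hS2, c, hc⟩ := hgood {P, v0} e (r4_npw Y heP)
    have hPS : P ∈ S := hS1 (by simp)
    have hvS : v0 ∈ S := hS1 (by simp)
    have hc1 := hcn e S c hev hvS hc
    refine ⟨c P / c v0, fun e' S' c' h1 h2 h4 h5 h6 => ?_⟩
    obtain ⟨x, y, hx, hy, k1, k2⟩ := r4_cross Y hM hW h3 hr1 hr2 hr3 hl hz hAn hPS hvS h5 h4 hc h6
      heP hev h2 h1
    rw [mul_div_assoc', eq_div_iff hc1]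
    apply mul_left_cancel₀ hy
    apply mul_left_cancel₀ hx
    linear_combination (y * c' P) * k2 - (y * c' v0) * k1
  choose c hc using hcon
  -- the functionals of the elements which are not powers at the fixed place
  have hfun : ∀ (e : Kˣ) (S : Finset (HeightOneSpectrum (𝓞 K)))
      (d : HeightOneSpectrum (𝓞 K) → ZMod l), ¬ LocW l v0 (e : K) → v0 ∈ S → R4c Y S e d →
      ∀ P ∈ S, ∀ x, d P * Y.hs P e x = d v0 * (c P * Y.hs P e x) := by
    intro e S d he hv hd P hP x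
    by_cases hL : LocW l P (e : K)
    · rw [(Y.nd P e).2 hL x]; ring
    · rw [hc P e S d he hL hv hP hd]; ring
  -- the product formula for large `S`
  have hprod : ∀ (e : Kˣ) (S : Finset (HeightOneSpectrum (𝓞 K))), ¬ LocW l v0 (e : K) →
      v0 ∈ S → GdL l S e → ∀ u ∈ US S, ∑ P ∈ S, c P * Y.hs P e u = 0 := by
    intro e S he hv hg u hu
    obtain ⟨d, hd⟩ := r4_ex Y hr1 hr2 hl hz hAn hg (r4_npw Y he)
    have hdv := hcn e S d he hv hd
    obtain ⟨ω, h1, h2, h4⟩ := hd.ex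
    have h5 : vl l ω u = 0 := r4_vl1.2 (h1.unit u hu)
    rw [h4, Finset.sum_congr rfl fun P hP => hfun e S d he hv hd P hP u,
      ← Finset.mul_sum] at h5
    exact (mul_eq_zero.1 h5).resolve_left hdv
  -- enlarging `S`
  have hlarge : ∀ (S S' : Finset (HeightOneSpectrum (𝓞 K))),
      (∀ P : HeightOneSpectrum (𝓞 K), 0 < ord P (l : K) → P ∈ S) → S ⊆ S' →
      ∀ a ∈ US S, ∀ b ∈ US S, ∑ P ∈ S, c P * Y.hs P a b = ∑ P ∈ S', c P * Y.hs P a b := by
    intro S S' hS hSS a ha b hb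
    refine Finset.sum_subset hSS fun P _ hP => ?_
    rw [r4_uu Y (r4_ordl0 hS hP) (mem_US.1 ha P hP) (mem_US.1 hb P hP), mul_zero]
  refine ⟨c, fun S hS a ha b hb => ?_, fun a ha => ?_⟩
  · by_cases hL : LocW l v0 (a : K)
    · -- write `a` as a quotient
      have hL2 : ¬ LocW l v0 ((a * e0 : Kˣ) : K) := by
        rw [← hM l hp K] at hL hLv0 ⊢
        rwa [Subgroup.mul_mem_cancel_left _ hL]
      obtain ⟨S', h1, h2, -⟩ := h3 l hp hl K z hz (S ∪ {v0}) {e0, a * e0} (by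
        intro d hd
        simp only [Finset.mem_insert, Finset.mem_singleton] at hd
        rcases hd with rfl | rfl
        · exact he0
        · exact r4_npw Y hL2)
      have hSS : S ⊆ S' := Finset.subset_union_left.trans h1
      have hvS : v0 ∈ S' := h1 (by simp)
      rw [hlarge S S' hS hSS a ha b hb]
      have k1 := hprod e0 S' hLv0 hvS (h2 e0 (by simp)) b (US_mono hSS hb)
      have k2 := hprod (a * e0) S' hL2 hvS (h2 (a * e0) (by simp)) b (US_mono hSS hb)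
      have k3 : ∑ P ∈ S', c P * Y.hs P (a * e0) b =
          ∑ P ∈ S', c P * Y.hs P a b + ∑ P ∈ S', c P * Y.hs P e0 b := by
        rw [← Finset.sum_add_distrib]
        refine Finset.sum_congr rfl fun P _ => ?_
        rw [Y.mulL]; ring
      rw [k2, k1, add_zero] at k3
      exact k3.symm
    · obtain ⟨S', h1, h2, -⟩ := hgood (S ∪ {v0}) a (r4_npw Y hL)
      have hSS : S ⊆ S' := Finset.subset_union_left.trans h1
      have hvS : v0 ∈ S' := h1 (by simp)
      rw [hlarge S S' hS hSS a ha b hb]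
      exact hprod a S' hL hvS h2 b (US_mono hSS hb)
  · by_cases hL : LocW l v0 (a : K)
    · have hL2 : ¬ LocW l v0 ((a * e0 : Kˣ) : K) := by
        rw [← hM l hp K] at hL hLv0 ⊢
        rwa [Subgroup.mul_mem_cancel_left _ hL]
      have hI : Ind2 l a e0 := by
        obtain ⟨x, hx⟩ : ∃ x, Y.hs v0 e0 x ≠ 0 := by
          by_contra hcc
          push Not at hcc
          exact hLv0 ((Y.nd v0 e0).1 hcc)
        intro i j hij
        have e1 := r4_pw Y hij v0 x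
        rw [Y.mulL, r4_powL, r4_powL, (Y.nd v0 a).2 hL x, mul_zero, zero_add,
          ZMod.natCast_zmod_val] at e1
        have hj : j = 0 := (mul_eq_zero.1 e1).resolve_right hx
        refine ⟨?_, hj⟩
        by_contra hi
        apply ha
        subst hj
        rw [ZMod.val_zero, pow_zero, mul_one] at hij
        -- a power of `a` prime to `l` is a power
        have hcop : Nat.Coprime i.val l := by
          rw [Nat.coprime_comm, hp.coprime_iff_not_dvd]
          intro hd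
          apply hi
          rw [← ZMod.natCast_zmod_val i]
          exact (ZMod.natCast_eq_zero_iff _ _).2 hd
        obtain ⟨w, -, hw⟩ := Subgroup.mem_map.1 hij
        have hw' : w ^ l = a ^ i.val := hw
        have hbez := Nat.gcd_eq_gcd_ab i.val l
        rw [hcop.gcd_eq_one] at hbez
        refine Subgroup.mem_map.2 ⟨w ^ (Nat.gcdA i.val l) * a ^ (Nat.gcdB i.val l),
          Subgroup.mem_top _, ?_⟩
        show (w ^ (Nat.gcdA i.val l) * a ^ (Nat.gcdB i.val l)) ^ l = a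
        rw [mul_pow, ← zpow_natCast, ← zpow_mul, mul_comm (Nat.gcdA i.val l), zpow_mul,
          zpow_natCast, hw', ← zpow_natCast, ← zpow_mul, ← zpow_natCast, ← zpow_mul, ← zpow_add,
          mul_comm (Nat.gcdB i.val l), ← hbez]
        simp
      obtain ⟨S, h1, h2, h4⟩ := h3 l hp hl K z hz {v0} {a, e0, a * e0} (by
        intro d hd
        simp only [Finset.mem_insert, Finset.mem_singleton] at hd
        rcases hd with rfl | rfl | rfl
        · exact ha
        · exact he0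
        · exact r4_npw Y hL2)
      have hvS : v0 ∈ S := h1 (by simp)
      obtain ⟨d, hd⟩ := r4_ex Y hr1 hr2 hl hz hAn (h2 a (by simp)) ha
      obtain ⟨d', hd'⟩ := r4_ex Y hr1 hr2 hl hz hAn (h2 e0 (by simp)) he0
      obtain ⟨d'', hd''⟩ := r4_ex Y hr1 hr2 hl hz hAn (h2 (a * e0) (by simp)) (r4_npw Y hL2)
      obtain ⟨x, y, hx, hy, hxy⟩ := r4_val Y hM hW (h2 a (by simp)) (h2 e0 (by simp))
        (h2 (a * e0) (by simp)) (h4 a (by simp) e0 (by simp) hI) hr3 hl hz hAn hI hd hd' hd''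
      -- the constants of `a * e0` and `e0` at the fixed place
      have hv1 : d'' v0 = y * d' v0 := by
        obtain ⟨g, hg⟩ : ∃ g, Y.hs v0 e0 g ≠ 0 := by
          by_contra hcc
          push Not at hcc
          exact hLv0 ((Y.nd v0 e0).1 hcc)
        have e1 := hxy v0 hvS g
        rw [Y.mulL, (Y.nd v0 a).2 hL g] at e1
        apply mul_right_cancel₀ hg
        linear_combination e1
      obtain ⟨P, hP, hdP, hLP⟩ := hd.exists_ne
      obtain ⟨g, hg⟩ : ∃ g, Y.hs P a g ≠ 0 := by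
        by_contra hcc
        push Not at hcc
        exact hLP ((Y.nd P a).1 hcc)
      refine ⟨P, ?_, hLP⟩
      intro hcP
      have e1 := hxy P hP g
      rw [hfun (a * e0) S d'' hL2 hvS hd'' P hP g] at e1
      have e2 := hfun e0 S d' hLv0 hvS hd' P hP g
      rw [e2, hcP] at e1
      simp only [zero_mul, mul_zero, add_zero] at e1
      exact mul_ne_zero hx (mul_ne_zero hdP hg) e1.symm
    · obtain ⟨S, h1, h2, d, hd⟩ := hgood {v0} a ha
      have hvS : v0 ∈ S := h1 (by simp)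
      refine ⟨v0, ?_, hL⟩
      intro h0
      have e1 := hc v0 a S d hL hL hvS hvS hd
      rw [h0, mul_zero] at e1
      exact hcn a S d hL hvS hd e1

end Pool.Agent.H92.EL
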