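import Pool.Agent.H92.EL.AStm
import Pool.Agent.H98.MF.L.Top

/-!
# Project ELL (MP_a3214d), block A, row A13: complete splitting and the decomposition group
(helper30)
-/

set_option autoImplicit false

open scoped BigOperators Pointwise
open NumberField IsDedekindDomain

namespace Pool.Agent.H92.EL

open Pool.Agent.H98.MF (Om Gm ord Dec top low top_prime top_comap dec_surj tp_mem_low tp_inj)

section

variable {K L : Type} [Field K] [NumberField K] [Field L] [NumberField L] [Algebra K L]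

/-- the map on integers -/
private noncomputable def sdI (ι : L →ₐ[K] Om K) : 𝓞 L →+* 𝓞 (Om K) :=
  RingOfIntegers.mapRingHom ι.toRingHom

private theorem sdI_coe (ι : L →ₐ[K] Om K) (x : 𝓞 L) :
    ((sdI ι x : 𝓞 (Om K)) : Om K) = ι (x : L) := rfl

/-- the prime below the chosen one -/
private noncomputable def sdQ (ι : L →ₐ[K] Om K) (P : HeightOneSpectrum (𝓞 K)) : Ideal (𝓞 L) :=
  (top P).comap (sdI ι)

private theorem sdQ_prime (ι : L →ₐ[K] Om K) (P : HeightOneSpectrum (𝓞 K)) :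
    (sdQ ι P).IsPrime := by
  haveI := top_prime P
  unfold sdQ
  exact Ideal.comap_isPrime _ _

private theorem sdQ_over (ι : L →ₐ[K] Om K) (P : HeightOneSpectrum (𝓞 K)) :
    (sdQ ι P).LiesOver P.asIdeal := by
  constructor
  show P.asIdeal = (sdQ ι P).comap (algebraMap (𝓞 K) (𝓞 L))
  rw [← top_comap P]
  unfold sdQ
  rw [Ideal.comap_comap]
  have h : (sdI ι).comp (algebraMap (𝓞 K) (𝓞 L)) = algebraMap (𝓞 K) (𝓞 (Om K)) := by
    ext x
    show ι (algebraMap K L (x : K)) = algebraMap K (Om K) (x : K)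
    exact ι.commutes _
  rw [h]

private theorem sd_card [IsGalois K L] (ι : L →ₐ[K] Om K) (P : HeightOneSpectrum (𝓞 K)) :
    Nat.card {Q : HeightOneSpectrum (𝓞 L) // OvP P Q} =
      (MulAction.stabilizer (L ≃ₐ[K] L) (sdQ ι P)).index := by
  haveI := sdQ_prime ι P
  haveI := sdQ_over ι P
  rw [MulAction.index_stabilizer,
    Algebra.IsInvariant.orbit_eq_primesOver (𝓞 K) (𝓞 L) (L ≃ₐ[K] L) P.asIdeal (sdQ ι P),
    ← Nat.card_coe_set_eq]
  refine Nat.card_congr (Equiv.ofBijective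
    (fun Q => ⟨Q.1.asIdeal, Q.1.isPrime, ⟨Q.2.symm⟩⟩) ⟨?_, ?_⟩)
  · intro Q R h
    apply Subtype.ext
    apply HeightOneSpectrum.ext
    exact congrArg Subtype.val h
  · rintro ⟨I, hI⟩
    have h0 : I ≠ ⊥ := by
      rintro rfl
      have h1 := hI.2.over
      apply P.ne_bot
      rw [h1, eq_bot_iff]
      intro x hx
      have hx' : algebraMap (𝓞 K) (𝓞 L) x = 0 := hx
      rw [Ideal.mem_bot]
      exact tp_inj K L (by rw [hx', map_zero])
    exact ⟨⟨⟨I, hI.1, h0⟩, hI.2.over.symm⟩, rfl⟩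

private theorem sd_act (ι : L →ₐ[K] Om K) (σ : Gm K) (g : L ≃ₐ[K] L)
    (h : ∀ x : L, ι (g x) = σ (ι x)) (P : HeightOneSpectrum (𝓞 K)) (hσ : σ ∈ Dec P) :
    g ∈ MulAction.stabilizer (L ≃ₐ[K] L) (sdQ ι P) := by
  have h0 : σ • top P = top P := hσ
  have hg : ∀ x : 𝓞 L, sdI ι (g • x) = σ • sdI ι x := by
    intro x
    apply RingOfIntegers.coe_injective
    exact h x
  have h1 : ∀ x : 𝓞 L, g • x ∈ sdQ ι P ↔ x ∈ sdQ ι P := by
    intro x
    show sdI ι (g • x) ∈ top P ↔ sdI ι x ∈ top P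
    rw [hg]
    conv_lhs => rw [← h0]
    exact Ideal.smul_mem_pointwise_smul_iff
  rw [MulAction.mem_stabilizer_iff]
  ext x
  rw [Ideal.mem_pointwise_smul_iff_inv_smul_mem, ← h1 (g⁻¹ • x), smul_inv_smul]

private theorem sd_res [Normal K L] (ι : L →ₐ[K] Om K) (σ : Gm K) :
    ∃ g : L ≃ₐ[K] L, ∀ x : L, ι (g x) = σ (ι x) := by
  letI : Algebra L (Om K) := ι.toRingHom.toAlgebra
  haveI : IsScalarTower K L (Om K) := IsScalarTower.of_algebraMap_eq fun x => (ι.commutes x).symm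
  exact ⟨AlgEquiv.restrictNormal σ L, fun x => AlgEquiv.restrictNormal_commutes σ L x⟩

private theorem sd_ext [Normal K L] (ι : L →ₐ[K] Om K) (P : HeightOneSpectrum (𝓞 K))
    (g : L ≃ₐ[K] L) (hg : g ∈ MulAction.stabilizer (L ≃ₐ[K] L) (sdQ ι P)) :
    ∃ σ ∈ Dec P, ∀ x : L, ι (g x) = σ (ι x) := by
  let e : L ≃ₐ[K] ι.fieldRange := AlgEquiv.ofInjectiveField ι
  have he : ∀ x : L, ((e x : ι.fieldRange) : Om K) = ι x := fun x => rfl
  haveI : FiniteDimensional K L := Module.Finite.of_restrictScalars_finite ℚ K L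
  haveI : FiniteDimensional K ι.fieldRange := e.toLinearEquiv.finiteDimensional
  haveI : Normal K ι.fieldRange := Normal.of_algEquiv e
  let g' : ι.fieldRange ≃ₐ[K] ι.fieldRange := (e.symm.trans g).trans e
  have hg' : ∀ x : L, g' (e x) = e (g x) := by
    intro x
    show e (g (e.symm (e x))) = e (g x)
    rw [AlgEquiv.symm_apply_apply]
  have h1 : ∀ x : 𝓞 L, g • x ∈ sdQ ι P ↔ x ∈ sdQ ι P := by
    intro x
    have h0 : g • sdQ ι P = sdQ ι P := hg
    conv_lhs => rw [← h0]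
    exact Ideal.smul_mem_pointwise_smul_iff
  let E : 𝓞 L →+* 𝓞 ι.fieldRange := RingOfIntegers.mapRingHom (e : L →+* ι.fieldRange)
  have hE : ∀ y : 𝓞 L, ((E y : 𝓞 ι.fieldRange) : ι.fieldRange) = e (y : L) := fun y => rfl
  have hEs : ∀ z : 𝓞 ι.fieldRange, ∃ y : 𝓞 L, E y = z := by
    intro z
    refine ⟨RingOfIntegers.mapRingHom (e.symm : ι.fieldRange →+* L) z, ?_⟩
    apply RingOfIntegers.coe_injective
    exact e.apply_symm_apply _
  have hlow : ∀ y : 𝓞 L, E y ∈ low P ι.fieldRange ↔ y ∈ sdQ ι P := by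
    intro y
    rw [tp_mem_low]
    show _ ↔ sdI ι y ∈ top P
    have h2 : algebraMap (𝓞 ι.fieldRange) (𝓞 (Om K)) (E y) = sdI ι y := by
      apply RingOfIntegers.coe_injective
      rfl
    rw [h2]
  have hgE : ∀ y : 𝓞 L, g' • E y = E (g • y) := by
    intro y
    apply RingOfIntegers.coe_injective
    show g' (e (y : L)) = e (g (y : L))
    exact hg' _
  have h2 : g' ∈ MulAction.stabilizer (ι.fieldRange ≃ₐ[K] ι.fieldRange)
      (low P ι.fieldRange) := by
    rw [MulAction.mem_stabilizer_iff]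
    ext z
    rw [Ideal.mem_pointwise_smul_iff_inv_smul_mem]
    obtain ⟨y, hy⟩ := hEs (g'⁻¹ • z)
    have hz : z = E (g • y) := by
      rw [← hgE, hy, smul_inv_smul]
    rw [← hy, hz, hlow, hlow, h1]
  obtain ⟨σ, hσ, h3⟩ := dec_surj P ι.fieldRange g' h2
  refine ⟨σ, hσ, fun x => ?_⟩
  have h4 := AlgEquiv.restrictNormal_commutes σ ι.fieldRange (e x)
  rw [h3, hg'] at h4
  exact h4

end

/-- **Row A13**: complete splitting and the decomposition group. -/
theorem ssd : SSd := by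
  intro K L _ _ _ _ _ _ ι P
  haveI : FiniteDimensional K L := Module.Finite.of_restrictScalars_finite ℚ K L
  have hc : Nat.card (L ≃ₐ[K] L) = Module.finrank K L := IsGalois.card_aut_eq_finrank K L
  have hm := Subgroup.card_mul_index (MulAction.stabilizer (L ≃ₐ[K] L) (sdQ ι P))
  rw [hc] at hm
  have hpos : 0 < Module.finrank K L := Module.finrank_pos
  rw [sd_card ι P]
  refine ⟨⟨fun h σ hσ x => ?_, fun h => ?_⟩, ?_⟩
  · rw [h] at hm
    have h1 : Nat.card (MulAction.stabilizer (L ≃ₐ[K] L) (sdQ ι P)) = 1 := by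
      have h2 : Nat.card (MulAction.stabilizer (L ≃ₐ[K] L) (sdQ ι P)) * Module.finrank K L
          = 1 * Module.finrank K L := by rw [hm, one_mul]
      exact Nat.eq_of_mul_eq_mul_right hpos h2
    have h3 : MulAction.stabilizer (L ≃ₐ[K] L) (sdQ ι P) = ⊥ := Subgroup.card_eq_one.1 h1
    obtain ⟨g, hg⟩ := sd_res ι σ
    have h4 := sd_act ι σ g hg P hσ
    rw [h3, Subgroup.mem_bot] at h4
    rw [← hg, h4]
    rfl
  · have h3 : MulAction.stabilizer (L ≃ₐ[K] L) (sdQ ι P) = ⊥ := by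
      rw [eq_bot_iff]
      intro g hg
      obtain ⟨σ, hσ, h4⟩ := sd_ext ι P g hg
      rw [Subgroup.mem_bot]
      ext x
      have h5 : ι (g x) = ι x := by rw [h4, h σ hσ x]
      exact ι.injective h5
    rw [h3] at hm ⊢
    rw [← hm, Subgroup.card_bot, one_mul]
  · exact ⟨_, by rw [← hm, mul_comm]⟩

end Pool.Agent.H92.EL
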