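import Pool.Agent.H92.EL.AStm
import Pool.Agent.H98.MF.NSplA

/-!
# Project ELL (MP_a3214d), block A: the density of the primes that split completely
-/

set_option autoImplicit false
set_option linter.unusedSectionVars false

open scoped BigOperators Pointwise
open NumberField IsDedekindDomain

namespace Pool.Agent.H92.EL

open Pool.Agent.H98.MF (ord nrm summable_nrm prm0_k two_le_absNorm)

section

variable {K : Type} [Field K] [NumberField K] (L : Type) [Field L] [NumberField L] [Algebra K L]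

private theorem sp_image (P : HeightOneSpectrum (𝓞 K)) :
    (fun Q : HeightOneSpectrum (𝓞 L) => Q.asIdeal) '' {Q : HeightOneSpectrum (𝓞 L) | OvP P Q} =
    P.asIdeal.primesOver (𝓞 L) := by
  ext Q
  constructor
  · rintro ⟨Q, hQ, rfl⟩
    exact ⟨Q.isPrime, ⟨hQ.symm⟩⟩
  · rintro ⟨h1, h2⟩
    have h3 : Q ≠ ⊥ := by
      rintro rfl
      have h4 : P.asIdeal = Ideal.comap (algebraMap (𝓞 K) (𝓞 L)) ⊥ := h2.over
      rw [← RingHom.ker_eq_comap_bot] at h4
      rw [(RingHom.injective_iff_ker_eq_bot _).mp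
        (FaithfulSMul.algebraMap_injective (𝓞 K) (𝓞 L))] at h4
      exact P.ne_bot h4
    exact ⟨⟨Q, h1, h3⟩, h2.over.symm, rfl⟩

private theorem sp_ncard (P : HeightOneSpectrum (𝓞 K)) :
    Nat.card {Q : HeightOneSpectrum (𝓞 L) // OvP P Q} = (P.asIdeal.primesOver (𝓞 L)).ncard := by
  rw [← sp_image L P, Set.ncard_image_of_injective _ (fun P P' h => HeightOneSpectrum.ext h),
    ← Nat.card_coe_set_eq]
  rfl

private theorem sp_fin [FiniteDimensional K L] (P : HeightOneSpectrum (𝓞 K)) :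
    {Q : HeightOneSpectrum (𝓞 L) | OvP P Q}.Finite := by
  have := P.isPrime
  refine Set.Finite.of_finite_image (f := fun P => P.asIdeal) ?_
      (fun P _ P' _ h => HeightOneSpectrum.ext h)
  rw [sp_image L P]
  exact Algebra.QuasiFinite.finite_primesOver _

private theorem sp_gal [FiniteDimensional K L] [IsGalois K L] (P : HeightOneSpectrum (𝓞 K))
    (Q : HeightOneSpectrum (𝓞 L)) (h : OvP P Q) :
    Nat.card {Q : HeightOneSpectrum (𝓞 L) // OvP P Q} *
      (Q.asIdeal.ramificationIdx (𝓞 K) * Q.asIdeal.inertiaDeg (𝓞 K)) = Module.finrank K L := by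
  have h1 := P.isPrime
  have h2 := Q.isPrime
  have h3 : Q.asIdeal.LiesOver P.asIdeal := ⟨h.symm⟩
  have hG : IsGaloisGroup Gal(L/K) (𝓞 K) (𝓞 L) := IsGaloisGroup.of_isFractionRing _ _ _ K L
  rw [sp_ncard]
  have h4 := Ideal.ncard_primesOver_mul_ramificationIdxIn_mul_inertiaDegIn P.asIdeal (𝓞 L)
    Gal(L/K)
  rw [Ideal.ramificationIdxIn_eq_ramificationIdx P.asIdeal Q.asIdeal Gal(L/K),
    Ideal.inertiaDegIn_eq_inertiaDeg P.asIdeal Q.asIdeal Gal(L/K)] at h4
  rw [h4, IsGalois.card_aut_eq_finrank]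

private theorem sp_nrm [FiniteDimensional K L] (P : HeightOneSpectrum (𝓞 K))
    (Q : HeightOneSpectrum (𝓞 L)) (h : OvP P Q) :
    nrm Q = nrm P ^ (Q.asIdeal.inertiaDeg (𝓞 K)) := by
  have h1 := P.isPrime
  have h2 := Q.isPrime
  have h3 : Q.asIdeal.LiesOver P.asIdeal := ⟨h.symm⟩
  exact (Ideal.absNorm_pow_inertiaDeg P.asIdeal Q.asIdeal).symm

private theorem sp_ram [FiniteDimensional K L] :
    {P : HeightOneSpectrum (𝓞 K) | ∃ Q : HeightOneSpectrum (𝓞 L), OvP P Q ∧
      Q.asIdeal.ramificationIdx (𝓞 K) ≠ 1}.Finite := by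
  have h0 : differentIdeal (𝓞 K) (𝓞 L) ≠ ⊥ := differentIdeal_ne_bot
  have h1 := Ideal.finite_factors (R := 𝓞 L) (I := differentIdeal (𝓞 K) (𝓞 L)) h0
  refine (h1.image fun Q => Q.under (𝓞 K)).subset ?_
  rintro P ⟨Q, hQ, hr⟩
  refine ⟨Q, ?_, HeightOneSpectrum.ext hQ⟩
  rw [Set.mem_ofPred_eq]
  by_contra hc
  have h2 := Q.isPrime
  have h3 : Algebra.IsUnramifiedAt (𝓞 K) Q.asIdeal := not_dvd_differentIdeal_iff.1 hc
  exact hr (Ideal.ramificationIdx_eq_one Q.asIdeal (𝓞 K))

private theorem sp_pow_le (n : ℕ) (hn : 1 ≤ n) (s : ℝ) (hs : 1 < s) : (n : ℝ) ^ (-s) ≤ 1 := by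
  have h1 : (1 : ℝ) ≤ n := by exact_mod_cast hn
  exact Real.rpow_le_one_of_one_le_of_nonpos h1 (by linarith)

open Classical in
private theorem sp_compare [FiniteDimensional K L] [IsGalois K L] :
    ∃ C : ℝ, ∀ s : ℝ, 1 < s → s ≤ 2 →
      |∑' Q : HeightOneSpectrum (𝓞 L), (nrm Q : ℝ) ^ (-s) -
        Module.finrank K L * ∑' P : {P : HeightOneSpectrum (𝓞 K) //
          Nat.card {Q : HeightOneSpectrum (𝓞 L) // OvP P Q} = Module.finrank K L},
          (nrm P.1 : ℝ) ^ (-s)| ≤ C := by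
  set n := Module.finrank K L with hn
  have hn1 : 1 ≤ n := Module.finrank_pos
  let g : HeightOneSpectrum (𝓞 L) → HeightOneSpectrum (𝓞 K) := fun Q => Q.under (𝓞 K)
  have hg : ∀ P, g ⁻¹' {P} = {Q : HeightOneSpectrum (𝓞 L) | OvP P Q} := by
    intro P
    ext Q
    simp only [Set.mem_preimage, Set.mem_singleton_iff, Set.mem_ofPred_eq, g]
    constructor
    · rintro rfl
      rfl
    · intro h
      exact HeightOneSpectrum.ext h
  have hgf : ∀ P, (g ⁻¹' {P}).Finite := fun P => by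
    rw [hg]; exact sp_fin L P
  have hgcard : ∀ P, (hgf P).toFinset.card =
      Nat.card {Q : HeightOneSpectrum (𝓞 L) // OvP P Q} := by
    intro P
    rw [← Set.ncard_eq_toFinset_card _ (hgf P), hg, ← Nat.card_coe_set_eq]
    rfl
  have hmem : ∀ P Q, Q ∈ (hgf P).toFinset → OvP P Q := by
    intro P Q hQ
    have h5 : Q ∈ g ⁻¹' {P} := (hgf P).mem_toFinset.1 hQ
    rw [hg] at h5
    exact h5
  have hgc : ∀ P, (hgf P).toFinset.card ≤ n := by
    intro P
    rcases (hgf P).toFinset.eq_empty_or_nonempty with h | ⟨Q, hQ⟩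
    · rw [h, Finset.card_empty]; omega
    · have h1 := sp_gal L P Q (hmem P Q hQ)
      rw [hgcard, hn, ← h1]
      refine Nat.le_mul_of_pos_right _ (Nat.pos_of_ne_zero fun h0 => ?_)
      rw [h0, mul_zero, ← hn] at h1
      omega
  let F : ℝ → HeightOneSpectrum (𝓞 K) → ℝ := fun s P =>
    ∑' Q : g ⁻¹' {P}, (nrm Q.1 : ℝ) ^ (-s)
  have hFs : ∀ s P, F s P = ∑ Q ∈ (hgf P).toFinset, (nrm Q : ℝ) ^ (-s) := by
    intro s P
    simp only [F]
    rw [tsum_subtype (g ⁻¹' {P}) (fun Q : HeightOneSpectrum (𝓞 L) => (nrm Q : ℝ) ^ (-s)),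
      tsum_eq_sum (s := (hgf P).toFinset)]
    · refine Finset.sum_congr rfl fun Q hQ => ?_
      rw [Set.indicator_of_mem ((hgf P).mem_toFinset.1 hQ)]
    · intro Q hQ
      rw [Set.indicator_of_notMem (fun h => hQ ((hgf P).mem_toFinset.2 h))]
  have hcard : ∀ P, (((hgf P).toFinset.card : ℕ) : ℝ) ≤ n := fun P => by
    exact_mod_cast hgc P
  let Sp : HeightOneSpectrum (𝓞 K) → Prop := fun P =>
    Nat.card {Q : HeightOneSpectrum (𝓞 L) // OvP P Q} = n
  let H : ℝ → HeightOneSpectrum (𝓞 K) → ℝ := fun s P =>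
    if Sp P then n * (nrm P : ℝ) ^ (-s) else 0
  let bad : HeightOneSpectrum (𝓞 K) → Prop := fun P => ∃ Q : HeightOneSpectrum (𝓞 L), OvP P Q ∧
      Q.asIdeal.ramificationIdx (𝓞 K) ≠ 1
  have hbad : {P | bad P}.Finite := sp_ram L
  let B : HeightOneSpectrum (𝓞 K) → ℝ := fun P =>
    (if bad P then (n : ℝ) else 0) + n * (nrm P : ℝ) ^ (-(2 : ℝ))
  have hB : Summable B := by
    refine Summable.add ?_ ((summable_nrm 2 (by norm_num)).mul_left (n : ℝ))
    refine summable_of_ne_finset_zero (s := hbad.toFinset) fun P hP => ?_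
    have hP2 : ¬ bad P := fun h => hP (hbad.mem_toFinset.2 h)
    rw [if_neg hP2]
  have hpos : ∀ (P : HeightOneSpectrum (𝓞 K)) (s : ℝ), 0 ≤ (nrm P : ℝ) ^ (-s) := fun P s =>
    Real.rpow_nonneg (Nat.cast_nonneg _) _
  have hposL : ∀ (Q : HeightOneSpectrum (𝓞 L)) (s : ℝ), 0 ≤ (nrm Q : ℝ) ^ (-s) := fun Q s =>
    Real.rpow_nonneg (Nat.cast_nonneg _) _
  have hone : ∀ P : HeightOneSpectrum (𝓞 K), 1 ≤ nrm P := fun P =>
    (two_le_absNorm P).trans' (by norm_num)
  have honeL : ∀ Q : HeightOneSpectrum (𝓞 L), 1 ≤ nrm Q := fun Q =>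
    (two_le_absNorm Q).trans' (by norm_num)
  have hn0 : (0 : ℝ) ≤ n := Nat.cast_nonneg _
  have key : ∀ s : ℝ, 1 < s → s ≤ 2 → ∀ P, |F s P - H s P| ≤ B P := by
    intro s hs _ P
    have hF0 : 0 ≤ F s P := by
      rw [hFs]
      exact Finset.sum_nonneg fun Q _ => hposL Q s
    by_cases hsp : Sp P
    · have h3 : F s P = H s P := by
        rw [hFs]
        simp only [H]
        rw [if_pos hsp]
        have h4 : ∀ Q ∈ (hgf P).toFinset, (nrm Q : ℝ) ^ (-s) = (nrm P : ℝ) ^ (-s) := by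
          intro Q hQ
          have h5 := sp_gal L P Q (hmem P Q hQ)
          have h6 : Nat.card {Q : HeightOneSpectrum (𝓞 L) // OvP P Q} = n := hsp
          rw [h6, ← hn] at h5
          have h7 : Q.asIdeal.ramificationIdx (𝓞 K) * Q.asIdeal.inertiaDeg (𝓞 K) = 1 := by
            apply Nat.eq_of_mul_eq_mul_left (Nat.pos_of_ne_zero (by omega : n ≠ 0))
            rw [h5, mul_one]
          rw [sp_nrm L P Q (hmem P Q hQ), Nat.eq_one_of_mul_eq_one_left h7, pow_one]
        rw [Finset.sum_congr rfl h4, Finset.sum_const, nsmul_eq_mul]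
        have h7 : (hgf P).toFinset.card = n := by
          rw [hgcard]
          exact hsp
        rw [h7]
      rw [h3, sub_self, abs_zero]
      simp only [B]
      have h8 := mul_nonneg hn0 (hpos P 2)
      split_ifs
      · linarith
      · linarith
    · have h2 : H s P = 0 := by
        simp only [H]
        rw [if_neg hsp]
      rw [h2, sub_zero, abs_of_nonneg hF0]
      by_cases hb : bad P
      · have h1 : F s P ≤ n := by
          rw [hFs]
          refine (Finset.sum_le_card_nsmul _ _ 1 fun Q _ => sp_pow_le _ (honeL Q) s hs).trans ?_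
          rw [nsmul_eq_mul, mul_one]
          exact hcard P
        simp only [B]
        rw [if_pos hb]
        have := mul_nonneg hn0 (hpos P 2)
        linarith
      · rw [hFs]
        simp only [B]
        rw [if_neg hb, zero_add]
        have h3 : ∀ Q ∈ (hgf P).toFinset, (nrm Q : ℝ) ^ (-s) ≤ (nrm P : ℝ) ^ (-(2 : ℝ)) := by
          intro Q hQ
          have hov := hmem P Q hQ
          have h5 := sp_gal L P Q hov
          have h6 : Q.asIdeal.ramificationIdx (𝓞 K) = 1 := by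
            by_contra hc
            exact hb ⟨Q, hov, hc⟩
          rw [h6, one_mul, ← hn] at h5
          have h7 : 2 ≤ Q.asIdeal.inertiaDeg (𝓞 K) := by
            by_contra hc
            have h8 : Q.asIdeal.inertiaDeg (𝓞 K) = 0 ∨ Q.asIdeal.inertiaDeg (𝓞 K) = 1 := by omega
            rcases h8 with h8 | h8
            · rw [h8, mul_zero] at h5; omega
            · rw [h8, mul_one] at h5
              exact hsp h5
          rw [sp_nrm L P Q hov, Nat.cast_pow, ← Real.rpow_natCast,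
            ← Real.rpow_mul (Nat.cast_nonneg _)]
          refine Real.rpow_le_rpow_of_exponent_le ?_ ?_
          · exact_mod_cast hone P
          · have h9 : (2 : ℝ) ≤ (Q.asIdeal.inertiaDeg (𝓞 K) : ℝ) := by exact_mod_cast h7
            nlinarith
        refine (Finset.sum_le_card_nsmul _ _ _ h3).trans ?_
        rw [nsmul_eq_mul]
        exact mul_le_mul_of_nonneg_right (hcard P) (hpos P 2)
  refine ⟨∑' P, B P, fun s hs hs2 => ?_⟩
  have e1 : ∑' Q : HeightOneSpectrum (𝓞 L), (nrm Q : ℝ) ^ (-s) = ∑' P, F s P :=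
    ((summable_nrm (k := L) s hs).hasSum.tsum_fiberwise g).tsum_eq.symm
  have hFsum : Summable (F s) := ((summable_nrm (k := L) s hs).hasSum.tsum_fiberwise g).summable
  have e2 : (n : ℝ) * ∑' P : {P : HeightOneSpectrum (𝓞 K) //
      Nat.card {Q : HeightOneSpectrum (𝓞 L) // OvP P Q} = n}, (nrm P.1 : ℝ) ^ (-s) =
      ∑' P, H s P := by
    rw [← tsum_mul_left]
    have := tsum_subtype {P : HeightOneSpectrum (𝓞 K) | Sp P}
      (fun P => (n : ℝ) * (nrm P : ℝ) ^ (-s))
    refine this.trans (tsum_congr fun P => ?_)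
    simp only [H, Set.indicator_apply, Set.mem_ofPred_eq]
  have hHsum : Summable (H s) := by
    refine Summable.of_nonneg_of_le (fun P => ?_) (fun P => ?_)
      ((summable_nrm (k := K) s hs).mul_left (n : ℝ))
    · simp only [H]
      have := mul_nonneg hn0 (hpos P s)
      split_ifs
      · linarith
      · exact le_rfl
    · simp only [H]
      have := mul_nonneg hn0 (hpos P s)
      split_ifs
      · exact le_rfl
      · linarith
  rw [e1, e2, ← hFsum.tsum_sub hHsum, ← Real.norm_eq_abs]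
  exact tsum_of_norm_bounded hB.hasSum fun P => key s hs hs2 P

end

/-- the density of the primes that split completely in a Galois extension -/
theorem ssp : SSp := by
  intro K L _ _ _ _ _ _
  have : FiniteDimensional K L := FiniteDimensional.right ℚ K L
  obtain ⟨C1, h1⟩ := sp_compare (K := K) L
  obtain ⟨C2, h2⟩ := prm0_k (k := L)
  have hn : 0 < (Module.finrank K L : ℝ) := by exact_mod_cast Module.finrank_pos
  refine ⟨(C1 + C2) / Module.finrank K L, fun s hs hs2 => ?_⟩
  have k1 := h1 s hs hs2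
  have k2 := h2 s hs hs2
  set A := ∑' P : {P : HeightOneSpectrum (𝓞 K) //
        Nat.card {Q : HeightOneSpectrum (𝓞 L) // OvP P Q} = Module.finrank K L},
      (nrm P.1 : ℝ) ^ (-s) with hA
  rw [le_div_iff₀ hn]
  have e : |A - 1 / (Module.finrank K L : ℝ) * Real.log (1 / (s - 1))| * Module.finrank K L =
      |Module.finrank K L * A - Real.log (1 / (s - 1))| := by
    nth_rw 2 [← abs_of_pos hn]
    rw [← abs_mul]
    congr 1
    field_simp
  rw [e]
  rw [abs_le] at k1 k2 ⊢
  constructor <;> linarith [k1.1, k1.2, k2.1, k2.2]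

end Pool.Agent.H92.EL
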