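import Pool.Agent.H92.EL.AStm
import Pool.Agent.H98.MF.L.Top

/-!
# Project ELL (MP_a3214d), block A: characters of the decomposition group
-/

set_option autoImplicit false

open scoped BigOperators Pointwise
open NumberField IsDedekindDomain

namespace Pool.Agent.H92.EL

open Pool.Agent.H98.MF (Om Gm ord Dec FixD dec_closed)

/-- characters of the decomposition group -/
theorem stwo (hK : SKu) (hD : SKuD) (h1 : SOne) : STwo := by
  intro l hl K _ _ z hz P h hc hh
  have hl0 : NeZero l := ⟨hl.ne_zero⟩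
  obtain ⟨y, hy, hy1⟩ := hD l hl K z hz (Dec P) (dec_closed P) h hc hh
  set Z : Om K := algebraMap K (Om K) z with hZ
  have hZp : IsPrimitiveRoot Z l := hz.map_of_injective (algebraMap K (Om K)).injective
  have hfix : FixD (Dec P) (y ^ l) := by
    intro σ hσ
    rw [map_pow, hy1 σ hσ, mul_pow, ← pow_mul, mul_comm (h σ).val l, pow_mul, hZp.pow_eq_one,
      one_pow, one_mul]
  obtain ⟨c, w, hw, hcw⟩ := (h1 l hl K z hz P).2 (y ^ l) (pow_ne_zero l hy) hfix
  have hw0 : w ≠ 0 := by
    rintro rfl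
    rw [zero_pow hl.ne_zero, mul_zero] at hcw
    exact pow_ne_zero l hy hcw
  have hr : (y / w) ^ l = algebraMap K (Om K) c := by
    rw [div_pow, hcw, mul_div_assoc, div_self (pow_ne_zero l hw0), mul_one]
  refine ⟨c, fun σ hσ => ?_⟩
  have h2 := (hK l hl K z hz).root c (y / w) hr σ
  have h3 : σ (y / w) = Z ^ (h σ).val * (y / w) := by
    rw [map_div₀, hy1 σ hσ, hw σ hσ, mul_div_assoc]
  rw [h3] at h2
  have h4 := mul_right_cancel₀ (div_ne_zero hy hw0) h2
  exact ZMod.val_injective l (hZp.pow_inj (ZMod.val_lt _) (ZMod.val_lt _) h4)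

end Pool.Agent.H92.EL
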