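import Pool.Agent.H92.EL.AStm
import Pool.Agent.H98.MF.L.Ord

/-!
# Project ELL (MP_a3214d), row A9: units pair to zero at the primes not above `l`
-/

set_option autoImplicit false

open scoped BigOperators Pointwise
open NumberField IsDedekindDomain

namespace Pool.Agent.H92.EL

open Pool.Agent.H98.MF (Om Gm ord Dec US PrS SUn mS nrm gen FixD)

private theorem uu_pow {l : ℕ} {K : Type} [Field K] [NumberField K] {z : K} (hF : KuF l K z)
    (u : Kˣ) (σ : Gm K) (n : ℕ) :
    chl l z ((u ^ n : Kˣ) : K) σ = n * chl l z (u : K) σ := by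
  induction n with
  | zero =>
    have h := hF.mul 1 1 σ
    rw [mul_one, left_eq_add] at h
    rw [pow_zero, h, Nat.cast_zero, zero_mul]
  | succ n ih =>
    rw [pow_succ, hF.mul, ih]
    push_cast
    ring

theorem suu (hK : SKu) (h1 : SOne) (hL : SLg) : SUU := by
  intro l hl hl2 K _ _ z hz P hP a b ha hb
  have : Fact l.Prime := ⟨hl⟩
  have hF := hK l hl K z hz
  obtain ⟨-, hadd, hzero, u, hu, hu1⟩ := hL l hl K z hz P hP
  have hone := (h1 l hl K z hz P).1
  have hupow : ∀ n : ℕ, ord P ((u ^ n : Kˣ) : K) = 0 ∧ lgs l z P ((u ^ n : Kˣ) : K) = n := by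
    intro n
    induction n with
    | zero =>
      have h0 : ord P ((1 : Kˣ) : K) = 0 := by
        rw [Units.val_one, Pool.Agent.H98.MF.ord_one]
      have h2 := hadd 1 1 h0 h0
      rw [mul_one, left_eq_add] at h2
      rw [pow_zero]
      exact ⟨h0, by rw [h2, Nat.cast_zero]⟩
    | succ n ih =>
      constructor
      · rw [pow_succ, Units.val_mul, Pool.Agent.H98.MF.ord_mul P (Units.ne_zero _) (Units.ne_zero _),
          ih.1, hu, add_zero]
      · rw [pow_succ, hadd _ _ ih.1 hu, ih.2, hu1]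
        push_cast
        ring
  -- every unit is a power of `u` up to local powers
  have key : ∀ c : Kˣ, ord P (c : K) = 0 → ∀ σ ∈ Dec P,
      chl l z (c : K) σ = lgs l z P (c : K) * chl l z (u : K) σ := by
    intro c hc σ hσ
    set n := (lgs l z P (c : K)).val with hn
    obtain ⟨h3, h4⟩ := hupow n
    have h5 : c = (c / u ^ n) * u ^ n := by rw [div_mul_cancel]
    have h6 : ord P ((c / u ^ n : Kˣ) : K) = 0 := by
      have h7 : ord P (c : K) = ord P ((c / u ^ n : Kˣ) : K) + ord P ((u ^ n : Kˣ) : K) := by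
        conv_lhs => rw [h5]
        rw [Units.val_mul, Pool.Agent.H98.MF.ord_mul P (Units.ne_zero _) (Units.ne_zero _)]
      omega
    have h7 := hadd (c / u ^ n) (u ^ n) h6 h3
    rw [← h5, h4, hn, ZMod.natCast_zmod_val, right_eq_add] at h7
    have h8 := (hone (c / u ^ n)).2 ((hzero _ h6).1 h7) σ hσ
    conv_lhs => rw [h5]
    rw [hF.mul, h8, zero_add, uu_pow hF, hn, ZMod.natCast_zmod_val]
  have h2 : (2 : ZMod l) ≠ 0 := by
    intro h
    have h3 : ((2 : ℕ) : ZMod l) = 0 := by exact_mod_cast h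
    rw [ZMod.natCast_eq_zero_iff] at h3
    exact hl2 ((Nat.prime_dvd_prime_iff_eq hl Nat.prime_two).1 h3)
  refine ⟨fun σ => lgs l z P (a : K) * lgs l z P (b : K) * 2⁻¹ * chl l z (u : K) σ ^ 2, ?_, ?_⟩
  · exact (hF.lc u).comp fun x => lgs l z P (a : K) * lgs l z P (b : K) * 2⁻¹ * x ^ 2
  · intro σ hσ τ hτ
    show lgs l z P (a : K) * lgs l z P (b : K) * 2⁻¹ * chl l z (u : K) (σ * τ) ^ 2 =
      lgs l z P (a : K) * lgs l z P (b : K) * 2⁻¹ * chl l z (u : K) σ ^ 2 +
      lgs l z P (a : K) * lgs l z P (b : K) * 2⁻¹ * chl l z (u : K) τ ^ 2 +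
      chl l z (a : K) σ * chl l z (b : K) τ
    rw [hF.hom, key a ha σ hσ, key b hb τ hτ]
    field_simp
    ring

end Pool.Agent.H92.EL
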