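import Pool.Agent.H92.EL.AStm
import Pool.Agent.H92.EL.Mem
import Pool.Agent.H98.MF.L.Ord

/-!
# Project ELL (MP_a3214d), block A: uniqueness of the symbols with product formula
-/

set_option autoImplicit false

open scoped BigOperators Pointwise
open NumberField IsDedekindDomain

namespace Pool.Agent.H92.EL

open Pool.Agent.H98.MF (Om Gm ord Dec US PrS valuation_eq ord_add_eq ord_one ord_mul ord_pow)

section

variable {l : ℕ} [Fact l.Prime] {K : Type} [Field K] [NumberField K] {z : K} (Y : LSy l K z)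

private theorem uq_anti (P : HeightOneSpectrum (𝓞 K)) (a b : Kˣ) :
    Y.hs P a b = - Y.hs P b a := by
  have h := Y.alt P (a * b)
  rw [Y.mulL, Y.mulR, Y.mulR, Y.alt, Y.alt, zero_add, add_zero] at h
  exact eq_neg_of_add_eq_zero_left h

private theorem uq_loc {P : HeightOneSpectrum (𝓞 K)} (a : Kˣ) {x : Kˣ}
    (hx : LocW l P (x : K)) : Y.hs P a x = 0 := by
  rw [uq_anti, (Y.nd P x).2 hx a, neg_zero]

private theorem uq_div {P : HeightOneSpectrum (𝓞 K)} (a : Kˣ) {x b : Kˣ}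
    (h : x / b ∈ WS l P) : Y.hs P a x = Y.hs P a b := by
  have h1 := uq_loc Y a ((smem l (Fact.out) K P (x / b)).1 h)
  have h2 := Y.mulR P a (x / b) b
  rw [div_mul_cancel, h1, zero_add] at h2
  exact h2

private noncomputable def uq_fn (S : Finset (HeightOneSpectrum (𝓞 K)))
    (c : HeightOneSpectrum (𝓞 K) → ZMod l) (a : Kˣ) : Kˣ →* Multiplicative (ZMod l) :=
  MonoidHom.mk' (fun x => Multiplicative.ofAdd (∑ P ∈ S, c P * Y.hs P a x)) (fun x y => by
    rw [← ofAdd_add, ← Finset.sum_add_distrib]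
    congr 1
    refine Finset.sum_congr rfl fun P _ => ?_
    rw [Y.mulR]
    ring)

private theorem uq_vl (S : Finset (HeightOneSpectrum (𝓞 K)))
    (c : HeightOneSpectrum (𝓞 K) → ZMod l) (a x : Kˣ) :
    vl l (uq_fn Y S c a) x = ∑ P ∈ S, c P * Y.hs P a x := rfl

/-- a uniformizer is not a local power -/
private theorem uq_nl (P : HeightOneSpectrum (𝓞 K)) : ∃ a : Kˣ, ¬ LocW l P (a : K) := by
  have hl : l.Prime := Fact.out
  obtain ⟨π, hπ⟩ := P.valuation_exists_uniformizer K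
  have hπ0 : π ≠ 0 := by
    rintro rfl
    rw [map_zero] at hπ
    exact WithZero.exp_ne_zero hπ.symm
  have hord : ord P π = 1 := by
    rw [valuation_eq P hπ0] at hπ
    have h1 := WithZero.exp_injective hπ
    omega
  refine ⟨Units.mk0 π hπ0, fun h => ?_⟩
  obtain ⟨c, hc⟩ := h 1
  have hc0 : c ≠ 0 := by
    rintro rfl
    rw [zero_pow hl.ne_zero, mul_zero] at hc
    rcases hc with hc | hc
    · exact zero_ne_one hc
    · rw [zero_sub, Pool.Agent.H98.MF.ord_neg, ord_one] at hc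
      norm_num at hc
  have h2 : ord P (π * c ^ l) = 0 := by
    rcases hc with hc | hc
    · have hc' : π * c ^ l = 1 := hc
      rw [hc', ord_one]
    · have h3 := (ord_add_eq P (a := (1 : K)) (b := π * c ^ l - 1) one_ne_zero (Or.inr (by
        rw [ord_one]
        have hc' : ((1 : ℕ) : ℤ) ≤ ord P (π * c ^ l - 1) := hc
        push_cast at hc'
        linarith))).2
      rwa [add_sub_cancel, ord_one] at h3
  rw [ord_mul P hπ0 (pow_ne_zero l hc0), ord_pow, hord] at h2
  have h4 : (l : ℤ) ∣ 1 := ⟨- ord P c, by linarith⟩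
  have h5 : l ∣ 1 := by exact_mod_cast h4
  exact hl.one_lt.ne' (Nat.dvd_one.1 h5)

omit [Fact l.Prime] in
private theorem uq_pw {P : HeightOneSpectrum (𝓞 K)} {a : Kˣ} (h : ¬ LocW l P (a : K)) :
    a ∉ pw l (⊤ : Subgroup Kˣ) := by
  intro ha
  obtain ⟨d, -, rfl⟩ := Subgroup.mem_map.1 ha
  refine h fun n => ⟨((d : K))⁻¹, Or.inl ?_⟩
  show (((d ^ l : Kˣ)) : K) * _ = 1
  rw [Units.val_pow_eq_pow_val, ← mul_pow, mul_inv_cancel₀ d.ne_zero, one_pow]

/-- one place separated from the others -/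
private theorem uq_x (hW : SWk) {S : Finset (HeightOneSpectrum (𝓞 K))} {a : Kˣ}
    {P : HeightOneSpectrum (𝓞 K)} (hP : P ∈ S) (h : ¬ LocW l P (a : K)) :
    ∃ x : Kˣ, Y.hs P a x ≠ 0 ∧ ∀ c : HeightOneSpectrum (𝓞 K) → ZMod l,
      ∑ Q ∈ S, c Q * Y.hs Q a x = c P * Y.hs P a x := by
  classical
  rw [← Y.nd] at h
  push Not at h
  obtain ⟨b, hb⟩ := h
  obtain ⟨x, hx⟩ := hW l (Fact.out) K S (fun Q => if Q = P then b else 1)
  have h1 : Y.hs P a x = Y.hs P a b := by
    have h2 := hx P hP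
    rw [if_pos rfl] at h2
    exact uq_div Y a h2
  refine ⟨x, by rw [h1]; exact hb, fun c => ?_⟩
  rw [Finset.sum_eq_single P]
  · intro Q hQ hne
    have h2 := hx Q hQ
    rw [if_neg hne, div_one] at h2
    rw [uq_loc Y a ((smem l (Fact.out) K Q x).1 h2), mul_zero]
  · intro h2
    exact absurd hP h2

end

/-- the field `uq` of the global theorems -/
theorem uq_of (hW : SWk) (hA : SAn) (h3 : SC3) (hr1 : SR1) :
    ∀ (l : ℕ) [Fact l.Prime], l ≠ 2 → ∀ (K : Type) [Field K] [NumberField K]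
    (z : K), IsPrimitiveRoot z l → ∀ (G : GSy l K z) (c : HeightOneSpectrum (𝓞 K) → ZMod l),
    (∀ S : Finset (HeightOneSpectrum (𝓞 K)),
      (∀ P : HeightOneSpectrum (𝓞 K), 0 < ord P (l : K) → P ∈ S) →
      ∀ a ∈ US S, ∀ b ∈ US S, ∑ P ∈ S, c P * G.hs P a b = 0) → ∃ t : ZMod l, ∀ P, c P = t := by
  classical
  intro l _ hl2 K _ _ z hz G c hc
  have key : ∀ P P' : HeightOneSpectrum (𝓞 K), c P = c P' := by
    intro P P'
    -- an element which is not a power at both places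
    obtain ⟨a, ha, ha'⟩ : ∃ a : Kˣ, ¬ LocW l P (a : K) ∧ ¬ LocW l P' (a : K) := by
      have hn : ∀ Q : HeightOneSpectrum (𝓞 K), ∃ a : Kˣ, ¬ LocW l Q (a : K) := fun Q => uq_nl Q
      choose d hd using hn
      obtain ⟨x, hx⟩ := hW l (Fact.out) K {P, P'} d
      have h1 : ∀ Q ∈ ({P, P'} : Finset (HeightOneSpectrum (𝓞 K))), ¬ LocW l Q (x : K) := by
        intro Q hQ h
        have h2 : x ∈ WS l Q := (smem l (Fact.out) K Q x).2 h
        have h5 : d Q ∈ WS l Q := by
          have h6 := (WS l Q).div_mem h2 (hx Q hQ)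
          rwa [div_div_cancel] at h6
        exact hd Q ((smem l (Fact.out) K Q (d Q)).1 h5)
      exact ⟨x, h1 P (by simp), h1 P' (by simp)⟩
    have hapw : a ∉ pw l (⊤ : Subgroup Kˣ) := uq_pw ha
    obtain ⟨S, hTS, hgd, -⟩ := h3 l (Fact.out) hl2 K z hz {P, P'} {a} (by
      intro b hb
      rw [Finset.mem_singleton.1 hb]
      exact hapw)
    have hG := hgd a (Finset.mem_singleton_self a)
    have hPS : P ∈ S := hTS (by simp)
    have hPS' : P' ∈ S := hTS (by simp)
    obtain ⟨⟨ω, -, -, hω⟩, -, -⟩ := hr1 l hl2 K z hz G.toLSy (hA l hl2 K z hz) S a hapw hG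
    have hF : ∀ e : HeightOneSpectrum (𝓞 K) → ZMod l,
        (∀ u ∈ US S, ∑ Q ∈ S, e Q * G.hs Q a u = 0) → Fna G.toLSy S a (uq_fn G.toLSy S e a) := by
      intro e he
      refine ⟨fun u hu => ?_, fun b hb => ?_⟩
      · show Multiplicative.ofAdd (∑ Q ∈ S, e Q * G.hs Q a u) = 1
        rw [he u hu]
        rfl
      · show Multiplicative.ofAdd (∑ Q ∈ S, e Q * G.hs Q a b) = 1
        rw [Finset.sum_eq_zero fun Q hQ => by rw [hb Q hQ, mul_zero]]
        rfl
    obtain ⟨t0, ht0⟩ := hω _ (hF (fun _ => 1) fun u hu => by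
      simp only [one_mul]
      exact G.prd S hG.adm.mem a hG.mem u hu)
    obtain ⟨t1, ht1⟩ := hω _ (hF c fun u hu => hc S hG.adm.mem a hG.mem u hu)
    have hmain : ∀ Q ∈ S, ¬ LocW l Q (a : K) → t0 * c Q = t1 := by
      intro Q hQ hQa
      obtain ⟨x, hx0, hx⟩ := uq_x G.toLSy hW hQ hQa
      have e0 := ht0 x
      have e1 := ht1 x
      rw [uq_vl, hx] at e0 e1
      rw [one_mul] at e0
      have e2 : (t0 * c Q - t1) * G.hs Q a x = 0 := by
        have e3 : G.toLSy.hs Q a x = t0 * vl l ω x := e0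
        have e4 : c Q * G.toLSy.hs Q a x = t1 * vl l ω x := e1
        have e5 : t0 * (c Q * G.toLSy.hs Q a x) = t1 * (t0 * vl l ω x) := by
          rw [e4]
          ring
        rw [← e3] at e5
        linear_combination e5
      exact sub_eq_zero.1 ((mul_eq_zero.1 e2).resolve_right hx0)
    have ht00 : t0 ≠ 0 := by
      rintro rfl
      obtain ⟨x, hx0, hx⟩ := uq_x G.toLSy hW hPS ha
      have e0 := ht0 x
      rw [uq_vl, hx, one_mul, zero_mul] at e0
      exact hx0 e0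
    exact mul_left_cancel₀ ht00 ((hmain P hPS ha).trans (hmain P' hPS' ha').symm)
  by_cases hne : Nonempty (HeightOneSpectrum (𝓞 K))
  · obtain ⟨P0⟩ := hne
    exact ⟨c P0, fun P => key P P0⟩
  · exact ⟨0, fun P => absurd ⟨P⟩ hne⟩

end Pool.Agent.H92.EL
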