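import Pool.Agent.H92.EL.Ku
import Pool.Agent.H92.EL.KuD
import Pool.Agent.H92.EL.Mem
import Pool.Agent.H92.EL.Idx
import Pool.Agent.H92.EL.Wk
import Pool.Agent.H92.EL.One
import Pool.Agent.H92.EL.Two
import Pool.Agent.H92.EL.Lg
import Pool.Agent.H92.EL.UU
import Pool.Agent.H92.EL.CN
import Pool.Agent.H92.EL.NG
import Pool.Agent.H92.EL.Br
import Pool.Agent.H92.EL.Dg
import Pool.Agent.H92.EL.Hb
import Pool.Agent.H92.EL.In
import Pool.Agent.H92.EL.Ln
import Pool.Agent.H92.EL.Ls
import Pool.Agent.H92.EL.C1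
import Pool.Agent.H92.EL.C2
import Pool.Agent.H92.EL.CI
import Pool.Agent.H92.EL.Sd
import Pool.Agent.H92.EL.C3g
import Pool.Agent.H92.EL.C3b
import Pool.Agent.H92.EL.C3c
import Pool.Agent.H92.EL.C3d
import Pool.Agent.H92.EL.C3e
import Pool.Agent.H92.EL.Pu
import Pool.Agent.H92.EL.KE
import Pool.Agent.H92.EL.C3
import Pool.Agent.H92.EL.N2a
import Pool.Agent.H92.EL.N2
import Pool.Agent.H92.EL.An
import Pool.Agent.H92.EL.Sp
import Pool.Agent.H92.EL.R1
import Pool.Agent.H92.EL.R2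
import Pool.Agent.H92.EL.R3
import Pool.Agent.H92.EL.R4
import Pool.Agent.H92.EL.R5
import Pool.Agent.H92.EL.Gs
import Pool.Agent.H92.EL.Hn
import Pool.Agent.H92.EL.Ij
import Pool.Agent.H92.EL.Uq
import Pool.Agent.H92.EL.Pm
import Pool.Agent.H92.EL.G2
import Pool.Agent.H92.EL.Hp
import Pool.Agent.H92.EL.Gl

/-!
# Project ELL (MP_a3214d), block A: everything together
-/

set_option autoImplicit false

open scoped BigOperators
open NumberField IsDedekindDomain

namespace Pool.Agent.H92.EL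

open Pool.Agent.H98.MF (Om Gm ord Dec US nrm gen)

theorem x_one : SOne := sone sku
theorem x_two : STwo := stwo sku skuD x_one
theorem x_uu : SUU := suu sku x_one slg
theorem x_cn : SCN := scn sku skuD
theorem x_ng : SNG := sng sku x_cn
theorem x_c3b : SC3b := sc3b sku x_one ssd
theorem x_dg : SDg := sdg x_c3b
theorem x_in : SIn := sin_of sku skuD smem sidx x_one x_cn sbr x_dg shb
theorem x_ls : SLs := sls sku smem x_one x_two slg x_uu x_in x_ng sln
theorem x_ci : SCI := sci smem sidx swk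
theorem x_c3g : SC3g := sc3g sku x_one ssd
theorem x_c3c : SC3c := sc3c x_c3b
theorem x_ke : SKE := ske sku
theorem x_n2 : SN2 := sn2 sn2a
theorem x_an : SAn := san x_n2 ssp x_ke x_c3b x_c3g
theorem x_c3d : SC3d := sc3d sku sc2 x_c3c shb x_ng
theorem x_c3e : SC3e := sc3e x_c3b
theorem x_r1 : SR1 := sr1 smem swk
theorem x_r3 : SR3 := sr3 smem swk x_r1
theorem x_r5 : SR5 := sr5 smem swk x_an x_ci sc2 sc1

section

variable (hf : SC3f)

include hf

theorem x_c3 : SC3 := sc3 sc1 x_c3d x_c3e hf spu x_ke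

theorem x_r4 : SR4 := sr4 smem swk x_an (x_c3 hf) x_r1 sr2 x_r3

/-- symbols with the product formula exist -/
theorem x_gs : SGs := sgs x_ls (x_r4 hf) x_r5

theorem x_hn : GlHn := hn_of x_an (x_c3 hf) x_r1 sku x_ng

omit hf in
theorem x_inj : GlInj := inj_of smem x_an

omit hf in
theorem x_du : GlDu := du_of smem swk x_an x_ci sc2

theorem x_uq : GlUq := uq_of swk x_an (x_c3 hf) x_r1

omit hf in
theorem x_prm : GlPrm := prm_of x_an x_du

omit hf in
theorem x_g2 : GlG2 := fun l _ hl K _ _ z hz G =>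
  g2_of x_an x_ci l hl K z hz (x_prm l hl K z hz G)

theorem x_hp : GlHp := fun l _ hl K _ _ z hz G =>
  hp_of G hz hl (x_hn hf l hl K z hz G) (x_g2 l hl K z hz G) sku x_ng smem swk sc1

/-- the global theorems hold -/
theorem x_gl : SGl := sgl_of (x_hn hf) x_inj x_du (x_uq hf) x_prm x_g2 (x_hp hf)

end

end Pool.Agent.H92.EL
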