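import Pool.Agent.H92.EL.DStm

/-!
# Project T4 (MP_a3214d), block D: tame inertia is cyclic, the Frobenius relation, degree prime
to the norm of the prime
-/

set_option autoImplicit false
set_option linter.unusedSectionVars false

open scoped BigOperators Pointwise
open NumberField IsDedekindDomain

namespace Pool.Agent.H92.EL

open Pool.Agent.H98.MF (Om Gm ord Dec top nrm fld rdN rexp rex)

section tf

variable {k : Type} [Field k] [NumberField k] {M : Type} [Field M] [NumberField M] [Algebra k M]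

private theorem tf_step {P : Ideal (𝓞 M)} {σ : M ≃ₐ[k] M}
    (hσ : ∀ x : 𝓞 M, σ • x - x ∈ P ^ 2) (m : ℕ) :
    ∀ y ∈ P ^ m, σ • y - y ∈ P ^ (m + 1) := by
  induction m with
  | zero =>
    intro y _
    rw [zero_add, pow_one]
    exact Ideal.pow_le_self (by norm_num) (hσ y)
  | succ m ih =>
    intro y hy
    rw [pow_succ] at hy
    induction hy using Submodule.mul_induction_on' with
    | mem_mul_mem a ha b hb =>
      have hb' : σ • b ∈ P := by
        have h1 : σ • b = (σ • b - b) + b := by ring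
        rw [h1]
        exact P.add_mem (Ideal.pow_le_self (by norm_num) (hσ b)) hb
      have h2 : σ • (a * b) - a * b = (σ • a - a) * (σ • b) + a * (σ • b - b) := by
        rw [smul_mul']
        ring
      rw [h2]
      refine Ideal.add_mem _ ?_ ?_
      · rw [pow_succ P (m + 1)]
        exact Ideal.mul_mem_mul (ih a ha) hb'
      · have h3 : m + 1 + 1 = m + 2 := rfl
        rw [h3, pow_add P m 2]
        exact Ideal.mul_mem_mul ha (hσ b)
    | add x _ y _ hx hy =>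
      have h1 : σ • (x + y) - (x + y) = (σ • x - x) + (σ • y - y) := by
        rw [smul_add]
        ring
      rw [h1]
      exact Ideal.add_mem _ hx hy

private theorem tf_iter {P : Ideal (𝓞 M)} {σ : M ≃ₐ[k] M}
    (hσ : ∀ x : 𝓞 M, σ • x - x ∈ P ^ 2) (m : ℕ) (x : 𝓞 M) (hx : σ • x - x ∈ P ^ m) (n : ℕ) :
    (σ ^ n) • x - x - (n : 𝓞 M) * (σ • x - x) ∈ P ^ (m + 1) := by
  have hj : ∀ n : ℕ, (σ ^ n) • (σ • x - x) - (σ • x - x) ∈ P ^ (m + 1) := by
    intro n
    induction n with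
    | zero => simp
    | succ n ih =>
      have hpm : ∀ i : ℕ, ∀ y ∈ P ^ i, σ • y ∈ P ^ i := fun i y hy => by
        have h1 : σ • y = (σ • y - y) + y := by ring
        rw [h1]
        exact Ideal.add_mem _ (Ideal.pow_le_pow_right (Nat.le_succ i) (tf_step hσ i y hy)) hy
      have h2 : (σ ^ (n + 1)) • (σ • x - x) - (σ • x - x) =
          σ • ((σ ^ n) • (σ • x - x) - (σ • x - x)) +
            (σ • (σ • x - x) - (σ • x - x)) := by
        rw [pow_succ', mul_smul, smul_sub σ ((σ ^ n) • (σ • x - x)) (σ • x - x)]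
        ring
      rw [h2]
      exact Ideal.add_mem _ (hpm _ _ ih) (tf_step hσ m _ hx)
  induction n with
  | zero => simp
  | succ n ih =>
    have h2 : (σ ^ (n + 1)) • x - x - ((n + 1 : ℕ) : 𝓞 M) * (σ • x - x) =
        ((σ ^ n) • x - x - (n : 𝓞 M) * (σ • x - x)) +
          ((σ ^ n) • (σ • x - x) - (σ • x - x)) := by
      rw [pow_succ, mul_smul, smul_sub (σ ^ n) (σ • x) x]
      push_cast
      ring
    rw [h2]
    exact Ideal.add_mem _ ih (hj n)

/-- an automorphism of order `n` acting trivially modulo `P ^ 2` is trivial (`n ∉ P`) -/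
private theorem tame_faithful (P : Ideal (𝓞 M)) [P.IsPrime]
    (hP : P ≠ ⊥) (σ : M ≃ₐ[k] M) (n : ℕ) (hn : σ ^ n = 1) (h5 : (n : 𝓞 M) ∉ P)
    (hσ : ∀ x : 𝓞 M, σ • x - x ∈ P ^ 2) : σ = 1 := by
  have hmax : P.IsMaximal := Ring.DimensionLEOne.maximalOfPrime hP ‹_›
  have hall : ∀ m : ℕ, ∀ x : 𝓞 M, σ • x - x ∈ P ^ (m + 2) := by
    intro m
    induction m with
    | zero => exact hσ
    | succ m ih =>
      intro x
      have h3 := tf_iter hσ (m + 2) x (ih x) n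
      rw [hn, one_smul, sub_self, zero_sub] at h3
      have h4 : (n : 𝓞 M) * (σ • x - x) ∈ P ^ (m + 2 + 1) := by
        have := Ideal.neg_mem_iff _ |>.1 h3
        exact this
      have h6 : IsCoprime (Ideal.span {(n : 𝓞 M)}) P := by
        obtain ⟨y, i, hi, hy⟩ := hmax.exists_inv h5
        rw [Ideal.isCoprime_iff_exists]
        exact ⟨y * (n : 𝓞 M), Ideal.mul_mem_left _ _ (Ideal.mem_span_singleton_self _),
          i, hi, hy⟩
      have h7 : IsCoprime (Ideal.span {(n : 𝓞 M)}) (P ^ (m + 2 + 1)) := h6.pow_right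
      rw [Ideal.isCoprime_iff_exists] at h7
      obtain ⟨a, ha, b, hb, hab⟩ := h7
      obtain ⟨c, hc⟩ := Ideal.mem_span_singleton'.1 ha
      have h8 : σ • x - x = c * ((n : 𝓞 M) * (σ • x - x)) + b * (σ • x - x) := by
        rw [← mul_assoc, hc, ← add_mul, hab, one_mul]
      rw [h8]
      exact Ideal.add_mem _ (Ideal.mul_mem_left _ _ h4) (Ideal.mul_mem_right _ _ hb)
  have hfix : ∀ x : 𝓞 M, σ • x = x := by
    intro x
    have h3 : σ • x - x ∈ ⨅ i : ℕ, P ^ i := by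
      rw [Ideal.mem_iInf]
      intro i
      exact Ideal.pow_le_pow_right (Nat.le_add_right i 2) (hall i x)
    rw [Ideal.iInf_pow_eq_bot_of_isDomain P hmax.ne_top, Ideal.mem_bot] at h3
    exact sub_eq_zero.1 h3
  ext z
  obtain ⟨x, y, hy, rfl⟩ := IsFractionRing.div_surjective (A := 𝓞 M) z
  have hx' : σ (algebraMap (𝓞 M) M x) = algebraMap (𝓞 M) M x := by
    have := congrArg (algebraMap (𝓞 M) M) (hfix x)
    exact this
  have hy' : σ (algebraMap (𝓞 M) M y) = algebraMap (𝓞 M) M y := by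
    have := congrArg (algebraMap (𝓞 M) M) (hfix y)
    exact this
  rw [map_div₀, hx', hy']
  rfl

end tf

section gen

variable {k : Type} [Field k] [NumberField k] {M : Type} [Field M] [NumberField M] [Algebra k M]

private theorem pres {P : Ideal (𝓞 M)} {σ : M ≃ₐ[k] M} (h : ∀ x ∈ P, σ • x ∈ P) :
    ∀ x ∈ P ^ 2, σ • x ∈ P ^ 2 := by
  intro x hx
  rw [pow_two] at hx ⊢
  induction hx using Submodule.mul_induction_on' with
  | mem_mul_mem m hm n hn =>
    rw [smul_mul']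
    exact Ideal.mul_mem_mul (h m hm) (h n hn)
  | add x _ y _ hx hy =>
    rw [smul_add]
    exact add_mem hx hy

private theorem pres_in {P : Ideal (𝓞 M)} {σ : M ≃ₐ[k] M}
    (h : σ ∈ P.inertia (M ≃ₐ[k] M)) : ∀ x ∈ P, σ • x ∈ P := by
  intro x hx
  have h1 : σ • x - x ∈ P := h x
  have h2 : σ • x = (σ • x - x) + x := by ring
  rw [h2]
  exact P.add_mem h1 hx

/-- the residue class by which an element of the inertia group acts on `P / P²` -/
private theorem ex_c {P : Ideal (𝓞 M)} [P.IsPrime] (hP : P ≠ ⊥) {σ : M ≃ₐ[k] M}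
    (h : σ ∈ P.inertia (M ≃ₐ[k] M)) : ∃ c : 𝓞 M, ∀ x ∈ P, σ • x - c * x ∈ P ^ 2 := by
  obtain ⟨π, hπ1, hπ2⟩ := Ideal.exists_mem_pow_notMem_pow_succ P hP (Ideal.IsPrime.ne_top ‹_›) 1
  rw [pow_one] at hπ1
  have hdiv : ∀ x ∈ P, ∃ d : 𝓞 M, ∃ e ∈ P ^ 2, π * d + e = x := by
    intro x hx
    have := Ideal.exists_mul_add_mem_pow_succ hP (i := 1) π x (by rwa [pow_one]) hπ2
      (by rwa [pow_one])
    exact this
  obtain ⟨c, e, he, hc⟩ := hdiv (σ • π) (pres_in h π hπ1)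
  refine ⟨c, fun x hx => ?_⟩
  obtain ⟨d, e', he', hd⟩ := hdiv x hx
  have h1 : σ • x = σ • π * σ • d + σ • e' := by rw [← hd, smul_add, smul_mul']
  have h2 : σ • x - c * x = σ • π * (σ • d - d) + e * d + σ • e' - c * e' := by
    rw [h1, ← hd, ← hc]
    ring
  rw [h2]
  refine Ideal.sub_mem _ (Ideal.add_mem _ (Ideal.add_mem _ ?_ ?_) ?_) ?_
  · rw [pow_two]
    exact Ideal.mul_mem_mul (pres_in h π hπ1) (h d)
  · exact Ideal.mul_mem_right _ _ he
  · exact pres (pres_in h) e' he'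
  · exact Ideal.mul_mem_left _ _ he'

private theorem uniq_c {P : Ideal (𝓞 M)} [P.IsPrime] (hP : P ≠ ⊥) {c : 𝓞 M}
    (h : ∀ x ∈ P, c * x ∈ P ^ 2) : c ∈ P := by
  obtain ⟨π, hπ1, hπ2⟩ := Ideal.exists_mem_pow_notMem_pow_succ P hP (Ideal.IsPrime.ne_top ‹_›) 1
  rw [pow_one] at hπ1
  have h1 : π * c ∈ P ^ (1 + 1) := by
    rw [mul_comm]
    exact h π hπ1
  rcases Ideal.IsPrime.mul_mem_pow P (a := c) (b := π) (n := 1 + 1) (by rwa [mul_comm]) with
    h2 | h2
  · exact h2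
  · exact absurd h2 hπ2

private theorem frob_inv {P : Ideal (𝓞 M)} [P.IsPrime] {p : ℕ} {φ : M ≃ₐ[k] M}
    (hφ : ∀ x : 𝓞 M, φ • x - x ^ p ∈ P) : ∀ x ∈ P, φ⁻¹ • x ∈ P := by
  intro x hx
  have h1 := hφ (φ⁻¹ • x)
  rw [smul_inv_smul] at h1
  have h2 : (φ⁻¹ • x) ^ p ∈ P := by
    have h3 : (φ⁻¹ • x) ^ p = x - (x - (φ⁻¹ • x) ^ p) := by ring
    rw [h3]
    exact P.sub_mem hx h1
  exact Ideal.IsPrime.mem_of_pow_mem ‹_› _ h2

end gen

section

variable {k : Type} [Field k] [NumberField k]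

variable {M : Type} [Field M] [NumberField M] [Algebra k M] [IsGalois k M]

private theorem dg_gen (P : HeightOneSpectrum (𝓞 k))
    (h2 : Nat.Coprime (Module.finrank k M) (Ideal.absNorm P.asIdeal)) (Q : Ideal (𝓞 M)) [Q.IsPrime]
    (hQ : Q.comap (algebraMap (𝓞 k) (𝓞 M)) = P.asIdeal) :
    ∃ τ φ : M ≃ₐ[k] M, Subgroup.zpowers τ = Q.inertia (M ≃ₐ[k] M) ∧
      (∀ x : 𝓞 M, φ • x - x ^ Ideal.absNorm P.asIdeal ∈ Q) ∧
      φ • Q = Q ∧ φ * τ * φ⁻¹ = τ ^ Ideal.absNorm P.asIdeal := by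
  classical
  have hQb : Q ≠ ⊥ := by
    intro h
    apply P.ne_bot
    rw [← hQ, h]
    rw [← RingHom.ker_eq_comap_bot, RingHom.ker_eq_bot_iff_eq_zero]
    intro x hx
    exact (map_eq_zero_iff _ (FaithfulSMul.algebraMap_injective (𝓞 k) (𝓞 M))).1 hx
  have hQm : Q.IsMaximal := Ideal.IsPrime.isMaximal ‹_› hQb
  have h2Q : ((Module.finrank k M : ℕ) : 𝓞 M) ∉ Q := by
    intro h3
    have h4 : ((Ideal.absNorm P.asIdeal : ℕ) : 𝓞 M) ∈ Q := by
      have h5 : ((Ideal.absNorm P.asIdeal : ℕ) : 𝓞 k) ∈ P.asIdeal := Ideal.absNorm_mem _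
      have h6 : ((Ideal.absNorm P.asIdeal : ℕ) : 𝓞 k) ∈ Q.comap (algebraMap (𝓞 k) (𝓞 M)) := by
        rw [hQ]
        exact h5
      rw [Ideal.mem_comap, map_natCast] at h6
      exact h6
    have h6 := Nat.isCoprime_iff_coprime.2 h2
    obtain ⟨a, b, hab⟩ := h6
    have h7 : ((a : ℤ) : 𝓞 M) * ((Module.finrank k M : ℕ) : 𝓞 M) +
        ((b : ℤ) : 𝓞 M) * ((Ideal.absNorm P.asIdeal : ℕ) : 𝓞 M) = 1 := by
      have h8 := congrArg (Int.cast : ℤ → 𝓞 M) hab
      push_cast at h8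
      exact h8
    apply (Ideal.ne_top_iff_one Q).1 (Ideal.IsPrime.ne_top ‹_›)
    rw [← h7]
    exact Q.add_mem (Q.mul_mem_left _ h3) (Q.mul_mem_left _ h4)
  have hfin : Finite (𝓞 M ⧸ Q) := Ring.HasFiniteQuotients.finiteQuotient hQb
  have hFin : Fintype (𝓞 M ⧸ Q) := Fintype.ofFinite _
  set N : ℕ := Ideal.absNorm P.asIdeal with hN
  have hNpos : 0 < N := by
    rw [Nat.pos_iff_ne_zero, hN, Ne, Ideal.absNorm_eq_zero_iff]
    exact P.ne_bot
  -- the Frobenius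
  obtain ⟨φ, hφ'⟩ := IsArithFrobAt.exists_of_isInvariant (𝓞 k) (M ≃ₐ[k] M) Q
  have hcard : Nat.card (𝓞 k ⧸ Q.under (𝓞 k)) = N := by
    have h1 : Q.under (𝓞 k) = P.asIdeal := hQ
    rw [h1, hN, Ideal.absNorm_apply, Submodule.cardQuot_apply]
  have hφ : ∀ x : 𝓞 M, φ • x - x ^ N ∈ Q := by
    intro x
    have := hφ' x
    rwa [hcard] at this
  -- the tame character
  set I := Q.inertia (M ≃ₐ[k] M) with hI
  have hex : ∀ σ : I, ∃ c : 𝓞 M, ∀ x ∈ Q, σ.1 • x - c * x ∈ Q ^ 2 := fun σ => ex_c hQb σ.2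
  choose c hc using hex
  have hθ : ∀ (σ : I) (d : 𝓞 M), (∀ x ∈ Q, σ.1 • x - d * x ∈ Q ^ 2) →
      Ideal.Quotient.mk Q (c σ) = Ideal.Quotient.mk Q d := by
    intro σ d hd
    rw [Ideal.Quotient.eq]
    refine uniq_c hQb fun x hx => ?_
    have h1 : (c σ - d) * x = (σ.1 • x - d * x) - (σ.1 • x - c σ * x) := by ring
    rw [h1]
    exact Ideal.sub_mem _ (hd x hx) (hc σ x hx)
  let θ : I →* (𝓞 M ⧸ Q) :=
    { toFun := fun σ => Ideal.Quotient.mk Q (c σ)
      map_one' := by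
        rw [← map_one (Ideal.Quotient.mk Q)]
        refine hθ 1 1 fun x hx => ?_
        simp
      map_mul' := by
        intro σ τ
        rw [← map_mul]
        refine hθ (σ * τ) _ fun x hx => ?_
        have h1 : ((σ * τ : I).1) • x = σ.1 • (τ.1 • x) := by
          rw [Subgroup.coe_mul, mul_smul]
        have hτx : τ.1 • x ∈ Q := pres_in τ.2 x hx
        have h2 : ((σ * τ : I).1) • x - c σ * c τ * x =
            (σ.1 • (τ.1 • x) - c σ * (τ.1 • x)) + c σ * (τ.1 • x - c τ * x) := by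
          rw [h1]
          ring
        rw [h2]
        exact Ideal.add_mem _ (hc σ _ hτx) (Ideal.mul_mem_left _ _ (hc τ x hx)) }
  have hfield : IsDomain (𝓞 M ⧸ Q) := inferInstance
  -- faithful
  have hker : ∀ σ : I, θ σ = 1 → σ = 1 := by
    intro σ hσ
    have hσ1 : Ideal.Quotient.mk Q (c σ) = Ideal.Quotient.mk Q 1 := by
      rw [map_one]
      exact hσ
    rw [Ideal.Quotient.eq] at hσ1
    have h1 : ∀ x ∈ Q, σ.1 • x - x ∈ Q ^ 2 := by
      intro x hx
      have h2 : σ.1 • x - x = (σ.1 • x - c σ * x) + (c σ - 1) * x := by ring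
      rw [h2]
      refine Ideal.add_mem _ (hc σ x hx) ?_
      rw [pow_two]
      exact Ideal.mul_mem_mul hσ1 hx
    have hq : ((Fintype.card (𝓞 M ⧸ Q) : ℕ) : 𝓞 M) ∈ Q := by
      rw [← Ideal.Quotient.eq_zero_iff_mem, map_natCast]
      exact Nat.cast_card_eq_zero _
    have h3 : ∀ x : 𝓞 M, σ.1 • x - x ∈ Q ^ 2 := by
      intro x
      set q := Fintype.card (𝓞 M ⧸ Q) with hqd
      let _ : Field (𝓞 M ⧸ Q) := Ideal.Quotient.field Q
      have hxq : x - x ^ q ∈ Q := by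
        rw [← Ideal.Quotient.eq, map_pow]
        exact (FiniteField.pow_card _).symm
      have h4 := h1 _ hxq
      have hd : σ.1 • x - x ∈ Q := σ.2 x
      have h5 : (σ.1 • x) ^ q - x ^ q ∈ Q ^ 2 := by
        obtain ⟨e, he⟩ : ∃ e : 𝓞 M, (x + (σ.1 • x - x)) ^ q =
            x ^ q + (q : 𝓞 M) * x ^ (q - 1) * (σ.1 • x - x) + (σ.1 • x - x) ^ 2 * e := by
          obtain ⟨e, he⟩ := Polynomial.binomExpansion (Polynomial.X ^ q) x (σ.1 • x - x)
          refine ⟨e, ?_⟩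
          simp only [Polynomial.eval_pow, Polynomial.eval_X, Polynomial.derivative_X_pow,
            Polynomial.eval_mul, Polynomial.eval_C] at he
          rw [he]
          ring
        have h6 : (σ.1 • x) ^ q - x ^ q = (q : 𝓞 M) * (σ.1 • x - x) * x ^ (q - 1) +
            (σ.1 • x - x) ^ 2 * e := by
          have h7 : σ.1 • x = x + (σ.1 • x - x) := by ring
          conv_lhs => rw [h7, he]
          ring
        rw [h6]
        refine Ideal.add_mem _ (Ideal.mul_mem_right _ _ ?_) (Ideal.mul_mem_right _ _ ?_)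
        · rw [pow_two]
          exact Ideal.mul_mem_mul hq hd
        · exact Ideal.pow_mem_pow hd 2
      have h8 : σ.1 • x - x = (σ.1 • (x - x ^ q) - (x - x ^ q)) +
          ((σ.1 • x) ^ q - x ^ q) := by
        rw [smul_sub, smul_pow']
        ring
      rw [h8]
      exact Ideal.add_mem _ h4 h5
    have h9 : σ.1 ^ (Module.finrank k M) = 1 := by
      rw [← IsGalois.card_aut_eq_finrank k M]
      exact pow_card_eq_one'
    have h10 := tame_faithful Q hQb σ.1 _ h9 h2Q h3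
    exact Subtype.ext h10
  have hinj : Function.Injective θ := (injective_iff_map_eq_one θ).2 hker
  have hcyc : IsCyclic I := isCyclic_of_injective_ringHom θ hinj
  obtain ⟨τ, hτ⟩ := hcyc.exists_generator
  refine ⟨τ.1, φ, ?_, hφ, ?_⟩
  · ext σ
    constructor
    · intro hσ
      have : Subgroup.zpowers τ.1 ≤ I := by
        rw [Subgroup.zpowers_le]
        exact τ.2
      exact this hσ
    · intro hσ
      obtain ⟨n, hn⟩ := hτ ⟨σ, hσ⟩
      refine ⟨n, ?_⟩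
      have h1 := congrArg Subtype.val hn
      simpa using h1
  · have hφP : ∀ x ∈ Q, φ • x ∈ Q := by
      intro x hx
      have h1 : φ • x = (φ • x - x ^ N) + x ^ N := by ring
      rw [h1]
      exact Q.add_mem (hφ x) (Ideal.pow_mem_of_mem Q hx N hNpos)
    have hmem : φ * τ.1 * φ⁻¹ ∈ I := by
      intro x
      have h1 : (φ * τ.1 * φ⁻¹) • x - x = φ • (τ.1 • (φ⁻¹ • x) - φ⁻¹ • x) := by
        rw [smul_sub, smul_inv_smul, mul_smul, mul_smul]
      rw [h1]
      exact hφP _ (τ.2 _)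
    have h1 : θ ⟨φ * τ.1 * φ⁻¹, hmem⟩ = θ (τ ^ N) := by
      have h2 : θ ⟨φ * τ.1 * φ⁻¹, hmem⟩ = Ideal.Quotient.mk Q (c τ ^ N) := by
        refine hθ _ _ fun x hx => ?_
        have h3 : (φ * τ.1 * φ⁻¹) • x = φ • (τ.1 • (φ⁻¹ • x)) := by
          rw [mul_smul, mul_smul]
        have h4 : (φ * τ.1 * φ⁻¹) • x - c τ ^ N * x =
            φ • (τ.1 • (φ⁻¹ • x) - c τ * (φ⁻¹ • x)) + (φ • c τ - c τ ^ N) * x := by
          rw [h3, smul_sub, smul_mul', smul_inv_smul]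
          ring
        change (φ * τ.1 * φ⁻¹) • x - c τ ^ N * x ∈ Q ^ 2
        rw [h4]
        refine Ideal.add_mem _ (pres hφP _ (hc τ _ (frob_inv hφ x hx))) ?_
        rw [pow_two]
        exact Ideal.mul_mem_mul (hφ _) hx
      rw [h2, map_pow, map_pow]
      rfl
    have h5 := hinj h1
    have h6 := congrArg Subtype.val h5
    refine ⟨?_, by simpa using h6⟩
    ext x
    rw [Ideal.mem_pointwise_smul_iff_inv_smul_mem]
    constructor
    · intro hx
      have h7 := hφP _ hx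
      rwa [smul_inv_smul] at h7
    · intro hx
      exact frob_inv hφ x hx

/-- an element of the decomposition group acts on the residue field as a Frobenius power -/
private theorem dg_pow (P : HeightOneSpectrum (𝓞 k)) (Q : Ideal (𝓞 M)) [Q.IsPrime]
    (hQ : Q.comap (algebraMap (𝓞 k) (𝓞 M)) = P.asIdeal) (σ : M ≃ₐ[k] M) (hσ : σ • Q = Q) :
    ∃ j : ℕ, ∀ x : 𝓞 M, σ • x - x ^ (Ideal.absNorm P.asIdeal ^ j) ∈ Q := by
  classical
  have hQb : Q ≠ ⊥ := by
    intro h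
    apply P.ne_bot
    rw [← hQ, h]
    rw [← RingHom.ker_eq_comap_bot, RingHom.ker_eq_bot_iff_eq_zero]
    intro x hx
    exact (map_eq_zero_iff _ (FaithfulSMul.algebraMap_injective (𝓞 k) (𝓞 M))).1 hx
  have hQm : Q.IsMaximal := Ideal.IsPrime.isMaximal ‹_› hQb
  have hPm : P.asIdeal.IsMaximal := Ideal.IsPrime.isMaximal P.isPrime P.ne_bot
  have hlo : Q.LiesOver P.asIdeal := ⟨hQ.symm⟩
  let _ : Field (𝓞 k ⧸ P.asIdeal) := Ideal.Quotient.field _
  let _ : Field (𝓞 M ⧸ Q) := Ideal.Quotient.field _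
  have hf1 : Finite (𝓞 k ⧸ P.asIdeal) := Ring.HasFiniteQuotients.finiteQuotient P.ne_bot
  have hf2 : Finite (𝓞 M ⧸ Q) := Ring.HasFiniteQuotients.finiteQuotient hQb
  have hF1 : Fintype (𝓞 k ⧸ P.asIdeal) := Fintype.ofFinite _
  obtain ⟨n, hn⟩ := (FiniteField.bijective_frobeniusAlgEquivOfAlgebraic_pow
    (𝓞 k ⧸ P.asIdeal) (𝓞 M ⧸ Q)).2
      (Ideal.Quotient.stabilizerHom Q P.asIdeal (M ≃ₐ[k] M) ⟨σ, hσ⟩)
  refine ⟨n.1, fun x => ?_⟩
  have h1 := DFunLike.congr_fun hn (Ideal.Quotient.mk Q x)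
  rw [AlgEquiv.coe_pow, FiniteField.coe_frobeniusAlgEquivOfAlgebraic_iterate] at h1
  have h2 : Fintype.card (𝓞 k ⧸ P.asIdeal) = Ideal.absNorm P.asIdeal := by
    rw [Ideal.absNorm_apply, Submodule.cardQuot_apply, Nat.card_eq_fintype_card]
  rw [h2] at h1
  have h3 : (Ideal.Quotient.mk Q x) ^ (Ideal.absNorm P.asIdeal ^ n.1) =
      Ideal.Quotient.mk Q (σ • x) := h1
  rw [← map_pow, eq_comm, Ideal.Quotient.eq] at h3
  exact h3

end

/-- D1: inertia and Frobenius in a Galois extension of degree prime to the norm of `P` -/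
theorem sgenT : SGenT := by
  intro k M _ _ _ _ _ _ P hc Q _ hQ
  obtain ⟨τ, φ, h1, h2, h3, h4⟩ := dg_gen P hc Q hQ
  refine ⟨τ, φ, h1, h2, h3, h4, ?_⟩
  intro σ hσ
  obtain ⟨j, hj⟩ := dg_pow P Q hQ σ hσ
  have hφj : ∀ m : ℕ, ∀ x : 𝓞 M, (φ ^ m) • x - x ^ (Ideal.absNorm P.asIdeal ^ m) ∈ Q := by
    intro m
    induction m with
    | zero =>
      intro x
      simp
    | succ m ih =>
      intro x
      have e1 : (φ ^ (m + 1)) • x - x ^ (Ideal.absNorm P.asIdeal ^ (m + 1)) =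
          ((φ ^ m) • (φ • x) - (φ • x) ^ (Ideal.absNorm P.asIdeal ^ m)) +
          ((φ • x) ^ (Ideal.absNorm P.asIdeal ^ m) -
            (x ^ Ideal.absNorm P.asIdeal) ^ (Ideal.absNorm P.asIdeal ^ m)) := by
        rw [pow_succ φ m, mul_smul, ← pow_mul x, ← pow_succ']
        ring
      rw [e1]
      refine Q.add_mem (ih _) ?_
      exact Ideal.mem_of_dvd Q (sub_dvd_pow_sub_pow _ _ _) (h2 x)
  have hι : σ * (φ ^ j)⁻¹ ∈ Q.inertia (M ≃ₐ[k] M) := by
    intro x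
    have e1 : (σ * (φ ^ j)⁻¹) • x - x =
        (σ • ((φ ^ j)⁻¹ • x) - ((φ ^ j)⁻¹ • x) ^ (Ideal.absNorm P.asIdeal ^ j)) -
        ((φ ^ j) • ((φ ^ j)⁻¹ • x) - ((φ ^ j)⁻¹ • x) ^ (Ideal.absNorm P.asIdeal ^ j)) := by
      rw [smul_inv_smul, mul_smul]
      ring
    change (σ * (φ ^ j)⁻¹) • x - x ∈ Q
    rw [e1]
    exact Q.sub_mem (hj _) (hφj _ _)
  rw [← h1, ← mem_powers_iff_mem_zpowers] at hι
  obtain ⟨i, hi⟩ := hι
  refine ⟨i, j, ?_⟩
  have e2 : τ ^ i = σ * (φ ^ j)⁻¹ := hi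
  rw [e2, inv_mul_cancel_right]

end Pool.Agent.H92.EL
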