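import Pool.Agent.H92.EL.DDefs

/-!
# Project T4 (MP_a3214d), block D: statements on tame generators, discriminants, homomorphisms
-/

set_option autoImplicit false

open scoped BigOperators Pointwise Topology
open NumberField IsDedekindDomain Filter

namespace Pool.Agent.H92.EL

open Pool.Agent.H98.MF (Om Gm ord Dec top nrm fld rdN rexp rex)
open Pool.Agent.H98.ML (norb)
open Pool.Agent.H32.MA (pind mInd bM)
open Pool.Agent.H32.MZ (NK MalleK)

/-! ### tame generators -/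

/-- D1: inertia and Frobenius in a Galois extension of degree prime to the norm of `P` -/
def SGenT : Prop := ∀ (k M : Type) [Field k] [NumberField k] [Field M] [NumberField M]
  [Algebra k M] [IsGalois k M] (P : HeightOneSpectrum (𝓞 k)),
  Nat.Coprime (Module.finrank k M) (nrm P) → ∀ (Q : Ideal (𝓞 M)) [Q.IsPrime],
  Q.comap (algebraMap (𝓞 k) (𝓞 M)) = P.asIdeal →
  ∃ τ φ : M ≃ₐ[k] M, Subgroup.zpowers τ = Q.inertia (M ≃ₐ[k] M) ∧
    (∀ x : 𝓞 M, φ • x - x ^ nrm P ∈ Q) ∧ φ • Q = Q ∧ φ * τ * φ⁻¹ = τ ^ nrm P ∧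
    ∀ σ : M ≃ₐ[k] M, σ • Q = Q → ∃ i j : ℕ, σ = τ ^ i * φ ^ j

/-- D2: the exponent of the discriminant of a subfield -/
def SOrbT : Prop := ∀ (k M : Type) [Field k] [NumberField k] [Field M] [NumberField M]
  [Algebra k M] [IsGalois k M] (P : HeightOneSpectrum (𝓞 k)),
  Nat.Coprime (Module.finrank k M) (nrm P) → ∀ (Q : Ideal (𝓞 M)) [Q.IsPrime],
  Q.comap (algebraMap (𝓞 k) (𝓞 M)) = P.asIdeal → ∀ τ : M ≃ₐ[k] M,
  Subgroup.zpowers τ = Q.inertia (M ≃ₐ[k] M) → ∀ H : Subgroup (M ≃ₐ[k] M),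
    rex P (IntermediateField.fixedField H) + norb H τ = H.index

/-- D3: universal tame generators and Frobenius elements exist -/
def STm : Prop := ∀ (k : Type) [Field k] [NumberField k], Nonempty (TM k)

/-! ### discriminants -/

/-- D4: the exponent at a tame prime -/
def SDisT : Prop := ∀ (k : Type) [Field k] [NumberField k] (T : TM k) (G : Type) [Group G]
  [Finite G] (ρ : Gm k →* G), ρ ∈ Hk k G → ∀ P, Nat.Coprime (Nat.card G) (nrm P) →
    rexp P (fld k ρ.ker) = xo (ρ (T.tau P))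

/-- D5: the discriminant -/
def SProdT : Prop := ∀ (k : Type) [Field k] [NumberField k] (T : TM k) (G : Type) [Group G]
  [Finite G] (ρ : Gm k →* G), ρ ∈ Hk k G → ∀ S : Finset (HeightOneSpectrum (𝓞 k)),
  Ctn S (Nat.card G) →
    ∃ F : Finset (HeightOneSpectrum (𝓞 k)), (∀ P, P ∈ F ↔ (P ∉ S ∧ ρ (T.tau P) ≠ 1)) ∧
      dG ρ = qS S ρ * ∏ P ∈ F, nrm P ^ xo (ρ (T.tau P))

/-- D6: the exponent is a local function -/
def SLocT : Prop := ∀ (k : Type) [Field k] [NumberField k] (G : Type) [Group G] [Finite G]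
  (ρ ρ' : Gm k →* G), ρ ∈ Hk k G → ρ' ∈ Hk k G → ∀ P, (∀ σ ∈ Dec P, ρ σ = ρ' σ) →
    rexp P (fld k ρ.ker) = rexp P (fld k ρ'.ker)

/-- D7: the exponent is bounded -/
def SBdT : Prop := ∀ (k : Type) [Field k] [NumberField k] (P : HeightOneSpectrum (𝓞 k)) (n : ℕ),
  ∃ C : ℕ, ∀ U : Subgroup (Gm k), U.Normal → IsOpen (U : Set (Gm k)) → U.index ≤ n →
    rexp P (fld k U) ≤ C

/-- D8: finitely many values of the part at `S` -/
def SValT : Prop := ∀ (k : Type) [Field k] [NumberField k] (G : Type) [Group G] [Finite G]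
  (S : Finset (HeightOneSpectrum (𝓞 k))),
    {q | ∃ ρ : Gm k →* G, ρ ∈ Hk k G ∧ qS S ρ = q}.Finite ∧ ∀ ρ : Gm k →* G, 1 ≤ qS S ρ

/-! ### outer data -/

/-- D9: finitely many homomorphisms unramified outside a finite set -/
def SHer : Prop := ∀ (k : Type) [Field k] [NumberField k] (T : TM k) (G : Type) [Group G]
  [Finite G] (S : Finset (HeightOneSpectrum (𝓞 k))), Ctn S (Nat.card G) → (Hu T G S).Finite

open Classical in
/-- D10: the number of homomorphisms unramified outside `S` and `R` -/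
def SOut : Prop := ∀ (k : Type) [Field k] [NumberField k] (T : TM k) (G : Type) [Group G]
  [Finite G], Group.IsNilpotent G → ∀ S : Finset (HeightOneSpectrum (𝓞 k)),
  Ctn S (Nat.card G) → ∃ C : ℕ, 1 ≤ C ∧ ∀ R : Finset (HeightOneSpectrum (𝓞 k)),
    (Hu T G (S ∪ R)).Finite ∧ (Hu T G (S ∪ R)).ncard ≤ C ^ (R.card + 1)

/-- D11: the relation in a tame quotient -/
def SRelT : Prop := ∀ (k : Type) [Field k] [NumberField k] (T : TM k) (G : Type) [Group G]
  [Finite G] (ρ : Gm k →* G), IsLocallyConstant ρ → ∀ P, Nat.Coprime (Nat.card G) (nrm P) →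
    ρ (T.phi P) * ρ (T.tau P) * (ρ (T.phi P))⁻¹ = ρ (T.tau P) ^ nrm P ∧
    ∀ l : ℕ, l.Prime → ρ (T.tau P) ^ l = 1 → ρ (T.tau P) ≠ 1 → Zt l G → nrm P ≡ 1 [MOD l] ∧
      ρ (T.phi P) * ρ (T.tau P) = ρ (T.tau P) * ρ (T.phi P)

/-- D12: the exponents of elements that are not of order `l` -/
def SExp : Prop := ∀ (G : Type) [Group G] [Finite G] (l : ℕ), l.Prime →
  (∀ p : ℕ, p.Prime → p ∣ Nat.card G → l ≤ p) → l ∣ Nat.card G →
    (∀ g : G, orderOf g = l → xo g = Nat.card G - Nat.card G / l) ∧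
    0 < Nat.card G - Nat.card G / l ∧
    ∃ w : ℝ, 1 < w ∧ ∀ g : G, g ^ l ≠ 1 →
      w * ((Nat.card G - Nat.card G / l : ℕ) : ℝ) ≤ (xo g : ℝ)

/-! ### sums over sets of primes -/

/-- D13: sums over the finite sets of primes converge -/
def SSumR : Prop := ∀ (k : Type) [Field k] [NumberField k] (C w : ℝ), 0 ≤ C → 1 < w →
  Summable fun R : Finset (HeightOneSpectrum (𝓞 k)) =>
    C ^ (R.card + 1) * ((∏ P ∈ R, nrm P : ℕ) : ℝ) ^ (-w)

/-! ### fields -/

/-- D14: fields and homomorphisms, regular representation -/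
def SFldT : Prop := ∀ (n : ℕ) (G : Subgroup (Equiv.Perm (Fin n))),
  MulAction.IsPretransitive G (Fin n) → Nat.card G = n → 0 < n →
  ∃ κ : ℝ, 0 < κ ∧ ∀ (k : Type) [Field k] [NumberField k] (X : ℝ), (NK k G X : ℝ) =
    κ * ({ρ : Gm k →* G | ρ ∈ Hk k G ∧ (dG ρ : ℝ) ≤ X}.ncard : ℝ)

/-- D15: the least index in the regular representation -/
def SmI : Prop := ∀ (n : ℕ) (G : Subgroup (Equiv.Perm (Fin n))),
  MulAction.IsPretransitive G (Fin n) → Nat.card G = n → 1 < n →
    (∀ g ∈ G, pind g = n - n / orderOf g) ∧ mInd G = n - n / n.minFac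

/-- D16: the number of classes of least index up to the cyclotomic action -/
def SbM : Prop := ∀ (k : Type) [Field k] [NumberField k] (n : ℕ)
  (G : Subgroup (Equiv.Perm (Fin n))), MulAction.IsPretransitive G (Fin n) → Nat.card G = n →
  1 < n → Zt n.minFac G →
    bM k G * Nat.card (cyc k n.minFac) = Nat.card (Ncl n.minFac G)

/-- the counting function has the expected growth: either there is no homomorphism or the
asymptotic formula holds; `b` is the number of classes up to the cyclotomic action -/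
def Asy (k : Type) [Field k] [NumberField k] (G : Type) [Group G] (l b : ℕ) : Prop :=
  Hk k G = ∅ ∨ ∃ L : ℝ, 0 < L ∧ Tendsto (fun X : ℝ =>
    ({ρ : Gm k →* G | ρ ∈ Hk k G ∧ (dG ρ : ℝ) ≤ X}.ncard : ℝ) /
      (X ^ (1 / ((Nat.card G - Nat.card G / l : ℕ) : ℝ)) * Real.log X ^ (b - 1))) atTop (𝓝 L)

/-- D17: from homomorphisms to fields -/
def SFinT : Prop := ∀ (k : Type) [Field k] [NumberField k] (n : ℕ)
  (G : Subgroup (Equiv.Perm (Fin n))), MulAction.IsPretransitive G (Fin n) → Nat.card G = n →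
  1 < n → Zt n.minFac G → ∀ b : ℕ, b * Nat.card (cyc k n.minFac) = Nat.card (Ncl n.minFac G) →
    Asy k G n.minFac b → (∀ X, NK k G X = 0) ∨ MalleK k G

end Pool.Agent.H92.EL
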