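import Pool.Agent.H98.MF.C.Defs

/-!
# Project ELL (MP_a3214d), block A: class field theory modulo a prime `l`, definitions

`K` is a number field containing a primitive `l`-th root of unity `z`.
-/

set_option autoImplicit false

open scoped BigOperators Pointwise Polynomial
open NumberField IsDedekindDomain

namespace Pool.Agent.H92.EL

open Pool.Agent.H98.MF (Om Gm ord Dec US PrS SUn mS nrm gen)

/-! ### Kummer characters -/

section

variable (l : ℕ) {K : Type} [Field K] [NumberField K]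

open Classical in
/-- an `l`-th root -/
noncomputable def rt (a : K) : Om K :=
  if h : ∃ y : Om K, y ^ l = algebraMap K (Om K) a then h.choose else 0

open Classical in
/-- the Kummer character of `a` with respect to the root of unity `z` -/
noncomputable def chl (z a : K) (σ : Gm K) : ZMod l :=
  if h : ∃ i : ZMod l, σ (rt l a) = algebraMap K (Om K) z ^ i.val * rt l a then h.choose else 0

/-- local `l`-th powers -/
def LocW (P : HeightOneSpectrum (𝓞 K)) (a : K) : Prop :=
  ∀ n : ℕ, ∃ c : K, a * c ^ l = 1 ∨ (n : ℤ) ≤ ord P (a * c ^ l - 1)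

/-- the group of local `l`-th powers -/
def WS (P : HeightOneSpectrum (𝓞 K)) : Subgroup Kˣ := Subgroup.closure {a : Kˣ | LocW l P (a : K)}

/-- local `l`-th powers at all places of `S` -/
def KW (S : Finset (HeightOneSpectrum (𝓞 K))) : Subgroup Kˣ := ⨅ P ∈ S, WS l P

/-- the `l`-th powers of a subgroup -/
def pw {G : Type} [CommGroup G] (H : Subgroup G) : Subgroup G := H.map (powMonoidHom l)

/-- `S` contains the primes above `l` and the ring of `S`-integers is principal -/
structure AdmL (S : Finset (HeightOneSpectrum (𝓞 K))) : Prop where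
  mem : ∀ P : HeightOneSpectrum (𝓞 K), 0 < ord P (l : K) → P ∈ S
  prS : PrS S

/-- functionals trivial on the `S`-units and on the local powers -/
structure FnL (S : Finset (HeightOneSpectrum (𝓞 K))) (ψ : Kˣ →* Multiplicative (ZMod l)) :
    Prop where
  unit : ∀ a ∈ US S, ψ a = 1
  loc : ∀ a ∈ KW l S, ψ a = 1

/-- additive form -/
def vl {G : Type} [Group G] (ψ : G →* Multiplicative (ZMod l)) (a : G) : ZMod l :=
  Multiplicative.toAdd (ψ a)

open Classical in
/-- the power residue symbol of a unit at a prime not above `l`, additive -/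
noncomputable def lgs (z : K) (P : HeightOneSpectrum (𝓞 K)) (a : K) : ZMod l :=
  if h : ∃ i : ZMod l, a ^ ((nrm P - 1) / l) = z ^ i.val ∨
      1 ≤ ord P (a ^ ((nrm P - 1) / l) - z ^ i.val) then h.choose else 0

/-- the sum of the cup products is a coboundary on `D` -/
def TrL (z : K) (D : Subgroup (Gm K)) {r : ℕ} (a b : Fin r → K) : Prop :=
  ∃ f : Gm K → ZMod l, IsLocallyConstant f ∧ ∀ σ ∈ D, ∀ τ ∈ D,
    f (σ * τ) = f σ + f τ + ∑ i, chl l z (a i) σ * chl l z (b i) τ

/-- one cup product is a coboundary on `D` -/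
def CbL (z : K) (D : Subgroup (Gm K)) (a b : K) : Prop :=
  ∃ f : Gm K → ZMod l, IsLocallyConstant f ∧ ∀ σ ∈ D, ∀ τ ∈ D,
    f (σ * τ) = f σ + f τ + chl l z a σ * chl l z b τ

/-- norms from `K(a^(1/l))` -/
noncomputable def NGL (a : Kˣ) : Subgroup Kˣ :=
  (Units.map (Algebra.norm K : AdjoinRoot ((Polynomial.X : K[X]) ^ l - Polynomial.C (a : K)) →*
    K)).range

/-- split primes outside `S` are generated by norms -/
def NPL (S : Finset (HeightOneSpectrum (𝓞 K))) (a : Kˣ) : Prop :=
  ∀ P : HeightOneSpectrum (𝓞 K), P ∉ S → LocW l P (a : K) → ∃ b : Kˣ, b ∈ NGL l a ∧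
    ord P (b : K) = 1 ∧ ∀ Q : HeightOneSpectrum (𝓞 K), Q ∉ S → Q ≠ P → ord Q (b : K) = 0

/-- primes outside `S` split for two elements are generated by common norms -/
def NPL2 (S : Finset (HeightOneSpectrum (𝓞 K))) (a a' : Kˣ) : Prop :=
  ∀ P : HeightOneSpectrum (𝓞 K), P ∉ S → LocW l P (a : K) → LocW l P (a' : K) →
    ∃ b : Kˣ, b ∈ NGL l a ∧ b ∈ NGL l a' ∧
    ord P (b : K) = 1 ∧ ∀ Q : HeightOneSpectrum (𝓞 K), Q ∉ S → Q ≠ P → ord Q (b : K) = 0

open Classical in
/-- the number of places of `S` where `a` is not a local power -/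
noncomputable def sL (S : Finset (HeightOneSpectrum (𝓞 K))) (a : Kˣ) : ℕ :=
  (S.filter fun P => ¬ LocW l P (a : K)).card

/-- independent modulo `l`-th powers -/
def Ind2 (a b : Kˣ) : Prop := ∀ i j : ZMod l, a ^ i.val * b ^ j.val ∈ pw l (⊤ : Subgroup Kˣ) →
  i = 0 ∧ j = 0

end

/-! ### Herbrand quotients -/

section

variable {A : Type} [CommGroup A]

/-- iterates of an endomorphism -/
def itr (σ : A →* A) : ℕ → (A →* A)
  | 0 => MonoidHom.id A
  | n + 1 => (itr σ n).comp σ

/-- `x ↦ σ x / x` -/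
def dl (σ : A →* A) : A →* A := σ / MonoidHom.id A

/-- the norm `x ↦ x * σ x * ... * σ ^ (l - 1) x` -/
def nl (l : ℕ) (σ : A →* A) : A →* A := ∏ i ∈ Finset.range l, itr σ i

/-- `[H : H ^ l] / # H[l]` -/
noncomputable def qH (l : ℕ) (H : Subgroup A) : ℚ :=
  ((pw l H).relIndex H : ℚ) / (Nat.card {x : A // x ∈ H ∧ x ^ l = 1} : ℚ)

end

/-! ### fields with an `l`-th root -/

section

variable {K L : Type} [Field K] [NumberField K] [Field L] [NumberField L] [Algebra K L]

/-- `L = K(α)` of degree `l`, `α ^ l = a`, where `a` is not a power -/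
structure KE (l : ℕ) (a : Kˣ) (α : L) : Prop where
  deg : Module.finrank K L = l
  pow : α ^ l = algebraMap K L a
  npw : a ∉ pw l (⊤ : Subgroup Kˣ)

/-- `L` of degree `l ^ 2` with roots of `a` and `a'` -/
structure KE2 (l : ℕ) (a a' : Kˣ) (α α' : L) : Prop where
  deg : Module.finrank K L = l ^ 2
  pow : α ^ l = algebraMap K L a
  pow' : α' ^ l = algebraMap K L a'

/-- the prime `Q` lies over `P` -/
def OvP (P : HeightOneSpectrum (𝓞 K)) (Q : HeightOneSpectrum (𝓞 L)) : Prop :=
  Q.asIdeal.comap (algebraMap (𝓞 K) (𝓞 L)) = P.asIdeal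

/-- the primes of `S'` are the primes above those of `S` -/
def OvS (S : Finset (HeightOneSpectrum (𝓞 K))) (S' : Finset (HeightOneSpectrum (𝓞 L))) : Prop :=
  ∀ Q : HeightOneSpectrum (𝓞 L), Q ∈ S' ↔ ∃ P ∈ S, OvP P Q

variable (K L)

/-- the norm on units -/
noncomputable def nuL : Lˣ →* Kˣ := Units.map (Algebra.norm K : L →* K)

end

/-! ### local symbols -/

/-- local symbols modulo `l` of a number field -/
structure LSy (l : ℕ) (K : Type) [Field K] [NumberField K] (z : K) where
  /-- the symbol -/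
  hs : HeightOneSpectrum (𝓞 K) → Kˣ → Kˣ → ZMod l
  /-- the normalisation at the primes not above `l` -/
  cc : HeightOneSpectrum (𝓞 K) → ZMod l
  cc_ne : ∀ P, cc P ≠ 0
  mulL : ∀ P a b c, hs P (a * b) c = hs P a c + hs P b c
  mulR : ∀ P a b c, hs P a (b * c) = hs P a b + hs P a c
  alt : ∀ P a, hs P a a = 0
  nd : ∀ (P : HeightOneSpectrum (𝓞 K)) (a : Kˣ), (∀ b, hs P a b = 0) ↔ LocW l P (a : K)
  nm : ∀ (P : HeightOneSpectrum (𝓞 K)) (a b : Kˣ), b ∈ NGL l a → hs P a b = 0
  unit : ∀ (P : HeightOneSpectrum (𝓞 K)) (a b : Kˣ), ord P (l : K) = 0 → ord P (a : K) = 0 →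
    hs P a b = cc P * ((ord P (b : K) : ZMod l) * lgs l z P (a : K))
  triv : ∀ (P : HeightOneSpectrum (𝓞 K)) {r : ℕ} (a b : Fin r → Kˣ),
    TrL l z (Dec P) (fun i => (a i : K)) (fun i => (b i : K)) ↔ ∑ i, hs P (a i) (b i) = 0

/-- local symbols with the product formula -/
structure GSy (l : ℕ) (K : Type) [Field K] [NumberField K] (z : K) extends LSy l K z where
  prd : ∀ S : Finset (HeightOneSpectrum (𝓞 K)),
    (∀ P : HeightOneSpectrum (𝓞 K), 0 < ord P (l : K) → P ∈ S) →
    ∀ a ∈ US S, ∀ b ∈ US S, ∑ P ∈ S, hs P a b = 0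

end Pool.Agent.H92.EL
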