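import Pool.Agent.H92.EL.ADefs
import Pool.Agent.H98.MF.L.Defs

/-!
# Project ELL (MP_a3214d), block A: class field theory modulo a prime `l`, statements
-/

set_option autoImplicit false

open scoped BigOperators Pointwise
open NumberField IsDedekindDomain

namespace Pool.Agent.H92.EL

open Pool.Agent.H98.MF (Om Gm ord Dec US PrS SUn mS nrm gen FixD)

/-! ### Kummer theory -/

/-- Kummer theory of `K` -/
structure KuF (l : ℕ) (K : Type) [Field K] [NumberField K] (z : K) : Prop where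
  root : ∀ (a : Kˣ) (y : Om K), y ^ l = algebraMap K (Om K) a → ∀ σ : Gm K,
    σ y = algebraMap K (Om K) z ^ (chl l z (a : K) σ).val * y
  hom : ∀ (a : Kˣ) (σ τ : Gm K),
    chl l z (a : K) (σ * τ) = chl l z (a : K) σ + chl l z (a : K) τ
  mul : ∀ (a b : Kˣ) (σ : Gm K),
    chl l z ((a * b : Kˣ) : K) σ = chl l z (a : K) σ + chl l z (b : K) σ
  lc : ∀ a : Kˣ, IsLocallyConstant (chl l z (a : K))
  zero : ∀ a : Kˣ, (∀ σ, chl l z (a : K) σ = 0) ↔ a ∈ pw l (⊤ : Subgroup Kˣ)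
  surj : ∀ h : Gm K → ZMod l, IsLocallyConstant h → (∀ σ τ, h (σ * τ) = h σ + h τ) →
    ∃ a : Kˣ, ∀ σ, h σ = chl l z (a : K) σ

/-- Kummer theory -/
def SKu : Prop := ∀ (l : ℕ), l.Prime → ∀ (K : Type) [Field K] [NumberField K] (z : K),
  IsPrimitiveRoot z l → KuF l K z

/-- Kummer theory for closed subgroups -/
def SKuD : Prop := ∀ (l : ℕ), l.Prime → ∀ (K : Type) [Field K] [NumberField K] (z : K),
  IsPrimitiveRoot z l → ∀ D : Subgroup (Gm K), IsClosed (D : Set (Gm K)) →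
  ∀ h : Gm K → ZMod l, IsLocallyConstant h → (∀ σ ∈ D, ∀ τ ∈ D, h (σ * τ) = h σ + h τ) →
    ∃ y : Om K, y ≠ 0 ∧ ∀ σ ∈ D, σ y = algebraMap K (Om K) z ^ (h σ).val * y

/-! ### local theory -/

/-- the local powers form a group -/
def SMem : Prop := ∀ (l : ℕ), l.Prime → ∀ (K : Type) [Field K] [NumberField K]
  (P : HeightOneSpectrum (𝓞 K)) (a : Kˣ), a ∈ WS l P ↔ LocW l P (a : K)

/-- the number of local power classes -/
def SIdx : Prop := ∀ (l : ℕ), l.Prime → ∀ (K : Type) [Field K] [NumberField K] (z : K),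
  IsPrimitiveRoot z l → ∀ P : HeightOneSpectrum (𝓞 K),
    (WS l P).index = l ^ 2 * nrm P ^ (ord P (l : K)).toNat

/-- weak approximation -/
def SWk : Prop := ∀ (l : ℕ), l.Prime → ∀ (K : Type) [Field K] [NumberField K]
  (T : Finset (HeightOneSpectrum (𝓞 K))) (c : HeightOneSpectrum (𝓞 K) → Kˣ),
    ∃ x : Kˣ, ∀ P ∈ T, x / c P ∈ WS l P

/-- elements of the decomposition field are elements of `K` up to powers; the Kummer character
is trivial on the decomposition group exactly for local powers -/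
def SOne : Prop := ∀ (l : ℕ), l.Prime → ∀ (K : Type) [Field K] [NumberField K] (z : K),
  IsPrimitiveRoot z l → ∀ P : HeightOneSpectrum (𝓞 K),
    (∀ a : Kˣ, (∀ σ ∈ Dec P, chl l z (a : K) σ = 0) ↔ LocW l P (a : K)) ∧
    ∀ x : Om K, x ≠ 0 → FixD (Dec P) x → ∃ (c : Kˣ) (y : Om K), FixD (Dec P) y ∧
      x = algebraMap K (Om K) c * y ^ l

/-- characters of the decomposition group -/
def STwo : Prop := ∀ (l : ℕ), l.Prime → ∀ (K : Type) [Field K] [NumberField K] (z : K),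
  IsPrimitiveRoot z l → ∀ (P : HeightOneSpectrum (𝓞 K)) (h : Gm K → ZMod l),
    IsLocallyConstant h → (∀ σ ∈ Dec P, ∀ τ ∈ Dec P, h (σ * τ) = h σ + h τ) →
    ∃ c : Kˣ, ∀ σ ∈ Dec P, h σ = chl l z (c : K) σ

/-- power residue symbols -/
def SLg : Prop := ∀ (l : ℕ), l.Prime → ∀ (K : Type) [Field K] [NumberField K] (z : K),
  IsPrimitiveRoot z l → ∀ P : HeightOneSpectrum (𝓞 K), ord P (l : K) = 0 →
    (∀ a : Kˣ, ord P (a : K) = 0 → ∀ i : ZMod l, lgs l z P (a : K) = i ↔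
      ((a : K) ^ ((nrm P - 1) / l) = z ^ i.val ∨
        1 ≤ ord P ((a : K) ^ ((nrm P - 1) / l) - z ^ i.val))) ∧
    (∀ a b : Kˣ, ord P (a : K) = 0 → ord P (b : K) = 0 →
      lgs l z P ((a * b : Kˣ) : K) = lgs l z P (a : K) + lgs l z P (b : K)) ∧
    (∀ a : Kˣ, ord P (a : K) = 0 → (lgs l z P (a : K) = 0 ↔ LocW l P (a : K))) ∧
    ∃ u : Kˣ, ord P (u : K) = 0 ∧ lgs l z P (u : K) = 1

/-- units pair to zero at the primes not above `l` -/
def SUU : Prop := ∀ (l : ℕ), l.Prime → l ≠ 2 → ∀ (K : Type) [Field K] [NumberField K] (z : K),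
  IsPrimitiveRoot z l → ∀ P : HeightOneSpectrum (𝓞 K), ord P (l : K) = 0 →
  ∀ a b : Kˣ, ord P (a : K) = 0 → ord P (b : K) = 0 → CbL l z (Dec P) (a : K) (b : K)

/-- a cup product is a coboundary exactly for norms -/
def SCN : Prop := ∀ (l : ℕ), l.Prime → l ≠ 2 → ∀ (K : Type) [Field K] [NumberField K] (z : K),
  IsPrimitiveRoot z l → ∀ D : Subgroup (Gm K), IsClosed (D : Set (Gm K)) →
  ∀ (a b : Kˣ) (s : Gm K), s ∈ D → chl l z (a : K) s = 1 →
    (CbL l z D (a : K) (b : K) ↔ ∃ y : Om K, (∀ σ ∈ D, chl l z (a : K) σ = 0 → σ y = y) ∧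
      ∏ i ∈ Finset.range l, (s ^ i) y = algebraMap K (Om K) (b : K))

/-- global norms and cup products -/
def SNG : Prop := ∀ (l : ℕ), l.Prime → l ≠ 2 → ∀ (K : Type) [Field K] [NumberField K] (z : K),
  IsPrimitiveRoot z l → ∀ a b : Kˣ, b ∈ NGL l a ↔ CbL l z (⊤ : Subgroup (Gm K)) (a : K) (b : K)

/-- the absolute Galois group of a finite extension as a subgroup, with decomposition groups -/
def SBr : Prop := ∀ (K : Type) [Field K] [NumberField K] (U : Subgroup (Gm K)),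
  IsOpen (U : Set (Gm K)) → ∀ P : HeightOneSpectrum (𝓞 K),
  ∃ (L : Type) (_ : Field L) (_ : NumberField L) (_ : Algebra K L)
    (Q : HeightOneSpectrum (𝓞 L)) (j : Om L ≃+* Om K) (Θ : Gm L ≃* U),
    (∀ x : K, j (algebraMap L (Om L) (algebraMap K L x)) = algebraMap K (Om K) x) ∧
    Module.finrank K L = U.index ∧ OvP P Q ∧ Continuous Θ ∧ Continuous Θ.symm ∧
    (∀ (σ : Gm L) (x : Om L), j (σ x) = (Θ σ : Gm K) (j x)) ∧
    ∀ σ : Gm L, σ ∈ Dec Q ↔ (Θ σ : Gm K) ∈ Dec P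

/-- local degrees in an extension of degree `l` at a prime that does not split -/
def SDg : Prop := ∀ (l : ℕ), l.Prime → ∀ (K L : Type) [Field K] [NumberField K] [Field L]
  [NumberField L] [Algebra K L] (z : K), IsPrimitiveRoot z l → ∀ (a : Kˣ) (α : L), KE l a α →
  ∀ P : HeightOneSpectrum (𝓞 K), ¬ LocW l P (a : K) → ∀ Q : HeightOneSpectrum (𝓞 L), OvP P Q →
    ∃ e f : ℕ, e * f = l ∧ (∀ x : K, ord Q (algebraMap K L x) = e * ord P x) ∧
      nrm Q = nrm P ^ f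

/-- Herbrand quotient of a group with automorphism of order `l` and `H^1 = 0` -/
def SHb : Prop := ∀ (l : ℕ), l.Prime → ∀ (A : Type) [CommGroup A] (σ : A →* A),
  itr σ l = MonoidHom.id A → (pw l (⊤ : Subgroup A)).index ≠ 0 → {x : A | x ^ l = 1}.Finite →
  (nl l σ).ker ≤ (dl σ).range →
    (nl l σ).range.relIndex (dl σ).ker ≠ 0 ∧
    (((nl l σ).range.relIndex (dl σ).ker : ℕ) : ℚ) ^ (l - 1) * qH l (⊤ : Subgroup A) =
      qH l (dl σ).ker ^ l

/-- the local norm index -/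
def SIn : Prop := ∀ (l : ℕ), l.Prime → l ≠ 2 → ∀ (K : Type) [Field K] [NumberField K] (z : K),
  IsPrimitiveRoot z l → ∀ (P : HeightOneSpectrum (𝓞 K)) (a : Kˣ), ¬ LocW l P (a : K) →
    ∃ H : Subgroup Kˣ, (∀ b : Kˣ, b ∈ H ↔ CbL l z (Dec P) (a : K) (b : K)) ∧ H.index = l

/-- a bilinear map with lines as values: linear algebra over `ZMod l` -/
def SLn : Prop := ∀ (l : ℕ) [Fact l.Prime] (G H : Type) [CommGroup G] [AddCommGroup H]
  [Module (ZMod l) H] (c : G → G → H), (∀ a b d, c (a * b) d = c a d + c b d) →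
  (∀ a b d, c a (b * d) = c a b + c a d) → (∀ a, c a a = 0) → 2 < l →
  (∀ a, (∀ b, c a b = 0) ∨ ∃ N : Subgroup G, (∀ b, b ∈ N ↔ c a b = 0) ∧ N.index = l) →
    ∃ (B : G → G → ZMod l) (e : H), (∀ a b, c a b = B a b • e) ∧
      (∀ a b d, B (a * b) d = B a d + B b d) ∧ (∀ a b d, B a (b * d) = B a b + B a d) ∧
      (∀ t : ZMod l, t • e = 0 → t = 0 ∨ ∀ a b, c a b = 0) ∧
      ((∀ a b, c a b = 0) → ∀ a b, B a b = 0)

/-- local symbols exist -/
def SLs : Prop := ∀ (l : ℕ), l.Prime → l ≠ 2 → ∀ (K : Type) [Field K] [NumberField K] (z : K),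
  IsPrimitiveRoot z l → Nonempty (LSy l K z)

/-! ### global frame -/

/-- admissible sets exist -/
def SC1 : Prop := ∀ (l : ℕ), l.Prime → ∀ (K : Type) [Field K] [NumberField K]
  (T : Finset (HeightOneSpectrum (𝓞 K))), ∃ S, T ⊆ S ∧ AdmL l S

/-- the `S`-units modulo powers -/
def SC2 : Prop := ∀ (l : ℕ), l.Prime → ∀ (K : Type) [Field K] [NumberField K] (z : K),
  IsPrimitiveRoot z l → ∀ S : Finset (HeightOneSpectrum (𝓞 K)),
    (pw l (US S)).relIndex (US S) = l ^ mS S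

/-- the index of the elements that are local powers at `S` -/
def SCI : Prop := ∀ (l : ℕ), l.Prime → l ≠ 2 → ∀ (K : Type) [Field K] [NumberField K] (z : K),
  IsPrimitiveRoot z l → ∀ S : Finset (HeightOneSpectrum (𝓞 K)),
    (∀ P : HeightOneSpectrum (𝓞 K), 0 < ord P (l : K) → P ∈ S) →
    (KW l S).index = l ^ (2 * mS S)

/-- complete splitting in a Galois extension and the decomposition group -/
def SSd : Prop := ∀ (K L : Type) [Field K] [NumberField K] [Field L] [NumberField L]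
  [Algebra K L] [IsGalois K L] (ι : L →ₐ[K] Om K) (P : HeightOneSpectrum (𝓞 K)),
    (Nat.card {Q : HeightOneSpectrum (𝓞 L) // OvP P Q} = Module.finrank K L ↔
      ∀ σ ∈ Dec P, ∀ x : L, σ (ι x) = ι x) ∧
    Nat.card {Q : HeightOneSpectrum (𝓞 L) // OvP P Q} ∣ Module.finrank K L

/-- complete splitting in an extension of degree `l ^ 2` -/
def SC3g : Prop := ∀ (l : ℕ), l.Prime → ∀ (K L : Type) [Field K] [NumberField K] [Field L]
  [NumberField L] [Algebra K L] (z : K), IsPrimitiveRoot z l → ∀ (a a' : Kˣ) (α α' : L),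
  Ind2 l a a' → KE2 l a a' α α' → IsGalois K L ∧ ∀ P : HeightOneSpectrum (𝓞 K),
    Nat.card {Q : HeightOneSpectrum (𝓞 L) // OvP P Q} = l ^ 2 ↔
      (LocW l P (a : K) ∧ LocW l P (a' : K))

/-- primes in an extension of degree `l` -/
def SC3b : Prop := ∀ (l : ℕ), l.Prime → ∀ (K L : Type) [Field K] [NumberField K] [Field L]
  [NumberField L] [Algebra K L] (z : K), IsPrimitiveRoot z l → ∀ (a : Kˣ) (α : L), KE l a α →
  ∀ P : HeightOneSpectrum (𝓞 K),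
    (LocW l P (a : K) → Nat.card {Q : HeightOneSpectrum (𝓞 L) // OvP P Q} = l) ∧
    (¬ LocW l P (a : K) → Nat.card {Q : HeightOneSpectrum (𝓞 L) // OvP P Q} = 1)

/-- the number of places of the extension -/
def SC3c : Prop := ∀ (l : ℕ), l.Prime → l ≠ 2 → ∀ (K L : Type) [Field K] [NumberField K]
  [Field L] [NumberField L] [Algebra K L] (z : K), IsPrimitiveRoot z l → ∀ (a : Kˣ) (α : L),
  KE l a α → ∀ (S : Finset (HeightOneSpectrum (𝓞 K))) (S' : Finset (HeightOneSpectrum (𝓞 L))),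
    OvS S S' → mS S' + (l - 1) * sL l S a = l * mS S

/-- the index of the norms of `S`-units -/
def SC3d : Prop := ∀ (l : ℕ), l.Prime → l ≠ 2 → ∀ (K L : Type) [Field K] [NumberField K]
  [Field L] [NumberField L] [Algebra K L] (z : K), IsPrimitiveRoot z l → ∀ (a : Kˣ) (α : L),
  KE l a α → ∀ (S : Finset (HeightOneSpectrum (𝓞 K))) (S' : Finset (HeightOneSpectrum (𝓞 L))),
    OvS S S' → AdmL l S → a ∈ US S → PrS S' →
    ((US S').map (nuL K L)).relIndex (US S) * l = l ^ sL l S a ∧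
      (US S').map (nuL K L) ≤ US S ∧ (US S').map (nuL K L) ≤ NGL l a

/-- split primes are generated by norms -/
def SC3e : Prop := ∀ (l : ℕ), l.Prime → ∀ (K L : Type) [Field K] [NumberField K]
  [Field L] [NumberField L] [Algebra K L] (z : K), IsPrimitiveRoot z l → ∀ (a : Kˣ) (α : L),
  KE l a α → ∀ (S : Finset (HeightOneSpectrum (𝓞 K))) (S' : Finset (HeightOneSpectrum (𝓞 L))),
    OvS S S' → AdmL l S → a ∈ US S → PrS S' → NPL l S a

/-- primes split for two elements are generated by common norms -/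
def SC3f : Prop := ∀ (l : ℕ), l.Prime → ∀ (K L : Type) [Field K] [NumberField K]
  [Field L] [NumberField L] [Algebra K L] (z : K), IsPrimitiveRoot z l →
  ∀ (a a' : Kˣ) (α α' : L), Ind2 l a a' → KE2 l a a' α α' →
  ∀ (S : Finset (HeightOneSpectrum (𝓞 K))) (S' : Finset (HeightOneSpectrum (𝓞 L))),
    OvS S S' → AdmL l S → a ∈ US S → a' ∈ US S → PrS S' → NPL2 l S a a'

/-- principal rings of `S`-integers above -/
def SPu : Prop := ∀ (K L : Type) [Field K] [NumberField K] [Field L] [NumberField L]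
  [Algebra K L], ∃ T : Finset (HeightOneSpectrum (𝓞 K)),
  ∀ S : Finset (HeightOneSpectrum (𝓞 K)), T ⊆ S →
    ∃ S' : Finset (HeightOneSpectrum (𝓞 L)), OvS S S' ∧ PrS S'

/-- fields with roots exist -/
def SKE : Prop := ∀ (l : ℕ), l.Prime → ∀ (K : Type) [Field K] [NumberField K] (z : K),
  IsPrimitiveRoot z l →
    (∀ a : Kˣ, a ∉ pw l (⊤ : Subgroup Kˣ) → ∃ (L : Type) (_ : Field L) (_ : NumberField L)
      (_ : Algebra K L) (α : L), KE l a α) ∧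
    ∀ a a' : Kˣ, Ind2 l a a' → ∃ (L : Type) (_ : Field L) (_ : NumberField L)
      (_ : Algebra K L) (α α' : L), KE2 l a a' α α'

/-- `S` is large enough for `a` -/
structure GdL (l : ℕ) {K : Type} [Field K] [NumberField K]
    (S : Finset (HeightOneSpectrum (𝓞 K))) (a : Kˣ) : Prop where
  adm : AdmL l S
  mem : a ∈ US S
  split : NPL l S a
  idx : ∃ N : Subgroup Kˣ, N ≤ US S ∧ N ≤ NGL l a ∧ N.relIndex (US S) * l = l ^ sL l S a

/-- the first inequality -/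
def SC3 : Prop := ∀ (l : ℕ), l.Prime → l ≠ 2 → ∀ (K : Type) [Field K] [NumberField K] (z : K),
  IsPrimitiveRoot z l → ∀ (T : Finset (HeightOneSpectrum (𝓞 K))) (A : Finset Kˣ),
  (∀ a ∈ A, a ∉ pw l (⊤ : Subgroup Kˣ)) → ∃ S, T ⊆ S ∧ (∀ a ∈ A, GdL l S a) ∧
    ∀ a ∈ A, ∀ a' ∈ A, Ind2 l a a' → NPL2 l S a a'

/-! ### analysis -/

/-- the analytic facts -/
structure AnL (l : ℕ) [NeZero l] (K : Type) [Field K] [NumberField K] : Prop where
  sm : ∀ s : ℝ, 1 < s → Summable fun Q : HeightOneSpectrum (𝓞 K) => (nrm Q : ℝ) ^ (-s)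
  n4 : ∃ C : ℝ, ∀ s : ℝ, 1 < s → s ≤ 2 →
    |∑' Q : HeightOneSpectrum (𝓞 K), (nrm Q : ℝ) ^ (-s) - Real.log (1 / (s - 1))| ≤ C
  n4a : ∀ a : Kˣ, a ∉ pw l (⊤ : Subgroup Kˣ) → ∃ C : ℝ, ∀ s : ℝ, 1 < s → s ≤ 2 →
    |∑' Q : {Q : HeightOneSpectrum (𝓞 K) // LocW l Q (a : K)}, (nrm Q.1 : ℝ) ^ (-s) -
      (1 / l) * Real.log (1 / (s - 1))| ≤ C
  n4b : ∀ a a' : Kˣ, Ind2 l a a' → ∃ C : ℝ, ∀ s : ℝ, 1 < s → s ≤ 2 →
    |∑' Q : {Q : HeightOneSpectrum (𝓞 K) // LocW l Q (a : K) ∧ LocW l Q (a' : K)},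
      (nrm Q.1 : ℝ) ^ (-s) - (1 / l ^ 2) * Real.log (1 / (s - 1))| ≤ C
  n2 : ∀ S : Finset (HeightOneSpectrum (𝓞 K)), AdmL l S →
    ∀ ψ : Kˣ →* Multiplicative (ZMod l), FnL l S ψ → ψ ≠ 1 →
    ∃ Lf g : ℝ → ℂ, ContinuousOn Lf (Set.Icc 1 2) ∧ ContinuousOn g (Set.Icc 1 2) ∧
      ∀ s : ℝ, 1 < s → s ≤ 2 →
        Lf s = Complex.exp (∑' Q : {Q : HeightOneSpectrum (𝓞 K) // Q ∉ S},
          ZMod.stdAddChar (vl l ψ (gen S Q.1)) * (((nrm Q.1 : ℝ) ^ (-s) : ℝ) : ℂ) + g s)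

open Classical in
/-- an element generating an ideal outside `S` -/
noncomputable def xI {K : Type} [Field K] [NumberField K] (S : Finset (HeightOneSpectrum (𝓞 K)))
    (I : Ideal (𝓞 K)) : Kˣ :=
  if h : ∃ x : Kˣ, ∀ Q : HeightOneSpectrum (𝓞 K), Q ∉ S →
    ord Q (x : K) = ((Associates.mk Q.asIdeal).count (Associates.mk I).factors : ℤ)
  then h.choose else 1

open Classical in
/-- the character of the ideals prime to `S` given by a functional -/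
noncomputable def chI (l : ℕ) [NeZero l] {K : Type} [Field K] [NumberField K]
    (S : Finset (HeightOneSpectrum (𝓞 K))) (ψ : Kˣ →* Multiplicative (ZMod l))
    (I : Ideal (𝓞 K)) : ℂ :=
  if ∀ P ∈ S, ¬ I ≤ P.asIdeal then ZMod.stdAddChar (vl l ψ (xI S I)) else 0

/-- cancellation in the sums of a character over the ideals -/
def SN2a : Prop := ∀ (l : ℕ) [Fact l.Prime] (K : Type) [Field K] [NumberField K]
  (S : Finset (HeightOneSpectrum (𝓞 K))), AdmL l S →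
  ∀ ψ : Kˣ →* Multiplicative (ZMod l), FnL l S ψ → ψ ≠ 1 → ∃ C δ : ℝ, 0 < δ ∧
    ∀ X : ℝ, 1 ≤ X →
      ‖∑ᶠ I ∈ {I : Ideal (𝓞 K) | I ≠ ⊥ ∧ (Ideal.absNorm I : ℝ) ≤ X}, chI l S ψ I‖ ≤
        C * X ^ (1 - δ)

/-- the logarithm of the `L`-series of a character -/
def SN2 : Prop := ∀ (l : ℕ) [Fact l.Prime] (K : Type) [Field K] [NumberField K]
  (S : Finset (HeightOneSpectrum (𝓞 K))), AdmL l S →
  ∀ ψ : Kˣ →* Multiplicative (ZMod l), FnL l S ψ → ψ ≠ 1 →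
    ∃ Lf g : ℝ → ℂ, ContinuousOn Lf (Set.Icc 1 2) ∧ ContinuousOn g (Set.Icc 1 2) ∧
      ∀ s : ℝ, 1 < s → s ≤ 2 →
        Lf s = Complex.exp (∑' Q : {Q : HeightOneSpectrum (𝓞 K) // Q ∉ S},
          ZMod.stdAddChar (vl l ψ (gen S Q.1)) * (((nrm Q.1 : ℝ) ^ (-s) : ℝ) : ℂ) + g s)

/-- the analytic facts hold -/
def SAn : Prop := ∀ (l : ℕ) [Fact l.Prime], l ≠ 2 → ∀ (K : Type) [Field K] [NumberField K]
  (z : K), IsPrimitiveRoot z l → AnL l K

/-- the density of the primes that split completely in a Galois extension -/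
def SSp : Prop := ∀ (K L : Type) [Field K] [NumberField K] [Field L] [NumberField L]
  [Algebra K L] [IsGalois K L], ∃ C : ℝ, ∀ s : ℝ, 1 < s → s ≤ 2 →
    |∑' Q : {P : HeightOneSpectrum (𝓞 K) //
        Nat.card {Q : HeightOneSpectrum (𝓞 L) // OvP P Q} = Module.finrank K L},
      (nrm Q.1 : ℝ) ^ (-s) - (1 / Module.finrank K L) * Real.log (1 / (s - 1))| ≤ C

/-! ### reciprocity -/

section

variable {l : ℕ} {K : Type} [Field K] [NumberField K] {z : K} (Y : LSy l K z)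

/-- functionals trivial on the `S`-units and on the elements pairing to zero with `a` at `S` -/
structure Fna (S : Finset (HeightOneSpectrum (𝓞 K))) (a : Kˣ)
    (ψ : Kˣ →* Multiplicative (ZMod l)) : Prop where
  unit : ∀ u ∈ US S, ψ u = 1
  loc : ∀ b : Kˣ, (∀ P ∈ S, Y.hs P a b = 0) → ψ b = 1

end

/-- the functional of one element -/
def SR1 : Prop := ∀ (l : ℕ) [Fact l.Prime], l ≠ 2 → ∀ (K : Type) [Field K] [NumberField K]
  (z : K), IsPrimitiveRoot z l → ∀ (Y : LSy l K z), AnL l K →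
  ∀ (S : Finset (HeightOneSpectrum (𝓞 K))) (a : Kˣ), a ∉ pw l (⊤ : Subgroup Kˣ) → GdL l S a →
    (∃ ω : Kˣ →* Multiplicative (ZMod l), Fna Y S a ω ∧ ω ≠ 1 ∧
      ∀ ψ : Kˣ →* Multiplicative (ZMod l), Fna Y S a ψ → ∃ t : ZMod l, ∀ x, vl l ψ x = t * vl l ω x) ∧
    (∀ u ∈ US S, (∀ P ∈ S, Y.hs P a u = 0) → u ∈ NGL l a) ∧
    ∀ ω : Kˣ →* Multiplicative (ZMod l), Fna Y S a ω → ω ≠ 1 → ∃ C : ℝ, ∀ s : ℝ, 1 < s → s ≤ 2 →
      ∑' Q : {Q : HeightOneSpectrum (𝓞 K) // Q ∉ S ∧ ω (gen S Q) = 1 ∧ ¬ LocW l Q (a : K)},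
        (nrm Q.1 : ℝ) ^ (-s) ≤ C

/-- the coefficients of a functional -/
def SR2 : Prop := ∀ (l : ℕ) [Fact l.Prime] (K : Type) [Field K] [NumberField K]
  (z : K) (Y : LSy l K z) (S : Finset (HeightOneSpectrum (𝓞 K))) (a : Kˣ)
  (ω : Kˣ →* Multiplicative (ZMod l)), Fna Y S a ω →
    ∃ c : HeightOneSpectrum (𝓞 K) → ZMod l, (∀ P, LocW l P (a : K) → c P = 0) ∧
      ∀ x, vl l ω x = ∑ P ∈ S, c P * Y.hs P a x

/-- the relation of the functionals of two elements -/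
def SR3 : Prop := ∀ (l : ℕ) [Fact l.Prime], l ≠ 2 → ∀ (K : Type) [Field K] [NumberField K]
  (z : K), IsPrimitiveRoot z l → ∀ (Y : LSy l K z), AnL l K →
  ∀ (S : Finset (HeightOneSpectrum (𝓞 K))) (a a' : Kˣ), Ind2 l a a' → GdL l S a → GdL l S a' →
    GdL l S (a * a') → NPL2 l S a a' →
    ∀ ω ω' ω'' : Kˣ →* Multiplicative (ZMod l), Fna Y S a ω → Fna Y S a' ω' →
      Fna Y S (a * a') ω'' → ω ≠ 1 → ω' ≠ 1 → ω'' ≠ 1 →
      ∃ x y : ZMod l, x ≠ 0 ∧ y ≠ 0 ∧ ∀ g, vl l ω'' g = x * vl l ω g + y * vl l ω' g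

/-- the global constants -/
def SR4 : Prop := ∀ (l : ℕ) [Fact l.Prime], l ≠ 2 → ∀ (K : Type) [Field K] [NumberField K]
  (z : K), IsPrimitiveRoot z l → ∀ (Y : LSy l K z),
    ∃ c : HeightOneSpectrum (𝓞 K) → ZMod l,
      (∀ S : Finset (HeightOneSpectrum (𝓞 K)),
        (∀ P : HeightOneSpectrum (𝓞 K), 0 < ord P (l : K) → P ∈ S) →
        ∀ a ∈ US S, ∀ b ∈ US S, ∑ P ∈ S, c P * Y.hs P a b = 0) ∧
      ∀ a : Kˣ, a ∉ pw l (⊤ : Subgroup Kˣ) → ∃ P, c P ≠ 0 ∧ ¬ LocW l P (a : K)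

/-- there is no bad place -/
def SR5 : Prop := ∀ (l : ℕ) [Fact l.Prime], l ≠ 2 → ∀ (K : Type) [Field K] [NumberField K]
  (z : K), IsPrimitiveRoot z l → ∀ (Y : LSy l K z) (c : HeightOneSpectrum (𝓞 K) → ZMod l),
      (∀ S : Finset (HeightOneSpectrum (𝓞 K)),
        (∀ P : HeightOneSpectrum (𝓞 K), 0 < ord P (l : K) → P ∈ S) →
        ∀ a ∈ US S, ∀ b ∈ US S, ∑ P ∈ S, c P * Y.hs P a b = 0) →
      (∀ a : Kˣ, a ∉ pw l (⊤ : Subgroup Kˣ) → ∃ P, c P ≠ 0 ∧ ¬ LocW l P (a : K)) →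
      ∀ P, c P ≠ 0

/-- symbols with product formula exist -/
def SGs : Prop := ∀ (l : ℕ) [Fact l.Prime], l ≠ 2 → ∀ (K : Type) [Field K] [NumberField K]
  (z : K), IsPrimitiveRoot z l → Nonempty (GSy l K z)

/-! ### consequences -/

/-- the global theorems -/
structure GlF {l : ℕ} [Fact l.Prime] {K : Type} [Field K] [NumberField K] {z : K}
    (G : GSy l K z) : Prop where
  hn : ∀ a b : Kˣ, (∀ P, G.hs P a b = 0) → b ∈ NGL l a
  inj : ∀ S : Finset (HeightOneSpectrum (𝓞 K)), AdmL l S → ∀ a ∈ US S, a ∈ KW l S →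
    a ∈ pw l (US S)
  du : ∀ S : Finset (HeightOneSpectrum (𝓞 K)), AdmL l S →
    ∀ ψ : Kˣ →* Multiplicative (ZMod l), FnL l S ψ → ∃ a ∈ US S, ∀ x : Kˣ,
      vl l ψ x = ∑ P ∈ S, G.hs P a x
  uq : ∀ c : HeightOneSpectrum (𝓞 K) → ZMod l,
    (∀ S : Finset (HeightOneSpectrum (𝓞 K)),
      (∀ P : HeightOneSpectrum (𝓞 K), 0 < ord P (l : K) → P ∈ S) →
      ∀ a ∈ US S, ∀ b ∈ US S, ∑ P ∈ S, c P * G.hs P a b = 0) → ∃ t : ZMod l, ∀ P, c P = t
  prm : ∀ S : Finset (HeightOneSpectrum (𝓞 K)), AdmL l S →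
    ∀ ψ : Kˣ →* Multiplicative (ZMod l), FnL l S ψ → ψ ≠ 1 → ∃ C : ℝ, ∀ s : ℝ, 1 < s → s ≤ 2 →
      ‖∑' Q : {Q : HeightOneSpectrum (𝓞 K) // Q ∉ S},
        ZMod.stdAddChar (vl l ψ (gen S Q.1)) * (((nrm Q.1 : ℝ) ^ (-s) : ℝ) : ℂ)‖ ≤ C
  g2 : ∀ S : Finset (HeightOneSpectrum (𝓞 K)), AdmL l S → ∀ γ : Kˣ,
    ∃ (Q : HeightOneSpectrum (𝓞 K)) (q : Kˣ), Q ∉ S ∧ ord Q (q : K) = 1 ∧
    (∀ R : HeightOneSpectrum (𝓞 K), R ∉ S → R ≠ Q → ord R (q : K) = 0) ∧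
    ∀ P ∈ S, q / γ ∈ WS l P
  hp : ∀ (r : ℕ) (a b : Fin r → Kˣ),
    (∀ P : HeightOneSpectrum (𝓞 K), TrL l z (Dec P) (fun i => (a i : K)) (fun i => (b i : K))) →
    TrL l z (⊤ : Subgroup (Gm K)) (fun i => (a i : K)) (fun i => (b i : K))

/-- the global theorems hold -/
def SGl : Prop := ∀ (l : ℕ) [Fact l.Prime], l ≠ 2 → ∀ (K : Type) [Field K] [NumberField K]
  (z : K), IsPrimitiveRoot z l → ∀ G : GSy l K z, GlF G

end Pool.Agent.H92.EL
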