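import Pool.Agent.H92.EL.BKDefs

/-!
# Project ELL (MP_a3214d), block B: frames of a number field `k` modulo an odd prime `l`,
definitions. `K = k(z)` with a primitive `l`-th root of unity `z`.
-/

set_option autoImplicit false

open scoped BigOperators Pointwise
open NumberField IsDedekindDomain

namespace Pool.Agent.H92.EL

open Pool.Agent.H98.MF (Om Gm ord Dec US PrS SUn mS nrm gen cj)

/-! ### homomorphisms of the Galois group of `k` -/

section

variable {l : ℕ} {k : Type} [Field k] [NumberField k]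

/-- continuous homomorphisms to `ZMod l` -/
structure HomL (h : Gm k → ZMod l) : Prop where
  lc : IsLocallyConstant h
  add : ∀ σ τ, h (σ * τ) = h σ + h τ

/-- the sum of the cup products of `a i` and `b i` is a coboundary on `D` -/
def Trv (D : Subgroup (Gm k)) {r : ℕ} (a b : Fin r → Gm k → ZMod l) : Prop :=
  ∃ f : Gm k → ZMod l, IsLocallyConstant f ∧ ∀ σ ∈ D, ∀ τ ∈ D,
    f (σ * τ) = f σ + f τ + ∑ i, a i σ * b i τ

end

/-! ### the extension `K = k(z)` -/

section

variable {l : ℕ} {k K : Type} [Field k] [NumberField k] [Field K] [NumberField K] [Algebra k K]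

/-- `K` is generated by the primitive root of unity `z`; an identification of the closures -/
structure CyX (l : ℕ) (k K : Type) [Field k] [NumberField k] [Field K] [NumberField K]
    [Algebra k K] (z : K) where
  prim : IsPrimitiveRoot z l
  gen : IntermediateField.adjoin k {z} = ⊤
  /-- the identification -/
  j : Om K ≃+* Om k
  j_alg : ∀ x : k, j (algebraMap K (Om K) (algebraMap k K x)) = algebraMap k (Om k) x

/-- the embedding of `K` in the closure of `k` -/
noncomputable def CyX.jK {z : K} (X : CyX l k K z) (x : K) : Om k := X.j (algebraMap K (Om K) x)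

/-- the Galois group of `K` in that of `k` -/
noncomputable def CyX.Th {z : K} (X : CyX l k K z) : Gm K →* Gm k where
  toFun σ := AlgEquiv.ofRingEquiv (f := (X.j.symm.trans (σ : Om K ≃+* Om K)).trans X.j) (by
    intro x
    have h : X.j.symm (algebraMap k (Om k) x) = algebraMap K (Om K) (algebraMap k K x) := by
      rw [← X.j_alg, RingEquiv.symm_apply_apply]
    simp only [RingEquiv.coe_trans, Function.comp_apply, h]
    have h2 : (σ : Om K ≃+* Om K) (algebraMap K (Om K) (algebraMap k K x)) =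
        algebraMap K (Om K) (algebraMap k K x) := σ.commutes _
    rw [h2, X.j_alg])
  map_one' := by
    ext x
    simp
  map_mul' σ τ := by
    ext x
    simp

theorem CyX.Th_apply {z : K} (X : CyX l k K z) (σ : Gm K) (x : Om K) :
    X.Th σ (X.j x) = X.j (σ x) := by
  simp [CyX.Th]

/-- `g` induces `δ` on `K` -/
def CyX.Rs {z : K} (X : CyX l k K z) (g : Gm k) (δ : K ≃ₐ[k] K) : Prop :=
  ∀ x : K, g (X.jK x) = X.jK (δ x)

/-- the classes of homomorphisms of the Galois group of `k` -/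
def Eqc (k : Type) {K : Type} [Field k] [NumberField k] [Field K] [NumberField K] [Algebra k K]
    [Fact l.Prime] {z : K} (hz : IsPrimitiveRoot z l) (c : Kˣ) : Prop :=
  ∀ δ : K ≃ₐ[k] K,
    uD δ c / c ^ ((cyK k hz δ : (ZMod l)ˣ) : ZMod l).val ∈ pw l (⊤ : Subgroup Kˣ)

/-- `c` is the class of `h` -/
def CyX.Is {z : K} (X : CyX l k K z) (h : Gm k → ZMod l) (c : Kˣ) : Prop :=
  ∀ σ : Gm K, h (X.Th σ) = chl l z (c : K) σ

/-- the decomposition group of `Q` is the conjugate by `g` of that of `p` -/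
def CyX.Cd {z : K} (X : CyX l k K z) (p : HeightOneSpectrum (𝓞 k)) (Q : HeightOneSpectrum (𝓞 K))
    (g : Gm k) : Prop :=
  ∀ σ : Gm K, σ ∈ Dec Q ↔ g⁻¹ * X.Th σ * g ∈ Dec p

/-- primes of `K` fixed by no element of the Galois group over `k` -/
def Rg (k : Type) {K : Type} [Field k] [NumberField k] [Field K] [NumberField K] [Algebra k K]
    (Q : HeightOneSpectrum (𝓞 K)) : Prop :=
  ∀ δ : K ≃ₐ[k] K, dP δ Q = Q → δ = 1

end

/-! ### frames of `k` -/

open Classical in
/-- frames of `k`: the interface with the counting of homomorphisms; `tau`, `phi` are the tame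
generators and the Frobenius elements -/
structure FrmL (l : ℕ) [Fact l.Prime] (k : Type) [Field k] [NumberField k]
    (tau phi : HeightOneSpectrum (𝓞 k) → Gm k) where
  /-- the exceptional primes -/
  S : Finset (HeightOneSpectrum (𝓞 k))
  cop : ∀ Q, Q ∉ S → Nat.Coprime (nrm Q) (l * (l - 1))
  /-- the system of primes -/
  sys : SysL l
  e_iff : ∀ u : (ZMod l)ˣ, (∃ g, sys.e g = u) ↔
    ∃ σ : Gm k, ∀ y : Om k, y ^ l = 1 → σ y = y ^ ((u : (ZMod l)ˣ) : ZMod l).val
  /-- the prime below -/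
  dn : sys.P → HeightOneSpectrum (𝓞 k)
  dn_iff : ∀ Q, (∃ p, dn p = Q) ↔ Q ∉ S
  dn_eq : ∀ p q, dn p = dn q ↔ ∃ g, sys.ac g p = q
  N_rg : ∀ p, sys.rg p → sys.N p = nrm (dn p)
  rg_iff : ∀ p, sys.rg p ↔ (nrm (dn p) : ZMod l) = 1
  /-- the class of a homomorphism -/
  cl : (Gm k → ZMod l) → sys.El
  cl_add : ∀ h h' : Gm k → ZMod l, HomL h → HomL h' → cl (fun σ => h σ + h' σ) = cl h + cl h'
  cl_inj : ∀ h : Gm k → ZMod l, HomL h → cl h = 0 → ∀ σ, h σ = 0
  cl_ac : ∀ h : Gm k → ZMod l, HomL h → ∀ g p,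
    (cl h).2 (sys.ac g p) = ((sys.e g)⁻¹ : (ZMod l)ˣ) * (cl h).2 p
  /-- the homomorphism ramified at a prime -/
  ch : sys.P → Gm k → ZMod l
  ch_hom : ∀ p, HomL (ch p)
  cl_ch : ∀ p, cl (ch p) = (0, ∑ g, Finsupp.single (sys.ac g p) (((sys.e g)⁻¹ : (ZMod l)ˣ) : ZMod l))
  /-- the values at the tame generators -/
  ka : sys.P → ZMod l
  ka_ne : ∀ p, sys.rg p → ka p ≠ 0
  ka_ac : ∀ g p, sys.rg p → ka (sys.ac g p) = sys.e g * ka p
  /-- the scaling of the symbols -/
  nu : sys.P → ZMod l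
  nu_ne : ∀ p, nu p ≠ 0
  nu_ac : ∀ g p, nu (sys.ac g p) = nu p
  /-- the contribution of the ramification to the values at the Frobenius elements -/
  la : sys.P → ZMod l
  tau_val : ∀ h : Gm k → ZMod l, HomL h → ∀ p, sys.rg p → h (tau (dn p)) = ka p * (cl h).2 p
  tau_irr : ∀ h : Gm k → ZMod l, HomL h → ∀ p, ¬ sys.rg p → h (tau (dn p)) = 0
  phi_val : ∀ h : Gm k → ZMod l, HomL h → ∀ p, sys.rg p →
    h (phi (dn p)) = nu p * sys.ex (cl h) p + la p * (cl h).2 p
  /-- the homomorphisms with local components in the complement of the units -/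
  lam : sys.T → Gm k → ZMod l
  lam_hom : ∀ t, HomL (lam t)
  lam_add : ∀ t t' σ, lam (t + t') σ = lam t σ + lam t' σ
  lam_ch : ∀ p, ∀ v ∈ S, ∀ σ ∈ Dec v, ch p σ = lam (sys.ty p) σ
  loc_ex : ∀ c : HeightOneSpectrum (𝓞 k) → Gm k → ZMod l,
    (∀ v ∈ S, IsLocallyConstant (c v) ∧ ∀ σ ∈ Dec v, ∀ τ ∈ Dec v, c v (σ * τ) = c v σ + c v τ) →
    ∃ (h : Gm k → ZMod l) (t : sys.T), HomL h ∧ (cl h).2 = 0 ∧
      ∀ v ∈ S, ∀ σ ∈ Dec v, c v σ = h σ + lam t σ
  loc_inj : ∀ (h : Gm k → ZMod l) (t : sys.T), HomL h → (cl h).2 = 0 →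
    (∀ v ∈ S, ∀ σ ∈ Dec v, h σ + lam t σ = 0) → ∀ σ, h σ = 0

end Pool.Agent.H92.EL
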