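import Pool.Agent.H92.EL.BAll
import Pool.Agent.H92.EL.BK10
import Pool.Agent.H92.EL.C3f

/-!
# Project ELL (MP_a3214d), block B: the results without hypotheses
-/

set_option autoImplicit false

open scoped BigOperators
open NumberField IsDedekindDomain

namespace Pool.Agent.H92.EL

theorem w_c3f : SC3f := sc3f x_c3g

/-- Kummer frames exist -/
theorem w_kfr : SKFr := y_kfr sk10

/-- the Hasse principle over `k` -/
theorem w_hp : SHpk := y_hp w_c3f

/-- frames exist -/
theorem w_frl : SFrL := y_frl w_c3f sk10

/-- frames in the form of block D -/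
theorem w_frI (l : ℕ) [Fact l.Prime] (hl : l ≠ 2) (k : Type) [Field k] [NumberField k]
    (t : TM k) : SFrI k l t.tau t.phi := y_frI w_c3f sk10 l hl k t

/-- local and global triviality -/
theorem w_hasK (l : ℕ) [Fact l.Prime] (hl : l ≠ 2) (k : Type) [Field k] [NumberField k]
    (t : TM k) : HasK k l t.tau t.phi := y_hasK w_c3f l hl k t

end Pool.Agent.H92.EL
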