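import Pool.Agent.H92.EL.BKStm
import Pool.Agent.H92.EL.Lg
import Pool.Agent.H98.MF.L.Ord

/-!
# Project ELL (MP_a3214d), block B, row BK17: the characters are nontrivial (helper30)
-/

set_option autoImplicit false

open scoped BigOperators
open NumberField IsDedekindDomain

namespace Pool.Agent.H92.EL

open Pool.Agent.H98.MF (Om Gm ord Dec US PrS mS nrm gen cj Pre preK ord_int_nonneg)

section

variable {l : ℕ} [Fact l.Prime] {K : Type} [Field K] [NumberField K]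

private theorem bk17_nrm (Q : HeightOneSpectrum (𝓞 K)) : 1 ≤ nrm Q :=
  le_trans one_le_two (Pool.Agent.H98.MF.two_le_absNorm Q)

private theorem bk17_le (Q : HeightOneSpectrum (𝓞 K)) (s : ℝ) (hs : 1 < s) :
    (nrm Q : ℝ) ^ (-s) ≤ 1 :=
  Real.rpow_le_one_of_one_le_of_nonpos (by exact_mod_cast bk17_nrm Q) (by linarith)

private theorem bk17_inf (hA : AnL l K) (hl : l ≠ 2) (a : Kˣ)
    (ha : a ∉ pw l (⊤ : Subgroup Kˣ)) :
    {Q : HeightOneSpectrum (𝓞 K) | ¬ LocW l Q (a : K)}.Infinite := by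
  classical
  intro hfin
  obtain ⟨C, hC⟩ := hA.n4
  obtain ⟨C', hC'⟩ := hA.n4a a ha
  set E : Set (HeightOneSpectrum (𝓞 K)) := {Q | ¬ LocW l Q (a : K)} with hE
  have hl3 : (3 : ℝ) ≤ l := by
    have h1 := (Fact.out : l.Prime).two_le
    have h2 : 3 ≤ l := by omega
    exact_mod_cast h2
  have key : ∀ M : ℝ, 0 ≤ M → (1 - 1 / (l : ℝ)) * M ≤ C + C' + hfin.toFinset.card := by
    intro M hM
    set s : ℝ := 1 + Real.exp (-M) with hs
    have h1 : 1 < s := by
      have := Real.exp_pos (-M)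
      linarith
    have h2 : s ≤ 2 := by
      have h3 : Real.exp (-M) ≤ 1 := Real.exp_le_one_iff.2 (by linarith)
      linarith
    have h3 : Real.log (1 / (s - 1)) = M := by
      rw [hs, add_sub_cancel_left, one_div, ← Real.exp_neg, neg_neg, Real.log_exp]
    have h4 := abs_le.1 (hC s h1 h2)
    have h5 := abs_le.1 (hC' s h1 h2)
    rw [h3] at h4 h5
    have hsum := hA.sm s h1
    have h6 := hsum.tsum_subtype_add_tsum_subtype_compl
      {Q : HeightOneSpectrum (𝓞 K) | LocW l Q (a : K)}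
    have hc : ({Q : HeightOneSpectrum (𝓞 K) | LocW l Q (a : K)}ᶜ :
        Set (HeightOneSpectrum (𝓞 K))) = (hfin.toFinset : Set (HeightOneSpectrum (𝓞 K))) := by
      rw [Set.Finite.coe_toFinset]
      rfl
    rw [hc] at h6
    have h7 : ∑' x : ((hfin.toFinset : Set (HeightOneSpectrum (𝓞 K))) :
        Set (HeightOneSpectrum (𝓞 K))), (nrm x.1 : ℝ) ^ (-s) =
        ∑ x ∈ hfin.toFinset, (nrm x : ℝ) ^ (-s) :=
      Finset.tsum_subtype' hfin.toFinset fun Q => (nrm Q : ℝ) ^ (-s)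
    have h8 : ∑ x ∈ hfin.toFinset, (nrm x : ℝ) ^ (-s) ≤ hfin.toFinset.card := by
      refine (Finset.sum_le_sum fun x _ => bk17_le x s h1).trans ?_
      rw [Finset.sum_const, nsmul_eq_mul, mul_one]
    have h9 : ∑' x : ({Q : HeightOneSpectrum (𝓞 K) | LocW l Q (a : K)} :
        Set (HeightOneSpectrum (𝓞 K))), (nrm x.1 : ℝ) ^ (-s) =
        ∑' Q : {Q : HeightOneSpectrum (𝓞 K) // LocW l Q (a : K)}, (nrm Q.1 : ℝ) ^ (-s) := rfl
    rw [h7, h9] at h6
    have h10 : (1 - 1 / (l : ℝ)) * M = M - 1 / (l : ℝ) * M := by ring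
    rw [h10]
    linarith [h4.1, h5.2]
  have h1 : (1 : ℝ) / l ≤ 1 / 3 := one_div_le_one_div_of_le (by norm_num) hl3
  set B : ℝ := C + C' + hfin.toFinset.card with hB
  have h2 := key (2 * (|B| + 1)) (by positivity)
  have h3 : (2 / 3 : ℝ) * (2 * (|B| + 1)) ≤ (1 - 1 / (l : ℝ)) * (2 * (|B| + 1)) :=
    mul_le_mul_of_nonneg_right (by linarith) (by positivity)
  have h4 := le_abs_self B
  have h5 := abs_nonneg B
  linarith

end

/-- **Row BK17**: the characters are nontrivial. -/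
theorem sk17 (h15 : SK15) (hA : SAn) : SK17 := by
  classical
  intro l _ hl k K _ _ _ _ _ z hz G S hS F f c hfc
  obtain ⟨e1, e2, e3⟩ := h15 l k K z hz G S hS F f c
  have hne : F.rep f c ∉ pw l (⊤ : Subgroup Kˣ) := by
    intro h
    obtain ⟨h1, h2⟩ := e3 h
    rcases hfc with h3 | h3
    · exact h3 h1
    · exact h3 h2
  have hinf := bk17_inf (hA l hl K z hz) hl (F.rep f c) hne
  obtain ⟨Q, hQ, hQ2⟩ := hinf.exists_notMem_finset
    (S ∪ f.support.image fun p : (preK S).P => (p.1 : HeightOneSpectrum (𝓞 K)))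
  rw [Finset.mem_union, not_or] at hQ2
  set p : (preK S).P := ⟨Q, hQ2.1⟩ with hp
  have hpf : p ∉ f.support := fun h => hQ2.2 (Finset.mem_image.2 ⟨p, h, rfl⟩)
  refine ⟨p, hpf, ?_⟩
  rw [e2 p hpf]
  refine mul_ne_zero (G.cc_ne _) fun h0 => hQ ?_
  have ho : ord Q (l : K) = 0 := by
    have h1 : ¬ 0 < ord Q (l : K) := fun h => hQ2.1 (hS.mem Q h)
    have h2 : 0 ≤ ord Q (((l : 𝓞 K) : 𝓞 K) : K) := ord_int_nonneg Q (l : 𝓞 K)
    have h3 : (((l : 𝓞 K) : 𝓞 K) : K) = (l : K) := by simp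
    rw [h3] at h2
    omega
  have hr : ord Q (F.rep f c : K) = 0 := by
    have h1 := e1 p
    rw [Finsupp.notMem_support_iff.1 hpf, ZMod.val_zero] at h1
    exact h1
  exact ((slg l Fact.out K z hz Q ho).2.2.1 (F.rep f c) hr).1 h0

end Pool.Agent.H92.EL
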