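import Pool.Agent.H92.EL.BKStm
import Pool.Agent.H92.EL.Sp

/-!
# Project ELL (MP_a3214d), block B: Galois extensions in which almost all primes split completely
-/

set_option autoImplicit false

open scoped BigOperators
open NumberField IsDedekindDomain

namespace Pool.Agent.H92.EL

open Pool.Agent.H98.MF (Om Gm ord Dec US PrS mS nrm gen cj Pre preK summable_nrm prm0_k
  two_le_absNorm)

theorem bk7_unb (C c : ℝ) (hc : 0 < c) : ∃ s : ℝ, 1 < s ∧ s ≤ 2 ∧
    C < c * Real.log (1 / (s - 1)) := by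
  refine ⟨1 + Real.exp (-(|C| / c + 1)), ?_, ?_, ?_⟩
  · have := Real.exp_pos (-(|C| / c + 1))
    linarith
  · have h1 : 0 ≤ |C| / c := div_nonneg (abs_nonneg _) hc.le
    have := Real.exp_le_one_iff.2 (show -(|C| / c + 1) ≤ 0 by linarith)
    linarith
  · rw [add_sub_cancel_left, one_div, ← Real.exp_neg, neg_neg, Real.log_exp, mul_add,
      mul_div_cancel₀ _ hc.ne']
    have := le_abs_self C
    linarith

section

variable {K : Type} [Field K] [NumberField K]

theorem bk7_le (P : HeightOneSpectrum (𝓞 K)) (s : ℝ) (hs : 1 < s) :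
    (nrm P : ℝ) ^ (-s) ≤ 1 := by
  have h1 : (1 : ℝ) ≤ nrm P := by
    have := two_le_absNorm P
    have h2 : 1 ≤ nrm P := this.trans' (by norm_num)
    exact_mod_cast h2
  exact Real.rpow_le_one_of_one_le_of_nonpos h1 (by linarith)

/-- there are infinitely many primes -/
theorem bk7_ex (S : Set (HeightOneSpectrum (𝓞 K))) (hS : S.Finite) :
    ∃ P : HeightOneSpectrum (𝓞 K), P ∉ S := by
  by_contra hc
  push Not at hc
  obtain ⟨C, h2⟩ := prm0_k (k := K)
  obtain ⟨s, hs1, hs2, hs3⟩ := bk7_unb (C + hS.toFinset.card) 1 one_pos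
  have h3 := h2 s hs1 hs2
  have h4 : ∑' Q : HeightOneSpectrum (𝓞 K), (nrm Q : ℝ) ^ (-s) ≤ hS.toFinset.card := by
    rw [tsum_eq_sum (s := hS.toFinset) (fun P hP => absurd (hS.mem_toFinset.2 (hc P)) hP)]
    refine (Finset.sum_le_card_nsmul _ _ 1 fun Q _ => bk7_le Q s hs1).trans ?_
    rw [nsmul_eq_mul, mul_one]
  rw [abs_le] at h3
  linarith [h3.1, h3.2]

open Classical in
/-- a Galois extension in which almost all primes split completely is trivial -/
theorem bk7_den (L : Type) [Field L] [NumberField L] [Algebra K L] [IsGalois K L]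
    (S : Set (HeightOneSpectrum (𝓞 K))) (hS : S.Finite)
    (h : ∀ P : HeightOneSpectrum (𝓞 K), P ∉ S →
      Nat.card {Q : HeightOneSpectrum (𝓞 L) // OvP P Q} = Module.finrank K L) :
    Module.finrank K L = 1 := by
  have : FiniteDimensional K L := FiniteDimensional.right ℚ K L
  have hn : 0 < Module.finrank K L := Module.finrank_pos
  by_contra hne
  have hn2 : 2 ≤ Module.finrank K L := by omega
  obtain ⟨C1, h1⟩ := ssp K L
  obtain ⟨C2, h2⟩ := prm0_k (k := K)
  obtain ⟨s, hs1, hs2, hs3⟩ := bk7_unb (C1 + C2 + hS.toFinset.card) (1 / 2) (by norm_num)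
  have k1 := h1 s hs1 hs2
  have k2 := h2 s hs1 hs2
  set A := ∑' P : {P : HeightOneSpectrum (𝓞 K) //
        Nat.card {Q : HeightOneSpectrum (𝓞 L) // OvP P Q} = Module.finrank K L},
      (nrm P.1 : ℝ) ^ (-s) with hA
  have hpos : ∀ P : HeightOneSpectrum (𝓞 K), 0 ≤ (nrm P : ℝ) ^ (-s) := fun P =>
    Real.rpow_nonneg (Nat.cast_nonneg _) _
  let Sp : Set (HeightOneSpectrum (𝓞 K)) := {P : HeightOneSpectrum (𝓞 K) |
        Nat.card {Q : HeightOneSpectrum (𝓞 L) // OvP P Q} = Module.finrank K L}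
  have hA2 : A = ∑' P, Sp.indicator (fun P => (nrm P : ℝ) ^ (-s)) P :=
    tsum_subtype Sp (fun P => (nrm P : ℝ) ^ (-s))
  have hB : ∑' P : HeightOneSpectrum (𝓞 K), (nrm P : ℝ) ^ (-s) ≤ A + hS.toFinset.card := by
    have hsum := summable_nrm (k := K) s hs1
    have hsI : Summable (Sp.indicator (fun P => (nrm P : ℝ) ^ (-s))) := hsum.indicator Sp
    have hsS : Summable (fun P : HeightOneSpectrum (𝓞 K) => if P ∈ hS.toFinset then (1 : ℝ)
        else 0) := summable_of_ne_finset_zero (s := hS.toFinset) fun P hP => if_neg hP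
    have hcard : ∑' P : HeightOneSpectrum (𝓞 K), (if P ∈ hS.toFinset then (1 : ℝ) else 0) =
        hS.toFinset.card := by
      rw [tsum_eq_sum (s := hS.toFinset) fun P hP => if_neg hP, Finset.sum_ite_mem,
        Finset.inter_self, Finset.sum_const, nsmul_eq_mul, mul_one]
    rw [hA2, ← hcard, ← hsI.tsum_add hsS]
    refine hsum.tsum_le_tsum (fun P => ?_) (hsI.add hsS)
    by_cases hP : P ∈ S
    · rw [if_pos (hS.mem_toFinset.2 hP)]
      have e1 := bk7_le P s hs1
      have e2 : 0 ≤ Sp.indicator (fun P => (nrm P : ℝ) ^ (-s)) P :=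
        Set.indicator_nonneg (fun P _ => hpos P) P
      linarith
    · rw [if_neg (fun h' => hP (hS.mem_toFinset.1 h')), add_zero,
        Set.indicator_of_mem (show P ∈ Sp from h P hP)]
  have hlog : 0 ≤ Real.log (1 / (s - 1)) := by
    apply Real.log_nonneg
    rw [le_div_iff₀ (by linarith)]
    linarith
  have hinv : 1 / (Module.finrank K L : ℝ) ≤ 1 / 2 := by
    apply one_div_le_one_div_of_le (by norm_num)
    exact_mod_cast hn2
  have hm := mul_le_mul_of_nonneg_right hinv hlog
  rw [abs_le] at k1 k2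
  linarith [k1.1, k1.2, k2.1, k2.2]

end

end Pool.Agent.H92.EL
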