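import Pool.Agent.H98.MF.Sys

/-!
# Project ELL (MP_a3214d), block C: systems of primes with symbols modulo an odd prime `l`,
definitions of the analytic part
-/

set_option autoImplicit false

open scoped BigOperators Topology
open Filter

namespace Pool.Agent.H92.EL

open Pool.Agent.H98.MF (Pre)

/-- the additive character -/
noncomputable def ec {l : ℕ} [NeZero l] (a : ZMod l) : ℂ := ZMod.stdAddChar a

open Classical in
/-- the multiplicative function attached to `g`, zero on ideals meeting `y` -/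
noncomputable def chc {l : ℕ} [NeZero l] (S : Pre) (y : Finset S.P) (g : S.P → ZMod l)
    (f : S.P →₀ ℕ) : ℂ :=
  if Disjoint f.support y then ec (f.sum fun p k => (k : ZMod l) * g p) else 0

/-- systems of primes of `K = k(μ_l)` with symbols modulo `l`: `s p q` is the (scaled) symbol of
the generator of `p` at `q`, `ty p` the symbols of the `S`-units at `p`, `D` the Galois group of
`K / k` with its cyclotomic character `e` -/
structure SysL (l : ℕ) [Fact l.Prime] extends Pre where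
  /-- the Galois group -/
  D : Type
  [grp : CommGroup D]
  [fnt : Fintype D]
  /-- the cyclotomic character -/
  e : D →* (ZMod l)ˣ
  e_inj : Function.Injective e
  /-- the action on the primes -/
  ac : D → P → P
  ac_one : ∀ p, ac 1 p = p
  ac_mul : ∀ g h p, ac (g * h) p = ac g (ac h p)
  N_ac : ∀ g p, N (ac g p) = N p
  /-- the number of `S`-units modulo powers -/
  m : ℕ
  /-- the symbols of the units -/
  ty : P → (Fin m → ZMod l)
  /-- the symbols of the primes -/
  s : P → P → ZMod l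
  symm : ∀ p q, p ≠ q → s p q = s q p
  s_ac : ∀ g p q, p ≠ q → s (ac g p) (ac g q) = (e g : ZMod l) * s p q
  /-- density -/
  κ : ℝ
  /-- constant -/
  C : ℝ
  /-- exponent of the modulus -/
  A : ℝ
  /-- saving -/
  δ : ℝ
  κ_pos : 0 < κ
  C_nonneg : 0 ≤ C
  A_nonneg : 0 ≤ A
  δ_pos : 0 < δ
  δ_le : δ ≤ 1
  cnt : ∀ X : ℝ, 1 ≤ X → |((toPre.idl X).card : ℝ) - κ * X| ≤ C * X ^ (1 - δ)
  chr : ∀ (f : P →₀ ZMod l) (c : Fin m → ZMod l), (f ≠ 0 ∨ c ≠ 0) → ∀ X : ℝ, 1 ≤ X →
    ‖∑ i ∈ toPre.idl X,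
      chc toPre f.support (fun p => (f.sum fun q t => t * s q p) + c ⬝ᵥ ty p) i‖ ≤
      C * (toPre.nm f.support : ℝ) ^ A * X ^ (1 - δ)
  prm0 : ∃ K : ℝ, ∀ s : ℝ, 1 < s → s ≤ 2 →
    |∑' p : P, (N p : ℝ) ^ (-s) - Real.log (1 / (s - 1))| ≤ K
  prm : ∀ c : Fin m → ZMod l, c ≠ 0 → ∃ K : ℝ, ∀ s : ℝ, 1 < s → s ≤ 2 →
    ‖∑' p : P, ec (c ⬝ᵥ ty p) * (((N p : ℝ) ^ (-s) : ℝ) : ℂ)‖ ≤ K
  irr : ∃ K : ℝ, ∀ F : Finset P, (∀ p ∈ F, ∃ g, g ≠ 1 ∧ ac g p = p) →
    ∑ p ∈ F, (N p : ℝ) ^ (-(3 / 4) : ℝ) ≤ K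

attribute [instance] SysL.grp SysL.fnt

namespace SysL

variable {l : ℕ} [Fact l.Prime] (S : SysL l)

/-- types -/
abbrev T : Type := Fin S.m → ZMod l

/-- classes: unit exponents and prime exponents -/
abbrev El : Type := (Fin S.m → ZMod l) × (S.P →₀ ZMod l)

/-- the exponent of the character of a class at `p` -/
noncomputable def ex (c : S.El) (p : S.P) : ZMod l := (c.2.sum fun q t => t * S.s q p) +
  c.1 ⬝ᵥ S.ty p

/-- primes of degree one over the base field -/
def rg (p : S.P) : Prop := ∀ g : S.D, S.ac g p = p → g = 1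

/-- the value at `p` of the character of the base field ramified at `q` -/
noncomputable def J (q p : S.P) : ZMod l :=
  ∑ g : S.D, ((S.e g)⁻¹ : (ZMod l)ˣ) * S.s (S.ac g q) p

/-- good families: primes of degree one, pairwise with different primes of the base field -/
def Gd {ι : Type} (x : ι → Finset S.P) : Prop :=
  (∀ u, ∀ p ∈ x u, S.rg p) ∧
  ∀ u v, ∀ p ∈ x u, ∀ q ∈ x v, ∀ g, S.ac g p = q → u = v ∧ p = q

/-- families prime to `M` -/
def Off {ι : Type} (M : Finset S.P) (x : ι → Finset S.P) : Prop := ∀ u, Disjoint (x u) M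

/-- stable sets of primes -/
def Stb (M : Finset S.P) : Prop := ∀ g, ∀ p ∈ M, S.ac g p ∈ M

/-- the type of a finite set of primes -/
def tys (x : Finset S.P) : S.T := ∑ p ∈ x, S.ty p

/-- weights close to `1` -/
def Tk (B : ℝ) (τ : S.P → ℝ) : Prop :=
  ∀ p, 0 ≤ τ p ∧ |τ p - 1| ≤ B * (S.N p : ℝ) ^ (-(1 / 2) : ℝ)

/-- the loss of a set of primes -/
noncomputable def ls (x : Finset S.P) : ℝ := Real.exp (∑ p ∈ x, 2 / (S.N p : ℝ))

open Classical in
/-- the nonempty variables -/
noncomputable def pat {ι : Type} [Fintype ι] (x : ι → Finset S.P) : Finset ι :=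
  Finset.univ.filter fun u => (x u).Nonempty

open Classical in
/-- the exponent of a family: `b u v` is the coefficient of the value at the primes of `x u` of
the characters ramified at the primes of `x v` -/
noncomputable def EE {ι : Type} [Fintype ι] (b : ι → ι → ZMod l) (c : ι → S.El)
    (x : ι → Finset S.P) : ZMod l :=
  ∑ u, ∑ v, b u v * ∑ p ∈ x u, ∑ q ∈ x v, (if p = q then 0 else S.J q p) +
    ∑ u, ∑ p ∈ x u, S.ex (c u) p

open Classical in
/-- the term of a family -/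
noncomputable def Kt {ι : Type} [Fintype ι] (τ : S.P → ℝ) (s : ℝ) (b : ι → ι → ZMod l)
    (c : ι → S.El) (M : Finset S.P) (x : ι → Finset S.P) : ℂ :=
  if S.Gd x ∧ S.Off M x then
    ec (S.EE b c x) * ((∏ u, ∏ p ∈ x u, (τ p * (S.N p : ℝ) ^ (-s)) : ℝ) : ℂ) else 0

open Classical in
/-- the sum over the families with given nonempty variables -/
noncomputable def PS {ι : Type} [Fintype ι] (τ : S.P → ℝ) (s : ℝ) (b : ι → ι → ZMod l)
    (c : ι → S.El) (M : Finset S.P) (U : Finset ι) : ℂ :=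
  ∑' x : ι → Finset S.P, if S.pat x = U then S.Kt τ s b c M x else 0

/-- linked variables -/
def Lk {ι : Type} (b : ι → ι → ZMod l) (u v : ι) : Prop :=
  ∃ g : S.D, b u v + ((S.e g)⁻¹ : (ZMod l)ˣ) * b v u ≠ 0

open Classical in
/-- the isolated variables of a pattern -/
noncomputable def iso {ι : Type} (b : ι → ι → ZMod l) (U : Finset ι) : Finset ι :=
  U.filter fun u => ∀ v ∈ U, ¬ S.Lk b u v

/-- consistency of the outer data -/
structure Ok {ι : Type} (c : ι → S.El) (M : Finset S.P) : Prop where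
  stb : S.Stb M
  sub : ∀ u, (c u).2.support ⊆ M

open Classical in
/-- the number of isolated variables with trivial outer character -/
noncomputable def wt {ι : Type} (b : ι → ι → ZMod l) (c : ι → S.El) (U : Finset ι) : ℕ :=
  ((S.iso b U).filter fun u => c u = 0).card

/-! ### the algebraic data -/

variable {d n : ℕ}

/-- the vectors -/
abbrev VV (l d : ℕ) : Type := Fin d → ZMod l

/-- an alternating bilinear map -/
structure BD (l d n : ℕ) where
  /-- the map -/
  B : VV l d →ₗ[ZMod l] VV l d →ₗ[ZMod l] VV l n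
  alt : ∀ v, B v v = 0

/-- representatives of the nonzero vectors modulo the cyclotomic character -/
structure Rep (R : Finset (VV l d)) : Prop where
  nz : (0 : VV l d) ∉ R
  ex : ∀ v : VV l d, v ≠ 0 → ∃ w ∈ R, ∃ g : S.D, v = (S.e g : ZMod l) • w
  un : ∀ v ∈ R, ∀ w ∈ R, ∀ g : S.D, v = (S.e g : ZMod l) • w → v = w

/-- outer characters: additive in the dual vector -/
def Adc (c : VV l d → VV l n → S.El) : Prop :=
  ∀ v ζ ζ', c v (ζ + ζ') = c v ζ + c v ζ'

/-- the condition at the primes of a family of sets indexed by the vectors -/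
def okc (Bd : BD l d n) (R : Finset (VV l d)) (c : VV l d → VV l n → S.El)
    (x : R → Finset S.P) : Prop :=
  ∀ v : R, ∀ p ∈ x v, ∀ ζ : VV l n,
    ∑ w : R, (∑ q ∈ x w, S.J q p) * (ζ ⬝ᵥ Bd.B w v) + S.ex (c v ζ) p = 0

open Classical in
/-- the number of dual vectors for `v` -/
noncomputable def nv (Bd : BD l d n) (c : VV l d → VV l n → S.El) (v : VV l d) : ℕ :=
  (Finset.univ.filter fun ζ : VV l n => c v ζ = 0 ∧ ∀ w, ζ ⬝ᵥ Bd.B w v = 0).card

/-- patterns that generate -/
def Gen (Bd : BD l d n) (R : Finset (VV l d)) (c : VV l d → VV l n → S.El)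
    (Φ : Finset R → Prop) : Prop :=
  ∀ U : Finset R, Φ U → ∀ v ∈ R, ∀ ζ : VV l n, c v ζ = 0 →
    (∀ w ∈ U, ζ ⬝ᵥ Bd.B w v = 0) → ∀ w, ζ ⬝ᵥ Bd.B w v = 0

/-- the exponent of the pole -/
noncomputable def bV (Bd : BD l d n) (R : Finset (VV l d)) (c : VV l d → VV l n → S.El) : ℕ :=
  ∑ v ∈ R, S.nv Bd c v

open Classical in
/-- the sum over the families satisfying the condition, with weights -/
noncomputable def FF (Bd : BD l d n) (R : Finset (VV l d)) (c : VV l d → VV l n → S.El)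
    (M : Finset S.P) (Φ : Finset R → Prop) (θ : (R → S.T) → ℝ) (τ : S.P → ℝ) (s : ℝ) : ℝ :=
  ∑' x : R → Finset S.P, if S.Gd x ∧ S.Off M x ∧ S.okc Bd R c x ∧ Φ (S.pat x)
    then θ (fun v => S.tys (x v)) * ∏ v, ∏ p ∈ x v, ((l : ℝ) ^ n * τ p * (S.N p : ℝ) ^ (-s))
    else 0

/-- the coefficients of the types: vectors and dual vectors -/
def bz (Bd : BD l d n) (R : Finset (VV l d)) (u v : R × VV l n) : ZMod l :=
  u.2 ⬝ᵥ Bd.B v.1 u.1

/-- the outer characters of the types -/
def cz (R : Finset (VV l d)) (c : VV l d → VV l n → S.El) (u : R × VV l n) : S.El :=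
  c u.1 u.2

/-! ### main terms -/

/-- the alternating forms giving maximal sets of unlinked types -/
structure Fam (Bd : BD l d n) (ψ : VV l d → VV l d → ZMod l) : Prop where
  add : ∀ w w' v, ψ (w + w') v = ψ w v + ψ w' v
  alt : ∀ w v, ψ w v = - ψ v w
  rep : ∀ v, ∃ ζ : VV l n, ∀ w, ψ w v = ζ ⬝ᵥ Bd.B w v
  triv : (∃ g : S.D, g ≠ 1) → ∀ w v, ψ w v = 0

/-- the outer characters of a fixed frame: functions of the types -/
def cT (c : VV l d → VV l n → S.T) (v : VV l d) (ζ : VV l n) : S.El := (c v ζ, 0)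

open Classical in
/-- the local factor of a form -/
noncomputable def gψ (Bd : BD l d n) (c : VV l d → VV l n → S.T)
    (ψ : VV l d → VV l d → ZMod l) (v : VV l d) (t : S.T) : ℂ :=
  ∑ ζ ∈ Finset.univ.filter (fun ζ : VV l n => ∀ w, ζ ⬝ᵥ Bd.B w v = ψ w v), ec (c v ζ ⬝ᵥ t)

open Classical in
/-- Euler products twisted by a function of the types -/
noncomputable def GE {ι : Type} [Fintype ι] (θ : (ι → S.T) → ℝ) (f : ι → S.T → ℂ)
    (τ : S.P → ℝ) (s : ℝ) : ℂ :=
  ∑' x : ι → Finset S.P, if S.Gd x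
    then (θ (fun v => S.tys (x v)) : ℂ) *
      ∏ v, ∏ p ∈ x v, (f v (S.ty p) * ((τ p * (S.N p : ℝ) ^ (-s) : ℝ) : ℂ))
    else 0

open Classical in
/-- the finite set of the forms -/
noncomputable def Fams (Bd : BD l d n) : Finset (VV l d → VV l d → ZMod l) :=
  Finset.univ.filter fun ψ => S.Fam Bd ψ

/-! ### the central part -/

/-- no prime of the family lies over the same prime as a prime of `y` -/
def Awy {ι : Type} (y : Finset S.P) (x : ι → Finset S.P) : Prop :=
  ∀ u, ∀ p ∈ x u, ∀ q ∈ y, ∀ g, S.ac g p ≠ q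

open Classical in
/-- the families of bounded norm away from `y`, weighted by a function of the types -/
noncomputable def CC {ι : Type} [Fintype ι] (y : Finset S.P) (g : (ι → S.T) → ℝ) (Y : ℝ) : ℝ :=
  ∑ x ∈ Fintype.piFinset (fun _ : ι => S.bx Y),
    if S.Gd x ∧ S.Awy y x ∧ ((∏ u, S.nm (x u) : ℕ) : ℝ) ≤ Y
    then g (fun u => S.tys (x u)) else 0

/-- the factor of the primes of `y` -/
noncomputable def ty0 (ι : Type) [Fintype ι] (y : Finset S.P) : ℝ :=
  ∏ p ∈ y, (1 + (Fintype.card ι * Fintype.card S.D : ℕ) / (S.N p : ℝ))⁻¹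

/-- the loss of the primes of `y` -/
noncomputable def lo (A0 : ℝ) (y : Finset S.P) : ℝ :=
  ∏ p ∈ y, (1 + A0 * (S.N p : ℝ) ^ (-(1 / 2) : ℝ))

end SysL

end Pool.Agent.H92.EL
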