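import Pool.Agent.H92.EL.AStm
import Pool.Agent.H92.EL.CDefs
import Pool.Agent.H98.MF.L.QuadX
import Pool.Agent.H98.MF.NK

/-!
# Project ELL (MP_a3214d), block B, the side of `K = k(μ_l)`: definitions
-/

set_option autoImplicit false

open scoped BigOperators
open NumberField IsDedekindDomain

namespace Pool.Agent.H92.EL

open Pool.Agent.H98.MF (Om Gm ord Dec US PrS mS nrm gen cj Pre preK)

section

variable {l : ℕ} [Fact l.Prime] {k K : Type} [Field k] [NumberField k] [Field K] [NumberField K]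
  [Algebra k K] {z : K}

/-- the cyclotomic character -/
noncomputable def cyK (k : Type) [Field k] [NumberField k] [Algebra k K]
    (hz : IsPrimitiveRoot z l) : (K ≃ₐ[k] K) →* (ZMod l)ˣ := hz.autToPow k

/-- the action on the primes -/
noncomputable def dP (δ : K ≃ₐ[k] K) (Q : HeightOneSpectrum (𝓞 K)) : HeightOneSpectrum (𝓞 K) :=
  cj δ.symm Q

/-- the action on the elements -/
noncomputable def uD (δ : K ≃ₐ[k] K) : Kˣ →* Kˣ := Units.map ((δ : K →+* K) : K →* K)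

theorem uD_val (δ : K ≃ₐ[k] K) (a : Kˣ) : ((uD δ a : Kˣ) : K) = δ (a : K) := rfl

/-- `K = k(μ_l)` -/
structure Cyl (k : Type) [Field k] [NumberField k] [Algebra k K] (hz : IsPrimitiveRoot z l) :
    Prop where
  gal : IsGalois k K
  inj : ∀ δ : K ≃ₐ[k] K, δ z = z → δ = 1

/-- the frame on the side of `K` -/
structure KFr (k : Type) [Field k] [NumberField k] [Algebra k K] (hz : IsPrimitiveRoot z l)
    (G : GSy l K z) (T : Finset (HeightOneSpectrum (𝓞 k))) where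
  /-- the places -/
  S : Finset (HeightOneSpectrum (𝓞 K))
  ovr : OvS T S
  adm : AdmL l S
  /-- the system of primes -/
  sys : SysL l
  m_eq : sys.m = mS S
  /-- the primes -/
  pl : sys.P → HeightOneSpectrum (𝓞 K)
  pl_inj : Function.Injective pl
  pl_iff : ∀ Q, (∃ p, pl p = Q) ↔ Q ∉ S
  N_eq : ∀ p, sys.N p = nrm (pl p)
  /-- the Galois group -/
  dg : sys.D ≃* (K ≃ₐ[k] K)
  e_eq : ∀ g, sys.e g = cyK k hz (dg g)
  ac_eq : ∀ g p, pl (sys.ac g p) = dP (dg g) (pl p)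
  /-- the basis of the units -/
  u : Fin sys.m → Kˣ
  /-- the basis of the complement -/
  w : Fin sys.m → Kˣ
  /-- the generators of the primes -/
  pi : sys.P → Kˣ
  u_mem : ∀ j, u j ∈ US S
  u_gen : ∀ a ∈ US S, ∃ c : Fin sys.m → ZMod l,
    a / ∏ j, u j ^ (c j).val ∈ pw l (US S)
  u_ind : ∀ c : Fin sys.m → ZMod l, ∏ j, u j ^ (c j).val ∈ pw l (⊤ : Subgroup Kˣ) → c = 0
  pi_self : ∀ p, ord (pl p) (pi p : K) = 1
  pi_other : ∀ p, ∀ Q, Q ∉ S → Q ≠ pl p → ord Q (pi p : K) = 0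
  ty_eq : ∀ p j, sys.ty p j = G.cc (pl p) * lgs l z (pl p) (u j : K)
  s_eq : ∀ p q, p ≠ q → sys.s p q = G.cc (pl q) * lgs l z (pl q) (pi p : K)
  s_self : ∀ p, sys.s p p = 0
  uw : ∀ i j, ∑ P ∈ S, G.hs P (u i) (w j) = if i = j then -1 else 0
  ww : ∀ i j, ∑ P ∈ S, G.hs P (w i) (w j) = 0
  loc : ∀ p, pi p / ∏ j, w j ^ (sys.ty p j).val ∈ KW l S
  gen : ∀ c : HeightOneSpectrum (𝓞 K) → Kˣ, ∃ x y : Fin sys.m → ZMod l, ∀ P ∈ S,
    c P / ((∏ j, u j ^ (x j).val) * ∏ j, w j ^ (y j).val) ∈ WS l P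
  ind : ∀ x y : Fin sys.m → ZMod l,
    (∏ j, u j ^ (x j).val) * ∏ j, w j ^ (y j).val ∈ KW l S → x = 0 ∧ y = 0
  pi_ac : ∀ g p, uD (dg g) (pi p) / pi (sys.ac g p) ∈ pw l (⊤ : Subgroup Kˣ)
  w_ac : ∀ g j, ∃ c : Fin sys.m → ZMod l,
    uD (dg g) (w j) / ∏ i, w i ^ (c i).val ∈ KW l S
  cc_ac : ∀ (δ : K ≃ₐ[k] K) (P : HeightOneSpectrum (𝓞 K)), P ∉ S → G.cc (dP δ P) = G.cc P
  eqv : ∀ (δ : K ≃ₐ[k] K) (P : HeightOneSpectrum (𝓞 K)) (a b : Kˣ),
    G.hs (dP δ P) (uD δ a) (uD δ b) = (cyK k hz δ : ZMod l) * G.hs P a b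

/-! ### the parts -/

/-- stable complement of the units at `S` -/
structure LgW (k : Type) [Field k] [NumberField k] [Algebra k K] (G : GSy l K z)
    (S : Finset (HeightOneSpectrum (𝓞 K))) (W : Subgroup Kˣ) : Prop where
  le : KW l S ≤ W
  stb : ∀ δ : K ≃ₐ[k] K, ∀ x ∈ W, uD δ x ∈ W
  iso : ∀ x ∈ W, ∀ y ∈ W, ∑ P ∈ S, G.hs P x y = 0
  sup : ∀ x : Kˣ, ∃ u ∈ US S, x / u ∈ W
  inf : ∀ u ∈ US S, u ∈ W → u ∈ pw l (US S)

/-- the algebraic part of the frame -/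
structure CFl (k : Type) [Field k] [NumberField k] [Algebra k K] (G : GSy l K z)
    (S : Finset (HeightOneSpectrum (𝓞 K))) where
  /-- the basis of the units -/
  u : Fin (mS S) → Kˣ
  /-- the basis of the complement -/
  w : Fin (mS S) → Kˣ
  /-- the generators of the primes -/
  pi : (preK S).P → Kˣ
  u_mem : ∀ j, u j ∈ US S
  u_gen : ∀ a ∈ US S, ∃ c : Fin (mS S) → ZMod l, a / ∏ j, u j ^ (c j).val ∈ pw l (US S)
  u_ind : ∀ c : Fin (mS S) → ZMod l, ∏ j, u j ^ (c j).val ∈ pw l (⊤ : Subgroup Kˣ) → c = 0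
  uw : ∀ i j, ∑ P ∈ S, G.hs P (u i) (w j) = if i = j then -1 else 0
  ww : ∀ i j, ∑ P ∈ S, G.hs P (w i) (w j) = 0
  pi_self : ∀ p, ord p.1 (pi p : K) = 1
  pi_other : ∀ p, ∀ Q, Q ∉ S → Q ≠ p.1 → ord Q (pi p : K) = 0
  loc : ∀ p, pi p / ∏ j, w j ^ (G.cc p.1 * lgs l z p.1 (u j : K)).val ∈ KW l S
  pi_ac : ∀ (δ : K ≃ₐ[k] K) (p q : (preK S).P), q.1 = dP δ p.1 →
    uD δ (pi p) / pi q ∈ pw l (⊤ : Subgroup Kˣ)
  w_ac : ∀ (δ : K ≃ₐ[k] K) (j : Fin (mS S)), ∃ c : Fin (mS S) → ZMod l,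
    uD δ (w j) / ∏ i, w i ^ (c i).val ∈ KW l S
  gen : ∀ c : HeightOneSpectrum (𝓞 K) → Kˣ, ∃ x y : Fin (mS S) → ZMod l, ∀ P ∈ S,
    c P / ((∏ j, u j ^ (x j).val) * ∏ j, w j ^ (y j).val) ∈ WS l P
  ind : ∀ x y : Fin (mS S) → ZMod l,
    (∏ j, u j ^ (x j).val) * ∏ j, w j ^ (y j).val ∈ KW l S → x = 0 ∧ y = 0

namespace CFl

variable {G : GSy l K z} {S : Finset (HeightOneSpectrum (𝓞 K))} (F : CFl k G S)

/-- the types -/
noncomputable def ty (p : (preK S).P) (j : Fin (mS S)) : ZMod l :=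
  G.cc p.1 * lgs l z p.1 (F.u j : K)

open Classical in
/-- the symbols of the primes -/
noncomputable def s (p q : (preK S).P) : ZMod l :=
  if p = q then 0 else G.cc q.1 * lgs l z q.1 (F.pi p : K)

/-- the exponent of the character of a class -/
noncomputable def gF (f : (preK S).P →₀ ZMod l) (c : Fin (mS S) → ZMod l) (p : (preK S).P) :
    ZMod l := (f.sum fun q t => t * F.s q p) + c ⬝ᵥ F.ty p

/-- the element of a class -/
noncomputable def rep (f : (preK S).P →₀ ZMod l) (c : Fin (mS S) → ZMod l) : Kˣ :=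
  (∏ j, F.u j ^ (c j).val) * f.prod fun q t => F.pi q ^ t.val

end CFl

/-- `g` is trivial on elements close to `1` at `S` and `y` -/
def LocL (l : ℕ) (S : Finset (HeightOneSpectrum (𝓞 K))) (n : ℕ) (y : Finset (preK S).P)
    (g : (preK S).P → ZMod l) : Prop :=
  ∀ γ : K, γ ≠ 0 → (∀ Q ∈ S, γ = 1 ∨ (n : ℤ) ≤ ord Q (γ - 1)) →
    (∀ Q ∈ y, γ = 1 ∨ 1 ≤ ord Q.1 (γ - 1)) →
    ∑ᶠ Q : (preK S).P, ((if Q ∈ y then 0 else ord Q.1 γ : ℤ) : ZMod l) * g Q = 0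

end

end Pool.Agent.H92.EL
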