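import Pool.Agent.H92.EL.BK1
import Pool.Agent.H92.EL.BK2
import Pool.Agent.H92.EL.BK3
import Pool.Agent.H92.EL.BK4
import Pool.Agent.H92.EL.BK5
import Pool.Agent.H92.EL.BK6
import Pool.Agent.H92.EL.BK7
import Pool.Agent.H92.EL.BK8
import Pool.Agent.H92.EL.BK9
import Pool.Agent.H92.EL.BK10
import Pool.Agent.H92.EL.BK11
import Pool.Agent.H92.EL.BK12
import Pool.Agent.H92.EL.BK13
import Pool.Agent.H92.EL.BK14
import Pool.Agent.H92.EL.BK15
import Pool.Agent.H92.EL.BK16
import Pool.Agent.H92.EL.BK17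
import Pool.Agent.H92.EL.BK18
import Pool.Agent.H92.EL.BK19
import Pool.Agent.H92.EL.BK20
import Pool.Agent.H92.EL.BKFr

/-!
# End of block (B), K side

All rows BK1, ..., BK20 together: the Kummer frame statement `SKFr` from the two facts
`SCI`, `SAn` of block (A).
-/

set_option autoImplicit false
set_option linter.all false

namespace Pool.Agent.H92.EL

theorem skfr_of (h10 : SK10) (hI : SCI) (hA : SAn) : SKFr :=
  have h4 : SK4 := sk4 sk1
  have h6 : SK6 := sk6 sk1 h4 sk5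
  have h7 : SK7 := sk7 sk1 sk2 sk3 h6
  have h9 : SK9 := sk9 sk1 sk3 sk8 hI
  have h12 : SK12 := sk12 sk1 sk3 h10 sk11
  have h16 : SK16 := sk16 sk15
  have h17 : SK17 := sk17 sk15 hA
  skfr sk1 sk3 h7 h9 h12 sk13 (sk14 sk1) h16 h17 sk18 sk19 (sk20 sk1)

theorem skfrE (hI : SCI) (hA : SAn) : SKFr := skfr_of sk10 hI hA

end Pool.Agent.H92.EL
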