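import Pool.Agent.H92.EL.BLHasK

/-!
# Project ELL (MP_a3214d), block B: from the frame of `k` to the frame used in block D
-/

set_option autoImplicit false

open scoped BigOperators
open NumberField IsDedekindDomain

namespace Pool.Agent.H92.EL

open Pool.Agent.H98.MF (Om Gm Dec nrm)

section

variable {l : ℕ} [Fact l.Prime] {k : Type} [Field k] [NumberField k]
  {tau phi : HeightOneSpectrum (𝓞 k) → Gm k} (F : FrmL l k tau phi)

theorem sysL_nonempty (S : SysL l) : Nonempty S.P := by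
  by_contra hne
  rw [not_nonempty_iff] at hne
  obtain ⟨K, hK⟩ := S.prm0
  have hK0 : 0 ≤ |K| := abs_nonneg K
  have h1 := hK (1 + Real.exp (-(|K| + 1))) (by linarith [Real.exp_pos (-(|K| + 1))]) (by
    have : Real.exp (-(|K| + 1)) ≤ 1 := by
      rw [Real.exp_le_one_iff]
      linarith
    linarith)
  rw [tsum_empty, zero_sub, abs_neg] at h1
  have h2 : Real.log (1 / (1 + Real.exp (-(|K| + 1)) - 1)) = |K| + 1 := by
    rw [add_sub_cancel_left, one_div, Real.log_inv, Real.log_exp, neg_neg]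
  rw [h2, abs_of_nonneg (by linarith)] at h1
  linarith [le_abs_self K]

/-- the zero homomorphism -/
theorem homL_zero : HomL (fun _ : Gm k => (0 : ZMod l)) :=
  ⟨IsLocallyConstant.const 0, fun _ _ => by rw [add_zero]⟩

theorem homL_smul {h : Gm k → ZMod l} (hh : HomL h) (c : ZMod l) : HomL fun σ => c * h σ :=
  ⟨hh.lc.comp fun x => c * x, fun σ τ => by
    show c * h (σ * τ) = _
    rw [hh.add, mul_add]⟩

theorem homL_add {h h' : Gm k → ZMod l} (a : HomL h) (b : HomL h') :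
    HomL fun σ => h σ + h' σ := by
  constructor
  · rw [IsLocallyConstant.iff_eventually_eq]
    intro x
    filter_upwards [(IsLocallyConstant.iff_eventually_eq h).1 a.lc x,
      (IsLocallyConstant.iff_eventually_eq h').1 b.lc x] with y hy hy'
    rw [hy, hy']
  · intro σ τ
    rw [a.add, b.add]
    ring

namespace FrmL

theorem cl_zero : F.cl (fun _ => 0) = 0 := by
  have h := F.cl_add (fun _ => 0) (fun _ => 0) homL_zero homL_zero
  simp only [add_zero] at h
  have h2 : F.cl (fun _ => (0 : ZMod l)) + F.cl (fun _ => (0 : ZMod l)) =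
    F.cl (fun _ => (0 : ZMod l)) + 0 := by rw [add_zero]; exact h.symm
  exact add_left_cancel h2

theorem cl_nat {h : Gm k → ZMod l} (hh : HomL h) (n : ℕ) :
    F.cl (fun σ => (n : ZMod l) * h σ) = n • F.cl h := by
  induction n with
  | zero => simpa using F.cl_zero
  | succ n ih =>
    have h1 := F.cl_add _ _ (homL_smul hh (n : ZMod l)) hh
    rw [ih] at h1
    rw [succ_nsmul, ← h1]
    congr 1
    funext σ
    push_cast
    ring

theorem cl_smul {h : Gm k → ZMod l} (hh : HomL h) (c : ZMod l) :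
    F.cl (fun σ => c * h σ) = c • F.cl h := by
  have h1 := F.cl_nat hh c.val
  rw [ZMod.natCast_zmod_val] at h1
  rw [h1, ← Nat.cast_smul_eq_nsmul (ZMod l), ZMod.natCast_zmod_val]

theorem irr_zero {h : Gm k → ZMod l} (hh : HomL h) {p : F.sys.P} (hp : ¬ F.sys.rg p) :
    (F.cl h).2 p = 0 := by
  unfold SysL.rg at hp
  push Not at hp
  obtain ⟨g, hg, hg1⟩ := hp
  have h1 := F.cl_ac h hh g p
  rw [hg] at h1
  by_contra h0
  apply hg1
  apply F.sys.e_inj
  rw [map_one]
  have h2 : (((F.sys.e g)⁻¹ : (ZMod l)ˣ) : ZMod l) = 1 := by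
    have h3 : (((F.sys.e g)⁻¹ : (ZMod l)ˣ) : ZMod l) * (F.cl h).2 p = 1 * (F.cl h).2 p := by
      rw [one_mul]
      exact h1.symm
    exact mul_right_cancel₀ h0 h3
  have h4 : (F.sys.e g)⁻¹ = 1 := Units.ext h2
  rwa [inv_eq_one] at h4

theorem dn_not (p : F.sys.P) : F.dn p ∉ F.S := (F.dn_iff _).1 ⟨p, rfl⟩

/-- ramification and the prime part -/
theorem tau_zero_iff {h : Gm k → ZMod l} (hh : HomL h) (p : F.sys.P) :
    h (tau (F.dn p)) = 0 ↔ (F.cl h).2 p = 0 := by
  by_cases hp : F.sys.rg p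
  · rw [F.tau_val h hh p hp]
    constructor
    · intro h0
      exact (mul_eq_zero.1 h0).resolve_left (F.ka_ne p hp)
    · intro h0
      rw [h0, mul_zero]
  · exact ⟨fun _ => F.irr_zero hh hp, fun _ => F.tau_irr h hh p hp⟩

/-- the homomorphisms unramified outside `S` -/
theorem unr_iff {h : Gm k → ZMod l} (hh : HomL h) :
    (F.cl h).2 = 0 ↔ ∀ P, P ∉ F.S → h (tau P) = 0 := by
  constructor
  · intro h0 P hP
    obtain ⟨p, rfl⟩ := (F.dn_iff P).2 hP
    rw [F.tau_zero_iff hh, h0]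
    rfl
  · intro h0
    ext p
    rw [Finsupp.zero_apply, ← F.tau_zero_iff hh]
    exact h0 _ (F.dn_not p)

open Classical in
theorem cl_ch_apply (p q : F.sys.P) : (F.cl (F.ch p)).2 q =
    ∑ g, if F.sys.ac g p = q then (((F.sys.e g)⁻¹ : (ZMod l)ˣ) : ZMod l) else 0 := by
  rw [F.cl_ch]
  show (∑ g, Finsupp.single (F.sys.ac g p) (((F.sys.e g)⁻¹ : (ZMod l)ˣ) : ZMod l)) q = _
  rw [Finsupp.finset_sum_apply]
  exact Finset.sum_congr rfl fun g _ => by rw [Finsupp.single_apply]

theorem cl_ch_ne {p q : F.sys.P} (h : F.dn p ≠ F.dn q) : (F.cl (F.ch p)).2 q = 0 := by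
  classical
  rw [F.cl_ch_apply]
  refine Finset.sum_eq_zero fun g _ => ?_
  rw [if_neg]
  intro h2
  exact h ((F.dn_eq p q).2 ⟨g, h2⟩)

theorem cl_ch_self {p : F.sys.P} (hp : F.sys.rg p) : (F.cl (F.ch p)).2 p = 1 := by
  classical
  rw [F.cl_ch_apply, Finset.sum_eq_single 1]
  · rw [F.sys.ac_one, if_pos rfl, map_one, inv_one, Units.val_one]
  · intro g _ hg
    rw [if_neg]
    intro h2
    exact hg (hp g h2)
  · intro h
    exact absurd (Finset.mem_univ _) h

theorem ex_ch (p q : F.sys.P) : F.sys.ex (F.cl (F.ch p)) q = F.sys.J p q := by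
  classical
  rw [F.cl_ch]
  unfold SysL.ex SysL.J
  show (∑ g, Finsupp.single (F.sys.ac g p) (((F.sys.e g)⁻¹ : (ZMod l)ˣ) : ZMod l)).sum
    (fun q' t => t * F.sys.s q' q) + (0 : Fin F.sys.m → ZMod l) ⬝ᵥ F.sys.ty q = _
  rw [zero_dotProduct, add_zero, ← Finsupp.sum_finset_sum_index (h := fun q' t => t * F.sys.s q' q)]
  · refine Finset.sum_congr rfl fun g _ => ?_
    rw [Finsupp.sum_single_index]
    rw [zero_mul]
  · intro a
    rw [zero_mul]
  · intro a b c
    rw [add_mul]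

theorem rg_ac {p : F.sys.P} (g : F.sys.D) : F.sys.rg (F.sys.ac g p) ↔ F.sys.rg p := by
  rw [F.rg_iff, F.rg_iff, (F.dn_eq p (F.sys.ac g p)).2 ⟨g, rfl⟩]

end FrmL

end

end Pool.Agent.H92.EL
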