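import Pool.Agent.H92.EL.BStm

/-!
# Project ELL (MP_a3214d), block B, row BL12: primes of degree one
-/

set_option autoImplicit false

open scoped BigOperators Pointwise
open NumberField IsDedekindDomain

namespace Pool.Agent.H92.EL

open Pool.Agent.H98.MF (Om Gm ord Dec US PrS mS nrm gen cj Pre preK qxR qxR_coe)

section

variable {k K : Type} [Field k] [NumberField k] [Field K] [NumberField K] [Algebra k K]

omit [NumberField K] in
theorem blrg_l (l : ℕ) (p : HeightOneSpectrum (𝓞 k)) (Q : HeightOneSpectrum (𝓞 K))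
    (hQ : OvP p Q) (hc : Nat.Coprime (nrm p) l) : ((l : ℕ) : 𝓞 K) ∉ Q.asIdeal := by
  intro hl
  have h1 : ((nrm p : ℕ) : 𝓞 k) ∈ p.asIdeal := Ideal.absNorm_mem _
  have h2 : ((nrm p : ℕ) : 𝓞 K) ∈ Q.asIdeal := by
    have h3 : ((nrm p : ℕ) : 𝓞 k) ∈ Q.asIdeal.comap (algebraMap (𝓞 k) (𝓞 K)) := by
      unfold OvP at hQ
      rw [hQ]
      exact h1
    rw [Ideal.mem_comap, map_natCast] at h3
    exact h3
  apply Q.isPrime.ne_top
  rw [Ideal.eq_top_iff_one]
  obtain ⟨a, b, hab⟩ := Nat.isCoprime_iff_coprime.2 hc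
  have h3 : (a : 𝓞 K) * (nrm p : 𝓞 K) + (b : 𝓞 K) * (l : 𝓞 K) = 1 := by
    have h4 := congrArg (fun t : ℤ => (t : 𝓞 K)) hab
    push_cast at h4
    exact h4
  rw [← h3]
  exact Q.asIdeal.add_mem (Q.asIdeal.mul_mem_left _ h2) (Q.asIdeal.mul_mem_left _ hl)

omit [NumberField K] in
theorem blrg_root (l : ℕ) (Q : HeightOneSpectrum (𝓞 K)) (hl : ((l : ℕ) : 𝓞 K) ∉ Q.asIdeal)
    (ζ : 𝓞 K) (h1 : ζ ^ l = 1) (h2 : ζ - 1 ∈ Q.asIdeal) : ζ = 1 := by
  by_contra hne
  apply hl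
  have h3 : (∑ i ∈ Finset.range l, ζ ^ i) * (ζ - 1) = 0 := by
    rw [geom_sum_mul, h1, sub_self]
  have h4 : ∑ i ∈ Finset.range l, ζ ^ i = 0 :=
    (mul_eq_zero.1 h3).resolve_right (sub_ne_zero.2 hne)
  have h5 : ∀ i : ℕ, 1 - ζ ^ i ∈ Q.asIdeal := by
    intro i
    have h6 := sub_dvd_pow_sub_pow ζ 1 i
    rw [one_pow] at h6
    have h7 := Q.asIdeal.neg_mem (Ideal.mem_of_dvd _ h6 h2)
    rwa [neg_sub] at h7
  have h6 : ∑ i ∈ Finset.range l, (1 - ζ ^ i) ∈ Q.asIdeal := Ideal.sum_mem _ fun i _ => h5 i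
  rw [Finset.sum_sub_distrib, h4, sub_zero, Finset.sum_const, Finset.card_range,
    nsmul_eq_mul, mul_one] at h6
  exact h6

theorem blrg_card (F : Type) [Field F] (q : ℕ) (hq : 1 < q) (Z : Finset F)
    (h : ∀ x ∈ Z, x ^ q = x) : Z.card ≤ q := by
  have h1 : (Polynomial.X ^ q - Polynomial.X : Polynomial F).natDegree = q :=
    FiniteField.X_pow_card_sub_X_natDegree_eq F hq
  have h0 : (Polynomial.X ^ q - Polynomial.X : Polynomial F) ≠ 0 :=
    FiniteField.X_pow_card_sub_X_ne_zero F hq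
  rw [← h1]
  refine Polynomial.card_le_degree_of_subset_roots fun x hx => ?_
  rw [Polynomial.mem_roots h0, Polynomial.IsRoot.def, Polynomial.eval_sub, Polynomial.eval_pow,
    Polynomial.eval_X, sub_eq_zero]
  exact h x hx

theorem blrg_nrm (p : HeightOneSpectrum (𝓞 k)) : Nat.card (𝓞 k ⧸ p.asIdeal) = nrm p := by
  unfold nrm
  rw [Ideal.absNorm_apply, Submodule.cardQuot_apply]

theorem blrg_fin (p : HeightOneSpectrum (𝓞 k)) : Finite (𝓞 k ⧸ p.asIdeal) :=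
  Ideal.finiteQuotientOfFreeOfNeBot p.asIdeal p.ne_bot

/-- the residue field of `p` in that of `Q` -/
theorem blrg_sub (p : HeightOneSpectrum (𝓞 k)) (Q : HeightOneSpectrum (𝓞 K)) (hQ : OvP p Q) :
    1 < nrm p ∧ ∃ Z : Finset (𝓞 K ⧸ Q.asIdeal), Z.card = nrm p ∧ (∀ x ∈ Z, x ^ nrm p = x) ∧
      ∀ x ∈ Z, ∃ a : 𝓞 k, x = Ideal.Quotient.mk Q.asIdeal (algebraMap (𝓞 k) (𝓞 K) a) := by
  classical
  have := blrg_fin p
  have := Fintype.ofFinite (𝓞 k ⧸ p.asIdeal)
  have := p.isMaximal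
  have := Q.isMaximal
  let _ := Ideal.Quotient.field p.asIdeal
  let _ := Ideal.Quotient.field Q.asIdeal
  have hle : p.asIdeal ≤ Q.asIdeal.comap (algebraMap (𝓞 k) (𝓞 K)) := by
    unfold OvP at hQ
    rw [hQ]
  obtain ⟨φ, hφ⟩ : ∃ φ : 𝓞 k ⧸ p.asIdeal →+* 𝓞 K ⧸ Q.asIdeal,
      φ = Ideal.quotientMap Q.asIdeal (algebraMap (𝓞 k) (𝓞 K)) hle := ⟨_, rfl⟩
  have hcard : Fintype.card (𝓞 k ⧸ p.asIdeal) = nrm p := by
    rw [← blrg_nrm p, Nat.card_eq_fintype_card]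
  refine ⟨?_, Finset.univ.image φ, ?_, ?_, ?_⟩
  · rw [← hcard]
    exact Fintype.one_lt_card
  · rw [Finset.card_image_of_injective _ φ.injective, Finset.card_univ, hcard]
  · intro x hx
    obtain ⟨y, _, rfl⟩ := Finset.mem_image.1 hx
    rw [← map_pow, ← hcard, FiniteField.pow_card]
  · intro x hx
    obtain ⟨y, _, rfl⟩ := Finset.mem_image.1 hx
    obtain ⟨a, rfl⟩ := Ideal.Quotient.mk_surjective y
    refine ⟨a, ?_⟩
    rw [hφ, Ideal.quotientMap_mk]

theorem blrg_frob [IsGalois k K] (p : HeightOneSpectrum (𝓞 k)) (Q : HeightOneSpectrum (𝓞 K))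
    (hQ : OvP p Q) (hR : Rg k Q) (x : 𝓞 K) : x - x ^ nrm p ∈ Q.asIdeal := by
  have : Finite (𝓞 K ⧸ Q.asIdeal) := blrg_fin Q
  have := Q.isPrime
  have : FiniteDimensional k K := FiniteDimensional.right ℚ k K
  obtain ⟨σ, hσ⟩ := IsArithFrobAt.exists_of_isInvariant (𝓞 k) (K ≃ₐ[k] K) Q.asIdeal
  have hcard : Nat.card (𝓞 k ⧸ Q.asIdeal.under (𝓞 k)) = nrm p := by
    have h1 : Q.asIdeal.under (𝓞 k) = p.asIdeal := hQ
    rw [h1]
    exact blrg_nrm p
  have h1 : ∀ y : 𝓞 K, σ • y - y ^ nrm p ∈ Q.asIdeal := by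
    intro y
    have h2 := hσ y
    rw [hcard] at h2
    exact h2
  have h2 : dP σ Q = Q := by
    apply HeightOneSpectrum.ext
    symm
    refine Q.isMaximal.eq_of_le (dP σ Q).isPrime.ne_top fun x hx => ?_
    show qxR σ.symm x ∈ Q.asIdeal
    have h3 := h1 (qxR σ.symm x)
    have h4 : σ • (qxR σ.symm x) = x := by
      apply RingOfIntegers.ext
      show σ (σ.symm (x : K)) = (x : K)
      exact σ.apply_symm_apply _
    rw [h4] at h3
    have h5 : qxR σ.symm x ^ nrm p ∈ Q.asIdeal := by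
      have h6 := Q.asIdeal.sub_mem hx h3
      rwa [sub_sub_cancel] at h6
    exact Q.isPrime.mem_of_pow_mem _ h5
  have h3 := h1 x
  rw [hR σ h2, one_smul] at h3
  exact h3

end

theorem srgk (h1 : SK1) (h3 : SK3) : SRgk := by
  classical
  intro l hl k K _ _ _ _ _ z hz hC p Q hQ hcop
  have _ := h1
  have _ := h3
  have hlp : l.Prime := hl.out
  have : IsGalois k K := hC.gal
  have hlQ := blrg_l l p Q hQ hcop
  obtain ⟨hq1, Z, hZc, hZq, hZa⟩ := blrg_sub p Q hQ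
  have := Q.isMaximal
  let _ := Ideal.Quotient.field Q.asIdeal
  -- the root of unity as an integer
  have hzl : z ^ l = 1 := hz.pow_eq_one
  obtain ⟨ζ, hζ⟩ : ∃ ζ : 𝓞 K, (ζ : K) = z := by
    refine ⟨⟨z, ?_⟩, rfl⟩
    exact hz.isIntegral hlp.pos
  have hcp : ∀ n : ℕ, ((ζ ^ n : 𝓞 K) : K) = z ^ n := by
    intro n
    rw [← hζ]
    exact map_pow (algebraMap (𝓞 K) K) ζ n
  have hζl : ζ ^ l = 1 := by
    apply RingOfIntegers.ext
    rw [hcp, hzl]
    exact (map_one (algebraMap (𝓞 K) K)).symm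
  have hζ0 : ζ ∉ Q.asIdeal := by
    intro h
    apply Q.isPrime.ne_top
    rw [Ideal.eq_top_iff_one, ← hζl]
    exact Q.asIdeal.pow_mem_of_mem h l hlp.pos
  refine ⟨⟨fun hR => ?_, fun hq δ hδ => ?_⟩, fun hR => ?_⟩
  · -- a prime of degree one
    have e1 := blrg_frob p Q hQ hR ζ
    have e2 : ζ ^ nrm p = ζ * ζ ^ (nrm p - 1) := by
      rw [← pow_succ', Nat.sub_add_cancel hq1.le]
    have e3 : ζ * (ζ ^ (nrm p - 1) - 1) ∈ Q.asIdeal := by
      have e4 := Q.asIdeal.neg_mem e1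
      rw [e2] at e4
      have e5 : -(ζ - ζ * ζ ^ (nrm p - 1)) = ζ * (ζ ^ (nrm p - 1) - 1) := by ring
      rwa [e5] at e4
    have e4 := (Q.isPrime.mem_or_mem e3).resolve_left hζ0
    have e5 : ζ ^ (nrm p - 1) = 1 := by
      refine blrg_root l Q hlQ _ ?_ e4
      rw [← pow_mul, mul_comm, pow_mul, hζl, one_pow]
    have e6 : z ^ (nrm p - 1) = 1 := by
      rw [← hcp, e5]
      exact map_one (algebraMap (𝓞 K) K)
    have e7 := hz.dvd_of_pow_eq_one _ e6
    have e8 : ((nrm p - 1 : ℕ) : ZMod l) = 0 := (ZMod.natCast_eq_zero_iff _ _).2 e7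
    have e9 : ((nrm p : ℕ) : ZMod l) = ((nrm p - 1 : ℕ) : ZMod l) + 1 := by
      conv_lhs => rw [← Nat.sub_add_cancel hq1.le]
      push_cast
      rfl
    rw [e9, e8, zero_add]
  · -- no automorphism fixes `Q`
    have e1 : ζ ^ nrm p = ζ := by
      have e2 : (l : ℕ) ∣ nrm p - 1 := by
        rw [← ZMod.natCast_eq_zero_iff, Nat.cast_sub hq1.le, hq, Nat.cast_one, sub_self]
      obtain ⟨m, hm⟩ := e2
      have e3 : nrm p = l * m + 1 := by omega
      rw [e3, pow_succ, pow_mul, hζl, one_pow, one_mul]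
    have e2 : Ideal.Quotient.mk Q.asIdeal ζ ∈ Z := by
      by_contra hcon
      have e3 := blrg_card _ (nrm p) hq1 (insert (Ideal.Quotient.mk Q.asIdeal ζ) Z) (by
        intro x hx
        rw [Finset.mem_insert] at hx
        rcases hx with rfl | hx
        · rw [← map_pow, e1]
        · exact hZq x hx)
      rw [Finset.card_insert_of_notMem hcon, hZc] at e3
      omega
    obtain ⟨a, ha⟩ := hZa _ e2
    have e3 : ζ - algebraMap (𝓞 k) (𝓞 K) a ∈ Q.asIdeal := Ideal.Quotient.eq.1 ha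
    have hstab : ∀ y ∈ Q.asIdeal, qxR δ y ∈ Q.asIdeal := by
      intro y hy
      rw [← hδ]
      show qxR δ.symm (qxR δ y) ∈ Q.asIdeal
      have e5 : qxR δ.symm (qxR δ y) = y := by
        apply RingOfIntegers.ext
        show δ.symm (δ (y : K)) = (y : K)
        exact δ.symm_apply_apply _
      rw [e5]
      exact hy
    have e4 := hstab _ e3
    have e5 : qxR δ (algebraMap (𝓞 k) (𝓞 K) a) = algebraMap (𝓞 k) (𝓞 K) a :=
      Pool.Agent.H98.MF.qxR_algebraMap δ a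
    rw [map_sub, e5] at e4
    have e6 : qxR δ ζ - ζ ∈ Q.asIdeal := by
      have e7 := Q.asIdeal.sub_mem e4 e3
      rwa [sub_sub_sub_cancel_right] at e7
    have e7 : qxR δ ζ ^ l = 1 := by
      rw [← map_pow, hζl, map_one]
    have e8 : qxR δ ζ * ζ ^ (l - 1) = 1 := by
      refine blrg_root l Q hlQ _ ?_ ?_
      · rw [mul_pow, e7, ← pow_mul, mul_comm (l - 1), pow_mul, hζl, one_pow, one_mul]
      · have e9 : qxR δ ζ * ζ ^ (l - 1) - 1 = ζ ^ (l - 1) * (qxR δ ζ - ζ) := by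
          have e10 : ζ ^ (l - 1) * ζ = 1 := by
            rw [← pow_succ, Nat.sub_add_cancel hlp.pos, hζl]
          linear_combination e10
        rw [e9]
        exact Q.asIdeal.mul_mem_left _ e6
    have e9 : qxR δ ζ = ζ := by
      have e10 : ζ ^ (l - 1) * ζ = 1 := by
        rw [← pow_succ, Nat.sub_add_cancel hlp.pos, hζl]
      linear_combination ζ * e8 - qxR δ ζ * e10
    apply hC.inj
    rw [← hζ, ← qxR_coe, e9]
  · -- the norm
    have hfin := blrg_fin Q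
    have hft := Fintype.ofFinite (𝓞 K ⧸ Q.asIdeal)
    have e1 : nrm Q = Fintype.card (𝓞 K ⧸ Q.asIdeal) := by
      rw [← blrg_nrm Q, Nat.card_eq_fintype_card]
    rw [e1]
    apply le_antisymm
    · rw [← Finset.card_univ]
      refine blrg_card _ (nrm p) hq1 Finset.univ fun x _ => ?_
      obtain ⟨y, rfl⟩ := Ideal.Quotient.mk_surjective x
      rw [← map_pow]
      exact (Ideal.Quotient.eq.2 (blrg_frob p Q hQ hR y)).symm
    · rw [← hZc]
      exact Finset.card_le_univ Z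

end Pool.Agent.H92.EL
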