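import Pool.Agent.H92.EL.CBoxB

/-!
# Project ELL (MP_a3214d), row C5: bilinear estimate for boxes
-/

set_option autoImplicit false

open scoped BigOperators ComplexConjugate
open Filter

namespace Pool.Agent.H92.EL

open Pool.Agent.H98.MF (Pre)

section

variable {l : ℕ} [Fact l.Prime] (S : SysL l)

/-! ### powers of the inner sums -/

/-- the tuples -/
noncomputable abbrev cbxTu (k : ℕ) (X : ℝ) : Finset (Fin k → Finset S.P) :=
  Fintype.piFinset fun _ : Fin k => S.bx X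

open Classical in
/-- the coefficients of the power of the sum -/
noncomputable def cbxAc (k : ℕ) (X : ℝ) (a : Finset S.P → ℂ) (f : S.P →₀ ℕ) : ℂ :=
  ∑ z ∈ (cbxTu S k X).filter (fun z => ∑ i, S.idf (z i) = f), ∏ i, a (z i)

theorem cbx_nf_sum {ι : Type} (s : Finset ι) (f : ι → S.P →₀ ℕ) :
    S.nf (∑ i ∈ s, f i) = ∏ i ∈ s, S.nf (f i) := by
  classical
  induction s using Finset.induction_on with
  | empty => simp [S.nf_zero]
  | insert a s ha ih => rw [Finset.sum_insert ha, Finset.prod_insert ha, S.nf_add, ih]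

theorem cbx_mem_T (k : ℕ) (X : ℝ) (z : Fin k → Finset S.P) (hz : z ∈ cbxTu S k X) :
    ∑ i, S.idf (z i) ∈ S.idl (X ^ k) := by
  rw [S.mem_idl, cbx_nf_sum]
  push_cast
  have h := Fintype.mem_piFinset.1 hz
  calc ∏ i, (S.nf (S.idf (z i)) : ℝ) ≤ ∏ _i : Fin k, X := by
        refine Finset.prod_le_prod (fun i _ => Nat.cast_nonneg _) fun i _ => ?_
        rw [S.nf_idf]
        exact S.mem_bx.1 (h i)
    _ = X ^ k := by simp

variable (t : S.D → ZMod l)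

theorem cbx_pow (k : ℕ) (X : ℝ) (y : Finset S.P) (a : Finset S.P → ℂ) :
    (∑ x ∈ S.bx X, a x * cbxX S t y (S.idf x)) ^ k =
      ∑ f ∈ S.idl (X ^ k), cbxAc S k X a f * cbxX S t y f := by
  classical
  have h1 : (∑ x ∈ S.bx X, a x * cbxX S t y (S.idf x)) ^ k =
      ∏ _i : Fin k, ∑ x ∈ S.bx X, a x * cbxX S t y (S.idf x) := by
    simp
  rw [h1, Finset.prod_univ_sum]
  rw [← Finset.sum_fiberwise_of_maps_to (g := fun z : Fin k → Finset S.P => ∑ i, S.idf (z i))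
    (t := S.idl (X ^ k)) (fun z hz => cbx_mem_T S k X z hz)]
  refine Finset.sum_congr rfl fun f _ => ?_
  rw [cbxAc, Finset.sum_mul]
  refine Finset.sum_congr (by congr) fun z hz => ?_
  have hf : ∑ i, S.idf (z i) = f := (Finset.mem_filter.1 hz).2
  rw [Finset.prod_mul_distrib, ← hf]
  unfold cbxX
  rw [cbx_chc_sum]

theorem cbx_Ac_card (k : ℕ) (X : ℝ) (a : Finset S.P → ℂ) (ha : ∀ x, ‖a x‖ ≤ 1)
    (f : S.P →₀ ℕ) : ‖cbxAc S k X a f‖ ≤ (2 ^ k) ^ f.support.card := by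
  classical
  have h1 : (cbxTu S k X).filter (fun z => ∑ i, S.idf (z i) = f) ⊆
      Fintype.piFinset fun _ : Fin k => f.support.powerset := by
    intro z hz
    have hz2 := (Finset.mem_filter.1 hz).2
    rw [Fintype.mem_piFinset]
    intro i
    rw [Finset.mem_powerset]
    intro p hp
    rw [Finsupp.mem_support_iff, ← hz2, Finsupp.finsetSum_apply]
    have h2 : 1 ≤ ∑ i, S.idf (z i) p := by
      refine le_trans ?_ (Finset.single_le_sum (f := fun i => S.idf (z i) p)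
        (fun _ _ => Nat.zero_le _) (Finset.mem_univ i))
      rw [S.idf_apply, if_pos hp]
    omega
  have h2 : ‖cbxAc S k X a f‖ ≤
      (((cbxTu S k X).filter (fun z => ∑ i, S.idf (z i) = f)).card : ℝ) := by
    rw [cbxAc]
    refine (norm_sum_le _ _).trans ?_
    rw [Finset.card_eq_sum_ones]
    push_cast
    refine Finset.sum_le_sum fun z _ => ?_
    rw [norm_prod]
    exact Finset.prod_le_one (fun i _ => norm_nonneg _) fun i _ => ha _
  refine h2.trans ?_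
  have h3 := Finset.card_le_card h1
  rw [Fintype.card_piFinset] at h3
  simp only [Finset.card_powerset, Finset.prod_const, Finset.card_univ, Fintype.card_fin] at h3
  have h4 : (2 ^ f.support.card) ^ k = (2 ^ k) ^ f.support.card := by
    rw [← pow_mul, ← pow_mul, mul_comm]
  rw [h4] at h3
  exact_mod_cast h3

theorem cbx_Ac_le (k : ℕ) (ε : ℝ) (hε : 0 < ε) : ∃ C : ℝ, 0 ≤ C ∧
    ∀ (X : ℝ) (a : Finset S.P → ℂ), 1 ≤ X → (∀ x, ‖a x‖ ≤ 1) → ∀ f ∈ S.idl (X ^ k),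
      ‖cbxAc S k X a f‖ ≤ C * X ^ (k * ε) := by
  obtain ⟨C, hC, h1⟩ := cbx_pow_card S.toPre (2 ^ k) ε (one_le_pow₀ one_le_two) hε
  refine ⟨C, by linarith, fun X a hX ha f hf => ?_⟩
  have hX0 : 0 < X := by linarith
  have h2 : (S.nm f.support : ℝ) ≤ X ^ (k : ℝ) := by
    rw [Real.rpow_natCast]
    have h3 := cbx_nm_supp S.toPre f
    have h4 := S.mem_idl.1 hf
    exact le_trans (by exact_mod_cast h3) h4
  calc ‖cbxAc S k X a f‖ ≤ (2 ^ k) ^ f.support.card := cbx_Ac_card S k X a ha f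
    _ ≤ C * (S.nm f.support : ℝ) ^ ε := h1 f.support
    _ ≤ C * X ^ (k * ε) := by
        rw [Real.rpow_mul hX0.le]
        exact mul_le_mul_of_nonneg_left (Real.rpow_le_rpow (Nat.cast_nonneg _) h2 hε.le)
          (by linarith)

open Classical in
/-- the moment of order `k` of the inner sums -/
theorem cbx_moment (k : ℕ) (hk : cbxA S + 1 ≤ k * S.δ) (ε : ℝ) (hε : 0 < ε) (ht : t ≠ 0) :
    ∃ C : ℝ, 0 ≤ C ∧ ∀ (X Y : ℝ) (a : Finset S.P → ℂ), 1 ≤ Y → Y ≤ X → (∀ x, ‖a x‖ ≤ 1) →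
      (∑ y ∈ (S.bx Y).filter (cbxG S), ‖∑ x ∈ S.bx X, a x * cbxX S t y (S.idf x)‖ ^ k) ^ 2 ≤
        C * ((X ^ k) ^ 2 * (X ^ (k * ε)) ^ 2 * Y ^ (1 + ε)) := by
  obtain ⟨Ca, hCa, hA⟩ := cbx_Ac_le S k ε hε
  obtain ⟨Cs, hCs, hS⟩ := cbx_sieve S t ε hε ht
  have hC1 := cbxC_pos S
  refine ⟨Ca ^ 2 * (cbxC S * (Cs * 2)), by positivity, fun X Y a hY hYX ha => ?_⟩
  have hX : 1 ≤ X := hY.trans hYX
  have hX0 : 0 < X := by linarith
  have hY0 : 0 < Y := by linarith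
  set G := (S.bx Y).filter (cbxG S) with hG
  set g : Finset S.P → ℂ := fun y => ∑ x ∈ S.bx X, a x * cbxX S t y (S.idf x) with hg
  have hc : ∀ z : ℂ, ∃ c : ℂ, ‖c‖ = 1 ∧ (‖z‖ : ℂ) = c * z := fun z =>
    Complex.exists_norm_eq_mul_self z
  choose c hc1 hc2 using hc
  set b : Finset S.P → ℂ := fun y => c (g y) ^ k with hb
  have hb1 : ∀ y, ‖b y‖ ≤ 1 := by
    intro y
    simp only [hb]
    rw [norm_pow, hc1, one_pow]
  set T : (S.P →₀ ℕ) → ℂ := fun f => ∑ y ∈ G, b y * cbxX S t y f with hT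
  have h1 : ((∑ y ∈ G, ‖g y‖ ^ k : ℝ) : ℂ) = ∑ f ∈ S.idl (X ^ k), cbxAc S k X a f * T f := by
    push_cast
    have h2 : ∀ y, ((‖g y‖ : ℂ)) ^ k = ∑ f ∈ S.idl (X ^ k),
        cbxAc S k X a f * (b y * cbxX S t y f) := by
      intro y
      rw [hc2, mul_pow]
      have h3 : g y ^ k = ∑ f ∈ S.idl (X ^ k), cbxAc S k X a f * cbxX S t y f :=
        cbx_pow S t k X y a
      rw [h3, Finset.mul_sum]
      refine Finset.sum_congr rfl fun f _ => ?_
      simp only [hb]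
      ring
    rw [Finset.sum_congr rfl fun y _ => h2 y, Finset.sum_comm]
    refine Finset.sum_congr rfl fun f _ => ?_
    rw [hT]
    simp only
    rw [Finset.mul_sum]
  have hs0 : 0 ≤ ∑ y ∈ G, ‖g y‖ ^ k := Finset.sum_nonneg fun y _ => pow_nonneg (norm_nonneg _) _
  have h2 : ∑ y ∈ G, ‖g y‖ ^ k ≤ (Ca * X ^ (k * ε)) * ∑ f ∈ S.idl (X ^ k), ‖T f‖ := by
    have h3 : ∑ y ∈ G, ‖g y‖ ^ k = ‖((∑ y ∈ G, ‖g y‖ ^ k : ℝ) : ℂ)‖ := by
      rw [Complex.norm_real, Real.norm_eq_abs, abs_of_nonneg hs0]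
    rw [h3, h1, Finset.mul_sum]
    refine (norm_sum_le _ _).trans (Finset.sum_le_sum fun f hf => ?_)
    rw [norm_mul]
    exact mul_le_mul_of_nonneg_right (hA X a hX ha f hf) (norm_nonneg _)
  have hXk : 1 ≤ X ^ k := one_le_pow₀ hX
  have h3 : (∑ f ∈ S.idl (X ^ k), ‖T f‖) ^ 2 ≤
      (cbxC S * X ^ k) * (Cs * (2 * (X ^ k * Y ^ (1 + ε)))) := by
    refine (sq_sum_le_card_mul_sum_sq).trans ?_
    refine mul_le_mul (cbx_idl_le S hXk) ?_ (Finset.sum_nonneg fun f _ => sq_nonneg _)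
      (by positivity)
    refine (hS (X ^ k) Y b hXk hY hb1).trans (mul_le_mul_of_nonneg_left ?_ hCs)
    have h4 : Y ^ (cbxA S + 2) * (X ^ k) ^ (1 - S.δ) ≤ X ^ k * Y ^ (1 + ε) := by
      have e1 : Y ^ (cbxA S + 2) = Y ^ (cbxA S + 1) * Y := by
        rw [show cbxA S + 2 = cbxA S + 1 + 1 by ring, Real.rpow_add hY0 (cbxA S + 1) 1,
          Real.rpow_one]
      have e2 : (X ^ k : ℝ) ^ (1 - S.δ) = X ^ k * X ^ (-(k * S.δ)) := by
        rw [sub_eq_add_neg, Real.rpow_add (by positivity), Real.rpow_one]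
        congr 1
        rw [← Real.rpow_natCast, ← Real.rpow_mul hX0.le]
        congr 1
        ring
      have e3 : Y ^ (cbxA S + 1) ≤ X ^ (k * S.δ) := by
        refine (Real.rpow_le_rpow hY0.le hYX (by linarith [cbxA_nonneg S])).trans ?_
        exact Real.rpow_le_rpow_of_exponent_le hX hk
      have e4 : X ^ (k * S.δ) * X ^ (-(k * S.δ)) = 1 := by
        rw [← Real.rpow_add hX0, add_neg_cancel, Real.rpow_zero]
      have e5 : 0 ≤ X ^ (-(k * S.δ)) := Real.rpow_nonneg hX0.le _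
      have e6 : Y ≤ Y ^ (1 + ε) := by
        conv_lhs => rw [← Real.rpow_one Y]
        exact Real.rpow_le_rpow_of_exponent_le hY (by linarith)
      rw [e1, e2]
      calc Y ^ (cbxA S + 1) * Y * (X ^ k * X ^ (-(k * S.δ)))
          = X ^ k * Y * (Y ^ (cbxA S + 1) * X ^ (-(k * S.δ))) := by ring
        _ ≤ X ^ k * Y * (X ^ (k * S.δ) * X ^ (-(k * S.δ))) := by
          refine mul_le_mul_of_nonneg_left ?_ (by positivity)
          exact mul_le_mul_of_nonneg_right e3 e5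
        _ = X ^ k * Y := by rw [e4, mul_one]
        _ ≤ X ^ k * Y ^ (1 + ε) := mul_le_mul_of_nonneg_left e6 (by positivity)
    linarith
  have h5 : 0 ≤ (Ca * X ^ (k * ε)) * ∑ f ∈ S.idl (X ^ k), ‖T f‖ := hs0.trans h2
  calc (∑ y ∈ G, ‖g y‖ ^ k) ^ 2 ≤ ((Ca * X ^ (k * ε)) * ∑ f ∈ S.idl (X ^ k), ‖T f‖) ^ 2 :=
        pow_le_pow_left₀ hs0 h2 2
    _ = (Ca * X ^ (k * ε)) ^ 2 * (∑ f ∈ S.idl (X ^ k), ‖T f‖) ^ 2 := by ring
    _ ≤ (Ca * X ^ (k * ε)) ^ 2 * ((cbxC S * X ^ k) * (Cs * (2 * (X ^ k * Y ^ (1 + ε))))) :=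
        mul_le_mul_of_nonneg_left h3 (sq_nonneg _)
    _ = _ := by ring

open Classical in
/-- the sum in terms of characters -/
theorem cbx_sum (a b : Finset S.P → ℂ) (X Y : ℝ) :
    ∑ x ∈ S.bx X, ∑ y ∈ S.bx Y, (if S.G2 x y then a x * b y * ec (S.Tt t x y) else 0) =
      ∑ x ∈ S.bx X, (if cbxG S x then a x else 0) *
        ∑ y ∈ (S.bx Y).filter (cbxG S), b y * cbxX S t y (S.idf x) := by
  refine Finset.sum_congr rfl fun x _ => ?_
  rw [Finset.sum_filter, Finset.mul_sum]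
  refine Finset.sum_congr rfl fun y _ => ?_
  by_cases hx : cbxG S x
  · by_cases hy : cbxG S y
    · rw [if_pos hx, if_pos hy]
      unfold cbxX
      rw [cbx_chc_idf]
      by_cases hd : Disjoint x (cbxO S y)
      · rw [if_pos ((cbx_G2 S).2 ⟨hx, hy, hd⟩), if_pos hd, cbx_Tt S t hd]
        ring
      · rw [if_neg fun h => hd ((cbx_G2 S).1 h).2.2, if_neg hd]
        ring
    · rw [if_neg fun h => hy ((cbx_G2 S).1 h).2.1, if_neg hy, mul_zero]
  · rw [if_neg fun h => hx ((cbx_G2 S).1 h).1, if_neg hx, zero_mul]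

open Classical in
/-- the estimate if the character variable is the smaller one -/
theorem cbx_main (ht : t ≠ 0) : ∃ C c : ℝ, 0 ≤ C ∧ 0 < c ∧ ∀ a b : Finset S.P → ℂ,
    (∀ x, ‖a x‖ ≤ 1) → (∀ y, ‖b y‖ ≤ 1) → ∀ X Y : ℝ, 1 ≤ Y → Y ≤ X →
    ‖∑ x ∈ S.bx X, ∑ y ∈ S.bx Y, (if S.G2 x y then a x * b y * ec (S.Tt t x y) else 0)‖ ≤
      C * (X * Y) * Y ^ (-c) := by
  set A : ℝ := cbxA S with hAdef
  have hA0 : 0 ≤ A := cbxA_nonneg S
  have hδ := S.δ_pos
  have hδ1 := S.δ_le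
  obtain ⟨j, hj⟩ : ∃ j : ℕ, A + 1 ≤ ((j + 1 : ℕ) : ℝ) * S.δ := by
    refine ⟨⌈(A + 1) / S.δ⌉₊, ?_⟩
    have h1 : (A + 1) / S.δ ≤ ⌈(A + 1) / S.δ⌉₊ := Nat.le_ceil _
    rw [div_le_iff₀ hδ] at h1
    push_cast
    nlinarith
  set k : ℕ := j + 1 with hk
  have hk1 : (1 : ℝ) ≤ k := by
    rw [hk]
    push_cast
    have : (0 : ℝ) ≤ j := Nat.cast_nonneg _
    linarith
  have hk0 : (0 : ℝ) < k := by linarith
  set ε : ℝ := min (1 / 2) (S.δ / (8 * k * (A + 1))) with hε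
  have hε0 : 0 < ε := lt_min (by norm_num) (by positivity)
  have hε1 : ε ≤ 1 / 2 := min_le_left _ _
  have hε2 : (A + 1) * (2 * k * ε) / S.δ ≤ 1 / 4 := by
    have h1 : ε ≤ S.δ / (8 * k * (A + 1)) := min_le_right _ _
    rw [le_div_iff₀ (by positivity)] at h1
    rw [div_le_iff₀ hδ]
    linarith
  obtain ⟨Cm, hCm, hM⟩ := cbx_moment S t k hj ε hε0 ht
  obtain ⟨Cs, hCs, hS⟩ := cbx_sieve S t ε hε0 ht
  have hC1 := cbxC_pos S
  set D1 : ℝ := cbxC S * (Cs * 2) with hD1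
  have hD1' : 0 ≤ D1 := by positivity
  set D2 : ℝ := (cbxC S ^ j) ^ 2 * Cm with hD2
  have hD2' : 0 ≤ D2 := by positivity
  refine ⟨(1 + D1) + (1 + D2), 1 / (8 * k), by positivity, by positivity,
    fun a b ha hb X Y hY hYX => ?_⟩
  have hX : 1 ≤ X := hY.trans hYX
  have hX0 : 0 < X := by linarith
  have hY0 : 0 < Y := by linarith
  rw [cbx_sum]
  set G := (S.bx Y).filter (cbxG S) with hG
  set a' : Finset S.P → ℂ := fun x => if cbxG S x then a x else 0 with ha'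
  have ha1 : ∀ x, ‖a' x‖ ≤ 1 := by
    intro x
    simp only [ha']
    split_ifs
    · exact ha x
    · simp
  have hc8 : 1 / (8 * (k : ℝ)) ≤ 1 / 4 := by
    rw [div_le_div_iff₀ (by positivity) (by norm_num)]
    linarith
  have hgoal : ∀ V D : ℝ, 0 ≤ D → V ≤ (1 + D) * (X * Y ^ (1 - 1 / (8 * (k : ℝ)))) →
      D ≤ D1 + D2 → V ≤ ((1 + D1) + (1 + D2)) * (X * Y) * Y ^ (-(1 / (8 * (k : ℝ)))) := by
    intro V D hD hV hDD
    have e1 : Y ^ (1 - 1 / (8 * (k : ℝ))) = Y * Y ^ (-(1 / (8 * (k : ℝ)))) := by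
      rw [sub_eq_add_neg, Real.rpow_add hY0, Real.rpow_one]
    rw [e1] at hV
    have h1 : 0 ≤ X * (Y * Y ^ (-(1 / (8 * (k : ℝ))))) := by positivity
    have h2 : (1 + D) * (X * (Y * Y ^ (-(1 / (8 * (k : ℝ)))))) ≤
        ((1 + D1) + (1 + D2)) * (X * (Y * Y ^ (-(1 / (8 * (k : ℝ)))))) :=
      mul_le_mul_of_nonneg_right (by linarith) h1
    calc V ≤ _ := hV
      _ ≤ _ := h2
      _ = _ := by ring
  rcases le_or_gt (Y ^ (A + 1)) (X ^ S.δ) with hcase | hcase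
  · -- first case
    set T : (S.P →₀ ℕ) → ℂ := fun f => ∑ y ∈ G, b y * cbxX S t y f with hT
    have h1 : ‖∑ x ∈ S.bx X, a' x * T (S.idf x)‖ ≤ ∑ x ∈ S.bx X, ‖T (S.idf x)‖ := by
      refine (norm_sum_le _ _).trans (Finset.sum_le_sum fun x _ => ?_)
      rw [norm_mul]
      exact mul_le_of_le_one_left (norm_nonneg _) (ha1 x)
    have h2 : ∑ x ∈ S.bx X, ‖T (S.idf x)‖ ^ 2 ≤ ∑ f ∈ S.idl X, ‖T f‖ ^ 2 := by
      have e1 : ∑ x ∈ S.bx X, ‖T (S.idf x)‖ ^ 2 =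
          ∑ f ∈ (S.bx X).image S.idf, ‖T f‖ ^ 2 := by
        rw [Finset.sum_image fun x _ y _ h => S.idf_inj h]
      rw [e1]
      refine Finset.sum_le_sum_of_subset_of_nonneg (fun f hf => ?_) fun f _ _ => sq_nonneg _
      obtain ⟨x, hx, rfl⟩ := Finset.mem_image.1 hf
      rw [S.mem_idl, S.nf_idf]
      exact S.mem_bx.1 hx
    have h3 : Y ^ (A + 2) * X ^ (1 - S.δ) ≤ X * Y ^ (1 + ε) := by
      have e1 : Y ^ (A + 2) = Y ^ (A + 1) * Y := by
        rw [show A + 2 = A + 1 + 1 by ring, Real.rpow_add hY0 (A + 1) 1, Real.rpow_one]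
      have e2 : X ^ (1 - S.δ) = X * X ^ (-S.δ) := by
        rw [sub_eq_add_neg, Real.rpow_add hX0, Real.rpow_one]
      have e4 : X ^ S.δ * X ^ (-S.δ) = 1 := by
        rw [← Real.rpow_add hX0, add_neg_cancel, Real.rpow_zero]
      have e5 : 0 ≤ X ^ (-S.δ) := Real.rpow_nonneg hX0.le _
      have e6 : Y ≤ Y ^ (1 + ε) := by
        conv_lhs => rw [← Real.rpow_one Y]
        exact Real.rpow_le_rpow_of_exponent_le hY (by linarith)
      rw [e1, e2]
      calc Y ^ (A + 1) * Y * (X * X ^ (-S.δ)) = X * Y * (Y ^ (A + 1) * X ^ (-S.δ)) := by ring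
        _ ≤ X * Y * (X ^ S.δ * X ^ (-S.δ)) :=
          mul_le_mul_of_nonneg_left (mul_le_mul_of_nonneg_right hcase e5) (by positivity)
        _ = X * Y := by rw [e4, mul_one]
        _ ≤ X * Y ^ (1 + ε) := mul_le_mul_of_nonneg_left e6 hX0.le
    have h4 : (∑ x ∈ S.bx X, ‖T (S.idf x)‖) ^ 2 ≤ D1 * (X ^ 2 * Y ^ (1 + ε)) := by
      refine (sq_sum_le_card_mul_sum_sq).trans ?_
      have h5 : ∑ f ∈ S.idl X, ‖T f‖ ^ 2 ≤ Cs * (2 * (X * Y ^ (1 + ε))) := by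
        refine (hS X Y b hX hY hb).trans (mul_le_mul_of_nonneg_left ?_ hCs)
        linarith
      calc ((S.bx X).card : ℝ) * ∑ x ∈ S.bx X, ‖T (S.idf x)‖ ^ 2
          ≤ (cbxC S * X) * (Cs * (2 * (X * Y ^ (1 + ε)))) :=
            mul_le_mul (cbx_bx_le S hX) (h2.trans h5)
              (Finset.sum_nonneg fun f _ => sq_nonneg _) (by positivity)
        _ = _ := by rw [hD1]; ring
    have h6 : ∑ x ∈ S.bx X, ‖T (S.idf x)‖ ≤ (1 + D1) * (X * Y ^ (1 - 1 / (8 * (k : ℝ)))) := by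
      have h7 : (∑ x ∈ S.bx X, ‖T (S.idf x)‖) ^ 2 ≤
          ((1 + D1) * (X * Y ^ (1 - 1 / (8 * (k : ℝ))))) ^ 2 := by
        refine h4.trans ?_
        have e1 : Y ^ (1 + ε) ≤ (Y ^ (1 - 1 / (8 * (k : ℝ)))) ^ 2 := by
          rw [← Real.rpow_natCast, ← Real.rpow_mul hY0.le]
          refine Real.rpow_le_rpow_of_exponent_le hY ?_
          push_cast
          linarith
        have e2 : D1 ≤ (1 + D1) ^ 2 := by nlinarith
        rw [mul_pow, mul_pow]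
        exact mul_le_mul e2 (mul_le_mul_of_nonneg_left e1 (by positivity)) (by positivity)
          (by positivity)
      exact (abs_le_of_sq_le_sq' h7 (by positivity)).2
    exact hgoal _ D1 hD1' (h1.trans h6) (by linarith)
  · -- second case
    set g : Finset S.P → ℂ := fun y => ∑ x ∈ S.bx X, a' x * cbxX S t y (S.idf x) with hg
    have h1 : ‖∑ x ∈ S.bx X, a' x * ∑ y ∈ G, b y * cbxX S t y (S.idf x)‖ ≤
        ∑ y ∈ G, ‖g y‖ := by
      have e1 : ∑ x ∈ S.bx X, a' x * ∑ y ∈ G, b y * cbxX S t y (S.idf x) =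
          ∑ y ∈ G, b y * g y := by
        simp only [hg, Finset.mul_sum]
        rw [Finset.sum_comm]
        refine Finset.sum_congr rfl fun y _ => Finset.sum_congr rfl fun x _ => ?_
        ring
      rw [e1]
      refine (norm_sum_le _ _).trans (Finset.sum_le_sum fun y _ => ?_)
      rw [norm_mul]
      exact mul_le_of_le_one_left (norm_nonneg _) (hb y)
    have hs0 : 0 ≤ ∑ y ∈ G, ‖g y‖ := Finset.sum_nonneg fun y _ => norm_nonneg _
    have hGc : (G.card : ℝ) ≤ cbxC S * Y := by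
      refine le_trans ?_ (cbx_bx_le S hY)
      exact_mod_cast Finset.card_filter_le _ _
    have h4 : (∑ y ∈ G, ‖g y‖) ^ (j + 1) ≤
        (cbxC S * Y) ^ j * ∑ y ∈ G, ‖g y‖ ^ (j + 1) := by
      refine (pow_sum_le_card_mul_sum_pow (fun y _ => norm_nonneg (g y)) j).trans ?_
      exact mul_le_mul_of_nonneg_right (pow_le_pow_left₀ (Nat.cast_nonneg _) hGc j)
        (Finset.sum_nonneg fun y _ => pow_nonneg (norm_nonneg _) _)
    have h5 := hM X Y a' hY hYX ha1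
    have hXε : (X ^ (k * ε)) ^ 2 ≤ Y ^ (1 / 4 : ℝ) := by
      have e1 : (X ^ (k * ε)) ^ 2 = (X ^ S.δ) ^ (2 * k * ε / S.δ) := by
        rw [← Real.rpow_natCast, ← Real.rpow_mul hX0.le, ← Real.rpow_mul hX0.le]
        congr 1
        field_simp
        push_cast
        ring
      have e2 : (X ^ S.δ) ^ (2 * k * ε / S.δ) ≤ (Y ^ (A + 1)) ^ (2 * k * ε / S.δ) :=
        Real.rpow_le_rpow (Real.rpow_nonneg hX0.le _) hcase.le (by positivity)
      rw [e1]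
      refine e2.trans ?_
      rw [← Real.rpow_mul hY0.le]
      refine Real.rpow_le_rpow_of_exponent_le hY ?_
      rw [← mul_div_assoc]
      exact hε2
    have h6 : (∑ y ∈ G, ‖g y‖) ^ (2 * (j + 1)) ≤
        D2 * ((X ^ k) ^ 2 * ((Y ^ j) ^ 2 * Y ^ (7 / 4 : ℝ))) := by
      have e1 : (∑ y ∈ G, ‖g y‖) ^ (2 * (j + 1)) =
          ((∑ y ∈ G, ‖g y‖) ^ (j + 1)) ^ 2 := by
        rw [← pow_mul, mul_comm]
      have e2 : (X ^ (k * ε)) ^ 2 * Y ^ (1 + ε) ≤ Y ^ (7 / 4 : ℝ) := by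
        have e3 : Y ^ (1 + ε) ≤ Y ^ (3 / 2 : ℝ) :=
          Real.rpow_le_rpow_of_exponent_le hY (by linarith)
        calc (X ^ (k * ε)) ^ 2 * Y ^ (1 + ε) ≤ Y ^ (1 / 4 : ℝ) * Y ^ (3 / 2 : ℝ) :=
              mul_le_mul hXε e3 (by positivity) (by positivity)
          _ = Y ^ (7 / 4 : ℝ) := by
              rw [← Real.rpow_add hY0]
              norm_num
      rw [e1]
      calc ((∑ y ∈ G, ‖g y‖) ^ (j + 1)) ^ 2
          ≤ ((cbxC S * Y) ^ j * ∑ y ∈ G, ‖g y‖ ^ (j + 1)) ^ 2 :=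
            pow_le_pow_left₀ (pow_nonneg hs0 _) h4 2
        _ = ((cbxC S * Y) ^ j) ^ 2 * (∑ y ∈ G, ‖g y‖ ^ (j + 1)) ^ 2 := by ring
        _ ≤ ((cbxC S * Y) ^ j) ^ 2 *
            (Cm * ((X ^ k) ^ 2 * (X ^ (k * ε)) ^ 2 * Y ^ (1 + ε))) :=
            mul_le_mul_of_nonneg_left h5 (sq_nonneg _)
        _ = ((cbxC S ^ j) ^ 2 * Cm) * ((X ^ k) ^ 2 * ((Y ^ j) ^ 2 *
            ((X ^ (k * ε)) ^ 2 * Y ^ (1 + ε)))) := by rw [mul_pow]; ring
        _ ≤ ((cbxC S ^ j) ^ 2 * Cm) * ((X ^ k) ^ 2 * ((Y ^ j) ^ 2 * Y ^ (7 / 4 : ℝ))) := by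
            refine mul_le_mul_of_nonneg_left ?_ hD2'
            refine mul_le_mul_of_nonneg_left ?_ (by positivity)
            exact mul_le_mul_of_nonneg_left e2 (by positivity)
    have h7 : (∑ y ∈ G, ‖g y‖) ^ (2 * (j + 1)) ≤
        ((1 + D2) * (X * Y ^ (1 - 1 / (8 * (k : ℝ))))) ^ (2 * (j + 1)) := by
      refine h6.trans ?_
      have e1 : (Y ^ (1 - 1 / (8 * (k : ℝ)))) ^ (2 * (j + 1)) = (Y ^ j) ^ 2 * Y ^ (7 / 4 : ℝ) := by
        rw [← Real.rpow_natCast, ← Real.rpow_mul hY0.le, ← pow_mul, ← Real.rpow_natCast,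
          ← Real.rpow_add hY0]
        congr 1
        have e3 : (0 : ℝ) < (j : ℝ) + 1 := by positivity
        rw [hk]
        push_cast
        field_simp
        ring
      have e2 : D2 ≤ (1 + D2) ^ (2 * (j + 1)) := by
        have e3 : 1 + D2 ≤ (1 + D2) ^ (2 * (j + 1)) := le_self_pow₀ (by linarith) (by omega)
        linarith
      have e3 : X ^ (2 * (j + 1)) = (X ^ k) ^ 2 := by
        rw [← pow_mul, mul_comm]
      rw [mul_pow, mul_pow, e1, e3]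
      exact mul_le_mul_of_nonneg_right e2 (by positivity)
    have h8 : ∑ y ∈ G, ‖g y‖ ≤ (1 + D2) * (X * Y ^ (1 - 1 / (8 * (k : ℝ)))) := by
      by_contra hcon
      push Not at hcon
      exact absurd h7 (not_le.2 (pow_lt_pow_left₀ hcon (by positivity) (by omega)))
    exact hgoal _ D2 hD2' (h1.trans h8) (by linarith)

/-! ### the other case -/

theorem cbx_G2_symm {x y : Finset S.P} (h : S.G2 x y) : S.G2 y x := by
  rw [cbx_G2] at h ⊢
  refine ⟨h.2.1, h.1, ?_⟩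
  rw [Finset.disjoint_left]
  intro p hp hpO
  obtain ⟨q, hq, g, hg⟩ := (cbx_mem_O S).1 hpO
  refine Finset.disjoint_left.1 h.2.2 hq ((cbx_mem_O S).2 ⟨p, hp, g⁻¹, ?_⟩)
  rw [← hg, cbx_inv]

theorem cbx_Tt_symm {x y : Finset S.P} (h : S.G2 x y) : S.Tt t x y =
    S.Tt (fun g => t g⁻¹ * ((S.e g⁻¹ : (ZMod l)ˣ) : ZMod l)) y x := by
  rw [cbx_Tt S t ((cbx_G2 S).1 h).2.2]
  unfold SysL.Tt
  rw [Finset.sum_comm]
  refine Finset.sum_congr rfl fun p _ => ?_
  rw [cbxS_F]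
  refine Finset.sum_congr rfl fun q _ => ?_
  rw [← Equiv.sum_comp (Equiv.inv S.D)]
  refine Finset.sum_congr rfl fun g _ => ?_
  simp only [Equiv.inv_apply, inv_inv]

end

/-- row C5: the bilinear estimate for boxes -/
theorem sboxL : SBoxL := by
  classical
  intro l _ S t ht
  obtain ⟨C1, c1, hC1, hc1, h1⟩ := cbx_main S t ht
  have ht' : (fun g : S.D => t g⁻¹ * ((S.e g⁻¹ : (ZMod l)ˣ) : ZMod l)) ≠ 0 := by
    intro h
    apply ht
    funext g
    have h2 := congrFun h g⁻¹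
    simp only [inv_inv, Pi.zero_apply] at h2
    exact (mul_eq_zero.1 h2).resolve_right (Units.ne_zero _)
  obtain ⟨C2, c2, hC2, hc2, h2⟩ := cbx_main S _ ht'
  refine ⟨C1 + C2, min c1 c2, by linarith, lt_min hc1 hc2, fun a b ha hb X Y hX hY => ?_⟩
  have hX0 : 0 < X := by linarith
  have hY0 : 0 < Y := by linarith
  rcases le_or_gt Y X with h | h
  · rw [min_eq_right h]
    refine le_trans (h1 a b ha hb X Y hY h) ?_
    have e1 : Y ^ (-c1) ≤ Y ^ (-(min c1 c2)) :=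
      Real.rpow_le_rpow_of_exponent_le hY (by linarith [min_le_left c1 c2])
    have e2 : 0 ≤ X * Y := by positivity
    calc C1 * (X * Y) * Y ^ (-c1) ≤ C1 * (X * Y) * Y ^ (-(min c1 c2)) :=
          mul_le_mul_of_nonneg_left e1 (by positivity)
      _ ≤ (C1 + C2) * (X * Y) * Y ^ (-(min c1 c2)) := by
          refine mul_le_mul_of_nonneg_right ?_ (Real.rpow_nonneg hY0.le _)
          exact mul_le_mul_of_nonneg_right (by linarith) e2
  · rw [min_eq_left h.le]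
    have e0 : ∑ x ∈ S.bx X, ∑ y ∈ S.bx Y,
        (if S.G2 x y then a x * b y * ec (S.Tt t x y) else 0) =
        ∑ y ∈ S.bx Y, ∑ x ∈ S.bx X, (if S.G2 y x then b y * a x *
          ec (S.Tt (fun g => t g⁻¹ * ((S.e g⁻¹ : (ZMod l)ˣ) : ZMod l)) y x) else 0) := by
      rw [Finset.sum_comm]
      refine Finset.sum_congr rfl fun y _ => Finset.sum_congr rfl fun x _ => ?_
      by_cases hg : S.G2 x y
      · rw [if_pos hg, if_pos (cbx_G2_symm S hg), cbx_Tt_symm S t hg]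
        ring
      · rw [if_neg hg, if_neg fun h' => hg (cbx_G2_symm S h')]
    have e3 := h2 b a hb ha Y X hX h.le
    rw [← e0] at e3
    refine le_trans e3 ?_
    have e1 : X ^ (-c2) ≤ X ^ (-(min c1 c2)) :=
      Real.rpow_le_rpow_of_exponent_le hX (by linarith [min_le_right c1 c2])
    have e2 : 0 ≤ X * Y := by positivity
    calc C2 * (Y * X) * X ^ (-c2) ≤ C2 * (Y * X) * X ^ (-(min c1 c2)) :=
          mul_le_mul_of_nonneg_left e1 (by positivity)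
      _ = C2 * (X * Y) * X ^ (-(min c1 c2)) := by ring
      _ ≤ (C1 + C2) * (X * Y) * X ^ (-(min c1 c2)) := by
          refine mul_le_mul_of_nonneg_right ?_ (Real.rpow_nonneg hX0.le _)
          exact mul_le_mul_of_nonneg_right (by linarith) e2

end Pool.Agent.H92.EL
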