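import Pool.Agent.H92.EL.CStm
import Pool.Agent.H98.MF.SBase

/-!
# Project ELL (MP_a3214d), row C5: bilinear estimate for boxes, characters of ideals
-/

set_option autoImplicit false

open scoped BigOperators ComplexConjugate
open Filter

namespace Pool.Agent.H92.EL

open Pool.Agent.H98.MF (Pre)

section

variable {l : ℕ} [Fact l.Prime]

/-! ### the additive character -/

theorem cbx_ec_zero : ec (0 : ZMod l) = 1 := AddChar.map_zero_eq_one _

theorem cbx_ec_add (a b : ZMod l) : ec (a + b) = ec a * ec b := AddChar.map_add_eq_mul _ a b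

theorem cbx_ec_norm (a : ZMod l) : ‖ec a‖ = 1 := AddChar.norm_apply _ a

theorem cbx_ec_neg (a : ZMod l) : ec (-a) = conj (ec a) := AddChar.map_neg_eq_conj _ a

/-! ### characters of ideals -/

theorem cbx_sum_add (S : Pre) (g : S.P → ZMod l) (f f' : S.P →₀ ℕ) :
    ((f + f').sum fun p k => (k : ZMod l) * g p) =
      (f.sum fun p k => (k : ZMod l) * g p) + f'.sum fun p k => (k : ZMod l) * g p :=
  Finsupp.sum_add_index' (fun p => by simp) fun p a b => by push_cast; ring

theorem cbx_supp_add (S : Pre) (f f' : S.P →₀ ℕ) :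
    (f + f').support = f.support ∪ f'.support := by
  ext p
  simp only [Finsupp.mem_support_iff, Finsupp.add_apply, Finset.mem_union]
  omega

theorem cbx_chc_pos (S : Pre) {y : Finset S.P} (g : S.P → ZMod l) {f : S.P →₀ ℕ}
    (h : Disjoint f.support y) :
    chc S y g f = ec (f.sum fun p k => (k : ZMod l) * g p) := if_pos h

theorem cbx_chc_neg (S : Pre) {y : Finset S.P} (g : S.P → ZMod l) {f : S.P →₀ ℕ}
    (h : ¬ Disjoint f.support y) : chc S y g f = 0 := if_neg h

theorem cbx_chc_add (S : Pre) (y : Finset S.P) (g : S.P → ZMod l) (f f' : S.P →₀ ℕ) :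
    chc S y g (f + f') = chc S y g f * chc S y g f' := by
  have hsup := cbx_supp_add S f f'
  by_cases h1 : Disjoint f.support y
  · by_cases h2 : Disjoint f'.support y
    · rw [cbx_chc_pos S g h1, cbx_chc_pos S g h2, cbx_chc_pos, cbx_sum_add, cbx_ec_add]
      rw [hsup]
      exact Finset.disjoint_union_left.2 ⟨h1, h2⟩
    · rw [cbx_chc_neg S g h2, mul_zero, cbx_chc_neg]
      intro h
      rw [hsup] at h
      exact h2 (Finset.disjoint_union_left.1 h).2
  · rw [cbx_chc_neg S g h1, zero_mul, cbx_chc_neg]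
    intro h
    rw [hsup] at h
    exact h1 (Finset.disjoint_union_left.1 h).1

theorem cbx_chc_zero (S : Pre) (y : Finset S.P) (g : S.P → ZMod l) : chc S y g 0 = 1 := by
  rw [cbx_chc_pos S g (by simp), Finsupp.sum_zero_index, cbx_ec_zero]

theorem cbx_chc_sum (S : Pre) (y : Finset S.P) (g : S.P → ZMod l) {ι : Type} (s : Finset ι)
    (f : ι → S.P →₀ ℕ) : chc S y g (∑ i ∈ s, f i) = ∏ i ∈ s, chc S y g (f i) := by
  classical
  induction s using Finset.induction_on with
  | empty => simp [cbx_chc_zero]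
  | insert a s ha ih => rw [Finset.sum_insert ha, Finset.prod_insert ha, cbx_chc_add, ih]

theorem cbx_chc_norm (S : Pre) (y : Finset S.P) (g : S.P → ZMod l) (f : S.P →₀ ℕ) :
    ‖chc S y g f‖ ≤ 1 := by
  by_cases h1 : Disjoint f.support y
  · rw [cbx_chc_pos S g h1, cbx_ec_norm]
  · rw [cbx_chc_neg S g h1, norm_zero]
    exact zero_le_one

theorem cbx_sum_idf (S : Pre) (g : S.P → ZMod l) (x : Finset S.P) :
    ((S.idf x).sum fun p k => (k : ZMod l) * g p) = ∑ p ∈ x, g p := by
  unfold Finsupp.sum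
  rw [S.idf_support]
  refine Finset.sum_congr rfl fun p hp => ?_
  rw [S.idf_apply, if_pos hp]
  show ((1 : ℕ) : ZMod l) * g p = g p
  rw [Nat.cast_one, one_mul]

open Classical in
theorem cbx_chc_idf (S : Pre) (y : Finset S.P) (g : S.P → ZMod l) (x : Finset S.P) :
    chc S y g (S.idf x) = if Disjoint x y then ec (∑ p ∈ x, g p) else 0 := by
  by_cases h1 : Disjoint x y
  · rw [if_pos h1, cbx_chc_pos S g (by rw [S.idf_support]; exact h1), cbx_sum_idf]
  · rw [if_neg h1, cbx_chc_neg S g (by rw [S.idf_support]; exact h1)]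

/-- the product of a character and the conjugate of a character -/
theorem cbx_chc_conj (S : Pre) (y y' z w : Finset S.P) (g g' u : S.P → ZMod l)
    (hu : ∀ p, g p - g' p = u p) (h : y ∪ y' = z ∪ w) (f : S.P →₀ ℕ) :
    chc S y g f * conj (chc S y' g' f) =
      chc S w (fun _ => (0 : ZMod l)) f * chc S z u f := by
  have hiff : (Disjoint f.support y ∧ Disjoint f.support y') ↔
      (Disjoint f.support w ∧ Disjoint f.support z) := by
    rw [← Finset.disjoint_union_right, ← Finset.disjoint_union_right, h, Finset.union_comm z w]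
  have hsum : (f.sum fun p k => (k : ZMod l) * g p) - (f.sum fun p k => (k : ZMod l) * g' p) =
      f.sum fun p k => (k : ZMod l) * u p := by
    unfold Finsupp.sum
    rw [← Finset.sum_sub_distrib]
    refine Finset.sum_congr rfl fun p _ => ?_
    simp only
    rw [← hu, mul_sub]
  have h0 : (f.sum fun (p : S.P) (k : ℕ) => (k : ZMod l) * (0 : ZMod l)) = 0 := by
    unfold Finsupp.sum
    simp
  by_cases h1 : Disjoint f.support y ∧ Disjoint f.support y'
  · have h2 := hiff.1 h1
    rw [cbx_chc_pos S g h1.1, cbx_chc_pos S g' h1.2, cbx_chc_pos S _ h2.1,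
      cbx_chc_pos S u h2.2, ← cbx_ec_neg, ← cbx_ec_add, ← sub_eq_add_neg, hsum, h0,
      cbx_ec_zero, one_mul]
  · have h2 : ¬ (Disjoint f.support w ∧ Disjoint f.support z) := fun h => h1 (hiff.2 h)
    have e1 : chc S y g f * conj (chc S y' g' f) = 0 := by
      by_cases h3 : Disjoint f.support y
      · rw [cbx_chc_neg S g' fun h4 => h1 ⟨h3, h4⟩, map_zero, mul_zero]
      · rw [cbx_chc_neg S g h3, zero_mul]
    have e2 : chc S w (fun _ => (0 : ZMod l)) f * chc S z u f = 0 := by
      by_cases h3 : Disjoint f.support w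
      · rw [cbx_chc_neg S u fun h4 => h2 ⟨h3, h4⟩, mul_zero]
      · rw [cbx_chc_neg S _ h3, zero_mul]
    rw [e1, e2]

end

/-! ### sums over ideals prime to a set -/

section

variable (S : Pre)

open Classical in
/-- the sum over the ideals prime to `z` -/
noncomputable def cbxT (u : (S.P →₀ ℕ) → ℂ) (z : Finset S.P) (X : ℝ) : ℂ :=
  ∑ f ∈ S.idl X, (if Disjoint f.support z then u f else 0)

theorem cbx_supp_single (f : S.P →₀ ℕ) (p : S.P) :
    (f + Finsupp.single p 1).support = insert p f.support := by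
  ext q
  rw [Finset.mem_insert, Finsupp.mem_support_iff, Finsupp.mem_support_iff, Finsupp.add_apply]
  by_cases h : q = p
  · subst h
    rw [Finsupp.single_eq_same]
    simp
  · rw [Finsupp.single_eq_of_ne h, add_zero]
    simp [h]

/-- the recursion -/
theorem cbxT_insert (u : (S.P →₀ ℕ) → ℂ) (a : S.P → ℂ)
    (hu : ∀ f p, u (f + Finsupp.single p 1) = a p * u f) (z : Finset S.P) (p : S.P)
    (hp : p ∉ z) (X : ℝ) :
    cbxT S u (insert p z) X = cbxT S u z X - a p * cbxT S u z (X / S.N p) := by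
  classical
  have hN : (0 : ℝ) < S.N p := by exact_mod_cast S.one_le_N p
  have h1 : a p * cbxT S u z (X / S.N p) =
      ∑ f ∈ (S.idl X).filter (fun f => p ∈ f.support),
        (if Disjoint f.support z then u f else 0) := by
    unfold cbxT
    rw [Finset.mul_sum]
    refine Finset.sum_bij' (fun f _ => f + Finsupp.single p 1) (fun f _ => f - Finsupp.single p 1)
      ?_ ?_ ?_ ?_ ?_
    · intro f hf
      rw [Finset.mem_filter, Pre.mem_idl, Pre.nf_add, Pre.nf_single, pow_one, cbx_supp_single]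
      refine ⟨?_, Finset.mem_insert_self _ _⟩
      rw [Pre.mem_idl, le_div_iff₀ hN] at hf
      push_cast
      exact hf
    · intro f hf
      rw [Finset.mem_filter, Pre.mem_idl] at hf
      have h2 : f - Finsupp.single p 1 + Finsupp.single p 1 = f := by
        refine tsub_add_cancel_of_le ?_
        rw [Finsupp.single_le_iff]
        exact Nat.one_le_iff_ne_zero.2 (Finsupp.mem_support_iff.1 hf.2)
      rw [Pre.mem_idl, le_div_iff₀ hN]
      have h3 : S.nf f = S.nf (f - Finsupp.single p 1) * S.N p := by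
        conv_lhs => rw [← h2]
        rw [Pre.nf_add, Pre.nf_single, pow_one]
      rw [← Nat.cast_mul, ← h3]
      exact hf.1
    · intro f hf
      exact add_tsub_cancel_right _ _
    · intro f hf
      rw [Finset.mem_filter, Pre.mem_idl] at hf
      refine tsub_add_cancel_of_le ?_
      rw [Finsupp.single_le_iff]
      exact Nat.one_le_iff_ne_zero.2 (Finsupp.mem_support_iff.1 hf.2)
    · intro f hf
      simp only [cbx_supp_single, Finset.disjoint_insert_left, hu]
      by_cases h2 : Disjoint f.support z <;> simp [h2, hp]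
  rw [h1, Finset.sum_filter]
  unfold cbxT
  rw [← Finset.sum_sub_distrib]
  refine Finset.sum_congr rfl fun f _ => ?_
  simp only [Finset.disjoint_insert_right]
  by_cases h2 : Disjoint f.support z <;> by_cases h3 : p ∈ f.support <;> simp [h2, h3]

theorem cbx_idl_empty {X : ℝ} (hX : X < 1) : S.idl X = ∅ := by
  rw [Finset.eq_empty_iff_forall_notMem]
  intro f hf
  rw [Pre.mem_idl] at hf
  have h1 : (1 : ℝ) ≤ S.nf f := by exact_mod_cast S.nf_pos f
  linarith

theorem cbxT_bound (u : (S.P →₀ ℕ) → ℂ) (a : S.P → ℂ)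
    (hu : ∀ f p, u (f + Finsupp.single p 1) = a p * u f) (ha : ∀ p, ‖a p‖ ≤ 1) (B θ : ℝ)
    (hB : 0 ≤ B) (hθ : 0 ≤ θ) (h : ∀ X : ℝ, 1 ≤ X → ‖∑ f ∈ S.idl X, u f‖ ≤ B * X ^ θ)
    (z : Finset S.P) : ∀ X : ℝ, 0 < X → ‖cbxT S u z X‖ ≤ 2 ^ z.card * B * X ^ θ := by
  classical
  induction z using Finset.induction_on with
  | empty =>
    intro X hX
    have h1 : cbxT S u ∅ X = ∑ f ∈ S.idl X, u f := by
      unfold cbxT
      exact Finset.sum_congr rfl fun f _ => by simp
    rw [h1, Finset.card_empty, pow_zero, one_mul]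
    rcases lt_or_ge X 1 with h2 | h2
    · rw [cbx_idl_empty S h2, Finset.sum_empty, norm_zero]
      exact mul_nonneg hB (Real.rpow_nonneg hX.le _)
    · exact h X h2
  | insert p z hp ih =>
    intro X hX
    have hN1 : (1 : ℝ) ≤ S.N p := by exact_mod_cast S.one_le_N p
    have hN : (0 : ℝ) < S.N p := by linarith
    rw [cbxT_insert S u a hu z p hp X]
    have h1 := ih X hX
    have h2 := ih (X / S.N p) (div_pos hX hN)
    have h3 : (X / S.N p) ^ θ ≤ X ^ θ :=
      Real.rpow_le_rpow (div_pos hX hN).le (div_le_self hX.le hN1) hθ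
    have h4 : ‖a p * cbxT S u z (X / S.N p)‖ ≤ 2 ^ z.card * B * X ^ θ := by
      rw [norm_mul]
      calc ‖a p‖ * ‖cbxT S u z (X / S.N p)‖ ≤ 1 * ‖cbxT S u z (X / S.N p)‖ :=
            mul_le_mul_of_nonneg_right (ha p) (norm_nonneg _)
        _ = ‖cbxT S u z (X / S.N p)‖ := one_mul _
        _ ≤ 2 ^ z.card * B * (X / S.N p) ^ θ := h2
        _ ≤ _ := mul_le_mul_of_nonneg_left h3 (by positivity)
    refine (norm_sub_le _ _).trans ((add_le_add h1 h4).trans (le_of_eq ?_))
    rw [Finset.card_insert_of_notMem hp, pow_succ]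
    ring

/-! ### exponential bounds -/

/-- `B ^ #x` is at most a small power of the norm -/
theorem cbx_pow_card (B ε : ℝ) (hB : 1 ≤ B) (hε : 0 < ε) : ∃ C : ℝ, 1 ≤ C ∧
    ∀ x : Finset S.P, B ^ x.card ≤ C * (S.nm x : ℝ) ^ ε := by
  classical
  have hB0 : 0 < B := by linarith
  set N0 : ℝ := B ^ (1 / ε) with hN0
  have hN0' : 0 ≤ N0 := Real.rpow_nonneg hB0.le _
  refine ⟨B ^ (S.pr N0).card, one_le_pow₀ hB, fun x => ?_⟩
  have h1 : ∀ p : S.P, B ≤ (if (S.N p : ℝ) ≤ N0 then B else 1) * (S.N p : ℝ) ^ ε := by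
    intro p
    have hN1 : (1 : ℝ) ≤ S.N p := by exact_mod_cast S.one_le_N p
    by_cases h : (S.N p : ℝ) ≤ N0
    · rw [if_pos h]
      have h2 : (1 : ℝ) ≤ (S.N p : ℝ) ^ ε := Real.one_le_rpow hN1 hε.le
      nlinarith
    · rw [if_neg h, one_mul]
      push Not at h
      have h2 : N0 ^ ε ≤ (S.N p : ℝ) ^ ε := Real.rpow_le_rpow hN0' h.le hε.le
      have h3 : N0 ^ ε = B := by
        rw [hN0, ← Real.rpow_mul hB0.le, one_div_mul_cancel hε.ne', Real.rpow_one]
      rwa [h3] at h2
  have h4 : (S.nm x : ℝ) ^ ε = ∏ p ∈ x, (S.N p : ℝ) ^ ε := by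
    unfold Pre.nm
    push_cast
    rw [Real.finsetProd_rpow _ _ fun p _ => Nat.cast_nonneg _]
  calc B ^ x.card = ∏ _p ∈ x, B := by rw [Finset.prod_const]
    _ ≤ ∏ p ∈ x, ((if (S.N p : ℝ) ≤ N0 then B else 1) * (S.N p : ℝ) ^ ε) :=
        Finset.prod_le_prod (fun _ _ => hB0.le) fun p _ => h1 p
    _ = (∏ p ∈ x, (if (S.N p : ℝ) ≤ N0 then B else 1)) * ∏ p ∈ x, (S.N p : ℝ) ^ ε :=
        Finset.prod_mul_distrib
    _ = B ^ (x.filter fun p => (S.N p : ℝ) ≤ N0).card * (S.nm x : ℝ) ^ ε := by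
        rw [h4, ← Finset.prod_filter, Finset.prod_const]
    _ ≤ B ^ (S.pr N0).card * (S.nm x : ℝ) ^ ε := by
        refine mul_le_mul_of_nonneg_right ?_ (Real.rpow_nonneg (Nat.cast_nonneg _) _)
        refine pow_le_pow_right₀ hB (Finset.card_le_card fun p hp => ?_)
        rw [S.mem_pr hN0']
        exact (Finset.mem_filter.1 hp).2

theorem cbx_nm_supp (f : S.P →₀ ℕ) : S.nm f.support ≤ S.nf f := by
  unfold Pre.nm Pre.nf Finsupp.prod
  refine Finset.prod_le_prod' fun p hp => ?_
  exact Nat.le_self_pow (Finsupp.mem_support_iff.1 hp) _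

theorem cbx_card_bx (X : ℝ) : (S.bx X).card ≤ (S.idl X).card := by
  refine Finset.card_le_card_of_injOn (fun x => S.idf x) (fun x hx => ?_)
    fun x _ y _ h => S.idf_inj h
  rw [Finset.mem_coe, S.mem_idl, S.nf_idf]
  exact S.mem_bx.1 hx

end

end Pool.Agent.H92.EL
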