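import Pool.Agent.H92.EL.CBoxA

/-!
# Project ELL (MP_a3214d), row C5: bilinear estimate for boxes, orbits and the mean square
-/

set_option autoImplicit false

open scoped BigOperators ComplexConjugate
open Filter

namespace Pool.Agent.H92.EL

open Pool.Agent.H98.MF (Pre)

section

variable {l : ℕ} [Fact l.Prime] (S : SysL l)

/-! ### orbits -/

/-- the orbits of the primes of `y` -/
noncomputable def cbxO (y : Finset S.P) : Finset S.P :=
  y.biUnion fun q => Finset.univ.image fun g : S.D => S.ac g q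

theorem cbx_mem_O {y : Finset S.P} {p : S.P} :
    p ∈ cbxO S y ↔ ∃ q ∈ y, ∃ g : S.D, S.ac g q = p := by
  unfold cbxO
  simp only [Finset.mem_biUnion, Finset.mem_image, Finset.mem_univ, true_and]

theorem cbx_inv (g : S.D) (p : S.P) : S.ac g⁻¹ (S.ac g p) = p := by
  rw [← S.ac_mul, inv_mul_cancel, S.ac_one]

theorem cbx_inv' (g : S.D) (p : S.P) : S.ac g (S.ac g⁻¹ p) = p := by
  rw [← S.ac_mul, mul_inv_cancel, S.ac_one]

theorem cbx_card_O (y : Finset S.P) : (cbxO S y).card ≤ y.card * Fintype.card S.D := by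
  unfold cbxO
  refine Finset.card_biUnion_le_card_mul _ _ _ fun q _ => ?_
  exact Finset.card_image_le.trans (le_of_eq Finset.card_univ)

theorem cbx_nm_image (q : S.P) (s : Finset S.D) :
    S.nm (s.image fun g => S.ac g q) ≤ S.N q ^ s.card := by
  classical
  induction s using Finset.induction_on with
  | empty => simp [S.nm_empty]
  | insert a s ha ih =>
    rw [Finset.image_insert, Finset.card_insert_of_notMem ha, pow_succ, mul_comm]
    by_cases h : S.ac a q ∈ s.image fun g => S.ac g q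
    · rw [Finset.insert_eq_of_mem h]
      exact ih.trans (Nat.le_mul_of_pos_left _ (S.one_le_N q))
    · rw [S.nm_insert h, S.N_ac]
      exact Nat.mul_le_mul_left _ ih

theorem cbx_nm_O (y : Finset S.P) : S.nm (cbxO S y) ≤ S.nm y ^ Fintype.card S.D := by
  classical
  induction y using Finset.induction_on with
  | empty => simp [cbxO, S.nm_empty]
  | insert q y hq ih =>
    have h1 : cbxO S (insert q y) = (Finset.univ.image fun g : S.D => S.ac g q) ∪ cbxO S y := by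
      unfold cbxO
      rw [Finset.biUnion_insert]
    rw [h1, S.nm_insert hq, mul_pow]
    refine (S.nm_union_le _ _).trans (Nat.mul_le_mul ?_ ih)
    exact (cbx_nm_image S q Finset.univ).trans (le_of_eq (by rw [Finset.card_univ]))

/-! ### the coefficient functions -/

/-- the sum of the symbols with coefficients -/
noncomputable def cbxS (f : S.P →₀ ZMod l) (p : S.P) : ZMod l := f.sum fun q t => t * S.s q p

theorem cbxS_add (f f' : S.P →₀ ZMod l) (p : S.P) :
    cbxS S (f + f') p = cbxS S f p + cbxS S f' p :=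
  Finsupp.sum_add_index' (fun _ => zero_mul _) fun _ _ _ => add_mul _ _ _

theorem cbxS_sub (f f' : S.P →₀ ZMod l) (p : S.P) :
    cbxS S (f - f') p = cbxS S f p - cbxS S f' p :=
  Finsupp.sum_sub_index fun _ _ _ => sub_mul _ _ _

theorem cbxS_zero (p : S.P) : cbxS S 0 p = 0 := Finsupp.sum_zero_index

theorem cbxS_sum {ι : Type} (s : Finset ι) (f : ι → S.P →₀ ZMod l) (p : S.P) :
    cbxS S (∑ i ∈ s, f i) p = ∑ i ∈ s, cbxS S (f i) p := by
  classical
  induction s using Finset.induction_on with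
  | empty => rw [Finset.sum_empty, Finset.sum_empty, cbxS_zero]
  | insert a s ha ih => rw [Finset.sum_insert ha, Finset.sum_insert ha, cbxS_add, ih]

theorem cbxS_single (q : S.P) (a : ZMod l) (p : S.P) :
    cbxS S (Finsupp.single q a) p = a * S.s q p :=
  Finsupp.sum_single_index (zero_mul _)

variable (t : S.D → ZMod l)

/-- the coefficients of the character of `y` -/
noncomputable def cbxF (y : Finset S.P) : S.P →₀ ZMod l :=
  ∑ q ∈ y, ∑ g : S.D, Finsupp.single (S.ac g⁻¹ q) (t g * ((S.e g : (ZMod l)ˣ) : ZMod l))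

theorem cbxS_F (y : Finset S.P) (p : S.P) : cbxS S (cbxF S t y) p =
    ∑ q ∈ y, ∑ g : S.D, t g * ((S.e g : (ZMod l)ˣ) : ZMod l) * S.s (S.ac g⁻¹ q) p := by
  unfold cbxF
  rw [cbxS_sum]
  refine Finset.sum_congr rfl fun q _ => ?_
  rw [cbxS_sum]
  refine Finset.sum_congr rfl fun g _ => ?_
  rw [cbxS_single]

theorem cbx_Tt {x y : Finset S.P} (h : Disjoint x (cbxO S y)) :
    S.Tt t x y = ∑ p ∈ x, cbxS S (cbxF S t y) p := by
  unfold SysL.Tt
  refine Finset.sum_congr rfl fun p hp => ?_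
  rw [cbxS_F]
  refine Finset.sum_congr rfl fun q hq => Finset.sum_congr rfl fun g _ => ?_
  have hne : p ≠ S.ac g⁻¹ q := fun h' =>
    Finset.disjoint_left.1 h hp ((cbx_mem_O S).2 ⟨q, hq, g⁻¹, h'.symm⟩)
  have e1 := S.s_ac g p (S.ac g⁻¹ q) hne
  rw [cbx_inv'] at e1
  rw [e1, S.symm _ _ hne]
  ring

/-! ### good sets -/

/-- primes of degree one, one above each prime of the base field -/
def cbxG (y : Finset S.P) : Prop :=
  (∀ p ∈ y, S.rg p) ∧ ∀ p ∈ y, ∀ q ∈ y, ∀ g, S.ac g p = q → p = q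

theorem cbx_G2 {x y : Finset S.P} :
    S.G2 x y ↔ cbxG S x ∧ cbxG S y ∧ Disjoint x (cbxO S y) := by
  unfold SysL.G2 SysL.Gd cbxG
  constructor
  · rintro ⟨h1, h2⟩
    refine ⟨⟨fun p hp => h1 true p (by simpa using hp), fun p hp q hq g hg =>
      (h2 true true p (by simpa using hp) q (by simpa using hq) g hg).2⟩,
      ⟨fun p hp => h1 false p (by simpa using hp), fun p hp q hq g hg =>
      (h2 false false p (by simpa using hp) q (by simpa using hq) g hg).2⟩, ?_⟩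
    rw [Finset.disjoint_left]
    intro p hp hpO
    obtain ⟨q, hq, g, hg⟩ := (cbx_mem_O S).1 hpO
    have h3 := (h2 false true q (by simpa using hq) p (by simpa using hp) g hg).1
    exact absurd h3 (by decide)
  · rintro ⟨hx, hy, hd⟩
    refine ⟨fun u p hp => ?_, fun u v p hp q hq g hg => ?_⟩
    · cases u
      · exact hy.1 p (by simpa using hp)
      · exact hx.1 p (by simpa using hp)
    · cases u <;> cases v
      · exact ⟨rfl, hy.2 p (by simpa using hp) q (by simpa using hq) g hg⟩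
      · exfalso
        exact Finset.disjoint_left.1 hd (by simpa using hq)
          ((cbx_mem_O S).2 ⟨p, by simpa using hp, g, hg⟩)
      · exfalso
        have h3 := Finset.disjoint_left.1 hd (show p ∈ x by simpa using hp)
        exact h3 ((cbx_mem_O S).2 ⟨q, by simpa using hq, g⁻¹, by rw [← hg, cbx_inv]⟩)
      · exact ⟨rfl, hx.2 p (by simpa using hp) q (by simpa using hq) g hg⟩

open Classical in
theorem cbxF_apply (y : Finset S.P) (r : S.P) : cbxF S t y r =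
    ∑ q ∈ y, ∑ g : S.D, if S.ac g⁻¹ q = r then t g * ((S.e g : (ZMod l)ˣ) : ZMod l) else 0 := by
  unfold cbxF
  rw [Finsupp.finsetSum_apply]
  refine Finset.sum_congr rfl fun q _ => ?_
  rw [Finsupp.finsetSum_apply]
  refine Finset.sum_congr rfl fun g _ => ?_
  rw [Finsupp.single_apply]

theorem cbxF_supp (y : Finset S.P) : (cbxF S t y).support ⊆ cbxO S y := by
  classical
  intro r hr
  by_contra h
  rw [Finsupp.mem_support_iff] at hr
  apply hr
  rw [cbxF_apply]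
  refine Finset.sum_eq_zero fun q hq => Finset.sum_eq_zero fun g _ => ?_
  rw [if_neg]
  intro h1
  exact h ((cbx_mem_O S).2 ⟨q, hq, g⁻¹, h1⟩)

theorem cbxF_val {y : Finset S.P} (hy : cbxG S y) {q : S.P} (hq : q ∈ y) (g : S.D) :
    cbxF S t y (S.ac g⁻¹ q) = t g * ((S.e g : (ZMod l)ˣ) : ZMod l) := by
  classical
  rw [cbxF_apply]
  have key : ∀ q₁ ∈ y, ∀ g₁ : S.D, S.ac g₁⁻¹ q₁ = S.ac g⁻¹ q → q₁ = q ∧ g₁ = g := by
    intro q₁ hq₁ g₁ h
    have h1 : S.ac (g * g₁⁻¹) q₁ = q := by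
      rw [S.ac_mul, h, cbx_inv']
    have h2 := hy.2 q₁ hq₁ q hq _ h1
    refine ⟨h2, ?_⟩
    rw [h2] at h1
    have h3 := hy.1 q hq _ h1
    have h4 : g = g₁ := mul_inv_eq_one.1 h3
    exact h4.symm
  rw [Finset.sum_eq_single q, Finset.sum_eq_single g, if_pos rfl]
  · intro g₁ _ hne
    rw [if_neg fun h => hne (key q hq g₁ h).2]
  · intro h
    exact absurd (Finset.mem_univ g) h
  · intro q₁ hq₁ hne
    refine Finset.sum_eq_zero fun g₁ _ => ?_
    rw [if_neg fun h => hne (key q₁ hq₁ g₁ h).1]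
  · intro h
    exact absurd hq h

theorem cbxF_eq {g0 : S.D} (ht : t g0 ≠ 0) {y y' : Finset S.P} (hy' : cbxG S y')
    (h : cbxF S t y = cbxF S t y') : y' ⊆ cbxO S y := by
  intro q hq
  have h1 := cbxF_val S t hy' hq g0
  rw [← h] at h1
  have h2 : S.ac g0⁻¹ q ∈ (cbxF S t y).support := by
    rw [Finsupp.mem_support_iff, h1]
    exact mul_ne_zero ht (Units.ne_zero _)
  obtain ⟨r, hr, g, hg⟩ := (cbx_mem_O S).1 (cbxF_supp S t y h2)
  refine (cbx_mem_O S).2 ⟨r, hr, g0 * g, ?_⟩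
  rw [S.ac_mul, hg, cbx_inv']

/-! ### the characters -/

/-- the character of `y` -/
noncomputable def cbxX (y : Finset S.P) (f : S.P →₀ ℕ) : ℂ :=
  chc S.toPre (cbxO S y) (cbxS S (cbxF S t y)) f

theorem cbxX_norm (y : Finset S.P) (f : S.P →₀ ℕ) : ‖cbxX S t y f‖ ≤ 1 := cbx_chc_norm _ _ _ _

/-- the correlation of two characters -/
noncomputable def cbxK (Z : ℝ) (y y' : Finset S.P) : ℂ :=
  ∑ f ∈ S.idl Z, cbxX S t y f * conj (cbxX S t y' f)

theorem cbxK_triv (Z : ℝ) (y y' : Finset S.P) : ‖cbxK S t Z y y'‖ ≤ ((S.idl Z).card : ℝ) := by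
  unfold cbxK
  refine (norm_sum_le _ _).trans ?_
  rw [Finset.card_eq_sum_ones]
  push_cast
  refine Finset.sum_le_sum fun f _ => ?_
  rw [norm_mul, RCLike.norm_conj]
  exact mul_le_one₀ (cbxX_norm S t y f) (norm_nonneg _) (cbxX_norm S t y' f)

/-- the exponent of the modulus -/
noncomputable def cbxA : ℝ := 2 * Fintype.card S.D * (S.A + 1)

theorem cbxA_nonneg : 0 ≤ cbxA S := by
  unfold cbxA
  have := S.A_nonneg
  positivity

theorem cbxK_off {Y : ℝ} (hY : 1 ≤ Y) {y y' : Finset S.P} (hy : y ∈ S.bx Y)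
    (hy' : y' ∈ S.bx Y) (hne : cbxF S t y ≠ cbxF S t y') {Z : ℝ} (hZ : 1 ≤ Z) :
    ‖cbxK S t Z y y'‖ ≤ S.C * Y ^ cbxA S * Z ^ (1 - S.δ) := by
  classical
  have hY0 : 0 < Y := by linarith
  set f : S.P →₀ ZMod l := cbxF S t y - cbxF S t y' with hf
  have hf0 : f ≠ 0 := sub_ne_zero.2 hne
  set W : Finset S.P := cbxO S y ∪ cbxO S y' with hW
  have hfW : f.support ⊆ W := by
    refine (Finsupp.support_sub).trans ?_
    exact Finset.union_subset_union (cbxF_supp S t y) (cbxF_supp S t y')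
  set u : (S.P →₀ ℕ) → ℂ := fun i => chc S.toPre f.support (cbxS S f) i with hu
  have e1 : cbxK S t Z y y' = cbxT S.toPre u (W \ f.support) Z := by
    unfold cbxK cbxT
    refine Finset.sum_congr rfl fun i _ => ?_
    unfold cbxX
    rw [cbx_chc_conj S.toPre (cbxO S y) (cbxO S y') f.support (W \ f.support) _ _
      (cbxS S f) (fun p => by rw [hf, cbxS_sub])
      (by rw [Finset.union_sdiff_of_subset hfW]) i]
    by_cases h : Disjoint i.support (W \ f.support)
    · rw [if_pos h, cbx_chc_pos S.toPre _ h]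
      have h0 : (i.sum fun (p : S.P) (k : ℕ) => (k : ZMod l) * (0 : ZMod l)) = 0 := by
        unfold Finsupp.sum
        simp
      rw [h0, cbx_ec_zero, one_mul]
    · rw [if_neg h, cbx_chc_neg S.toPre _ h, zero_mul]
  have hbd : ∀ X : ℝ, 1 ≤ X → ‖∑ i ∈ S.toPre.idl X, u i‖ ≤
      (S.C * (S.nm f.support : ℝ) ^ S.A) * X ^ (1 - S.δ) := by
    intro X hX
    have h1 := S.chr f 0 (Or.inl hf0) X hX
    simp only [zero_dotProduct, add_zero] at h1
    exact h1
  have h2 := cbxT_bound S.toPre u (fun p => u (Finsupp.single p 1))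
    (fun i p => by rw [hu]; simp only; rw [cbx_chc_add, mul_comm])
    (fun p => cbx_chc_norm _ _ _ _) (S.C * (S.nm f.support : ℝ) ^ S.A) (1 - S.δ)
    (mul_nonneg S.C_nonneg (Real.rpow_nonneg (Nat.cast_nonneg _) _))
    (by linarith [S.δ_le]) hbd (W \ f.support) Z (by linarith)
  rw [e1]
  refine h2.trans (mul_le_mul_of_nonneg_right ?_ (Real.rpow_nonneg (by linarith) _))
  have hWY : (S.nm W : ℝ) ≤ Y ^ (2 * (Fintype.card S.D : ℝ)) := by
    have h3 : S.nm W ≤ S.nm y ^ Fintype.card S.D * S.nm y' ^ Fintype.card S.D :=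
      (S.nm_union_le _ _).trans (Nat.mul_le_mul (cbx_nm_O S y) (cbx_nm_O S y'))
    have h4 := S.mem_bx.1 hy
    have h5 := S.mem_bx.1 hy'
    calc (S.nm W : ℝ) ≤ (S.nm y : ℝ) ^ Fintype.card S.D * (S.nm y' : ℝ) ^ Fintype.card S.D := by
          exact_mod_cast h3
      _ ≤ Y ^ Fintype.card S.D * Y ^ Fintype.card S.D :=
          mul_le_mul (pow_le_pow_left₀ (Nat.cast_nonneg _) h4 _)
            (pow_le_pow_left₀ (Nat.cast_nonneg _) h5 _) (by positivity) (by positivity)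
      _ = Y ^ (2 * (Fintype.card S.D : ℝ)) := by
          rw [← pow_add, ← two_mul, ← Real.rpow_natCast]
          push_cast
          rfl
  have hW1 : (1 : ℝ) ≤ S.nm W := S.one_le_nmr W
  have h6 : (2 : ℝ) ^ (W \ f.support).card ≤ S.nm W := by
    have h7 := S.pow_card_le_nm (W \ f.support)
    have h8 := S.nm_mono (Finset.sdiff_subset (s := W) (t := f.support))
    exact_mod_cast h7.trans h8
  have h7 : (S.nm f.support : ℝ) ^ S.A ≤ (S.nm W : ℝ) ^ S.A :=
    Real.rpow_le_rpow (Nat.cast_nonneg _) (by exact_mod_cast S.nm_mono hfW) S.A_nonneg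
  have h8 : (S.nm W : ℝ) * (S.nm W : ℝ) ^ S.A ≤ Y ^ cbxA S := by
    have h9 : (S.nm W : ℝ) * (S.nm W : ℝ) ^ S.A = (S.nm W : ℝ) ^ (S.A + 1) := by
      rw [Real.rpow_add (by linarith), Real.rpow_one, mul_comm]
    rw [h9]
    unfold cbxA
    rw [Real.rpow_mul hY0.le]
    exact Real.rpow_le_rpow (by linarith) hWY (by linarith [S.A_nonneg])
  have hC := S.C_nonneg
  have hp0 : 0 ≤ (S.nm f.support : ℝ) ^ S.A := Real.rpow_nonneg (Nat.cast_nonneg _) _
  calc (2 : ℝ) ^ (W \ f.support).card * (S.C * (S.nm f.support : ℝ) ^ S.A)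
      ≤ (S.nm W : ℝ) * (S.C * (S.nm W : ℝ) ^ S.A) :=
        mul_le_mul h6 (mul_le_mul_of_nonneg_left h7 hC) (mul_nonneg hC hp0) (by linarith)
    _ = S.C * ((S.nm W : ℝ) * (S.nm W : ℝ) ^ S.A) := by ring
    _ ≤ S.C * Y ^ cbxA S := mul_le_mul_of_nonneg_left h8 hC

/-! ### counting -/

/-- the constant of the count -/
noncomputable def cbxC : ℝ := S.κ + S.C

theorem cbxC_pos : 0 < cbxC S := by
  unfold cbxC
  have h1 := S.κ_pos
  have h2 := S.C_nonneg
  linarith

theorem cbx_idl_le {X : ℝ} (hX : 1 ≤ X) : ((S.idl X).card : ℝ) ≤ cbxC S * X := by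
  have h1 := S.cnt X hX
  have h2 : X ^ (1 - S.δ) ≤ X := by
    conv_rhs => rw [← Real.rpow_one X]
    exact Real.rpow_le_rpow_of_exponent_le hX (by linarith [S.δ_pos])
  have h3 := (abs_le.1 h1).2
  have h4 : S.C * X ^ (1 - S.δ) ≤ S.C * X := mul_le_mul_of_nonneg_left h2 S.C_nonneg
  unfold cbxC
  linarith

theorem cbx_bx_le {X : ℝ} (hX : 1 ≤ X) : ((S.bx X).card : ℝ) ≤ cbxC S * X := by
  refine le_trans ?_ (cbx_idl_le S hX)
  exact_mod_cast cbx_card_bx S.toPre X

open Classical in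
/-- the number of sets with the same character -/
theorem cbx_same (ε : ℝ) (hε : 0 < ε) (ht : t ≠ 0) : ∃ C : ℝ, 0 ≤ C ∧
    ∀ (Y : ℝ) (y : Finset S.P), 1 ≤ Y → y ∈ S.bx Y →
      ((((S.bx Y).filter (cbxG S)).filter fun y' => cbxF S t y = cbxF S t y').card : ℝ) ≤
        C * Y ^ ε := by
  obtain ⟨g0, hg0⟩ : ∃ g0, t g0 ≠ 0 := by
    by_contra h
    push Not at h
    exact ht (funext h)
  obtain ⟨C, hC, h1⟩ := cbx_pow_card S.toPre (2 ^ Fintype.card S.D) ε
    (one_le_pow₀ one_le_two) hε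
  refine ⟨C, by linarith, fun Y y hY hy => ?_⟩
  have h2 : (((S.bx Y).filter (cbxG S)).filter fun y' => cbxF S t y = cbxF S t y') ⊆
      (cbxO S y).powerset := by
    intro y' hy'
    rw [Finset.mem_filter, Finset.mem_filter] at hy'
    exact Finset.mem_powerset.2 (cbxF_eq S t hg0 hy'.1.2 hy'.2)
  have h3 := Finset.card_le_card h2
  rw [Finset.card_powerset] at h3
  have h4 : (2 : ℝ) ^ (cbxO S y).card ≤ (2 ^ Fintype.card S.D) ^ y.card := by
    rw [← pow_mul]
    refine pow_le_pow_right₀ one_le_two ?_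
    rw [mul_comm]
    exact cbx_card_O S y
  have h5 : (S.nm y : ℝ) ^ ε ≤ Y ^ ε :=
    Real.rpow_le_rpow (Nat.cast_nonneg _) (S.mem_bx.1 hy) hε.le
  calc ((((S.bx Y).filter (cbxG S)).filter fun y' => cbxF S t y = cbxF S t y').card : ℝ)
      ≤ (2 : ℝ) ^ (cbxO S y).card := by exact_mod_cast h3
    _ ≤ (2 ^ Fintype.card S.D) ^ y.card := h4
    _ ≤ C * (S.nm y : ℝ) ^ ε := h1 y
    _ ≤ C * Y ^ ε := mul_le_mul_of_nonneg_left h5 (by linarith)

open Classical in
/-- the mean square -/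
theorem cbx_sieve (ε : ℝ) (hε : 0 < ε) (ht : t ≠ 0) : ∃ C : ℝ, 0 ≤ C ∧
    ∀ (Z Y : ℝ) (b : Finset S.P → ℂ), 1 ≤ Z → 1 ≤ Y → (∀ y, ‖b y‖ ≤ 1) →
      ∑ f ∈ S.idl Z, ‖∑ y ∈ (S.bx Y).filter (cbxG S), b y * cbxX S t y f‖ ^ 2 ≤
        C * (Z * Y ^ (1 + ε) + Y ^ (cbxA S + 2) * Z ^ (1 - S.δ)) := by
  obtain ⟨C2, hC2, hs⟩ := cbx_same S t ε hε ht
  have hC1 := cbxC_pos S
  have hCC := S.C_nonneg
  refine ⟨cbxC S ^ 2 * (C2 + S.C), by positivity, fun Z Y b hZ hY hb => ?_⟩
  have hZ0 : 0 < Z := by linarith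
  have hY0 : 0 < Y := by linarith
  set G := (S.bx Y).filter (cbxG S) with hG
  -- expansion
  have h1 : ((∑ f ∈ S.idl Z, ‖∑ y ∈ G, b y * cbxX S t y f‖ ^ 2 : ℝ) : ℂ) =
      ∑ y ∈ G, ∑ y' ∈ G, b y * conj (b y') * cbxK S t Z y y' := by
    push_cast
    have h2 : ∀ f : S.P →₀ ℕ, ((‖∑ y ∈ G, b y * cbxX S t y f‖ : ℂ)) ^ 2 =
        ∑ y ∈ G, ∑ y' ∈ G, b y * conj (b y') * (cbxX S t y f * conj (cbxX S t y' f)) := by
      intro f
      rw [← Complex.mul_conj', map_sum, Finset.sum_mul_sum]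
      refine Finset.sum_congr rfl fun y _ => Finset.sum_congr rfl fun y' _ => ?_
      rw [map_mul]
      ring
    rw [Finset.sum_congr rfl fun f _ => h2 f, Finset.sum_comm]
    refine Finset.sum_congr rfl fun y _ => ?_
    rw [Finset.sum_comm]
    refine Finset.sum_congr rfl fun y' _ => ?_
    unfold cbxK
    rw [Finset.mul_sum]
  have h0 : 0 ≤ ∑ f ∈ S.idl Z, ‖∑ y ∈ G, b y * cbxX S t y f‖ ^ 2 :=
    Finset.sum_nonneg fun f _ => sq_nonneg _
  have h2 : ∑ f ∈ S.idl Z, ‖∑ y ∈ G, b y * cbxX S t y f‖ ^ 2 ≤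
      ∑ y ∈ G, ∑ y' ∈ G, ‖cbxK S t Z y y'‖ := by
    have h3 : ∑ f ∈ S.idl Z, ‖∑ y ∈ G, b y * cbxX S t y f‖ ^ 2 =
        ‖((∑ f ∈ S.idl Z, ‖∑ y ∈ G, b y * cbxX S t y f‖ ^ 2 : ℝ) : ℂ)‖ := by
      rw [Complex.norm_real, Real.norm_eq_abs, abs_of_nonneg h0]
    rw [h3, h1]
    refine (norm_sum_le _ _).trans (Finset.sum_le_sum fun y _ => ?_)
    refine (norm_sum_le _ _).trans (Finset.sum_le_sum fun y' _ => ?_)
    rw [norm_mul, norm_mul, RCLike.norm_conj]
    exact mul_le_of_le_one_left (norm_nonneg _) (mul_le_one₀ (hb y) (norm_nonneg _) (hb y'))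
  refine h2.trans ?_
  set B : ℝ := S.C * Y ^ cbxA S * Z ^ (1 - S.δ) with hB
  have hB0 : 0 ≤ B := by positivity
  have hGc : (G.card : ℝ) ≤ cbxC S * Y := by
    refine le_trans ?_ (cbx_bx_le S hY)
    exact_mod_cast Finset.card_filter_le _ _
  have h3 : ∀ y ∈ G, ∑ y' ∈ G, ‖cbxK S t Z y y'‖ ≤
      (C2 * Y ^ ε) * (cbxC S * Z) + (cbxC S * Y) * B := by
    intro y hy
    have hyb : y ∈ S.bx Y := (Finset.mem_filter.1 hy).1
    have h4 : ∀ y' ∈ G, ‖cbxK S t Z y y'‖ ≤
        (if cbxF S t y = cbxF S t y' then cbxC S * Z else 0) + B := by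
      intro y' hy'
      by_cases h5 : cbxF S t y = cbxF S t y'
      · rw [if_pos h5]
        have h6 := (cbxK_triv S t Z y y').trans (cbx_idl_le S hZ)
        linarith
      · rw [if_neg h5, zero_add]
        exact cbxK_off S t hY hyb (Finset.mem_filter.1 hy').1 h5 hZ
    refine (Finset.sum_le_sum h4).trans ?_
    rw [Finset.sum_add_distrib, Finset.sum_const, nsmul_eq_mul, ← Finset.sum_filter,
      Finset.sum_const, nsmul_eq_mul]
    have h5 := hs Y y hY hyb
    have h6 : 0 ≤ cbxC S * Z := by positivity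
    exact add_le_add (mul_le_mul_of_nonneg_right h5 h6) (mul_le_mul_of_nonneg_right hGc hB0)
  refine (Finset.sum_le_sum h3).trans ?_
  rw [Finset.sum_const, nsmul_eq_mul]
  have h7 : 0 ≤ (C2 * Y ^ ε) * (cbxC S * Z) + (cbxC S * Y) * B := by positivity
  refine (mul_le_mul_of_nonneg_right hGc h7).trans ?_
  have e1 : Y ^ (1 + ε) = Y * Y ^ ε := by
    rw [Real.rpow_add hY0, Real.rpow_one]
  have e2 : Y ^ (cbxA S + 2) = Y ^ cbxA S * (Y * Y) := by
    rw [Real.rpow_add hY0, Real.rpow_two, sq]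
  rw [hB, e1, e2]
  have p1 : 0 ≤ Z * (Y * Y ^ ε) := by positivity
  have p2 : 0 ≤ Y ^ cbxA S * (Y * Y) * Z ^ (1 - S.δ) := by positivity
  have q1 : 0 ≤ cbxC S ^ 2 * S.C := by positivity
  have q2 : 0 ≤ cbxC S ^ 2 * C2 := by positivity
  nlinarith [mul_nonneg q1 p1, mul_nonneg q2 p2]

end

end Pool.Agent.H92.EL
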