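import Pool.Agent.H92.EL.CStm

/-!
# Project ELL (MP_a3214d), block C, row C24, part A: weighted norms of polynomials and products over
disjoint sets of variables (helper21)
-/

set_option autoImplicit false

open scoped BigOperators Topology
open Filter

namespace Pool.Agent.H92.EL.CmpA

open MvPolynomial

section

variable {P : Type}

/-- the weighted norm -/
noncomputable def nw (w : (P →₀ ℕ) → ℝ) (q : MvPolynomial P ℂ) : ℝ :=
  ∑ f ∈ q.support, ‖q.coeff f‖ * w f

theorem nw_eq {w : (P →₀ ℕ) → ℝ} {q : MvPolynomial P ℂ} {T : Finset (P →₀ ℕ)}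
    (h : q.support ⊆ T) : nw w q = ∑ f ∈ T, ‖q.coeff f‖ * w f := by
  unfold nw
  refine Finset.sum_subset h fun f _ hf => ?_
  rw [MvPolynomial.notMem_support_iff.1 hf, norm_zero, zero_mul]

theorem sum_le_nw {w : (P →₀ ℕ) → ℝ} (hw : ∀ f, 0 ≤ w f) (q : MvPolynomial P ℂ)
    (T : Finset (P →₀ ℕ)) : ∑ f ∈ T, ‖q.coeff f‖ * w f ≤ nw w q := by
  classical
  rw [nw_eq (Finset.subset_union_left (s₁ := q.support) (s₂ := T))]
  exact Finset.sum_le_sum_of_subset_of_nonneg Finset.subset_union_right
    fun f _ _ => mul_nonneg (norm_nonneg _) (hw f)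

theorem nw_nonneg {w : (P →₀ ℕ) → ℝ} (hw : ∀ f, 0 ≤ w f) (q : MvPolynomial P ℂ) : 0 ≤ nw w q :=
  Finset.sum_nonneg fun f _ => mul_nonneg (norm_nonneg _) (hw f)

theorem nw_add {w : (P →₀ ℕ) → ℝ} (hw : ∀ f, 0 ≤ w f) (p q : MvPolynomial P ℂ) :
    nw w (p + q) ≤ nw w p + nw w q := by
  classical
  rw [nw_eq (MvPolynomial.support_add (p := p) (q := q)),
    nw_eq (Finset.subset_union_left (s₁ := p.support) (s₂ := q.support)),
    nw_eq (Finset.subset_union_right (s₁ := p.support) (s₂ := q.support)),
    ← Finset.sum_add_distrib]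
  refine Finset.sum_le_sum fun f _ => ?_
  rw [← add_mul, MvPolynomial.coeff_add]
  exact mul_le_mul_of_nonneg_right (norm_add_le _ _) (hw f)

theorem nw_monomial {w : (P →₀ ℕ) → ℝ} (hw : ∀ f, 0 ≤ w f) (f : P →₀ ℕ) (c : ℂ) :
    nw w (monomial f c) = ‖c‖ * w f := by
  classical
  rw [nw_eq (MvPolynomial.support_monomial_subset (s := f) (a := c)), Finset.sum_singleton,
    MvPolynomial.coeff_monomial, if_pos rfl]

theorem nw_sum {w : (P →₀ ℕ) → ℝ} (hw : ∀ f, 0 ≤ w f) {ι : Type*} (s : Finset ι)
    (q : ι → MvPolynomial P ℂ) : nw w (∑ i ∈ s, q i) ≤ ∑ i ∈ s, nw w (q i) := by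
  classical
  induction s using Finset.induction_on with
  | empty => simp [nw]
  | insert i s hi ih =>
    rw [Finset.sum_insert hi, Finset.sum_insert hi]
    exact (nw_add hw _ _).trans (add_le_add le_rfl ih)

theorem nw_mul {w : (P →₀ ℕ) → ℝ} (hw : ∀ f, 0 ≤ w f) (hm : ∀ f g, w (f + g) = w f * w g)
    (p q : MvPolynomial P ℂ) : nw w (p * q) ≤ nw w p * nw w q := by
  classical
  have h1 : p * q = ∑ a ∈ p.support, ∑ b ∈ q.support,
      monomial (a + b) (p.coeff a * q.coeff b) := by
    conv_lhs => rw [p.as_sum, q.as_sum]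
    rw [Finset.sum_mul_sum]
    refine Finset.sum_congr rfl fun a _ => Finset.sum_congr rfl fun b _ => ?_
    rw [MvPolynomial.monomial_mul]
  rw [h1]
  refine (nw_sum hw _ _).trans ?_
  have h2 : nw w p * nw w q = ∑ a ∈ p.support, ∑ b ∈ q.support,
      (‖p.coeff a‖ * w a) * (‖q.coeff b‖ * w b) := by
    unfold nw
    rw [Finset.sum_mul_sum]
  rw [h2]
  refine Finset.sum_le_sum fun a _ => ?_
  refine (nw_sum hw _ _).trans (Finset.sum_le_sum fun b _ => ?_)
  rw [nw_monomial hw, hm, norm_mul]
  apply le_of_eq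
  ring

theorem nw_one {w : (P →₀ ℕ) → ℝ} (hw : ∀ f, 0 ≤ w f) (h0 : w 0 = 1) :
    nw w (1 : MvPolynomial P ℂ) = 1 := by
  have h := nw_monomial hw (0 : P →₀ ℕ) 1
  rw [h0, norm_one, one_mul] at h
  exact h

theorem nw_prod {w : (P →₀ ℕ) → ℝ} (hw : ∀ f, 0 ≤ w f) (h0 : w 0 = 1)
    (hm : ∀ f g, w (f + g) = w f * w g) {ι : Type*} (s : Finset ι) (q : ι → MvPolynomial P ℂ) :
    nw w (∏ i ∈ s, q i) ≤ ∏ i ∈ s, nw w (q i) := by
  classical
  induction s using Finset.induction_on with
  | empty => simp [nw_one hw h0]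
  | insert i s hi ih =>
    rw [Finset.prod_insert hi, Finset.prod_insert hi]
    exact (nw_mul hw hm _ _).trans (mul_le_mul_of_nonneg_left ih (nw_nonneg hw _))

/-! ### disjoint sets of variables -/

theorem flt (f : P →₀ ℕ) (Q : P → Prop) [DecidablePred Q] (p : P) :
    (f.filter Q) p = if Q p then f p else 0 := Finsupp.filter_apply Q f p

variable {O : Type} [DecidableEq O] (o : P → O) (q : O → MvPolynomial P ℂ)

theorem coeff_prod (hq0 : ∀ i, (q i).coeff 0 = 1)
    (hqs : ∀ i f, (q i).coeff f ≠ 0 → ∀ p ∈ f.support, o p = i) (Φ : Finset O) (f : P →₀ ℕ) :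
    (∏ i ∈ Φ, q i).coeff f = if f.support.image o ⊆ Φ then
      ∏ i ∈ Φ, (q i).coeff (f.filter fun p => o p = i) else 0 := by
  classical
  induction Φ using Finset.induction_on generalizing f with
  | empty =>
    rw [Finset.prod_empty, Finset.prod_empty, MvPolynomial.coeff_one]
    by_cases h : f = 0
    · subst h
      simp
    · rw [if_neg (fun h' => h h'.symm), if_neg]
      intro h'
      rw [Finset.subset_empty, Finset.image_eq_empty, Finsupp.support_eq_empty] at h'
      exact h h'
  | insert j Φ hj ih =>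
    rw [Finset.prod_insert hj, Finset.prod_insert hj, MvPolynomial.coeff_mul]
    set a0 := f.filter fun p => o p = j with ha0
    set b0 := f.filter fun p => ¬ o p = j with hb0
    have hab : a0 + b0 = f := Finsupp.filter_pos_add_filter_neg f _
    rw [Finset.sum_eq_single (a0, b0)]
    · simp only
      rw [ih b0]
      have h1 : b0.support.image o ⊆ Φ ↔ f.support.image o ⊆ insert j Φ := by
        constructor
        · intro h i hi
          obtain ⟨p, hp, rfl⟩ := Finset.mem_image.1 hi
          by_cases hpj : o p = j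
          · rw [hpj]
            exact Finset.mem_insert_self _ _
          · refine Finset.mem_insert_of_mem (h (Finset.mem_image_of_mem o ?_))
            rw [hb0, Finsupp.mem_support_iff, flt, if_pos hpj]
            exact Finsupp.mem_support_iff.1 hp
        · intro h i hi
          obtain ⟨p, hp, rfl⟩ := Finset.mem_image.1 hi
          have hpj : ¬ o p = j := by
            intro hpj
            rw [hb0, Finsupp.mem_support_iff, flt, if_neg (fun h => h hpj)] at hp
            exact hp rfl
          have hpf : p ∈ f.support := by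
            rw [hb0, Finsupp.mem_support_iff, flt, if_pos hpj] at hp
            exact Finsupp.mem_support_iff.2 hp
          rcases Finset.mem_insert.1 (h (Finset.mem_image_of_mem o hpf)) with h2 | h2
          · exact absurd h2 hpj
          · exact h2
      by_cases h2 : f.support.image o ⊆ insert j Φ
      · rw [if_pos (h1.2 h2), if_pos h2]
        congr 1
        refine Finset.prod_congr rfl fun i hi => ?_
        congr 1
        ext p
        rw [flt f, flt b0]
        by_cases hpi : o p = i
        · have hpj : ¬ o p = j := by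
            rw [hpi]
            rintro rfl
            exact hj hi
          rw [if_pos hpi, if_pos hpi, hb0, flt, if_pos hpj]
        · rw [if_neg hpi, if_neg hpi]
      · rw [if_neg (fun h3 => h2 (h1.1 h3)), if_neg h2, mul_zero]
    · rintro ⟨a, b⟩ hmem hne
      rw [Finset.HasAntidiagonal.mem_antidiagonal] at hmem
      simp only at hmem ⊢
      by_contra h0
      have ha : (q j).coeff a ≠ 0 := left_ne_zero_of_mul h0
      have hb := right_ne_zero_of_mul h0
      rw [ih b] at hb
      have hb' : b.support.image o ⊆ Φ := by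
        by_contra h3
        exact hb (if_neg h3)
      apply hne
      have hbj : ∀ p, o p = j → b p = 0 := by
        intro p hp
        by_contra h3
        apply hj
        rw [← hp]
        exact hb' (Finset.mem_image_of_mem o (Finsupp.mem_support_iff.2 h3))
      have haj : ∀ p, ¬ o p = j → a p = 0 := by
        intro p hp
        by_contra h3
        exact hp (hqs j a ha p (Finsupp.mem_support_iff.2 h3))
      have hf : ∀ p, f p = a p + b p := fun p => by rw [← hmem]; rfl
      have e1 : a = a0 := by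
        ext p
        by_cases hp : o p = j
        · rw [ha0, flt, if_pos hp, hf, hbj p hp, add_zero]
        · rw [ha0, flt, if_neg hp, haj p hp]
      have e2 : b = b0 := by
        ext p
        by_cases hp : o p = j
        · rw [hb0, flt, if_neg (fun h => h hp), hbj p hp]
        · rw [hb0, flt, if_pos hp, hf, haj p hp, zero_add]
      rw [e1, e2]
    · intro h
      exact absurd (Finset.HasAntidiagonal.mem_antidiagonal.2 hab) h

/-- the coefficients of the infinite product -/
noncomputable def hc (f : P →₀ ℕ) : ℂ := (∏ i ∈ f.support.image o, q i).coeff f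

theorem coeff_prod' (hq0 : ∀ i, (q i).coeff 0 = 1)
    (hqs : ∀ i f, (q i).coeff f ≠ 0 → ∀ p ∈ f.support, o p = i) (Φ : Finset O) (f : P →₀ ℕ) :
    (∏ i ∈ Φ, q i).coeff f = if f.support.image o ⊆ Φ then hc o q f else 0 := by
  classical
  rw [coeff_prod o q hq0 hqs]
  by_cases h : f.support.image o ⊆ Φ
  · rw [if_pos h, if_pos h]
    unfold hc
    rw [coeff_prod o q hq0 hqs, if_pos (Finset.Subset.refl _)]
    symm
    refine Finset.prod_subset h fun i _ hi => ?_
    have h1 : (f.filter fun p => o p = i) = 0 := by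
      ext p
      rw [flt]
      by_cases hp : o p = i
      · rw [if_pos hp, Finsupp.coe_zero, Pi.zero_apply]
        by_contra h2
        apply hi
        rw [← hp]
        exact Finset.mem_image_of_mem o (Finsupp.mem_support_iff.2 h2)
      · rw [if_neg hp]
        rfl
    rw [h1, hq0]
  · rw [if_neg h, if_neg h]

theorem hc_summable (hq0 : ∀ i, (q i).coeff 0 = 1)
    (hqs : ∀ i f, (q i).coeff f ≠ 0 → ∀ p ∈ f.support, o p = i) {w : (P →₀ ℕ) → ℝ}
    (hw : ∀ f, 0 ≤ w f) (h0 : w 0 = 1) (hm : ∀ f g, w (f + g) = w f * w g) {K : ℝ}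
    (hK : ∀ Φ : Finset O, ∏ i ∈ Φ, nw w (q i) ≤ K) :
    (Summable fun f => ‖hc o q f‖ * w f) ∧ ∑' f, ‖hc o q f‖ * w f ≤ K := by
  classical
  have h1 : ∀ T : Finset (P →₀ ℕ), ∑ f ∈ T, ‖hc o q f‖ * w f ≤ K := by
    intro T
    refine le_trans ?_ (hK (T.biUnion fun f => f.support.image o))
    refine le_trans ?_ (nw_prod hw h0 hm _ q)
    refine le_trans (le_of_eq ?_) (sum_le_nw hw _ T)
    refine Finset.sum_congr rfl fun f hf => ?_
    rw [coeff_prod' o q hq0 hqs, if_pos]
    exact Finset.subset_biUnion_of_mem (fun f : P →₀ ℕ => f.support.image o) hf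
  have h2 : Summable fun f => ‖hc o q f‖ * w f :=
    summable_of_sum_le (fun f => mul_nonneg (norm_nonneg _) (hw f)) h1
  exact ⟨h2, h2.tsum_le_of_sum_le h1⟩

theorem hc_lim (hq0 : ∀ i, (q i).coeff 0 = 1)
    (hqs : ∀ i f, (q i).coeff f ≠ 0 → ∀ p ∈ f.support, o p = i) (v : P → ℂ)
    (hs : Summable fun f : P →₀ ℕ => ‖hc o q f‖ * ‖f.prod fun p k => v p ^ k‖) :
    Tendsto (fun Φ : Finset O => ∏ i ∈ Φ, eval v (q i)) atTop
      (𝓝 (∑' f : P →₀ ℕ, hc o q f * f.prod fun p k => v p ^ k)) := by
  classical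
  have h1 : ∀ Φ : Finset O, ∏ i ∈ Φ, eval v (q i) =
      ∑' f : P →₀ ℕ, (if f.support.image o ⊆ Φ then hc o q f else 0) *
        f.prod fun p k => v p ^ k := by
    intro Φ
    rw [← map_prod, MvPolynomial.eval_eq, tsum_eq_sum (s := (∏ i ∈ Φ, q i).support)]
    · refine Finset.sum_congr rfl fun f _ => ?_
      rw [coeff_prod' o q hq0 hqs]
      rfl
    · intro f hf
      rw [← coeff_prod' o q hq0 hqs, MvPolynomial.notMem_support_iff.1 hf, zero_mul]
  simp only [h1]
  refine tendsto_tsum_of_dominated_convergence hs (fun f => ?_)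
    (Filter.Eventually.of_forall fun Φ f => ?_)
  · refine tendsto_const_nhds.congr' ?_
    filter_upwards [Filter.eventually_ge_atTop (f.support.image o)] with Φ hΦ
    rw [if_pos hΦ]
  · rw [norm_mul]
    refine mul_le_mul_of_nonneg_right ?_ (norm_nonneg _)
    split_ifs
    · exact le_rfl
    · rw [norm_zero]
      exact norm_nonneg _

end

end Pool.Agent.H92.EL.CmpA
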