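import Pool.Agent.H92.EL.CCmpA
import Pool.Agent.H98.MF.SBase

/-!
# Project ELL (MP_a3214d), block C, row C24, part B: products over fibres, truncated polynomials
(helper21)
-/

set_option autoImplicit false

open scoped BigOperators Topology
open Filter

namespace Pool.Agent.H92.EL.CmpB

open MvPolynomial
open Pool.Agent.H98.MF (Pre)

open Classical in
/-- a product of sums over fibres is a sum over sections on subsets -/
theorem prod_fib {α O R : Type} [CommSemiring R] (A : Finset α)
    (π : α → O) (m : α → R) (Φ : Finset O) :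
    ∏ i ∈ Φ, (1 + ∑ a ∈ A.filter (fun a => π a = i), m a) =
      ∑ Z ∈ A.powerset.filter (fun Z : Finset α => Set.InjOn π (Z : Set α) ∧ Z.image π ⊆ Φ),
        ∏ a ∈ Z, m a := by
  induction Φ using Finset.induction_on with
  | empty =>
    rw [Finset.prod_empty]
    have h1 : A.powerset.filter (fun Z : Finset α => Set.InjOn π (Z : Set α) ∧ Z.image π ⊆ ∅) = {∅} := by
      ext Z
      rw [Finset.mem_filter, Finset.mem_singleton, Finset.subset_empty, Finset.image_eq_empty]
      constructor
      · exact fun h => h.2.2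
      · rintro rfl
        exact ⟨Finset.empty_mem_powerset _, by simp, rfl⟩
    rw [h1, Finset.sum_singleton, Finset.prod_empty]
  | insert j Φ hj ih =>
    rw [Finset.prod_insert hj, ih, add_mul, one_mul, Finset.sum_mul_sum,
      ← Finset.sum_filter_add_sum_filter_not
        (A.powerset.filter (fun Z : Finset α => Set.InjOn π (Z : Set α) ∧ Z.image π ⊆ insert j Φ))
        (fun Z : Finset α => j ∉ Z.image π)]
    congr 1
    · refine Finset.sum_congr ?_ fun _ _ => rfl
      ext Z
      simp only [Finset.mem_filter]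
      constructor
      · rintro ⟨h1, h2, h3⟩
        exact ⟨⟨h1, h2, h3.trans (Finset.subset_insert _ _)⟩, fun h4 => hj (h3 h4)⟩
      · rintro ⟨⟨h1, h2, h3⟩, h4⟩
        refine ⟨h1, h2, fun i hi => ?_⟩
        rcases Finset.mem_insert.1 (h3 hi) with h5 | h5
        · exact absurd (h5 ▸ hi) h4
        · exact h5
    · rw [← Finset.sum_product']
      refine Finset.sum_nbij (fun t => insert t.1 t.2) ?_ ?_ ?_ ?_
      · rintro ⟨a, Z⟩ h
        simp only [Finset.mem_product, Finset.mem_filter, Finset.mem_powerset, not_not] at h ⊢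
        obtain ⟨⟨ha, haj⟩, hZ, hinj, him⟩ := h
        have hb : ∀ b ∈ Z, π b ≠ j := fun b hb hbj =>
          hj (hbj ▸ him (Finset.mem_image_of_mem π hb))
        refine ⟨⟨Finset.insert_subset ha hZ, ?_, ?_⟩, ?_⟩
        · intro x hx y hy hxy
          rw [Finset.mem_coe, Finset.mem_insert] at hx hy
          rcases hx with rfl | hx <;> rcases hy with rfl | hy
          · rfl
          · exact absurd (hxy.symm.trans haj) (hb y hy)
          · exact absurd (hxy.trans haj) (hb x hx)
          · exact hinj hx hy hxy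
        · rw [Finset.image_insert, haj]
          exact Finset.insert_subset_insert _ him
        · rw [Finset.image_insert, haj]
          exact Finset.mem_insert_self _ _
      · rintro ⟨a, Z⟩ h ⟨b, W⟩ h' heq
        simp only [Finset.coe_product, Finset.coe_filter, Set.mem_prod, Set.mem_setOf_eq,
          Finset.mem_powerset] at h h' heq
        obtain ⟨⟨ha, haj⟩, hZ, hinj, him⟩ := h
        obtain ⟨⟨hb, hbj⟩, hW, hinj', him'⟩ := h'
        have hZj : ∀ x ∈ Z, π x ≠ j := fun x hx hxj =>
          hj (hxj ▸ him (Finset.mem_image_of_mem π hx))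
        have hWj : ∀ x ∈ W, π x ≠ j := fun x hx hxj =>
          hj (hxj ▸ him' (Finset.mem_image_of_mem π hx))
        have hab : a = b := by
          have h1 : a ∈ insert b W := heq ▸ Finset.mem_insert_self a Z
          rcases Finset.mem_insert.1 h1 with h2 | h2
          · exact h2
          · exact absurd haj (hWj a h2)
        subst hab
        have hZW : Z = W := by
          have h1 : a ∉ Z := fun h => hZj a h haj
          have h2 : a ∉ W := fun h => hWj a h haj
          rw [← Finset.erase_insert h1, ← Finset.erase_insert h2, heq]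
        rw [hZW]
      · intro Z hZ
        simp only [Finset.coe_filter, Set.mem_setOf_eq, Finset.mem_filter, Finset.mem_powerset,
          not_not] at hZ
        obtain ⟨⟨hZA, hinj, him⟩, hjZ⟩ := hZ
        obtain ⟨a, haZ, haj⟩ := Finset.mem_image.1 hjZ
        refine ⟨(a, Z.erase a), ?_, Finset.insert_erase haZ⟩
        simp only [Finset.coe_product, Finset.coe_filter, Set.mem_prod, Set.mem_setOf_eq,
          Finset.mem_powerset]
        refine ⟨⟨hZA haZ, haj⟩, (Finset.erase_subset _ _).trans hZA,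
          hinj.mono (Finset.erase_subset _ _), fun i hi => ?_⟩
        obtain ⟨b, hb, rfl⟩ := Finset.mem_image.1 hi
        rcases Finset.mem_insert.1 (him (Finset.mem_image_of_mem π (Finset.mem_of_mem_erase hb)))
          with h1 | h1
        · exfalso
          exact Finset.ne_of_mem_erase hb (hinj (Finset.mem_of_mem_erase hb) haZ (h1.trans haj.symm))
        · exact h1
      · rintro ⟨a, Z⟩ h
        simp only [Finset.mem_product, Finset.mem_filter, Finset.mem_powerset] at h
        obtain ⟨⟨ha, haj⟩, hZ, hinj, him⟩ := h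
        have haZ : a ∉ Z := fun h1 => hj (haj ▸ him (Finset.mem_image_of_mem π h1))
        rw [Finset.prod_insert haZ]

/-! ### truncation -/

section

variable (S : Pre)

/-- equal coefficients up to `Y` -/
def Cg (Y : ℝ) (φ ψ : MvPolynomial S.P ℂ) : Prop := ∀ f ∈ S.idl Y, φ.coeff f = ψ.coeff f

theorem Cg.refl {S : Pre} {Y : ℝ} (φ : MvPolynomial S.P ℂ) : Cg S Y φ φ := fun _ _ => rfl

theorem nf_le_of_add {S : Pre} {Y : ℝ} {a b : S.P →₀ ℕ} (h : a + b ∈ S.idl Y) :
    a ∈ S.idl Y ∧ b ∈ S.idl Y := by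
  rw [S.mem_idl, Pre.nf_add] at h
  have h1 : 1 ≤ S.nf a := S.nf_pos a
  have h2 : 1 ≤ S.nf b := S.nf_pos b
  refine ⟨S.mem_idl.2 (le_trans ?_ h), S.mem_idl.2 (le_trans ?_ h)⟩
  · exact_mod_cast Nat.le_mul_of_pos_right _ h2
  · exact_mod_cast Nat.le_mul_of_pos_left _ h1

theorem Cg.mul {S : Pre} {Y : ℝ} {φ φ' ψ ψ' : MvPolynomial S.P ℂ} (h : Cg S Y φ φ')
    (h' : Cg S Y ψ ψ') : Cg S Y (φ * ψ) (φ' * ψ') := by
  classical
  intro f hf
  rw [MvPolynomial.coeff_mul, MvPolynomial.coeff_mul]
  refine Finset.sum_congr rfl fun ab hab => ?_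
  rw [Finset.HasAntidiagonal.mem_antidiagonal] at hab
  rw [← hab] at hf
  have h1 := nf_le_of_add hf
  rw [h _ h1.1, h' _ h1.2]

theorem Cg.prod {S : Pre} {Y : ℝ} {ι : Type} (s : Finset ι) {φ ψ : ι → MvPolynomial S.P ℂ}
    (h : ∀ i ∈ s, Cg S Y (φ i) (ψ i)) : Cg S Y (∏ i ∈ s, φ i) (∏ i ∈ s, ψ i) := by
  classical
  induction s using Finset.induction_on with
  | empty =>
    rw [Finset.prod_empty, Finset.prod_empty]
    exact Cg.refl _
  | insert i s hi ih =>
    rw [Finset.prod_insert hi, Finset.prod_insert hi]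
    exact (h i (Finset.mem_insert_self _ _)).mul
      (ih fun j hj => h j (Finset.mem_insert_of_mem hj))

/-- the sum of the coefficients up to `Y` -/
noncomputable def La (Y : ℝ) (φ : MvPolynomial S.P ℂ) : ℂ := ∑ f ∈ S.idl Y, φ.coeff f

theorem La_congr {S : Pre} {Y : ℝ} {φ ψ : MvPolynomial S.P ℂ} (h : Cg S Y φ ψ) :
    La S Y φ = La S Y ψ := Finset.sum_congr rfl h

theorem La_mul (Y : ℝ) (φ ψ : MvPolynomial S.P ℂ) :
    La S Y (φ * ψ) = ∑ a ∈ S.idl Y, φ.coeff a * La S (Y / S.nf a) ψ := by
  classical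
  unfold La
  simp only [MvPolynomial.coeff_mul, Finset.mul_sum]
  rw [Finset.sum_sigma', Finset.sum_sigma']
  refine Finset.sum_nbij' (fun t => ⟨t.2.1, t.2.2⟩) (fun t => ⟨t.1 + t.2, (t.1, t.2)⟩) ?_ ?_ ?_ ?_
    fun _ _ => rfl
  · rintro ⟨f, a, b⟩ h
    simp only [Finset.mem_sigma, Finset.HasAntidiagonal.mem_antidiagonal] at h ⊢
    obtain ⟨hf, hab⟩ := h
    subst hab
    refine ⟨(nf_le_of_add hf).1, ?_⟩
    rw [S.mem_idl] at hf ⊢
    have h1 : (0 : ℝ) < S.nf a := by exact_mod_cast S.nf_pos a
    rw [le_div_iff₀ h1]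
    rw [Pre.nf_add] at hf
    push_cast at hf
    linarith
  · rintro ⟨a, b⟩ h
    simp only [Finset.mem_sigma, Finset.HasAntidiagonal.mem_antidiagonal] at h ⊢
    refine ⟨?_, trivial⟩
    obtain ⟨_, hb⟩ := h
    rw [S.mem_idl] at hb ⊢
    have h1 : (0 : ℝ) < S.nf a := by exact_mod_cast S.nf_pos a
    rw [le_div_iff₀ h1] at hb
    rw [Pre.nf_add]
    push_cast
    linarith
  · rintro ⟨f, a, b⟩ h
    simp only [Finset.mem_sigma, Finset.HasAntidiagonal.mem_antidiagonal] at h
    obtain ⟨_, hab⟩ := h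
    subst hab
    rfl
  · rintro ⟨a, b⟩ _
    rfl

end

/-! ### the ideals -/

section

variable {l : ℕ} [Fact l.Prime] (S : SysL l)

theorem ec_zero : ec (0 : ZMod l) = 1 := AddChar.map_zero_eq_one _

theorem ec_add (a b : ZMod l) : ec (a + b) = ec a * ec b := AddChar.map_add_eq_mul _ a b

theorem norm_ec (a : ZMod l) : ‖ec a‖ = 1 := by
  unfold ec
  rw [ZMod.stdAddChar_apply]
  exact Circle.norm_coe _

theorem ec_sum {ι : Type} (s : Finset ι) (f : ι → ZMod l) : ec (∑ i ∈ s, f i) = ∏ i ∈ s, ec (f i) := by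
  classical
  induction s using Finset.induction_on with
  | empty => rw [Finset.sum_empty, Finset.prod_empty, ec_zero]
  | insert i s hi ih => rw [Finset.sum_insert hi, Finset.prod_insert hi, ec_add, ih]

/-- the value of a type character at a prime -/
noncomputable def ch (c : S.T) (p : S.P) : ℂ := ec (c ⬝ᵥ S.ty p)

theorem cv_zero (c : S.T) : S.cv c 0 = 1 := by
  unfold SysL.cv
  rw [Finsupp.sum_zero_index, ec_zero]

theorem cv_single (c : S.T) (p : S.P) : S.cv c (Finsupp.single p 1) = ch S c p := by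
  unfold SysL.cv ch
  rw [Finsupp.sum_single_index (by simp)]
  simp

theorem cv_add (c : S.T) (f g : S.P →₀ ℕ) : S.cv c (f + g) = S.cv c f * S.cv c g := by
  classical
  unfold SysL.cv
  rw [Finsupp.sum_add_index' (fun p => by simp) (fun p a b => by push_cast; ring), ec_add]

/-- the truncated sum over the ideals -/
noncomputable def Vt (c : S.T) (Y : ℝ) : MvPolynomial S.P ℂ := ∑ f ∈ S.idl Y, monomial f (S.cv c f)

theorem coeff_Vt (c : S.T) (Y : ℝ) (f : S.P →₀ ℕ) (hf : f ∈ S.idl Y) :
    (Vt S c Y).coeff f = S.cv c f := by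
  classical
  unfold Vt
  rw [MvPolynomial.coeff_sum, Finset.sum_eq_single f]
  · rw [MvPolynomial.coeff_monomial, if_pos rfl]
  · intro g _ hg
    rw [MvPolynomial.coeff_monomial, if_neg hg]
  · intro h
    exact absurd hf h

open Classical in
theorem coeff_Vt_prod (c : S.T) (Y : ℝ) (F : Finset S.P) (f : S.P →₀ ℕ) (hf : f ∈ S.idl Y) :
    (Vt S c Y * ∏ p ∈ F, (1 - C (ch S c p) * X p)).coeff f =
      if Disjoint f.support F then S.cv c f else 0 := by
  induction F using Finset.induction_on generalizing f with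
  | empty =>
    rw [Finset.prod_empty, mul_one, coeff_Vt S c Y f hf, if_pos (Finset.disjoint_empty_right _)]
  | insert q F hq ih =>
    rw [Finset.prod_insert hq]
    have e1 : Vt S c Y * ((1 - C (ch S c q) * X q) * ∏ p ∈ F, (1 - C (ch S c p) * X p)) =
        (Vt S c Y * ∏ p ∈ F, (1 - C (ch S c p) * X p)) -
          C (ch S c q) * ((Vt S c Y * ∏ p ∈ F, (1 - C (ch S c p) * X p)) * X q) := by ring
    rw [e1, MvPolynomial.coeff_sub, MvPolynomial.coeff_C_mul, MvPolynomial.coeff_mul_X', ih f hf]
    by_cases hqf : q ∈ f.support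
    · rw [if_pos hqf]
      have hfq : f - Finsupp.single q 1 + Finsupp.single q 1 = f := by
        refine tsub_add_cancel_of_le ?_
        rw [Finsupp.single_le_iff]
        exact Nat.one_le_iff_ne_zero.2 (Finsupp.mem_support_iff.1 hqf)
      have hf' : f - Finsupp.single q 1 ∈ S.idl Y := by
        rw [← hfq] at hf
        exact (nf_le_of_add hf).1
      rw [ih _ hf']
      have h2 : Disjoint (f - Finsupp.single q 1).support F ↔ Disjoint f.support F := by
        rw [Finset.disjoint_right, Finset.disjoint_right]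
        refine forall₂_congr fun p hp => ?_
        have hpq : q ≠ p := fun h => hq (h ▸ hp)
        rw [Finsupp.mem_support_iff, Finsupp.mem_support_iff, Finsupp.tsub_apply,
          Finsupp.single_eq_of_ne hpq.symm, Nat.sub_zero]
      have h3 : S.cv c f = S.cv c (f - Finsupp.single q 1) * ch S c q := by
        rw [← cv_single, ← cv_add, hfq]
      have h4 : ¬ Disjoint f.support (insert q F) := by
        rw [Finset.disjoint_right]
        push Not
        exact ⟨q, Finset.mem_insert_self _ _, hqf⟩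
      rw [if_neg h4]
      by_cases h5 : Disjoint f.support F
      · rw [if_pos h5, if_pos (h2.2 h5), h3]
        ring
      · rw [if_neg h5, if_neg (fun h => h5 (h2.1 h))]
        ring
    · rw [if_neg hqf, mul_zero, sub_zero]
      have h2 : Disjoint f.support (insert q F) ↔ Disjoint f.support F := by
        rw [Finset.disjoint_insert_right]
        exact ⟨fun h => h.2, fun h => ⟨hqf, h⟩⟩
      by_cases h5 : Disjoint f.support F
      · rw [if_pos h5, if_pos (h2.2 h5)]
      · rw [if_neg h5, if_neg (fun h => h5 (h2.1 h))]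

theorem supp_sub_pr {Y : ℝ} {f : S.P →₀ ℕ} (hf : f ∈ S.idl Y) : f.support ⊆ S.pr Y := by
  intro p hp
  rw [S.mem_idl] at hf
  have h0 : 0 ≤ Y := le_trans (Nat.cast_nonneg _) hf
  rw [S.mem_pr h0]
  refine le_trans ?_ hf
  have h1 : S.N p ≤ S.N p ^ f p := Nat.le_self_pow (Finsupp.mem_support_iff.1 hp) _
  exact_mod_cast h1.trans (S.pow_le_nf f p)

/-- the inverse up to `Y` -/
theorem Cg_Vt (c : S.T) (Y : ℝ) :
    Cg S.toPre Y (Vt S c Y * ∏ p ∈ S.pr Y, (1 - C (ch S c p) * X p)) 1 := by
  classical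
  intro f hf
  rw [coeff_Vt_prod S c Y _ f hf, MvPolynomial.coeff_one]
  by_cases h : f = 0
  · subst h
    rw [if_pos rfl, if_pos (by simp), cv_zero]
  · have h3 : ¬ Disjoint f.support (S.pr Y) := by
      intro h1
      apply h
      rw [← Finsupp.support_eq_empty]
      have h2 := supp_sub_pr S hf
      exact Finset.disjoint_self_iff_empty _ |>.1 (h1.mono_right h2)
    rw [if_neg h3, if_neg (fun h' => h h'.symm)]

theorem nf_sum {ι : Type} (s : Finset ι) (g : ι → S.P →₀ ℕ) :
    S.nf (∑ u ∈ s, g u) = ∏ u ∈ s, S.nf (g u) := by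
  classical
  induction s using Finset.induction_on with
  | empty => rw [Finset.sum_empty, Finset.prod_empty, Pre.nf_zero]
  | insert i s hi ih => rw [Finset.sum_insert hi, Finset.prod_insert hi, Pre.nf_add, ih]

theorem monomial_prod {ι : Type} (s : Finset ι) (g : ι → S.P →₀ ℕ) (a : ι → ℂ) :
    ∏ u ∈ s, (monomial (g u) (a u) : MvPolynomial S.P ℂ) =
      monomial (∑ u ∈ s, g u) (∏ u ∈ s, a u) := by
  classical
  induction s using Finset.induction_on with
  | empty => rw [Finset.sum_empty, Finset.prod_empty, Finset.prod_empty]; rfl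
  | insert i s hi ih =>
    rw [Finset.sum_insert hi, Finset.prod_insert hi, Finset.prod_insert hi, ih,
      MvPolynomial.monomial_mul]

/-- the sums over tuples of ideals -/
theorem DD_eq {ι : Type} [Fintype ι] (c : ι → S.T) {Y Y' : ℝ} (h : Y' ≤ Y) :
    S.DD c Y' = La S.toPre Y' (∏ u, Vt S (c u) Y) := by
  classical
  unfold La Vt SysL.DD
  rw [Finset.prod_univ_sum]
  simp only [monomial_prod, MvPolynomial.coeff_sum, MvPolynomial.coeff_monomial]
  rw [Finset.sum_comm]
  have e1 : ∀ g : ι → S.P →₀ ℕ, ∑ f ∈ S.idl Y', (if ∑ u, g u = f then ∏ u, S.cv (c u) (g u)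
      else 0) = if ((∏ u, S.nf (g u) : ℕ) : ℝ) ≤ Y' then ∏ u, S.cv (c u) (g u) else 0 := by
    intro g
    rw [Finset.sum_ite_eq, ← nf_sum]
    by_cases h1 : ∑ u, g u ∈ S.idl Y'
    · rw [if_pos h1, if_pos (S.mem_idl.1 h1)]
    · rw [if_neg h1, if_neg (fun h2 => h1 (S.mem_idl.2 h2))]
  simp only [e1]
  refine Finset.sum_subset ?_ ?_
  · intro g hg
    rw [Fintype.mem_piFinset] at hg ⊢
    intro u
    have := hg u
    rw [S.mem_idl] at this ⊢
    exact this.trans h
  · intro g _ hg
    rw [if_neg]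
    intro h1
    apply hg
    rw [Fintype.mem_piFinset]
    intro u
    rw [S.mem_idl]
    refine le_trans ?_ h1
    have h2 : S.nf (g u) ≤ ∏ u, S.nf (g u) :=
      Finset.single_le_prod' (f := fun u => S.nf (g u)) (fun v _ => S.nf_pos (g v))
        (Finset.mem_univ u)
    exact_mod_cast h2

end

end Pool.Agent.H92.EL.CmpB
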