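import Pool.Agent.H92.EL.CCmpB

/-!
# Project ELL (MP_a3214d), block C, row C24, part C: orbits and local polynomials (helper21)
-/

set_option autoImplicit false

open scoped BigOperators Topology
open Filter

namespace Pool.Agent.H92.EL.CmpC

open MvPolynomial
open Pool.Agent.H98.MF (Pre)
open CmpA CmpB

section

variable {l : ℕ} [Fact l.Prime] (S : SysL l)

/-- orbits -/
def orbS : Setoid S.P where
  r p q := ∃ g, S.ac g p = q
  iseqv := by
    refine ⟨fun p => ⟨1, S.ac_one p⟩, ?_, ?_⟩
    · rintro p q ⟨g, rfl⟩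
      exact ⟨g⁻¹, by rw [← S.ac_mul, inv_mul_cancel, S.ac_one]⟩
    · rintro p q r ⟨g, rfl⟩ ⟨h, rfl⟩
      exact ⟨h * g, S.ac_mul h g p⟩

/-- the type of the orbits -/
abbrev Orb : Type := Quotient (orbS S)

noncomputable instance : DecidableEq (Orb S) := Classical.decEq _

/-- the orbit of a prime -/
def oo (p : S.P) : Orb S := Quotient.mk (orbS S) p

theorem oo_eq {p q : S.P} : oo S p = oo S q ↔ ∃ g, S.ac g p = q := Quotient.eq (r := orbS S)

/-- a representative -/
noncomputable def rp (i : Orb S) : S.P := Quotient.out i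

theorem oo_rp (i : Orb S) : oo S (rp S i) = i := Quotient.out_eq i

theorem rp_inj : Function.Injective (rp S) := fun i j h => by
  rw [← oo_rp S i, ← oo_rp S j, h]

/-- the primes of an orbit -/
noncomputable def fib (i : Orb S) : Finset S.P := Finset.univ.image fun g => S.ac g (rp S i)

theorem mem_fib {i : Orb S} {p : S.P} : p ∈ fib S i ↔ oo S p = i := by
  unfold fib
  rw [Finset.mem_image]
  constructor
  · rintro ⟨g, -, rfl⟩
    rw [← oo_rp S i]
    exact ((oo_eq S).2 ⟨g, by rw [oo_rp]⟩).symm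
  · intro h
    rw [← oo_rp S i] at h
    obtain ⟨g, hg⟩ := (oo_eq S).1 h.symm
    exact ⟨g, Finset.mem_univ _, hg⟩

theorem N_of_oo {p q : S.P} (h : oo S p = oo S q) : S.N p = S.N q := by
  obtain ⟨g, rfl⟩ := (oo_eq S).1 h
  exact (S.N_ac g p).symm

theorem N_of_mem {i : Orb S} {p : S.P} (h : p ∈ fib S i) : S.N p = S.N (rp S i) := by
  apply N_of_oo
  rw [oo_rp]
  exact (mem_fib S).1 h

theorem rg_of_oo {p q : S.P} (h : oo S p = oo S q) (hp : S.rg p) : S.rg q := by
  obtain ⟨g, rfl⟩ := (oo_eq S).1 h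
  intro h' hh
  apply hp h'
  have h1 := congrArg (S.ac g⁻¹) hh
  rw [← S.ac_mul, ← S.ac_mul, ← S.ac_mul, inv_mul_cancel, S.ac_one] at h1
  have h2 : g⁻¹ * h' * g = h' := by
    rw [mul_comm g⁻¹ h', mul_assoc, inv_mul_cancel, mul_one]
  rwa [h2] at h1

theorem card_fib_le (i : Orb S) : (fib S i).card ≤ Fintype.card S.D :=
  Finset.card_image_le.trans (by rw [Finset.card_univ])

theorem card_fib (i : Orb S) (h : S.rg (rp S i)) : (fib S i).card = Fintype.card S.D := by
  unfold fib
  rw [Finset.card_image_of_injective, Finset.card_univ]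
  intro g g' hg
  have h1 := congrArg (S.ac g'⁻¹) hg
  simp only at h1
  rw [← S.ac_mul, ← S.ac_mul, inv_mul_cancel, S.ac_one] at h1
  have h2 := h _ h1
  rw [inv_mul_eq_one] at h2
  exact h2.symm

/-- the orbit is used -/
def Us (y : Finset S.P) (i : Orb S) : Prop := S.rg (rp S i) ∧ i ∉ y.image (oo S)

variable {ι : Type} [Fintype ι]

open Classical in
/-- the local factor of the families -/
noncomputable def NO (c : ι → S.T) (y : Finset S.P) (i : Orb S) : MvPolynomial S.P ℂ :=
  1 + if Us S y i then ∑ p ∈ fib S i, ∑ u, C (ch S (c u) p) * X p else 0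

/-- the local factor of the ideals -/
noncomputable def EO (c : ι → S.T) (i : Orb S) : MvPolynomial S.P ℂ :=
  ∏ p ∈ fib S i, ∏ u, (1 - C (ch S (c u) p) * X p)

/-- the local quotient -/
noncomputable def hO (c : ι → S.T) (y : Finset S.P) (i : Orb S) : MvPolynomial S.P ℂ :=
  NO S c y i * EO S c i

theorem NO_zero (c : ι → S.T) (y : Finset S.P) (i : Orb S) : (NO S c y i).coeff 0 = 1 := by
  classical
  rw [← MvPolynomial.constantCoeff_eq]
  unfold NO
  split_ifs <;> simp

theorem EO_zero (c : ι → S.T) (i : Orb S) : (EO S c i).coeff 0 = 1 := by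
  rw [← MvPolynomial.constantCoeff_eq]
  unfold EO
  simp

theorem hO_zero (c : ι → S.T) (y : Finset S.P) (i : Orb S) : (hO S c y i).coeff 0 = 1 := by
  have h1 := NO_zero S c y i
  have h2 := EO_zero S c i
  rw [← MvPolynomial.constantCoeff_eq] at h1 h2 ⊢
  unfold hO
  rw [map_mul, h1, h2, mul_one]

theorem EO_supp (c : ι → S.T) (i : Orb S) :
    EO S c i ∈ MvPolynomial.supported ℂ ((fib S i : Finset S.P) : Set S.P) := by
  unfold EO
  refine prod_mem fun p hp => prod_mem fun u _ => ?_
  refine sub_mem (one_mem _) (mul_mem (Subalgebra.algebraMap_mem _ _) ?_)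
  exact MvPolynomial.X_mem_supported.2 hp

theorem NO_supp (c : ι → S.T) (y : Finset S.P) (i : Orb S) :
    NO S c y i ∈ MvPolynomial.supported ℂ ((fib S i : Finset S.P) : Set S.P) := by
  classical
  unfold NO
  refine add_mem (one_mem _) ?_
  split_ifs
  · refine sum_mem fun p hp => sum_mem fun u _ => mul_mem (Subalgebra.algebraMap_mem _ _) ?_
    exact MvPolynomial.X_mem_supported.2 hp
  · exact zero_mem _

theorem hO_supp (c : ι → S.T) (y : Finset S.P) (i : Orb S) (f : S.P →₀ ℕ)
    (hf : (hO S c y i).coeff f ≠ 0) : ∀ p ∈ f.support, oo S p = i := by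
  intro p hp
  have h1 := mul_mem (NO_supp S c y i) (EO_supp S c i)
  rw [MvPolynomial.mem_supported] at h1
  have h2 : p ∈ (NO S c y i * EO S c i).vars :=
    (MvPolynomial.mem_vars_iff_mem_support p).2 ⟨f, MvPolynomial.mem_support_iff.2 hf, hp⟩
  exact (mem_fib S).1 (Finset.mem_coe.1 (h1 h2))

/-! ### linear coefficients -/

theorem lin_mul {P : Type} (p : P) {A B : MvPolynomial P ℂ} (hA : A.coeff 0 = 1)
    (hB : B.coeff 0 = 1) : (A * B).coeff (Finsupp.single p 1) =
      A.coeff (Finsupp.single p 1) + B.coeff (Finsupp.single p 1) := by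
  classical
  rw [MvPolynomial.coeff_mul, Finsupp.antidiagonal_single, Finset.sum_map]
  rw [show Finset.HasAntidiagonal.antidiagonal 1 = {((0 : ℕ), (1 : ℕ)), (1, 0)} from rfl]
  rw [Finset.sum_pair (by simp)]
  show A.coeff (Finsupp.single p 0) * B.coeff (Finsupp.single p 1) +
    A.coeff (Finsupp.single p 1) * B.coeff (Finsupp.single p 0) = _
  rw [Finsupp.single_zero, hA, hB]
  ring

theorem lin_prod {P κ : Type} (p : P) (s : Finset κ) (A : κ → MvPolynomial P ℂ)
    (hA : ∀ i ∈ s, (A i).coeff 0 = 1) : (∏ i ∈ s, A i).coeff 0 = 1 ∧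
      (∏ i ∈ s, A i).coeff (Finsupp.single p 1) = ∑ i ∈ s, (A i).coeff (Finsupp.single p 1) := by
  classical
  induction s using Finset.induction_on with
  | empty =>
    rw [Finset.prod_empty, Finset.sum_empty, MvPolynomial.coeff_one, MvPolynomial.coeff_one,
      if_pos rfl, if_neg]
    · exact ⟨rfl, rfl⟩
    · intro h
      have h1 := congrArg (fun f : P →₀ ℕ => f p) h
      simp at h1
  | insert i s hi ih =>
    obtain ⟨h1, h2⟩ := ih fun j hj => hA j (Finset.mem_insert_of_mem hj)
    have h3 := hA i (Finset.mem_insert_self _ _)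
    rw [Finset.prod_insert hi, Finset.sum_insert hi]
    refine ⟨?_, ?_⟩
    · rw [← MvPolynomial.constantCoeff_eq, map_mul]
      rw [← MvPolynomial.constantCoeff_eq] at h1 h3
      rw [h1, h3, mul_one]
    · rw [lin_mul p h3 h1, h2]

theorem coeff_lin {P : Type} [DecidableEq P] (p q : P) (a : ℂ) :
    (1 - C a * X q : MvPolynomial P ℂ).coeff (Finsupp.single p 1) = if q = p then -a else 0 := by
  classical
  rw [MvPolynomial.coeff_sub, MvPolynomial.coeff_one, if_neg, MvPolynomial.coeff_C_mul,
    MvPolynomial.coeff_X', zero_sub]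
  · by_cases h : q = p
    · subst h
      simp
    · rw [if_neg, if_neg h, mul_zero, neg_zero]
      intro h1
      apply h
      exact (Finsupp.single_left_injective one_ne_zero h1)
  · intro h
    have h1 := congrArg (fun f : P →₀ ℕ => f p) h
    simp at h1

theorem hO_lin (c : ι → S.T) (y : Finset S.P) (i : Orb S) (hU : Us S y i) (p : S.P) :
    (hO S c y i).coeff (Finsupp.single p 1) = 0 := by
  classical
  unfold hO
  rw [lin_mul p (NO_zero S c y i) (EO_zero S c i)]
  have e1 : (EO S c i).coeff (Finsupp.single p 1) =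
      ∑ q ∈ fib S i, ∑ u, if q = p then -ch S (c u) q else 0 := by
    unfold EO
    have h0 : ∀ (u : ι) (q : S.P), (1 - C (ch S (c u) q) * X q : MvPolynomial S.P ℂ).coeff 0 = 1 :=
      fun u q => by
        rw [← MvPolynomial.constantCoeff_eq]
        simp
    rw [(lin_prod p (fib S i) _ fun q _ => (lin_prod p Finset.univ _ fun u _ => h0 u q).1).2]
    refine Finset.sum_congr rfl fun q _ => ?_
    rw [(lin_prod p Finset.univ _ fun u _ => h0 u q).2]
    exact Finset.sum_congr rfl fun u _ => coeff_lin p q _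
  have e2 : (NO S c y i).coeff (Finsupp.single p 1) =
      ∑ q ∈ fib S i, ∑ u, if q = p then ch S (c u) q else 0 := by
    unfold NO
    rw [if_pos hU, MvPolynomial.coeff_add, MvPolynomial.coeff_one, if_neg, zero_add,
      MvPolynomial.coeff_sum]
    · refine Finset.sum_congr rfl fun q _ => ?_
      rw [MvPolynomial.coeff_sum]
      refine Finset.sum_congr rfl fun u _ => ?_
      rw [MvPolynomial.coeff_C_mul, MvPolynomial.coeff_X']
      by_cases h : q = p
      · subst h
        simp
      · rw [if_neg, if_neg h, mul_zero]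
        intro h1
        exact h (Finsupp.single_left_injective one_ne_zero h1)
    · intro h
      have h1 := congrArg (fun f : S.P →₀ ℕ => f p) h
      simp at h1
  rw [e1, e2, ← Finset.sum_add_distrib]
  refine Finset.sum_eq_zero fun q _ => ?_
  rw [← Finset.sum_add_distrib]
  refine Finset.sum_eq_zero fun u _ => ?_
  split_ifs <;> simp

end

end Pool.Agent.H92.EL.CmpC
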