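import Pool.Agent.H92.EL.CCmpC

/-!
# Project ELL (MP_a3214d), block C, row C24, part D: norms of the local polynomials (helper21)
-/

set_option autoImplicit false

open scoped BigOperators Topology
open Filter

namespace Pool.Agent.H92.EL.CmpC

open MvPolynomial
open Pool.Agent.H98.MF (Pre)
open CmpA CmpB

section

variable {l : ℕ} [Fact l.Prime] (S : SysL l)

/-- the weight -/
noncomputable def wt (f : S.P →₀ ℕ) : ℝ := (S.nf f : ℝ) ^ (-(3 / 4) : ℝ)

theorem wt_nonneg (f : S.P →₀ ℕ) : 0 ≤ wt S f := Real.rpow_nonneg (Nat.cast_nonneg _) _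

theorem wt_zero : wt S 0 = 1 := by
  unfold wt
  rw [Pre.nf_zero, Nat.cast_one, Real.one_rpow]

theorem wt_add (f g : S.P →₀ ℕ) : wt S (f + g) = wt S f * wt S g := by
  unfold wt
  rw [Pre.nf_add, Nat.cast_mul, Real.mul_rpow (Nat.cast_nonneg _) (Nat.cast_nonneg _)]

/-- the number of variables -/
def MM (ι : Type) [Fintype ι] : ℕ := Fintype.card ι * Fintype.card S.D

/-- the constant -/
def KK (ι : Type) [Fintype ι] : ℝ := (1 + MM S ι : ℝ) * 2 ^ MM S ι

theorem KK_nonneg (ι : Type) [Fintype ι] : 0 ≤ KK S ι := by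
  unfold KK
  positivity

variable {ι : Type} [Fintype ι]

theorem norm_ch (c : S.T) (p : S.P) : ‖ch S c p‖ = 1 := norm_ec _

theorem l1_CX (a : ℂ) (p : S.P) : nw (fun _ => 1) (C a * X p : MvPolynomial S.P ℂ) = ‖a‖ := by
  rw [MvPolynomial.C_mul_X_eq_monomial, nw_monomial (fun _ => zero_le_one), mul_one]

theorem l1_one : nw (fun _ => 1) (1 : MvPolynomial S.P ℂ) = 1 :=
  nw_one (fun _ => zero_le_one) rfl

theorem l1_lin (a : ℂ) (ha : ‖a‖ = 1) (p : S.P) :
    nw (fun _ => 1) (1 - C a * X p : MvPolynomial S.P ℂ) ≤ 2 := by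
  have h1 : (1 - C a * X p : MvPolynomial S.P ℂ) = 1 + C (-a) * X p := by
    rw [map_neg]
    ring
  rw [h1]
  refine (nw_add (fun _ => zero_le_one) _ _).trans ?_
  rw [l1_one, l1_CX, norm_neg, ha]
  norm_num

theorem l1_EO (c : ι → S.T) (i : Orb S) : nw (fun _ => 1) (EO S c i) ≤ 2 ^ MM S ι := by
  unfold EO
  refine (nw_prod (fun _ => zero_le_one) rfl (fun _ _ => (mul_one _).symm) _ _).trans ?_
  have h1 : ∏ p ∈ fib S i, nw (fun _ => 1) (∏ u, (1 - C (ch S (c u) p) * X p :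
      MvPolynomial S.P ℂ)) ≤ ∏ p ∈ fib S i, (2 : ℝ) ^ Fintype.card ι := by
    refine Finset.prod_le_prod (fun p _ => nw_nonneg (fun _ => zero_le_one) _) fun p _ => ?_
    refine (nw_prod (fun _ => zero_le_one) rfl (fun _ _ => (mul_one _).symm) _ _).trans ?_
    rw [← Finset.card_univ, ← Finset.prod_const]
    exact Finset.prod_le_prod (fun u _ => nw_nonneg (fun _ => zero_le_one) _)
      fun u _ => l1_lin S _ (norm_ch S _ _) p
  refine h1.trans ?_
  rw [Finset.prod_const, ← pow_mul]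
  exact pow_le_pow_right₀ (by norm_num) (Nat.mul_le_mul_left _ (card_fib_le S i))

theorem l1_NO (c : ι → S.T) (y : Finset S.P) (i : Orb S) :
    nw (fun _ => 1) (NO S c y i) ≤ 1 + MM S ι := by
  classical
  unfold NO
  refine (nw_add (fun _ => zero_le_one) _ _).trans ?_
  rw [l1_one]
  refine add_le_add le_rfl ?_
  split_ifs
  · refine (nw_sum (fun _ => zero_le_one) _ _).trans ?_
    have h1 : ∑ p ∈ fib S i, nw (fun _ => 1) (∑ u, C (ch S (c u) p) * X p :
        MvPolynomial S.P ℂ) ≤ ∑ p ∈ fib S i, (Fintype.card ι : ℝ) := by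
      refine Finset.sum_le_sum fun p _ => ?_
      refine (nw_sum (fun _ => zero_le_one) _ _).trans ?_
      simp only [l1_CX, norm_ch]
      rw [Finset.sum_const, Finset.card_univ, nsmul_eq_mul, mul_one]
    refine h1.trans ?_
    rw [Finset.sum_const, nsmul_eq_mul]
    unfold MM
    push_cast
    rw [mul_comm]
    exact mul_le_mul_of_nonneg_left (by exact_mod_cast card_fib_le S i) (Nat.cast_nonneg _)
  · unfold nw
    simp

theorem l1_hO (c : ι → S.T) (y : Finset S.P) (i : Orb S) :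
    nw (fun _ => 1) (hO S c y i) ≤ KK S ι := by
  unfold hO KK
  refine (nw_mul (fun _ => zero_le_one) (fun _ _ => (mul_one _).symm) _ _).trans ?_
  exact mul_le_mul (l1_NO S c y i) (l1_EO S c i) (nw_nonneg (fun _ => zero_le_one) _)
    (by positivity)

/-- the size of the local factor -/
theorem nw_hO_aux (c : ι → S.T) (y : Finset S.P) (i : Orb S) {t : ℝ} (ht : 0 ≤ t)
    (h : ∀ f, (hO S c y i).coeff f ≠ 0 → f ≠ 0 → wt S f ≤ t) :
    nw (wt S) (hO S c y i) ≤ 1 + KK S ι * t := by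
  classical
  have h0 : (0 : S.P →₀ ℕ) ∈ (hO S c y i).support := by
    rw [MvPolynomial.mem_support_iff, hO_zero]
    exact one_ne_zero
  unfold nw
  rw [← Finset.add_sum_erase _ _ h0, hO_zero, norm_one, one_mul, wt_zero]
  refine add_le_add le_rfl ?_
  have h1 : ∑ f ∈ (hO S c y i).support.erase 0, ‖(hO S c y i).coeff f‖ * wt S f ≤
      ∑ f ∈ (hO S c y i).support.erase 0, ‖(hO S c y i).coeff f‖ * t := by
    refine Finset.sum_le_sum fun f hf => mul_le_mul_of_nonneg_left ?_ (norm_nonneg _)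
    rw [Finset.mem_erase] at hf
    exact h f (MvPolynomial.mem_support_iff.1 hf.2) hf.1
  refine h1.trans ?_
  rw [← Finset.sum_mul]
  refine mul_le_mul_of_nonneg_right ?_ ht
  refine le_trans ?_ (l1_hO S c y i)
  have h2 := sum_le_nw (w := fun _ => (1 : ℝ)) (fun _ => zero_le_one) (hO S c y i)
    ((hO S c y i).support.erase 0)
  simpa using h2

theorem one_le_Nr (i : Orb S) : (1 : ℝ) ≤ S.N (rp S i) := by exact_mod_cast S.one_le_N _

theorem nf_ge (i : Orb S) (f : S.P →₀ ℕ) (hf : ∀ p ∈ f.support, oo S p = i) (h0 : f ≠ 0) :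
    S.N (rp S i) ≤ S.nf f := by
  obtain ⟨p, hp⟩ := Finsupp.support_nonempty_iff.2 h0
  rw [← N_of_mem S ((mem_fib S).2 (hf p hp))]
  exact (Nat.le_self_pow (Finsupp.mem_support_iff.1 hp) _).trans (S.pow_le_nf f p)

theorem nw_hO_one (c : ι → S.T) (y : Finset S.P) (i : Orb S) :
    nw (wt S) (hO S c y i) ≤ 1 + KK S ι * (S.N (rp S i) : ℝ) ^ (-(3 / 4) : ℝ) := by
  refine nw_hO_aux S c y i (Real.rpow_nonneg (Nat.cast_nonneg _) _) fun f hf h0 => ?_
  unfold wt
  refine Real.rpow_le_rpow_of_nonpos (by linarith [one_le_Nr S i]) ?_ (by norm_num)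
  exact_mod_cast nf_ge S i f (hO_supp S c y i f hf) h0

theorem nw_hO_two (c : ι → S.T) (y : Finset S.P) (i : Orb S) (hU : Us S y i) :
    nw (wt S) (hO S c y i) ≤ 1 + KK S ι * (S.N (rp S i) : ℝ) ^ (-(3 / 2) : ℝ) := by
  refine nw_hO_aux S c y i (Real.rpow_nonneg (Nat.cast_nonneg _) _) fun f hf h0 => ?_
  have hs := hO_supp S c y i f hf
  obtain ⟨p, hp⟩ := Finsupp.support_nonempty_iff.2 h0
  have hfp : f - Finsupp.single p 1 + Finsupp.single p 1 = f := by
    refine tsub_add_cancel_of_le ?_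
    rw [Finsupp.single_le_iff]
    exact Nat.one_le_iff_ne_zero.2 (Finsupp.mem_support_iff.1 hp)
  have h1 : f - Finsupp.single p 1 ≠ 0 := by
    intro h2
    rw [h2, zero_add] at hfp
    rw [← hfp] at hf
    exact hf (hO_lin S c y i hU p)
  have h2 : ∀ q ∈ (f - Finsupp.single p 1).support, oo S q = i := by
    intro q hq
    apply hs
    rw [Finsupp.mem_support_iff] at hq ⊢
    rw [Finsupp.tsub_apply] at hq
    omega
  have h3 := nf_ge S i _ h2 h1
  have h4 : S.N (rp S i) ^ 2 ≤ S.nf f := by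
    rw [← hfp, Pre.nf_add, Pre.nf_single, pow_one, N_of_mem S ((mem_fib S).2 (hs p hp)), pow_two]
    exact Nat.mul_le_mul_right _ h3
  unfold wt
  have h5 : (S.N (rp S i) : ℝ) ^ (-(3 / 2) : ℝ) = ((S.N (rp S i) : ℝ) ^ 2) ^ (-(3 / 4) : ℝ) := by
    rw [← Real.rpow_natCast, ← Real.rpow_mul (Nat.cast_nonneg _)]
    norm_num
  rw [h5]
  refine Real.rpow_le_rpow_of_nonpos (by nlinarith [one_le_Nr S i]) ?_ (by norm_num)
  exact_mod_cast h4

/-! ### convergence -/

theorem summable_N : Summable fun p : S.P => (S.N p : ℝ) ^ (-(3 / 2) : ℝ) := by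
  by_contra hn
  obtain ⟨K, hK⟩ := S.prm0
  have hs : ∀ s : ℝ, s ≤ 3 / 2 → ¬ Summable fun p : S.P => (S.N p : ℝ) ^ (-s) := by
    intro s hs h
    apply hn
    refine Summable.of_nonneg_of_le (fun p => Real.rpow_nonneg (Nat.cast_nonneg _) _)
      (fun p => ?_) h
    have h1 : (1 : ℝ) ≤ S.N p := by exact_mod_cast S.one_le_N p
    exact Real.rpow_le_rpow_of_exponent_le h1 (by linarith)
  set K' : ℝ := |K| + 1 with hK'
  have hK1 : 1 ≤ K' := by
    rw [hK']
    linarith [abs_nonneg K]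
  have h1 : Real.exp (-K') ≤ 1 / 2 := by
    have h2 : Real.exp (-K') ≤ Real.exp (-1) := Real.exp_le_exp.2 (by linarith)
    have h3 : Real.exp (-1) ≤ 1 / 2 := by
      rw [Real.exp_neg]
      have h4 : (2 : ℝ) ≤ Real.exp 1 := by
        have := Real.add_one_le_exp (1 : ℝ)
        linarith
      rw [inv_le_comm₀ (by positivity) (by norm_num)]
      linarith
    linarith
  have h0 : 0 < Real.exp (-K') := Real.exp_pos _
  have h2 := hK (1 + Real.exp (-K')) (by linarith) (by linarith)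
  rw [tsum_eq_zero_of_not_summable (hs _ (by linarith)), add_sub_cancel_left, one_div,
    Real.exp_neg, inv_inv, Real.log_exp, zero_sub, abs_neg, abs_of_nonneg (by linarith)] at h2
  have := le_abs_self K
  linarith

/-- sums over orbits -/
theorem sum_orb (Φ : Finset (Orb S)) :
    ∑ i ∈ Φ, (S.N (rp S i) : ℝ) ^ (-(3 / 2) : ℝ) ≤ ∑' p : S.P, (S.N p : ℝ) ^ (-(3 / 2) : ℝ) := by
  classical
  rw [← Finset.sum_image (f := fun p => (S.N p : ℝ) ^ (-(3 / 2) : ℝ))
    (g := rp S) (s := Φ) fun i _ j _ h => rp_inj S h]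
  exact (summable_N S).sum_le_tsum _ fun p _ => Real.rpow_nonneg (Nat.cast_nonneg _) _

end

end Pool.Agent.H92.EL.CmpC
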