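import Pool.Agent.H92.EL.CCmpD

/-!
# Project ELL (MP_a3214d), block C, row C24, part E: the sums over good families (helper21)
-/

set_option autoImplicit false

open scoped BigOperators Topology
open Filter

namespace Pool.Agent.H92.EL.CmpC

open MvPolynomial
open Pool.Agent.H98.MF (Pre)
open CmpA CmpB

section

variable {l : ℕ} [Fact l.Prime] (S : SysL l) {ι : Type} [Fintype ι]

open Classical in
/-- the pairs of a prime and a variable -/
noncomputable def AA (ι : Type) [Fintype ι] (y : Finset S.P) (Y : ℝ) : Finset (S.P × ι) :=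
  (S.pr Y ×ˢ (Finset.univ : Finset ι)).filter fun a => S.rg a.1 ∧ oo S a.1 ∉ y.image (oo S)

theorem pr_of_oo {Y : ℝ} (hY : 0 ≤ Y) {p q : S.P} (h : oo S p = oo S q) (hp : p ∈ S.pr Y) :
    q ∈ S.pr Y := by
  rw [S.mem_pr hY] at hp ⊢
  rw [← N_of_oo S h]
  exact hp

open Classical in
theorem NO_eq (c : ι → S.T) (y : Finset S.P) {Y : ℝ} (hY : 0 ≤ Y) (i : Orb S)
    (hi : i ∈ (S.pr Y).image (oo S)) :
    NO S c y i = 1 + ∑ a ∈ (AA S ι y Y).filter (fun a => oo S a.1 = i),
      (C (ch S (c a.2) a.1) * X a.1 : MvPolynomial S.P ℂ) := by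
  unfold NO
  congr 1
  obtain ⟨p0, hp0, hp0i⟩ := Finset.mem_image.1 hi
  by_cases hU : Us S y i
  · rw [if_pos hU, ← Finset.sum_product']
    refine Finset.sum_congr ?_ fun _ _ => rfl
    ext ⟨p, u⟩
    unfold AA
    simp only [Finset.mem_product, Finset.mem_univ, and_true, Finset.mem_filter, mem_fib]
    constructor
    · intro h
      refine ⟨⟨pr_of_oo S hY (hp0i.trans h.symm) hp0, ?_, ?_⟩, h⟩
      · exact rg_of_oo S ((oo_rp S i).trans h.symm) hU.1
      · rw [h]
        exact hU.2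
    · exact fun h => h.2
  · rw [if_neg hU]
    symm
    rw [Finset.filter_eq_empty_iff.2, Finset.sum_empty]
    intro a ha hai
    apply hU
    unfold AA at ha
    rw [Finset.mem_filter] at ha
    refine ⟨rg_of_oo S (hai.trans (oo_rp S i).symm) ha.2.1, ?_⟩
    rw [← hai]
    exact ha.2.2

theorem nf_single_sum (Z : Finset (S.P × ι)) :
    S.nf (∑ a ∈ Z, Finsupp.single a.1 1) = ∏ a ∈ Z, S.N a.1 := by
  rw [nf_sum]
  exact Finset.prod_congr rfl fun a _ => by rw [Pre.nf_single, pow_one]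

open Classical in
theorem La_NO (c : ι → S.T) (y : Finset S.P) {Y : ℝ} (hY : 0 ≤ Y) :
    La S.toPre Y (∏ i ∈ (S.pr Y).image (oo S), NO S c y i) =
      ∑ Z ∈ ((AA S ι y Y).powerset.filter (fun Z : Finset (S.P × ι) =>
        Set.InjOn (fun a : S.P × ι => oo S a.1) (Z : Set (S.P × ι)) ∧
          Z.image (fun a : S.P × ι => oo S a.1) ⊆ (S.pr Y).image (oo S))).filter
            (fun Z => ((∏ a ∈ Z, S.N a.1 : ℕ) : ℝ) ≤ Y), ∏ a ∈ Z, ch S (c a.2) a.1 := by
  rw [Finset.prod_congr rfl fun i hi => NO_eq S c y hY i hi, prod_fib]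
  conv_rhs => rw [Finset.sum_filter]
  unfold La
  simp only [MvPolynomial.coeff_sum]
  rw [Finset.sum_comm]
  refine Finset.sum_congr rfl fun Z _ => ?_
  have e1 : ∏ a ∈ Z, (C (ch S (c a.2) a.1) * X a.1 : MvPolynomial S.P ℂ) =
      monomial (∑ a ∈ Z, Finsupp.single a.1 1) (∏ a ∈ Z, ch S (c a.2) a.1) := by
    rw [← monomial_prod]
    exact Finset.prod_congr rfl fun a _ => MvPolynomial.C_mul_X_eq_monomial
  simp only [e1, MvPolynomial.coeff_monomial]
  rw [Finset.sum_ite_eq, ← nf_single_sum]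
  by_cases h : ∑ a ∈ Z, Finsupp.single a.1 1 ∈ S.idl Y
  · rw [if_pos h, if_pos (S.mem_idl.1 h)]
  · rw [if_neg h, if_neg (fun h' => h (S.mem_idl.2 h'))]

open Classical in
/-- the graph of a family -/
noncomputable def gr (Y : ℝ) (x : ι → Finset S.P) : Finset (S.P × ι) :=
  (S.pr Y ×ˢ (Finset.univ : Finset ι)).filter fun a => a.1 ∈ x a.2

theorem bx_sub {Y : ℝ} {x : Finset S.P} (hx : x ∈ S.bx Y) : x ⊆ S.pr Y := by
  unfold Pre.bx at hx
  rw [Finset.mem_filter, Finset.mem_powerset] at hx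
  exact hx.1

theorem prod_gr {β : Type} [CommMonoid β] {Y : ℝ} {x : ι → Finset S.P} (hx : ∀ u, x u ⊆ S.pr Y)
    (F : S.P → ι → β) : ∏ a ∈ gr S Y x, F a.1 a.2 = ∏ u, ∏ p ∈ x u, F p u := by
  classical
  unfold gr
  rw [Finset.prod_filter, Finset.prod_product, Finset.prod_comm]
  refine Finset.prod_congr rfl fun u _ => ?_
  rw [← Finset.prod_filter]
  refine Finset.prod_congr ?_ fun _ _ => rfl
  ext p
  simp only [Finset.mem_filter]
  exact ⟨fun h => h.2, fun h => ⟨hx u h, h⟩⟩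

theorem ec_fam (c : ι → S.T) (x : ι → Finset S.P) :
    ec (∑ u, c u ⬝ᵥ S.tys (x u)) = ∏ u, ∏ p ∈ x u, ch S (c u) p := by
  rw [ec_sum]
  refine Finset.prod_congr rfl fun u _ => ?_
  unfold SysL.tys ch
  rw [dotProduct_sum, ec_sum]

open Classical in
/-- the sum over the good families -/
theorem CCc_eq (c : ι → S.T) (y : Finset S.P) {Y : ℝ} (hY : 0 ≤ Y) :
    S.CCc y c Y = La S.toPre Y (∏ i ∈ (S.pr Y).image (oo S), NO S c y i) := by
  rw [La_NO S c y hY]
  unfold SysL.CCc
  rw [← Finset.sum_filter]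
  refine Finset.sum_nbij' (gr S Y)
    (fun Z u => (Z.filter fun a => a.2 = u).image Prod.fst) ?_ ?_ ?_ ?_ ?_
  · intro x hx
    rw [Finset.mem_filter, Fintype.mem_piFinset] at hx
    obtain ⟨hbx, hG, hA, hN⟩ := hx
    have hsub : ∀ u, x u ⊆ S.pr Y := fun u => bx_sub S (hbx u)
    rw [Finset.mem_filter, Finset.mem_filter, Finset.mem_powerset]
    refine ⟨⟨?_, ?_, ?_⟩, ?_⟩
    · intro a ha
      unfold gr at ha
      unfold AA
      rw [Finset.mem_filter] at ha ⊢
      refine ⟨ha.1, hG.1 a.2 a.1 ha.2, ?_⟩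
      intro h
      obtain ⟨q, hq, hqa⟩ := Finset.mem_image.1 h
      obtain ⟨g, hg⟩ := (oo_eq S).1 hqa.symm
      exact hA a.2 a.1 ha.2 q hq g hg
    · rintro ⟨p, u⟩ ha ⟨q, v⟩ hb hab
      unfold gr at ha hb
      rw [Finset.mem_coe, Finset.mem_filter] at ha hb
      obtain ⟨g, hg⟩ := (oo_eq S).1 hab
      obtain ⟨h1, h2⟩ := hG.2 u v p ha.2 q hb.2 g hg
      rw [h1, h2]
    · intro i hi
      obtain ⟨a, ha, rfl⟩ := Finset.mem_image.1 hi
      unfold gr at ha
      rw [Finset.mem_filter, Finset.mem_product] at ha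
      exact Finset.mem_image_of_mem _ ha.1.1
    · rw [prod_gr S hsub (fun p _ => S.N p)]
      exact hN
  · intro Z hZ
    rw [Finset.mem_filter, Finset.mem_filter, Finset.mem_powerset] at hZ
    obtain ⟨⟨hZA, hinj, him⟩, hN⟩ := hZ
    have hZA' : ∀ a ∈ Z, a.1 ∈ S.pr Y ∧ S.rg a.1 ∧ oo S a.1 ∉ y.image (oo S) := by
      intro a ha
      have h := hZA ha
      unfold AA at h
      rw [Finset.mem_filter, Finset.mem_product] at h
      exact ⟨h.1.1, h.2⟩
    have hmem : ∀ (u : ι) (p : S.P), p ∈ (Z.filter fun a => a.2 = u).image Prod.fst ↔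
        (p, u) ∈ Z := by
      intro u p
      rw [Finset.mem_image]
      constructor
      · rintro ⟨⟨q, v⟩, h, rfl⟩
        rw [Finset.mem_filter] at h
        obtain ⟨h1, h2⟩ := h
        simp only at h2
        rw [← h2]
        exact h1
      · intro h
        exact ⟨(p, u), Finset.mem_filter.2 ⟨h, rfl⟩, rfl⟩
    have hsub : ∀ u, (Z.filter fun a => a.2 = u).image Prod.fst ⊆ S.pr Y := fun u p hp =>
      (hZA' _ ((hmem u p).1 hp)).1
    have hprod : ∏ u, S.nm ((Z.filter fun a => a.2 = u).image Prod.fst) = ∏ a ∈ Z, S.N a.1 := by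
      rw [← Finset.prod_fiberwise Z (fun a => a.2) (fun a => S.N a.1)]
      refine Finset.prod_congr rfl fun u _ => ?_
      unfold Pre.nm
      rw [Finset.prod_image]
      rintro ⟨p, v⟩ h ⟨q, w⟩ h' hpq
      rw [Finset.mem_coe, Finset.mem_filter] at h h'
      have h1 := h.2
      have h2 := h'.2
      simp only at h1 h2 hpq
      rw [h1, h2, hpq]
    rw [Finset.mem_filter, Fintype.mem_piFinset]
    refine ⟨fun u => ?_, ⟨?_, ?_⟩, ?_, ?_⟩
    · rw [Pre.mem_bx]
      refine le_trans ?_ hN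
      rw [← hprod]
      have h1 : S.nm ((Z.filter fun a => a.2 = u).image Prod.fst) ≤
          ∏ u, S.nm ((Z.filter fun a => a.2 = u).image Prod.fst) :=
        Finset.single_le_prod' (f := fun u => S.nm ((Z.filter fun a => a.2 = u).image Prod.fst))
          (fun v _ => Pre.one_le_nm _ _) (Finset.mem_univ u)
      exact_mod_cast h1
    · intro u p hp
      exact (hZA' _ ((hmem u p).1 hp)).2.1
    · intro u v p hp q hq g hg
      have h1 := hinj (Finset.mem_coe.2 ((hmem u p).1 hp)) (Finset.mem_coe.2 ((hmem v q).1 hq))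
        ((oo_eq S).2 ⟨g, hg⟩)
      rw [Prod.mk.injEq] at h1
      exact ⟨h1.2, h1.1⟩
    · intro u p hp q hq g hg
      apply (hZA' _ ((hmem u p).1 hp)).2.2
      simp only
      rw [(oo_eq S).2 ⟨g, hg⟩]
      exact Finset.mem_image_of_mem _ hq
    · rw [hprod]
      exact hN
  · intro x hx
    rw [Finset.mem_filter, Fintype.mem_piFinset] at hx
    funext u
    ext p
    unfold gr
    simp only [Finset.mem_image, Finset.mem_filter, Finset.mem_product, Finset.mem_univ, and_true,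
      Prod.exists, exists_and_right, exists_eq_right]
    exact ⟨fun h => h.2, fun h => ⟨bx_sub S (hx.1 u) h, h⟩⟩
  · intro Z hZ
    rw [Finset.mem_filter, Finset.mem_filter, Finset.mem_powerset] at hZ
    ext ⟨p, u⟩
    unfold gr
    simp only [Finset.mem_image, Finset.mem_filter, Finset.mem_product, Finset.mem_univ, and_true,
      Prod.exists, exists_and_right, exists_eq_right]
    refine ⟨fun h => h.2, fun h => ⟨?_, h⟩⟩
    have h1 := hZ.1.1 h
    unfold AA at h1
    rw [Finset.mem_filter, Finset.mem_product] at h1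
    exact h1.1.1
  · intro x hx
    rw [Finset.mem_filter, Fintype.mem_piFinset] at hx
    rw [prod_gr S (fun u => bx_sub S (hx.1 u)) (fun p u => ch S (c u) p), ec_fam]

end

end Pool.Agent.H92.EL.CmpC
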