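import Pool.Agent.H92.EL.CCmpE

/-!
# Project ELL (MP_a3214d), block C, row C24, part F: the counting functions and bounds (helper21)
-/

set_option autoImplicit false

open scoped BigOperators Topology
open Filter

namespace Pool.Agent.H92.EL.CmpC

open MvPolynomial
open Pool.Agent.H98.MF (Pre)
open CmpA CmpB

section

variable {l : ℕ} [Fact l.Prime] (S : SysL l) {ι : Type} [Fintype ι]

/-- the coefficients -/
noncomputable def hh (c : ι → S.T) (y : Finset S.P) (f : S.P →₀ ℕ) : ℂ :=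
  hc (oo S) (hO S c y) f

theorem coeff_hO_prod (c : ι → S.T) (y : Finset S.P) (Φ : Finset (Orb S)) (f : S.P →₀ ℕ)
    (hf : f.support.image (oo S) ⊆ Φ) : (∏ i ∈ Φ, hO S c y i).coeff f = hh S c y f := by
  rw [coeff_prod' (oo S) (hO S c y) (hO_zero S c y) (hO_supp S c y), if_pos hf]
  rfl

/-- the identity of the counting functions -/
theorem CCc_hh (c : ι → S.T) (y : Finset S.P) {Y : ℝ} (hY : 1 ≤ Y) :
    S.CCc y c Y = ∑ f ∈ S.idl Y, hh S c y f * S.DD c (Y / S.nf f) := by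
  classical
  have hY0 : 0 ≤ Y := by linarith
  rw [CCc_eq S c y hY0]
  set Φ := (S.pr Y).image (oo S) with hΦ
  have h1 : ∏ i ∈ Φ, EO S c i = ∏ u, ∏ p ∈ S.pr Y, (1 - C (ch S (c u) p) * X p) := by
    have h2 : S.pr Y = Φ.biUnion (fib S) := by
      ext p
      rw [Finset.mem_biUnion]
      constructor
      · intro hp
        exact ⟨oo S p, Finset.mem_image_of_mem _ hp, (mem_fib S).2 rfl⟩
      · rintro ⟨i, hi, hp⟩
        obtain ⟨q, hq, hqi⟩ := Finset.mem_image.1 hi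
        exact pr_of_oo S hY0 (hqi.trans ((mem_fib S).1 hp).symm) hq
    rw [Finset.prod_comm, h2, Finset.prod_biUnion]
    · rfl
    · intro i _ j _ hij
      rw [Function.onFun, Finset.disjoint_left]
      intro p hp hp'
      exact hij (((mem_fib S).1 hp).symm.trans ((mem_fib S).1 hp'))
  have h2 : Cg S.toPre Y ((∏ i ∈ Φ, hO S c y i) * ∏ u, Vt S (c u) Y) (∏ i ∈ Φ, NO S c y i) := by
    have h3 : (∏ i ∈ Φ, hO S c y i) * ∏ u, Vt S (c u) Y =
        (∏ i ∈ Φ, NO S c y i) *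
          ∏ u, (Vt S (c u) Y * ∏ p ∈ S.pr Y, (1 - C (ch S (c u) p) * X p)) := by
      have h4 : ∏ i ∈ Φ, hO S c y i = (∏ i ∈ Φ, NO S c y i) * ∏ i ∈ Φ, EO S c i := by
        rw [← Finset.prod_mul_distrib]
        rfl
      rw [h4, h1, Finset.prod_mul_distrib]
      ring
    have h5 : Cg S.toPre Y (∏ u, (Vt S (c u) Y * ∏ p ∈ S.pr Y, (1 - C (ch S (c u) p) * X p)))
        (∏ _u : ι, (1 : MvPolynomial S.P ℂ)) := Cg.prod _ fun u _ => Cg_Vt S (c u) Y
    rw [Finset.prod_const_one] at h5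
    have h6 := (Cg.refl (S := S.toPre) (Y := Y) (∏ i ∈ Φ, NO S c y i)).mul h5
    rw [mul_one] at h6
    rw [h3]
    exact h6
  rw [← La_congr h2, La_mul]
  refine Finset.sum_congr rfl fun a ha => ?_
  have h3 : (1 : ℝ) ≤ S.nf a := by exact_mod_cast S.nf_pos a
  have h4 : Y / S.nf a ≤ Y := div_le_self hY0 h3
  rw [DD_eq S c h4, coeff_hO_prod]
  rw [hΦ]
  exact Finset.image_subset_image (supp_sub_pr S ha)

/-! ### bounds -/

theorem good_inj {y : Finset S.P} (hy : S.Gd (fun _ : Unit => y)) {p q : S.P} (hp : p ∈ y)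
    (hq : q ∈ y) (h : oo S p = oo S q) : p = q := by
  obtain ⟨g, hg⟩ := (oo_eq S).1 h
  exact (hy.2 () () p hp q hq g hg).2

/-- the sum over the irregular primes -/
theorem irr_sum : ∃ K : ℝ, 0 ≤ K ∧ ∀ Φ : Finset (Orb S),
    ∑ i ∈ Φ, (open Classical in if S.rg (rp S i) then 0 else
      (S.N (rp S i) : ℝ) ^ (-(3 / 4) : ℝ)) ≤ K := by
  classical
  obtain ⟨K, hK⟩ := S.irr
  refine ⟨|K|, abs_nonneg K, fun Φ => ?_⟩
  refine le_trans ?_ ((hK ((Φ.filter fun i => ¬ S.rg (rp S i)).image (rp S)) ?_).trans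
    (le_abs_self K))
  · rw [Finset.sum_image fun i _ j _ h => rp_inj S h, Finset.sum_filter]
    apply le_of_eq
    refine Finset.sum_congr rfl fun i _ => ?_
    by_cases h : S.rg (rp S i)
    · rw [if_pos h, if_neg (fun h' => h' h)]
    · rw [if_neg h, if_pos h]
  · intro p hp
    obtain ⟨i, hi, rfl⟩ := Finset.mem_image.1 hp
    have h1 := (Finset.mem_filter.1 hi).2
    unfold SysL.rg at h1
    push Not at h1
    obtain ⟨g, h2, h3⟩ := h1
    exact ⟨g, h3, h2⟩

/-- the norms of the products -/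
theorem prod_nw_le {K1 K2 : ℝ} (hK1 : ∀ Φ : Finset (Orb S),
    ∑ i ∈ Φ, (S.N (rp S i) : ℝ) ^ (-(3 / 2) : ℝ) ≤ K1) (hK2 : ∀ Φ : Finset (Orb S),
    ∑ i ∈ Φ, (open Classical in if S.rg (rp S i) then 0 else
      (S.N (rp S i) : ℝ) ^ (-(3 / 4) : ℝ)) ≤ K2) (c : ι → S.T) (y : Finset S.P)
    (hy : S.Gd (fun _ : Unit => y)) (Φ : Finset (Orb S)) :
    ∏ i ∈ Φ, nw (wt S) (hO S c y i) ≤
      Real.exp (KK S ι * (K1 + K2)) * S.lo (KK S ι) y := by
  classical
  have hKK := KK_nonneg S ι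
  set e : Orb S → ℝ := fun i => Real.exp (KK S ι * ((S.N (rp S i) : ℝ) ^ (-(3 / 2) : ℝ) +
    if S.rg (rp S i) then 0 else (S.N (rp S i) : ℝ) ^ (-(3 / 4) : ℝ))) with he
  set zz : Orb S → ℝ := fun i => if i ∈ y.image (oo S) then
    1 + KK S ι * (S.N (rp S i) : ℝ) ^ (-(1 / 2) : ℝ) else 1 with hzz
  have hN34 : ∀ i : Orb S, 0 ≤ (S.N (rp S i) : ℝ) ^ (-(3 / 4) : ℝ) := fun i =>
    Real.rpow_nonneg (Nat.cast_nonneg _) _
  have hN32 : ∀ i : Orb S, 0 ≤ (S.N (rp S i) : ℝ) ^ (-(3 / 2) : ℝ) := fun i =>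
    Real.rpow_nonneg (Nat.cast_nonneg _) _
  have hN12 : ∀ i : Orb S, 0 ≤ (S.N (rp S i) : ℝ) ^ (-(1 / 2) : ℝ) := fun i =>
    Real.rpow_nonneg (Nat.cast_nonneg _) _
  have hz1 : ∀ i, 1 ≤ zz i := by
    intro i
    simp only [hzz]
    split_ifs
    · have := mul_nonneg hKK (hN12 i)
      linarith
    · exact le_rfl
  have he1 : ∀ i, 1 ≤ e i := by
    intro i
    simp only [he]
    refine Real.one_le_exp (mul_nonneg hKK (add_nonneg (hN32 i) ?_))
    split_ifs
    · exact le_rfl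
    · exact hN34 i
  have hloc : ∀ i, nw (wt S) (hO S c y i) ≤ e i * zz i := by
    intro i
    by_cases hr : S.rg (rp S i)
    · by_cases hi : i ∈ y.image (oo S)
      · have h1 : nw (wt S) (hO S c y i) ≤ zz i := by
          refine (nw_hO_one S c y i).trans ?_
          simp only [hzz, if_pos hi]
          have h2 : (S.N (rp S i) : ℝ) ^ (-(3 / 4) : ℝ) ≤ (S.N (rp S i) : ℝ) ^ (-(1 / 2) : ℝ) :=
            Real.rpow_le_rpow_of_exponent_le (one_le_Nr S i) (by norm_num)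
          have := mul_le_mul_of_nonneg_left h2 hKK
          linarith
        exact h1.trans (le_mul_of_one_le_left (le_trans zero_le_one (hz1 i)) (he1 i))
      · have h1 : nw (wt S) (hO S c y i) ≤ e i := by
          refine (nw_hO_two S c y i ⟨hr, hi⟩).trans ?_
          simp only [he, if_pos hr, add_zero]
          have := Real.add_one_le_exp (KK S ι * (S.N (rp S i) : ℝ) ^ (-(3 / 2) : ℝ))
          linarith
        exact h1.trans (le_mul_of_one_le_right (le_trans zero_le_one (he1 i)) (hz1 i))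
    · have h1 : nw (wt S) (hO S c y i) ≤ e i := by
        refine (nw_hO_one S c y i).trans ?_
        simp only [he, if_neg hr]
        have h2 := Real.add_one_le_exp (KK S ι * ((S.N (rp S i) : ℝ) ^ (-(3 / 2) : ℝ) +
          (S.N (rp S i) : ℝ) ^ (-(3 / 4) : ℝ)))
        have h3 := mul_nonneg hKK (hN32 i)
        rw [mul_add] at h2 ⊢
        linarith
      exact h1.trans (le_mul_of_one_le_right (le_trans zero_le_one (he1 i)) (hz1 i))
  have h1 : ∏ i ∈ Φ, nw (wt S) (hO S c y i) ≤ ∏ i ∈ Φ, e i * zz i :=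
    Finset.prod_le_prod (fun i _ => nw_nonneg (wt_nonneg S) _) fun i _ => hloc i
  refine h1.trans ?_
  rw [Finset.prod_mul_distrib]
  have h2 : ∏ i ∈ Φ, e i ≤ Real.exp (KK S ι * (K1 + K2)) := by
    simp only [he]
    rw [← Real.exp_sum, ← Finset.mul_sum, Finset.sum_add_distrib]
    exact Real.exp_le_exp.2 (mul_le_mul_of_nonneg_left (add_le_add (hK1 Φ) (hK2 Φ)) hKK)
  have h3 : ∏ i ∈ Φ, zz i ≤ S.lo (KK S ι) y := by
    have h4 : ∏ i ∈ y.image (oo S), zz i = S.lo (KK S ι) y := by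
      rw [Finset.prod_image fun p hp q hq h => good_inj S hy hp hq h]
      unfold SysL.lo
      refine Finset.prod_congr rfl fun p hp => ?_
      simp only [hzz, if_pos (Finset.mem_image_of_mem _ hp)]
      rw [N_of_oo S (oo_rp S (oo S p))]
    rw [← h4]
    have h5 : ∏ i ∈ Φ, zz i = ∏ i ∈ Φ.filter (fun i => i ∈ y.image (oo S)), zz i := by
      rw [Finset.prod_filter]
      refine Finset.prod_congr rfl fun i _ => ?_
      by_cases h : i ∈ y.image (oo S)
      · rw [if_pos h]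
      · rw [if_neg h]
        simp only [hzz, if_neg h]
    rw [h5]
    have h6 : Φ.filter (fun i => i ∈ y.image (oo S)) ⊆ y.image (oo S) := fun i hi =>
      (Finset.mem_filter.1 hi).2
    rw [← Finset.prod_sdiff h6]
    refine le_mul_of_one_le_left ?_ ?_
    · exact Finset.prod_nonneg fun i _ => le_trans zero_le_one (hz1 i)
    · exact Finset.one_le_prod fun i _ => hz1 i
  exact mul_le_mul h2 h3 (Finset.prod_nonneg fun i _ => le_trans zero_le_one (hz1 i))
    (Real.exp_pos _).le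

end

end Pool.Agent.H92.EL.CmpC
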