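import Pool.Agent.H92.EL.CStm

/-!
# Project T4 (MP_a3214d), block C: the two results used in the assembly
-/

set_option autoImplicit false

open scoped BigOperators Topology
open Filter

namespace Pool.Agent.H92.EL

namespace SysL

variable {l : ℕ} [Fact l.Prime] (S : SysL l) {d n : ℕ}

open Classical in
/-- the primes of a family -/
noncomputable def un {ι : Type} [Fintype ι] (x : ι → Finset S.P) : Finset S.P :=
  Finset.univ.biUnion x

open Classical in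
/-- assignments of central elements to the primes of a finite set, zero elsewhere -/
noncomputable def asg (n : ℕ) (y : Finset S.P) : Finset (S.P →₀ VV l n) :=
  y.finsupp fun _ => Finset.univ

/-- the total type of central data: an assignment and a family indexed by the central vectors -/
noncomputable def tz (RZ : Finset (VV l n)) (z : S.P →₀ VV l n) (t : RZ → S.T) :
    Fin n → S.T :=
  fun i => (z.sum fun p v => v i • S.ty p) + ∑ v : RZ, (v : VV l n) i • t v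

open Classical in
/-- the number of pairs of a noncentral and a central family of bounded norm, weighted by a
function of the total type of the central data -/
noncomputable def NN (Bd : BD l d n) (R : Finset (VV l d)) (RZ : Finset (VV l n))
    (c : VV l d → VV l n → S.El) (M : Finset S.P) (Φ : Finset R → Prop)
    (g : (R → Finset S.P) → (Fin n → S.T) → ℝ) (Y : ℝ) : ℝ :=
  ∑ x ∈ Fintype.piFinset (fun _ : R => S.bx Y),
    if S.Gd x ∧ S.Off M x ∧ S.okc Bd R c x ∧ Φ (S.pat x) ∧ ((∏ u, S.nm (x u) : ℕ) : ℝ) ≤ Y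
    then ∑ z ∈ S.asg n (S.un x), S.CC (S.un x) (fun t : RZ → S.T => g x (S.tz RZ z t))
      (Y / (∏ u, S.nm (x u) : ℕ))
    else 0

end SysL

open Classical in
/-- the asymptotic formula for a fixed frame -/
def SFix : Prop := ∀ (l : ℕ) [Fact l.Prime] (S : SysL l) (d n : ℕ) (Bd : SysL.BD l d n)
  (R : Finset (SysL.VV l d)) (RZ : Finset (SysL.VV l n))
  (c : SysL.VV l d → SysL.VV l n → S.T) (Φ : Finset R → Prop) (θ : (R → S.T) → ℝ)
  (g : (R → Finset S.P) → (Fin n → S.T) → ℝ), S.Rep R → S.Rep RZ → 1 ≤ n →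
  (∀ v ζ ζ', c v (ζ + ζ') = c v ζ + c v ζ') → S.Gen Bd R (S.cT c) Φ → Φ Finset.univ →
  (∀ x t, 0 ≤ g x t ∧ g x t ≤ 1) → (∀ t, 0 ≤ θ t) →
  (∀ x, S.Gd x → S.okc Bd R (S.cT c) x →
    (1 / ((l : ℝ) ^ S.m) ^ n) * ∑ t : Fin n → S.T, g x t = θ (fun v => S.tys (x v))) →
  ∃ L : ℝ, 0 ≤ L ∧ Tendsto (fun Y : ℝ => S.NN Bd R RZ (S.cT c) ∅ Φ g Y /
      (Y * Real.log Y ^ (S.bV Bd R (S.cT c) + RZ.card - 1))) atTop (𝓝 L) ∧
    ((∃ x : R → Finset S.P, S.Gd x ∧ S.okc Bd R (S.cT c) x ∧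
      0 < θ (fun v => S.tys (x v))) → 0 < L)

open Classical in
/-- the uniform bound -/
def SUnf : Prop := ∀ (l : ℕ) [Fact l.Prime] (S : SysL l) (d n : ℕ) (Bd : SysL.BD l d n)
  (R : Finset (SysL.VV l d)) (RZ : Finset (SysL.VV l n)) (ε : ℝ), S.Rep R → S.Rep RZ →
  1 ≤ n → 0 < ε → ∃ C : ℝ, 0 ≤ C ∧
  ∀ (c : SysL.VV l d → SysL.VV l n → S.El) (M : Finset S.P) (Φ : Finset R → Prop),
    S.Adc c → S.Stb M → (∀ v ζ, (c v ζ).2.support ⊆ M) → S.Gen Bd R c Φ →
    ∀ Y : ℝ, 2 ≤ Y → S.NN Bd R RZ c M Φ (fun _ _ => 1) Y ≤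
      C * (S.nm M : ℝ) ^ ε * (Y * Real.log Y ^ (S.bV Bd R c + RZ.card - 1))

namespace SysL

variable {l : ℕ} [Fact l.Prime] (S : SysL l) {d n : ℕ}

open Classical in
/-- the number of families away from `y` of bounded norm with `x u0` empty -/
noncomputable def CE {ι : Type} [Fintype ι] (u0 : ι) (y : Finset S.P) (Y : ℝ) : ℝ :=
  ∑ x ∈ Fintype.piFinset (fun _ : ι => S.bx Y),
    if S.Gd x ∧ S.Awy y x ∧ ((∏ u, S.nm (x u) : ℕ) : ℝ) ≤ Y ∧ x u0 = ∅ then 1 else 0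

open Classical in
/-- the number of pairs of families where one central vector does not occur -/
noncomputable def NE (Bd : BD l d n) (R : Finset (VV l d)) (RZ : Finset (VV l n))
    (c : VV l d → VV l n → S.El) (Φ : Finset R → Prop) (z0 : RZ) (Y : ℝ) : ℝ :=
  ∑ x ∈ Fintype.piFinset (fun _ : R => S.bx Y),
    if S.Gd x ∧ S.okc Bd R c x ∧ Φ (S.pat x) ∧ ((∏ u, S.nm (x u) : ℕ) : ℝ) ≤ Y
    then ((S.asg n (S.un x)).card : ℝ) * S.CE z0 (S.un x) (Y / (∏ u, S.nm (x u) : ℕ))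
    else 0

end SysL

open Classical in
/-- families where one central vector does not occur are negligible -/
def SFixE : Prop := ∀ (l : ℕ) [Fact l.Prime] (S : SysL l) (d n : ℕ) (Bd : SysL.BD l d n)
  (R : Finset (SysL.VV l d)) (RZ : Finset (SysL.VV l n))
  (c : SysL.VV l d → SysL.VV l n → S.T) (Φ : Finset R → Prop), S.Rep R → S.Rep RZ → 1 ≤ n →
  (∀ v ζ ζ', c v (ζ + ζ') = c v ζ + c v ζ') → S.Gen Bd R (S.cT c) Φ → Φ Finset.univ →
  ∀ z0 : RZ, Tendsto (fun Y : ℝ => S.NE Bd R RZ (S.cT c) Φ z0 Y /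
      (Y * Real.log Y ^ (S.bV Bd R (S.cT c) + RZ.card - 1))) atTop (𝓝 0)

/-- sums with a sharp cutoff are small -/
def SKarE : Prop := ∀ (X : Type) (n : X → ℕ) (b : X → ℝ) (B : ℕ) (L : ℝ), (∀ x, 1 ≤ n x) →
  ∀ hf : (∀ N : ℕ, {x | n x ≤ N}.Finite), DPo n b B L →
    Tendsto (fun Y : ℝ => (∑ x ∈ (hf ⌊Y⌋₊).toFinset, b x * n x) / (Y * Real.log Y ^ B)) atTop
      (𝓝 0)

end Pool.Agent.H92.EL
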