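import Pool.Agent.H92.EL.CFin
import Pool.Agent.H98.MF.SBase

/-!
# Project T4 (MP_a3214d), block C: auxiliary facts for the assembly
-/

set_option autoImplicit false

open scoped BigOperators Topology
open Filter

namespace Pool.Agent.H92.EL

open Pool.Agent.H98.MF (Pre)

section

variable {l : ℕ} [Fact l.Prime] (S : SysL l) {ι : Type} [Fintype ι]

/-- the norm of a family -/
noncomputable def fxn (x : ι → Finset S.P) : ℕ := ∏ u, S.nm (x u)

theorem fxn_one (x : ι → Finset S.P) : 1 ≤ fxn S x :=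
  Finset.one_le_prod' fun u _ => S.one_le_nm (x u)

theorem fxn_pos (x : ι → Finset S.P) : (0 : ℝ) < fxn S x := by
  exact_mod_cast fxn_one S x

theorem fxn_le (x : ι → Finset S.P) (u : ι) : S.nm (x u) ≤ fxn S x :=
  Finset.single_le_prod' (f := fun u => S.nm (x u)) (fun u _ => S.one_le_nm (x u))
    (Finset.mem_univ u)

theorem fxn_mem [DecidableEq ι] (x : ι → Finset S.P) {Y : ℝ} (h : (fxn S x : ℝ) ≤ Y) :
    x ∈ (Fintype.piFinset fun _ : ι => S.bx Y : Finset (ι → Finset S.P)) := by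
  rw [Fintype.mem_piFinset]
  intro u
  rw [S.mem_bx]
  exact le_trans (by exact_mod_cast fxn_le S x u) h

theorem fxn_fin (N : ℕ) : {x : ι → Finset S.P | fxn S x ≤ N}.Finite := by
  classical
  refine (Finset.finite_toSet (Fintype.piFinset fun _ : ι => S.bx (N : ℝ))).subset fun x hx => ?_
  exact fxn_mem S x (by exact_mod_cast (show fxn S x ≤ N from hx))

omit [Fintype ι] in
open Classical in
theorem fx_dis {x : ι → Finset S.P} (h : S.Gd x) (u v : ι) (huv : u ≠ v) :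
    Disjoint (x u) (x v) := by
  rw [Finset.disjoint_left]
  intro p hp hq
  exact huv (h.2 u v p hp p hq 1 (S.ac_one p)).1

open Classical in
theorem fx_prod {x : ι → Finset S.P} (h : S.Gd x) (f : S.P → ℝ) :
    ∏ p ∈ S.un x, f p = ∏ u, ∏ p ∈ x u, f p := by
  unfold SysL.un
  exact Finset.prod_biUnion fun u _ v _ huv => fx_dis S h u v huv

open Classical in
theorem fx_nm {x : ι → Finset S.P} (h : S.Gd x) : (fxn S x : ℝ) = ∏ p ∈ S.un x, (S.N p : ℝ) := by
  rw [fx_prod S h]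
  unfold fxn Pre.nm
  push_cast
  rfl

theorem fx_gd {x : ι → Finset S.P} (h : S.Gd x) : S.Gd (fun _ : Unit => S.un x) := by
  classical
  have hm : ∀ p, p ∈ S.un x ↔ ∃ u, p ∈ x u := by
    intro p
    unfold SysL.un
    rw [Finset.mem_biUnion]
    simp
  refine ⟨fun _ p hp => ?_, fun _ _ p hp q hq g hg => ⟨rfl, ?_⟩⟩
  · obtain ⟨u, hu⟩ := (hm p).1 hp
    exact h.1 u p hu
  · obtain ⟨u, hu⟩ := (hm p).1 hp
    obtain ⟨v, hv⟩ := (hm q).1 hq
    exact (h.2 u v p hu q hv g hg).2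

/-- the weight of a family -/
noncomputable def fxW (n : ℕ) (τ : S.P → ℝ) (x : ι → Finset S.P) : ℝ :=
  ((l : ℝ) ^ n) ^ (S.un x).card * ∏ p ∈ S.un x, τ p

theorem fx_term {x : ι → Finset S.P} (h : S.Gd x) (n : ℕ) (τ : S.P → ℝ) (s : ℝ) :
    fxW S n τ x * (fxn S x : ℝ) ^ (-s) =
      ∏ v, ∏ p ∈ x v, ((l : ℝ) ^ n * τ p * (S.N p : ℝ) ^ (-s)) := by
  rw [← fx_prod S h, Finset.prod_mul_distrib, Finset.prod_mul_distrib, Finset.prod_const,
    Real.finsetProd_rpow _ _ fun p _ => Nat.cast_nonneg _, ← fx_nm S h]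
  rfl

theorem fx_asg (n : ℕ) (y : Finset S.P) : ((S.asg n y).card : ℝ) = ((l : ℝ) ^ n) ^ y.card := by
  classical
  unfold SysL.asg
  rw [Finset.card_finsupp, Finset.prod_const, Finset.card_univ]
  have h1 : Fintype.card (SysL.VV l n) = l ^ n := by
    show Fintype.card (Fin n → ZMod l) = _
    rw [Fintype.card_fun, ZMod.card, Fintype.card_fin]
  rw [h1]
  push_cast
  rfl

/-- equidistribution of the values of a surjective homomorphism -/
theorem fx_equi {G H : Type} [AddCommGroup G] [AddCommGroup H] [Fintype G] [Fintype H]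
    (A : G →+ H) (hA : Function.Surjective A) (c : H) (F : H → ℝ) :
    (1 / (Fintype.card G : ℝ)) * ∑ t : G, F (c + A t) =
      (1 / (Fintype.card H : ℝ)) * ∑ t : H, F t := by
  classical
  have hfib : ∀ t' : H, (Finset.univ.filter fun t : G => A t = t').card =
      (Finset.univ.filter fun t : G => A t = 0).card := fun t' =>
    AddMonoidHom.card_fiber_eq_of_mem_range A (hA t') (hA 0)
  set K : ℕ := (Finset.univ.filter fun t : G => A t = 0).card with hK
  have h1 : ∀ F' : H → ℝ, ∑ t : G, F' (A t) = K * ∑ t : H, F' t := by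
    intro F'
    rw [← Finset.sum_fiberwise Finset.univ (fun t : G => A t), Finset.mul_sum]
    refine Finset.sum_congr rfl fun t' _ => ?_
    have h2 : ∀ t ∈ Finset.univ.filter (fun t : G => A t = t'), F' (A t) = F' t' := by
      intro t ht
      rw [(Finset.mem_filter.1 ht).2]
    rw [Finset.sum_congr rfl h2, Finset.sum_const, hfib, nsmul_eq_mul]
  have h2 := h1 fun _ => 1
  simp only [Finset.sum_const, Finset.card_univ, nsmul_eq_mul, mul_one] at h2
  have h3 : ∑ t : H, F (c + t) = ∑ t : H, F t := Equiv.sum_comp (Equiv.addLeft c) F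
  rw [h1 fun t => F (c + t), h3, h2]
  have hG : (Fintype.card G : ℝ) ≠ 0 := by
    have := Fintype.card_pos (α := G)
    positivity
  rw [h2] at hG
  have hK0 : (K : ℝ) ≠ 0 := left_ne_zero_of_mul hG
  have hH0 : (Fintype.card H : ℝ) ≠ 0 := right_ne_zero_of_mul hG
  field_simp

/-- the average over the central data -/
theorem fx_avg {n : ℕ} {RZ : Finset (SysL.VV l n)} (hRZ : S.Rep RZ) (z : S.P →₀ SysL.VV l n)
    (G : (Fin n → S.T) → ℝ) :
    (1 / ((l : ℝ) ^ S.m) ^ Fintype.card RZ) * ∑ t : RZ → S.T, G (S.tz RZ z t) =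
      (1 / ((l : ℝ) ^ S.m) ^ n) * ∑ t : Fin n → S.T, G t := by
  classical
  let A : (RZ → S.T) →+ (Fin n → S.T) :=
    { toFun := fun t i => ∑ v : RZ, (v : SysL.VV l n) i • t v
      map_zero' := by
        funext i
        simp
      map_add' := fun t t' => by
        funext i
        simp [Finset.sum_add_distrib] }
  have hA : Function.Surjective A := by
    intro t'
    have h1 : ∀ i : Fin n, ∃ w : RZ, ∃ g : S.D, (Pi.single i (1 : ZMod l) : SysL.VV l n) =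
        (S.e g : ZMod l) • (w : SysL.VV l n) := by
      intro i
      obtain ⟨w, hw, g, hg⟩ := hRZ.ex (Pi.single i (1 : ZMod l)) (by
        intro h
        have h2 := congrFun h i
        rw [Pi.single_eq_same] at h2
        exact one_ne_zero h2)
      exact ⟨⟨w, hw⟩, g, hg⟩
    choose w g hg using h1
    have h2 : ∀ (i : Fin n) (s : S.T), A (Pi.single (w i) ((S.e (g i) : ZMod l) • s)) =
        Pi.single i s := by
      intro i s
      funext j
      have h3 : A (Pi.single (w i) ((S.e (g i) : ZMod l) • s)) j =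
          ∑ v : RZ, (v : SysL.VV l n) j •
            (Pi.single (w i) ((S.e (g i) : ZMod l) • s) : RZ → S.T) v := rfl
      rw [h3, Finset.sum_eq_single (w i)]
      · rw [Pi.single_eq_same, smul_smul]
        have h4 := congrFun (hg i) j
        rw [Pi.smul_apply, smul_eq_mul] at h4
        rw [mul_comm, ← h4]
        by_cases hij : j = i
        · subst hij
          rw [Pi.single_eq_same, Pi.single_eq_same, one_smul]
        · rw [Pi.single_eq_of_ne hij, Pi.single_eq_of_ne hij, zero_smul]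
      · intro v _ hv
        rw [Pi.single_eq_of_ne hv, smul_zero]
      · exact fun h => absurd (Finset.mem_univ _) h
    refine ⟨∑ i, Pi.single (w i) ((S.e (g i) : ZMod l) • t' i), ?_⟩
    rw [map_sum, Finset.sum_congr rfl fun i _ => h2 i (t' i)]
    exact Finset.univ_sum_single t'
  have h1 := fx_equi A hA (fun i => z.sum fun p v => v i • S.ty p) G
  have h2 : Fintype.card (RZ → S.T) = (l ^ S.m) ^ Fintype.card RZ := by
    rw [Fintype.card_fun]
    show Fintype.card (Fin S.m → ZMod l) ^ _ = _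
    rw [Fintype.card_fun, ZMod.card, Fintype.card_fin]
  have h3 : Fintype.card (Fin n → S.T) = (l ^ S.m) ^ n := by
    rw [Fintype.card_fun, Fintype.card_fin]
    show Fintype.card (Fin S.m → ZMod l) ^ _ = _
    rw [Fintype.card_fun, ZMod.card, Fintype.card_fin]
  rw [h2, h3] at h1
  push_cast at h1
  exact h1

theorem fx_avg' {n : ℕ} {RZ : Finset (SysL.VV l n)} (hRZ : S.Rep RZ) (z : S.P →₀ SysL.VV l n)
    (G : (Fin n → S.T) → ℝ) (i : Fintype (RZ → S.T)) :
    (1 / ((l : ℝ) ^ S.m) ^ Fintype.card RZ) *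
      (@Finset.univ (RZ → S.T) i).sum (fun t => G (S.tz RZ z t)) =
      (1 / ((l : ℝ) ^ S.m) ^ n) * ∑ t : Fin n → S.T, G t := by
  have h := fx_avg S hRZ z G
  have h2 : ∀ j : Fintype (RZ → S.T), (@Finset.univ (RZ → S.T) j).sum
      (fun t => G (S.tz RZ z t)) = (@Finset.univ (RZ → S.T) i).sum
      (fun t => G (S.tz RZ z t)) := fun j => by rw [Subsingleton.elim j i]
  rw [h2] at h
  exact h

/-- there are central vectors -/
theorem fx_ne {n : ℕ} {RZ : Finset (SysL.VV l n)} (hRZ : S.Rep RZ) (hn : 1 ≤ n) :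
    Nonempty RZ := by
  obtain ⟨w, hw, -⟩ := hRZ.ex (Pi.single ⟨0, hn⟩ (1 : ZMod l)) (by
    intro h
    have h2 := congrFun h ⟨0, hn⟩
    rw [Pi.single_eq_same] at h2
    exact one_ne_zero h2)
  exact ⟨⟨w, hw⟩⟩

theorem fx_N1 (p : S.P) : (1 : ℝ) ≤ S.N p := by exact_mod_cast S.one_le_N p

theorem fx_N0 (p : S.P) : (0 : ℝ) < S.N p := lt_of_lt_of_le one_pos (fx_N1 S p)

/-- the first weight -/
noncomputable def fxt1 (K : ℕ) (p : S.P) : ℝ := (1 + (K : ℝ) / (S.N p : ℝ))⁻¹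

/-- the second weight -/
noncomputable def fxt2 (A0 : ℝ) (p : S.P) : ℝ := 1 + A0 * (S.N p : ℝ) ^ (-(1 / 2) : ℝ)

theorem fxt1_pos (K : ℕ) (p : S.P) : 0 < fxt1 S K p := by
  have := fx_N0 S p
  unfold fxt1
  positivity

theorem fxt1_le (K : ℕ) (p : S.P) : fxt1 S K p ≤ 1 := by
  have := fx_N0 S p
  unfold fxt1
  exact inv_le_one_of_one_le₀ (by
    have : 0 ≤ (K : ℝ) / (S.N p : ℝ) := by positivity
    linarith)

theorem fxt2_one {A0 : ℝ} (hA : 0 ≤ A0) (p : S.P) : 1 ≤ fxt2 S A0 p := by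
  have h1 : 0 ≤ A0 * (S.N p : ℝ) ^ (-(1 / 2) : ℝ) :=
    mul_nonneg hA (Real.rpow_nonneg (fx_N0 S p).le _)
  unfold fxt2
  linarith

theorem fxt1_Tk (K : ℕ) : S.Tk (K : ℝ) (fxt1 S K) := by
  intro p
  refine ⟨(fxt1_pos S K p).le, ?_⟩
  have h0 := fx_N0 S p
  have h1 := fx_N1 S p
  have h2 : (K : ℝ) / (S.N p : ℝ) ≤ (K : ℝ) * (S.N p : ℝ) ^ (-(1 / 2) : ℝ) := by
    rw [div_eq_mul_inv, ← Real.rpow_neg_one]
    exact mul_le_mul_of_nonneg_left (Real.rpow_le_rpow_of_exponent_le h1 (by norm_num))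
      (Nat.cast_nonneg _)
  have h3 : fxt1 S K p - 1 = -((K : ℝ) / (S.N p : ℝ) * fxt1 S K p) := by
    unfold fxt1
    have h4 : (1 : ℝ) + (K : ℝ) / (S.N p : ℝ) ≠ 0 := by positivity
    field_simp
    ring
  rw [h3, abs_neg, abs_of_nonneg (mul_nonneg (by positivity) (fxt1_pos S K p).le)]
  exact (mul_le_of_le_one_right (by positivity) (fxt1_le S K p)).trans h2

theorem fxt2_Tk {A0 : ℝ} (hA : 0 ≤ A0) : S.Tk A0 (fxt2 S A0) := by
  intro p
  refine ⟨le_trans zero_le_one (fxt2_one S hA p), ?_⟩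
  have h1 : fxt2 S A0 p - 1 = A0 * (S.N p : ℝ) ^ (-(1 / 2) : ℝ) := by
    unfold fxt2
    ring
  rw [h1, abs_of_nonneg (mul_nonneg hA (Real.rpow_nonneg (fx_N0 S p).le _))]

end

/-! ### coefficients -/

section

variable {l : ℕ} [Fact l.Prime] (S : SysL l) {d n : ℕ} (Bd : SysL.BD l d n)
  (R : Finset (SysL.VV l d)) (RZ : Finset (SysL.VV l n))
  (c : SysL.VV l d → SysL.VV l n → S.El) (M : Finset S.P) (Φ : Finset R → Prop)

/-- the condition on the families -/
def fxC (x : R → Finset S.P) : Prop := S.Gd x ∧ S.Off M x ∧ S.okc Bd R c x ∧ Φ (S.pat x)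

open Classical in
/-- the coefficients -/
noncomputable def fxb (θ : (R → S.T) → ℝ) (τ : S.P → ℝ) (x : R → Finset S.P) : ℝ :=
  if fxC S Bd R c M Φ x then θ (fun v => S.tys (x v)) * (fxW S n τ x / fxn S x) else 0

open Classical in
/-- the inner sums -/
noncomputable def fxf (g : (R → Finset S.P) → (Fin n → S.T) → ℝ) (x : R → Finset S.P)
    (t : ℝ) : ℝ :=
  if fxC S Bd R c M Φ x then ∑ z ∈ S.asg n (S.un x),
    S.CC (S.un x) (fun t' : RZ → S.T => g x (S.tz RZ z t')) t else 0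

theorem fxW_nonneg {ι : Type} [Fintype ι] (n : ℕ) {τ : S.P → ℝ} (hτ : ∀ p, 0 ≤ τ p)
    (x : ι → Finset S.P) : 0 ≤ fxW S n τ x :=
  mul_nonneg (pow_nonneg (pow_nonneg (Nat.cast_nonneg _) _) _)
    (Finset.prod_nonneg fun p _ => hτ p)

theorem fxb_nonneg {θ : (R → S.T) → ℝ} {τ : S.P → ℝ} (hθ : ∀ t, 0 ≤ θ t) (hτ : ∀ p, 0 ≤ τ p)
    (x : R → Finset S.P) : 0 ≤ fxb S Bd R c M Φ θ τ x := by
  unfold fxb
  split_ifs
  · exact mul_nonneg (hθ _) (div_nonneg (fxW_nonneg S n hτ x) (fxn_pos S x).le)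
  · exact le_rfl

theorem fxb_mul (θ : (R → S.T) → ℝ) (τ : S.P → ℝ) {x : R → Finset S.P}
    (hx : fxC S Bd R c M Φ x) : fxb S Bd R c M Φ θ τ x * fxn S x =
      θ (fun v => S.tys (x v)) * fxW S n τ x := by
  unfold fxb
  rw [if_pos hx, mul_assoc, div_mul_cancel₀ _ (fxn_pos S x).ne']

open Classical in
theorem fx_sum (θ : (R → S.T) → ℝ) (τ : S.P → ℝ) (σ : ℝ) :
    (fun x : R → Finset S.P => fxb S Bd R c M Φ θ τ x * (fxn S x : ℝ) ^ (-σ)) =
      fun x : R → Finset S.P => if S.Gd x ∧ S.Off M x ∧ S.okc Bd R c x ∧ Φ (S.pat x)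
        then θ (fun v => S.tys (x v)) *
          ∏ v, ∏ p ∈ x v, ((l : ℝ) ^ n * τ p * (S.N p : ℝ) ^ (-(1 + σ))) else 0 := by
  funext x
  by_cases hx : fxC S Bd R c M Φ x
  · have hx' : S.Gd x ∧ S.Off M x ∧ S.okc Bd R c x ∧ Φ (S.pat x) := hx
    rw [if_pos hx']
    unfold fxb
    rw [if_pos hx, ← fx_term S hx.1 n τ (1 + σ), neg_add, Real.rpow_add (fxn_pos S x),
      Real.rpow_neg_one]
    ring
  · have hx' : ¬ (S.Gd x ∧ S.Off M x ∧ S.okc Bd R c x ∧ Φ (S.pat x)) := hx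
    rw [if_neg hx']
    unfold fxb
    rw [if_neg hx, zero_mul]

theorem fx_tsum (θ : (R → S.T) → ℝ) (τ : S.P → ℝ) (σ : ℝ) :
    ∑' x : R → Finset S.P, fxb S Bd R c M Φ θ τ x * (fxn S x : ℝ) ^ (-σ) =
      S.FF Bd R c M Φ θ τ (1 + σ) := by
  rw [fx_sum]
  rfl

theorem fx_NN (g : (R → Finset S.P) → (Fin n → S.T) → ℝ) {Y : ℝ} (hY : 0 ≤ Y) :
    S.NN Bd R RZ c M Φ g Y = ∑ x ∈ (fxn_fin S (ι := R) ⌊Y⌋₊).toFinset,
      fxf S Bd R RZ c M Φ g x (Y / fxn S x) := by
  classical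
  unfold SysL.NN
  symm
  have hm : ∀ x : R → Finset S.P, x ∈ (fxn_fin S (ι := R) ⌊Y⌋₊).toFinset ↔
      (fxn S x : ℝ) ≤ Y := by
    intro x
    rw [Set.Finite.mem_toFinset]
    exact Nat.le_floor_iff hY
  refine (Finset.sum_congr rfl fun x hx => ?_).trans
    (Finset.sum_subset (s₁ := (fxn_fin S (ι := R) ⌊Y⌋₊).toFinset) ?_ ?_)
  · have h1 := (hm x).1 hx
    unfold fxf
    by_cases hc : fxC S Bd R c M Φ x
    · have h2 : S.Gd x ∧ S.Off M x ∧ S.okc Bd R c x ∧ Φ (S.pat x) ∧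
          ((∏ u, S.nm (x u) : ℕ) : ℝ) ≤ Y := ⟨hc.1, hc.2.1, hc.2.2.1, hc.2.2.2, h1⟩
      rw [if_pos hc, if_pos h2]
      unfold fxn
      rfl
    · have h2 : ¬ (S.Gd x ∧ S.Off M x ∧ S.okc Bd R c x ∧ Φ (S.pat x) ∧
          ((∏ u, S.nm (x u) : ℕ) : ℝ) ≤ Y) :=
        fun h => hc ⟨h.1, h.2.1, h.2.2.1, h.2.2.2.1⟩
      rw [if_neg hc, if_neg h2]
  · intro x hx
    have h2 : (fxn S x : ℝ) ≤ Y := (hm x).1 hx
    exact fxn_mem S x h2
  · intro x _ hx
    have h2 : ¬ (S.Gd x ∧ S.Off M x ∧ S.okc Bd R c x ∧ Φ (S.pat x) ∧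
        ((∏ u, S.nm (x u) : ℕ) : ℝ) ≤ Y) := fun h => hx ((hm x).2 h.2.2.2.2)
    exact if_neg h2

end

end Pool.Agent.H92.EL
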