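import Pool.Agent.H92.EL.CSm

/-!
# Project ELL (MP_a3214d), block C, row C4: sums over isolated variables
-/

set_option autoImplicit false

open scoped BigOperators Topology
open Filter

namespace Pool.Agent.H92.EL

open Pool.Agent.H98.MF (Pre)

section

variable {l : ℕ} [Fact l.Prime] (S : SysL l)

/-- the weight of a prime in the variable `u` -/
noncomputable def inW {ι : Type} (τ : S.P → ℝ) (c : ι → S.El) (s : ℝ) (u : ι) (p : S.P) : ℂ :=
  ec (S.ex (c u) p) * ((τ p * (S.N p : ℝ) ^ (-s) : ℝ) : ℂ)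

omit S in
theorem in_sum {X : Type} (s : Finset X) (f : X → ZMod l) :
    ec (∑ i ∈ s, f i) = ∏ i ∈ s, ec (f i) := by
  classical
  induction s using Finset.induction_on with
  | empty =>
    rw [Finset.sum_empty, Finset.prod_empty]
    exact AddChar.map_zero_eq_one _
  | insert a s ha ih =>
    rw [Finset.sum_insert ha, Finset.prod_insert ha, ← ih]
    exact AddChar.map_add_eq_mul _ _ _

theorem in_prod {ι : Type} [Fintype ι] (τ : S.P → ℝ) (c : ι → S.El) (s : ℝ)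
    (x : ι → Finset S.P) :
    ∏ u, ∏ p ∈ x u, inW S τ c s u p = ec (∑ u, ∑ p ∈ x u, S.ex (c u) p) *
        ((∏ u, ∏ p ∈ x u, (τ p * (S.N p : ℝ) ^ (-s)) : ℝ) : ℂ) := by
  have h1 : ec (∑ u, ∑ p ∈ x u, S.ex (c u) p) = ∏ u, ∏ p ∈ x u, ec (S.ex (c u) p) := by
    rw [in_sum]
    refine Finset.prod_congr rfl fun u _ => ?_
    rw [in_sum]
  rw [h1, Complex.ofReal_prod, ← Finset.prod_mul_distrib]
  refine Finset.prod_congr rfl fun u _ => ?_
  rw [Complex.ofReal_prod, ← Finset.prod_mul_distrib]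
  rfl

theorem in_norm {ι : Type} {B : ℝ} {τ : S.P → ℝ} (hτ : S.Tk B τ) (c : ι → S.El) (s : ℝ) (u : ι)
    (p : S.P) : ‖inW S τ c s u p‖ = τ p * (S.N p : ℝ) ^ (-s) := by
  unfold inW
  rw [norm_mul, csm_ec, one_mul, Complex.norm_real, Real.norm_of_nonneg]
  exact mul_nonneg (csm_tau S hτ p).1 (Real.rpow_nonneg (Nat.cast_nonneg _) _)

theorem in_re {ι : Type} (τ : S.P → ℝ) (c : ι → S.El) (s : ℝ) (u : ι) (p : S.P) :
    (inW S τ c s u p).re = (ec (S.ex (c u) p)).re * (τ p * (S.N p : ℝ) ^ (-s)) := by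
  unfold inW
  rw [Complex.re_mul_ofReal]

theorem in_abs (a : ZMod l) : |(ec a).re| ≤ 1 := by
  have h := Complex.abs_re_le_norm (ec a)
  rwa [csm_ec] at h

theorem in_N1 (p : S.P) : (1 : ℝ) ≤ (S.N p : ℝ) := by exact_mod_cast S.one_le_N p

/-- the sum over the irregular primes -/
theorem in_irr {K : ℝ} (hK : ∀ F : Finset S.P, (∀ p ∈ F, ∃ g, g ≠ 1 ∧ S.ac g p = p) →
    ∑ p ∈ F, (S.N p : ℝ) ^ (-(3 / 4) : ℝ) ≤ K) :
    (Summable fun p : S.P => open Classical in if S.rg p then (0 : ℝ) else (S.N p : ℝ) ^ (-1 : ℝ)) ∧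
    ∑' p : S.P, (open Classical in if S.rg p then (0 : ℝ) else (S.N p : ℝ) ^ (-1 : ℝ)) ≤ K := by
  classical
  have h0 : ∀ p : S.P, 0 ≤ (if S.rg p then (0 : ℝ) else (S.N p : ℝ) ^ (-1 : ℝ)) := fun p => by
    split_ifs
    · exact le_refl _
    · exact Real.rpow_nonneg (Nat.cast_nonneg _) _
  have h1 : ∀ F : Finset S.P,
      ∑ p ∈ F, (if S.rg p then (0 : ℝ) else (S.N p : ℝ) ^ (-1 : ℝ)) ≤ K := fun F => by
    have h2 : ∑ p ∈ F, (if S.rg p then (0 : ℝ) else (S.N p : ℝ) ^ (-1 : ℝ)) =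
        ∑ p ∈ F.filter (fun p => ¬ S.rg p), (S.N p : ℝ) ^ (-1 : ℝ) := by
      rw [Finset.sum_filter]
      refine Finset.sum_congr rfl fun p _ => ?_
      by_cases h : S.rg p <;> simp [h]
    rw [h2]
    refine le_trans (Finset.sum_le_sum fun p _ => ?_) (hK _ fun p hp => ?_)
    · exact Real.rpow_le_rpow_of_exponent_le (in_N1 S p) (by norm_num)
    · have h3 := (Finset.mem_filter.1 hp).2
      unfold SysL.rg at h3
      rw [not_forall] at h3
      obtain ⟨g, h4⟩ := h3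
      rw [Classical.not_imp] at h4
      exact ⟨g, h4.2, h4.1⟩
  have h3 := summable_of_sum_le h0 h1
  exact ⟨h3, h3.tsum_le_of_sum_le h1⟩

theorem in_pt {B : ℝ} {τ : S.P → ℝ} (hτ : S.Tk B τ) (c : S.El) (M : Finset S.P)
    (hM : c.2.support ⊆ M) {s : ℝ} (hs : 1 ≤ s) (p : S.P) : open Classical in
    (if S.rg p ∧ p ∉ M then (ec (S.ex c p)).re * (τ p * (S.N p : ℝ) ^ (-s)) else 0) ≤
      (if p ∈ c.2.support then 0 else (ec (S.ex c p)).re) * (S.N p : ℝ) ^ (-s) +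
      |B| * (S.N p : ℝ) ^ (-(3 / 2) : ℝ) +
      (if S.rg p then (0 : ℝ) else (S.N p : ℝ) ^ (-1 : ℝ)) +
      (if p ∈ M then (S.N p : ℝ) ^ (-1 : ℝ) else 0) := by
  classical
  have hN := in_N1 S p
  have hN0 : (0 : ℝ) < S.N p := lt_of_lt_of_le one_pos hN
  have h1 : 0 ≤ (S.N p : ℝ) ^ (-s) := Real.rpow_nonneg hN0.le _
  have h2 : (S.N p : ℝ) ^ (-s) ≤ (S.N p : ℝ) ^ (-1 : ℝ) :=
    Real.rpow_le_rpow_of_exponent_le hN (by linarith)
  have h3 : 0 ≤ (S.N p : ℝ) ^ (-(3 / 2) : ℝ) := Real.rpow_nonneg hN0.le _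
  have h4 : 0 ≤ |B| * (S.N p : ℝ) ^ (-(3 / 2) : ℝ) := mul_nonneg (abs_nonneg _) h3
  have h5 : 0 ≤ (S.N p : ℝ) ^ (-1 : ℝ) := Real.rpow_nonneg hN0.le _
  have hr := in_abs (S.ex c p)
  set r := (ec (S.ex c p)).re with hrdef
  by_cases h : S.rg p ∧ p ∉ M
  · have h6 : p ∉ c.2.support := fun h7 => h.2 (hM h7)
    rw [if_pos h, if_neg h6, if_pos h.1, if_neg h.2]
    have h7 : r * (τ p * (S.N p : ℝ) ^ (-s)) - r * (S.N p : ℝ) ^ (-s) ≤
        |B| * (S.N p : ℝ) ^ (-(3 / 2) : ℝ) := by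
      have h8 : r * (τ p * (S.N p : ℝ) ^ (-s)) - r * (S.N p : ℝ) ^ (-s) =
          (r * (τ p - 1)) * (S.N p : ℝ) ^ (-s) := by ring
      rw [h8]
      have h9 : r * (τ p - 1) ≤ |B| * (S.N p : ℝ) ^ (-(1 / 2) : ℝ) := by
        refine le_trans (le_abs_self _) ?_
        rw [abs_mul]
        calc |r| * |τ p - 1| ≤ 1 * |τ p - 1| := mul_le_mul_of_nonneg_right hr (abs_nonneg _)
          _ = |τ p - 1| := one_mul _
          _ ≤ B * (S.N p : ℝ) ^ (-(1 / 2) : ℝ) := (hτ p).2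
          _ ≤ |B| * (S.N p : ℝ) ^ (-(1 / 2) : ℝ) :=
            mul_le_mul_of_nonneg_right (le_abs_self B) (Real.rpow_nonneg hN0.le _)
      calc (r * (τ p - 1)) * (S.N p : ℝ) ^ (-s)
          ≤ (|B| * (S.N p : ℝ) ^ (-(1 / 2) : ℝ)) * (S.N p : ℝ) ^ (-s) :=
            mul_le_mul_of_nonneg_right h9 h1
        _ ≤ (|B| * (S.N p : ℝ) ^ (-(1 / 2) : ℝ)) * (S.N p : ℝ) ^ (-1 : ℝ) :=
            mul_le_mul_of_nonneg_left h2 (mul_nonneg (abs_nonneg _) (Real.rpow_nonneg hN0.le _))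
        _ = |B| * (S.N p : ℝ) ^ (-(3 / 2) : ℝ) := by
            rw [mul_assoc, ← Real.rpow_add hN0]
            norm_num
    linarith
  · rw [if_neg h]
    have h6 : -(S.N p : ℝ) ^ (-1 : ℝ) ≤
        (if p ∈ c.2.support then 0 else r) * (S.N p : ℝ) ^ (-s) := by
      split_ifs
      · rw [zero_mul]
        linarith
      · have h7 := (abs_le.1 hr).1
        have h8 := mul_le_mul_of_nonneg_right h7 h1
        linarith
    have h7 : (S.N p : ℝ) ^ (-1 : ℝ) ≤ (if S.rg p then (0 : ℝ) else (S.N p : ℝ) ^ (-1 : ℝ)) +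
      (if p ∈ M then (S.N p : ℝ) ^ (-1 : ℝ) else 0) := by
      by_cases h8 : S.rg p
      · have h9 : p ∈ M := by
          by_contra h10
          exact h ⟨h8, h10⟩
        rw [if_pos h8, if_pos h9]
        linarith
      · rw [if_neg h8]
        split_ifs <;> linarith
    linarith

/-- one variable -/
theorem in_one {B : ℝ} {τ : S.P → ℝ} (hτ : S.Tk B τ) {K : ℝ}
    (hK : ∀ F : Finset S.P, (∀ p ∈ F, ∃ g, g ≠ 1 ∧ S.ac g p = p) →
      ∑ p ∈ F, (S.N p : ℝ) ^ (-(3 / 4) : ℝ) ≤ K) (c : S.El) (M : Finset S.P)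
    (hM : c.2.support ⊆ M) {s : ℝ} (hs : 1 < s) : open Classical in
    (Summable fun p : S.P =>
      if S.rg p ∧ p ∉ M then (ec (S.ex c p)).re * (τ p * (S.N p : ℝ) ^ (-s)) else 0) ∧
    ∑' p : S.P, (if S.rg p ∧ p ∉ M then (ec (S.ex c p)).re * (τ p * (S.N p : ℝ) ^ (-s)) else 0) ≤
      ∑' p : S.P, (if p ∈ c.2.support then 0 else (ec (S.ex c p)).re) * (S.N p : ℝ) ^ (-s) +
      |B| * ∑' p : S.P, (S.N p : ℝ) ^ (-(3 / 2) : ℝ) + K + ∑ p ∈ M, 1 / (S.N p : ℝ) := by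
  classical
  have hL : Summable fun p : S.P =>
      if S.rg p ∧ p ∉ M then (ec (S.ex c p)).re * (τ p * (S.N p : ℝ) ^ (-s)) else 0 := by
    refine Summable.of_norm_bounded (csm_tauN S hτ hs) fun p => ?_
    have h0 : 0 ≤ τ p * (S.N p : ℝ) ^ (-s) :=
      mul_nonneg (csm_tau S hτ p).1 (Real.rpow_nonneg (Nat.cast_nonneg _) _)
    split_ifs
    · rw [Real.norm_eq_abs, abs_mul, abs_of_nonneg h0]
      exact (mul_le_mul_of_nonneg_right (in_abs _) h0).trans (one_mul _).le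
    · rw [norm_zero]
      exact h0
  have h1 : Summable fun p : S.P =>
      (if p ∈ c.2.support then 0 else (ec (S.ex c p)).re) * (S.N p : ℝ) ^ (-s) := by
    refine Summable.of_norm_bounded (csm_N S hs) fun p => ?_
    have h0 : 0 ≤ (S.N p : ℝ) ^ (-s) := Real.rpow_nonneg (Nat.cast_nonneg _) _
    rw [Real.norm_eq_abs, abs_mul, abs_of_nonneg h0]
    refine (mul_le_mul_of_nonneg_right (b := |_|) (c := 1) ?_ h0).trans (one_mul _).le
    split_ifs
    · rw [abs_zero]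
      exact zero_le_one
    · exact in_abs _
  have h2 : Summable fun p : S.P => |B| * (S.N p : ℝ) ^ (-(3 / 2) : ℝ) :=
    (csm_N S (by norm_num)).mul_left _
  obtain ⟨h3, h4⟩ := in_irr S hK
  have h5 : HasSum (fun p : S.P => if p ∈ M then (S.N p : ℝ) ^ (-1 : ℝ) else 0)
      (∑ p ∈ M, 1 / (S.N p : ℝ)) := by
    have h6 : HasSum (fun p : S.P => if p ∈ M then (S.N p : ℝ) ^ (-1 : ℝ) else 0)
        (∑ p ∈ M, if p ∈ M then (S.N p : ℝ) ^ (-1 : ℝ) else 0) :=
      hasSum_sum_of_ne_finset_zero (fun p hp => if_neg hp)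
    have h7 : (∑ p ∈ M, if p ∈ M then (S.N p : ℝ) ^ (-1 : ℝ) else 0) =
        ∑ p ∈ M, 1 / (S.N p : ℝ) := by
      refine Finset.sum_congr rfl fun p hp => ?_
      rw [if_pos hp, Real.rpow_neg_one, one_div]
    rwa [h7] at h6
  refine ⟨hL, ?_⟩
  have h7 := ((h1.add h2).add h3).add h5.summable
  have h8 := hL.tsum_le_tsum (fun p => in_pt S hτ c M hM hs.le p) h7
  rw [((h1.add h2).add h3).tsum_add h5.summable, (h1.add h2).tsum_add h3, h1.tsum_add h2,
    h5.tsum_eq, tsum_mul_left] at h8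
  linarith

end

/-- the sums over isolated variables -/
theorem sinn (h1 : SLupL) (h2 : SGs1) : SInn := by
  classical
  intro l _ S ι _ B
  obtain ⟨C1, hC1, hup⟩ := h1 l S
  obtain ⟨K0, hK0⟩ := S.prm0
  obtain ⟨K, hK⟩ := S.irr
  set Z : ℝ := ∑' p : S.P, (S.N p : ℝ) ^ (-(3 / 2) : ℝ) with hZ
  set Z2 : ℝ := ∑' p : S.P, (S.N p : ℝ) ^ (-2 : ℝ) with hZ2
  set D : ℝ := ((Fintype.card ι : ℝ) * Fintype.card S.D) ^ 2 with hD
  have hD0 : 0 ≤ D := sq_nonneg _
  set Q : ℝ := |K0| + C1 + (|B| * Z + |K|) with hQ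
  have hZ0 : 0 ≤ Z := tsum_nonneg fun p => Real.rpow_nonneg (Nat.cast_nonneg _) _
  have hQ0 : 0 ≤ Q := by
    have := abs_nonneg K0
    have := abs_nonneg K
    have := mul_nonneg (abs_nonneg B) hZ0
    linarith
  refine ⟨Real.exp (Fintype.card ι * Q + D * ((1 + |B|) ^ 2 * Z2)), Fintype.card ι,
    (Real.exp_pos _).le, Nat.cast_nonneg _, fun τ c M hτ hOk σ hσ hσ1 => ?_⟩
  set s : ℝ := 1 + σ with hs
  have hs1 : 1 < s := by linarith
  have hs2 : s ≤ 2 := by linarith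
  have h3 : (∑' x : ι → Finset S.P, (if S.Gd x ∧ S.Off M x then
      ec (∑ u, ∑ p ∈ x u, S.ex (c u) p) *
        ((∏ u, ∏ p ∈ x u, (τ p * (S.N p : ℝ) ^ (-s)) : ℝ) : ℂ) else 0)) =
      ∑' x : ι → Finset S.P, (if S.Gd x ∧ S.Off M x then
        ∏ u, ∏ p ∈ x u, inW S τ c s u p else 0) := by
    refine tsum_congr fun x => ?_
    rw [in_prod]
  rw [h3]
  have h4 := (h2 l S ι (inW S τ c s) (fun p => τ p * (S.N p : ℝ) ^ (-s)) M hOk.stb
    (fun u p => (in_norm S hτ c s u p).le) (csm_tauN S hτ hs1)).2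
  refine h4.trans ?_
  -- the sum of squares
  have h5 : ∑' p : S.P, (τ p * (S.N p : ℝ) ^ (-s)) ^ 2 ≤ (1 + |B|) ^ 2 * Z2 := by
    have h6 : ∀ p : S.P, (τ p * (S.N p : ℝ) ^ (-s)) ^ 2 ≤
        (1 + |B|) ^ 2 * (S.N p : ℝ) ^ (-2 : ℝ) := fun p => by
      obtain ⟨h7, h8⟩ := csm_tau S hτ p
      have h9 : 0 ≤ (S.N p : ℝ) ^ (-s) := Real.rpow_nonneg (Nat.cast_nonneg _) _
      have h10 : ((S.N p : ℝ) ^ (-s)) ^ 2 ≤ (S.N p : ℝ) ^ (-2 : ℝ) := by
        rw [← Real.rpow_natCast, ← Real.rpow_mul (Nat.cast_nonneg _)]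
        refine Real.rpow_le_rpow_of_exponent_le (in_N1 S p) ?_
        push_cast
        linarith
      rw [mul_pow]
      exact mul_le_mul (pow_le_pow_left₀ h7 h8 2) h10 (sq_nonneg _) (sq_nonneg _)
    have h7 : Summable fun p : S.P => (1 + |B|) ^ 2 * (S.N p : ℝ) ^ (-2 : ℝ) :=
      (csm_N S (by norm_num)).mul_left _
    have h8 : Summable fun p : S.P => (τ p * (S.N p : ℝ) ^ (-s)) ^ 2 :=
      Summable.of_nonneg_of_le (fun p => sq_nonneg _) h6 h7
    have h9 := h8.tsum_le_tsum h6 h7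
    rwa [tsum_mul_left] at h9
  -- the linear sum
  have hn1 : (1 : ℝ) ≤ (S.nm M : ℝ) := by
    have : 1 ≤ S.nm M := Finset.one_le_prod' fun p _ => S.one_le_N p
    exact_mod_cast this
  have hlog : 0 ≤ Real.log (S.nm M) := Real.log_nonneg hn1
  have h6 : ∀ u, Summable fun p : S.P =>
      if S.rg p ∧ p ∉ M then (ec (S.ex (c u) p)).re * (τ p * (S.N p : ℝ) ^ (-s)) else 0 :=
    fun u => (in_one S hτ hK (c u) M (hOk.sub u) hs1).1
  have h7 : ∑' p : S.P, (if S.rg p ∧ p ∉ M then ∑ u, (inW S τ c s u p).re else 0) =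
      ∑ u, ∑' p : S.P,
        (if S.rg p ∧ p ∉ M then (ec (S.ex (c u) p)).re * (τ p * (S.N p : ℝ) ^ (-s)) else 0) := by
    rw [← Summable.tsum_finsetSum (fun u _ => h6 u)]
    refine tsum_congr fun p => ?_
    by_cases h : S.rg p ∧ p ∉ M
    · rw [if_pos h]
      refine Finset.sum_congr rfl fun u _ => ?_
      rw [if_pos h, in_re]
    · rw [if_neg h]
      exact (Finset.sum_eq_zero fun u _ => if_neg h).symm
  have h8 : ∀ u, ∑' p : S.P,
        (if S.rg p ∧ p ∉ M then (ec (S.ex (c u) p)).re * (τ p * (S.N p : ℝ) ^ (-s)) else 0) ≤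
      (if c u = 0 then Real.log (1 / σ) else 0) + Real.log (1 + Real.log (S.nm M)) +
        (Q + ∑ p ∈ M, 1 / (S.N p : ℝ)) := fun u => by
    have h9 := (in_one S hτ hK (c u) M (hOk.sub u) hs1).2
    have h10 : K ≤ |K| := le_abs_self K
    have h11 : 0 ≤ Real.log (1 + Real.log (S.nm M)) := Real.log_nonneg (by linarith)
    have h12 : 0 ≤ |K0| := abs_nonneg K0
    by_cases hc : c u = 0
    · rw [if_pos hc]
      have h13 : ∑' p : S.P, (if p ∈ (c u).2.support then 0 else (ec (S.ex (c u) p)).re) *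
          (S.N p : ℝ) ^ (-s) = ∑' p : S.P, (S.N p : ℝ) ^ (-s) := by
        refine tsum_congr fun p => ?_
        have h14 : p ∉ (c u).2.support := by
          rw [hc]
          simp
        have h15 : S.ex (c u) p = 0 := by
          rw [hc]
          unfold SysL.ex
          simp
        rw [if_neg h14, h15]
        have h16 : ec (0 : ZMod l) = 1 := AddChar.map_zero_eq_one _
        rw [h16, Complex.one_re, one_mul]
      rw [h13] at h9
      have h14 := (abs_le.1 (hK0 s hs1 hs2)).2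
      have h15 : s - 1 = σ := by rw [hs]; ring
      rw [h15] at h14
      have h16 : K0 ≤ |K0| := le_abs_self K0
      linarith
    · rw [if_neg hc]
      have h13 := hup (c u) hc s hs1 hs2
      have h14 : Real.log (1 + Real.log (S.nm (c u).2.support)) ≤
          Real.log (1 + Real.log (S.nm M)) := by
        have h15 : (1 : ℝ) ≤ (S.nm (c u).2.support : ℝ) := by
          have : 1 ≤ S.nm (c u).2.support := Finset.one_le_prod' fun p _ => S.one_le_N p
          exact_mod_cast this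
        have h16 : (S.nm (c u).2.support : ℝ) ≤ (S.nm M : ℝ) := by
          have : S.nm (c u).2.support ≤ S.nm M :=
            Finset.prod_le_prod_of_subset_of_one_le' (hOk.sub u) fun p _ _ => S.one_le_N p
          exact_mod_cast this
        have h17 := Real.log_nonneg h15
        refine Real.log_le_log (by linarith) ?_
        have h18 := Real.log_le_log (by linarith) h16
        linarith
      linarith
  have h9 : ∑ u, ∑' p : S.P,
        (if S.rg p ∧ p ∉ M then (ec (S.ex (c u) p)).re * (τ p * (S.N p : ℝ) ^ (-s)) else 0) ≤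
      ((Finset.univ.filter fun u => c u = 0).card : ℝ) * Real.log (1 / σ) +
        Fintype.card ι * Real.log (1 + Real.log (S.nm M)) +
        Fintype.card ι * (Q + ∑ p ∈ M, 1 / (S.N p : ℝ)) := by
    refine (Finset.sum_le_sum fun u _ => h8 u).trans (le_of_eq ?_)
    rw [Finset.sum_add_distrib, Finset.sum_add_distrib, Finset.sum_const, Finset.sum_const,
      Finset.card_univ, nsmul_eq_mul, nsmul_eq_mul, ← Finset.sum_filter, Finset.sum_const,
      nsmul_eq_mul]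
  rw [h7]
  have h10 : ∑ p ∈ M, 1 / (S.N p : ℝ) ≤ ∑ p ∈ M, 2 / (S.N p : ℝ) := by
    refine Finset.sum_le_sum fun p _ => ?_
    exact div_le_div_of_nonneg_right (by norm_num) (Nat.cast_nonneg _)
  have hι : (0 : ℝ) ≤ Fintype.card ι := Nat.cast_nonneg _
  have h11 : (∑ u, ∑' p : S.P,
        (if S.rg p ∧ p ∉ M then (ec (S.ex (c u) p)).re * (τ p * (S.N p : ℝ) ^ (-s)) else 0)) +
      D * ∑' p : S.P, (τ p * (S.N p : ℝ) ^ (-s)) ^ 2 ≤
      (Fintype.card ι * Q + D * ((1 + |B|) ^ 2 * Z2)) +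
        Real.log (1 + Real.log (S.nm M)) * Fintype.card ι +
        (∑ p ∈ M, 2 / (S.N p : ℝ)) * Fintype.card ι +
        Real.log σ * (-((Finset.univ.filter fun u => c u = 0).card : ℝ)) := by
    have h12 := mul_le_mul_of_nonneg_left h5 hD0
    have h13 := mul_le_mul_of_nonneg_left h10 hι
    have h14 : Real.log (1 / σ) = - Real.log σ := by rw [one_div, Real.log_inv]
    rw [h14] at h9
    linarith
  refine (Real.exp_le_exp.2 h11).trans (le_of_eq ?_)
  rw [Real.exp_add, Real.exp_add, Real.exp_add, Real.exp_mul, Real.exp_mul, Real.exp_mul,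
    Real.exp_log hσ, Real.exp_log (by linarith)]
  rfl

end Pool.Agent.H92.EL
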