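import Pool.Agent.H92.EL.CStm
import Pool.Agent.D8.BMrg

/-!
# Project ELL (MP_a3214d), block C, row C19, first part: the Euler products of the main term as
sums over patterns
-/

set_option autoImplicit false

open scoped BigOperators Topology
open Filter

namespace Pool.Agent.H92.EL

open Pool.Agent.H98.MF (Pre)
open Pool.Agent.D8 (DjP mrg mrg_mem mrg_djP mrgY mrgY_mem mrgY_inj)

/-! ### merging families, complex weights -/

private theorem cma_prod {P κ : Type} [Fintype κ] (U : Finset P) (x : κ → Finset P) (kk : U → κ)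
    (hx : ∀ k p, p ∈ x k ↔ ∃ h : p ∈ U, kk ⟨p, h⟩ = k) (G : κ → P → ℂ) :
    ∏ k, ∏ p ∈ x k, G k p = ∏ p : U, G (kk p) p.1 := by
  classical
  rw [← Finset.prod_fiberwise (Finset.univ : Finset U) kk]
  refine Finset.prod_congr rfl fun k _ => ?_
  have h1 : x k = (Finset.univ.filter fun p : U => kk p = k).map
      (Function.Embedding.subtype fun p => p ∈ U) := by
    ext p
    rw [hx, Finset.mem_map]
    constructor
    · rintro ⟨h, hk⟩
      exact ⟨⟨p, h⟩, by rw [Finset.mem_filter]; exact ⟨Finset.mem_univ _, hk⟩, rfl⟩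
    · rintro ⟨q, hq, rfl⟩
      exact ⟨q.2, (Finset.mem_filter.1 hq).2⟩
  rw [h1, Finset.prod_map]
  refine Finset.prod_congr rfl fun p hp => ?_
  rw [(Finset.mem_filter.1 hp).2]
  rfl

open Classical in
private theorem cma_fibre {P ι κ : Type} [Fintype ι] [Fintype κ] (π : ι → κ)
    (F : (κ → Finset P) → ℂ) (w : ι → P → ℂ) (x : κ → Finset P) :
    ∑' y : (mrg π) ⁻¹' {x}, (if DjP (y : ι → Finset P) then
      F (mrg π y) * ∏ t, ∏ p ∈ (y : ι → Finset P) t, w t p else 0) =
    if DjP x then F x * ∏ k, ∏ p ∈ x k, ∑ t ∈ Finset.univ.filter (fun t => π t = k), w t p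
      else 0 := by
  by_cases hx : DjP x
  · rw [if_pos hx]
    set U : Finset P := Finset.univ.biUnion x with hU
    have hmU : ∀ k p, p ∈ x k → p ∈ U := by
      intro k p hp
      rw [hU, Finset.mem_biUnion]
      exact ⟨k, Finset.mem_univ _, hp⟩
    have hk : ∀ p : U, ∃ k, p.1 ∈ x k := by
      rintro ⟨p, hp⟩
      rw [hU, Finset.mem_biUnion] at hp
      obtain ⟨k, _, hk⟩ := hp
      exact ⟨k, hk⟩
    choose kk hkk using hk
    have huniq : ∀ (p : U) (k : κ), p.1 ∈ x k → kk p = k := by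
      intro p k hp
      by_contra hne
      exact (Finset.disjoint_left.1 (hx _ _ hne)) (hkk p) hp
    have hxk : ∀ k p, p ∈ x k ↔ ∃ h : p ∈ U, kk ⟨p, h⟩ = k := by
      intro k p
      constructor
      · intro hp
        exact ⟨hmU k p hp, huniq _ _ hp⟩
      · rintro ⟨h, hk⟩
        have h2 := hkk ⟨p, h⟩
        rw [hk] at h2
        exact h2
    set A : U → Finset ι := fun p => Finset.univ.filter (fun t => π t = kk p) with hA
    have hmA : ∀ τ : U → ι, τ ∈ Fintype.piFinset A ↔ ∀ p, π (τ p) = kk p := by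
      intro τ
      rw [Fintype.mem_piFinset]
      refine forall_congr' fun p => ?_
      rw [hA]
      simp only [Finset.mem_filter, Finset.mem_univ, true_and]
    have hD : ∀ τ : U → ι, DjP (mrgY U τ) := by
      intro τ i j hij
      rw [Finset.disjoint_left]
      intro p hp hp'
      rw [mrgY_mem] at hp hp'
      obtain ⟨h1, h2⟩ := hp
      obtain ⟨_, h4⟩ := hp'
      exact hij (h2.symm.trans h4)
    have hM : ∀ τ : U → ι, (∀ p, π (τ p) = kk p) → mrg π (mrgY U τ) = x := by
      intro τ hτ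
      funext k
      ext p
      rw [mrg_mem, hxk]
      constructor
      · rintro ⟨t, ht, hp⟩
        rw [mrgY_mem] at hp
        obtain ⟨h, h2⟩ := hp
        refine ⟨h, ?_⟩
        rw [← hτ, h2, ht]
      · rintro ⟨h, h2⟩
        refine ⟨τ ⟨p, h⟩, ?_, (mrgY_mem U τ _ p).2 ⟨h, rfl⟩⟩
        rw [hτ, h2]
    have hS : ∀ y : ι → Finset P, DjP y → mrg π y = x →
        ∃ τ : U → ι, (∀ p, π (τ p) = kk p) ∧ mrgY U τ = y := by
      intro y hy hyx
      have h1 : ∀ p : U, ∃ t, π t = kk p ∧ p.1 ∈ y t := by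
        intro p
        have h2 := hkk p
        rw [← mrg_mem, hyx]
        exact h2
      choose τ hτ1 hτ2 using h1
      refine ⟨τ, hτ1, ?_⟩
      funext t
      ext p
      rw [mrgY_mem]
      constructor
      · rintro ⟨h, h2⟩
        rw [← h2]
        exact hτ2 ⟨p, h⟩
      · intro hp
        have h3 : p ∈ x (π t) := by
          rw [← hyx, mrg_mem]
          exact ⟨t, rfl, hp⟩
        refine ⟨hmU _ _ h3, ?_⟩
        by_contra hne
        exact (Finset.disjoint_left.1 (hy _ _ hne)) (hτ2 ⟨p, hmU _ _ h3⟩) hp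
    have e1 : ∏ k, ∏ p ∈ x k, ∑ t ∈ Finset.univ.filter (fun t => π t = k), w t p =
        ∑ τ ∈ Fintype.piFinset A, ∏ p : U, w (τ p) p.1 := by
      rw [cma_prod U x kk hxk
        (fun k p => ∑ t ∈ Finset.univ.filter (fun t => π t = k), w t p)]
      rw [← Finset.prod_univ_sum A (fun p t => w t p.1)]
    rw [tsum_subtype ((mrg π) ⁻¹' {x}) (fun y : ι → Finset P => if DjP y then
      F (mrg π y) * ∏ t, ∏ p ∈ y t, w t p else 0)]
    rw [tsum_eq_sum (s := (Fintype.piFinset A).image (mrgY U))]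
    · rw [Finset.sum_image (fun a _ b _ h => mrgY_inj U h), e1, Finset.mul_sum]
      refine Finset.sum_congr rfl fun τ hτ => ?_
      rw [hmA] at hτ
      have h2 : mrgY U τ ∈ (mrg π) ⁻¹' {x} := hM τ hτ
      rw [Set.indicator_of_mem h2, if_pos (hD τ), hM τ hτ]
      congr 1
      exact cma_prod U (mrgY U τ) τ (fun t p => mrgY_mem U τ t p) (fun t p => w t p)
    · intro y hy
      by_cases h1 : y ∈ (mrg π) ⁻¹' {x}
      · rw [Set.indicator_of_mem h1]
        rw [if_neg]
        intro h2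
        apply hy
        obtain ⟨τ, hτ, hτy⟩ := hS y h2 h1
        rw [Finset.mem_image]
        exact ⟨τ, (hmA τ).2 hτ, hτy⟩
      · rw [Set.indicator_of_notMem h1]
  · rw [if_neg hx]
    rw [show (fun y : (mrg π) ⁻¹' {x} => (if DjP (y : ι → Finset P) then
      F (mrg π y) * ∏ t, ∏ p ∈ (y : ι → Finset P) t, w t p else 0)) =
        fun _ => (0 : ℂ) from ?_, tsum_zero]
    funext y
    rw [if_neg]
    intro hy
    apply hx
    have h1 : mrg π (y : ι → Finset P) = x := y.2
    rw [← h1]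
    exact mrg_djP π hy

open Classical in
private theorem cma_mrg {P ι κ : Type} [Fintype ι] [Fintype κ] (π : ι → κ)
    (F : (κ → Finset P) → ℂ) (w : ι → P → ℂ)
    (hs : Summable fun y : ι → Finset P => if DjP y then
      F (mrg π y) * ∏ t, ∏ p ∈ y t, w t p else 0) :
    HasSum (fun x : κ → Finset P => if DjP x then
      F x * ∏ k, ∏ p ∈ x k, ∑ t ∈ Finset.univ.filter (fun t => π t = k), w t p else 0)
      (∑' y : ι → Finset P, if DjP y then F (mrg π y) * ∏ t, ∏ p ∈ y t, w t p else 0) := by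
  have h1 := hs.hasSum.tsum_fiberwise (mrg π)
  have h2 : (fun x : κ → Finset P => ∑' y : (mrg π) ⁻¹' {x}, (if DjP (y : ι → Finset P) then
      F (mrg π y) * ∏ t, ∏ p ∈ (y : ι → Finset P) t, w t p else 0)) =
      fun x : κ → Finset P => if DjP x then
      F x * ∏ k, ∏ p ∈ x k, ∑ t ∈ Finset.univ.filter (fun t => π t = k), w t p else 0 := by
    funext x
    exact cma_fibre π F w x
  rw [← h2]
  exact h1

/-! ### good families -/

section

variable {l : ℕ} [Fact l.Prime] (S : SysL l)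

private theorem cma_gd {ι κ : Type} [Fintype ι] (π : ι → κ) (y : ι → Finset S.P) :
    S.Gd y ↔ DjP y ∧ S.Gd (mrg π y) := by
  classical
  constructor
  · intro h
    refine ⟨fun i j hij => ?_, ?_, ?_⟩
    · rw [Finset.disjoint_left]
      intro p hp hp'
      exact hij (h.2 i j p hp p hp' 1 (S.ac_one p)).1
    · intro u p hp
      rw [mrg_mem] at hp
      obtain ⟨t, _, ht⟩ := hp
      exact h.1 t p ht
    · intro u v p hp q hq g hg
      rw [mrg_mem] at hp hq
      obtain ⟨t, ht, hpt⟩ := hp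
      obtain ⟨t', ht', hqt⟩ := hq
      obtain ⟨h1, h2⟩ := h.2 t t' p hpt q hqt g hg
      refine ⟨?_, h2⟩
      rw [← ht, ← ht', h1]
  · rintro ⟨hd, h1, h2⟩
    refine ⟨fun u p hp => h1 (π u) p ((mrg_mem π y _ p).2 ⟨u, rfl, hp⟩), ?_⟩
    intro u v p hp q hq g hg
    obtain ⟨_, h4⟩ := h2 (π u) (π v) p ((mrg_mem π y _ p).2 ⟨u, rfl, hp⟩) q
      ((mrg_mem π y _ q).2 ⟨v, rfl, hq⟩) g hg
    refine ⟨?_, h4⟩
    by_contra hne
    rw [← h4] at hq
    exact (Finset.disjoint_left.1 (hd u v hne)) hp hq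

theorem cma_ec_add (a b : ZMod l) : ec (a + b) = ec a * ec b := by
  unfold ec
  exact AddChar.map_add_eq_mul _ _ _

theorem cma_ec_sum {α : Type} (s : Finset α) (f : α → ZMod l) :
    ec (∑ a ∈ s, f a) = ∏ a ∈ s, ec (f a) := by
  classical
  induction s using Finset.induction_on with
  | empty =>
    rw [Finset.sum_empty, Finset.prod_empty]
    unfold ec
    exact AddChar.map_zero_eq_one _
  | insert a s ha ih => rw [Finset.sum_insert ha, Finset.prod_insert ha, cma_ec_add, ih]

theorem cma_iso {ι : Type} (b : ι → ι → ZMod l) (U : Finset ι) (u : ι) (h : u ∈ S.iso b U) :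
    ∀ v ∈ U, ¬ S.Lk b u v := by
  classical
  have h1 : S.iso b U = U.filter fun u => ∀ v ∈ U, ¬ S.Lk b u v := by
    unfold SysL.iso
    congr
  rw [h1, Finset.mem_filter] at h
  exact h.2

/-- the pair part vanishes -/
private theorem cma_pair {ι : Type} [Fintype ι] (b : ι → ι → ZMod l) (x : ι → Finset S.P)
    (hx : S.Gd x) (hb : ∀ u v, (x u).Nonempty → (x v).Nonempty → ¬ S.Lk b u v)
    (hd : ∀ u, b u u = 0)
    (dec : ∀ p q : S.P, Decidable (p = q)) :
    ∑ u, ∑ v, b u v * ∑ p ∈ x u, ∑ q ∈ x v, (@ite _ (p = q) (dec p q) 0 (S.J q p)) = 0 := by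
  classical
  have hJ : ∀ u v, ∀ p ∈ x u, ∀ q ∈ x v, p ≠ q → S.J p q = ∑ g : S.D, S.s (S.ac g q) p := by
    intro u v p hp q hq hpq
    unfold SysL.J
    rw [← Equiv.sum_comp (Equiv.inv S.D) fun g => S.s (S.ac g q) p]
    refine Finset.sum_congr rfl fun g _ => ?_
    have h1 : S.ac g p ≠ q := fun h => hpq (hx.2 u v p hp q hq g h).2
    have h2 : S.ac g⁻¹ q ≠ p := by
      intro h
      exact hpq (hx.2 v u q hq p hp g⁻¹ h).2.symm
    have h3 : S.ac g (S.ac g⁻¹ q) = q := by
      rw [← S.ac_mul, mul_inv_cancel, S.ac_one]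
    have h4 := S.s_ac g (S.ac g⁻¹ q) p h2
    rw [h3] at h4
    rw [S.symm _ _ h1, h4, ← mul_assoc, ← Units.val_mul, inv_mul_cancel, Units.val_one, one_mul]
    rfl
  have hpair : ∀ u v, ∀ p ∈ x u, ∀ q ∈ x v, p ≠ q → b u v * S.J q p + b v u * S.J p q = 0 := by
    intro u v p hp q hq hpq
    rw [hJ u v p hp q hq hpq]
    unfold SysL.J
    rw [Finset.mul_sum, Finset.mul_sum, ← Finset.sum_add_distrib]
    refine Finset.sum_eq_zero fun g _ => ?_
    have h1 : b v u + ((S.e g)⁻¹ : (ZMod l)ˣ) * b u v = 0 := by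
      by_contra h
      exact hb v u ⟨q, hq⟩ ⟨p, hp⟩ ⟨g, h⟩
    linear_combination S.s (S.ac g q) p * h1
  have hsym : ∀ u v, b u v * ∑ p ∈ x u, ∑ q ∈ x v, (@ite _ (p = q) (dec p q) 0 (S.J q p)) +
      b v u * ∑ p ∈ x v, ∑ q ∈ x u, (@ite _ (p = q) (dec p q) 0 (S.J q p)) = 0 := by
    intro u v
    rw [Finset.sum_comm (s := x v) (t := x u), Finset.mul_sum, Finset.mul_sum,
      ← Finset.sum_add_distrib]
    refine Finset.sum_eq_zero fun p hp => ?_
    rw [Finset.mul_sum, Finset.mul_sum, ← Finset.sum_add_distrib]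
    refine Finset.sum_eq_zero fun q hq => ?_
    by_cases h : p = q
    · rw [if_pos h, if_pos h.symm, mul_zero, mul_zero, add_zero]
    · rw [if_neg h, if_neg (fun h' => h h'.symm)]
      exact hpair u v p hp q hq h
  rw [← Finset.sum_product']
  refine Finset.sum_involution (fun a _ => (a.2, a.1)) ?_ ?_ ?_ ?_
  · rintro ⟨u, v⟩ _
    exact hsym u v
  · rintro ⟨u, v⟩ _ hne heq
    have h1 : u = v := by
      have := congrArg Prod.fst heq
      exact this.symm
    subst h1
    exact hne (by rw [hd, zero_mul])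
  · rintro ⟨u, v⟩ _
    exact Finset.mem_product.2 ⟨Finset.mem_univ _, Finset.mem_univ _⟩
  · rintro ⟨u, v⟩ _
    rfl

variable {d n : ℕ}

/-- the pattern is contained in the set of a form -/
def cmaC (Bd : SysL.BD l d n) (R : Finset (SysL.VV l d)) (ψ : SysL.VV l d → SysL.VV l d → ZMod l)
    (U : Finset (R × SysL.VV l n)) : Prop :=
  ∀ u ∈ U, ∀ w, u.2 ⬝ᵥ Bd.B w u.1 = ψ w u.1

/-- the outer characters with a shift -/
noncomputable def cmaD (R : Finset (SysL.VV l d)) (c : SysL.VV l d → SysL.VV l n → S.T)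
    (η : R → S.T) (u : R × SysL.VV l n) : S.El := S.cz R (S.cT c) u + (η u.1, 0)

open Classical in
/-- the term of a family -/
private theorem cma_term (hF : SFull) (Bd : SysL.BD l d n) (R : Finset (SysL.VV l d))
    (hR : S.Rep R) (c : SysL.VV l d → SysL.VV l n → S.T)
    (ψ : SysL.VV l d → SysL.VV l d → ZMod l) (hψ : S.Fam Bd ψ) (τ : S.P → ℝ) (s : ℝ)
    (η : R → S.T) (y : R × SysL.VV l n → Finset S.P) :
    (if DjP y then (if S.Gd (mrg Prod.fst y) then
        ec (∑ v : R, η v ⬝ᵥ S.tys (mrg Prod.fst y v)) else 0) *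
      ∏ t, ∏ p ∈ y t, ((if ∀ w, t.2 ⬝ᵥ Bd.B w t.1 = ψ w t.1 then ec (c t.1 t.2 ⬝ᵥ S.ty p)
        else 0) * ((τ p * (S.N p : ℝ) ^ (-s) : ℝ) : ℂ)) else 0) =
    if cmaC Bd R ψ (S.pat y) then S.Kt τ s (SysL.bz Bd R) (cmaD S R c η) ∅ y else 0 := by
  by_cases hG : S.Gd y
  · obtain ⟨hD, hG'⟩ := (cma_gd S Prod.fst y).1 hG
    rw [if_pos hD, if_pos hG']
    by_cases hC : cmaC Bd R ψ (S.pat y)
    · rw [if_pos hC]
      have hpat : ∀ u, u ∈ S.pat y ↔ (y u).Nonempty := by
        intro u
        unfold SysL.pat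
        rw [Finset.mem_filter]
        exact ⟨fun h => h.2, fun h => ⟨Finset.mem_univ _, h⟩⟩
      have hOff : S.Off ∅ y := fun u => Finset.disjoint_empty_right _
      unfold SysL.Kt
      rw [if_pos ⟨hG, hOff⟩]
      -- the exponent
      have hE : S.EE (SysL.bz Bd R) (cmaD S R c η) y =
          ∑ v : R, η v ⬝ᵥ S.tys (mrg Prod.fst y v) + ∑ t, ∑ p ∈ y t, c t.1 t.2 ⬝ᵥ S.ty p := by
        unfold SysL.EE
        have h0 := cma_pair S (SysL.bz Bd R) y hG (by
          intro u v hu hv hlk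
          have h1 := (hF l S d n Bd R (S.pat y) hR).2 ψ hψ hC
          have h2 : u ∈ S.iso (SysL.bz Bd R) (S.pat y) := by
            rw [h1]
            exact (hpat u).2 hu
          exact cma_iso S _ _ u h2 v ((hpat v).2 hv) hlk) (by
          intro u
          unfold SysL.bz
          rw [Bd.alt, dotProduct_zero]) (fun p q => Classical.propDecidable _)
        have h3 : ∀ u v : R × SysL.VV l n, SysL.bz Bd R u v * ∑ p ∈ y u, ∑ q ∈ y v,
            (if p = q then 0 else S.J q p) = SysL.bz Bd R u v * ∑ p ∈ y u, ∑ q ∈ y v,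
            (@ite _ (p = q) (Classical.propDecidable _) 0 (S.J q p)) := by
          intro u v
          congr
        rw [Finset.sum_congr rfl fun u _ => Finset.sum_congr rfl fun v _ => h3 u v, h0, zero_add]
        have h4 : ∀ t : R × SysL.VV l n, ∀ p, S.ex (cmaD S R c η t) p =
            η t.1 ⬝ᵥ S.ty p + c t.1 t.2 ⬝ᵥ S.ty p := by
          intro t p
          unfold SysL.ex cmaD SysL.cz SysL.cT
          have h5 : (((c t.1 t.2, 0) : S.El) + ((η t.1, 0) : S.El)).2 = 0 := add_zero 0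
          have h6 : (((c t.1 t.2, 0) : S.El) + ((η t.1, 0) : S.El)).1 = c t.1 t.2 + η t.1 := rfl
          rw [h5, h6, Finsupp.sum_zero_index, zero_add, add_dotProduct, add_comm]
        have h7 : ∑ v : R, η v ⬝ᵥ S.tys (mrg Prod.fst y v) =
            ∑ t : R × SysL.VV l n, ∑ p ∈ y t, η t.1 ⬝ᵥ S.ty p := by
          have h8 : ∀ v : R, η v ⬝ᵥ S.tys (mrg Prod.fst y v) =
              ∑ t ∈ (Finset.univ : Finset (R × SysL.VV l n)).filter (fun t => t.1 = v),
                ∑ p ∈ y t, η t.1 ⬝ᵥ S.ty p := by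
            intro v
            unfold SysL.tys mrg
            rw [Finset.sum_biUnion, dotProduct_sum]
            · refine Finset.sum_congr (by ext t; simp) fun t ht => ?_
              have ht' : t.1 = v := by simpa using ht
              rw [ht', dotProduct_sum]
            · intro i _ j _ hij
              exact hD i j hij
          rw [Finset.sum_congr rfl fun v _ => h8 v]
          exact Finset.sum_fiberwise _ _ _
        rw [h7, ← Finset.sum_add_distrib]
        refine Finset.sum_congr rfl fun t _ => ?_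
        rw [← Finset.sum_add_distrib]
        exact Finset.sum_congr rfl fun p _ => h4 t p
      rw [hE, cma_ec_add, mul_assoc]
      congr 1
      rw [cma_ec_sum]
      push_cast
      rw [← Finset.prod_mul_distrib]
      refine Finset.prod_congr rfl fun t _ => ?_
      rw [cma_ec_sum, ← Finset.prod_mul_distrib]
      refine Finset.prod_congr rfl fun p hp => ?_
      rw [if_pos (hC t ((hpat t).2 ⟨p, hp⟩))]
    · rw [if_neg hC]
      have h1 : ∃ u ∈ S.pat y, ¬ ∀ w, u.2 ⬝ᵥ Bd.B w u.1 = ψ w u.1 := by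
        by_contra h
        push Not at h
        exact hC h
      obtain ⟨u, hu, hnu⟩ := h1
      unfold SysL.pat at hu
      obtain ⟨p, hp⟩ := (Finset.mem_filter.1 hu).2
      rw [Finset.prod_eq_zero (Finset.mem_univ u), mul_zero]
      rw [Finset.prod_eq_zero hp]
      rw [if_neg hnu, zero_mul]
  · have h1 : (if cmaC Bd R ψ (S.pat y) then S.Kt τ s (SysL.bz Bd R) (cmaD S R c η) ∅ y
        else 0) = 0 := by
      split_ifs
      · unfold SysL.Kt
        rw [if_neg fun h => hG h.1]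
      · rfl
    rw [h1]
    by_cases hD : DjP y
    · rw [if_pos hD, if_neg (fun h => hG ((cma_gd S Prod.fst y).2 ⟨hD, h⟩)), zero_mul]
    · rw [if_neg hD]

private theorem cma_djP {ι : Type} {y : ι → Finset S.P} (h : S.Gd y) : DjP y := by
  intro i j hij
  rw [Finset.disjoint_left]
  intro p hp hp'
  exact hij (h.2 i j p hp p hp' 1 (S.ac_one p)).1

open Classical in
private theorem cma_gpsi (Bd : SysL.BD l d n) (R : Finset (SysL.VV l d))
    (c : SysL.VV l d → SysL.VV l n → S.T) (ψ : SysL.VV l d → SysL.VV l d → ZMod l) (k : R)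
    (p : S.P) (z : ℂ) (dec : ∀ t : R × SysL.VV l n, Decidable (t.1 = k)) :
    ∑ t ∈ @Finset.filter _ (fun t : R × SysL.VV l n => t.1 = k) dec Finset.univ,
      ((if ∀ w, t.2 ⬝ᵥ Bd.B w t.1 = ψ w t.1 then ec (c t.1 t.2 ⬝ᵥ S.ty p) else 0) * z) =
      S.gψ Bd c ψ k (S.ty p) * z := by
  rw [← Finset.sum_mul]
  congr 1
  unfold SysL.gψ
  rw [Finset.sum_filter, Fintype.sum_prod_type, Finset.sum_filter, Finset.sum_eq_single k]
  · refine Finset.sum_congr rfl fun ζ _ => ?_
    rw [if_pos rfl]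
  · intro v _ hv
    refine Finset.sum_eq_zero fun ζ _ => ?_
    rw [if_neg hv]
  · intro h
    exact absurd (Finset.mem_univ _) h

open Classical in
/-- the Euler products of a form as a sum over patterns -/
theorem cma_GE (hF : SFull) (hs : SSmL) (Bd : SysL.BD l d n) (R : Finset (SysL.VV l d))
    (hR : S.Rep R) (c : SysL.VV l d → SysL.VV l n → S.T)
    (ψ : SysL.VV l d → SysL.VV l d → ZMod l) (hψ : S.Fam Bd ψ) (B : ℝ) (τ : S.P → ℝ)
    (hτ : S.Tk B τ) (θ : (R → S.T) → ℝ) (th : (R → S.T) → ℂ)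
    (hth : ∀ t : R → S.T, (θ t : ℂ) = ∑ η : R → S.T, th η * ec (∑ v, η v ⬝ᵥ t v))
    (σ : ℝ) (hσ : 0 < σ) :
    S.GE θ (fun v : R => S.gψ Bd c ψ v) τ (1 + σ) = ∑ η : R → S.T, th η *
      ∑ U : Finset (R × SysL.VV l n), if cmaC Bd R ψ U
        then S.PS τ (1 + σ) (SysL.bz Bd R) (cmaD S R c η) ∅ U else 0 := by
  obtain ⟨f, hf⟩ : ∃ f : (R → S.T) → (R → Finset S.P) → ℂ, f = fun η x => if S.Gd x then
    ec (∑ v : R, η v ⬝ᵥ S.tys (x v)) * ∏ v : R, ∏ p ∈ x v, (S.gψ Bd c ψ v (S.ty p) *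
      ((τ p * (S.N p : ℝ) ^ (-(1 + σ)) : ℝ) : ℂ)) else 0 := ⟨_, rfl⟩
  have hsumK : ∀ η : R → S.T, Summable fun y : R × SysL.VV l n → Finset S.P =>
      S.Kt τ (1 + σ) (SysL.bz Bd R) (cmaD S R c η) ∅ y := fun η =>
    (hs l S (R × SysL.VV l n) (SysL.bz Bd R) (cmaD S R c η) ∅ B τ hτ σ hσ).of_norm
  have hsumC : ∀ η : R → S.T, ∀ Q : Finset (R × SysL.VV l n) → Prop,
      Summable fun y : R × SysL.VV l n → Finset S.P =>
      if Q (S.pat y) then S.Kt τ (1 + σ) (SysL.bz Bd R) (cmaD S R c η) ∅ y else 0 := by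
    intro η Q
    refine Summable.of_norm_bounded (hsumK η).norm fun y => ?_
    split_ifs
    · exact le_rfl
    · rw [norm_zero]
      exact norm_nonneg _
  have key : ∀ η : R → S.T, HasSum (f η) (∑ U : Finset (R × SysL.VV l n), if cmaC Bd R ψ U
      then S.PS τ (1 + σ) (SysL.bz Bd R) (cmaD S R c η) ∅ U else 0) := by
    intro η
    have h1 := cma_mrg (P := S.P) (Prod.fst : R × SysL.VV l n → R)
      (fun x => if S.Gd x then ec (∑ v : R, η v ⬝ᵥ S.tys (x v)) else 0)
      (fun t p => (if ∀ w, t.2 ⬝ᵥ Bd.B w t.1 = ψ w t.1 then ec (c t.1 t.2 ⬝ᵥ S.ty p)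
        else 0) * ((τ p * (S.N p : ℝ) ^ (-(1 + σ)) : ℝ) : ℂ)) (by
        refine (hsumC η (cmaC Bd R ψ)).congr fun y => ?_
        exact (cma_term S hF Bd R hR c ψ hψ τ (1 + σ) η y).symm)
    have h2 : (∑' y : R × SysL.VV l n → Finset S.P, if DjP y then
        (if S.Gd (mrg Prod.fst y) then ec (∑ v : R, η v ⬝ᵥ S.tys (mrg Prod.fst y v)) else 0) *
        ∏ t, ∏ p ∈ y t, ((if ∀ w, t.2 ⬝ᵥ Bd.B w t.1 = ψ w t.1 then ec (c t.1 t.2 ⬝ᵥ S.ty p)
        else 0) * ((τ p * (S.N p : ℝ) ^ (-(1 + σ)) : ℝ) : ℂ)) else 0) =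
        ∑ U : Finset (R × SysL.VV l n), if cmaC Bd R ψ U
          then S.PS τ (1 + σ) (SysL.bz Bd R) (cmaD S R c η) ∅ U else 0 := by
      rw [tsum_congr fun y => cma_term S hF Bd R hR c ψ hψ τ (1 + σ) η y]
      have h3 : ∀ y : R × SysL.VV l n → Finset S.P,
          (if cmaC Bd R ψ (S.pat y) then S.Kt τ (1 + σ) (SysL.bz Bd R) (cmaD S R c η) ∅ y
            else 0) = ∑ U : Finset (R × SysL.VV l n), if cmaC Bd R ψ U then
              (if S.pat y = U then S.Kt τ (1 + σ) (SysL.bz Bd R) (cmaD S R c η) ∅ y else 0)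
              else 0 := by
        intro y
        rw [Finset.sum_eq_single (S.pat y)]
        · rw [if_pos rfl]
        · intro U _ hU
          have hU' : ¬ S.pat y = U := fun h => hU h.symm
          rw [if_neg hU', ite_self]
        · intro h
          exact absurd (Finset.mem_univ _) h
      rw [tsum_congr h3, Summable.tsum_finsetSum]
      · refine Finset.sum_congr rfl fun U _ => ?_
        split_ifs with hU
        · unfold SysL.PS
          refine tsum_congr fun y => ?_
          congr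
        · exact tsum_zero
      · intro U _
        by_cases hU : cmaC Bd R ψ U
        · simp only [if_pos hU]
          refine (hsumC η fun V => V = U).congr fun y => ?_
          congr
        · simp only [if_neg hU]
          exact summable_zero
    rw [h2] at h1
    have h5 : ∀ (g : (R → Finset S.P) → ℂ) (a : ℂ), HasSum g a → (∀ x, g x = f η x) →
        HasSum (f η) a := by
      intro g a hg hgx
      rw [← show g = f η from funext hgx]
      exact hg
    refine h5 _ _ h1 fun x => ?_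
    rw [hf]
    by_cases hG : S.Gd x
    · have hD := cma_djP S hG
      simp only [if_pos hD, if_pos hG]
      congr 1
      refine Finset.prod_congr rfl fun k _ => Finset.prod_congr rfl fun p _ => ?_
      exact cma_gpsi S Bd R c ψ k p _ _
    · simp only [if_neg hG, zero_mul, ite_self]
  -- the Fourier expansion
  have h6 : ∀ η ∈ (Finset.univ : Finset (R → S.T)), Summable fun x => th η * f η x :=
    fun η _ => (key η).summable.mul_left _
  have h7 : S.GE θ (fun v : R => S.gψ Bd c ψ v) τ (1 + σ) =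
      ∑' x : R → Finset S.P, ∑ η : R → S.T, th η * f η x := by
    unfold SysL.GE
    refine tsum_congr fun x => ?_
    by_cases hG : S.Gd x
    · rw [if_pos hG, hth, Finset.sum_mul]
      refine Finset.sum_congr rfl fun η _ => ?_
      rw [hf]
      simp only [if_pos hG]
      ring
    · rw [if_neg hG]
      symm
      refine Finset.sum_eq_zero fun η _ => ?_
      rw [hf]
      simp only [if_neg hG, mul_zero]
  rw [h7, Summable.tsum_finsetSum h6]
  refine Finset.sum_congr rfl fun η _ => ?_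
  rw [tsum_mul_left, (key η).tsum_eq]

end

end Pool.Agent.H92.EL
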