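import Pool.Agent.H92.EL.DStm
import Pool.Agent.H32.MQ.G3

/-!
# Project T4 (MP_a3214d), block D, row D10: fields and homomorphisms for a regular permutation
group
-/

set_option autoImplicit false

open scoped BigOperators Pointwise Topology
open NumberField IsDedekindDomain Filter

namespace Pool.Agent.H92.EL

open Pool.Agent.H98.MF (Om Gm ord Dec top nrm fld rdN rexp rex)
open Pool.Agent.H32.MZ (NK MalleK)

/-- in a regular permutation group stabilizers are trivial -/
private theorem dfld_stab {n : ℕ} (G : Subgroup (Equiv.Perm (Fin n)))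
    (ht : MulAction.IsPretransitive G (Fin n)) (hc : Nat.card G = n) (i0 : Fin n) :
    (MulAction.stabilizer (Equiv.Perm (Fin n)) i0).comap G.subtype = ⊥ := by
  have hsurj : Function.Surjective fun g : G => g • i0 := fun y => ht.exists_smul_eq i0 y
  have hinj : Function.Injective fun g : G => g • i0 := by
    refine ((Nat.bijective_iff_surjective_and_card _).2 ⟨hsurj, ?_⟩).1
    rw [hc, Nat.card_eq_fintype_card, Fintype.card_fin]
  rw [eq_bot_iff]
  intro g hg
  rw [Subgroup.mem_comap, MulAction.mem_stabilizer_iff] at hg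
  rw [Subgroup.mem_bot]
  refine hinj ?_
  show g • i0 = (1 : G) • i0
  rw [one_smul]
  exact hg

/-- D14: fields and homomorphisms, regular representation -/
theorem sfldT : SFldT := by
  intro n G ht hc hn
  obtain ⟨κ, hκ, h⟩ := Pool.Agent.H32.MQ.G.stNK n G ht ⟨0, hn⟩ G G.subtype
    G.subtype_injective G.range_subtype
  refine ⟨κ, hκ, fun k _ _ X => ?_⟩
  have h4 := h k X
  have h6 : {ρ : Gm k →* G | ρ ∈ Hk k G ∧ (dG ρ : ℝ) ≤ X} =
      {ρ : Gm k →* G | Function.Surjective ρ ∧ IsLocallyConstant ρ ∧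
        (rdN (fld k (((MulAction.stabilizer (Equiv.Perm (Fin n)) (⟨0, hn⟩ : Fin n)).comap
          G.subtype).comap ρ)) : ℝ) ≤ X} := by
    ext ρ
    show ((Function.Surjective ρ ∧ IsLocallyConstant ρ) ∧ (rdN (fld k ρ.ker) : ℝ) ≤ X) ↔ _
    rw [Set.mem_ofPred_eq, dfld_stab G ht hc, and_assoc]
    rfl
  rw [h6, h4]

end Pool.Agent.H92.EL
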