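import Pool.Agent.H92.EL.DStm

/-!
# Project T4 (MP_a3214d), block D, row D11: indices in the regular representation
-/

set_option autoImplicit false

open scoped BigOperators

namespace Pool.Agent.H92.EL

open Pool.Agent.H32.MA (pind mInd)

/-- stabilisers of a regular group are trivial -/
theorem dix_free {n : ℕ} {G : Subgroup (Equiv.Perm (Fin n))}
    (hG : MulAction.IsPretransitive G (Fin n)) (hc : Nat.card G = n) (h : Equiv.Perm (Fin n))
    (hh : h ∈ G) (i : Fin n) (hi : h i = i) : h = 1 := by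
  classical
  have h1 : (MulAction.stabilizer G i).index = Nat.card (Fin n) :=
    MulAction.index_stabilizer_of_transitive G i
  have h2 := (MulAction.stabilizer G i).card_mul_index
  have hn : 0 < n := Nat.pos_of_ne_zero fun h0 => by
    subst h0
    exact i.elim0
  rw [h1, hc, Nat.card_fin] at h2
  have h3 : Nat.card (MulAction.stabilizer G i) = 1 :=
    Nat.eq_of_mul_eq_mul_right hn (by rw [h2, one_mul])
  have h4 : MulAction.stabilizer G i = ⊥ := Subgroup.card_eq_one.1 h3
  have h5 : (⟨h, hh⟩ : G) ∈ MulAction.stabilizer G i := hi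
  rw [h4, Subgroup.mem_bot] at h5
  exact congrArg Subtype.val h5

theorem dix_pind {n : ℕ} {G : Subgroup (Equiv.Perm (Fin n))}
    (hG : MulAction.IsPretransitive G (Fin n)) (hc : Nat.card G = n) (g : Equiv.Perm (Fin n))
    (hg : g ∈ G) : pind g = n - n / orderOf g := by
  classical
  have hst : ∀ i : Fin n, MulAction.stabilizer (Subgroup.zpowers g) i = ⊥ := by
    intro i
    rw [eq_bot_iff]
    intro x hx
    rw [Subgroup.mem_bot]
    have h1 : (x : Equiv.Perm (Fin n)) ∈ G := (Subgroup.zpowers_le.2 hg) x.2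
    have h2 : (x : Equiv.Perm (Fin n)) i = i := hx
    exact Subtype.ext (dix_free hG hc _ h1 i h2)
  have h1 := Nat.card_congr
    (MulAction.selfEquivOrbitsQuotientProd (G := Subgroup.zpowers g) (X := Fin n) hst)
  rw [Nat.card_prod, Nat.card_zpowers, Nat.card_fin] at h1
  have h2 : 0 < orderOf g := orderOf_pos g
  have h3 : Nat.card (MulAction.orbitRel.Quotient (Subgroup.zpowers g) (Fin n)) =
      n / orderOf g := by
    rw [Nat.eq_div_iff_mul_eq_left h2.ne']
    · exact h1
    · exact Dvd.intro_left _ h1.symm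
  unfold pind
  rw [h3]

/-- row D11 -/
theorem smI : SmI := by
  classical
  intro n G hG hc hn
  refine ⟨fun g hg => dix_pind hG hc g hg, ?_⟩
  have hp : n.minFac.Prime := Nat.minFac_prime (by omega)
  have hfin : Finite G := Nat.finite_of_card_ne_zero (by omega)
  have hdvd : n.minFac ∣ Nat.card G := by
    rw [hc]
    exact Nat.minFac_dvd n
  have := Fact.mk hp
  obtain ⟨x, hx⟩ := exists_prime_orderOf_dvd_card' n.minFac hdvd
  have hx' : orderOf (x : Equiv.Perm (Fin n)) = n.minFac := by
    rw [Subgroup.orderOf_coe, hx]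
  have hmem : n - n / n.minFac ∈ {j | ∃ g ∈ G, g ≠ 1 ∧ pind g = j} := by
    refine ⟨x, x.2, ?_, ?_⟩
    · intro h
      rw [h, orderOf_one] at hx'
      exact hp.one_lt.ne hx'
    · rw [dix_pind hG hc _ x.2, hx']
  unfold mInd
  apply le_antisymm (Nat.sInf_le hmem)
  obtain ⟨g, hg, hg1, hg2⟩ := Nat.sInf_mem ⟨_, hmem⟩
  rw [← hg2, dix_pind hG hc g hg]
  have h1 : orderOf g ∣ n := by
    have h2 := orderOf_dvd_natCard (⟨g, hg⟩ : G)
    rw [hc, Subgroup.orderOf_mk] at h2
    exact h2
  have h2 : 2 ≤ orderOf g := by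
    have h3 := orderOf_pos g
    have h4 : orderOf g ≠ 1 := fun h => hg1 (orderOf_eq_one_iff.1 h)
    omega
  have h3 : n.minFac ≤ orderOf g := Nat.minFac_le_of_dvd h2 h1
  have h4 : n / orderOf g ≤ n / n.minFac := Nat.div_le_div_left h3 hp.pos
  omega

end Pool.Agent.H92.EL
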