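import Pool.Agent.H92.EL.DStm
import Pool.Agent.H98.MF.D.Orb

/-!
# Project T4 (MP_a3214d), block D: the exponent of the discriminant of a subfield of a Galois
extension of degree prime to the norm of `P`
-/

set_option autoImplicit false

open scoped BigOperators Pointwise
open NumberField IsDedekindDomain

namespace Pool.Agent.H92.EL

open Pool.Agent.H67.MU
open Pool.Agent.H98.MF (Om Gm ord Dec top nrm fld rdN rexp rex)
open Pool.Agent.H98.MF (rd_sub rd_norm rd_card rd_ne_bot orb_vexp_eq orb_tame)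
open Pool.Agent.H98.ML (norb norb_burnside)

section

variable {k : Type} [Field k] [NumberField k]

variable {M : Type} [Field M] [NumberField M] [Algebra k M]

/-- numbers prime to the norm of `P` are not in a prime above `P` -/
theorem do_cop (P : HeightOneSpectrum (𝓞 k)) (Q : Ideal (𝓞 M)) [hQp : Q.IsPrime]
    (hQ : Q.comap (algebraMap (𝓞 k) (𝓞 M)) = P.asIdeal) (n : ℕ)
    (hn : Nat.Coprime n (nrm P)) : (n : 𝓞 M) ∉ Q := by
  intro h
  have h1 : ((nrm P : ℕ) : 𝓞 k) ∈ P.asIdeal := by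
    rw [← Ideal.Quotient.eq_zero_iff_mem, map_natCast, ← nsmul_one]
    exact card_nsmul_eq_zero' (G := 𝓞 k ⧸ P.asIdeal)
  have h2 : ((nrm P : ℕ) : 𝓞 M) ∈ Q := by
    rw [← hQ, Ideal.mem_comap, map_natCast] at h1
    exact h1
  obtain ⟨a, b, hab⟩ := Nat.isCoprime_iff_coprime.2 hn
  have h3 : (a : 𝓞 M) * (n : 𝓞 M) + (b : 𝓞 M) * ((nrm P : ℕ) : 𝓞 M) = 1 := by
    exact_mod_cast congrArg (Int.cast : ℤ → 𝓞 M) hab
  apply hQp.ne_top
  rw [Ideal.eq_top_iff_one, ← h3]
  exact Q.add_mem (Q.mul_mem_left _ h) (Q.mul_mem_left _ h2)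

variable [IsGalois k M]

theorem do_tame_sub (P : HeightOneSpectrum (𝓞 k))
    (h2 : Nat.Coprime (Module.finrank k M) (nrm P)) (Q : Ideal (𝓞 M)) [Q.IsPrime]
    (hQ : Q.comap (algebraMap (𝓞 k) (𝓞 M)) = P.asIdeal) (J : Subgroup (M ≃ₐ[k] M))
    (hJ : J ≤ Q.inertia (M ≃ₐ[k] M)) :
    vexp Q (differentIdeal (𝓞 (IntermediateField.fixedField J)) (𝓞 M)) + 1 = Nat.card J := by
  have hQ0 := rd_ne_bot hQ
  have h3 : Q.ramificationIdx (𝓞 (IntermediateField.fixedField J)) = Nat.card J := by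
    rw [rd_card, IntermediateField.fixingSubgroup_fixedField, inf_eq_right.2 hJ]
  have h4 : Nat.card (Q.inertia (M ≃ₐ[IntermediateField.fixedField J] M)) =
      Q.ramificationIdx (𝓞 (IntermediateField.fixedField J)) := by
    rw [Ideal.card_inertia_eq_ramificationIdxIn (G := M ≃ₐ[IntermediateField.fixedField J] M)
        (Q.under (𝓞 (IntermediateField.fixedField J))) Q,
      Ideal.ramificationIdxIn_eq_ramificationIdx
        (Q.under (𝓞 (IntermediateField.fixedField J))) Q (M ≃ₐ[IntermediateField.fixedField J] M)]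
  have h5 : Nat.card J ∣ Module.finrank k M := by
    have h6 := Subgroup.card_subgroup_dvd_card J
    rwa [IsGalois.card_aut_eq_finrank] at h6
  rw [← h3, ← h4] at h5 ⊢
  exact orb_tame Q hQ0 (do_cop P Q hQ _ (h2.coprime_dvd_left h5))

theorem do_tame_base (P : HeightOneSpectrum (𝓞 k))
    (h2 : Nat.Coprime (Module.finrank k M) (nrm P)) (Q : Ideal (𝓞 M)) [Q.IsPrime]
    (hQ : Q.comap (algebraMap (𝓞 k) (𝓞 M)) = P.asIdeal) :
    vexp Q (differentIdeal (𝓞 k) (𝓞 M)) + 1 = Nat.card (Q.inertia (M ≃ₐ[k] M)) := by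
  have h5 : Nat.card (Q.inertia (M ≃ₐ[k] M)) ∣ Module.finrank k M := by
    have h6 := Subgroup.card_subgroup_dvd_card (Q.inertia (M ≃ₐ[k] M))
    rwa [IsGalois.card_aut_eq_finrank] at h6
  exact orb_tame Q (rd_ne_bot hQ) (do_cop P Q hQ _ (h2.coprime_dvd_left h5))

end

theorem sorbT : SOrbT := by
  intro k M _ _ _ _ _ _ P h2 Q _ hQ τ hτ H
  have h1 := rd_sub P Q hQ H
  have hcard : Nat.card (M ≃ₐ[k] M) = Module.finrank k M := IsGalois.card_aut_eq_finrank k M
  have hd : rex P M * Nat.card (Q.inertia (M ≃ₐ[k] M)) =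
      Module.finrank k M * vexp Q (differentIdeal (𝓞 k) (𝓞 M)) := by
    have h3 : rex P M * Nat.card (Q.inertia (M ≃ₐ[k] M)) =
        ∑ σ : M ≃ₐ[k] M, vexp (σ • Q) (differentIdeal (𝓞 k) (𝓞 M)) :=
      rd_norm P Q hQ _ differentIdeal_ne_bot
    rw [h3, Finset.sum_congr rfl fun σ _ => orb_vexp_eq σ Q (rd_ne_bot hQ), Finset.sum_const,
      Finset.card_univ, smul_eq_mul, ← Nat.card_eq_fintype_card, hcard]
  have h3 := do_tame_base P h2 Q hQ
  have h4 := norb_burnside H τ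
  rw [hτ] at h4
  have h5 : ∑ g : M ≃ₐ[k] M, (vexp Q (differentIdeal (𝓞 (IntermediateField.fixedField
        (Q.inertia (M ≃ₐ[k] M) ⊓ H.comap (MulAut.conj g).toMonoidHom))) (𝓞 M)) + 1) =
      ∑ g : M ≃ₐ[k] M, Nat.card (Q.inertia (M ≃ₐ[k] M) ⊓
        H.comap (MulAut.conj g).toMonoidHom : Subgroup (M ≃ₐ[k] M)) :=
    Finset.sum_congr rfl fun g _ => do_tame_sub P h2 Q hQ _ inf_le_left
  rw [Finset.sum_add_distrib, Finset.sum_const, Finset.card_univ, smul_eq_mul, mul_one,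
    ← Nat.card_eq_fintype_card, hcard, ← h4] at h5
  have h6 : H.index * Nat.card H = Module.finrank k M := by
    rw [Subgroup.index_mul_card, hcard]
  have hI : 0 < Nat.card (Q.inertia (M ≃ₐ[k] M)) := Nat.card_pos
  have hH : 0 < Nat.card H := Nat.card_pos
  refine Nat.eq_of_mul_eq_mul_right (Nat.mul_pos hH hI) ?_
  rw [hd] at h1
  have h7 : Module.finrank k M * vexp Q (differentIdeal (𝓞 k) (𝓞 M)) + Module.finrank k M =
      Module.finrank k M * Nat.card (Q.inertia (M ≃ₐ[k] M)) := by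
    rw [← h3]
    ring
  calc _ = (rex P (IntermediateField.fixedField H) * Nat.card H *
        Nat.card (Q.inertia (M ≃ₐ[k] M))) +
        norb H τ * Nat.card H * Nat.card (Q.inertia (M ≃ₐ[k] M)) := by ring
    _ = Module.finrank k M * Nat.card (Q.inertia (M ≃ₐ[k] M)) := by
        rw [← h7, ← h1, ← h5, add_assoc]
    _ = _ := by rw [← h6]; ring

end Pool.Agent.H92.EL
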