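import Pool.Agent.H92.EL.DStm
import Pool.Agent.H98.MF.NSplA

/-!
# Project T4/ELL (MP_a3214d), row D9: sums over finite sets of primes converge
-/

set_option autoImplicit false

open scoped BigOperators Pointwise
open NumberField IsDedekindDomain

namespace Pool.Agent.H92.EL

open Pool.Agent.H98.MF (ord nrm gen Om Gm)

theorem ssumR : SSumR := by
  intro k _ _ C w hC hw
  have h1 : Summable fun P : HeightOneSpectrum (𝓞 k) => C * (nrm P : ℝ) ^ (-w) :=
    (Pool.Agent.H98.MF.summable_nrm w hw).mul_left C
  have h2 := (summable_finsetProd_of_summable_nonneg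
    (fun P => mul_nonneg hC (Real.rpow_nonneg (Nat.cast_nonneg _) _)) h1).mul_left C
  refine h2.congr fun R => ?_
  rw [Nat.cast_prod, ← Real.finsetProd_rpow _ _ fun a _ => Nat.cast_nonneg _,
    Finset.prod_mul_distrib, Finset.prod_const]
  ring

end Pool.Agent.H92.EL
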