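import Pool.Agent.H92.EL.DStm
import Pool.Agent.D8.ARx

/-!
# Project T4 (MP_a3214d), block D: universal tame generators and Frobenius elements (compactness)
-/

set_option autoImplicit false

open scoped BigOperators Pointwise Topology
open NumberField IsDedekindDomain Filter

namespace Pool.Agent.H92.EL

open Pool.Agent.H98.MF
open Pool.Agent.H98.ML (norb m3_norb)
open Pool.Agent.D8 (arx_K arx_closed arx_mono arx_low)

section

variable {k : Type} [Field k] [NumberField k]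

/-- the pairs good for `U` -/
def dtm_C (P : HeightOneSpectrum (𝓞 k)) (U : Subgroup (Gm k)) : Set (Gm k × Gm k) :=
  {x | x.1 ∈ Dec P ∧ x.2 ∈ Dec P ∧ x.2 * x.1 * x.2⁻¹ * (x.1 ^ nrm P)⁻¹ ∈ U ∧
      (∀ W : Subgroup (Gm k), U ≤ W → rexp P (fld k W) + norb W x.1 = W.index) ∧
      ∀ σ ∈ Dec P, ∃ i j : ℕ, (x.1 ^ i * x.2 ^ j)⁻¹ * σ ∈ U}

theorem dtm_mono (P : HeightOneSpectrum (𝓞 k)) {U U' : Subgroup (Gm k)} (h : U' ≤ U) :
    dtm_C P U' ⊆ dtm_C P U := by
  rintro x ⟨h5, h6, h1, h2, h3⟩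
  refine ⟨h5, h6, h h1, fun W hW => h2 W (h.trans hW), fun σ hσ => ?_⟩
  obtain ⟨i, j, hij⟩ := h3 σ hσ
  exact ⟨i, j, h hij⟩

theorem dtm_inv (P : HeightOneSpectrum (𝓞 k)) {U : Subgroup (Gm k)} [hn : U.Normal]
    {x y : Gm k × Gm k} (hx : x ∈ dtm_C P U) (h1 : x.1⁻¹ * y.1 ∈ U) (h2 : x.2⁻¹ * y.2 ∈ U)
    (hy1 : y.1 ∈ Dec P) (hy2 : y.2 ∈ Dec P) : y ∈ dtm_C P U := by
  obtain ⟨_, _, hr, hd, hg⟩ := hx
  have e1 : ((x.1 : Gm k) : Gm k ⧸ U) = (y.1 : Gm k ⧸ U) := QuotientGroup.eq.mpr h1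
  have e2 : ((x.2 : Gm k) : Gm k ⧸ U) = (y.2 : Gm k ⧸ U) := QuotientGroup.eq.mpr h2
  refine ⟨hy1, hy2, ?_, ?_, ?_⟩
  · rw [← QuotientGroup.eq_one_iff] at hr ⊢
    rw [← hr]
    simp only [QuotientGroup.mk_mul, QuotientGroup.mk_inv, QuotientGroup.mk_pow, e1, e2]
  · intro W hW
    rw [d8_norb hW h1]
    exact hd W hW
  · intro σ hσ
    obtain ⟨i, j, hij⟩ := hg σ hσ
    refine ⟨i, j, ?_⟩
    rw [← QuotientGroup.eq_one_iff] at hij ⊢
    rw [← hij]
    simp only [QuotientGroup.mk_mul, QuotientGroup.mk_inv, QuotientGroup.mk_pow, e1, e2]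

theorem dtm_closed (P : HeightOneSpectrum (𝓞 k)) {U : Subgroup (Gm k)} [hn : U.Normal]
    (hU : IsOpen (U : Set (Gm k))) : IsClosed (dtm_C P U) := by
  rw [← isOpen_compl_iff, isOpen_iff_mem_nhds]
  intro x hx
  by_cases hxD : x.1 ∈ Dec P ∧ x.2 ∈ Dec P
  · have h1 : IsOpen {y : Gm k × Gm k | x.1⁻¹ * y.1 ∈ U ∧ x.2⁻¹ * y.2 ∈ U} := by
      have ha : IsOpen ((fun y : Gm k × Gm k => x.1⁻¹ * y.1) ⁻¹' (U : Set (Gm k))) :=
        hU.preimage (continuous_const.mul continuous_fst)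
      have hb : IsOpen ((fun y : Gm k × Gm k => x.2⁻¹ * y.2) ⁻¹' (U : Set (Gm k))) :=
        hU.preimage (continuous_const.mul continuous_snd)
      exact ha.inter hb
    refine Filter.mem_of_superset (h1.mem_nhds ?_) ?_
    · refine ⟨?_, ?_⟩
      · rw [inv_mul_cancel]
        exact one_mem _
      · rw [inv_mul_cancel]
        exact one_mem _
    · rintro y ⟨ha, hb⟩ hy
      refine hx (dtm_inv P hy ?_ ?_ hxD.1 hxD.2)
      · have := U.inv_mem ha
        rwa [mul_inv_rev, inv_inv] at this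
      · have := U.inv_mem hb
        rwa [mul_inv_rev, inv_inv] at this
  · have hcl : IsClosed {y : Gm k × Gm k | y.1 ∈ Dec P ∧ y.2 ∈ Dec P} := by
      have ha : IsClosed ((fun y : Gm k × Gm k => y.1) ⁻¹' (Dec P : Set (Gm k))) :=
        (dec_closed P).preimage continuous_fst
      have hb : IsClosed ((fun y : Gm k × Gm k => y.2) ⁻¹' (Dec P : Set (Gm k))) :=
        (dec_closed P).preimage continuous_snd
      exact ha.inter hb
    refine Filter.mem_of_superset (hcl.isOpen_compl.mem_nhds hxD) ?_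
    intro y hy hyC
    exact hy ⟨hyC.1, hyC.2.1⟩

theorem dtm_fin (hG : SGenT) (hO : SOrbT) (P : HeightOneSpectrum (𝓞 k)) (U : Subgroup (Gm k))
    (hTU : TmU P U) : (dtm_C P U ∩ arx_K P U).Nonempty := by
  have hUn : U.Normal := hTU.nor
  have hU : IsOpen (U : Set (Gm k)) := hTU.opn
  have hfin : Module.finrank k (fld k U) = U.index := fldK_finrank U hU
  have hFD : FiniteDimensional k (fld k U) := fldK_finite U hU
  have hNU : NumberField (fld k U) := fldK_nf U hU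
  have hGal : IsGalois k (fld k U) := fldK_galois U hU
  have hQp : (low P (fld k U)).IsPrime := low_prime P (fld k U)
  have hQc := low_comap P (fld k U)
  have hcop : Nat.Coprime (Module.finrank k (fld k U)) (nrm P) := by
    rw [hfin]
    exact hTU.cop
  obtain ⟨τ0, φ0, hz, hφ0, hφQ, hrel, hgen⟩ := hG k (fld k U) P hcop (low P (fld k U)) hQc
  have hin0 : τ0 ∈ (low P (fld k U)).inertia (fld k U ≃ₐ[k] fld k U) := by
    rw [← hz]
    exact Subgroup.mem_zpowers _
  obtain ⟨π, hπs, hπk, hπ⟩ := exists_resK U hU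
  obtain ⟨τ, hτD, hτ0⟩ := dec_surj P (fld k U) τ0 (Ideal.inertia_le_stabilizer _ hin0)
  obtain ⟨φ, hφD, hφ1⟩ := dec_surj P (fld k U) φ0 hφQ
  have hres : ∀ σ : Gm k, π σ = AlgEquiv.restrictNormal σ (fld k U) := by
    intro σ
    apply AlgEquiv.ext
    intro x
    apply Subtype.ext
    rw [hπ]
    exact (AlgEquiv.restrictNormal_commutes σ (fld k U) x).symm
  have hτ : π τ = τ0 := (hres τ).trans hτ0
  have hφ : π φ = φ0 := (hres φ).trans hφ1
  subst hτ hφ
  refine ⟨(τ, φ), ⟨hτD, hφD, ?_, ?_, ?_⟩, ?_⟩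
  · rw [← hπk, MonoidHom.mem_ker, map_mul, map_mul, map_mul, map_inv, map_inv, map_pow, hrel,
      mul_inv_cancel]
  · intro W hUW
    have hWc : (W.map π).comap π = W := by
      rw [Subgroup.comap_map_eq, hπk, sup_eq_left.2 hUW]
    have h1 := hO k (fld k U) P hcop (low P (fld k U)) hQc (π τ) hz (W.map π)
    have h2 : norb W τ = norb (W.map π) (π τ) := by
      conv_lhs => rw [← hWc]
      exact m3_norb π hπs (W.map π) τ
    have h3 : W.index = (W.map π).index := by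
      conv_lhs => rw [← hWc]
      exact Subgroup.index_comap_of_surjective _ hπs
    change rexp P (fld k W) + norb W τ = W.index
    rw [fin_rexp_eq P U W hUW π hπ, h2, h3]
    exact h1
  · intro σ hσ
    have hst : π σ • low P (fld k U) = low P (fld k U) := by
      rw [hres σ]
      exact dec_restrict P (fld k U) σ hσ
    obtain ⟨i, j, hij⟩ := hgen (π σ) hst
    refine ⟨i, j, ?_⟩
    change (τ ^ i * φ ^ j)⁻¹ * σ ∈ U
    rw [← hπk, MonoidHom.mem_ker, map_mul, map_inv, map_mul, map_pow, map_pow, hij,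
      inv_mul_cancel]
  · intro y hy
    obtain ⟨x, rfl⟩ := arx_low U y hy
    constructor
    · have h1 : π τ • x - x ∈ low P (fld k U) := hin0 x
      rw [tp_mem_low, map_sub, hres τ, tp_res] at h1
      exact h1
    · have h1 : π φ • x - x ^ nrm P ∈ low P (fld k U) := hφ0 x
      rw [tp_mem_low, map_sub, map_pow, hres φ, tp_res] at h1
      exact h1

/-- the index set -/
def DtmI (P : HeightOneSpectrum (𝓞 k)) : Type := {U : Subgroup (Gm k) // TmU P U}

theorem dtm_top (P : HeightOneSpectrum (𝓞 k)) : TmU P (⊤ : Subgroup (Gm k)) where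
  nor := inferInstance
  opn := isOpen_univ
  cop := by
    rw [Subgroup.index_top]
    exact Nat.coprime_one_left _

theorem dtm_inf {P : HeightOneSpectrum (𝓞 k)} {U V : Subgroup (Gm k)} (hU : TmU P U)
    (hV : TmU P V) : TmU P (U ⊓ V) where
  nor := by
    have := hU.nor
    have := hV.nor
    infer_instance
  opn := by
    rw [Subgroup.coe_inf]
    exact hU.opn.inter hV.opn
  cop := by
    have := hU.nor
    have := hV.nor
    have h1 : (U ⊓ V).relIndex U * U.index = (U ⊓ V).index :=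
      Subgroup.relIndex_mul_index inf_le_left
    have h2 : (U ⊓ V).relIndex U ∣ V.index := by
      rw [Subgroup.inf_relIndex_left]
      exact Subgroup.relIndex_dvd_index_of_normal V U
    rw [← h1]
    exact Nat.Coprime.mul_left (hV.cop.coprime_dvd_left h2) hU.cop

theorem dtm_ex (hG : SGenT) (hO : SOrbT) (P : HeightOneSpectrum (𝓞 k)) :
    ∃ τ φ : Gm k, IsTM P τ φ := by
  have : CompactSpace (Gm k) := gm_compact
  have : Nonempty (DtmI P) := ⟨⟨⊤, dtm_top P⟩⟩
  have key : (⋂ i : DtmI P, (dtm_C P i.1 ∩ arx_K P i.1)).Nonempty := by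
    refine IsCompact.nonempty_iInter_of_directed_nonempty_isCompact_isClosed
      (fun i : DtmI P => dtm_C P i.1 ∩ arx_K P i.1) ?_ ?_ ?_ ?_
    · intro U V
      exact ⟨⟨U.1 ⊓ V.1, dtm_inf U.2 V.2⟩,
        Set.inter_subset_inter (dtm_mono P inf_le_left) (arx_mono P inf_le_left),
        Set.inter_subset_inter (dtm_mono P inf_le_right) (arx_mono P inf_le_right)⟩
    · rintro ⟨U, hU⟩
      exact dtm_fin hG hO P U hU
    · rintro ⟨U, hU⟩
      have := hU.nor
      exact ((dtm_closed P hU.opn).inter (arx_closed P U)).isCompact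
    · rintro ⟨U, hU⟩
      have := hU.nor
      exact (dtm_closed P hU.opn).inter (arx_closed P U)
  obtain ⟨⟨τ, φ⟩, hx⟩ := key
  rw [Set.mem_iInter] at hx
  refine ⟨τ, φ, ⟨(hx ⟨⊤, dtm_top P⟩).1.1, (hx ⟨⊤, dtm_top P⟩).1.2.1, ?_, ?_, ?_, ?_, ?_⟩⟩
  · intro U hU
    exact (hx ⟨U, hU⟩).1.2.2.1
  · intro U hU W hW
    exact (hx ⟨U, hU⟩).1.2.2.2.1 W hW
  · rintro x ⟨U, hU, hU4⟩
    exact ((hx ⟨U, hU⟩).2 x hU4).1
  · rintro x ⟨U, hU, hU4⟩
    exact ((hx ⟨U, hU⟩).2 x hU4).2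
  · intro U hU
    exact (hx ⟨U, hU⟩).1.2.2.2.2

end

/-- D3: universal tame generators and Frobenius elements exist -/
theorem stm (hG : SGenT) (hO : SOrbT) : STm := by
  intro k _ _
  choose τ φ h using fun P : HeightOneSpectrum (𝓞 k) => dtm_ex hG hO P
  exact ⟨⟨τ, φ, h⟩⟩

end Pool.Agent.H92.EL
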