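import Pool.Agent.H92.EL.DStm

/-!
# Project T4 (MP_a3214d), block D, row D12: the number of classes of least index up to the
cyclotomic action
-/

set_option autoImplicit false

open scoped BigOperators Pointwise
open NumberField IsDedekindDomain

namespace Pool.Agent.H92.EL

open Pool.Agent.H32.MA (pind mInd bM MinCl cycRel)

/-! ### powers -/

theorem dbm_pow {M : Type} [Monoid M] {l a b : ℕ} {g : M} (hg : g ^ l = 1)
    (h : a ≡ b [MOD l]) : g ^ a = g ^ b := by
  have h1 : a % l = b % l := h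
  rw [pow_eq_pow_mod a hg, pow_eq_pow_mod b hg, h1]

theorem dbm_val_mul {l : ℕ} (u v : (ZMod l)ˣ) :
    ((u * v : (ZMod l)ˣ) : ZMod l).val ≡ (u : ZMod l).val * (v : ZMod l).val [MOD l] := by
  rw [Units.val_mul, ZMod.val_mul]
  exact Nat.mod_modEq _ _

theorem dbm_val_one {l : ℕ} (hl : l.Prime) : ((1 : (ZMod l)ˣ) : ZMod l).val = 1 := by
  have : Fact (1 < l) := ⟨hl.one_lt⟩
  rw [Units.val_one]
  exact ZMod.val_one l

/-! ### the group -/

section

variable (k : Type) [Field k] {l : ℕ}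

/-- the image of the cyclotomic character is a group -/
def dbmH (hl : l.Prime) : Subgroup (ZMod l)ˣ where
  carrier := cyc k l
  one_mem' := ⟨1, fun ζ _ => by
    rw [dbm_val_one hl, pow_one]
    rfl⟩
  mul_mem' := by
    rintro a b ⟨σ, hσ⟩ ⟨τ, hτ⟩
    refine ⟨σ * τ, fun ζ hζ => ?_⟩
    rw [AlgEquiv.mul_apply, hτ ζ hζ, map_pow, hσ ζ hζ, ← pow_mul]
    exact (dbm_pow hζ (dbm_val_mul a b)).symm
  inv_mem' := by
    rintro a ⟨σ, hσ⟩
    refine ⟨σ⁻¹, fun ζ hζ => ?_⟩
    have h1 : σ (ζ ^ ((a⁻¹ : (ZMod l)ˣ) : ZMod l).val) = ζ := by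
      rw [map_pow, hσ ζ hζ, ← pow_mul]
      have h2 := dbm_pow hζ (dbm_val_mul a a⁻¹)
      rw [mul_inv_cancel, dbm_val_one hl, pow_one] at h2
      exact h2.symm
    have h2 : σ⁻¹ (σ (ζ ^ ((a⁻¹ : (ZMod l)ˣ) : ZMod l).val)) =
        ζ ^ ((a⁻¹ : (ZMod l)ˣ) : ZMod l).val := by
      rw [← AlgEquiv.mul_apply, inv_mul_cancel]
      rfl
    rw [h1] at h2
    exact h2

variable {k}

/-- the action on the classes -/
noncomputable def dbmAct {G : Type} [Group G] (u : (ZMod l)ˣ) (c : Ncl l G) : Ncl l G :=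
  ⟨@Quotient.map G G (IsConj.setoid G) (IsConj.setoid G) (fun g => g ^ (u : ZMod l).val)
    (fun _ _ h => IsConj.pow _ h) c.1, by
    obtain ⟨g, hg, ho⟩ := c.2
    refine ⟨g ^ (u : ZMod l).val, ?_, ?_⟩
    · rw [← hg]
      rfl
    · have h1 : (orderOf g).Coprime (u : ZMod l).val := by
        rw [ho]
        exact (ZMod.val_coe_unit_coprime u).symm
      rw [Nat.Coprime.orderOf_pow h1, ho]⟩

theorem dbmAct_mk {G : Type} [Group G] (u : (ZMod l)ˣ) (c : Ncl l G) (g : G)
    (hg : ConjClasses.mk g = c.1) :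
    (dbmAct u c).1 = ConjClasses.mk (g ^ (u : ZMod l).val) := by
  obtain ⟨c0, hc0⟩ := c
  have hg' : ConjClasses.mk g = c0 := hg
  subst hg'
  rfl

/-- the order of an element of the class -/
theorem dbm_ord {G : Type} [Group G] (c : Ncl l G) (g : G) (hg : ConjClasses.mk g = c.1) :
    orderOf g = l := by
  obtain ⟨g', hg', ho⟩ := c.2
  rw [← hg'] at hg
  obtain ⟨x, hx⟩ := isConj_iff.1 (ConjClasses.mk_eq_mk_iff_isConj.1 hg)
  rw [← ho, ← hx]
  have h1 : x * g * x⁻¹ = MulAut.conj x g := rfl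
  rw [h1]
  exact (MulEquiv.orderOf_eq (MulAut.conj x) g).symm

/-- the action of the group -/
@[reducible] noncomputable def dbmMA (hl : l.Prime) (G : Type) [Group G] :
    MulAction (dbmH k hl) (Ncl l G) where
  smul u c := dbmAct u.1 c
  one_smul c := by
    obtain ⟨g, hg, ho⟩ := c.2
    apply Subtype.ext
    show (dbmAct 1 c).1 = c.1
    rw [dbmAct_mk 1 c g hg, dbm_val_one hl, pow_one, hg]
  mul_smul u v c := by
    obtain ⟨g, hg, ho⟩ := c.2
    apply Subtype.ext
    show (dbmAct (u.1 * v.1) c).1 = (dbmAct u.1 (dbmAct v.1 c)).1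
    have hgl : g ^ l = 1 := by
      rw [← ho]
      exact pow_orderOf_eq_one g
    rw [dbmAct_mk (u.1 * v.1) c g hg,
      dbmAct_mk u.1 (dbmAct v.1 c) (g ^ (v.1 : ZMod l).val) (dbmAct_mk v.1 c g hg).symm,
      ← pow_mul, dbm_pow hgl (dbm_val_mul u.1 v.1), mul_comm]

/-- the action is free -/
theorem dbm_free (hl : l.Prime) {G : Type} [Group G] (hZ : Zt l G) (u : (ZMod l)ˣ)
    (c : Ncl l G) (h : dbmAct u c = c) : u = 1 := by
  obtain ⟨g, hg, ho⟩ := c.2
  have hgl : g ^ l = 1 := by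
    rw [← ho]
    exact pow_orderOf_eq_one g
  have h1 := congrArg Subtype.val h
  rw [dbmAct_mk u c g hg, ← hg] at h1
  obtain ⟨x, hx⟩ := isConj_iff.1 (ConjClasses.mk_eq_mk_iff_isConj.1 h1.symm)
  have hcop := ZMod.val_coe_unit_coprime u
  have : NeZero l := ⟨hl.ne_zero⟩
  have hlt : (u : ZMod l).val < l := ZMod.val_lt _
  have hpos : 0 < (u : ZMod l).val := by
    rcases Nat.eq_zero_or_pos (u : ZMod l).val with h0 | h0
    · rw [h0, Nat.coprime_zero_left] at hcop
      exact absurd hcop hl.one_lt.ne'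
    · exact h0
  -- the commutator is central
  have h2 : g ∈ Subgroup.upperCentralSeries G (1 + 1) := hZ g hgl
  have h3 : g * x⁻¹ * g⁻¹ * x ∈ Subgroup.center G := by
    have h4 := Subgroup.mem_upperCentralSeries_succ_iff.1 h2 x⁻¹
    rw [Subgroup.upperCentralSeries_one] at h4
    have h5 : g * x⁻¹ * g⁻¹ * x⁻¹⁻¹ ∈ Subgroup.center G := h4
    rwa [inv_inv] at h5
  have hval : (u : ZMod l).val = 1 := by
    by_contra hne
    -- a power of `g` with exponent prime to `l` is central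
    have h4 : g ^ ((u : ZMod l).val - 1) ∈ Subgroup.center G := by
      have h5 : g ^ ((u : ZMod l).val - 1) * g = g ^ (u : ZMod l).val := by
        rw [← pow_succ]
        congr 1
        omega
      have h6 : g ^ ((u : ZMod l).val - 1) = x * g * x⁻¹ * g⁻¹ := by
        rw [hx, ← h5, mul_assoc, mul_inv_cancel, mul_one]
      have h7 : x * g * x⁻¹ * g⁻¹ = g * x⁻¹ * g⁻¹ * x := by
        have h8 := Subgroup.mem_center_iff.1 h3 x
        calc x * g * x⁻¹ * g⁻¹ = x * (g * x⁻¹ * g⁻¹ * x) * x⁻¹ := by group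
          _ = g * x⁻¹ * g⁻¹ * x * x * x⁻¹ := by rw [h8]
          _ = g * x⁻¹ * g⁻¹ * x := by group
      rw [h6, h7]
      exact h3
    have h5 : l.Coprime ((u : ZMod l).val - 1) := by
      rw [Nat.Prime.coprime_iff_not_dvd hl]
      intro hd
      have := Nat.le_of_dvd (by omega) hd
      omega
    have h6 : g ∈ Subgroup.center G := by
      obtain ⟨m, hm⟩ : ∃ m : ℕ, (g ^ ((u : ZMod l).val - 1)) ^ m = g :=
        exists_pow_eq_self_of_coprime (by rw [ho]; exact h5.symm)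
      rw [← hm]
      exact Subgroup.pow_mem _ h4 m
    have h7 : g ^ (u : ZMod l).val = g := by
      rw [← hx, Subgroup.mem_center_iff.1 h6 x, mul_assoc, mul_inv_cancel, mul_one]
    have h8 : g ^ ((u : ZMod l).val - 1) = 1 := by
      have h9 : g ^ ((u : ZMod l).val - 1) * g = 1 * g := by
        rw [← pow_succ, one_mul, Nat.sub_add_cancel hpos]
        exact h7
      exact mul_right_cancel h9
    have h9 := orderOf_dvd_of_pow_eq_one h8
    rw [ho] at h9
    have := Nat.le_of_dvd (by omega) h9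
    omega
  apply Units.ext
  apply ZMod.val_injective l
  rw [hval, dbm_val_one hl]

end

/-! ### the relation -/

theorem dbm_rel {k : Type} [Field k] [CharZero k] {n : ℕ} {G : Subgroup (Equiv.Perm (Fin n))}
    (hn : Nat.card G = n) (hn1 : 1 < n) {l : ℕ} (hl : l.Prime) (hln : l ∣ n)
    (c c' : ConjClasses G) (hc : ∃ g : G, ConjClasses.mk g = c ∧ orderOf g = l) :
    (∃ (σ : AlgebraicClosure k ≃ₐ[k] AlgebraicClosure k) (j : ℕ),
      (∀ ζ : AlgebraicClosure k, ζ ^ Nat.card G = 1 → σ ζ = ζ ^ j) ∧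
      ∃ g : G, ConjClasses.mk g = c ∧ ConjClasses.mk (g ^ j) = c') ↔
    ∃ u ∈ cyc k l, (dbmAct u (⟨c, hc⟩ : Ncl l G)).1 = c' := by
  have : NeZero n := ⟨by omega⟩
  have : NeZero l := ⟨hl.ne_zero⟩
  obtain ⟨w, hw⟩ := HasEnoughRootsOfUnity.exists_primitiveRoot (AlgebraicClosure k) l
  constructor
  · rintro ⟨σ, j, hσ, g, hg, hg'⟩
    have hσl : ∀ ζ : AlgebraicClosure k, ζ ^ l = 1 → σ ζ = ζ ^ j := by
      intro ζ hζ
      apply hσ
      rw [hn]
      obtain ⟨m, rfl⟩ := hln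
      rw [pow_mul, hζ, one_pow]
    have hw2 : IsPrimitiveRoot (w ^ j) l := by
      rw [← hσl w hw.pow_eq_one]
      exact hw.map_of_injective σ.injective
    have hj : j.Coprime l := (hw.pow_iff_coprime hl.pos j).1 hw2
    refine ⟨ZMod.unitOfCoprime j hj, ⟨σ, fun ζ hζ => ?_⟩, ?_⟩
    · rw [hσl ζ hζ]
      refine dbm_pow hζ ?_
      rw [ZMod.coe_unitOfCoprime, ZMod.val_natCast]
      exact (Nat.mod_modEq _ _).symm
    · rw [dbmAct_mk _ _ g hg, ← hg']
      have hgl : g ^ l = 1 := by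
        have h1 := dbm_ord (⟨c, hc⟩ : Ncl l G) g hg
        rw [← h1]
        exact pow_orderOf_eq_one g
      have h1 : g ^ ((ZMod.unitOfCoprime j hj : (ZMod l)ˣ) : ZMod l).val = g ^ j := by
        refine dbm_pow hgl ?_
        rw [ZMod.coe_unitOfCoprime, ZMod.val_natCast]
        exact Nat.mod_modEq _ _
      rw [h1]
  · rintro ⟨u, ⟨σ, hσ⟩, hu⟩
    obtain ⟨ξ, hξ⟩ := HasEnoughRootsOfUnity.exists_primitiveRoot (AlgebraicClosure k) n
    have h1 : (σ ξ) ^ n = 1 := by
      rw [← map_pow, hξ.pow_eq_one, map_one]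
    obtain ⟨j, -, hj⟩ := hξ.eq_pow_of_pow_eq_one h1
    have h2 : ∀ ζ : AlgebraicClosure k, ζ ^ n = 1 → σ ζ = ζ ^ j := by
      intro ζ hζ
      obtain ⟨i, -, rfl⟩ := hξ.eq_pow_of_pow_eq_one hζ
      rw [map_pow, ← hj, ← pow_mul, ← pow_mul, mul_comm]
    have h3 : j ≡ (u : ZMod l).val [MOD l] := by
      have h4 : w ^ j = w ^ (u : ZMod l).val := by
        rw [← hσ w hw.pow_eq_one]
        refine (h2 w ?_).symm
        obtain ⟨m, rfl⟩ := hln
        rw [pow_mul, hw.pow_eq_one, one_pow]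
      have h5 : w ^ (j % l) = w ^ ((u : ZMod l).val % l) := by
        rw [← pow_eq_pow_mod j hw.pow_eq_one, ← pow_eq_pow_mod _ hw.pow_eq_one]
        exact h4
      exact hw.pow_inj (Nat.mod_lt _ hl.pos) (Nat.mod_lt _ hl.pos) h5
    obtain ⟨g, hg, ho⟩ := hc
    refine ⟨σ, j, fun ζ hζ => h2 ζ (by rw [← hn]; exact hζ), g, hg, ?_⟩
    have hgl : g ^ l = 1 := by
      rw [← ho]
      exact pow_orderOf_eq_one g
    rw [dbm_pow hgl h3, ← hu]
    exact (dbmAct_mk u (⟨c, ⟨g, hg, ho⟩⟩ : Ncl l G) g hg).symm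

/-- D16: the number of classes of least index up to the cyclotomic action -/
theorem sbM (h : SmI) : SbM := by
  intro k _ _ n G hG hn hn1 hZ
  have hl : n.minFac.Prime := Nat.minFac_prime (by omega)
  have hln : n.minFac ∣ n := Nat.minFac_dvd n
  have hn0 : 0 < n := by omega
  obtain ⟨hp, hm⟩ := h n G hG hn hn1
  -- the classes of least index
  have key : ∀ g : G, (g ≠ 1 ∧ pind (g : Equiv.Perm (Fin n)) = mInd G) ↔
      orderOf g = n.minFac := by
    intro g
    rw [hp g g.2, hm, Subgroup.orderOf_coe]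
    have hd : orderOf g ∣ n := by
      have h0 := orderOf_dvd_natCard g
      rwa [hn] at h0
    have ho0 : 0 < orderOf g := Nat.pos_of_dvd_of_pos hd hn0
    constructor
    · rintro ⟨h1, h2⟩
      have h3 : n / orderOf g = n / n.minFac := by
        have h4 := Nat.div_le_self n (orderOf g)
        have h5 := Nat.div_le_self n n.minFac
        omega
      have h4 := Nat.div_mul_cancel hd
      have h5 := Nat.div_mul_cancel hln
      rw [h3] at h4
      have h6 : 0 < n / n.minFac := Nat.div_pos (Nat.minFac_le hn0) hl.pos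
      exact Nat.eq_of_mul_eq_mul_left h6 (h4.trans h5.symm)
    · intro h1
      refine ⟨?_, by rw [h1]⟩
      rintro rfl
      rw [orderOf_one] at h1
      exact hl.one_lt.ne h1
  let e : MinCl G ≃ Ncl n.minFac G := Equiv.subtypeEquivRight fun c => by
    constructor
    · rintro ⟨g, h1, h2, h3⟩
      exact ⟨g, h1, (key g).1 ⟨h2, h3⟩⟩
    · rintro ⟨g, h1, h2⟩
      exact ⟨g, h1, ((key g).2 h2).1, ((key g).2 h2).2⟩
  let _ : MulAction (dbmH k hl) (Ncl n.minFac G) := dbmMA hl G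
  have hfree : ∀ c : Ncl n.minFac G, MulAction.stabilizer (dbmH k hl) c = ⊥ := by
    intro c
    rw [eq_bot_iff]
    intro u hu
    rw [Subgroup.mem_bot]
    apply Subtype.ext
    exact dbm_free hl hZ u.1 c hu
  have e1 := MulAction.selfEquivOrbitsQuotientProd hfree
  have e2 : Quot (cycRel k G) ≃ Quotient (MulAction.orbitRel (dbmH k hl) (Ncl n.minFac G)) := by
    refine Quot.congr e fun c c' => ?_
    have h1 := dbm_rel (k := k) hn hn1 hl hln c.1 c'.1 (e c).2
    have h2 : cycRel k G c c' ↔ ∃ u ∈ cyc k n.minFac,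
        (dbmAct u (⟨c.1, (e c).2⟩ : Ncl n.minFac G)).1 = c'.1 := h1
    rw [h2]
    show _ ↔ (MulAction.orbitRel (dbmH k hl) (Ncl n.minFac G)) (e c) (e c')
    rw [Setoid.comm', MulAction.orbitRel_apply]
    constructor
    · rintro ⟨u, hu, hcc⟩
      exact ⟨⟨u, hu⟩, Subtype.ext hcc⟩
    · rintro ⟨u, hu⟩
      exact ⟨u.1, u.2, congrArg Subtype.val hu⟩
  have h3 : Nat.card (Ncl n.minFac G) =
      Nat.card (Quotient (MulAction.orbitRel (dbmH k hl) (Ncl n.minFac G))) *
        Nat.card (dbmH k hl) := by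
    rw [← Nat.card_prod]
    exact Nat.card_congr e1
  rw [h3]
  congr 1
  exact Nat.card_congr e2

end Pool.Agent.H92.EL
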