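import Pool.Agent.H92.EL.GStm

/-!
# Project T4 (MP_a3214d): counting homomorphisms, odd `l`; the homomorphisms that are surjective
modulo the center but not surjective
-/

set_option autoImplicit false

open scoped BigOperators Topology
open NumberField IsDedekindDomain Filter

namespace Pool.Agent.H92.EL

open Pool.Agent.H98.MF (Gm Dec nrm rdN fld)
open SysL (VV BD)

/-! ### families of primes -/

section

variable {l : ℕ} [Fact l.Prime] (S : SysL l)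

private theorem g8d_mem_un {ι : Type} [Fintype ι] {x : ι → Finset S.P} {p : S.P} :
    p ∈ S.un x ↔ ∃ u, p ∈ x u := by
  unfold SysL.un
  rw [Finset.mem_biUnion]
  simp

private theorem g8d_nm_un {ι : Type} [Fintype ι] {x : ι → Finset S.P} (hx : S.Gd x) :
    ∏ u, S.nm (x u) = ∏ p ∈ S.un x, S.N p := by
  classical
  unfold SysL.un
  rw [Finset.prod_biUnion]
  · rfl
  · intro u _ v _ huv
    rw [Function.onFun, Finset.disjoint_left]
    intro p hp hq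
    exact huv (hx.2 u v p hp p hq 1 (S.ac_one p)).1

private theorem g8d_one_le_nm (x : Finset S.P) : 1 ≤ S.nm x :=
  Finset.one_le_prod' fun p _ => S.one_le_N p

private theorem g8d_bx {ι : Type} [Fintype ι] {x : ι → Finset S.P} {t : ℝ}
    (h : ((∏ u, S.nm (x u) : ℕ) : ℝ) ≤ t) (u : ι) : x u ∈ S.bx t := by
  classical
  have h1 : S.nm (x u) ≤ ∏ u, S.nm (x u) :=
    Finset.single_le_prod' (f := fun u => S.nm (x u)) (fun u _ => g8d_one_le_nm S _)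
      (Finset.mem_univ u)
  have h2 : (S.nm (x u) : ℝ) ≤ t := le_trans (by exact_mod_cast h1) h
  have h0 : 0 ≤ t := (Nat.cast_nonneg _).trans h2
  unfold Pool.Agent.H98.MF.Pre.bx
  rw [Finset.mem_filter, Finset.mem_powerset]
  refine ⟨fun p hp => ?_, h2⟩
  rw [S.mem_pr h0]
  have h3 : S.N p ≤ S.nm (x u) :=
    Finset.single_le_prod' (f := fun p => S.N p) (fun q _ => S.one_le_N q) hp
  exact le_trans (by exact_mod_cast h3) h2

end

/-! ### coordinates of the group -/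

section

variable {l : ℕ} [Fact l.Prime] {G : Type} [Group G] (C : Cd l G)

private theorem g8d_nn_zero : C.nn 0 0 = 1 := by
  have h := C.nn_mul 0 0 0 0
  rw [map_zero, smul_zero, add_zero, add_zero] at h
  simpa using h

private theorem g8d_nn_ne {v : VV l C.d} {z : VV l C.n} (h : v ≠ 0 ∨ z ≠ 0) : C.nn v z ≠ 1 := by
  intro h1
  rw [← g8d_nn_zero C] at h1
  obtain ⟨h2, h3⟩ := C.nn_inj _ _ _ _ h1
  rcases h with h | h
  · exact h h2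
  · exact h h3

private theorem g8d_pow (z : VV l C.n) (m : ℕ) : C.nn 0 z ^ m = C.nn 0 ((m : ZMod l) • z) := by
  induction m with
  | zero => rw [pow_zero, Nat.cast_zero, zero_smul, g8d_nn_zero]
  | succ m ih =>
    rw [pow_succ, ih, C.nn_mul, map_zero, smul_zero, add_zero, add_zero]
    congr 1
    push_cast
    rw [add_smul, one_smul]

end

/-! ### values at the tame generators -/

section

variable {k : Type} [Field k] [NumberField k] {l : ℕ} [Fact l.Prime] {T : TM k}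
  (Fr : FrI k l T.tau T.phi)

/-- the central part at a prime where the assignment does not live -/
private theorem g8d_cz {n : ℕ} (RZ : Finset (VV l n)) (u : Fin n → Fin Fr.U → ZMod l)
    {z : Fr.sys.P →₀ VV l n} (x : RZ → Finset Fr.sys.P) {P : HeightOneSpectrum (𝓞 k)}
    (hP : P ∉ Fr.S) (hz : ∀ p ∈ z.support, Fr.sys.rg p ∧ Fr.dn p ≠ P) :
    Fr.cz RZ u z x (T.tau P) = Fr.aa RZ u x (T.tau P) := by
  funext i
  unfold FrI.cz FrI.aa
  have h : (z.sum fun p v => v i * Fr.al p (T.tau P)) = 0 := by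
    unfold Finsupp.sum
    refine Finset.sum_eq_zero fun p hp => ?_
    show z p i * Fr.al p (T.tau P) = 0
    rw [Fr.al_tau p (hz p hp).1 P hP (Ne.symm (hz p hp).2), mul_zero]
  rw [h, add_zero]

/-- the product of the norms of the ramified primes -/
private theorem g8d_nO {ι ι' : Type} [Fintype ι] [Fintype ι'] {x : ι → Finset Fr.sys.P}
    {x' : ι' → Finset Fr.sys.P} (hx : Fr.sys.Gd x) (hx' : Fr.sys.Gd x')
    (ha : Fr.sys.Awy (Fr.sys.un x) x') {G : Type} [Group G] {ρ : Gm k →* G}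
    (hf : {P | P ∉ Fr.S ∧ ρ (T.tau P) ≠ 1}.Finite)
    (h1 : ∀ v, ∀ p ∈ x v, ρ (T.tau (Fr.dn p)) ≠ 1)
    (h2 : ∀ v, ∀ p ∈ x' v, ρ (T.tau (Fr.dn p)) ≠ 1) :
    (∏ u, Fr.sys.nm (x u)) * (∏ u, Fr.sys.nm (x' u)) ≤ nO T Fr.S ρ := by
  classical
  rw [g8d_nm_un _ hx, g8d_nm_un _ hx']
  have hd : Disjoint (Fr.sys.un x) (Fr.sys.un x') := by
    rw [Finset.disjoint_left]
    intro p hp hp'
    obtain ⟨v, hv⟩ := (g8d_mem_un _).1 hp'
    exact ha v p hv p hp 1 (Fr.sys.ac_one p)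
  rw [← Finset.prod_union hd]
  have hrg : ∀ p ∈ Fr.sys.un x ∪ Fr.sys.un x', Fr.sys.rg p := by
    intro p hp
    rcases Finset.mem_union.1 hp with hp | hp
    · obtain ⟨v, hv⟩ := (g8d_mem_un _).1 hp
      exact hx.1 v p hv
    · obtain ⟨v, hv⟩ := (g8d_mem_un _).1 hp
      exact hx'.1 v p hv
  have hinj : ∀ p ∈ Fr.sys.un x ∪ Fr.sys.un x', ∀ q ∈ Fr.sys.un x ∪ Fr.sys.un x',
      Fr.dn p = Fr.dn q → p = q := by
    intro p hp q hq h
    rcases Finset.mem_union.1 hp with hp | hp <;> rcases Finset.mem_union.1 hq with hq | hq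
    · obtain ⟨v, hv⟩ := (g8d_mem_un _).1 hp
      obtain ⟨w, hw⟩ := (g8d_mem_un _).1 hq
      obtain ⟨g, hg⟩ := (Fr.dn_eq p q).1 h
      exact (hx.2 v w p hv q hw g hg).2
    · obtain ⟨w, hw⟩ := (g8d_mem_un _).1 hq
      obtain ⟨g, hg⟩ := (Fr.dn_eq q p).1 h.symm
      exact absurd hg (ha w q hw p hp g)
    · obtain ⟨v, hv⟩ := (g8d_mem_un _).1 hp
      obtain ⟨g, hg⟩ := (Fr.dn_eq p q).1 h
      exact absurd hg (ha v p hv q hq g)
    · obtain ⟨v, hv⟩ := (g8d_mem_un _).1 hp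
      obtain ⟨w, hw⟩ := (g8d_mem_un _).1 hq
      obtain ⟨g, hg⟩ := (Fr.dn_eq p q).1 h
      exact (hx'.2 v w p hv q hw g hg).2
  have e1 : ∏ p ∈ Fr.sys.un x ∪ Fr.sys.un x', Fr.sys.N p =
      ∏ P ∈ (Fr.sys.un x ∪ Fr.sys.un x').image Fr.dn, nrm P := by
    rw [Finset.prod_image hinj]
    exact Finset.prod_congr rfl fun p hp => Fr.N_eq p (hrg p hp)
  rw [e1]
  unfold nO
  rw [finprod_mem_eq_finite_toFinset_prod _ hf]
  refine Finset.prod_le_prod_of_subset_of_one_le' ?_ ?_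
  · intro P hP
    obtain ⟨p, hp, rfl⟩ := Finset.mem_image.1 hP
    rw [Set.Finite.mem_toFinset]
    refine ⟨Fr.dn_not p, ?_⟩
    rcases Finset.mem_union.1 hp with hp | hp
    · obtain ⟨v, hv⟩ := (g8d_mem_un _).1 hp
      exact h1 v p hv
    · obtain ⟨v, hv⟩ := (g8d_mem_un _).1 hp
      exact h2 v p hv
  · intro P _ _
    have h3 : Ideal.absNorm P.asIdeal ≠ 0 := by
      rw [Ne, Ideal.absNorm_eq_zero_iff]
      exact P.ne_bot
    exact Nat.one_le_iff_ne_zero.2 h3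

variable {G : Type} [Group G] (C : Cd l G)

/-- the data of a homomorphism which is not surjective -/
private theorem g8d_data (h4 : SG4 Fr) (h4b : SG4b Fr) (h5 : SG5 Fr) (h6 : SG6 k C)
    (h7 : SG7 C Fr) (h8a : SG8a C Fr) {R : Finset (VV l C.d)} {RZ : Finset (VV l C.n)}
    (hR : Fr.sys.Rep R) (hRZ : Fr.sys.Rep RZ) (hC : Ctn Fr.S (Nat.card G)) {ρ0 : Gm k →* G}
    (h0 : IsLocallyConstant ρ0) (hu : Unr T Fr.S ρ0)
    (c0 : (Fin C.d → Fin Fr.U → ZMod l) → (R → Finset Fr.sys.P) → Gm k → VV l C.n)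
    (hc0 : ∀ y x, Fr.sys.Gd x → (∃ c, Lft C Fr R ρ0 y x c) → Lft C Fr R ρ0 y x (c0 y x) ∧
      ∀ P, P ∉ Fr.S → (∀ v : R, ∀ p ∈ x v, Fr.dn p ≠ P) → c0 y x (T.tau P) = 0)
    {ρ : Gm k →* G} {Y : ℝ}
    (hρ : ρ ∈ HS C T ρ0 (fun ρ => ¬ Function.Surjective ρ) Fr.S Y) :
    ∃ (y : Fin C.d → Fin Fr.U → ZMod l) (z0 : RZ) (x : R → Finset Fr.sys.P)
      (u : Fin C.n → Fin Fr.U → ZMod l) (z : Fr.sys.P →₀ VV l C.n)
      (x' : RZ → Finset Fr.sys.P),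
      (Fr.sys.Gd x ∧ Fr.sys.okc C.Bd R (Fr.oc C ρ0 y) x ∧
        Fr.gen C ρ0 R y (Fr.sys.pat x)) ∧
      (Fr.sys.Gd x' ∧ Fr.sys.Awy (Fr.sys.un x) x' ∧ x' z0 = ∅) ∧ z.support ⊆ Fr.sys.un x ∧
      (((∏ u, Fr.sys.nm (x u)) * ∏ u, Fr.sys.nm (x' u) : ℕ) : ℝ) ≤ Y ∧
      ∀ σ, ρ σ = C.nn (Fr.aa R y x σ) (c0 y x σ + Fr.cz RZ u z x' σ) * ρ0 σ := by
  classical
  obtain ⟨hlc, hsur, hcg, hns, hnO⟩ := hρ
  obtain ⟨a, c, ha, hc, hco, hval⟩ := (h6 ρ ρ0 h0).1 ⟨hlc, hcg⟩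
  obtain ⟨y, x, hx, hax, -⟩ := (h4 C.d R hR).2 a ha
  obtain rfl : a = Fr.aa R y x := funext hax
  have hL : Lft C Fr R ρ0 y x c := ⟨hc, hco⟩
  obtain ⟨hL0, hz0⟩ := hc0 y x hx ⟨c, hL⟩
  have hd : ∀ i, Hm fun σ => (fun σ => c σ - c0 y x σ) σ i := by
    intro i
    refine ⟨?_, ?_⟩
    · exact (hc.sub hL0.1).comp (fun v : VV l C.n => v i)
    · intro σ τ
      have e1 := hco σ (Subgroup.mem_top _) τ (Subgroup.mem_top _)
      have e2 := hL0.2 σ (Subgroup.mem_top _) τ (Subgroup.mem_top _)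
      show (c (σ * τ) - c0 y x (σ * τ)) i = (c σ - c0 y x σ) i + (c τ - c0 y x τ) i
      rw [e1, e2]
      simp only [Pi.sub_apply, Pi.add_apply]
      ring
  have hgu : Fr.sys.Gd (fun _ : Unit => Fr.sys.un x) := by
    refine ⟨fun _ p hp => ?_, fun _ _ p hp q hq g hg => ⟨rfl, ?_⟩⟩
    · obtain ⟨v, hv⟩ := (g8d_mem_un _).1 hp
      exact hx.1 v p hv
    · obtain ⟨v, hv⟩ := (g8d_mem_un _).1 hp
      obtain ⟨w, hw⟩ := (g8d_mem_un _).1 hq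
      exact (hx.2 v w p hv q hw g hg).2
  obtain ⟨u, z, x', hx', haw, hsp, hcz, -⟩ :=
    (h5 C.n RZ hRZ (Fr.sys.un x) hgu).2 (fun σ => c σ - c0 y x σ) hd
  have hval' : ∀ σ, ρ σ = C.nn (Fr.aa R y x σ) (c0 y x σ + Fr.cz RZ u z x' σ) * ρ0 σ := by
    intro σ
    have e1 : c σ - c0 y x σ = Fr.cz RZ u z x' σ := hcz σ
    rw [hval σ, ← e1, add_sub_cancel]
  -- values at the tame generators
  have hv1 : ∀ v, ∀ p ∈ x v, ρ (T.tau (Fr.dn p)) ≠ 1 := by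
    intro v p hp
    obtain ⟨t, ht, hta⟩ := (h4b C.d R hR y x hx).1 v p hp
    rw [hval', hu _ (Fr.dn_not p), mul_one]
    refine g8d_nn_ne C (Or.inl ?_)
    rw [hta]
    exact smul_ne_zero ht fun h => hR.nz (h ▸ v.2)
  have hv2 : ∀ P, P ∉ Fr.S → (∀ v : R, ∀ p ∈ x v, Fr.dn p ≠ P) →
      ρ (T.tau P) = C.nn 0 (Fr.aa RZ u x' (T.tau P)) := by
    intro P hP hPx
    rw [hval', hu _ hP, mul_one, (h4b C.d R hR y x hx).2.1 P hP hPx, hz0 P hP hPx, zero_add,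
      g8d_cz Fr RZ u x' hP]
    intro p hp
    obtain ⟨v, hv⟩ := (g8d_mem_un _).1 (hsp hp)
    exact ⟨hx.1 v p hv, hPx v p hv⟩
  have hv3 : ∀ v, ∀ p ∈ x' v, ∃ t : ZMod l, t ≠ 0 ∧
      ρ (T.tau (Fr.dn p)) = C.nn 0 (t • (v : VV l C.n)) := by
    intro v p hp
    obtain ⟨t, ht, hta⟩ := (h4b C.n RZ hRZ u x' hx').1 v p hp
    refine ⟨t, ht, ?_⟩
    rw [hv2 _ (Fr.dn_not p), hta]
    intro w q hq h
    obtain ⟨g, hg⟩ := (Fr.dn_eq p q).1 h.symm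
    exact haw v p hp q ((g8d_mem_un _).2 ⟨w, hq⟩) g hg
  have hv4 : ∀ v, ∀ p ∈ x' v, ρ (T.tau (Fr.dn p)) ≠ 1 := by
    intro v p hp
    obtain ⟨t, ht, hta⟩ := hv3 v p hp
    rw [hta]
    exact g8d_nn_ne C (Or.inr (smul_ne_zero ht fun h => hRZ.nz (h ▸ v.2)))
  have hf : {P | P ∉ Fr.S ∧ ρ (T.tau P) ≠ 1}.Finite := by
    refine Set.Finite.subset ((((Fr.sys.un x).image Fr.dn).finite_toSet).union
      (Set.finite_iUnion fun i : Fin C.n => Fr.fin (fun σ => Fr.aa RZ u x' σ i)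
        ((h4 C.n RZ hRZ).1 u x' hx' i))) ?_
    rintro P ⟨hP, hP1⟩
    by_cases hPx : ∀ v : R, ∀ p ∈ x v, Fr.dn p ≠ P
    · right
      rw [hv2 P hP hPx] at hP1
      by_contra h
      apply hP1
      have h1 : Fr.aa RZ u x' (T.tau P) = 0 := by
        funext i
        by_contra h2
        exact h (Set.mem_iUnion.2 ⟨i, h2⟩)
      rw [h1, g8d_nn_zero]
    · left
      push Not at hPx
      obtain ⟨v, p, hp, h⟩ := hPx
      exact Finset.mem_coe.2 (Finset.mem_image.2 ⟨p, (g8d_mem_un _).2 ⟨v, hp⟩, h⟩)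
  -- a central vector which does not occur
  have hz1 : ∃ z0 : RZ, x' z0 = ∅ := by
    by_contra hne
    push Not at hne
    have hrange : ∀ w : VV l C.n, C.nn 0 w ∈ ρ.range := by
      intro w
      by_cases hw : w = 0
      · rw [hw, g8d_nn_zero]
        exact ρ.range.one_mem
      · obtain ⟨v, hv, g, hg⟩ := hRZ.ex w hw
        obtain ⟨p, hp⟩ := hne ⟨v, hv⟩
        obtain ⟨t, ht, hta⟩ := hv3 ⟨v, hv⟩ p hp
        have h1 : ρ (T.tau (Fr.dn p)) ^ ((Fr.sys.e g : ZMod l) * t⁻¹).val ∈ ρ.range :=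
          ρ.range.pow_mem ⟨_, rfl⟩ _
        rw [hta, g8d_pow, ZMod.natCast_val, ZMod.cast_id, smul_smul, mul_assoc,
          inv_mul_cancel₀ ht, mul_one] at h1
        rw [hg]
        exact h1
    apply hns
    rw [← MonoidHom.range_eq_top, eq_top_iff]
    have hs : Subgroup.closure (Set.range ρ ∪ {g | ∃ z, g = C.nn 0 z}) = ⊤ := hsur
    rw [← hs, Subgroup.closure_le]
    rintro g (⟨σ, rfl⟩ | ⟨w, rfl⟩)
    · exact ⟨σ, rfl⟩
    · exact hrange w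
  obtain ⟨z0, hz0e⟩ := hz1
  refine ⟨y, z0, x, u, z, x', ⟨hx, ?_, ?_⟩, ⟨hx', haw, hz0e⟩, hsp, ?_, hval'⟩
  · exact ((h7 R hR hC ρ0 h0 hu y x hx).1 ⟨c, hc, hco⟩).2
  · exact (h8a R hR ρ0 ρ h0 hlc hu y x c hx hval).1 hsur
  · exact le_trans (by exact_mod_cast g8d_nO Fr hx hx' haw hf hv1 hv4) hnO

end

/-- the homomorphisms that are surjective modulo the center but not surjective -/
theorem sg8d {k : Type} [Field k] [NumberField k] {l : ℕ} [Fact l.Prime] {T : TM k}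
    {G : Type} [Group G] (_hG : Nl l G) (C : Cd l G) (Fr : FrI k l T.tau T.phi)
    (h4 : SG4 Fr) (h4b : SG4b Fr) (h5 : SG5 Fr) (h6 : SG6 k C) (_h6b : SG6b k C)
    (h7 : SG7 C Fr) (h8a : SG8a C Fr) (h8r : SG8r C Fr) : SG8d C Fr := by
  classical
  intro R RZ hR hRZ hC ρ0 h0 hu Y _
  have hch : ∀ (y : Fin C.d → Fin Fr.U → ZMod l) (x : R → Finset Fr.sys.P),
      ∃ c0 : Gm k → VV l C.n, Fr.sys.Gd x → (∃ c, Lft C Fr R ρ0 y x c) →
        Lft C Fr R ρ0 y x c0 ∧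
          ∀ P, P ∉ Fr.S → (∀ v : R, ∀ p ∈ x v, Fr.dn p ≠ P) → c0 (T.tau P) = 0 := by
    intro y x
    by_cases h : Fr.sys.Gd x ∧ ∃ c, Lft C Fr R ρ0 y x c
    · obtain ⟨c, hc⟩ := h8r R hR hC ρ0 h0 hu y x h.1 h.2
      exact ⟨c, fun _ _ => hc⟩
    · exact ⟨0, fun h1 h2 => absurd ⟨h1, h2⟩ h⟩
  choose c0 hc0 using hch
  -- the homomorphism of the data
  let Ψ : (Σ _ : (Fin C.d → Fin Fr.U → ZMod l) × RZ, Σ _ : R → Finset Fr.sys.P,
      (Fin C.n → Fin Fr.U → ZMod l) × (Fr.sys.P →₀ VV l C.n) × (RZ → Finset Fr.sys.P)) →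
      (Gm k →* G) := fun w =>
    if h : ∃ ρ : Gm k →* G, ∀ σ, ρ σ = C.nn (Fr.aa R w.1.1 w.2.1 σ)
      (c0 w.1.1 w.2.1 σ + Fr.cz RZ w.2.2.1 w.2.2.2.1 w.2.2.2.2 σ) * ρ0 σ then h.choose else 1
  let D2 : (a : (Fin C.d → Fin Fr.U → ZMod l) × RZ) → (x : R → Finset Fr.sys.P) →
      Finset (RZ → Finset Fr.sys.P) := fun a x =>
    (Fintype.piFinset (fun _ : RZ =>
      Fr.sys.bx (Y / (∏ u, Fr.sys.nm (x u) : ℕ)))).filter fun x' =>
        Fr.sys.Gd x' ∧ Fr.sys.Awy (Fr.sys.un x) x' ∧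
          ((∏ u, Fr.sys.nm (x' u) : ℕ) : ℝ) ≤ Y / (∏ u, Fr.sys.nm (x u) : ℕ) ∧ x' a.2 = ∅
  let D1 : (Fin C.d → Fin Fr.U → ZMod l) → Finset (R → Finset Fr.sys.P) := fun y =>
    (Fintype.piFinset (fun _ : R => Fr.sys.bx Y)).filter fun x =>
      Fr.sys.Gd x ∧ Fr.sys.okc C.Bd R (Fr.oc C ρ0 y) x ∧ Fr.gen C ρ0 R y (Fr.sys.pat x) ∧
        ((∏ u, Fr.sys.nm (x u) : ℕ) : ℝ) ≤ Y
  let D : Finset (Σ _ : (Fin C.d → Fin Fr.U → ZMod l) × RZ, Σ _ : R → Finset Fr.sys.P,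
      (Fin C.n → Fin Fr.U → ZMod l) × (Fr.sys.P →₀ VV l C.n) × (RZ → Finset Fr.sys.P)) :=
    (Finset.univ : Finset ((Fin C.d → Fin Fr.U → ZMod l) × RZ)).sigma fun a =>
      (D1 a.1).sigma fun x => (Finset.univ : Finset (Fin C.n → Fin Fr.U → ZMod l)) ×ˢ
        (Fr.sys.asg C.n (Fr.sys.un x)) ×ˢ D2 a x
  have hsub : HS C T ρ0 (fun ρ => ¬ Function.Surjective ρ) Fr.S Y ⊆
      ((D.image Ψ : Finset (Gm k →* G)) : Set (Gm k →* G)) := by
    intro ρ hρ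
    obtain ⟨y, z0, x, u, z, x', ⟨hx, hok, hgen⟩, ⟨hx', haw, hz0⟩, hsp, hnm, hval⟩ :=
      g8d_data Fr C h4 h4b h5 h6 h7 h8a hR hRZ hC h0 hu c0 hc0 hρ
    have n1 : 1 ≤ ∏ u, Fr.sys.nm (x u) := Finset.one_le_prod' fun v _ => g8d_one_le_nm _ _
    have n2 : 1 ≤ ∏ u, Fr.sys.nm (x' u) := Finset.one_le_prod' fun v _ => g8d_one_le_nm _ _
    have m1 : ((∏ u, Fr.sys.nm (x u) : ℕ) : ℝ) ≤ Y := by
      refine le_trans ?_ hnm
      exact_mod_cast Nat.le_mul_of_pos_right _ n2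
    have m2 : ((∏ u, Fr.sys.nm (x' u) : ℕ) : ℝ) ≤ Y / (∏ u, Fr.sys.nm (x u) : ℕ) := by
      rw [le_div_iff₀ (by exact_mod_cast n1), mul_comm]
      exact_mod_cast hnm
    have hmem : (⟨(y, z0), ⟨x, (u, z, x')⟩⟩ : Σ _ : (Fin C.d → Fin Fr.U → ZMod l) × RZ,
        Σ _ : R → Finset Fr.sys.P, (Fin C.n → Fin Fr.U → ZMod l) × (Fr.sys.P →₀ VV l C.n) ×
          (RZ → Finset Fr.sys.P)) ∈ D := by
      refine Finset.mem_sigma.2 ⟨Finset.mem_univ _, Finset.mem_sigma.2 ⟨?_,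
        Finset.mem_product.2 ⟨Finset.mem_univ _, Finset.mem_product.2 ⟨?_, ?_⟩⟩⟩⟩
      · exact Finset.mem_filter.2 ⟨Fintype.mem_piFinset.2 (g8d_bx _ m1), hx, hok, hgen, m1⟩
      · exact Finset.mem_finsupp_iff.2 ⟨hsp, fun _ _ => Finset.mem_univ _⟩
      · exact Finset.mem_filter.2 ⟨Fintype.mem_piFinset.2 (g8d_bx _ m2), hx', haw, m2, hz0⟩
    refine Finset.mem_coe.2 (Finset.mem_image.2 ⟨_, hmem, ?_⟩)
    have hex : ∃ ρ : Gm k →* G, ∀ σ, ρ σ = C.nn (Fr.aa R y x σ)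
      (c0 y x σ + Fr.cz RZ u z x' σ) * ρ0 σ := ⟨ρ, hval⟩
    have h1 : Ψ ⟨(y, z0), ⟨x, (u, z, x')⟩⟩ = hex.choose := dif_pos hex
    rw [h1]
    ext σ
    rw [hex.choose_spec σ, hval σ]
  have h1 : (HS C T ρ0 (fun ρ => ¬ Function.Surjective ρ) Fr.S Y).ncard ≤ D.card := by
    refine (Set.ncard_le_ncard hsub (Finset.finite_toSet _)).trans ?_
    rw [Set.ncard_coe_finset]
    exact Finset.card_image_le
  refine le_trans (Nat.cast_le.2 h1) (le_of_eq ?_)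
  -- the number of data
  have hU : ((Finset.univ : Finset (Fin C.n → Fin Fr.U → ZMod l)).card : ℝ) =
      ((l : ℝ) ^ Fr.U) ^ C.n := by
    rw [Finset.card_univ, Fintype.card_fun, Fintype.card_fun, ZMod.card, Fintype.card_fin,
      Fintype.card_fin]
    push_cast
    rfl
  have hCE : ∀ (a : (Fin C.d → Fin Fr.U → ZMod l) × RZ) (x : R → Finset Fr.sys.P),
      ((D2 a x).card : ℝ) = Fr.sys.CE a.2 (Fr.sys.un x) (Y / (∏ u, Fr.sys.nm (x u) : ℕ)) := by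
    intro a x
    unfold SysL.CE
    rw [Finset.card_filter, Nat.cast_sum]
    refine Finset.sum_congr (congrArg (fun (i : DecidableEq RZ) => @Fintype.piFinset RZ i _ _
      (fun _ : RZ => Fr.sys.bx (Y / (∏ u, Fr.sys.nm (x u) : ℕ)))) (Subsingleton.elim _ _))
      fun x' _ => ?_
    by_cases h : Fr.sys.Gd x' ∧ Fr.sys.Awy (Fr.sys.un x) x' ∧
          ((∏ u, Fr.sys.nm (x' u) : ℕ) : ℝ) ≤ Y / (∏ u, Fr.sys.nm (x u) : ℕ) ∧ x' a.2 = ∅
    · rw [if_pos h, if_pos h, Nat.cast_one]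
    · rw [if_neg h, if_neg h, Nat.cast_zero]
  have hNE : ∀ a : (Fin C.d → Fin Fr.U → ZMod l) × RZ,
      ((((D1 a.1).sigma fun x => (Finset.univ : Finset (Fin C.n → Fin Fr.U → ZMod l)) ×ˢ
        (Fr.sys.asg C.n (Fr.sys.un x)) ×ˢ D2 a x).card : ℕ) : ℝ) =
        ((l : ℝ) ^ Fr.U) ^ C.n *
          Fr.sys.NE C.Bd R RZ (Fr.oc C ρ0 a.1) (Fr.gen C ρ0 R a.1) a.2 Y := by
    intro a
    unfold SysL.NE
    rw [Finset.card_sigma, Nat.cast_sum, Finset.sum_filter, Finset.mul_sum]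
    refine Finset.sum_congr rfl fun x _ => ?_
    by_cases h : Fr.sys.Gd x ∧ Fr.sys.okc C.Bd R (Fr.oc C ρ0 a.1) x ∧
        Fr.gen C ρ0 R a.1 (Fr.sys.pat x) ∧ ((∏ u, Fr.sys.nm (x u) : ℕ) : ℝ) ≤ Y
    · rw [if_pos h, if_pos h, Finset.card_product, Finset.card_product, Nat.cast_mul,
        Nat.cast_mul, hU, hCE]
    · rw [if_neg h, if_neg h, mul_zero]
  rw [Finset.card_sigma, Nat.cast_sum, Finset.mul_sum, Fintype.sum_prod_type]
  refine Finset.sum_congr rfl fun y _ => ?_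
  rw [Finset.mul_sum]
  exact Finset.sum_congr rfl fun z0 _ => hNE (y, z0)

end Pool.Agent.H92.EL
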