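import Pool.Agent.H92.EL.GDefs
import Pool.Agent.H92.EL.ZStm

/-!
# Project T4 (MP_a3214d): counting homomorphisms, odd `l`; from the analytic statements and the
frames to `InnF` and `InnU`
-/

set_option autoImplicit false

open scoped BigOperators Topology
open NumberField IsDedekindDomain Filter

namespace Pool.Agent.H92.EL

open Pool.Agent.H98.MF (Gm Dec nrm rdN fld)
open SysL (VV BD)

section

variable {k : Type} [Field k] [NumberField k] {l : ℕ} [Fact l.Prime] {T : TM k}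

/-! ### coordinates of homomorphisms -/

/-- G4: coordinates of a homomorphism to a vector space -/
def SG4 (Fr : FrI k l T.tau T.phi) : Prop := ∀ (d : ℕ) (R : Finset (VV l d)), Fr.sys.Rep R →
  (∀ y x, Fr.sys.Gd x → ∀ i, Hm fun σ => Fr.aa R y x σ i) ∧
  ∀ a : Gm k → VV l d, (∀ i, Hm fun σ => a σ i) →
    ∃ y x, Fr.sys.Gd x ∧ (∀ σ, a σ = Fr.aa R y x σ) ∧
      ∀ y' x', Fr.sys.Gd x' → (∀ σ, a σ = Fr.aa R y' x' σ) → y' = y ∧ x' = x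

/-- G4b: the values at the tame generators and at the Frobenius elements -/
def SG4b (Fr : FrI k l T.tau T.phi) : Prop := ∀ (d : ℕ) (R : Finset (VV l d)), Fr.sys.Rep R →
  ∀ y x, Fr.sys.Gd x →
    (∀ v : R, ∀ p ∈ x v, ∃ t : ZMod l, t ≠ 0 ∧ Fr.aa R y x (T.tau (Fr.dn p)) = t • (v : VV l d)) ∧
    (∀ P, P ∉ Fr.S → (∀ v : R, ∀ p ∈ x v, Fr.dn p ≠ P) → Fr.aa R y x (T.tau P) = 0) ∧
    ∀ v : R, ∀ q ∈ x v, ∀ f : VV l d →ₗ[ZMod l] ZMod l, f v = 0 →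
      Fr.cc (Fr.dn q) * f (Fr.aa R y x (T.phi (Fr.dn q))) =
        Fr.cc (Fr.dn q) * f (fun i => Fr.un (y i) (T.phi (Fr.dn q))) +
          ∑ w : R, f w * ∑ p ∈ x w, Fr.sys.J p q

/-- G5: coordinates of a central homomorphism relative to a good set of primes -/
def SG5 (Fr : FrI k l T.tau T.phi) : Prop := ∀ (n : ℕ) (RZ : Finset (VV l n)),
  Fr.sys.Rep RZ → ∀ y0 : Finset Fr.sys.P, Fr.sys.Gd (fun _ : Unit => y0) →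
  (∀ u z x, Fr.sys.Gd x → z.support ⊆ y0 → ∀ i, Hm fun σ => Fr.cz RZ u z x σ i) ∧
  ∀ c : Gm k → VV l n, (∀ i, Hm fun σ => c σ i) →
    ∃ u z x, Fr.sys.Gd x ∧ Fr.sys.Awy y0 x ∧ z.support ⊆ y0 ∧ (∀ σ, c σ = Fr.cz RZ u z x σ) ∧
      ∀ u' z' x', Fr.sys.Gd x' → Fr.sys.Awy y0 x' → z'.support ⊆ y0 →
        (∀ σ, c σ = Fr.cz RZ u' z' x' σ) → u' = u ∧ z' = z ∧ x' = x

variable {G : Type} [Group G] (C : Cd l G)

/-- the cocycle relation on `D` -/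
def Coc (D : Subgroup (Gm k)) (ρ : Gm k →* G) (a : Gm k → VV l C.d) (c : Gm k → VV l C.n) :
    Prop :=
  ∀ σ ∈ D, ∀ τ ∈ D, c (σ * τ) = c σ + c τ + (2 : ZMod l)⁻¹ • C.Bd.B (a σ) (a τ) +
    C.bp (ρ σ) (a τ)

/-- G6: homomorphisms with the same image modulo the elements of order `l` -/
def SG6 (k : Type) [Field k] [NumberField k] (C : Cd l G) : Prop := ∀ ρ ρ0 : Gm k →* G,
  IsLocallyConstant ρ0 →
  ((IsLocallyConstant ρ ∧ Cg l ρ ρ0) ↔ ∃ (a : Gm k → VV l C.d) (c : Gm k → VV l C.n),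
    (∀ i, Hm fun σ => a σ i) ∧ IsLocallyConstant c ∧ Coc C ⊤ ρ0 a c ∧
      ∀ σ, ρ σ = C.nn (a σ) (c σ) * ρ0 σ)

/-- G6b: every cocycle gives a homomorphism -/
def SG6b (k : Type) [Field k] [NumberField k] (C : Cd l G) : Prop := ∀ (ρ0 : Gm k →* G)
  (a : Gm k → VV l C.d) (c : Gm k → VV l C.n), IsLocallyConstant ρ0 →
  (∀ i, Hm fun σ => a σ i) → IsLocallyConstant c → Coc C ⊤ ρ0 a c →
    ∃ ρ : Gm k →* G, IsLocallyConstant ρ ∧ ∀ σ, ρ σ = C.nn (a σ) (c σ) * ρ0 σ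

/-- unramified outside `S` -/
def Unr (T : TM k) (S : Finset (HeightOneSpectrum (𝓞 k))) (ρ : Gm k →* G) : Prop :=
  ∀ P, P ∉ S → ρ (T.tau P) = 1

/-- G7: the obstruction -/
def SG7 (Fr : FrI k l T.tau T.phi) : Prop := ∀ R : Finset (VV l C.d), Fr.sys.Rep R →
  Ctn Fr.S (Nat.card G) → ∀ ρ0 : Gm k →* G, IsLocallyConstant ρ0 → Unr T Fr.S ρ0 →
  ∀ y x, Fr.sys.Gd x →
    ((∃ c : Gm k → VV l C.n, IsLocallyConstant c ∧ Coc C ⊤ ρ0 (Fr.aa R y x) c) ↔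
      ((∀ P ∈ Fr.S, ∃ c : Gm k → VV l C.n, IsLocallyConstant c ∧
        Coc C (Dec P) ρ0 (Fr.aa R y x) c) ∧
      Fr.sys.okc C.Bd R (Fr.oc C ρ0 y) x))

/-- surjective modulo the central elements of order `l` -/
def Sur0 (ρ : Gm k →* G) : Prop :=
  Subgroup.closure (Set.range ρ ∪ {g | ∃ z, g = C.nn 0 z}) = ⊤

/-- G8a: surjectivity is a condition on the pattern -/
def SG8a (Fr : FrI k l T.tau T.phi) : Prop := ∀ R : Finset (VV l C.d), Fr.sys.Rep R →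
  ∀ ρ0 ρ : Gm k →* G, IsLocallyConstant ρ0 → IsLocallyConstant ρ → Unr T Fr.S ρ0 →
  ∀ y x, ∀ c : Gm k → VV l C.n, Fr.sys.Gd x →
    (∀ σ, ρ σ = C.nn (Fr.aa R y x σ) (c σ) * ρ0 σ) →
    (Sur0 C ρ ↔ Fr.gen C ρ0 R y (Fr.sys.pat x))

/-- G8b: the outer characters of a base homomorphism unramified outside `S` -/
def SG8b (Fr : FrI k l T.tau T.phi) : Prop := ∀ R : Finset (VV l C.d), Fr.sys.Rep R →
  ∀ ρ0 : Gm k →* G, IsLocallyConstant ρ0 → Unr T Fr.S ρ0 → ∀ y,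
  ∃ c : VV l C.d → VV l C.n → Fr.sys.T, (∀ v ζ ζ', c v (ζ + ζ') = c v ζ + c v ζ') ∧
    Fr.oc C ρ0 y = Fr.sys.cT c ∧ Fr.sys.Gen C.Bd R (Fr.sys.cT c) (Fr.gen C ρ0 R y) ∧
    ((∃ U, Fr.gen C ρ0 R y U) → Fr.gen C ρ0 R y Finset.univ ∧
      Fr.sys.bV C.Bd R (Fr.sys.cT c) = ∑ v ∈ R, C.kc v)

/-- the homomorphisms congruent to `ρ0`, surjective modulo the center, with a condition and
bounded ramification outside `S` -/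
def HS (T : TM k) (ρ0 : Gm k →* G) (H : (Gm k →* G) → Prop)
    (S : Finset (HeightOneSpectrum (𝓞 k))) (Y : ℝ) : Set (Gm k →* G) :=
  {ρ | IsLocallyConstant ρ ∧ Sur0 C ρ ∧ Cg l ρ ρ0 ∧ H ρ ∧ (nO T S ρ : ℝ) ≤ Y}

/-- `c` lifts the coordinates `y`, `x` relative to `ρ0` -/
def Lft (Fr : FrI k l T.tau T.phi) (R : Finset (VV l C.d)) (ρ0 : Gm k →* G)
    (y : Fin C.d → Fin Fr.U → ZMod l) (x : R → Finset Fr.sys.P) (c : Gm k → VV l C.n) : Prop :=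
  IsLocallyConstant c ∧ Coc C ⊤ ρ0 (Fr.aa R y x) c

/-- G8r: lifts unramified outside `S` and the primes of `x` -/
def SG8r (Fr : FrI k l T.tau T.phi) : Prop := ∀ R : Finset (VV l C.d), Fr.sys.Rep R →
  Ctn Fr.S (Nat.card G) → ∀ ρ0 : Gm k →* G, IsLocallyConstant ρ0 → Unr T Fr.S ρ0 →
  ∀ y x, Fr.sys.Gd x → (∃ c, Lft C Fr R ρ0 y x c) →
    ∃ c, Lft C Fr R ρ0 y x c ∧
      ∀ P, P ∉ Fr.S → (∀ v : R, ∀ p ∈ x v, Fr.dn p ≠ P) → c (T.tau P) = 0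

open Classical in
/-- G8g: the number of twists by units satisfying a local condition -/
def SG8g (Fr : FrI k l T.tau T.phi) : Prop := ∀ R : Finset (VV l C.d), Fr.sys.Rep R →
  Ctn Fr.S (Nat.card G) → ∀ ρ0 : Gm k →* G, IsLocallyConstant ρ0 → Unr T Fr.S ρ0 →
  ∀ H : (Gm k →* G) → Prop, HLo Fr.S H →
  ∀ c0 : (Fin C.d → Fin Fr.U → ZMod l) → (R → Finset Fr.sys.P) → Gm k → VV l C.n,
  (∀ y x, Fr.sys.Gd x → (∃ c, Lft C Fr R ρ0 y x c) → Lft C Fr R ρ0 y x (c0 y x)) →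
  ∃ (g : (Fin C.d → Fin Fr.U → ZMod l) → (R → Finset Fr.sys.P) → (Fin C.n → Fr.sys.T) → ℝ)
    (θ : (Fin C.d → Fin Fr.U → ZMod l) → (R → Fr.sys.T) → ℝ),
    (∀ y x t, 0 ≤ g y x t ∧ g y x t ≤ 1) ∧ (∀ y t, 0 ≤ θ y t) ∧
    (∀ y x, Fr.sys.Gd x → Fr.sys.okc C.Bd R (Fr.oc C ρ0 y) x →
      (1 / ((l : ℝ) ^ Fr.sys.m) ^ C.n) * ∑ t : Fin C.n → Fr.sys.T, g y x t =
        θ y (fun v => Fr.sys.tys (x v))) ∧
    (H ρ0 → 0 < θ 0 (fun _ => 0)) ∧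
    (∀ y x t, ¬ (Fr.sys.Gd x ∧ ∃ c, Lft C Fr R ρ0 y x c) → g y x t = 0) ∧
    ∀ y x t, Fr.sys.Gd x → (∃ c, Lft C Fr R ρ0 y x c) →
      ∀ ρu : (Fin C.n → Fin Fr.U → ZMod l) → (Gm k →* G),
      (∀ u σ, ρu u σ = C.nn (Fr.aa R y x σ)
        (c0 y x σ + fun i => Fr.un (u i) σ + Fr.lam (t i) σ) * ρ0 σ) →
        ((Finset.univ.filter fun u => H (ρu u)).card : ℝ) = g y x t * ((l : ℝ) ^ Fr.U) ^ C.n

/-- G8c: the count of the homomorphisms satisfying a local condition -/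
def SG8c (Fr : FrI k l T.tau T.phi) : Prop := ∀ (R : Finset (VV l C.d))
  (RZ : Finset (VV l C.n)), Fr.sys.Rep R → Fr.sys.Rep RZ → Ctn Fr.S (Nat.card G) →
  ∀ ρ0 : Gm k →* G, IsLocallyConstant ρ0 → Unr T Fr.S ρ0 →
  ∀ H : (Gm k →* G) → Prop, HLo Fr.S H →
  ∃ (g : (Fin C.d → Fin Fr.U → ZMod l) → (R → Finset Fr.sys.P) → (Fin C.n → Fr.sys.T) → ℝ)
    (θ : (Fin C.d → Fin Fr.U → ZMod l) → (R → Fr.sys.T) → ℝ),
    (∀ y x t, 0 ≤ g y x t ∧ g y x t ≤ 1) ∧ (∀ y t, 0 ≤ θ y t) ∧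
    (∀ y x, Fr.sys.Gd x → Fr.sys.okc C.Bd R (Fr.oc C ρ0 y) x →
      (1 / ((l : ℝ) ^ Fr.sys.m) ^ C.n) * ∑ t : Fin C.n → Fr.sys.T, g y x t =
        θ y (fun v => Fr.sys.tys (x v))) ∧
    (H ρ0 → 0 < θ 0 (fun _ => 0)) ∧
    ∀ Y : ℝ, 1 ≤ Y → (HS C T ρ0 H Fr.S Y).Finite ∧
      (((HS C T ρ0 H Fr.S Y).ncard : ℕ) : ℝ) = ((l : ℝ) ^ Fr.U) ^ C.n *
          ∑ y : Fin C.d → Fin Fr.U → ZMod l,
            Fr.sys.NN C.Bd R RZ (Fr.oc C ρ0 y) ∅ (Fr.gen C ρ0 R y) (g y) Y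

/-- G8d: the homomorphisms that are not surjective -/
def SG8d (Fr : FrI k l T.tau T.phi) : Prop := ∀ (R : Finset (VV l C.d))
  (RZ : Finset (VV l C.n)), Fr.sys.Rep R → Fr.sys.Rep RZ → Ctn Fr.S (Nat.card G) →
  ∀ ρ0 : Gm k →* G, IsLocallyConstant ρ0 → Unr T Fr.S ρ0 → ∀ Y : ℝ, 1 ≤ Y →
    (((HS C T ρ0 (fun ρ => ¬ Function.Surjective ρ) Fr.S Y).ncard : ℕ) : ℝ) ≤
        ((l : ℝ) ^ Fr.U) ^ C.n * ∑ y : Fin C.d → Fin Fr.U → ZMod l, ∑ z0 : RZ,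
          Fr.sys.NE C.Bd R RZ (Fr.oc C ρ0 y) (Fr.gen C ρ0 R y) z0 Y

/-- the exponent of the logarithm plus one -/
noncomputable def Cd.bb (R : Finset (VV l C.d)) (RZ : Finset (VV l C.n)) : ℕ :=
  ∑ v ∈ R, C.kc v + RZ.card

/-- G9: the asymptotic formula for a base homomorphism unramified outside `S` -/
def SG9 (Fr : FrI k l T.tau T.phi) : Prop := ∀ (R : Finset (VV l C.d))
  (RZ : Finset (VV l C.n)), Fr.sys.Rep R → Fr.sys.Rep RZ → Ctn Fr.S (Nat.card G) →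
  ∀ ρ0 : Gm k →* G, ρ0 ∈ Hk k G → Unr T Fr.S ρ0 → ∀ H : (Gm k →* G) → Prop, HLo Fr.S H →
  ∃ L : ℝ, 0 ≤ L ∧ Tendsto (fun Y : ℝ => ((HI T l ρ0 H Fr.S Y).ncard : ℝ) /
    (Y * Real.log Y ^ (C.bb R RZ - 1))) atTop (𝓝 L) ∧ (H ρ0 → 0 < L)

/-- G10: the number of classes -/
def SG10 (k : Type) [Field k] [NumberField k] (C : Cd l G) : Prop := ∀ (S : SysL l),
  (∀ u : (ZMod l)ˣ, (∃ g, S.e g = u) ↔ u ∈ cyc k l) →
  ∃ (R : Finset (VV l C.d)) (RZ : Finset (VV l C.n)), S.Rep R ∧ S.Rep RZ ∧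
    C.bb R RZ * Nat.card (cyc k l) = Nat.card (Ncl l G)

/-! ### the uniform bound -/

/-- `x` records the inertia of `ρ` outside `S` and `A` modulo the center -/
def Rec (Fr : FrI k l T.tau T.phi) (R : Finset (VV l C.d))
    (A : Finset (HeightOneSpectrum (𝓞 k))) (ρ : Gm k →* G) (x : R → Finset Fr.sys.P) : Prop :=
  Fr.sys.Gd x ∧ (∀ v, ∀ p ∈ x v, Fr.dn p ∉ A) ∧
    ∀ P, P ∉ Fr.S → P ∉ A → ∃ z, ρ (T.tau P) = C.nn (Fr.aa R 0 x (T.tau P)) z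

/-- two homomorphisms with records have the same rest: removing the recorded ramification gives
the same homomorphism modulo the center -/
def Cls2 (Fr : FrI k l T.tau T.phi) (R : Finset (VV l C.d)) (ρ1 : Gm k →* G)
    (x1 : R → Finset Fr.sys.P) (ρ : Gm k →* G) (x : R → Finset Fr.sys.P) : Prop :=
  ∀ σ, ∃ z, C.nn (-Fr.aa R 0 x σ) 0 * ρ σ = C.nn (-Fr.aa R 0 x1 σ) z * ρ1 σ

/-- the surjective homomorphisms with inertia of order dividing `l` outside `S` and `A` -/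
def HkA (T : TM k) (G : Type) [Group G] (l : ℕ) (S A : Finset (HeightOneSpectrum (𝓞 k))) :
    Set (Gm k →* G) :=
  {ρ | ρ ∈ Hk k G ∧ ∀ P, P ∉ S → P ∉ A → ρ (T.tau P) ^ l = 1}

/-- G13a: every homomorphism has a record -/
def SG13a (Fr : FrI k l T.tau T.phi) : Prop := ∀ R : Finset (VV l C.d), Fr.sys.Rep R →
  Ctn Fr.S (Nat.card G) → ∀ (A : Finset (HeightOneSpectrum (𝓞 k))) (ρ : Gm k →* G),
  ρ ∈ HkA T G l Fr.S A → ∃! x : R → Finset Fr.sys.P, Rec C Fr R A ρ x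

/-- G13b: the number of classes -/
def SG13b (Fr : FrI k l T.tau T.phi) : Prop := ∀ R : Finset (VV l C.d), Fr.sys.Rep R →
  Ctn Fr.S (Nat.card G) → ∃ C0 : ℕ, 1 ≤ C0 ∧ ∀ A : Finset (HeightOneSpectrum (𝓞 k)),
    ∃ W : Finset ((Gm k →* G) × (R → Finset Fr.sys.P)), W.card ≤ C0 ^ (A.card + 1) ∧
      (∀ w ∈ W, w.1 ∈ HkA T G l Fr.S A ∧ Rec C Fr R A w.1 w.2) ∧
      ∀ ρ ∈ HkA T G l Fr.S A, ∀ x, Rec C Fr R A ρ x → ∃ w ∈ W, Cls2 C Fr R w.1 w.2 ρ x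

/-- the outer characters of a class -/
noncomputable def FrI.oc2 (Fr : FrI k l T.tau T.phi) (R : Finset (VV l C.d)) (ρ1 : Gm k →* G)
    (x1 : R → Finset Fr.sys.P) (v : VV l C.d) (ζ : VV l C.n) : Fr.sys.El :=
  Fr.cl fun σ => ζ ⬝ᵥ (C.bp (ρ1 σ) v - C.Bd.B (Fr.aa R 0 x1 σ) v)

/-- the generation condition of a class -/
def FrI.gen2 (Fr : FrI k l T.tau T.phi) (R : Finset (VV l C.d)) (ρ1 : Gm k →* G)
    (x1 : R → Finset Fr.sys.P) (U : Finset R) : Prop :=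
  Subgroup.closure ({g | ∃ σ, g = C.nn (-Fr.aa R 0 x1 σ) 0 * ρ1 σ} ∪
    {g | ∃ v ∈ U, g = C.nn v 0} ∪ {g | ∃ z, g = C.nn 0 z}) = ⊤

/-- G13c: the data of a class -/
def SG13c (Fr : FrI k l T.tau T.phi) : Prop := ∀ R : Finset (VV l C.d), Fr.sys.Rep R →
  Ctn Fr.S (Nat.card G) → ∀ (A : Finset (HeightOneSpectrum (𝓞 k))) (ρ1 : Gm k →* G)
  (x1 : R → Finset Fr.sys.P), ρ1 ∈ HkA T G l Fr.S A → Rec C Fr R A ρ1 x1 →
    ∃ M : Finset Fr.sys.P, (∀ p, p ∈ M ↔ (Fr.sys.rg p ∧ Fr.dn p ∈ A)) ∧ Fr.sys.Stb M ∧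
      Fr.sys.nm M ≤ (∏ P ∈ A, nrm P) ^ Fintype.card Fr.sys.D ∧
      (∀ v ζ, (Fr.oc2 C R ρ1 x1 v ζ).2.support ⊆ M) ∧ Fr.sys.Adc (Fr.oc2 C R ρ1 x1) ∧
      Fr.sys.Gen C.Bd R (Fr.oc2 C R ρ1 x1) (Fr.gen2 C R ρ1 x1) ∧
      Fr.sys.bV C.Bd R (Fr.oc2 C R ρ1 x1) = ∑ v ∈ R, C.kc v

/-- G13d: the members of a class satisfy the conditions -/
def SG13d (Fr : FrI k l T.tau T.phi) : Prop := ∀ R : Finset (VV l C.d), Fr.sys.Rep R →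
  Ctn Fr.S (Nat.card G) → ∀ (A : Finset (HeightOneSpectrum (𝓞 k))) (ρ1 ρ : Gm k →* G)
  (x1 x : R → Finset Fr.sys.P), ρ1 ∈ HkA T G l Fr.S A → ρ ∈ HkA T G l Fr.S A →
  Rec C Fr R A ρ1 x1 → Rec C Fr R A ρ x → Cls2 C Fr R ρ1 x1 ρ x →
    Fr.sys.okc C.Bd R (Fr.oc2 C R ρ1 x1) x ∧ Fr.gen2 C R ρ1 x1 (Fr.sys.pat x)

open Classical in
/-- the members of a class with bounded ramification -/
def HC (Fr : FrI k l T.tau T.phi) (R : Finset (VV l C.d))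
    (A : Finset (HeightOneSpectrum (𝓞 k))) (ρ1 : Gm k →* G) (x1 : R → Finset Fr.sys.P)
    (Y : ℝ) : Set (Gm k →* G) :=
  {ρ | ρ ∈ HkA T G l Fr.S A ∧ (∃ x, Rec C Fr R A ρ x ∧ Cls2 C Fr R ρ1 x1 ρ x) ∧
    (nO T (Fr.S ∪ A) ρ : ℝ) ≤ Y}

/-- G13e: the number of members of a class -/
def SG13e (Fr : FrI k l T.tau T.phi) : Prop := ∀ (R : Finset (VV l C.d))
  (RZ : Finset (VV l C.n)), Fr.sys.Rep R → Fr.sys.Rep RZ → Ctn Fr.S (Nat.card G) →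
  ∀ (A : Finset (HeightOneSpectrum (𝓞 k))) (ρ1 : Gm k →* G) (x1 : R → Finset Fr.sys.P)
  (M : Finset Fr.sys.P), ρ1 ∈ HkA T G l Fr.S A → Rec C Fr R A ρ1 x1 →
  (∀ p, p ∈ M ↔ (Fr.sys.rg p ∧ Fr.dn p ∈ A)) → ∀ Y : ℝ, 1 ≤ Y →
    (HC C Fr R A ρ1 x1 Y).Finite ∧ (((HC C Fr R A ρ1 x1 Y).ncard : ℕ) : ℝ) ≤
        ((l : ℝ) ^ Fr.U) ^ C.n * ((l : ℝ) ^ C.n) ^ A.card *
          Fr.sys.NN C.Bd R RZ (Fr.oc2 C R ρ1 x1) M (Fr.gen2 C R ρ1 x1) (fun _ _ => 1) Y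

end

/-! ### the results for odd `l` -/

/-- G12: the inner statement for fixed data -/
def SInnF : Prop := ∀ (k : Type) [Field k] [NumberField k] (l : ℕ) [Fact l.Prime] (T : TM k)
  (G : Type) [Group G], l ≠ 2 → Nl l G → ∀ b : ℕ, b * Nat.card (cyc k l) = Nat.card (Ncl l G) →
    InnF T G l b

/-- G14: the uniform inner statement -/
def SInnU : Prop := ∀ (k : Type) [Field k] [NumberField k] (l : ℕ) [Fact l.Prime] (T : TM k)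
  (G : Type) [Group G], l ≠ 2 → Nl l G → ∀ b : ℕ, b * Nat.card (cyc k l) = Nat.card (Ncl l G) →
    InnU T G l b

end Pool.Agent.H92.EL
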