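import Pool.Agent.H92.EL.AStm
import Pool.Agent.H98.MF.C.Bas

/-!
# Project ELL (MP_a3214d), block A: lemmas on local symbols, density, counting (rows A39, A42)
-/

set_option autoImplicit false

open scoped BigOperators Pointwise
open NumberField IsDedekindDomain

namespace Pool.Agent.H92.EL

open Pool.Agent.H98.MF (Om Gm ord Dec US PrS SUn mS nrm gen FixD)
open Pool.Agent.H98.MF.B (mem_US US_mono gen_spec)

section

variable {l : ℕ} [Fact l.Prime] {K : Type} [Field K] [NumberField K] {z : K} (Y : LSy l K z)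

theorem ij_anti (P : HeightOneSpectrum (𝓞 K)) (a b : Kˣ) : Y.hs P a b = - Y.hs P b a := by
  have h := Y.alt P (a * b)
  rw [Y.mulL, Y.mulR, Y.mulR, Y.alt, Y.alt] at h
  linear_combination h

theorem ij_oneR (P : HeightOneSpectrum (𝓞 K)) (a : Kˣ) : Y.hs P a 1 = 0 := by
  have h := Y.mulR P a 1 1
  rw [mul_one] at h
  linear_combination -h

theorem ij_oneL (P : HeightOneSpectrum (𝓞 K)) (a : Kˣ) : Y.hs P 1 a = 0 := by
  rw [ij_anti, ij_oneR, neg_zero]

theorem ij_powR (P : HeightOneSpectrum (𝓞 K)) (a b : Kˣ) (n : ℕ) :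
    Y.hs P a (b ^ n) = n * Y.hs P a b := by
  induction n with
  | zero => rw [pow_zero, ij_oneR]; simp
  | succ n ih => rw [pow_succ, Y.mulR, ih]; push_cast; ring

theorem ij_powL (P : HeightOneSpectrum (𝓞 K)) (a b : Kˣ) (n : ℕ) :
    Y.hs P (a ^ n) b = n * Y.hs P a b := by
  rw [ij_anti, ij_powR, ij_anti Y P b a]; ring

theorem ij_locR {P : HeightOneSpectrum (𝓞 K)} {b : Kˣ} (a : Kˣ)
    (h : LocW l P (b : K)) : Y.hs P a b = 0 := by
  rw [ij_anti, (Y.nd P b).2 h, neg_zero]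

theorem ij_congr (hM : SMem) {P : HeightOneSpectrum (𝓞 K)} {x c : Kˣ} (a : Kˣ)
    (h : x / c ∈ WS l P) : Y.hs P a x = Y.hs P a c := by
  have h1 : Y.hs P a (x / c) = 0 := ij_locR Y a ((hM l (Fact.out) K P _).1 h)
  have h2 : x = x / c * c := by rw [div_mul_cancel]
  rw [h2, Y.mulR, h1, zero_add]

omit [Fact l.Prime] in
theorem ij_ordl (P : HeightOneSpectrum (𝓞 K)) : 0 ≤ ord P (l : K) := by
  unfold ord
  have h : FractionalIdeal.spanSingleton (nonZeroDivisors (𝓞 K)) (l : K) =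
      ((Ideal.span {(l : 𝓞 K)} : Ideal (𝓞 K)) : FractionalIdeal (nonZeroDivisors (𝓞 K)) K) := by
    rw [FractionalIdeal.coeIdeal_span_singleton, map_natCast]
  rw [h]
  exact FractionalIdeal.count_coe_nonneg K P _

omit [Fact l.Prime] in
theorem ij_ordl0 {S : Finset (HeightOneSpectrum (𝓞 K))}
    (hS : ∀ P : HeightOneSpectrum (𝓞 K), 0 < ord P (l : K) → P ∈ S)
    {P : HeightOneSpectrum (𝓞 K)} (hP : P ∉ S) : ord P (l : K) = 0 := by
  have h1 := ij_ordl (l := l) P
  by_contra h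
  exact hP (hS P (by omega))

/-- evaluation at one place -/
theorem ij_eval (hM : SMem) (hW : SWk) {S : Finset (HeightOneSpectrum (𝓞 K))}
    {P : HeightOneSpectrum (𝓞 K)} (hP : P ∈ S) (b : Kˣ) :
    ∃ g : Kˣ, ∀ (f : HeightOneSpectrum (𝓞 K) → ZMod l) (a : Kˣ),
      ∑ Q ∈ S, f Q * Y.hs Q a g = f P * Y.hs P a b := by
  classical
  obtain ⟨g, hg⟩ := hW l Fact.out K S (fun Q => if Q = P then b else 1)
  refine ⟨g, fun f a => ?_⟩
  have h1 : ∀ Q ∈ S, f Q * Y.hs Q a g = if Q = P then f P * Y.hs P a b else 0 := by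
    intro Q hQ
    rw [ij_congr Y hM a (hg Q hQ)]
    by_cases h : Q = P
    · subst h; simp
    · simp only [h, if_false]
      rw [ij_oneR, mul_zero]
  rw [Finset.sum_congr rfl h1, Finset.sum_ite_eq' S P, if_pos hP]

omit [Fact l.Prime] in
theorem ij_mem_KW {S : Finset (HeightOneSpectrum (𝓞 K))} {a : Kˣ} :
    a ∈ KW l S ↔ ∀ P ∈ S, a ∈ WS l P := by
  unfold KW
  rw [Subgroup.mem_iInf]
  refine forall_congr' fun P => ?_
  rw [Subgroup.mem_iInf]

omit [Fact l.Prime] [NumberField K] in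
theorem ij_mem_pw {H : Subgroup Kˣ} {a : Kˣ} : a ∈ pw l H ↔ ∃ c ∈ H, c ^ l = a := by
  unfold pw
  rw [Subgroup.mem_map]
  rfl

omit [Fact l.Prime] in
/-- powers are local powers -/
theorem ij_pow_WS (P : HeightOneSpectrum (𝓞 K)) (c : Kˣ) : c ^ l ∈ WS l P := by
  refine Subgroup.subset_closure fun n => ⟨((c⁻¹ : Kˣ) : K), Or.inl ?_⟩
  rw [← Units.val_pow_eq_pow_val, ← Units.val_mul, ← mul_pow, mul_inv_cancel, one_pow,
    Units.val_one]

omit [Fact l.Prime] in
theorem ij_pow_KW (S : Finset (HeightOneSpectrum (𝓞 K))) (c : Kˣ) : c ^ l ∈ KW l S :=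
  ij_mem_KW.2 fun P _ => ij_pow_WS P c

/-- a power which is an `S`-unit is the power of an `S`-unit -/
theorem ij_pw_US {S : Finset (HeightOneSpectrum (𝓞 K))} {a : Kˣ} (ha : a ∈ US S)
    (h : a ∈ pw l (⊤ : Subgroup Kˣ)) : a ∈ pw l (US S) := by
  obtain ⟨c, -, hc⟩ := ij_mem_pw.1 h
  refine ij_mem_pw.2 ⟨c, mem_US.2 fun Q hQ => ?_, hc⟩
  have h1 := mem_US.1 ha Q hQ
  rw [← hc, Units.val_pow_eq_pow_val, Pool.Agent.H98.MF.B.ord_pow] at h1
  rcases mul_eq_zero.1 h1 with h2 | h2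
  · exact absurd (Int.natCast_eq_zero.1 h2) (Fact.out : l.Prime).ne_zero
  · exact h2

/-- an element which is a local power at almost all primes is a power -/
theorem ij_dens (hA : AnL l K) {a : Kˣ} (S : Finset (HeightOneSpectrum (𝓞 K)))
    (h : ∀ P, P ∉ S → LocW l P (a : K)) : a ∈ pw l (⊤ : Subgroup Kˣ) := by
  classical
  by_contra hn
  obtain ⟨C1, h1⟩ := hA.n4a a hn
  obtain ⟨C2, h2⟩ := hA.n4
  have hl : (2 : ℝ) ≤ l := by exact_mod_cast (Fact.out : l.Prime).two_le
  set M : ℝ := 2 * (|C1| + |C2| + S.card + 1) with hM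
  have hM0 : 0 < M := by positivity
  set s : ℝ := 1 + Real.exp (-M) with hs
  have hs1 : 1 < s := by
    have := Real.exp_pos (-M)
    linarith
  have hs2 : s ≤ 2 := by
    have : Real.exp (-M) ≤ 1 := Real.exp_le_one_iff.2 (by linarith)
    linarith
  have hlog : Real.log (1 / (s - 1)) = M := by
    have e1 : s - 1 = Real.exp (-M) := by rw [hs]; ring
    rw [e1, one_div, Real.log_inv, Real.log_exp, neg_neg]
  have g1 := h1 s hs1 hs2
  have g2 := h2 s hs1 hs2
  rw [hlog] at g1 g2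
  have hsum := hA.sm s hs1
  have hsplit := hsum.tsum_subtype_add_tsum_subtype_compl
    {Q : HeightOneSpectrum (𝓞 K) | LocW l Q (a : K)}
  have hcomp : ∑' Q : ({Q : HeightOneSpectrum (𝓞 K) | LocW l Q (a : K)}ᶜ :
      Set (HeightOneSpectrum (𝓞 K))), (nrm Q.1 : ℝ) ^ (-s) ≤ S.card := by
    rw [tsum_subtype _ (fun Q : HeightOneSpectrum (𝓞 K) => (nrm Q : ℝ) ^ (-s)),
      tsum_eq_sum (s := S) (fun Q hQ => Set.indicator_of_notMem
        (show Q ∉ ({Q : HeightOneSpectrum (𝓞 K) | LocW l Q (a : K)}ᶜ :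
          Set (HeightOneSpectrum (𝓞 K))) from fun hc => hc (h Q hQ)) _)]
    have e2 : ∀ Q ∈ S, Set.indicator {Q : HeightOneSpectrum (𝓞 K) | LocW l Q (a : K)}ᶜ
        (fun Q : HeightOneSpectrum (𝓞 K) => (nrm Q : ℝ) ^ (-s)) Q ≤ 1 := by
      intro Q _
      by_cases hQ : Q ∈ ({Q : HeightOneSpectrum (𝓞 K) | LocW l Q (a : K)}ᶜ :
          Set (HeightOneSpectrum (𝓞 K)))
      · rw [Set.indicator_of_mem hQ]
        rcases Nat.eq_zero_or_pos (nrm Q) with h0 | h0
        · rw [h0, Nat.cast_zero, Real.zero_rpow (by linarith)]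
          exact zero_le_one
        · exact Real.rpow_le_one_of_one_le_of_nonpos (by exact_mod_cast h0) (by linarith)
      · rw [Set.indicator_of_notMem hQ]
        exact zero_le_one
    refine (Finset.sum_le_card_nsmul S _ 1 e2).trans ?_
    rw [nsmul_eq_mul, mul_one]
  have g3 := abs_le.1 g1
  have g4 := abs_le.1 g2
  have g5 : (1 / (l : ℝ)) * M ≤ M / 2 := by
    have e3 : (1 / (l : ℝ)) ≤ 1 / 2 := one_div_le_one_div_of_le (by norm_num) hl
    nlinarith
  have g6 := le_abs_self C1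
  have g7 := le_abs_self C2
  have hsplit' : (∑' Q : {Q : HeightOneSpectrum (𝓞 K) // LocW l Q (a : K)},
      (nrm Q.1 : ℝ) ^ (-s)) + ∑' Q : ({Q : HeightOneSpectrum (𝓞 K) | LocW l Q (a : K)}ᶜ :
      Set (HeightOneSpectrum (𝓞 K))), (nrm Q.1 : ℝ) ^ (-s) =
      ∑' Q : HeightOneSpectrum (𝓞 K), (nrm Q : ℝ) ^ (-s) := hsplit
  nlinarith

end

/-! ### counting -/

/-- the quotient as an additive group is killed by `l` -/
theorem ij_gr {G : Type} [CommGroup G] (l : ℕ) (H : Subgroup G) (hH : ∀ x : G, x ^ l ∈ H)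
    (v : Additive (G ⧸ H)) : l • v = 0 := by
  obtain ⟨q, rfl⟩ := Additive.ofMul.surjective v
  obtain ⟨x, rfl⟩ := QuotientGroup.mk_surjective q
  rw [← ofMul_pow, ← QuotientGroup.mk_pow, ofMul_eq_zero, QuotientGroup.eq_one_iff]
  exact hH x

/-- the number of functionals -/
theorem ij_dual_card {l : ℕ} [Fact l.Prime] {V : Type} [AddCommGroup V] [Module (ZMod l) V]
    [Finite V] : Finite (V →+ ZMod l) ∧ Nat.card (V →+ ZMod l) ≤ Nat.card V := by
  have hfd : Module.Finite (ZMod l) V := Module.Finite.of_finite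
  have hfinD : Finite (Module.Dual (ZMod l) V) := Module.finite_of_finite (ZMod l)
  let F : (V →+ ZMod l) → Module.Dual (ZMod l) V := fun f => AddMonoidHom.toZModLinearMap l f
  have hFinj : Function.Injective F := fun f g h => AddMonoidHom.toZModLinearMap_injective l h
  refine ⟨Finite.of_injective F hFinj, ?_⟩
  have e1 : Nat.card (Module.Dual (ZMod l) V) = Nat.card V := by
    rw [Module.natCard_eq_pow_finrank (K := ZMod l), Subspace.dual_finrank_eq,
      ← Module.natCard_eq_pow_finrank (K := ZMod l)]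
  rw [← e1]
  exact Nat.card_le_card_of_injective F hFinj

/-- counting: homomorphisms trivial on `H` with pairing against a group `A` -/
theorem ij_dual_count {l : ℕ} [Fact l.Prime] {G A : Type} [CommGroup G] [CommGroup A]
    (H : Subgroup G) (hH : ∀ x : G, x ^ l ∈ H) (B : Subgroup A)
    (om : A →* (G →* Multiplicative (ZMod l)))
    (h1 : ∀ a : A, ∀ y ∈ H, om a y = 1) (h2 : ∀ a : A, om a = 1 → a ∈ B)
    (h3 : ∀ b ∈ B, om b = 1)
    (hf : H.index ≠ 0) (hc : H.index ≤ B.index)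
    (ψ : G →* Multiplicative (ZMod l)) (hψ : ∀ y ∈ H, ψ y = 1) : ∃ a : A, om a = ψ := by
  have hfin : Finite (G ⧸ H) := by
    apply Nat.finite_of_card_ne_zero
    exact hf
  have hfinV : Finite (Additive (G ⧸ H)) := hfin
  obtain ⟨hfA, hcA⟩ := @ij_dual_card l _ (Additive (G ⧸ H)) _
    (AddCommGroup.zmodModule (ij_gr l H hH)) hfinV
  -- homomorphisms trivial on `H` as functionals
  let D := {θ : G →* Multiplicative (ZMod l) // ∀ y ∈ H, θ y = 1}
  let F0 : D → (Additive (G ⧸ H) →+ ZMod l) := fun θ =>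
    MonoidHom.toAdditiveLeft (QuotientGroup.lift H θ.1 θ.2)
  have hF : ∀ (θ : D) (x : G), F0 θ (Additive.ofMul (x : G ⧸ H)) =
      Multiplicative.toAdd (θ.1 x) := fun θ x => rfl
  have hF0inj : Function.Injective F0 := by
    intro θ θ' h
    apply Subtype.ext
    apply MonoidHom.ext
    intro x
    have := hF θ x
    rw [h, hF θ' x] at this
    exact this.symm
  have hD : Finite D := Finite.of_injective F0 hF0inj
  have hcard : Nat.card D ≤ H.index := by
    have e2 : Nat.card (Additive (G ⧸ H)) = H.index := rfl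
    rw [← e2]
    exact (Nat.card_le_card_of_injective F0 hF0inj).trans hcA
  let g := QuotientGroup.lift B om h3
  have hg : ∀ a : A, g (a : A ⧸ B) = om a := fun a => rfl
  have hgD : ∀ q : A ⧸ B, ∀ y ∈ H, g q y = 1 := by
    intro q
    obtain ⟨a, rfl⟩ := QuotientGroup.mk_surjective q
    rw [hg]
    exact h1 a
  have hginj : Function.Injective g := by
    rw [injective_iff_map_eq_one]
    intro q hq
    obtain ⟨a, rfl⟩ := QuotientGroup.mk_surjective q
    rw [hg] at hq
    exact (QuotientGroup.eq_one_iff a).2 (h2 a hq)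
  let f : A ⧸ B → D := fun q => ⟨g q, hgD q⟩
  have hfinj : Function.Injective f := fun q q' h => hginj (congrArg Subtype.val h)
  have hbij : Function.Bijective f :=
    hfinj.bijective_of_nat_card_le (hcard.trans hc)
  obtain ⟨q, hq⟩ := hbij.2 ⟨ψ, hψ⟩
  obtain ⟨a, rfl⟩ := QuotientGroup.mk_surjective q
  exact ⟨a, congrArg Subtype.val hq⟩

section

variable {l : ℕ} [Fact l.Prime] {K : Type} [Field K] [NumberField K] {z : K} (Y : LSy l K z)

/-- the functionals `x ↦ ∑ c_P hs P a x` on the places of `S` -/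
noncomputable def ij_psi (c : HeightOneSpectrum (𝓞 K) → ZMod l)
    (S : Finset (HeightOneSpectrum (𝓞 K))) : Kˣ →* (Kˣ →* Multiplicative (ZMod l)) where
  toFun a :=
    { toFun := fun x => Multiplicative.ofAdd (∑ P ∈ S, c P * Y.hs P a x)
      map_one' := by
        rw [Finset.sum_eq_zero fun P _ => by rw [ij_oneR, mul_zero]]
        rfl
      map_mul' := fun x y => by
        rw [← ofAdd_add, ← Finset.sum_add_distrib]
        congr 1
        exact Finset.sum_congr rfl fun P _ => by rw [Y.mulR, mul_add] }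
  map_one' := by
    refine MonoidHom.ext fun x => ?_
    show Multiplicative.ofAdd (∑ P ∈ S, c P * Y.hs P 1 x) = 1
    rw [Finset.sum_eq_zero fun P _ => by rw [ij_oneL, mul_zero]]
    rfl
  map_mul' a b := by
    refine MonoidHom.ext fun x => ?_
    show Multiplicative.ofAdd (∑ P ∈ S, c P * Y.hs P (a * b) x) =
      Multiplicative.ofAdd (∑ P ∈ S, c P * Y.hs P a x) *
        Multiplicative.ofAdd (∑ P ∈ S, c P * Y.hs P b x)
    rw [← ofAdd_add, ← Finset.sum_add_distrib]
    congr 1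
    exact Finset.sum_congr rfl fun P _ => by rw [Y.mulL, mul_add]

theorem ij_psi_vl (c : HeightOneSpectrum (𝓞 K) → ZMod l)
    (S : Finset (HeightOneSpectrum (𝓞 K))) (a x : Kˣ) :
    vl l (ij_psi Y c S a) x = ∑ P ∈ S, c P * Y.hs P a x := rfl

/-- if the `S`-units inside `KW S` are powers then the product has the expected index -/
theorem ij_sup_index (h2 : SC2) (hI : SCI) (hl : l ≠ 2) (hz : IsPrimitiveRoot z l)
    {S : Finset (HeightOneSpectrum (𝓞 K))}
    (hS : ∀ P : HeightOneSpectrum (𝓞 K), 0 < ord P (l : K) → P ∈ S)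
    (hin : ∀ a ∈ US S, a ∈ KW l S → a ∈ pw l (US S)) :
    (US S ⊔ KW l S).index = l ^ mS S := by
  have hlp : l.Prime := Fact.out
  have h3 : (KW l S).relIndex (US S) = l ^ mS S := by
    rw [← h2 l hlp K z hz S, ← Subgroup.inf_relIndex_right (KW l S) (US S)]
    congr 1
    refine le_antisymm ?_ ?_
    · intro a ha
      exact hin a ha.2 ha.1
    · intro a ha
      obtain ⟨c, hc, rfl⟩ := ij_mem_pw.1 ha
      exact ⟨ij_pow_KW S c, (US S).pow_mem hc l⟩
  have h4 : (KW l S).relIndex (US S ⊔ KW l S) = l ^ mS S := by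
    rw [Subgroup.relIndex_sup_right, h3]
  have h5 := Subgroup.relIndex_mul_index (H := KW l S) (K := US S ⊔ KW l S) le_sup_right
  rw [h4, hI l hlp hl K z hz S hS, two_mul, pow_add] at h5
  exact Nat.eq_of_mul_eq_mul_left (pow_pos hlp.pos _) h5

/-- duality: all functionals trivial on `US S` and `KW S` are given by `S`-units -/
theorem ij_du (h2 : SC2) (hI : SCI) (hl : l ≠ 2) (hz : IsPrimitiveRoot z l)
    {S : Finset (HeightOneSpectrum (𝓞 K))}
    (hS : ∀ P : HeightOneSpectrum (𝓞 K), 0 < ord P (l : K) → P ∈ S)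
    (hin : ∀ a ∈ US S, a ∈ KW l S → a ∈ pw l (US S)) (hM : SMem)
    (c : HeightOneSpectrum (𝓞 K) → ZMod l)
    (hprd : ∀ a ∈ US S, ∀ b ∈ US S, ∑ P ∈ S, c P * Y.hs P a b = 0)
    (hrad : ∀ a ∈ US S, (∀ x, ∑ P ∈ S, c P * Y.hs P a x = 0) → a ∈ pw l (US S))
    (ψ : Kˣ →* Multiplicative (ZMod l)) (hψ : FnL l S ψ) :
    ∃ a ∈ US S, ∀ x, vl l ψ x = ∑ P ∈ S, c P * Y.hs P a x := by
  have hlp : l.Prime := Fact.out
  have hidx := ij_sup_index h2 hI hl hz hS hin
  have hB : ((pw l (US S)).subgroupOf (US S)).index = l ^ mS S := h2 l hlp K z hz S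
  obtain ⟨a, ha⟩ := ij_dual_count (G := Kˣ) (A := US S) (US S ⊔ KW l S)
    (fun x => Subgroup.mem_sup_right (ij_pow_KW S x))
    ((pw l (US S)).subgroupOf (US S)) ((ij_psi Y c S).comp (US S).subtype)
    (fun a y hy => by
      have hle : US S ⊔ KW l S ≤ (ij_psi Y c S a).ker := by
        refine sup_le (fun b hb => ?_) (fun b hb => ?_)
        · rw [MonoidHom.mem_ker]
          refine Multiplicative.toAdd.injective ?_
          exact hprd a a.2 b hb
        · rw [MonoidHom.mem_ker]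
          refine Multiplicative.toAdd.injective ?_
          show ∑ P ∈ S, c P * Y.hs P a b = 0
          exact Finset.sum_eq_zero fun P hP => by
            rw [ij_locR Y _ ((hM l hlp K P b).1 (ij_mem_KW.1 hb P hP)), mul_zero]
      exact hle hy)
    (fun a h => Subgroup.mem_subgroupOf.2 (hrad a a.2 fun x => by
      have h6 := congrArg (fun ψ : Kˣ →* Multiplicative (ZMod l) => vl l ψ x) h
      exact h6))
    (fun b hb => by
      obtain ⟨w, _, hw⟩ := ij_mem_pw.1 (Subgroup.mem_subgroupOf.1 hb)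
      refine MonoidHom.ext fun x => Multiplicative.toAdd.injective ?_
      show ∑ P ∈ S, c P * Y.hs P (b : Kˣ) x = 0
      refine Finset.sum_eq_zero fun P _ => ?_
      rw [← hw, ij_powL, CharP.cast_eq_zero, zero_mul, mul_zero])
    (by rw [hidx]; exact pow_ne_zero _ hlp.ne_zero)
    (by rw [hidx, hB])
    ψ
    (fun y hy => by
      have hle : US S ⊔ KW l S ≤ ψ.ker := sup_le
        (fun b hb => hψ.unit b hb) (fun b hb => hψ.loc b hb)
      exact hle hy)
  refine ⟨a, a.2, fun x => ?_⟩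
  rw [← ij_psi_vl Y c S a x, ← ha]
  rfl

end

end Pool.Agent.H92.EL
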