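import Pool.Agent.H92.EL.OddFin
import Pool.Agent.EV.Main
import Pool.Agent.EV.ENil

/-!
# Project T4 (MP_a3214d): the inner statements for all primes
-/

set_option autoImplicit false

open scoped BigOperators Topology
open NumberField IsDedekindDomain Filter

namespace Pool.Agent.H92.EL

/-- the inner statements for the prime two -/
theorem inn_two : Inn 2 := by
  intro k _ _ T G _ b hG hz hb
  rw [Pool.Agent.EV.enil_cyc k, mul_one] at hb
  rw [hb]
  exact Pool.Agent.EV.inn_all k T G hG hz

/-- the inner statements for all primes -/
theorem inn_all (l : ℕ) (hl : l.Prime) : Inn l := by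
  by_cases h : l = 2
  · subst h
    exact inn_two
  · exact inn_odd l hl h

end Pool.Agent.H92.EL
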