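import Pool.Agent.H92.EL.AStm

/-!
# Project ELL (MP_a3214d), block A, file R2: the coefficients of a functional
-/

set_option autoImplicit false

open scoped BigOperators
open NumberField IsDedekindDomain

namespace Pool.Agent.H92.EL

open Pool.Agent.H98.MF (Om Gm ord Dec US PrS SUn mS nrm gen)

/-- the coefficients of a functional -/
theorem sr2 : SR2 := by
  intro l _ K _ _ z Y S a ω hω
  classical
  let Ψ : Additive Kˣ →+ ({P // P ∈ S} → ZMod l) × ZMod l :=
    AddMonoidHom.mk' (fun x => (fun P => Y.hs P.1 a (Additive.toMul x),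
      vl l ω (Additive.toMul x))) (by
      intro x y
      apply Prod.ext
      · funext P
        exact Y.mulR P.1 a (Additive.toMul x) (Additive.toMul y)
      · show Multiplicative.toAdd (ω (Additive.toMul x * Additive.toMul y)) =
          Multiplicative.toAdd (ω (Additive.toMul x)) + Multiplicative.toAdd (ω (Additive.toMul y))
        rw [map_mul]
        rfl)
  let W : Submodule (ZMod l) (({P // P ∈ S} → ZMod l) × ZMod l) :=
    AddSubgroup.toZModSubmodule l Ψ.range
  have hW : ∀ x : Kˣ, Ψ (Additive.ofMul x) ∈ W := fun x =>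
    (AddSubgroup.mem_toZModSubmodule l).2 ⟨_, rfl⟩
  let Lf : {P // P ∈ S} → W →ₗ[ZMod l] ZMod l := fun P =>
    ((LinearMap.proj P).comp (LinearMap.fst (ZMod l) _ _)).comp W.subtype
  let Kf : W →ₗ[ZMod l] ZMod l := (LinearMap.snd (ZMod l) _ _).comp W.subtype
  have hker : ⨅ i, LinearMap.ker (Lf i) ≤ LinearMap.ker Kf := by
    intro w hw
    rw [Submodule.mem_iInf] at hw
    obtain ⟨w, hw0⟩ := w
    obtain ⟨x, rfl⟩ := (AddSubgroup.mem_toZModSubmodule l).1 hw0
    rw [LinearMap.mem_ker]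
    show Multiplicative.toAdd (ω (Additive.toMul x)) = 0
    have h1 : ω (Additive.toMul x) = 1 := hω.loc _ (fun P hP => hw ⟨P, hP⟩)
    rw [h1]
    rfl
  have hsp := mem_span_of_iInf_ker_le_ker hker
  obtain ⟨c, hc⟩ := (Submodule.mem_span_range_iff_exists_fun (ZMod l)).1 hsp
  refine ⟨fun P => if h : P ∈ S ∧ ¬ LocW l P (a : K) then c ⟨P, h.1⟩ else 0, ?_, ?_⟩
  · intro P hP
    show (if h : P ∈ S ∧ ¬ LocW l P (a : K) then c ⟨P, h.1⟩ else 0) = 0
    rw [dif_neg]
    rintro ⟨-, h⟩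
    exact h hP
  · intro x
    have h2 := LinearMap.congr_fun hc ⟨_, hW x⟩
    rw [LinearMap.sum_apply] at h2
    have h3 : Kf ⟨_, hW x⟩ = vl l ω x := rfl
    rw [h3] at h2
    rw [← h2, ← Finset.sum_coe_sort S]
    apply Finset.sum_congr rfl
    rintro ⟨P, hP⟩ -
    show c ⟨P, hP⟩ * Y.hs P a x =
      (if h : P ∈ S ∧ ¬ LocW l P (a : K) then c ⟨P, h.1⟩ else 0) * Y.hs P a x
    by_cases h4 : LocW l P (a : K)
    · rw [(Y.nd P a).2 h4 x, mul_zero, mul_zero]
    · rw [dif_pos ⟨hP, h4⟩]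

end Pool.Agent.H92.EL
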