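import Pool.Agent.H92.EL.Gl
import Pool.Agent.H92.EL.Hn
import Pool.Agent.H92.EL.Ij
import Pool.Agent.H92.EL.Uq
import Pool.Agent.H92.EL.Pm
import Pool.Agent.H92.EL.G2
import Pool.Agent.H92.EL.Hp
import Pool.Agent.H92.EL.Gs
import Pool.Agent.H92.EL.R5
import Pool.Agent.H92.EL.R4
import Pool.Agent.H92.EL.R3
import Pool.Agent.H92.EL.R2
import Pool.Agent.H92.EL.R1
import Pool.Agent.H92.EL.An
import Pool.Agent.H92.EL.N2
import Pool.Agent.H92.EL.N2a
import Pool.Agent.H92.EL.Sp
import Pool.Agent.H92.EL.C3
import Pool.Agent.H92.EL.KE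
import Pool.Agent.H92.EL.Pu
import Pool.Agent.H92.EL.C3e
import Pool.Agent.H92.EL.C3f
import Pool.Agent.H92.EL.C3d
import Pool.Agent.H92.EL.C3c
import Pool.Agent.H92.EL.CI
import Pool.Agent.H92.EL.C2
import Pool.Agent.H92.EL.C1
import Pool.Agent.H92.EL.Ls
import Pool.Agent.H92.EL.Ln
import Pool.Agent.H92.EL.In
import Pool.Agent.H92.EL.Hb
import Pool.Agent.H92.EL.Dg
import Pool.Agent.H92.EL.C3g
import Pool.Agent.H92.EL.C3b
import Pool.Agent.H92.EL.Sd
import Pool.Agent.H92.EL.Br
import Pool.Agent.H92.EL.NG
import Pool.Agent.H92.EL.CN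
import Pool.Agent.H92.EL.UU
import Pool.Agent.H92.EL.Lg
import Pool.Agent.H92.EL.Two
import Pool.Agent.H92.EL.One
import Pool.Agent.H92.EL.Wk
import Pool.Agent.H92.EL.Idx
import Pool.Agent.H92.EL.Mem
import Pool.Agent.H92.EL.KuD
import Pool.Agent.H92.EL.Ku

/-!
# Project ELL (MP_a3214d), block A: the global symbols and the global theorems, without
hypotheses (row A47)
-/

set_option autoImplicit false

open scoped BigOperators Pointwise
open NumberField IsDedekindDomain

namespace Pool.Agent.H92.EL

/-! ### the statements of block A, without hypotheses -/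

theorem sone_main : SOne := sone sku

theorem stwo_main : STwo := stwo sku skuD sone_main

theorem suu_main : SUU := suu sku sone_main slg

theorem scn_main : SCN := scn sku skuD

theorem sng_main : SNG := sng sku scn_main

theorem sc3b_main : SC3b := sc3b sku sone_main ssd

theorem sc3g_main : SC3g := sc3g sku sone_main ssd

theorem sdg_main : SDg := sdg sc3b_main

theorem sin_main : SIn := sin_of sku skuD smem sidx sone_main scn_main sbr sdg_main shb

theorem sls_main : SLs := sls sku smem sone_main stwo_main slg suu_main sin_main sng_main sln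

theorem sci_main : SCI := sci smem sidx swk

theorem sc3c_main : SC3c := sc3c sc3b_main

theorem sc3d_main : SC3d := sc3d sku sc2 sc3c_main shb sng_main

theorem sc3e_main : SC3e := sc3e sc3b_main

theorem ske_main : SKE := ske sku

theorem sn2_main : SN2 := sn2 sn2a

theorem san_main : SAn := san sn2_main ssp ske_main sc3b_main sc3g_main

theorem sr1_main : SR1 := sr1 smem swk

theorem sr3_main : SR3 := sr3 smem swk sr1_main

theorem sr5_main : SR5 := sr5 smem swk san_main sci_main sc2 sc1

theorem sc3f_main : SC3f := sc3f sc3g_main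

theorem sc3_main : SC3 := sc3 sc1 sc3d_main sc3e_main sc3f_main spu ske_main

theorem sr4_main : SR4 :=
  sr4 smem swk san_main sc3_main sr1_main sr2 sr3_main

/-- the system of global symbols exists -/
theorem sgs_main : SGs := sgs sls_main sr4_main sr5_main

theorem glDu_main : GlDu := du_of smem swk san_main sci_main sc2

theorem glPrm_main : GlPrm := prm_of san_main glDu_main

theorem glG2_main : GlG2 := fun l _ hl K _ _ z hz G =>
  g2_of san_main sci_main l hl K z hz (glPrm_main l hl K z hz G)

theorem glHn_main : GlHn := hn_of san_main sc3_main sr1_main sku sng_main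

theorem glHp_main : GlHp := fun l _ hl K _ _ z hz G =>
  hp_of G hz hl (glHn_main l hl K z hz G) (glG2_main l hl K z hz G) sku sng_main smem swk
    sc1

/-- the global theorems hold for every system of global symbols -/
theorem sgl_main : SGl :=
  sgl_of glHn_main (inj_of smem san_main) glDu_main
    (uq_of swk san_main sc3_main sr1_main) glPrm_main glG2_main glHp_main

end Pool.Agent.H92.EL
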