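import Pool.Agent.H92.EL.TStm
import Pool.Agent.H98.MF.L.Fld

/-!
# Project T4 (MP_a3214d), row T3: a Galois extension with group `G` gives a continuous surjective
homomorphism
-/

set_option autoImplicit false

open scoped BigOperators Pointwise Topology
open NumberField IsDedekindDomain Filter

namespace Pool.Agent.H92.EL

open Pool.Agent.H98.MF (Om Gm ord Dec top nrm fld rdN rexp rex lc_of_ker_openK)

/-- T3: a Galois extension with group `G` gives a homomorphism -/
theorem sEx : SEx := by
  intro k _ _ G _ _ h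
  obtain ⟨L, hL, ⟨e⟩⟩ := h
  let ρ : Gm k →* G := e.toMonoidHom.comp (AlgEquiv.restrictNormalHom L)
  have hsurj : Function.Surjective ρ := fun g => by
    obtain ⟨σ, hσ⟩ := AlgEquiv.restrictNormalHom_surjective (F := k) (K₁ := L) (Om k) (e.symm g)
    refine ⟨σ, ?_⟩
    show e (AlgEquiv.restrictNormalHom L σ) = g
    rw [hσ, MulEquiv.apply_symm_apply]
  have hker : ρ.ker = L.fixingSubgroup := by
    have h1 : (AlgEquiv.restrictNormalHom L : Gm k →* (L ≃ₐ[k] L)).ker = L.fixingSubgroup :=
      IntermediateField.restrictNormalHom_ker L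
    rw [← h1]
    ext σ
    rw [MonoidHom.mem_ker, MonoidHom.mem_ker]
    show e (AlgEquiv.restrictNormalHom L σ) = 1 ↔ _
    exact MulEquiv.map_eq_one_iff e
  have hfin : ρ.ker.FiniteIndex := Subgroup.finiteIndex_ker ρ
  have hcl : IsClosed (ρ.ker : Set (Gm k)) := by
    rw [hker]
    exact InfiniteGalois.fixingSubgroup_isClosed L
  exact ⟨ρ, hsurj, lc_of_ker_openK ρ (Subgroup.isOpen_of_isClosed_of_finiteIndex ρ.ker hcl)⟩

end Pool.Agent.H92.EL
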