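import Pool.Agent.H92.EL.TStm
import Pool.Agent.H98.MF.CountHoms4_a
import Pool.Agent.H98.MF.L.Fld

/-!
# Project T4 (MP_a3214d), row T1: Galois extensions and homomorphisms
-/

set_option autoImplicit false

open scoped BigOperators Pointwise Topology
open NumberField IsDedekindDomain Filter

namespace Pool.Agent.H92.EL

open Pool.Agent.H98.MF (Om Gm ord Dec top nrm fld rdN rexp rex fldK_fixing fldK_finite
  fldK_galois exists_resK ker_openK lc_of_ker_openK ch4_disc)

section

variable {k : Type} [Field k] [NumberField k] {G : Type} [Group G]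

/-- a Galois extension comes from a surjection -/
theorem tfl_exists (M : IntermediateField k (Om k)) (hfd : FiniteDimensional k M)
    (hg : IsGalois k M) (e : (M ≃ₐ[k] M) ≃* G) :
    ∃ ρ : Gm k →* G, Function.Surjective ρ ∧ IsLocallyConstant ρ ∧ fld k ρ.ker = M := by
  obtain ⟨π, hπ⟩ : ∃ π : Gm k →* (M ≃ₐ[k] M), π = AlgEquiv.restrictNormalHom M := ⟨_, rfl⟩
  have hπs : Function.Surjective π := by
    rw [hπ]
    exact AlgEquiv.restrictNormalHom_surjective (Om k)
  have hπk : π.ker = M.fixingSubgroup := by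
    rw [hπ]
    exact IntermediateField.restrictNormalHom_ker M
  have hker : (e.toMonoidHom.comp π).ker = M.fixingSubgroup := by
    rw [← hπk]
    ext σ
    rw [MonoidHom.mem_ker, MonoidHom.mem_ker]
    exact e.map_eq_one_iff
  refine ⟨e.toMonoidHom.comp π, e.surjective.comp hπs, lc_of_ker_openK _ ?_, ?_⟩
  · rw [hker]
    exact IntermediateField.fixingSubgroup_isOpen M
  · rw [hker]
    exact InfiniteGalois.fixedField_fixingSubgroup M

/-- the Galois group of the field of a surjection -/
theorem tfl_iso (ρ : Gm k →* G) (hs : Function.Surjective ρ) (hl : IsLocallyConstant ρ) :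
    Nonempty ((fld k ρ.ker ≃ₐ[k] fld k ρ.ker) ≃* G) := by
  obtain ⟨π, h1, h2, -⟩ := exists_resK ρ.ker (ker_openK ρ hl)
  exact ⟨(QuotientGroup.quotientKerEquivOfSurjective π h1).symm.trans
    ((QuotientGroup.quotientMulEquivOfEq h2).trans
      (QuotientGroup.quotientKerEquivOfSurjective ρ hs))⟩

/-- the counting argument -/
theorem tfl_main (B : ℝ) (P : IntermediateField k (Om k) → Prop)
    (hP : ∀ M, P M ↔ FiniteDimensional k M ∧ IsGalois k M ∧ Nonempty ((M ≃ₐ[k] M) ≃* G) ∧
      (rdN M : ℝ) ≤ B) :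
    Nat.card {M : IntermediateField k (Om k) // P M} * Nat.card (MulAut G) =
      Nat.card {ρ : Gm k →* G // ρ ∈ Hk k G ∧ (dG ρ : ℝ) ≤ B} := by
  classical
  let T := {ρ : Gm k →* G // ρ ∈ Hk k G ∧ (dG ρ : ℝ) ≤ B}
  let F : T → {M : IntermediateField k (Om k) // P M} := fun t => ⟨fld k t.1.ker,
    (hP _).2 ⟨fldK_finite _ (ker_openK t.1 t.2.1.2), fldK_galois _ (ker_openK t.1 t.2.1.2),
      tfl_iso t.1 t.2.1.1 t.2.1.2, t.2.2⟩⟩
  have hF : Function.Surjective F := by
    rintro ⟨M, hM⟩
    obtain ⟨hfd, hg, ⟨e⟩, hd⟩ := (hP M).1 hM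
    obtain ⟨ρ, hs, hl, hf⟩ := tfl_exists M hfd hg e
    exact ⟨⟨ρ, ⟨hs, hl⟩, by unfold dG; rw [hf]; exact hd⟩, Subtype.ext hf⟩
  choose R hR using hF
  have hU : ∀ (ρ : Gm k →* G) (α : MulAut G),
      ((α : G ≃* G).toMonoidHom.comp ρ).ker = ρ.ker := by
    intro ρ α
    ext σ
    rw [MonoidHom.mem_ker, MonoidHom.mem_ker]
    exact (α : G ≃* G).map_eq_one_iff
  let tw : T → MulAut G → T := fun t α => ⟨(α : G ≃* G).toMonoidHom.comp t.1,
    ⟨(α : G ≃* G).surjective.comp t.2.1.1, t.2.1.2.comp _⟩, by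
      unfold dG
      rw [hU]
      exact t.2.2⟩
  have hFtw : ∀ t α, F (tw t α) = F t := by
    intro t α
    apply Subtype.ext
    change fld k ((α : G ≃* G).toMonoidHom.comp t.1).ker = fld k t.1.ker
    rw [hU]
  let ψ : {M : IntermediateField k (Om k) // P M} × MulAut G → T := fun x => tw (R x.1) x.2
  have hψ : Function.Bijective ψ := by
    constructor
    · rintro ⟨c, α⟩ ⟨c', α'⟩ h
      have h1 : F (tw (R c) α) = F (tw (R c') α') := congrArg F h
      rw [hFtw, hFtw, hR, hR] at h1
      subst h1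
      have h2 : (tw (R c) α).1 = (tw (R c) α').1 := congrArg Subtype.val h
      have h3 : α = α' := by
        apply MulEquiv.ext
        intro x
        obtain ⟨σ, rfl⟩ := (R c).2.1.1 x
        exact DFunLike.congr_fun h2 σ
      rw [h3]
    · intro t
      set s : T := R (F t) with hs
      have h1 : F s = F t := hR (F t)
      have h1' : fld k s.1.ker = fld k t.1.ker := congrArg Subtype.val h1
      have hk : s.1.ker = t.1.ker := by
        rw [← fldK_fixing _ (ker_openK s.1 s.2.1.2), h1',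
          fldK_fixing _ (ker_openK t.1 t.2.1.2)]
      let a : G ≃* G := (QuotientGroup.quotientKerEquivOfSurjective s.1 s.2.1.1).symm.trans
        ((QuotientGroup.quotientMulEquivOfEq hk).trans
          (QuotientGroup.quotientKerEquivOfSurjective t.1 t.2.1.1))
      have ha : ∀ σ, a (s.1 σ) = t.1 σ := by
        intro σ
        have h2 : (QuotientGroup.quotientKerEquivOfSurjective s.1 s.2.1.1).symm (s.1 σ) =
            (QuotientGroup.mk σ : Gm k ⧸ s.1.ker) := by
          rw [MulEquiv.symm_apply_eq]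
          rfl
        change QuotientGroup.quotientKerEquivOfSurjective t.1 t.2.1.1
          (QuotientGroup.quotientMulEquivOfEq hk
            ((QuotientGroup.quotientKerEquivOfSurjective s.1 s.2.1.1).symm (s.1 σ))) = t.1 σ
        rw [h2]
        rfl
      refine ⟨(F t, a), ?_⟩
      apply Subtype.ext
      apply MonoidHom.ext
      intro σ
      exact ha σ
  have h1 := Nat.card_congr (Equiv.ofBijective ψ hψ)
  rw [Nat.card_prod] at h1
  exact h1

end

/-- T1: fields and homomorphisms -/
theorem sfldG : SFldG := by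
  intro G _ _
  have ha0 : 0 < Nat.card (MulAut G) := by
    have hfin : Finite (MulAut G) := Finite.of_injective (fun α : MulAut G => (α : G → G))
      fun α β h => MulEquiv.ext fun x => congrFun h x
    exact Nat.card_pos
  have ha1 : (0 : ℝ) < Nat.card (MulAut G) := by exact_mod_cast ha0
  refine ⟨1 / Nat.card (MulAut G), by positivity, fun k _ _ X => ?_⟩
  have h1 : NGal k G X * Nat.card (MulAut G) =
      {ρ : Gm k →* G | ρ ∈ Hk k G ∧ (dG ρ : ℝ) ≤ X}.ncard := by
    unfold NGal
    rw [← Nat.card_coe_set_eq, ← Nat.card_coe_set_eq]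
    refine tfl_main X (fun L : IntermediateField k (AlgebraicClosure k) =>
      IsGalois k L ∧ Nonempty ((L ≃ₐ[k] L) ≃* G) ∧
        ∃ h : NumberField L, ((|@NumberField.discr L _ h| : ℤ) : ℝ) ≤
          X * ((|NumberField.discr k| : ℤ) : ℝ) ^ Nat.card G) (fun M => ?_)
    have hfr : FiniteDimensional k M → IsGalois k M → Nonempty ((M ≃ₐ[k] M) ≃* G) →
        Module.finrank k M = Nat.card G := by
      rintro h2 h3 ⟨e⟩
      rw [← Nat.card_congr e.toEquiv]
      exact (IsGalois.card_aut_eq_finrank k M).symm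
    constructor
    · rintro ⟨h2, h3, h4⟩
      have hfd : FiniteDimensional k M := by
        obtain ⟨h5, -⟩ := h4
        have h6 : Module.Finite ℚ M := h5.to_finiteDimensional
        exact Module.Finite.of_restrictScalars_finite ℚ k M
      exact ⟨hfd, h2, h3, (ch4_disc M hfd _ (hfr hfd h2 h3) X).1 h4⟩
    · rintro ⟨hfd, h2, h3, h4⟩
      exact ⟨h2, h3, (ch4_disc M hfd _ (hfr hfd h2 h3) X).2 h4⟩
  have h2 : (NGal k G X : ℝ) * Nat.card (MulAut G) =
      ({ρ : Gm k →* G | ρ ∈ Hk k G ∧ (dG ρ : ℝ) ≤ X}.ncard : ℝ) := by exact_mod_cast h1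
  rw [← h2]
  field_simp

end Pool.Agent.H92.EL
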