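import Pool.Agent.H92.EL.TStm
import Pool.Agent.H92.EL.DbM

/-!
# Project T4 (MP_a3214d), row T2: orbits of the cyclotomic action on the classes of elements of
order `l`
-/

set_option autoImplicit false

open scoped BigOperators Pointwise
open NumberField IsDedekindDomain

namespace Pool.Agent.H92.EL

theorem tbg_rel {k : Type} [Field k] [CharZero k] {G : Type} [Group G] {l : ℕ} (hl : l.Prime)
    (c c' : Ncl l G) : cycG k l G c c' ↔ ∃ u ∈ cyc k l, dbmAct u c = c' := by
  have : NeZero l := ⟨hl.ne_zero⟩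
  constructor
  · rintro ⟨σ, j, hσ, g, hg, hg'⟩
    obtain ⟨w, hw⟩ := HasEnoughRootsOfUnity.exists_primitiveRoot (AlgebraicClosure k) l
    have hw2 : IsPrimitiveRoot (w ^ j) l := by
      rw [← hσ w hw.pow_eq_one]
      exact hw.map_of_injective σ.injective
    have hj : j.Coprime l := (hw.pow_iff_coprime hl.pos j).1 hw2
    refine ⟨ZMod.unitOfCoprime j hj, ⟨σ, fun ζ hζ => ?_⟩, ?_⟩
    · rw [hσ ζ hζ]
      refine dbm_pow hζ ?_
      rw [ZMod.coe_unitOfCoprime, ZMod.val_natCast]
      exact (Nat.mod_modEq _ _).symm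
    · apply Subtype.ext
      rw [dbmAct_mk _ _ g hg, ← hg']
      have hgl : g ^ l = 1 := by
        have h1 := dbm_ord c g hg
        rw [← h1]
        exact pow_orderOf_eq_one g
      have h1 : g ^ ((ZMod.unitOfCoprime j hj : (ZMod l)ˣ) : ZMod l).val = g ^ j := by
        refine dbm_pow hgl ?_
        rw [ZMod.coe_unitOfCoprime, ZMod.val_natCast]
        exact Nat.mod_modEq _ _
      rw [h1]
  · rintro ⟨u, ⟨σ, hσ⟩, hu⟩
    obtain ⟨g, hg, ho⟩ := c.2
    refine ⟨σ, (u : ZMod l).val, hσ, g, hg, ?_⟩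
    rw [← hu]
    exact (dbmAct_mk u c g hg).symm

/-- T2: the number of orbits -/
theorem sbG : SbG := by
  intro k _ _ G _ _ l hl hZ
  let _ : MulAction (dbmH k hl) (Ncl l G) := dbmMA hl G
  have hfree : ∀ c : Ncl l G, MulAction.stabilizer (dbmH k hl) c = ⊥ := by
    intro c
    rw [eq_bot_iff]
    intro u hu
    rw [Subgroup.mem_bot]
    apply Subtype.ext
    exact dbm_free hl hZ u.1 c hu
  have e1 := MulAction.selfEquivOrbitsQuotientProd hfree
  have e2 : Quot (cycG k l G) ≃ Quotient (MulAction.orbitRel (dbmH k hl) (Ncl l G)) := by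
    refine Quot.congr (Equiv.refl _) fun c c' => ?_
    rw [tbg_rel hl]
    show _ ↔ (MulAction.orbitRel (dbmH k hl) (Ncl l G)) c c'
    rw [Setoid.comm', MulAction.orbitRel_apply]
    constructor
    · rintro ⟨u, hu, hcc⟩
      exact ⟨⟨u, hu⟩, hcc⟩
    · rintro ⟨u, hu⟩
      exact ⟨u.1, u.2, hu⟩
  have h3 : Nat.card (Ncl l G) =
      Nat.card (Quotient (MulAction.orbitRel (dbmH k hl) (Ncl l G))) *
        Nat.card (dbmH k hl) := by
    rw [← Nat.card_prod]
    exact Nat.card_congr e1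
  rw [h3]
  unfold bG
  congr 1
  exact Nat.card_congr e2

end Pool.Agent.H92.EL
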