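import Pool.Agent.H92.EL.ZStm

/-!
# Project T4 (MP_a3214d), assembly: the sum over the ramification data, by dominated convergence
-/

set_option autoImplicit false

open scoped BigOperators Pointwise Topology
open NumberField IsDedekindDomain Filter

namespace Pool.Agent.H92.EL

open Pool.Agent.H98.MF (Om Gm ord Dec top nrm fld rdN rexp rex)

theorem zasy_gr_pos (G : Type) [Group G] (l b : ℕ) {X : ℝ} (hX : 2 ≤ X) : 0 < gr G l b X := by
  unfold gr
  have h1 : 0 < X := by linarith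
  exact mul_pos (Real.rpow_pos_of_pos h1 _) (pow_pos (Real.log_pos (by linarith)) _)

open Classical in
/-- the finite set of the primes of `Rw` -/
noncomputable def zasyR {k : Type} [Field k] [NumberField k] {G : Type} [Group G] (T : TM k)
    (S : Finset (HeightOneSpectrum (𝓞 k))) (l : ℕ) (ρ : Gm k →* G) :
    Finset (HeightOneSpectrum (𝓞 k)) :=
  if h : (Rw T S l ρ).Finite then h.toFinset else ∅

theorem zasyR_iff {k : Type} [Field k] [NumberField k] {G : Type} [Group G] (T : TM k)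
    (S : Finset (HeightOneSpectrum (𝓞 k))) (l : ℕ) (ρ : Gm k →* G) (h : (Rw T S l ρ).Finite)
    (R : Finset (HeightOneSpectrum (𝓞 k))) :
    zasyR T S l ρ = R ↔ Rw T S l ρ = (R : Set (HeightOneSpectrum (𝓞 k))) := by
  unfold zasyR
  rw [dif_pos h]
  constructor
  · intro h1
    rw [← h1, Set.Finite.coe_toFinset]
  · intro h1
    apply Finset.coe_injective
    rw [Set.Finite.coe_toFinset, h1]

/-- the count as a sum over the sets `Rw` -/
theorem zasy_tsum {k : Type} [Field k] [NumberField k] {G : Type} [Group G] (T : TM k)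
    (S : Finset (HeightOneSpectrum (𝓞 k))) (l : ℕ)
    (hf : ∀ ρ : Gm k →* G, ρ ∈ Hk k G → (Rw T S l ρ).Finite) (X g : ℝ)
    (hX : {ρ : Gm k →* G | ρ ∈ Hk k G ∧ (dG ρ : ℝ) ≤ X}.Finite) :
    ∑' R : Finset (HeightOneSpectrum (𝓞 k)), ((AR T G l S R X).ncard : ℝ) / g =
      ({ρ : Gm k →* G | ρ ∈ Hk k G ∧ (dG ρ : ℝ) ≤ X}.ncard : ℝ) / g := by
  classical
  have h1 : ∀ R : Finset (HeightOneSpectrum (𝓞 k)), (AR T G l S R X).ncard =
      (hX.toFinset.filter (fun ρ => zasyR T S l ρ = R)).card := by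
    intro R
    rw [← Set.ncard_coe_finset]
    congr 1
    ext ρ
    rw [Finset.mem_coe, Finset.mem_filter, Set.Finite.mem_toFinset]
    constructor
    · rintro ⟨h2, h3, h4⟩
      exact ⟨⟨h2, h4⟩, (zasyR_iff T S l ρ (hf ρ h2) R).2 h3⟩
    · rintro ⟨⟨h2, h4⟩, h3⟩
      exact ⟨h2, (zasyR_iff T S l ρ (hf ρ h2) R).1 h3, h4⟩
  rw [tsum_eq_sum (s := hX.toFinset.image (zasyR T S l))]
  · rw [← Finset.sum_div, Set.ncard_eq_toFinset_card _ hX,
      Finset.card_eq_sum_card_image (zasyR T S l) hX.toFinset]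
    push_cast
    congr 1
    exact Finset.sum_congr rfl fun R _ => by rw [h1 R]
  · intro R hR
    have h2 : hX.toFinset.filter (fun ρ => zasyR T S l ρ = R) = ∅ := by
      rw [Finset.filter_eq_empty_iff]
      intro ρ hρ h3
      exact hR (Finset.mem_image.2 ⟨ρ, hρ, h3⟩)
    rw [h1 R, h2, Finset.card_empty, Nat.cast_zero, zero_div]

theorem zasy (h2 : ZDis) (h3 : ZFix) (h4 : ZUni) (h5 : SSumR) : ZAsy := by
  intro k _ _ T G _ l b hyp hF hU
  rcases Set.eq_empty_or_nonempty (Hk k G) with hE | hE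
  · exact Or.inl hE
  refine Or.inr ?_
  obtain ⟨S, hS, C, w, hC, hw, hb⟩ := h4 k T G l b hyp hU
  obtain ⟨ha, -, -, hd⟩ := h2 k T G l hyp S hS
  choose L hL0 hLt hLp using fun R => h3 k T G l b hyp hF S hS R
  have hsum := h5 k C w hC hw
  have hbd : ∀ R : Finset (HeightOneSpectrum (𝓞 k)), ∀ X : ℝ, 2 ≤ X →
      ((AR T G l S R X).ncard : ℝ) / gr G l b X ≤
        C ^ (R.card + 1) * ((∏ P ∈ R, nrm P : ℕ) : ℝ) ^ (-w) := by
    intro R X hX
    rw [div_le_iff₀ (zasy_gr_pos G l b hX)]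
    exact hb R X hX
  have hLle : ∀ R, L R ≤ C ^ (R.card + 1) * ((∏ P ∈ R, nrm P : ℕ) : ℝ) ^ (-w) := fun R =>
    le_of_tendsto (hLt R) ((eventually_ge_atTop 2).mono fun X hX => hbd R X hX)
  have hLs : Summable L := Summable.of_nonneg_of_le hL0 hLle hsum
  obtain ⟨ρ, hρ⟩ := hE
  have hfin := (ha ρ hρ).2.2
  have hR0 := hLp hfin.toFinset ⟨ρ, hρ, (Set.Finite.coe_toFinset hfin).symm⟩
  refine ⟨∑' R, L R, lt_of_lt_of_le hR0 (hLs.le_tsum _ fun R _ => hL0 R), ?_⟩
  have hlim := tendsto_tsum_of_dominated_convergence (𝓕 := atTop)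
    (f := fun (X : ℝ) (R : Finset (HeightOneSpectrum (𝓞 k))) =>
      ((AR T G l S R X).ncard : ℝ) / gr G l b X) hsum hLt
    ((eventually_ge_atTop 2).mono fun X hX R => by
      rw [Real.norm_of_nonneg (div_nonneg (Nat.cast_nonneg _) (zasy_gr_pos G l b hX).le)]
      exact hbd R X hX)
  refine hlim.congr fun X => ?_
  exact zasy_tsum T S l (fun ρ hρ => (ha ρ hρ).2.2) X (gr G l b X) (hd X)

end Pool.Agent.H92.EL
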