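import Pool.Agent.H92.EL.ZStm

/-!
# Project T4 (MP_a3214d), assembly: the number of homomorphisms with given `Rw`
-/

set_option autoImplicit false

open scoped BigOperators Pointwise Topology
open NumberField IsDedekindDomain Filter

namespace Pool.Agent.H92.EL

open Pool.Agent.H98.MF (Om Gm ord Dec top nrm fld rdN rexp rex)

private theorem z3_growth (m : ℕ) (b q : ℕ) (hq : 1 ≤ q) :
    Tendsto (fun X : ℝ => ((X / (q : ℝ)) ^ (1 / (m : ℝ)) *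
      Real.log ((X / (q : ℝ)) ^ (1 / (m : ℝ))) ^ (b - 1)) /
      (X ^ (1 / (m : ℝ)) * Real.log X ^ (b - 1))) atTop
      (𝓝 (((q : ℝ) ^ (1 / (m : ℝ)))⁻¹ * (1 / (m : ℝ)) ^ (b - 1))) := by
  have hq0 : (0 : ℝ) < q := by exact_mod_cast hq
  have hlog : Tendsto (fun X : ℝ => Real.log (X / (q : ℝ)) / Real.log X) atTop (𝓝 1) := by
    have h1 : Tendsto (fun X : ℝ => 1 - Real.log (q : ℝ) / Real.log X) atTop (𝓝 (1 - 0)) :=
      tendsto_const_nhds.sub (Tendsto.const_div_atTop Real.tendsto_log_atTop _)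
    rw [sub_zero] at h1
    refine h1.congr' ?_
    filter_upwards [eventually_gt_atTop 1] with X hX
    have h2 : Real.log X ≠ 0 := (Real.log_pos hX).ne'
    rw [Real.log_div (by linarith) hq0.ne', sub_div, div_self h2]
  have h2 : Tendsto (fun X : ℝ => ((q : ℝ) ^ (1 / (m : ℝ)))⁻¹ *
      ((1 / (m : ℝ)) * (Real.log (X / (q : ℝ)) / Real.log X)) ^ (b - 1)) atTop
      (𝓝 (((q : ℝ) ^ (1 / (m : ℝ)))⁻¹ * ((1 / (m : ℝ)) * 1) ^ (b - 1))) :=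
    ((hlog.const_mul _).pow _).const_mul _
  rw [mul_one] at h2
  refine h2.congr' ?_
  filter_upwards [eventually_gt_atTop 1] with X hX
  have hX0 : 0 < X := by linarith
  have hl : Real.log X ^ (b - 1) ≠ 0 := pow_ne_zero _ (Real.log_pos hX).ne'
  have hA : X ^ (1 / (m : ℝ)) ≠ 0 := (Real.rpow_pos_of_pos hX0 _).ne'
  have hB : (q : ℝ) ^ (1 / (m : ℝ)) ≠ 0 := (Real.rpow_pos_of_pos hq0 _).ne'
  rw [Real.log_rpow (div_pos hX0 hq0), Real.div_rpow hX0.le hq0.le, mul_pow, mul_pow,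
    div_pow (Real.log (X / (q : ℝ))) (Real.log X)]
  generalize Real.log X ^ (b - 1) = c at hl
  generalize X ^ (1 / (m : ℝ)) = d at hA
  generalize (q : ℝ) ^ (1 / (m : ℝ)) = e at hB
  generalize Real.log (X / (q : ℝ)) ^ (b - 1) = f
  generalize (1 / (m : ℝ)) ^ (b - 1) = g
  field_simp

/-- Z3 -/
theorem zfix (h1 : ZRep) (h2 : ZDis) (h3 : SValT) (h4 : SLocT) : ZFix := by
  classical
  intro k _ _ T G _ l b hyp hInn S hS R
  have hfin := hyp.fin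
  by_cases hRS : Disjoint R S
  swap
  · obtain ⟨P, hPR, hPS⟩ := Finset.not_disjoint_iff.1 hRS
    have hne : ∀ ρ : Gm k →* G, Rw T S l ρ ≠ (R : Set (HeightOneSpectrum (𝓞 k))) := by
      intro ρ h
      have h5 : P ∈ Rw T S l ρ := by
        rw [h]
        exact hPR
      exact h5.1 hPS
    refine ⟨0, le_rfl, ?_, ?_⟩
    · have h5 : ∀ X, AR T G l S R X = ∅ := fun X =>
        Set.eq_empty_of_forall_notMem fun ρ h => hne ρ h.2.1
      simp only [h5, Set.ncard_empty, Nat.cast_zero, zero_div]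
      exact tendsto_const_nhds
    · rintro ⟨ρ, -, h⟩
      exact absurd h (hne ρ)
  obtain ⟨C, -, hF⟩ := h1 k T G l hyp S hS
  obtain ⟨F, -, hFl, hFu⟩ := hF R
  obtain ⟨S', hS'e⟩ : ∃ S' : Finset (HeightOneSpectrum (𝓞 k)), ∀ P, P ∈ S' ↔ P ∈ S ∨ P ∈ R :=
    ⟨S ∪ R, fun P => Finset.mem_union⟩
  have hS' : Ctn S' (Nat.card G) := fun P hP => hS P (fun h => hP ((hS'e P).2 (Or.inl h)))
  obtain ⟨ha, hb, -, hd⟩ := h2 k T G l hyp S' hS'
  obtain ⟨hQ, hq1⟩ := h3 k G S'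
  obtain ⟨m, hm⟩ : ∃ m : ℕ, m = Nat.card G - Nat.card G / l := ⟨_, rfl⟩
  have hm0 : 0 < m := by
    rw [hm]
    exact Nat.sub_pos_of_lt (Nat.div_lt_self Nat.card_pos hyp.prm.one_lt)
  have hmR : (0 : ℝ) < m := by exact_mod_cast hm0
  rw [← hm] at hb
  let H : ℕ → (Gm k →* G) → Prop := fun q ρ => ∃ ρ' : Gm k →* G, ρ' ∈ Hk k G ∧
    (∀ P ∈ S', ∀ σ ∈ Dec P, ρ' σ = ρ σ) ∧ qS S' ρ' = q ∧ ∀ P ∈ R, ρ' (T.tau P) ^ l ≠ 1
  have hHLo : ∀ q, HLo S' (H q) := by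
    rintro q ρ ρ1 he ⟨ρ', k1, k2, k3, k4⟩
    exact ⟨ρ', k1, fun P hP σ hσ => (k2 P hP σ hσ).trans (he P hP σ hσ), k3, k4⟩
  have hHiff : ∀ (q : ℕ) (ρ : Gm k →* G), ρ ∈ Hk k G →
      (H q ρ ↔ (qS S' ρ = q ∧ ∀ P ∈ R, ρ (T.tau P) ^ l ≠ 1)) := by
    intro q ρ hρ
    constructor
    · rintro ⟨ρ', k1, k2, k3, k4⟩
      constructor
      · rw [← k3]
        refine Finset.prod_congr rfl fun P hP => ?_
        rw [h4 k G ρ ρ' hρ k1 P (fun σ hσ => (k2 P hP σ hσ).symm)]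
      · intro P hP
        rw [← k2 P ((hS'e P).2 (Or.inr hP)) _ (T.tm P).decτ]
        exact k4 P hP
    · rintro ⟨k1, k2⟩
      exact ⟨ρ, hρ, fun _ _ _ _ => rfl, k1, k2⟩
  -- the sets of the decomposition
  have hB : ∀ (ρ0 : Gm k →* G) (q : ℕ) (X : ℝ), 0 < X → ∀ ρ : Gm k →* G,
      ρ ∈ HI T l ρ0 (H q) S' ((X / (q : ℝ)) ^ (1 / (m : ℝ))) ↔
        (ρ ∈ AR T G l S R X ∧ Cg l ρ ρ0 ∧ qS S' ρ = q) := by
    intro ρ0 q X hX ρ
    have hdis : ρ ∈ Hk k G → (∀ P, P ∉ S' → ρ (T.tau P) ^ l = 1) → qS S' ρ = q →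
        ((nO T S' ρ : ℝ) ≤ (X / (q : ℝ)) ^ (1 / (m : ℝ)) ↔ (dG ρ : ℝ) ≤ X) := by
      intro e1 e2 e3
      have e4 := hb ρ e1 e2
      have e5 := (hq1 ρ)
      rw [e3] at e4 e5
      have hq0 : (0 : ℝ) < q := by exact_mod_cast e5
      rw [e4, Nat.cast_mul, Nat.cast_pow]
      have e6 : (0 : ℝ) ≤ (nO T S' ρ : ℝ) := Nat.cast_nonneg _
      have e7 : 0 ≤ X / (q : ℝ) := (div_pos hX hq0).le
      rw [one_div, Real.le_rpow_inv_iff_of_pos e6 e7 hmR, Real.rpow_natCast, le_div_iff₀' hq0]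
    constructor
    · rintro ⟨k1, k2, k3, k4, k5⟩
      obtain ⟨k6, k7⟩ := (hHiff q ρ k1).1 k3
      refine ⟨⟨k1, ?_, (hdis k1 k4 k6).1 k5⟩, k2, k6⟩
      ext P
      constructor
      · rintro ⟨k8, k9⟩
        by_contra k10
        exact k9 (k4 P fun k11 => by
          rcases (hS'e P).1 k11 with k12 | k12
          · exact k8 k12
          · exact k10 k12)
      · intro k8
        exact ⟨fun k9 => Finset.disjoint_left.1 hRS k8 k9, k7 P k8⟩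
    · rintro ⟨⟨k1, k2, k3⟩, k4, k5⟩
      have k6 : ∀ P, P ∉ S' → ρ (T.tau P) ^ l = 1 := by
        intro P hP
        by_contra k7
        have k8 : P ∈ Rw T S l ρ := ⟨fun k9 => hP ((hS'e P).2 (Or.inl k9)), k7⟩
        rw [k2] at k8
        exact hP ((hS'e P).2 (Or.inr k8))
      refine ⟨k1, k4, (hHiff q ρ k1).2 ⟨k5, ?_⟩, k6, (hdis k1 k6 k5).2 k3⟩
      intro P hP
      have k8 : P ∈ Rw T S l ρ := by
        rw [k2]
        exact hP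
      exact k8.2
  have hAfin : ∀ X, (AR T G l S R X).Finite := fun X =>
    (hd X).subset fun ρ h => ⟨h.1, h.2.2⟩
  have hpick : ∀ ρ : Gm k →* G, ρ ∈ Hk k G → Rw T S l ρ = (R : Set (HeightOneSpectrum (𝓞 k))) →
      ∃! ρ0, ρ0 ∈ F ∧ Cg l ρ ρ0 := fun ρ k1 k2 => hFu ρ k1 k2.le
  let f : (Gm k →* G) → (Gm k →* G) × ℕ := fun ρ =>
    (if h : ∃ ρ0, ρ0 ∈ F ∧ Cg l ρ ρ0 then h.choose else ρ, qS S' ρ)
  have hf : ∀ ρ : Gm k →* G, ρ ∈ Hk k G → Rw T S l ρ = (R : Set (HeightOneSpectrum (𝓞 k))) →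
      (f ρ).1 ∈ F ∧ Cg l ρ (f ρ).1 := by
    intro ρ k1 k2
    have k3 := (hpick ρ k1 k2).exists
    show (if h : ∃ ρ0, ρ0 ∈ F ∧ Cg l ρ ρ0 then h.choose else ρ) ∈ F ∧
      Cg l ρ (if h : ∃ ρ0, ρ0 ∈ F ∧ Cg l ρ ρ0 then h.choose else ρ)
    rw [dif_pos k3]
    exact k3.choose_spec
  have hcount : ∀ X : ℝ, 0 < X → (AR T G l S R X).ncard =
      ∑ x ∈ F ×ˢ hQ.toFinset, (HI T l x.1 (H x.2) S' ((X / (x.2 : ℝ)) ^ (1 / (m : ℝ)))).ncard := by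
    intro X hX
    rw [Set.ncard_eq_toFinset_card _ (hAfin X),
      Finset.card_eq_sum_card_fiberwise (f := f) (t := F ×ˢ hQ.toFinset)]
    · refine Finset.sum_congr rfl fun x hx => ?_
      rw [← Set.ncard_coe_finset]
      congr 1
      ext ρ
      rw [hB x.1 x.2 X hX ρ, Finset.coe_filter, Set.mem_ofPred_eq, Set.Finite.mem_toFinset]
      constructor
      · rintro ⟨k1, k2⟩
        have k3 := hf ρ k1.1 k1.2.1
        rw [k2] at k3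
        refine ⟨k1, k3.2, ?_⟩
        rw [← k2]
      · rintro ⟨k1, k2, k3⟩
        refine ⟨k1, ?_⟩
        have k4 := hf ρ k1.1 k1.2.1
        have k5 := (hpick ρ k1.1 k1.2.1).unique k4 ⟨(Finset.mem_product.1 hx).1, k2⟩
        exact Prod.ext k5 k3
    · intro ρ hρ
      have hρ' : ρ ∈ AR T G l S R X := by simpa using hρ
      rw [Finset.mem_coe, Finset.mem_product]
      refine ⟨(hf ρ hρ'.1 hρ'.2.1).1, ?_⟩
      rw [Set.Finite.mem_toFinset]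
      exact ⟨ρ, hρ'.1, rfl⟩
  -- the limits
  have hex : ∀ x : (Gm k →* G) × ℕ, ∃ L : ℝ, x ∈ F ×ˢ hQ.toFinset → (0 ≤ L ∧
      Tendsto (fun Y : ℝ => ((HI T l x.1 (H x.2) S' Y).ncard : ℝ) /
        (Y * Real.log Y ^ (b - 1))) atTop (𝓝 L) ∧
      ((∃ Y, (HI T l x.1 (H x.2) S' Y).Nonempty) → 0 < L)) := by
    intro x
    by_cases hx : x ∈ F ×ˢ hQ.toFinset
    · obtain ⟨L, hL⟩ := hInn x.1 (hFl x.1 (Finset.mem_product.1 hx).1) S' hS' (H x.2) (hHLo x.2)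
      exact ⟨L, fun _ => hL⟩
    · exact ⟨0, fun h => absurd h hx⟩
  choose L hL using hex
  have hxq : ∀ x ∈ F ×ˢ hQ.toFinset, 1 ≤ x.2 := by
    intro x hx
    have k1 := (Finset.mem_product.1 hx).2
    rw [Set.Finite.mem_toFinset] at k1
    obtain ⟨ρ, -, k2⟩ := k1
    rw [← k2]
    exact hq1 ρ
  have hterm : ∀ x ∈ F ×ˢ hQ.toFinset, Tendsto (fun X : ℝ =>
      ((HI T l x.1 (H x.2) S' ((X / (x.2 : ℝ)) ^ (1 / (m : ℝ)))).ncard : ℝ) / gr G l b X) atTop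
      (𝓝 (L x * (((x.2 : ℝ) ^ (1 / (m : ℝ)))⁻¹ * (1 / (m : ℝ)) ^ (b - 1)))) := by
    intro x hx
    have hq := hxq x hx
    have hq0 : (0 : ℝ) < x.2 := by exact_mod_cast hq
    have hY : Tendsto (fun X : ℝ => (X / (x.2 : ℝ)) ^ (1 / (m : ℝ))) atTop atTop :=
      (tendsto_rpow_atTop (by positivity)).comp (tendsto_id.atTop_div_const hq0)
    have k1 := ((hL x hx).2.1.comp hY).mul (z3_growth m b x.2 hq)
    refine k1.congr' ?_
    filter_upwards [hY.eventually_gt_atTop 1, eventually_gt_atTop 1] with X hX1 hX2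
    have k2 : 0 < Real.log ((X / (x.2 : ℝ)) ^ (1 / (m : ℝ))) := Real.log_pos hX1
    have k3 : (X / (x.2 : ℝ)) ^ (1 / (m : ℝ)) *
        Real.log ((X / (x.2 : ℝ)) ^ (1 / (m : ℝ))) ^ (b - 1) ≠ 0 :=
      mul_ne_zero (by linarith) (pow_ne_zero _ k2.ne')
    show ((HI T l x.1 (H x.2) S' ((X / (x.2 : ℝ)) ^ (1 / (m : ℝ)))).ncard : ℝ) /
        ((X / (x.2 : ℝ)) ^ (1 / (m : ℝ)) *
          Real.log ((X / (x.2 : ℝ)) ^ (1 / (m : ℝ))) ^ (b - 1)) *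
        (((X / (x.2 : ℝ)) ^ (1 / (m : ℝ)) *
          Real.log ((X / (x.2 : ℝ)) ^ (1 / (m : ℝ))) ^ (b - 1)) /
        (X ^ (1 / (m : ℝ)) * Real.log X ^ (b - 1))) = _
    rw [div_mul_div_cancel₀ k3]
    unfold gr
    rw [← hm]
  refine ⟨∑ x ∈ F ×ˢ hQ.toFinset, L x * (((x.2 : ℝ) ^ (1 / (m : ℝ)))⁻¹ *
    (1 / (m : ℝ)) ^ (b - 1)), ?_, ?_, ?_⟩
  · refine Finset.sum_nonneg fun x hx => ?_
    have k1 := (hL x hx).1
    positivity
  · have k1 := tendsto_finsetSum _ hterm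
    refine k1.congr' ?_
    filter_upwards [eventually_gt_atTop 0] with X hX
    rw [← Finset.sum_div, hcount X hX, Nat.cast_sum]
  · rintro ⟨ρ, k1, k2⟩
    have k3 := hf ρ k1 k2
    have k4 : f ρ ∈ F ×ˢ hQ.toFinset := by
      rw [Finset.mem_product]
      refine ⟨k3.1, ?_⟩
      rw [Set.Finite.mem_toFinset]
      exact ⟨ρ, k1, rfl⟩
    refine Finset.sum_pos' (fun x hx => ?_) ⟨f ρ, k4, ?_⟩
    · have k5 := (hL x hx).1
      positivity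
    · have hq0 : (0 : ℝ) < (f ρ).2 := by exact_mod_cast hxq _ k4
      refine mul_pos ((hL (f ρ) k4).2.2 ?_) (by positivity)
      have k6 : (0 : ℝ) < (dG ρ : ℝ) + 1 := by positivity
      exact ⟨_, ρ, (hB (f ρ).1 (f ρ).2 ((dG ρ : ℝ) + 1) k6 ρ).2
        ⟨⟨k1, k2, by linarith⟩, k3.2, rfl⟩⟩

end Pool.Agent.H92.EL
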