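import Pool.Agent.H92.EL.ZStm

/-!
# Project T4 (MP_a3214d), assembly, Z1: representatives of the classes of homomorphisms modulo
`Om1`
-/

set_option autoImplicit false

open scoped BigOperators Pointwise Topology
open NumberField IsDedekindDomain Filter

namespace Pool.Agent.H92.EL

open Pool.Agent.H98.MF (Om Gm ord Dec top nrm fld rdN rexp rex)

private theorem zrep_cg {k : Type} [Field k] [NumberField k] {G : Type} [Group G] (l : ℕ)
    (ρ ρ' : Gm k →* G) : Cg l ρ ρ' ↔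
      (QuotientGroup.mk' (Om1 l G)).comp ρ = (QuotientGroup.mk' (Om1 l G)).comp ρ' := by
  constructor
  · intro h
    ext σ
    show ((ρ σ : G) : G ⧸ Om1 l G) = ((ρ' σ : G) : G ⧸ Om1 l G)
    rw [QuotientGroup.eq_iff_div_mem, div_eq_mul_inv]
    exact h σ
  · intro h σ
    have h1 : ((ρ σ : G) : G ⧸ Om1 l G) = ((ρ' σ : G) : G ⧸ Om1 l G) :=
      DFunLike.congr_fun h σ
    rw [QuotientGroup.eq_iff_div_mem, div_eq_mul_inv] at h1
    exact h1

theorem zrep (h : SOut) : ZRep := by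
  classical
  intro k _ _ T G _ l hG S hS
  haveI := hG.fin
  haveI := hG.nil
  have hnil : Group.IsNilpotent (G ⧸ Om1 l G) := inferInstance
  have hS' : Ctn S (Nat.card (G ⧸ Om1 l G)) := fun P hP =>
    Nat.Coprime.coprime_dvd_left (Subgroup.card_quotient_dvd_card _) (hS P hP)
  obtain ⟨C, hC1, hC⟩ := h k T (G ⧸ Om1 l G) hnil S hS'
  refine ⟨C, hC1, fun R => ?_⟩
  obtain ⟨hfin, hcard⟩ := hC R
  set q : (Gm k →* G) → (Gm k →* G ⧸ Om1 l G) := fun ρ =>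
    (QuotientGroup.mk' (Om1 l G)).comp ρ with hq
  set D : Set (Gm k →* G) := {ρ | ρ ∈ Hk k G ∧
    Rw T S l ρ ⊆ (R : Set (HeightOneSpectrum (𝓞 k)))} with hDdef
  have hD : ∀ ρ ∈ D, q ρ ∈ Hu T (G ⧸ Om1 l G) (S ∪ R) := by
    rintro ρ ⟨⟨-, hlc⟩, hR⟩
    refine ⟨?_, fun P hP => ?_⟩
    · show IsLocallyConstant fun σ => QuotientGroup.mk' (Om1 l G) (ρ σ)
      exact hlc.comp (QuotientGroup.mk' (Om1 l G))
    · rw [Finset.mem_union, not_or] at hP
      have h1 : ρ (T.tau P) ^ l = 1 := by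
        by_contra h2
        exact hP.2 (Finset.mem_coe.1 (hR ⟨hP.1, h2⟩))
      show ((ρ (T.tau P) : G) : G ⧸ Om1 l G) = 1
      rw [QuotientGroup.eq_one_iff]
      exact Subgroup.subset_closure h1
  have hsub : q '' D ⊆ Hu T (G ⧸ Om1 l G) (S ∪ R) := Set.image_subset_iff.2 hD
  have himf : (q '' D).Finite := hfin.subset hsub
  have hch : ∀ y : (Gm k →* G ⧸ Om1 l G), ∃ ρ : Gm k →* G, y ∈ q '' D → ρ ∈ D ∧ q ρ = y := by
    intro y
    by_cases hy : y ∈ q '' D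
    · obtain ⟨ρ, h1, h2⟩ := hy
      exact ⟨ρ, fun _ => ⟨h1, h2⟩⟩
    · exact ⟨1, fun h1 => absurd h1 hy⟩
  choose g hg using hch
  refine ⟨himf.toFinset.image g, ?_, ?_, ?_⟩
  · refine Finset.card_image_le.trans ?_
    rw [← Set.ncard_eq_toFinset_card _ himf]
    exact (Set.ncard_le_ncard hsub hfin).trans hcard
  · intro ρ hρ
    obtain ⟨y, hy, rfl⟩ := Finset.mem_image.1 hρ
    exact (hg y (himf.mem_toFinset.1 hy)).1.1.2
  · intro ρ hρ hR
    have hy : q ρ ∈ q '' D := ⟨ρ, ⟨hρ, hR⟩, rfl⟩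
    refine ⟨g (q ρ), ⟨Finset.mem_image.2 ⟨q ρ, himf.mem_toFinset.2 hy, rfl⟩,
      (zrep_cg l ρ _).2 (hg _ hy).2.symm⟩, ?_⟩
    rintro ρ' ⟨h1, h2⟩
    obtain ⟨y, hy', rfl⟩ := Finset.mem_image.1 h1
    have h3 : q ρ = q (g y) := (zrep_cg l ρ _).1 h2
    have h4 : q (g y) = y := (hg y (himf.mem_toFinset.1 hy')).2
    rw [h3, h4]

end Pool.Agent.H92.EL
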